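import Pool.Agent.Lib.MP_e1e491_gt.GbA

/-! A hyperbolic group with a visual metric on its boundary gives the structure `HB`. -/

namespace KKC

open Set Filter Topology

namespace Gb

variable {G : Type} [Group G]

/-- `a ^ (-(x|y))`. -/
noncomputable def bb (S : Finset G) (a : ℝ) (x y : G) : ℝ := a ^ (-gp S x y)

/-- The limit of `a ^ (-(u i | v i))` along an ultrafilter. -/
noncomputable def QQ (S : Finset G) (a : ℝ) (u v : ℕ → G) : ℝ :=
  limUnder (hyperfilter ℕ : Filter ℕ) fun i => bb S a (u i) (v i)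

variable {S : Finset G} {a δ : ℝ} (ha : 1 < a) (hS : Subgroup.closure (S : Set G) = ⊤)
  (hδ : ∀ x y z : G, min (gp S x y) (gp S y z) - δ ≤ gp S x z)
include ha

theorem bb_pos (x y : G) : 0 < bb S a x y := Real.rpow_pos_of_pos (by linarith) _

theorem bb_le {x y : G} {t : ℝ} : bb S a x y ≤ a ^ (-t) ↔ t ≤ gp S x y := by
  rw [bb, Real.rpow_le_rpow_left_iff ha, neg_le_neg_iff]

theorem le_bb {x y : G} {t : ℝ} : a ^ (-t) ≤ bb S a x y ↔ gp S x y ≤ t := by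
  rw [bb, Real.rpow_le_rpow_left_iff ha, neg_le_neg_iff]

include hδ in
theorem bb_ultra (x y z : G) : bb S a x z ≤ a ^ δ * max (bb S a x y) (bb S a y z) := by
  have h0 : 0 < a := by linarith
  have key : ∀ t, t - δ ≤ gp S x z → bb S a x z ≤ a ^ δ * a ^ (-t) := fun t ht => by
    rw [← Real.rpow_add h0, show δ + -t = -(t - δ) by ring]
    exact (bb_le ha).mpr ht
  have hp : 0 ≤ a ^ δ := (Real.rpow_pos_of_pos h0 _).le
  rcases le_total (gp S x y) (gp S y z) with h | h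
  · exact (key _ (by simpa [h] using hδ x y z)).trans
      (mul_le_mul_of_nonneg_left (le_max_left _ _) hp)
  · exact (key _ (by simpa [h] using hδ x y z)).trans
      (mul_le_mul_of_nonneg_left (le_max_right _ _) hp)

theorem exists_small {ε : ℝ} (hε : 0 < ε) : ∃ M : ℝ, a ^ (-M) = ε :=
  ⟨-Real.logb a ε, by rw [neg_neg, Real.rpow_logb (by linarith) ha.ne' hε]⟩

theorem asymp_bb {x y : ℕ → G} (h : Asymp S x y) {ε : ℝ} (hε : 0 < ε) :
    ∃ N, ∀ i ≥ N, ∀ j ≥ N, bb S a (x i) (y j) ≤ ε := by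
  obtain ⟨M, rfl⟩ := exists_small ha hε
  obtain ⟨N, hN⟩ := asymp_iff.mp h M
  exact ⟨N, fun i hi j hj => (bb_le ha).mpr (hN i hi j hj)⟩

include hS

theorem bb_le_one (x y : G) : bb S a x y ≤ 1 := by
  have := (bb_le ha (S := S) (x := x) (y := y) (t := 0)).mpr (gp_nonneg hS x y)
  simpa using this

theorem tendsto_QQ (u v : ℕ → G) :
    Tendsto (fun i => bb S a (u i) (v i)) (hyperfilter ℕ) (𝓝 (QQ S a u v)) := by
  obtain ⟨x, -, hx⟩ := (isCompact_Icc (a := (0 : ℝ)) (b := 1)).ultrafilter_le_nhds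
    ((hyperfilter ℕ).map fun i => bb S a (u i) (v i))
    (le_principal_iff.mpr (mem_map.mpr (Eventually.of_forall fun i =>
      ⟨(bb_pos ha _ _).le, bb_le_one ha hS _ _⟩)))
  exact tendsto_nhds_limUnder ⟨x, hx⟩

omit ha hS in
theorem ev_ge (N : ℕ) : ∀ᶠ i in (hyperfilter ℕ : Filter ℕ), N ≤ i :=
  Nat.hyperfilter_le_atTop (eventually_ge_atTop N)

theorem QQ_le {u v : ℕ → G} {c : ℝ} {N : ℕ} (h : ∀ i ≥ N, bb S a (u i) (v i) ≤ c) :
    QQ S a u v ≤ c :=
  le_of_tendsto (tendsto_QQ ha hS u v) ((ev_ge N).mono h)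

theorem QQ_nonneg (u v : ℕ → G) : 0 ≤ QQ S a u v :=
  ge_of_tendsto' (tendsto_QQ ha hS u v) fun _ => (bb_pos ha _ _).le

theorem QQ_le_one (u v : ℕ → G) : QQ S a u v ≤ 1 :=
  QQ_le ha hS (N := 0) fun _ _ => bb_le_one ha hS _ _

omit ha in
theorem QQ_comm (u v : ℕ → G) : QQ S a u v = QQ S a v u := by
  simp only [QQ, bb, gp_comm hS (u _)]

theorem QQ_const (g h : G) : QQ S a (fun _ => g) (fun _ => h) = bb S a g h :=
  tendsto_nhds_unique (tendsto_QQ ha hS _ _) tendsto_const_nhds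

theorem QQ_one (u : ℕ → G) : QQ S a u (fun _ => 1) = 1 :=
  tendsto_nhds_unique (tendsto_QQ ha hS _ _) (by simp [bb, gp_one hS])

theorem QQ_asymp {u v : ℕ → G} (h : Asymp S u v) : QQ S a u v = 0 := by
  refine le_antisymm (le_of_forall_pos_le_add fun ε hε => ?_) (QQ_nonneg ha hS u v)
  obtain ⟨N, hN⟩ := asymp_bb ha h hε
  rw [zero_add]
  exact QQ_le ha hS (N := N) fun i hi => hN i hi i hi

theorem QQ_mob (g : G) (u v : ℕ → G) :
    QQ S a (fun i => g * u i) (fun i => g * v i) * QQ S a u (fun _ => g⁻¹) *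
      QQ S a v (fun _ => g⁻¹) = a ^ (-(wlen S g : ℝ)) * QQ S a u v := by
  refine tendsto_nhds_unique (((tendsto_QQ ha hS _ _).mul (tendsto_QQ ha hS _ _)).mul
    (tendsto_QQ ha hS _ _)) ?_
  convert (tendsto_QQ ha hS u v).const_mul (a ^ (-(wlen S g : ℝ))) using 2 with i
  have h0 : 0 < a := by linarith
  simp only [bb, ← Real.rpow_add h0]
  congr 1
  linarith [gp_mob hS g (u i) (v i)]

include hδ

theorem QQ_ultra (u v w : ℕ → G) : QQ S a u w ≤ a ^ δ * max (QQ S a u v) (QQ S a v w) :=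
  le_of_tendsto_of_tendsto' (tendsto_QQ ha hS _ _)
    (((tendsto_QQ ha hS _ _).max (tendsto_QQ ha hS _ _)).const_mul _)
    fun _ => bb_ultra ha hδ _ _ _

theorem one_le_A : 1 ≤ a ^ δ := by
  have := hδ 1 1 1
  rw [min_self] at this
  exact Real.one_le_rpow ha.le (by linarith)

/-- Two sequences are equal or asymptotic. -/
theorem QQ_change {u u' v v' : ℕ → G} (hu : u = u' ∨ Asymp S u u') (hv : v = v' ∨ Asymp S v v') :
    QQ S a u v ≤ (a ^ δ) ^ 2 * QQ S a u' v' := by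
  have hA := one_le_A ha hS hδ
  have key : ∀ {u u' : ℕ → G} (v : ℕ → G), (u = u' ∨ Asymp S u u') →
      QQ S a u v ≤ a ^ δ * QQ S a u' v := by
    rintro u u' v (rfl | h)
    · exact le_mul_of_one_le_left (QQ_nonneg ha hS _ _) hA
    · have := QQ_ultra ha hS hδ u u' v
      rwa [QQ_asymp ha hS h, max_eq_right (QQ_nonneg ha hS _ _)] at this
  have h1 := key v hu
  have h2 := key u' hv
  rw [QQ_comm hS v, QQ_comm hS v'] at h2
  calc _ ≤ _ := h1
    _ ≤ a ^ δ * (a ^ δ * QQ S a u' v') := mul_le_mul_of_nonneg_left h2 (by linarith)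
    _ = _ := by ring

omit hS in
theorem bb_ultra3 (x y z w : G) {c : ℝ} (h1 : bb S a x y ≤ c) (h2 : bb S a y z ≤ c)
    (h3 : bb S a z w ≤ c) (hA : 1 ≤ a ^ δ) : bb S a x w ≤ (a ^ δ) ^ 2 * c := by
  have hc : 0 ≤ c := (bb_pos ha _ _).le.trans h1
  have b1 : bb S a x z ≤ a ^ δ * c :=
    (bb_ultra ha hδ x y z).trans (mul_le_mul_of_nonneg_left (max_le h1 h2) (by linarith))
  have b2 : bb S a z w ≤ a ^ δ * c := h3.trans (le_mul_of_one_le_left hc hA)
  calc _ ≤ _ := bb_ultra ha hδ x z w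
    _ ≤ a ^ δ * (a ^ δ * c) := mul_le_mul_of_nonneg_left (max_le b1 b2) (by linarith)
    _ = _ := by ring

theorem ev_upper {x x' y y' : ℕ → G} (hx : Asymp S x' x) (hy : Asymp S y y') {c : ℝ}
    (hc : QQ S a x y < c) : ∃ N, ∀ k ≥ N, ∀ l ≥ N, bb S a (x' k) (y' l) ≤ (a ^ δ) ^ 2 * c := by
  have h0 : 0 < c := (QQ_nonneg ha hS x y).trans_lt hc
  obtain ⟨N, hN⟩ := asymp_bb ha hx h0
  obtain ⟨N', hN'⟩ := asymp_bb ha hy h0
  obtain ⟨i, h1, h2, h3⟩ := (((tendsto_QQ ha hS x y).eventually (gt_mem_nhds hc)).and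
    ((ev_ge N).and (ev_ge N'))).exists
  exact ⟨max N N', fun k hk l hl => bb_ultra3 ha hδ _ (x i) (y i) _
    (hN k (le_of_max_le_left hk) i h2) h1.le (hN' i h3 l (le_of_max_le_right hl))
    (one_le_A ha hS hδ)⟩

theorem asymp_of_QQ {x y : ℕ → G} (hx : Asymp S x x) (hy : Asymp S y y) (h : QQ S a x y = 0) :
    Asymp S x y := by
  rw [asymp_iff]
  intro M
  have hA := one_le_A ha hS hδ
  have h0 : 0 < a ^ (-M) := Real.rpow_pos_of_pos (by linarith) _
  obtain ⟨N, hN⟩ := ev_upper ha hS hδ hx hy (c := a ^ (-M) / (a ^ δ) ^ 2) (by rw [h]; positivity)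
  refine ⟨N, fun i hi j hj => (bb_le ha).mp ?_⟩
  have := hN i hi j hj
  rwa [mul_div_cancel₀ _ (by positivity)] at this

theorem ev_lower {x x' y y' : ℕ → G} (hx : Asymp S x x') (hy : Asymp S y' y)
    (h0 : 0 < QQ S a x y) :
    ∃ N, ∀ k ≥ N, ∀ l ≥ N, QQ S a x y / (a ^ δ) ^ 2 ≤ bb S a (x' k) (y' l) := by
  have hA := one_le_A ha hS hδ
  set c := QQ S a x y / (a ^ δ) ^ 2 with hc
  have hc0 : 0 < c := by positivity
  obtain ⟨N, hN⟩ := asymp_bb ha hx (half_pos hc0)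
  obtain ⟨N', hN'⟩ := asymp_bb ha hy (half_pos hc0)
  refine ⟨max N N', fun k hk l hl => ?_⟩
  have : QQ S a x y ≤ (a ^ δ) ^ 2 * max (c / 2) (bb S a (x' k) (y' l)) :=
    QQ_le ha hS (N := max N N') fun i hi => bb_ultra3 ha hδ _ (x' k) (y' l) _
      ((hN i (le_of_max_le_left hi) k (le_of_max_le_left hk)).trans (le_max_left _ _))
      (le_max_right _ _)
      ((hN' l (le_of_max_le_right hl) i (le_of_max_le_right hi)).trans (le_max_left _ _)) hA
  rw [← div_le_iff₀' (by positivity), ← hc, le_max_iff] at this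
  exact this.resolve_left (by linarith)

/-- Comparison with the Gromov product of boundary points. -/
theorem bgp_cmp {x y : {x : ℕ → G // Asymp S x x}}
    (hne : (Quot.mk _ x : Bdry S) ≠ Quot.mk _ y) :
    a ^ (-bgp S (Quot.mk _ x) (Quot.mk _ y)) ≤ (a ^ δ) ^ 2 * (2 * QQ S a x.1 y.1) ∧
      QQ S a x.1 y.1 / (a ^ δ) ^ 2 ≤ a ^ (-bgp S (Quot.mk _ x) (Quot.mk _ y)) := by
  have hA := one_le_A ha hS hδ
  have hH : Hyperbolic S := ⟨δ, hδ⟩
  have h0 : 0 < QQ S a x.1 y.1 := lt_of_le_of_ne (QQ_nonneg ha hS _ _) fun h =>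
    hne (Quot.sound (asymp_of_QQ ha hS hδ x.2 y.2 h.symm))
  obtain ⟨lo, hlo⟩ := exists_small ha (show 0 < (a ^ δ) ^ 2 * (2 * QQ S a x.1 y.1) by positivity)
  obtain ⟨hi, hhi⟩ := exists_small ha (show 0 < QQ S a x.1 y.1 / (a ^ δ) ^ 2 by positivity)
  have key : ∀ x' y' : {x : ℕ → G // Asymp S x x}, (Quot.mk _ x' : Bdry S) = Quot.mk _ x →
      (Quot.mk _ y' : Bdry S) = Quot.mk _ y →
      liminf (fun p : ℕ × ℕ => gp S (x'.1 p.1) (y'.1 p.2)) atTop ∈ Icc lo hi := by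
    intro x' y' hx hy
    obtain ⟨N, hN⟩ := ev_upper ha hS hδ (asymp_of_eq hS hH hx) (asymp_of_eq hS hH hy.symm)
      (c := 2 * QQ S a x.1 y.1) (by linarith)
    obtain ⟨N', hN'⟩ := ev_lower ha hS hδ (asymp_of_eq hS hH hx.symm) (asymp_of_eq hS hH hy) h0
    have e1 : ∀ᶠ p : ℕ × ℕ in atTop, lo ≤ gp S (x'.1 p.1) (y'.1 p.2) :=
      eventually_atTop.mpr ⟨(N, N), fun p hp => (bb_le ha).mp (hlo ▸ hN _ hp.1 _ hp.2)⟩
    have e2 : ∀ᶠ p : ℕ × ℕ in atTop, gp S (x'.1 p.1) (y'.1 p.2) ≤ hi :=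
      eventually_atTop.mpr ⟨(N', N'), fun p hp => (le_bb ha).mp (hhi ▸ hN' _ hp.1 _ hp.2)⟩
    exact ⟨le_liminf_of_le (isCoboundedUnder_ge_of_eventually_le _ e2) e1,
      liminf_le_of_frequently_le e2.frequently ⟨lo, e1⟩⟩
  rw [← hlo, ← hhi, Real.rpow_le_rpow_left_iff ha, Real.rpow_le_rpow_left_iff ha, neg_le_neg_iff,
    neg_le_neg_iff]
  constructor
  · refine (key x y rfl rfl).1.trans (le_csSup ⟨hi, ?_⟩ ⟨x, y, rfl, rfl, rfl⟩)
    rintro _ ⟨x', y', hx, hy, rfl⟩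
    exact (key x' y' hx hy).2
  · refine csSup_le ⟨_, x, y, rfl, rfl, rfl⟩ ?_
    rintro _ ⟨x', y', hx, hy, rfl⟩
    exact (key x' y' hx hy).2

theorem exists_ray {x : ℕ → G} (hx : Asymp S x x) (n : ℕ) :
    ∃ g, wlen S g = n ∧ QQ S a x (fun _ => g) ≤ a ^ δ * a ^ (-(n : ℝ)) := by
  obtain ⟨N, hN⟩ := asymp_iff.mp hx n
  have h1 := hN N le_rfl N le_rfl
  rw [gp_self] at h1
  obtain ⟨g, h2, h3⟩ := exists_init hS (x N) (n := n) (by exact_mod_cast h1)
  have h4 : (n : ℝ) ≤ gp S (x N) g := by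
    rw [gp_comm hS, gp, ← h3, h2]; push_cast; linarith
  refine ⟨g, h2, QQ_le ha hS (N := N) fun i hi => (bb_ultra ha hδ _ (x N) _).trans ?_⟩
  exact mul_le_mul_of_nonneg_left (max_le ((bb_le ha).mpr (hN i hi N le_rfl)) ((bb_le ha).mpr h4))
    (by linarith [one_le_A ha hS hδ])

end Gb

open Gb

/-- The class of a sequence. -/
def Gb.mk {G : Type} [Group G] {S : Finset G} (x : {x : ℕ → G // Asymp S x x}) : Bdry S :=
  Quot.mk _ x

theorem Gb.mk_surj {G : Type} [Group G] {S : Finset G} (ξ : Bdry S) : ∃ x, Gb.mk x = ξ :=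
  Quot.exists_rep ξ

/-- A chosen representative. -/
noncomputable def Gb.out {G : Type} [Group G] {S : Finset G} (ξ : Bdry S) :
    {x : ℕ → G // Asymp S x x} := (Gb.mk_surj ξ).choose

theorem Gb.mk_out {G : Type} [Group G] {S : Finset G} (ξ : Bdry S) : Gb.mk (Gb.out ξ) = ξ :=
  (Gb.mk_surj ξ).choose_spec

/-- A sequence that represents a point of the group or of the boundary. -/
noncomputable def Gb.rep {G : Type} [Group G] {S : Finset G} : G ⊕ Bdry S → ℕ → G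
  | .inl g => fun _ => g
  | .inr ξ => (Gb.out ξ).1

theorem exists_HB {G : Type} [Group G] (S : Finset G) (hS : Subgroup.closure (S : Set G) = ⊤)
    (hH : Hyperbolic S) [MetricSpace (Bdry S)] (hV : IsVisual S) [Nontrivial (Bdry S)] :
    ∃ _ : MulAction G (Bdry S), Nonempty (HB G (Bdry S)) := by
  classical
  let this := act hS
  refine ⟨this, ?_⟩
  obtain ⟨δ, hδ⟩ := id hH
  obtain ⟨a, Cv, ha, hCv, hV⟩ := hV
  have hA := one_le_A ha hS hδ
  set A := a ^ δ with hAd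
  set q : G ⊕ Bdry S → G ⊕ Bdry S → ℝ := fun x y => QQ S a (rep x) (rep y) with hq
  have q0 : ∀ x y, 0 ≤ q x y := fun x y => QQ_nonneg ha hS _ _
  have qc : ∀ x y, q x y = q y x := fun x y => QQ_comm hS _ _
  have hrep : ∀ (g : G) (x : G ⊕ Bdry S),
      rep (g • x) = (fun i => g * rep x i) ∨ Asymp S (rep (g • x)) fun i => g * rep x i := by
    rintro g (h | ξ)
    · exact Or.inl rfl
    · refine Or.inr (asymp_of_eq hS hH (x := out (g • ξ))
        (y := ⟨_, asymp_smul hS g (out ξ).2⟩) ?_)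
      refine (mk_out (g • ξ)).trans ?_
      conv_lhs => rw [← mk_out ξ]
      rfl
  have hrep' : ∀ (g : G) (x : G ⊕ Bdry S),
      (fun i => g * rep x i) = rep (g • x) ∨ Asymp S (fun i => g * rep x i) (rep (g • x)) :=
    fun g x => (hrep g x).imp Eq.symm (asymp_symm hS)
  have m1 : ∀ (g : G) (x y : G ⊕ Bdry S), q (g • x) (g • y) * q x (.inl g⁻¹) * q y (.inl g⁻¹) ≤
      A ^ 2 * (a ^ (-(wlen S g : ℝ)) * q x y) := fun g x y => by
    rw [← QQ_mob ha hS g, ← mul_assoc, ← mul_assoc]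
    exact mul_le_mul_of_nonneg_right (mul_le_mul_of_nonneg_right
      (QQ_change ha hS hδ (hrep g x) (hrep g y)) (q0 _ _)) (q0 _ _)
  have m2 : ∀ (g : G) (x y : G ⊕ Bdry S), a ^ (-(wlen S g : ℝ)) * q x y ≤
      A ^ 2 * (q (g • x) (g • y) * q x (.inl g⁻¹) * q y (.inl g⁻¹)) := fun g x y => by
    rw [← QQ_mob ha hS g, ← mul_assoc, ← mul_assoc]
    exact mul_le_mul_of_nonneg_right (mul_le_mul_of_nonneg_right
      (QQ_change ha hS hδ (hrep' g x) (hrep' g y)) (q0 x (.inl g⁻¹))) (q0 y (.inl g⁻¹))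
  have v1 : ∀ ξ ζ : Bdry S, q (.inr ξ) (.inr ζ) ≤ (A ^ 2 * Cv) * dist ξ ζ ∧
      dist ξ ζ ≤ (2 * A ^ 2 * Cv) * q (.inr ξ) (.inr ζ) := fun ξ ζ => by
    by_cases h : ξ = ζ
    · subst h
      have : q (.inr ξ) (.inr ξ) = 0 := QQ_asymp ha hS (out ξ).2
      simp [this]
    · have h1 : a ^ (-bgp S (mk (out ξ)) (mk (out ζ))) ≤ A ^ 2 * (2 * q (.inr ξ) (.inr ζ)) ∧
          q (.inr ξ) (.inr ζ) / A ^ 2 ≤ a ^ (-bgp S (mk (out ξ)) (mk (out ζ))) :=
        bgp_cmp ha hS hδ (x := out ξ) (y := out ζ) fun e =>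
          h ((mk_out ξ).symm.trans (Eq.trans e (mk_out ζ)))
      rw [mk_out, mk_out, div_le_iff₀' (by positivity)] at h1
      obtain ⟨h2, h3⟩ := hV ξ ζ h
      rw [inv_mul_le_iff₀ hCv] at h2
      constructor
      · exact h1.2.trans (by rw [mul_assoc]; exact mul_le_mul_of_nonneg_left h2 (by positivity))
      · refine h3.trans ((mul_le_mul_of_nonneg_left h1.1 hCv.le).trans (le_of_eq ?_))
        ring
  obtain ⟨ξ1, ξ2, hne⟩ := exists_pair_ne (Bdry S)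
  set c := q (.inr ξ1) (.inr ξ2) / A with hc
  have hc0 : 0 < c := by
    have h1 := (v1 ξ1 ξ2).2
    have h2 := dist_pos.mpr hne
    have h3 : 0 < q (.inr ξ1) (.inr ξ2) := by
      by_contra h
      have : q (.inr ξ1) (.inr ξ2) = 0 := le_antisymm (not_lt.mp h) (q0 _ _)
      rw [this, mul_zero] at h1
      linarith
    positivity
  have hloc : ∀ g : G, ∃ ξ : Bdry S, q (.inr ξ) (.inl g) ≤ A ^ 2 / c * a ^ (-(wlen S g : ℝ)) := by
    intro g
    obtain ⟨ξ, hξ⟩ : ∃ ξ : Bdry S, c ≤ q (.inr ξ) (.inl g⁻¹) := by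
      have h1 : q (.inr ξ1) (.inr ξ2) ≤ A * max (q (.inr ξ1) (.inl g⁻¹)) (q (.inl g⁻¹) (.inr ξ2)) :=
        QQ_ultra ha hS hδ _ _ _
      rw [← div_le_iff₀' (by positivity), ← hc, le_max_iff, qc (.inl g⁻¹)] at h1
      exact h1.elim (fun h => ⟨ξ1, h⟩) fun h => ⟨ξ2, h⟩
    refine ⟨g • ξ, ?_⟩
    have h1 := m1 g (.inr ξ) (.inl 1)
    have h2 : q (.inl 1) (.inl g⁻¹) = 1 := by rw [qc]; exact QQ_one ha hS _
    have h3 : q (.inr ξ) (.inl 1) = 1 := QQ_one ha hS _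
    rw [h2, h3, mul_one, mul_one, Sum.smul_inr, Sum.smul_inl, smul_eq_mul, mul_one] at h1
    rw [div_mul_eq_mul_div, le_div_iff₀ hc0]
    exact (mul_le_mul_of_nonneg_left hξ (q0 _ _)).trans h1
  choose loc hloc using hloc
  set C := A ^ 2 + 2 * A ^ 2 * Cv + A ^ 2 / c with hC
  have p1 : 0 ≤ A ^ 2 * Cv := by positivity
  have p2 : 0 ≤ A ^ 2 / c := by positivity
  have c1 : A ^ 2 ≤ C := by linarith
  have c2 : A ≤ C := le_trans (by nlinarith) c1
  have hp : ∀ t : ℝ, 0 ≤ a ^ t := fun t => (Real.rpow_pos_of_pos (by linarith) _).le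
  exact ⟨{
    a := a
    C := C
    len := wlen S
    q := q
    loc := loc
    ha := ha
    hC := hA.trans c2
    len_eq_zero := wlen_eq_zero hS
    len_inv := wlen_inv hS
    len_mul := wlen_mul hS
    fin := finite_wlen hS
    par := fun g n h => by
      obtain ⟨k, h1, h2⟩ := exists_init hS g (n := n) (by omega)
      exact ⟨k, h1, by omega⟩
    q_comm := qc
    q_nonneg := q0
    q_le_one := fun x y => QQ_le_one ha hS _ _
    q_GG := fun g h => QQ_const ha hS g h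
    ultra := fun x y z => (QQ_ultra ha hS hδ _ (rep y) _).trans
      (mul_le_mul_of_nonneg_right c2 (le_max_of_le_left (q0 x y)))
    q_le := fun ξ ζ => (v1 ξ ζ).1.trans (mul_le_mul_of_nonneg_right (by nlinarith) dist_nonneg)
    le_q := fun ξ ζ => (v1 ξ ζ).2.trans (mul_le_mul_of_nonneg_right (by nlinarith) (q0 _ _))
    mob_le := fun g x y => (m1 g x y).trans
      (mul_le_mul_of_nonneg_right c1 (mul_nonneg (hp _) (q0 _ _)))
    le_mob := fun g x y => (m2 g x y).trans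
      (mul_le_mul_of_nonneg_right c1 (mul_nonneg (mul_nonneg (q0 _ _) (q0 _ _)) (q0 _ _)))
    q_loc := fun g => (hloc g).trans (mul_le_mul_of_nonneg_right (by nlinarith) (hp _))
    ray := fun ξ n => by
      obtain ⟨g, h1, h2⟩ := exists_ray ha hS hδ (out ξ).2 n
      exact ⟨g, h1, h2.trans (mul_le_mul_of_nonneg_right c2 (hp _))⟩ }⟩

end KKC
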