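import Pool.Agent.Lib.MP_e1e491_gt.V3
import Pool.Agent.Lib.MP_e1e491_gt.GbB

/-! Topology for the sphere case: LLC for `HB` on a locally path connected space without cut
points, small hulls, the three point lemma, and the passage from the statement to `HB`. -/

namespace KKC

open Set Metric
open scoped Pointwise

namespace HB

variable {G Z : Type} [Group G] [MetricSpace Z] [CompactSpace Z] [MulAction G Z]
  [ContinuousConstSMul G Z] (H : HB G Z)
include H

/-- LLC1 for an invariant family of sets. -/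
theorem cc_llc1 (F : Set (Set Z)) (hF : ∀ T ∈ F, ∀ g : G, g • T ∈ F)
    (hav : ∀ η > 0, ∃ η' > 0, ∀ T ∈ F, ∀ y, ∀ u ∈ T, ∀ u' ∈ T, η ≤ dist u y → η ≤ dist u' y →
      JoinedIn (T \ ball y η') u u')
    (hpc : ∀ T ∈ F, ∀ u ∈ T, ∀ u' ∈ T, JoinedIn T u u') (M : ℝ) (hM : 1 ≤ M) :
    ∃ M' : ℝ, M ≤ M' ∧ ∀ (s : Z) r, 0 < r → ∀ T ∈ F, ∀ x ∈ T, ∀ y ∈ T,
      dist x s ≤ M * r → dist y s ≤ M * r → JoinedIn (T ∩ closedBall s (M' * r)) x y := by
  obtain ⟨L, hL, hview⟩ := H.view_exists
  obtain ⟨η, hη, hout⟩ := H.view_out L M hL hM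
  obtain ⟨η', hη', hav'⟩ := hav η hη
  obtain ⟨C₂, hC₂, hfar⟩ := H.view_far L hL
  have hC := H.hC
  have h1 : 0 ≤ H.C * L / η := by positivity
  have h2 : 0 ≤ C₂ / η' := by positivity
  refine ⟨M + H.C + H.C * L / η + C₂ / η', by linarith, ?_⟩
  intro s r hr T hT x hx y hy hxs hys
  have hall : H.C ≤ (M + H.C + H.C * L / η + C₂ / η') * r →
      JoinedIn (T ∩ closedBall s ((M + H.C + H.C * L / η + C₂ / η') * r)) x y := by
    intro h
    refine (hpc T hT x hx y hy).mono fun z hz => ⟨hz, ?_⟩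
    exact mem_closedBall.2 ((H.dist_le_C z s).trans h)
  by_cases hr1 : r ≤ 1
  swap
  · apply hall
    have : 1 < r := not_le.1 hr1
    nlinarith
  obtain ⟨g, hg⟩ := hview s r hr hr1
  by_cases hs : η ≤ H.sc g
  · apply hall
    have h3 : η ≤ L * r := hs.trans hg.2.1
    have h4 : H.C ≤ H.C * L / η * r := by
      rw [div_mul_eq_mul_div, le_div_iff₀ hη]
      nlinarith
    have h5 : 0 ≤ (M + H.C + C₂ / η') * r := by positivity
    nlinarith
  have hx' : η ≤ dist (g⁻¹ • x) (H.loc g⁻¹) := by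
    rcases le_max_iff.1 (hout g s r hg x hxs) with h | h
    · exact h
    · exact absurd h hs
  have hy' : η ≤ dist (g⁻¹ • y) (H.loc g⁻¹) := by
    rcases le_max_iff.1 (hout g s r hg y hys) with h | h
    · exact h
    · exact absurd h hs
  have hj := hav' (g⁻¹ • T) (hF T hT g⁻¹) (H.loc g⁻¹) (g⁻¹ • x) (smul_mem_smul_set hx)
    (g⁻¹ • y) (smul_mem_smul_set hy) hx' hy'
  refine CS.v3_transport g hj fun z hz => ⟨smul_mem_smul_set_iff.1 hz.1, ?_⟩
  have h3 : η' ≤ dist (g⁻¹ • z) (H.loc g⁻¹) := not_lt.1 fun h => hz.2 (mem_ball.2 h)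
  have h4 := hfar g s r hg z
  have h5 : dist z s * η' ≤ C₂ * r :=
    (mul_le_mul_of_nonneg_left h3 dist_nonneg).trans h4
  have h6 : dist z s ≤ C₂ / η' * r := by
    rw [div_mul_eq_mul_div, le_div_iff₀ hη']
    exact h5
  have h7 : 0 ≤ (M + H.C + H.C * L / η) * r := by positivity
  rw [mem_closedBall]
  nlinarith

/-- LLC2 for an invariant family of sets. -/
theorem cc_llc2 (F : Set (Set Z)) (hF : ∀ T ∈ F, ∀ g : G, g • T ∈ F)
    (hul : ∀ ε > 0, ∃ δ > 0, ∀ T ∈ F, ∀ u ∈ T, ∀ u' ∈ T, dist u u' ≤ δ →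
      JoinedIn (T ∩ ball u ε) u u') (M : ℝ) (hM : 1 ≤ M) :
    ∃ M' : ℝ, M ≤ M' ∧ ∀ (s : Z) r, 0 < r → ∀ T ∈ F, ∀ x ∈ T, ∀ y ∈ T,
      M' * r ≤ dist x s → M' * r ≤ dist y s → JoinedIn (T \ closedBall s (M * r)) x y := by
  obtain ⟨L, hL, hview⟩ := H.view_exists
  obtain ⟨η, hη, hout⟩ := H.view_out L M hL hM
  obtain ⟨δ, hδ, hul'⟩ := hul (η / 2) (by positivity)
  obtain ⟨C₂, hC₂, hfar⟩ := H.view_far L hL
  have hC := H.hC
  have h1 : 0 ≤ 2 * C₂ / δ := by positivity
  have h2 : 0 ≤ 2 * C₂ / η := by positivity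
  have h3 : 0 ≤ 2 * L * H.C / η := by positivity
  obtain ⟨M', hM'⟩ : ∃ M' : ℝ, M' = M + H.C + 2 * C₂ / δ + 2 * C₂ / η + 2 * L * H.C / η :=
    ⟨_, rfl⟩
  have hM0 : 0 < M' := by linarith
  refine ⟨M', by linarith, ?_⟩
  intro s r hr T hT x hx y hy hxs hys
  have hrC : M' * r ≤ H.C := hxs.trans (H.dist_le_C x s)
  have hr1 : r ≤ 1 := by
    by_contra h
    have : 1 < r := not_le.1 h
    nlinarith
  obtain ⟨g, hg⟩ := hview s r hr hr1
  have hsc : H.sc g < η := by
    have h4 : 2 * L * H.C / η * r ≤ H.C := by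
      have : 2 * L * H.C / η ≤ M' := by linarith
      exact (mul_le_mul_of_nonneg_right this hr.le).trans hrC
    rw [div_mul_eq_mul_div, div_le_iff₀ hη] at h4
    have h5 : 2 * (L * r) ≤ η := by
      have h6 : H.C * (2 * (L * r)) ≤ H.C * η := by linarith
      exact le_of_mul_le_mul_left h6 (by linarith)
    have h7 := hg.2.1
    linarith
  have hnear : ∀ z, M' * r ≤ dist z s → ∀ t, 0 < t → 2 * C₂ / t ≤ M' →
      dist (g⁻¹ • z) (H.loc g⁻¹) ≤ t / 2 := by
    intro z hz t ht htM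
    have h4 := hfar g s r hg z
    have h5 : M' * r * dist (g⁻¹ • z) (H.loc g⁻¹) ≤ C₂ * r :=
      (mul_le_mul_of_nonneg_right hz dist_nonneg).trans h4
    have h6 : M' * dist (g⁻¹ • z) (H.loc g⁻¹) ≤ C₂ := by
      have : r * (M' * dist (g⁻¹ • z) (H.loc g⁻¹)) ≤ r * C₂ := by linarith
      exact le_of_mul_le_mul_left this hr
    rw [div_le_iff₀ ht] at htM
    have h7 : M' * dist (g⁻¹ • z) (H.loc g⁻¹) ≤ M' * (t / 2) := by linarith
    exact le_of_mul_le_mul_left h7 hM0
  have hx1 := hnear x hxs δ hδ (by linarith)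
  have hy1 := hnear y hys δ hδ (by linarith)
  have hx2 := hnear x hxs η hη (by linarith)
  have hxy : dist (g⁻¹ • x) (g⁻¹ • y) ≤ δ := by
    have := dist_triangle_right (g⁻¹ • x) (g⁻¹ • y) (H.loc g⁻¹)
    linarith
  have hj := hul' (g⁻¹ • T) (hF T hT g⁻¹) (g⁻¹ • x) (smul_mem_smul_set hx)
    (g⁻¹ • y) (smul_mem_smul_set hy) hxy
  refine CS.v3_transport g hj fun z hz => ⟨smul_mem_smul_set_iff.1 hz.1, fun hzs => ?_⟩
  have h4 : dist (g⁻¹ • z) (g⁻¹ • x) < η / 2 := mem_ball.1 hz.2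
  have h5 := dist_triangle (g⁻¹ • z) (g⁻¹ • x) (H.loc g⁻¹)
  rcases le_max_iff.1 (hout g s r hg z (mem_closedBall.1 hzs)) with h | h
  · linarith
  · linarith

variable [LocallyPathConnectedSpace Z]

theorem llc1 (hp : ∀ y : Z, IsPathConnected ({y}ᶜ : Set Z)) (hu : IsPathConnected (univ : Set Z))
    (M : ℝ) (hM : 1 ≤ M) : ∃ M' : ℝ, M ≤ M' ∧ ∀ (s : Z) r, 0 < r → ∀ x y : Z,
    dist x s ≤ M * r → dist y s ≤ M * r → JoinedIn (closedBall s (M' * r)) x y := by
  obtain ⟨M', hM', h⟩ := H.cc_llc1 {univ} CS.v3_univ (fun η hη => by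
    obtain ⟨η', hη', h⟩ := avoid_gen (Z := Z) isClosed_univ av_lpc (fun y u hu u' hu' => by
      rw [← compl_eq_univ_sdiff] at hu hu' ⊢
      exact (hp y).joinedIn u hu u' hu') hη
    refine ⟨η', hη', ?_⟩
    rintro _ rfl y u _ u' _ hu hu'
    exact h y u trivial u' trivial hu hu') (by
    rintro _ rfl u h1 u' h2
    exact hu.joinedIn u h1 u' h2) M hM
  refine ⟨M', hM', fun s r hr x y hx hy => ?_⟩
  simpa using h s r hr univ rfl x (mem_univ _) y (mem_univ _) hx hy

theorem llc2 (M : ℝ) (hM : 1 ≤ M) : ∃ M' : ℝ, M ≤ M' ∧ ∀ (s : Z) r, 0 < r → ∀ x y : Z,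
    M' * r ≤ dist x s → M' * r ≤ dist y s → JoinedIn (closedBall s (M * r))ᶜ x y := by
  obtain ⟨M', hM', h⟩ := H.cc_llc2 {univ} CS.v3_univ (fun ε hε => by
    obtain ⟨δ, hδ, h⟩ := ulpc_gen (Z := Z) isClosed_univ av_lpc hε
    refine ⟨δ, hδ, ?_⟩
    rintro _ rfl u _ u' _ hu
    exact h u trivial u' trivial hu) M hM
  refine ⟨M', hM', fun s r hr x y hx hy => ?_⟩
  rw [compl_eq_univ_sdiff]
  exact h s r hr univ rfl x (mem_univ _) y (mem_univ _) hx hy

/-- Small hulls: a continuum between two concentric balls of comparable radii. -/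
theorem exists_hull (hp : ∀ y : Z, IsPathConnected ({y}ᶜ : Set Z))
    (hu : IsPathConnected (univ : Set Z)) : ∃ M : ℝ, 1 ≤ M ∧ ∀ (s : Z) r, 0 < r →
    ∃ B : Set Z, IsCompact B ∧ IsConnected B ∧ closedBall s r ⊆ B ∧ B ⊆ closedBall s (M * r) := by
  obtain ⟨M, hM, h⟩ := H.llc1 hp hu 1 le_rfl
  refine ⟨M, hM, fun s r hr => ⟨closure (pathComponentIn (closedBall s (M * r)) s),
    isClosed_closure.isCompact, ?_, fun x hx => subset_closure ?_,
    closure_minimal pathComponentIn_subset isClosed_closedBall⟩⟩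
  · exact (isPathConnected_pathComponentIn (mem_closedBall_self (by positivity))).isConnected.closure
  · exact h s r hr s x (by simpa using hr.le) (by simpa using hx)

end HB

section T

variable {Z : Type} [TopologicalSpace Z] [PreconnectedSpace Z] [LocallyConnectedSpace Z]

/-- The complement of a component of the complement of a continuum is connected. -/
theorem cc_compl_component {P : Set Z} (hc : IsClosed P) (hP : IsConnected P) (x : Z) :
    IsPreconnected (connectedComponentIn Pᶜ x)ᶜ := by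
  obtain ⟨p, hp⟩ := hP.nonempty
  have hsub : P ⊆ (connectedComponentIn Pᶜ x)ᶜ := fun z hz h => connectedComponentIn_subset _ _ h hz
  refine isPreconnected_of_forall p fun y hy => ?_
  by_cases hyP : y ∈ P
  · exact ⟨P, hsub, hp, hyP, hP.isPreconnected⟩
  set O := connectedComponentIn Pᶜ y with hO
  have hOo : IsOpen O := hc.isOpen_compl.connectedComponentIn
  have hcl : closure O ⊆ P ∪ O := by
    intro z hz
    by_contra hn
    rw [mem_union, not_or] at hn
    obtain ⟨w, h1, h2⟩ := mem_closure_iff.mp hz _ (hc.isOpen_compl.connectedComponentIn (x := z))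
      (mem_connectedComponentIn hn.1)
    refine hn.2 ?_
    rw [hO, connectedComponentIn_eq h2, ← connectedComponentIn_eq h1]
    exact mem_connectedComponentIn hn.1
  have hne : (closure O ∩ P).Nonempty := by
    by_contra hn
    have h1 : IsClosed O := isClosed_of_closure_subset fun z hz =>
      (hcl hz).resolve_left fun h => hn ⟨z, hz, h⟩
    have h2 := (isClopen_iff.mp ⟨h1, hOo⟩).resolve_left
      (Nonempty.ne_empty ⟨y, mem_connectedComponentIn hyP⟩)
    exact connectedComponentIn_subset Pᶜ y (show p ∈ O from h2 ▸ mem_univ p) hp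
  obtain ⟨q, hq1, hq2⟩ := hne
  refine ⟨P ∪ closure O, union_subset hsub (hcl.trans (union_subset hsub fun z hz h => hy ?_)),
    Or.inl hp, Or.inr (subset_closure (mem_connectedComponentIn hyP)),
    hP.isPreconnected.union q hq2 hq1 isPreconnected_connectedComponentIn.closure⟩
  rw [connectedComponentIn_eq h, ← connectedComponentIn_eq hz]
  exact mem_connectedComponentIn hyP

/-- `P` separates `x` from `y`: no connected set off `P` contains both. -/
def Seps {Z : Type} [TopologicalSpace Z] (P : Set Z) (x y : Z) : Prop :=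
  ∀ K : Set Z, IsPreconnected K → Disjoint K P → x ∈ K → y ∉ K

omit [PreconnectedSpace Z] [LocallyConnectedSpace Z] in
theorem Seps.symm {P : Set Z} {x y : Z} (h : Seps P x y) : Seps P y x :=
  fun K h1 h2 hy hx => h K h1 h2 hx hy

/-- Lemma (T): two disjoint continua do not both separate three points pairwise. -/
theorem lemmaT {P P' : Set Z} (hc : IsClosed P) (hP : IsConnected P) (hP' : IsConnected P')
    (hd : Disjoint P P') {x y z : Z} (h1 : Seps P x y) (h2 : Seps P x z) (h3 : Seps P y z)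
    (h1' : Seps P' x y) (h2' : Seps P' x z) (h3' : Seps P' y z) : False := by
  obtain ⟨p, hp⟩ := hP'.nonempty
  set O := connectedComponentIn Pᶜ p with hO
  have hsub : P' ⊆ O := hP'.isPreconnected.subset_connectedComponentIn hp hd.subset_compl_left
  have hOc : IsPreconnected O := isPreconnected_connectedComponentIn
  have hOd : Disjoint O P := disjoint_left.mpr fun w hw => connectedComponentIn_subset _ _ hw
  have hK := cc_compl_component hc hP p
  have hKd : Disjoint Oᶜ P' := disjoint_left.mpr fun w hw h => hw (hsub h)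
  by_cases hx : x ∈ O
  · exact h3' _ hK hKd (h1 O hOc hOd hx) (h2 O hOc hOd hx)
  by_cases hy : y ∈ O
  · exact h2' _ hK hKd hx (h3 O hOc hOd hy)
  · exact h1' _ hK hKd hx hy

end T

/-- The round sphere. -/
abbrev Sph := sphere (0 : EuclideanSpace ℝ (Fin 3)) 1

theorem sph_compl_homeo (y : Sph) : Nonempty (({y}ᶜ : Set Sph) ≃ₜ EuclideanSpace ℝ (Fin 2)) := by
  have : Fact (Module.finrank ℝ (EuclideanSpace ℝ (Fin 3)) = 2 + 1) := ⟨by simp⟩
  have e := (stereographic' 2 y).toHomeomorphSourceTarget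
  rw [stereographic'_source, stereographic'_target] at e
  exact ⟨e.trans (Homeomorph.Set.univ _)⟩

theorem sph_lpc : LocallyPathConnectedSpace Sph := by
  have : Fact (Module.finrank ℝ (EuclideanSpace ℝ (Fin 3)) = 2 + 1) := ⟨by simp⟩
  exact ChartedSpace.locallyPathConnectedSpace (EuclideanSpace ℝ (Fin 2)) Sph

section Sphere

variable {Z : Type} [TopologicalSpace Z] (e : Z ≃ₜ Sph)
include e

theorem sph_compact : CompactSpace Z := e.symm.compactSpace

theorem sph_lpc' : LocallyPathConnectedSpace Z := by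
  have := sph_lpc
  exact e.isOpenEmbedding.locallyPathConnectedSpace

/-- The complement of a point is a plane. -/
theorem sph_chart (y : Z) : Nonempty (({y}ᶜ : Set Z) ≃ₜ EuclideanSpace ℝ (Fin 2)) := by
  obtain ⟨f⟩ := sph_compl_homeo (e y)
  refine ⟨(e.sets ?_).trans f⟩
  ext z
  simp

theorem sph_compl (y : Z) : IsPathConnected ({y}ᶜ : Set Z) := by
  obtain ⟨f⟩ := sph_chart e y
  rw [isPathConnected_iff_pathConnectedSpace]
  exact f.symm.surjective.pathConnectedSpace f.symm.continuous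

theorem sph_univ : IsPathConnected (univ : Set Z) := by
  have : PathConnectedSpace Sph := isPathConnected_iff_pathConnectedSpace.mp
    (isPathConnected_sphere (by rw [← Module.finrank_eq_rank]; simp) _ zero_le_one)
  have := e.symm.surjective.pathConnectedSpace e.symm.continuous
  exact isPathConnected_univ

theorem sph_nontrivial : Nontrivial Z := by
  obtain ⟨x, -⟩ := (sph_univ e).nonempty
  obtain ⟨y, hy⟩ := (sph_compl e x).nonempty
  exact ⟨y, x, hy⟩

end Sphere

/-- From the hypotheses of the statement to `HB`. -/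
theorem exists_all_sph {G : Type} [Group G] (S : Finset G)
    (hS : Subgroup.closure (S : Set G) = ⊤) (hH : Hyperbolic S) [MetricSpace (Bdry S)]
    (hV : IsVisual S) (e : Bdry S ≃ₜ Sph) :
    ∃ _ : MulAction G (Bdry S), ContinuousConstSMul G (Bdry S) ∧ Nonempty (HB G (Bdry S)) := by
  have := sph_nontrivial e
  obtain ⟨inst, ⟨H⟩⟩ := exists_HB S hS hH hV
  exact ⟨inst, ⟨H.continuous_smul⟩, ⟨H⟩⟩

end KKC
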