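import Pool.Agent.Lib.MP_e1e491_gt.V1

/-! Views, Lemma (N). -/

namespace KKC.HB

open Set
open scoped Pointwise

variable {G Z : Type} [Group G] [MetricSpace Z] [MulAction G Z] (H : HB G Z)

theorem view_self (g : G) : H.IsView 1 g (H.loc g) (H.sc g) := by
  refine ⟨?_, ?_, ?_⟩ <;> simp [(H.sc_pos g).le]

theorem IsView.pos {H : HB G Z} {L : ℝ} {g : G} {s : Z} {r : ℝ} (hL : 0 ≤ L)
    (h : H.IsView L g s r) : 0 < r := by
  by_contra hr
  exact absurd ((H.sc_pos g).trans_le h.2.1)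
    (not_lt.2 (mul_nonpos_of_nonneg_of_nonpos hL (not_lt.1 hr)))

theorem IsView.mono {H : HB G Z} {L L' : ℝ} {g : G} {s : Z} {r : ℝ} (hr : 0 ≤ r) (hL : L ≤ L')
    (h : H.IsView L g s r) : H.IsView L' g s r :=
  ⟨h.1.trans (mul_le_mul_of_nonneg_right hL hr), h.2.1.trans (mul_le_mul_of_nonneg_right hL hr),
    h.2.2.trans (mul_le_mul_of_nonneg_right hL (H.sc_pos g).le)⟩

/-- Take `n` with `a ^ (-(n+1)) < r ≤ a ^ (-n)` and `g` from `ray`. -/
theorem view_exists : ∃ L : ℝ, 1 ≤ L ∧ ∀ s r, 0 < r → r ≤ 1 → ∃ g, H.IsView L g s r := by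
  obtain ⟨C₁, hC₁, hq⟩ := H.q_cmp
  have ha := H.ha
  have hC := H.hC
  have ha0 : 0 < H.a := by linarith
  have hCC : 1 ≤ C₁ * H.C := one_le_mul_of_one_le_of_one_le hC₁ hC
  refine ⟨C₁ * H.C * H.a, one_le_mul_of_one_le_of_one_le hCC ha.le, fun s r hr hr1 => ?_⟩
  obtain ⟨n, h1, h2⟩ := exists_nat_pow_near_of_lt_one hr hr1 (inv_pos.2 ha0)
    (inv_lt_one_of_one_lt₀ ha)
  obtain ⟨g, hg, hq'⟩ := H.ray s n
  have e : H.a ^ (-(n : ℝ)) = H.sc g := by rw [sc, hg]
  have e' : H.a⁻¹ ^ n = H.sc g := by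
    rw [← e, Real.rpow_neg ha0.le, Real.rpow_natCast, inv_pow]
  rw [e] at hq'
  rw [e'] at h2
  rw [pow_succ, e', ← div_eq_mul_inv, div_lt_iff₀ ha0] at h1
  have hs := H.sc_pos g
  have h3 : H.sc g ≤ H.a * r := by linarith
  refine ⟨g, ?_, ?_, ?_⟩
  · calc dist s (H.loc g) ≤ C₁ * H.q (.inr s) (.inl g) := (le_max_left _ _).trans (hq s g).2
      _ ≤ C₁ * (H.C * (H.a * r)) := by gcongr; exact hq'.trans (by gcongr)
      _ = _ := by ring
  · calc H.sc g ≤ 1 * (H.a * r) := by linarith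
      _ ≤ C₁ * H.C * (H.a * r) := by gcongr
      _ = _ := by ring
  · exact h2.trans (le_mul_of_one_le_left hs.le (one_le_mul_of_one_le_of_one_le hCC ha.le))

theorem view_move (L M : ℝ) (hL : 1 ≤ L) (hM : 1 ≤ M) : ∃ L' : ℝ, 1 ≤ L' ∧ ∀ g s r s' r',
    H.IsView L g s r → dist s s' ≤ M * r → r ≤ M * r' → r' ≤ M * r → H.IsView L' g s' r' := by
  refine ⟨(L + M) * M, by nlinarith, fun g s r s' r' h h1 h2 h3 => ?_⟩
  have hr := h.pos (by linarith)
  have hs := H.sc_pos g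
  have hr' : 0 < r' := (pos_iff_pos_of_mul_pos (hr.trans_le h2)).1 (by linarith)
  refine ⟨?_, ?_, ?_⟩
  · calc dist s' (H.loc g) ≤ dist s s' + dist s (H.loc g) := dist_triangle_left _ _ _
      _ ≤ (L + M) * r := by linarith [h.1]
      _ ≤ (L + M) * (M * r') := by gcongr
      _ = _ := by ring
  · calc H.sc g ≤ L * r := h.2.1
      _ ≤ (L + M) * (M * r') := by gcongr; linarith
      _ = _ := by ring
  · calc r' ≤ M * r := h3
      _ ≤ M * ((L + M) * H.sc g) := by gcongr; exact h.2.2.trans (by gcongr; linarith)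
      _ = _ := by ring

theorem view_step (L : ℝ) (hL : 1 ≤ L) (K : ℕ) : ∃ L' : ℝ, 1 ≤ L' ∧ ∀ g s r k,
    H.IsView L g s r → H.len k ≤ K → H.IsView L' (g * k) s r := by
  obtain ⟨C₁, hC₁, hl⟩ := H.loc_step
  have ha := H.ha
  have hu : 1 ≤ H.a ^ (K : ℝ) := Real.one_le_rpow ha.le (Nat.cast_nonneg K)
  have hk : ∀ k, H.len k ≤ K → 1 ≤ H.a ^ (K : ℝ) * H.sc k := fun k hk => by
    rw [sc, ← Real.rpow_add (by linarith)]
    exact Real.one_le_rpow ha.le (by rw [← sub_eq_add_neg, sub_nonneg]; exact_mod_cast hk)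
  generalize H.a ^ (K : ℝ) = u at hu hk
  have hCu : 1 ≤ C₁ * u := one_le_mul_of_one_le_of_one_le hC₁ hu
  refine ⟨L * (1 + C₁ * u), by nlinarith, fun g s r k h hK => ?_⟩
  have hr := h.pos (by linarith)
  have hs := H.sc_pos g
  have hs' := H.sc_pos (g * k)
  have h1 := hk k hK
  have hs'' := H.sc_pos k
  have h2 := H.sc_mul g k
  have h3 := H.sc_mul (g * k) k⁻¹
  rw [mul_inv_cancel_right, sc_inv] at h3
  have hu' : u ≤ 1 + C₁ * u := by nlinarith
  refine ⟨?_, ?_, ?_⟩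
  · have h4 : dist (H.loc g) (H.loc (g * k)) ≤ u * (C₁ * (L * r)) :=
      calc dist (H.loc g) (H.loc (g * k)) ≤ dist (H.loc g) (H.loc (g * k)) * (u * H.sc k) :=
            le_mul_of_one_le_right dist_nonneg h1
        _ = u * (dist (H.loc g) (H.loc (g * k)) * H.sc k) := by ring
        _ ≤ u * (C₁ * (L * r)) := by
            gcongr u * ?_
            exact (hl g k).trans (by gcongr; exact h.2.1)
    linarith [dist_triangle s (H.loc g) (H.loc (g * k)), h.1]
  · calc H.sc (g * k) ≤ H.sc (g * k) * (u * H.sc k) := le_mul_of_one_le_right hs'.le h1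
      _ = u * (H.sc (g * k) * H.sc k) := by ring
      _ ≤ (1 + C₁ * u) * (L * r) := by
          gcongr ?_ * ?_
          exact h3.trans h.2.1
      _ = _ := by ring
  · calc r ≤ L * H.sc g := h.2.2
      _ ≤ L * H.sc g * (u * H.sc k) := le_mul_of_one_le_right (by positivity) h1
      _ = L * (u * (H.sc g * H.sc k)) := by ring
      _ ≤ L * ((1 + C₁ * u) * H.sc (g * k)) := by gcongr
      _ = _ := by ring

theorem view_near (L M : ℝ) (hL : 1 ≤ L) (hM : 1 ≤ M) : ∃ K : ℕ, ∀ g s r g' s' r',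
    H.IsView L g s r → H.IsView L g' s' r' → dist s s' ≤ M * r → r ≤ M * r' → r' ≤ M * r →
    H.len (g⁻¹ * g') ≤ K := by
  obtain ⟨L', hL', hm⟩ := H.view_move L M hL hM
  obtain ⟨K, hK⟩ := H.len_le_of_near ((L + L') * (L + L'))
  refine ⟨K, fun g s r g' s' r' h h' h1 h2 h3 => ?_⟩
  have hr' := h'.pos (by linarith)
  have k := hm g s r s' r' h h1 h2 h3
  have hs := H.sc_pos g
  have hs' := H.sc_pos g'
  refine hK g g' ?_ ?_ ?_
  · calc dist (H.loc g) (H.loc g') ≤ dist s' (H.loc g) + dist s' (H.loc g') :=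
          dist_triangle_left _ _ _
      _ ≤ (L + L') * r' := by linarith [k.1, h'.1]
      _ ≤ (L + L') * ((L + L') * H.sc g) := by gcongr; exact k.2.2.trans (by gcongr; linarith)
      _ = _ := by ring
  · calc H.sc g ≤ L' * r' := k.2.1
      _ ≤ (L + L') * ((L + L') * H.sc g') := by
          gcongr
          · linarith
          · exact h'.2.2.trans (by gcongr; linarith)
      _ = _ := by ring
  · calc H.sc g' ≤ L * r' := h'.2.1
      _ ≤ (L + L') * ((L + L') * H.sc g) := by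
          gcongr
          · linarith
          · exact k.2.2.trans (by gcongr; linarith)
      _ = _ := by ring

theorem v2_cmp {H : HB G Z} {L : ℝ} {g : G} {s : Z} {r : ℝ} (hL : 1 ≤ L) (h : H.IsView L g s r)
    (x : Z) : max (dist x (H.loc g)) (H.sc g) ≤ (1 + L * L) * max (dist x s) r ∧
      max (dist x s) r ≤ (1 + L * L) * max (dist x (H.loc g)) (H.sc g) := by
  have hr := h.pos (by linarith)
  have hs := H.sc_pos g
  have hLL : L ≤ L * L := by nlinarith
  have a1 := le_max_left (dist x (H.loc g)) (H.sc g)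
  have a2 := le_max_right (dist x (H.loc g)) (H.sc g)
  have b1 := le_max_left (dist x s) r
  have b2 := le_max_right (dist x s) r
  have c1 : L * r ≤ L * L * max (dist x s) r := by gcongr
  have c2 : L * r ≤ L * L * max (dist x (H.loc g)) (H.sc g) :=
    calc L * r ≤ L * (L * max (dist x (H.loc g)) (H.sc g)) := by
          gcongr; exact h.2.2.trans (by gcongr)
      _ = _ := by ring
  have c3 : r ≤ L * r := le_mul_of_one_le_left hr.le hL
  refine ⟨max_le ?_ ?_, max_le ?_ ?_⟩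
  · linarith [dist_triangle x s (H.loc g), h.1]
  · linarith [h.2.1]
  · linarith [dist_triangle_right x s (H.loc g), h.1]
  · linarith

/-- The master formula: `mobZ` for `g⁻¹`. -/
theorem view_formula (L : ℝ) (hL : 1 ≤ L) : ∃ C₂ : ℝ, 1 ≤ C₂ ∧ ∀ (g : G) s r, H.IsView L g s r →
    ∀ x y : Z,
    dist (g⁻¹ • x) (g⁻¹ • y) * max (dist x s) r * max (dist y s) r ≤ C₂ * (r * dist x y) ∧
    r * dist x y ≤ C₂ * (dist (g⁻¹ • x) (g⁻¹ • y) * max (dist x s) r * max (dist y s) r) := by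
  obtain ⟨C₁, hC₁, hm⟩ := H.mobZ
  have hc : 1 ≤ 1 + L * L := by nlinarith
  refine ⟨(1 + L * L) * (1 + L * L) * C₁ * L, one_le_mul_of_one_le_of_one_le
    (one_le_mul_of_one_le_of_one_le (one_le_mul_of_one_le_of_one_le hc hc) hC₁) hL,
    fun g s r h x y => ?_⟩
  obtain ⟨m1, m2⟩ := hm g⁻¹ x y
  rw [inv_inv, sc_inv] at m1 m2
  obtain ⟨x1, x2⟩ := v2_cmp hL h x
  obtain ⟨y1, y2⟩ := v2_cmp hL h y
  have hr := h.pos (by linarith)
  have hs := H.sc_pos g
  generalize 1 + L * L = c at *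
  constructor
  · calc dist (g⁻¹ • x) (g⁻¹ • y) * max (dist x s) r * max (dist y s) r
        ≤ dist (g⁻¹ • x) (g⁻¹ • y) * (c * max (dist x (H.loc g)) (H.sc g)) *
          (c * max (dist y (H.loc g)) (H.sc g)) := by gcongr
      _ = c * c * (dist (g⁻¹ • x) (g⁻¹ • y) * max (dist x (H.loc g)) (H.sc g) *
          max (dist y (H.loc g)) (H.sc g)) := by ring
      _ ≤ c * c * (C₁ * (L * r * dist x y)) := by
          gcongr c * c * ?_
          exact m1.trans (by gcongr; exact h.2.1)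
      _ = _ := by ring
  · calc r * dist x y ≤ L * H.sc g * dist x y := by gcongr; exact h.2.2
      _ = L * (H.sc g * dist x y) := by ring
      _ ≤ L * (C₁ * (dist (g⁻¹ • x) (g⁻¹ • y) * (c * max (dist x s) r) *
          (c * max (dist y s) r))) := by
          gcongr L * ?_
          exact m2.trans (by gcongr)
      _ = _ := by ring

/-- Points far from `s` are seen near the pole. -/
theorem view_far (L : ℝ) (hL : 1 ≤ L) : ∃ C₂ : ℝ, 1 ≤ C₂ ∧ ∀ (g : G) s r, H.IsView L g s r →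
    ∀ x : Z, dist x s * dist (g⁻¹ • x) (H.loc g⁻¹) ≤ C₂ * r := by
  obtain ⟨C₁, hC₁, hm⟩ := H.conv
  have hC := H.hC
  refine ⟨(C₁ + H.C) * L, by nlinarith, fun g s r h x => ?_⟩
  have m1 := hm g⁻¹ x
  rw [inv_inv, sc_inv] at m1
  have hr := h.pos (by linarith)
  have m2 := H.dist_le_C (g⁻¹ • x) (H.loc g⁻¹)
  calc dist x s * dist (g⁻¹ • x) (H.loc g⁻¹)
      ≤ (dist x (H.loc g) + L * r) * dist (g⁻¹ • x) (H.loc g⁻¹) := by
        gcongr; linarith [dist_triangle_right x s (H.loc g), h.1]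
    _ = dist x (H.loc g) * dist (g⁻¹ • x) (H.loc g⁻¹) + L * r * dist (g⁻¹ • x) (H.loc g⁻¹) := by
        ring
    _ ≤ C₁ * (L * r) + L * r * H.C := by
        gcongr ?_ + L * r * ?_
        exact m1.trans (by gcongr; exact h.2.1)
    _ = _ := by ring

/-- Points near `s` are seen far from the pole (if the view is deep). -/
theorem view_out (L M : ℝ) (hL : 1 ≤ L) (hM : 1 ≤ M) : ∃ η > 0, ∀ (g : G) s r, H.IsView L g s r →
    ∀ x : Z, dist x s ≤ M * r → η ≤ max (dist (g⁻¹ • x) (H.loc g⁻¹)) (H.sc g) := by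
  obtain ⟨C₁, hC₁, hm⟩ := H.conv_ge
  have hp : 0 < C₁ * ((1 + L * L) * (M * L)) := by positivity
  refine ⟨_, inv_pos.2 hp, fun g s r h x hx => ?_⟩
  have m1 := hm g⁻¹ x
  rw [inv_inv, sc_inv] at m1
  have hr := h.pos (by linarith)
  have hs := H.sc_pos g
  have m2 : max (dist x s) r ≤ M * (L * H.sc g) :=
    (max_le hx (le_mul_of_one_le_left hr.le hM)).trans (by gcongr; exact h.2.2)
  rw [inv_le_iff_one_le_mul₀' hp]
  refine le_of_mul_le_mul_left ?_ hs
  calc H.sc g * 1 = H.sc g := mul_one _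
    _ ≤ C₁ * ((1 + L * L) * (M * (L * H.sc g)) *
        max (dist (g⁻¹ • x) (H.loc g⁻¹)) (H.sc g)) := by
        refine m1.trans ?_
        gcongr
        exact (v2_cmp hL h x).1.trans (by gcongr)
    _ = _ := by ring

/-- A set with a point near `s` and of size comparable to `r` is seen big. -/
theorem view_big (L M : ℝ) (hL : 1 ≤ L) (hM : 1 ≤ M) : ∃ δ > 0, ∀ (g : G) s r, H.IsView L g s r →
    ∀ T : Set Z, Big (r / M) T → (∃ b ∈ T, dist b s ≤ M * r) → Big δ (g⁻¹ • T) := by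
  obtain ⟨C₂, hC₂, hf⟩ := H.view_formula L hL
  have hp : 0 < C₂ * (M * (2 * M * M + 1)) := by positivity
  refine ⟨_, inv_pos.2 hp, fun g s r h T ⟨x, hx, y, hy, hxy⟩ ⟨b, hb, hbs⟩ => ?_⟩
  have hr := h.pos (by linarith)
  have hM0 : 0 < M := by linarith
  obtain ⟨z, hz, hbz⟩ : ∃ z ∈ T, r ≤ 2 * M * dist b z := by
    rw [div_le_iff₀ hM0] at hxy
    have t := mul_le_mul_of_nonneg_right (dist_triangle_left x y b) hM0.le
    rcases le_total (dist b x) (dist b y) with k | k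
    · exact ⟨y, hy, by nlinarith⟩
    · exact ⟨x, hx, by nlinarith⟩
  have hd : 0 < dist b z := (pos_iff_pos_of_mul_pos (hr.trans_le hbz)).1 (by linarith)
  have hrM : r ≤ M * r := le_mul_of_one_le_left hr.le hM
  have k1 : max (dist b s) r ≤ M * r := max_le hbs hrM
  have k0 : M * r ≤ M * (2 * M * dist b z) := by gcongr
  have k2 : max (dist z s) r ≤ (2 * M * M + 1) * dist b z :=
    max_le (by linarith [dist_triangle_left z s b]) (by linarith)
  refine ⟨_, smul_mem_smul_set hb, _, smul_mem_smul_set hz, ?_⟩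
  rw [inv_le_iff_one_le_mul₀' hp]
  refine le_of_mul_le_mul_left ?_ (mul_pos hr hd)
  calc r * dist b z * 1 = r * dist b z := mul_one _
    _ ≤ C₂ * (dist (g⁻¹ • b) (g⁻¹ • z) * (M * r) * ((2 * M * M + 1) * dist b z)) :=
        (hf g s r h b z).2.trans (by gcongr)
    _ = _ := by ring

/-- A set that is seen big has a point near `s` and size comparable to `r`. -/
theorem big_view (L : ℝ) (hL : 1 ≤ L) {δ : ℝ} (hδ : 0 < δ) : ∃ M : ℝ, 1 ≤ M ∧ ∀ (g : G) s r,
    H.IsView L g s r → ∀ T : Set Z, Big δ (g⁻¹ • T) →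
    Big (r / M) T ∧ ∃ b ∈ T, dist b s ≤ M * r := by
  obtain ⟨C₂, hC₂, hf⟩ := H.view_formula L hL
  have hp : 0 < 2 * C₂ / δ := by positivity
  have e : 2 * C₂ / δ * δ = 2 * C₂ := div_mul_cancel₀ _ hδ.ne'
  generalize 2 * C₂ / δ = u at hp e
  refine ⟨1 + u, by linarith, ?_⟩
  rintro g s r h T ⟨_, ⟨x, hx, rfl⟩, _, ⟨y, hy, rfl⟩, hxy⟩
  have hr := h.pos (by linarith)
  have key : ∀ x y : Z, δ ≤ dist (g⁻¹ • x) (g⁻¹ • y) →
      2 * (max (dist x s) r * max (dist y s) r) ≤ u * (r * dist x y) := fun x y k => by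
    refine le_of_mul_le_mul_left ?_ hδ
    calc δ * (2 * (max (dist x s) r * max (dist y s) r))
        = 2 * (δ * max (dist x s) r * max (dist y s) r) := by ring
      _ ≤ 2 * (C₂ * (r * dist x y)) := by
          gcongr 2 * ?_
          exact le_trans (by gcongr) (hf g s r h x y).1
      _ = u * δ * (r * dist x y) := by rw [e]; ring
      _ = _ := by ring
  have near : ∀ x y : Z, δ ≤ dist (g⁻¹ • x) (g⁻¹ • y) → dist x s ≤ dist y s →
      dist x s ≤ (1 + u) * r := fun x y k k' => by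
    have hB : 0 < max (dist y s) r := hr.trans_le (le_max_right _ _)
    have k1 : dist x y ≤ 2 * max (dist y s) r := by
      linarith [dist_triangle_right x y s, le_max_left (dist y s) r]
    have k2 : 2 * max (dist y s) r * max (dist x s) r ≤ 2 * max (dist y s) r * (u * r) :=
      calc _ = 2 * (max (dist x s) r * max (dist y s) r) := by ring
        _ ≤ u * (r * (2 * max (dist y s) r)) := (key x y k).trans (by gcongr)
        _ = _ := by ring
    have k3 := le_of_mul_le_mul_left k2 (by positivity)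
    linarith [le_max_left (dist x s) r]
  refine ⟨⟨x, hx, y, hy, ?_⟩, ?_⟩
  · rw [div_le_iff₀ (by linarith)]
    have k1 : r * (2 * r) ≤ r * (u * dist x y) :=
      calc _ = 2 * (r * r) := by ring
        _ ≤ 2 * (max (dist x s) r * max (dist y s) r) := by gcongr <;> exact le_max_right _ _
        _ ≤ u * (r * dist x y) := key x y hxy
        _ = _ := by ring
    have k2 := le_of_mul_le_mul_left k1 hr
    linarith [dist_nonneg (x := x) (y := y)]
  · rcases le_total (dist x s) (dist y s) with k | k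
    · exact ⟨x, hx, near x y hxy k⟩
    · exact ⟨y, hy, near y x (dist_comm (g⁻¹ • x) _ ▸ hxy) k⟩

theorem big_smul {δ : ℝ} (hδ : 0 < δ) : ∃ c > 0, ∀ (g : G) (T : Set Z), Big δ T →
    Big (c * H.sc g) (g • T) ∧ ∃ b ∈ g • T, c * dist b (H.loc g) ≤ H.sc g := by
  obtain ⟨M, hM, h⟩ := H.big_view 1 le_rfl hδ
  have hM0 : 0 < M := by linarith
  refine ⟨M⁻¹, inv_pos.2 hM0, fun g T hT => ?_⟩
  obtain ⟨h1, b, hb, h2⟩ := h g _ _ (H.view_self g) (g • T) (by rwa [inv_smul_smul])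
  rw [div_eq_inv_mul] at h1
  exact ⟨h1, b, hb, (inv_mul_le_iff₀ hM0).2 h2⟩

theorem v2_far {T : Set Z} {p : Z} {η : ℝ} (hp : p ∉ Metric.thickening η T) {x : Z} (hx : x ∈ T) :
    η ≤ dist x p :=
  not_lt.1 fun k => hp (Metric.mem_thickening_iff.2 ⟨x, hx, dist_comm x p ▸ k⟩)

theorem v2_big {T : Set Z} {g : G} {η δ : ℝ} (hp : H.loc g⁻¹ ∉ Metric.thickening η T)
    (hb : Big δ (g • T)) : ∃ x, η ≤ dist x (H.loc g⁻¹) ∧ δ / 2 ≤ dist (g • x) (H.loc g) := by
  obtain ⟨_, ⟨x, hx, rfl⟩, _, ⟨y, hy, rfl⟩, hxy⟩ := hb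
  have t := hxy.trans (dist_triangle_right (g • x) (g • y) (H.loc g))
  rcases le_total (dist (g • x) (H.loc g)) (dist (g • y) (H.loc g)) with k | k
  · exact ⟨y, v2_far hp hy, by linarith⟩
  · exact ⟨x, v2_far hp hx, by linarith⟩

include H in
/-- Lemma (N): one of the two sets is far from the pole. -/
theorem lemmaN {s s' : Set Z} (hs : IsCompact s) (hs' : IsCompact s') (hd : Disjoint s s')
    {δ : ℝ} (hδ : 0 < δ) : {g : G | Big δ (g • s) ∧ Big δ (g • s')}.Finite := by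
  obtain ⟨η, hη, hdj⟩ := hd.exists_thickenings hs hs'.isClosed
  refine (H.conv_finite hη (half_pos hδ)).subset fun g hg => ?_
  by_cases hp : H.loc g⁻¹ ∈ Metric.thickening η s
  · exact H.v2_big (Set.disjoint_left.1 hdj hp) hg.2
  · exact H.v2_big hp hg.1

/-- An invariant set with two points: elements of the stabiliser are located near it. -/
theorem loc_near_of_smul_eq {T : Set Z} (hT : T.Nontrivial) : ∃ M : ℝ, 1 ≤ M ∧ ∀ g : G,
    g • T = T → ∃ b ∈ T, dist b (H.loc g) ≤ M * H.sc g := by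
  obtain ⟨x, hx, y, hy, hxy⟩ := hT
  obtain ⟨c, hc, h⟩ := H.big_smul (dist_pos.2 hxy)
  refine ⟨max 1 c⁻¹, le_max_left _ _, fun g hg => ?_⟩
  obtain ⟨-, b, hb, h1⟩ := h g T ⟨x, hx, y, hy, le_rfl⟩
  refine ⟨b, hg ▸ hb, ((le_inv_mul_iff₀ hc).2 h1).trans ?_⟩
  exact mul_le_mul_of_nonneg_right (le_max_right _ _) (H.sc_pos g).le

include H in
/-- Only finitely many elements see `T` big and a point of `N` far from `T`. -/
theorem finite_big_far {T N : Set Z} (hT : IsCompact T) (hN : IsCompact N) (hd : Disjoint T N)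
    {δ : ℝ} (hδ : 0 < δ) :
    {g : G | Big δ (g • T) ∧ ∃ z ∈ N, ∀ x ∈ T, δ ≤ dist (g • z) (g • x)}.Finite := by
  rcases T.subsingleton_or_nontrivial with h0 | ⟨x, hx, y, hy, hxy⟩
  · refine finite_empty.subset ?_
    rintro g ⟨⟨_, ⟨x, hx, rfl⟩, _, ⟨y, hy, rfl⟩, hxy⟩, -⟩
    rw [h0 hx hy, dist_self] at hxy
    exact absurd hδ (not_lt.2 hxy)
  obtain ⟨η, hη, hdj⟩ := hd.exists_thickenings hT hN.isClosed
  refine ((H.conv_finite hη (half_pos hδ)).union
    (H.conv_finite (half_pos (dist_pos.2 hxy)) (half_pos hδ))).subset ?_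
  rintro g ⟨hb, z, hz, hfar⟩
  by_cases hp : H.loc g⁻¹ ∈ Metric.thickening η T
  swap
  · exact Or.inl (H.v2_big hp hb)
  by_cases hgz : δ / 2 ≤ dist (g • z) (H.loc g)
  · exact Or.inl ⟨z, v2_far (Set.disjoint_left.1 hdj hp) hz, hgz⟩
  have k : ∀ w ∈ T, δ / 2 ≤ dist (g • w) (H.loc g) := fun w hw => by
    linarith [hfar w hw, dist_triangle_right (g • z) (g • w) (H.loc g)]
  have t := dist_triangle_right x y (H.loc g⁻¹)
  rcases le_total (dist x (H.loc g⁻¹)) (dist y (H.loc g⁻¹)) with k' | k'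
  · exact Or.inr ⟨y, by linarith, k y hy⟩
  · exact Or.inr ⟨x, by linarith, k x hx⟩

end KKC.HB
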