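import Pool.Agent.Lib.MP_e1e491_gt.Defs

/-! Elementary estimates. -/

namespace KKC

namespace HB

open Set
open scoped Pointwise Classical

set_option linter.unusedSectionVars false

variable {G Z : Type} [Group G] [MetricSpace Z] [CompactSpace Z] [MulAction G Z] (H : HB G Z)
  {A : Subgroup G} {C : Set Z} {K : ℕ}

theorem s1b_a_pos : 0 < H.a := one_pos.trans H.ha

theorem s1b_C_pos : 0 < H.C := one_pos.trans_le H.hC

theorem s1b_len_one : H.len 1 = 0 := (H.len_eq_zero 1).2 rfl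

theorem s1b_len_le (g s : G) : (H.len g : ℝ) ≤ H.len (g * s) + H.len s := by
  have h := H.len_mul (g * s) s⁻¹
  rw [mul_inv_cancel_right, H.len_inv] at h
  exact_mod_cast h

theorem s1b_sc_eq (g : G) : H.sc g = H.a⁻¹ ^ H.len g := by
  rw [sc, Real.rpow_neg H.s1b_a_pos.le, Real.rpow_natCast, inv_pow]

theorem s1b_bound (M : ℝ) : ∃ K : ℕ, ∀ n : ℕ, H.a ^ n ≤ M → n ≤ K := by
  obtain ⟨K, hK⟩ := pow_unbounded_of_one_lt M H.ha
  exact ⟨K, fun n hn => ((pow_lt_pow_iff_right₀ H.ha).1 (hn.trans_lt hK)).le⟩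

theorem s1_sc_pos (g : G) : 0 < H.sc g := by
  exact Real.rpow_pos_of_pos H.s1b_a_pos _

theorem s1_sc_le_one (g : G) : H.sc g ≤ 1 := by
  exact Real.rpow_le_one_of_one_le_of_nonpos H.ha.le (neg_nonpos.2 (Nat.cast_nonneg _))

theorem s1_sc_inv (g : G) : H.sc g⁻¹ = H.sc g := by
  rw [sc, sc, H.len_inv]

theorem s1_q_self (g : G) : H.q (.inl g) (.inl g) = H.sc g := by
  rw [H.q_GG, inv_mul_cancel, H.s1b_len_one, sc]
  congr 1
  push_cast
  ring

theorem s1_q_one (g : G) : H.q (.inl 1) (.inl g) = 1 := by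
  rw [H.q_GG, inv_one, one_mul, H.s1b_len_one]
  simp

theorem s1_q_sq (g h : G) : H.q (.inl g) (.inl h) ^ 2 =
    H.a ^ (H.len (g⁻¹ * h) : ℝ) * (H.sc g * H.sc h) := by
  rw [H.q_GG, ← Real.rpow_natCast, ← Real.rpow_mul H.s1b_a_pos.le, sc, sc,
    ← Real.rpow_add H.s1b_a_pos, ← Real.rpow_add H.s1b_a_pos]
  congr 1
  push_cast
  ring

theorem s1_sc_le_q (g : G) (x : G ⊕ Z) : H.sc g ≤ H.C * H.q x (.inl g) := by
  have h := H.ultra (.inl g) x (.inl g)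
  rwa [H.s1_q_self, H.q_comm (.inl g) x, max_self] at h

theorem s1_sc_mul (g s : G) : H.sc (g * s) ≤ H.a ^ (H.len s : ℝ) * H.sc g := by
  rw [sc, sc, ← Real.rpow_add H.s1b_a_pos]
  refine Real.rpow_le_rpow_of_exponent_le H.ha.le ?_
  linarith [H.s1b_len_le g s]

theorem s1_q_mul (g s : G) : H.q (.inl g) (.inl (g * s)) ≤ H.a ^ (H.len s : ℝ) * H.sc g := by
  rw [H.q_GG, inv_mul_cancel_left, sc, ← Real.rpow_add H.s1b_a_pos]
  refine Real.rpow_le_rpow_of_exponent_le H.ha.le ?_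
  linarith [H.s1b_len_le g s]

theorem s1_len_le (M : ℝ) : ∃ K : ℕ, ∀ g h : G, H.q (.inl g) (.inl h) ≤ M * H.sc g →
    H.q (.inl g) (.inl h) ≤ M * H.sc h → H.len (g⁻¹ * h) ≤ K := by
  obtain ⟨K, hK⟩ := H.s1b_bound (M * M)
  refine ⟨K, fun g h h1 h2 => hK _ ?_⟩
  have h3 := mul_le_mul h1 h2 (H.q_nonneg _ _) ((H.q_nonneg _ _).trans h1)
  rw [← sq, H.s1_q_sq, Real.rpow_natCast, mul_mul_mul_comm] at h3
  exact le_of_mul_le_mul_right h3 (mul_pos (H.s1_sc_pos g) (H.s1_sc_pos h))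

theorem s1_q_le_loc (ξ : Z) (g : G) :
    H.q (.inr ξ) (.inl g) ≤ H.C ^ 2 * max (dist ξ (H.loc g)) (H.sc g) := by
  refine (H.ultra _ (.inr (H.loc g)) _).trans ?_
  rw [sq, mul_assoc, mul_max_of_nonneg (dist _ _) _ H.s1b_C_pos.le]
  exact mul_le_mul_of_nonneg_left (max_le_max (H.q_le _ _) (H.q_loc g)) H.s1b_C_pos.le

theorem s1_dist_loc (ξ : Z) (g : G) : dist ξ (H.loc g) ≤ H.C ^ 4 * H.q (.inr ξ) (.inl g) := by
  have hC := H.s1b_C_pos
  have h0 := H.q_nonneg (.inr ξ) (.inl g)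
  have h1 : H.q (.inl g) (.inr (H.loc g)) ≤ H.C * (H.C * H.q (.inr ξ) (.inl g)) := by
    rw [H.q_comm]
    exact (H.q_loc g).trans (mul_le_mul_of_nonneg_left (H.s1_sc_le_q g _) hC.le)
  have h2 : H.q (.inr ξ) (.inl g) ≤ H.C * (H.C * H.q (.inr ξ) (.inl g)) :=
    (le_mul_of_one_le_left h0 H.hC).trans (le_mul_of_one_le_left (mul_nonneg hC.le h0) H.hC)
  calc dist ξ (H.loc g) ≤ H.C * (H.C * (H.C * (H.C * H.q (.inr ξ) (.inl g)))) :=
        (H.le_q _ _).trans (mul_le_mul_of_nonneg_left ((H.ultra _ (.inl g) _).trans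
          (mul_le_mul_of_nonneg_left (max_le h2 h1) hC.le)) hC.le)
    _ = _ := by ring

theorem s1_loc_mul (K : ℕ) : ∃ L : ℝ, 1 ≤ L ∧ ∀ g s : G, H.len s ≤ K →
    dist (H.loc g) (H.loc (g * s)) ≤ L * H.sc g := by
  have hC := H.s1b_C_pos
  have hK : 0 < H.a ^ (K : ℝ) := Real.rpow_pos_of_pos H.s1b_a_pos _
  refine ⟨H.C ^ 5 * (H.C + H.a ^ (K : ℝ)), one_le_mul_of_one_le_of_one_le (one_le_pow₀ H.hC)
    (by linarith [H.hC]), fun g s hs => ?_⟩
  have h0 := H.s1_sc_pos g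
  have h1 : H.q (.inr (H.loc g)) (.inl g) ≤ (H.C + H.a ^ (K : ℝ)) * H.sc g :=
    (H.q_loc g).trans (mul_le_mul_of_nonneg_right (by linarith) h0.le)
  have h2 : H.q (.inl g) (.inl (g * s)) ≤ (H.C + H.a ^ (K : ℝ)) * H.sc g := by
    refine (H.s1_q_mul g s).trans (mul_le_mul_of_nonneg_right ?_ h0.le)
    have h3 : H.a ^ (H.len s : ℝ) ≤ H.a ^ (K : ℝ) :=
      Real.rpow_le_rpow_of_exponent_le H.ha.le (by exact_mod_cast hs)
    linarith
  calc dist (H.loc g) (H.loc (g * s))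
      ≤ H.C ^ 4 * (H.C * ((H.C + H.a ^ (K : ℝ)) * H.sc g)) :=
        (H.s1_dist_loc _ _).trans (mul_le_mul_of_nonneg_left ((H.ultra _ (.inl g) _).trans
          (mul_le_mul_of_nonneg_left (max_le h1 h2) hC.le)) (pow_pos hC 4).le)
    _ = _ := by ring

theorem s1_fin_sc {ε : ℝ} (hε : 0 < ε) : {g : G | ε ≤ H.sc g}.Finite := by
  obtain ⟨K, hK⟩ := H.s1b_bound ε⁻¹
  refine (H.fin K).subset fun g hg => hK _ ?_
  have h : ε ≤ H.sc g := hg
  rw [H.s1b_sc_eq, inv_pow] at h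
  exact (le_inv_comm₀ hε (pow_pos H.s1b_a_pos _)).1 h

theorem s1_card_ball : ∃ B : ℕ, 1 ≤ B ∧ ∀ (n : ℕ) (T : Finset G), (∀ g ∈ T, H.len g ≤ n) →
    T.card ≤ B ^ n := by
  refine ⟨(H.fin 1).toFinset.card, Finset.card_pos.2 ⟨1, ?_⟩, fun n => ?_⟩
  · exact (Finite.mem_toFinset _).2 (H.s1b_len_one.trans_le zero_le_one)
  induction n with
  | zero =>
    intro T hT
    rw [pow_zero]
    exact Finset.card_le_one.2 fun x hx y hy => by
      rw [(H.len_eq_zero x).1 (Nat.le_zero.1 (hT x hx)),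
        (H.len_eq_zero y).1 (Nat.le_zero.1 (hT y hy))]
  | succ n ih =>
    intro T hT
    have h1 : T ⊆ (H.fin n).toFinset * (H.fin 1).toFinset := fun g hg => by
      rcases (hT g hg).eq_or_lt with e | e
      · obtain ⟨h, e1, e2⟩ := H.par g n e
        refine Finset.mem_mul.2 ⟨h, ?_, h⁻¹ * g, ?_, mul_inv_cancel_left _ _⟩
        · exact (Finite.mem_toFinset _).2 e1.le
        · exact (Finite.mem_toFinset _).2 e2.le
      · refine Finset.mem_mul.2 ⟨g, ?_, 1, ?_, mul_one _⟩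
        · exact (Finite.mem_toFinset _).2 (Nat.le_of_lt_succ e)
        · exact (Finite.mem_toFinset _).2 (H.s1b_len_one.trans_le zero_le_one)
    refine ((Finset.card_le_card h1).trans Finset.card_mul_le).trans ?_
    rw [pow_succ]
    exact Nat.mul_le_mul_right _ (ih _ fun g hg => (H.fin n).mem_toFinset.1 hg)

theorem s1_diam (x y : Z) : dist x y ≤ H.C := by
  exact (H.le_q x y).trans (mul_le_of_le_one_right H.s1b_C_pos.le (H.q_le_one _ _))

/-- Left translations are Lipschitz for `q`. -/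
theorem s1_q_smul (g : G) (x y : G ⊕ Z) :
    H.q (g • x) (g • y) ≤ H.C ^ 3 / H.sc g * H.q x y := by
  have hC := H.s1b_C_pos
  have h0 := H.s1_sc_pos g
  have h1 := H.s1_sc_le_q g⁻¹ x
  have h2 := H.s1_sc_le_q g⁻¹ y
  rw [H.s1_sc_inv] at h1 h2
  have h3 : H.q (g • x) (g • y) * H.q x (.inl g⁻¹) * H.q y (.inl g⁻¹) ≤ H.C * (H.sc g * H.q x y) :=
    H.mob_le g x y
  have h4 := mul_le_mul_of_nonneg_left (mul_le_mul h1 h2 h0.le (h0.le.trans h1))
    (H.q_nonneg (g • x) (g • y))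
  have h5 := mul_le_mul_of_nonneg_left h3 (pow_pos hC 2).le
  rw [div_mul_eq_mul_div, le_div_iff₀ h0]
  refine le_of_mul_le_mul_right ?_ h0
  linarith

/-- The image of a point that is far from the pole. -/
theorem s1_q_img (g : G) (x : G ⊕ Z) :
    H.q (g • x) (.inl g) * H.q x (.inl g⁻¹) ≤ H.C * H.sc g := by
  have h := H.mob_le g x (.inl 1)
  rw [H.s1_q_one, mul_one, Sum.smul_inl, smul_eq_mul, mul_one] at h
  exact h.trans (mul_le_mul_of_nonneg_left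
    (mul_le_of_le_one_right (H.s1_sc_pos g).le (H.q_le_one _ _)) H.s1b_C_pos.le)

theorem s1_qc_top : H.QC ⊤ univ := by
  have hC := H.s1b_C_pos
  have ha := H.s1b_a_pos
  have hC5 : 1 ≤ H.C ^ 5 := one_le_pow₀ H.hC
  have hL : 1 ≤ H.C ^ 5 * H.a := one_le_mul_of_one_le_of_one_le hC5 H.ha.le
  refine ⟨H.C ^ 5 * H.a, hL, fun a _ => ⟨H.loc a, trivial, ?_⟩, fun ξ _ r hr hr1 => ?_⟩
  · rw [dist_self]
    exact mul_nonneg (zero_le_one.trans hL) (H.s1_sc_pos a).le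
  obtain ⟨n, h1, h2⟩ := exists_nat_pow_near_of_lt_one hr hr1 (inv_pos.2 ha)
    (inv_lt_one_of_one_lt₀ H.ha)
  obtain ⟨g, e1, e2⟩ := H.ray ξ (n + 1)
  have h0 := H.s1_sc_pos g
  have h3 : H.sc g ≤ r := by
    rw [H.s1b_sc_eq, e1]
    exact h1.le
  have h4 : r ≤ H.a * H.sc g := by
    rwa [H.s1b_sc_eq, e1, pow_succ', mul_inv_cancel_left₀ ha.ne']
  have h5 : H.q (.inr ξ) (.inl g) ≤ H.C * r := by
    rw [← e1] at e2
    exact e2.trans (mul_le_mul_of_nonneg_left h3 hC.le)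
  refine ⟨g, trivial, ?_, h3.trans (le_mul_of_one_le_left hr.le hL), h4.trans ?_⟩
  · calc dist ξ (H.loc g) ≤ H.C ^ 4 * (H.C * r) :=
          (H.s1_dist_loc ξ g).trans (mul_le_mul_of_nonneg_left h5 (pow_pos hC 4).le)
      _ = H.C ^ 5 * r := by ring
      _ ≤ _ := mul_le_mul_of_nonneg_right (le_mul_of_one_le_right (by positivity) H.ha.le) hr.le
  · exact mul_le_mul_of_nonneg_right (le_mul_of_one_le_left ha.le hC5) h0.le

end HB

end KKC
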