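import Pool.Agent.Lib.MP_e1e491_gt.S1B

/-! Quasiconvexity of stabilisers. -/

namespace KKC

namespace HB

open Set
open scoped Pointwise Classical

set_option linter.unusedSectionVars false

variable {G Z : Type} [Group G] [MetricSpace Z] [CompactSpace Z] [MulAction G Z] (H : HB G Z)
  {A : Subgroup G} {C : Set Z} {K : ℕ}

theorem s1q_one {x0 y0 : Z} (hd : 0 < dist x0 y0) (g : G) : ∃ x, (x = x0 ∨ x = y0) ∧
    dist (g • x) (H.loc g) ≤ H.C ^ 7 / dist x0 y0 * H.sc g := by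
  have hC : 0 < H.C := lt_of_lt_of_le one_pos H.hC
  obtain ⟨x, hx, h1⟩ : ∃ x, (x = x0 ∨ x = y0) ∧
      dist x0 y0 ≤ H.C ^ 2 * H.q (.inr x) (.inl g⁻¹) := by
    have h1 := H.le_q x0 y0
    have h2 := mul_le_mul_of_nonneg_left (H.ultra (.inr x0) (.inl g⁻¹) (.inr y0)) hC.le
    rw [H.q_comm (.inl g⁻¹)] at h2
    rcases le_total (H.q (.inr x0) (.inl g⁻¹)) (H.q (.inr y0) (.inl g⁻¹)) with h | h
    · rw [max_eq_right h] at h2
      exact ⟨y0, Or.inr rfl, by linarith⟩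
    · rw [max_eq_left h] at h2
      exact ⟨x0, Or.inl rfl, by linarith⟩
  refine ⟨x, hx, ?_⟩
  have h2 : H.q (.inr (g • x)) (.inl g) * H.q (.inr x) (.inl g⁻¹) ≤ H.C * H.sc g :=
    H.s1_q_img g (.inr x)
  have h3 := H.s1_dist_loc (g • x) g
  have h4 := H.q_nonneg (.inr (g • x)) (.inl g)
  rw [div_mul_eq_mul_div, le_div_iff₀ hd]
  calc dist (g • x) (H.loc g) * dist x0 y0
      ≤ H.C ^ 4 * H.q (.inr (g • x)) (.inl g) * (H.C ^ 2 * H.q (.inr x) (.inl g⁻¹)) :=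
        mul_le_mul h3 h1 hd.le (by positivity)
    _ = H.C ^ 6 * (H.q (.inr (g • x)) (.inl g) * H.q (.inr x) (.inl g⁻¹)) := by ring
    _ ≤ H.C ^ 6 * (H.C * H.sc g) := mul_le_mul_of_nonneg_left h2 (by positivity)
    _ = H.C ^ 7 * H.sc g := by ring

theorem s1q_big {L κ r : ℝ} (hL : 1 ≤ L) (hκ : κ ≤ 1) (hr : 0 < r) {g : G} {ξ η : Z}
    (hg : H.IsView L g ξ r) (hη : dist ξ η = κ * r) :
    κ / (H.C ^ 7 * L ^ 2 * (L + 1)) ≤ dist (g⁻¹ • ξ) (g⁻¹ • η) := by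
  have hC : 0 < H.C := lt_of_lt_of_le one_pos H.hC
  have hL0 : 0 < L := lt_of_lt_of_le one_pos hL
  obtain ⟨v1, v2, v3⟩ := hg
  have h1 : H.sc g⁻¹ * H.q (.inr ξ) (.inr η) ≤ H.C * (H.q (.inr (g⁻¹ • ξ)) (.inr (g⁻¹ • η)) *
      H.q (.inr ξ) (.inl g⁻¹⁻¹) * H.q (.inr η) (.inl g⁻¹⁻¹)) := H.le_mob g⁻¹ (.inr ξ) (.inr η)
  rw [inv_inv, H.s1_sc_inv] at h1
  have h2 : H.q (.inr ξ) (.inl g) ≤ H.C ^ 2 * (L * r) :=
    (H.s1_q_le_loc ξ g).trans (mul_le_mul_of_nonneg_left (max_le v1 v2) (by positivity))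
  have h3 : H.q (.inr η) (.inl g) ≤ H.C ^ 2 * ((L + 1) * r) := by
    refine (H.s1_q_le_loc η g).trans (mul_le_mul_of_nonneg_left (max_le ?_ ?_) (by positivity))
    · have := dist_triangle η ξ (H.loc g)
      rw [dist_comm η ξ, hη] at this
      nlinarith
    · linarith
  have h4 := H.q_le (g⁻¹ • ξ) (g⁻¹ • η)
  have h5 := H.le_q ξ η
  rw [hη] at h5
  have n1 := H.q_nonneg (.inr ξ) (.inl g)
  have n2 := H.q_nonneg (.inr η) (.inl g)
  have n3 := H.q_nonneg (.inr ξ) (.inr η)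
  have n4 : 0 ≤ dist (g⁻¹ • ξ) (g⁻¹ • η) := dist_nonneg
  rw [div_le_iff₀ (by positivity)]
  refine le_of_mul_le_mul_right ?_ (mul_pos hr hr)
  calc κ * (r * r) = κ * r * r := by ring
    _ ≤ H.C * H.q (.inr ξ) (.inr η) * (L * H.sc g) := mul_le_mul h5 v3 hr.le (by positivity)
    _ = H.C * L * (H.sc g * H.q (.inr ξ) (.inr η)) := by ring
    _ ≤ H.C * L * (H.C * (H.C * dist (g⁻¹ • ξ) (g⁻¹ • η) * (H.C ^ 2 * (L * r)) *
          (H.C ^ 2 * ((L + 1) * r)))) := by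
        refine mul_le_mul_of_nonneg_left (h1.trans (mul_le_mul_of_nonneg_left ?_ hC.le))
          (by positivity)
        exact mul_le_mul (mul_le_mul h4 h2 n1 (by positivity)) h3 n2 (by positivity)
    _ = _ := by ring

theorem qc_of_fs (hc : IsPreconnected C) (hn : C.Nontrivial) (hF : FS G C) :
    H.QC (MulAction.stabilizer G C) C := by
  obtain ⟨x0, hx0, y0, hy0, hne⟩ := hn
  have hd : 0 < dist x0 y0 := dist_pos.2 hne
  have hC : 0 < H.C := lt_of_lt_of_le one_pos H.hC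
  have ha : 0 < H.a := lt_trans one_pos H.ha
  obtain ⟨L0, hL0, -, hv⟩ := H.s1_qc_top
  have hL0' : 0 < L0 := lt_of_lt_of_le one_pos hL0
  obtain ⟨κ, k0, k1, k2⟩ : ∃ κ : ℝ, 0 < κ ∧ κ ≤ 1 ∧ κ ≤ dist x0 y0 / 2 :=
    ⟨min 1 (dist x0 y0 / 2), by positivity, min_le_left _ _, min_le_right _ _⟩
  obtain ⟨Φ, hΦ⟩ := hF (κ / (H.C ^ 7 * L0 ^ 2 * (L0 + 1))) (by positivity)
  obtain ⟨L2, hL2, hloc⟩ := H.s1_loc_mul (Φ.sup H.len)
  have p1 : 0 < H.C ^ 7 / dist x0 y0 := by positivity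
  have p2 : 0 < L2 * L0 := by positivity
  have p3 : 0 < H.a ^ ((Φ.sup H.len : ℕ) : ℝ) * L0 := by positivity
  refine ⟨H.C ^ 7 / dist x0 y0 + L0 + L2 * L0 + H.a ^ ((Φ.sup H.len : ℕ) : ℝ) * L0, by linarith,
    fun g hg => ?_, fun ξ hξ r hr hr1 => ?_⟩
  · obtain ⟨x, hx, h1⟩ := H.s1q_one hd g
    refine ⟨g • x, ?_, h1.trans (mul_le_mul_of_nonneg_right (by linarith) (H.s1_sc_pos g).le)⟩
    rw [← MulAction.mem_stabilizer_iff.1 hg]
    refine smul_mem_smul_set ?_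
    rcases hx with rfl | rfl <;> assumption
  · obtain ⟨z, hz, h1⟩ : ∃ z ∈ C, κ * r ≤ dist ξ z := by
      have h1 := dist_triangle_left x0 y0 ξ
      have h2 : κ * r ≤ κ := mul_le_of_le_one_right k0.le hr1
      rcases le_total (dist ξ x0) (dist ξ y0) with h | h
      · exact ⟨y0, hy0, by linarith⟩
      · exact ⟨x0, hx0, by linarith⟩
    obtain ⟨η, hη, h2⟩ := hc.intermediate_value hξ hz (f := fun w => dist ξ w) (by fun_prop)
      (show κ * r ∈ Icc (dist ξ ξ) (dist ξ z) from ⟨by rw [dist_self]; positivity, h1⟩)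
    obtain ⟨g, -, hg⟩ := hv ξ trivial r hr hr1
    obtain ⟨φ, hφ, h3⟩ := hΦ g ⟨_, smul_mem_smul_set hξ, _, smul_mem_smul_set hη,
      H.s1q_big hL0 k1 hr hg h2⟩
    have hl : H.len φ ≤ Φ.sup H.len := Finset.le_sup hφ
    have hl' : H.a ^ (H.len φ : ℝ) ≤ H.a ^ ((Φ.sup H.len : ℕ) : ℝ) :=
      Real.rpow_le_rpow_of_exponent_le H.ha.le (by exact_mod_cast hl)
    obtain ⟨v1, v2, v3⟩ := hg
    have s1 := H.s1_sc_pos g
    have s2 := H.s1_sc_pos (g * φ⁻¹)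
    refine ⟨g * φ⁻¹, MulAction.mem_stabilizer_iff.2 h3, ?_, ?_, ?_⟩
    · have h4 := hloc g φ⁻¹ (by rwa [H.len_inv])
      have h5 := dist_triangle ξ (H.loc g) (H.loc (g * φ⁻¹))
      have h6 : L2 * H.sc g ≤ L2 * (L0 * r) := mul_le_mul_of_nonneg_left v2 (by linarith)
      have h7 : (L0 + L2 * L0) * r ≤ (H.C ^ 7 / dist x0 y0 + L0 + L2 * L0 +
          H.a ^ ((Φ.sup H.len : ℕ) : ℝ) * L0) * r :=
        mul_le_mul_of_nonneg_right (by linarith) hr.le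
      linarith
    · have h4 := H.s1_sc_mul g φ⁻¹
      rw [H.len_inv] at h4
      calc H.sc (g * φ⁻¹) ≤ H.a ^ ((Φ.sup H.len : ℕ) : ℝ) * (L0 * r) :=
            h4.trans (mul_le_mul hl' v2 s1.le (by positivity))
        _ = H.a ^ ((Φ.sup H.len : ℕ) : ℝ) * L0 * r := by ring
        _ ≤ _ := mul_le_mul_of_nonneg_right (by linarith) hr.le
    · have h4 := H.s1_sc_mul (g * φ⁻¹) φ
      rw [inv_mul_cancel_right] at h4
      calc r ≤ L0 * (H.a ^ ((Φ.sup H.len : ℕ) : ℝ) * H.sc (g * φ⁻¹)) :=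
            v3.trans (mul_le_mul_of_nonneg_left
              (h4.trans (mul_le_mul_of_nonneg_right hl' s2.le)) hL0'.le)
        _ = H.a ^ ((Φ.sup H.len : ℕ) : ℝ) * L0 * H.sc (g * φ⁻¹) := by ring
        _ ≤ _ := mul_le_mul_of_nonneg_right (by linarith) s2.le

theorem par_of_qc (hq : H.QC A C) : ∃ K₀ : ℕ, ∀ K, K₀ ≤ K → H.Par A K := by
  obtain ⟨L, hL, h1, h2⟩ := hq
  have hC : 0 < H.C := lt_of_lt_of_le one_pos H.hC
  have ha : 0 < H.a := lt_trans one_pos H.ha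
  have hL0 : 0 < L := lt_of_lt_of_le one_pos hL
  obtain ⟨K₀, hK₀⟩ := pow_unbounded_of_one_lt (2 * H.C ^ 10 * L ^ 4) H.ha
  refine ⟨K₀, fun K hK x hx hx1 => ?_⟩
  by_cases hxK : H.len x ≤ K
  · refine ⟨1, A.one_mem, ?_, by rwa [inv_one, one_mul], fun b _ _ hb => ?_⟩
    · rw [(H.len_eq_zero 1).2 rfl]
      exact Nat.pos_of_ne_zero fun h => hx1 ((H.len_eq_zero x).1 h)
    · rw [inv_one, one_mul]
      exact hb.trans hxK
  have hKa : 2 * H.C ^ 10 * L ^ 4 ≤ H.a ^ (K : ℝ) := by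
    rw [Real.rpow_natCast]
    exact hK₀.le.trans (pow_le_pow_right₀ H.ha.le hK)
  have c2 : 1 ≤ H.C ^ 2 := one_le_pow₀ H.hC
  have hM : 2 * H.C ^ 2 * L ≤ 2 * H.C ^ 10 * L ^ 4 := by
    have e1 : H.C ^ 2 ≤ H.C ^ 10 := pow_le_pow_right₀ H.hC (by norm_num)
    have e2 : L ≤ L ^ 4 := le_self_pow₀ hL (by norm_num)
    exact mul_le_mul (by linarith) e2 hL0.le (by positivity)
  have sx := H.s1_sc_pos x
  have hr1 : 2 * H.C ^ 2 * L * H.sc x ≤ 1 := by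
    have e1 : H.a ^ (K : ℝ) ≤ H.a ^ (H.len x : ℝ) :=
      Real.rpow_le_rpow_of_exponent_le H.ha.le (by exact_mod_cast (not_le.1 hxK).le)
    calc 2 * H.C ^ 2 * L * H.sc x ≤ H.a ^ (H.len x : ℝ) * H.sc x :=
          mul_le_mul_of_nonneg_right (hM.trans (hKa.trans e1)) sx.le
      _ = 1 := by rw [sc, ← Real.rpow_add ha, add_neg_cancel, Real.rpow_zero]
  obtain ⟨ξ, hξ, h3⟩ := h1 x hx
  obtain ⟨p, hp, v1, v2, v3⟩ := h2 ξ hξ _ (by positivity) hr1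
  have sp := H.s1_sc_pos p
  have v4 : 2 * H.C ^ 2 * H.sc x ≤ H.sc p := by
    refine le_of_mul_le_mul_left ?_ hL0
    linarith
  have hpx : H.q (.inl p) (.inl x) ≤ H.C ^ 3 * L * (2 * H.C ^ 2 * L * H.sc x) := by
    have e1 : H.q (.inl p) (.inr ξ) ≤ H.C ^ 2 * (L * (2 * H.C ^ 2 * L * H.sc x)) := by
      rw [H.q_comm]
      exact (H.s1_q_le_loc ξ p).trans (mul_le_mul_of_nonneg_left (max_le v1 v2) (by positivity))
    have e0 : H.sc x ≤ 2 * H.C ^ 2 * L * H.sc x := le_mul_of_one_le_left sx.le (by nlinarith)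
    have e2 : H.q (.inr ξ) (.inl x) ≤ H.C ^ 2 * (L * (2 * H.C ^ 2 * L * H.sc x)) := by
      refine (H.s1_q_le_loc ξ x).trans (mul_le_mul_of_nonneg_left (max_le ?_ ?_) (by positivity))
      · exact h3.trans (mul_le_mul_of_nonneg_left e0 hL0.le)
      · exact e0.trans (le_mul_of_one_le_left (by positivity) hL)
    calc H.q (.inl p) (.inl x) ≤ H.C * (H.C ^ 2 * (L * (2 * H.C ^ 2 * L * H.sc x))) :=
          (H.ultra _ (.inr ξ) _).trans (mul_le_mul_of_nonneg_left (max_le e1 e2) hC.le)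
      _ = _ := by ring
  have key : ∀ b, H.len (x⁻¹ * b) ≤ K → H.len b ≤ H.len x → H.len (p⁻¹ * b) ≤ K := by
    intro b hb1 hb2
    have sb := H.s1_sc_pos b
    have hxb : H.sc x ≤ H.sc b :=
      Real.rpow_le_rpow_of_exponent_le H.ha.le (neg_le_neg (by exact_mod_cast hb2))
    have e1 := H.s1_q_sq p b
    have e2 := H.s1_q_sq x b
    have e3 : H.a ^ (H.len (x⁻¹ * b) : ℝ) ≤ H.a ^ (K : ℝ) :=
      Real.rpow_le_rpow_of_exponent_le H.ha.le (by exact_mod_cast hb1)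
    have e4 := H.ultra (.inl p) (.inl x) (.inl b)
    have n1 := H.q_nonneg (.inl p) (.inl b)
    have hKp : 0 < H.a ^ (K : ℝ) := by positivity
    have e5 : H.q (.inl p) (.inl b) ^ 2 ≤ H.a ^ (K : ℝ) * (H.sc p * H.sc b) := by
      rcases le_total (H.q (.inl p) (.inl x)) (H.q (.inl x) (.inl b)) with h | h
      · rw [max_eq_right h] at e4
        calc H.q (.inl p) (.inl b) ^ 2 ≤ (H.C * H.q (.inl x) (.inl b)) ^ 2 :=
              pow_le_pow_left₀ n1 e4 2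
          _ = H.a ^ (H.len (x⁻¹ * b) : ℝ) * (H.C ^ 2 * H.sc x * H.sc b) := by
              rw [mul_pow, e2]
              ring
          _ ≤ H.a ^ (K : ℝ) * (H.sc p * H.sc b) := by
              refine mul_le_mul e3 (mul_le_mul_of_nonneg_right ?_ sb.le) (by positivity) hKp.le
              have : 0 < H.C ^ 2 * H.sc x := by positivity
              linarith
      · rw [max_eq_left h] at e4
        calc H.q (.inl p) (.inl b) ^ 2
            ≤ (H.C * (H.C ^ 3 * L * (2 * H.C ^ 2 * L * H.sc x))) ^ 2 :=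
              pow_le_pow_left₀ n1 (e4.trans (mul_le_mul_of_nonneg_left hpx hC.le)) 2
          _ = 2 * H.C ^ 10 * L ^ 4 * (2 * H.C ^ 2 * H.sc x * H.sc x) := by ring
          _ ≤ H.a ^ (K : ℝ) * (H.sc p * H.sc b) :=
              mul_le_mul hKa (mul_le_mul v4 hxb sx.le sp.le) (by positivity) hKp.le
    rw [e1] at e5
    have e6 := (Real.rpow_le_rpow_left_iff H.ha).1 (le_of_mul_le_mul_right e5 (mul_pos sp sb))
    exact_mod_cast e6
  refine ⟨p, hp, ?_, key x ?_ le_rfl, fun b _ => key b⟩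
  · have e1 : H.sc x < H.sc p := by nlinarith
    have e2 := (Real.rpow_lt_rpow_left_iff H.ha).1 e1
    exact_mod_cast neg_lt_neg_iff.1 e2
  · rw [inv_mul_cancel, (H.len_eq_zero 1).2 rfl]
    exact Nat.zero_le _

end HB

end KKC
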