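import Pool.Agent.Lib.MP_e1e491_gt.V1

/-! (FIN) Finite subgroups have bounded order.

Let `d x y = len (x⁻¹ * y)`. `ultra` and `q_GG` give the four point inequality
`(x|z)_w ≥ min (x|y)_w (y|z)_w - δ`, `a ^ δ = C`, for every base point `w` (apply it to `w⁻¹ x`,
`w⁻¹ y`, `w⁻¹ z`). `par` gives geodesics: for `m ≤ d x y` a point `p` with `d x p = m`,
`d p y = d x y - m`. For a finite subgroup `A` let `R x = max (d x h, h ∈ A)`, and let `T` be the set
of minimisers of `R`; `T` is invariant under left multiplication by `A`. If `x, x' ∈ T` have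
`d x x' ≥ 2 m` with `m > 2 δ`, take `p` between them with `d x p = m`; then
`d p h ≤ max (d x h - d x p) (d x' h - d x' p) + 2 δ < R x` for all `h`, a contradiction. So
`A x ⊆ T` lies in a ball of radius `2 m` around `x`. -/

namespace KKC.HB

variable {G Z : Type} [Group G] [MetricSpace Z] [MulAction G Z] (H : HB G Z)

theorem geod (g : G) (m : ℕ) (hm : m ≤ H.len g) :
    ∃ p, H.len p = m ∧ H.len (p⁻¹ * g) + m = H.len g := by
  generalize hn : H.len g = n at hm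
  induction n generalizing g with
  | zero => exact ⟨g, by omega, by rw [inv_mul_cancel, (H.len_eq_zero 1).mpr rfl]; omega⟩
  | succ n ih =>
    rcases hm.eq_or_lt with rfl | hlt
    · exact ⟨g, hn, by rw [inv_mul_cancel, (H.len_eq_zero 1).mpr rfl, zero_add]⟩
    · obtain ⟨h, h1, h2⟩ := H.par g n hn
      obtain ⟨p, h3, h4⟩ := ih h h1 (by omega)
      have h5 := H.len_mul (p⁻¹ * h) (h⁻¹ * g)
      have h6 := H.len_mul p (p⁻¹ * g)
      rw [mul_assoc, mul_inv_cancel_left] at h5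
      rw [mul_inv_cancel_left] at h6
      exact ⟨p, h3, by omega⟩

theorem four_point : ∃ δ : ℝ, 0 ≤ δ ∧ ∀ x y z : G,
    min (((H.len x : ℝ) + H.len y - H.len (x⁻¹ * y)) / 2)
      (((H.len y : ℝ) + H.len z - H.len (y⁻¹ * z)) / 2) - δ ≤
      ((H.len x : ℝ) + H.len z - H.len (x⁻¹ * z)) / 2 := by
  have ha0 : 0 < H.a := zero_lt_one.trans H.ha
  refine ⟨Real.logb H.a H.C, Real.logb_nonneg H.ha H.hC, fun x y z => ?_⟩
  have h := H.ultra (.inl x) (.inl y) (.inl z)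
  rw [H.q_GG, H.q_GG, H.q_GG] at h
  generalize ((H.len x : ℝ) + H.len y - H.len (x⁻¹ * y)) / 2 = s at h ⊢
  generalize ((H.len y : ℝ) + H.len z - H.len (y⁻¹ * z)) / 2 = t at h ⊢
  generalize ((H.len x : ℝ) + H.len z - H.len (x⁻¹ * z)) / 2 = u at h ⊢
  have h1 : max (H.a ^ (-s)) (H.a ^ (-t)) ≤ H.a ^ (-min s t) :=
    max_le (Real.rpow_le_rpow_of_exponent_le H.ha.le (neg_le_neg (min_le_left _ _)))
      (Real.rpow_le_rpow_of_exponent_le H.ha.le (neg_le_neg (min_le_right _ _)))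
  have h2 : H.a ^ (-u) ≤ H.a ^ (Real.logb H.a H.C + -min s t) := by
    rw [Real.rpow_add ha0, Real.rpow_logb ha0 H.ha.ne' (zero_lt_one.trans_le H.hC)]
    exact h.trans (mul_le_mul_of_nonneg_left h1 (zero_le_one.trans H.hC))
  have h3 := (Real.rpow_le_rpow_left_iff H.ha).mp h2
  linarith

include H in
theorem fin_subgroup : ∃ N₀ : ℕ, ∀ A : Subgroup G, (A : Set G).Finite →
    (A : Set G).ncard ≤ N₀ := by
  obtain ⟨δ, -, hδ⟩ := H.four_point
  obtain ⟨m, hm⟩ := exists_nat_gt (2 * δ)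
  refine ⟨{g | H.len g ≤ 2 * m}.ncard, fun A hA => ?_⟩
  let R : G → ℕ := fun x => hA.toFinset.sup fun h => H.len (x⁻¹ * h)
  have hR : ∀ x, ∀ h ∈ A, H.len (x⁻¹ * h) ≤ R x := fun x h hh =>
    Finset.le_sup (f := fun h => H.len (x⁻¹ * h)) (hA.mem_toFinset.mpr hh)
  obtain ⟨x, hx⟩ : ∃ x, ∀ y, R x ≤ R y := ⟨Function.argmin R, fun y => Function.argmin_le R y⟩
  refine Set.ncard_le_ncard_of_injOn (fun k => x⁻¹ * k * x) (fun k hk => ?_)
    (fun k _ k' _ h => by simpa using h) (H.fin _)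
  change H.len (x⁻¹ * k * x) ≤ 2 * m
  by_contra hlt
  obtain ⟨p, hp1, hp2⟩ := H.geod (x⁻¹ * k * x) m (by omega)
  have key : ∀ h ∈ A, H.len ((x * p)⁻¹ * h) < R x := by
    intro h hh
    have h1 := hδ p⁻¹ ((x * p)⁻¹ * h) (p⁻¹ * (x⁻¹ * k * x))
    have e1 : p⁻¹⁻¹ * ((x * p)⁻¹ * h) = x⁻¹ * h := by group
    have e2 : ((x * p)⁻¹ * h)⁻¹ * (p⁻¹ * (x⁻¹ * k * x)) = (x⁻¹ * (k⁻¹ * h))⁻¹ := by group
    have e3 : p⁻¹⁻¹ * (p⁻¹ * (x⁻¹ * k * x)) = x⁻¹ * k * x := by group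
    rw [e1, e2, e3, H.len_inv, H.len_inv, hp1] at h1
    have h2 : (H.len (x⁻¹ * h) : ℝ) ≤ R x := by exact_mod_cast hR x h hh
    have h3 : (H.len (x⁻¹ * (k⁻¹ * h)) : ℝ) ≤ R x := by
      exact_mod_cast hR x _ (A.mul_mem (A.inv_mem hk) hh)
    have h4 : (H.len (p⁻¹ * (x⁻¹ * k * x)) : ℝ) + m = H.len (x⁻¹ * k * x) := by exact_mod_cast hp2
    have h5 : (2 * m : ℝ) < H.len (x⁻¹ * k * x) := by exact_mod_cast not_le.mp hlt
    have h6 : (H.len ((x * p)⁻¹ * h) : ℝ) < R x := by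
      rcases min_le_iff.mp (sub_le_iff_le_add.mp h1) with h7 | h7 <;> linarith
    exact_mod_cast h6
  have h0 : ⊥ < R x := (Nat.zero_le _).trans_lt (key 1 A.one_mem)
  exact absurd ((Finset.sup_lt_iff h0).mpr fun h hh => key h (hA.mem_toFinset.mp hh))
    (not_lt.mpr (hx (x * p)))

end KKC.HB
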