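import Pool.Agent.Lib.MP_e1e491_gt.Defs

/-! Word length, Gromov products, the action on the boundary. -/

namespace KKC

open Set Filter Topology

namespace Gb

variable {G : Type} [Group G] {S : Finset G}

theorem wlen_le {g : G} {l : List G} (hl : ∀ s ∈ l, s ∈ S ∨ s⁻¹ ∈ S) (h : l.prod = g) :
    wlen S g ≤ l.length := Nat.sInf_le ⟨l, hl, h, rfl⟩

theorem wlen_one : wlen S (1 : G) = 0 :=
  Nat.le_zero.mp (wlen_le (l := []) (by simp) rfl)

variable (hS : Subgroup.closure (S : Set G) = ⊤)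
include hS

theorem exists_word (g : G) :
    ∃ l : List G, (∀ s ∈ l, s ∈ S ∨ s⁻¹ ∈ S) ∧ l.prod = g ∧ l.length = wlen S g := by
  have h1 : g ∈ (Subgroup.closure (S : Set G)).toSubmonoid := by rw [hS]; trivial
  rw [Subgroup.closure_toSubmonoid] at h1
  obtain ⟨l, hl, h⟩ := Submonoid.exists_list_of_mem_closure h1
  exact Nat.sInf_mem (s := {n | ∃ l : List G, (∀ s ∈ l, s ∈ S ∨ s⁻¹ ∈ S) ∧ l.prod = g ∧
    l.length = n}) ⟨_, l, fun s hs => (hl s hs).imp id fun h => h, h, rfl⟩

theorem wlen_eq_zero (g : G) : wlen S g = 0 ↔ g = 1 := by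
  refine ⟨fun h => ?_, fun h => h ▸ wlen_one⟩
  obtain ⟨l, -, h1, h2⟩ := exists_word hS g
  rw [h, List.length_eq_zero_iff] at h2
  rw [← h1, h2, List.prod_nil]

theorem wlen_mul (g h : G) : wlen S (g * h) ≤ wlen S g + wlen S h := by
  obtain ⟨l, a1, a2, a3⟩ := exists_word hS g
  obtain ⟨m, b1, b2, b3⟩ := exists_word hS h
  rw [← a3, ← b3, ← List.length_append]
  exact wlen_le (fun s hs => (List.mem_append.mp hs).elim (a1 s) (b1 s))
    (by rw [List.prod_append, a2, b2])

theorem wlen_inv (g : G) : wlen S g⁻¹ = wlen S g := by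
  have key : ∀ g : G, wlen S g⁻¹ ≤ wlen S g := fun g => by
    obtain ⟨l, a1, a2, a3⟩ := exists_word hS g
    have := wlen_le (S := S) (l := (l.map fun x => x⁻¹).reverse) (g := g⁻¹) (fun s hs => by
      obtain ⟨t, ht, rfl⟩ := List.mem_map.mp (List.mem_reverse.mp hs)
      simpa using (a1 t ht).symm) (by rw [← List.prod_inv_reverse, a2])
    simpa [a3] using this
  exact le_antisymm (key g) (by simpa using key g⁻¹)

/-- Points on a geodesic from the identity. -/
theorem exists_init (g : G) {n : ℕ} (hn : n ≤ wlen S g) :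
    ∃ h, wlen S h = n ∧ wlen S (h⁻¹ * g) + n = wlen S g := by
  obtain ⟨l, a1, a2, a3⟩ := exists_word hS g
  have e : (l.take n).prod * (l.drop n).prod = g := by rw [List.prod_take_mul_prod_drop, a2]
  have b1 := wlen_le (S := S) (l := l.take n) (fun s hs => a1 s (List.mem_of_mem_take hs)) rfl
  have b2 := wlen_le (S := S) (l := l.drop n) (fun s hs => a1 s (List.mem_of_mem_drop hs)) rfl
  have b3 := wlen_mul hS (l.take n).prod (l.drop n).prod
  rw [e] at b3
  rw [List.length_take] at b1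
  rw [List.length_drop] at b2
  refine ⟨(l.take n).prod, by omega, ?_⟩
  rw [← e, inv_mul_cancel_left, e]
  omega

theorem finite_wlen (n : ℕ) : {g | wlen S g ≤ n}.Finite := by
  classical
  set T : Set G := {s | s ∈ S ∨ s⁻¹ ∈ S} with hT
  have hf : T.Finite := (S.finite_toSet.union (S.finite_toSet.preimage
    (inv_injective (G := G)).injOn)).subset fun s hs => hs
  have := hf.to_subtype
  refine ((List.finite_length_le T n).image fun l => (l.map Subtype.val).prod).subset fun g hg => ?_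
  obtain ⟨l, a1, a2, a3⟩ := exists_word hS g
  refine ⟨l.attach.map fun s => ⟨s.1, a1 s.1 s.2⟩, ?_, ?_⟩
  · simpa [a3] using hg
  · simp [a2, List.map_map, Function.comp_def]

theorem gp_comm (x y : G) : gp S x y = gp S y x := by
  rw [gp, gp, ← wlen_inv hS (x⁻¹ * y), mul_inv_rev, inv_inv, add_comm]

theorem gp_nonneg (x y : G) : 0 ≤ gp S x y := by
  have h := wlen_mul hS x⁻¹ y
  rw [wlen_inv hS] at h
  have : (wlen S (x⁻¹ * y) : ℝ) ≤ wlen S x + wlen S y := by exact_mod_cast h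
  rw [gp]; linarith

omit hS in
theorem gp_self (x : G) : gp S x x = wlen S x := by
  rw [gp, inv_mul_cancel, wlen_one]; simp

theorem gp_one (x : G) : gp S x 1 = 0 := by
  rw [gp, mul_one, wlen_inv hS, wlen_one]; simp

/-- The cocycle identity. -/
theorem gp_mob (g x y : G) :
    gp S (g * x) (g * y) + gp S x g⁻¹ + gp S y g⁻¹ = wlen S g + gp S x y := by
  have h1 : (g * x)⁻¹ * (g * y) = x⁻¹ * y := by group
  simp only [gp, h1, ← mul_inv_rev, wlen_inv hS]
  ring

theorem gp_le (x y : G) : gp S x y ≤ wlen S y := by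
  have h := wlen_mul hS y (x⁻¹ * y)⁻¹
  rw [wlen_inv hS, show y * (x⁻¹ * y)⁻¹ = x by group] at h
  have : (wlen S x : ℝ) ≤ wlen S y + wlen S (x⁻¹ * y) := by exact_mod_cast h
  rw [gp]; linarith

theorem asymp_smul (g : G) {x y : ℕ → G} (h : Asymp S x y) :
    Asymp S (fun i => g * x i) fun i => g * y i := by
  refine tendsto_atTop_mono (fun p => ?_) (tendsto_atTop_add_const_right _ (-(wlen S g : ℝ)) h)
  have h1 := gp_mob hS g (x p.1) (y p.2)
  have h2 := gp_le hS (x p.1) g⁻¹
  have h3 := gp_le hS (y p.2) g⁻¹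
  rw [wlen_inv hS] at h2 h3
  linarith

/-- The action on the boundary. -/
@[reducible] def act : MulAction G (Bdry S) where
  smul g := Quot.map (fun x => ⟨fun i => g * x.1 i, asymp_smul hS g x.2⟩)
    fun _ _ h => asymp_smul hS g h
  one_smul := by
    rintro ⟨x⟩
    exact congrArg (Quot.mk _) (Subtype.ext (funext fun i => one_mul _))
  mul_smul g h := by
    rintro ⟨x⟩
    exact congrArg (Quot.mk _) (Subtype.ext (funext fun i => mul_assoc _ _ _))

omit hS in
theorem asymp_iff {x y : ℕ → G} :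
    Asymp S x y ↔ ∀ M : ℝ, ∃ N, ∀ i ≥ N, ∀ j ≥ N, M ≤ gp S (x i) (y j) := by
  rw [Asymp, tendsto_atTop_atTop]
  constructor
  · intro h M
    obtain ⟨p, hp⟩ := h M
    exact ⟨max p.1 p.2, fun i hi j hj => hp (i, j) ⟨le_of_max_le_left hi, le_of_max_le_right hj⟩⟩
  · intro h M
    obtain ⟨N, hN⟩ := h M
    exact ⟨(N, N), fun p hp => hN _ hp.1 _ hp.2⟩

theorem asymp_symm {x y : ℕ → G} (h : Asymp S x y) : Asymp S y x := by
  rw [asymp_iff] at h ⊢
  intro M
  obtain ⟨N, hN⟩ := h M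
  exact ⟨N, fun i hi j hj => by rw [gp_comm hS]; exact hN j hj i hi⟩

omit hS in
theorem asymp_trans (hH : Hyperbolic S) {x y z : ℕ → G} (h : Asymp S x y) (h' : Asymp S y z) :
    Asymp S x z := by
  obtain ⟨δ, hδ⟩ := hH
  rw [asymp_iff] at h h' ⊢
  intro M
  obtain ⟨N, hN⟩ := h (M + δ)
  obtain ⟨N', hN'⟩ := h' (M + δ)
  refine ⟨max N N', fun i hi j hj => ?_⟩
  have := le_min (hN i (le_of_max_le_left hi) _ (le_max_left N N'))
    (hN' _ (le_max_right N N') j (le_of_max_le_right hj))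
  linarith [hδ (x i) (y (max N N')) (z j)]

theorem asymp_of_eq (hH : Hyperbolic S) {x y : {x : ℕ → G // Asymp S x x}}
    (h : (Quot.mk _ x : Bdry S) = Quot.mk _ y) : Asymp S x.1 y.1 := by
  have e : Equivalence fun x y : {x : ℕ → G // Asymp S x x} => Asymp S x.1 y.1 :=
    ⟨fun x => x.2, fun h => asymp_symm hS h, fun h h' => asymp_trans hH h h'⟩
  exact e.eqvGen_iff.mp (Quot.eqvGen_exact h)

end Gb

end KKC
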