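import Mathlib

/-! Separated sets, packing bounds and weights. -/

namespace Pool.Agent.Lib.MP_e1e491_gt

open Real
open scoped Classical

noncomputable section

/-- `T` is `r`-separated. -/
def Sepd {S : Type*} [PseudoMetricSpace S] (r : ℝ) (T : Finset S) : Prop :=
  ∀ x ∈ T, ∀ y ∈ T, x ≠ y → r ≤ dist x y

/-- Polynomial bound for separated sets. -/
def Dbl (S : Type*) [PseudoMetricSpace S] (C₀ Q : ℕ) : Prop :=
  ∀ r : ℝ, 0 < r → ∀ m : ℕ, 1 ≤ m → ∀ (ξ : S) (T : Finset S), Sepd r T →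
    (∀ z ∈ T, dist z ξ ≤ m * r) → T.card ≤ C₀ * m ^ Q

/-- Packing bound with a real exponent. -/
def Pack (S : Type*) [PseudoMetricSpace S] (C p : ℝ) : Prop :=
  ∀ r R : ℝ, 0 < r → r ≤ R → ∀ (ξ : S) (T : Finset S), Sepd r T →
    (∀ z ∈ T, dist z ξ ≤ R) → (T.card : ℝ) ≤ C * (R / r) ^ p

/-- `Φ` separates points at scale `r` near `c` and has small energy at scale `r'`. -/
def Tst {S E : Type*} [PseudoMetricSpace S] [PseudoMetricSpace E] (Φ : S → E) (c : S)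
    (r r' ε : ℝ) : Prop :=
  (∀ x y, dist x c < 3 * r → dist y c < 3 * r → r ≤ dist x y → 1 ≤ dist (Φ x) (Φ y)) ∧
  ∀ (Z : Finset S) (y : S → S), Sepd r' Z → (∀ z ∈ Z, dist z c < 2 * r) →
    (∀ z ∈ Z, dist (y z) z < 12 * r') → ∑ z ∈ Z, dist (Φ z) (Φ (y z)) ^ 2 ≤ ε

/-- The Harnack constant. -/
def KH : ℝ := exp 40

theorem one_le_KH : 1 ≤ KH := one_le_exp (by norm_num)

/-- Nets, test maps and weights at the scales `R t ^ i`. -/
structure Wt (S E : Type*) [MetricSpace S] [PseudoMetricSpace E] where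
  R : ℝ
  t : ℝ
  η : ℝ
  p : ℝ
  C₀ : ℕ
  Q : ℕ
  N : ℕ → Finset S
  Φ : ℕ → S → S → E
  ρ : ℕ → S → ℝ
  dbl : Dbl S C₀ Q
  R_pos : 0 < R
  diam : ∀ x y : S, dist x y ≤ R
  t_pos : 0 < t
  t_le : t ≤ 1 / 12
  η_pos : 0 < η
  η_le : η ≤ 1 / 2
  one_le_p : 1 ≤ p
  p_lt : p < 2
  sep : ∀ i, Sepd (R * t ^ i) (N i)
  net : ∀ i x, ∃ c ∈ N i, dist x c < R * t ^ i
  far : ∀ i c x y, dist x c < 3 * (R * t ^ i) → dist y c < 3 * (R * t ^ i) →
    R * t ^ i ≤ dist x y → 1 ≤ dist (Φ i c x) (Φ i c y)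
  le_ρ : ∀ i x, η ≤ ρ i x
  ρ_le : ∀ i x, ρ i x ≤ 1 / 2
  har : ∀ i x y, ρ i x ≤ exp (dist x y / (R * t ^ (i + 1))) * ρ i y
  adm : ∀ i, ∀ c ∈ N i, ∀ z ∈ N (i + 1), ∀ z' ∈ N (i + 1), dist z c < 2 * (R * t ^ i) →
    dist z' z < 12 * (R * t ^ (i + 1)) → KH * dist (Φ i c z) (Φ i c z') ≤ ρ i z
  small : ∀ i c, ∑ z ∈ (N (i + 1)).filter (fun z => dist z c < R * t ^ i), ρ i z ^ p ≤
    1 / (2 * KH ^ 2)

namespace Wt

variable {S E : Type*} [MetricSpace S] [PseudoMetricSpace E] (w : Wt S E)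

/-- The scales. -/
def r (i : ℕ) : ℝ := w.R * w.t ^ i

/-- The size of the ball of level `k` about `x`. -/
def h (k : ℕ) (x : S) : ℝ := ∏ i ∈ Finset.range k, w.ρ i x

/-- The level of a distance. -/
def lev (s : ℝ) : ℕ := if h : ∃ m, 10 * w.r (m + 1) < s then Nat.find h else 0

/-- The new quasi-distance. -/
def q (x y : S) : ℝ := if x = y then 0 else w.h (w.lev (dist x y)) x

/-- The new distance. -/
def d₁ (x y : S) : ℝ :=
  ⨆ F : {F : S → ℝ // ∀ u v, |F u - F v| ≤ w.q u v}, |F.1 x - F.1 y|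

end Wt

end

end Pool.Agent.Lib.MP_e1e491_gt
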