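import Pool.Agent.Lib.MP_e1e491_gt.S1F
import Pool.Agent.Lib.MP_e1e491_gt.CdDefs

/-! Doubling; a finite separating family. -/

namespace KKC

namespace HB

open Set Pool.Agent.Lib.MP_e1e491_gt
open scoped Pointwise Classical

set_option linter.unusedSectionVars false

variable {G Z : Type} [Group G] [MetricSpace Z] [CompactSpace Z] [MulAction G Z] (H : HB G Z)
  {A : Subgroup G} {C : Set Z} {K : ℕ}

theorem s1u_level {r : ℝ} (hr : 0 < r) (hrC : r ≤ H.C) :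
    ∃ n : ℕ, H.C ^ 3 * H.a ^ (-(n : ℝ)) < r ∧ r ≤ H.a * H.C ^ 3 * H.a ^ (-(n : ℝ)) := by
  have ha0 : 0 < H.a := zero_lt_one.trans H.ha
  have hC0 : 0 < H.C := zero_lt_one.trans_le H.hC
  have hex : ∃ n : ℕ, H.C ^ 3 * H.a ^ (-(n : ℝ)) < r := by
    obtain ⟨n, hn⟩ := pow_unbounded_of_one_lt (H.C ^ 3 / r) H.ha
    refine ⟨n, ?_⟩
    rw [Real.rpow_neg ha0.le, Real.rpow_natCast, ← div_eq_mul_inv,
      div_lt_iff₀ (pow_pos ha0 n)]
    rw [div_lt_iff₀ hr] at hn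
    linarith
  refine ⟨Nat.find hex, Nat.find_spec hex, ?_⟩
  rcases h0 : Nat.find hex with _ | n
  · have h1 := Nat.find_spec hex
    rw [h0] at h1
    have h2 : H.C ≤ H.C ^ 3 := le_self_pow₀ H.hC (by norm_num)
    simp at h1
    linarith
  · have h1 := Nat.find_min hex (m := n) (by omega)
    rw [not_lt] at h1
    have h2 : H.a ^ (-(n : ℝ)) = H.a * H.a ^ (-((n + 1 : ℕ) : ℝ)) := by
      rw [show (-(n : ℝ)) = 1 + (-((n + 1 : ℕ) : ℝ)) by push_cast; ring, Real.rpow_add ha0,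
        Real.rpow_one]
    rw [h2] at h1
    linarith

theorem s1u_close {x y : Z} {g : G} {s : ℝ} (hx : H.q (.inr x) (.inl g) ≤ H.C * s)
    (hy : H.q (.inr y) (.inl g) ≤ H.C * s) : dist x y ≤ H.C ^ 3 * s := by
  have hC0 : 0 ≤ H.C := zero_le_one.trans H.hC
  have h1 := H.le_q x y
  have h2 := H.ultra (.inr x) (.inl g) (.inr y)
  rw [H.q_comm (.inl g)] at h2
  have h3 : max (H.q (.inr x) (.inl g)) (H.q (.inr y) (.inl g)) ≤ H.C * s := max_le hx hy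
  calc dist x y ≤ H.C * (H.C * (H.C * s)) :=
        h1.trans (mul_le_mul_of_nonneg_left (h2.trans (mul_le_mul_of_nonneg_left h3 hC0)) hC0)
    _ = H.C ^ 3 * s := by ring

theorem s1u_q {x y : Z} {g h : G} {s D : ℝ} (hs : 0 ≤ s) (hD : 1 ≤ D)
    (hx : H.q (.inr x) (.inl g) ≤ H.C * s) (hy : H.q (.inr y) (.inl h) ≤ H.C * s)
    (hxy : dist x y ≤ D * s) : H.q (.inl g) (.inl h) ≤ H.C ^ 3 * D * s := by
  have hC0 : 0 ≤ H.C := zero_le_one.trans H.hC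
  have hs1 : H.C * s ≤ H.C * (D * s) :=
    mul_le_mul_of_nonneg_left (le_mul_of_one_le_left hs hD) hC0
  have hDs : 0 ≤ H.C * (D * s) := (mul_nonneg hC0 hs).trans hs1
  have h1 : H.q (.inr x) (.inr y) ≤ H.C * (D * s) :=
    (H.q_le x y).trans (mul_le_mul_of_nonneg_left hxy hC0)
  have h2 : H.q (.inr x) (.inl h) ≤ H.C * (H.C * (D * s)) :=
    (H.ultra _ (.inr y) _).trans (mul_le_mul_of_nonneg_left (max_le h1 (hy.trans hs1)) hC0)
  have h3 : H.q (.inl g) (.inr x) ≤ H.C * (H.C * (D * s)) := by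
    rw [H.q_comm]
    exact (hx.trans hs1).trans (le_mul_of_one_le_left hDs H.hC)
  calc H.q (.inl g) (.inl h) ≤ H.C * (H.C * (H.C * (D * s))) :=
        (H.ultra _ (.inr x) _).trans (mul_le_mul_of_nonneg_left (max_le h3 h2) hC0)
    _ = H.C ^ 3 * D * s := by ring

include H in
theorem exists_dbl : ∃ C₀ Q : ℕ, Dbl Z C₀ Q := by
  have ha0 : 0 < H.a := zero_lt_one.trans H.ha
  have hC0 : 0 < H.C := zero_lt_one.trans_le H.hC
  obtain ⟨B, -, hB⟩ := H.s1_card_ball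
  obtain ⟨k, hk⟩ := pow_unbounded_of_one_lt (B : ℝ) H.ha
  set M : ℝ := H.C ^ 3 * (2 * (H.a * H.C ^ 3)) with hM
  have hC3 : 1 ≤ H.C ^ 3 := one_le_pow₀ H.hC
  have haC : 1 ≤ H.a * H.C ^ 3 := one_le_mul_of_one_le_of_one_le H.ha.le hC3
  have hM1 : 1 ≤ M := one_le_mul_of_one_le_of_one_le hC3 (by linarith)
  refine ⟨⌈M ^ (2 * k)⌉₊, 2 * k, fun r hr m hm ξ T hT hξ => ?_⟩
  have hm1 : (1 : ℝ) ≤ m := by exact_mod_cast hm
  suffices h : (T.card : ℝ) ≤ (M * m) ^ (2 * k) by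
    have h2 : (M * m) ^ (2 * k) ≤ (⌈M ^ (2 * k)⌉₊ : ℝ) * (m : ℝ) ^ (2 * k) := by
      rw [mul_pow]
      exact mul_le_mul_of_nonneg_right (Nat.le_ceil _) (by positivity)
    exact_mod_cast h.trans h2
  have hMm : 1 ≤ M * m := one_le_mul_of_one_le_of_one_le hM1 hm1
  by_cases h1 : T.card ≤ 1
  · exact (by exact_mod_cast h1 : (T.card : ℝ) ≤ 1).trans (one_le_pow₀ hMm)
  obtain ⟨x, hx, y, hy, hxy⟩ := Finset.one_lt_card.1 (not_le.1 h1)
  obtain ⟨n, hn1, hn2⟩ := H.s1u_level hr ((hT x hx y hy hxy).trans (H.s1_diam x y))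
  choose g hg1 hg2 using fun z => H.ray z n
  set s : ℝ := H.a ^ (-(n : ℝ)) with hs
  have hs0 : 0 < s := Real.rpow_pos_of_pos ha0 _
  have hsc : ∀ z, H.sc (g z) = s := fun z => by rw [sc, hg1]
  have hinj : Set.InjOn (fun z => (g x)⁻¹ * g z) T := by
    intro z hz z' hz' h
    have h2 : g z = g z' := mul_left_cancel h
    by_contra hne
    have h3 := hT z hz z' hz' hne
    have h4 := H.s1u_close (hg2 z) (h2 ▸ hg2 z')
    linarith
  have hlen : ∀ z ∈ T, H.a ^ H.len ((g x)⁻¹ * g z) ≤ (M * m) ^ 2 := by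
    intro z hz
    have hd : dist x z ≤ (2 * (H.a * H.C ^ 3) * m) * s := by
      have h2 := dist_triangle_right x z ξ
      have h3 := hξ x hx
      have h4 := hξ z hz
      have h5 : (m : ℝ) * r ≤ m * (H.a * H.C ^ 3 * s) :=
        mul_le_mul_of_nonneg_left hn2 (by positivity)
      nlinarith
    have hD : 1 ≤ 2 * (H.a * H.C ^ 3) * m :=
      one_le_mul_of_one_le_of_one_le (by linarith) hm1
    have h2 := H.s1u_q hs0.le hD (hg2 x) (hg2 z) hd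
    have h3 := H.s1_q_sq (g x) (g z)
    rw [hsc, hsc, Real.rpow_natCast] at h3
    have h4 : H.q (.inl (g x)) (.inl (g z)) ^ 2 ≤ (M * m) ^ 2 * (s * s) := by
      calc _ ≤ (H.C ^ 3 * (2 * (H.a * H.C ^ 3) * m) * s) ^ 2 :=
            pow_le_pow_left₀ (H.q_nonneg _ _) h2 2
        _ = (M * m) ^ 2 * (s * s) := by rw [hM]; ring
    rw [h3] at h4
    exact le_of_mul_le_mul_right h4 (mul_pos hs0 hs0)
  obtain ⟨z, hz, hmax⟩ := T.exists_max_image (fun z => H.len ((g x)⁻¹ * g z)) ⟨x, hx⟩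
  have hcard := hB (H.len ((g x)⁻¹ * g z)) (T.image fun z => (g x)⁻¹ * g z) (by
    intro w hw
    obtain ⟨z', hz', rfl⟩ := Finset.mem_image.1 hw
    exact hmax z' hz')
  rw [Finset.card_image_of_injOn hinj] at hcard
  calc (T.card : ℝ) ≤ (B : ℝ) ^ H.len ((g x)⁻¹ * g z) := by exact_mod_cast hcard
    _ ≤ (H.a ^ k) ^ H.len ((g x)⁻¹ * g z) := pow_le_pow_left₀ (by positivity) hk.le _
    _ = (H.a ^ H.len ((g x)⁻¹ * g z)) ^ k := by rw [← pow_mul, ← pow_mul, mul_comm]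
    _ ≤ ((M * m) ^ 2) ^ k := pow_le_pow_left₀ (by positivity) (hlen z hz) _
    _ = (M * m) ^ (2 * k) := by rw [← pow_mul]

theorem s1u_sep {x y : Z} (h : ¬ H.Rel2 x y) : ∃ (f : G → ℝ) (u : Z → ℝ), FinEn ⊤ f ∧
    H.Bdv ⊤ univ f u ∧ 3 < |u x - u y| := by
  obtain ⟨u, ⟨f, hf, hb⟩, hne⟩ : ∃ u, H.A2 u ∧ u x ≠ u y := by
    by_contra hc
    exact h fun u hu => by_contra fun hne => hc ⟨u, hu, hne⟩
  have hpos : 0 < |u x - u y| := abs_pos.2 (sub_ne_zero.2 hne)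
  set c : ℝ := 4 / |u x - u y| with hc
  have hl : LipschitzWith ‖c‖₊ fun t : ℝ => c • t := lipschitzWith_smul c
  refine ⟨_, _, hf.lip hl, hb.lip hl, ?_⟩
  have hc0 : 0 < c := by positivity
  rw [smul_eq_mul, smul_eq_mul, ← mul_sub, abs_mul, abs_of_pos hc0, hc,
    div_mul_cancel₀ _ hpos.ne']
  norm_num

theorem exists_fam (h : ∀ x y, H.Rel2 x y → x = y) {δ : ℝ} (hδ : 0 < δ) :
    ∃ (M : ℕ) (f : Fin M → G → ℝ) (u : Fin M → Z → ℝ), (∀ j, FinEn ⊤ (f j)) ∧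
      (∀ j, H.Bdv ⊤ univ (f j) (u j)) ∧ ∀ x y, δ ≤ dist x y → ∃ j, 3 ≤ |u j x - u j y| := by
  have hX : IsCompact {p : Z × Z | δ ≤ dist p.1 p.2} :=
    (isClosed_le continuous_const continuous_dist).isCompact
  have hs : ∀ p : {p : Z × Z | δ ≤ dist p.1 p.2}, ∃ (f : G → ℝ) (u : Z → ℝ), FinEn ⊤ f ∧
      H.Bdv ⊤ univ f u ∧ 3 < |u p.1.1 - u p.1.2| := fun p => H.s1u_sep fun hr => by
    have h1 : δ ≤ dist p.1.1 p.1.2 := p.2
    rw [h _ _ hr, dist_self] at h1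
    exact absurd hδ (not_lt.2 h1)
  choose f u hf hb hu using hs
  obtain ⟨t, ht⟩ := hX.elim_finite_subcover (fun p => {z : Z × Z | 3 < |u p z.1 - u p z.2|})
    (fun p => isOpen_lt continuous_const
      ((((hb p).cont.comp continuous_fst).sub ((hb p).cont.comp continuous_snd)).abs))
    (fun z hz => mem_iUnion.2 ⟨⟨z, hz⟩, hu ⟨z, hz⟩⟩)
  refine ⟨t.card, fun j => f (t.equivFin.symm j), fun j => u (t.equivFin.symm j),
    fun j => hf _, fun j => hb _, fun x y hxy => ?_⟩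
  obtain ⟨p, hp, hz⟩ := mem_iUnion₂.1 (ht (show (x, y) ∈ {p : Z × Z | δ ≤ dist p.1 p.2} from hxy))
  refine ⟨t.equivFin ⟨p, hp⟩, ?_⟩
  simp only [Equiv.symm_apply_apply]
  exact le_of_lt hz

end HB

end KKC
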