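import Pool.Agent.Lib.MP_e1e491_gt.Rt

/-! Paths that avoid a small ball. General lemma `avoid_gen`: `T` compact, locally path connected,
`T \ {y}` path connected for all `y`. For a triple `(y, u, u')` with `u, u' ≠ y` take a path in
`T \ {y}`; it stays at distance `≥ 3 ρ` from `y`; nearby `u₁, u₁'` are joined to `u, u'` inside balls
of radius `ρ`; so the statement holds near the triple with `η' = ρ`; compactness of the set of
triples. For the circles: only finitely many are `η / 2`-big, for the others `P j` misses the ball. -/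

namespace KKC

open Set Metric

theorem av_compact {X : Type} [TopologicalSpace X] {K : Set X} (hK : IsCompact K)
    (P : ℝ → X → Prop) (hm : ∀ r r' x, 0 < r' → r' ≤ r → P r x → P r' x)
    (h : ∀ x ∈ K, ∃ r > 0, ∃ V ∈ nhds x, ∀ y ∈ V, y ∈ K → P r y) : ∃ r > 0, ∀ x ∈ K, P r x := by
  have key : ∃ r > 0, ∀ x ∈ K, x ∈ K → P r x := by
    refine hK.induction_on (p := fun S => ∃ r > 0, ∀ x ∈ S, x ∈ K → P r x)
      ⟨1, one_pos, fun x hx => hx.elim⟩ ?_ ?_ ?_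
    · rintro s t hst ⟨r, hr, h1⟩
      exact ⟨r, hr, fun x hx => h1 x (hst hx)⟩
    · rintro s t ⟨r, hr, h1⟩ ⟨r', hr', h2⟩
      refine ⟨min r r', lt_min hr hr', fun x hx hxK => ?_⟩
      rcases hx with hx | hx
      · exact hm r _ x (lt_min hr hr') (min_le_left _ _) (h1 x hx hxK)
      · exact hm r' _ x (lt_min hr hr') (min_le_right _ _) (h2 x hx hxK)
    · intro x hx
      obtain ⟨r, hr, V, hV, h1⟩ := h x hx
      exact ⟨V, mem_nhdsWithin_of_mem_nhds hV, r, hr, h1⟩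
  obtain ⟨r, hr, h1⟩ := key
  exact ⟨r, hr, fun x hx => h1 x hx hx⟩

theorem av_finite {J : Type} {S : Set J} (hS : S.Finite) (P : ℝ → J → Prop)
    (hm : ∀ r r' x, 0 < r' → r' ≤ r → P r x → P r' x) (h : ∀ j, ∃ r > 0, P r j) :
    ∃ r > 0, ∀ j ∈ S, P r j := by
  induction S, hS using Set.Finite.induction_on with
  | empty => exact ⟨1, one_pos, fun x hx => hx.elim⟩
  | @insert a s _ _ ih =>
    obtain ⟨r, hr, h1⟩ := ih
    obtain ⟨r', hr', h2⟩ := h a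
    refine ⟨min r r', lt_min hr hr', fun x hx => ?_⟩
    rcases hx with rfl | hx
    · exact hm r' _ x (lt_min hr hr') (min_le_right _ _) h2
    · exact hm r _ x (lt_min hr hr') (min_le_left _ _) (h1 x hx)

theorem av_far {Z : Type} [MetricSpace Z] {u u' y : Z} (γ : Path u u') (hy : ∀ t, γ t ≠ y) :
    ∃ ρ > 0, ∀ t, ρ ≤ dist (γ t) y := by
  have h1 : IsOpen (range γ)ᶜ := (isCompact_range γ.continuous).isClosed.isOpen_compl
  obtain ⟨ρ, hρ, h2⟩ := Metric.isOpen_iff.1 h1 y (by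
    rintro ⟨t, ht⟩
    exact hy t ht)
  exact ⟨ρ, hρ, fun t => le_of_not_gt fun h => h2 h ⟨t, rfl⟩⟩

theorem av_ne {Z : Type} [MetricSpace Z] {u y : Z} {η : ℝ} (hη : 0 < η) (h : η ≤ dist u y) :
    u ≠ y := dist_pos.1 (hη.trans_le h)

theorem av_lpc {Z : Type} [TopologicalSpace Z] [LocallyPathConnectedSpace Z] :
    ∀ b ∈ (univ : Set Z), ∀ U ∈ nhds b, ∃ V ∈ nhds b, ∀ x ∈ univ ∩ V, JoinedIn (univ ∩ U) b x := by
  intro b _ U hU
  refine ⟨pathComponentIn U b, pathComponentIn_mem_nhds hU, fun x hx => ?_⟩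
  rw [univ_inter]
  exact hx.2

theorem avoid_gen {Z : Type} [MetricSpace Z] [CompactSpace Z] {T : Set Z} (hT : IsClosed T)
    (hl : ∀ b ∈ T, ∀ U ∈ nhds b, ∃ V ∈ nhds b, ∀ x ∈ T ∩ V, JoinedIn (T ∩ U) b x)
    (hp : ∀ y, ∀ u ∈ T \ {y}, ∀ u' ∈ T \ {y}, JoinedIn (T \ {y}) u u') {η : ℝ} (hη : 0 < η) :
    ∃ η' > 0, ∀ y, ∀ u ∈ T, ∀ u' ∈ T, η ≤ dist u y → η ≤ dist u' y →
      JoinedIn (T \ ball y η') u u' := by
  have hK : IsCompact {x : Z × Z × Z | x.2.1 ∈ T ∧ x.2.2 ∈ T ∧ η ≤ dist x.2.1 x.1 ∧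
      η ≤ dist x.2.2 x.1} := by
    have h1 : IsClosed {x : Z × Z × Z | x.2.1 ∈ T} := hT.preimage (by fun_prop)
    have h2 : IsClosed {x : Z × Z × Z | x.2.2 ∈ T} := hT.preimage (by fun_prop)
    have h3 : IsClosed {x : Z × Z × Z | η ≤ dist x.2.1 x.1} :=
      isClosed_le continuous_const (by fun_prop)
    have h4 : IsClosed {x : Z × Z × Z | η ≤ dist x.2.2 x.1} :=
      isClosed_le continuous_const (by fun_prop)
    exact (h1.inter (h2.inter (h3.inter h4))).isCompact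
  obtain ⟨r, hr, h⟩ := av_compact hK (fun r x => JoinedIn (T \ ball x.1 r) x.2.1 x.2.2)
    (fun r r' x _ hrr h => h.mono (sdiff_subset_sdiff_right (ball_subset_ball hrr))) (by
      rintro ⟨y, u, u'⟩ ⟨hu, hu', h1, h2⟩
      obtain ⟨γ, hγ⟩ := hp y u ⟨hu, av_ne hη h1⟩ u' ⟨hu', av_ne hη h2⟩
      obtain ⟨ρ, hρ, hfar⟩ := av_far γ (y := y) fun t => (hγ t).2
      have hρ' : 0 < ρ / 3 := by linarith
      obtain ⟨V, hV, hJ⟩ := hl u hu _ (ball_mem_nhds u hρ')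
      obtain ⟨V', hV', hJ'⟩ := hl u' hu' _ (ball_mem_nhds u' hρ')
      refine ⟨ρ / 3, hρ', ball y (ρ / 3) ×ˢ V ×ˢ V',
        prod_mem_nhds (ball_mem_nhds y hρ') (prod_mem_nhds hV hV'), ?_⟩
      rintro ⟨y₁, u₁, u₁'⟩ ⟨hy₁, hu₁, hu₁'⟩ ⟨h3, h4, -, -⟩
      have hsub : ∀ b, ρ ≤ dist b y → T ∩ ball b (ρ / 3) ⊆ T \ ball y₁ (ρ / 3) := by
        intro b hb x hx
        refine ⟨hx.1, fun h5 => ?_⟩
        have h6 := dist_triangle4 b x y₁ y
        have h7 : dist b x < ρ / 3 := mem_ball'.1 hx.2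
        have h8 : dist x y₁ < ρ / 3 := h5
        have h9 : dist y₁ y < ρ / 3 := hy₁
        linarith
      have e0 : ρ ≤ dist u y := by simpa using hfar 0
      have e1 : ρ ≤ dist u' y := by simpa using hfar 1
      have hmid : JoinedIn (T \ ball y₁ (ρ / 3)) u u' :=
        ⟨γ, fun t => hsub (γ t) (hfar t) ⟨(hγ t).1, mem_ball_self hρ'⟩⟩
      exact (((hJ u₁ ⟨h3, hu₁⟩).mono (hsub u e0)).symm.trans hmid).trans
        ((hJ' u₁' ⟨h4, hu₁'⟩).mono (hsub u' e1)))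
  exact ⟨r, hr, fun y u hu u' hu' h1 h2 => h (y, u, u') ⟨hu, hu', h1, h2⟩⟩

theorem avoid_list_gen {Z : Type} [MetricSpace Z] [CompactSpace Z] {T : Set Z} {u u' : Z}
    (hp : ∀ y, y ≠ u → y ≠ u' → JoinedIn (T \ {y}) u u') {η : ℝ} (hη : 0 < η) :
    ∃ η' > 0, ∃ L : Set (Path u u'), L.Finite ∧ (∀ γ ∈ L, ∀ t, γ t ∈ T) ∧
      ∀ y, η ≤ dist u y → η ≤ dist u' y → ∃ γ ∈ L, ∀ t, η' ≤ dist (γ t) y := by
  have hK : IsCompact {y : Z | η ≤ dist u y ∧ η ≤ dist u' y} := by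
    have h1 : IsClosed {y : Z | η ≤ dist u y} := isClosed_le continuous_const (by fun_prop)
    have h2 : IsClosed {y : Z | η ≤ dist u' y} := isClosed_le continuous_const (by fun_prop)
    exact (h1.inter h2).isCompact
  have key : ∃ η' > 0, ∃ L : Set (Path u u'), L.Finite ∧ (∀ γ ∈ L, ∀ t, γ t ∈ T) ∧
      ∀ y ∈ {y : Z | η ≤ dist u y ∧ η ≤ dist u' y}, ∃ γ ∈ L, ∀ t, η' ≤ dist (γ t) y := by
    refine hK.induction_on (p := fun S => ∃ η' > 0, ∃ L : Set (Path u u'), L.Finite ∧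
      (∀ γ ∈ L, ∀ t, γ t ∈ T) ∧ ∀ y ∈ S, ∃ γ ∈ L, ∀ t, η' ≤ dist (γ t) y)
      ⟨1, one_pos, ∅, finite_empty, fun _ h => h.elim, fun _ h => h.elim⟩ ?_ ?_ ?_
    · rintro s t hst ⟨r, hr, L, h1, h2, h3⟩
      exact ⟨r, hr, L, h1, h2, fun x hx => h3 x (hst hx)⟩
    · rintro s t ⟨r, hr, L, h1, h2, h3⟩ ⟨r', hr', L', h1', h2', h3'⟩
      refine ⟨min r r', lt_min hr hr', L ∪ L', h1.union h1',
        fun γ hγ => hγ.elim (h2 γ) (h2' γ), fun x hx => ?_⟩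
      rcases hx with hx | hx
      · obtain ⟨γ, hγ, h4⟩ := h3 x hx
        exact ⟨γ, Or.inl hγ, fun t => (min_le_left _ _).trans (h4 t)⟩
      · obtain ⟨γ, hγ, h4⟩ := h3' x hx
        exact ⟨γ, Or.inr hγ, fun t => (min_le_right _ _).trans (h4 t)⟩
    · rintro y ⟨h1, h2⟩
      obtain ⟨γ, hγ⟩ := hp y (av_ne hη h1).symm (av_ne hη h2).symm
      obtain ⟨ρ, hρ, hfar⟩ := av_far γ (y := y) fun t => (hγ t).2
      have hρ' : 0 < ρ / 2 := by linarith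
      refine ⟨ball y (ρ / 2), mem_nhdsWithin_of_mem_nhds (ball_mem_nhds y hρ'), ρ / 2, hρ', {γ},
        finite_singleton γ, ?_, fun y₁ hy₁ => ⟨γ, rfl, fun t => ?_⟩⟩
      · rintro _ rfl t
        exact (hγ t).1
      · have h3 := dist_triangle (γ t) y₁ y
        have h4 : dist y₁ y < ρ / 2 := hy₁
        linarith [hfar t]
  obtain ⟨r, hr, L, h1, h2, h3⟩ := key
  exact ⟨r, hr, L, h1, h2, fun y h4 h5 => h3 y ⟨h4, h5⟩⟩

/-- Uniform local path connectedness. -/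
theorem ulpc_gen {Z : Type} [MetricSpace Z] [CompactSpace Z] {T : Set Z} (hT : IsClosed T)
    (hl : ∀ b ∈ T, ∀ U ∈ nhds b, ∃ V ∈ nhds b, ∀ x ∈ T ∩ V, JoinedIn (T ∩ U) b x) {ε : ℝ}
    (hε : 0 < ε) : ∃ δ > 0, ∀ u ∈ T, ∀ u' ∈ T, dist u u' ≤ δ → JoinedIn (T ∩ ball u ε) u u' := by
  refine av_compact hT.isCompact
    (fun δ u => ∀ u' ∈ T, dist u u' ≤ δ → JoinedIn (T ∩ ball u ε) u u')
    (fun r r' x _ hrr h u' hu' h1 => h u' hu' (h1.trans hrr)) fun b hb => ?_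
  have hε' : 0 < ε / 2 := by linarith
  obtain ⟨V, hV, hJ⟩ := hl b hb _ (ball_mem_nhds b hε')
  obtain ⟨ρ, hρ, hρV⟩ := Metric.mem_nhds_iff.1 hV
  have hρ' : 0 < ρ / 2 := by linarith
  refine ⟨ρ / 2, hρ', ball b (ρ / 2) ∩ ball b (ε / 2),
    Filter.inter_mem (ball_mem_nhds b hρ') (ball_mem_nhds b hε'), fun x hx hxT u' hu' h1 => ?_⟩
  have h2 : dist x b < ρ / 2 := hx.1
  have h3 : dist x b < ε / 2 := hx.2
  have h4 : x ∈ V := hρV (by rw [mem_ball]; linarith)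
  have h5 : u' ∈ V := hρV (by
    have := dist_triangle_left u' b x
    rw [mem_ball]; linarith)
  refine ((hJ x ⟨hxT, h4⟩).symm.trans (hJ u' ⟨hu', h5⟩)).mono fun z hz => ⟨hz.1, ?_⟩
  have h6 : dist z b < ε / 2 := hz.2
  have h7 := dist_triangle_right z x b
  rw [mem_ball]
  linarith

namespace PD

variable {Z J : Type} [MetricSpace Z] [CompactSpace Z] (Q : PD Z J)
include Q

theorem avoid_Z {η : ℝ} (hη : 0 < η) : ∃ η' > 0, ∀ y u u' : Z, η ≤ dist u y → η ≤ dist u' y →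
    JoinedIn (ball y η')ᶜ u u' := by
  have := Q.lpc
  obtain ⟨r, hr, h⟩ := avoid_gen (Z := Z) isClosed_univ av_lpc (fun y u hu u' hu' => by
    rw [← compl_eq_univ_sdiff] at hu hu' ⊢
    exact (Q.isPathConnected_compl_pt y).joinedIn u hu u' hu') hη
  refine ⟨r, hr, fun y u u' h1 h2 => ?_⟩
  rw [compl_eq_univ_sdiff]
  exact h y u trivial u' trivial h1 h2

theorem avoid_P {η : ℝ} (hη : 0 < η) : ∃ η' > 0, ∀ j y, ∀ u ∈ Q.P j, ∀ u' ∈ Q.P j,
    η ≤ dist u y → η ≤ dist u' y → JoinedIn (Q.P j \ ball y η') u u' := by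
  have hη' : 0 < η / 2 := by linarith
  obtain ⟨r, hr, h⟩ := av_finite (Q.finite_big hη') (fun r j => ∀ y, ∀ u ∈ Q.P j, ∀ u' ∈ Q.P j,
      η ≤ dist u y → η ≤ dist u' y → JoinedIn (Q.P j \ ball y r) u u')
    (fun r r' j _ hrr h y u hu u' hu' h1 h2 =>
      (h y u hu u' hu' h1 h2).mono (sdiff_subset_sdiff_right (ball_subset_ball hrr)))
    (fun j => avoid_gen (Q.isClosed_P j) (fun b hb U hU => Q.P_lpc j hb hU)
      (fun y => (Q.isPathConnected_P_diff j y).joinedIn) hη)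
  refine ⟨min r (η / 2), lt_min hr hη', fun j y u hu u' hu' h1 h2 => ?_⟩
  by_cases hj : Big (η / 2) (Q.P j)
  · exact (h j hj y u hu u' hu' h1 h2).mono
      (sdiff_subset_sdiff_right (ball_subset_ball (min_le_left _ _)))
  · refine ((Q.isPathConnected_P j).joinedIn u hu u' hu').mono fun x hx => ⟨hx, fun h3 => ?_⟩
    have h4 : dist u x < η / 2 := lt_of_not_ge fun h5 => hj ⟨u, hu, x, hx, h5⟩
    have h5 : dist x y < η / 2 := lt_of_lt_of_le h3 (min_le_right _ _)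
    have h6 := dist_triangle u x y
    linarith

theorem avoid_list (u u' : Z) {η : ℝ} (hη : 0 < η) : ∃ η' > 0, ∃ L : Set (Path u u'), L.Finite ∧
    ∀ y, η ≤ dist u y → η ≤ dist u' y → ∃ γ ∈ L, ∀ t, η' ≤ dist (γ t) y := by
  obtain ⟨r, hr, L, h1, -, h2⟩ := avoid_list_gen (T := univ) (u := u) (u' := u')
    (fun y hy hy' => by
      rw [← compl_eq_univ_sdiff]
      exact (Q.isPathConnected_compl_pt y).joinedIn u hy.symm u' hy'.symm) hη
  exact ⟨r, hr, L, h1, h2⟩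

theorem avoid_list_P {j : J} {u u' : Z} (hu : u ∈ Q.P j) (hu' : u' ∈ Q.P j) {η : ℝ} (hη : 0 < η) :
    ∃ η' > 0, ∃ L : Set (Path u u'), L.Finite ∧ (∀ γ ∈ L, ∀ t, γ t ∈ Q.P j) ∧
      ∀ y, η ≤ dist u y → η ≤ dist u' y → ∃ γ ∈ L, ∀ t, η' ≤ dist (γ t) y :=
  avoid_list_gen (fun y hy hy' =>
    (Q.isPathConnected_P_diff j y).joinedIn u ⟨hu, hy.symm⟩ u' ⟨hu', hy'.symm⟩) hη

theorem ulpc_Z {ε : ℝ} (hε : 0 < ε) : ∃ δ > 0, ∀ u u' : Z, dist u u' ≤ δ →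
    JoinedIn (ball u ε) u u' := by
  have := Q.lpc
  obtain ⟨r, hr, h⟩ := ulpc_gen (Z := Z) isClosed_univ av_lpc hε
  exact ⟨r, hr, fun u u' h1 => (h u trivial u' trivial h1).mono inter_subset_right⟩

theorem ulpc_P {ε : ℝ} (hε : 0 < ε) : ∃ δ > 0, ∀ j, ∀ u ∈ Q.P j, ∀ u' ∈ Q.P j, dist u u' ≤ δ →
    JoinedIn (Q.P j ∩ ball u ε) u u' := by
  obtain ⟨r, hr, h⟩ := av_finite (Q.finite_big hε) (fun r j => ∀ u ∈ Q.P j, ∀ u' ∈ Q.P j,
      dist u u' ≤ r → JoinedIn (Q.P j ∩ ball u ε) u u')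
    (fun r r' j _ hrr h u hu u' hu' h1 => h u hu u' hu' (h1.trans hrr))
    (fun j => ulpc_gen (Q.isClosed_P j) (fun b hb U hU => Q.P_lpc j hb hU) hε)
  refine ⟨r, hr, fun j u hu u' hu' h1 => ?_⟩
  by_cases hj : Big ε (Q.P j)
  · exact h j hj u hu u' hu' h1
  · exact ((Q.isPathConnected_P j).joinedIn u hu u' hu').mono fun x hx =>
      ⟨hx, lt_of_not_ge fun h5 => hj ⟨x, hx, u, hu, h5⟩⟩

/-- A closed set that separates two given holes is big. -/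
theorem big_of_not_same (i j : J) : ∃ δ > 0, ∀ C : Set Z, IsClosed C →
    ¬ Q.Same C (.inr i) (.inr j) → Big δ C := by
  obtain ⟨δ, hδ, a, ha, b, hb, hab⟩ := Q.exists_big i
  obtain ⟨δ', hδ', a', ha', b', hb', hab'⟩ := Q.exists_big j
  have hη : 0 < min δ δ' / 2 := half_pos (lt_min hδ hδ')
  obtain ⟨r, hr, h⟩ := Q.avoid_Z hη
  refine ⟨r, hr, fun C hC hn => ?_⟩
  by_contra hbig
  obtain ⟨y, hy⟩ : ∃ y, C ⊆ ball y r := by
    rcases C.eq_empty_or_nonempty with rfl | ⟨y, hy⟩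
    · exact ⟨a, empty_subset _⟩
    · exact ⟨y, fun x hx => lt_of_not_ge fun h1 => hbig ⟨x, hx, y, hy, h1⟩⟩
  have key : ∀ (k : J) (c d : Z), c ∈ Q.P k → d ∈ Q.P k → min δ δ' ≤ dist c d →
      ∃ x ∈ Q.P k, min δ δ' / 2 ≤ dist x y := by
    intro k c d hc hd h1
    by_cases h2 : min δ δ' / 2 ≤ dist c y
    · exact ⟨c, hc, h2⟩
    · refine ⟨d, hd, ?_⟩
      have h3 := dist_triangle_right c d y
      linarith [not_le.1 h2]
  obtain ⟨x, hx, h1⟩ := key i a b ha hb ((min_le_left _ _).trans hab)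
  obtain ⟨x', hx', h2⟩ := key j a' b' ha' hb' ((min_le_right _ _).trans hab')
  have h3 : JoinedIn Cᶜ x x' := (h y x x' h1 h2).mono (compl_subset_compl.2 hy)
  exact hn ((Q.same_inr_inr hC).2 (Or.inr ⟨x, hx, x', hx', h3.source_mem,
    Relation.ReflTransGen.single (Or.inl h3)⟩))

end PD

end KKC
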