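import Pool.Agent.Lib.MP_e1e491_gt.S1U

/-! Fans of level lines. -/

namespace KFan

open Set Metric MeasureTheory KKC

noncomputable section

/-- Continua between concentric balls of comparable radii. -/
def Hull (Z : Type) [MetricSpace Z] (M : ℝ) : Prop :=
  1 ≤ M ∧ ∀ (x : Z) (r : ℝ), 0 < r → ∃ B : Set Z, IsClosed B ∧ IsPreconnected B ∧
    closedBall x r ⊆ B ∧ B ⊆ closedBall x (M * r)

/-- The measure of the levels in `T` whose lines meet `V`. -/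
def lines {Z : Type} (T : Set ℝ) (c : ℝ → Set Z) (V : Set Z) : ℝ :=
  volume.real {t | t ∈ T ∧ (c t ∩ V).Nonempty}

variable {G Z : Type} [Group G] [MetricSpace Z] [MulAction G Z]

/-- A jump from `x` to `x₁` over a face on which `u` is almost constant. -/
def Jmp (NF : ℝ → Set Z → Prop) (u : Z → ℝ) (η : ℝ) (x x₁ : Z) : Prop :=
  ∃ t : ℝ, ∀ p, p = x ∨ p = x₁ → ∃ al, NF η al ∧ p ∈ al ∧
    (∃ q ∈ al, dist x x₁ ≤ 8 * dist p q) ∧ ∀ w ∈ al, |u w - t| ≤ η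

/-- Among the large faces near a point, boundedly many meet all the others. -/
def KN (NF : ℝ → Set Z → Prop) : Prop :=
  ∀ T : ℝ, ∃ N : ℕ, ∀ (x : Z) (r η : ℝ) (S : Set (Set Z)), 0 < r → 0 ≤ η → 100 * η ≤ r →
    (∀ al ∈ S, NF η al ∧ ∃ p ∈ al, ∃ q ∈ al, dist p x ≤ T * r ∧ r ≤ dist p q) →
      ∃ Ga : Finset (Set Z), Ga.card ≤ N ∧ (Ga : Set (Set Z)) ⊆ S ∧
        ∀ al ∈ S, ∃ be ∈ Ga, (al ∩ be).Nonempty

/-- What is used about faces. -/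
structure Faces (NF : ℝ → Set Z → Prop) : Prop where
  pc : ∀ η al, NF η al → ∀ x ∈ al, ∀ y ∈ al, JoinedIn al x y
  img : ∀ (f : Z ≃ₜ Z) (L η : ℝ) (al : Set Z), 0 ≤ L →
    (∀ x y, dist (f x) (f y) ≤ L * dist x y) → NF η al → NF (L * η) (f '' al)
  kn : KN NF

/-- A function `u` with level lines `c t` in the ball of radius `R` about `z₀`, up to errors
`η`. -/
structure FanH (H : HB G Z) (NF : ℝ → Set Z → Prop) (z₀ : Z) (R E η : ℝ) (N : ℕ) where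
  u : Z → ℝ
  c : ℝ → Set Z
  T : Set ℝ
  η_pos : 0 < η
  T_sub : T ⊆ Icc 0 1
  u_mem : ∀ x, u x ∈ Icc (0 : ℝ) 1
  full : volume.real (Icc 0 1 \ T) ≤ η
  closed : ∀ t ∈ T, IsClosed (c t)
  conn : ∀ t ∈ T, IsPreconnected (c t)
  leave : ∀ t ∈ T, ∃ x ∈ c t, R ≤ dist x z₀
  lev : ∀ t ∈ T, ∀ x ∈ c t, dist x z₀ < R → |u x - t| ≤ η
  sep : ∀ t ∈ T, ∀ κ : Set Z, IsPreconnected κ → κ ⊆ ball z₀ R → Disjoint κ (c t) →
    (∀ x ∈ κ, u x ≤ t) ∨ ∀ x ∈ κ, t ≤ u x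
  nc : ∀ f : G, H.len f ≤ N → ∀ s ∈ T, volume.real
    {t | t ∈ T ∧ ∃ x ∈ c s, dist x z₀ < R ∧ dist (f • x) z₀ < R ∧ f • x ∈ c t} ≤ η
  sh : ∀ (z : Z) (τ : ℝ) (κ : Set Z), ∀ lo ∈ T, ∀ hi ∈ T, lo + η ≤ hi → IsPreconnected κ →
    (c lo ∩ κ).Nonempty → (c hi ∩ κ).Nonempty → κ ⊆ ball z (τ - η) → dist z z₀ + τ + 2 * η ≤ R →
      ∃ (k : ℕ) (p : ℕ → Z), (∀ j ≤ k, τ ≤ dist (p j) z ∧ dist (p j) z ≤ τ + η) ∧
        (∀ j < k, dist (p j) (p (j + 1)) ≤ η ∨ Jmp NF u η (p j) (p (j + 1))) ∧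
          u (p 0) ≤ lo + η ∧ hi - η ≤ u (p k)
  en : ∀ I : Finset (Z × ℝ), (∀ i ∈ I, η ≤ i.2 ∧ dist i.1 z₀ + 3 * i.2 ≤ R) →
    (∀ i ∈ I, ∀ j ∈ I, i ≠ j → 3 * i.2 + 3 * j.2 ≤ dist i.1 j.1) →
      ∑ i ∈ I, lines T c (ball i.1 i.2) ^ 2 ≤ E

/-- The scale of depth `n`. -/
def rr (H : HB G Z) (n : ℕ) : ℝ := H.a ^ (-(n : ℝ))

/-- The measure of the lines through the cell `(x, n)`. -/
def FanH.ph {H : HB G Z} {NF : ℝ → Set Z → Prop} {z₀ : Z} {R E η : ℝ} {N : ℕ}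
    (F : FanH H NF z₀ R E η N) (x : Z) (n : ℕ) : ℝ :=
  lines F.T F.c (ball x (rr H n))

/-- Views and witnesses. -/
structure Vw (H : HB G Z) where
  vw : Z → ℕ → G
  wit : G → Z
  J : Finset Z
  W : ℝ
  one_le : 1 ≤ W
  len_vw : ∀ p n, H.len (vw p n) = n
  loc_vw : ∀ p n, dist p (H.loc (vw p n)) ≤ W * rr H n
  wit_near : ∀ p n, dist p (wit (vw p n)) ≤ W * rr H n
  face : ∀ p p' n n', dist p p' ≤ rr H n → n ≤ n' → n' ≤ n + 1 → ∃ j ∈ J,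
    wit (vw p' n') = vw p n • j

/-- The view `g` sees three points with well separated levels. -/
def Good (u : Z → ℝ) (γ : ℝ) (g : G) (j : Fin 3 → Z) : Prop :=
  u (g • j 0) + γ ≤ u (g • j 1) ∧ u (g • j 1) + γ ≤ u (g • j 2)

/-- The point `p` lies on a face of extent `ρ` and level `t`. -/
def Holey (NF : ℝ → Set Z → Prop) (u : Z → ℝ) (η ρ : ℝ) (p : Z) (t : ℝ) : Prop :=
  ∃ al, NF η al ∧ p ∈ al ∧ (∃ q ∈ al, ρ ≤ dist p q) ∧ ∀ w ∈ al, |u w - t| ≤ η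

/-- The view `g` sees two points and the face `al` with well separated levels. -/
def GoodF (H : HB G Z) (NF : ℝ → Set Z → Prop) (u : Z → ℝ) (W η γ : ℝ) (g : G) (j : Fin 3 → Z)
    (e : Fin 3) (al : Set Z) : Prop :=
  NF η al ∧ (∃ p ∈ al, ∃ q ∈ al, dist p (H.loc g) ≤ W * H.sc g ∧ H.sc g / (8 * H.a) ≤ dist p q) ∧
    ∀ y, g • y ∈ al → Good u γ g (Function.update j e y)

/-- A good view. -/
def GoodH {H : HB G Z} (V : Vw H) (NF : ℝ → Set Z → Prop) (u : Z → ℝ) (η γ : ℝ) (g : G) : Prop :=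
  ∃ j : Fin 3 → Z, (∀ e, j e ∈ V.J) ∧ (Good u γ g j ∨ ∃ e al, GoodF H NF u V.W η γ g j e al)

/-- At most `B` views of depth `n + s` near `z` are good. -/
def Few {H : HB G Z} (V : Vw H) (NF : ℝ → Set Z → Prop) (u : Z → ℝ) (η Λ γ : ℝ) (B : ℕ) (z : Z)
    (n s : ℕ) : Prop :=
  ∃ S : Finset G, S.card ≤ B ∧ ∀ g, H.len g = n + s → dist z (H.loc g) ≤ Λ * rr H n →
    GoodH V NF u η γ g → g ∈ S

/-- `I` is a family of cells inside the cell `(z, n)` with disjoint enlargements. -/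
def Sub (H : HB G Z) (Λ : ℝ) (L : ℕ) (z : Z) (n : ℕ) (I : Finset (Z × ℕ)) : Prop :=
  (∀ i ∈ I, n ≤ i.2 ∧ i.2 ≤ n + L ∧ dist i.1 z + Λ * rr H i.2 ≤ Λ * rr H n) ∧
    ∀ i ∈ I, ∀ j ∈ I, i ≠ j → Λ * rr H i.2 + Λ * rr H j.2 ≤ dist i.1 j.1

end

end KFan
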