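import Pool.Agent.Lib.MP_e1e491_gt.JS

/-! Plane topology: the graph `K₃,₃`, the theorem of Janiszewski, unicoherence. -/

open Set Complex unitInterval Metric

namespace KKJS

/-- The exchange identity for two disjoint paths. -/
theorem inc_square {a b c d : ℂ} (γ : Path a b) (δ : Path c d)
    (h : Disjoint (range γ) (range δ)) : inc γ d - inc γ c = inc δ b - inc δ a := by
  have h1 : ∀ t, δ t ∉ range γ := fun t ht => disjoint_left.1 h ht ⟨t, rfl⟩
  have ha : a ∉ range δ := disjoint_left.1 h ⟨0, γ.source⟩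
  have hb : b ∉ range δ := disjoint_left.1 h ⟨1, γ.target⟩
  obtain ⟨L0, hL0, e0⟩ := exists_log δ ha
  obtain ⟨L1, hL1, e1⟩ := exists_log δ hb
  have hg : Continuous fun t => inc γ (δ t) :=
    (continuousOn_inc γ).comp_continuous δ.continuous h1
  have := const_of_exp isPreconnected_univ (g := fun t => inc γ (δ t) - L1 t + L0 t)
    ((hg.sub hL1).add hL0).continuousOn (c := 1) (fun t _ => by
      have h2 : δ t - a ≠ 0 := e0 t ▸ exp_ne_zero _
      have h3 : δ t - b ≠ 0 := e1 t ▸ exp_ne_zero _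
      have h4 : a - δ t ≠ 0 := fun h => h2 (by linear_combination -h)
      rw [exp_add, exp_sub, exp_inc γ (h1 t), e0, e1]
      field_simp
      ring) (mem_univ 1) (mem_univ 0)
  rw [inc_eq δ hL0 e0, inc_eq δ hL1 e1]
  simp only [δ.source, δ.target] at this
  linear_combination this

theorem inc_int {a b v : ℂ} (γ : Path a b) (hv : v ∉ range γ) :
    ∃ n : ℤ, inc γ v = log (b - v) - log (a - v) + n * (2 * Real.pi * Complex.I) := by
  have ha : a - v ≠ 0 := fun h => hv ⟨0, by rw [γ.source, sub_eq_zero.mp h]⟩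
  have hb : b - v ≠ 0 := fun h => hv ⟨1, by rw [γ.target, sub_eq_zero.mp h]⟩
  refine exp_eq_exp_iff_exists_int.1 ?_
  rw [exp_inc γ hv, exp_sub, exp_log ha, exp_log hb]

theorem log_swap {u v : ℂ} (h : u ≠ v) : ∃ m : ℤ,
    log (u - v) = log (v - u) + Real.pi * Complex.I + m * (2 * Real.pi * Complex.I) := by
  refine exp_eq_exp_iff_exists_int.1 ?_
  rw [exp_add, exp_pi_mul_I, exp_log (sub_ne_zero.2 h), exp_log (sub_ne_zero.2 h.symm)]
  ring

/-- In a drawing of `K₃,₃` in the plane two independent edges meet. -/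
theorem k33_path (a b : Fin 3 → ℂ) (γ : ∀ i j, Path (a i) (b j))
    (h : ∀ i j k l, i ≠ k → j ≠ l → Disjoint (range (γ i j)) (range (γ k l))) : False := by
  have hne : ∀ j : Fin 3, j ≠ j + 1 := by decide
  have hA : ∀ i j k, i ≠ k → a k ∉ range (γ i j) := fun i j k hik hm =>
    disjoint_left.1 (h i j k (j + 1) hik (hne j)) hm ⟨0, (γ k (j + 1)).source⟩
  have hB : ∀ i j l, j ≠ l → b l ∉ range (γ i j) := fun i j l hjl hm =>
    disjoint_left.1 (h i j (i + 1) l (hne i) hjl) hm ⟨1, (γ (i + 1) l).target⟩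
  have hAA : ∀ i k, i ≠ k → a i ≠ a k := fun i k hik e =>
    hA i 0 k hik ⟨0, (γ i 0).source.trans e⟩
  have hBB : ∀ j l, j ≠ l → b j ≠ b l := fun j l hjl e =>
    hB 0 j l hjl ⟨1, (γ 0 j).target.trans e⟩
  have hAB : ∀ i j, a i ≠ b j := fun i j e =>
    hB i (j + 1) j (hne j).symm ⟨0, (γ i (j + 1)).source.trans e⟩
  choose! nA hnA using fun i j k hik => inc_int (γ i j) (hA i j k hik)
  choose! nB hnB using fun i j l hjl => inc_int (γ i j) (hB i j l hjl)
  choose! eA heA using fun i k hik => log_swap (hAA i k hik)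
  choose! eB heB using fun j l hjl => log_swap (hBB j l hjl)
  choose eC heC using fun i j => log_swap (hAB i j)
  have hpi : (2 * Real.pi * Complex.I : ℂ) ≠ 0 := two_pi_I_ne_zero
  have key : ∀ i j k l, i ≠ k → j ≠ l →
      eB j l - eC i l + eC k j + eA i k + 1 = nB k l j - nA k l i - nB i j l + nA i j k := by
    intro i j k l hik hjl
    have h1 := inc_square (γ i j) (γ k l) (h i j k l hik hjl)
    rw [hnA i j k hik, hnB i j l hjl, hnA k l i hik.symm, hnB k l j hjl.symm, heA i k hik,
      heB j l hjl, heC i l, heC k j] at h1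
    have h2 : ((eB j l - eC i l + eC k j + eA i k + 1 : ℤ) : ℂ) =
        ((nB k l j - nA k l i - nB i j l + nA i j k : ℤ) : ℂ) := by
      refine mul_right_cancel₀ hpi ?_
      push_cast
      linear_combination h1
    exact_mod_cast h2
  have anti : ∀ j l, j ≠ l → eB j l + eB l j + 1 = 0 := by
    intro j l hjl
    have h1 := heB j l hjl
    have h3 := heB l j hjl.symm
    have h2 : ((eB j l + eB l j + 1 : ℤ) : ℂ) = ((0 : ℤ) : ℂ) := by
      refine mul_right_cancel₀ hpi ?_
      push_cast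
      linear_combination -h1 - h3
    exact_mod_cast h2
  have k1 := fun j l => key 0 j 1 l (by decide)
  have k2 := fun j l => key 0 j 2 l (by decide)
  have k3 := fun j l => key 1 j 2 l (by decide)
  have := k1 0 1 (by decide); have := k1 0 2 (by decide); have := k1 1 0 (by decide)
  have := k1 1 2 (by decide); have := k1 2 0 (by decide); have := k1 2 1 (by decide)
  have := k2 0 1 (by decide); have := k2 0 2 (by decide); have := k2 1 0 (by decide)
  have := k2 1 2 (by decide); have := k2 2 0 (by decide); have := k2 2 1 (by decide)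
  have := k3 0 1 (by decide); have := k3 0 2 (by decide); have := k3 1 0 (by decide)
  have := k3 1 2 (by decide); have := k3 2 0 (by decide); have := k3 2 1 (by decide)
  have := anti 0 1 (by decide); have := anti 0 2 (by decide); have := anti 1 2 (by decide)
  omega

theorem joined_of_open {U Y : Set ℂ} (hU : IsOpen U) (hY : IsPreconnected Y) (h : Y ⊆ U)
    {x y : ℂ} (hx : x ∈ Y) (hy : y ∈ Y) : JoinedIn U x y := by
  have h1 : IsPathConnected (connectedComponentIn U x) :=
    hU.connectedComponentIn.isConnected_iff_isPathConnected.1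
      (isConnected_connectedComponentIn_iff.2 (h hx))
  exact (h1.joinedIn x (mem_connectedComponentIn (h hx)) y
    (hY.subset_connectedComponentIn hx h hy)).mono (connectedComponentIn_subset _ _)

/-- `K₃,₃` for continua: `Y i j` joins `a i` to `b j`; two independent ones meet. -/
theorem k33 (a b : Fin 3 → ℂ) (Y : Fin 3 → Fin 3 → Set ℂ) (hc : ∀ i j, IsCompact (Y i j))
    (hp : ∀ i j, IsPreconnected (Y i j)) (ha : ∀ i j, a i ∈ Y i j) (hb : ∀ i j, b j ∈ Y i j)
    (h : ∀ i j k l, i ≠ k → j ≠ l → Disjoint (Y i j) (Y k l)) : False := by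
  have h1 : ∀ p : (Fin 3 × Fin 3) × Fin 3 × Fin 3, ∀ᶠ ε in nhdsWithin (0 : ℝ) (Ioi 0),
      p.1.1 ≠ p.2.1 → p.1.2 ≠ p.2.2 →
        Disjoint (thickening ε (Y p.1.1 p.1.2)) (thickening ε (Y p.2.1 p.2.2)) := by
    rintro ⟨⟨i, j⟩, k, l⟩
    by_cases hq : i ≠ k ∧ j ≠ l
    · obtain ⟨δ, hδ, hd⟩ := (h i j k l hq.1 hq.2).exists_thickenings (hc i j) (hc k l).isClosed
      filter_upwards [Ioo_mem_nhdsGT hδ] with ε hε _ _
      exact hd.mono (thickening_mono hε.2.le _) (thickening_mono hε.2.le _)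
    · exact Filter.Eventually.of_forall fun ε h1 h2 => absurd ⟨h1, h2⟩ hq
  obtain ⟨ε, hε, hε0⟩ := ((Filter.eventually_all.2 h1).and self_mem_nhdsWithin).exists
  have h2 : ∀ i j, JoinedIn (thickening ε (Y i j)) (a i) (b j) := fun i j =>
    joined_of_open isOpen_thickening (hp i j) (self_subset_thickening hε0 _) (ha i j) (hb i j)
  choose γ hγ using h2
  exact k33_path a b γ fun i j k l hik hjl => (hε ((i, j), k, l) hik hjl).mono
    (range_subset_iff.2 (hγ i j)) (range_subset_iff.2 (hγ k l))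

/-- A map of the plane without zeros has a logarithm. -/
theorem exists_log_univ {f : ℂ → ℂ} (hf : Continuous f) (h0 : ∀ z, f z ≠ 0) :
    ∃ L : ℂ → ℂ, Continuous L ∧ ∀ z, exp (L z) = f z := by
  have h1 : IsSimplyConnected (univ : Set ℂ) := by
    have := (convex_univ (𝕜 := ℝ) (E := ℂ)).contractibleSpace univ_nonempty
    exact SimplyConnectedSpace.ofContractible _
  obtain ⟨L, hL, hL'⟩ := exists_continuousOn_eqOn_exp_comp h1 isOpen_univ hf.continuousOn (by
    rintro ⟨t, -, ht⟩
    exact h0 t ht)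
  exact ⟨L, continuousOn_univ.1 hL, fun z => hL' (mem_univ z)⟩

/-- The plane is unicoherent. -/
theorem unicoherent {A B : Set ℂ} (hA : IsClosed A) (hB : IsClosed B) (hA' : IsPreconnected A)
    (hB' : IsPreconnected B) (hu : A ∪ B = univ) : IsPreconnected (A ∩ B) := by
  classical
  rw [isPreconnected_iff_subset_of_fully_disjoint_closed (hA.inter hB)]
  intro u v hu' hv' hs hd
  by_contra hn
  rw [not_or, not_subset, not_subset] at hn
  obtain ⟨⟨q, hq, hq'⟩, p, hp, hp'⟩ := hn
  obtain ⟨φ, h0, h1, -⟩ := exists_continuous_zero_one_of_isClosed hu' hv' hd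
  have hc : Continuous fun z => ((φ z : ℝ) : ℂ) * (Real.pi * Complex.I) := by fun_prop
  have hAB : ∀ z ∈ A ∩ B, exp (((φ z : ℝ) : ℂ) * (Real.pi * Complex.I)) =
      exp (-(((φ z : ℝ) : ℂ) * (Real.pi * Complex.I))) := fun z hz => by
    rcases hs hz with h | h
    · simp [h0 h]
    · simp [h1 h, exp_neg]
  set f : ℂ → ℂ := fun z => if z ∈ A then exp (((φ z : ℝ) : ℂ) * (Real.pi * Complex.I)) else
    exp (-(((φ z : ℝ) : ℂ) * (Real.pi * Complex.I))) with hf
  have fA : ∀ z ∈ A, f z = exp (((φ z : ℝ) : ℂ) * (Real.pi * Complex.I)) := fun z hz => if_pos hz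
  have fB : ∀ z ∈ B, f z = exp (-(((φ z : ℝ) : ℂ) * (Real.pi * Complex.I))) := fun z hz => by
    by_cases h : z ∈ A
    · rw [fA z h, hAB z ⟨h, hz⟩]
    · exact if_neg h
  have hfc : Continuous f := by
    rw [← continuousOn_univ, ← hu]
    exact (hc.cexp.continuousOn.congr fA).union_of_isClosed
      (hc.neg.cexp.continuousOn.congr fB) hA hB
  obtain ⟨L, hL, hL'⟩ := exists_log_univ hfc fun z => by
    rcases (hu.symm ▸ mem_univ z : z ∈ A ∪ B) with h | h
    · exact fA z h ▸ exp_ne_zero _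
    · exact fB z h ▸ exp_ne_zero _
  have e1 := const_of_exp hA' (g := fun z => L z - ((φ z : ℝ) : ℂ) * (Real.pi * Complex.I))
    (hL.sub hc).continuousOn (c := 1)
    (fun z hz => by rw [exp_sub, hL', fA z hz, div_self (exp_ne_zero _)]) hp.1 hq.1
  have e2 := const_of_exp hB' (g := fun z => L z - -(((φ z : ℝ) : ℂ) * (Real.pi * Complex.I)))
    (hL.sub hc.neg).continuousOn (c := 1)
    (fun z hz => by rw [exp_sub, hL', fB z hz, div_self (exp_ne_zero _)]) hp.2 hq.2
  have p0 : φ p = 0 := h0 ((hs hp).resolve_right hp')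
  have q1 : φ q = 1 := h1 ((hs hq).resolve_left hq')
  simp only [p0, q1, ofReal_zero, ofReal_one] at e1 e2
  exact two_pi_I_ne_zero (by linear_combination e1 - e2)

/-- Points that are joined off `K` give a logarithm on `K`. -/
theorem log_of_joined {K : Set ℂ} {x y : ℂ} (h : JoinedIn Kᶜ x y) :
    ∃ g : ℂ → ℂ, ContinuousOn g K ∧ ∀ z ∈ K, exp (g z) = (y - z) / (x - z) := by
  obtain ⟨δ, hδ⟩ := h
  have h1 : ∀ z ∈ K, z ∉ range δ := by
    rintro _ hz ⟨t, rfl⟩
    exact hδ t hz
  exact ⟨inc δ, (continuousOn_inc δ).mono h1, fun z hz => exp_inc δ (h1 z hz)⟩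

theorem frontier_comp {K : Set ℂ} (hK : IsClosed K) (x : ℂ) :
    frontier (connectedComponentIn Kᶜ x) ⊆ K := by
  intro z hz
  by_contra hn
  have hO : ∀ w, IsOpen (connectedComponentIn Kᶜ w) := fun w =>
    hK.isOpen_compl.connectedComponentIn
  rw [(hO x).frontier_eq] at hz
  obtain ⟨w, h1, h2⟩ := mem_closure_iff.mp hz.1 _ (hO z) (mem_connectedComponentIn hn)
  refine hz.2 ?_
  rw [connectedComponentIn_eq h2, ← connectedComponentIn_eq h1]
  exact mem_connectedComponentIn hn

theorem pre_far (x : ℂ) {R : ℝ} (hR : 0 ≤ R) : IsPreconnected {z : ℂ | R ≤ dist z x} := by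
  have h := (isPreconnected_Ici (a := R)).prod (isPreconnected_univ (α := ℝ))
  have h1 := h.image (fun p : ℝ × ℝ => x + p.1 * exp (p.2 * Complex.I)) (by fun_prop)
  convert h1 using 1
  ext z
  constructor
  · intro hz
    refine ⟨(‖z - x‖, arg (z - x)), ⟨by simpa [dist_eq_norm] using hz, mem_univ _⟩, ?_⟩
    simp [norm_mul_exp_arg_mul_I]
  · rintro ⟨⟨s, t⟩, ⟨hs, -⟩, rfl⟩
    have hs' : R ≤ s := hs
    simp [dist_eq_norm, abs_of_nonneg (hR.trans hs'), hs']

theorem joined_aux {K : Set ℂ} (hK : IsClosed K) {x y : ℂ} (hx : x ∉ K) {g : ℂ → ℂ}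
    (hg : ContinuousOn g K) (he : ∀ z ∈ K, exp (g z) = (y - z) / (x - z)) {R : ℝ} (hR : 0 < R)
    (hb : ∀ z ∈ connectedComponentIn Kᶜ x, dist z x < R) : y ∈ connectedComponentIn Kᶜ x := by
  classical
  by_contra hy
  set U := connectedComponentIn Kᶜ x with hU
  have hxU : x ∈ U := mem_connectedComponentIn hx
  obtain ⟨G, hG⟩ := ContinuousMap.exists_restrict_eq hK ⟨K.domRestrict g, hg.domRestrict⟩
  have hG' : ∀ z ∈ K, G z = g z := fun z hz => DFunLike.congr_fun hG ⟨z, hz⟩
  have hc : Continuous fun z => if z ∈ U then (y - z) * exp (-G z) else x - z := by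
    refine Continuous.if (fun z hz => ?_) (by fun_prop) (by fun_prop)
    have hzK : z ∈ K := frontier_comp hK x hz
    have h1 : x - z ≠ 0 := fun h => hx (sub_eq_zero.1 h ▸ hzK)
    have h2 := he z hzK
    have h3 : y - z ≠ 0 := fun h => exp_ne_zero (g z) (by rw [h2, h, zero_div])
    rw [exp_neg, hG' z hzK, h2]
    field_simp
  obtain ⟨L, hL, hL'⟩ := exists_log_univ hc fun z => by
    by_cases h : z ∈ U
    · rw [if_pos h]
      exact mul_ne_zero (fun h1 => hy (sub_eq_zero.1 h1 ▸ h)) (exp_ne_zero _)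
    · rw [if_neg h]
      exact fun h1 => h (sub_eq_zero.1 h1 ▸ hxU)
  have := const_of_exp (isPreconnected_univ (α := ℝ))
    (g := fun t : ℝ => L (x + R * exp (t * Complex.I)) - t * Complex.I) (by fun_prop) (c := -R)
    (fun t _ => by
      have h1 : x + R * exp (t * Complex.I) ∉ U := fun h => by
        have := hb _ h
        simp [dist_eq_norm, abs_of_pos hR] at this
      rw [exp_sub, hL', if_neg h1]
      field_simp
      ring) (mem_univ (2 * Real.pi)) (mem_univ 0)
  have e : exp (((2 * Real.pi : ℝ) : ℂ) * Complex.I) = 1 := by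
    push_cast
    exact exp_two_pi_mul_I
  simp only [e, ofReal_zero, zero_mul, exp_zero] at this
  push_cast at this
  exact two_pi_I_ne_zero (by linear_combination -this)

/-- The criterion of Eilenberg. -/
theorem joined_of_log {K : Set ℂ} (hK : IsCompact K) {x y : ℂ} (hx : x ∉ K) (hy : y ∉ K)
    {g : ℂ → ℂ} (hg : ContinuousOn g K) (he : ∀ z ∈ K, exp (g z) = (y - z) / (x - z)) :
    JoinedIn Kᶜ x y := by
  have hO := hK.isClosed.isOpen_compl
  have fin : ∀ {u v : ℂ}, u ∉ K → v ∈ connectedComponentIn Kᶜ u → JoinedIn Kᶜ u v :=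
    fun hu hv => joined_of_open hO isPreconnected_connectedComponentIn
      (connectedComponentIn_subset _ _) (mem_connectedComponentIn hu) hv
  obtain ⟨R, hR, hKR⟩ := hK.isBounded.subset_ball_lt 0 x
  have hF : {z : ℂ | R ≤ dist z x} ⊆ Kᶜ := fun z hz h =>
    not_lt.2 (show R ≤ dist z x from hz) (mem_ball.1 (hKR h))
  by_cases h1 : ∀ z ∈ connectedComponentIn Kᶜ x, dist z x < R
  · exact fin hx (joined_aux hK.isClosed hx hg he hR h1)
  by_cases h2 : ∀ z ∈ connectedComponentIn Kᶜ y, dist z x < R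
  · refine (fin hy (joined_aux hK.isClosed hy hg.neg (fun z hz => ?_)
      (R := R + dist x y) (by positivity) fun z hz => ?_)).symm
    · rw [Pi.neg_apply, exp_neg, he z hz, inv_div]
    · linarith [h2 z hz, dist_triangle z x y]
  push Not at h1 h2
  obtain ⟨u, hu, hu'⟩ := h1
  obtain ⟨v, hv, hv'⟩ := h2
  exact ((fin hx hu).trans (joined_of_open hO (pre_far x hR.le) hF hu' hv')).trans (fin hy hv).symm

/-- The theorem of Janiszewski. -/
theorem janiszewski {A B : Set ℂ} (hA : IsCompact A) (hB : IsCompact B)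
    (hAB : IsPreconnected (A ∩ B)) {x y : ℂ} (h1 : JoinedIn Aᶜ x y) (h2 : JoinedIn Bᶜ x y) :
    JoinedIn (A ∪ B)ᶜ x y := by
  classical
  obtain ⟨f, hf, ef⟩ := log_of_joined h1
  obtain ⟨g, hg, eg⟩ := log_of_joined h2
  have hc : ∃ c : ℂ, exp c = 1 ∧ ∀ z ∈ A ∩ B, f z = g z + c := by
    rcases (A ∩ B).eq_empty_or_nonempty with h | ⟨p, hp⟩
    · exact ⟨0, exp_zero, fun z hz => absurd (h ▸ hz) (notMem_empty z)⟩
    have h3 : ∀ z ∈ A ∩ B, exp (f z - g z) = 1 := fun z hz => by
      rw [exp_sub, ef z hz.1, ← eg z hz.2, div_self (exp_ne_zero _)]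
    refine ⟨f p - g p, h3 p hp, fun z hz => ?_⟩
    have := const_of_exp hAB (g := fun z => f z - g z)
      ((hf.mono inter_subset_left).sub (hg.mono inter_subset_right)) h3 hz hp
    linear_combination this
  obtain ⟨c, hc, hc'⟩ := hc
  have fB : ∀ z ∈ B, (if z ∈ A then f z else g z + c) = g z + c := fun z hz => by
    by_cases h : z ∈ A
    · rw [if_pos h, hc' z ⟨h, hz⟩]
    · exact if_neg h
  refine joined_of_log (hA.union hB) (fun h => h.elim h1.source_mem h2.source_mem)
    (fun h => h.elim h1.target_mem h2.target_mem)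
    (g := fun z => if z ∈ A then f z else g z + c) ?_ fun z hz => ?_
  · exact (hf.congr fun z hz => if_pos hz).union_of_isClosed
      ((hg.add continuousOn_const).congr fB) hA.isClosed hB.isClosed
  · rcases hz with h | h
    · rw [if_pos h, ef z h]
    · rw [fB z h, exp_add, hc, mul_one, eg z h]

/-- The complement of a component of the complement of a closed connected set is connected. -/
theorem compl_comp {P : Set ℂ} (hc : IsClosed P) (hP : IsConnected P) (x : ℂ) :
    IsPreconnected (connectedComponentIn Pᶜ x)ᶜ := by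
  obtain ⟨p, hp⟩ := hP.nonempty
  have hsub : P ⊆ (connectedComponentIn Pᶜ x)ᶜ := fun z hz h => connectedComponentIn_subset _ _ h hz
  refine isPreconnected_of_forall p fun y hy => ?_
  by_cases hyP : y ∈ P
  · exact ⟨P, hsub, hp, hyP, hP.isPreconnected⟩
  set O := connectedComponentIn Pᶜ y with hO
  have hcl : closure O ⊆ P ∪ O := by
    rw [closure_eq_self_union_frontier, union_comm]
    exact union_subset_union_left _ (frontier_comp hc y)
  have hne : (frontier O).Nonempty := by
    rw [nonempty_frontier_iff]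
    exact ⟨⟨y, mem_connectedComponentIn hyP⟩, fun h =>
      connectedComponentIn_subset Pᶜ y (show p ∈ O from h ▸ mem_univ p) hp⟩
  obtain ⟨q, hq⟩ := hne
  refine ⟨P ∪ closure O, union_subset hsub (hcl.trans (union_subset hsub fun z hz h => hy ?_)),
    Or.inl hp, Or.inr (subset_closure (mem_connectedComponentIn hyP)),
    hP.isPreconnected.union q (frontier_comp hc y hq) (frontier_subset_closure hq)
      isPreconnected_connectedComponentIn.closure⟩
  rw [connectedComponentIn_eq h, ← connectedComponentIn_eq hz]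
  exact mem_connectedComponentIn hyP

/-- The boundary of a hole of a closed connected set is connected. -/
theorem frontier_conn {P : Set ℂ} (hc : IsClosed P) (hP : IsConnected P) (x : ℂ) :
    IsPreconnected (frontier (connectedComponentIn Pᶜ x)) := by
  have hO : IsOpen (connectedComponentIn Pᶜ x) := hc.isOpen_compl.connectedComponentIn
  rw [hO.frontier_eq, sdiff_eq]
  refine unicoherent isClosed_closure hO.isClosed_compl
    isPreconnected_connectedComponentIn.closure (compl_comp hc hP x) ?_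
  exact eq_univ_of_forall fun z => (em _).imp (fun h => subset_closure h) id

theorem joined_iff_comp {K : Set ℂ} (hK : IsClosed K) {x y : ℂ} (hx : x ∉ K) :
    JoinedIn Kᶜ x y ↔ y ∈ connectedComponentIn Kᶜ x := by
  refine ⟨fun ⟨γ, hγ⟩ => ?_, fun h => joined_of_open hK.isOpen_compl
    isPreconnected_connectedComponentIn (connectedComponentIn_subset _ _)
    (mem_connectedComponentIn hx) h⟩
  exact (isPreconnected_range γ.continuous).subset_connectedComponentIn ⟨0, γ.source⟩
    (range_subset_iff.2 hγ) ⟨1, γ.target⟩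

/-- A closed set that separates two points contains a closed connected set that does; it lies in
the boundary of the component of the first point. -/
theorem exists_conn_sep {K : Set ℂ} (hK : IsClosed K) {x y : ℂ} (hx : x ∉ K) (hy : y ∉ K)
    (h : ¬ JoinedIn Kᶜ x y) : ∃ C, C ⊆ frontier (connectedComponentIn Kᶜ x) ∧ C ⊆ K ∧
      IsClosed C ∧ IsPreconnected C ∧ ¬ JoinedIn Cᶜ x y := by
  set U := connectedComponentIn Kᶜ x with hU
  have hxU : x ∈ U := mem_connectedComponentIn hx
  have hyU : y ∉ closure U := by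
    rw [closure_eq_self_union_frontier]
    rintro (h1 | h1)
    · exact h ((joined_iff_comp hK hx).2 h1)
    · exact hy (frontier_comp hK x h1)
  have hUc : IsConnected (closure U) := (isConnected_connectedComponentIn_iff.2 hx).closure
  set V := connectedComponentIn (closure U)ᶜ y with hV
  have hVo : IsOpen V := isClosed_closure.isOpen_compl.connectedComponentIn
  have hUo : IsOpen U := hK.isOpen_compl.connectedComponentIn
  have hsub : frontier V ⊆ frontier U := fun z hz => by
    rw [hUo.frontier_eq]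
    refine ⟨frontier_comp isClosed_closure y hz, fun hzU => ?_⟩
    obtain ⟨w, h1, h2⟩ := mem_closure_iff.mp (frontier_subset_closure hz) U hUo hzU
    exact connectedComponentIn_subset _ _ h2 (subset_closure h1)
  refine ⟨frontier V, hsub, hsub.trans (frontier_comp hK x), isClosed_frontier,
    frontier_conn isClosed_closure hUc y, fun ⟨γ, hγ⟩ => ?_⟩
  have h1 : range γ ⊆ V := by
    refine (isPreconnected_range γ.continuous).subset_of_closure_inter_subset hVo
      ⟨y, ⟨1, γ.target⟩, mem_connectedComponentIn hyU⟩ ?_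
    rintro _ ⟨h2, t, rfl⟩
    rw [closure_eq_self_union_frontier] at h2
    exact h2.resolve_right (hγ t)
  exact connectedComponentIn_subset _ _ (h1 ⟨0, γ.source⟩) (subset_closure hxU)

/-- Near a boundary point of a hole there is an accessible point. -/
theorem exists_access {K : Set ℂ} (hK : IsClosed K) {o p : ℂ} (hp : p ∈ K)
    (hpo : p ∈ closure (connectedComponentIn Kᶜ o)) {ε : ℝ} (hε : 0 < ε) :
    ∃ p' ∈ K, dist p p' < ε ∧ ∃ E, IsCompact E ∧ IsPreconnected E ∧ o ∈ E ∧ p' ∈ E ∧
      E ⊆ insert p' (connectedComponentIn Kᶜ o) := by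
  obtain ⟨q, hq, hpq⟩ := Metric.mem_closure_iff.1 hpo ε hε
  have ho : o ∉ K := connectedComponentIn_nonempty_iff.1 ⟨q, hq⟩
  have hqK : q ∉ K := connectedComponentIn_subset _ _ hq
  obtain ⟨γ, hγ⟩ := (joined_iff_comp hK ho).2 hq
  set ℓ : ℝ → ℂ := fun t => AffineMap.lineMap q p t with hℓ
  have hℓc : Continuous ℓ := AffineMap.lineMap_continuous
  have hS : IsCompact (Icc (0 : ℝ) 1 ∩ ℓ ⁻¹' K) := isCompact_Icc.inter_right (hK.preimage hℓc)
  obtain ⟨s, ⟨hs, hsK⟩, hmin⟩ := hS.exists_isLeast ⟨1, ⟨zero_le_one, le_rfl⟩, by simpa [hℓ] using hp⟩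
  have h0 : ℓ 0 = q := by simp [hℓ]
  have h1 : ℓ '' Ico 0 s ⊆ connectedComponentIn Kᶜ o := by
    rcases hs.1.eq_or_lt with h | h
    · simp [← h]
    rw [connectedComponentIn_eq hq]
    refine (isPreconnected_Ico.image ℓ hℓc.continuousOn).subset_connectedComponentIn
      ⟨0, ⟨le_rfl, h⟩, h0⟩ ?_
    rintro _ ⟨t, ht, rfl⟩ htK
    exact not_lt.2 (hmin ⟨⟨ht.1, ht.2.le.trans hs.2⟩, htK⟩) ht.2
  refine ⟨ℓ s, hsK, ?_, range γ ∪ ℓ '' Icc 0 s,
    (isCompact_range γ.continuous).union (isCompact_Icc.image hℓc),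
    (isPreconnected_range γ.continuous).union q ⟨1, γ.target⟩ ⟨0, ⟨le_rfl, hs.1⟩, h0⟩
      (isPreconnected_Icc.image ℓ hℓc.continuousOn), Or.inl ⟨0, γ.source⟩,
    Or.inr ⟨s, ⟨hs.1, le_rfl⟩, rfl⟩, union_subset ?_ ?_⟩
  · rw [hℓ, dist_right_lineMap, Real.norm_of_nonneg (by linarith [hs.2]), dist_comm q]
    nlinarith [hs.1, dist_nonneg (x := p) (y := q)]
  · exact ((isPreconnected_range γ.continuous).subset_connectedComponentIn ⟨0, γ.source⟩
      (range_subset_iff.2 hγ)).trans (subset_insert _ _)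
  · rintro _ ⟨t, ht, rfl⟩
    rcases ht.2.eq_or_lt with h | h
    · exact Or.inl (by rw [h])
    · exact Or.inr (h1 ⟨t, ⟨ht.1, h⟩, rfl⟩)

end KKJS
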