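import Pool.Agent.Lib.MP_e1e491_gt.CdNet

/-! The weights. -/

namespace Pool.Agent.Lib.MP_e1e491_gt

open Real
open scoped Classical

noncomputable section

variable {S E : Type*} [MetricSpace S] [PseudoMetricSpace E]

/-- One level: the squared local gradient. -/
theorem exists_sigma {C₀ Q : ℕ} (hd : Dbl S C₀ Q) {r r' ε : ℝ} (hr : 0 < r) (hr' : 0 < r')
    (hε : 0 ≤ ε) {N N' : Finset S} (hN : Sepd r N) (hN' : Sepd r' N') {Φ : S → S → E}
    (hΦ : ∀ c, Tst (Φ c) c r r' ε) : ∃ σ : S → ℝ, (∀ z, 0 ≤ σ z) ∧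
      (∀ c ∈ N, ∀ z ∈ N', ∀ z' ∈ N', dist z c < 2 * r → dist z' z < 12 * r' →
        dist (Φ c z) (Φ c z') ^ 2 ≤ σ z) ∧
      ∀ ξ, ∑ z ∈ N'.filter (fun z => dist z ξ < 2 * r), σ z ≤ C₀ * 4 ^ Q * ε := by
  have hy : ∀ c z : S, ∃ y, dist y z < 12 * r' ∧ ∀ z' ∈ N', dist z' z < 12 * r' →
      dist (Φ c z) (Φ c z') ≤ dist (Φ c z) (Φ c y) := fun c z => by
    rcases (N'.filter fun z' => dist z' z < 12 * r').eq_empty_or_nonempty with h | h
    · refine ⟨z, by rw [dist_self]; positivity, fun z' h1 h2 => ?_⟩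
      exact absurd (h ▸ Finset.mem_filter.2 ⟨h1, h2⟩) (Finset.notMem_empty z')
    · obtain ⟨y, h1, h2⟩ := Finset.exists_max_image _ (fun z' => dist (Φ c z) (Φ c z')) h
      exact ⟨y, (Finset.mem_filter.1 h1).2, fun z' a b => h2 z' (Finset.mem_filter.2 ⟨a, b⟩)⟩
  choose y y1 y2 using hy
  refine ⟨fun z => ∑ c ∈ N.filter (fun c => dist z c < 2 * r), dist (Φ c z) (Φ c (y c z)) ^ 2,
    fun z => Finset.sum_nonneg fun _ _ => sq_nonneg _, fun c hc z _ z' hz' h1 h2 => ?_,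
    fun ξ => ?_⟩
  · exact (pow_le_pow_left₀ dist_nonneg (y2 c z z' hz' h2) 2).trans (Finset.single_le_sum
      (f := fun c => dist (Φ c z) (Φ c (y c z)) ^ 2) (fun _ _ => sq_nonneg _)
      (Finset.mem_filter.2 ⟨hc, h1⟩))
  · rw [Finset.sum_comm' (t' := N.filter fun c => dist c ξ ≤ (4 : ℕ) * r)
      (s' := fun c => (N'.filter fun z => dist z ξ < 2 * r).filter fun z => dist z c < 2 * r)]
    · refine (Finset.sum_le_card_nsmul _ _ ε fun c _ => (hΦ c).2 _ (y c) (fun a ha b hb =>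
        hN' a (Finset.mem_filter.1 (Finset.mem_filter.1 ha).1).1 b
          (Finset.mem_filter.1 (Finset.mem_filter.1 hb).1).1)
        (fun z hz => (Finset.mem_filter.1 hz).2) fun z _ => y1 c z).trans ?_
      rw [nsmul_eq_mul]
      refine mul_le_mul_of_nonneg_right ?_ hε
      exact_mod_cast hd r hr 4 (by norm_num) ξ _ (fun a ha b hb =>
        hN a (Finset.mem_filter.1 ha).1 b (Finset.mem_filter.1 hb).1)
        fun z hz => (Finset.mem_filter.1 hz).2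
    · intro z c
      simp only [Finset.mem_filter]
      refine ⟨fun ⟨h1, h2, h3⟩ => ⟨⟨h1, h3⟩, h2, ?_⟩, fun ⟨⟨h1, h2⟩, h3, _⟩ => ⟨h1, h3, h2⟩⟩
      have := dist_triangle_left c ξ z
      push_cast
      linarith [h1.2]

theorem cdrho_exp (Q : ℕ) {x : ℝ} (hx : 0 ≤ x) :
    (⌈x⌉₊ : ℝ) ^ Q * exp (-x) ≤ exp 1 * Q.factorial := by
  have h1 := Real.pow_div_factorial_le_exp (x + 1) (by linarith) Q
  rw [div_le_iff₀ (by positivity)] at h1
  have h2 := pow_le_pow_left₀ (Nat.cast_nonneg _) (Nat.ceil_lt_add_one hx).le Q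
  refine (mul_le_mul_of_nonneg_right (h2.trans h1) (exp_pos _).le).trans (le_of_eq ?_)
  rw [mul_right_comm, ← exp_add]
  congr 2
  ring

/-- One level: the weight `ρ x = √(η ^ 2 + KH ^ 2 ∑ σ z exp (-2 dist z x / r'))`. -/
theorem exists_rho {C₀ Q : ℕ} (hd : Dbl S C₀ Q) : ∃ A : ℝ, 0 < A ∧ ∀ (r t δ η : ℝ), 0 < r →
    0 < t → t ≤ 1 → 0 < η → ∀ (N' : Finset S), Sepd (r * t) N' → ∀ σ : S → ℝ, (∀ z, 0 ≤ σ z) →
      (∀ ξ, ∑ z ∈ N'.filter (fun z => dist z ξ < 2 * r), σ z ≤ δ) →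
      ∃ ρ : S → ℝ, (∀ x, η ≤ ρ x) ∧ (∀ x, ρ x ^ 2 ≤ η ^ 2 + A * δ) ∧
        (∀ x y, ρ x ≤ exp (dist x y / (r * t)) * ρ y) ∧ (∀ z ∈ N', KH ^ 2 * σ z ≤ ρ z ^ 2) ∧
        ∀ c, ∑ z ∈ N'.filter (fun z => dist z c < r), ρ z ^ 2 ≤
          C₀ * ⌈1 / t⌉₊ ^ Q * η ^ 2 + A * δ := by
  obtain ⟨W, W1, hW⟩ := hd.sum_exp
  have K1 := one_le_KH
  have K2 : 0 < KH ^ 2 := by positivity
  obtain ⟨B, hB⟩ : ∃ B : ℝ, B = C₀ * (exp 1 * Q.factorial) := ⟨_, rfl⟩
  have B0 : 0 ≤ B := by rw [hB]; positivity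
  refine ⟨KH ^ 2 * W * (1 + B), by positivity, fun r t δ η hr ht t1 hη N' hN σ s0 hσ => ?_⟩
  have hr' : 0 < r * t := mul_pos hr ht
  obtain ⟨e, he⟩ : ∃ e : S → S → ℝ, ∀ z x, e z x = exp (-(dist z x / (r * t))) :=
    ⟨_, fun _ _ => rfl⟩
  have e0 : ∀ z x, 0 < e z x := fun z x => he z x ▸ exp_pos _
  have e1 : ∀ z x, e z x ≤ 1 := fun z x => he z x ▸ exp_le_one_iff.2
    (neg_nonpos.2 (by positivity))
  have e2 : ∀ z x, e z x ^ 2 ≤ e z x := fun z x => by nlinarith [e0 z x, e1 z x]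
  have eW : ∀ x, ∑ z ∈ N', e z x ≤ W := fun x => by simpa only [he] using hW _ hr' x N' hN
  have sd : ∀ z ∈ N', σ z ≤ δ := fun z hz => (Finset.single_le_sum (f := σ) (fun a _ => s0 a)
    (Finset.mem_filter.2 ⟨hz, by rw [dist_self]; positivity⟩)).trans (hσ z)
  have d0 : S → 0 ≤ δ := fun x => (Finset.sum_nonneg fun a _ => s0 a).trans (hσ x)
  have g0 : ∀ x, 0 ≤ ∑ z ∈ N', σ z * e z x ^ 2 := fun x =>
    Finset.sum_nonneg fun z _ => mul_nonneg (s0 z) (sq_nonneg _)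
  have q0 : ∀ x, 0 ≤ η ^ 2 + KH ^ 2 * ∑ z ∈ N', σ z * e z x ^ 2 := fun x => by
    have := g0 x
    positivity
  refine ⟨fun x => √(η ^ 2 + KH ^ 2 * ∑ z ∈ N', σ z * e z x ^ 2), fun x => ?_, fun x => ?_,
    fun x y => ?_, fun z hz => ?_, fun c => ?_⟩
  · exact (le_sqrt' hη).2 (le_add_of_nonneg_right (mul_nonneg K2.le (g0 x)))
  · rw [sq_sqrt (q0 x)]
    have h1 : ∑ z ∈ N', σ z * e z x ^ 2 ≤ δ * W := by
      refine le_trans ?_ (mul_le_mul_of_nonneg_left (eW x) (d0 x))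
      rw [Finset.mul_sum]
      exact Finset.sum_le_sum fun z hz => mul_le_mul (sd z hz) (e2 z x) (sq_nonneg _) (d0 x)
    have h2 := mul_le_mul_of_nonneg_left h1 K2.le
    have h3 : 0 ≤ KH ^ 2 * W * B * δ := by
      have := d0 x
      positivity
    linarith
  · refine sqrt_le_iff.2 ⟨by positivity, ?_⟩
    rw [mul_pow, sq_sqrt (q0 y), mul_add, mul_left_comm, Finset.mul_sum N' _ (exp _ ^ 2)]
    have h1 : 1 ≤ exp (dist x y / (r * t)) := one_le_exp (by positivity)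
    refine add_le_add (le_mul_of_one_le_left (sq_nonneg _) (one_le_pow₀ h1))
      (mul_le_mul_of_nonneg_left (Finset.sum_le_sum fun z _ => ?_) K2.le)
    rw [mul_left_comm, ← mul_pow]
    refine mul_le_mul_of_nonneg_left (pow_le_pow_left₀ (e0 _ _).le ?_ 2) (s0 z)
    rw [he, he, ← exp_add, exp_le_exp, ← sub_eq_add_neg, ← sub_div, ← neg_div]
    exact div_le_div_of_nonneg_right (by linarith [dist_triangle z x y]) hr'.le
  · rw [sq_sqrt (q0 z)]
    have h1 := Finset.single_le_sum (f := fun a => σ a * e a z ^ 2)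
      (fun a _ => mul_nonneg (s0 a) (sq_nonneg _)) hz
    rw [he, dist_self, zero_div, neg_zero, exp_zero, one_pow, mul_one] at h1
    exact le_add_of_nonneg_of_le (sq_nonneg _) (mul_le_mul_of_nonneg_left h1 K2.le)
  · obtain ⟨T, hT⟩ : ∃ T, T = N'.filter fun z => dist z c < r := ⟨_, rfl⟩
    have mT : ∀ z ∈ T, z ∈ N' ∧ dist z c < r := fun z hz => Finset.mem_filter.1 (hT ▸ hz)
    have sT : Sepd (r * t) T := fun a ha b hb => hN a (mT a ha).1 b (mT b hb).1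
    have c1 : 1 / t ≤ ⌈1 / t⌉₊ := Nat.le_ceil _
    have cT : (T.card : ℝ) ≤ C₀ * ⌈1 / t⌉₊ ^ Q := by
      exact_mod_cast hd _ hr' ⌈1 / t⌉₊ (Nat.ceil_pos.2 (by positivity)) c T sT fun z hz => by
        rw [div_le_iff₀ ht] at c1
        nlinarith [(mT z hz).2]
    have dc := d0 c
    have h1 : ∀ z ∈ T, ∑ a ∈ N', σ a * e a z ^ 2 ≤
        ∑ a ∈ N'.filter (fun a => dist a c < 2 * r), σ a * e z a + δ * exp (-(1 / t)) * W := by
      intro z hz
      refine le_trans ?_ (add_le_add_right (mul_le_mul_of_nonneg_left (eW z) (by positivity)) _)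
      rw [Finset.sum_filter, Finset.mul_sum, ← Finset.sum_add_distrib]
      refine Finset.sum_le_sum fun a ha => ?_
      have u := e0 a z
      split_ifs with h
      · rw [show e z a = e a z by rw [he, he, dist_comm]]
        exact le_add_of_le_of_nonneg (mul_le_mul_of_nonneg_left (e2 a z) (s0 a)) (by positivity)
      · rw [zero_add, sq, ← mul_assoc]
        refine mul_le_mul_of_nonneg_right (mul_le_mul (sd a ha) ?_ u.le dc) u.le
        rw [he, exp_le_exp, neg_le_neg_iff, div_le_div_iff₀ ht hr']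
        nlinarith [dist_triangle a z c, (mT z hz).2, not_lt.1 h]
    have h2 : ∑ z ∈ T, ∑ a ∈ N'.filter (fun a => dist a c < 2 * r), σ a * e z a ≤ δ * W := by
      rw [Finset.sum_comm]
      refine le_trans ?_ (mul_le_mul_of_nonneg_right (hσ c) (by linarith))
      rw [Finset.sum_mul]
      refine Finset.sum_le_sum fun a _ => ?_
      rw [← Finset.mul_sum]
      exact mul_le_mul_of_nonneg_left (by simpa only [he] using hW _ hr' a T sT) (s0 a)
    have h3 : (T.card : ℝ) * exp (-(1 / t)) ≤ B := by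
      refine (mul_le_mul_of_nonneg_right cT (exp_pos _).le).trans ?_
      rw [hB, mul_assoc]
      exact mul_le_mul_of_nonneg_left (cdrho_exp Q (by positivity)) (Nat.cast_nonneg _)
    have h4 := Finset.sum_le_sum h1
    rw [Finset.sum_add_distrib, Finset.sum_const, nsmul_eq_mul] at h4
    simp only [sq_sqrt (q0 _)]
    rw [← hT, Finset.sum_add_distrib, Finset.sum_const, nsmul_eq_mul, ← Finset.mul_sum]
    have h5 := mul_le_mul_of_nonneg_right h3 (show 0 ≤ δ * W by positivity)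
    refine add_le_add (mul_le_mul_of_nonneg_right cT (sq_nonneg _)) ?_
    rw [show KH ^ 2 * W * (1 + B) * δ = KH ^ 2 * (δ * W + B * (δ * W)) by ring]
    exact mul_le_mul_of_nonneg_left (by linarith) K2.le

theorem exists_wt {C₀ Q : ℕ} (hd : Dbl S C₀ Q) {R : ℝ} (hR : 0 < R)
    (hdiam : ∀ x y : S, dist x y ≤ R) (H : ∀ ε : ℝ, 0 < ε → ∃ t : ℝ, 0 < t ∧ t ≤ 1 / 12 ∧
      ∀ (i : ℕ) (c : S), ∃ Φ : S → E, Tst Φ c (R * t ^ i) (R * t ^ (i + 1)) ε) :
    Nonempty (Wt S E) := by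
  obtain ⟨A, A0, hA⟩ := exists_rho hd
  have K1 := one_le_KH
  have K2 : 1 ≤ KH ^ 2 := one_le_pow₀ K1
  obtain ⟨δ, hδ⟩ : ∃ δ : ℝ, δ = 1 / (8 * KH ^ 2 * A) := ⟨_, rfl⟩
  have d0 : 0 < δ := by rw [hδ]; positivity
  have d1 : A * δ = 1 / (8 * KH ^ 2) := by
    rw [hδ]
    field_simp
  have d2 : 1 / (8 * KH ^ 2) ≤ 1 / 8 := one_div_le_one_div_of_le (by norm_num) (by linarith)
  have ε0 : 0 < δ / (C₀ * 4 ^ Q + 1) := by positivity
  have ε1 : C₀ * 4 ^ Q * (δ / (C₀ * 4 ^ Q + 1)) ≤ δ := by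
    rw [← mul_div_assoc, div_le_iff₀ (by positivity)]
    nlinarith
  obtain ⟨t, t0, t1, hΦ⟩ := H _ ε0
  choose Φ hΦ using hΦ
  have r0 : ∀ i : ℕ, 0 < R * t ^ i := fun i => by positivity
  have rs : ∀ i : ℕ, R * t ^ (i + 1) = R * t ^ i * t := fun i => by ring
  choose N N1 N2 using fun i : ℕ => hd.exists_net hdiam (r0 i)
  obtain ⟨M, hM⟩ : ∃ M : ℝ, M = C₀ * ⌈1 / t⌉₊ ^ Q := ⟨_, rfl⟩
  have M0 : 0 ≤ M := by rw [hM]; positivity
  obtain ⟨η, hη⟩ : ∃ η : ℝ, η = 1 / (4 * KH * (M + 1)) := ⟨_, rfl⟩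
  have η0 : 0 < η := by rw [hη]; positivity
  have η1 : η ≤ 1 / 4 := hη ▸ one_div_le_one_div_of_le (by norm_num) (by nlinarith)
  have η2 : M * η ^ 2 ≤ 1 / (8 * KH ^ 2) := by
    rw [hη, div_pow, ← mul_div_assoc, div_le_div_iff₀ (by positivity) (by positivity)]
    nlinarith [mul_nonneg (sq_nonneg KH) M0, mul_nonneg (sq_nonneg KH) (sq_nonneg M)]
  choose σ s0 s1 s2 using fun i : ℕ =>
    exists_sigma hd (r0 i) (r0 (i + 1)) ε0.le (N1 i) (N1 (i + 1)) (hΦ i)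
  choose ρ p1 p2 p3 p4 p5 using fun i : ℕ => hA (R * t ^ i) t δ η (r0 i) t0 (by linarith) η0
    (N (i + 1)) (rs i ▸ N1 (i + 1)) (σ i) (s0 i) fun ξ => (s2 i ξ).trans ε1
  have l2 : 0 < log 2 := log_pos one_lt_two
  have l1 : log η ≤ -(2 * log 2) := by
    have := log_le_log η0 η1
    rwa [one_div, log_inv, show (4 : ℝ) = 2 ^ 2 by norm_num, log_pow] at this
  have l0 : log η < 0 := by linarith
  have q1 : log 2 / log η < 0 := div_neg_of_pos_of_neg l2 l0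
  have q2 : -1 ≤ log 2 / log η := by
    rw [le_div_iff_of_neg l0]
    linarith
  have ρ0 : ∀ i x, 0 < ρ i x := fun i x => η0.trans_le (p1 i x)
  refine ⟨⟨R, t, η, 2 + log 2 / log η, C₀, Q, N, Φ, ρ, hd, hR, hdiam, t0, t1, η0, by linarith,
    by linarith, by linarith, N1, N2, fun i c => (hΦ i c).1, p1, fun i x => ?_,
    fun i x y => rs i ▸ p3 i x y, fun i c hc z hz z' hz' h1 h2 => ?_, fun i c => ?_⟩⟩
  · refine (sq_le_sq₀ (ρ0 i x).le (by norm_num)).1 ((p2 i x).trans ?_)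
    nlinarith
  · refine (sq_le_sq₀ (by positivity) (ρ0 i z).le).1 (le_trans ?_ (p4 i z hz))
    rw [mul_pow]
    exact mul_le_mul_of_nonneg_left (s1 i c hc z hz z' hz' h1 h2) (sq_nonneg _)
  · have h1 : ∀ z, ρ i z ^ (2 + log 2 / log η) ≤ 2 * ρ i z ^ 2 := fun z => by
      rw [rpow_add (ρ0 i z), rpow_two, mul_comm]
      refine mul_le_mul_of_nonneg_right
        ((rpow_le_rpow_of_nonpos η0 (p1 i z) q1.le).trans (le_of_eq ?_)) (sq_nonneg _)
      rw [rpow_def_of_pos η0, mul_div_cancel₀ _ l0.ne, exp_log two_pos]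
    refine (Finset.sum_le_sum fun z _ => h1 z).trans ?_
    have h2 := p5 i c
    rw [← hM, d1] at h2
    rw [← Finset.mul_sum, show 1 / (2 * KH ^ 2) = 2 * (1 / (8 * KH ^ 2) + 1 / (8 * KH ^ 2)) by
      field_simp; norm_num]
    linarith

end

end Pool.Agent.Lib.MP_e1e491_gt
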