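import Pool.Agent.Lib.MP_e1e491_gt.CdPack
import Pool.Agent.Lib.MP_e1e491_gt.CdRho

/-! A quasisymmetric metric of dimension less than two. -/

namespace Pool.Agent.Lib.MP_e1e491_gt

open Real
open scoped Classical

noncomputable section

universe u

namespace Wt

variable {S : Type u} {E : Type*} [MetricSpace S] [PseudoMetricSpace E] (w : Wt S E)

/-- The space with the new metric. -/
def Cp (_ : Wt S E) : Type u := S

instance : MetricSpace w.Cp where
  dist := w.d₁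
  dist_self := w.d₁_self
  dist_comm := w.d₁_comm
  dist_triangle := w.d₁_triangle
  eq_of_dist_eq_zero := w.eq_of_d₁

theorem c_pos : 0 < w.η / (5 * KH ^ 3) :=
  div_pos w.η_pos (mul_pos (by norm_num) (pow_pos (zero_lt_one.trans_le one_le_KH) _))

theorem q_nonneg (x y : S) : 0 ≤ w.q x y := by
  unfold q
  split_ifs
  · exact le_rfl
  · exact (w.h_pos _ _).le

theorem q_le_one (x y : S) : w.q x y ≤ 1 := by
  unfold q
  split_ifs
  · exact zero_le_one
  · exact (w.h_anti (Nat.zero_le _) x).trans (w.h_zero x).le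

/-- The identity map. -/
def toCp : S ≃ₜ w.Cp where
  toFun x := x
  invFun x := x
  left_inv _ := rfl
  right_inv _ := rfl
  continuous_toFun := Metric.continuous_iff.2 fun x ε hε => by
    obtain ⟨δ, hδ, h⟩ := w.q_small ε hε
    exact ⟨δ, hδ, fun y hy => (w.d₁_le y x).trans_lt (h y x hy)⟩
  continuous_invFun := Metric.continuous_iff.2 fun x ε hε => by
    obtain ⟨δ, hδ, h⟩ := w.q_big ε hε
    exact ⟨w.η / (5 * KH ^ 3) * δ, mul_pos w.c_pos hδ, fun y hy =>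
      h y x (lt_of_mul_lt_mul_left ((w.le_d₁ y x).trans_lt hy) w.c_pos.le)⟩

end Wt

theorem exists_metric {S : Type u} {E : Type*} [MetricSpace S] [PseudoMetricSpace E] {C₀ Q : ℕ}
    (hd : Dbl S C₀ Q) {R : ℝ} (hR : 0 < R) (hdiam : ∀ x y : S, dist x y ≤ R)
    (H : ∀ ε : ℝ, 0 < ε → ∃ t : ℝ, 0 < t ∧ t ≤ 1 / 12 ∧
      ∀ (i : ℕ) (c : S), ∃ Φ : S → E, Tst Φ c (R * t ^ i) (R * t ^ (i + 1)) ε) :
    ∃ (Y : Type u) (_ : MetricSpace Y) (f : S ≃ₜ Y) (C α β p : ℝ), 0 < C ∧ 0 < α ∧ 0 < β ∧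
      0 < p ∧ p < 2 ∧ Pack Y C p ∧ (∀ x y : Y, dist x y ≤ 1) ∧
      dimH (Set.univ : Set Y) ≤ ENNReal.ofReal p ∧ ∀ x y z : S, z ≠ x → dist (f x) (f y) ≤
        C * ((dist x y / dist x z) ^ α + (dist x y / dist x z) ^ β) * dist (f x) (f z) := by
  obtain ⟨w⟩ := exists_wt hd hR hdiam H
  obtain ⟨C, α, β, hC, hα, hβ, h⟩ := w.q_ratio
  obtain ⟨C', hC', h'⟩ := w.pack
  have hc := w.c_pos
  have hp : 0 < w.p := zero_lt_one.trans_le w.one_le_p
  have h1 : ∀ x y : w.Cp, dist x y ≤ 1 := fun x y => (w.d₁_le x y).trans (w.q_le_one x y)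
  have h2 : 0 < C / (w.η / (5 * KH ^ 3)) := div_pos hC hc
  have h3 : Pack w.Cp (C / (w.η / (5 * KH ^ 3)) + C') w.p := fun r R hr hrR ξ T hT hξ =>
    (h' r R hr hrR ξ T hT hξ).trans (mul_le_mul_of_nonneg_right (le_add_of_nonneg_left h2.le)
      (rpow_nonneg (div_nonneg (hr.le.trans hrR) hr.le) _))
  refine ⟨w.Cp, inferInstance, w.toCp, C / (w.η / (5 * KH ^ 3)) + C', α, β, w.p, add_pos h2 hC',
    hα, hβ, hp, w.p_lt, h3, h1, h3.dimH_le hp h1, fun x y z hz => ?_⟩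
  have h4 : 0 ≤ (dist x y / dist x z) ^ α + (dist x y / dist x z) ^ β :=
    add_nonneg (rpow_nonneg (div_nonneg dist_nonneg dist_nonneg) _)
      (rpow_nonneg (div_nonneg dist_nonneg dist_nonneg) _)
  have h5 : w.q x z ≤ w.d₁ x z / (w.η / (5 * KH ^ 3)) := by
    rw [le_div_iff₀ hc, mul_comm]
    exact w.le_d₁ x z
  have h6 : 0 ≤ w.d₁ x z := (mul_nonneg hc.le (w.q_nonneg x z)).trans (w.le_d₁ x z)
  change w.d₁ x y ≤ _ * w.d₁ x z
  calc w.d₁ x y ≤ C * ((dist x y / dist x z) ^ α + (dist x y / dist x z) ^ β) *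
        (w.d₁ x z / (w.η / (5 * KH ^ 3))) :=
        (w.d₁_le x y).trans ((h x y z hz).trans
          (mul_le_mul_of_nonneg_left h5 (mul_nonneg hC.le h4)))
    _ = C / (w.η / (5 * KH ^ 3)) * ((dist x y / dist x z) ^ α + (dist x y / dist x z) ^ β) *
        w.d₁ x z := by ring
    _ ≤ _ := mul_le_mul_of_nonneg_right
        (mul_le_mul_of_nonneg_right (le_add_of_nonneg_right hC'.le) h4) h6

end

end Pool.Agent.Lib.MP_e1e491_gt
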