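import Pool.Agent.Lib.MP_e1e491_gt.FnTool

/-! Counts. -/

namespace KFan

open Set Metric MeasureTheory KKC

set_option linter.unusedSectionVars false

variable {G Z : Type} [Group G] [MetricSpace Z] [CompactSpace Z] [MulAction G Z] {H : HB G Z}
  {NF : ℝ → Set Z → Prop} {z₀ : Z} {R E η M : ℝ} {N : ℕ}

theorem fncount_ultra (H : HB G Z) {x z : G ⊕ Z} (y : G ⊕ Z) {t : ℝ} (h1 : H.q x y ≤ t)
    (h2 : H.q y z ≤ t) : H.q x z ≤ H.C * t :=
  (H.ultra x y z).trans (mul_le_mul_of_nonneg_left (max_le h1 h2) H.s1b_C_pos.le)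

theorem fncount_up (H : HB G Z) {x t : ℝ} (ht : 0 ≤ t) (h : x ≤ t) : x ≤ H.C * t :=
  h.trans (le_mul_of_one_le_left ht H.hC)

theorem fncount_base (H : HB G Z) (Λ : ℝ) : ∃ M₁ : ℝ, 0 ≤ M₁ ∧ ∀ (z : Z) (n : ℕ), ∃ g₀ : G,
    H.len g₀ = n ∧ ∀ g, n ≤ H.len g → dist z (H.loc g) ≤ Λ * rr H n →
      H.q (.inl g₀) (.inl g) ≤ M₁ * rr H n := by
  have hC := H.s1b_C_pos
  have hΛ := abs_nonneg Λ
  refine ⟨H.C * (H.C ^ 2 * (|Λ| + 1)), by positivity, fun z n => ?_⟩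
  obtain ⟨g₀, h0, h1⟩ := H.ray z n
  refine ⟨g₀, h0, fun g hg hd => ?_⟩
  have hr := rr_pos (H := H) n
  have h2 : rr H n ≤ (|Λ| + 1) * rr H n := le_mul_of_one_le_left hr.le (by linarith)
  rw [mul_assoc, mul_assoc]
  refine fncount_ultra H (.inr z) ?_ ((H.s1_q_le_loc z g).trans
    (mul_le_mul_of_nonneg_left (max_le (hd.trans ?_) ((rr_anti hg).trans h2)) (by positivity)))
  · rw [H.q_comm, sq, mul_assoc]
    exact fncount_up H (by positivity) (h1.trans (mul_le_mul_of_nonneg_left h2 hC.le))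
  · exact mul_le_mul_of_nonneg_right (by linarith [le_abs_self Λ]) hr.le

theorem fncount_pow (H : HB G Z) (n : ℕ) : H.a ^ (n : ℝ) * rr H n = 1 := by
  rw [rr, ← Real.rpow_add H.s1b_a_pos, add_neg_cancel, Real.rpow_zero]

theorem fncount_pole (H : HB G Z) {M₁ : ℝ} {n s : ℕ} {g₀ g : G} (h0 : H.len g₀ = n)
    (hg : H.len g = n + s) (hq : H.q (.inl g₀) (.inl g) ≤ M₁ * rr H n) :
    rr H s ≤ M₁ ^ 2 * H.sc (g₀⁻¹ * g)⁻¹ ∧ H.q (.inl (g₀⁻¹ * g)⁻¹) (.inl g⁻¹) ≤ rr H s := by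
  have hr := rr_pos (H := H) n
  have hs := rr_pos (H := H) s
  have hf := H.s1_sc_pos (g₀⁻¹ * g)
  rw [H.s1_sc_inv]
  constructor
  · have h1 := pow_le_pow_left₀ (H.q_nonneg _ _) hq 2
    rw [H.s1_q_sq, sc_eq g₀, sc_eq g, h0, hg, rr_add] at h1
    have h2 := mul_le_mul_of_nonneg_right h1 hf.le
    have h3 := fncount_pow H (H.len (g₀⁻¹ * g))
    rw [← sc_eq, mul_comm] at h3
    rw [mul_comm _ (H.sc _), ← mul_assoc, h3] at h2
    refine le_of_mul_le_mul_left (a := rr H n ^ 2) ?_ (by positivity)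
    linarith
  · have h1 := H.len_mul g₀ (g₀⁻¹ * g)
    rw [mul_inv_cancel_left] at h1
    have h2 : H.sc (g₀⁻¹ * g) ≤ rr H s := rr_anti (by omega)
    refine (pow_le_pow_iff_left₀ (H.q_nonneg _ _) hs.le two_ne_zero).1 ?_
    rw [H.s1_q_sq, inv_inv, mul_inv_cancel_right, H.len_inv, H.s1_sc_inv, H.s1_sc_inv, sc_eq g,
      h0, hg, rr_add]
    calc _ = H.a ^ (n : ℝ) * rr H n * (H.sc (g₀⁻¹ * g) * rr H s) := by ring
      _ ≤ _ := by
        rw [fncount_pow, one_mul, sq]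
        exact mul_le_mul_of_nonneg_right h2 hs.le

theorem card_region (H : HB G Z) (Λ : ℝ) (j : ℕ) : ∃ B : ℕ, ∀ (z : Z) (n : ℕ), ∃ S : Finset G,
    S.card ≤ B ∧ ∀ g, n ≤ H.len g → H.len g ≤ n + j → dist z (H.loc g) ≤ Λ * rr H n → g ∈ S := by
  classical
  obtain ⟨M₁, hM, h⟩ := fncount_base H Λ
  have hj := rr_pos (H := H) j
  obtain ⟨K, hK⟩ := H.s1_len_le (M₁ / rr H j)
  refine ⟨(H.fin K).toFinset.card, fun z n => ?_⟩
  obtain ⟨g₀, h0, h1⟩ := h z n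
  refine ⟨(H.fin K).toFinset.image (g₀ * ·), Finset.card_image_le, fun g k1 k2 k3 => ?_⟩
  have h2 : ∀ f, H.len f ≤ n + j → H.q (.inl g₀) (.inl g) ≤ M₁ / rr H j * H.sc f := fun f hf => by
    refine (h1 g k1 k3).trans (le_trans (le_of_eq ?_)
      (mul_le_mul_of_nonneg_left (rr_anti hf) (by positivity)))
    rw [rr_add]
    field_simp
  exact Finset.mem_image.2 ⟨g₀⁻¹ * g, (Finite.mem_toFinset _).2
    (hK g₀ g (h2 g₀ (by omega)) (h2 g k2)), mul_inv_cancel_left _ _⟩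

/-- Views of the same depth near `z` with close poles. -/
theorem card_poles (H : HB G Z) (Λ : ℝ) : ∃ B : ℕ, ∀ (z : Z) (n s : ℕ) (g' : G),
    H.len g' = n + s → dist z (H.loc g') ≤ Λ * rr H n → ∃ S : Finset G, S.card ≤ B ∧
      ∀ g, H.len g = n + s → dist z (H.loc g) ≤ Λ * rr H n →
        dist (H.loc g⁻¹) (H.loc g'⁻¹) ≤ rr H s → g ∈ S := by
  classical
  obtain ⟨M₁, hM, h⟩ := fncount_base H Λ
  have hC := H.s1b_C_pos
  obtain ⟨K, hK⟩ := H.s1_len_le (H.C ^ 5 * M₁ ^ 2)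
  refine ⟨(H.fin K).toFinset.card, fun z n s g' l' d' => ?_⟩
  obtain ⟨g₀, h0, h1⟩ := h z n
  refine ⟨(H.fin K).toFinset.image fun k => g₀ * k * g₀⁻¹ * g', Finset.card_image_le,
    fun g l d hp => ?_⟩
  have hs := rr_pos (H := H) s
  obtain ⟨a1, a2⟩ := fncount_pole H h0 l (h1 g (by omega) d)
  obtain ⟨b1, b2⟩ := fncount_pole H h0 l' (h1 g' (by omega) d')
  have c1 : ∀ f : G, H.len f = n + s → H.sc f⁻¹ ≤ rr H s := fun f hf => by
    rw [H.s1_sc_inv]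
    exact rr_anti (by omega)
  have c2 : H.q (.inl g⁻¹) (.inl g'⁻¹) ≤ H.C * (H.C ^ 2 * rr H s) := by
    refine fncount_ultra H (.inr (H.loc g'⁻¹)) ?_ ((H.s1_q_le_loc _ _).trans ?_)
    · rw [H.q_comm]
      refine (H.s1_q_le_loc _ _).trans (mul_le_mul_of_nonneg_left (max_le ?_ (c1 g l)) ?_)
      · rwa [dist_comm]
      · positivity
    · refine mul_le_mul_of_nonneg_left (max_le ?_ (c1 g' l')) (by positivity)
      rw [dist_self]
      exact hs.le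
  have c3 : rr H s ≤ H.C * (H.C ^ 2 * rr H s) :=
    fncount_up H (by positivity) (le_mul_of_one_le_left hs.le (one_le_pow₀ H.hC))
  have c4 : H.q (.inl (g₀⁻¹ * g)⁻¹) (.inl (g₀⁻¹ * g')⁻¹) ≤ H.C ^ 5 * rr H s := by
    refine (fncount_ultra H (.inl g⁻¹) (fncount_up H (by positivity) (a2.trans c3))
      (fncount_ultra H (.inl g'⁻¹) c2 ?_)).trans_eq (by ring)
    rw [H.q_comm]
    exact b2.trans c3
  have c5 : ∀ f, rr H s ≤ M₁ ^ 2 * H.sc f →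
      H.q (.inl (g₀⁻¹ * g)⁻¹) (.inl (g₀⁻¹ * g')⁻¹) ≤ H.C ^ 5 * M₁ ^ 2 * H.sc f := fun f hf => by
    rw [mul_assoc]
    exact c4.trans (mul_le_mul_of_nonneg_left hf (by positivity))
  exact Finset.mem_image.2 ⟨_, (Finite.mem_toFinset _).2 (hK _ _ (c5 _ a1) (c5 _ b1)), by group⟩

/-- Nets of bounded size on subsets of a ball. -/
theorem exists_cover (H : HB G Z) (m : ℝ) : ∃ P : ℕ, 1 ≤ P ∧ ∀ (x : Z) (r : ℝ) (A : Set Z), 0 < r →
    A ⊆ closedBall x (m * r) → ∃ S : Finset Z, S.card ≤ P ∧ (∀ y ∈ S, y ∈ A) ∧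
      ∀ y ∈ A, ∃ w ∈ S, dist y w < r := by
  classical
  obtain ⟨C₀, Q, hD⟩ := H.exists_dbl
  refine ⟨C₀ * (⌈m⌉₊ + 1) ^ Q + 1, by omega, fun x r A hr hA => ?_⟩
  let K : Set ℕ := {k | ∃ T : Finset Z, (∀ y ∈ T, ∀ w ∈ T, y ≠ w → r ≤ dist y w) ∧
    (∀ y ∈ T, y ∈ A) ∧ T.card = k}
  have hb : ∀ k ∈ K, k ≤ C₀ * (⌈m⌉₊ + 1) ^ Q := by
    rintro _ ⟨T, h1, h2, rfl⟩
    refine hD r hr _ (by omega) x T h1 fun y hy => (mem_closedBall.1 (hA (h2 y hy))).trans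
      (mul_le_mul_of_nonneg_right ?_ hr.le)
    push_cast
    linarith [Nat.le_ceil m]
  obtain ⟨T, h1, h2, h3⟩ : sSup K ∈ K :=
    Nat.sSup_mem ⟨0, ∅, by simp, by simp, rfl⟩ ⟨_, hb⟩
  refine ⟨T, (hb _ ⟨T, h1, h2, rfl⟩).trans (Nat.le_succ _), h2, fun y hy => ?_⟩
  by_contra hc
  have h4 : ∀ w ∈ T, r ≤ dist y w := fun w hw => not_lt.1 fun e => hc ⟨w, hw, e⟩
  have h5 : y ∉ T := fun e => by
    have := h4 y e
    rw [dist_self] at this
    exact this.not_gt hr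
  have h6 : T.card + 1 ≤ sSup K := by
    refine le_csSup ⟨_, hb⟩ ⟨insert y T, fun a ha b hb' hab => ?_, fun a ha => ?_,
      Finset.card_insert_of_notMem h5⟩
    · rcases Finset.mem_insert.1 ha with e | k <;> rcases Finset.mem_insert.1 hb' with e' | k'
      · exact absurd (e.trans e'.symm) hab
      · exact e ▸ h4 b k'
      · rw [dist_comm]
        exact e' ▸ h4 a k
      · exact h1 a k b k' hab
    · rcases Finset.mem_insert.1 ha with rfl | ha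
      exacts [hy, h2 a ha]
  omega

end KFan
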