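import Pool.Agent.Lib.MP_e1e491_gt.FnSep
import Pool.Agent.Lib.MP_e1e491_gt.FnCount

/-! The centre lemma. -/

namespace KFan

open Set Metric MeasureTheory KKC

set_option linter.unusedSectionVars false

variable {G Z : Type} [Group G] [MetricSpace Z] [CompactSpace Z] [MulAction G Z] {H : HB G Z}
  {NF : ℝ → Set Z → Prop} {z₀ : Z} {R E η M : ℝ} {N : ℕ}

theorem fncen_out {g : G} {z x : Z} {t : ℝ} (hR : 0 < R) (h1 : dist z z₀ + t ≤ 3 * R / 4)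
    (h2 : dist z (H.loc g) ≤ t) (hx : R ≤ dist x z₀) :
    g⁻¹ • x ∈ closedBall (H.loc g⁻¹) (H.C ^ 9 / (R / 4) * H.sc g) := by
  have h3 := dist_triangle x (H.loc g) z₀
  have h4 := dist_triangle_left (H.loc g) z₀ z
  have h5 := dist_img (H := H) g⁻¹ x (ρ := R / 4) (by positivity) (by rw [inv_inv]; linarith)
  rwa [H.s1_sc_inv] at h5

theorem fncen_side {g : G} {z p : Z} {B : Set Z} {Λ r σ δ τ : ℝ} (hr : 0 < r) (hσ : 0 < σ)
    (hg : H.sc g = r * σ) (hz : dist z (H.loc g) ≤ Λ * r) (hp : σ < dist (H.loc g⁻¹) p)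
    (hB : B ⊆ closedBall p δ) (hδ : δ ≤ σ / 4) (hτ : 4 * H.C ^ 11 / σ * r * δ < τ) :
    ∃ x₀, dist x₀ z ≤ (Λ + 2 * H.C ^ 9) * r ∧ {x | g⁻¹ • x ∈ B} ⊆ ball x₀ τ := by
  have hC := H.s1b_C_pos
  have h1 : σ / 2 ≤ dist p (H.loc g⁻¹) := by
    rw [dist_comm]
    linarith
  refine ⟨g • p, ?_, fun x hx => ?_⟩
  · have h2 := dist_img (H := H) g p (ρ := σ / 2) (by positivity) h1
    have h3 : H.C ^ 9 / (σ / 2) * H.sc g = 2 * H.C ^ 9 * r := by
      rw [hg]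
      field_simp
    have h4 := dist_triangle_right (g • p) z (H.loc g)
    rw [h3] at h2
    linarith
  · have h2 : dist (g⁻¹ • x) p ≤ δ := hB hx
    have h3 := dist_triangle_left (H.loc g⁻¹) p (g⁻¹ • x)
    have h4 := dist_img₂ (H := H) g (g⁻¹ • x) p (ρ := σ / 2) (by positivity) (by linarith) h1
    have h5 : H.C ^ 11 / (σ / 2) ^ 2 * H.sc g = 4 * H.C ^ 11 / σ * r := by
      rw [hg]
      field_simp
      ring
    rw [smul_inv_smul, h5] at h4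
    have h6 : 4 * H.C ^ 11 / σ * r * dist (g⁻¹ • x) p ≤ 4 * H.C ^ 11 / σ * r * δ :=
      mul_le_mul_of_nonneg_left h2 (by positivity)
    exact mem_ball.2 (by linarith)

theorem poles_close (H : HB G Z) (hM : Hull Z M) {Λ : ℝ} (hΛ : 0 ≤ Λ) : ∃ Λ₀ : ℝ, Λ ≤ Λ₀ ∧
    ∀ R, 0 < R → ∀ l : ℕ, ∃ n₀ : ℕ, ∀ (E η : ℝ) (N : ℕ) (z₀ : Z) (F : FanH H NF z₀ R E η N) (z : Z)
      (n s : ℕ) (γ : ℝ), n₀ ≤ n → 2 * (n + s) ≤ N → dist z z₀ + Λ * rr H n ≤ 3 * R / 4 →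
      26 * η ≤ γ → (∀ x, dist x z ≤ Λ₀ * rr H n → F.ph x (n + l) < γ / 2) →
      ∀ (g g' : G) (j : Fin 3 → Z), H.len g = n + s → H.len g' = n + s →
        dist z (H.loc g) ≤ Λ * rr H n → dist z (H.loc g') ≤ Λ * rr H n →
        Good F.u γ g j → Good F.u γ g' j →
          dist (H.loc g⁻¹) (H.loc g'⁻¹) ≤ rr H s := by
  have hC := H.s1b_C_pos
  have hM1 : 0 < M := one_pos.trans_le hM.1
  refine ⟨Λ + 2 * H.C ^ 9, le_add_of_nonneg_right (by positivity), fun R hR l => ?_⟩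
  have hl := rr_pos (H := H) l
  obtain ⟨n₁, h1⟩ := exists_rr_le H (ε := R / (16 * M * H.C ^ 9)) (by positivity)
  obtain ⟨n₂, h2⟩ := exists_rr_le H (ε := R * rr H l / (32 * M * H.C ^ 20)) (by positivity)
  refine ⟨max n₁ n₂, fun E η N z₀ F z n s γ hn hN hz hγ hph g g' j hg hg' hd hd' hj hj' => ?_⟩
  by_contra hc
  have hc1 : rr H s < dist (H.loc g⁻¹) (H.loc g'⁻¹) := lt_of_not_ge hc
  have hc2 : rr H s < dist (H.loc g'⁻¹) (H.loc g⁻¹) := by rwa [dist_comm]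
  have hr := rr_pos (H := H) n
  have hσ := rr_pos (H := H) s
  have hsc : H.sc g = rr H n * rr H s := by rw [sc_eq, hg, rr_add]
  have hsc' : H.sc g' = rr H n * rr H s := by rw [sc_eq, hg', rr_add]
  have h3 := h1 n ((le_max_left _ _).trans hn)
  have h4 := h2 n ((le_max_right _ _).trans hn)
  obtain ⟨ρ, hρ⟩ : ∃ ρ, ρ = H.C ^ 9 / (R / 4) * (rr H n * rr H s) := ⟨_, rfl⟩
  have hρ0 : 0 < ρ := by
    rw [hρ]
    positivity
  have h5 : M * ρ ≤ rr H s / 4 := by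
    rw [le_div_iff₀ (by positivity)] at h3
    have e : M * ρ = rr H n * (16 * M * H.C ^ 9) * (rr H s / (4 * R)) := by
      rw [hρ]
      field_simp
      ring
    have e' : rr H s / 4 = R * (rr H s / (4 * R)) := by field_simp
    rw [e, e']
    exact mul_le_mul_of_nonneg_right h3 (by positivity)
  have h6 : 4 * H.C ^ 11 / rr H s * rr H n * (M * ρ) < rr H (n + l) := by
    rw [le_div_iff₀ (by positivity)] at h4
    have e : 4 * H.C ^ 11 / rr H s * rr H n * (M * ρ) =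
        rr H n * (32 * M * H.C ^ 20) * (rr H n / (2 * R)) := by
      rw [hρ]
      field_simp
      ring
    have e' : R * rr H l * (rr H n / (2 * R)) = rr H n * rr H l / 2 := by field_simp
    have h7 := mul_le_mul_of_nonneg_right h4 (show 0 ≤ rr H n / (2 * R) by positivity)
    rw [e, rr_add]
    rw [e'] at h7
    exact h7.trans_lt (half_lt_self (by positivity))
  obtain ⟨B, a1, a2, a3, a4⟩ := hM.2 (H.loc g⁻¹) ρ hρ0
  obtain ⟨B', b1, b2, b3, b4⟩ := hM.2 (H.loc g'⁻¹) ρ hρ0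
  obtain ⟨x₀, c1, c2⟩ := fncen_side hr hσ hsc hd hc1 b4 h5 h6
  obtain ⟨x₁, d1, d2⟩ := fncen_side hr hσ hsc' hd' hc2 a4 h5 h6
  have e1 : lines F.T F.c {x | g⁻¹ • x ∈ B'} ≤ F.ph x₀ (n + l) := F.lines_mono c2
  have e2 : lines F.T F.c {x | g'⁻¹ • x ∈ B} ≤ F.ph x₁ (n + l) := F.lines_mono d2
  have e3 := hph x₀ c1
  have e4 := hph x₁ d1
  refine F.not_two hM hj hj' ?_ a1 a2 b1 b2 ?_ (fun x hx => a3 ?_) (fun x hx => b3 ?_)
    (by linarith) (by linarith)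
  · have := H.len_mul g g'⁻¹
    rw [H.len_inv] at this
    omega
  · refine (closedBall_disjoint_closedBall ?_).mono a4 b4
    linarith
  · rw [hρ, ← hsc]
    exact fncen_out hR hz hd hx
  · rw [hρ, ← hsc']
    exact fncen_out hR hz hd' hx

theorem Faces.conn (hF : Faces NF) {al : Set Z} (h : NF η al) : IsPreconnected al :=
  isPreconnected_of_forall_pair fun x hx y hy => by
    obtain ⟨γ, hγ⟩ := hF.pc η al h x hx y hy
    exact ⟨range γ, range_subset_iff.2 hγ, γ.source_mem_range, γ.target_mem_range,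
      isPreconnected_range γ.continuous⟩

/-- A face seen from a view. -/
theorem Faces.pull (hF : Faces NF) (H : HB G Z) {W : ℝ} (hW : 1 ≤ W) {g : G} {al : Set Z}
    (h : NF η al) {p q : Z} (hp : p ∈ al) (hq : q ∈ al) (h1 : dist p (H.loc g) ≤ W * H.sc g)
    (h2 : H.sc g / (8 * H.a) ≤ dist p q) :
    NF (H.C ^ 5 / H.sc g * η) {y | g • y ∈ al} ∧ ∃ x ∈ {y | g • y ∈ al}, ∃ y ∈ {y | g • y ∈ al},
      1 / (8 * H.a * (H.C ^ 7 * (W + 1) ^ 2)) ≤ dist x y := by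
  have hC := H.s1b_C_pos
  have h0 := H.s1_sc_pos g
  have ha := H.ha
  have i0 : ContinuousConstSMul G Z := ⟨continuous_act H⟩
  constructor
  · have h3 := hF.img (Homeomorph.smul g⁻¹) (H.C ^ 5 / H.sc g) η al (by positivity)
      (fun x y => by
        have h4 := dist_act H g⁻¹ x y
        rwa [H.s1_sc_inv] at h4) h
    have h4 : {y | g • y ∈ al} = Homeomorph.smul g⁻¹ '' al := by
      refine Subset.antisymm (fun x hx => ⟨g • x, hx, inv_smul_smul g x⟩) ?_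
      rintro _ ⟨x, hx, rfl⟩
      show g • g⁻¹ • x ∈ al
      rwa [smul_inv_smul]
    rwa [h4]
  · obtain ⟨w, hw, hw'⟩ := (hF.conn h).intermediate_value hp hq (f := fun w => dist p w)
      (continuous_const.dist continuous_id).continuousOn (a := p) (b := q)
      (show H.sc g / (8 * H.a) ∈ Icc (dist p p) (dist p q) from
        ⟨by rw [dist_self]; positivity, h2⟩)
    have h3 : dist p w = H.sc g / (8 * H.a) := hw'
    have h4 : H.sc g / (8 * H.a) ≤ H.sc g := div_le_self h0.le (by linarith)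
    have h5 := le_dist_inv (H := H) g p w (W := W + 1) (by linarith) (by linarith)
      (by linarith [dist_triangle_left w (H.loc g) p])
    refine ⟨g⁻¹ • p, by rwa [mem_ofPred_eq, smul_inv_smul], g⁻¹ • w,
      by rwa [mem_ofPred_eq, smul_inv_smul], ?_⟩
    rw [h3, div_le_iff₀ (by positivity)] at h5
    rw [div_le_iff₀ (by positivity)]
    refine le_of_mul_le_mul_left ?_ h0
    linarith

/-- Boundedly many views represent all views that see a face. -/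
theorem Faces.reps (hF : Faces NF) (H : HB G Z) {W : ℝ} (hW : 1 ≤ W) : ∃ K e : ℕ,
    ∀ (η : ℝ) (d : ℕ) (P : G → Set Z → Prop), 0 ≤ η → η ≤ rr H (d + e) →
      (∀ g al, P g al → H.len g = d ∧ NF η al ∧ ∃ p ∈ al, ∃ q ∈ al,
        dist p (H.loc g) ≤ W * H.sc g ∧ H.sc g / (8 * H.a) ≤ dist p q) →
      ∃ S : Finset (G × Set Z), S.card ≤ K ∧ (∀ i ∈ S, P i.1 i.2) ∧
        ∀ g al, P g al → ∃ i ∈ S, ∃ y, g • y ∈ al ∧ i.1 • y ∈ i.2 := by
  classical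
  have hC := H.s1b_C_pos
  have ha := H.s1b_a_pos
  obtain ⟨σ, hσ⟩ : ∃ σ, σ = 1 / (8 * H.a * (H.C ^ 7 * (W + 1) ^ 2)) := ⟨_, rfl⟩
  have hσ0 : 0 < σ := by
    rw [hσ]
    have : 0 < W + 1 := by linarith
    positivity
  obtain ⟨K, hK⟩ := hF.kn (H.C / σ)
  obtain ⟨e, he⟩ := exists_rr_le H (ε := σ / (100 * H.C ^ 5)) (by positivity)
  refine ⟨K, e, fun η d P h0 h1 hP => ?_⟩
  have hd := rr_pos (H := H) d
  obtain ⟨Ga, g1, g2, g3⟩ := hK (H.loc 1) σ (H.C ^ 5 / rr H d * η)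
    {be | ∃ g al, P g al ∧ be = {y | g • y ∈ al}} hσ0 (by positivity)
    (by
      have h2 := he e le_rfl
      rw [le_div_iff₀ (by positivity)] at h2
      rw [rr_add] at h1
      calc 100 * (H.C ^ 5 / rr H d * η) ≤ 100 * (H.C ^ 5 / rr H d * (rr H d * rr H e)) := by gcongr
        _ = rr H e * (100 * H.C ^ 5) := by field_simp
        _ ≤ σ := h2)
    (by
      rintro _ ⟨g, al, h2, rfl⟩
      obtain ⟨a1, a2, p, hp, q, hq, a3, a4⟩ := hP g al h2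
      obtain ⟨b1, x, hx, y, hy, b2⟩ := hF.pull H hW a2 hp hq a3 a4
      rw [sc_eq, a1] at b1
      refine ⟨b1, x, hx, y, hy, ?_, hσ ▸ b2⟩
      rw [div_mul_cancel₀ _ hσ0.ne']
      exact H.s1_diam _ _)
  have h2 : ∀ be, ∃ i : G × Set Z, be ∈ Ga → P i.1 i.2 ∧ be = {y | i.1 • y ∈ i.2} := fun be => by
    by_cases h : be ∈ Ga
    · obtain ⟨g, al, a1, a2⟩ := g2 (Finset.mem_coe.2 h)
      exact ⟨(g, al), fun _ => ⟨a1, a2⟩⟩
    · exact ⟨(1, ∅), fun h' => absurd h' h⟩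
  choose φ hφ using h2
  refine ⟨Ga.image φ, Finset.card_image_le.trans g1, fun i hi => ?_, fun g al h => ?_⟩
  · obtain ⟨be, hb, rfl⟩ := Finset.mem_image.1 hi
    exact (hφ be hb).1
  · obtain ⟨be, hb, y, a1, a2⟩ := g3 _ ⟨g, al, h, rfl⟩
    rw [(hφ be hb).2] at a2
    exact ⟨φ be, Finset.mem_image_of_mem _ hb, y, a1, a2⟩

/-- The centre lemma. -/
theorem few_good (V : Vw H) (hM : Hull Z M) (hF : Faces NF) {Λ : ℝ} (hΛ : 0 ≤ Λ) :
    ∃ (Λ₀ : ℝ) (B e : ℕ), Λ ≤ Λ₀ ∧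
    ∀ R, 0 < R → ∀ l : ℕ, ∃ n₀ : ℕ, ∀ (E η : ℝ) (N : ℕ) (z₀ : Z) (F : FanH H NF z₀ R E η N) (z : Z)
      (n s : ℕ) (γ : ℝ), n₀ ≤ n → 2 * (n + s) ≤ N → η ≤ rr H (n + s + e) →
      dist z z₀ + Λ * rr H n ≤ 3 * R / 4 →
      26 * η ≤ γ → (∀ x, dist x z ≤ Λ₀ * rr H n → F.ph x (n + l) < γ / 2) →
        Few V NF F.u η Λ γ B z n s := by
  classical
  obtain ⟨Λ₀, h0, h1⟩ := poles_close (NF := NF) H hM hΛ
  obtain ⟨B, hB⟩ := card_poles H Λ
  obtain ⟨K, e, hK⟩ := hF.reps H V.one_le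
  refine ⟨Λ₀, (Fintype.piFinset fun _ : Fin 3 => V.J).card * (B + 3 * (K * B)), e, h0,
    fun R hR l => ?_⟩
  obtain ⟨n₀, h2⟩ := h1 R hR l
  refine ⟨n₀, fun E η N z₀ F z n s γ hn hN hη hz hγ hph => ?_⟩
  have h3 : ∀ g' : G, ∃ S : Finset G, S.card ≤ B ∧ (H.len g' = n + s →
      dist z (H.loc g') ≤ Λ * rr H n → ∀ g j, H.len g = n + s → dist z (H.loc g) ≤ Λ * rr H n →
        Good F.u γ g j → Good F.u γ g' j → g ∈ S) := fun g' => by
    by_cases h : H.len g' = n + s ∧ dist z (H.loc g') ≤ Λ * rr H n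
    · obtain ⟨S, b1, b2⟩ := hB z n s g' h.1 h.2
      exact ⟨S, b1, fun a1 a2 g j c1 c2 c3 a3 =>
        b2 g c1 c2 (h2 E η N z₀ F z n s γ hn hN hz hγ hph g g' j c1 a1 c2 a2 c3 a3)⟩
    · exact ⟨∅, by simp, fun a1 a2 => absurd ⟨a1, a2⟩ h⟩
  choose S h4 h5 using h3
  have h6 : ∀ j : Fin 3 → Z, ∃ g', ∀ g, H.len g = n + s →
      dist z (H.loc g) ≤ Λ * rr H n → Good F.u γ g j → g ∈ S g' := fun j => by
    by_cases h : ∃ g', H.len g' = n + s ∧ dist z (H.loc g') ≤ Λ * rr H n ∧ Good F.u γ g' j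
    · obtain ⟨g', a1, a2, a3⟩ := h
      exact ⟨g', fun g c1 c2 c3 => h5 g' a1 a2 g j c1 c2 c3 a3⟩
    · exact ⟨1, fun g c1 c2 c3 => absurd ⟨g, c1, c2, c3⟩ h⟩
  choose g₀ h7 using h6
  have h8 : ∀ (j : Fin 3 → Z) (c : Fin 3), ∃ S' : Finset G, S'.card ≤ K * B ∧ ∀ g al,
      H.len g = n + s → dist z (H.loc g) ≤ Λ * rr H n → GoodF H NF F.u V.W η γ g j c al →
        g ∈ S' := fun j c => by
    obtain ⟨I, a1, a2, a3⟩ := hK η (n + s) (fun g al => H.len g = n + s ∧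
      dist z (H.loc g) ≤ Λ * rr H n ∧ GoodF H NF F.u V.W η γ g j c al) F.η_pos.le hη
      fun g al h => ⟨h.1, h.2.2.1, h.2.2.2.1⟩
    refine ⟨I.biUnion fun i => S i.1, (Finset.card_biUnion_le_card_mul _ _ _ fun i _ =>
      h4 i.1).trans (Nat.mul_le_mul_right _ a1), fun g al c1 c2 c3 => ?_⟩
    obtain ⟨i, hi, y, b1, b2⟩ := a3 g al ⟨c1, c2, c3⟩
    obtain ⟨d1, d2, d3⟩ := a2 i hi
    exact Finset.mem_biUnion.2 ⟨i, hi, h5 i.1 d1 d2 g _ c1 c2 (c3.2.2 y b1) (d3.2.2 y b2)⟩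
  choose S' h9 h10 using h8
  refine ⟨(Fintype.piFinset fun _ : Fin 3 => V.J).biUnion fun j =>
    S (g₀ j) ∪ Finset.univ.biUnion (S' j), Finset.card_biUnion_le_card_mul _ _ _ fun j _ =>
      (Finset.card_union_le _ _).trans (add_le_add (h4 _)
        (Finset.card_biUnion_le_card_mul _ _ _ fun c _ => h9 j c)), ?_⟩
  rintro g c1 c2 ⟨j, hj, c3 | ⟨c, al, c3⟩⟩
  · exact Finset.mem_biUnion.2 ⟨j, Fintype.mem_piFinset.2 hj,
      Finset.mem_union_left _ (h7 j g c1 c2 c3)⟩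
  · exact Finset.mem_biUnion.2 ⟨j, Fintype.mem_piFinset.2 hj, Finset.mem_union_right _
      (Finset.mem_biUnion.2 ⟨c, Finset.mem_univ _, h10 j c g al c1 c2 c3⟩)⟩

end KFan
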