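import Pool.Agent.Lib.MP_e1e491_gt.FnTool

/-! Iteration. -/

namespace KFan

open Set Metric MeasureTheory KKC

set_option linter.unusedSectionVars false

variable {G Z : Type} [Group G] [MetricSpace Z] [CompactSpace Z] [MulAction G Z] {H : HB G Z}
  {NF : ℝ → Set Z → Prop} {z₀ : Z} {R E η M : ℝ} {N : ℕ}

/-- Iteration of the doubling of the energy. -/
theorem iterate {Λ θ ε : ℝ} (hθ : 0 < θ) (hθ1 : θ ≤ 1) (φ : Z → ℕ → ℝ) {L n₀ n₁ : ℕ} {ρ : ℝ}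
    (hΛ : 0 < Λ)
    (h : ∀ z n, n₀ ≤ n → n + L ≤ n₁ → dist z z₀ + Λ * rr H n ≤ ρ → ε ≤ φ z n →
      ∃ I, Sub H Λ L z n I ∧ (∀ i ∈ I, θ * φ z n ≤ φ i.1 i.2) ∧
        2 * φ z n ^ 2 ≤ ∑ i ∈ I, φ i.1 i.2 ^ 2) (hε : 0 < ε) (k : ℕ) :
    ∀ z n, n₀ ≤ n → n + k * L ≤ n₁ → dist z z₀ + Λ * rr H n ≤ ρ → ε ≤ θ ^ k * φ z n →
      ∃ I, Sub H Λ (k * L) z n I ∧ 2 ^ k * φ z n ^ 2 ≤ ∑ i ∈ I, φ i.1 i.2 ^ 2 := by
  classical
  induction k with
  | zero =>
    intro z n _ _ _ _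
    refine ⟨{(z, n)}, ⟨fun i hi => ?_, fun i hi j hj hij => ?_⟩, by simp⟩
    · rw [Finset.mem_singleton.1 hi]
      simp
    · exact absurd ((Finset.mem_singleton.1 hi).trans (Finset.mem_singleton.1 hj).symm) hij
  | succ k ih =>
    intro z n h0 h1 h2 h3
    have hk : 0 < θ ^ (k + 1) := pow_pos hθ _
    have hφ : 0 < φ z n := (mul_pos_iff_of_pos_left hk).1 (hε.trans_le h3)
    have hL : (k + 1) * L = L + k * L := by ring
    obtain ⟨I, ⟨hI1, hI2⟩, hI3, hI4⟩ := h z n h0 (by omega) h2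
      (h3.trans (mul_le_of_le_one_left hφ.le (pow_le_one₀ hθ.le hθ1)))
    have hJ : ∀ i ∈ I, ∃ J, Sub H Λ (k * L) i.1 i.2 J ∧
        2 ^ k * φ i.1 i.2 ^ 2 ≤ ∑ x ∈ J, φ x.1 x.2 ^ 2 := by
      intro i hi
      obtain ⟨a1, a2, a3⟩ := hI1 i hi
      refine ih i.1 i.2 (by omega) (by omega) (by linarith [dist_triangle i.1 z z₀]) (h3.trans ?_)
      rw [pow_succ, mul_assoc]
      exact mul_le_mul_of_nonneg_left (hI3 i hi) (pow_pos hθ k).le
    choose! J hJ1 hJ2 using hJ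
    have far : ∀ i ∈ I, ∀ j ∈ I, i ≠ j → ∀ x ∈ J i, ∀ y ∈ J j,
        Λ * rr H x.2 + Λ * rr H y.2 ≤ dist x.1 y.1 := by
      intro i hi j hj hij x hx y hy
      have a1 := ((hJ1 i hi).1 x hx).2.2
      have a2 := ((hJ1 j hj).1 y hy).2.2
      have a3 := hI2 i hi j hj hij
      have a4 := dist_triangle4 i.1 x.1 y.1 j.1
      rw [dist_comm i.1 x.1] at a4
      linarith
    refine ⟨I.biUnion J, ⟨fun x hx => ?_, fun x hx y hy hxy => ?_⟩, ?_⟩
    · obtain ⟨i, hi, hx⟩ := Finset.mem_biUnion.1 hx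
      obtain ⟨a1, a2, a3⟩ := hI1 i hi
      obtain ⟨b1, b2, b3⟩ := (hJ1 i hi).1 x hx
      exact ⟨by omega, by omega, by linarith [dist_triangle x.1 i.1 z]⟩
    · obtain ⟨i, hi, hx⟩ := Finset.mem_biUnion.1 hx
      obtain ⟨j, hj, hy⟩ := Finset.mem_biUnion.1 hy
      by_cases hij : i = j
      · subst hij
        exact (hJ1 i hi).2 x hx y hy hxy
      · exact far i hi j hj hij x hx y hy
    · rw [Finset.sum_biUnion fun i hi j hj hij => Finset.disjoint_left.2 fun x hx hy => by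
        have a1 := far i hi j hj hij x hx x hy
        have a2 := mul_pos hΛ (rr_pos (H := H) x.2)
        rw [dist_self] at a1
        linarith]
      refine le_trans ?_ (Finset.sum_le_sum hJ2)
      rw [← Finset.mul_sum, pow_succ, mul_assoc]
      exact mul_le_mul_of_nonneg_left hI4 (by positivity)

end KFan
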