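import Pool.Agent.Lib.MP_e1e491_gt.FnMany
import Pool.Agent.Lib.MP_e1e491_gt.FnCen
import Pool.Agent.Lib.MP_e1e491_gt.FnIter

/-! There are no fine fans. -/

namespace KFan

open Set Metric MeasureTheory KKC

set_option linter.unusedSectionVars false

variable {G Z : Type} [Group G] [MetricSpace Z] [CompactSpace Z] [MulAction G Z] {H : HB G Z}
  {NF : ℝ → Set Z → Prop} {z₀ : Z} {R E η M : ℝ} {N : ℕ}

theorem fnmain_mono {Λ : ℝ} {L L' : ℕ} {z : Z} {n : ℕ} {I : Finset (Z × ℕ)} (h : Sub H Λ L z n I)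
    (hL : L ≤ L') : Sub H Λ L' z n I :=
  ⟨fun i hi => ⟨(h.1 i hi).1, (h.1 i hi).2.1.trans (by omega), (h.1 i hi).2.2⟩, h.2⟩

theorem fnmain_sum {I : Finset (Z × ℕ)} {φ : Z → ℕ → ℝ} {θ f : ℝ} (hθ : 0 ≤ θ * f)
    (h : ∀ i ∈ I, θ * f ≤ φ i.1 i.2) (h2 : 2 ≤ I.card * θ ^ 2) :
    2 * f ^ 2 ≤ ∑ i ∈ I, φ i.1 i.2 ^ 2 := by
  have h3 := Finset.card_nsmul_le_sum I (fun i => φ i.1 i.2 ^ 2) ((θ * f) ^ 2)
    fun i hi => pow_le_pow_left₀ hθ (h i hi) 2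
  rw [nsmul_eq_mul] at h3
  nlinarith [sq_nonneg f]

/-- Every cell doubles its energy. -/
theorem doubles (H : HB G Z) [Nontrivial Z] (hM : Hull Z M) (hF : Faces NF) :
    ∃ Λ : ℝ, 3 ≤ Λ ∧ ∀ R, 0 < R →
    ∃ (θ : ℝ) (L n₀ : ℕ), 0 < θ ∧ θ ≤ 1 ∧
      ∀ (E η : ℝ) (N : ℕ) (z₀ : Z) (F : FanH H NF z₀ R E η N) (z : Z) (n : ℕ), n₀ ≤ n →
        2 * (n + L) ≤ N → η ≤ rr H (n + L) → η ≤ θ * F.ph z n →
        dist z z₀ + Λ * rr H n ≤ 3 * R / 4 →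
          ∃ I, Sub H Λ L z n I ∧ (∀ i ∈ I, θ * F.ph z n ≤ F.ph i.1 i.2) ∧
            2 * F.ph z n ^ 2 ≤ ∑ i ∈ I, F.ph i.1 i.2 ^ 2 := by
  obtain ⟨V⟩ := exists_vw H
  have hM1 := hM.1
  have hW := V.one_le
  obtain ⟨Λ₀, B, e₀, h0, hfew⟩ := few_good V hM hF (Λ := M + V.W + 5) (by linarith)
  obtain ⟨P, s₁, hP, hpin⟩ := pinch (NF := NF) H (Λ₀ := Λ₀) (Λ₁ := 2 * Λ₀ + 2) (by linarith) (by linarith)
  obtain ⟨m₀, hm⟩ := many_cells V hM hF (Λ₁ := 2 * Λ₀ + 2) le_rfl (by linarith) B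
  have hP0 : (0 : ℝ) < P := by exact_mod_cast hP
  obtain ⟨m₁, hm₁⟩ := exists_nat_ge (2 / (1 / 32 / (P : ℝ)) ^ 2)
  obtain ⟨c, θ₁, L₁, hc, hθ₁, hmany⟩ := hm (m₀ + m₁) (by omega)
  obtain ⟨l, hl⟩ := exists_nat_ge (2 / (c / 2 / (P : ℝ)) ^ 2)
  rw [div_le_iff₀ (by positivity)] at hm₁ hl
  refine ⟨2 * Λ₀ + 2, by linarith, fun R hR => ?_⟩
  obtain ⟨n₀, hn₀⟩ := hfew R hR l
  obtain ⟨θ, t0, t1, t2, t3, t4, t5⟩ : ∃ θ : ℝ, 0 < θ ∧ θ ≤ 1 ∧ θ ≤ 1 / 32 / P ∧ θ ≤ c / 2 / P ∧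
      θ ≤ θ₁ ∧ θ ≤ c / 26 :=
    ⟨min 1 (min (1 / 32 / P) (min (c / 2 / P) (min θ₁ (c / 26)))), by positivity,
      min_le_left _ _, (min_le_right _ _).trans (min_le_left _ _),
      (min_le_right _ _).trans ((min_le_right _ _).trans (min_le_left _ _)),
      (min_le_right _ _).trans ((min_le_right _ _).trans ((min_le_right _ _).trans
        (min_le_left _ _))),
      (min_le_right _ _).trans ((min_le_right _ _).trans ((min_le_right _ _).trans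
        (min_le_right _ _)))⟩
  refine ⟨θ, m₀ + m₁ + l + s₁ + L₁ + e₀, n₀, t0, t1, fun E η N z₀ F z n h1 h2 h3 h4 h5 => ?_⟩
  have hf : 0 < F.ph z n := (mul_pos_iff_of_pos_left t0).1 (F.η_pos.trans_le h4)
  have hr : 0 < rr H n := rr_pos n
  have key : ∀ (e : ℝ) (k : ℕ) (x : Z), 0 < e → θ ≤ e / P → 2 ≤ k * (e / P) ^ 2 →
      k ≤ m₀ + m₁ + l → dist x z ≤ Λ₀ * rr H n → e * F.ph z n ≤ F.ph x (n + k) →
      ∃ I, Sub H (2 * Λ₀ + 2) (m₀ + m₁ + l + s₁ + L₁ + e₀) z n I ∧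
        (∀ i ∈ I, θ * F.ph z n ≤ F.ph i.1 i.2) ∧
          2 * F.ph z n ^ 2 ≤ ∑ i ∈ I, F.ph i.1 i.2 ^ 2 := fun e k x e1 e2 e3 e4 e5 e6 => by
    obtain ⟨I, i1, i2, i3⟩ := hpin R E η N z₀ F z x n k _ (by linarith) e5 (mul_pos e1 hf) e6
    have i4 : ∀ i ∈ I, e / P * F.ph z n ≤ F.ph i.1 i.2 := fun i hi => by
      rw [div_mul_eq_mul_div]
      exact i3 i hi
    exact ⟨I, fnmain_mono i1 (by omega),
      fun i hi => (mul_le_mul_of_nonneg_right e2 hf.le).trans (i4 i hi),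
      fnmain_sum (by positivity) i4 (i2 ▸ e3)⟩
  have h6 : (M + V.W + 5) * rr H n ≤ Λ₀ * rr H n := mul_le_mul_of_nonneg_right h0 hr.le
  have h7 : 0 ≤ Λ₀ * rr H n := mul_nonneg (by linarith) hr.le
  by_cases hA : ∃ x, dist x z ≤ (M + V.W + 5) * rr H n ∧ F.ph z n / 32 ≤ F.ph x (n + (m₀ + m₁))
  · obtain ⟨x, x1, x2⟩ := hA
    refine key (1 / 32) (m₀ + m₁) x (by norm_num) t2 (hm₁.trans ?_) (by omega) (x1.trans h6)
      (by linarith)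
    exact mul_le_mul_of_nonneg_right (by exact_mod_cast Nat.le_add_left _ _) (sq_nonneg _)
  by_cases hB : ∃ x, dist x z ≤ Λ₀ * rr H n ∧ c * F.ph z n / 2 ≤ F.ph x (n + l)
  · obtain ⟨x, x1, x2⟩ := hB
    exact key (c / 2) l x (by positivity) t3 hl (by omega) x1 (by linarith)
  obtain ⟨I, i1, i2, i3⟩ := hmany R E η N z₀ F z n (h3.trans (rr_anti (by omega)))
    (h4.trans (mul_le_mul_of_nonneg_right t4 hf.le))
    (by linarith [mul_le_mul_of_nonneg_right t5 hf.le, F.η_pos]) (by linarith)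
    (fun x hx => lt_of_not_ge fun h => hA ⟨x, hx, h⟩) fun s hs =>
      hn₀ E η N z₀ F z n s _ h1 (by omega) (h3.trans (rr_anti (by omega))) (by linarith)
        (by linarith [mul_le_mul_of_nonneg_right t5 hf.le])
        fun x hx => lt_of_not_ge fun h => hB ⟨x, hx, h⟩
  exact ⟨I, fnmain_mono i1 (by omega),
    fun i hi => (mul_le_mul_of_nonneg_right t4 hf.le).trans (i2 i hi),
    fnmain_sum (by positivity) i2 i3⟩

/-- Fine fans carry few lines. -/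
theorem no_fanH (H : HB G Z) [Nontrivial Z] (hM : Hull Z M) (hF : Faces NF) {R c : ℝ} (E : ℝ)
    (hR : 0 < R) (hc : 0 < c) : ∃ η > 0, ∃ N : ℕ, ∀ (z₀ : Z) (F : FanH H NF z₀ R E η N),
      lines F.T F.c (ball z₀ (R / 2)) < c := by
  obtain ⟨Λ, hΛ, h⟩ := doubles H hM hF
  obtain ⟨θ, L, n₀, t0, t1, h⟩ := h R hR
  obtain ⟨n₁, hn₁⟩ := exists_rr_le H (ε := R / 4 / Λ) (by positivity)
  have hn := hn₁ (n₀ + n₁) (by omega)
  rw [le_div_iff₀' (by linarith)] at hn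
  obtain ⟨P, hP, hcell⟩ := exists_cell (NF := NF) H (n₀ + n₁)
  have hP0 : (0 : ℝ) < P := by exact_mod_cast hP
  obtain ⟨k, hk⟩ := pow_unbounded_of_one_lt (E / (c / P) ^ 2) one_lt_two
  rw [div_lt_iff₀ (by positivity)] at hk
  have hε : 0 < θ ^ (k + 1) * (c / P) := by positivity
  refine ⟨min (rr H (n₀ + n₁ + (k + 1) * L)) (θ * (θ ^ (k + 1) * (c / P))),
    lt_min (rr_pos _) (mul_pos t0 hε), 2 * (n₀ + n₁ + (k + 1) * L), fun z₀ F => ?_⟩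
  by_contra hcon
  obtain ⟨z, z1, z2⟩ := hcell _ _ _ _ z₀ F _ c hc (le_of_not_gt hcon)
  obtain ⟨I, i1, i2⟩ := iterate (H := H) (z₀ := z₀) (L := L) (n₀ := n₀)
    (n₁ := n₀ + n₁ + (k + 1) * L) (ρ := 3 * R / 4) t0 t1 F.ph (by linarith : 0 < Λ)
    (fun z n h1 h2 h3 h4 => h _ _ _ z₀ F z n h1 (by omega)
      ((min_le_left _ _).trans (rr_anti h2))
      ((min_le_right _ _).trans (mul_le_mul_of_nonneg_left h4 t0.le)) h3) hε (k + 1) z (n₀ + n₁)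
    (by omega) le_rfl (by linarith) (mul_le_mul_of_nonneg_left z2 (by positivity))
  have h3 : ∀ j, 3 * rr H j ≤ Λ * rr H j := fun j => mul_le_mul_of_nonneg_right hΛ (rr_pos j).le
  have hinj : Set.InjOn (fun i : Z × ℕ => (i.1, rr H i.2)) I := fun i hi j hj e => by
    by_contra hne
    have e1 := i1.2 i hi j hj hne
    rw [show i.1 = j.1 from (Prod.mk.inj e).1, dist_self] at e1
    linarith [h3 i.2, h3 j.2, rr_pos (H := H) i.2, rr_pos (H := H) j.2]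
  classical
  have h4 := F.en (I.image fun i : Z × ℕ => (i.1, rr H i.2)) (fun x hx => by
    obtain ⟨i, hi, rfl⟩ := Finset.mem_image.1 hx
    obtain ⟨_, e2, e3⟩ := i1.1 i hi
    refine ⟨(min_le_left _ _).trans (rr_anti e2), ?_⟩
    linarith [dist_triangle i.1 z z₀, h3 i.2]) (fun x hx y hy e => by
    obtain ⟨i, hi, rfl⟩ := Finset.mem_image.1 hx
    obtain ⟨j, hj, rfl⟩ := Finset.mem_image.1 hy
    linarith [i1.2 i hi j hj fun h => e (by rw [h]), h3 i.2, h3 j.2])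
  rw [Finset.sum_image hinj] at h4
  have h5 : (c / P) ^ 2 ≤ F.ph z (n₀ + n₁) ^ 2 := pow_le_pow_left₀ (by positivity) z2 2
  have h6 : (2 : ℝ) ^ k * (c / P) ^ 2 ≤ 2 ^ (k + 1) * F.ph z (n₀ + n₁) ^ 2 :=
    mul_le_mul (pow_le_pow_right₀ one_le_two (by omega)) h5 (by positivity) (by positivity)
  exact (hk.trans_le (h6.trans i2)).not_ge h4

end KFan
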