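import Pool.Agent.Lib.MP_e1e491_gt.CdDefs

/-! Products of weights. -/

namespace Pool.Agent.Lib.MP_e1e491_gt

open Real
open scoped Classical

noncomputable section

namespace Wt

variable {S E : Type*} [MetricSpace S] [PseudoMetricSpace E] (w : Wt S E)

theorem r_pos (i : ℕ) : 0 < w.r i := by
  exact mul_pos w.R_pos (pow_pos w.t_pos i)

theorem r_succ (i : ℕ) : 12 * w.r (i + 1) ≤ w.r i := by
  have h1 := w.r_pos i
  have h2 := w.t_le
  have h3 : w.r (i + 1) = w.r i * w.t := by rw [r, r, pow_succ, mul_assoc]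
  rw [h3]
  nlinarith

theorem r_add (i j : ℕ) : w.r (i + j) = w.t ^ j * w.r i := by
  rw [r, r, pow_add]
  ring

theorem r_anti {i j : ℕ} (h : i ≤ j) : w.r j ≤ w.r i := by
  have h1 : w.t ≤ 1 := w.t_le.trans (by norm_num)
  exact mul_le_mul_of_nonneg_left (pow_le_pow_of_le_one w.t_pos.le h1 h) w.R_pos.le

theorem h_pos (k : ℕ) (x : S) : 0 < w.h k x := by
  exact Finset.prod_pos fun i _ => w.η_pos.trans_le (w.le_ρ i x)

theorem h_zero (x : S) : w.h 0 x = 1 := by
  exact Finset.prod_range_zero _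

theorem h_succ (k : ℕ) (x : S) : w.h (k + 1) x = w.h k x * w.ρ k x := by
  exact Finset.prod_range_succ _ _

theorem h_add_le (k j : ℕ) (x : S) : w.h (k + j) x ≤ (1 / 2) ^ j * w.h k x := by
  induction j with
  | zero => simp
  | succ j ih =>
    rw [← add_assoc, h_succ, pow_succ]
    have h1 := w.h_pos (k + j) x
    have h2 := w.ρ_le (k + j) x
    nlinarith

theorem le_h_add (k j : ℕ) (x : S) : w.η ^ j * w.h k x ≤ w.h (k + j) x := by
  induction j with
  | zero => simp
  | succ j ih =>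
    rw [← add_assoc, h_succ, pow_succ, mul_right_comm]
    exact mul_le_mul ih (w.le_ρ _ _) w.η_pos.le (w.h_pos _ _).le

theorem h_anti {k j : ℕ} (h : k ≤ j) (x : S) : w.h j x ≤ w.h k x := by
  obtain ⟨d, rfl⟩ := Nat.exists_eq_add_of_le h
  refine (w.h_add_le k d x).trans ?_
  exact mul_le_of_le_one_left (w.h_pos _ _).le (pow_le_one₀ (by norm_num) (by norm_num))

theorem h_har (k : ℕ) (x y : S) : w.h k x ≤ exp (2 * dist x y / w.r k) * w.h k y := by
  induction k with
  | zero => simpa [h_zero] using div_nonneg (by positivity) (w.r_pos 0).le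
  | succ k ih =>
    rw [h_succ, h_succ]
    have h1 : w.ρ k x ≤ exp (dist x y / w.r (k + 1)) * w.ρ k y := w.har k x y
    have h2 := w.r_pos (k + 1)
    have h3 := w.r_succ k
    have h4 : 2 * dist x y / w.r k ≤ dist x y / w.r (k + 1) := by
      rw [div_le_div_iff₀ (w.r_pos k) h2]
      nlinarith [dist_nonneg (x := x) (y := y)]
    have h5 : exp (2 * dist x y / w.r k) * exp (dist x y / w.r (k + 1)) ≤
        exp (2 * dist x y / w.r (k + 1)) := by
      rw [← exp_add, exp_le_exp, mul_div_assoc 2 _ (w.r (k + 1))]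
      linarith
    have h6 : 0 < w.ρ k x := w.η_pos.trans_le (w.le_ρ _ _)
    have h7 : 0 < w.ρ k y := w.η_pos.trans_le (w.le_ρ _ _)
    have h8 := w.h_pos k y
    calc w.h k x * w.ρ k x ≤ (exp (2 * dist x y / w.r k) * w.h k y) *
          (exp (dist x y / w.r (k + 1)) * w.ρ k y) := mul_le_mul ih h1 h6.le (by positivity)
      _ = (exp (2 * dist x y / w.r k) * exp (dist x y / w.r (k + 1))) * (w.h k y * w.ρ k y) := by
          ring
      _ ≤ _ := mul_le_mul_of_nonneg_right h5 (by positivity)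

theorem h_le_K {k : ℕ} {x y : S} (h : dist x y ≤ 20 * w.r k) : w.h k x ≤ KH * w.h k y := by
  refine (w.h_har k x y).trans (mul_le_mul_of_nonneg_right ?_ (w.h_pos _ _).le)
  rw [KH, exp_le_exp, div_le_iff₀ (w.r_pos k)]
  linarith

theorem lev_spec {x y : S} (h : x ≠ y) :
    10 * w.r (w.lev (dist x y) + 1) < dist x y ∧ dist x y ≤ 10 * w.r (w.lev (dist x y)) := by
  have hs : 0 < dist x y := dist_pos.2 h
  have hR := w.R_pos
  have hex : ∃ m, 10 * w.r (m + 1) < dist x y := by
    obtain ⟨m, hm⟩ := exists_pow_lt_of_lt_one (x := dist x y / (10 * w.R)) (y := w.t)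
      (by positivity) (w.t_le.trans_lt (by norm_num))
    refine ⟨m, ?_⟩
    rw [lt_div_iff₀ (by positivity)] at hm
    have h1 := w.r_anti (Nat.le_succ m)
    have h2 : w.r m = w.R * w.t ^ m := rfl
    have h3 : w.r (m + 1) ≤ w.R * w.t ^ m := h2 ▸ h1
    linarith
  rw [lev, dif_pos hex]
  refine ⟨Nat.find_spec hex, ?_⟩
  rcases Nat.eq_zero_or_eq_succ_pred (Nat.find hex) with h0 | h0
  · rw [h0, r, pow_zero]
    linarith [w.diam x y]
  · rw [h0]
    exact not_lt.1 (Nat.find_min hex (by omega))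

theorem le_lev {x y : S} (h : x ≠ y) {k : ℕ} (hk : dist x y ≤ 10 * w.r k) :
    k ≤ w.lev (dist x y) := by
  by_contra hc
  have h1 := w.r_anti (show w.lev (dist x y) + 1 ≤ k by omega)
  linarith [(w.lev_spec h).1]

theorem cdh_pow {k : ℕ} {x y : S} (h : dist x y ≤ 20 * w.r k) :
    w.h k x ^ w.p ≤ KH ^ 2 * w.h k y ^ w.p := by
  have hK : 0 ≤ KH := zero_le_one.trans one_le_KH
  have hp : 0 ≤ w.p := zero_le_one.trans w.one_le_p
  refine (rpow_le_rpow (w.h_pos _ _).le (w.h_le_K h) hp).trans ?_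
  rw [mul_rpow hK (w.h_pos _ _).le]
  refine mul_le_mul_of_nonneg_right ?_ (rpow_nonneg (w.h_pos _ _).le _)
  rw [← rpow_natCast]
  exact rpow_le_rpow_of_exponent_le one_le_KH (by exact_mod_cast w.p_lt.le)

/-- Induction on `j`: every point of `N (k + j + 1)` has a parent in `N (k + j)`. -/
theorem sum_h_le (k j : ℕ) (ξ : S) :
    ∑ z ∈ (w.N (k + j)).filter (fun z => dist z ξ < 11 * w.r k + 2 * w.r (k + j)),
      w.h (k + j) z ^ w.p ≤ w.C₀ * 13 ^ w.Q * KH ^ 2 * (1 / 2) ^ j * w.h k ξ ^ w.p := by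
  have hK : 0 < KH := lt_of_lt_of_le one_pos one_le_KH
  induction j with
  | zero =>
    simp only [add_zero, pow_zero, mul_one]
    have hr := w.r_pos k
    have h1 : (((w.N k).filter (fun z => dist z ξ < 11 * w.r k + 2 * w.r k)).card : ℝ) ≤
        w.C₀ * 13 ^ w.Q := by
      have := w.dbl (w.r k) hr 13 (by norm_num) ξ
        ((w.N k).filter (fun z => dist z ξ < 11 * w.r k + 2 * w.r k))
        (fun a ha b hb => w.sep k a (Finset.mem_filter.1 ha).1 b (Finset.mem_filter.1 hb).1)
        (fun z hz => by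
          have := (Finset.mem_filter.1 hz).2
          push_cast
          linarith)
      exact_mod_cast this
    refine (Finset.sum_le_card_nsmul _ _ (KH ^ 2 * w.h k ξ ^ w.p) fun z hz => ?_).trans ?_
    · refine w.cdh_pow ?_
      have := (Finset.mem_filter.1 hz).2
      linarith
    · rw [nsmul_eq_mul, mul_assoc (w.C₀ * 13 ^ w.Q : ℝ)]
      exact mul_le_mul_of_nonneg_right h1
        (mul_nonneg (by positivity) (rpow_nonneg (w.h_pos _ _).le _))
  | succ j ih =>
    choose par hpar hd using w.net (k + j)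
    have hd' : ∀ z, dist z (par z) < w.r (k + j) := hd
    have hr := w.r_pos (k + j)
    have hr1 := w.r_succ (k + j)
    rw [← add_assoc]
    have hmap : ∀ z ∈ (w.N (k + j + 1)).filter
        (fun z => dist z ξ < 11 * w.r k + 2 * w.r (k + j + 1)),
        par z ∈ (w.N (k + j)).filter (fun z => dist z ξ < 11 * w.r k + 2 * w.r (k + j)) := by
      intro z hz
      refine Finset.mem_filter.2 ⟨hpar z, ?_⟩
      have h1 := (Finset.mem_filter.1 hz).2
      have h2 := dist_triangle_left (par z) ξ z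
      have h3 := hd' z
      linarith
    rw [← Finset.sum_fiberwise_of_maps_to hmap]
    have hc : ∀ c ∈ (w.N (k + j)).filter (fun z => dist z ξ < 11 * w.r k + 2 * w.r (k + j)),
        ∑ z ∈ ((w.N (k + j + 1)).filter
          (fun z => dist z ξ < 11 * w.r k + 2 * w.r (k + j + 1))).filter (fun z => par z = c),
          w.h (k + j + 1) z ^ w.p ≤ 1 / 2 * w.h (k + j) c ^ w.p := by
      intro c _
      have hc0 : 0 ≤ KH ^ 2 * w.h (k + j) c ^ w.p :=
        mul_nonneg (by positivity) (rpow_nonneg (w.h_pos _ _).le _)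
      have hρ : ∀ z, 0 ≤ w.ρ (k + j) z := fun z => (w.η_pos.trans_le (w.le_ρ _ _)).le
      refine (Finset.sum_le_sum (g := fun z => KH ^ 2 * w.h (k + j) c ^ w.p *
        w.ρ (k + j) z ^ w.p) fun z hz => ?_).trans ?_
      · rw [h_succ, mul_rpow (w.h_pos _ _).le (hρ z)]
        refine mul_le_mul_of_nonneg_right (w.cdh_pow ?_) (rpow_nonneg (hρ z) _)
        have h1 := hd' z
        rw [(Finset.mem_filter.1 hz).2] at h1
        linarith
      · rw [← Finset.mul_sum]
        have h1 := (Finset.sum_le_sum_of_subset_of_nonneg (f := fun z => w.ρ (k + j) z ^ w.p)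
          (s := ((w.N (k + j + 1)).filter
            (fun z => dist z ξ < 11 * w.r k + 2 * w.r (k + j + 1))).filter (fun z => par z = c))
          (t := (w.N (k + j + 1)).filter (fun z => dist z c < w.R * w.t ^ (k + j)))
          (fun z hz => Finset.mem_filter.2 ⟨(Finset.mem_filter.1 (Finset.mem_filter.1 hz).1).1,
            (Finset.mem_filter.1 hz).2 ▸ hd z⟩)
          fun z _ _ => rpow_nonneg (hρ z) _).trans (w.small (k + j) c)
        refine (mul_le_mul_of_nonneg_left h1 hc0).trans (le_of_eq ?_)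
        field_simp
    refine (Finset.sum_le_sum hc).trans ?_
    rw [← Finset.mul_sum, pow_succ (1 / 2 : ℝ) j]
    linarith

end Wt

end

end Pool.Agent.Lib.MP_e1e491_gt
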