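import Pool.Agent.Lib.MP_e1e491_gt.CdTest

/-! The new metric. -/

namespace Pool.Agent.Lib.MP_e1e491_gt

open Real
open scoped Classical

noncomputable section

namespace Wt

variable {S E : Type*} [MetricSpace S] [PseudoMetricSpace E] (w : Wt S E)

theorem cdmet_q_self (x : S) : w.q x x = 0 := if_pos rfl

theorem cdmet_q_ne {x y : S} (h : x ≠ y) : w.q x y = w.h (w.lev (dist x y)) x := if_neg h

theorem cdmet_q_nonneg (x y : S) : 0 ≤ w.q x y := by
  by_cases h : x = y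
  · rw [h, cdmet_q_self]
  · rw [w.cdmet_q_ne h]
    exact (w.h_pos _ _).le

theorem cdmet_nonempty : Nonempty {F : S → ℝ // ∀ u v, |F u - F v| ≤ w.q u v} :=
  ⟨⟨fun _ => 0, fun u v => by rw [sub_self, abs_zero]; exact w.cdmet_q_nonneg u v⟩⟩

theorem cdmet_le (F : S → ℝ) (hF : ∀ u v, |F u - F v| ≤ w.q u v) (x y : S) :
    |F x - F y| ≤ w.d₁ x y :=
  le_ciSup (f := fun F : {F : S → ℝ // ∀ u v, |F u - F v| ≤ w.q u v} => |F.1 x - F.1 y|)
    ⟨w.q x y, by rintro _ ⟨F, rfl⟩; exact F.2 x y⟩ ⟨F, hF⟩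

theorem cdmet_nonneg (x y : S) : 0 ≤ w.d₁ x y := Real.iSup_nonneg fun _ => abs_nonneg _

theorem d₁_le (x y : S) : w.d₁ x y ≤ w.q x y := by
  have := w.cdmet_nonempty
  exact ciSup_le fun F => F.2 x y

theorem le_d₁ (x y : S) : w.η / (5 * KH ^ 3) * w.q x y ≤ w.d₁ x y := by
  by_cases hxy : x = y
  · rw [hxy, cdmet_q_self, mul_zero]
    exact w.cdmet_nonneg y y
  have hK := one_le_KH
  have hK3 : KH ≤ 5 * KH ^ 3 := by
    have h1 : KH ^ 1 ≤ KH ^ 3 := pow_le_pow_right₀ hK (by norm_num)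
    rw [pow_one] at h1
    linarith
  have hK0 : 0 < 5 * KH ^ 3 := by linarith
  obtain ⟨hl, -⟩ := w.lev_spec hxy
  rw [w.cdmet_q_ne hxy]
  generalize w.lev (dist x y) = m at hl ⊢
  obtain ⟨F, h1, h2, h3, h4⟩ := w.exists_test (m + 1) x
  have key : ∀ u v, |F u - F v| ≤ 5 * KH ^ 3 * w.q u v := by
    intro u v
    by_cases huv : u = v
    · rw [huv, sub_self, abs_zero, cdmet_q_self, mul_zero]
    obtain ⟨-, hu⟩ := w.lev_spec huv
    rw [w.cdmet_q_ne huv]
    generalize w.lev (dist u v) = n at hu ⊢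
    by_cases hn : m + 1 ≤ n
    · exact h4 n hn u v hu
    have hr := w.r_anti (i := n) (j := m + 1) (by omega)
    have hr0 := w.r_pos n
    have hp := w.h_pos n u
    by_cases hd : dist x u ≤ 20 * w.r n
    · have h5 := w.h_le_K hd
      have h6 := w.h_anti (k := n) (j := m + 1) (by omega) x
      have h7 : |F u - F v| ≤ w.h (m + 1) x :=
        abs_sub_le_iff.2 ⟨by linarith [(h1 u).2, (h1 v).1], by linarith [(h1 u).1, (h1 v).2]⟩
      exact h7.trans (h6.trans (h5.trans (mul_le_mul_of_nonneg_right hK3 hp.le)))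
    · have ht := dist_triangle_right x u v
      rw [not_le] at hd
      rw [h3 u (by rw [dist_comm]; linarith), h3 v (by rw [dist_comm]; linarith), sub_self,
        abs_zero]
      exact mul_nonneg hK0.le hp.le
  have h8 := w.cdmet_le (fun u => F u / (5 * KH ^ 3)) (fun u v => by
    rw [← sub_div, abs_div, abs_of_pos hK0, div_le_iff₀' hK0]
    exact key u v) x y
  rw [h2, h3 y (by rw [dist_comm]; exact hl.le), zero_div, sub_zero,
    abs_of_pos (div_pos (w.h_pos _ _) hK0)] at h8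
  refine le_trans ?_ h8
  have h9 := w.le_h_add m 1 x
  rw [pow_one] at h9
  rw [div_mul_eq_mul_div]
  exact div_le_div_of_nonneg_right h9 hK0.le

theorem d₁_self (x : S) : w.d₁ x x = 0 := by
  exact le_antisymm ((w.d₁_le x x).trans (w.cdmet_q_self x).le) (w.cdmet_nonneg x x)

theorem d₁_comm (x y : S) : w.d₁ x y = w.d₁ y x := by
  exact iSup_congr fun F => abs_sub_comm _ _

theorem d₁_triangle (x y z : S) : w.d₁ x z ≤ w.d₁ x y + w.d₁ y z := by
  have := w.cdmet_nonempty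
  exact ciSup_le fun F => (abs_sub_le _ (F.1 y) _).trans
    (add_le_add (w.cdmet_le F.1 F.2 x y) (w.cdmet_le F.1 F.2 y z))

theorem eq_of_d₁ {x y : S} (h : w.d₁ x y = 0) : x = y := by
  by_contra hxy
  have h1 := w.le_d₁ x y
  rw [h, w.cdmet_q_ne hxy] at h1
  have hK := one_le_KH
  exact absurd h1 (not_le.2 (mul_pos (div_pos w.η_pos (by positivity)) (w.h_pos _ _)))

theorem q_ratio : ∃ C α β : ℝ, 0 < C ∧ 0 < α ∧ 0 < β ∧ ∀ x y z : S, z ≠ x →
    w.q x y ≤ C * ((dist x y / dist x z) ^ α + (dist x y / dist x z) ^ β) * w.q x z := by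
  have ht := w.t_pos
  have ht1 : w.t < 1 := w.t_le.trans_lt (by norm_num)
  have hη := w.η_pos
  have hη1 : w.η < 1 := w.η_le.trans_lt (by norm_num)
  have ha : w.t ^ logb w.t (1 / 2) = 1 / 2 := rpow_logb ht ht1.ne (by norm_num)
  have hb : w.t ^ logb w.t w.η = w.η := rpow_logb ht ht1.ne hη
  have ha0 : 0 < logb w.t (1 / 2) := logb_pos_of_base_lt_one ht ht1 (by norm_num) (by norm_num)
  have hb0 : 0 < logb w.t w.η := logb_pos_of_base_lt_one ht ht1 hη hη1
  have hi : 0 < w.η⁻¹ := inv_pos.2 hη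
  refine ⟨2 + w.η⁻¹, _, _, by linarith, ha0, hb0, fun x y z hz => ?_⟩
  generalize logb w.t (1 / 2) = α at ha ha0 ⊢
  generalize logb w.t w.η = β at hb hb0 ⊢
  have hd : 0 < dist x z := dist_pos.2 hz.symm
  have hs : 0 ≤ dist x y / dist x z := div_nonneg dist_nonneg hd.le
  have hA := rpow_nonneg hs α
  have hB := rpow_nonneg hs β
  by_cases hxy : x = y
  · rw [← hxy, cdmet_q_self]
    rw [← hxy] at hA hB
    exact mul_nonneg (mul_nonneg (by linarith) (add_nonneg hA hB)) (w.cdmet_q_nonneg x z)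
  obtain ⟨h1, -⟩ := w.lev_spec hxy
  obtain ⟨-, h2⟩ := w.lev_spec hz.symm
  rw [w.cdmet_q_ne hxy, w.cdmet_q_ne hz.symm]
  generalize w.lev (dist x y) = m at h1 ⊢
  generalize w.lev (dist x z) = n at h2 ⊢
  have hp := w.h_pos n x
  rcases le_or_gt n m with hnm | hnm
  · obtain ⟨j, rfl⟩ := Nat.exists_eq_add_of_le hnm
    rw [add_assoc, w.r_add] at h1
    have htj : 0 < w.t ^ (j + 1) := pow_pos ht _
    have h3 : w.t ^ (j + 1) ≤ dist x y / dist x z := by
      rw [le_div_iff₀ hd]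
      nlinarith [mul_le_mul_of_nonneg_left h2 htj.le]
    have h4 := rpow_le_rpow htj.le h3 ha0.le
    rw [← rpow_pow_comm ht.le, ha, pow_succ] at h4
    refine (w.h_add_le n j x).trans (mul_le_mul_of_nonneg_right ?_ hp.le)
    nlinarith [mul_nonneg hi.le hA, mul_nonneg hi.le hB]
  · obtain ⟨j, rfl⟩ := Nat.exists_eq_add_of_le (Nat.succ_le_of_lt hnm)
    rw [Nat.succ_eq_add_one] at h2 hp ⊢
    rw [w.r_add] at h2
    have htj : 0 < w.t ^ j := pow_pos ht _
    have h3 : 1 ≤ w.t ^ j * (dist x y / dist x z) := by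
      rw [← mul_div_assoc, le_div_iff₀ hd]
      nlinarith [mul_le_mul_of_nonneg_left h1.le htj.le]
    have h4 := one_le_rpow h3 hb0.le
    rw [mul_rpow htj.le hs, ← rpow_pow_comm ht.le, hb] at h4
    have h5 := w.le_h_add m (1 + j) x
    rw [← add_assoc] at h5
    have h6 := w.h_pos m x
    calc w.h m x ≤ w.η ^ j * (dist x y / dist x z) ^ β * w.h m x := le_mul_of_one_le_left h6.le h4
      _ = w.η⁻¹ * (dist x y / dist x z) ^ β * (w.η ^ (1 + j) * w.h m x) := by
        rw [pow_add, pow_one]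
        field_simp
      _ ≤ w.η⁻¹ * (dist x y / dist x z) ^ β * w.h (m + 1 + j) x :=
        mul_le_mul_of_nonneg_left h5 (mul_nonneg hi.le hB)
      _ ≤ _ := by
        refine mul_le_mul_of_nonneg_right ?_ hp.le
        nlinarith [mul_nonneg hi.le hA]

theorem q_small (ε : ℝ) (hε : 0 < ε) : ∃ δ : ℝ, 0 < δ ∧ ∀ x y : S, dist x y < δ → w.q x y < ε := by
  obtain ⟨k, hk⟩ := exists_pow_lt_of_lt_one hε (by norm_num : (1 / 2 : ℝ) < 1)
  refine ⟨10 * w.r k, by linarith [w.r_pos k], fun x y h => ?_⟩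
  by_cases hxy : x = y
  · rwa [hxy, cdmet_q_self]
  rw [w.cdmet_q_ne hxy]
  have h1 := w.h_add_le 0 k x
  rw [zero_add, w.h_zero, mul_one] at h1
  exact ((w.h_anti (w.le_lev hxy h.le) x).trans h1).trans_lt hk

theorem q_big (ε : ℝ) (hε : 0 < ε) : ∃ δ : ℝ, 0 < δ ∧ ∀ x y : S, w.q x y < δ → dist x y < ε := by
  have hR := w.R_pos
  obtain ⟨k, hk⟩ := exists_pow_lt_of_lt_one (div_pos hε (by linarith : 0 < 10 * w.R))
    (w.t_le.trans_lt (by norm_num) : w.t < 1)
  rw [lt_div_iff₀ (by linarith)] at hk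
  refine ⟨w.η ^ k, pow_pos w.η_pos k, fun x y h => ?_⟩
  by_cases hxy : x = y
  · rwa [hxy, dist_self]
  rw [w.cdmet_q_ne hxy] at h
  obtain ⟨-, h2⟩ := w.lev_spec hxy
  have h1 := w.le_h_add 0 k x
  rw [zero_add, w.h_zero, mul_one] at h1
  have h3 : k ≤ w.lev (dist x y) := by
    by_contra e
    exact absurd (h1.trans (w.h_anti (not_le.1 e).le x)) (not_le.2 h)
  have h4 := w.r_anti h3
  have h5 : w.r k = w.R * w.t ^ k := rfl
  linarith

end Wt

end

end Pool.Agent.Lib.MP_e1e491_gt
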