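import Pool.Agent.Lib.MP_e1e491_gt.CdDefs

/-! Nets. -/

namespace Pool.Agent.Lib.MP_e1e491_gt

open Real
open scoped Classical

noncomputable section

variable {S : Type*} [MetricSpace S]

/-- Take a separated set of maximal cardinality. -/
theorem exists_net {r : ℝ} (hr : 0 < r) {B : ℕ} (h : ∀ T : Finset S, Sepd r T → T.card ≤ B) :
    ∃ T : Finset S, Sepd r T ∧ ∀ x, ∃ c ∈ T, dist x c < r := by
  have hex : ∃ n, ∀ T : Finset S, Sepd r T → T.card ≤ n := ⟨B, h⟩
  have hspec := Nat.find_spec hex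
  have hmax : ∃ T : Finset S, Sepd r T ∧ T.card = Nat.find hex := by
    rcases Nat.eq_zero_or_pos (Nat.find hex) with h0 | h0
    · exact ⟨∅, fun x hx => absurd hx (Finset.notMem_empty x), by simp [h0]⟩
    · have hmin := Nat.find_min hex (m := Nat.find hex - 1) (by omega)
      push Not at hmin
      obtain ⟨T, hT, hc⟩ := hmin
      have := hspec T hT
      exact ⟨T, hT, by omega⟩
  obtain ⟨T, hT, hc⟩ := hmax
  refine ⟨T, hT, fun x => ?_⟩
  by_contra hx
  push Not at hx
  have hxT : x ∉ T := fun hxT => by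
    have := hx x hxT
    rw [dist_self] at this
    linarith
  have hsep : Sepd r (insert x T) := by
    intro a ha b hb hab
    rcases Finset.mem_insert.1 ha with rfl | ha'
    · rcases Finset.mem_insert.1 hb with rfl | hb'
      · exact absurd rfl hab
      · exact hx b hb'
    · rcases Finset.mem_insert.1 hb with rfl | hb'
      · rw [dist_comm]; exact hx a ha'
      · exact hT a ha' b hb' hab
  have := hspec _ hsep
  rw [Finset.card_insert_of_notMem hxT] at this
  omega

theorem Dbl.exists_net {C₀ Q : ℕ} (hd : Dbl S C₀ Q) {R : ℝ} (hR : ∀ x y : S, dist x y ≤ R)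
    {r : ℝ} (hr : 0 < r) : ∃ T : Finset S, Sepd r T ∧ ∀ x, ∃ c ∈ T, dist x c < r := by
  refine _root_.Pool.Agent.Lib.MP_e1e491_gt.exists_net hr
    (B := C₀ * (⌈R / r⌉₊ + 1) ^ Q) fun T hT => ?_
  rcases T.eq_empty_or_nonempty with rfl | ⟨ξ, -⟩
  · simp
  · refine hd r hr (⌈R / r⌉₊ + 1) (by omega) ξ T hT fun z _ => ?_
    have h1 : R / r ≤ ((⌈R / r⌉₊ + 1 : ℕ) : ℝ) := by
      push_cast
      linarith [Nat.le_ceil (R / r)]
    rw [div_le_iff₀ hr] at h1
    exact (hR z ξ).trans h1

/-- Group the points by the integer part of `dist z ξ / r`. -/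
theorem Dbl.sum_exp {C₀ Q : ℕ} (hd : Dbl S C₀ Q) : ∃ W : ℝ, 1 ≤ W ∧ ∀ r : ℝ, 0 < r →
    ∀ (ξ : S) (T : Finset S), Sepd r T → ∑ z ∈ T, exp (-(dist z ξ / r)) ≤ W := by
  have hs0 := Real.summable_pow_mul_exp_neg_nat_mul Q (r := 1) one_pos
  have hs1 := (summable_nat_add_iff 1).2 hs0
  set g : ℕ → ℝ := fun m => (C₀ : ℝ) * ((m : ℝ) + 1) ^ Q * exp (-(m : ℝ)) with hg
  have hsg : Summable g := by
    have := hs1.mul_left ((C₀ : ℝ) * exp 1)
    refine this.congr fun m => ?_
    have e : exp (-(m : ℝ)) = exp 1 * exp (-1 * ((m + 1 : ℕ) : ℝ)) := by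
      rw [← exp_add]; congr 1; push_cast; ring
    simp only [hg]
    rw [e]; push_cast; ring
  have hg0 : ∀ m, 0 ≤ g m := fun m => by simp only [hg]; positivity
  refine ⟨max 1 (∑' m, g m), le_max_left _ _, fun r hr ξ T hT => ?_⟩
  refine le_trans ?_ (le_max_right _ _)
  set φ : S → ℕ := fun z => ⌊dist z ξ / r⌋₊ with hφ
  rw [← Finset.sum_fiberwise_of_maps_to (s := T) (t := T.image φ) (g := φ)
    (fun z hz => Finset.mem_image_of_mem φ hz)]
  refine le_trans (Finset.sum_le_sum (g := g) fun m _ => ?_)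
    (hsg.sum_le_tsum _ fun m _ => hg0 m)
  have hcard : (T.filter fun z => φ z = m).card ≤ C₀ * (m + 1) ^ Q := by
    refine hd r hr (m + 1) (by omega) ξ _
      (fun a ha b hb hab => hT a (Finset.mem_filter.1 ha).1 b (Finset.mem_filter.1 hb).1 hab)
      fun z hz => ?_
    have h1 : φ z = m := (Finset.mem_filter.1 hz).2
    have h2 : dist z ξ / r < (⌊dist z ξ / r⌋₊ : ℝ) + 1 := Nat.lt_floor_add_one _
    have h3 : (⌊dist z ξ / r⌋₊ : ℝ) = m := by exact_mod_cast h1
    rw [h3, div_lt_iff₀ hr] at h2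
    push_cast
    exact h2.le
  calc ∑ z ∈ T.filter (fun z => φ z = m), exp (-(dist z ξ / r))
      ≤ ∑ z ∈ T.filter (fun z => φ z = m), exp (-(m : ℝ)) := by
        refine Finset.sum_le_sum fun z hz => ?_
        have h1 : φ z = m := (Finset.mem_filter.1 hz).2
        have h2 : (⌊dist z ξ / r⌋₊ : ℝ) ≤ dist z ξ / r :=
          Nat.floor_le (div_nonneg dist_nonneg hr.le)
        have h3 : (⌊dist z ξ / r⌋₊ : ℝ) = m := by exact_mod_cast h1
        rw [h3] at h2
        exact exp_le_exp.2 (by linarith)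
    _ = ((T.filter fun z => φ z = m).card : ℝ) * exp (-(m : ℝ)) := by
        rw [Finset.sum_const, nsmul_eq_mul]
    _ ≤ g m := by
        simp only [hg]
        refine mul_le_mul_of_nonneg_right ?_ (exp_pos _).le
        exact_mod_cast hcard

/-- Cover by the balls about a net; the Hausdorff measure of dimension `p` is finite. -/
theorem Pack.dimH_le {C p R : ℝ} (h : Pack S C p) (hp : 0 < p) (hR : ∀ x y : S, dist x y ≤ R) :
    dimH (Set.univ : Set S) ≤ ENNReal.ofReal p := by
  rcases isEmpty_or_nonempty S with hS | ⟨⟨ξ⟩⟩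
  · rw [Set.univ_eq_empty_iff.2 hS, dimH_empty]; exact bot_le
  borelize S
  set R₁ : ℝ := max R 1 with hR₁
  have hR1 : 1 ≤ R₁ := le_max_right _ _
  set r : ℕ → ℝ := fun n => 1 / ((n : ℝ) + 1) with hr
  have hr0 : ∀ n, 0 < r n := fun n => by simp only [hr]; positivity
  have hr1 : ∀ n, r n ≤ R₁ := fun n => by
    refine le_trans ?_ hR1
    simp only [hr]
    rw [div_le_one (by positivity)]
    linarith [(Nat.cast_nonneg n : (0 : ℝ) ≤ n)]
  have hcard : ∀ n, ∀ T : Finset S, Sepd (r n) T → (T.card : ℝ) ≤ C * (R₁ / r n) ^ p :=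
    fun n T hT => h (r n) R₁ (hr0 n) (hr1 n) ξ T hT fun z _ => (hR z ξ).trans (le_max_left _ _)
  have hnet : ∀ n, ∃ T : Finset S, Sepd (r n) T ∧ ∀ x, ∃ c ∈ T, dist x c < r n := fun n =>
    exists_net (hr0 n) (B := ⌈C * (R₁ / r n) ^ p⌉₊) fun T hT => by
      have := (hcard n T hT).trans (Nat.le_ceil _)
      exact_mod_cast this
  choose T hT hTn using hnet
  have hdiam : ∀ n (c : S), Metric.ediam (Metric.ball c (r n)) ≤ ENNReal.ofReal (2 * r n) := by
    intro n c
    refine Metric.ediam_le fun x hx y hy => ?_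
    rw [edist_dist]
    refine ENNReal.ofReal_le_ofReal ?_
    have h1 := Metric.mem_ball.1 hx
    have h2 := Metric.mem_ball.1 hy
    have h3 := dist_triangle_right x y c
    linarith
  have hle := MeasureTheory.Measure.hausdorffMeasure_le_liminf_sum (ι := fun n => T n) p
    (Set.univ : Set S) (l := Filter.atTop) (fun n => ENNReal.ofReal (2 * r n)) (by
      have h1 : Filter.Tendsto (fun n => 2 * r n) Filter.atTop (nhds (2 * 0)) :=
        tendsto_one_div_add_atTop_nhds_zero_nat.const_mul 2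
      rw [mul_zero] at h1
      have h2 := ENNReal.tendsto_ofReal h1
      rwa [ENNReal.ofReal_zero] at h2)
    (fun n c => Metric.ball (c : S) (r n))
    (Filter.Eventually.of_forall fun n c => hdiam n c)
    (Filter.Eventually.of_forall fun n x _ => by
      obtain ⟨c, hc, hx⟩ := hTn n x
      exact Set.mem_iUnion.2 ⟨⟨c, hc⟩, Metric.mem_ball.2 hx⟩)
  have hb : ∀ n, ∑ c : T n, Metric.ediam (Metric.ball (c : S) (r n)) ^ p ≤
      ENNReal.ofReal (C * (2 * R₁) ^ p) := by
    intro n
    calc ∑ c : T n, Metric.ediam (Metric.ball (c : S) (r n)) ^ p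
        ≤ ∑ _c : T n, ENNReal.ofReal ((2 * r n) ^ p) := by
          refine Finset.sum_le_sum fun c _ => ?_
          rw [← ENNReal.ofReal_rpow_of_nonneg (by linarith [hr0 n]) hp.le]
          exact ENNReal.rpow_le_rpow (hdiam n c) hp.le
      _ = ENNReal.ofReal (((T n).card : ℝ) * (2 * r n) ^ p) := by
          rw [Finset.sum_const, Finset.card_univ, Fintype.card_coe, nsmul_eq_mul,
            ENNReal.ofReal_mul (Nat.cast_nonneg _), ENNReal.ofReal_natCast]
      _ ≤ ENNReal.ofReal (C * (2 * R₁) ^ p) := by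
          refine ENNReal.ofReal_le_ofReal ?_
          have h0 := hr0 n
          have e : (2 * R₁) ^ p = (R₁ / r n) ^ p * (2 * r n) ^ p := by
            rw [← Real.mul_rpow (by positivity) (by positivity)]
            congr 1
            field_simp
          rw [e, ← mul_assoc]
          exact mul_le_mul_of_nonneg_right (hcard n _ (hT n)) (by positivity)
  have hfin : MeasureTheory.Measure.hausdorffMeasure p (Set.univ : Set S) ≠ ⊤ := by
    refine ne_top_of_le_ne_top (b := ENNReal.ofReal (C * (2 * R₁) ^ p)) ENNReal.ofReal_ne_top ?_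
    refine hle.trans ?_
    exact Filter.liminf_le_of_frequently_le' (Filter.Frequently.of_forall hb)
  have := dimH_le_of_hausdorffMeasure_ne_top (s := (Set.univ : Set S)) (d := p.toNNReal) (by
    rwa [Real.coe_toNNReal _ hp.le])
  exact this

theorem exists_gauge {C α β : ℝ} (hC : 0 < C) (hα : 0 < α) (hβ : 0 < β) :
    ∃ η : NNReal ≃ₜ NNReal, ∀ s : NNReal, (η s : ℝ) = C * ((s : ℝ) ^ α + (s : ℝ) ^ β) := by
  set f : NNReal → NNReal := fun s => C.toNNReal * (s ^ α + s ^ β) with hf
  have hC' : 0 < C.toNNReal := Real.toNNReal_pos.2 hC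
  have hmono : StrictMono f := by
    intro a b hab
    simp only [hf]
    exact mul_lt_mul_of_pos_left
      (add_lt_add (NNReal.rpow_lt_rpow hab hα) (NNReal.rpow_lt_rpow hab hβ)) hC'
  have hcont : Continuous f :=
    continuous_const.mul
      ((NNReal.continuous_rpow_const hα.le).add (NNReal.continuous_rpow_const hβ.le))
  have hf0 : f 0 = 0 := by
    simp only [hf]
    rw [NNReal.zero_rpow hα.ne', NNReal.zero_rpow hβ.ne', add_zero, mul_zero]
  have hsurj : Function.Surjective f := by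
    intro y
    set b : NNReal := (y / C.toNNReal) ^ (1 / α) with hb
    have hy : y ≤ f b := by
      have e : b ^ α = y / C.toNNReal := by
        rw [hb, ← NNReal.rpow_mul, one_div, inv_mul_cancel₀ hα.ne', NNReal.rpow_one]
      simp only [hf]
      rw [e, mul_add, mul_div_cancel₀ _ hC'.ne']
      exact le_self_add
    have := intermediate_value_Icc (a := 0) (b := b) bot_le hcont.continuousOn
    obtain ⟨x, -, hx⟩ := this (show y ∈ Set.Icc (f 0) (f b) from ⟨by rw [hf0]; exact bot_le, hy⟩)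
    exact ⟨x, hx⟩
  refine ⟨(hmono.orderIsoOfSurjective f hsurj).toHomeomorph, fun s => ?_⟩
  have e : ((hmono.orderIsoOfSurjective f hsurj).toHomeomorph s) = f s := rfl
  rw [e]
  simp only [hf]
  rw [NNReal.coe_mul, NNReal.coe_add, NNReal.coe_rpow, NNReal.coe_rpow, Real.coe_toNNReal _ hC.le]

end

end Pool.Agent.Lib.MP_e1e491_gt
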