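import Pool.Agent.Lib.MP_e1e491_gt.CdMet

/-! The packing bound for the new metric. -/

namespace Pool.Agent.Lib.MP_e1e491_gt

open Real
open scoped Classical

noncomputable section

namespace Wt

variable {S E : Type*} [MetricSpace S] [PseudoMetricSpace E] (w : Wt S E)

theorem cdpack_h_le_one (k : ℕ) (x : S) : w.h k x ≤ 1 := by
  have := w.h_anti (Nat.zero_le k) x
  rwa [w.h_zero] at this

theorem cdpack_ex (x : S) (k : ℕ) {a : ℝ} (ha : 0 < a) : ∃ j, w.h (k + j) x < a := by
  obtain ⟨j, hj⟩ := exists_pow_lt_of_lt_one ha (by norm_num : (1 / 2 : ℝ) < 1)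
  refine ⟨j, (w.h_add_le k j x).trans_lt (lt_of_le_of_lt ?_ hj)⟩
  exact mul_le_of_le_one_right (by positivity) (w.cdpack_h_le_one k x)

theorem cdpack_q {x y : S} (h : x ≠ y) : w.q x y = w.h (w.lev (dist x y)) x := if_neg h

theorem cdpack_fibre (k j : ℕ) (ξ : S) {r : ℝ} (hr : 0 < r) (T : Finset S)
    (hsep : ∀ x ∈ T, ∀ y ∈ T, x ≠ y → r ≤ w.d₁ x y) (hnear : ∀ z ∈ T, dist ξ z ≤ 10 * w.r k)
    (hlt : ∀ y ∈ T, w.h (k + j) y < r) (hge : ∀ y ∈ T, w.η * r ≤ w.h (k + j) y) :
    (T.card : ℝ) * (w.η * r) ^ w.p ≤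
      KH ^ 2 * (w.C₀ * 13 ^ w.Q * KH ^ 2 * (1 / 2) ^ j * w.h k ξ ^ w.p) := by
  choose c hc hd using w.net (k + j)
  replace hd : ∀ x, dist x (c x) < w.r (k + j) := hd
  have hrp := w.r_pos (k + j)
  have hrk := w.r_pos k
  have hK := one_le_KH
  have hp0 : 0 ≤ w.p := zero_le_one.trans w.one_le_p
  have hinj : Set.InjOn c T := by
    intro y hy y' hy' e
    by_contra hne
    have h1 : dist y y' ≤ 10 * w.r (k + j) := by
      have h2 := dist_triangle_right y y' (c y)
      have h3 := hd y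
      have h4 := hd y'
      rw [← e] at h4
      linarith
    have h5 := w.h_anti (w.le_lev hne h1) y
    have h6 := w.d₁_le y y'
    rw [w.cdpack_q hne] at h6
    have h7 := hsep y hy y' hy' hne
    have h8 := hlt y hy
    linarith
  calc (T.card : ℝ) * (w.η * r) ^ w.p = ∑ _y ∈ T, (w.η * r) ^ w.p := by simp
    _ ≤ ∑ y ∈ T, KH ^ 2 * w.h (k + j) (c y) ^ w.p := by
      refine Finset.sum_le_sum (fun y hy => ?_)
      have h1 : w.h (k + j) y ≤ KH * w.h (k + j) (c y) :=
        w.h_le_K (by have := hd y; linarith)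
      have h2 := w.h_pos (k + j) (c y)
      have h3 : KH ^ w.p ≤ KH ^ 2 := by
        have := Real.rpow_le_rpow_of_exponent_le hK w.p_lt.le
        rwa [Real.rpow_two] at this
      calc (w.η * r) ^ w.p ≤ (KH * w.h (k + j) (c y)) ^ w.p :=
            Real.rpow_le_rpow (mul_pos w.η_pos hr).le ((hge y hy).trans h1) hp0
        _ = KH ^ w.p * w.h (k + j) (c y) ^ w.p := Real.mul_rpow (by linarith) h2.le
        _ ≤ _ := mul_le_mul_of_nonneg_right h3 (Real.rpow_nonneg h2.le _)
    _ = KH ^ 2 * ∑ z ∈ T.image c, w.h (k + j) z ^ w.p := by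
      rw [Finset.sum_image hinj, Finset.mul_sum]
    _ ≤ _ := by
      refine mul_le_mul_of_nonneg_left (le_trans ?_ (w.sum_h_le k j ξ)) (by positivity)
      refine Finset.sum_le_sum_of_subset_of_nonneg ?_
        (fun z _ _ => Real.rpow_nonneg (w.h_pos _ _).le _)
      intro z hz
      obtain ⟨y, hy, rfl⟩ := Finset.mem_image.1 hz
      refine Finset.mem_filter.2 ⟨hc y, ?_⟩
      have h1 := dist_triangle_left (c y) ξ y
      have h2 := hd y
      have h3 := hnear y hy
      rw [dist_comm ξ y] at h3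
      linarith

theorem pack : ∃ C : ℝ, 0 < C ∧ ∀ r R : ℝ, 0 < r → r ≤ R → ∀ (ξ : S) (T : Finset S),
    (∀ x ∈ T, ∀ y ∈ T, x ≠ y → r ≤ w.d₁ x y) → (∀ z ∈ T, w.d₁ z ξ ≤ R) →
      (T.card : ℝ) ≤ C * (R / r) ^ w.p := by
  have hK := one_le_KH
  have hη := w.η_pos
  have hp0 : 0 ≤ w.p := zero_le_one.trans w.one_le_p
  set c : ℝ := w.η / (5 * KH ^ 3) with hc
  have hc0 : 0 < c := by positivity
  set A : ℝ := KH ^ 2 * (w.C₀ * 13 ^ w.Q * KH ^ 2) with hA
  have hA0 : 0 ≤ A := by positivity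
  have hB0 : 0 ≤ (1 / (c * w.η)) ^ w.p := by positivity
  refine ⟨2 * A * (1 / (c * w.η)) ^ w.p + 1, by positivity, ?_⟩
  intro r R hr hrR ξ T hsep hR
  have hR0 : 0 < R := hr.trans_le hrR
  have hone : 1 ≤ (R / r) ^ w.p := Real.one_le_rpow ((one_le_div hr).2 hrR) hp0
  rcases lt_or_ge 1 r with h1 | h1
  · have hcard : T.card ≤ 1 := by
      refine Finset.card_le_one.2 (fun x hx y hy => ?_)
      by_contra hne
      have h2 := hsep x hx y hy hne
      have h3 := w.d₁_le x y
      rw [w.cdpack_q hne] at h3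
      have h4 := w.cdpack_h_le_one (w.lev (dist x y)) x
      linarith
    have hcard' : (T.card : ℝ) ≤ 1 := by exact_mod_cast hcard
    have h2 : 0 ≤ 2 * A * (1 / (c * w.η)) ^ w.p * (R / r) ^ w.p := by positivity
    rw [add_mul, one_mul]
    linarith
  have hex : ∃ k, w.h k ξ ≤ R / c := by
    obtain ⟨j, hj⟩ := w.cdpack_ex ξ 0 (div_pos hR0 hc0)
    exact ⟨_, hj.le⟩
  obtain ⟨k, hk, hmin⟩ : ∃ k, w.h k ξ ≤ R / c ∧ ∀ m, w.h m ξ ≤ R / c → k ≤ m :=
    ⟨Nat.find hex, Nat.find_spec hex, fun m hm => Nat.find_min' hex hm⟩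
  have hnear : ∀ z ∈ T, dist ξ z ≤ 10 * w.r k := by
    intro z hz
    by_cases e : ξ = z
    · rw [e, dist_self]
      have := w.r_pos k
      positivity
    · have h2 := w.le_d₁ ξ z
      rw [w.cdpack_q e, w.d₁_comm, ← hc] at h2
      have h3 : w.h (w.lev (dist ξ z)) ξ ≤ R / c := by
        rw [le_div_iff₀ hc0, mul_comm]
        exact h2.trans (hR z hz)
      have h4 := w.r_anti (hmin _ h3)
      have h5 := (w.lev_spec e).2
      linarith
  have hbig : ∀ y ∈ T, r ≤ w.h k y := by
    intro y hy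
    rcases k with _ | m
    · rwa [w.h_zero]
    · have h2 : R / c < w.h m ξ := by
        by_contra a
        have := hmin m (not_lt.1 a)
        omega
      have h3 := w.le_h_add m 1 ξ
      rw [pow_one] at h3
      have h4 : w.h (m + 1) ξ ≤ KH * w.h (m + 1) y :=
        w.h_le_K (by have := hnear y hy; have := w.r_pos (m + 1); linarith)
      have h5 : w.η * (R / c) = 5 * KH ^ 3 * R := by
        rw [hc]
        field_simp
      have h6 : w.η * (R / c) ≤ w.η * w.h m ξ := mul_le_mul_of_nonneg_left h2.le hη.le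
      have h7 : KH * r ≤ 5 * KH ^ 3 * R := by
        have h8 : KH ≤ KH ^ 3 := le_self_pow₀ hK (by norm_num)
        have h9 : 0 ≤ KH ^ 3 := by positivity
        exact mul_le_mul (by linarith) hrR hr.le (by positivity)
      exact le_of_mul_le_mul_left (a := KH) (by linarith) (by linarith)
  have hJ : ∀ y, ∃ j, w.h (k + j) y < r ∧ (y ∈ T → w.η * r ≤ w.h (k + j) y) := by
    intro y
    have hy := w.cdpack_ex y k hr
    refine ⟨Nat.find hy, Nat.find_spec hy, fun hyT => ?_⟩
    rcases hj : Nat.find hy with _ | m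
    · have := Nat.find_spec hy
      rw [hj, add_zero] at this
      exact absurd (hbig y hyT) (not_le.2 this)
    · have h2 : ¬ w.h (k + m) y < r := Nat.find_min hy (by omega)
      have h3 := w.le_h_add (k + m) 1 y
      rw [pow_one] at h3
      exact (mul_le_mul_of_nonneg_left (not_lt.1 h2) hη.le).trans h3
  choose J hJ1 hJ2 using hJ
  have hhk : w.h k ξ ^ w.p ≤ (R / c) ^ w.p := Real.rpow_le_rpow (w.h_pos _ _).le hk hp0
  have hsum : (T.card : ℝ) * (w.η * r) ^ w.p ≤ 2 * A * (R / c) ^ w.p := by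
    rw [Finset.card_eq_sum_card_image J T, Nat.cast_sum, Finset.sum_mul]
    calc _ ≤ ∑ j ∈ T.image J, (A * (R / c) ^ w.p) * (1 / 2 : ℝ) ^ j := by
          refine Finset.sum_le_sum (fun j _ => ?_)
          refine (w.cdpack_fibre k j ξ hr (T.filter (fun y => J y = j)) ?_ ?_ ?_ ?_).trans ?_
          · intro x hx y hy
            exact hsep x (Finset.mem_filter.1 hx).1 y (Finset.mem_filter.1 hy).1
          · intro z hz
            exact hnear z (Finset.mem_filter.1 hz).1
          · intro y hy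
            rw [← (Finset.mem_filter.1 hy).2]
            exact hJ1 y
          · intro y hy
            rw [← (Finset.mem_filter.1 hy).2]
            exact hJ2 y (Finset.mem_filter.1 hy).1
          · calc _ = (A * w.h k ξ ^ w.p) * (1 / 2 : ℝ) ^ j := by rw [hA]; ring
              _ ≤ _ := mul_le_mul_of_nonneg_right (mul_le_mul_of_nonneg_left hhk hA0)
                  (by positivity)
      _ = (A * (R / c) ^ w.p) * ∑ j ∈ T.image J, (1 / 2 : ℝ) ^ j := by rw [Finset.mul_sum]
      _ ≤ (A * (R / c) ^ w.p) * 2 :=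
          mul_le_mul_of_nonneg_left
            (sum_le_hasSum _ (fun _ _ => by positivity) hasSum_geometric_two) (by positivity)
      _ = _ := by ring
  have hpos : 0 < (w.η * r) ^ w.p := by positivity
  have hprod : (R / c) ^ w.p = (1 / (c * w.η)) ^ w.p * (R / r) ^ w.p * (w.η * r) ^ w.p := by
    rw [← Real.mul_rpow (by positivity) (by positivity),
      ← Real.mul_rpow (by positivity) (by positivity)]
    congr 1
    field_simp
  have hfin : (T.card : ℝ) ≤ 2 * A * (1 / (c * w.η)) ^ w.p * (R / r) ^ w.p := by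
    refine le_of_mul_le_mul_right (hsum.trans (le_of_eq ?_)) hpos
    rw [hprod]
    ring
  rw [add_mul, one_mul]
  linarith

end Wt

end

end Pool.Agent.Lib.MP_e1e491_gt
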