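import Pool.Agent.Lib.MP_e1e491_gt.CdH

/-! Test functions. -/

namespace Pool.Agent.Lib.MP_e1e491_gt

open Real
open scoped Classical

noncomputable section

namespace Wt

variable {S E : Type*} [MetricSpace S] [PseudoMetricSpace E] (w : Wt S E)

/-- Admissible functions on the net of level `i`. -/
def Adm (i : ℕ) (F : S → ℝ) : Prop :=
  ∀ c ∈ w.N i, ∀ c' ∈ w.N i, dist c' c < 12 * w.r i → F c' - F c ≤ KH * w.h i c

theorem cdtest_net (i : ℕ) (x : S) : ∃ c ∈ w.N i, dist x c < w.r i := w.net i x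

theorem cdtest_beta (i : ℕ) : ∃ β : S → S → ℝ, (∀ c z, 0 ≤ β c z) ∧
    (∀ c z, dist z c < w.r i → β c z = 0) ∧
    (∀ c z, 2 * w.r i ≤ dist z c → dist z c < 3 * w.r i → β c z = 1) ∧
    ∀ c z z', β c z' - β c z ≤ dist (w.Φ i c z) (w.Φ i c z') := by
  have hr := w.r_pos i
  refine ⟨fun c z => min 1 (Metric.infDist (w.Φ i c z) (w.Φ i c '' Metric.ball c (w.r i))),
    fun c z => le_min zero_le_one Metric.infDist_nonneg, fun c z hz => ?_, fun c z h1 h2 => ?_,
    fun c z z' => ?_⟩
  · have := Metric.infDist_zero_of_mem (Set.mem_image_of_mem (w.Φ i c) (Metric.mem_ball.2 hz))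
    simp only [this, min_eq_right zero_le_one]
  · refine min_eq_left ((Metric.le_infDist ((Metric.nonempty_ball.2 hr).image _)).2 ?_)
    rintro _ ⟨y, hy, rfl⟩
    have h3 : dist y c < w.r i := Metric.mem_ball.1 hy
    have h4 := dist_triangle z y c
    exact w.far i c z y h2 (show dist y c < 3 * w.r i by linarith)
      (show w.r i ≤ dist z y by linarith)
  · have h1 := Metric.infDist_le_infDist_add_dist (x := w.Φ i c z') (y := w.Φ i c z)
      (s := w.Φ i c '' Metric.ball c (w.r i))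
    have h2 := dist_nonneg (x := w.Φ i c z') (y := w.Φ i c z)
    rw [dist_comm, sub_le_iff_le_add', ← min_add_add_right]
    exact min_le_min (by linarith) h1

/-- One refinement step. -/
theorem exists_step {i : ℕ} {F : S → ℝ} (hF : w.Adm i F) : ∃ F' : S → ℝ, w.Adm (i + 1) F' ∧
    ∀ z, (∃ c ∈ w.N i, dist z c < 2 * w.r i ∧ F' z ≤ F c) ∧
      ∃ c ∈ w.N i, dist z c < 2 * w.r i ∧ F c ≤ F' z := by
  obtain ⟨β, b0, b1, b2, b3⟩ := w.cdtest_beta i
  have hr := w.r_pos i
  have hK : 0 < KH := one_pos.trans_le one_le_KH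
  have hex : ∀ z, ∃ c ∈ (w.N i).filter (fun c => dist z c < 2 * w.r i),
      ∀ c' ∈ (w.N i).filter (fun c => dist z c < 2 * w.r i),
        F c + KH * w.h i c * β c z ≤ F c' + KH * w.h i c' * β c' z := by
    intro z
    obtain ⟨c, hc, hz⟩ := w.cdtest_net i z
    exact Finset.exists_min_image _ _ ⟨c, Finset.mem_filter.2 ⟨hc, by linarith⟩⟩
  choose m hm hmin using hex
  simp only [Finset.mem_filter] at hm hmin
  have hup : ∀ z, ∃ c ∈ w.N i, dist z c < w.r i ∧ F (m z) + KH * w.h i (m z) * β (m z) z ≤ F c := by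
    intro z
    obtain ⟨c, hc, hz⟩ := w.cdtest_net i z
    have := hmin z c ⟨hc, by linarith⟩
    rw [b1 c z hz, mul_zero, add_zero] at this
    exact ⟨c, hc, hz, this⟩
  have key : ∀ z, ∀ c ∈ w.N i, dist z c < 3 * w.r i →
      F (m z) + KH * w.h i (m z) * β (m z) z ≤ F c + KH * w.h i c * β c z := by
    intro z c hc hz
    rcases lt_or_ge (dist z c) (2 * w.r i) with h | h
    · exact hmin z c ⟨hc, h⟩
    · obtain ⟨c₀, hc₀, h1, h2⟩ := hup z
      have h3 := dist_triangle_left c₀ c z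
      have h4 := hF c hc c₀ hc₀ (by linarith)
      rw [b2 c z h hz]
      linarith
  refine ⟨fun z => F (m z) + KH * w.h i (m z) * β (m z) z, fun z hz z' hz' hd => ?_, fun z =>
    ⟨?_, m z, (hm z).1, (hm z).2, ?_⟩⟩
  · have h1 := w.r_succ i
    have h2 := dist_triangle z' z (m z)
    have h3 := (hm z).2
    have h4 := key z' (m z) (hm z).1 (by linarith)
    have h5 := w.adm i (m z) (hm z).1 z hz z' hz' h3 hd
    have h6 := w.h_le_K (k := i) (x := m z) (y := z) (by rw [dist_comm]; linarith)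
    have h7 := w.h_pos i (m z)
    have h8 : 0 ≤ w.ρ i z := w.η_pos.le.trans (w.le_ρ i z)
    have h9 : KH * (β (m z) z' - β (m z) z) ≤ w.ρ i z :=
      (mul_le_mul_of_nonneg_left (b3 _ _ _) hK.le).trans h5
    have h10 := mul_le_mul_of_nonneg_left h9 h7.le
    have h11 := mul_le_mul_of_nonneg_right h6 h8
    rw [w.h_succ]
    change F (m z') + KH * w.h i (m z') * β (m z') z' - (F (m z) + KH * w.h i (m z) * β (m z) z) ≤ _
    nlinarith
  · obtain ⟨c, hc, h1, h2⟩ := hup z
    exact ⟨c, hc, by linarith, h2⟩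
  · exact le_add_of_nonneg_right (mul_nonneg (mul_pos hK (w.h_pos _ _)).le (b0 _ _))

theorem cdtest_sub {i : ℕ} {F : S → ℝ} (hF : w.Adm i F) {a b u : S} (ha : a ∈ w.N i)
    (hb : b ∈ w.N i) (hab : dist a b < 12 * w.r i) (hu : dist b u ≤ 20 * w.r i) :
    F a - F b ≤ KH ^ 2 * w.h i u := by
  have h1 := mul_le_mul_of_nonneg_left (w.h_le_K hu) (zero_le_one.trans one_le_KH)
  have h2 := hF b hb a ha hab
  nlinarith

theorem cdtest_seq {k : ℕ} {F : S → ℝ} (hF : w.Adm k F) : ∃ G : ℕ → S → ℝ, G 0 = F ∧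
    (∀ n, w.Adm (k + n) (G n)) ∧ ∀ n z,
      (∃ c ∈ w.N (k + n), dist z c < 2 * w.r (k + n) ∧ G (n + 1) z ≤ G n c) ∧
        ∃ c ∈ w.N (k + n), dist z c < 2 * w.r (k + n) ∧ G n c ≤ G (n + 1) z := by
  choose st h1 h2 using fun (i : ℕ) (F : {F : S → ℝ // w.Adm i F}) => w.exists_step F.2
  let G : ∀ n : ℕ, {F : S → ℝ // w.Adm (k + n) F} := fun n =>
    Nat.rec (motive := fun n => {F : S → ℝ // w.Adm (k + n) F}) ⟨F, hF⟩
      (fun n X => ⟨st (k + n) X, h1 (k + n) X⟩) n
  exact ⟨fun n => (G n).1, rfl, fun n => (G n).2, fun n z => h2 (k + n) (G n) z⟩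

theorem cdtest_lim {k : ℕ} {F₀ : S → ℝ} (hF : w.Adm k F₀) : ∃ F : S → ℝ,
    (∀ a b, (∀ u, a ≤ F₀ u ∧ F₀ u ≤ b) → ∀ u, a ≤ F u ∧ F u ≤ b) ∧
    (∀ a u, (∀ c, dist c u < 5 * w.r k → F₀ c = a) → F u = a) ∧
    ∀ j, k ≤ j → ∀ u v, dist u v ≤ 10 * w.r j → |F u - F v| ≤ 5 * KH ^ 3 * w.h j u := by
  obtain ⟨G, g0, g1, g2⟩ := w.cdtest_seq hF
  choose c hc hcd using fun n u => w.cdtest_net (k + n) u
  have hK := one_le_KH
  have inc : ∀ n u, dist (G n (c n u)) (G (n + 1) (c (n + 1) u)) ≤ KH ^ 2 * w.h (k + n) u := by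
    intro n u
    obtain ⟨⟨a, ha, a1, a2⟩, b, hb, b1, b2⟩ := g2 n (c (n + 1) u)
    have h1 := w.r_succ (k + n)
    have h2 := w.r_pos (k + n + 1)
    have h3 : dist u (c (n + 1) u) < w.r (k + n + 1) := hcd (n + 1) u
    have h4 := hcd n u
    have h5 := dist_triangle_left a u (c (n + 1) u)
    have h6 := dist_triangle_left b u (c (n + 1) u)
    have h7 := dist_triangle a u (c n u)
    have h8 := dist_triangle b u (c n u)
    rw [dist_comm (c (n + 1) u) u] at h5 h6
    have h9 := w.cdtest_sub (g1 n) (u := u) ha (hc n u) (by linarith)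
      (by rw [dist_comm]; linarith)
    have h10 := w.cdtest_sub (g1 n) (u := u) (hc n u) hb (by rw [dist_comm]; linarith)
      (by linarith)
    rw [Real.dist_eq, abs_le]
    constructor <;> linarith
  have geo : ∀ n u m, dist (G (m + n) (c (m + n) u)) (G (m + 1 + n) (c (m + 1 + n) u)) ≤
      KH ^ 2 * w.h (k + n) u * (1 / 2) ^ m := by
    intro n u m
    have h1 := w.h_add_le (k + n) m u
    rw [show k + n + m = k + (m + n) by ring] at h1
    rw [show m + 1 + n = m + n + 1 by ring, mul_assoc, mul_comm (w.h (k + n) u)]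
    exact (inc (m + n) u).trans (mul_le_mul_of_nonneg_left h1 (by positivity))
  have hlim : ∀ u, ∃ l, Filter.Tendsto (fun n => G n (c n u)) Filter.atTop (nhds l) := fun u =>
    cauchySeq_tendsto_of_complete (cauchySeq_of_le_geometric (1 / 2) _ (by norm_num) (geo 0 u))
  choose F hl using hlim
  have tail : ∀ n u, |G n (c n u) - F u| ≤ 2 * (KH ^ 2 * w.h (k + n) u) := by
    intro n u
    have h1 := dist_le_of_le_geometric_of_tendsto₀ (f := fun m => G (m + n) (c (m + n) u))
      (1 / 2) _ (by norm_num) (geo n u) ((Filter.tendsto_add_atTop_iff_nat n).2 (hl u))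
    simp only [zero_add] at h1
    rw [← Real.dist_eq]
    refine h1.trans_eq ?_
    ring
  refine ⟨F, fun a b hab u => ?_, fun a u hu => ?_, fun j hj u v huv => ?_⟩
  · have h1 : ∀ n z, a ≤ G n z ∧ G n z ≤ b := by
      intro n
      induction n with
      | zero => rwa [g0]
      | succ n ih =>
        intro z
        obtain ⟨⟨x, -, -, hx⟩, y, -, -, hy⟩ := g2 n z
        exact ⟨(ih y).1.trans hy, hx.trans (ih x).2⟩
    exact ⟨ge_of_tendsto' (hl u) fun n => (h1 n _).1, le_of_tendsto' (hl u) fun n => (h1 n _).2⟩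
  · have h1 : ∀ n z, dist z u < w.r k + 4 * w.r (k + n) → G n z = a := by
      intro n
      induction n with
      | zero =>
        intro z hz
        rw [g0]
        exact hu z (by rw [add_zero] at hz; linarith)
      | succ n ih =>
        intro z hz
        obtain ⟨⟨x, -, x1, hx⟩, y, -, y1, hy⟩ := g2 n z
        have h2 := w.r_succ (k + n)
        have h3 := w.r_pos (k + n + 1)
        have h4 : dist z u < w.r k + 4 * w.r (k + n + 1) := hz
        have h5 := dist_triangle_left x u z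
        have h6 := dist_triangle_left y u z
        rw [ih x (by linarith)] at hx
        rw [ih y (by linarith)] at hy
        exact le_antisymm hx hy
    have h2 : (fun n => G n (c n u)) = fun _ => a := by
      funext n
      have h3 := hcd n u
      have h4 := w.r_pos k
      have h5 := w.r_pos (k + n)
      exact h1 n _ (by rw [dist_comm]; linarith)
    have h3 := hl u
    rw [h2] at h3
    exact tendsto_nhds_unique h3 tendsto_const_nhds
  · obtain ⟨n, rfl⟩ := Nat.exists_eq_add_of_le hj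
    have h1 := abs_le.1 (tail n u)
    have h2 := abs_le.1 (tail n v)
    have h3 := hcd n u
    have h4 := hcd n v
    have h5 := w.r_pos (k + n)
    have h6 := dist_triangle u v (c n v)
    have h7 := dist_triangle_left (c n u) (c n v) u
    have h8 := w.cdtest_sub (g1 n) (u := u) (hc n u) (hc n v) (by linarith)
      (by rw [dist_comm]; linarith)
    have h9 := w.cdtest_sub (g1 n) (u := u) (hc n v) (hc n u) (by rw [dist_comm]; linarith)
      (by rw [dist_comm]; linarith)
    have h10 := w.h_le_K (k := k + n) (x := v) (y := u) (by rw [dist_comm]; linarith)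
    have h11 := w.h_pos (k + n) u
    have h12 : KH ^ 2 * w.h (k + n) v ≤ KH ^ 3 * w.h (k + n) u := by
      rw [pow_succ KH 2, mul_assoc]
      exact mul_le_mul_of_nonneg_left h10 (by positivity)
    have h13 : KH ^ 2 * w.h (k + n) u ≤ KH ^ 3 * w.h (k + n) u :=
      mul_le_mul_of_nonneg_right (pow_le_pow_right₀ hK (by norm_num)) h11.le
    rw [abs_le]
    constructor <;> linarith [h1.1, h1.2, h2.1, h2.2]

theorem exists_test (k : ℕ) (x : S) : ∃ F : S → ℝ, (∀ u, 0 ≤ F u ∧ F u ≤ w.h k x) ∧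
    F x = w.h k x ∧ (∀ u, 10 * w.r k ≤ dist u x → F u = 0) ∧
    ∀ j, k ≤ j → ∀ u v, dist u v ≤ 10 * w.r j → |F u - F v| ≤ 5 * KH ^ 3 * w.h j u := by
  have hx := w.h_pos k x
  have hr := w.r_pos k
  have hF : w.Adm k fun c => if dist c x < 5 * w.r k then w.h k x else 0 := by
    intro c _ c' _ hd
    have h1 := mul_pos (one_pos.trans_le one_le_KH) (w.h_pos k c)
    have h2 := dist_triangle_left x c c'
    simp only
    split_ifs with h3 h4 h4
    · linarith
    · have := w.h_le_K (k := k) (x := x) (y := c) (by linarith)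
      linarith
    · linarith
    · linarith
  obtain ⟨F, h1, h2, h3⟩ := w.cdtest_lim hF
  refine ⟨F, h1 _ _ fun u => ?_, h2 _ _ fun c hc => if_pos hc, fun u hu => h2 _ _ fun c hc => ?_, h3⟩
  · split_ifs
    · exact ⟨hx.le, le_rfl⟩
    · exact ⟨le_rfl, hx.le⟩
  · have := dist_triangle_left u x c
    exact if_neg (by linarith)

end Wt

end

end Pool.Agent.Lib.MP_e1e491_gt
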