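import Pool.Agent.Lib.MP_e1e491_gt.Stmt

/-! Working definitions: the abstract hyperbolic group with boundary `HB`, the planar data `PD`,
both together `CS`; sides, links, decompositions, finite energy functions. -/

namespace KKC

open Set
open scoped Pointwise

/-- A hyperbolic group `G` with word length `len`, boundary `Z` and `q x y ≈ a ^ (-(x|y))`. -/
structure HB (G Z : Type) [Group G] [MetricSpace Z] [MulAction G Z] where
  a : ℝ
  C : ℝ
  len : G → ℕ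
  q : G ⊕ Z → G ⊕ Z → ℝ
  loc : G → Z
  ha : 1 < a
  hC : 1 ≤ C
  len_eq_zero : ∀ g, len g = 0 ↔ g = 1
  len_inv : ∀ g, len g⁻¹ = len g
  len_mul : ∀ g h, len (g * h) ≤ len g + len h
  fin : ∀ n, {g | len g ≤ n}.Finite
  par : ∀ g n, len g = n + 1 → ∃ h, len h = n ∧ len (h⁻¹ * g) = 1
  q_comm : ∀ x y, q x y = q y x
  q_nonneg : ∀ x y, 0 ≤ q x y
  q_le_one : ∀ x y, q x y ≤ 1
  q_GG : ∀ g h, q (.inl g) (.inl h) = a ^ (-(((len g : ℝ) + len h - len (g⁻¹ * h)) / 2))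
  ultra : ∀ x y z, q x z ≤ C * max (q x y) (q y z)
  q_le : ∀ ξ ζ, q (.inr ξ) (.inr ζ) ≤ C * dist ξ ζ
  le_q : ∀ ξ ζ, dist ξ ζ ≤ C * q (.inr ξ) (.inr ζ)
  mob_le : ∀ (g : G) (x y : G ⊕ Z), q (g • x) (g • y) * q x (.inl g⁻¹) * q y (.inl g⁻¹) ≤
    C * (a ^ (-(len g : ℝ)) * q x y)
  le_mob : ∀ (g : G) (x y : G ⊕ Z), a ^ (-(len g : ℝ)) * q x y ≤
    C * (q (g • x) (g • y) * q x (.inl g⁻¹) * q y (.inl g⁻¹))
  q_loc : ∀ g, q (.inr (loc g)) (.inl g) ≤ C * a ^ (-(len g : ℝ))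
  ray : ∀ ξ n, ∃ g, len g = n ∧ q (.inr ξ) (.inl g) ≤ C * a ^ (-(n : ℝ))

/-- The sup norm of the plane. -/
def sn (v : ℂ) : ℝ := max |v.re| |v.im|

/-- `Z` sits in the plane; the holes `D j` are open squares, `D o` is the outer hole; `P j` is the
boundary of `D j`. -/
structure PD (Z J : Type) [TopologicalSpace Z] where
  ι : Z → ℂ
  o : J
  c : J → ℂ
  r : J → ℝ
  D : J → Set ℂ
  P : J → Set Z
  ι_cont : Continuous ι
  ι_inj : Function.Injective ι
  r_pos : ∀ j, 0 < r j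
  D_in : ∀ j, j ≠ o → D j = {v | sn (v - c j) < r j}
  D_out : D o = {v | r o < sn (v - c o)}
  P_eq : ∀ j, ι '' P j = {v | sn (v - c j) = r j}
  D_disj : ∀ i j, i ≠ j → Disjoint (D i) (D j)
  P_disj : ∀ i j, i ≠ j → Disjoint (P i) (P j)
  not_mem : ∀ z j, ι z ∉ D j
  cover : ∀ v, v ∈ range ι ∨ ∃ j, v ∈ D j
  null : ∀ ε > 0, {j | ε ≤ r j}.Finite
  dense : ∀ U : Set Z, IsOpen U → U.Nonempty → ∃ j, P j ⊆ U
  lpc : LocallyPathConnectedSpace Z

/-- Group with carpet boundary; the group permutes the holes. -/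
structure CS (G Z J : Type) [Group G] [MetricSpace Z] [MulAction G Z] [MulAction G J] where
  H : HB G Z
  Q : PD Z J
  act_P : ∀ (g : G) (j : J), Q.P (g • j) = g • Q.P j

/-- `s` has two points at distance at least `δ`. -/
def Big {Z : Type} [MetricSpace Z] (δ : ℝ) (s : Set Z) : Prop := ∃ x ∈ s, ∃ y ∈ s, δ ≤ dist x y

namespace HB

variable {G Z : Type} [Group G] [MetricSpace Z] [MulAction G Z] (H : HB G Z)

/-- The scale `a ^ (-|g|)` of `g`. -/
noncomputable def sc (g : G) : ℝ := H.a ^ (-(H.len g : ℝ))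

/-- `g` is a view of the point `s` at scale `r`, with constant `L`. -/
def IsView (L : ℝ) (g : G) (s : Z) (r : ℝ) : Prop :=
  dist s (H.loc g) ≤ L * r ∧ H.sc g ≤ L * r ∧ r ≤ L * H.sc g

/-- `f` has finite energy on `A`. -/
def FinEn (A : Subgroup G) (f : G → ℝ) : Prop :=
  ∀ s ∈ A, Summable fun a : A => (f (a * s) - f a) ^ 2

/-- `f` on `A` has the boundary values `u` on `C`. -/
def Bdv (A : Subgroup G) (C : Set Z) (f : G → ℝ) (u : Z → ℝ) : Prop :=
  ∀ ε > 0, ∃ δ > 0, ∀ ξ ∈ C, ∀ a ∈ A, H.q (.inr ξ) (.inl a) < δ → |f a - u ξ| < ε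

/-- Boundary values of finite energy functions on `G`. -/
def A2 (u : Z → ℝ) : Prop := ∃ f : G → ℝ, FinEn ⊤ f ∧ H.Bdv ⊤ univ f u

/-- The points not separated by `A2`. -/
def Rel2 (ξ ζ : Z) : Prop := ∀ u, H.A2 u → u ξ = u ζ

/-- `A` is quasiconvex with limit set `C`. -/
def QC (A : Subgroup G) (C : Set Z) : Prop :=
  ∃ L : ℝ, 1 ≤ L ∧ (∀ a ∈ A, ∃ ξ ∈ C, dist ξ (H.loc a) ≤ L * H.sc a) ∧
    ∀ ξ ∈ C, ∀ r, 0 < r → r ≤ 1 → ∃ a ∈ A, H.IsView L a ξ r

/-- Parent property of the Rips graph of `A` with parameter `K`. -/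
def Par (A : Subgroup G) (K : ℕ) : Prop :=
  ∀ a ∈ A, a ≠ 1 → ∃ p ∈ A, H.len p < H.len a ∧ H.len (p⁻¹ * a) ≤ K ∧
    ∀ b ∈ A, H.len (a⁻¹ * b) ≤ K → H.len b ≤ H.len a → H.len (p⁻¹ * b) ≤ K

/-- Vanishing of the reduced first `l2` cohomology of `A`, for the edges of length at most `K`. -/
def Star (A : Subgroup G) (K : ℕ) : Prop :=
  ∀ f : G → ℝ, (∀ s ∈ A, H.len s ≤ K → Summable fun a : A => (f (a * s) - f a) ^ 2) →
    ∀ ε > 0, ∃ φ : G → ℝ, (Function.support φ).Finite ∧ ∀ s ∈ A, H.len s ≤ K →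
      ∑' a : A, ((f (a * s) - φ (a * s)) - (f a - φ a)) ^ 2 ≤ ε

end HB

/-- Up to the stabiliser of `C`, only finitely many views see `C` big. -/
def FS (G : Type) {Z : Type} [Group G] [MetricSpace Z] [MulAction G Z] (C : Set Z) : Prop :=
  ∀ δ > 0, ∃ Φ : Finset G, ∀ g : G, Big δ (g⁻¹ • C) → ∃ φ ∈ Φ, (g * φ⁻¹) • C = C

/-- A closed invariant equivalence relation with connected classes. -/
structure Dec (G Z : Type) [Group G] [TopologicalSpace Z] [MulAction G Z] where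
  R : Z → Z → Prop
  equiv : Equivalence R
  closed : IsClosed {p : Z × Z | R p.1 p.2}
  inv : ∀ (g : G) x y, R x y → R (g • x) (g • y)
  conn : ∀ x, IsPreconnected {y | R x y}

/-- The class of `x`. -/
def Dec.cls {G Z : Type} [Group G] [TopologicalSpace Z] [MulAction G Z] (R : Dec G Z) (x : Z) :
    Set Z := {y | R.R x y}

namespace PD

variable {Z J : Type} [TopologicalSpace Z] (Q : PD Z J)

open Classical in
/-- A base point in the hole `j`. -/
noncomputable def bp (j : J) : ℂ := if j = Q.o then Q.c j + 2 * (Q.r j : ℂ) else Q.c j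

/-- The point of the plane that stands for a point of `Z` or for a hole. -/
noncomputable def pt : Z ⊕ J → ℂ
  | .inl z => Q.ι z
  | .inr j => Q.bp j

/-- The side of `C` that contains `x` (empty if `x` is a point of `C`). -/
def side (C : Set Z) (x : Z ⊕ J) : Set ℂ := connectedComponentIn (Q.ι '' C)ᶜ (Q.pt x)

/-- `x` and `y` lie in the same side of `C`. -/
def Same (C : Set Z) (x y : Z ⊕ J) : Prop := Q.pt y ∈ Q.side C x

/-- Chains of paths in `U` and hops over a hole between two points of `U`. -/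
def Link (U : Set Z) : Z → Z → Prop :=
  Relation.ReflTransGen fun x y => JoinedIn U x y ∨ ∃ j, x ∈ Q.P j ∩ U ∧ y ∈ Q.P j ∩ U

end PD

end KKC
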