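import Pool.Agent.Lib.MP_e1e491_gt.FnTool

/-! Lines and separation. -/

namespace KFan

open Set Metric MeasureTheory KKC

set_option linter.unusedSectionVars false

variable {G Z : Type} [Group G] [MetricSpace Z] [CompactSpace Z] [MulAction G Z] {H : HB G Z}
  {NF : ℝ → Set Z → Prop} {z₀ : Z} {R E η M : ℝ} {N : ℕ}

theorem fnline_ne {A : Set ℝ} (h : A ⊆ Icc 0 1) : volume A ≠ ⊤ :=
  ((measure_mono h).trans_lt measure_Icc_lt_top).ne

theorem fnline_fin (F : FanH H NF z₀ R E η N) (V : Set Z) :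
    volume {t | t ∈ F.T ∧ (F.c t ∩ V).Nonempty} ≠ ⊤ :=
  fnline_ne fun _ ht => F.T_sub ht.1

theorem lines_nonneg (T : Set ℝ) (c : ℝ → Set Z) (V : Set Z) : 0 ≤ lines T c V := by
  exact measureReal_nonneg

theorem FanH.lines_mono (F : FanH H NF z₀ R E η N) {V V' : Set Z} (h : V ⊆ V') :
    lines F.T F.c V ≤ lines F.T F.c V' := by
  exact measureReal_mono (fun t ht => ⟨ht.1, ht.2.mono (inter_subset_inter_right _ h)⟩)
    (fnline_fin F V')

/-- If every line through `V` meets one of the sets `W i`. -/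
theorem FanH.lines_le_sum (F : FanH H NF z₀ R E η N) {ι : Type} (s : Finset ι) {V : Set Z}
    (W : ι → Set Z)
    (h : ∀ t ∈ F.T, (F.c t ∩ V).Nonempty → ∃ i ∈ s, (F.c t ∩ W i).Nonempty) :
    lines F.T F.c V ≤ ∑ i ∈ s, lines F.T F.c (W i) := by
  refine le_trans (measureReal_mono (s₂ := ⋃ i ∈ s, {t | t ∈ F.T ∧ (F.c t ∩ W i).Nonempty})
    (fun t ht => ?_) (fnline_ne fun t ht => ?_)) (measureReal_biUnion_finset_le _ _)
  · obtain ⟨i, hi, h'⟩ := h t ht.1 ht.2
    exact mem_biUnion hi ⟨ht.1, h'⟩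
  · obtain ⟨i, -, h'⟩ := mem_iUnion₂.1 ht
    exact F.T_sub h'.1

theorem FanH.le_lines (F : FanH H NF z₀ R E η N) {κ : Set Z} (hκ : IsPreconnected κ)
    (hR : κ ⊆ ball z₀ R) {x y : Z} (hx : x ∈ κ) (hy : y ∈ κ) :
    F.u y - F.u x - η ≤ lines F.T F.c κ := by
  have h1 : Ioo (F.u x) (F.u y) ⊆ {t | t ∈ F.T ∧ (F.c t ∩ κ).Nonempty} ∪ (Icc 0 1 \ F.T) := by
    intro t ht
    by_cases hT : t ∈ F.T
    · refine Or.inl ⟨hT, ?_⟩
      by_contra hn
      rcases F.sep t hT κ hκ hR (disjoint_left.2 fun w h1 h2 => hn ⟨w, h2, h1⟩) with h | h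
      · exact (h y hy).not_gt ht.2
      · exact (h x hx).not_gt ht.1
    · exact Or.inr ⟨⟨(F.u_mem x).1.trans ht.1.le, ht.2.le.trans (F.u_mem y).2⟩, hT⟩
  have h2 := (measureReal_mono (μ := volume) h1
    (fnline_ne (union_subset (fun t ht => F.T_sub ht.1) sdiff_subset))).trans
    (measureReal_union_le _ _)
  rw [Real.volume_real_Ioo] at h2
  have h3 := F.full
  have h4 := le_max_left (F.u y - F.u x) 0
  unfold lines
  linarith

theorem FanH.exists_pair (F : FanH H NF z₀ R E η N) {V : Set Z} (h : 0 < lines F.T F.c V) :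
    ∃ lo ∈ F.T, ∃ hi ∈ F.T, lo + lines F.T F.c V / 4 ≤ hi ∧ (F.c lo ∩ V).Nonempty ∧
      (F.c hi ∩ V).Nonempty := by
  obtain ⟨t0, h0⟩ : {t | t ∈ F.T ∧ (F.c t ∩ V).Nonempty}.Nonempty := by
    by_contra hn
    rw [lines, not_nonempty_iff_eq_empty.1 hn, measureReal_empty] at h
    exact lt_irrefl _ h
  by_contra hn
  have h1 : {t | t ∈ F.T ∧ (F.c t ∩ V).Nonempty} ⊆
      Icc (t0 - lines F.T F.c V / 4) (t0 + lines F.T F.c V / 4) := by
    intro t ht
    constructor
    · by_contra h2
      exact hn ⟨t, ht.1, t0, h0.1, by linarith [not_le.1 h2], ht.2, h0.2⟩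
    · by_contra h2
      exact hn ⟨t0, h0.1, t, ht.1, (not_le.1 h2).le, h0.2, ht.2⟩
  have h2 : lines F.T F.c V ≤ _ := measureReal_mono (μ := volume) h1 measure_Icc_lt_top.ne
  rw [Real.volume_real_Icc_of_le (by linarith)] at h2
  linarith

/-- A good level in a gap. -/
theorem FanH.pick (F : FanH H NF z₀ R E η N) {p q : ℝ} (hp : 0 ≤ p) (hq : q ≤ 1) {V : Set Z}
    (h : lines F.T F.c V + 13 * η < q - p) {X : Set ℝ} (hX : X ⊆ F.T)
    (hX' : volume.real X ≤ 2 * η) : ∃ t ∈ F.T, p + 2 * η ≤ t ∧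
      t + 2 * η ≤ q ∧ Disjoint (F.c t) V ∧ t ∉ X := by
  by_contra hn
  have hη := F.η_pos
  have h0 := lines_nonneg F.T F.c V
  have h1 : Icc (p + 2 * η) (q - 2 * η) ⊆
      ({t | t ∈ F.T ∧ (F.c t ∩ V).Nonempty} ∪ (Icc 0 1 \ F.T)) ∪ X := by
    intro t ht
    by_contra h2
    simp only [mem_union, not_or] at h2
    obtain ⟨⟨a1, a2⟩, a3⟩ := h2
    have hT : t ∈ F.T := by
      by_contra hT
      exact a2 ⟨⟨by linarith [ht.1], by linarith [ht.2]⟩, hT⟩
    exact hn ⟨t, hT, ht.1, by linarith [ht.2],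
      disjoint_left.2 fun w b1 b2 => a1 ⟨hT, w, b1, b2⟩, a3⟩
  have h2 := (measureReal_mono (μ := volume) h1 (measure_union_ne_top
    (fnline_ne (union_subset (fun t ht => F.T_sub ht.1) sdiff_subset))
    (fnline_ne (hX.trans F.T_sub)))).trans
    ((measureReal_union_le _ _).trans (add_le_add (measureReal_union_le _ _) le_rfl))
  rw [Real.volume_real_Icc_of_le (by linarith)] at h2
  have h3 := F.full
  unfold lines at h
  linarith

theorem Hull.preconnectedSpace (h : Hull Z M) : PreconnectedSpace Z := by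
  refine ⟨isPreconnected_of_forall_pair fun x _ y _ => ?_⟩
  obtain ⟨B, -, h1, h2, -⟩ := h.2 x (dist y x + 1) (by positivity)
  exact ⟨B, subset_univ _, h2 (mem_closedBall_self (by positivity)),
    h2 (mem_closedBall.2 (by linarith)), h1⟩

theorem Hull.locallyConnectedSpace (h : Hull Z M) : LocallyConnectedSpace Z := by
  refine locallyConnectedSpace_iff_connected_subsets.2 fun x U hU => ?_
  obtain ⟨ε, hε, h0⟩ := nhds_basis_closedBall.mem_iff.1 hU
  have hM : 0 < M := one_pos.trans_le h.1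
  obtain ⟨B, -, h1, h2, h3⟩ := h.2 x (ε / M) (by positivity)
  rw [mul_div_cancel₀ _ hM.ne'] at h3
  exact ⟨B, Filter.mem_of_superset (closedBall_mem_nhds x (by positivity)) h2, h1, h3.trans h0⟩

/-- The complement of a component of the complement of a continuum is connected. -/
theorem fnline_compl [PreconnectedSpace Z] [LocallyConnectedSpace Z] {P : Set Z} (hc : IsClosed P) (hP : IsConnected P) (x : Z) :
    IsPreconnected (connectedComponentIn Pᶜ x)ᶜ := by
  obtain ⟨p, hp⟩ := hP.nonempty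
  have hsub : P ⊆ (connectedComponentIn Pᶜ x)ᶜ := fun z hz h => connectedComponentIn_subset _ _ h hz
  refine isPreconnected_of_forall p fun y hy => ?_
  by_cases hyP : y ∈ P
  · exact ⟨P, hsub, hp, hyP, hP.isPreconnected⟩
  set O := connectedComponentIn Pᶜ y with hO
  have hOo : IsOpen O := hc.isOpen_compl.connectedComponentIn
  have hcl : closure O ⊆ P ∪ O := by
    intro z hz
    by_contra hn
    rw [mem_union, not_or] at hn
    obtain ⟨w, h1, h2⟩ := mem_closure_iff.mp hz _ (hc.isOpen_compl.connectedComponentIn (x := z))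
      (mem_connectedComponentIn hn.1)
    refine hn.2 ?_
    rw [hO, connectedComponentIn_eq h2, ← connectedComponentIn_eq h1]
    exact mem_connectedComponentIn hn.1
  have hne : (closure O ∩ P).Nonempty := by
    by_contra hn
    have h1 : IsClosed O := isClosed_of_closure_subset fun z hz =>
      (hcl hz).resolve_left fun h => hn ⟨z, hz, h⟩
    have h2 := (isClopen_iff.mp ⟨h1, hOo⟩).resolve_left
      (Nonempty.ne_empty ⟨y, mem_connectedComponentIn hyP⟩)
    exact connectedComponentIn_subset Pᶜ y (show p ∈ O from h2 ▸ mem_univ p) hp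
  obtain ⟨q, hq1, hq2⟩ := hne
  refine ⟨P ∪ closure O, union_subset hsub (hcl.trans (union_subset hsub fun z hz h => hy ?_)),
    Or.inl hp, Or.inr (subset_closure (mem_connectedComponentIn hyP)),
    hP.isPreconnected.union q hq2 hq1 isPreconnected_connectedComponentIn.closure⟩
  rw [connectedComponentIn_eq h, ← connectedComponentIn_eq hz]
  exact mem_connectedComponentIn hyP

/-- `P` separates `x` from `y`: no connected set off `P` contains both. -/
def Seps (P : Set Z) (x y : Z) : Prop :=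
  ∀ K : Set Z, IsPreconnected K → Disjoint K P → x ∈ K → y ∉ K

/-- Two disjoint continua do not both separate three points pairwise. -/
theorem Hull.not_seps (h : Hull Z M) {P P' : Set Z} (hc : IsClosed P) (hP : IsConnected P)
    (hP' : IsConnected P') (hd : Disjoint P P') {x y z : Z} (h1 : Seps P x y) (h2 : Seps P x z)
    (h3 : Seps P y z) (h1' : Seps P' x y) (h2' : Seps P' x z) (h3' : Seps P' y z) : False := by
  have := h.preconnectedSpace
  have := h.locallyConnectedSpace
  obtain ⟨p, hp⟩ := hP'.nonempty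
  set O := connectedComponentIn Pᶜ p with hO
  have hsub : P' ⊆ O := hP'.isPreconnected.subset_connectedComponentIn hp hd.subset_compl_left
  have hOc : IsPreconnected O := isPreconnected_connectedComponentIn
  have hOd : Disjoint O P := disjoint_left.mpr fun w hw => connectedComponentIn_subset _ _ hw
  have hK := fnline_compl hc hP p
  have hKd : Disjoint Oᶜ P' := disjoint_left.mpr fun w hw h => hw (hsub h)
  by_cases hx : x ∈ O
  · exact h3' _ hK hKd (h1 O hOc hOd hx) (h2 O hOc hOd hx)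
  by_cases hy : y ∈ O
  · exact h2' _ hK hKd hx (h3 O hOc hOd hy)
  · exact h1' _ hK hKd hx hy

end KFan
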