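import Pool.Agent.Lib.MP_e1e491_gt.FnWall

/-! Many walls. -/

namespace KFan

open Set Metric MeasureTheory KKC

set_option linter.unusedSectionVars false

variable {G Z : Type} [Group G] [MetricSpace Z] [CompactSpace Z] [MulAction G Z] {H : HB G Z}
  {NF : ℝ → Set Z → Prop} {z₀ : Z} {R E η M : ℝ} {N : ℕ}

theorem fnmany_gap (s t : Finset ℝ) (lo : ℝ)
    {D δ γ : ℝ} (hδ : 0 < δ) (h8 : 8 * δ ≤ D) (hs : 16 * (s.card * δ) < D) (hγ : 0 ≤ γ)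
    (ht : 4 * (t.card * γ) < δ) :
    ∃ a' b', lo + D / 4 ≤ a' ∧ a' + δ ≤ b' ∧ b' + D / 4 ≤ lo + D ∧
      (∀ x ∈ s, x + δ ≤ a' ∨ b' + δ ≤ x) ∧ ∀ y ∈ t, γ ≤ |a' - y| ∧ γ ≤ |b' - y| := by
  obtain ⟨t₀, h1, h2, h3⟩ := exists_avoid s id (fun _ => 2 * δ) (fun _ _ => by linarith)
    (lo + 3 * D / 8) (l := D / 4) (by rw [Finset.sum_const, nsmul_eq_mul]; linarith)
  have hl : 2 * ∑ _j ∈ t, γ < δ / 2 := by
    rw [Finset.sum_const, nsmul_eq_mul]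
    linarith
  obtain ⟨a', a1, a2, a3⟩ := exists_avoid t id (fun _ => γ) (fun _ _ => hγ) (t₀ - δ) hl
  obtain ⟨b', b1, b2, b3⟩ := exists_avoid t id (fun _ => γ) (fun _ _ => hγ) (t₀ + δ / 2) hl
  refine ⟨a', b', by linarith, by linarith, by linarith, fun x hx => ?_,
    fun y hy => ⟨(a3 y hy).le, (b3 y hy).le⟩⟩
  rcases lt_abs.1 (h3 x hx) with h | h <;> rw [id] at h
  · left
    linarith
  · right
    linarith

/-- The large faces near a point have boundedly many levels. -/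
theorem Faces.levels (hF : Faces NF) (H : HB G Z) (Λ : ℝ) (e : ℕ) : ∃ K : ℕ,
    ∀ (u : Z → ℝ) (η : ℝ) (z : Z) (n : ℕ), 0 ≤ η → 800 * η ≤ rr H (n + e) → ∃ S : Finset ℝ,
      S.card ≤ K ∧ ∀ x t, dist x z ≤ Λ * rr H n → Holey NF u η (rr H (n + e) / 8) x t →
        ∃ l ∈ S, |t - l| ≤ 2 * η := by
  classical
  obtain ⟨K, hK⟩ := hF.kn (8 * Λ / rr H e)
  refine ⟨K, fun u η z n h0 h1 => ?_⟩
  have he := rr_pos (H := H) e
  obtain ⟨Ga, g1, g2, g3⟩ := hK z (rr H (n + e) / 8) η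
    {al | (NF η al ∧ ∃ p ∈ al, ∃ q ∈ al, dist p z ≤ Λ * rr H n ∧ rr H (n + e) / 8 ≤ dist p q) ∧
      ∃ t, ∀ w ∈ al, |u w - t| ≤ η} (div_pos (rr_pos _) (by norm_num)) h0 (by linarith)
    (by
      rintro al ⟨⟨a1, p, a2, q, a3, a4, a5⟩, -⟩
      refine ⟨a1, p, a2, q, a3, a4.trans_eq ?_, a5⟩
      rw [rr_add]
      field_simp)
  have h2 : ∀ be, ∃ t, be ∈ Ga → ∀ w ∈ be, |u w - t| ≤ η := fun be => by
    by_cases h : be ∈ Ga
    · obtain ⟨t, ht⟩ := (g2 (Finset.mem_coe.2 h)).2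
      exact ⟨t, fun _ => ht⟩
    · exact ⟨0, fun h' => absurd h' h⟩
  choose φ hφ using h2
  refine ⟨Ga.image φ, Finset.card_image_le.trans g1, ?_⟩
  rintro x t hx ⟨al, a1, a2, ⟨q, a3, a4⟩, a5⟩
  obtain ⟨be, hb, w, b1, b2⟩ := g3 al ⟨⟨a1, x, a2, q, a3, hx, a4⟩, t, a5⟩
  obtain ⟨c1, c2⟩ := abs_le.1 (a5 w b1)
  obtain ⟨c3, c4⟩ := abs_le.1 (hφ be hb w b2)
  exact ⟨φ be, Finset.mem_image_of_mem _ hb, abs_le.2 ⟨by linarith, by linarith⟩⟩

/-- Radii that avoid the good views. -/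
theorem fnmany_radii (V : Vw H) (u : Z → ℝ) {Λ γ σ : ℝ} {B : ℕ} (z : Z) (n m L k : ℕ) (p : ℝ)
    (hm : (V.W + 1) * B * (H.a / (H.a - 1)) * rr H m ≤ 1 / 8) (hσ : 0 ≤ σ)
    (hk : 2 * k * σ ≤ rr H n / 2) (hF : ∀ s ≤ L, Few V NF u η Λ γ B z n s) :
    ∃ A : Finset ℝ, A.card = k ∧ (∀ τ ∈ A, p ≤ τ ∧ τ ≤ p + rr H n ∧
      ∀ g, n + m ≤ H.len g → H.len g ≤ n + L → dist z (H.loc g) ≤ Λ * rr H n →
        GoodH V NF u η γ g → (V.W + 1) * H.sc g < |τ - dist z (H.loc g)|) ∧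
      ∀ τ ∈ A, ∀ τ' ∈ A, τ ≠ τ' → σ < |τ - τ'| := by
  have hF' : ∀ s, ∃ S : Finset G, S.card ≤ B ∧ (s ≤ L → ∀ g, H.len g = n + s →
      dist z (H.loc g) ≤ Λ * rr H n → GoodH V NF u η γ g → g ∈ S) := by
    intro s
    by_cases h : s ≤ L
    · obtain ⟨S, h1, h2⟩ := hF s h
      exact ⟨S, h1, fun _ => h2⟩
    · exact ⟨∅, by simp, fun h' => absurd h' h⟩
  choose S hS hS' using hF'
  have hW : 0 ≤ V.W + 1 := by linarith [V.one_le]
  have hr := rr_pos (H := H) n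
  have hsum : ∑ i ∈ (Finset.Icc m L).sigma S, (V.W + 1) * rr H (n + i.1) ≤ rr H n / 8 := by
    rw [Finset.sum_sigma]
    have h1 : ∀ s ∈ Finset.Icc m L, ∑ _g ∈ S s, (V.W + 1) * rr H (n + s) ≤
        (V.W + 1) * B * rr H n * rr H s := by
      intro s _
      rw [Finset.sum_const, nsmul_eq_mul, rr_add]
      have h2 : ((S s).card : ℝ) ≤ B := by exact_mod_cast hS s
      have h3 : 0 ≤ (V.W + 1) * (rr H n * rr H s) :=
        mul_nonneg hW (mul_nonneg hr.le (rr_pos s).le)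
      have h4 := mul_le_mul_of_nonneg_right h2 h3
      linarith
    refine (Finset.sum_le_sum h1).trans ?_
    rw [← Finset.mul_sum]
    have h5 := mul_le_mul_of_nonneg_left (sum_rr (H := H) m L)
      (mul_nonneg (mul_nonneg hW (Nat.cast_nonneg (α := ℝ) B)) hr.le)
    have h6 := mul_le_mul_of_nonneg_left hm hr.le
    linarith
  obtain ⟨A, hA, h1, h2⟩ := exists_spaced ((Finset.Icc m L).sigma S)
    (fun i => dist z (H.loc i.2)) (fun i => (V.W + 1) * rr H (n + i.1))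
    (fun i _ => mul_nonneg hW (rr_pos _).le) p (l := rr H n) hσ k (by linarith)
  refine ⟨A, hA, fun τ hτ => ⟨(h1 τ hτ).1, (h1 τ hτ).2.1, fun g g1 g2 g3 hg => ?_⟩, h2⟩
  have e : H.len g = n + (H.len g - n) := by omega
  have e1 : m ≤ H.len g - n := by omega
  have e2 : H.len g - n ≤ L := by omega
  have h3 := (h1 τ hτ).2.2 ⟨H.len g - n, g⟩ (Finset.mem_sigma.2
    ⟨Finset.mem_Icc.2 ⟨e1, e2⟩, hS' _ e2 g e g3 hg⟩)
  rw [sc_eq, e]
  exact h3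

/-- Cells on spaced shells. -/
theorem fnmany_sub (H : HB G Z) {Λ₁ η ρ : ℝ} (z : Z) {n s L : ℕ} (hs : s ≤ L) (A : Finset ℝ)
    (Q : Z → Prop) (hΛ : 0 ≤ Λ₁) (hη : η ≤ rr H (n + s))
    (hρ : ρ + η + Λ₁ * rr H (n + s) ≤ Λ₁ * rr H n)
    (h1 : ∀ τ ∈ A, τ ≤ ρ ∧ ∃ p, τ ≤ dist p z ∧ dist p z ≤ τ + η ∧ Q p)
    (h2 : ∀ τ ∈ A, ∀ τ' ∈ A, τ ≠ τ' → (2 * Λ₁ + 1) * rr H (n + s) < |τ - τ'|) :
    ∃ I, Sub H Λ₁ L z n I ∧ (∀ i ∈ I, Q i.1 ∧ i.2 = n + s) ∧ I.card = A.card := by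
  classical
  have h3 : ∀ τ, ∃ p, τ ∈ A → τ ≤ dist p z ∧ dist p z ≤ τ + η ∧ Q p := by
    intro τ
    by_cases h : τ ∈ A
    · obtain ⟨p, hp⟩ := (h1 τ h).2
      exact ⟨p, fun _ => hp⟩
    · exact ⟨z, fun h' => absurd h' h⟩
  choose p hp using h3
  have h4 : ∀ τ ∈ A, ∀ τ' ∈ A, τ ≠ τ' → 2 * Λ₁ * rr H (n + s) < dist (p τ) (p τ') := by
    intro τ hτ τ' hτ' hne
    obtain ⟨a1, a2, -⟩ := hp τ hτ
    obtain ⟨b1, b2, -⟩ := hp τ' hτ'
    have c1 := dist_triangle (p τ) (p τ') z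
    have c2 := dist_triangle_left (p τ') z (p τ)
    rcases lt_abs.1 (h2 τ hτ τ' hτ' hne) with h | h <;> linarith
  refine ⟨A.image fun τ => (p τ, n + s), ⟨fun i hi => ?_, fun i hi j hj hne => ?_⟩,
    fun i hi => ?_, Finset.card_image_of_injOn fun τ hτ τ' hτ' e => ?_⟩
  · obtain ⟨τ, hτ, rfl⟩ := Finset.mem_image.1 hi
    refine ⟨Nat.le_add_right _ _, Nat.add_le_add_left hs _, ?_⟩
    have a1 := (hp τ hτ).2.1
    have a2 := (h1 τ hτ).1
    show dist (p τ) z + Λ₁ * rr H (n + s) ≤ _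
    linarith
  · obtain ⟨τ, hτ, rfl⟩ := Finset.mem_image.1 hi
    obtain ⟨τ', hτ', rfl⟩ := Finset.mem_image.1 hj
    have a1 := h4 τ hτ τ' hτ' fun e => hne (by rw [e])
    show Λ₁ * rr H (n + s) + Λ₁ * rr H (n + s) ≤ dist (p τ) (p τ')
    linarith
  · obtain ⟨τ, hτ, rfl⟩ := Finset.mem_image.1 hi
    exact ⟨(hp τ hτ).2.2, rfl⟩
  · by_contra hne
    have a1 := h4 τ hτ τ' hτ' hne
    have e' : p τ = p τ' := congrArg Prod.fst e
    rw [e', dist_self] at a1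
    have a2 := mul_nonneg hΛ (rr_pos (H := H) (n + s)).le
    linarith

theorem fnmany_frac {n N : ℕ} (h : n ≤ N) {x : ℝ} (hx : 0 < x) :
    8 * (n * (x / (8 * ((N : ℝ) + 1)))) < x := by
  have h1 : (n : ℝ) ≤ N := by exact_mod_cast h
  have h2 : (0 : ℝ) < 8 * ((N : ℝ) + 1) := by positivity
  have h3 : 0 < x / (8 * ((N : ℝ) + 1)) := div_pos hx h2
  have h4 : x / (8 * ((N : ℝ) + 1)) * (8 * ((N : ℝ) + 1)) = x := div_mul_cancel₀ _ h2.ne'
  have h5 := mul_le_mul_of_nonneg_right h1 h3.le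
  linarith

/-- No pinch and few good views. -/
theorem many_cells (V : Vw H) (hM : Hull Z M) (hN : Faces NF) {Λ Λ₁ : ℝ} (hΛ : M + V.W + 5 ≤ Λ)
    (h1 : 2 * Λ ≤ Λ₁) (B : ℕ) : ∃ m₀ : ℕ, ∀ m, m₀ ≤ m → ∃ (c θ : ℝ) (L : ℕ), 0 < c ∧ 0 < θ ∧
      ∀ (R E η : ℝ) (N : ℕ) (z₀ : Z) (F : FanH H NF z₀ R E η N) (z : Z) (n : ℕ),
        η ≤ rr H (n + L) → η ≤ θ * F.ph z n → 6 * η ≤ c * F.ph z n →
        dist z z₀ + Λ₁ * rr H n ≤ R →
        (∀ x, dist x z ≤ Λ * rr H n → F.ph x (n + m) < F.ph z n / 32) →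
        (∀ s ≤ L, Few V NF F.u η Λ (c * F.ph z n) B z n s) →
          ∃ I, Sub H Λ₁ L z n I ∧ (∀ i ∈ I, θ * F.ph z n ≤ F.ph i.1 i.2) ∧
            2 ≤ I.card * θ ^ 2 := by
  classical
  have hM1 := hM.1
  have hW := V.one_le
  have hΛ0 : 0 < Λ := by linarith
  have hΛ1 : 0 < Λ₁ := by linarith
  have small : ∀ K : ℝ, 0 ≤ K → ∀ ε : ℝ, 0 < ε → ∃ n₀ : ℕ, ∀ n, n₀ ≤ n → K * rr H n ≤ ε := by
    intro K hK ε hε
    obtain ⟨n₀, h⟩ := exists_rr_le H (div_pos hε (show 0 < K + 1 by linarith))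
    refine ⟨n₀, fun n hn => ?_⟩
    have a1 := (le_div_iff₀ (show 0 < K + 1 by linarith)).1 (h n hn)
    have a2 := rr_pos (H := H) n
    linarith
  obtain ⟨b, hb⟩ := small (M * (V.W + 1)) (mul_nonneg (by linarith) (by linarith)) (1 / 2)
    (by norm_num)
  have hb' : M * (V.W + 1) * rr H b < 1 := by linarith [hb b le_rfl]
  obtain ⟨e₀, he₀⟩ := small 800 (by norm_num) 1 one_pos
  obtain ⟨m₀, hm₀⟩ := small ((V.W + 1) * B * (H.a / (H.a - 1)))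
    (mul_nonneg (mul_nonneg (by linarith) (Nat.cast_nonneg _))
      (div_nonneg (by linarith [H.ha]) (by linarith [H.ha]))) (1 / 8) (by norm_num)
  refine ⟨m₀, fun m hm => ?_⟩
  obtain ⟨N₂, hN₂⟩ := card_region H Λ (m + b)
  obtain ⟨K₂, hK₂⟩ := hN.levels H Λ (m + b)
  obtain ⟨δ₀, hδ₀⟩ : ∃ δ₀ : ℝ, δ₀ = 1 / (8 * (((N₂ + K₂ : ℕ) : ℝ) + 1)) := ⟨_, rfl⟩
  have d0 : 0 < δ₀ := by rw [hδ₀]; positivity
  have d1 : 8 * δ₀ ≤ 1 := by
    have a1 : (0 : ℝ) ≤ (N₂ + K₂ : ℕ) := Nat.cast_nonneg _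
    rw [hδ₀, mul_one_div, div_le_one (by positivity)]
    linarith
  obtain ⟨k, hk⟩ := exists_nat_ge (2 / (δ₀ / 32) ^ 2)
  rw [div_le_iff₀ (by positivity)] at hk
  obtain ⟨s₁, hs₁⟩ := small (2 * k * (2 * Λ₁ + 1)) (by positivity) (1 / 2) (by norm_num)
  obtain ⟨s₂, hs₂⟩ := exists_rr_le H (show (0 : ℝ) < 1 / 2 by norm_num)
  obtain ⟨s, hms, e1, e2⟩ : ∃ s, m ≤ s ∧ 2 * k * (2 * Λ₁ + 1) * rr H s ≤ 1 / 2 ∧
      rr H s ≤ 1 / 2 := ⟨m + s₁ + s₂, by omega, hs₁ _ (by omega), hs₂ _ (by omega)⟩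
  obtain ⟨N₄, hN₄⟩ := card_region H Λ (s + b)
  obtain ⟨K₄, hK₄⟩ := hN.levels H Λ (s + b)
  obtain ⟨c, hc⟩ : ∃ c : ℝ, c = δ₀ / 4 / (8 * (((N₄ * V.J.card + K₄ : ℕ) : ℝ) + 1)) := ⟨_, rfl⟩
  have c0 : 0 < c := by rw [hc]; positivity
  refine ⟨c, δ₀ / 32, s + b + e₀, c0, by positivity,
    fun R E η N z₀ F z n hη hθ hθ' hR hp hF => ?_⟩
  have η0 := F.η_pos
  have hr := rr_pos (H := H) n
  have hrs := rr_pos (H := H) s
  obtain ⟨f, hf⟩ : ∃ f, f = F.ph z n := ⟨_, rfl⟩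
  rw [← hf] at hθ hθ' hp hF ⊢
  have f0 : 0 < f := (mul_pos_iff_of_pos_left (by positivity)).1 (η0.trans_le hθ)
  have hf' : lines F.T F.c (ball z (rr H n)) = f := hf.symm
  obtain ⟨lo, hlo, hi, hhi, hlh, l1, l2⟩ := F.exists_pair (V := ball z (rr H n)) (hf' ▸ f0)
  rw [hf'] at hlh
  obtain ⟨κ, -, κ1, κ2, κ3⟩ := hM.2 z (rr H n) hr
  have η3 : 800 * η ≤ rr H (n + (s + b)) := by
    rw [← add_assoc, rr_add] at hη
    have a1 := mul_le_mul_of_nonneg_left (he₀ e₀ le_rfl) (rr_pos (H := H) (n + (s + b))).le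
    linarith
  obtain ⟨S₂, c2, m2⟩ := hN₂ z n
  obtain ⟨S₄, c4, m4⟩ := hN₄ z n
  obtain ⟨L₂, c3, m3⟩ := hK₂ F.u η z n η0.le (η3.trans (rr_anti (by omega)))
  obtain ⟨L₄, c5, m5⟩ := hK₄ F.u η z n η0.le η3
  have g1 : δ₀ * f ≤ f / 8 := by
    have a1 := mul_le_mul_of_nonneg_right d1 f0.le
    linarith
  have g0 : 0 < δ₀ * f := mul_pos d0 f0
  have g2 : 0 < c * f := mul_pos c0 f0
  obtain ⟨a', b', ha, hab, hb2, htop, hγ⟩ := fnmany_gap (S₂.image (fun g => F.u (V.wit g)) ∪ L₂)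
    ((S₄ ×ˢ V.J).image (fun i => F.u (i.1 • i.2)) ∪ L₄) lo (D := f / 4) (δ := δ₀ * f / 8)
    (γ := c * f) (by linarith) (by linarith)
    (by
      have a1 := fnmany_frac (n := (S₂.image (fun g => F.u (V.wit g)) ∪ L₂).card) (N := N₂ + K₂)
        ((Finset.card_union_le _ _).trans (add_le_add (Finset.card_image_le.trans c2) c3)) one_pos
      rw [← hδ₀] at a1
      have a2 := mul_lt_mul_of_pos_right a1 f0
      linarith) g2.le
    (by
      have a1 := fnmany_frac (n := ((S₄ ×ˢ V.J).image (fun i => F.u (i.1 • i.2)) ∪ L₄).card)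
        (N := N₄ * V.J.card + K₄) (x := δ₀ / 4) ((Finset.card_union_le _ _).trans
          (add_le_add (Finset.card_image_le.trans (by
            rw [Finset.card_product]
            exact Nat.mul_le_mul_right _ c4)) c5)) (by positivity)
      rw [← hc] at a1
      have a2 := mul_lt_mul_of_pos_right a1 f0
      linarith)
  have η1 : η ≤ rr H (n + s) := hη.trans (rr_anti (by omega))
  have η2 : η ≤ rr H n := hη.trans (rr_anti (by omega))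
  have hΛr := mul_le_mul_of_nonneg_right hΛ hr.le
  have hΛr1 := mul_le_mul_of_nonneg_right h1 hr.le
  have hWr := mul_le_mul_of_nonneg_right hW hr.le
  have hΛr0 := mul_pos hΛ0 hr
  obtain ⟨A, hA, A1, A2⟩ := fnmany_radii V F.u z n m (s + b) k ((M + 2) * rr H n) (hm₀ m hm)
    (σ := (2 * Λ₁ + 1) * rr H (n + s)) (mul_nonneg (by linarith) (rr_pos _).le)
    (by
      rw [rr_add]
      have a1 := mul_le_mul_of_nonneg_left e1 hr.le
      linarith) fun s' hs' => hF s' (by omega)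
  obtain ⟨I, I1, I2, I3⟩ := fnmany_sub H (Λ₁ := Λ₁) (η := η) (ρ := (M + 3) * rr H n) z
    (show s ≤ s + b + e₀ by omega) A (fun p => δ₀ / 32 * f ≤ F.ph p (n + s)) hΛ1.le η1
    (by
      rw [rr_add]
      have a1 := mul_le_mul_of_nonneg_left e2 (mul_pos hΛ1 hr).le
      linarith)
    (fun τ hτ => by
      obtain ⟨t1, t2, t3⟩ := A1 τ hτ
      refine ⟨by linarith, ?_⟩
      rcases F.one_wall V hM hms hb' (z := z) (n := n) (Λ := Λ) (τ := τ) (D := f / 4) (a' := a')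
        (b' := b') (γ := c * f) (κ := κ) (hη.trans (rr_anti (by omega))) (by linarith) hlo hhi ha
        (by linarith) (by linarith) κ1
        (l1.mono (inter_subset_inter_right _ (ball_subset_closedBall.trans κ2)))
        (l2.mono (inter_subset_inter_right _ (ball_subset_closedBall.trans κ2)))
        (κ3.trans (closedBall_subset_ball (by linarith))) (by linarith) (by linarith)
        (fun x hx => by have := hp x hx; linarith)
        (fun g hg hd => (htop _ (Finset.mem_union_left _ (Finset.mem_image_of_mem _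
          (m2 g (by omega) (by omega) hd)))).imp (fun h => by linarith) fun h => by linarith)
        (fun x t hx ht => by
          obtain ⟨l, a1, a2⟩ := m3 x t hx (by rwa [← add_assoc])
          obtain ⟨a3, a4⟩ := abs_le.1 a2
          exact (htop l (Finset.mem_union_right _ a1)).imp (fun h => by linarith)
            fun h => by linarith) g2
        (fun g hg hg' hd j hj => by
          obtain ⟨a1, a2⟩ := hγ _ (Finset.mem_union_left _ (Finset.mem_image_of_mem _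
            (a := (g, j)) (Finset.mem_product.2 ⟨m4 g hg (by omega) hd, hj⟩)))
          constructor <;> linarith)
        (fun x t hx ht => by
          obtain ⟨l, a1, a2⟩ := m5 x t hx (by rwa [← add_assoc])
          obtain ⟨a3, a4⟩ := hγ l (Finset.mem_union_right _ a1)
          constructor <;> linarith [abs_sub_le a' t l, abs_sub_le b' t l]) with h | h
      · obtain ⟨p, p1, p2, p3⟩ := h
        exact ⟨p, p1, p2, by linarith⟩
      · obtain ⟨g, q1, q2, q3, q4, hg⟩ := h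
        exact absurd (t3 g q1 (by omega) q3 hg) (not_lt.2 q4)) A2
  refine ⟨I, I1, fun i hi => ?_, by rw [I3, hA]; exact hk⟩
  rw [(I2 i hi).2]
  exact (I2 i hi).1

end KFan
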