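import Pool.Agent.Lib.MP_e1e491_gt.FnLine
import Pool.Agent.Lib.MP_e1e491_gt.FnCount

/-! The pinch case. -/

namespace KFan

open Set Metric MeasureTheory KKC

set_option linter.unusedSectionVars false

variable {G Z : Type} [Group G] [MetricSpace Z] [CompactSpace Z] [MulAction G Z] {H : HB G Z}
  {NF : ℝ → Set Z → Prop} {z₀ : Z} {R E η M : ℝ} {N : ℕ}

theorem fnpinch_pick (F : FanH H NF z₀ R E η N) {S : Finset Z} {P : ℕ} (hP : 1 ≤ P)
    (hS : S.card ≤ P) {V : Set Z} {r ψ : ℝ} (hψ : 0 < ψ) (hV : ψ ≤ lines F.T F.c V)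
    (h : ∀ t ∈ F.T, (F.c t ∩ V).Nonempty → ∃ w ∈ S, (F.c t ∩ ball w r).Nonempty) :
    ∃ w ∈ S, ψ / P ≤ lines F.T F.c (ball w r) := by
  have h1 := hV.trans (F.lines_le_sum S (fun w => ball w r) h)
  have hP0 : (0 : ℝ) < P := by exact_mod_cast hP
  by_contra h2
  push Not at h2
  rcases S.eq_empty_or_nonempty with rfl | hne
  · rw [Finset.sum_empty] at h1
    exact absurd h1 (not_le.2 hψ)
  · have h3 := Finset.sum_lt_sum_of_nonempty hne h2
    rw [Finset.sum_const, nsmul_eq_mul] at h3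
    have h4 : (S.card : ℝ) * (ψ / P) ≤ P * (ψ / P) :=
      mul_le_mul_of_nonneg_right (by exact_mod_cast hS) (div_pos hψ hP0).le
    have h5 : (P : ℝ) * (ψ / P) = ψ := by field_simp
    linarith

theorem fnpinch_cross (F : FanH H NF z₀ R E η N) {x : Z} {ρ τ : ℝ} (hρ : ρ ≤ τ)
    (hR : dist x z₀ + τ ≤ R) {t : ℝ} (ht : t ∈ F.T) (h : (F.c t ∩ ball x ρ).Nonempty) :
    ∃ y ∈ F.c t, dist y x = τ := by
  obtain ⟨y, hy, hyx⟩ := h
  obtain ⟨y', hy', hR'⟩ := F.leave t ht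
  have h1 : dist y x ≤ τ := (mem_ball.1 hyx).le.trans hρ
  have h2 : τ ≤ dist y' x := by
    have := dist_triangle y' x z₀
    linarith
  obtain ⟨w, hw, hw'⟩ := (F.conn t ht).intermediate_value hy hy'
    (f := fun w => dist w x) (continuous_id.dist continuous_const).continuousOn ⟨h1, h2⟩
  exact ⟨w, hw, hw'⟩

/-- Many lines through a small cell cross many shells. -/
theorem pinch (H : HB G Z) {Λ₀ Λ₁ : ℝ} (h0 : 0 ≤ Λ₀) (h1 : Λ₀ + 2 ≤ Λ₁) : ∃ (P s₁ : ℕ), 1 ≤ P ∧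
    ∀ (R E η : ℝ) (N : ℕ) (z₀ : Z) (F : FanH H NF z₀ R E η N) (z x : Z) (n l : ℕ) (ψ : ℝ),
      dist z z₀ + Λ₁ * rr H n ≤ R → dist x z ≤ Λ₀ * rr H n → 0 < ψ → ψ ≤ F.ph x (n + l) →
        ∃ I, Sub H Λ₁ (l + s₁) z n I ∧ I.card = l ∧ ∀ i ∈ I, ψ / P ≤ F.ph i.1 i.2 := by
  classical
  have ha := H.ha
  have ha0 : 0 < H.a := one_pos.trans ha
  have hΛ : 0 < Λ₁ := by linarith
  have hκ0 : 0 < 1 - H.a⁻¹ := sub_pos.2 (inv_lt_one_of_one_lt₀ ha)
  have hκ1 : 1 - H.a⁻¹ ≤ 1 := sub_le_self _ (inv_pos.2 ha0).le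
  obtain ⟨s₁, hs₁⟩ := exists_rr_le H (ε := (1 - H.a⁻¹) / 2 / Λ₁) (by positivity)
  have hs : Λ₁ * rr H s₁ ≤ (1 - H.a⁻¹) / 2 := by
    have h2 := hs₁ s₁ le_rfl
    rwa [le_div_iff₀' hΛ] at h2
  obtain ⟨P, hP, hc⟩ := exists_cover H (rr H s₁)⁻¹
  refine ⟨P, s₁, hP, fun R E η N z₀ F z x n l ψ hz hx hψ hph => ?_⟩
  have hr := rr_pos (H := H) n
  have hxz : dist x z₀ + rr H n ≤ R := by
    have h2 := dist_triangle x z z₀
    have h3 : (Λ₀ + 2) * rr H n ≤ Λ₁ * rr H n := mul_le_mul_of_nonneg_right h1 hr.le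
    linarith
  have key : ∀ i : ℕ, ∃ w : Z, i < l → dist w x = rr H (n + i) ∧
      ψ / P ≤ F.ph w (n + i + s₁) := by
    intro i
    by_cases hi : i < l
    swap
    · exact ⟨x, fun h => absurd h hi⟩
    have h2 : (rr H s₁)⁻¹ * rr H (n + i + s₁) = rr H (n + i) := by
      have := (rr_pos (H := H) s₁).ne'
      rw [rr_add (n + i) s₁]
      field_simp
    obtain ⟨S, hS, hSA, hcov⟩ := hc x (rr H (n + i + s₁)) (sphere x (rr H (n + i))) (rr_pos _)
      (h2 ▸ sphere_subset_closedBall)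
    obtain ⟨w, hw, hw'⟩ := fnpinch_pick F hP hS (r := rr H (n + i + s₁)) hψ hph fun t ht h => by
      have h3 : rr H (n + i) ≤ rr H n := rr_anti (Nat.le_add_right n i)
      obtain ⟨y, hy, hy'⟩ := fnpinch_cross F (rr_anti (H := H) (n := n + i) (by omega))
        (by linarith) ht h
      obtain ⟨w, hw, hw'⟩ := hcov y hy'
      exact ⟨w, hw, y, hy, hw'⟩
    exact ⟨w, fun _ => ⟨hSA w hw, hw'⟩⟩
  choose w hw using key
  have hsm : ∀ i : ℕ, Λ₁ * rr H (n + i + s₁) ≤ (1 - H.a⁻¹) / 2 * rr H (n + i) := fun i => by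
    rw [rr_add (n + i) s₁, mul_comm (rr H (n + i)), ← mul_assoc]
    exact mul_le_mul_of_nonneg_right hs (rr_pos _).le
  have hlt : ∀ i j : ℕ, i < j → j < l →
      Λ₁ * rr H (n + i + s₁) + Λ₁ * rr H (n + j + s₁) ≤ dist (w i) (w j) := by
    intro i j hij hj
    have h2 := (hw i (hij.trans hj)).1
    have h3 := (hw j hj).1
    have h4 := dist_triangle (w i) (w j) x
    have h5 : rr H (n + j) ≤ rr H (n + i + 1) := rr_anti (by omega)
    have h6 : rr H (n + i + 1) = H.a⁻¹ * rr H (n + i) := by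
      rw [← rr_succ (n + i), ← mul_assoc, inv_mul_cancel₀ ha0.ne', one_mul]
    have h7 : Λ₁ * rr H (n + j + s₁) ≤ Λ₁ * rr H (n + i + s₁) :=
      mul_le_mul_of_nonneg_left (rr_anti (by omega)) hΛ.le
    have h8 := hsm i
    linarith
  refine ⟨(Finset.range l).image fun i => (w i, n + i + s₁), ⟨?_, ?_⟩, ?_, ?_⟩
  · intro q hq
    obtain ⟨i, hi, rfl⟩ := Finset.mem_image.1 hq
    have hi' := Finset.mem_range.1 hi
    refine ⟨by dsimp only; omega, by dsimp only; omega, ?_⟩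
    have h2 := (hw i hi').1
    have h3 := dist_triangle (w i) x z
    have h4 : rr H (n + i) ≤ rr H n := rr_anti (Nat.le_add_right n i)
    have h5 := hsm i
    have h6 : (1 - H.a⁻¹) / 2 * rr H (n + i) ≤ 1 * rr H n :=
      mul_le_mul (by linarith) h4 (rr_pos _).le zero_le_one
    have h7 : (Λ₀ + 2) * rr H n ≤ Λ₁ * rr H n := mul_le_mul_of_nonneg_right h1 hr.le
    dsimp only
    linarith
  · intro q hq q' hq' hne
    obtain ⟨i, hi, rfl⟩ := Finset.mem_image.1 hq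
    obtain ⟨j, hj, rfl⟩ := Finset.mem_image.1 hq'
    dsimp only
    rcases lt_trichotomy i j with hij | rfl | hij
    · exact hlt i j hij (Finset.mem_range.1 hj)
    · exact absurd rfl hne
    · rw [add_comm, dist_comm]
      exact hlt j i hij (Finset.mem_range.1 hi)
  · rw [Finset.card_image_of_injective _ fun i j h => ?_, Finset.card_range]
    have h2 := congrArg Prod.snd h
    dsimp only at h2
    omega
  · intro q hq
    obtain ⟨i, hi, rfl⟩ := Finset.mem_image.1 hq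
    exact (hw i (Finset.mem_range.1 hi)).2

/-- Two points near `p` with different levels. -/
theorem FanH.le_ph (F : FanH H NF z₀ R E η N) (hM : Hull Z M) {p x y : Z} {ρ : ℝ} {n : ℕ} (hρ : 0 < ρ)
    (hx : dist p x ≤ ρ) (hy : dist p y ≤ ρ) (h : M * ρ < rr H n)
    (hR : dist p z₀ + rr H n ≤ R) : F.u y - F.u x - η ≤ F.ph p n := by
  obtain ⟨B, -, hB, h1, h2⟩ := hM.2 p ρ hρ
  have h3 : B ⊆ ball p (rr H n) := h2.trans (closedBall_subset_ball h)
  have h4 : B ⊆ ball z₀ R := fun w hw => by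
    have h5 := mem_ball.1 (h3 hw)
    have h6 := dist_triangle w p z₀
    exact mem_ball.2 (by linarith)
  exact (F.le_lines hB h4 (h1 (mem_closedBall'.2 hx)) (h1 (mem_closedBall'.2 hy))).trans
    (F.lines_mono h3)

/-- The first cell. -/
theorem exists_cell (H : HB G Z) (n : ℕ) : ∃ P : ℕ, 1 ≤ P ∧
    ∀ (R E η : ℝ) (N : ℕ) (z₀ : Z) (F : FanH H NF z₀ R E η N) (ρ c : ℝ), 0 < c →
      c ≤ lines F.T F.c (ball z₀ ρ) → ∃ z, dist z z₀ < ρ ∧ c / P ≤ F.ph z n := by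
  obtain ⟨P, hP, hc⟩ := exists_cover H (H.C / rr H n)
  refine ⟨P, hP, fun R E η N z₀ F ρ c h0 h1 => ?_⟩
  have hr := rr_pos (H := H) n
  obtain ⟨S, hS, hSA, hcov⟩ := hc z₀ (rr H n) (ball z₀ ρ) hr fun y _ => by
    rw [mem_closedBall, div_mul_cancel₀ _ hr.ne']
    exact H.s1_diam y z₀
  obtain ⟨w, hw, hw'⟩ := fnpinch_pick F hP hS (r := rr H n) h0 h1 fun t _ ⟨y, hy, hy'⟩ => by
    obtain ⟨w, hw, hw'⟩ := hcov y hy'
    exact ⟨w, hw, y, hy, hw'⟩
  exact ⟨w, hSA w hw, hw'⟩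

end KFan
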