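import Pool.Agent.Lib.MP_e1e491_gt.FnTool

/-! Views, poles and counts. -/

namespace KFan

open Set Metric MeasureTheory KKC

set_option linter.unusedSectionVars false

variable {G Z : Type} [Group G] [MetricSpace Z] [CompactSpace Z] [MulAction G Z] {H : HB G Z}
  {NF : ℝ → Set Z → Prop} {z₀ : Z} {R E η M : ℝ} {N : ℕ}

theorem dist_act (H : HB G Z) (g : G) (x y : Z) :
    dist (g • x) (g • y) ≤ H.C ^ 5 / H.sc g * dist x y := by
  have hC := H.s1b_C_pos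
  have h0 := H.s1_sc_pos g
  have h1 : H.q (.inr (g • x)) (.inr (g • y)) ≤ _ := H.s1_q_smul g (.inr x) (.inr y)
  calc dist (g • x) (g • y) ≤ H.C * H.q (.inr (g • x)) (.inr (g • y)) := H.le_q _ _
    _ ≤ H.C * (H.C ^ 3 / H.sc g * H.q (.inr x) (.inr y)) := by gcongr
    _ ≤ H.C * (H.C ^ 3 / H.sc g * (H.C * dist x y)) := by gcongr; exact H.q_le _ _
    _ = _ := by ring

theorem continuous_act (H : HB G Z) (g : G) : Continuous fun x : Z => g • x :=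
  (LipschitzWith.of_dist_le' (dist_act H g)).continuous

/-- Points near the location of a view are expanded by the view. -/
theorem le_dist_inv (g : G) (x y : Z) {W : ℝ} (hW : 1 ≤ W) (hx : dist x (H.loc g) ≤ W * H.sc g)
    (hy : dist y (H.loc g) ≤ W * H.sc g) :
    dist x y ≤ H.C ^ 7 * W ^ 2 * H.sc g * dist (g⁻¹ • x) (g⁻¹ • y) := by
  have hC := H.s1b_C_pos
  have h0 := H.s1_sc_pos g
  have h1 : H.sc g⁻¹ * _ ≤ H.C * (H.q (.inr (g⁻¹ • x)) (.inr (g⁻¹ • y)) * _ * _) :=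
    H.le_mob g⁻¹ (.inr x) (.inr y)
  rw [inv_inv, H.s1_sc_inv] at h1
  have h2 : ∀ w, dist w (H.loc g) ≤ W * H.sc g → H.q (.inr w) (.inl g) ≤ H.C ^ 2 * (W * H.sc g) :=
    fun w hw => (H.s1_q_le_loc w g).trans (mul_le_mul_of_nonneg_left
      (max_le hw (le_mul_of_one_le_left h0.le hW)) (by positivity))
  have h3 := H.q_nonneg (.inr (g⁻¹ • x)) (.inr (g⁻¹ • y))
  have h4 := H.q_nonneg (.inr y) (.inl g)
  have h4' := H.q_nonneg (.inr x) (.inl g)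
  have h5 : 0 < W := by linarith
  refine le_of_mul_le_mul_left ?_ h0
  calc H.sc g * dist x y ≤ H.sc g * (H.C * H.q (.inr x) (.inr y)) := by gcongr; exact H.le_q _ _
    _ = H.C * (H.sc g * H.q (.inr x) (.inr y)) := by ring
    _ ≤ H.C * (H.C * (H.q (.inr (g⁻¹ • x)) (.inr (g⁻¹ • y)) * H.q (.inr x) (.inl g) *
        H.q (.inr y) (.inl g))) := by gcongr
    _ ≤ H.C * (H.C * (H.C * dist (g⁻¹ • x) (g⁻¹ • y) * (H.C ^ 2 * (W * H.sc g)) *
        (H.C ^ 2 * (W * H.sc g)))) := by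
        gcongr
        exacts [H.q_le _ _, h2 x hx, h2 y hy]
    _ = _ := by ring

theorem dist_img (g : G) (x : Z) {ρ : ℝ} (hρ : 0 < ρ) (h : ρ ≤ dist x (H.loc g⁻¹)) :
    dist (g • x) (H.loc g) ≤ H.C ^ 9 / ρ * H.sc g := by
  have hC := H.s1b_C_pos
  have h1 : H.q (.inr (g • x)) (.inl g) * _ ≤ _ := H.s1_q_img g (.inr x)
  have h2 := H.q_nonneg (.inr (g • x)) (.inl g)
  rw [div_mul_eq_mul_div, le_div_iff₀ hρ]
  calc dist (g • x) (H.loc g) * ρ ≤ H.C ^ 4 * H.q (.inr (g • x)) (.inl g) *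
        (H.C ^ 4 * H.q (.inr x) (.inl g⁻¹)) :=
        mul_le_mul (H.s1_dist_loc _ _) (h.trans (H.s1_dist_loc _ _)) hρ.le (by positivity)
    _ = H.C ^ 8 * (H.q (.inr (g • x)) (.inl g) * H.q (.inr x) (.inl g⁻¹)) := by ring
    _ ≤ H.C ^ 8 * (H.C * H.sc g) := by gcongr
    _ = _ := by ring

theorem dist_img₂ (g : G) (x y : Z) {ρ : ℝ} (hρ : 0 < ρ) (hx : ρ ≤ dist x (H.loc g⁻¹))
    (hy : ρ ≤ dist y (H.loc g⁻¹)) :
    dist (g • x) (g • y) ≤ H.C ^ 11 / ρ ^ 2 * H.sc g * dist x y := by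
  have hC := H.s1b_C_pos
  have h0 := H.s1_sc_pos g
  have h1 : H.q (.inr (g • x)) (.inr (g • y)) * _ * _ ≤ H.C * (H.sc g * _) :=
    H.mob_le g (.inr x) (.inr y)
  have h2 := H.q_nonneg (.inr (g • x)) (.inr (g • y))
  have h3 := H.q_nonneg (.inr x) (.inl g⁻¹)
  have h4 : ρ * ρ ≤ H.C ^ 4 * H.q (.inr x) (.inl g⁻¹) * (H.C ^ 4 * H.q (.inr y) (.inl g⁻¹)) :=
    mul_le_mul (hx.trans (H.s1_dist_loc _ _)) (hy.trans (H.s1_dist_loc _ _)) hρ.le (by positivity)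
  rw [mul_assoc, div_mul_eq_mul_div, le_div_iff₀ (by positivity), sq]
  calc dist (g • x) (g • y) * (ρ * ρ) ≤ H.C * H.q (.inr (g • x)) (.inr (g • y)) *
        (H.C ^ 4 * H.q (.inr x) (.inl g⁻¹) * (H.C ^ 4 * H.q (.inr y) (.inl g⁻¹))) :=
        mul_le_mul (H.le_q _ _) h4 (by positivity) (by positivity)
    _ = H.C ^ 9 * (H.q (.inr (g • x)) (.inr (g • y)) * H.q (.inr x) (.inl g⁻¹) *
        H.q (.inr y) (.inl g⁻¹)) := by ring
    _ ≤ H.C ^ 9 * (H.C * (H.sc g * H.q (.inr x) (.inr y))) := by gcongr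
    _ ≤ H.C ^ 9 * (H.C * (H.sc g * (H.C * dist x y))) := by gcongr; exact H.q_le _ _
    _ = _ := by ring

theorem exists_vw (H : HB G Z) [Nontrivial Z] : Nonempty (Vw H) := by
  classical
  have hC := H.s1b_C_pos
  have hC1 := H.hC
  have ha := H.ha
  obtain ⟨ξ₀, ξ₁, hξ⟩ := exists_pair_ne Z
  have hd := dist_pos.2 hξ
  choose vw hl hq using H.ray
  have hq' : ∀ p n, H.q (.inr p) (.inl (vw p n)) ≤ H.C * rr H n := hq
  have hs : ∀ p n, H.sc (vw p n) = rr H n := fun p n => by rw [sc_eq, hl]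
  have h1 : ∀ g : G, ∃ ξ ∈ ({ξ₀, ξ₁} : Finset Z),
      dist ξ₀ ξ₁ ≤ H.C ^ 2 * H.q (.inr ξ) (.inl g⁻¹) := fun g => by
    have h2 := (H.le_q ξ₀ ξ₁).trans
      (mul_le_mul_of_nonneg_left (H.ultra _ (.inl g⁻¹) _) hC.le)
    rw [← mul_assoc, ← sq, H.q_comm (.inl g⁻¹)] at h2
    rcases max_choice (H.q (.inr ξ₀) (.inl g⁻¹)) (H.q (.inr ξ₁) (.inl g⁻¹)) with e | e <;>
      rw [e] at h2
    · exact ⟨ξ₀, by simp, h2⟩
    · exact ⟨ξ₁, by simp, h2⟩
  choose ξ hm hξ' using h1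
  obtain ⟨K, hK⟩ := H.s1_len_le (H.C ^ 3 * H.a)
  have h5 : 1 ≤ H.C ^ 5 := one_le_pow₀ hC1
  have h35 : H.C ^ 3 ≤ H.C ^ 5 := pow_le_pow_right₀ hC1 (by norm_num)
  have h6 : 0 < H.C ^ 5 / dist ξ₀ ξ₁ := by positivity
  refine ⟨⟨vw, fun g => g • ξ g,
    ((H.fin K).toFinset ×ˢ ({ξ₀, ξ₁} : Finset Z)).image fun i => i.1 • i.2,
    H.C ^ 5 + H.C ^ 5 / dist ξ₀ ξ₁, by linarith, hl, fun p n => ?_, fun p n => ?_,
    fun p p' n n' hp hn hn' => ?_⟩⟩
  · have h0 := rr_pos (H := H) n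
    calc dist p (H.loc (vw p n)) ≤ H.C ^ 4 * H.q (.inr p) (.inl (vw p n)) := H.s1_dist_loc _ _
      _ ≤ H.C ^ 4 * (H.C * rr H n) := by gcongr; exact hq' p n
      _ = H.C ^ 5 * rr H n := by ring
      _ ≤ _ := by gcongr; linarith
  · have h0 := rr_pos (H := H) n
    set g := vw p n
    have h2 : H.q (.inr (g • ξ g)) (.inl g) * _ ≤ _ := H.s1_q_img g (.inr (ξ g))
    have h3 := H.q_nonneg (.inr (g • ξ g)) (.inl g)
    have h4 : H.q (.inl g) (.inr (g • ξ g)) ≤ H.C ^ 3 / dist ξ₀ ξ₁ * rr H n := by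
      rw [H.q_comm, div_mul_eq_mul_div, le_div_iff₀ hd, ← hs p n]
      calc H.q (.inr (g • ξ g)) (.inl g) * dist ξ₀ ξ₁ ≤ H.q (.inr (g • ξ g)) (.inl g) *
            (H.C ^ 2 * H.q (.inr (ξ g)) (.inl g⁻¹)) := mul_le_mul_of_nonneg_left (hξ' g) h3
        _ = H.C ^ 2 * (H.q (.inr (g • ξ g)) (.inl g) * H.q (.inr (ξ g)) (.inl g⁻¹)) := by ring
        _ ≤ H.C ^ 2 * (H.C * H.sc g) := by gcongr
        _ = _ := by ring
    have h7 : 0 ≤ H.C ^ 3 / dist ξ₀ ξ₁ * rr H n := by positivity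
    have h8 : 0 ≤ H.C * rr H n := by positivity
    calc dist p (g • ξ g) ≤ H.C * H.q (.inr p) (.inr (g • ξ g)) := H.le_q _ _
      _ ≤ H.C * (H.C * max (H.q (.inr p) (.inl g)) (H.q (.inl g) (.inr (g • ξ g)))) := by
        gcongr; exact H.ultra _ _ _
      _ ≤ H.C * (H.C * (H.C * rr H n + H.C ^ 3 / dist ξ₀ ξ₁ * rr H n)) := by
        gcongr
        exact max_le ((hq' p n).trans (le_add_of_nonneg_right h7))
          (h4.trans (le_add_of_nonneg_left h8))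
      _ = (H.C ^ 3 + H.C ^ 5 / dist ξ₀ ξ₁) * rr H n := by ring
      _ ≤ _ := by gcongr
  · have h0 := rr_pos (H := H) n
    have h2 : H.q (.inr p) (.inl (vw p' n')) ≤ H.C * (H.C * rr H n) := by
      refine (H.ultra _ (.inr p') _).trans (mul_le_mul_of_nonneg_left (max_le ?_ ?_) hC.le)
      · exact (H.q_le _ _).trans (mul_le_mul_of_nonneg_left hp hC.le)
      · exact (hq' _ _).trans (mul_le_mul_of_nonneg_left (rr_anti hn) hC.le)
    have h3 : H.q (.inl (vw p n)) (.inl (vw p' n')) ≤ H.C ^ 3 * rr H n := by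
      refine (H.ultra _ (.inr p) _).trans ((mul_le_mul_of_nonneg_left (max_le ?_ h2) hC.le).trans_eq
        (by ring))
      rw [H.q_comm]
      exact (hq' _ _).trans (le_mul_of_one_le_left (by positivity) hC1)
    have h4 := hK (vw p n) (vw p' n') (h3.trans (by
      rw [hs, mul_assoc]
      gcongr
      exact le_mul_of_one_le_left h0.le ha.le)) (h3.trans (by
      rw [hs, mul_assoc, ← rr_succ n]
      gcongr
      exact rr_anti hn'))
    refine ⟨((vw p n)⁻¹ * vw p' n') • ξ (vw p' n'), Finset.mem_image.2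
      ⟨(_, _), Finset.mem_product.2 ⟨(Finite.mem_toFinset _).2 h4, hm _⟩, rfl⟩, ?_⟩
    rw [smul_smul, mul_inv_cancel_left]

end KFan
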