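import Pool.Agent.Lib.MP_e1e491_gt.FnLine
import Pool.Agent.Lib.MP_e1e491_gt.FnView

/-! Two fans with different centres. -/

namespace KFan

open Set Metric MeasureTheory KKC

set_option linter.unusedSectionVars false

variable {G Z : Type} [Group G] [MetricSpace Z] [CompactSpace Z] [MulAction G Z] {H : HB G Z}
  {NF : ℝ → Set Z → Prop} {z₀ : Z} {R E η M : ℝ} {N : ℕ}

theorem fnsep_line (F : FanH H NF z₀ R E η N) {g : G} {B : Set Z}
    (hout : ∀ x, R ≤ dist x z₀ → g⁻¹ • x ∈ B) {t : ℝ} (ht : t ∈ F.T) :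
    IsPreconnected {x | g • x ∈ F.c t} ∧ (B ∩ {x | g • x ∈ F.c t}).Nonempty := by
  have h1 : {x | g • x ∈ F.c t} = (fun x => g⁻¹ • x) '' F.c t := by
    refine Subset.antisymm (fun x hx => ⟨g • x, hx, inv_smul_smul g x⟩) ?_
    rintro _ ⟨x, hx, rfl⟩
    rwa [mem_ofPred_eq, smul_inv_smul]
  obtain ⟨x, hx, hR⟩ := F.leave t ht
  rw [h1]
  exact ⟨(F.conn t ht).image _ (continuous_act H g⁻¹).continuousOn, g⁻¹ • x, hout x hR, x, hx, rfl⟩

theorem fnsep_one (F : FanH H NF z₀ R E η N) {g : G} {B P : Set Z}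
    (hout : ∀ x, R ≤ dist x z₀ → g⁻¹ • x ∈ B) {t : ℝ} (ht : t ∈ F.T) (hB : B ⊆ P)
    (hP : ∀ x, g • x ∈ F.c t → x ∈ P) {x y : Z} (hx : F.u (g • x) < t) (hy : t < F.u (g • y)) :
    Seps P x y := by
  intro K hK hd hxK hyK
  rcases F.sep t ht _ (hK.image _ (continuous_act H g).continuousOn) (by
      rintro _ ⟨w, hw, rfl⟩
      refine mem_ball.2 (lt_of_not_ge fun h => disjoint_left.1 hd hw (hB ?_))
      have h1 := hout _ h
      rwa [inv_smul_smul] at h1) (by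
      rw [disjoint_left]
      rintro _ ⟨w, hw, rfl⟩ h
      exact disjoint_left.1 hd hw (hP w h)) with h | h
  · exact hy.not_ge (h _ ⟨y, hyK, rfl⟩)
  · exact hx.not_ge (h _ ⟨x, hxK, rfl⟩)

theorem fnsep_level (F : FanH H NF z₀ R E η N) {g g' : G} (hN : H.len (g * g'⁻¹) ≤ N)
    {B B' : Set Z} (hout : ∀ x, R ≤ dist x z₀ → g⁻¹ • x ∈ B)
    (hout' : ∀ x, R ≤ dist x z₀ → g'⁻¹ • x ∈ B') {s : ℝ} (hs : s ∈ F.T)
    (hd : Disjoint (F.c s) {x | g'⁻¹ • x ∈ B}) :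
    ∃ X ⊆ F.T, volume.real X ≤ η ∧ ∀ t ∈ F.T, t ∉ X → Disjoint (F.c t) {x | g⁻¹ • x ∈ B'} →
      ∀ y, g • y ∈ F.c t → g' • y ∉ F.c s := by
  refine ⟨_, fun t ht => ht.1, F.nc _ hN s hs, fun t ht hX hd' y hy hy' => hX ⟨ht, g' • y, hy',
    lt_of_not_ge fun h => disjoint_left.1 hd' hy ?_, lt_of_not_ge fun h => disjoint_left.1 hd hy' ?_,
    by rwa [mul_smul, inv_smul_smul]⟩⟩
  · have h2 := hout' _ h
    rw [inv_smul_smul] at h2
    rwa [mem_ofPred_eq, inv_smul_smul]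
  · have h2 := hout _ h
    rw [mul_smul, inv_smul_smul, inv_smul_smul] at h2
    rwa [mem_ofPred_eq, inv_smul_smul]

/-- Two lines in the gaps of a good view, seen from the view and joined at the pole. -/
theorem FanH.seps (F : FanH H NF z₀ R E η N) {g : G} {j : Fin 3 → Z} {B : Set Z}
    (hB : IsClosed B) (hB' : IsPreconnected B)
    (hout : ∀ x, R ≤ dist x z₀ → g⁻¹ • x ∈ B) {a b : ℝ} (ha : a ∈ F.T) (hb : b ∈ F.T)
    (h1 : F.u (g • j 0) < a) (h2 : a < F.u (g • j 1)) (h3 : F.u (g • j 1) < b)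
    (h4 : b < F.u (g • j 2)) :
    IsClosed ({x | g • x ∈ F.c a ∪ F.c b} ∪ B) ∧ IsConnected ({x | g • x ∈ F.c a ∪ F.c b} ∪ B) ∧
      Seps ({x | g • x ∈ F.c a ∪ F.c b} ∪ B) (j 0) (j 1) ∧
      Seps ({x | g • x ∈ F.c a ∪ F.c b} ∪ B) (j 0) (j 2) ∧
      Seps ({x | g • x ∈ F.c a ∪ F.c b} ∪ B) (j 1) (j 2) := by
  obtain ⟨c1, m1⟩ := fnsep_line F hout ha
  obtain ⟨c2, m2⟩ := fnsep_line F hout hb
  refine ⟨(((F.closed a ha).union (F.closed b hb)).preimage (continuous_act H g)).union hB,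
    ⟨m1.mono (inter_subset_left.trans subset_union_right), ?_⟩,
    fnsep_one F hout ha subset_union_right (fun x hx => Or.inl (Or.inl hx)) h1 h2,
    fnsep_one F hout ha subset_union_right (fun x hx => Or.inl (Or.inl hx)) h1
      (h2.trans (h3.trans h4)),
    fnsep_one F hout hb subset_union_right (fun x hx => Or.inl (Or.inr hx)) h3 h4⟩
  have h5 : {x | g • x ∈ F.c a ∪ F.c b} ∪ B =
      (B ∪ {x | g • x ∈ F.c a}) ∪ {x | g • x ∈ F.c b} := by
    ext x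
    simp only [mem_union, mem_ofPred_eq]
    tauto
  rw [h5]
  exact IsPreconnected.union' (m2.mono (inter_subset_inter_left _ subset_union_left))
    (IsPreconnected.union' m1 hB' c1) c2

/-- The topological part of the centre lemma. -/
theorem FanH.not_two (F : FanH H NF z₀ R E η N) (hM : Hull Z M) {γ : ℝ} {g g' : G} {j : Fin 3 → Z}
    (hg : Good F.u γ g j) (hg' : Good F.u γ g' j) (hN : H.len (g * g'⁻¹) ≤ N)
    {B B' : Set Z} (hB : IsClosed B) (hB₁ : IsPreconnected B) (hB' : IsClosed B')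
    (hB₂ : IsPreconnected B') (hd : Disjoint B B') (hout : ∀ x, R ≤ dist x z₀ → g⁻¹ • x ∈ B)
    (hout' : ∀ x, R ≤ dist x z₀ → g'⁻¹ • x ∈ B')
    (h1 : lines F.T F.c {x | g⁻¹ • x ∈ B'} + 13 * η < γ)
    (h2 : lines F.T F.c {x | g'⁻¹ • x ∈ B} + 13 * η < γ) : False := by
  have hη := F.η_pos
  have h0 : volume.real (∅ : Set ℝ) ≤ 2 * η := by
    rw [measureReal_empty]
    linarith
  obtain ⟨a2, ha2, p1, p2, p3, -⟩ := F.pick (F.u_mem (g' • j 0)).1 (F.u_mem (g' • j 1)).2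
    (V := {x | g'⁻¹ • x ∈ B}) (by linarith [hg'.1]) (empty_subset _) h0
  obtain ⟨b2, hb2, q1, q2, q3, -⟩ := F.pick (F.u_mem (g' • j 1)).1 (F.u_mem (g' • j 2)).2
    (V := {x | g'⁻¹ • x ∈ B}) (by linarith [hg'.2]) (empty_subset _) h0
  obtain ⟨X₁, x1, x2, ht₁⟩ := fnsep_level F hN hout hout' ha2 p3
  obtain ⟨X₂, y1, y2, ht₂⟩ := fnsep_level F hN hout hout' hb2 q3
  have hX : volume.real (X₁ ∪ X₂) ≤ 2 * η := (measureReal_union_le _ _).trans (by linarith)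
  obtain ⟨a, ha, r1, r2, r3, r4⟩ := F.pick (F.u_mem (g • j 0)).1 (F.u_mem (g • j 1)).2
    (V := {x | g⁻¹ • x ∈ B'}) (by linarith [hg.1]) (union_subset x1 y1) hX
  obtain ⟨b, hb, s1, s2, s3, s4⟩ := F.pick (F.u_mem (g • j 1)).1 (F.u_mem (g • j 2)).2
    (V := {x | g⁻¹ • x ∈ B'}) (by linarith [hg.2]) (union_subset x1 y1) hX
  obtain ⟨k1, k2, k3, k4, k5⟩ := F.seps (j := j) hB hB₁ hout ha hb (by linarith) (by linarith)
    (by linarith) (by linarith)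
  obtain ⟨-, l2, l3, l4, l5⟩ := F.seps (j := j) hB' hB₂ hout' ha2 hb2 (by linarith) (by linarith)
    (by linarith) (by linarith)
  refine hM.not_seps k1 k2 l2 (disjoint_left.2 ?_) k3 k4 k5 l3 l4 l5
  rintro y ((hy | hy) | hy) ((hy' | hy') | hy')
  · exact ht₁ a ha (fun h => r4 (Or.inl h)) r3 y hy hy'
  · exact ht₂ a ha (fun h => r4 (Or.inr h)) r3 y hy hy'
  · exact disjoint_left.1 r3 hy (by rwa [mem_ofPred_eq, inv_smul_smul])
  · exact ht₁ b hb (fun h => s4 (Or.inl h)) s3 y hy hy'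
  · exact ht₂ b hb (fun h => s4 (Or.inr h)) s3 y hy hy'
  · exact disjoint_left.1 s3 hy (by rwa [mem_ofPred_eq, inv_smul_smul])
  · exact disjoint_left.1 p3 hy' (by rwa [mem_ofPred_eq, inv_smul_smul])
  · exact disjoint_left.1 q3 hy' (by rwa [mem_ofPred_eq, inv_smul_smul])
  · exact disjoint_left.1 hd hy hy'

end KFan
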