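import Pool.Agent.Lib.MP_e1e491_gt.FnDefs

/-! Elementary tools. -/

namespace KFan

open Set Metric MeasureTheory KKC

set_option linter.unusedSectionVars false

variable {G Z : Type} [Group G] [MetricSpace Z] [CompactSpace Z] [MulAction G Z] {H : HB G Z}
  {NF : ℝ → Set Z → Prop} {z₀ : Z} {R E η M : ℝ} {N : ℕ}

/-- A point of an interval that avoids finitely many short intervals. -/
theorem exists_avoid {ι : Type} (s : Finset ι) (c ρ : ι → ℝ) (hρ : ∀ i ∈ s, 0 ≤ ρ i) (p : ℝ)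
    {l : ℝ} (h : 2 * ∑ i ∈ s, ρ i < l) : ∃ t, p ≤ t ∧ t ≤ p + l ∧ ∀ i ∈ s, ρ i < |t - c i| := by
  by_contra hc
  have h1 : Icc p (p + l) ⊆ ⋃ i ∈ s, Icc (c i - ρ i) (c i + ρ i) := fun t ht => by
    by_contra h2
    refine hc ⟨t, ht.1, ht.2, fun i hi => lt_of_not_ge fun h3 => h2 ?_⟩
    obtain ⟨h4, h5⟩ := abs_le.1 h3
    exact mem_iUnion₂.2 ⟨i, hi, by linarith, by linarith⟩
  have h2 := (measure_mono (μ := volume) h1).trans (measure_biUnion_finset_le s _)
  simp only [Real.volume_Icc] at h2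
  rw [← ENNReal.ofReal_sum_of_nonneg (fun i hi => by linarith [hρ i hi]),
    ENNReal.ofReal_le_ofReal_iff (Finset.sum_nonneg fun i hi => by linarith [hρ i hi]),
    Finset.sum_congr rfl fun i _ => show c i + ρ i - (c i - ρ i) = 2 * ρ i by ring,
    ← Finset.mul_sum] at h2
  linarith

/-- Many such points, far from each other. -/
theorem exists_spaced {ι : Type} (s : Finset ι) (c ρ : ι → ℝ) (hρ : ∀ i ∈ s, 0 ≤ ρ i) (p : ℝ)
    {l σ : ℝ} (hσ : 0 ≤ σ) (k : ℕ) (h : 2 * ∑ i ∈ s, ρ i + 2 * k * σ < l) :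
    ∃ A : Finset ℝ, A.card = k ∧ (∀ t ∈ A, p ≤ t ∧ t ≤ p + l ∧ ∀ i ∈ s, ρ i < |t - c i|) ∧
      ∀ t ∈ A, ∀ t' ∈ A, t ≠ t' → σ < |t - t'| := by
  induction k with
  | zero => exact ⟨∅, rfl, by simp, by simp⟩
  | succ k ih =>
    push_cast at h
    obtain ⟨A, h1, h2, h3⟩ := ih (by linarith)
    obtain ⟨t, t1, t2, t3⟩ := exists_avoid (s.disjSum A) (Sum.elim c id) (Sum.elim ρ fun _ => σ)
      (by
        rintro (i | i) hi
        · exact hρ i (Finset.inl_mem_disjSum.1 hi)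
        · exact hσ) p (l := l) (by
        rw [Finset.sum_disjSum]
        simp only [Sum.elim_inl, Sum.elim_inr, Finset.sum_const, h1, nsmul_eq_mul]
        linarith)
    have t4 : ∀ u ∈ A, σ < |t - u| := fun u hu => t3 (.inr u) (Finset.inr_mem_disjSum.2 hu)
    have t5 : t ∉ A := fun e => by
      have := t4 t e
      rw [sub_self, abs_zero] at this
      linarith
    refine ⟨insert t A, by rw [Finset.card_insert_of_notMem t5, h1], fun u hu => ?_,
      fun u hu u' hu' hne => ?_⟩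
    · rcases Finset.mem_insert.1 hu with rfl | hu
      · exact ⟨t1, t2, fun i hi => t3 (.inl i) (Finset.inl_mem_disjSum.2 hi)⟩
      · exact h2 u hu
    · rcases Finset.mem_insert.1 hu with e | e <;> rcases Finset.mem_insert.1 hu' with e' | e'
      · exact absurd (e.trans e'.symm) hne
      · exact e ▸ t4 _ e'
      · rw [abs_sub_comm, e']
        exact t4 _ e
      · exact h3 u e u' e' hne

/-- Indicator of the edges with colours zero and two. -/
def fntool_b (x y : Fin 3) : ZMod 2 := if (x = 0 ∧ y = 2) ∨ (x = 2 ∧ y = 0) then 1 else 0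

theorem fntool_top : ∀ x y : Fin 3, x ≠ 1 → y ≠ 1 →
    fntool_b x y = fntool_b 0 y - fntool_b 0 x := by decide

theorem fntool_sq : ∀ e w x y z : Fin 3, w ≠ e → x ≠ e → y ≠ e → z ≠ e →
    fntool_b y z = fntool_b w x + (fntool_b x z - fntool_b w y) := by decide

/-- Parity on a wall. -/
theorem wall_parity (col : ℕ → ℕ → Fin 3) (k d₀ d₁ : ℕ) (hd : d₀ ≤ d₁)
    (h0 : ∀ d, d₀ ≤ d → d ≤ d₁ → col 0 d = 0) (h2 : ∀ d, d₀ ≤ d → d ≤ d₁ → col k d = 2)
    (h1 : ∀ j ≤ k, col j d₀ ≠ 1) :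
    (∃ j < k, (col j d₁ = 0 ∧ col (j + 1) d₁ = 2) ∨ (col j d₁ = 2 ∧ col (j + 1) d₁ = 0)) ∨
      ∃ j < k, ∃ d, d₀ ≤ d ∧ d < d₁ ∧ ∀ e : Fin 3, ∃ j' d', j ≤ j' ∧ j' ≤ j + 1 ∧ d ≤ d' ∧
        d' ≤ d + 1 ∧ col j' d' = e := by
  by_contra hc
  rw [not_or] at hc
  obtain ⟨hA, hB⟩ := hc
  have key : ∀ d, d₀ ≤ d → d ≤ d₁ →
      ∑ j ∈ Finset.range k, fntool_b (col j d) (col (j + 1) d) = 1 := by
    intro d h3
    induction d, h3 using Nat.le_induction with
    | base =>
      intro h4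
      rw [Finset.sum_congr rfl fun j hj => fntool_top _ _ (h1 j (Finset.mem_range.1 hj).le)
        (h1 (j + 1) (Finset.mem_range.1 hj)),
        Finset.sum_range_sub (fun j => fntool_b 0 (col j d₀)), h0 _ le_rfl h4, h2 _ le_rfl h4]
      decide
    | succ d h3 ih =>
      intro h4
      have h5 : ∀ j ∈ Finset.range k, fntool_b (col j (d + 1)) (col (j + 1) (d + 1)) =
          fntool_b (col j d) (col (j + 1) d) + (fntool_b (col (j + 1) d) (col (j + 1) (d + 1)) -
            fntool_b (col j d) (col j (d + 1))) := fun j hj => by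
        obtain ⟨e, he⟩ : ∃ e : Fin 3, ∀ j' d', j ≤ j' → j' ≤ j + 1 → d ≤ d' → d' ≤ d + 1 →
            col j' d' ≠ e := by
          by_contra h6
          refine hB ⟨j, Finset.mem_range.1 hj, d, h3, h4, fun e => ?_⟩
          by_contra h7
          exact h6 ⟨e, fun j' d' a1 a2 a3 a4 a5 => h7 ⟨j', d', a1, a2, a3, a4, a5⟩⟩
        exact fntool_sq e _ _ _ _ (he _ _ (by omega) (by omega) (by omega) (by omega))
          (he _ _ (by omega) (by omega) (by omega) (by omega))
          (he _ _ (by omega) (by omega) (by omega) (by omega))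
          (he _ _ (by omega) (by omega) (by omega) (by omega))
      rw [Finset.sum_congr rfl h5, Finset.sum_add_distrib, ih (by omega),
        Finset.sum_range_sub (fun j => fntool_b (col j d) (col j (d + 1))), h0 d h3 (by omega),
        h0 (d + 1) (by omega) h4, h2 d h3 (by omega), h2 (d + 1) (by omega) h4]
      decide
  have h3 : ∑ j ∈ Finset.range k, fntool_b (col j d₁) (col (j + 1) d₁) = 0 :=
    Finset.sum_eq_zero fun j hj => if_neg fun e => hA ⟨j, Finset.mem_range.1 hj, e⟩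
  rw [key d₁ hd le_rfl] at h3
  exact absurd h3 (by decide)

theorem rr_pos (n : ℕ) : 0 < rr H n := by
  exact Real.rpow_pos_of_pos (one_pos.trans H.ha) _

theorem rr_zero : rr H 0 = 1 := by
  simp [rr]

theorem rr_add (n m : ℕ) : rr H (n + m) = rr H n * rr H m := by
  rw [rr, rr, rr, ← Real.rpow_add (one_pos.trans H.ha), Nat.cast_add, neg_add]

theorem rr_anti {n m : ℕ} (h : n ≤ m) : rr H m ≤ rr H n := by
  exact Real.rpow_le_rpow_of_exponent_le H.ha.le (neg_le_neg (Nat.cast_le.2 h))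

theorem rr_succ (n : ℕ) : H.a * rr H (n + 1) = rr H n := by
  rw [rr_add, rr, rr, Nat.cast_one, Real.rpow_neg_one, mul_left_comm,
    mul_inv_cancel₀ (one_pos.trans H.ha).ne', mul_one]

theorem sc_eq (g : G) : H.sc g = rr H (H.len g) := rfl

theorem exists_rr_le (H : HB G Z) {ε : ℝ} (hε : 0 < ε) : ∃ n₀ : ℕ, ∀ n, n₀ ≤ n → rr H n ≤ ε := by
  obtain ⟨n, hn⟩ := exists_pow_lt_of_lt_one hε (inv_lt_one_of_one_lt₀ H.ha)
  refine ⟨n, fun m hm => (rr_anti hm).trans ?_⟩
  rw [rr, Real.rpow_neg (one_pos.trans H.ha).le, Real.rpow_natCast, ← inv_pow]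
  exact hn.le

theorem sum_rr (m s : ℕ) : ∑ j ∈ Finset.Icc m s, rr H j ≤ H.a / (H.a - 1) * rr H m := by
  have ha : 0 < H.a - 1 := sub_pos.2 H.ha
  have h0 : 0 < H.a / (H.a - 1) := div_pos (one_pos.trans H.ha) ha
  by_cases h : m ≤ s + 1
  · have key : ∀ t, m ≤ t →
        ∑ j ∈ Finset.Ico m t, rr H j + H.a / (H.a - 1) * rr H t = H.a / (H.a - 1) * rr H m := by
      intro t ht
      induction t, ht using Nat.le_induction with
      | base => simp
      | succ t ht ih =>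
        rw [Finset.sum_Ico_succ_top ht, ← ih, ← rr_succ t]
        field_simp
        ring
    have h1 := key _ h
    rw [Finset.Ico_add_one_right_eq_Icc] at h1
    linarith [mul_pos h0 (rr_pos (H := H) (s + 1))]
  · rw [Finset.Icc_eq_empty (by omega), Finset.sum_empty]
    exact (mul_pos h0 (rr_pos m)).le

end KFan
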