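import Pool.Agent.Lib.MP_e1e491_gt.FnPinch

/-! One wall. -/

namespace KFan

open Set Metric MeasureTheory KKC

set_option linter.unusedSectionVars false

variable {G Z : Type} [Group G] [MetricSpace Z] [CompactSpace Z] [MulAction G Z] {H : HB G Z}
  {NF : ℝ → Set Z → Prop} {z₀ : Z} {R E η M : ℝ} {N : ℕ}

open Classical in
/-- The colour of a level. -/
noncomputable def fnwall_col (a' b' x : ℝ) : Fin 3 := if x ≤ a' then 0 else if b' ≤ x then 2 else 1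

theorem fnwall_zero {a' b' x : ℝ} : fnwall_col a' b' x = 0 ↔ x ≤ a' := by
  unfold fnwall_col
  split_ifs <;> simp [*]

theorem fnwall_two {a' b' x : ℝ} (h : a' < b') : fnwall_col a' b' x = 2 ↔ b' ≤ x := by
  unfold fnwall_col
  split_ifs with h1 h2
  · simp only [Fin.reduceEq, false_iff, not_le]
    linarith
  · simp [h2]
  · simp [h2]

theorem fnwall_one {a' b' x : ℝ} : fnwall_col a' b' x = 1 ↔ a' < x ∧ x < b' := by
  unfold fnwall_col
  split_ifs with h1 h2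
  · simp only [Fin.reduceEq, false_iff, not_and]
    exact fun h => absurd h1 (not_le.2 h)
  · simp only [Fin.reduceEq, false_iff, not_and]
    exact fun _ => not_lt.2 h2
  · simp only [true_iff]
    exact ⟨not_le.1 h1, not_le.1 h2⟩

theorem fnwall_jump (F : FanH H NF z₀ R E η N) (hM : Hull Z M) {W : ℝ} (hW : 1 ≤ W) {b e : ℕ}
    (hb : M * (W + 1) * rr H b < 1) {p x y : Z} (hx : dist p x ≤ (W + 1) * rr H (e + b))
    (hy : dist p y ≤ (W + 1) * rr H (e + b)) (hR : dist p z₀ + rr H e ≤ R) :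
    F.u y - F.u x - η ≤ F.ph p e := by
  refine F.le_ph hM (mul_pos (by linarith) (rr_pos _)) hx hy ?_ hR
  have h1 := mul_lt_mul_of_pos_left hb (rr_pos (H := H) e)
  rw [rr_add]
  linarith

theorem fnwall_good {a' b' γ : ℝ} (hab : a' < b') (x : Fin 3 → ℝ)
    (h : ∀ c, fnwall_col a' b' (x c) = c ∧ γ ≤ 2 * |a' - x c| ∧ γ ≤ 2 * |b' - x c|) :
    x 0 + γ ≤ x 1 ∧ x 1 + γ ≤ x 2 := by
  obtain ⟨c0, g0, -⟩ := h 0
  obtain ⟨c1, g1, g1'⟩ := h 1
  obtain ⟨c2, -, g2⟩ := h 2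
  have c0' := fnwall_zero.1 c0
  obtain ⟨c1', c1''⟩ := fnwall_one.1 c1
  have c2' := (fnwall_two hab).1 c2
  rw [abs_of_nonneg (by linarith)] at g0 g1'
  rw [abs_of_nonpos (by linarith)] at g1 g2
  constructor <;> linarith

theorem fnwall_side {a γ w t : ℝ} (hγ : 0 < γ) (h : |w - t| ≤ η) (h1 : γ + 2 * η ≤ 2 * |a - t|) :
    (w ≤ a ↔ t ≤ a) ∧ (a ≤ w ↔ a ≤ t) ∧ γ ≤ 2 * |a - w| := by
  obtain ⟨h2, h3⟩ := abs_le.1 h
  have h4 := (abs_nonneg _).trans h
  rcases abs_cases (a - t) with ⟨e, h5⟩ | ⟨e, h5⟩ <;> rw [e] at h1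
  · exact ⟨⟨fun _ => by linarith, fun _ => by linarith⟩, ⟨fun _ => by linarith, fun _ => by linarith⟩,
      by linarith [le_abs_self (a - w)]⟩
  · exact ⟨⟨fun _ => by linarith, fun _ => by linarith⟩, ⟨fun _ => by linarith, fun _ => by linarith⟩,
      by linarith [neg_le_abs (a - w)]⟩

theorem fnwall_near {a' b' γ w t : ℝ} (hγ : 0 < γ) (h : |w - t| ≤ η)
    (h1 : γ + 2 * η ≤ 2 * |a' - t|) (h2 : γ + 2 * η ≤ 2 * |b' - t|) :
    fnwall_col a' b' w = fnwall_col a' b' t ∧ γ ≤ 2 * |a' - w| ∧ γ ≤ 2 * |b' - w| := by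
  obtain ⟨a1, -, a2⟩ := fnwall_side hγ h h1
  obtain ⟨-, b1, b2⟩ := fnwall_side hγ h h2
  refine ⟨?_, a2, b2⟩
  unfold fnwall_col
  by_cases h3 : t ≤ a'
  · rw [if_pos h3, if_pos (a1.2 h3)]
  rw [if_neg h3, if_neg (mt a1.1 h3)]
  by_cases h4 : b' ≤ t
  · rw [if_pos h4, if_pos (b1.2 h4)]
  · rw [if_neg h4, if_neg (mt b1.1 h4)]

theorem Holey.mono {u : Z → ℝ} {ρ ρ' t : ℝ} {p : Z} (h : Holey NF u η ρ p t) (h' : ρ' ≤ ρ) :
    Holey NF u η ρ' p t := by
  obtain ⟨al, a1, a2, ⟨q, a3, a4⟩, a5⟩ := h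
  exact ⟨al, a1, a2, ⟨q, a3, h'.trans a4⟩, a5⟩

/-- The entries of a wall with one extra column for every step. -/
theorem fnwall_val (H : HB G Z) {u : Z → ℝ} {k d₁ : ℕ} {p : ℕ → Z} (w : ℕ → ℕ → ℝ)
    (hη : η ≤ rr H d₁) (hp : ∀ j < k, dist (p j) (p (j + 1)) ≤ η ∨ Jmp NF u η (p j) (p (j + 1))) :
    ∃ (val : ℕ → ℕ → ℝ) (t : ℕ → ℝ), (∀ d, val 0 d = w 0 d) ∧ (∀ d, val (2 * k) d = w k d) ∧
      (∀ i ≤ 2 * k, ∀ d ≤ d₁, ∃ j ≤ k, val i d = w j d ∨
        Holey NF u η (rr H d / 8) (p j) (val i d)) ∧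
      ∀ i < 2 * k, ∀ d, ∃ j ≤ k, ∀ i' d', i ≤ i' → i' ≤ i + 1 → d ≤ d' → d' ≤ d₁ →
        (∃ j', dist (p j) (p j') ≤ rr H d ∧ val i' d' = w j' d') ∨
          (val i' d' = t i ∧ Holey NF u η (rr H d' / 8) (p j) (t i)) := by
  classical
  have h1 : ∀ m, ∃ t : ℝ, m < k → ∀ d ≤ d₁, rr H d < dist (p m) (p (m + 1)) →
      ∀ x, x = p m ∨ x = p (m + 1) → Holey NF u η (rr H d / 8) x t := fun m => by
    by_cases h : m < k ∧ Jmp NF u η (p m) (p (m + 1))
    · obtain ⟨t, ht⟩ := h.2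
      refine ⟨t, fun _ d _ h2 x hx => ?_⟩
      obtain ⟨al, a1, a2, ⟨q, a3, a4⟩, a5⟩ := ht x hx
      exact ⟨al, a1, a2, ⟨q, a3, by linarith⟩, a5⟩
    · refine ⟨0, fun hm d hd h2 => ((hp m hm).elim (fun h3 => ?_) fun h3 => h ⟨hm, h3⟩).elim⟩
      linarith [rr_anti (H := H) hd]
  choose t ht using h1
  obtain ⟨val, hv⟩ : ∃ val : ℕ → ℕ → ℝ, ∀ i d, val i d =
      if i % 2 = 1 ∧ rr H d < dist (p (i / 2)) (p (i / 2 + 1)) then t (i / 2) else w (i / 2) d :=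
    ⟨_, fun _ _ => rfl⟩
  refine ⟨val, fun i => t (i / 2), fun d => ?_, fun d => ?_, fun i hi d hd => ?_,
    fun i hi d => ?_⟩
  · rw [hv, if_neg fun h => by omega]
  · rw [hv, if_neg fun h => by omega, show 2 * k / 2 = k by omega]
  · refine ⟨i / 2, by omega, ?_⟩
    rw [hv]
    split_ifs with h
    · exact Or.inr (ht _ (by omega) d hd h.2 _ (Or.inl rfl))
    · exact Or.inl rfl
  by_cases hc : i % 2 = 1 ∧ rr H d < dist (p (i / 2)) (p (i / 2 + 1))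
  · refine ⟨i / 2 + 1, by omega, fun i' d' a1 a2 a3 a4 => ?_⟩
    rcases (by omega : i' = i ∨ i' = i + 1) with rfl | rfl
    · have h2 := (rr_anti (H := H) a3).trans_lt hc.2
      exact Or.inr ⟨by rw [hv, if_pos ⟨hc.1, h2⟩], ht _ (by omega) d' a4 h2 _ (Or.inr rfl)⟩
    · refine Or.inl ⟨i / 2 + 1, by rw [dist_self]; exact (rr_pos d).le, ?_⟩
      rw [hv, if_neg fun h => by omega, show (i + 1) / 2 = i / 2 + 1 by omega]
  · refine ⟨i / 2, by omega, fun i' d' a1 a2 a3 a4 => ?_⟩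
    by_cases h2 : i' % 2 = 1 ∧ rr H d' < dist (p (i' / 2)) (p (i' / 2 + 1))
    · have e : i' / 2 = i / 2 := by omega
      exact Or.inr ⟨by rw [hv, if_pos h2, e],
        ht _ (by omega) d' a4 (e ▸ h2.2) _ (Or.inl rfl)⟩
    · refine Or.inl ⟨i' / 2, ?_, by rw [hv, if_neg h2]⟩
      rcases (by omega : i' / 2 = i / 2 ∨ (i' / 2 = i / 2 + 1 ∧ i % 2 = 1)) with e | ⟨e, e'⟩
      · rw [e, dist_self]
        exact (rr_pos d).le
      · rw [e]
        exact not_lt.1 fun h' => hc ⟨e', h'⟩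

/-- One wall: a good view near the shell, or a small cell with a jump. -/
theorem FanH.one_wall (F : FanH H NF z₀ R E η N) (V : Vw H) (hM : Hull Z M) {z : Z} {n m s b : ℕ}
    (hms : m ≤ s) (hb : M * (V.W + 1) * rr H b < 1) {Λ τ lo hi D a' b' γ : ℝ} {κ : Set Z}
    (hη : η ≤ rr H (n + s + b)) (hD : 16 * η ≤ D) (hlo : lo ∈ F.T) (hhi : hi ∈ F.T)
    (ha : lo + D / 4 ≤ a') (hab : a' < b') (hb' : b' + D / 4 ≤ hi) (hκ : IsPreconnected κ)
    (h1 : (F.c lo ∩ κ).Nonempty) (h2 : (F.c hi ∩ κ).Nonempty) (h3 : κ ⊆ ball z (τ - η))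
    (hτ : τ + (V.W + 2) * rr H n ≤ Λ * rr H n) (hR : dist z z₀ + Λ * rr H n ≤ R)
    (hp : ∀ x, dist x z ≤ Λ * rr H n → F.ph x (n + m) < D / 8)
    (htop : ∀ g, H.len g = n + m + b → dist z (H.loc g) ≤ Λ * rr H n →
      F.u (V.wit g) ≤ a' ∨ b' ≤ F.u (V.wit g))
    (htop' : ∀ x t, dist x z ≤ Λ * rr H n → Holey NF F.u η (rr H (n + m + b) / 8) x t →
      t ≤ a' ∨ b' ≤ t) (hγ0 : 0 < γ)
    (hγ : ∀ g, n ≤ H.len g → H.len g ≤ n + s + b → dist z (H.loc g) ≤ Λ * rr H n → ∀ j ∈ V.J,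
      γ ≤ 2 * |a' - F.u (g • j)| ∧ γ ≤ 2 * |b' - F.u (g • j)|)
    (hγ' : ∀ x t, dist x z ≤ Λ * rr H n → Holey NF F.u η (rr H (n + s + b) / 8) x t →
      γ + 2 * η ≤ 2 * |a' - t| ∧ γ + 2 * η ≤ 2 * |b' - t|) :
    (∃ p, τ ≤ dist p z ∧ dist p z ≤ τ + η ∧ b' - a' - 3 * η ≤ F.ph p (n + s)) ∨
      ∃ g, n + m ≤ H.len g ∧ H.len g ≤ n + s + b ∧ dist z (H.loc g) ≤ Λ * rr H n ∧
        |τ - dist z (H.loc g)| ≤ (V.W + 1) * H.sc g ∧ GoodH V NF F.u η γ g := by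
  have hW := V.one_le
  have hη0 := F.η_pos
  have hr := rr_pos (H := H) n
  have hηn : η ≤ rr H n := hη.trans (rr_anti (by omega))
  have hWr : rr H n ≤ V.W * rr H n := le_mul_of_one_le_left hr.le hW
  obtain ⟨k, p, hp1, hp2, hp3, hp4⟩ := F.sh z τ κ lo hlo hi hhi (by linarith) hκ h1 h2 h3
    (by linarith)
  obtain ⟨val, t, v0, v1, v2, v3⟩ := fnwall_val H (fun j d => F.u (V.wit (V.vw (p j) d))) hη hp2
  have hz : ∀ j ≤ k, dist (p j) z ≤ Λ * rr H n := fun j hj => by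
    have := (hp1 j hj).2
    linarith
  have hR' : ∀ j ≤ k, ∀ e, n ≤ e → dist (p j) z₀ + rr H e ≤ R := fun j hj e he => by
    have h4 := (hp1 j hj).2
    have h5 := dist_triangle (p j) z z₀
    have h6 := rr_anti (H := H) he
    linarith
  have hw : ∀ j d e, e ≤ d → dist (p j) (V.wit (V.vw (p j) d)) ≤ V.W * rr H e := fun j d e he =>
    (V.wit_near _ _).trans (mul_le_mul_of_nonneg_left (rr_anti he) (by linarith))
  have hw' : ∀ j d e, e ≤ d → dist (p j) (V.wit (V.vw (p j) d)) ≤ (V.W + 1) * rr H e :=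
    fun j d e he => by
      have h4 := hw j d e he
      have h5 := rr_pos (H := H) e
      linarith
  have h0 : ∀ j e, dist (p j) (p j) ≤ (V.W + 1) * rr H e := fun j e => by
    rw [dist_self]
    exact (mul_pos (by linarith) (rr_pos _)).le
  have hl : ∀ j ≤ k, ∀ d, n ≤ d → dist z (H.loc (V.vw (p j) d)) ≤ Λ * rr H n :=
    fun j hj d hd => by
      have h4 := (hp1 j hj).2
      have h5 := dist_triangle z (p j) (H.loc (V.vw (p j) d))
      have h6 := (V.loc_vw (p j) d).trans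
        (mul_le_mul_of_nonneg_left (rr_anti (H := H) hd) (by linarith))
      rw [dist_comm z (p j)] at h5
      linarith
  rcases wall_parity (fun i d => fnwall_col a' b' (val i d)) (2 * k) (n + m + b)
    (n + s + b) (by omega)
    (fun d hd _ => fnwall_zero.2 (by
      have h4 := fnwall_jump F hM hW hb (h0 0 _) (hw' 0 d _ hd) (hR' 0 k.zero_le _ (by omega))
      have h5 := hp _ (hz 0 k.zero_le)
      rw [v0]
      linarith))
    (fun d hd _ => (fnwall_two hab).2 (by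
      have h4 := fnwall_jump F hM hW hb (hw' k d _ hd) (h0 k _) (hR' k le_rfl _ (by omega))
      have h5 := hp _ (hz k le_rfl)
      rw [v1]
      linarith))
    (fun i hi h4 => by
      obtain ⟨h5, h6⟩ := fnwall_one.1 h4
      obtain ⟨j, hj, h7 | h7⟩ := v2 i hi (n + m + b) (by omega)
      · rw [h7] at h5 h6
        rcases htop _ (V.len_vw (p j) _) (hl j hj _ (by omega)) with h8 | h8 <;> linarith
      · rcases htop' _ _ (hz j hj) h7 with h8 | h8 <;> linarith) with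
    ⟨i, hi, h4⟩ | ⟨i, hi, d, hd, hd', h4⟩
  · obtain ⟨j, hj, hf⟩ := v3 i hi (n + s + b)
    have h5 : ∀ i', i ≤ i' → i' ≤ i + 1 → ∃ x, dist (p j) x ≤ (V.W + 1) * rr H (n + s + b) ∧
        |F.u x - val i' (n + s + b)| ≤ η := fun i' e1 e2 => by
      rcases hf i' _ e1 e2 le_rfl le_rfl with ⟨j', e3, e4⟩ | ⟨e3, al, -, e4, -, e5⟩
      · refine ⟨V.wit (V.vw (p j') (n + s + b)), ?_, by rw [e4, sub_self, abs_zero]; exact hη0.le⟩
        have h7 := dist_triangle (p j) (p j') (V.wit (V.vw (p j') (n + s + b)))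
        have h8 := hw j' (n + s + b) _ le_rfl
        linarith
      · exact ⟨p j, h0 _ _, e3 ▸ e5 _ e4⟩
    obtain ⟨x, x1, x2⟩ := h5 i le_rfl (by omega)
    obtain ⟨y, y1, y2⟩ := h5 (i + 1) (by omega) le_rfl
    rw [abs_le] at x2 y2
    refine Or.inl ⟨p j, (hp1 j hj).1, (hp1 j hj).2, ?_⟩
    rcases h4 with ⟨h7, h8⟩ | ⟨h7, h8⟩
    · have h9 := fnwall_jump F hM hW hb x1 y1 (hR' j hj _ (by omega))
      have := fnwall_zero.1 h7
      have := (fnwall_two hab).1 h8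
      linarith [x2.2, y2.1]
    · have h9 := fnwall_jump F hM hW hb y1 x1 (hR' j hj _ (by omega))
      have := fnwall_zero.1 h8
      have := (fnwall_two hab).1 h7
      linarith [x2.1, y2.2]
  · obtain ⟨j, hj, hf⟩ := v3 i hi d
    have hηd : η ≤ rr H d := hη.trans (rr_anti hd'.le)
    have h5 : ∀ e : Fin 3, (∃ y ∈ V.J, fnwall_col a' b' (F.u (V.vw (p j) d • y)) = e) ∨
        (fnwall_col a' b' (t i) = e ∧ Holey NF F.u η (rr H (d + 1) / 8) (p j) (t i)) := fun e => by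
      obtain ⟨i', d', e1, e2, e3, e4, e5⟩ := h4 e
      rcases hf i' d' e1 e2 e3 (by omega) with ⟨j', e6, e7⟩ | ⟨e6, e7⟩
      · obtain ⟨y, hy1, hy2⟩ := V.face (p j) (p j') d d' e6 e3 e4
        exact Or.inl ⟨y, hy1, by rw [← hy2, ← e7]; exact e5⟩
      · exact Or.inr ⟨by rw [← e6]; exact e5, e7.mono (by linarith [rr_anti (H := H) e4])⟩
    have h6 : ∀ e : Fin 3, ∃ y ∈ V.J, (∃ y ∈ V.J, fnwall_col a' b' (F.u (V.vw (p j) d • y)) = e) →
        fnwall_col a' b' (F.u (V.vw (p j) d • y)) = e := fun e => by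
      by_cases h : ∃ y ∈ V.J, fnwall_col a' b' (F.u (V.vw (p j) d • y)) = e
      · obtain ⟨y, y1, y2⟩ := h
        exact ⟨y, y1, fun _ => y2⟩
      · obtain ⟨y, y1, -⟩ := V.face (p j) (p j) d d (by rw [dist_self]; exact (rr_pos _).le)
          le_rfl (by omega)
        exact ⟨y, y1, fun h' => absurd h' h⟩
    choose y y1 y2 using h6
    have hlen := V.len_vw (p j) d
    have hloc := hl j hj d (by omega)
    have h8 := V.loc_vw (p j) d
    refine Or.inr ⟨V.vw (p j) d, by omega, by omega, hloc, ?_, y, y1, ?_⟩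
    · obtain ⟨h6, h7⟩ := hp1 j hj
      have h9 := dist_triangle z (p j) (H.loc (V.vw (p j) d))
      have h10 := dist_triangle_right (p j) z (H.loc (V.vw (p j) d))
      rw [dist_comm z (p j)] at h9
      rw [sc_eq, hlen, abs_le]
      constructor <;> linarith
    by_cases hall : ∀ e, ∃ y ∈ V.J, fnwall_col a' b' (F.u (V.vw (p j) d • y)) = e
    · exact Or.inl (fnwall_good hab (fun c => F.u (V.vw (p j) d • y c)) fun c =>
        ⟨y2 c (hall c), hγ _ (by omega) (by omega) hloc _ (y1 c)⟩)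
    obtain ⟨e, he⟩ := not_forall.1 hall
    obtain ⟨e1, e2⟩ := (h5 e).resolve_left he
    obtain ⟨g1, g2⟩ := hγ' _ _ (hz j hj)
      (e2.mono (by linarith [rr_anti (H := H) (show d + 1 ≤ n + s + b from hd')]))
    obtain ⟨al, a1, a2, ⟨q, a3, a4⟩, a5⟩ := e2
    refine Or.inr ⟨e, al, a1, ⟨p j, a2, q, a3, by rwa [sc_eq, hlen], ?_⟩, fun w hw =>
      fnwall_good hab (fun c => F.u (V.vw (p j) d • Function.update y e w c)) fun c => ?_⟩
    · have h9 := H.s1b_a_pos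
      rw [sc_eq, hlen, ← rr_succ d, mul_comm 8, mul_div_mul_left _ _ h9.ne']
      exact a4
    · by_cases hc : c = e
      · rw [hc, Function.update_self, ← e1]
        exact fnwall_near hγ0 (a5 _ hw) g1 g2
      · rw [Function.update_of_ne hc]
        exact ⟨y2 c ((h5 c).resolve_right fun h => hc (h.1.symm.trans e1)),
          hγ _ (by omega) (by omega) hloc _ (y1 c)⟩

end KFan
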