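import Mathlib

/-! Sides of cut points. -/

namespace KKC

open Set Filter Topology
open scoped Pointwise

variable {Z : Type} [MetricSpace Z]

/-- `U` is a side of the cut point `p`. -/
def Side (U : Set Z) (p : Z) : Prop :=
  IsOpen U ∧ closure U = insert p U ∧ p ∉ U ∧ U.Nonempty ∧ (closure U)ᶜ.Nonempty

/-- `U` is open and closed in the complement of `c`. -/
def Clo (c : Z) (U : Set Z) : Prop := c ∉ U ∧ ∀ x, x ≠ c → ∀ᶠ y in 𝓝 x, (y ∈ U ↔ x ∈ U)

theorem side_of [PreconnectedSpace Z] {U : Set Z} {p : Z} (h1 : IsOpen U)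
    (h2 : IsClosed (insert p U)) (h3 : p ∉ U) (h4 : U.Nonempty) (h5 : (insert p U)ᶜ.Nonempty) :
    Side U p := by
  have h6 : closure U ⊆ insert p U := closure_minimal (subset_insert _ _) h2
  have h7 : p ∈ closure U := by
    by_contra h
    have h8 : IsClosed U := isClosed_of_closure_subset fun x hx =>
      (h6 hx).resolve_left fun e => h (e ▸ hx)
    exact h3 ((isClopen_iff.1 ⟨h8, h1⟩).resolve_left h4.ne_empty ▸ mem_univ p)
  have h8 : closure U = insert p U := h6.antisymm (insert_subset h7 subset_closure)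
  exact ⟨h1, h8, h3, h4, h8 ▸ h5⟩

theorem Clo.side [PreconnectedSpace Z] {U : Set Z} {c : Z} (h : Clo c U) (h4 : U.Nonempty)
    (h5 : (insert c U)ᶜ.Nonempty) : Side U c := by
  refine side_of (isOpen_iff_mem_nhds.2 fun x hx => ?_)
    (isOpen_compl_iff.1 (isOpen_iff_mem_nhds.2 fun x hx => ?_)) h.1 h4 h5
  · filter_upwards [h.2 x fun e => h.1 (e ▸ hx)] with y hy using hy.2 hx
  · have hx' : x ≠ c ∧ x ∉ U := by simpa using hx
    filter_upwards [h.2 x hx'.1, isOpen_ne.mem_nhds hx'.1] with y hy hy'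
    exact fun h1 => h1.elim hy' fun h2 => hx'.2 (hy.1 h2)

namespace Side

variable {U V : Set Z} {p q : Z}

theorem isOpen (h : Side U p) : IsOpen U := h.1

theorem mem_closure (h : Side U p) : p ∈ closure U := h.2.1 ▸ mem_insert _ _

theorem mem_of_ne (h : Side U p) {x : Z} (hx : x ∈ closure U) (hp : x ≠ p) : x ∈ U :=
  (show x ∈ insert p U from h.2.1 ▸ hx).resolve_left hp

theorem unique (h : Side U p) (h' : Side U q) : p = q := by
  by_contra e
  exact h.2.2.1 (h'.mem_of_ne h.mem_closure e)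

theorem clo (h : Side U p) : Clo p U := by
  refine ⟨h.2.2.1, fun x hx => ?_⟩
  by_cases hU : x ∈ U
  · filter_upwards [h.1.mem_nhds hU] with y hy using iff_of_true hy hU
  · filter_upwards [isClosed_closure.isOpen_compl.mem_nhds fun k => hU (h.mem_of_ne k hx)] with y hy
    exact iff_of_false (fun k => hy (subset_closure k)) hU

theorem insert_compl (h : Side U p) : insert p (closure U)ᶜ = Uᶜ := by
  ext x
  by_cases e : x = p
  · simpa [e] using h.2.2.1
  · simp [h.2.1, e]

/-- The opposite side. -/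
theorem compl [PreconnectedSpace Z] (h : Side U p) : Side (closure U)ᶜ p :=
  side_of isClosed_closure.isOpen_compl (h.insert_compl ▸ h.1.isClosed_compl)
    (fun k => k h.mem_closure) h.2.2.2.2 (by rw [h.insert_compl, compl_compl]; exact h.2.2.2.1)

theorem closure_compl [PreconnectedSpace Z] (h : Side U p) : closure (closure U)ᶜ = Uᶜ :=
  h.compl.2.1.trans h.insert_compl

theorem smul {G : Type} [Group G] [MulAction G Z] [ContinuousConstSMul G Z] (h : Side U p)
    (g : G) : Side (g • U) (g • p) := by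
  refine ⟨h.1.smul g, ?_, fun k => h.2.2.1 (smul_mem_smul_set_iff.1 k), h.2.2.2.1.smul_set, ?_⟩
  · rw [closure_smul, h.2.1, smul_set_insert]
  · rw [closure_smul, ← smul_set_compl]
    exact h.2.2.2.2.smul_set

theorem subset_or (h : Side U p) {E : Set Z} (hE : IsPreconnected E) (hp : p ∉ E) :
    E ⊆ U ∨ E ⊆ (closure U)ᶜ :=
  hE.subset_or_subset h.1 isClosed_closure.isOpen_compl
    (disjoint_compl_right.mono_left subset_closure) fun x hx =>
      (em (x ∈ closure U)).imp (fun k => h.mem_of_ne k fun e => hp (e ▸ hx)) id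

theorem pre_closure [PreconnectedSpace Z] (h : Side U p) : IsPreconnected (closure U) := by
  have key : ∀ u v : Set Z, IsClosed u → IsClosed v → closure U ⊆ u ∪ v → Disjoint u v → p ∈ u →
      closure U ⊆ u := by
    intro u v hu hv hs hd hp
    have e : closure U ∩ v = U ∩ uᶜ := by
      ext x
      refine ⟨fun hx => ?_, fun hx => ⟨subset_closure hx.1,
        (hs (subset_closure hx.1)).resolve_left hx.2⟩⟩
      have h1 : x ∉ u := disjoint_right.1 hd hx.2
      exact ⟨h.mem_of_ne hx.1 fun k => h1 (k ▸ hp), h1⟩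
    rcases isClopen_iff.1 ⟨isClosed_closure.inter hv, e ▸ h.1.inter hu.isOpen_compl⟩ with k | k
    · exact fun x hx => (hs hx).resolve_right fun h1 => (k ▸ ⟨hx, h1⟩ : x ∈ (∅ : Set Z))
    · exact absurd (k ▸ mem_univ p : p ∈ closure U ∩ v).2 (disjoint_left.1 hd hp)
  rw [isPreconnected_iff_subset_of_fully_disjoint_closed isClosed_closure]
  intro u v hu hv hs hd
  rcases hs h.mem_closure with k | k
  · exact Or.inl (key u v hu hv hs hd k)
  · exact Or.inr (key v u hv hu (union_comm u v ▸ hs) hd.symm k)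

theorem pre_diff [PreconnectedSpace Z] (h : Side U p) (h' : Side V q) (hV : closure V ⊆ U) :
    IsPreconnected (closure U \ V) := by
  have hK : IsClosed (closure U \ V) := isClosed_closure.sdiff h'.1
  have hp : p ∈ closure U \ V := ⟨h.mem_closure, fun k => h.2.2.1 (hV (subset_closure k))⟩
  have hq : q ∈ closure U \ V := ⟨subset_closure (hV h'.mem_closure), h'.2.2.1⟩
  have key : ∀ u v : Set Z, IsClosed u → IsClosed v → closure U \ V ⊆ u ∪ v → Disjoint u v →
      p ∈ u → closure U \ V ⊆ u := by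
    intro u v hu hv hs hd hpu
    have hU : ∀ x ∈ closure U, x ∈ v → x ∈ U := fun x hx hxv =>
      h.mem_of_ne hx fun k => disjoint_left.1 hd hpu (k ▸ hxv)
    rcases hs hq with hqu | hqv
    · have e : (closure U \ V) ∩ v = U ∩ (closure V)ᶜ ∩ uᶜ := by
        ext x
        refine ⟨fun hx => ?_, fun hx => ?_⟩
        · have h1 : x ∉ u := disjoint_right.1 hd hx.2
          exact ⟨⟨hU x hx.1.1 hx.2, fun k => hx.1.2 (h'.mem_of_ne k fun k' => h1 (k' ▸ hqu))⟩, h1⟩
        · have h1 : x ∈ closure U \ V := ⟨subset_closure hx.1.1, fun k => hx.1.2 (subset_closure k)⟩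
          exact ⟨h1, (hs h1).resolve_left hx.2⟩
      rcases isClopen_iff.1 ⟨hK.inter hv, e ▸ (h.1.inter isClosed_closure.isOpen_compl).inter
        hu.isOpen_compl⟩ with k | k
      · exact fun x hx => (hs hx).resolve_right fun h1 => (k ▸ ⟨hx, h1⟩ : x ∈ (∅ : Set Z))
      · exact absurd (k ▸ mem_univ p : p ∈ (closure U \ V) ∩ v).2 (disjoint_left.1 hd hpu)
    · exfalso
      have e : ((closure U \ V) ∩ v) ∪ closure V = U ∩ ((closure U \ V) ∩ u)ᶜ := by
        ext x
        refine ⟨?_, fun hx => ?_⟩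
        · rintro (hx | hx)
          · exact ⟨hU x hx.1.1 hx.2, fun k => disjoint_left.1 hd k.2 hx.2⟩
          · refine ⟨hV hx, fun k => k.1.2 (h'.mem_of_ne hx fun k' => ?_)⟩
            exact disjoint_left.1 hd k.2 (k' ▸ hqv)
        · by_cases h1 : x ∈ V
          · exact Or.inr (subset_closure h1)
          · have h2 : x ∈ closure U \ V := ⟨subset_closure hx.1, h1⟩
            exact Or.inl ⟨h2, (hs h2).resolve_left fun k => hx.2 ⟨h2, k⟩⟩
      rcases isClopen_iff.1 ⟨(hK.inter hv).union isClosed_closure,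
        e ▸ h.1.inter (hK.inter hu).isOpen_compl⟩ with k | k
      · exact (k ▸ Or.inr h'.mem_closure : q ∈ (∅ : Set Z))
      · rw [e] at k
        exact h.2.2.1 (k ▸ mem_univ p : p ∈ U ∩ ((closure U \ V) ∩ u)ᶜ).1
  rw [isPreconnected_iff_subset_of_fully_disjoint_closed hK]
  intro u v hu hv hs hd
  rcases hs hp with k | k
  · exact Or.inl (key u v hu hv hs hd k)
  · exact Or.inr (key v u hv hu (union_comm u v ▸ hs) hd.symm k)

/-- Sides of different points are nested. -/
theorem nested [PreconnectedSpace Z] (h : Side U p) (h' : Side V q) (hpq : p ≠ q) :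
    closure U ⊆ V ∨ closure V ⊆ U ∨ Disjoint (closure U) (closure V) ∨ U ∪ V = univ := by
  by_cases hp : p ∈ closure V
  · have h1 : IsPreconnected Vᶜ := h'.closure_compl ▸ h'.compl.pre_closure
    rcases h.subset_or h1 (fun k => k (h'.mem_of_ne hp hpq)) with k | k
    · exact Or.inr (Or.inr (Or.inr (eq_univ_of_forall fun x =>
        (em (x ∈ V)).symm.imp (fun e => k e) id)))
    · exact Or.inl (compl_subset_compl.1 k)
  · rcases h.subset_or h'.pre_closure hp with k | k
    · exact Or.inr (Or.inl k)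
    · exact Or.inr (Or.inr (Or.inl (disjoint_right.2 k)))

end Side

/-- A cut point has a side. -/
theorem exists_side [PreconnectedSpace Z] {c : Z} (h : ¬ IsPreconnected ({c}ᶜ : Set Z)) :
    ∃ U, Side U c := by
  rw [IsPreconnected] at h
  push Not at h
  obtain ⟨u, v, hu, hv, hs, ⟨x, hx⟩, ⟨y, hy⟩, he⟩ := h
  have hd : ∀ z, z ≠ c → z ∈ u → z ∉ v := fun z h1 h2 h3 =>
    (he ▸ ⟨h1, h2, h3⟩ : z ∈ (∅ : Set Z))
  have e : insert c (u ∩ {c}ᶜ) = (v ∩ {c}ᶜ)ᶜ := by
    ext z
    by_cases k : z = c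
    · simp [k]
    · have := hs (show z ∈ ({c}ᶜ : Set Z) from k)
      have := hd z k
      simp only [mem_insert_iff, mem_inter_iff, mem_compl_iff, mem_singleton_iff, mem_union] at *
      tauto
  refine ⟨u ∩ {c}ᶜ, side_of (hu.inter isOpen_compl_singleton)
    (e ▸ (hv.inter isOpen_compl_singleton).isClosed_compl) (fun k => k.2 rfl) ⟨x, hx.2, hx.1⟩ ?_⟩
  rw [e, compl_compl]
  exact ⟨y, hy.2, hy.1⟩

end KKC
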