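import Pool.Agent.Lib.MP_e1e491_gt.V1
import Pool.Agent.Lib.MP_e1e491_gt.LcSide

/-! Stabilisers of boundary points; a cut point has a side with finite stabiliser. -/

namespace KKC.HB

open Set Filter Topology
open scoped Pointwise

variable {G Z : Type} [Group G] [MetricSpace Z] [MulAction G Z] (H : HB G Z)

/-- The derivative of `g` at `c`. -/
noncomputable def der (c : Z) (g : G) : ℝ := H.sc g / H.q (.inr c) (.inl g⁻¹) ^ 2

theorem q_pos (x : G ⊕ Z) (g : G) : 0 < H.q x (.inl g) := by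
  have h1 := (H.sc_pos g).trans_le (H.sc_le_q x g)
  exact pos_of_mul_pos_left (by rwa [mul_comm] at h1) (zero_le_one.trans H.hC)

theorem der_pos (c : Z) (g : G) : 0 < H.der c g :=
  div_pos (H.sc_pos g) (pow_pos (H.q_pos _ _) 2)

theorem sc_le_der (c : Z) (g : G) : H.sc g ≤ H.der c g :=
  le_div_self (H.sc_pos g).le (pow_pos (H.q_pos _ _) 2)
    (pow_le_one₀ (H.q_nonneg _ _) (H.q_le_one _ _))

theorem st_le {c : Z} {g : G} {x : G ⊕ Z} (h : H.C * H.q (.inr c) x < H.q (.inr c) (.inl g⁻¹)) :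
    H.q (.inr c) (.inl g⁻¹) ≤ H.C * H.q x (.inl g⁻¹) ∧
      H.q x (.inl g⁻¹) ≤ H.C * H.q (.inr c) (.inl g⁻¹) := by
  have hC := H.hC
  have h0 := H.q_nonneg (.inr c) x
  constructor
  · have h1 := H.ultra (.inr c) x (.inl g⁻¹)
    rcases le_total (H.q (.inr c) x) (H.q x (.inl g⁻¹)) with k | k
    · rwa [max_eq_right k] at h1
    · rw [max_eq_left k] at h1
      linarith
  · have h1 := H.ultra x (.inr c) (.inl g⁻¹)
    rwa [max_eq_right (by rw [H.q_comm x]; nlinarith)] at h1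

/-- Near a fixed point the element acts like a homothety. -/
theorem der_q {c : Z} {g : G} (hg : g • c = c) {x : G ⊕ Z}
    (h : H.C * H.q (.inr c) x < H.q (.inr c) (.inl g⁻¹)) :
    H.q (.inr c) (g • x) ≤ H.C ^ 2 * H.der c g * H.q (.inr c) x := by
  have h1 := H.mob_le g (.inr c) x
  rw [Sum.smul_inr, hg] at h1
  have h2 := (H.st_le h).1
  have p := H.q_pos (.inr c) g⁻¹
  have hC := H.hC
  have h3 := H.q_nonneg (.inr c) (g • x)
  rw [der, ← mul_div_assoc, div_mul_eq_mul_div, le_div_iff₀ (by positivity)]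
  calc _ = H.q (.inr c) (g • x) * H.q (.inr c) (.inl g⁻¹) * H.q (.inr c) (.inl g⁻¹) := by ring
    _ ≤ H.q (.inr c) (g • x) * H.q (.inr c) (.inl g⁻¹) * (H.C * H.q x (.inl g⁻¹)) := by gcongr
    _ = H.C * (H.q (.inr c) (g • x) * H.q (.inr c) (.inl g⁻¹) * H.q x (.inl g⁻¹)) := by ring
    _ ≤ H.C * (H.C * (H.sc g * H.q (.inr c) x)) := mul_le_mul_of_nonneg_left h1 (by linarith)
    _ = _ := by ring

theorem der_sc {c : Z} {g f : G} (h : H.C * H.q (.inr c) (.inl f) < H.q (.inr c) (.inl g⁻¹)) :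
    H.sc (g * f) ≤ H.C ^ 3 * H.der c g * H.sc f ∧
      H.der c g * H.sc f ≤ H.C ^ 3 * H.sc (g * f) := by
  have h1 := H.mob_le g (.inl f) (.inl f)
  have h1' := H.le_mob g (.inl f) (.inl f)
  rw [Sum.smul_inl, smul_eq_mul, H.q_self, H.q_self] at h1 h1'
  obtain ⟨h2, h3⟩ := H.st_le h
  have p := H.q_pos (.inr c) g⁻¹
  have p' := H.q_pos (.inl f) g⁻¹
  have hC := H.hC
  have h4 := H.sc_pos (g * f)
  constructor
  · rw [der, ← mul_div_assoc, div_mul_eq_mul_div, le_div_iff₀ (by positivity)]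
    calc _ ≤ H.sc (g * f) * (H.C * H.q (.inl f) (.inl g⁻¹)) ^ 2 := by gcongr
      _ = H.C ^ 2 * (H.sc (g * f) * H.q (.inl f) (.inl g⁻¹) * H.q (.inl f) (.inl g⁻¹)) := by ring
      _ ≤ H.C ^ 2 * (H.C * (H.sc g * H.sc f)) := mul_le_mul_of_nonneg_left h1 (by positivity)
      _ = _ := by ring
  · rw [der, div_mul_eq_mul_div, div_le_iff₀ (by positivity)]
    calc _ ≤ H.C * (H.sc (g * f) * H.q (.inl f) (.inl g⁻¹) * H.q (.inl f) (.inl g⁻¹)) := h1'
      _ ≤ H.C * (H.sc (g * f) * (H.C * H.q (.inr c) (.inl g⁻¹)) *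
          (H.C * H.q (.inr c) (.inl g⁻¹))) := by gcongr
      _ = _ := by ring

theorem exists_deep (c : Z) {ε : ℝ} (hε : 0 < ε) :
    ∃ f, H.q (.inr c) (.inl f) ≤ H.C * H.sc f ∧ H.q (.inr c) (.inl f) < ε := by
  have hC := H.hC
  obtain ⟨n, hn⟩ := H.exists_sc_lt (ε := ε / H.C) (by positivity)
  obtain ⟨f, h1, h2⟩ := H.ray c n
  have h3 : H.q (.inr c) (.inl f) ≤ H.C * H.sc f := by rwa [sc, h1]
  have h4 := hn f h1.ge
  rw [lt_div_iff₀ (by positivity)] at h4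
  exact ⟨f, h3, by linarith⟩

/-- The chain rule. -/
theorem der_mul {c : Z} (g : G) {h : G} (hh : h • c = c) :
    H.der c (g * h) ≤ H.C ^ 9 * (H.der c g * H.der c h) ∧
      H.der c g * H.der c h ≤ H.C ^ 9 * H.der c (g * h) := by
  have hC := H.hC
  have p1 := H.q_pos (.inr c) g⁻¹
  have p2 := H.q_pos (.inr c) h⁻¹
  have p3 := H.q_pos (.inr c) (g * h)⁻¹
  have d1 := H.der_pos c g
  have d2 := H.der_pos c h
  have d3 := H.der_pos c (g * h)
  obtain ⟨f, -, hf⟩ := H.exists_deep c (ε := min (H.q (.inr c) (.inl g⁻¹) / (H.C ^ 3 * H.der c h))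
    (min (H.q (.inr c) (.inl h⁻¹) / H.C) (H.q (.inr c) (.inl (g * h)⁻¹) / H.C))) (by positivity)
  rw [lt_min_iff, lt_min_iff, lt_div_iff₀' (by positivity), lt_div_iff₀' (by positivity),
    lt_div_iff₀' (by positivity)] at hf
  obtain ⟨f1, f2, f3⟩ := hf
  have f4 : H.C * H.q (.inr c) (.inl (h * f)) < H.q (.inr c) (.inl g⁻¹) := by
    have := H.der_q hh f2
    rw [Sum.smul_inl, smul_eq_mul] at this
    refine lt_of_le_of_lt ?_ f1
    calc _ ≤ H.C * (H.C ^ 2 * H.der c h * H.q (.inr c) (.inl f)) := by gcongr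
      _ = _ := by ring
  obtain ⟨a1, a2⟩ := H.der_sc f2
  obtain ⟨b1, b2⟩ := H.der_sc f3
  obtain ⟨c1, c2⟩ := H.der_sc f4
  rw [← mul_assoc g] at c1 c2
  have s := H.sc_pos f
  have h3 : H.C ^ 3 ≤ H.C ^ 3 := le_rfl
  constructor
  · refine le_of_mul_le_mul_right ?_ s
    calc _ ≤ H.C ^ 3 * H.sc (g * h * f) := b2
      _ ≤ H.C ^ 3 * (H.C ^ 3 * H.der c g * H.sc (h * f)) := by gcongr
      _ ≤ H.C ^ 3 * (H.C ^ 3 * H.der c g * (H.C ^ 3 * H.der c h * H.sc f)) := by gcongr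
      _ = _ := by ring
  · refine le_of_mul_le_mul_right ?_ s
    calc _ = H.der c g * (H.der c h * H.sc f) := by ring
      _ ≤ H.der c g * (H.C ^ 3 * H.sc (h * f)) := by gcongr
      _ = H.C ^ 3 * (H.der c g * H.sc (h * f)) := by ring
      _ ≤ H.C ^ 3 * (H.C ^ 3 * H.sc (g * h * f)) := by gcongr
      _ ≤ H.C ^ 3 * (H.C ^ 3 * (H.C ^ 3 * H.der c (g * h) * H.sc f)) := by gcongr
      _ = _ := by ring

/-- The derivative is proper on the stabiliser. -/
theorem der_proper (c : Z) {a : ℝ} (ha : 0 < a) (b : ℝ) :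
    {g : G | g • c = c ∧ a ≤ H.der c g ∧ H.der c g ≤ b}.Finite := by
  classical
  by_contra hinf
  have hC := H.hC
  set M := H.C * (H.C ^ 2 * max b 1 * H.C) with hM
  have hb1 : 1 ≤ max b 1 := le_max_right _ _
  have hF := H.finite_sc (ε := a / (H.C ^ 3 * M ^ 2)) (by positivity)
  obtain ⟨T, hT, hc⟩ := Set.Infinite.exists_subset_card_eq hinf (hF.toFinset.card + 1)
  obtain ⟨ε, hε, hε'⟩ : ∃ ε > 0, ∀ g ∈ T, ε ≤ H.q (.inr c) (.inl g⁻¹) := by
    rcases T.eq_empty_or_nonempty with h | h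
    · exact ⟨1, one_pos, by simp [h]⟩
    · obtain ⟨g, -, hg⟩ := T.exists_min_image (fun g => H.q (.inr c) (.inl g⁻¹)) h
      exact ⟨_, H.q_pos _ _, hg⟩
  obtain ⟨f, f1, f2⟩ := H.exists_deep c (ε := ε / H.C) (by positivity)
  rw [lt_div_iff₀' (by positivity)] at f2
  have s := H.sc_pos f
  have hmap : ∀ g ∈ T, f⁻¹ * (g * f) ∈ hF.toFinset := by
    intro g hg
    obtain ⟨g1, g2, g3⟩ := hT hg
    have d := f2.trans_le (hε' g hg)
    have a1 := H.der_q g1 d
    rw [Sum.smul_inl, smul_eq_mul] at a1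
    have a2 := (H.der_sc d).2
    have a3 := H.q_sq f (g * f)
    have a4 : H.q (.inl f) (.inl (g * f)) ≤ M * H.sc f := by
      refine (H.ultra _ (.inr c) _).trans ?_
      rw [hM, mul_assoc]
      refine mul_le_mul_of_nonneg_left (max_le ?_ ?_) (by linarith)
      · rw [H.q_comm]
        calc _ ≤ H.C * H.sc f := f1
          _ = 1 * 1 * H.C * H.sc f := by ring
          _ ≤ _ := by gcongr; exact one_le_pow₀ hC
      · calc _ ≤ H.C ^ 2 * H.der c g * H.q (.inr c) (.inl f) := a1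
          _ ≤ H.C ^ 2 * max b 1 * (H.C * H.sc f) := by
            gcongr
            · exact H.q_nonneg _ _
            · exact g3.trans (le_max_left _ _)
          _ = _ := by ring
    have a5 := H.sc_pos (f⁻¹ * (g * f))
    rw [Set.Finite.mem_toFinset, mem_ofPred_eq, div_le_iff₀ (by positivity)]
    refine le_of_mul_le_mul_right ?_ (mul_pos s s)
    calc a * (H.sc f * H.sc f) = H.sc f * (a * H.sc f) := by ring
      _ ≤ H.sc f * (H.der c g * H.sc f) := by gcongr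
      _ ≤ H.sc f * (H.C ^ 3 * H.sc (g * f)) := by gcongr
      _ = H.C ^ 3 * (H.q (.inl f) (.inl (g * f)) ^ 2 * H.sc (f⁻¹ * (g * f))) := by rw [a3]; ring
      _ ≤ H.C ^ 3 * ((M * H.sc f) ^ 2 * H.sc (f⁻¹ * (g * f))) := by
        gcongr
        exact H.q_nonneg _ _
      _ = _ := by ring
  have := Finset.card_le_card_of_injOn (fun g => f⁻¹ * (g * f)) hmap fun x _ y _ h => by
    simpa using h
  omega

theorem der_inv {c : Z} {g : G} (hg : g • c = c) :
    H.der c g⁻¹ * H.der c g ≤ H.C ^ 9 * H.der c 1 := by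
  simpa using (H.der_mul g⁻¹ hg).2

theorem exists_der_lt {c : Z} (hinf : {g : G | g • c = c}.Infinite) {t : ℝ} (ht : 0 < t) :
    ∃ g : G, g • c = c ∧ H.der c g < t := by
  obtain ⟨g, hg, hn⟩ := hinf.exists_notMem_finite (H.der_proper c ht (H.C ^ 9 * H.der c 1 / t))
  by_cases h : H.der c g < t
  · exact ⟨g, hg, h⟩
  have h1 : H.C ^ 9 * H.der c 1 / t < H.der c g := by
    by_contra k
    exact hn ⟨hg, not_lt.1 h, not_lt.1 k⟩
  refine ⟨g⁻¹, inv_smul_eq_iff.2 (Eq.symm hg), lt_of_mul_lt_mul_right ?_ (H.der_pos c g).le⟩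
  rw [div_lt_iff₀' ht] at h1
  exact (H.der_inv hg).trans_lt h1

/-- The poles of the contracting elements of an infinite stabiliser converge to another point. -/
theorem exists_pole [CompactSpace Z] {c : Z} (hinf : {g : G | g • c = c}.Infinite) :
    ∃ c', c' ≠ c ∧ ∀ t ε, 0 < ε →
      {g : G | g • c = c ∧ H.der c g ≤ t ∧ ε ≤ dist (H.loc g⁻¹) c'}.Finite := by
  have hC := H.hC
  obtain ⟨h, hh, hd⟩ := H.exists_der_lt hinf (t := 1 / (2 * H.C ^ 9)) (by positivity)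
  have hd' : H.C ^ 9 * H.der c h ≤ 1 / 2 := by
    rw [lt_div_iff₀ (by positivity)] at hd
    linarith
  have d0 := H.der_pos c h
  have d1 := H.der_pos c 1
  have hn : ∀ n : ℕ, h ^ n • c = c := fun n => by
    induction n with
    | zero => simp
    | succ n ih => rw [pow_succ, mul_smul, hh, ih]
  have e1 : ∀ n : ℕ, H.der c (h ^ n) ≤ H.der c 1 / 2 ^ n := fun n => by
    induction n with
    | zero => simp
    | succ n ih =>
      have := (H.der_mul (h ^ n) hh).1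
      have p := H.der_pos c (h ^ n)
      rw [pow_succ, pow_succ, ← div_div]
      nlinarith
  have e2 : ∀ n : ℕ, H.sc (h ^ n)⁻¹ ≤ H.der c 1 / 2 ^ n := fun n =>
    (H.sc_inv _).trans_le ((H.sc_le_der c _).trans (e1 n))
  have e0 : Tendsto (fun n : ℕ => H.der c 1 / 2 ^ n) atTop (𝓝 0) :=
    tendsto_const_nhds.div_atTop (tendsto_pow_atTop_atTop_of_one_lt one_lt_two)
  obtain ⟨C₁, hC₁, hs⟩ := H.loc_step
  have e3 : ∀ (n : ℕ) (s : G), dist (H.loc (h ^ n)⁻¹) (H.loc ((h ^ n)⁻¹ * s)) ≤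
      C₁ / H.sc s * (H.der c 1 / 2 ^ n) := fun n s => by
    rw [div_mul_eq_mul_div, le_div_iff₀ (H.sc_pos s)]
    exact (hs _ _).trans (mul_le_mul_of_nonneg_left (e2 n) (by linarith))
  obtain ⟨c', hc'⟩ := cauchySeq_tendsto_of_complete (cauchySeq_of_le_geometric_two
    (f := fun n : ℕ => H.loc (h ^ n)⁻¹) (C := 2 * (C₁ / H.sc h⁻¹ * H.der c 1)) fun n => by
      rw [pow_succ', mul_inv_rev]
      exact (e3 n h⁻¹).trans_eq (by ring))
  have e4 : ∀ s : G, Tendsto (fun n : ℕ => H.loc ((h ^ n)⁻¹ * s)) atTop (𝓝 c') := fun s =>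
    hc'.congr_dist (squeeze_zero (fun _ => dist_nonneg) (fun n => e3 n s)
      (by simpa using e0.const_mul (C₁ / H.sc s)))
  refine ⟨c', fun hcc => ?_, fun t ε hε => ?_⟩
  · have e5 : ∀ (n : ℕ) (x : G ⊕ Z), H.C * H.q (.inr c) x < H.q (.inr c) (.inl h⁻¹) →
        H.q (.inr c) (h ^ n • x) ≤ H.q (.inr c) x / 2 ^ n := fun n x hx => by
      induction n with
      | zero => simp
      | succ n ih =>
        have q0 := H.q_nonneg (.inr c) x
        have q1 := H.q_nonneg (.inr c) (h ^ n • x)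
        have k1 : H.q (.inr c) (h ^ n • x) ≤ H.q (.inr c) x :=
          ih.trans (div_le_self q0 (one_le_pow₀ one_le_two))
        have k2 := H.der_q hh (x := h ^ n • x) (lt_of_le_of_lt (by gcongr) hx)
        have k3 : H.C ^ 2 * H.der c h ≤ 1 / 2 :=
          le_trans (by gcongr; norm_num) hd'
        rw [pow_succ', mul_smul, pow_succ, ← div_div]
        nlinarith
    obtain ⟨C₂, hC₂, hq⟩ := H.q_cmp
    have t1 : Tendsto (fun n : ℕ => H.C * (C₂ * max (dist c (H.loc (h ^ n)⁻¹))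
        (H.der c 1 / 2 ^ n))) atTop (𝓝 0) := by
      have := ((tendsto_const_nhds (x := c)).dist hc').max e0
      rw [hcc, dist_self, max_self] at this
      simpa using (this.const_mul C₂).const_mul H.C
    have t2 : Tendsto (fun n : ℕ => H.C / 2 ^ n) atTop (𝓝 0) :=
      tendsto_const_nhds.div_atTop (tendsto_pow_atTop_atTop_of_one_lt one_lt_two)
    obtain ⟨n, n1, n2⟩ := ((t1.eventually (gt_mem_nhds (H.q_pos (.inr c) h⁻¹))).and
      (t2.eventually (gt_mem_nhds one_pos))).exists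
    have k1 := e5 n (.inl (h ^ n)⁻¹) (lt_of_le_of_lt (by
      gcongr
      exact (hq c _).1.trans (by gcongr; exact e2 n)) n1)
    rw [Sum.smul_inl, smul_eq_mul, mul_inv_cancel] at k1
    have k2 := H.one_le_q_one (.inr c)
    have k3 : H.q (.inr c) (.inl (h ^ n)⁻¹) / 2 ^ n ≤ 1 / 2 ^ n := by
      gcongr
      exact H.q_le_one _ _
    have k4 : H.C * H.q (.inr c) (.inl 1) ≤ H.C * (1 / 2 ^ n) := by gcongr; exact k1.trans k3
    rw [mul_one_div] at k4
    linarith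
  · have hF := H.der_proper c (a := 1 / H.C ^ 9) (by positivity) (H.C ^ 18 / H.der c h)
    refine ((H.der_proper c d1 t).union (hF.biUnion
      (t := fun f => (fun n : ℕ => f * h ^ n) '' {n | ¬ dist (H.loc ((h ^ n)⁻¹ * f⁻¹)) c' < ε})
      fun f _ => Set.Finite.image _ ?_)).subset ?_
    · rw [← eventually_cofinite, Nat.cofinite_eq_atTop]
      exact Metric.tendsto_nhds.1 (e4 f⁻¹) ε hε
    rintro g ⟨g1, g2, g3⟩
    have dg := H.der_pos c g
    have hex : ∃ n : ℕ, H.der c (h ^ n) ≤ H.der c g := by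
      obtain ⟨n, hn⟩ := (e0.eventually (gt_mem_nhds dg)).exists
      exact ⟨n, (e1 n).trans hn.le⟩
    classical
    have k1 := Nat.find_spec hex
    rcases hN : Nat.find hex with _ | n
    · rw [hN, pow_zero] at k1
      exact Or.inl ⟨g1, k1, g2⟩
    have k2 := not_le.1 (Nat.find_min hex (m := n) (by omega))
    rw [hN] at k1
    obtain ⟨m1, m2⟩ := H.der_mul (g * (h ^ (n + 1))⁻¹) (hn (n + 1))
    rw [inv_mul_cancel_right] at m1 m2
    have m3 := (H.der_mul (h ^ n) hh).2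
    rw [← pow_succ] at m3
    have p1 := H.der_pos c (h ^ (n + 1))
    have p2 := H.der_pos c (g * (h ^ (n + 1))⁻¹)
    refine Or.inr (mem_biUnion (x := g * (h ^ (n + 1))⁻¹) ⟨?_, ?_, ?_⟩ ⟨n + 1, ?_, by simp⟩)
    · rw [mul_smul, inv_smul_eq_iff.2 (hn (n + 1)).symm, g1]
    · rw [div_le_iff₀' (by positivity)]
      refine le_of_mul_le_mul_right ?_ p1
      linarith
    · rw [le_div_iff₀ d0]
      refine le_of_mul_le_mul_right ?_ p1
      calc _ = H.der c (g * (h ^ (n + 1))⁻¹) * H.der c (h ^ (n + 1)) * H.der c h := by ring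
        _ ≤ H.C ^ 9 * H.der c (h ^ n) * H.der c h :=
          mul_le_mul_of_nonneg_right (m2.trans (by gcongr)) d0.le
        _ = H.C ^ 9 * (H.der c (h ^ n) * H.der c h) := by ring
        _ ≤ H.C ^ 9 * (H.C ^ 9 * H.der c (h ^ (n + 1))) := by gcongr
        _ = _ := by ring
    · simpa using g3

theorem finite_move {c c' : Z} {t : ℝ}
    (hp : ∀ ε, 0 < ε → {g : G | g • c = c ∧ H.der c g ≤ t ∧ ε ≤ dist (H.loc g⁻¹) c'}.Finite)
    {K : Set Z} (hK : IsClosed K) (hc : c ∈ K) (hc' : c' ∉ K) {ε : ℝ} (hε : 0 < ε) :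
    {g : G | g • c = c ∧ H.der c g ≤ t ∧ ∃ x ∈ K, ε ≤ dist (g • x) c}.Finite := by
  obtain ⟨η, hη, hb⟩ := Metric.isOpen_iff.1 hK.isOpen_compl c' hc'
  refine ((hp (η / 2) (half_pos hη)).union (H.conv_finite (half_pos hη) (half_pos hε))).subset ?_
  rintro g ⟨g1, g2, x, hx, g3⟩
  by_cases h : η / 2 ≤ dist (H.loc g⁻¹) c'
  · exact Or.inl ⟨g1, g2, h⟩
  have h1 : ∀ y ∈ K, η / 2 ≤ dist y (H.loc g⁻¹) := fun y hy => by
    have h2 : η ≤ dist y c' := not_lt.1 fun k => hb k hy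
    linarith [dist_triangle y (H.loc g⁻¹) c', not_le.1 h]
  have h2 := dist_triangle_right (g • x) c (H.loc g)
  by_cases h3 : ε / 2 ≤ dist (g • x) (H.loc g)
  · exact Or.inr ⟨x, h1 x hx, h3⟩
  · exact Or.inr ⟨c, h1 c hc, by rw [g1]; linarith [not_le.1 h3]⟩

include H in
/-- Orbits are infinite. -/
theorem orbit_infinite [CompactSpace Z] [Infinite Z] (c : Z) :
    (MulAction.orbit G c).Infinite := by
  intro hfin
  have h1 : ∃ c', ∀ ε, 0 < ε →
      {h : G | h • c = c ∧ ε ≤ dist (H.loc h) c ∧ ε ≤ dist (H.loc h) c'}.Finite := by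
    by_cases hinf : {g : G | g • c = c}.Finite
    · exact ⟨c, fun ε _ => hinf.subset fun h hh => hh.1⟩
    obtain ⟨c', hc', hp⟩ := H.exists_pole hinf
    have hd := dist_pos.2 hc'
    refine ⟨c', fun ε hε => (((hp 1 ε hε).inv.union
      (hp (H.C ^ 9 * H.der c 1) _ (half_pos hd))).union
      (H.conv_finite (half_pos hd) hε)).subset ?_⟩
    rintro h ⟨k1, k2, k3⟩
    by_cases a : H.der c h⁻¹ ≤ 1
    · exact Or.inl (Or.inl ⟨inv_smul_eq_iff.2 k1.symm, a, by simpa using k3⟩)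
    by_cases b : dist c' c / 2 ≤ dist (H.loc h⁻¹) c'
    · refine Or.inl (Or.inr ⟨k1, ?_, b⟩)
      nlinarith [H.der_inv k1, H.der_pos c h, not_le.1 a]
    · refine Or.inr ⟨c, ?_, by rwa [k1, dist_comm]⟩
      linarith [dist_triangle_right c' c (H.loc h⁻¹), not_le.1 b, dist_comm c' (H.loc h⁻¹)]
  obtain ⟨c', h1⟩ := h1
  obtain ⟨ξ, hξ⟩ := ((finite_singleton c').insert c).infinite_compl.nonempty
  have hξ' : ξ ≠ c ∧ ξ ≠ c' := by simpa using hξ
  set ε := min (dist ξ c) (dist ξ c') / 2 with hε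
  have hε0 : 0 < ε := half_pos (lt_min (dist_pos.2 hξ'.1) (dist_pos.2 hξ'.2))
  have hσ : ∀ y : Z, ∃ s : G, y ∈ MulAction.orbit G c → s • c = y := fun y => by
    by_cases hy : y ∈ MulAction.orbit G c
    · exact ⟨hy.choose, fun _ => hy.choose_spec⟩
    · exact ⟨1, fun h => absurd h hy⟩
  choose σ hσ using hσ
  obtain ⟨y₀, -, hy₀⟩ := exists_min_image _ (fun y => H.sc (σ y)) hfin
    ⟨c, MulAction.mem_orbit_self c⟩
  have hT := (h1 ε hε0).image2 (fun h y => h * (σ y)⁻¹) hfin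
  obtain ⟨C₁, hC₁, hs⟩ := H.loc_step
  obtain ⟨C₂, hC₂, hq⟩ := H.q_cmp
  have s0 := H.sc_pos (σ y₀)
  have hC := H.hC
  obtain ⟨n, hn⟩ := (hT.image H.len).bddAbove
  obtain ⟨m, hm⟩ := H.exists_sc_lt (ε := ε / (C₂ * H.C + C₁ / H.sc (σ y₀))) (by positivity)
  obtain ⟨g, g1, g2⟩ := H.ray ξ (max m (n + 1))
  have g3 := hm g (g1 ▸ le_max_left _ _)
  rw [lt_div_iff₀ (by positivity)] at g3
  have g4 : dist ξ (H.loc g) ≤ C₂ * (H.C * H.sc g) :=
    ((le_max_left _ _).trans (hq ξ g).2).trans (by gcongr; rwa [sc, g1])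
  have hy : g⁻¹ • c ∈ MulAction.orbit G c := MulAction.mem_orbit _ _
  have g5 : dist (H.loc g) (H.loc (g * σ (g⁻¹ • c))) ≤ C₁ / H.sc (σ y₀) * H.sc g := by
    rw [div_mul_eq_mul_div, le_div_iff₀ s0]
    exact (mul_le_mul_of_nonneg_left (hy₀ _ hy) dist_nonneg).trans (hs g _)
  have g6 := dist_triangle ξ (H.loc g) (H.loc (g * σ (g⁻¹ • c)))
  have g7 : dist ξ (H.loc (g * σ (g⁻¹ • c))) ≤ ε := by linarith
  have g8 : H.len g ≤ n := hn ⟨g, ⟨g * σ (g⁻¹ • c), ⟨by rw [mul_smul, hσ _ hy, smul_inv_smul],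
    by linarith [dist_triangle ξ (H.loc (g * σ (g⁻¹ • c))) c,
      min_le_left (dist ξ c) (dist ξ c')],
    by linarith [dist_triangle ξ (H.loc (g * σ (g⁻¹ • c))) c',
      min_le_right (dist ξ c) (dist ξ c')]⟩, _, hy, by simp⟩, rfl⟩
  omega

variable [CompactSpace Z] [PreconnectedSpace Z] [ContinuousConstSMul G Z]

omit [CompactSpace Z] [PreconnectedSpace Z] in
theorem st_clo_smul {c : Z} {U : Set Z} (h : Clo c U) {g : G} (hg : g • c = c) :
    Clo c (g • U) := by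
  have hg' : g⁻¹ • c = c := inv_smul_eq_iff.2 hg.symm
  refine ⟨fun k => h.1 (hg' ▸ mem_smul_set_iff_inv_smul_mem.1 k), fun x hx => ?_⟩
  have h1 := h.2 (g⁻¹ • x) fun k => hx (by rw [← hg, ← k, smul_inv_smul])
  filter_upwards [(continuous_const_smul g⁻¹).continuousAt.eventually h1] with y hy
  rwa [mem_smul_set_iff_inv_smul_mem, mem_smul_set_iff_inv_smul_mem]

include H in
theorem st_first {c : Z} (hc : ¬ IsPreconnected ({c}ᶜ : Set Z)) : ∃ W, Clo c W ∧ W.Nonempty ∧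
    (insert c W)ᶜ.Nonempty ∧ {g : G | g • c = c ∧ (g • W ∩ W).Nonempty}.Finite := by
  obtain ⟨V, hV⟩ := exists_side hc
  by_cases hinf : {g : G | g • c = c}.Finite
  · exact ⟨V, hV.clo, hV.2.2.2.1, hV.2.1 ▸ hV.2.2.2.2, hinf.subset fun g hg => hg.1⟩
  obtain ⟨c', hc', hp⟩ := H.exists_pole hinf
  obtain ⟨V, hV, hV'⟩ : ∃ V, Side V c ∧ c' ∉ closure V := by
    by_cases h : c' ∈ closure V
    · exact ⟨_, hV.compl, by rw [hV.closure_compl]; exact fun k => k (hV.mem_of_ne h hc')⟩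
    · exact ⟨V, hV, h⟩
  have hm : ∀ t ε, 0 < ε →
      {g : G | g • c = c ∧ H.der c g ≤ t ∧ ∃ x ∈ closure V, ε ≤ dist (g • x) c}.Finite :=
    fun t ε hε => H.finite_move (hp t) isClosed_closure hV.mem_closure hV' hε
  set Vt : ℝ → Set Z := fun t => {x | ∃ g : G, g • c = c ∧ H.der c g ≤ t ∧ x ∈ g • V} with hVt
  have hcl : ∀ t, Clo c (Vt t) := by
    intro t
    refine ⟨fun ⟨g, g1, _, g3⟩ => (st_clo_smul hV.clo g1).1 g3, fun x hx => ?_⟩
    have hd := half_pos (dist_pos.2 hx)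
    have h1 := (eventually_all_finite (hm t _ hd)).2 fun g hg => (st_clo_smul hV.clo hg.1).2 x hx
    filter_upwards [h1, Metric.ball_mem_nhds x hd] with y hy hy'
    have hy2 : dist x c / 2 ≤ dist y c := by
      linarith [dist_triangle_left x c y, Metric.mem_ball.1 hy']
    constructor
    · rintro ⟨g, g1, g2, v, hv, rfl⟩
      exact ⟨g, g1, g2, (hy g ⟨g1, g2, v, subset_closure hv, hy2⟩).1 ⟨v, hv, rfl⟩⟩
    · rintro ⟨g, g1, g2, v, hv, rfl⟩
      exact ⟨g, g1, g2, (hy g ⟨g1, g2, v, subset_closure hv,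
        half_le_self dist_nonneg⟩).2 ⟨v, hv, rfl⟩⟩
  obtain ⟨v, hv⟩ := hV.2.2.2.1
  have hvc : v ≠ c := fun k => hV.2.2.1 (k ▸ hv)
  have hv1 : v ∈ Vt (H.der c 1) := ⟨1, one_smul _ _, le_rfl, by simpa using hv⟩
  obtain ⟨g₀, -, hg₀⟩ := exists_min_image _ (H.der c) (hm (H.der c 1) _ (dist_pos.2 hvc))
    ⟨1, one_smul _ _, le_rfl, v, subset_closure hv, by simp⟩
  have h01 : H.der c g₀ ≤ H.der c 1 :=
    hg₀ 1 ⟨one_smul _ _, le_rfl, v, subset_closure hv, by simp⟩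
  set t₀ := H.der c g₀ / 2 with ht₀
  have t0 : 0 < t₀ := half_pos (H.der_pos _ _)
  have d1 := H.der_pos c 1
  have hC := H.hC
  have hv0 : v ∉ Vt t₀ := by
    rintro ⟨g, g1, g2, u, hu, rfl⟩
    have := hg₀ g ⟨g1, by linarith, u, subset_closure hu, le_rfl⟩
    linarith
  have key : ∀ g : G, g • c = c → ∀ y ∈ Vt (H.der c 1), g • y ∉ Vt t₀ →
      t₀ / (H.C ^ 9 * H.der c 1) ≤ H.der c g := by
    rintro g g1 _ ⟨f, f1, f2, u, hu, rfl⟩ h
    by_contra k
    rw [not_le, lt_div_iff₀ (by positivity)] at k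
    refine h ⟨g * f, by rw [mul_smul, f1, g1], ((H.der_mul g f1).1.trans ?_).trans k.le,
      u, hu, mul_smul _ _ _⟩
    have := H.der_pos c g
    calc _ ≤ H.C ^ 9 * (H.der c g * H.der c 1) := by gcongr
      _ = _ := by ring
  refine ⟨Vt (H.der c 1) \ Vt t₀, ⟨fun k => (hcl _).1 k.1, fun x hx => ?_⟩, ⟨v, hv1, hv0⟩, ?_,
    (H.der_proper c (a := t₀ / (H.C ^ 9 * H.der c 1)) (by positivity)
      (H.C ^ 9 * H.der c 1 / (t₀ / (H.C ^ 9 * H.der c 1)))).subset ?_⟩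
  · filter_upwards [(hcl (H.der c 1)).2 x hx, (hcl t₀).2 x hx] with y h1 h2
    rw [Set.mem_sdiff, Set.mem_sdiff, h1, h2]
  · obtain ⟨g, g1, g2⟩ := H.exists_der_lt hinf t0
    have h1 : g • v ∈ Vt t₀ := ⟨g, g1, g2.le, v, hv, rfl⟩
    exact ⟨g • v, fun k => k.elim (fun e => (hcl _).1 (e ▸ h1)) fun e => e.2 h1⟩
  · rintro g ⟨g1, _, ⟨y, hy, rfl⟩, hx⟩
    refine ⟨g1, key g g1 y hy.1 hx.2, ?_⟩
    have h1 := key g⁻¹ (inv_smul_eq_iff.2 g1.symm) _ hx.1 (by simpa using hy.2)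
    rw [le_div_iff₀' (by positivity)]
    exact (mul_le_mul_of_nonneg_right h1 (H.der_pos c g).le).trans (H.der_inv g1)

include H in
/-- A cut point has a side with finite stabiliser whose translates are nested. -/
theorem exists_wall {c : Z} (hc : ¬ IsPreconnected ({c}ᶜ : Set Z)) : ∃ W, Side W c ∧
    {g : G | g • W = W}.Finite ∧ ∀ g : G, g • c = c → g • W = W ∨ Disjoint (g • W) W := by
  obtain ⟨W₀, h1, ⟨w, hw⟩, ⟨z, hz⟩, h4⟩ := H.st_first hc
  set E : Z → Z → Prop := fun x y => ∀ g : G, g • c = c → (x ∈ g • W₀ ↔ y ∈ g • W₀) with hE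
  have E1 : ∀ h : G, h • c = c → ∀ x y, E x y → E (h • x) (h • y) := fun h hh x y k g hg => by
    have := k (h⁻¹ * g) (by rw [mul_smul, hg, inv_smul_eq_iff.2 hh.symm])
    rwa [mul_smul, mem_inv_smul_set_iff, mem_inv_smul_set_iff] at this
  have hsub : ∀ x, E x w → x ∈ W₀ := fun x hx => by
    simpa [hw] using hx 1 (one_smul _ _)
  have hiff : ∀ x, E x w ↔ x ∈ W₀ ∧ ∀ g ∈ {g : G | g • c = c ∧ (g • W₀ ∩ W₀).Nonempty},
      (x ∈ g • W₀ ↔ w ∈ g • W₀) := fun x =>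
    ⟨fun k => ⟨hsub x k, fun g hg => k g hg.1⟩, fun k g hg =>
      ⟨fun a => (k.2 g ⟨hg, x, a, k.1⟩).1 a, fun a => (k.2 g ⟨hg, w, a, hw⟩).2 a⟩⟩
  have hclo : Clo c {x | E x w} := by
    refine ⟨fun k => h1.1 (hsub c k), fun x hx => ?_⟩
    filter_upwards [h1.2 x hx,
      (eventually_all_finite h4).2 fun g hg => (st_clo_smul h1 hg.1).2 x hx] with y a b
    rw [hiff, hiff, a]
    exact and_congr_right fun _ => forall₂_congr fun g hg => by rw [b g hg]
  have hw' : E w w := fun _ _ => Iff.rfl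
  have hS : Side {x | E x w} c :=
    hclo.side ⟨w, hw'⟩ ⟨z, fun k => hz (k.imp id (hsub z))⟩
  refine ⟨_, hS, h4.subset fun g hg => ?_, fun g hg => ?_⟩
  · have hg' : g • {x | E x w} = {x | E x w} := hg
    refine ⟨(hg' ▸ hS.smul g : Side {x | E x w} (g • c)).unique hS, g • w, ⟨w, hw, rfl⟩,
      hsub _ ?_⟩
    exact (hg' ▸ ⟨w, hw', rfl⟩ : g • w ∈ {x | E x w})
  · refine or_iff_not_imp_right.2 fun k => ?_
    obtain ⟨_, ⟨x, hx, rfl⟩, hx'⟩ := not_disjoint_iff.1 k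
    have a : E (g • w) w := fun f hf => (E1 g hg x w hx f hf).symm.trans (hx' f hf)
    have hg' : g⁻¹ • c = c := inv_smul_eq_iff.2 hg.symm
    ext y
    rw [mem_smul_set_iff_inv_smul_mem]
    refine ⟨fun b f hf => ?_, fun b => ?_⟩
    · have := E1 g hg _ _ b f hf
      rw [smul_inv_smul] at this
      exact this.trans (a f hf)
    · have := E1 g⁻¹ hg' y (g • w) fun f hf => (b f hf).trans (a f hf).symm
      rwa [inv_smul_smul] at this

include H in
/-- The orbit form: translates of the wall are equal or nested. -/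
theorem exists_wall' {c : Z} (hc : ¬ IsPreconnected ({c}ᶜ : Set Z)) : ∃ W, Side W c ∧
    {g : G | g • W = W}.Finite ∧ ∀ g h : G, g • W = h • W ∨ closure (g • W) ⊆ h • W ∨
      closure (h • W) ⊆ g • W ∨ Disjoint (g • W) (h • W) ∨ g • W ∪ h • W = univ := by
  obtain ⟨W, h1, h2, h3⟩ := H.exists_wall hc
  refine ⟨W, h1, h2, fun g h => ?_⟩
  by_cases e : g • c = h • c
  · rcases h3 (h⁻¹ * g) (by rw [mul_smul, e, inv_smul_smul]) with k | k
    · exact Or.inl (by rw [mul_smul, inv_smul_eq_iff] at k; exact k)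
    · refine Or.inr (Or.inr (Or.inr (Or.inl ?_)))
      rwa [← disjoint_smul_set (a := h), mul_smul, smul_inv_smul] at k
  · rcases (h1.smul g).nested (h1.smul h) e with k | k | k | k
    · exact Or.inr (Or.inl k)
    · exact Or.inr (Or.inr (Or.inl k))
    · exact Or.inr (Or.inr (Or.inr (Or.inl (k.mono subset_closure subset_closure))))
    · exact Or.inr (Or.inr (Or.inr (Or.inr k)))

end KKC.HB
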