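import Pool.Agent.Lib.MP_e1e491_gt.LCSd
import Pool.Agent.Lib.MP_e1e491_gt.LcStab

/-! A side with nested translates and finite stabiliser. -/

namespace KKC.LC

open Set
open scoped Pointwise

variable {G Z : Type} [Group G] [MetricSpace Z] [MulAction G Z] [CompactSpace Z] [PreconnectedSpace Z]
  [Nontrivial Z] (H : HB G Z)

include H

omit [Nontrivial Z] in
theorem exists_side {c : Z} (hc : ¬ IsPreconnected ({c}ᶜ : Set Z)) : ∃ W : Set Z,
    Side W ∧ {g : G | g • W = W}.Finite ∧ ∀ g : G, Nest W (g • W) := by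
  have : ContinuousConstSMul G Z := ⟨H.continuous_smul⟩
  obtain ⟨W, h1, h2, h3⟩ := H.exists_wall' hc
  refine ⟨W, ⟨h1.1, h1.2.2.2.1, h1.2.2.2.2, h1.closure_compl, c, ?_⟩, h2, fun g => ?_⟩
  · rw [h1.2.1, insert_sdiff_of_notMem _ h1.2.2.1, sdiff_self]
    simp
  · have h4 := h3 1 g
    rw [one_smul] at h4
    refine h4.imp_right fun h => h.imp_right fun h => h.imp_right fun h => h.imp_right fun h => ?_
    rw [opp, opp, Set.disjoint_iff_inter_eq_empty, ← compl_union, compl_empty_iff]
    exact eq_univ_of_subset (union_subset_union subset_closure subset_closure) h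

/-- No global fixed point. -/
theorem not_fixed (c : Z) : ∃ g : G, g • c ≠ c := by
  have : Infinite Z := PreconnectedSpace.infinite
  by_contra h
  push Not at h
  refine H.orbit_infinite c ((finite_singleton c).subset ?_)
  rintro _ ⟨g, rfl⟩
  exact h g

end KKC.LC
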