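import Pool.Agent.Lib.MP_e1e491_gt.LCSd

/-! The walls seen from the other side. -/

namespace KKC.LC

open Set
open scoped Pointwise

variable {G Z : Type} [Group G] [MetricSpace Z] [MulAction G Z] {H : HB G Z} {K : ℕ}

/-- `F' = opp '' F`, `A' V = (A (opp V))ᶜ`; every field is the mirror field (`Side.opp_opp`,
`Side.cl`, `opp_smul`, `opp_anti`, `Side.other`, `Nest.other`). -/
theorem Walls.exists_compl (W : Walls H K) : ∃ W' : Walls H K,
    ∀ U ∈ W.F, opp U ∈ W'.F ∧ W'.A (opp U) = (W.A U)ᶜ := by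
  have e : ∀ U ∈ W.F, opp (opp U) = U := fun U hU => (W.side U hU).opp_opp
  have anti : ∀ U ∈ W.F, ∀ V ∈ W.F, opp U ⊆ opp V → V ⊆ U := fun U hU V hV h => by
    simpa only [e U hU, e V hV] using opp_anti h
  refine ⟨{
    F := opp '' W.F
    A := fun V => (W.A (opp V))ᶜ
    N₀ := W.N₀
    ne := W.ne.image _
    inv := ?_
    side := ?_
    nest := ?_
    stab := ?_
    smul := ?_
    mono := ?_
    chain := ?_
    lim := ?_
    lim' := ?_
    mp := fun Φ hΦ => ?_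
    mp' := fun Φ hΦ => ?_
    big := fun y => ?_
    big' := fun y => ?_ }, fun U hU => ⟨⟨U, hU, rfl⟩, congrArg (fun V => (W.A V)ᶜ) (e U hU)⟩⟩
  · rintro g _ ⟨U, hU, rfl⟩
    exact ⟨_, W.inv g U hU, opp_smul H g U⟩
  · rintro _ ⟨U, hU, rfl⟩
    exact (W.side U hU).other
  · rintro _ ⟨U, hU, rfl⟩ _ ⟨V, hV, rfl⟩
    exact (W.nest U hU V hV).other (W.side U hU) (W.side V hV)
  · rintro _ ⟨U, hU, rfl⟩ S hS
    refine W.stab U hU S fun g hg => ?_
    have := congrArg opp (hS g hg)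
    rwa [opp_smul H, e U hU] at this
  · rintro g v _ ⟨U, hU, rfl⟩
    rw [opp_smul H, e U hU]
    exact (W.smul g v U hU).not
  · rintro _ ⟨U, hU, rfl⟩ _ ⟨V, hV, rfl⟩ h
    rw [e U hU, e V hV]
    exact compl_subset_compl.2 (W.mono V hV U hU (anti U hU V hV h))
  · rintro _ ⟨U, hU, rfl⟩ _ ⟨V, hV, rfl⟩ x y h1 h2 h3 h4
    rw [e U hU] at h1 h3
    rw [e V hV] at h2 h4
    exact (W.chain U hU V hV y x (not_not.1 h3) (not_not.1 h4) h1 h2).symm.imp opp_anti opp_anti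
  · rintro _ ⟨U, hU, rfl⟩
    rw [e U hU]
    exact W.lim' U hU
  · rintro _ ⟨U, hU, rfl⟩
    rw [e U hU, compl_compl]
    exact W.lim U hU
  · obtain ⟨D, h1, h2⟩ := W.mp' Φ hΦ
    refine ⟨D, h1, ?_⟩
    rintro _ ⟨U, hU, rfl⟩ E hE h3 h4
    rw [e U hU] at h3 h4
    exact h2 U hU E hE h3 fun v hv w hw => (h4 v hv w hw).imp_right (Or.imp_left not_not.1)
  · obtain ⟨D, h1, h2⟩ := W.mp Φ hΦ
    refine ⟨D, h1, ?_⟩
    rintro _ ⟨U, hU, rfl⟩ E hE h3 h4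
    rw [e U hU] at h3 h4
    exact h2 U hU E hE (compl_compl (W.A U) ▸ h3) h4
  · obtain ⟨δ, h1, h2⟩ := W.big' y
    refine ⟨δ, h1, ?_⟩
    rintro _ ⟨U, hU, rfl⟩ h3
    rw [e U hU] at h3
    rw [opp, compl_compl]
    exact h2 U hU (not_not.1 h3)
  · obtain ⟨δ, h1, h2⟩ := W.big y
    refine ⟨δ, h1, ?_⟩
    rintro _ ⟨U, hU, rfl⟩ h3
    rw [e U hU] at h3
    rw [(W.side U hU).cl]
    exact h2 U hU h3

end KKC.LC
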