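import Pool.Agent.Lib.MP_e1e491_gt.LCInf

/-! Long geodesics in a track. -/

namespace KKC.LC

open Set
open scoped Pointwise

/-- A point `f` of the component outside the ball of radius `2 n`; take a shortest walk to it
(`Nat.find`), cut it at `2 n` and at `n` (`Wk.split`). -/
theorem exists_mid {α : Type} {r : α → α → Prop} {P : α → Prop} (hr : RS r)
    (hf : ∀ x, {y | r x y}.Finite) {a : α} (hi : {b | Conn r P a b}.Infinite) (n : ℕ) :
    ∃ e f, Wk r P n e a ∧ Wk r P n e f ∧ ∀ m, Wk r P m a f → 2 * n ≤ m := by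
  classical
  obtain ⟨f, hc, hn⟩ := hi.exists_notMem_finite (Wk.ball_finite hf P (2 * n) a)
  have hc' : ∃ m, Wk r P m a f := hc
  have h1 := Nat.find_spec hc'
  have h2 : 2 * n ≤ Nat.find hc' := by
    by_contra h
    exact hn (h1.le hr (by omega))
  obtain ⟨k, hk⟩ := Nat.exists_eq_add_of_le h2
  rw [hk, two_mul] at h1
  obtain ⟨f', h3, h4⟩ := h1.split
  obtain ⟨e, h5, h6⟩ := h3.split
  refine ⟨e, f', h5.symm hr, h6, fun m hm => ?_⟩
  have := Nat.find_min' hc' (hm.trans h4)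
  omega

variable {G Z : Type} [Group G] [MetricSpace Z] [MulAction G Z] [CompactSpace Z] {H : HB G Z} {K : ℕ}
  (W : Walls H K)

omit [CompactSpace Z] in
theorem lcgeo_map {U : Set Z} (hU : U ∈ W.F) (g : G) {n : ℕ} {e f : G × G}
    (h : Wk (Adj (Nr H K)) (Ed (Nr H K) (W.A U) (W.A U)ᶜ) n e f) :
    Wk (Adj (Nr H K)) (Ed (Nr H K) (W.A (g • U)) (W.A (g • U))ᶜ) n (g * e.1, g * e.2)
      (g * f.1, g * f.2) :=
  h.map (fun d => (g * d.1, g * d.2))
    (fun _ hx => ⟨(nr_smul H g _ _).2 hx.1, (W.smul g _ U hU).2 hx.2.1,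
      fun h => hx.2.2 ((W.smul g _ U hU).1 h)⟩)
    fun _ _ _ _ hxy => hxy.imp (fun h => ⟨congrArg (g * ·) h.1, (nr_smul H g _ _).2 h.2⟩)
      fun h => ⟨congrArg (g * ·) h.1, (nr_smul H g _ _).2 h.2⟩

omit [CompactSpace Z] in
theorem lcgeo_geo {U : Set Z} (hU : U ∈ W.F) (g : G) {n : ℕ} {e : G × G}
    (h : Geo (Nr H K) (W.A U) e n) : Geo (Nr H K) (W.A (g • U)) (g * e.1, g * e.2) n := by
  obtain ⟨a, b, h1, h2, h3⟩ := h
  refine ⟨_, _, lcgeo_map W hU g h1, lcgeo_map W hU g h2, fun m hm => h3 m ?_⟩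
  simpa only [inv_smul_smul, inv_mul_cancel_left] using lcgeo_map W (W.inv g U hU) g⁻¹ hm

omit [CompactSpace Z] in
theorem lcgeo_stab {U : Set Z} (hU : U ∈ W.F) (V : Set Z) : {g : G | g • U = V}.Finite := by
  classical
  rcases eq_empty_or_nonempty {g : G | g • U = V} with h | ⟨g₀, h0⟩
  · rw [h]; exact finite_empty
  have h1 : {g : G | g • U = U}.Finite := by
    by_contra h
    obtain ⟨S, hS, hc⟩ := Set.Infinite.exists_subset_card_eq h (W.N₀ + 1)
    have := W.stab U hU S fun g hg => hS hg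
    omega
  refine (h1.image (g₀ * ·)).subset fun g hg => ⟨g₀⁻¹ * g, ?_, mul_inv_cancel_left _ _⟩
  change (g₀⁻¹ * g) • U = U
  rw [mul_smul, inv_smul_eq_iff]
  exact Eq.trans hg (Eq.symm h0)

theorem lcgeo_pick {β γ : Type} (b : ℕ → β) (V : ℕ → γ) (hb : (range b).Finite)
    (hf : ∀ x y, {n | b n = x ∧ V n = y}.Finite) :
    ∃ x, ∃ ν : ℕ → ℕ, (∀ j, j ≤ ν j) ∧ (∀ j, b (ν j) = x) ∧ Function.Injective (V ∘ ν) := by
  obtain ⟨x, hx⟩ : ∃ x, {n | b n = x}.Infinite := by
    by_contra h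
    refine infinite_univ (Finite.of_finite_fibers b (image_univ ▸ hb) fun x _ => ?_)
    rw [univ_inter]
    exact not_infinite.1 fun h' => h ⟨x, h'⟩
  have h1 : (V '' {n | b n = x}).Infinite := fun h =>
    hx (Finite.of_finite_fibers V h fun y _ => hf x y)
  obtain ⟨T, hT, hB⟩ := exists_subset_bijOn {n | b n = x} V
  have h2 : T.Infinite := Infinite.of_image V (hB.image_eq.symm ▸ h1)
  refine ⟨x, Nat.nth (· ∈ T), fun j => (Nat.nth_strictMono h2).le_apply, fun j =>
    hT (Nat.nth_mem_of_infinite h2 j), fun i j hij => Nat.nth_injective h2 ?_⟩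
  exact hB.injOn (Nat.nth_mem_of_infinite h2 i) (Nat.nth_mem_of_infinite h2 j) hij

/-- Midpoints `e n` from `exists_mid` in the track of one `U ∈ F`; `e n` is at distance exactly `n`
from the base edge, so `n ↦ e n` is injective. Translate the first end to `1` (`Wk.map`,
`Walls.smul`). The pair (second end, side) takes each value finitely often (`Walls.stab`) and the
second end has finitely many values (`nr_fin`): choose an infinite set of `n` with the same second
end and different sides. -/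
theorem Walls.exists_seq [PreconnectedSpace Z] (hK : GoodK H K) :
    ∃ (b : G) (U : ℕ → Set Z), Function.Injective U ∧ Nr H K 1 b ∧ ∀ j, U j ∈ W.F ∧
      1 ∈ W.A (U j) ∧ b ∉ W.A (U j) ∧ ∃ n, j ≤ n ∧ Geo (Nr H K) (W.A (U j)) (1, b) n := by
  obtain ⟨U, hU⟩ := W.ne
  obtain ⟨e₀, h0⟩ := W.exists_edge hK hU
  have hr := (nr_rs H K).adj
  choose e f h1 h2 h3 using
    exists_mid hr (adj_finite (nr_fin H K)) (W.track_infinite hK hU h0)
  have hle : ∀ n m, e n = e m → n ≤ m := fun n m h => by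
    have := h3 n _ (((h1 m).symm hr).trans (h ▸ h2 n))
    omega
  have hg : ∀ n, Geo (Nr H K) (W.A ((e n).1⁻¹ • U)) (1, (e n).1⁻¹ * (e n).2) n := fun n => by
    simpa only [inv_mul_cancel] using lcgeo_geo W hU (e n).1⁻¹ ⟨_, _, h1 n, h2 n, h3 n⟩
  have he : ∀ n, Ed (Nr H K) (W.A ((e n).1⁻¹ • U)) (W.A ((e n).1⁻¹ • U))ᶜ
      (1, (e n).1⁻¹ * (e n).2) := fun n => (hg n).choose_spec.choose_spec.1.left
  obtain ⟨b, ν, hν, hb, hi⟩ := lcgeo_pick (fun n => (e n).1⁻¹ * (e n).2) (fun n => (e n).1⁻¹ • U)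
    ((nr_fin H K 1).subset (by rintro _ ⟨n, rfl⟩; exact (he n).1)) fun x y => by
      refine Finite.of_finite_image (f := fun n => (e n).1⁻¹) ((lcgeo_stab W hU y).subset ?_) ?_
      · rintro _ ⟨n, hn, rfl⟩
        exact hn.2
      · intro n hn m hm hnm
        have h4 : e n = e m := Prod.ext (inv_injective hnm) (by
          have h5 := hn.1.trans hm.1.symm
          rw [show (e n).1⁻¹ = (e m).1⁻¹ from hnm] at h5
          exact mul_left_cancel h5)
        exact le_antisymm (hle _ _ h4) (hle _ _ h4.symm)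
  refine ⟨b, _, hi, hb 0 ▸ (he _).1, fun j => ⟨W.inv _ U hU, (he _).2.1, ?_, ν j, hν j, ?_⟩⟩
  · exact hb j ▸ (he _).2.2
  · exact hb j ▸ hg _

end KKC.LC
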