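import Pool.Agent.Lib.MP_e1e491_gt.S3ABasic

set_option autoImplicit false

/-!
Parents, and closed cochains on the Rips complex are gradients.
-/

namespace KKC.S3

variable {A : Type} [Group A] {len : A → ℕ} {δ : ℝ} {K : ℕ}

/-- `α a a = 0` and `α a b = - α b a` from the triangles `(a,a,a)` and `(a,b,a)`.  Define `f` by
recursion on the depth: `f 1 = 0`, `f x = f (p x) + α (p x) x` otherwise (`p` = parent).  Prove
`α a b = f b - f a` by strong induction on `len a + len b`, using the triangle `(p a, a, b)` when
`len b ≤ len a` and `a ≠ 1` (if `a = 1` then `len b = 0`, so `b` has no parent and `b = 1`). -/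
theorem exists_potential (H : HypLen len δ) (hP : Par len K)
    (α : A → A → ℝ) (hα : ∀ a b c, Tri len K a b c → cob α a b c = 0) :
    ∃ f : A → ℝ, ∀ a b, Near len K a b → α a b = f b - f a := by
  classical
  choose! p hp1 hp2 hp3 using hP
  have h0 : ∀ a, α a a = 0 := fun a => by
    have := hα a a a ⟨H.near_refl a, H.near_refl a, H.near_refl a⟩
    rw [cob] at this
    linarith
  have hs : ∀ a b, Near len K a b → α b a = -α a b := fun a b h => by
    have := hα a b a ⟨h, H.near_symm h, H.near_refl a⟩
    rw [cob, h0] at this
    linarith
  obtain ⟨f, hf⟩ : ∃ f : A → ℝ, ∀ x, x ≠ 1 → f x = f (p x) + α (p x) x :=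
    ⟨(measure len).wf.fix fun x ih => if h : x = 1 then 0 else ih (p x) (hp1 x h) + α (p x) x,
      fun x h => by rw [WellFounded.fix_eq, dif_neg h]⟩
  have key : ∀ n a b, len a + len b < n → Near len K a b → α a b = f b - f a := by
    intro n
    induction n with
    | zero => intro a b h; omega
    | succ n ih =>
      have step : ∀ a b, len a + len b < n + 1 → Near len K a b → len b ≤ len a →
          α a b = f b - f a := by
        intro a b h hab hle
        by_cases ha : a = 1
        · have hb : b = 1 := by
            by_contra hb
            have := hp1 b hb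
            rw [ha, H.one] at hle
            omega
          rw [ha, hb, h0, sub_self]
        · have h1 := hα (p a) a b ⟨hp2 a ha, hab, hp3 a ha b hab hle⟩
          have h2 := ih (p a) b (by have := hp1 a ha; omega) (hp3 a ha b hab hle)
          rw [cob] at h1
          linarith [hf a ha]
      intro a b h hab
      rcases le_total (len b) (len a) with hle | hle
      · exact step a b h hab hle
      · have := step b a (by omega) (H.near_symm hab) hle
        linarith [hs a b hab]
  exact ⟨f, fun a b => key _ a b (Nat.lt_succ_self _)⟩

/-- Induction over parents. -/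
theorem Link.deep_one (H : HypLen len δ) (hP : Par len K)
    {F : Subgroup A} {K1 K2 : ℕ} {B : ℝ} {W I J : A → A → A → A → ℝ}
    (D : Link len F K K1 K2 B W I J) (x a b c : A) (ht : Tri len K a b c)
    (h : len x + K1 < len a) : W x a b c = W 1 a b c := by
  have _ := H
  induction hn : len x using Nat.strong_induction_on generalizing x with
  | _ n ih =>
    by_cases hx : x = 1
    · rw [hx]
    · obtain ⟨p, h1, h2, -⟩ := hP x hx
      rw [D.deep p x a b c h2 ht (by omega)]
      exact ih (len p) (by omega) p (by omega) rfl

end KKC.S3
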