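import Pool.Agent.Lib.MP_e1e491_gt.VN

/-! The concrete layer: `ℓ²` of a free cofinite `A`-set, kernel operators. -/

open scoped InnerProductSpace Topology
open Filter ContinuousLinearMap

namespace KKVN

/-- Real `ℓ²` of a type. -/
abbrev L2 (X : Type*) := lp (fun _ : X => ℝ) 2

variable {X Y Z : Type*}

theorem memL2_iff {f : X → ℝ} : Memℓp f 2 ↔ Summable fun x => f x ^ 2 := by
  rw [memℓp_gen_iff (by norm_num)]
  simp

theorem hasSum_sq (f : L2 X) : HasSum (fun x => f x ^ 2) (‖f‖ ^ 2) := by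
  have := lp.hasSum_norm (p := 2) (by norm_num) f
  simpa using this

theorem hasSum_mul (f h : L2 X) : HasSum (fun x => f x * h x) ⟪f, h⟫_ℝ := by
  have := lp.hasSum_inner (𝕜 := ℝ) f h
  simpa [mul_comm] using this

theorem sum_sq_le (f : L2 X) (s : Finset X) : ∑ x ∈ s, f x ^ 2 ≤ ‖f‖ ^ 2 :=
  sum_le_hasSum s (fun _ _ => sq_nonneg _) (hasSum_sq f)

theorem le_of_sq_le_sq_aux {a b : ℝ} (h : a ^ 2 ≤ b ^ 2) (hb : 0 ≤ b) : a ≤ b :=
  le_trans (le_abs_self a) (abs_le_of_sq_le_sq h hb)

/-- An element of `ℓ²` from a bound on finite sums of squares. -/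
theorem exists_L2 (f : X → ℝ) {C : ℝ} (hC : 0 ≤ C) (h : ∀ s : Finset X, ∑ x ∈ s, f x ^ 2 ≤ C ^ 2) :
    ∃ u : L2 X, (∀ x, u x = f x) ∧ ‖u‖ ≤ C := by
  have h1 : Memℓp f 2 := memL2_iff.mpr (summable_of_sum_le (fun _ => sq_nonneg _) h)
  refine ⟨⟨f, h1⟩, fun _ => rfl, ?_⟩
  have h2 := hasSum_le_of_sum_le (hasSum_sq (⟨f, h1⟩ : L2 X)) h
  exact le_of_sq_le_sq_aux h2 hC

/-- A bounded operator from a pointwise linear rule with a norm bound. -/
theorem exists_op (Φ : (X → ℝ) → Y → ℝ) {C : ℝ} (hC : 0 ≤ C)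
    (hadd : ∀ f h : L2 X, Φ (f + h : L2 X) = Φ f + Φ h)
    (hsm : ∀ (c : ℝ) (f : L2 X), Φ (c • f : L2 X) = c • Φ f)
    (hb : ∀ (f : L2 X) (s : Finset Y), ∑ y ∈ s, Φ f y ^ 2 ≤ (C * ‖f‖) ^ 2) :
    ∃ T : L2 X →L[ℝ] L2 Y, (∀ f y, T f y = Φ f y) ∧ ‖T‖ ≤ C := by
  choose u hu hn using fun f : L2 X => exists_L2 (Φ f) (by positivity) (hb f)
  let L : L2 X →ₗ[ℝ] L2 Y :=
    { toFun := u
      map_add' := fun f h => lp.ext (funext fun y => by
        rw [lp.coeFn_add, Pi.add_apply, hu, hu, hu, hadd, Pi.add_apply])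
      map_smul' := fun c f => lp.ext (funext fun y => by
        rw [lp.coeFn_smul, Pi.smul_apply, hu, hu, hsm, Pi.smul_apply, RingHom.id_apply]) }
  exact ⟨L.mkContinuous C hn, hu, L.mkContinuous_norm_le hC hn⟩

/-- Kernel operators: bounded entries, at most `N` entries in each row and in each column. -/
theorem exists_kop (k : Y → X → ℝ) {N : ℕ} {B : ℝ} (hB0 : 0 ≤ B) (hB : ∀ y x, |k y x| ≤ B)
    (hr : ∀ y, ∃ s : Finset X, s.card ≤ N ∧ ∀ x, k y x ≠ 0 → x ∈ s)
    (hc : ∀ x, ∃ s : Finset Y, s.card ≤ N ∧ ∀ y, k y x ≠ 0 → y ∈ s) :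
    ∃ T : L2 X →L[ℝ] L2 Y, (∀ f y, HasSum (fun x => k y x * f x) (T f y)) ∧ ‖T‖ ≤ N * B := by
  classical
  choose r hrc hr using hr
  choose c hcc hc using hc
  obtain ⟨T, hT, hn⟩ := exists_op (fun f y => ∑ x ∈ r y, k y x * f x) (C := N * B) (by positivity)
    (fun f h => funext fun y => by
      simp only [lp.coeFn_add, Pi.add_apply, mul_add, Finset.sum_add_distrib])
    (fun a f => funext fun y => by
      simp only [lp.coeFn_smul, Pi.smul_apply, smul_eq_mul, Finset.mul_sum]
      exact Finset.sum_congr rfl fun x _ => by ring)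
    (fun f s => by
      set U := s.biUnion r with hU
      have h1 : ∀ y ∈ s, (∑ x ∈ r y, k y x * f x) ^ 2 ≤
          N * B ^ 2 * ∑ x ∈ U, if y ∈ c x then f x ^ 2 else 0 := by
        intro y hy
        have a1 := sq_sum_le_card_mul_sum_sq (s := r y) (f := fun x => k y x * f x)
        have a2 : ∑ x ∈ r y, (k y x * f x) ^ 2 ≤
            B ^ 2 * ∑ x ∈ U, if y ∈ c x then f x ^ 2 else 0 := by
          rw [Finset.mul_sum]
          refine le_trans (Finset.sum_le_sum (g := fun x => B ^ 2 * if y ∈ c x then f x ^ 2 else 0)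
            fun x _ => ?_) (Finset.sum_le_sum_of_subset_of_nonneg
              (Finset.subset_biUnion_of_mem r hy) fun x _ _ => by positivity)
          by_cases h0 : k y x = 0
          · rw [h0]; simp only [zero_mul, ne_eq, OfNat.ofNat_ne_zero, not_false_eq_true, zero_pow]
            positivity
          · rw [if_pos (hc x y h0), mul_pow]
            exact mul_le_mul_of_nonneg_right (sq_le_sq' (abs_le.mp (hB y x)).1
              (abs_le.mp (hB y x)).2) (sq_nonneg _)
        have a3 : ((r y).card : ℝ) ≤ N := by exact_mod_cast hrc y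
        calc _ ≤ _ := a1
          _ ≤ (N : ℝ) * (B ^ 2 * ∑ x ∈ U, if y ∈ c x then f x ^ 2 else 0) :=
            mul_le_mul a3 a2 (by positivity) (by positivity)
          _ = _ := by ring
      have h2 : ∑ y ∈ s, ∑ x ∈ U, (if y ∈ c x then f x ^ 2 else 0) ≤ N * ‖f‖ ^ 2 := by
        rw [Finset.sum_comm]
        refine le_trans (Finset.sum_le_sum (g := fun x => N * f x ^ 2) fun x _ => ?_) ?_
        · rw [← Finset.sum_filter, Finset.sum_const, nsmul_eq_mul]
          refine mul_le_mul_of_nonneg_right ?_ (sq_nonneg _)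
          have : (s.filter fun y => y ∈ c x).card ≤ N :=
            (Finset.card_le_card fun y hy => (Finset.mem_filter.mp hy).2).trans (hcc x)
          exact_mod_cast this
        · rw [← Finset.mul_sum]
          exact mul_le_mul_of_nonneg_left (sum_sq_le f U) (by positivity)
      calc _ ≤ ∑ y ∈ s, N * B ^ 2 * ∑ x ∈ U, if y ∈ c x then f x ^ 2 else 0 :=
            Finset.sum_le_sum h1
        _ = N * B ^ 2 * ∑ y ∈ s, ∑ x ∈ U, if y ∈ c x then f x ^ 2 else 0 := by
            rw [Finset.mul_sum]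
        _ ≤ N * B ^ 2 * (N * ‖f‖ ^ 2) := mul_le_mul_of_nonneg_left h2 (by positivity)
        _ = _ := by ring)
  refine ⟨T, fun f y => ?_, hn⟩
  rw [hT]
  exact hasSum_sum_of_ne_finset_zero fun x hx => by
    rw [not_not.mp fun h => hx (hr y x h), zero_mul]

variable {A : Type*} [Group A] [MulAction A X] [MulAction A Y] [MulAction A Z]

theorem exists_sh (g : A) : ∃ T : L2 X →L[ℝ] L2 X, ∀ f x, T f x = f (g⁻¹ • x) := by
  classical
  obtain ⟨T, hT, -⟩ := exists_op (X := X) (Y := X) (fun f x => f (g⁻¹ • x)) (C := 1) zero_le_one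
    (fun f h => rfl) (fun c f => rfl) (fun f s => by
      rw [one_mul, ← Finset.sum_image (s := s) (g := fun x => g⁻¹ • x) (f := fun x => f x ^ 2)
        fun a _ b _ h => MulAction.injective _ h]
      exact sum_sq_le f _)
  exact ⟨T, hT⟩

/-- Translation of an `ℓ²` function by a group element. -/
noncomputable def sh (X : Type*) [MulAction A X] (g : A) : L2 X →L[ℝ] L2 X :=
  Classical.choose (exists_sh g)

theorem sh_apply (g : A) (f : L2 X) (x : X) : sh X g f x = f (g⁻¹ • x) :=
  Classical.choose_spec (exists_sh g) f x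

theorem sh_adj (g : A) (f h : L2 X) : ⟪sh X g f, h⟫_ℝ = ⟪f, sh X g⁻¹ h⟫_ℝ := by
  refine (hasSum_mul _ _).unique ?_
  have := (MulAction.toPerm g⁻¹ : Equiv.Perm X).hasSum_iff.mpr (hasSum_mul f (sh X g⁻¹ h))
  convert this using 2 with x
  simp [sh_apply]

/-- The action is free and has finitely many orbits. -/
def FreeCof (A X : Type*) [Group A] [MulAction A X] : Prop :=
  (∀ (g : A) (x : X), g • x = x → g = 1) ∧ ∃ s : Finset X, ∀ x, ∃ g : A, ∃ y ∈ s, g • y = x

theorem exists_fr (h : FreeCof A X) : ∃ F : Fr A (L2 X), F.ρ = sh X := by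
  classical
  obtain ⟨hf, s, hs⟩ := h
  have : Finite (MulAction.orbitRel.Quotient A X) := by
    refine Finite.of_surjective (fun y : s => (Quotient.mk _ y.1 : MulAction.orbitRel.Quotient A X))
      ?_
    intro q
    obtain ⟨x, rfl⟩ := Quotient.exists_rep q
    obtain ⟨g, y, hy, rfl⟩ := hs x
    exact ⟨⟨y, hy⟩, (Quotient.sound (s := MulAction.orbitRel A X) ⟨g, rfl⟩).symm⟩
  obtain ⟨n, ⟨e⟩⟩ := Finite.exists_equiv_fin (MulAction.orbitRel.Quotient A X)
  let b : Fin n → X := fun i => (e.symm i).out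
  have hb : Function.Bijective fun p : A × Fin n => p.1 • b p.2 := by
    constructor
    · rintro ⟨g, i⟩ ⟨g', j⟩ hij
      simp only at hij
      have h1 : i = j := by
        have : (Quotient.mk _ (b i) : MulAction.orbitRel.Quotient A X) = Quotient.mk _ (b j) :=
          Quotient.sound ⟨g⁻¹ * g', by simp only [mul_smul, ← hij, inv_smul_smul]⟩
        simp only [b, Quotient.out_eq] at this
        exact e.symm.injective this
      subst h1
      have := hf (g'⁻¹ * g) (b i) (by rw [mul_smul, hij, inv_smul_smul])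
      rw [inv_mul_eq_one] at this
      rw [this]
    · intro x
      have : (Quotient.mk _ x : MulAction.orbitRel.Quotient A X) =
          Quotient.mk _ (b (e (Quotient.mk _ x))) := by simp [b]
      obtain ⟨g, hg⟩ := Quotient.exact this
      exact ⟨(g, e (Quotient.mk _ x)), hg⟩
  refine ⟨⟨sh X, sh_adj, n, fun i => lp.single 2 (b i) (1 : ℝ), fun u v => ?_⟩, rfl⟩
  have h1 := (Equiv.ofBijective _ hb).hasSum_iff.mpr (hasSum_mul u v)
  have h2 : ∀ (g : A) (i : Fin n) (w : L2 X),
      ⟪sh X g (lp.single 2 (b i) (1 : ℝ)), w⟫_ℝ = w (g • b i) := by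
    intro g i w
    rw [sh_adj, lp.inner_single_left, sh_apply]
    simp
  refine h1.prod_fiberwise fun g => ?_
  convert hasSum_fintype _ using 3 with i
  rw [real_inner_comm, h2, h2]
  rfl

/-- A kernel operator with an invariant kernel is equivariant. -/
theorem kop_eqv {k : Y → X → ℝ} (hk : ∀ (g : A) y x, k (g • y) (g • x) = k y x)
    {T : L2 X →L[ℝ] L2 Y} (hT : ∀ f y, HasSum (fun x => k y x * f x) (T f y)) (g : A) (f : L2 X) :
    T (sh X g f) = sh Y g (T f) := by
  refine lp.ext (funext fun y => ?_)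
  rw [sh_apply]
  refine (hT _ y).unique ?_
  have := (MulAction.toPerm g⁻¹ : Equiv.Perm X).hasSum_iff.mpr (hT f (g⁻¹ • y))
  convert this using 2 with x
  simp [sh_apply, hk]

/-- The density lemma for `ℓ²` of free cofinite sets. -/
theorem dense_ker_L2 (hX : FreeCof A X) (hY : FreeCof A Y) (hZ : FreeCof A Z)
    {T : L2 X →L[ℝ] L2 Y} {Q : L2 Y →L[ℝ] L2 Z}
    (hT : ∀ (g : A) f, T (sh X g f) = sh Y g (T f)) (hQ : ∀ (g : A) f, Q (sh Y g f) = sh Z g (Q f))
    {y : L2 Y} (hy : y ∈ closure (Set.range T)) (hQy : Q y = 0) :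
    y ∈ closure (T '' {x | Q (T x) = 0}) := by
  obtain ⟨F1, h1⟩ := exists_fr hX
  obtain ⟨F2, h2⟩ := exists_fr hY
  obtain ⟨F3, h3⟩ := exists_fr hZ
  exact dense_ker (F1 := F1) (F2 := F2) (F3 := F3) (fun g f => by rw [h1, h2]; exact hT g f)
    (fun g f => by rw [h2, h3]; exact hQ g f) hy hQy

/-- The form used for plane cycles: `P` is an invariant set of coordinates; a limit of values of
`T` that vanishes off `P` is a limit of values of `T` that vanish off `P`. -/
theorem dense_supp (hX : FreeCof A X) (hY : FreeCof A Y) {T : L2 X →L[ℝ] L2 Y}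
    (hT : ∀ (g : A) f, T (sh X g f) = sh Y g (T f)) {P : Y → Prop}
    (hP : ∀ (g : A) y, P (g • y) ↔ P y) {y : L2 Y} (hy : y ∈ closure (Set.range T))
    (h0 : ∀ e, ¬ P e → y e = 0) : y ∈ closure (T '' {x | ∀ e, ¬ P e → T x e = 0}) := by
  classical
  obtain ⟨Q, hQ, -⟩ := exists_op (X := Y) (Y := Y) (fun f e => if P e then 0 else f e) (C := 1)
    zero_le_one (fun f h => funext fun e => by by_cases he : P e <;> simp [he])
    (fun c f => funext fun e => by by_cases he : P e <;> simp [he])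
    (fun f s => by
      rw [one_mul]
      refine le_trans (Finset.sum_le_sum fun e _ => ?_) (sum_sq_le f s)
      by_cases he : P e <;> simp [he, sq_nonneg])
  have hz : ∀ f, Q f = 0 ↔ ∀ e, ¬ P e → f e = 0 := by
    intro f
    constructor
    · intro h e he
      have := hQ f e
      rw [h, if_neg he] at this
      exact this.symm
    · intro h
      refine lp.ext (funext fun e => ?_)
      rw [hQ]
      by_cases he : P e
      · simp [he]
      · simp [he, h e he]
  have := dense_ker_L2 hX hY hY hT (Q := Q) (fun g f => lp.ext (funext fun e => by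
    rw [sh_apply, hQ, hQ, sh_apply, hP])) hy ((hz y).mpr h0)
  simpa only [hz] using this

/-- The adjoint of a kernel operator is the operator of the transposed kernel. -/
theorem kop_inner {k : Y → X → ℝ} {T : L2 X →L[ℝ] L2 Y} {S : L2 Y →L[ℝ] L2 X}
    (hT : ∀ f y, HasSum (fun x => k y x * f x) (T f y))
    (hS : ∀ h x, HasSum (fun y => k y x * h y) (S h x)) (f : L2 X) (h : L2 Y) :
    ⟪T f, h⟫_ℝ = ⟪f, S h⟫_ℝ := by
  classical
  have : innerSL ℝ h ∘L T = innerSL ℝ (S h) := by
    refine lp.ext_continuousLinearMap (by simp) fun x => ?_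
    ext
    simp only [comp_apply, lp.singleContinuousLinearMap_apply, innerSL_apply_apply]
    rw [lp.inner_single_right]
    have h1 : ∀ y, T (lp.single 2 x (1 : ℝ)) y = k y x := fun y => by
      refine (hT _ y).unique ?_
      convert hasSum_single (f := fun x' => k y x' * (lp.single 2 x (1 : ℝ) : L2 X) x') x
        fun x' hx => by rw [lp.single_apply_ne _ _ _ hx, mul_zero] using 1
      rw [lp.single_apply_self, mul_one]
    have h2 := hasSum_mul h (T (lp.single 2 x (1 : ℝ)))
    simp only [h1] at h2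
    rw [h2.unique (by simpa only [mul_comm] using hS h x)]
    simp
  have h3 := congrArg (fun L : L2 X →L[ℝ] ℝ => L f) this
  simp only [comp_apply, innerSL_apply_apply] at h3
  rw [real_inner_comm, h3, real_inner_comm]

end KKVN
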