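import Pool.Agent.Lib.MP_e1e491_gt.S3AAdj
import Pool.Agent.Lib.MP_e1e491_gt.S3AGrad
import Pool.Agent.Lib.MP_e1e491_gt.VNL2

set_option autoImplicit false

/-!
Plane cycles that bound are dense in the plane cycles.
-/

open scoped InnerProductSpace

namespace KKC.S3

variable {A : Type} [Group A] {len : A → ℕ} {δ : ℝ} {K : ℕ}

open Classical in
/-- Extension by zero of a function on a subtype. -/
noncomputable def s3adenseExt {ι : Type} {p : ι → Prop} (f : Subtype p → ℝ) (i : ι) : ℝ :=
  if h : p i then f ⟨i, h⟩ else 0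

section Ext

variable {ι : Type} {p : ι → Prop}

lemma s3adense_pos (f : Subtype p → ℝ) {i : ι} (h : p i) : s3adenseExt f i = f ⟨i, h⟩ :=
  dif_pos h

lemma s3adense_neg (f : Subtype p → ℝ) {i : ι} (h : ¬ p i) : s3adenseExt f i = 0 :=
  dif_neg h

lemma s3adense_supp (f : Subtype p → ℝ) (i : ι) (h : s3adenseExt f i ≠ 0) : p i :=
  not_not.mp fun h' => h (s3adense_neg f h')

lemma s3adense_hasSum {g : ι → ℝ} (hg : ∀ i, g i ≠ 0 → p i) {a : ℝ} :
    HasSum (fun x : Subtype p => g x.1) a ↔ HasSum g a :=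
  Subtype.val_injective.hasSum_iff (f := g) fun i hi =>
    not_not.mp fun h => hi ⟨⟨i, hg i h⟩, rfl⟩

lemma s3adense_hasSum_sq (f : KKVN.L2 (Subtype p)) :
    HasSum (fun i => s3adenseExt f i ^ 2) (‖f‖ ^ 2) := by
  rw [← s3adense_hasSum (p := p) fun i hi => s3adense_supp f i fun h => hi (by rw [h]; simp)]
  simpa only [s3adense_pos _ (Subtype.property _)] using KKVN.hasSum_sq f

lemma s3adense_mem {g : ι → ℝ} (hg : Summable fun i => g i ^ 2) :
    Memℓp (fun x : Subtype p => g x.1) 2 :=
  KKVN.memL2_iff.mpr (hg.comp_injective Subtype.val_injective)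

lemma s3adense_cont (i : ι) : Continuous fun u : KKVN.L2 (Subtype p) => s3adenseExt u i := by
  by_cases h : p i
  · simp only [s3adense_pos _ h]
    exact (lp.evalCLM ℝ (fun _ : Subtype p => ℝ) 2 ⟨i, h⟩).continuous
  · simp only [s3adense_neg _ h]
    exact continuous_const

lemma s3adense_add (f h : KKVN.L2 (Subtype p)) :
    s3adenseExt (f + h : KKVN.L2 (Subtype p)) = s3adenseExt f + s3adenseExt h := by
  funext i
  by_cases hi : p i
  · simp only [Pi.add_apply, s3adense_pos _ hi, lp.coeFn_add]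
  · simp only [Pi.add_apply, s3adense_neg _ hi, add_zero]

lemma s3adense_sub (f h : KKVN.L2 (Subtype p)) (i : ι) :
    s3adenseExt (f - h : KKVN.L2 (Subtype p)) i = s3adenseExt f i - s3adenseExt h i := by
  by_cases hi : p i
  · simp only [Pi.sub_apply, s3adense_pos _ hi, lp.coeFn_sub]
  · simp only [s3adense_neg _ hi, sub_zero]

lemma s3adense_smul (c : ℝ) (f : KKVN.L2 (Subtype p)) (i : ι) :
    s3adenseExt (c • f : KKVN.L2 (Subtype p)) i = c * s3adenseExt f i := by
  by_cases hi : p i
  · simp only [Pi.smul_apply, s3adense_pos _ hi, lp.coeFn_smul, smul_eq_mul]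
  · simp only [s3adense_neg _ hi, mul_zero]

lemma s3adense_res {g : ι → ℝ} (hg : ∀ i, g i ≠ 0 → p i) :
    s3adenseExt (fun x : Subtype p => g x.1) = g := by
  funext i
  by_cases hi : p i
  · exact s3adense_pos _ hi
  · rw [s3adense_neg _ hi]
    exact (not_not.mp fun h => hi (hg i h)).symm

end Ext

lemma s3adense_near (g a b : A) : Near len K (g * a) (g * b) ↔ Near len K a b := by
  rw [Near, Near, mul_inv_rev, mul_assoc, inv_mul_cancel_left]

lemma s3adense_tri (g a b c : A) : Tri len K (g * a) (g * b) (g * c) ↔ Tri len K a b c := by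
  simp only [Tri, s3adense_near]

/-- The edges. -/
abbrev S3ADenseE (len : A → ℕ) (K : ℕ) : Type := {e : A × A // Near len K e.1 e.2}

/-- The triangles. -/
abbrev S3ADenseT (len : A → ℕ) (K : ℕ) : Type :=
  {t : A × A × A // Tri len K t.1 t.2.1 t.2.2}

instance s3adenseActE : MulAction A (S3ADenseE len K) where
  smul g e := ⟨(g * e.1.1, g * e.1.2), (s3adense_near g _ _).mpr e.2⟩
  one_smul _ := Subtype.ext (Prod.ext (one_mul _) (one_mul _))
  mul_smul _ _ _ := Subtype.ext (Prod.ext (mul_assoc _ _ _) (mul_assoc _ _ _))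

instance s3adenseActT : MulAction A (S3ADenseT len K) where
  smul g t := ⟨(g * t.1.1, g * t.1.2.1, g * t.1.2.2), (s3adense_tri g _ _ _).mpr t.2⟩
  one_smul _ := Subtype.ext (Prod.ext (one_mul _) (Prod.ext (one_mul _) (one_mul _)))
  mul_smul _ _ _ :=
    Subtype.ext (Prod.ext (mul_assoc _ _ _) (Prod.ext (mul_assoc _ _ _) (mul_assoc _ _ _)))

lemma s3adense_smulE (g : A) (e : S3ADenseE len K) : (g • e).1 = (g * e.1.1, g * e.1.2) := rfl

lemma s3adense_smulT (g : A) (t : S3ADenseT len K) :
    (g • t).1 = (g * t.1.1, g * t.1.2.1, g * t.1.2.2) := rfl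

lemma s3adense_freeE (H : HypLen len δ) : KKVN.FreeCof A (S3ADenseE len K) := by
  refine ⟨fun g e h => ?_, ?_⟩
  · have h1 : g * e.1.1 = e.1.1 := congrArg (fun x : S3ADenseE len K => x.1.1) h
    exact mul_eq_right.mp h1
  · have hf : {e : S3ADenseE len K | e.1.1 = 1}.Finite := by
      refine Set.Finite.of_finite_image (f := fun e => e.1.2) ((H.finite_near (K := K) 1).subset ?_) ?_
      · rintro _ ⟨e, he, rfl⟩
        have h2 := e.2
        rw [show e.1.1 = 1 from he] at h2
        exact h2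
      · intro e he e' he' h
        exact Subtype.ext (Prod.ext ((show e.1.1 = 1 from he).trans (show e'.1.1 = 1 from he').symm) h)
    refine ⟨hf.toFinset, fun e => ⟨e.1.1, e.1.1⁻¹ • e, ?_, smul_inv_smul _ _⟩⟩
    rw [Set.Finite.mem_toFinset]
    exact inv_mul_cancel _

lemma s3adense_freeT (H : HypLen len δ) : KKVN.FreeCof A (S3ADenseT len K) := by
  refine ⟨fun g t h => ?_, ?_⟩
  · have h1 : g * t.1.1 = t.1.1 := congrArg (fun x : S3ADenseT len K => x.1.1) h
    exact mul_eq_right.mp h1
  · have hf : {t : S3ADenseT len K | t.1.1 = 1}.Finite := by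
      refine Set.Finite.of_finite_image (f := fun t => t.1.2)
        (((H.finite_near (K := K) 1).prod (H.finite_near (K := K) 1)).subset ?_) ?_
      · rintro _ ⟨t, ht, rfl⟩
        have h2 := t.2
        rw [show t.1.1 = 1 from ht] at h2
        exact ⟨h2.1, h2.2.2⟩
      · intro t ht t' ht' h
        exact Subtype.ext (Prod.ext ((show t.1.1 = 1 from ht).trans (show t'.1.1 = 1 from ht').symm) h)
    refine ⟨hf.toFinset, fun t => ⟨t.1.1, t.1.1⁻¹ • t, ?_, smul_inv_smul _ _⟩⟩
    rw [Set.Finite.mem_toFinset]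
    exact inv_mul_cancel _

lemma s3adense_summable (H : HypLen len δ) (a : A) {u : A → ℝ}
    (hu : ∀ c, u c ≠ 0 → Near len K a c) : Summable u :=
  summable_of_hasFiniteSupport ((H.finite_near (K := K) a).subset hu)

lemma s3adense_bd2_add (H : HypLen len δ) {b b' : A × A × A → ℝ}
    (hb : ∀ t, b t ≠ 0 → Tri len K t.1 t.2.1 t.2.2)
    (hb' : ∀ t, b' t ≠ 0 → Tri len K t.1 t.2.1 t.2.2) (e : A × A) :
    bd2 (b + b') e = bd2 b e + bd2 b' e := by
  have s1 : ∀ {u : A × A × A → ℝ}, (∀ t, u t ≠ 0 → Tri len K t.1 t.2.1 t.2.2) →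
      Summable (fun c => u (e.1, e.2, c)) ∧ Summable (fun a => u (a, e.1, e.2)) ∧
        Summable (fun m => u (e.1, m, e.2)) := fun hu =>
    ⟨s3adense_summable H e.1 fun c h => (hu _ h).2.2,
      s3adense_summable H e.1 fun c h => H.near_symm (hu _ h).1,
      s3adense_summable H e.1 fun c h => (hu _ h).1⟩
  simp only [bd2, Pi.add_apply]
  rw [(s1 hb).1.tsum_add (s1 hb').1, (s1 hb).2.1.tsum_add (s1 hb').2.1,
    (s1 hb).2.2.tsum_add (s1 hb').2.2]
  ring

lemma s3adense_bd2_shift (b : A × A × A → ℝ) (g : A) (e : A × A) :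
    bd2 (fun t => b (g * t.1, g * t.2.1, g * t.2.2)) e = bd2 b (g * e.1, g * e.2) := by
  simp only [bd2]
  rw [← (Equiv.mulLeft g).tsum_eq fun c => b (g * e.1, g * e.2, c),
    ← (Equiv.mulLeft g).tsum_eq fun c => b (c, g * e.1, g * e.2),
    ← (Equiv.mulLeft g).tsum_eq fun c => b (g * e.1, c, g * e.2)]
  rfl

omit [Group A] in
open Classical in
lemma s3adense_bd2_single (a b c : A) (e : A × A) :
    bd2 (fun t => if t = (a, b, c) then (1 : ℝ) else 0) e =
      (if e = (a, b) then 1 else 0) + (if e = (b, c) then 1 else 0) -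
        if e = (a, c) then 1 else 0 := by
  obtain ⟨x, y⟩ := e
  simp only [bd2]
  rw [tsum_eq_single c fun c' h => if_neg fun h' => h (congrArg (fun t => t.2.2) h'),
    tsum_eq_single a fun c' h => if_neg fun h' => h (congrArg (fun t => t.1) h'),
    tsum_eq_single b fun c' h => if_neg fun h' => h (congrArg (fun t => t.2.1) h')]
  simp only [Prod.mk.injEq, and_true, true_and]

lemma s3adense_bd1_sum (H : HypLen len δ) (x : A) : ∃ S : Finset A, ∀ z : A × A → ℝ,
    (∀ e, z e ≠ 0 → Near len K e.1 e.2) →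
      bd1 z x = ∑ y ∈ S, z (y, x) - ∑ y ∈ S, z (x, y) := by
  refine ⟨(H.finite_near (K := K) x).toFinset, fun z hz => ?_⟩
  rw [bd1, tsum_eq_sum, tsum_eq_sum]
  · intro y hy
    rw [Set.Finite.mem_toFinset] at hy
    exact not_not.mp fun h => hy (hz _ h)
  · intro y hy
    rw [Set.Finite.mem_toFinset] at hy
    exact not_not.mp fun h => hy (H.near_symm (hz _ h))

lemma s3adense_chain2 (f : KKVN.L2 (S3ADenseT len K)) : Chain2 len K (s3adenseExt f) :=
  ⟨s3adense_supp f, (s3adense_hasSum_sq f).summable⟩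

lemma s3adense_chain1 (f : KKVN.L2 (S3ADenseE len K)) : Chain1 len K (s3adenseExt f) :=
  ⟨s3adense_supp f, (s3adense_hasSum_sq f).summable⟩

/-- The boundary as an equivariant bounded operator. -/
lemma s3adense_op (H : HypLen len δ) (K : ℕ) :
    ∃ T : KKVN.L2 (S3ADenseT len K) →L[ℝ] KKVN.L2 (S3ADenseE len K),
      (∀ f, s3adenseExt (T f) = bd2 (s3adenseExt f)) ∧
        ∀ (g : A) f, T (KKVN.sh _ g f) = KKVN.sh _ g (T f) := by
  classical
  obtain ⟨C, hC, hb⟩ := exists_bd2_bound H K
  obtain ⟨T, hT, -⟩ := KKVN.exists_op (X := S3ADenseT len K) (Y := S3ADenseE len K)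
    (fun f e => bd2 (s3adenseExt f) e.1) (Real.sqrt_nonneg C)
    (fun f h => funext fun e => by
      rw [s3adense_add]
      exact s3adense_bd2_add H (s3adense_supp f) (s3adense_supp h) e.1)
    (fun c f => funext fun e => by
      simp only [bd2, s3adense_smul, tsum_mul_left, Pi.smul_apply, smul_eq_mul]
      ring)
    (fun f s => by
      have h1 := hb _ (s3adense_chain2 f)
      rw [(s3adense_hasSum_sq f).tsum_eq] at h1
      rw [mul_pow, Real.sq_sqrt hC]
      refine le_trans ?_ h1
      have h2 := (Chain2.bd2 H (s3adense_chain2 f))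
      have h3 := (s3adense_hasSum (p := fun e : A × A => Near len K e.1 e.2)
        (g := fun e => bd2 (s3adenseExt f) e ^ 2)
        fun e he => h2.supp e fun h => he (by rw [h]; simp)).mpr h2.l2.hasSum
      exact sum_le_hasSum s (fun _ _ => sq_nonneg _) h3)
  refine ⟨T, fun f => ?_, fun g f => lp.ext (funext fun e => ?_)⟩
  · rw [← s3adense_res (p := fun e : A × A => Near len K e.1 e.2)
      (Chain2.bd2 H (s3adense_chain2 f)).supp]
    exact congrArg s3adenseExt (funext (hT f))
  · rw [KKVN.sh_apply, hT, hT, s3adense_smulE, ← s3adense_bd2_shift]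
    refine congrArg (fun b => bd2 b e.1) (funext fun t => ?_)
    by_cases ht : Tri len K t.1 t.2.1 t.2.2
    · rw [s3adense_pos (p := fun t : A × A × A => Tri len K t.1 t.2.1 t.2.2) _ ht, KKVN.sh_apply,
        s3adense_pos (p := fun t : A × A × A => Tri len K t.1 t.2.1 t.2.2) _
          ((s3adense_tri g⁻¹ _ _ _).mpr ht)]
      rfl
    · rw [s3adense_neg (p := fun t : A × A × A => Tri len K t.1 t.2.1 t.2.2) _ ht,
        s3adense_neg (p := fun t : A × A × A => Tri len K t.1 t.2.1 t.2.2) _
          fun h => ht ((s3adense_tri g⁻¹ _ _ _).mp h)]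

lemma s3adense_inner (u v : KKVN.L2 (S3ADenseE len K)) :
    HasSum (fun e => s3adenseExt u e * s3adenseExt v e) ⟪u, v⟫_ℝ := by
  rw [← s3adense_hasSum (p := fun e : A × A => Near len K e.1 e.2)
    fun e he => s3adense_supp u e (left_ne_zero_of_mul he)]
  simpa only [s3adense_pos _ (Subtype.property _)] using KKVN.hasSum_mul u v

/-- Every square summable cycle is a limit of boundaries. -/
lemma s3adense_closure (H : HypLen len δ) (hP : Par len K) (hS : StarW len K)
    {T : KKVN.L2 (S3ADenseT len K) →L[ℝ] KKVN.L2 (S3ADenseE len K)}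
    (hT : ∀ f, s3adenseExt (T f) = bd2 (s3adenseExt f)) (u : KKVN.L2 (S3ADenseE len K))
    (hu : ∀ x, bd1 (s3adenseExt u) x = 0) : u ∈ closure (Set.range T) := by
  classical
  let V : Submodule ℝ (KKVN.L2 (S3ADenseE len K)) := LinearMap.range T.toLinearMap
  have hV : (V.topologicalClosure : Set (KKVN.L2 (S3ADenseE len K))) = closure (Set.range T) := by
    rw [Submodule.topologicalClosure_coe, LinearMap.coe_range]
    rfl
  have hm : KKVN.pr V u ∈ closure (Set.range T) := by
    rw [← hV]
    exact KKVN.pr_mem V u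
  have ho : ∀ f, ⟪u - KKVN.pr V u, T f⟫_ℝ = 0 := fun f =>
    KKVN.pr_orth V u (V.le_topologicalClosure ⟨f, rfl⟩)
  set α := u - KKVN.pr V u with hα
  have hc : ∀ x, bd1 (s3adenseExt α) x = 0 := by
    intro x
    obtain ⟨S, hS⟩ := s3adense_bd1_sum (K := K) H x
    have hcl : IsClosed {w : KKVN.L2 (S3ADenseE len K) |
        ∑ y ∈ S, s3adenseExt w (y, x) - ∑ y ∈ S, s3adenseExt w (x, y) = 0} :=
      isClosed_eq ((continuous_finsetSum _ fun y _ => s3adense_cont _).sub
        (continuous_finsetSum _ fun y _ => s3adense_cont _)) continuous_const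
    have h1 := closure_minimal (s := Set.range T) (by
      rintro _ ⟨f, rfl⟩
      rw [Set.mem_ofPred_eq, ← hS _ (s3adense_supp _), hT]
      exact bd1_bd2 H (s3adense_supp f) x) hcl hm
    have h2 := hu x
    rw [hS _ (s3adense_supp _)] at h2
    rw [Set.mem_ofPred_eq] at h1
    rw [hS _ (s3adense_supp _), hα]
    simp only [s3adense_sub, Finset.sum_sub_distrib]
    linarith
  have hcob : ∀ a b c, Tri len K a b c → cob (fun a b => s3adenseExt α (a, b)) a b c = 0 := by
    intro a b c ht
    have h1 := s3adense_inner α (T (lp.single 2 (⟨(a, b, c), ht⟩ : S3ADenseT len K) (1 : ℝ)))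
    have h2 : s3adenseExt (lp.single 2 (⟨(a, b, c), ht⟩ : S3ADenseT len K) (1 : ℝ) :
        KKVN.L2 (S3ADenseT len K)) = fun t => if t = (a, b, c) then (1 : ℝ) else 0 := by
      funext t
      by_cases h : t = (a, b, c)
      · subst h
        rw [s3adense_pos (p := fun t : A × A × A => Tri len K t.1 t.2.1 t.2.2) _ ht,
          lp.single_apply_self, if_pos rfl]
      · rw [if_neg h]
        by_cases h' : Tri len K t.1 t.2.1 t.2.2
        · rw [s3adense_pos (p := fun t : A × A × A => Tri len K t.1 t.2.1 t.2.2) _ h']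
          exact lp.single_apply_ne _ _ _ fun h0 => h (congrArg Subtype.val h0)
        · exact s3adense_neg (p := fun t : A × A × A => Tri len K t.1 t.2.1 t.2.2) _ h'
    rw [ho, hT, h2] at h1
    have h3 : ∀ e0 : A × A, HasSum (fun e => s3adenseExt α e * if e = e0 then 1 else 0)
        (s3adenseExt α e0) := fun e0 => by
      simpa only [if_true, mul_one] using hasSum_single
        (f := fun e => s3adenseExt α e * if e = e0 then 1 else 0) e0
        fun e he => by rw [if_neg he, mul_zero]
    have h4 := ((h3 (a, b)).add (h3 (b, c))).sub (h3 (a, c))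
    refine HasSum.unique h4 ?_
    simpa only [s3adense_bd2_single, mul_add, mul_sub] using h1
  obtain ⟨f, hf⟩ := exists_potential H hP _ hcob
  have hd : dK len K f = s3adenseExt α := by
    funext e
    by_cases he : Near len K e.1 e.2
    · rw [dK, if_pos he]
      exact (hf e.1 e.2 he).symm
    · rw [dK, if_neg he]
      exact (s3adense_neg (p := fun e : A × A => Near len K e.1 e.2) _ he).symm
  have h0 := hS f (by rw [hd]; exact (s3adense_hasSum_sq α).summable) _ (s3adense_chain1 α) hc
  rw [hd, (s3adense_inner α α).tsum_eq, inner_self_eq_zero, hα, sub_eq_zero] at h0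
  rw [h0]
  exact hm

/-- Let `X` be the subtype of triangles and `Y` the subtype of edges, with the diagonal action of
`A` (free, finitely many orbits: `KKVN.FreeCof`), and `T : L2 X →L L2 Y` the boundary `bd2`
(`KKVN.exists_op` with `exists_bd2_bound`, or `KKVN.exists_kop`), which is equivariant.
Step 1: the cycle `θ` lies in the closure of the range of `T`.  Let `α` be the component of `θ`
orthogonal to the range.  It is a cycle (`bd1_bd2`; `bd1 · x` is a finite sum of coordinates, so
continuous), and testing against the indicator chain of one triangle shows that `α` is a closed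
cochain; by `exists_potential` it is `dK len K f`, and `StarW` with `z = α` gives `‖α‖² = 0`.
Step 2: `KKVN.dense_supp` with `P e := e.1⁻¹ * e.2 ∈ F`, and continuity of the inner product
with `μ`. -/
theorem plane_dense (H : HypLen len δ) (hP : Par len K) (hS : StarW len K) (F : Subgroup A)
    {μ : A × A → ℝ} (hμ : Chain1 len K μ)
    (h : ∀ b, Chain2 len K b → (∀ e, bd2 b e ≠ 0 → e.1⁻¹ * e.2 ∈ F) →
      ∑' e, bd2 b e * μ e = 0)
    {θ : A × A → ℝ} (hθ : Chain1 len K θ) (hc : ∀ x, bd1 θ x = 0)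
    (hp : ∀ e, θ e ≠ 0 → e.1⁻¹ * e.2 ∈ F) : ∑' e, θ e * μ e = 0 := by
  obtain ⟨T, hT, hE⟩ := s3adense_op H K
  let u : KKVN.L2 (S3ADenseE len K) := ⟨fun e => θ e.1, s3adense_mem hθ.l2⟩
  let m : KKVN.L2 (S3ADenseE len K) := ⟨fun e => μ e.1, s3adense_mem hμ.l2⟩
  have hu : s3adenseExt u = θ := s3adense_res hθ.supp
  have hm : s3adenseExt m = μ := s3adense_res hμ.supp
  have h1 := s3adense_closure H hP hS hT u (by rw [hu]; exact hc)
  have h2 := KKVN.dense_supp (s3adense_freeT H) (s3adense_freeE H) hE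
    (P := fun e => e.1.1⁻¹ * e.1.2 ∈ F)
    (fun g e => by rw [s3adense_smulE, mul_inv_rev, mul_assoc, inv_mul_cancel_left]) h1
    fun e he => not_not.mp fun h0 => he (hp e.1 h0)
  have hcl : IsClosed {w : KKVN.L2 (S3ADenseE len K) | ⟪w, m⟫_ℝ = 0} :=
    isClosed_eq (continuous_id.inner continuous_const) continuous_const
  have h3 := closure_minimal (by
    rintro _ ⟨f, hf, rfl⟩
    have h4 := (s3adense_inner (T f) m).tsum_eq
    rw [hT, hm] at h4
    rw [Set.mem_ofPred_eq, ← h4]
    refine h _ (s3adense_chain2 f) fun e he => ?_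
    rw [← hT] at he
    have h5 := s3adense_supp _ e he
    rw [s3adense_pos (p := fun e : A × A => Near len K e.1 e.2) _ h5] at he
    exact not_not.mp fun h0 => he (hf ⟨e, h5⟩ h0)) hcl h2
  have h6 := (s3adense_inner u m).tsum_eq
  rw [hu, hm] at h6
  rw [h6]
  exact h3

end KKC.S3
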