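import Pool.Agent.Lib.MP_e1e491_gt.S3ABasic

set_option autoImplicit false

/-!
A binary tree below every element and the unit flow along it.
-/

namespace KKC.S3

variable {A : Type} [Group A] {len : A → ℕ} {δ : ℝ} {K : ℕ}

lemma s3atree_pair (H : HypLen len δ) {F : Subgroup A} {C : ℝ} {k : Fin 3 → A}
    (hk : Three len δ F K C k) (x : A) :
    ∃ i j, i ≠ j ∧ gp len x⁻¹ (k i) ≤ C + δ ∧ gp len x⁻¹ (k j) ≤ C + δ := by
  have key : ∀ i j, i ≠ j → gp len x⁻¹ (k i) ≤ C + δ ∨ gp len x⁻¹ (k j) ≤ C + δ := by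
    intro i j hij
    have h1 := H.hyp (k i) x⁻¹ (k j)
    have h2 := hk.2 i j hij
    rw [H.gp_comm (k i) x⁻¹] at h1
    exact min_le_iff.1 (by linarith)
  rcases key 0 1 (by decide) with h0 | h1
  · rcases key 1 2 (by decide) with h1 | h2
    · exact ⟨0, 1, by decide, h0, h1⟩
    · exact ⟨0, 2, by decide, h0, h2⟩
  · rcases key 0 2 (by decide) with h0 | h2
    · exact ⟨0, 1, by decide, h0, h1⟩
    · exact ⟨1, 2, by decide, h1, h2⟩

/-- At most one `i` has `gp x⁻¹ (k i) > C + δ`.  For the two others put `y = x * k i`; then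
`len y = len x + len (k i) - 2 gp x⁻¹ (k i)`, `gp x y = len x - gp x⁻¹ (k i)`, and
`gp (x k) (x k') ≤ len x + gp k k'`. -/
lemma exists_children (H : HypLen len δ) {F : Subgroup A} {C : ℝ} {k : Fin 3 → A}
    (hk : Three len δ F K C k) : ∃ ch : A → Bool → A, ∀ x,
      (∀ b, x⁻¹ * ch x b ∈ F ∧ Near len K x (ch x b) ∧
        (len x : ℝ) + 2 * C + 8 * δ + 1 ≤ len (ch x b) ∧
        (len x : ℝ) - (C + δ) ≤ gp len x (ch x b)) ∧
      gp len (ch x true) (ch x false) ≤ len x + C := by
  choose i j hij hi hj using s3atree_pair H hk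
  have one : ∀ x l, gp len x⁻¹ (k l) ≤ C + δ → x⁻¹ * (x * k l) ∈ F ∧ Near len K x (x * k l) ∧
      (len x : ℝ) + 2 * C + 8 * δ + 1 ≤ len (x * k l) ∧
      (len x : ℝ) - (C + δ) ≤ gp len x (x * k l) := by
    intro x l h
    obtain ⟨h1, h2, h3⟩ := hk.1 l
    rw [gp, inv_inv, H.inv] at h
    rw [Near, gp, inv_mul_cancel_left]
    exact ⟨h1, h3, by linarith, by linarith⟩
  refine ⟨fun x b => x * k (bif b then i x else j x), fun x => ⟨fun b => ?_, ?_⟩⟩
  · cases b
    · exact one x _ (hj x)
    · exact one x _ (hi x)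
  · have h1 := hk.2 _ _ (hij x)
    have h2 : (len (x * k (i x)) : ℝ) ≤ len x + len (k (i x)) := by exact_mod_cast H.mul _ _
    have h3 : (len (x * k (j x)) : ℝ) ≤ len x + len (k (j x)) := by exact_mod_cast H.mul _ _
    change gp len (x * k (i x)) (x * k (j x)) ≤ _
    rw [gp] at h1 ⊢
    rw [mul_inv_rev, mul_assoc, inv_mul_cancel_left]
    linarith

lemma s3atree_nodes (H : HypLen len δ) {F : Subgroup A} {C : ℝ} {k : Fin 3 → A}
    (hk : Three len δ F K C k) (x : A) (hx : x ∈ F) : ∃ nd : List Bool → A,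
      Function.Injective nd ∧ nd [] = x ∧ (∀ b w, Near len K (nd w) (nd (b :: w))) ∧
      ∀ w, nd w ∈ F ∧ len x ≤ len (nd w) ∧ (len x : ℝ) - (C + 2 * δ) ≤ gp len x (nd w) := by
  obtain ⟨ch, hch⟩ := exists_children H hk
  have hδ := H.delta_nonneg
  have hC : 0 ≤ C := (H.gp_nonneg _ _).trans (hk.2 0 1 (by decide))
  have inv : ∀ (w : List Bool) (y : A), (y ∈ F → w.foldl ch y ∈ F) ∧
      (len y : ℝ) ≤ len (w.foldl ch y) ∧ (len y : ℝ) - (C + 2 * δ) ≤ gp len y (w.foldl ch y) := by
    intro w
    induction w with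
    | nil =>
      intro y
      refine ⟨id, le_rfl, ?_⟩
      rw [List.foldl_nil, gp, inv_mul_cancel, H.one]
      push_cast
      linarith
    | cons b w ih =>
      intro y
      obtain ⟨h1, h2, h3⟩ := ih (ch y b)
      obtain ⟨h4, -, h5, h6⟩ := (hch y).1 b
      rw [List.foldl_cons]
      refine ⟨fun hy => h1 ?_, by linarith, ?_⟩
      · simpa using F.mul_mem hy h4
      · have h7 := H.hyp y (ch y b) (w.foldl ch (ch y b))
        have h8 : (len y : ℝ) - (C + δ) ≤
            min (gp len y (ch y b)) (gp len (ch y b) (w.foldl ch (ch y b))) :=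
          le_min h6 (by linarith)
        linarith
  have nil : ∀ (y : A) (b : Bool) (w : List Bool), y ≠ (b :: w).foldl ch y := by
    intro y b w e
    have h1 := (inv w (ch y b)).2.1
    have h2 := ((hch y).1 b).2.2.1
    rw [List.foldl_cons] at e
    rw [← e] at h1
    linarith
  have tf : ∀ (y : A) (w w' : List Bool), w.foldl ch (ch y true) ≠ w'.foldl ch (ch y false) := by
    intro y w w' e
    have h1 := (inv w (ch y true)).2.2
    have h2 := (inv w' (ch y false)).2.2
    have h3 := ((hch y).1 true).2.2.1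
    have h4 := ((hch y).1 false).2.2.1
    have h5 := (hch y).2
    have h6 := H.hyp (ch y true) (w.foldl ch (ch y true)) (ch y false)
    rw [← e, H.gp_comm] at h2
    have h7 : (len y : ℝ) + C + 6 * δ + 1 ≤ min (gp len (ch y true) (w.foldl ch (ch y true)))
        (gp len (w.foldl ch (ch y true)) (ch y false)) := le_min (by linarith) (by linarith)
    linarith
  have inj : ∀ (w w' : List Bool) (y : A), w.foldl ch y = w'.foldl ch y → w = w' := by
    intro w
    induction w with
    | nil =>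
      intro w' y e
      cases w' with
      | nil => rfl
      | cons b w' => exact absurd e (nil y b w')
    | cons b w ih =>
      intro w' y e
      cases w' with
      | nil => exact absurd e.symm (nil y b w)
      | cons b' w' =>
        rw [List.foldl_cons, List.foldl_cons] at e
        cases b <;> cases b'
        · rw [ih w' _ e]
        · exact absurd e.symm (tf y w' w)
        · exact absurd e (tf y w w')
        · rw [ih w' _ e]
  refine ⟨fun w => w.reverse.foldl ch x, fun w w' e => List.reverse_injective (inj _ _ x e), rfl,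
    fun b w => ?_, fun w => ⟨(inv _ x).1 hx, by exact_mod_cast (inv _ x).2.1, (inv _ x).2.2⟩⟩
  simp only [List.reverse_cons, List.foldl_append, List.foldl_cons, List.foldl_nil]
  exact ((hch _).1 b).2.1

lemma s3atree_summable : Summable fun w : List Bool => (4⁻¹ : ℝ) ^ w.length := by
  rw [← List.equivSigmaTuple.symm.summable_iff, summable_sigma_of_nonneg fun _ => by
    simp only [Function.comp]; positivity]
  refine ⟨fun n => Summable.of_finite, ?_⟩
  refine (summable_geometric_two).congr fun n => ?_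
  rw [tsum_fintype]
  simp only [Function.comp, List.equivSigmaTuple_symm_apply, List.length_ofFn, Finset.sum_const,
    Finset.card_univ, Fintype.card_pi, Fintype.card_bool, Finset.prod_const, Fintype.card_fin,
    nsmul_eq_mul, Nat.cast_pow, Nat.cast_ofNat, ← mul_pow]
  norm_num

/-- Let `node x : List Bool → A`, `node x [] = x`, `node x (b :: w) = node (ch x b) w`.  By
induction on `w` (for all `x`): `len x ≤ len (node x w)`, strictly if `w ≠ []`, and
`len x - (C + 2 δ) ≤ gp x (node x w)`.  Hence `node x` is injective (two words that begin with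
different letters have different nodes, because `gp (ch x true) (ch x false) ≤ len x + C`).
Put `θ (node x w, node x (w ++ [b])) = 2⁻¹ ^ (w.length + 1)` and `0` elsewhere.
`∑ θ² = ∑ n, 2 ^ (n+1) * 4⁻¹ ^ (n+1)`.  At `node x w` the outflow is `2⁻¹ ^ w.length` and the
inflow is the same unless `w = []`. -/
theorem exists_flow (H : HypLen len δ) {F : Subgroup A} {C : ℝ} {k : Fin 3 → A}
    (hk : Three len δ F K C k) (x : A) (hx : x ∈ F) : ∃ θ : A × A → ℝ, Chain1 len K θ ∧
      bd1 θ x = -1 ∧ (∀ y, y ≠ x → bd1 θ y = 0) ∧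
      ∀ e, θ e ≠ 0 → e.1 ∈ F ∧ e.2 ∈ F ∧ len x ≤ len e.1 ∧
        (len x : ℝ) - (C + 2 * δ) ≤ gp len x e.1 := by
  classical
  obtain ⟨nd, inj, h0, hn, hw⟩ := s3atree_nodes H hk x hx
  have ied : Function.Injective fun p : Bool × List Bool => (nd p.2, nd (p.1 :: p.2)) := by
    intro p q e
    have := List.cons.inj (inj (congrArg Prod.snd e))
    exact Prod.ext this.1 this.2
  obtain ⟨θ, t1, t2⟩ : ∃ θ : A × A → ℝ, (∀ b w, θ (nd w, nd (b :: w)) = 2⁻¹ ^ (w.length + 1)) ∧
      ∀ e, θ e ≠ 0 → ∃ b w, e = (nd w, nd (b :: w)) := by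
    refine ⟨Function.extend (fun p : Bool × List Bool => (nd p.2, nd (p.1 :: p.2)))
      (fun p => 2⁻¹ ^ (p.2.length + 1)) 0, fun b w => ied.extend_apply _ _ (b, w), fun e he => ?_⟩
    by_contra hc
    refine he (Function.extend_apply' _ _ _ ?_)
    rintro ⟨p, rfl⟩
    exact hc ⟨p.1, p.2, rfl⟩
  have out : ∀ w, ∑' a, θ (nd w, a) = 2⁻¹ ^ w.length := by
    intro w
    have h1 : Function.Injective fun b : Bool => nd (b :: w) := fun b b' e =>
      (List.cons.inj (inj e)).1
    rw [← h1.tsum_eq (f := fun a => θ (nd w, a)), tsum_bool, t1, t1, pow_succ]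
    · ring
    · intro a ha
      obtain ⟨b, w', e⟩ := t2 _ ha
      obtain ⟨e1, e2⟩ := Prod.mk.inj e
      exact ⟨b, by rw [e2, inj e1]⟩
  have inn : ∀ b w, ∑' a, θ (a, nd (b :: w)) = 2⁻¹ ^ (w.length + 1) := by
    intro b w
    rw [tsum_eq_single (nd w), t1]
    intro a ha
    by_contra hc
    obtain ⟨b', w', e⟩ := t2 _ hc
    obtain ⟨e1, e2⟩ := Prod.mk.inj e
    exact ha (by rw [e1, (List.cons.inj (inj e2)).2])
  refine ⟨θ, ⟨fun e he => ?_, ?_⟩, ?_, fun y hy => ?_, fun e he => ?_⟩
  · obtain ⟨b, w, rfl⟩ := t2 e he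
    exact hn b w
  · rw [← ied.summable_iff]
    · have h1 : Function.Injective fun p : Bool × List Bool => p.1 :: p.2 := fun p q e =>
        Prod.ext (List.cons.inj e).1 (List.cons.inj e).2
      refine (s3atree_summable.comp_injective h1).congr fun p => ?_
      simp only [Function.comp, t1, List.length_cons]
      rw [← pow_mul, mul_comm, pow_mul]
      norm_num
    · intro e he
      by_contra hc
      obtain ⟨b, w, rfl⟩ := t2 e fun h => hc (by rw [h]; norm_num)
      exact he ⟨(b, w), rfl⟩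
  · have h1 : ∀ a, θ (a, nd []) = 0 := fun a => by
      by_contra hc
      obtain ⟨b, w, e⟩ := t2 _ hc
      exact List.cons_ne_nil b w (inj (Prod.mk.inj e).2).symm
    rw [← h0, bd1, out]
    simp [h1]
  · by_cases hr : ∃ w, nd w = y
    · obtain ⟨w, rfl⟩ := hr
      cases w with
      | nil => exact absurd h0 hy
      | cons b w => rw [bd1, out, inn, List.length_cons, sub_self]
    · have h1 : ∀ a, θ (a, y) = 0 := fun a => by
        by_contra hc
        obtain ⟨b, w, e⟩ := t2 _ hc
        exact hr ⟨_, (Prod.mk.inj e).2.symm⟩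
      have h2 : ∀ a, θ (y, a) = 0 := fun a => by
        by_contra hc
        obtain ⟨b, w, e⟩ := t2 _ hc
        exact hr ⟨_, (Prod.mk.inj e).1.symm⟩
      simp [bd1, h1, h2]
  · obtain ⟨b, w, rfl⟩ := t2 e he
    exact ⟨(hw w).1, (hw _).1, (hw w).2⟩

end KKC.S3
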