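import Pool.Agent.Lib.MP_e1e491_gt.S3AFb
import Pool.Agent.Lib.MP_e1e491_gt.S3ATree
import Pool.Agent.Lib.MP_e1e491_gt.S3ADense

set_option autoImplicit false

/-!
Two plane cycles with nonzero pairing, and the abstract theorem.
-/

namespace KKC.S3

variable {A : Type} [Group A] {len : A → ℕ} {δ : ℝ} {K : ℕ} {F : Subgroup A} {K1 K2 : ℕ}
  {B : ℝ} {W I J : A → A → A → A → ℝ}

/-- Points with a large product have almost the same product with a short element. -/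
lemma gp_transfer (H : HypLen len δ) {k y y' : A} (h : (len k : ℝ) ≤ gp len y y') :
    gp len k y - δ ≤ gp len k y' := by
  have h1 := H.hyp k y y'
  have h2 := H.gp_le_left k y
  rw [min_eq_left (h2.trans h)] at h1
  exact h1

lemma s3afin_C_nonneg (H : HypLen len δ) {C : ℝ} {k : Fin 3 → A} (hk : Three len δ F K C k) :
    0 ≤ C :=
  (H.gp_nonneg _ _).trans (hk.2 0 1 (by decide))

/-- The edge from the identity to `k i` followed by the flow below `k i`. -/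
lemma s3afin_flow (H : HypLen len δ) {C : ℝ} {k : Fin 3 → A} (hk : Three len δ F K C k)
    (i : Fin 3) : ∃ θ : A × A → ℝ, Chain1 len K θ ∧ bd1 θ 1 = -1 ∧
      (∀ y, y ≠ 1 → bd1 θ y = 0) ∧
      ∀ e, θ e ≠ 0 → e.1 ∈ F ∧ e.2 ∈ F ∧ (e.1 = 1 ∨ 3 * C + 8 * δ + 1 ≤ gp len (k i) e.1) := by
  classical
  obtain ⟨hF, hl, hK⟩ := hk.1 i
  obtain ⟨θ, hθ, hb1, hb0, hs⟩ := exists_flow H hk (k i) hF
  have hC := s3afin_C_nonneg H hk
  have hδ := H.delta_nonneg
  have hne : (1 : A) ≠ k i := by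
    intro h
    rw [← h, H.one] at hl
    push_cast at hl
    linarith
  have hN : Near len K 1 (k i) := by
    rw [Near, inv_one, one_mul]; exact hK
  have hS := Chain1.single hN
  refine ⟨(fun e => if e = (1, k i) then 1 else 0) + θ, hS.add hθ, ?_, ?_, ?_⟩
  · rw [bd1_add H hS hθ, bd1_single, hb0 1 hne, if_neg hne, if_pos rfl]
    norm_num
  · intro y hy
    rw [bd1_add H hS hθ, bd1_single, if_neg hy]
    by_cases hyk : y = k i
    · rw [if_pos hyk, hyk, hb1]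
      norm_num
    · rw [if_neg hyk, hb0 y hyk]
      norm_num
  · intro e he
    by_cases h1 : e = (1, k i)
    · rw [h1]
      exact ⟨F.one_mem, hF, Or.inl rfl⟩
    · have h2 : θ e ≠ 0 := by
        intro h0
        apply he
        rw [Pi.add_apply, if_neg h1, h0, add_zero]
      obtain ⟨a1, a2, -, a4⟩ := hs e h2
      exact ⟨a1, a2, Or.inr (by linarith)⟩

/-- The flows from the identity.  `θ i` = the edge `(1, k i)` plus the flow of `exists_flow` below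
`k i`.  On the tree below `k 0` the product with `k 0` is at least `len (k 0) - (C + 2 δ)`; on the
tree below `k 1` it is at most `C + δ` (otherwise `gp (k 0) (k 1) > C`). -/
lemma exists_two_flows (H : HypLen len δ) {C : ℝ} {k : Fin 3 → A} (hk : Three len δ F K C k) :
    ∃ θ θ' : A × A → ℝ, Chain1 len K θ ∧ Chain1 len K θ' ∧
      bd1 θ 1 = -1 ∧ bd1 θ' 1 = -1 ∧ (∀ y, y ≠ 1 → bd1 θ y = 0 ∧ bd1 θ' y = 0) ∧
      (∀ e, θ e ≠ 0 → e.1 ∈ F ∧ e.2 ∈ F ∧ (e.1 = 1 ∨ 3 * C + 8 * δ + 1 ≤ gp len (k 0) e.1)) ∧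
      (∀ e, θ' e ≠ 0 → e.1 ∈ F ∧ e.2 ∈ F ∧ (e.1 = 1 ∨ gp len (k 0) e.1 ≤ C + δ)) := by
  obtain ⟨θ, a1, a2, a3, a4⟩ := s3afin_flow H hk 0
  obtain ⟨θ', b1, b2, b3, b4⟩ := s3afin_flow H hk 1
  have hC := s3afin_C_nonneg H hk
  have hδ := H.delta_nonneg
  refine ⟨θ, θ', a1, b1, a2, b2, fun y hy => ⟨a3 y hy, b3 y hy⟩, a4, fun e he => ?_⟩
  obtain ⟨c1, c2, c3⟩ := b4 e he
  refine ⟨c1, c2, c3.imp id fun h => ?_⟩
  have h1 := H.hyp (k 0) e.1 (k 1)
  have h2 := hk.2 0 1 (by decide)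
  rw [H.gp_comm e.1 (k 1)] at h1
  rcases le_total (gp len (k 0) e.1) (gp len (k 1) e.1) with h3 | h3
  · rw [min_eq_left h3] at h1
    linarith
  · rw [min_eq_right h3] at h1
    linarith

/-- Cut a deep finite cycle along a half space and close it with trees.  Let `M = C + 4 δ + 1`,
`s₁ = s.filter (M ≤ gp (k 0) (x i))`, `Λ₁ = ∑ i ∈ s₁, c i • [edge (x i, x' i)]`, `n y = bd1 Λ₁ y`.
If `n y ≠ 0` then `y` is some `x i` or `x' i` and `M - δ ≤ gp (k 0) y < M + δ` (`gp_transfer`; if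
the product is at least `M + δ` all steps at `y` are in `s₁` and the cycle condition for the
indicator of `y` gives `n y = 0`).  Put `τ = ∑ y, n y • θ y` with `θ y` from `exists_flow`. -/
lemma exists_cut (H : HypLen len δ) {C : ℝ} {k : Fin 3 → A} (hk : Three len δ F K C k) {R : ℕ}
    (hR : 2 * (K : ℝ) + C + 2 * δ ≤ R) {ι : Type} (s : Finset ι) (c : ι → ℝ) (x x' : ι → A)
    (h1 : ∀ i ∈ s, x i ∈ F ∧ x' i ∈ F ∧ Near len K (x i) (x' i) ∧ R ≤ len (x i) ∧ R ≤ len (x' i))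
    (h2 : ∀ φ : A → ℝ, ∑ i ∈ s, c i * (φ (x' i) - φ (x i)) = 0) :
    ∃ (s₁ : Finset ι) (Λ τ : A × A → ℝ), s₁ ⊆ s ∧
      (∀ i ∈ s, i ∈ s₁ ↔ C + 4 * δ + 1 ≤ gp len (k 0) (x i)) ∧
      (∀ g : A × A → ℝ, ∑' e, Λ e * g e = ∑ i ∈ s₁, c i * g (x i, x' i)) ∧
      (Function.support Λ).Finite ∧ (∀ e, Λ e ≠ 0 → ∃ i ∈ s₁, e = (x i, x' i)) ∧
      Chain1 len K Λ ∧ Chain1 len K τ ∧ (∀ y, bd1 (Λ + τ) y = 0) ∧
      ∀ e, τ e ≠ 0 → e.1 ∈ F ∧ e.2 ∈ F ∧ R ≤ len e.1 ∧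
        C + 2 * δ + 1 ≤ gp len (k 0) e.1 ∧ gp len (k 0) e.1 ≤ C + 6 * δ + 1 := by
  classical
  have hC := s3afin_C_nonneg H hk
  have hδ := H.delta_nonneg
  have hkK : (len (k 0) : ℝ) ≤ K := by exact_mod_cast (hk.1 0).2.2
  have hK0 : (0 : ℝ) ≤ K := Nat.cast_nonneg K
  have hstep : ∀ i ∈ s, (len (k 0) : ℝ) ≤ gp len (x i) (x' i) := by
    intro i hi
    obtain ⟨-, -, a3, a4, -⟩ := h1 i hi
    have b1 := H.sub_le_gp (x i) (x' i)
    have b2 : (len ((x i)⁻¹ * x' i) : ℝ) ≤ K := by exact_mod_cast a3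
    have b3 : (R : ℝ) ≤ len (x i) := by exact_mod_cast a4
    linarith
  obtain ⟨s₁, hs₁⟩ : ∃ s₁ : Finset ι, ∀ i, i ∈ s₁ ↔ i ∈ s ∧
      C + 4 * δ + 1 ≤ gp len (k 0) (x i) :=
    ⟨s.filter fun i => C + 4 * δ + 1 ≤ gp len (k 0) (x i), fun i => Finset.mem_filter⟩
  have hsub : s₁ ⊆ s := fun i hi => ((hs₁ i).1 hi).1
  obtain ⟨E, hE⟩ : ∃ E : ι → A × A → ℝ, ∀ i,
      E i = c i • fun e => if e = (x i, x' i) then (1 : ℝ) else 0 := ⟨_, fun _ => rfl⟩
  have hEc : ∀ i ∈ s₁, Chain1 len K (E i) := by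
    intro i hi
    rw [hE]
    exact (Chain1.single (h1 i (hsub hi)).2.2.1).smul _
  obtain ⟨Λ, hΛ⟩ : ∃ Λ : A × A → ℝ, Λ = ∑ i ∈ s₁, E i := ⟨_, rfl⟩
  have hΛc : Chain1 len K Λ := by
    rw [hΛ]
    exact Chain1.sum s₁ hEc
  have hΛe : ∀ e, Λ e = ∑ i ∈ s₁, if e = (x i, x' i) then c i else 0 := by
    intro e
    rw [hΛ, Finset.sum_apply]
    refine Finset.sum_congr rfl fun i _ => ?_
    rw [hE, Pi.smul_apply, smul_eq_mul, mul_ite, mul_one, mul_zero]
  have hΛs : ∀ e, Λ e ≠ 0 → ∃ i ∈ s₁, e = (x i, x' i) := by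
    intro e he
    rw [hΛe] at he
    obtain ⟨i, hi, h⟩ := Finset.exists_ne_zero_of_sum_ne_zero he
    refine ⟨i, hi, ?_⟩
    by_contra h'
    exact h (if_neg h')
  have hn : ∀ y, bd1 Λ y =
      ∑ i ∈ s₁, c i * ((if y = x' i then 1 else 0) - if y = x i then 1 else 0) := by
    intro y
    rw [hΛ, bd1_sum H s₁ hEc]
    refine Finset.sum_congr rfl fun i _ => ?_
    rw [hE, bd1_smul, bd1_single]
  have hn1 : ∀ y, bd1 Λ y ≠ 0 → ∃ i ∈ s₁, y = x i ∨ y = x' i := by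
    intro y hy
    rw [hn] at hy
    obtain ⟨i, hi, h⟩ := Finset.exists_ne_zero_of_sum_ne_zero hy
    refine ⟨i, hi, ?_⟩
    by_contra h'
    rw [not_or] at h'
    apply h
    rw [if_neg h'.1, if_neg h'.2, sub_zero, mul_zero]
  have hn2 : ∀ y, bd1 Λ y ≠ 0 → y ∈ F ∧ R ≤ len y ∧ C + 3 * δ + 1 ≤ gp len (k 0) y ∧
      gp len (k 0) y ≤ C + 5 * δ + 1 := by
    intro y hy
    obtain ⟨i, hi, h⟩ := hn1 y hy
    obtain ⟨a1, a2, -, a4, a5⟩ := h1 i (hsub hi)
    have a6 := ((hs₁ i).1 hi).2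
    have a7 := gp_transfer H (hstep i (hsub hi))
    have hup : gp len (k 0) y ≤ C + 5 * δ + 1 := by
      by_contra hlt
      rw [not_le] at hlt
      apply hy
      rw [hn]
      refine (Finset.sum_subset hsub fun j hj hj' => ?_).trans
        (h2 fun u => if y = u then 1 else 0)
      have b1 : gp len (k 0) (x j) < C + 4 * δ + 1 := by
        by_contra b
        exact hj' ((hs₁ j).2 ⟨hj, not_lt.1 b⟩)
      have b2 := hstep j hj
      rw [H.gp_comm] at b2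
      have b3 := gp_transfer H b2
      have b4 : y ≠ x j := by
        intro b
        rw [b] at hlt
        linarith
      have b5 : y ≠ x' j := by
        intro b
        rw [b] at hlt
        linarith
      rw [if_neg b4, if_neg b5, sub_zero, mul_zero]
    rcases h with h | h
    · rw [h] at hup ⊢
      exact ⟨a1, a4, by linarith, hup⟩
    · rw [h] at hup ⊢
      exact ⟨a2, a5, by linarith, hup⟩
  obtain ⟨T, hT⟩ : ∃ T : Finset A, ∀ y, y ∈ T ↔ bd1 Λ y ≠ 0 := by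
    refine ⟨(s₁.image x ∪ s₁.image x').filter fun y => bd1 Λ y ≠ 0, fun y => ?_⟩
    rw [Finset.mem_filter]
    refine ⟨fun h => h.2, fun h => ⟨?_, h⟩⟩
    obtain ⟨i, hi, h'⟩ := hn1 y h
    rcases h' with h' | h'
    · exact Finset.mem_union_left _ (Finset.mem_image.2 ⟨i, hi, h'.symm⟩)
    · exact Finset.mem_union_right _ (Finset.mem_image.2 ⟨i, hi, h'.symm⟩)
  have hfl : ∀ y : A, ∃ θ : A × A → ℝ, y ∈ F → (Chain1 len K θ ∧
      bd1 θ y = -1 ∧ (∀ u, u ≠ y → bd1 θ u = 0) ∧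
      ∀ e, θ e ≠ 0 → e.1 ∈ F ∧ e.2 ∈ F ∧ len y ≤ len e.1 ∧
        (len y : ℝ) - (C + 2 * δ) ≤ gp len y e.1) := by
    intro y
    by_cases hy : y ∈ F
    · obtain ⟨θ, hθ⟩ := exists_flow H hk y hy
      exact ⟨θ, fun _ => hθ⟩
    · exact ⟨0, fun h => absurd h hy⟩
  choose θ hθ using hfl
  have hTc : ∀ y ∈ T, Chain1 len K (bd1 Λ y • θ y) := fun y hy =>
    (hθ y (hn2 y ((hT y).1 hy)).1).1.smul _
  have hτc : Chain1 len K (∑ y ∈ T, bd1 Λ y • θ y) := Chain1.sum T hTc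
  refine ⟨s₁, Λ, ∑ y ∈ T, bd1 Λ y • θ y, hsub,
    fun i hi => ⟨fun h => ((hs₁ i).1 h).2, fun h => (hs₁ i).2 ⟨hi, h⟩⟩, ?_, ?_, hΛs, hΛc, hτc,
    ?_, ?_⟩
  · intro g
    have a1 : ∀ e, Λ e * g e = ∑ i ∈ s₁, if e = (x i, x' i) then c i * g (x i, x' i) else 0 := by
      intro e
      rw [hΛe, Finset.sum_mul]
      refine Finset.sum_congr rfl fun i _ => ?_
      by_cases h : e = (x i, x' i)
      · rw [if_pos h, if_pos h, h]
      · rw [if_neg h, if_neg h, zero_mul]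
    simp_rw [a1]
    rw [Summable.tsum_finsetSum fun i _ => (hasSum_ite_eq _ _).summable]
    exact Finset.sum_congr rfl fun i _ => (hasSum_ite_eq _ _).tsum_eq
  · refine (s₁.image fun i => (x i, x' i)).finite_toSet.subset fun e he => ?_
    obtain ⟨i, hi, h⟩ := hΛs e he
    exact Finset.mem_coe.2 (Finset.mem_image.2 ⟨i, hi, h.symm⟩)
  · intro y
    rw [bd1_add H hΛc hτc, bd1_sum H T hTc]
    simp_rw [bd1_smul]
    by_cases hy : y ∈ T
    · rw [Finset.sum_eq_single_of_mem y hy, (hθ y (hn2 y ((hT y).1 hy)).1).2.1]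
      · ring
      · intro u hu hne
        rw [(hθ u (hn2 u ((hT u).1 hu)).1).2.2.1 y (Ne.symm hne), mul_zero]
    · have a1 : bd1 Λ y = 0 := by
        by_contra h
        exact hy ((hT y).2 h)
      rw [a1, zero_add]
      refine Finset.sum_eq_zero fun u hu => ?_
      have hne : y ≠ u := fun h => hy (h ▸ hu)
      rw [(hθ u (hn2 u ((hT u).1 hu)).1).2.2.1 y hne, mul_zero]
  · intro e he
    rw [Finset.sum_apply] at he
    obtain ⟨y, hy, h⟩ := Finset.exists_ne_zero_of_sum_ne_zero he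
    obtain ⟨a1, a2, a3, a4⟩ := hn2 y ((hT y).1 hy)
    rw [Pi.smul_apply, smul_eq_mul] at h
    obtain ⟨b1, b2, b3, b4⟩ := (hθ y a1).2.2.2 e (right_ne_zero_of_mul h)
    have a2' : (R : ℝ) ≤ len y := by exact_mod_cast a2
    have c1 : (len (k 0) : ℝ) ≤ gp len y e.1 := by linarith
    have c2 := gp_transfer H c1
    rw [H.gp_comm] at c1
    have c3 := gp_transfer H c1
    exact ⟨b1, b2, a2.trans b3, by linarith, by linarith⟩

/-- An edge that sees a deep step is close to it. -/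
lemma s3afin_close (H : HypLen len δ) (D : Link len F K K1 K2 B W I J) {k u u' a b : A}
    (hk : len k ≤ K) (hu : u ∈ F) (hu' : u' ∈ F) (hN : Near len K u u')
    (hR : K + K2 + 1 ≤ len u) (ha : a ∈ F) (hb : b ∈ F) (hab : Near len K a b)
    (hJ : J u u' a b ≠ 0) :
    a ≠ 1 ∧ gp len k u - δ ≤ gp len k a ∧ gp len k a - δ ≤ gp len k u := by
  have h1 : len (u⁻¹ * a) ≤ K2 := by
    by_contra h
    exact hJ (D.inn_far u hu u' hu' a b hN hab (F.mul_mem (F.inv_mem ha) hb) (not_le.1 h))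
  have h2 := H.sub_le_gp u a
  have h1' : (len (u⁻¹ * a) : ℝ) ≤ K2 := by exact_mod_cast h1
  have hR' : (K : ℝ) + K2 + 1 ≤ len u := by exact_mod_cast hR
  have hk' : (len k : ℝ) ≤ K := by exact_mod_cast hk
  have h3 : (len k : ℝ) ≤ gp len u a := by linarith
  refine ⟨?_, gp_transfer H h3, ?_⟩
  · intro h
    rw [h, mul_one, H.inv] at h1
    omega
  · rw [H.gp_comm] at h3
    exact gp_transfer H h3

/-- The pairing of a chain with the inner cochain of a step has finite support. -/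
lemma s3afin_summable (H : HypLen len δ) (D : Link len F K K1 K2 B W I J) {θ : A × A → ℝ}
    (hθ : Chain1 len K θ) {u u' : A} (hu : u ∈ F) (hu' : u' ∈ F) (hN : Near len K u u') :
    Summable fun e : A × A => θ e * J u u' e.1 e.2 := by
  obtain ⟨N, hN'⟩ := D.inn_fin u hu u' hu' hN
  refine summable_of_hasFiniteSupport (((H.fin N).prod (H.fin (N + K))).subset fun e he => ?_)
  have h1 := hθ.supp e (left_ne_zero_of_mul he)
  have h2 : len e.1 ≤ N := by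
    by_contra h
    exact right_ne_zero_of_mul he (hN' e.1 e.2 h1 (not_le.1 h))
  have h3 := H.near_len h1
  exact ⟨h2, h3.trans (Nat.add_le_add_right h2 K)⟩

/-- Take `R ≥ 2 K + K2 + C + 2 δ + 1`, the cycle of `Round`, `θ, θ'` of `exists_two_flows` and
`z = Λ + τ` of `exists_cut`.  For a step `s` with `R ≤ len s.1` let
`p s = ∑' e, θ e * J s.1 s.2 e.1 e.2` and `p' s` the same for `θ'` (finite support by `inn_fin`).
If `θ e * J s e ≠ 0` then `len (s.1⁻¹ * e.1) ≤ K2` (`inn_far`), so `e.1 ≠ 1` and by `gp_transfer`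
`gp (k 0) s.1 ≥ 3 C + 7 δ + 1 > C + 6 δ + 1` (`0 ≤ C` from `gp_nonneg`); for `θ'` one gets
`gp (k 0) s.1 ≤ C + 2 δ`.  Hence `p' = 0` on the steps of `z`, `p = 0` on the steps of `τ` and of `s \ s₁`, and
by `pair_swap` the pairing of `θ - θ'` with `z` is
`∑ i ∈ s, c i * p (x i, x' i) = ∑' e, θ e * (χ e.2 - χ e.1) = - χ 1` (`adj1` with `χ` cut off
outside `F`). -/
theorem Link.exists_pair (H : HypLen len δ) (hδ : 0 < δ) (D : Link len F K K1 K2 B W I J)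
    (hR : Round len F K J) {C : ℝ} {k : Fin 3 → A} (hk : Three len δ F K C k) :
    ∃ θ z : A × A → ℝ, Chain1 len K θ ∧ (∀ x, bd1 θ x = 0) ∧
      (∀ e, θ e ≠ 0 → e.1⁻¹ * e.2 ∈ F) ∧ Chain1 len K z ∧ (∀ x, bd1 z x = 0) ∧
      (∀ s, z s ≠ 0 → s.1 ∈ F ∧ s.2 ∈ F) ∧ ∑' e, θ e * innr len F K J z e ≠ 0 := by
  classical
  have hC := s3afin_C_nonneg H hk
  have hkK : len (k 0) ≤ K := (hk.1 0).2.2
  obtain ⟨R, hR1, hR2⟩ : ∃ R : ℕ, 2 * (K : ℝ) + C + 2 * δ ≤ R ∧ K + K2 + 1 ≤ R := by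
    refine ⟨2 * K + K2 + 1 + ⌈C + 2 * δ⌉₊, ?_, by omega⟩
    have h1 := Nat.le_ceil (C + 2 * δ)
    have h2 : (0 : ℝ) ≤ K2 := Nat.cast_nonneg K2
    push_cast
    linarith
  obtain ⟨ι, s, c, x, x', χ, r1, r2, r3, r4, r5⟩ := hR R
  obtain ⟨θ, θ', t1, t1', t2, t2', t3, t4, t4'⟩ := exists_two_flows H hk
  obtain ⟨s₁, Λ, τ, c1, c2, c3, -, c5, c6, c7, c8, c9⟩ := exists_cut H hk hR1 s c x x' r1 r2
  have hΘ : Chain1 len K (θ + (-1 : ℝ) • θ') := t1.add (t1'.smul _)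
  have hΘF : ∀ e, (θ + (-1 : ℝ) • θ') e ≠ 0 → e.1⁻¹ * e.2 ∈ F := by
    intro e he
    by_cases h : θ e = 0
    · have h' : θ' e ≠ 0 := by
        intro h'
        apply he
        rw [Pi.add_apply, Pi.smul_apply, h, h', smul_zero, add_zero]
      exact F.mul_mem (F.inv_mem (t4' e h').1) (t4' e h').2.1
    · exact F.mul_mem (F.inv_mem (t4 e h).1) (t4 e h).2.1
  have hz : Chain1 len K (Λ + τ) := c6.add c7
  have hzF : ∀ e, (Λ + τ) e ≠ 0 → e.1 ∈ F ∧ e.2 ∈ F ∧ R ≤ len e.1 ∧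
      C + 2 * δ + 1 ≤ gp len (k 0) e.1 := by
    intro e he
    by_cases h : τ e = 0
    · have h' : Λ e ≠ 0 := by
        intro h'
        apply he
        rw [Pi.add_apply, h, h', add_zero]
      obtain ⟨i, hi, rfl⟩ := c5 e h'
      obtain ⟨a1, a2, -, a4, -⟩ := r1 i (c1 hi)
      have a6 := (c2 i (c1 hi)).1 hi
      exact ⟨a1, a2, a4, by dsimp only; linarith⟩
    · obtain ⟨a1, a2, a3, a4, -⟩ := c9 e h
      exact ⟨a1, a2, a3, a4⟩
  obtain ⟨p, hp⟩ : ∃ p : A × A → ℝ, ∀ u, p u = ∑' e : A × A, θ e * J u.1 u.2 e.1 e.2 :=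
    ⟨_, fun _ => rfl⟩
  have hp0 : ∀ u : A × A, u.1 ∈ F → u.2 ∈ F → Near len K u.1 u.2 → R ≤ len u.1 →
      gp len (k 0) u.1 ≤ C + 6 * δ + 1 → p u = 0 := by
    intro u a1 a2 a3 a4 a5
    rw [hp]
    have : ∀ e : A × A, θ e * J u.1 u.2 e.1 e.2 = 0 := by
      intro e
      by_contra h
      obtain ⟨b1, b2, b3⟩ := t4 e (left_ne_zero_of_mul h)
      obtain ⟨d1, -, d3⟩ := s3afin_close H D hkK a1 a2 a3 (hR2.trans a4) b1 b2
        (t1.supp e (left_ne_zero_of_mul h)) (right_ne_zero_of_mul h)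
      have b4 := b3.resolve_left d1
      linarith
    simp_rw [this]
    exact tsum_zero
  have hpt : ∀ u : A × A, (Λ + τ) u *
      ∑' e : A × A, (θ + (-1 : ℝ) • θ') e * J u.1 u.2 e.1 e.2 = Λ u * p u := by
    intro u
    have a0 : τ u * p u = 0 := by
      by_cases h : τ u = 0
      · rw [h, zero_mul]
      · obtain ⟨a1, a2, a3, -, a5⟩ := c9 u h
        rw [hp0 u a1 a2 (c7.supp u h) a3 a5, mul_zero]
    have a1 : Λ u * p u = (Λ + τ) u * p u := by
      rw [Pi.add_apply, add_mul, a0, add_zero]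
    rw [a1]
    by_cases h : (Λ + τ) u = 0
    · rw [h, zero_mul, zero_mul]
    · obtain ⟨b1, b2, b3, b4⟩ := hzF u h
      rw [hp]
      congr 1
      refine tsum_congr fun e => ?_
      have d0 : θ' e * J u.1 u.2 e.1 e.2 = 0 := by
        by_contra h'
        obtain ⟨e1, e2, e3⟩ := t4' e (left_ne_zero_of_mul h')
        obtain ⟨d1, d2, -⟩ := s3afin_close H D hkK b1 b2 (hz.supp u h) (hR2.trans b3) e1 e2
          (t1'.supp e (left_ne_zero_of_mul h')) (right_ne_zero_of_mul h')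
        have e4 := e3.resolve_left d1
        linarith
      rw [Pi.add_apply, Pi.smul_apply, smul_eq_mul, add_mul, mul_assoc, d0, mul_zero, add_zero]
  refine ⟨θ + (-1 : ℝ) • θ', Λ + τ, hΘ, ?_, hΘF, hz, c8,
    fun u hu => ⟨(hzF u hu).1, (hzF u hu).2.1⟩, ?_⟩
  · intro y
    rw [bd1_add H t1 (t1'.smul _), bd1_smul]
    by_cases hy : y = 1
    · rw [hy, t2, t2']
      norm_num
    · rw [(t3 y hy).1, (t3 y hy).2]
      norm_num
  · rw [D.pair_swap H hz (fun u hu => ⟨(hzF u hu).1, (hzF u hu).2.1⟩) hΘ hΘF]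
    simp_rw [hpt]
    rw [c3]
    have a1 : ∑ i ∈ s₁, c i * p (x i, x' i) = ∑ i ∈ s, c i * p (x i, x' i) := by
      refine Finset.sum_subset c1 fun i hi hi' => ?_
      obtain ⟨b1, b2, b3, b4, -⟩ := r1 i hi
      have b6 : gp len (k 0) (x i) < C + 4 * δ + 1 := by
        by_contra h
        exact hi' ((c2 i hi).2 (not_lt.1 h))
      rw [hp0 (x i, x' i) b1 b2 b3 b4 (by dsimp only; linarith), mul_zero]
    obtain ⟨χ', hχ'⟩ : ∃ χ' : A → ℝ, ∀ a, χ' a = if a ∈ F then χ a else 0 := ⟨_, fun _ => rfl⟩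
    have a2 : (Function.support χ').Finite := by
      refine r3.subset fun a ha => ?_
      have ha' : χ' a ≠ 0 := ha
      rw [hχ'] at ha'
      by_cases h : a ∈ F
      · rw [if_pos h] at ha'
        exact ⟨h, ha'⟩
      · exact absurd (if_neg h) ha'
    have a3 : ∑ i ∈ s, c i * p (x i, x' i) = ∑' e : A × A, θ e * (χ' e.2 - χ' e.1) := by
      have b1 : ∀ i ∈ s, c i * p (x i, x' i) =
          ∑' e : A × A, c i * (θ e * J (x i) (x' i) e.1 e.2) := by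
        intro i _
        rw [hp, tsum_mul_left]
      rw [Finset.sum_congr rfl b1, ← Summable.tsum_finsetSum fun i hi =>
        (s3afin_summable H D t1 (r1 i hi).1 (r1 i hi).2.1 (r1 i hi).2.2.1).mul_left (c i)]
      refine tsum_congr fun e => ?_
      by_cases h : θ e = 0
      · simp [h]
      · obtain ⟨d1, d2, -⟩ := t4 e h
        rw [hχ', hχ', if_pos d1, if_pos d2, ← r5 e.1 d1 e.2 d2 (t1.supp e h), Finset.mul_sum]
        exact Finset.sum_congr rfl fun i _ => by ring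
    rw [a1, a3, adj1 H t1.supp a2, tsum_eq_single 1 fun y hy => by rw [(t3 y hy).1, mul_zero],
      t2, hχ', if_pos F.one_mem]
    intro h
    apply r4
    linarith

theorem Link.not_star (H : HypLen len δ) (hδ : 0 < δ) (hP : Par len K)
    (D : Link len F K K1 K2 B W I J) (hR : Round len F K J) {C : ℝ} {k : Fin 3 → A}
    (hk : Three len δ F K C k) : ¬ Star len K := by
  intro hS
  have hW := hS.starW H
  obtain ⟨θ, z, h1, h2, h3, h4, h5, h6, h7⟩ := D.exists_pair H hδ hR hk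
  exact h7 (plane_dense H hP hW F (D.innr_chain H h4 h6)
    (fun b hb hp => D.pair_bd2 H hP hW h4 h5 h6 hb hp) h1 h2 h3)

end KKC.S3
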