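import Pool.Agent.Lib.MP_e1e491_gt.S3BDefs
import Pool.Agent.Lib.MP_e1e491_gt.S3AFin
import Pool.Agent.Lib.MP_e1e491_gt.Vf

set_option autoImplicit false

/-!
From subgroups of `G` to the abstract theorem.
-/

namespace KKC.S3

open Set Metric

variable {G Z : Type} [Group G] [MetricSpace Z] [MulAction G Z] (H : HB G Z)

/-- `four_point`; enlarge `δ` to make it positive. -/
theorem exists_hypLen (A : Subgroup G) :
    ∃ δ : ℝ, 0 < δ ∧ HypLen (fun a : A => H.len a) δ := by
  obtain ⟨δ, h0, h⟩ := H.four_point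
  refine ⟨δ + 1, by linarith, (H.len_eq_zero 1).2 rfl, fun a => H.len_inv a,
    fun a b => H.len_mul a b, fun n => (H.fin n).preimage Subtype.val_injective.injOn,
    fun x y z => ?_⟩
  have := h x y z
  simp only [gp, Subgroup.coe_mul, Subgroup.coe_inv]
  linarith

theorem par_of_par {A : Subgroup G} {K : ℕ} (h : H.Par A K) : Par (fun a : A => H.len a) K := by
  intro a ha
  obtain ⟨p, hp, h1, h2, h3⟩ := h a a.2 fun e => ha (Subtype.ext e)
  exact ⟨⟨p, hp⟩, h1, h2, fun b hb hb' => h3 b b.2 hb hb'⟩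

theorem s3bbridge_summable {A : Type} [Group A] {len : A → ℕ} {K : ℕ} {f : A → ℝ}
    (hf : Summable fun e => dK len K f e ^ 2) {s : A} (hs : len s ≤ K) :
    Summable fun a => (f (a * s) - f a) ^ 2 := by
  have hi : Function.Injective fun a : A => (a, a * s) := fun a b e => congrArg Prod.fst e
  refine (hf.comp_injective hi).congr fun a => ?_
  simp [dK, Near, hs]

theorem s3bbridge_tsum {A : Type} [Group A] {len : A → ℕ} {K : ℕ} {f : A → ℝ}
    (hf : Summable fun e => dK len K f e ^ 2) (S : Finset A) (hS : ∀ s, s ∈ S ↔ len s ≤ K) :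
    ∑' e, dK len K f e ^ 2 = ∑ s ∈ S, ∑' a, (f (a * s) - f a) ^ 2 := by
  classical
  have h1 : ∀ s ∈ S, HasSum
      (fun e : A × A => if e.1⁻¹ * e.2 = s then (f e.2 - f e.1) ^ 2 else 0)
      (∑' a, (f (a * s) - f a) ^ 2) := fun s hs => by
    have hi : Function.Injective fun a : A => (a, a * s) := fun a b e => congrArg Prod.fst e
    rw [← hi.hasSum_iff]
    · refine (s3bbridge_summable hf ((hS s).1 hs)).hasSum.congr_fun fun a => ?_
      simp
    · intro e he
      refine if_neg fun h => he ⟨e.1, ?_⟩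
      simp [← h]
  rw [← (hasSum_sum h1).tsum_eq]
  refine tsum_congr fun e => ?_
  rw [Finset.sum_ite_eq]
  simp only [dK, Near, hS]
  split_ifs <;> simp

/-- Extend `f` by zero to `G`.  The pairs `(a, a * s)` with `s` in the finite set of the elements
of `A` of length at most `K` are the edges, so the energy is the finite sum over `s` of the sums
in `HB.Star`. -/
theorem star_of_star {A : Subgroup G} {K : ℕ} (h : H.Star A K) :
    Star (fun a : A => H.len a) K := by
  classical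
  intro f hf ε hε
  let f' : G → ℝ := fun g => if hg : g ∈ A then f ⟨g, hg⟩ else 0
  have e' : ∀ a : A, f' a = f a := fun a => dif_pos a.2
  have hfin : {s : A | H.len s ≤ K}.Finite := (H.fin K).preimage Subtype.val_injective.injOn
  have hN : (0 : ℝ) < hfin.toFinset.card + 1 := by positivity
  obtain ⟨φ, hφ, hs⟩ := h f' (fun s hs hK => by
    refine (s3bbridge_summable (len := fun a : A => H.len a) hf (s := ⟨s, hs⟩) hK).congr
      fun a => ?_
    rw [← e', ← e']
    rfl) (ε / (hfin.toFinset.card + 1)) (div_pos hε hN)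
  refine ⟨fun a => φ a, hφ.preimage Subtype.val_injective.injOn, ?_⟩
  by_cases hsum : Summable fun e => dK (fun a : A => H.len a) K (f - fun a : A => φ a) e ^ 2
  · rw [s3bbridge_tsum hsum hfin.toFinset fun s => hfin.mem_toFinset]
    refine (Finset.sum_le_card_nsmul _ _ (ε / (hfin.toFinset.card + 1)) fun s hs' => ?_).trans_lt
      ?_
    · refine le_trans (le_of_eq (tsum_congr fun a => ?_)) (hs s s.2 (hfin.mem_toFinset.1 hs'))
      rw [Pi.sub_apply, Pi.sub_apply, ← e', ← e']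
      rfl
    · rw [nsmul_eq_mul, ← mul_div_assoc, div_lt_iff₀ hN]
      linarith
  · rwa [tsum_eq_zero_of_not_summable hsum]

/-- `q_cmpG` and `q_GG`. -/
theorem exists_gp_le {κ : ℝ} (hκ : 0 < κ) : ∃ C : ℝ, ∀ g g' : G,
    κ ≤ dist (H.loc g) (H.loc g') → gp H.len g g' ≤ C := by
  obtain ⟨C₁, h1, h⟩ := H.q_cmpG
  have hC : 0 < C₁ := by linarith
  refine ⟨-Real.logb H.a (κ / C₁), fun g g' hg => ?_⟩
  have h2 : κ / C₁ ≤ H.a ^ (-gp H.len g g') := by
    rw [div_le_iff₀ hC, mul_comm, gp, ← H.q_GG]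
    exact (hg.trans (le_max_left _ _)).trans (h g g').2
  have h3 := (Real.logb_le_iff_le_rpow H.ha (div_pos hκ hC)).2 h2
  linarith

/-- Choose `δ`, `C`, then `k` with lengths at least `4 C + 10 δ + 1`, then `K` above `K₀`, `K'`
and the lengths of the `k i`; restrict all data to `A` and apply `Link.not_star` with the
subgroup `F.subgroupOf A`. -/
theorem false_of_link {A F : Subgroup G} (hFA : F ≤ A) {K₀ : ℕ}
    (hS : ∀ K, K₀ ≤ K → H.Par A K ∧ H.Star A K)
    (h3 : ∃ κ > 0, ∀ R : ℕ, ∃ k : Fin 3 → G, (∀ i, k i ∈ F ∧ R ≤ H.len (k i)) ∧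
      ∀ i j, i ≠ j → κ ≤ dist (H.loc (k i)) (H.loc (k j)))
    (hL : ∃ K' : ℕ, ∀ K, K' ≤ K → ∃ (K1 K2 : ℕ) (B : ℝ) (W I I' : G → G → G → G → ℝ),
      LinkG H.len A F K K1 K2 B W I I' ∧ Round H.len F K I') : False := by
  classical
  obtain ⟨δ, hδ, hH⟩ := exists_hypLen H A
  obtain ⟨κ, hκ, h3⟩ := h3
  obtain ⟨C, hC⟩ := exists_gp_le H hκ
  obtain ⟨R, hR⟩ := exists_nat_ge (4 * C + 10 * δ + 1)
  obtain ⟨k, hk, hk'⟩ := h3 R
  obtain ⟨K', hL⟩ := hL
  obtain ⟨K, a0, a1, a2⟩ : ∃ K, K₀ ≤ K ∧ K' ≤ K ∧ ∀ i, H.len (k i) ≤ K :=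
    ⟨K₀ + K' + ∑ i, H.len (k i), by omega, by omega, fun i =>
      (Finset.single_le_sum (f := fun i => H.len (k i)) (fun _ _ => Nat.zero_le _)
        (Finset.mem_univ i)).trans (Nat.le_add_left _ _)⟩
  obtain ⟨K1, K2, B, W, I, I', D, hRd⟩ := hL K a1
  have D' : Link (fun a : A => H.len a) (F.subgroupOf A) K K1 K2 B
      (fun x a b c => W x a b c) (fun x x' a b => I x x' a b) (fun x x' a b => I' x x' a b) :=
    ⟨fun x x' a b c => D.deep x x.2 x' x'.2 a a.2 b b.2 c c.2,
      fun x x' a b c => D.out_cob x x.2 x' x'.2 a a.2 b b.2 c c.2,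
      fun x x' a b => D.out_bdd x x.2 x' x'.2 a a.2 b b.2,
      fun x x' a b => D.out_far x x.2 x' x'.2 a a.2 b b.2,
      fun x hx x' hx' a b c => D.inn_cob x hx x' hx' a a.2 b b.2 c c.2,
      fun x hx x' hx' hn => (D.inn_fin x hx x' hx' hn).imp fun N hN a b => hN a a.2 b b.2,
      fun x hx x' hx' a b => D.inn_bdd x hx x' hx' a a.2 b b.2,
      fun x hx x' hx' a b => D.inn_far x hx x' hx' a a.2 b b.2⟩
  let p : G → A := fun g => if hg : g ∈ A then ⟨g, hg⟩ else 1
  have hp : ∀ g ∈ F, (p g : G) = g := fun g hg => by simp only [p, dif_pos (hFA hg)]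
  have R' : Round (fun a : A => H.len a) (F.subgroupOf A) K (fun x x' a b => I' x x' a b) := by
    intro R
    obtain ⟨ι, s, c, x, x', χ, r1, r2, r3, r4, r5⟩ := hRd R
    refine ⟨ι, s, c, fun i => p (x i), fun i => p (x' i), fun a => χ a, fun i hi => ?_,
      fun φ => r2 fun g => φ (p g), r3.preimage Subtype.val_injective.injOn, r4,
      fun a ha b hb hab => ?_⟩
    · obtain ⟨b1, b2, b3, b4, b5⟩ := r1 i hi
      simp only [Subgroup.mem_subgroupOf, Near, Subgroup.coe_mul, Subgroup.coe_inv, hp _ b1,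
        hp _ b2]
      exact ⟨b1, b2, b3, b4, b5⟩
    · rw [← r5 a ha b hb hab]
      refine Finset.sum_congr rfl fun i hi => ?_
      simp only [hp _ (r1 i hi).1, hp _ (r1 i hi).2.1]
  have T : Three (fun a : A => H.len a) δ (F.subgroupOf A) K C fun i => ⟨k i, hFA (hk i).1⟩ :=
    ⟨fun i => ⟨(hk i).1, hR.trans (by exact_mod_cast (hk i).2), a2 i⟩,
      fun i j hij => hC _ _ (hk' i j hij)⟩
  exact D'.not_star hH hδ (par_of_par H (hS K a0).1) R' T (star_of_star H (hS K a0).2)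

end KKC.S3
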