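import Pool.Agent.Lib.MP_e1e491_gt.LCWk
import Pool.Agent.Lib.MP_e1e491_gt.S1Q
import Pool.Agent.Lib.MP_e1e491_gt.S3BBridge
import Pool.Agent.Lib.MP_e1e491_gt.S3AGrad

/-! Large Rips parameters are good. -/

namespace KKC.LC

open Set
open scoped Pointwise

variable {G Z : Type} [Group G] [MetricSpace Z] [MulAction G Z] (H : HB G Z)

theorem lcgood_par : ∃ K₀, ∀ K, K₀ ≤ K → H.Par ⊤ K := by
  obtain ⟨δ, h0, h⟩ := H.four_point
  obtain ⟨d, hd⟩ := exists_nat_gt (2 * δ)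
  refine ⟨2 * d, fun K hK a _ ha => ?_⟩
  have h1 : H.len a ≠ 0 := fun e => ha ((H.len_eq_zero a).1 e)
  have hd0 : 0 < d := by
    have : (0 : ℝ) < d := by linarith
    exact_mod_cast this
  by_cases hl : H.len a ≤ K
  · refine ⟨1, trivial, by rw [(H.len_eq_zero 1).2 rfl]; omega, by simpa using hl,
      fun b _ _ hb => by simpa using hb.trans hl⟩
  · obtain ⟨p, h2, h3⟩ := H.geod a (H.len a - d) (by omega)
    refine ⟨p, trivial, by omega, by omega, fun b _ h4 h5 => ?_⟩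
    have h6 := h p a b
    have e1 : (H.len p : ℝ) + d = H.len a := by exact_mod_cast (by omega : H.len p + d = H.len a)
    have e2 : (H.len (p⁻¹ * a) : ℝ) = d := by exact_mod_cast (by omega : H.len (p⁻¹ * a) = d)
    have e3 : (H.len (a⁻¹ * b) : ℝ) ≤ K := by exact_mod_cast h4
    have e4 : (H.len b : ℝ) ≤ H.len a := by exact_mod_cast h5
    have e5 : 2 * (d : ℝ) ≤ K := by exact_mod_cast hK
    have : (H.len (p⁻¹ * b) : ℝ) ≤ K := by
      rcases min_cases (((H.len p : ℝ) + H.len a - H.len (p⁻¹ * a)) / 2)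
        (((H.len a : ℝ) + H.len b - H.len (a⁻¹ * b)) / 2) with e | e <;> rw [e.1] at h6 <;> linarith
    exact_mod_cast this

/-- `HB.par_of_qc` for `A = ⊤`, `C = univ` (`HB.view_exists`), then `S3.par_of_par`,
`S3.exists_hypLen`, `S3.exists_potential` on the subtype of `⊤`; or a direct induction over
parents. -/
theorem exists_h1 : ∃ K₀, ∀ K, K₀ ≤ K → H1 (Nr H K) := by
  obtain ⟨K₀, h⟩ := lcgood_par H
  obtain ⟨δ, -, hδ⟩ := S3.exists_hypLen H ⊤
  refine ⟨K₀, fun K hK ω hω => ?_⟩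
  obtain ⟨f, hf⟩ := S3.exists_potential hδ (S3.par_of_par H (h K hK)) (fun a b => ω a b)
    fun a b c ht => by
      have := hω a b c ht.1 ht.2.1 ht.2.2
      rw [S3.cob]
      linarith
  exact ⟨fun a => f ⟨a, trivial⟩, fun a b hab => hf ⟨a, trivial⟩ ⟨b, trivial⟩ hab⟩

theorem lcgood_q (ξ : Z) {p g : G} (h : H.len (p⁻¹ * g) + H.len p = H.len g) :
    H.q (.inr ξ) (.inl p) ≤ H.C * max (H.q (.inr ξ) (.inl g)) (H.sc p) := by
  have e : H.q (.inl g) (.inl p) = H.sc p := by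
    rw [H.q_comm, H.q_GG, HB.sc, ← h]
    congr 1
    push_cast
    ring
  rw [← e]
  exact H.ultra _ _ _

theorem lcgood_walk {K n : ℕ} (hK : 1 ≤ K) {P : G → Prop} {g : G}
    (hP : ∀ p, n ≤ H.len p → H.len (p⁻¹ * g) + H.len p = H.len g → P p) (k : ℕ) :
    ∀ p, H.len p = n + k → H.len (p⁻¹ * g) + H.len p = H.len g →
      ∃ p₀, H.len p₀ = n ∧ H.len (p₀⁻¹ * g) + H.len p₀ = H.len g ∧ Conn (Nr H K) P p₀ p := by
  induction k with
  | zero => exact fun p h1 h2 => ⟨p, h1, h2, Conn.refl (hP p h1.ge h2)⟩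
  | succ k ih =>
    intro p h1 h2
    obtain ⟨h, h3, h4⟩ := H.par p (n + k) h1
    have h5 := H.len_mul (h⁻¹ * p) (p⁻¹ * g)
    have h6 := H.len_mul h (h⁻¹ * g)
    rw [mul_assoc, mul_inv_cancel_left] at h5
    rw [mul_inv_cancel_left] at h6
    obtain ⟨p₀, h7, h8, h9⟩ := ih h h3 (by omega)
    exact ⟨p₀, h7, h8, h9.snoc (hP p (by omega) h2) (h4.le.trans hK)⟩

/-- Choose `n` with `a ^ (-n)` small against `ε`, and `ε'` small against `a ^ (-n)`. Walk from `g`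
along parents (`HB.par`, `HB.geod`) down to length `n`: a point `p` of a geodesic from `1` to `g`
has `q p g = sc p` (`HB.q_GG`), so `q ξ p ≤ C max (q ξ g) (sc p)`. The two points of length `n` have
`q p p' ≤ C max (q p ξ) (q ξ p') ≤ C ^ 2 a ^ (-n)`, so they are at distance at most `K₀`
(`HB.q_sq`). -/
theorem exists_lc : ∃ K₀, ∀ K, K₀ ≤ K → ∀ ε > 0, ∃ ε' > 0, ∀ (ξ : Z) (g g' : G),
    H.q (.inr ξ) (.inl g) < ε' → H.q (.inr ξ) (.inl g') < ε' →
    Conn (Nr H K) (fun v => H.q (.inr ξ) (.inl v) < ε) g g' := by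
  have hC := H.hC
  have hC0 : 0 < H.C := by linarith
  obtain ⟨K₀, h0⟩ := H.exists_sc_lt (ε := 1 / H.C ^ 4) (by positivity)
  refine ⟨max 1 K₀, fun K hK ε hε => ?_⟩
  obtain ⟨n, hn⟩ := H.exists_sc_lt (ε := ε / H.C) (by positivity)
  set s := H.a ^ (-(n : ℝ)) with hs
  have hs0 : 0 < s := Real.rpow_pos_of_pos (one_pos.trans H.ha) _
  have key : ∀ (ξ : Z) (g : G), H.q (.inr ξ) (.inl g) < min (s / H.C) (ε / H.C) →
      ∃ p, H.sc p = s ∧ H.q (.inr ξ) (.inl p) ≤ H.C * s ∧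
        Conn (Nr H K) (fun v => H.q (.inr ξ) (.inl v) < ε) p g := by
    intro ξ g hg
    obtain ⟨h1, h2⟩ := lt_min_iff.1 hg
    have h3 : H.sc g < s := (H.sc_le_q (.inr ξ) g).trans_lt (by rwa [lt_div_iff₀' hC0] at h1)
    rw [HB.sc, hs, Real.rpow_lt_rpow_left_iff H.ha, neg_lt_neg_iff, Nat.cast_lt] at h3
    obtain ⟨k, hk⟩ := Nat.exists_eq_add_of_le h3.le
    obtain ⟨p, h4, h5, h6⟩ := lcgood_walk H ((le_max_left _ _).trans hK)
      (P := fun v => H.q (.inr ξ) (.inl v) < ε) (n := n) (g := g) (fun p hp e =>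
        (lcgood_q H ξ e).trans_lt ((lt_div_iff₀' hC0).1 (max_lt h2 (hn p hp)))) k g hk
      (by rw [inv_mul_cancel, (H.len_eq_zero 1).2 rfl, zero_add])
    have h7 : H.sc p = s := by rw [HB.sc, h4]
    refine ⟨p, h7, (lcgood_q H ξ h5).trans (mul_le_mul_of_nonneg_left ?_ hC0.le), h6⟩
    exact max_le (h1.le.trans (div_le_self hs0.le hC)) h7.le
  refine ⟨min (s / H.C) (ε / H.C), by positivity, fun ξ g g' hg hg' => ?_⟩
  obtain ⟨p, h1, h2, h3⟩ := key ξ g hg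
  obtain ⟨p', h1', h2', h3'⟩ := key ξ g' hg'
  have h4 : H.q (.inl p) (.inl p') ≤ H.C * (H.C * s) :=
    (H.ultra _ (.inr ξ) _).trans (mul_le_mul_of_nonneg_left
      (max_le (by rwa [H.q_comm]) h2') hC0.le)
  have h5 := H.q_sq p p'
  rw [h1, h1'] at h5
  have h6 : Nr H K p p' := by
    by_contra h
    have h7 := h0 (p⁻¹ * p') (((le_max_right _ _).trans hK).trans (not_le.1 h).le)
    rw [lt_div_iff₀ (by positivity)] at h7
    have h8 := mul_le_mul_of_nonneg_right (pow_le_pow_left₀ (H.q_nonneg _ _) h4 2)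
      (H.sc_pos (p⁻¹ * p')).le
    have h9 := mul_lt_mul_of_pos_left h7 (mul_pos hs0 hs0)
    rw [h5] at h8
    nlinarith
  exact ((h3.symm (nr_rs H K)).snoc h3'.left h6).trans h3'

theorem exists_goodK : ∃ K₀, ∀ K, K₀ ≤ K → GoodK H K := by
  obtain ⟨K₁, h1⟩ := exists_h1 H
  obtain ⟨K₂, h2⟩ := exists_lc H
  exact ⟨max 1 (max K₁ K₂), fun K hK => ⟨(le_max_left _ _).trans hK,
    h1 K (((le_max_left _ _).trans (le_max_right _ _)).trans hK),
    h2 K (((le_max_right _ _).trans (le_max_right _ _)).trans hK)⟩⟩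

end KKC.LC
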