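import Pool.Agent.Lib.MP_e1e491_gt.LCWk

/-! Equivariance of the colours and the finite list bound. -/

namespace KKC.LC

open Set
open scoped Pointwise

variable {G Z : Type} [Group G] [MetricSpace Z] [MulAction G Z] {H : HB G Z} {K : ℕ}
  (W : Walls H K)

theorem lclist_F (g : G) (U : Set Z) : g • U ∈ W.F ↔ U ∈ W.F :=
  ⟨fun h => by simpa only [inv_smul_smul] using W.inv g⁻¹ _ h, W.inv g U⟩

theorem Walls.mem_LL_smul (g x z y : G) (U : Set Z) :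
    g • U ∈ W.LL (g * x) (g * z) (g * y) ↔ U ∈ W.LL x z y := by
  simp only [Walls.LL, mem_ofPred_eq, lclist_F]
  exact and_congr_right fun h => by rw [W.smul g x U h, W.smul g z U h, W.smul g y U h]

theorem Walls.mem_RT_smul (g x z y : G) (U : Set Z) :
    g • U ∈ W.RT (g * x) (g * z) (g * y) ↔ U ∈ W.RT x z y := by
  simp only [Walls.RT, mem_ofPred_eq, lclist_F]
  exact and_congr_right fun h => by rw [W.smul g x U h, W.smul g z U h, W.smul g y U h]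

theorem Walls.mem_colL_smul (g x z y v : G) :
    g * v ∈ W.colL (g * x) (g * z) (g * y) ↔ v ∈ W.colL x z y := by
  constructor
  · rintro ⟨U, hU, hv⟩
    obtain ⟨U, rfl⟩ := MulAction.surjective g U
    rw [W.mem_LL_smul] at hU
    exact ⟨U, hU, (W.smul g v U hU.1).1 hv⟩
  · rintro ⟨U, hU, hv⟩
    exact ⟨g • U, (W.mem_LL_smul g x z y U).2 hU, (W.smul g v U hU.1).2 hv⟩

theorem Walls.mem_colR_smul (g x z y v : G) :
    g * v ∈ W.colR (g * x) (g * z) (g * y) ↔ v ∈ W.colR x z y := by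
  constructor
  · rintro ⟨U, hU, hv⟩
    obtain ⟨U, rfl⟩ := MulAction.surjective g U
    rw [W.mem_RT_smul] at hU
    exact ⟨U, hU, fun k => hv ((W.smul g v U hU.1).2 k)⟩
  · rintro ⟨U, hU, hv⟩
    exact ⟨g • U, (W.mem_RT_smul g x z y U).2 hU, fun k => hv ((W.smul g v U hU.1).1 k)⟩

theorem lclist_unif {ι : Type} {S : Set ι} (hS : S.Finite) {p : ι → ℕ → Prop}
    (hm : ∀ i n m, n ≤ m → p i n → p i m) (h : ∀ i ∈ S, ∃ n, p i n) : ∃ n, ∀ i ∈ S, p i n := by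
  choose! f hf using h
  obtain ⟨n, hn⟩ := (hS.image f).bddAbove
  exact ⟨n, fun i hi => hm i _ _ (hn (mem_image_of_mem f hi)) (hf i hi)⟩

/-- The bound for one pair of gated edges. -/
def lclist_B (H : HB G Z) (K : ℕ) (X Y : Set G) (e f : G × G) (L : ℕ) : Prop :=
  Nr H L e.1 f.1 ∧ (Conn (Adj (Nr H K)) (Ed (Nr H K) X Y) e f →
    Wk (Adj (Nr H K)) (Ed (Nr H K) X Y) L e f)

theorem lclist_mono {X Y : Set G} {e f : G × G} {n m : ℕ} (hnm : n ≤ m)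
    (h : lclist_B H K X Y e f n) : lclist_B H K X Y e f m :=
  ⟨h.1.mono hnm, fun k => (h.2 k).le (nr_rs H K).adj hnm⟩

theorem lclist_one {X Y : Set G} (h : {e | Gated (Nr H K) X Y e}.Finite) : ∃ L, ∀ e f,
    Gated (Nr H K) X Y e → Gated (Nr H K) X Y f → lclist_B H K X Y e f L := by
  obtain ⟨L, hL⟩ := lclist_unif (h.prod h) (p := fun i n => lclist_B H K X Y i.1 i.2 n)
    (fun _ _ _ => lclist_mono) fun i _ => by
      by_cases k : Conn (Adj (Nr H K)) (Ed (Nr H K) X Y) i.1 i.2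
      · obtain ⟨n, hn⟩ := k
        exact ⟨max n (H.len (i.1.1⁻¹ * i.2.1)), le_max_right _ _,
          fun _ => hn.le (nr_rs H K).adj (le_max_left _ _)⟩
      · exact ⟨_, le_rfl, fun k' => absurd k' k⟩
  exact ⟨L, fun e f he hf => hL (e, f) ⟨he, hf⟩⟩

section Tr

variable {X Y X' Y' : Set G} {g : G} (hX : ∀ v, g * v ∈ X' ↔ v ∈ X) (hY : ∀ v, g * v ∈ Y' ↔ v ∈ Y)
include hX hY

theorem lclist_ed {e : G × G} (h : Ed (Nr H K) X Y e) :
    Ed (Nr H K) X' Y' (g * e.1, g * e.2) :=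
  ⟨(nr_smul H g _ _).2 h.1, (hX _).2 h.2.1, (hY _).2 h.2.2⟩

theorem lclist_gated {e : G × G} (h : Gated (Nr H K) X Y e) :
    Gated (Nr H K) X' Y' (g * e.1, g * e.2) := by
  obtain ⟨h1, z, h2, h3, h4, h5⟩ := h
  exact ⟨lclist_ed hX hY h1, g * z, fun k => h2 ((hX _).1 k), fun k => h3 ((hY _).1 k),
    (nr_smul H g _ _).2 h4, (nr_smul H g _ _).2 h5⟩

theorem lclist_wk {e f : G × G} {n : ℕ} (h : Wk (Adj (Nr H K)) (Ed (Nr H K) X Y) n e f) :
    Wk (Adj (Nr H K)) (Ed (Nr H K) X' Y') n (g * e.1, g * e.2) (g * f.1, g * f.2) :=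
  h.map (fun e : G × G => (g * e.1, g * e.2)) (fun _ => lclist_ed hX hY) fun _ _ _ _ k =>
    k.imp (fun k => ⟨congrArg (g * ·) k.1, (nr_smul H g _ _).2 k.2⟩)
      fun k => ⟨congrArg (g * ·) k.1, (nr_smul H g _ _).2 k.2⟩

end Tr

/-- Translate `x` to `1` (`Wk.map`); finitely many configurations remain (`nr_fin`), each with
finitely many pairs of gated edges; take the largest bound (`Wk.le`, `Nr.mono`). -/
theorem Walls.flist (ρ : ℕ) : ∃ L : ℕ, ∀ x z y x' z' y', Nr H K x z → Nr H K x y →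
    Nr H K x' z' → Nr H K x' y' → Nr H ρ x x' →
    {e | Gated (Nr H K) (W.colL x z y) (W.colR x' z' y') e}.Finite → ∀ e f,
    Gated (Nr H K) (W.colL x z y) (W.colR x' z' y') e →
    Gated (Nr H K) (W.colL x z y) (W.colR x' z' y') f → Nr H L e.1 f.1 ∧
      (Conn (Adj (Nr H K)) (Ed (Nr H K) (W.colL x z y) (W.colR x' z' y')) e f →
        Wk (Adj (Nr H K)) (Ed (Nr H K) (W.colL x z y) (W.colR x' z' y')) L e f) := by
  have hS := (nr_fin H K 1).prod ((nr_fin H K 1).prod ((nr_fin H ρ 1).prod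
    ((nr_fin H (ρ + K) 1).prod (nr_fin H (ρ + K) 1))))
  obtain ⟨L, hL⟩ := lclist_unif hS (p := fun i n =>
      {e | Gated (Nr H K) (W.colL 1 i.1 i.2.1) (W.colR i.2.2.1 i.2.2.2.1 i.2.2.2.2) e}.Finite →
      ∀ e f, Gated (Nr H K) (W.colL 1 i.1 i.2.1) (W.colR i.2.2.1 i.2.2.2.1 i.2.2.2.2) e →
        Gated (Nr H K) (W.colL 1 i.1 i.2.1) (W.colR i.2.2.1 i.2.2.2.1 i.2.2.2.2) f →
        lclist_B H K (W.colL 1 i.1 i.2.1) (W.colR i.2.2.1 i.2.2.2.1 i.2.2.2.2) e f n)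
    (fun _ _ _ hnm h k e f he hf => lclist_mono hnm (h k e f he hf)) fun i _ => by
      by_cases k : {e | Gated (Nr H K) (W.colL 1 i.1 i.2.1)
        (W.colR i.2.2.1 i.2.2.2.1 i.2.2.2.2) e}.Finite
      · exact (lclist_one k).imp fun _ h _ => h
      · exact ⟨0, fun k' => absurd k' k⟩
  refine ⟨L, fun x z y x' z' y' h1 h2 h3 h4 h5 hfin e f he hf => ?_⟩
  have n1 : ∀ {M w}, Nr H M x w → Nr H M 1 (x⁻¹ * w) := fun h => by
    rw [← inv_mul_cancel x, nr_smul]; exact h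
  have a1 : ∀ v, x⁻¹ * v ∈ W.colL 1 (x⁻¹ * z) (x⁻¹ * y) ↔ v ∈ W.colL x z y := fun v => by
    rw [← inv_mul_cancel x, W.mem_colL_smul]
  have a2 := W.mem_colR_smul x⁻¹ x' z' y'
  have b1 : ∀ v, x * v ∈ W.colL x z y ↔ v ∈ W.colL 1 (x⁻¹ * z) (x⁻¹ * y) := fun v => by
    rw [← a1, inv_mul_cancel_left]
  have b2 : ∀ v, x * v ∈ W.colR x' z' y' ↔ v ∈ W.colR (x⁻¹ * x') (x⁻¹ * z') (x⁻¹ * y') :=
    fun v => by rw [← a2, inv_mul_cancel_left]
  obtain ⟨c1, c2⟩ := hL (x⁻¹ * z, x⁻¹ * y, x⁻¹ * x', x⁻¹ * z', x⁻¹ * y')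
    ⟨n1 h1, n1 h2, n1 h5, n1 (h5.trans h3), n1 (h5.trans h4)⟩
    ((hfin.image fun e => (x⁻¹ * e.1, x⁻¹ * e.2)).subset fun d hd =>
      ⟨_, lclist_gated b1 b2 hd, by simp⟩) _ _ (lclist_gated a1 a2 he) (lclist_gated a1 a2 hf)
  refine ⟨(nr_smul H x⁻¹ _ _).1 c1, fun ⟨n, hn⟩ => ?_⟩
  simpa only [mul_inv_cancel_left] using lclist_wk b1 b2 (c2 ⟨n, lclist_wk a1 a2 hn⟩)

end KKC.LC
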