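import Pool.Agent.Lib.MP_e1e491_gt.LCStb
import Pool.Agent.Lib.MP_e1e491_gt.LCList

/-! Heights in a chain of sides. -/

namespace KKC.LC

open Set
open scoped Pointwise

variable {G Z : Type} [Group G] [MetricSpace Z] [MulAction G Z] [CompactSpace Z] {H : HB G Z} {K : ℕ}
  {W : Walls H K} {c : ℕ → Set Z} {a b : G} {k : ℕ} {x z y : G}

namespace Walls

theorem Ch.mono (hc : W.Ch c a b) {i j : ℕ} (h : i ≤ j) : c i ⊆ c j := by
  induction h with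
  | refl => exact Subset.rfl
  | step _ ih => exact (ih.trans subset_closure).trans (hc.lt _)

theorem Ch.mem_CC (hc : W.Ch c a b) {l : ℕ} (h : k ≤ l) : c l ∈ W.CC c k :=
  ⟨hc.mem l, hc.mono h, l, Subset.rfl⟩

/-- All members separate `a` from `b`. -/
theorem Ch.cc_total (hc : W.Ch c a b) {U V : Set Z} (hU : U ∈ W.CC c k) (hV : V ∈ W.CC c k) :
    U ⊆ V ∨ V ⊆ U := by
  obtain ⟨h1, h2, l, h3⟩ := hU
  obtain ⟨h1', h2', l', h3'⟩ := hV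
  exact W.chain U h1 V h1' a b (W.mono _ (hc.mem k) U h1 h2 (hc.ha k))
    (W.mono _ (hc.mem k) V h1' h2' (hc.ha k)) (fun h => hc.hb l (W.mono U h1 _ (hc.mem l) h3 h))
    fun h => hc.hb l' (W.mono V h1' _ (hc.mem l') h3' h)

theorem hgt_lower {v : G} {U V : Set Z} (hU : U ∈ W.hgt c k v) (hV : V ∈ W.CC c k) (h : V ⊆ U) :
    V ∈ W.hgt c k v := ⟨hV, fun hv => hU.2 (W.mono V hV.1 U hU.1.1 h hv)⟩

theorem Ch.hgt_total (hc : W.Ch c a b) (v w : G) :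
    W.hgt c k v ⊆ W.hgt c k w ∨ W.hgt c k w ⊆ W.hgt c k v := by
  refine or_iff_not_imp_left.mpr fun h V hV => ?_
  obtain ⟨U, hU, hU'⟩ := not_subset.mp h
  rcases hc.cc_total hU.1 hV.1 with e | e
  · exact absurd (hgt_lower hV hU.1 e) hU'
  · exact hgt_lower hU hV.1 e

theorem Ch.hgt_eq_empty (hc : W.Ch c a b) (v : G) : W.hgt c k v = ∅ ↔ v ∈ W.A (c k) := by
  rw [eq_empty_iff_forall_notMem]
  exact ⟨fun h => by_contra fun hv => h _ ⟨hc.mem_CC le_rfl, hv⟩,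
    fun h U hU => hU.2 (W.mono _ (hc.mem k) U hU.1.1 hU.1.2.1 h)⟩

theorem Ch.hgt_eq_top (hc : W.Ch c a b) (v : G) : W.hgt c k v = W.CC c k ↔ v ∉ W.Ainf c := by
  constructor
  · rintro h ⟨l, hl⟩
    have h1 : c (max k l) ∈ W.hgt c k v := h ▸ hc.mem_CC (le_max_left k l)
    exact h1.2 (W.mono _ (hc.mem l) _ (hc.mem _) (hc.mono (le_max_right k l)) hl)
  · refine fun h => Subset.antisymm (fun U hU => hU.1) fun U hU => ⟨hU, fun hv => ?_⟩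
    obtain ⟨h1, -, l, h3⟩ := hU
    exact h ⟨l, W.mono U h1 _ (hc.mem l) h3 hv⟩

theorem lclev_mem {v : G} {U : Set Z} (hU : U ∈ W.CC c k) (h : U ∉ W.hgt c k v) : v ∈ W.A U :=
  by_contra fun hv => h ⟨hU, hv⟩

theorem lclev_ll (h : W.Trip c k x z y) {U : Set Z} (h1 : U ∈ W.hgt c k z)
    (h2 : U ∉ W.hgt c k x) : U ∈ W.LL x z y :=
  ⟨h1.1.1, lclev_mem h1.1 h2, h1.2, (h.2.2.2.2.1 h1).2⟩

theorem lclev_rt (h : W.Trip c k x z y) {U : Set Z} (h1 : U ∈ W.hgt c k y)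
    (h2 : U ∉ W.hgt c k z) : U ∈ W.RT x z y :=
  ⟨h1.1.1, lclev_mem h1.1 fun e => h2 (h.2.2.2.1.1 e), lclev_mem h1.1 h2, h1.2⟩

/-- There are `U₁ ∈ hgt z \ hgt x` (in `LL`) and `U₂ ∈ hgt y \ hgt z` (in `RT`). A member of `LL` is
comparable with both (`Walls.chain` for `x`, `y`): it lies below `U₁` or belongs to `hgt z`. -/
theorem Trip.ll_sub (hc : W.Ch c a b) (h : W.Trip c k x z y) {U : Set Z} (hU : U ∈ W.LL x z y) :
    ∃ V ∈ W.hgt c k z, V ∉ W.hgt c k x ∧ U ⊆ V := by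
  obtain ⟨U₁, a1, a2⟩ := exists_of_ssubset h.2.2.2.1
  obtain ⟨U₂, b1, b2⟩ := exists_of_ssubset h.2.2.2.2
  have a3 := lclev_ll h a1 a2
  have b3 := lclev_rt h b1 b2
  rcases W.chain U hU.1 U₁ a3.1 x y hU.2.1 a3.2.1 hU.2.2.2 a3.2.2.2 with e | e
  · exact ⟨U₁, a1, a2, e⟩
  rcases W.chain U hU.1 U₂ b3.1 x y hU.2.1 b3.2.1 hU.2.2.2 b3.2.2.2 with e' | e'
  · obtain ⟨l, hl⟩ := b1.1.2.2
    exact ⟨U, ⟨⟨hU.1, a1.1.2.1.trans e, l, e'.trans hl⟩, hU.2.2.1⟩, fun f => f.2 hU.2.1,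
      Subset.rfl⟩
  · exact absurd (W.mono _ b3.1 _ hU.1 e' b3.2.2.1) hU.2.2.1

theorem Trip.rt_sup (hc : W.Ch c a b) (h : W.Trip c k x z y) {U : Set Z} (hU : U ∈ W.RT x z y) :
    ∃ V ∈ W.hgt c k y, V ∉ W.hgt c k z ∧ V ⊆ U := by
  obtain ⟨U₁, a1, a2⟩ := exists_of_ssubset h.2.2.2.1
  obtain ⟨U₂, b1, b2⟩ := exists_of_ssubset h.2.2.2.2
  have a3 := lclev_ll h a1 a2
  have b3 := lclev_rt h b1 b2
  rcases W.chain U hU.1 U₂ b3.1 x y hU.2.1 b3.2.1 hU.2.2.2 b3.2.2.2 with e' | e'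
  swap
  · exact ⟨U₂, b1, b2, e'⟩
  rcases W.chain U hU.1 U₁ a3.1 x y hU.2.1 a3.2.1 hU.2.2.2 a3.2.2.2 with e | e
  · exact absurd (W.mono _ hU.1 _ a3.1 e hU.2.2.1) a3.2.2.1
  · obtain ⟨l, hl⟩ := b1.1.2.2
    exact ⟨U, ⟨⟨hU.1, a1.1.2.1.trans e, l, e'.trans hl⟩, hU.2.2.2⟩, fun f => f.2 hU.2.2.1,
      Subset.rfl⟩

theorem Trip.colL_eq (hc : W.Ch c a b) (h : W.Trip c k x z y) :
    W.colL x z y = {v | W.hgt c k v ⊂ W.hgt c k z} := by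
  ext v
  constructor
  · rintro ⟨U, hU, hv⟩
    obtain ⟨V, h1, -, h3⟩ := h.ll_sub hc hU
    have h4 : ¬ W.hgt c k z ⊆ W.hgt c k v := fun e => (e h1).2 (W.mono _ hU.1 _ h1.1.1 h3 hv)
    exact ⟨(hc.hgt_total v z).resolve_right h4, h4⟩
  · intro hv
    obtain ⟨V, h1, h2⟩ := exists_of_ssubset hv
    obtain ⟨U₁, a1, a2⟩ := exists_of_ssubset h.2.2.2.1
    rcases hc.cc_total h1.1 a1.1 with e | e
    · exact ⟨U₁, lclev_ll h a1 a2, W.mono _ h1.1.1 _ a1.1.1 e (lclev_mem h1.1 h2)⟩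
    · exact ⟨V, lclev_ll h h1 fun f => a2 (hgt_lower f a1.1 e), lclev_mem h1.1 h2⟩

theorem Trip.colR_eq (hc : W.Ch c a b) (h : W.Trip c k x z y) :
    W.colR x z y = {v | W.hgt c k z ⊂ W.hgt c k v} := by
  ext v
  constructor
  · rintro ⟨U, hU, hv⟩
    obtain ⟨V, h1, h2, h3⟩ := h.rt_sup hc hU
    have h4 : ¬ W.hgt c k v ⊆ W.hgt c k z :=
      fun e => h2 (e ⟨h1.1, fun f => hv (W.mono _ h1.1.1 _ hU.1 h3 f)⟩)
    exact ⟨(hc.hgt_total v z).resolve_left h4, h4⟩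
  · intro hv
    obtain ⟨V, h1, h2⟩ := exists_of_ssubset hv
    obtain ⟨U₂, b1, b2⟩ := exists_of_ssubset h.2.2.2.2
    rcases hc.cc_total h1.1 b1.1 with e | e
    · exact ⟨V, lclev_rt h (hgt_lower b1 h1.1 e) h2, h1.2⟩
    · exact ⟨U₂, lclev_rt h b1 b2, (hgt_lower h1 b1.1 e).2⟩

theorem Trip.union_eq (hc : W.Ch c a b) (h : W.Trip c k x z y) :
    ⋃₀ W.LL x z y = ⋃₀ W.hgt c k z := by
  refine Subset.antisymm (sUnion_subset fun U hU => ?_) (sUnion_subset fun V hV => ?_)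
  · obtain ⟨V, h1, -, h3⟩ := h.ll_sub hc hU
    exact h3.trans (subset_sUnion_of_mem h1)
  · obtain ⟨U₁, a1, a2⟩ := exists_of_ssubset h.2.2.2.1
    rcases hc.cc_total hV.1 a1.1 with e | e
    · exact e.trans (subset_sUnion_of_mem (lclev_ll h a1 a2))
    · exact subset_sUnion_of_mem (lclev_ll h hV fun f => a2 (hgt_lower f a1.1 e))

theorem lclev_smul (g x z y : G) :
    g • ⋃₀ W.LL x z y = ⋃₀ W.LL (g * x) (g * z) (g * y) := by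
  ext ξ
  rw [mem_smul_set_iff_inv_smul_mem]
  constructor
  · rintro ⟨U, hU, h⟩
    exact ⟨g • U, (W.mem_LL_smul g x z y U).mpr hU, mem_smul_set_iff_inv_smul_mem.mpr h⟩
  · rintro ⟨U, hU, h⟩
    refine ⟨g⁻¹ • U, (W.mem_LL_smul g x z y _).mp ?_, smul_mem_smul_set h⟩
    rwa [smul_inv_smul]

/-- The map to `(x⁻¹ z, x⁻¹ y)` has finite range; two triangles with the same image differ by a left
translation, which preserves `⋃₀ J` (`Trip.union_eq`, `mem_LL_smul`); `stab_union`. -/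
theorem Ch.trip_finite (hc : W.Ch c a b) (k : ℕ) (J : Set (Set Z)) :
    {t : G × G × G | W.Trip c k t.1 t.2.1 t.2.2 ∧ W.hgt c k t.2.1 = J}.Finite := by
  refine Finite.of_finite_fibers (fun t : G × G × G => (t.1⁻¹ * t.2.1, t.1⁻¹ * t.2.2))
    (((H.fin K).prod (H.fin K)).subset ?_) ?_
  · rintro _ ⟨t, ⟨ht, -⟩, rfl⟩
    exact ⟨ht.1, ht.2.2.1⟩
  rintro _ ⟨⟨x, z, y⟩, ⟨h, rfl⟩, rfl⟩
  obtain ⟨U₁, a1, -⟩ := exists_of_ssubset h.2.2.2.1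
  obtain ⟨U₂, b1, b2⟩ := exists_of_ssubset h.2.2.2.2
  have hf := W.stab_union (D := W.hgt c k z) (fun U hU => hU.1.1) ⟨U₁, a1⟩
    (fun U hU V hV => hc.cc_total hU.1 hV.1) b1.1.1
    fun U hU => (hc.cc_total hU.1 b1.1).resolve_right fun e => b2 (hgt_lower hU b1.1 e)
  refine (hf.image fun g => (g * x, g * z, g * y)).subset ?_
  rintro ⟨x', z', y'⟩ ⟨⟨h', e⟩, e'⟩
  obtain ⟨e1, e2⟩ := Prod.ext_iff.mp e'
  simp only at e e1 e2 h h'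
  have f0 : x' * x⁻¹ * x = x' := inv_mul_cancel_right x' x
  have f1 : x' * x⁻¹ * z = z' := by rw [mul_assoc, ← e1, mul_inv_cancel_left]
  have f2 : x' * x⁻¹ * y = y' := by rw [mul_assoc, ← e2, mul_inv_cancel_left]
  refine ⟨x' * x⁻¹, ?_, by simp only [f0, f1, f2]⟩
  show _ • _ = _
  rw [← h.union_eq hc, lclev_smul, f0, f1, f2, h'.union_eq hc, h.union_eq hc, e]

end Walls

end KKC.LC
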