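import Pool.Agent.Lib.MP_e1e491_gt.LCEv
import Pool.Agent.Lib.MP_e1e491_gt.LCLev

/-! Only one gate leads to an infinite part. -/

namespace KKC.LC

open Set
open scoped Pointwise

variable {G Z : Type} [Group G] [MetricSpace Z] [MulAction G Z] [CompactSpace Z] {H : HB G Z} {K : ℕ}
  {W : Walls H K} {c : ℕ → Set Z} {a b : G}

/-- `finite_ed`: a point lies in `c (k + 1)` or in `opp (c k)`. -/
theorem Walls.Ch.inter_finite (hc : W.Ch c a b) (k : ℕ) :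
    {e | Ed (Nr H K) (W.A (c k)) (W.Ainf c)ᶜ e}.Finite := by
  refine finite_ed fun ξ => ?_
  by_cases h : ξ ∈ c (k + 1)
  · exact Or.inr ((W.lim _ (hc.mem _) ξ h).mono fun v hv hn => hn ⟨_, hv⟩)
  · exact Or.inl (W.lim' _ (hc.mem _) ξ fun h' => h (hc.lt k h'))

/-- `r = c (k + 1)`, `M` = union over `l ≥ k + 2` of `closure (c l) \ r`: preconnected (`Side.mid`,
common point the point `p` of `r`), near its points all vertices are in `Ainf` and not in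
`A (c k)`. `GoodK.dich`: `M` is inside `E m` for at most one `m = m₀`. For the others
`Φ = {w ∈ A r | w is a neighbour of some v ∈ E m \ A r}` is finite (`finite_ed`; cases `r`, `opp r`,
`p`), `(E m ∩ A (c l)) \ A r` is finite (`finite_of_ev`; cases `r`, `opp (c l)`, `M`), so it lies in
the finite set `D` of `Walls.mp`. An edge with first end in `A r` is covered by `inter_finite`. -/
theorem Walls.Ch.one [PreconnectedSpace Z] (hK : GoodK H K) (hc : W.Ch c a b) (k : ℕ) {ι : Type}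
    [Nonempty ι] (E : ι → Set G) (hd : ∀ m m', m ≠ m' → Disjoint (E m) (E m'))
    (hb : ∀ m v w, Nr H K v w → v ∈ E m → w ∉ E m → w ∈ W.A (c k) ∨ w ∉ W.Ainf c) :
    ∃ m₀, ∀ m, m ≠ m₀ → {e | Ed (Nr H K) (W.Ainf c) (W.Ainf c)ᶜ e ∧ e.1 ∈ E m}.Finite := by
  obtain ⟨p, hp⟩ := (W.side _ (hc.mem (k + 1))).pt
  have hp' : p ∈ closure (c (k + 1)) \ c (k + 1) := hp ▸ mem_singleton p
  have hcl : ∀ j, closure (c (k + 1)) ⊆ c (j + (k + 2)) := fun j =>
    (hc.lt _).trans (hc.mono (by omega))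
  have hA : ∀ {i j}, i ≤ j → W.A (c i) ⊆ W.A (c j) := fun h =>
    W.mono _ (hc.mem _) _ (hc.mem _) (hc.mono h)
  have hpM : ∀ j, p ∈ closure (c (j + (k + 2))) \ c (k + 1) := fun j =>
    ⟨subset_closure (hcl j hp'.1), hp'.2⟩
  set M : Set Z := ⋃ j, closure (c (j + (k + 2))) \ c (k + 1) with hM
  have hMc : IsPreconnected M := isPreconnected_iUnion ⟨p, mem_iInter.2 hpM⟩ fun j =>
    (W.side _ (hc.mem _)).mid (W.side _ (hc.mem _)) (hcl j)
  have hpM' : p ∈ M := mem_iUnion.2 ⟨0, hpM 0⟩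
  have hdi : ∀ m, (∀ ξ ∈ M, Ev H ξ (E m)) ∨ ∀ ξ ∈ M, Ev H ξ (E m)ᶜ := by
    intro m
    refine hK.dich hMc fun ξ hξ => ?_
    obtain ⟨j, h1, h2⟩ := mem_iUnion.1 hξ
    have e1 := W.lim _ (hc.mem _) ξ (hc.lt _ h1)
    have e2 := W.lim' _ (hc.mem k) ξ fun h' => h2 (hc.lt k h')
    refine ((e1.inter e2).near K).mono fun v hv w hw => ?_
    have a1 := hv v ((nr_rs H K).refl v)
    have a2 := hv w hw
    constructor
    · intro h
      by_contra hn
      exact (hb m v w hw h hn).elim a2.2 fun h' => h' ⟨_, a2.1⟩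
    · intro h
      by_contra hn
      exact (hb m w v ((nr_rs H K).symm _ _ hw) h hn).elim a1.2 fun h' => h' ⟨_, a1.1⟩
  obtain ⟨m₀, hm₀⟩ : ∃ m₀, ∀ m, m ≠ m₀ → ¬ Ev H p (E m) := by
    by_cases h : ∃ m, Ev H p (E m)
    · obtain ⟨m₀, h⟩ := h
      refine ⟨m₀, fun m hm h' => ?_⟩
      obtain ⟨v, h1, h2⟩ := (h'.inter h).nonempty
      exact Set.disjoint_left.1 (hd m m₀ hm) h1 h2
    · exact ⟨Classical.arbitrary ι, fun m _ h' => h ⟨m, h'⟩⟩
  refine ⟨m₀, fun m hm => ?_⟩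
  have hE : ∀ ξ ∈ M, Ev H ξ (E m)ᶜ := (hdi m).resolve_left fun h => hm₀ m hm (h p hpM')
  have hΦ : {e | Ed (Nr H K) (E m \ W.A (c (k + 1))) (W.A (c (k + 1))) e}.Finite := by
    refine finite_ed fun ξ => ?_
    by_cases h1 : ξ ∈ c (k + 1)
    · exact Or.inl ((W.lim _ (hc.mem _) ξ h1).mono fun v hv hn => hn.2 hv)
    by_cases h2 : ξ ∈ closure (c (k + 1))
    · have : ξ ∈ M := mem_iUnion.2 ⟨0, subset_closure (hcl 0 h2), h1⟩
      exact Or.inl ((hE ξ this).mono fun v hv hn => hv hn.1)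
    · exact Or.inr (W.lim' _ (hc.mem _) ξ h2)
  obtain ⟨D, hD, hmp⟩ := W.mp _ (hΦ.image Prod.snd)
  have hT : ∀ j, (E m ∩ W.A (c (j + (k + 2)))) \ W.A (c (k + 1)) ⊆ D := by
    intro j
    refine hmp _ (hc.mem (j + (k + 2))) _ (finite_of_ev (H := H) fun ξ => ?_)
      (fun v hv => hv.1.2) fun v hv w hw => ?_
    · by_cases h1 : ξ ∈ c (k + 1)
      · exact (W.lim _ (hc.mem _) ξ h1).mono fun v hv hn => hn.2 hv
      by_cases h2 : ξ ∈ closure (c (j + (k + 2)))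
      · exact (hE ξ (mem_iUnion.2 ⟨j, h2, h1⟩)).mono fun v hv hn => hv hn.1.1
      · exact (W.lim' _ (hc.mem _) ξ h2).mono fun v hv hn => hv hn.1.2
    · by_cases h1 : w ∈ W.A (c (j + (k + 2)))
      · by_cases h2 : w ∈ W.A (c (k + 1))
        · exact Or.inr (Or.inr ⟨(v, w), ⟨hw, ⟨hv.1.1, hv.2⟩, h2⟩, rfl⟩)
        · refine Or.inl ⟨⟨?_, h1⟩, h2⟩
          by_contra hn
          exact (hb m v w hw hv.1.1 hn).elim (fun h => h2 (hA (Nat.le_succ k) h))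
            fun h => h ⟨_, h1⟩
      · exact Or.inr (Or.inl h1)
  refine ((hc.inter_finite (k + 1)).union
    (hD.biUnion fun v _ => (finite_singleton v).prod (nr_fin H K v))).subset ?_
  rintro e ⟨⟨h1, ⟨l, h2⟩, h3⟩, h4⟩
  by_cases h : e.1 ∈ W.A (c (k + 1))
  · exact Or.inl ⟨h1, h, h3⟩
  · exact Or.inr (mem_biUnion (hT l ⟨⟨h4, hA (Nat.le_add_right _ _) h2⟩, h⟩) ⟨rfl, h1⟩)

end KKC.LC
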