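import Pool.Agent.Lib.MP_e1e491_gt.LCWk

/-! Merging adjacent levels. -/

namespace KKC.LC

open Set
open scoped Pointwise

variable {G Z : Type} [Group G] [MetricSpace Z] [MulAction G Z] {H : HB G Z} {K : ℕ}
  {Λ : Type} [LinearOrder Λ] [BoundedOrder Λ]

/-- A triangle with three different heights. -/
def Tp (H : HB G Z) (K : ℕ) (ht : G → Λ) (x z y : G) : Prop :=
  Nr H K x z ∧ Nr H K z y ∧ Nr H K x y ∧ ht x < ht z ∧ ht z < ht y

omit [BoundedOrder Λ] in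
theorem lcmerge_const {ht : G → Λ} {m m' : Λ} (hm : m ≤ m') {L : ℕ} {e f : G × G}
    (hW : Wk (Adj (Nr H K)) (Ed (Nr H K) {v | ht v < m} {v | m' < ht v}) L e f)
    (key : ∀ x z y, Tp H K ht x z y → Nr H (K * L) e.1 x → ht z < m ∨ m' < ht z → False) :
    Wk (Adj (Nr H K)) (fun d => Nr H K d.1 d.2 ∧ ht d.1 = ht e.1 ∧ ht d.2 = ht e.2) L e f := by
  refine ((hW.strengthen (nr_rs H K).adj).inv (Q := fun d => ht d.1 = ht e.1 ∧ ht d.2 = ht e.2)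
    ⟨rfl, rfl⟩ ?_).mono fun d hd => ⟨hd.1.1.1, hd.2⟩
  rintro ⟨a, b⟩ ⟨a', b'⟩ ⟨⟨h1, h2, h3⟩, h4⟩ ⟨⟨h1', h2', h3'⟩, h4'⟩ ⟨h5, h6⟩ hd
  have n1 : Nr H (K * L) e.1 a := h4.nr_fst
  have n2 : Nr H (K * L) e.1 a' := h4'.nr_fst
  have c1 : ht a < m := h2
  have c2 : ht a' < m := h2'
  have c3 : m' < ht b := h3
  have c4 : m' < ht b' := h3'
  rcases hd with ⟨h7, h8⟩ | ⟨h7, h8⟩
  · obtain rfl : a = a' := h7
    refine ⟨h5, Eq.trans ?_ h6⟩
    rcases lt_trichotomy (ht b') (ht b) with h | h | h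
    · exact (key a b' b ⟨h1', Nr.symm h8, h1, (c1.trans_le hm).trans c4, h⟩ n1 (Or.inr c4)).elim
    · exact h
    · exact (key a b b' ⟨h1, h8, h1', (c1.trans_le hm).trans c3, h⟩ n1 (Or.inr c3)).elim
  · obtain rfl : b = b' := h7
    refine ⟨Eq.trans ?_ h5, h6⟩
    rcases lt_trichotomy (ht a') (ht a) with h | h | h
    · exact (key a' a b ⟨Nr.symm h8, h1, h1', h, (c1.trans_le hm).trans c3⟩ n2 (Or.inl c1)).elim
    · exact h
    · exact (key a a' b ⟨h8, h1', h1, h, (c2.trans_le hm).trans c3⟩ n1 (Or.inl c2)).elim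

omit [BoundedOrder Λ] in
/-- Collapse every upper partner to its lower partner. -/
theorem lcmerge_sigma (Pn : Λ → Λ → Prop) (h1 : ∀ p q, Pn p q → p < q)
    (h2 : ∀ p q t, Pn p q → p < t → t < q → False) (h3 : ∀ p q t, Pn p q → Pn q t → False) :
    ∃ σ : Λ → Λ, (∀ q, σ q = q ∨ Pn (σ q) q) ∧ ∀ q, ∃ m m', (Pn m m' ∨
      (m = m' ∧ (∀ t, ¬ Pn t m) ∧ ∀ t, ¬ Pn m t)) ∧ (∀ t, σ t < σ q ↔ t < m) ∧
        ∀ t, σ q < σ t ↔ m' < t := by
  classical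
  obtain ⟨σ, a1, a2⟩ : ∃ σ : Λ → Λ, (∀ p q, Pn p q → Pn (σ q) q) ∧
      ∀ q, (∀ p, ¬ Pn p q) → σ q = q := by
    refine ⟨fun q => if h : ∃ p, Pn p q then h.choose else q, fun p q h => ?_, fun q h => ?_⟩
    · have h4 : ∃ p, Pn p q := ⟨p, h⟩
      simp only [dif_pos h4]
      exact h4.choose_spec
    · exact dif_neg (not_exists.2 h)
  have a3 : ∀ q, σ q = q ∨ Pn (σ q) q := fun q => by
    by_cases h : ∃ p, Pn p q
    · exact Or.inr (a1 _ _ h.choose_spec)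
    · exact Or.inl (a2 q (not_exists.1 h))
  have a4 : ∀ p q, Pn p q → σ q = p := fun p q h => by
    have h4 := a1 p q h
    rcases lt_trichotomy (σ q) p with h5 | h5 | h5
    · exact (h2 _ _ _ h4 h5 (h1 _ _ h)).elim
    · exact h5
    · exact (h2 _ _ _ h h5 (h1 _ _ h4)).elim
  have a5 : ∀ q, σ q ≤ q := fun q => (a3 q).elim le_of_eq fun h => (h1 _ _ h).le
  have a6 : ∀ q t, q < t → q ≤ σ t := fun q t h => (a3 t).elim (fun h4 => h.le.trans h4.ge)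
    fun h4 => not_lt.1 fun h5 => h2 _ _ _ h4 h5 h
  have a7 : ∀ q t, q ≤ t → σ q ≤ σ t := fun q t h =>
    h.eq_or_lt.elim (fun h4 => (congrArg σ h4).le) fun h4 => (a5 q).trans (a6 q t h4)
  have a8 : ∀ m m', Pn m m' → (∀ t, σ t < m ↔ t < m) ∧ ∀ t, m < σ t ↔ m' < t := by
    intro m m' h
    have h4 : σ m = m := a2 m fun p hp => h3 _ _ _ hp h
    exact ⟨fun t => ⟨fun h5 => not_le.1 fun h6 => absurd (h4.ge.trans (a7 _ _ h6)) (not_le.2 h5),
      fun h5 => (a5 t).trans_lt h5⟩, fun t => ⟨fun h5 => not_le.1 fun h6 =>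
        absurd ((a7 _ _ h6).trans (a4 _ _ h).le) (not_le.2 h5),
      fun h5 => (h1 _ _ h).trans_le (a6 _ _ h5)⟩⟩
  refine ⟨σ, a3, fun q => ?_⟩
  by_cases b1 : ∃ p, Pn p q
  · obtain ⟨p, hp⟩ := b1
    rw [a4 p q hp]
    exact ⟨p, q, Or.inl hp, a8 p q hp⟩
  rw [a2 q (not_exists.1 b1)]
  by_cases b2 : ∃ t, Pn q t
  · obtain ⟨t, ht⟩ := b2
    exact ⟨q, t, Or.inl ht, a8 q t ht⟩
  refine ⟨q, q, Or.inr ⟨rfl, not_exists.1 b1, not_exists.1 b2⟩, fun t => ⟨fun h5 => not_le.1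
    fun h6 => absurd ((a2 q (not_exists.1 b1)).ge.trans (a7 _ _ h6)) (not_le.2 h5),
    fun h5 => (a5 t).trans_lt h5⟩, fun t => ⟨fun h5 => h5.trans_le (a5 t), fun h5 => ?_⟩⟩
  refine lt_of_le_of_ne (a6 _ _ h5) fun h6 => ?_
  rcases a3 t with h7 | h7
  · exact h5.ne (h6.trans h7)
  · exact b2 ⟨t, h6 ▸ h7⟩

/-- Call `m < m'` partners if they are levels of tripods whose first vertices are within `K * L₁`.
Partners are close (`hX`), so there is no value strictly between them, and no level has two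
partners or is both a lower and an upper partner (`hD`, `hX`, `hCl`). Let `ht' v` be the lower
partner of `ht v` if there is one, else `ht v`. For a level `mu` with a gated edge the colours of
`ht'` are `{ht < m}`, `{m' < ht}` with `m = m'` without partner, or partners `m < m'`. Take the walk
of `h₁` or `h₂` and show with `Wk.strengthen`, `Wk.inv`, `Wk.nr_fst` that no step changes `ht` at
all: a change gives a tripod of a level below `m` or above `m'` whose first vertex is within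
`K * L` of the first vertex of the gate; it is a partner (first case) or contradicts `hCl`. -/
theorem merge (ht : G → Λ) (Cl : Λ → Λ → Prop) (hCl : ∀ p q r, p < q → q < r → ¬ Cl p r)
    {D L₁ L₂ : ℕ}
    (hD : ∀ x z y x' z' y', Tp H K ht x z y → Tp H K ht x' z' y' → ht z = ht z' → Nr H D x x')
    (h₁ : ∀ m e f, Gated (Nr H K) {v | ht v < m} {v | m < ht v} e →
      Gated (Nr H K) {v | ht v < m} {v | m < ht v} f →
      Conn (Adj (Nr H K)) (Ed (Nr H K) {v | ht v < m} {v | m < ht v}) e f →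
      Wk (Adj (Nr H K)) (Ed (Nr H K) {v | ht v < m} {v | m < ht v}) L₁ e f)
    (h₂ : ∀ x z y x' z' y', Tp H K ht x z y → Tp H K ht x' z' y' → Nr H (K * L₁) x x' →
      ht z < ht z' → ∀ e f, Gated (Nr H K) {v | ht v < ht z} {v | ht z' < ht v} e →
      Gated (Nr H K) {v | ht v < ht z} {v | ht z' < ht v} f →
      Conn (Adj (Nr H K)) (Ed (Nr H K) {v | ht v < ht z} {v | ht z' < ht v}) e f →
      Wk (Adj (Nr H K)) (Ed (Nr H K) {v | ht v < ht z} {v | ht z' < ht v}) L₂ e f)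
    (hX : ∀ x z y x' z' y', Tp H K ht x z y → Tp H K ht x' z' y' →
      Nr H (K * L₂ + 2 * (K * L₁) + D) x x' → ht z < ht z' → Cl (ht z) (ht z')) :
    ∃ ht' : G → Λ, (∀ v, ht' v = ⊥ ↔ ht v = ⊥) ∧ (∀ v, ht' v = ⊤ ↔ ht v = ⊤) ∧
      Plat (Nr H K) ht' (L₁ + L₂) := by
  obtain ⟨Pn, hPn⟩ : ∃ Pn : Λ → Λ → Prop, ∀ m m', Pn m m' ↔ ∃ x z y x' z' y', Tp H K ht x z y ∧
      Tp H K ht x' z' y' ∧ Nr H (K * L₁) x x' ∧ ht z < ht z' ∧ ht z = m ∧ ht z' = m' :=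
    ⟨_, fun _ _ => Iff.rfl⟩
  have p1 : ∀ p q, Pn p q → p < q := fun p q h => by
    obtain ⟨x, z, y, x', z', y', -, -, -, h1, rfl, rfl⟩ := (hPn p q).1 h
    exact h1
  have p2 : ∀ p q t, Pn p q → p < t → t < q → False := fun p q t h h2 h3 => by
    obtain ⟨x, z, y, x', z', y', a1, a2, a3, a4, rfl, rfl⟩ := (hPn p q).1 h
    exact hCl _ _ _ h2 h3 (hX x z y x' z' y' a1 a2 (a3.mono (by omega)) a4)
  have p3 : ∀ p q t, Pn p q → Pn q t → False := fun p q t h h' => by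
    obtain ⟨x, z, y, x', z', y', a1, a2, a3, a4, rfl, rfl⟩ := (hPn p q).1 h
    obtain ⟨u, w, v, u', w', v', b1, b2, b3, b4, b5, rfl⟩ := (hPn _ t).1 h'
    rw [b5] at b4
    exact hCl _ _ _ a4 b4 (hX x z y u' w' v' a1 b2
      (((a3.trans (hD x' z' y' u w v a2 b1 b5.symm)).trans b3).mono (by omega)) (a4.trans b4))
  have p4 : ∀ p q, Pn p q → ⊥ < p ∧ q < ⊤ := fun p q h => by
    obtain ⟨x, z, y, x', z', y', a1, a2, -, -, rfl, rfl⟩ := (hPn p q).1 h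
    exact ⟨bot_le.trans_lt a1.2.2.2.1, a2.2.2.2.2.trans_le le_top⟩
  obtain ⟨σ, s1, s2⟩ := lcmerge_sigma Pn p1 p2 p3
  refine ⟨fun v => σ (ht v), fun v => ?_, fun v => ?_, fun μ e f he hf hc => ?_⟩
  · rcases s1 (ht v) with h | h
    · simp only [h]
    · exact iff_of_false (p4 _ _ h).1.ne' ((p4 _ _ h).1.trans (p1 _ _ h)).ne'
  · rcases s1 (ht v) with h | h
    · simp only [h]
    · exact iff_of_false ((p1 _ _ h).trans (p4 _ _ h).2).ne (p4 _ _ h).2.ne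
  obtain ⟨q, rfl⟩ : ∃ q, σ q = μ := by
    obtain ⟨z, h1, h2, -⟩ := he.2
    exact ⟨ht z, le_antisymm (not_lt.1 h2) (not_lt.1 h1)⟩
  obtain ⟨m, m', c1, c2, c3⟩ := s2 q
  simp only [c2, c3] at he hf hc
  suffices h : ∃ L ≤ L₁ + L₂, Wk (Adj (Nr H K))
      (fun d => Nr H K d.1 d.2 ∧ ht d.1 = ht e.1 ∧ ht d.2 = ht e.2) L e f by
    obtain ⟨L, h1, h2⟩ := h
    exact (h2.le (nr_rs H K).adj h1).mono fun d hd =>
      ⟨hd.1, congrArg σ hd.2.1, congrArg σ hd.2.2⟩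
  obtain ⟨w, g1, g2, g3, g4⟩ := he.2
  have g5 : m ≤ ht w := not_lt.1 g1
  have g6 : ht w ≤ m' := not_lt.1 g2
  have g7 : Tp H K ht e.1 w e.2 :=
    ⟨g3, g4, he.1.1, lt_of_lt_of_le he.1.2.1 g5, lt_of_le_of_lt g6 he.1.2.2⟩
  rcases c1 with c1 | ⟨rfl, c4, c5⟩
  · have c6 := p1 _ _ c1
    have g8 : ht w = m ∨ ht w = m' := by
      by_contra h
      rw [not_or] at h
      exact p2 _ _ _ c1 (lt_of_le_of_ne g5 (Ne.symm h.1)) (lt_of_le_of_ne g6 h.2)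
    obtain ⟨x, z, y, x', z', y', a1, a2, a3, a4, rfl, rfl⟩ := (hPn m m').1 c1
    refine ⟨L₂, Nat.le_add_left _ _, lcmerge_const c6.le
      (h₂ x z y x' z' y' a1 a2 a3 a4 e f he hf hc) fun u t v b1 b2 b3 => ?_⟩
    rcases b3 with b3 | b3 <;> rcases g8 with g8 | g8
    · exact hCl _ _ _ b3 c6 (hX u t v x' z' y' b1 a2
        (((b2.symm.trans (hD _ _ _ x z y g7 a1 g8)).trans a3).mono (by omega)) (b3.trans c6))
    · exact hCl _ _ _ b3 c6 (g8 ▸ hX u t v _ _ _ b1 g7 (b2.symm.mono (by omega))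
        (g8 ▸ b3.trans c6))
    · exact hCl _ _ _ c6 b3 (g8 ▸ hX _ _ _ u t v g7 b1 (b2.mono (by omega)) (g8 ▸ c6.trans b3))
    · exact hCl _ _ _ c6 b3 (hX x z y u t v a1 b1
        (((a3.trans (hD x' z' y' _ _ _ a2 g7 g8.symm)).trans b2).mono (by omega)) (c6.trans b3))
  · have g8 : ht w = m := le_antisymm g6 g5
    refine ⟨L₁, Nat.le_add_right _ _, lcmerge_const le_rfl (h₁ m e f he hf hc)
      fun u t v b1 b2 b3 => ?_⟩
    rcases b3 with b3 | b3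
    · exact c4 _ ((hPn _ _).2 ⟨u, t, v, _, _, _, b1, g7, b2.symm, g8 ▸ b3, rfl, g8⟩)
    · exact c5 _ ((hPn _ _).2 ⟨_, _, _, u, t, v, g7, b1, b2, g8 ▸ b3, g8, rfl⟩)

end KKC.LC
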