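import Pool.Agent.Lib.MP_e1e491_gt.LCExc
import Pool.Agent.Lib.MP_e1e491_gt.LCMerge

/-! The height function of a chain. -/

namespace KKC.LC

open Set
open scoped Pointwise

variable {G Z : Type} [Group G] [MetricSpace Z] [MulAction G Z] [CompactSpace Z] {H : HB G Z} {K : ℕ}
  {W : Walls H K} {c : ℕ → Set Z} {a b : G}

theorem lcplat_order (hc : W.Ch c a b) (k : ℕ) :
    ∃ (Λ : Type) (_ : LinearOrder Λ) (_ : BoundedOrder Λ) (ht : G → Λ) (val : Λ → Set (Set Z)),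
      (∀ v, val (ht v) = W.hgt c k v) ∧ (∀ p q, p < q ↔ val p ⊂ val q) ∧
      (∀ p q, val p = val q → p = q) ∧ val ⊥ = ∅ ∧ val ⊤ = W.CC c k := by
  classical
  have hch : IsChain (· ≤ ·) (range (W.hgt c k)) := by
    rintro _ ⟨v, rfl⟩ _ ⟨w, rfl⟩ -
    exact hc.hgt_total v w
  have ha : W.hgt c k a = ∅ := (hc.hgt_eq_empty a).2 (hc.ha k)
  have hb : W.hgt c k b = W.CC c k := (hc.hgt_eq_top b).2 fun ⟨l, hl⟩ => hc.hb l hl
  let i1 : LinearOrder (range (W.hgt c k)) := hch.linearOrder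
  let i2 : BoundedOrder (range (W.hgt c k)) :=
    { bot := ⟨W.hgt c k a, a, rfl⟩
      bot_le := fun p => show W.hgt c k a ⊆ p.1 from ha ▸ empty_subset _
      top := ⟨W.hgt c k b, b, rfl⟩
      le_top := by
        rintro ⟨_, v, rfl⟩
        show W.hgt c k v ⊆ W.hgt c k b
        rw [hb]
        exact fun U hU => hU.1 }
  exact ⟨range (W.hgt c k), i1, i2, fun v => ⟨W.hgt c k v, v, rfl⟩, Subtype.val, fun _ => rfl,
    fun _ _ => Iff.rfl, fun _ _ h => Subtype.ext h, ha, hb⟩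

omit [CompactSpace Z] in
theorem lcplat_gate {Λ : Type} [LinearOrder Λ] {ht : G → Λ} {m m' : Λ}
    {e : G × G} (he : Gated (Nr H K) {v | ht v < m} {v | m' < ht v} e) :
    ∃ z, Tp H K ht e.1 z e.2 ∧ m ≤ ht z ∧ ht z ≤ m' := by
  obtain ⟨⟨h1, h2, h3⟩, z, h4, h5, h6, h7⟩ := he
  have h8 : m ≤ ht z := not_lt.1 h4
  have h9 : ht z ≤ m' := not_lt.1 h5
  exact ⟨z, ⟨h6, h7, h1, lt_of_lt_of_le h2 h8, lt_of_le_of_lt h9 h3⟩, h8, h9⟩

/-- `Λ` = the range of `hgt c k` with inclusion (`Ch.hgt_total`; bottom `hgt a = ∅`, top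
`hgt b = CC`). `D = L₁` from `flist 0`, `L₂` from `flist (K * L₁)`, `k₀` from `Ch.exc`. `Cl p r` means
that `r \ p` has at most one element. Gated edges of a level (or of two close levels) are ends of
tripods of these levels: finitely many by `Ch.trip_finite`; `Trip.colL_eq`, `Trip.colR_eq` turn the
colours into the intrinsic ones. Apply `merge`. -/
theorem Walls.Ch.plat (hc : W.Ch c a b) : ∃ L k₀ : ℕ, ∀ k, k₀ ≤ k →
    ∃ (Λ : Type) (_ : LinearOrder Λ) (_ : BoundedOrder Λ) (ht : G → Λ),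
      (∀ v, ht v = ⊥ ↔ v ∈ W.A (c k)) ∧ (∀ v, ht v = ⊤ ↔ v ∉ W.Ainf c) ∧ Plat (Nr H K) ht L := by
  obtain ⟨L₁, hL₁⟩ := W.flist 0
  obtain ⟨L₂, hL₂⟩ := W.flist (K * L₁)
  obtain ⟨k₀, hk₀⟩ := hc.exc (K * L₂ + 2 * (K * L₁) + L₁)
  refine ⟨L₁ + L₂, k₀, fun k hk => ?_⟩
  obtain ⟨Λ, i1, i2, ht, val, hv, hlt, hinj, hbot, htop⟩ := lcplat_order hc k
  have hT : ∀ x z y, Tp H K ht x z y ↔ W.Trip c k x z y := fun x z y => by
    simp only [Tp, Walls.Trip, hlt, hv]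
  have hL : ∀ x z y, Tp H K ht x z y → W.colL x z y = {v | ht v < ht z} := fun x z y h => by
    rw [((hT x z y).1 h).colL_eq hc]
    simp only [hlt, hv]
  have hR : ∀ x z y, Tp H K ht x z y → W.colR x z y = {v | ht z < ht v} := fun x z y h => by
    rw [((hT x z y).1 h).colR_eq hc]
    simp only [hlt, hv]
  have hF : ∀ m : Λ, {e : G × G | ∃ z, Tp H K ht e.1 z e.2 ∧ ht z = m}.Finite := fun m => by
    refine ((hc.trip_finite k (val m)).image fun t => (t.1, t.2.2)).subset ?_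
    rintro e ⟨z, h1, h2⟩
    exact ⟨(e.1, z, e.2), ⟨(hT _ _ _).1 h1, by rw [← h2, hv]⟩, rfl⟩
  have hF₁ : ∀ m : Λ, {e | Gated (Nr H K) {v | ht v < m} {v | m < ht v} e}.Finite := fun m => by
    refine (hF m).subset fun e he => ?_
    obtain ⟨z, h1, h2, h3⟩ := lcplat_gate he
    exact ⟨z, h1, le_antisymm h3 h2⟩
  have hCl : ∀ p q r : Λ, p < q → q < r → ¬ (val r \ val p).Subsingleton := by
    intro p q r h1 h2 h3
    have h4 := (hlt _ _).1 h1
    have h5 := (hlt _ _).1 h2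
    obtain ⟨U, hU, hU'⟩ := exists_of_ssubset h4
    obtain ⟨V, hV, hV'⟩ := exists_of_ssubset h5
    have h6 : U = V := h3 ⟨h5.1 hU, hU'⟩ ⟨hV, fun h => hV' (h4.1 h)⟩
    exact hV' (h6 ▸ hU)
  have hX : ∀ x z y x' z' y', Tp H K ht x z y → Tp H K ht x' z' y' →
      Nr H (K * L₂ + 2 * (K * L₁) + L₁) x x' → ht z < ht z' →
      (val (ht z') \ val (ht z)).Subsingleton := fun x z y x' z' y' h h' hn _ => by
    rw [hv, hv]
    exact hk₀ k hk x z y x' z' y' ((hT _ _ _).1 h) ((hT _ _ _).1 h') hn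
  have key : ∀ m e f, Gated (Nr H K) {v | ht v < m} {v | m < ht v} e →
      Gated (Nr H K) {v | ht v < m} {v | m < ht v} f → Nr H L₁ e.1 f.1 ∧
      (Conn (Adj (Nr H K)) (Ed (Nr H K) {v | ht v < m} {v | m < ht v}) e f →
      Wk (Adj (Nr H K)) (Ed (Nr H K) {v | ht v < m} {v | m < ht v}) L₁ e f) := by
    intro m e f he hf
    obtain ⟨z, h1, h2, h3⟩ := lcplat_gate he
    obtain rfl : ht z = m := le_antisymm h3 h2
    have h4 := hL₁ e.1 z e.2 e.1 z e.2 h1.1 h1.2.2.1 h1.1 h1.2.2.1 ((nr_rs H 0).refl _)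
    rw [hL _ _ _ h1, hR _ _ _ h1] at h4
    exact h4 (hF₁ _) e f he hf
  have hG : ∀ x z y, Tp H K ht x z y →
      Gated (Nr H K) {v | ht v < ht z} {v | ht z < ht v} (x, y) := fun x z y h =>
    ⟨⟨h.2.2.1, h.2.2.2.1, h.2.2.2.2⟩, z, lt_irrefl (ht z), lt_irrefl (ht z), h.1, h.2.1⟩
  obtain ⟨ht', h1, h2, h3⟩ := merge (H := H) (K := K) ht
    (fun p r => (val r \ val p).Subsingleton) hCl (D := L₁) (L₁ := L₁) (L₂ := L₂)
    (fun x z y x' z' y' h h' hz => (key (ht z) (x, y) (x', y') (hG _ _ _ h)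
      (hz ▸ hG _ _ _ h')).1)
    (fun m e f he hf => (key m e f he hf).2)
    (fun x z y x' z' y' h h' hn hz e f he hf => by
      have h4 := hL₂ x z y x' z' y' h.1 h.2.2.1 h'.1 h'.2.2.1 hn
      rw [hL _ _ _ h, hR _ _ _ h'] at h4
      refine (h4 (((hF (ht z)).union (hF (ht z'))).subset fun d hd => ?_) e f he hf).2
      obtain ⟨w, h5, h6, h7⟩ := lcplat_gate hd
      rcases h6.eq_or_lt with h8 | h8
      · exact Or.inl ⟨w, h5, h8.symm⟩
      rcases h7.eq_or_lt with h9 | h9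
      · exact Or.inr ⟨w, h5, h9⟩
      exact absurd (hX x z y x' z' y' h h' (hn.mono (by omega)) hz) (hCl _ _ _ h8 h9))
    hX
  refine ⟨Λ, i1, i2, ht', fun v => ?_, fun v => ?_, h3⟩
  · rw [h1, ← hc.hgt_eq_empty v, ← hv, ← hbot]
    exact ⟨congrArg val, hinj _ _⟩
  · rw [h2, ← hc.hgt_eq_top (k := k) v, ← hv, ← htop]
    exact ⟨congrArg val, hinj _ _⟩

end KKC.LC
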