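import Pool.Agent.Lib.MP_e1e491_gt.LCWk

/-! Sides of cut points. -/

namespace KKC.LC

open Set
open scoped Pointwise

section Top

variable {Z : Type} [MetricSpace Z] {U V : Set Z} {c : Z}

theorem Side.cl_eq (hU : Side U) (h : closure U \ U = {c}) : closure U = insert c U := by
  rw [← sdiff_union_of_subset (subset_closure (s := U)), h, singleton_union]

theorem Side.opp_opp (hU : Side U) : opp (opp U) = U := by
  rw [opp, hU.cl, compl_compl]

theorem Side.pt_opp (hU : Side U) : closure (opp U) \ opp U = closure U \ U := by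
  rw [hU.cl, opp, sdiff_compl, inter_comm, sdiff_eq]

theorem Side.other (hU : Side U) : Side (opp U) := by
  refine ⟨isClosed_closure.isOpen_compl, hU.ne', ?_, ?_, ?_⟩
  · rw [hU.opp_opp]
    exact hU.ne
  · rw [hU.opp_opp, opp, compl_compl]
  · rw [hU.pt_opp]
    exact hU.pt

theorem opp_anti (h : U ⊆ V) : opp V ⊆ opp U := compl_subset_compl.2 (closure_mono h)

theorem Nest.other (hU : Side U) (hV : Side V) (h : Nest U V) : Nest (opp U) (opp V) := by
  rcases h with h | h | h | h | h
  · exact Or.inl (by rw [h])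
  · refine Or.inr (Or.inr (Or.inl ?_))
    rw [hV.cl]
    exact compl_subset_compl.2 h
  · refine Or.inr (Or.inl ?_)
    rw [hU.cl]
    exact compl_subset_compl.2 h
  · refine Or.inr (Or.inr (Or.inr (Or.inr ?_)))
    rwa [hU.opp_opp, hV.opp_opp]
  · exact Or.inr (Or.inr (Or.inr (Or.inl h)))

/-- The other three alternatives are impossible (`ne`, `ne'`). -/
theorem Nest.lt (hU : Side U) (hV : Side V) (h : Nest U V) (hUV : U ⊆ V) (hne : U ≠ V) :
    closure U ⊆ V := by
  rcases h with h | h | h | h | h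
  · exact absurd h hne
  · exact h
  · exact absurd (hUV.antisymm (subset_closure.trans h)) hne
  · obtain ⟨x, hx⟩ := hU.ne
    exact absurd (hUV hx) (disjoint_left.1 h hx)
  · obtain ⟨x, hx⟩ := hV.ne'
    exact absurd hx (disjoint_left.1 h (opp_anti hUV hx))

/-- A point of `U` and the cut point. -/
theorem Side.big (hU : Side U) : ∃ δ > 0, Big δ (closure U) := by
  obtain ⟨x, hx⟩ := hU.ne
  obtain ⟨c, hc⟩ := hU.pt
  have h1 : c ∈ closure U \ U := hc ▸ mem_singleton c
  exact ⟨dist x c, dist_pos.2 fun h => h1.2 (h ▸ hx), x, subset_closure hx, c, h1.1, le_rfl⟩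

variable [PreconnectedSpace Z]

theorem lcside_cl (hU : IsOpen U) (hne : U.Nonempty) (hc : c ∉ U) (h : IsClosed (insert c U)) :
    closure U = insert c U := by
  have h1 : closure U ⊆ insert c U := closure_minimal (subset_insert c U) h
  refine h1.antisymm (insert_subset ?_ subset_closure)
  by_contra h2
  have h3 : closure U ⊆ U := fun x hx => (h1 hx).resolve_left fun h4 => h2 (h4 ▸ hx)
  have h4 := IsClopen.eq_univ ⟨closure_subset_iff_isClosed.1 h3, hU⟩ hne
  exact hc (h4 ▸ mem_univ c)

theorem lcside_part {S O u v : Set Z} (hS : IsClosed S) (hO : IsOpen O) (hOS : O ⊆ S)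
    (hu : IsClosed u) (hv : IsClosed v) (h1 : S ⊆ u ∪ v) (h2 : S ∩ (u ∩ v) = ∅)
    (h3 : S ∩ v ⊆ O) (hc : c ∉ O) : S ⊆ u := by
  have h4 : S ∩ v = O \ u := by
    refine Subset.antisymm (fun x hx => ⟨h3 hx, fun h5 => ?_⟩) fun x hx =>
      ⟨hOS hx.1, (h1 (hOS hx.1)).resolve_left hx.2⟩
    exact absurd h2 (Nonempty.ne_empty ⟨x, hx.1, h5, hx.2⟩)
  intro x hx
  refine (h1 hx).resolve_right fun h5 => ?_
  have h6 := IsClopen.eq_univ ⟨hS.inter hv, h4 ▸ hO.sdiff hu⟩ ⟨x, hx, h5⟩
  exact hc (h3 (h6 ▸ mem_univ c))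

/-- If `c` were not in the closure of `U`, then `U` would be clopen; same for the other side. -/
theorem side_of_cut (hU : IsOpen U) (hne : U.Nonempty) (hc : c ∉ U) (hV : IsOpen (insert c U)ᶜ)
    (hne' : (insert c U)ᶜ.Nonempty) : Side U ∧ closure U \ U = {c} := by
  have h1 := lcside_cl hU hne hc (isOpen_compl_iff.1 hV)
  have h2 : insert c (insert c U)ᶜ = Uᶜ := by
    ext x
    by_cases hx : x = c
    · simp [hx, hc]
    · simp [hx]
  have h3 := lcside_cl hV hne' (fun h => h (mem_insert c U)) (h2 ▸ hU.isClosed_compl)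
  have h4 : closure U \ U = {c} := by
    rw [h1, insert_sdiff_of_notMem _ hc, sdiff_self]
    simp
  refine ⟨⟨hU, hne, ?_, ?_, c, h4⟩, h4⟩
  · rwa [opp, h1]
  · rw [opp, h1, h3, h2]

/-- `isPreconnected_iff_subset_of_disjoint_closed`: the part without the cut point is clopen. -/
theorem Side.conn (hU : Side U) : IsPreconnected (closure U) := by
  obtain ⟨c, hc⟩ := hU.pt
  have h1 : c ∈ closure U \ U := hc ▸ mem_singleton c
  have key : ∀ u v : Set Z, IsClosed u → IsClosed v → closure U ⊆ u ∪ v →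
      closure U ∩ (u ∩ v) = ∅ → c ∈ u → closure U ⊆ u := by
    intro u v hu hv h2 h3 h4
    refine lcside_part isClosed_closure hU.op subset_closure hu hv h2 h3 (fun x hx => ?_) h1.2
    rcases (hU.cl_eq hc ▸ hx.1 : x ∈ insert c U) with rfl | h5
    · exact absurd h3 (Nonempty.ne_empty ⟨x, hx.1, h4, hx.2⟩)
    · exact h5
  refine isPreconnected_iff_subset_of_disjoint_closed.2 fun u v hu hv h2 h3 => ?_
  rcases h2 h1.1 with h4 | h4
  · exact Or.inl (key u v hu hv h2 h3 h4)
  · exact Or.inr (key v u hv hu (union_comm u v ▸ h2) (inter_comm u v ▸ h3) h4)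

/-- The closed set `closure U \ V` meets `closure V` and `Uᶜ` in one point each. A closed part
without both points is clopen; if the points are in different parts, add `closure V` to one and
`Uᶜ` to the other. -/
theorem Side.mid (hU : Side U) (hV : Side V) (h : closure V ⊆ U) :
    IsPreconnected (closure U \ V) := by
  obtain ⟨c, hc⟩ := hU.pt
  obtain ⟨d, hd⟩ := hV.pt
  have c1 : c ∈ closure U \ U := hc ▸ mem_singleton c
  have d1 : d ∈ closure V \ V := hd ▸ mem_singleton d
  have c2 : ∀ x ∈ closure U, x ∉ U → x = c := fun x h1 h2 =>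
    (hc ▸ (⟨h1, h2⟩ : x ∈ closure U \ U) : x ∈ ({c} : Set Z))
  have d2 : ∀ x ∈ closure V, x ∉ V → x = d := fun x h1 h2 =>
    (hd ▸ (⟨h1, h2⟩ : x ∈ closure V \ V) : x ∈ ({d} : Set Z))
  have cS : c ∈ closure U \ V := ⟨c1.1, fun h1 => c1.2 (h (subset_closure h1))⟩
  have dS : d ∈ closure U \ V := ⟨subset_closure (h d1.1), d1.2⟩
  have hS : IsClosed (closure U \ V) := isClosed_closure.sdiff hV.op
  have key : ∀ u v : Set Z, IsClosed u → IsClosed v → closure U \ V ⊆ u ∪ v →
      closure U \ V ∩ (u ∩ v) = ∅ → c ∈ u → closure U \ V ⊆ u := by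
    intro u v hu hv h2 h3 h4
    have h5 : ∀ x ∈ closure U \ V, x ∈ u → x ∉ v := fun x h6 h7 h8 =>
      absurd h3 (Nonempty.ne_empty ⟨x, h6, h7, h8⟩)
    by_cases h6 : d ∈ u
    · refine lcside_part (O := U \ closure V) hS (hU.op.sdiff isClosed_closure)
        (sdiff_subset_sdiff subset_closure subset_closure) hu hv h2 h3 (fun x hx => ⟨?_, ?_⟩)
        (fun h7 => c1.2 h7.1)
      · by_contra h7
        exact h5 c cS h4 (c2 x hx.1.1 h7 ▸ hx.2)
      · intro h7
        exact h5 d dS h6 (d2 x h7 hx.1.2 ▸ hx.2)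
    · exfalso
      have h7 : ∀ x, x ∈ (closure U \ V ∩ u) ∪ Uᶜ → x ∉ (closure U \ V ∩ v) ∪ closure V := by
        rintro x (h8 | h8) (h9 | h9)
        · exact h5 x h8.1 h8.2 h9.2
        · exact h6 (d2 x h9 h8.1.2 ▸ h8.2)
        · exact h5 c cS h4 (c2 x h9.1.1 h8 ▸ h9.2)
        · exact h8 (h h9)
      rcases isPreconnected_iff_subset_of_disjoint_closed.1 isPreconnected_univ
        ((closure U \ V ∩ u) ∪ Uᶜ) ((closure U \ V ∩ v) ∪ closure V)
        ((hS.inter hu).union hU.op.isClosed_compl) ((hS.inter hv).union isClosed_closure)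
        (fun x _ => by
          by_cases h8 : x ∈ U
          · by_cases h9 : x ∈ V
            · exact Or.inr (Or.inr (subset_closure h9))
            · have h10 : x ∈ closure U \ V := ⟨subset_closure h8, h9⟩
              rcases h2 h10 with h11 | h11
              · exact Or.inl (Or.inl ⟨h10, h11⟩)
              · exact Or.inr (Or.inl ⟨h10, h11⟩)
          · exact Or.inl (Or.inr h8))
        (eq_empty_of_forall_notMem fun x hx => h7 x hx.2.1 hx.2.2) with h8 | h8
      · exact h7 d (h8 (mem_univ d)) (Or.inr d1.1)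
      · exact h7 c (Or.inr c1.2) (h8 (mem_univ c))
  refine isPreconnected_iff_subset_of_disjoint_closed.2 fun u v hu hv h2 h3 => ?_
  rcases h2 cS with h4 | h4
  · exact Or.inl (key u v hu hv h2 h3 h4)
  · exact Or.inr (key v u hv hu (union_comm u v ▸ h2) (inter_comm u v ▸ h3) h4)

/-- The point of `V` lies in `U` or in `opp U`; the closure of the other side is connected and
misses it, so it lies in `V` or in `opp V`. -/
theorem Side.nest_of_ne (hU : Side U) (hV : Side V) (h : closure U \ U ≠ closure V \ V) :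
    Nest U V := by
  obtain ⟨c, hc⟩ := hU.pt
  obtain ⟨d, hd⟩ := hV.pt
  have hcd : d ≠ c := fun h1 => h (by rw [hc, hd, h1])
  have key : ∀ S : Set Z, IsPreconnected S → d ∉ S → S ⊆ V ∨ S ⊆ opp V := by
    intro S hS h1
    refine hS.subset_or_subset hV.op hV.other.op
      (disjoint_left.2 fun x h2 h3 => h3 (subset_closure h2)) fun x hx => ?_
    by_cases h2 : x ∈ closure V
    · rcases (hV.cl_eq hd ▸ h2 : x ∈ insert d V) with rfl | h3
      · exact absurd hx h1
      · exact Or.inl h3
    · exact Or.inr h2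
  by_cases h1 : d ∈ U
  · rcases key Uᶜ (hU.cl ▸ hU.other.conn) (fun h2 => h2 h1) with h2 | h2
    · exact Or.inr (Or.inr (Or.inr (Or.inr (disjoint_left.2 fun x h3 h4 =>
        h4 (subset_closure (h2 fun h5 => h3 (subset_closure h5)))))))
    · exact Or.inr (Or.inr (Or.inl (compl_subset_compl.1 h2)))
  · rcases key (closure U) hU.conn (by
      rw [hU.cl_eq hc]
      exact fun h2 => h2.elim hcd h1) with h2 | h2
    · exact Or.inr (Or.inl h2)
    · exact Or.inr (Or.inr (Or.inr (Or.inl (disjoint_left.2 fun x h3 h4 =>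
        h2 (subset_closure h3) (subset_closure h4)))))

end Top

variable {G Z : Type} [Group G] [MetricSpace Z] [MulAction G Z] (H : HB G Z) {U V : Set Z}

/-- The action of `g` as a homeomorphism. -/
def lcside_hom (g : G) : Z ≃ₜ Z :=
  ⟨MulAction.toPerm g, H.continuous_smul g, H.continuous_smul g⁻¹⟩

include H

/-- `HB.continuous_smul` for `g` and `g⁻¹`. -/
theorem closure_smul (g : G) (U : Set Z) : closure (g • U) = g • closure U := by
  exact ((lcside_hom H g).image_closure U).symm

theorem isOpen_smul (g : G) (hU : IsOpen U) : IsOpen (g • U) := by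
  exact (lcside_hom H g).isOpenMap U hU

theorem opp_smul (g : G) (U : Set Z) : opp (g • U) = g • opp U := by
  rw [opp, opp, closure_smul H, smul_set_compl]

theorem Side.smul (hU : Side U) (g : G) : Side (g • U) := by
  obtain ⟨c, hc⟩ := hU.pt
  refine ⟨isOpen_smul H g hU.op, hU.ne.smul_set, ?_, ?_, g • c, ?_⟩
  · rw [opp_smul H]
    exact hU.ne'.smul_set
  · rw [opp_smul H, closure_smul H, hU.cl, smul_set_compl]
  · rw [closure_smul H, ← smul_set_sdiff, hc, smul_set_singleton]

theorem Nest.smul (h : Nest U V) (g : G) : Nest (g • U) (g • V) := by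
  rw [Nest, closure_smul H, closure_smul H, opp_smul H, opp_smul H]
  rcases h with h | h | h | h | h
  · exact Or.inl (by rw [h])
  · exact Or.inr (Or.inl (smul_set_mono h))
  · exact Or.inr (Or.inr (Or.inl (smul_set_mono h)))
  · exact Or.inr (Or.inr (Or.inr (Or.inl (disjoint_smul_set.2 h))))
  · exact Or.inr (Or.inr (Or.inr (Or.inr (disjoint_smul_set.2 h))))

end KKC.LC
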