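import Pool.Agent.Lib.MP_e1e491_gt.LCEv
import Pool.Agent.Lib.MP_e1e491_gt.LCSd

/-! Walls from a side. -/

namespace KKC.LC

open Set
open scoped Pointwise

section Top

variable {Z : Type} [MetricSpace Z] {U V B : Set Z}

theorem lcwall_sub_opp (hB : IsOpen B) (h : Disjoint B U) : B ⊆ opp U :=
  fun _ hx hc => (disjoint_left.1 (h.closure_right hB)) hx hc

theorem lcwall_opp_sub (U : Set Z) : opp U ⊆ Uᶜ := compl_subset_compl.2 subset_closure

theorem lcwall_disj (hU : Side U) (hV : Side V) (h : Disjoint U V)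
    (hne : closure U \ U ≠ closure V \ V) : Disjoint (closure U) (closure V) := by
  obtain ⟨c, hc⟩ := hU.pt
  obtain ⟨d, hd⟩ := hV.pt
  refine disjoint_left.2 fun x hx hx' => hne ?_
  have h1 : x ∈ closure U \ U := ⟨hx, fun k => lcwall_sub_opp hU.op h k hx'⟩
  have h2 : x ∈ closure V \ V := ⟨hx', fun k => lcwall_sub_opp hV.op h.symm k hx⟩
  rw [hc] at h1 ⊢
  rw [hd] at h2 ⊢
  rw [← mem_singleton_iff.1 h1, ← mem_singleton_iff.1 h2]

/-- The four relative positions. -/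
def lcwall_Q (U B : Set Z) : Prop := B ⊆ U ∨ B ⊆ opp U ∨ U ⊆ B ∨ opp U ⊆ B

theorem lcwall_quad (hU : Side U) (hV : Side V) (h : Nest U V) : lcwall_Q U V := by
  rcases h with rfl | h | h | h | h
  · exact Or.inl Subset.rfl
  · exact Or.inr (Or.inr (Or.inl (subset_closure.trans h)))
  · exact Or.inl (subset_closure.trans h)
  · exact Or.inr (Or.inl (lcwall_sub_opp hV.op h.symm))
  · exact Or.inr (Or.inr (Or.inr (hV.opp_opp ▸ lcwall_sub_opp hU.other.op h)))

theorem lcwall_quad' (hU : Side U) (h : lcwall_Q U V) : lcwall_Q U (opp V) := by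
  rcases h with h | h | h | h
  · exact Or.inr (Or.inr (Or.inr (opp_anti h)))
  · exact Or.inr (Or.inr (Or.inl (hU.opp_opp ▸ opp_anti h)))
  · exact Or.inr (Or.inl (opp_anti h))
  · exact Or.inl (hU.opp_opp ▸ opp_anti h)

/-- Two of the three sets lie in `U`. -/
def lcwall_Two (B : Fin 3 → Set Z) (U : Set Z) : Prop := ∃ i j, i ≠ j ∧ B i ⊆ U ∧ B j ⊆ U

omit [MetricSpace Z] in
theorem lcwall_meet {B : Fin 3 → Set Z} (hB : ∀ i, (B i).Nonempty) (h : lcwall_Two B U)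
    (h' : lcwall_Two B V) : ¬Disjoint U V := by
  obtain ⟨i, j, hij, hi, hj⟩ := h
  obtain ⟨k, l, hkl, hk, hl⟩ := h'
  have e : i = k ∨ i = l ∨ j = k ∨ j = l := by omega
  intro hd
  rcases e with rfl | rfl | rfl | rfl
  · exact (hB i).elim fun x hx => disjoint_left.1 hd (hi hx) (hk hx)
  · exact (hB i).elim fun x hx => disjoint_left.1 hd (hi hx) (hl hx)
  · exact (hB j).elim fun x hx => disjoint_left.1 hd (hj hx) (hk hx)
  · exact (hB j).elim fun x hx => disjoint_left.1 hd (hj hx) (hl hx)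

theorem lcwall_maj {B : Fin 3 → Set Z} (hU : Side U) (ho : ∀ i, IsOpen (B i))
    (hd : ∀ i j, i ≠ j → Disjoint (B i) (B j)) (hq : ∀ i, lcwall_Q U (B i)) :
    lcwall_Two B U ∨ lcwall_Two B (opp U) := by
  have k : ∀ i (T : Set Z), T ⊆ B i → lcwall_Two B (opp T) := fun i T hT =>
    ⟨i + 1, i + 2, by omega, lcwall_sub_opp (ho _) ((hd _ i (by omega)).mono_right hT),
      lcwall_sub_opp (ho _) ((hd _ i (by omega)).mono_right hT)⟩
  by_cases h1 : ∃ i, U ⊆ B i
  · exact Or.inr (h1.elim fun i hi => k i U hi)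
  by_cases h2 : ∃ i, opp U ⊆ B i
  · exact Or.inl (h2.elim fun i hi => hU.opp_opp ▸ k i _ hi)
  have h3 : ∀ i, B i ⊆ U ∨ B i ⊆ opp U := fun i => by
    rcases hq i with h | h | h | h
    · exact Or.inl h
    · exact Or.inr h
    · exact absurd ⟨i, h⟩ h1
    · exact absurd ⟨i, h⟩ h2
  rcases h3 0 with a | a <;> rcases h3 1 with b | b
  · exact Or.inl ⟨0, 1, by decide, a, b⟩
  · exact (h3 2).imp (fun c => ⟨0, 2, by decide, a, c⟩) fun c => ⟨1, 2, by decide, b, c⟩
  · exact (h3 2).imp (fun c => ⟨1, 2, by decide, b, c⟩) fun c => ⟨0, 2, by decide, a, c⟩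
  · exact Or.inr ⟨0, 1, by decide, a, b⟩

theorem lcwall_pts [Infinite Z] : ∃ (z : Fin 3 → Z) (ε : ℝ), 0 < ε ∧
    ∀ i j, i ≠ j → 6 * ε ≤ dist (z i) (z j) := by
  let f := Infinite.natEmbedding Z
  have h : ∀ m n : ℕ, m ≠ n → 0 < dist (f m) (f n) := fun m n h => dist_pos.2 (f.injective.ne h)
  have h1 := h 0 1 (by decide)
  have h2 := h 0 2 (by decide)
  have h3 := h 1 2 (by decide)
  set d := min (dist (f 0) (f 1)) (min (dist (f 0) (f 2)) (dist (f 1) (f 2))) with hd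
  have a1 : d ≤ dist (f 0) (f 1) := min_le_left _ _
  have a2 : d ≤ dist (f 0) (f 2) := (min_le_right _ _).trans (min_le_left _ _)
  have a3 : d ≤ dist (f 1) (f 2) := (min_le_right _ _).trans (min_le_right _ _)
  refine ⟨fun i => f i, d / 6, by positivity, fun i j hij => ?_⟩
  rw [mul_div_cancel₀ _ (by norm_num : (6 : ℝ) ≠ 0)]
  fin_cases i <;> fin_cases j <;> first
    | exact absurd rfl hij
    | assumption
    | (rw [dist_comm]; assumption)

end Top

variable {G Z : Type} [Group G] [MetricSpace Z] [MulAction G Z] [CompactSpace Z] [PreconnectedSpace Z]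
  [Nontrivial Z] (H : HB G Z)

omit [CompactSpace Z] [PreconnectedSpace Z] [Nontrivial Z] in
/-- Vertices near `ξ` map everything far from the pole close to `ξ`. -/
theorem lcwall_conv (ξ : Z) {η ε : ℝ} (hη : 0 < η) (hε : 0 < ε) :
    Ev H ξ {g | dist ξ (H.loc g) < ε ∧ H.sc g < ε ∧
      ∀ x, η ≤ dist x (H.loc g⁻¹) → dist (g • x) ξ < ε} := by
  obtain ⟨C₁, h1, hq⟩ := H.q_cmp
  obtain ⟨C₂, h2, hc⟩ := H.conv
  have hm : 0 < min (ε / 2) (ε / 2 * η / C₂) := by positivity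
  refine ⟨min (ε / 2) (ε / 2 * η / C₂) / C₁, by positivity, fun g hg => ?_⟩
  rw [lt_div_iff₀ (by positivity), mul_comm] at hg
  have h3 := (hq ξ g).2.trans_lt hg
  have h4 : dist ξ (H.loc g) < ε / 2 := ((le_max_left _ _).trans_lt h3).trans_le (min_le_left _ _)
  have h5 := (le_max_right _ _).trans_lt h3
  have h6 := (lt_div_iff₀ (by positivity)).1 (h5.trans_le (min_le_right _ _))
  refine ⟨by linarith, (h5.trans_le (min_le_left _ _)).trans (by linarith), fun x hx => ?_⟩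
  have h7 := (mul_le_mul_of_nonneg_right hx dist_nonneg).trans (hc g x)
  have h8 : dist (g • x) (H.loc g) < ε / 2 := lt_of_mul_lt_mul_left (a := η) (by linarith) hη.le
  linarith [dist_triangle_right (g • x) ξ (H.loc g)]

include H in
omit [PreconnectedSpace Z] [Nontrivial Z] in
/-- One of two sets with disjoint closures has a translate in a given ball. -/
theorem lcwall_small {U V : Set Z} (h : Disjoint (closure U) (closure V)) (z : Z) {ε : ℝ}
    (hε : 0 < ε) : ∃ g : G, g • U ⊆ Metric.ball z ε ∨ g • V ⊆ Metric.ball z ε := by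
  obtain ⟨η, hη, hd⟩ := h.exists_thickenings isClosed_closure.isCompact isClosed_closure
  obtain ⟨g, -, -, hg⟩ := (lcwall_conv H z hη hε).nonempty
  refine ⟨g, ?_⟩
  by_cases hp : H.loc g⁻¹ ∈ Metric.thickening η (closure U)
  · refine Or.inr ?_
    rintro _ ⟨x, hx, rfl⟩
    exact hg x (HB.v2_far (disjoint_left.1 hd hp) (subset_closure hx))
  · refine Or.inl ?_
    rintro _ ⟨x, hx, rfl⟩
    exact hg x (HB.v2_far hp (subset_closure hx))

include H in
omit [CompactSpace Z] [PreconnectedSpace Z] [Nontrivial Z] in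
theorem lcwall_pair {W : Set Z} (hW : Side W) (hn : ∀ g : G, Nest W (g • W))
    (hf : ∀ c : Z, ∃ g : G, g • c ≠ c) : ∃ U V : Set Z, (∃ g : G, U = g • W ∨ U = g • opp W) ∧
      (∃ g : G, V = g • W ∨ V = g • opp W) ∧ Disjoint (closure U) (closure V) := by
  obtain ⟨c, hc⟩ := hW.pt
  obtain ⟨g, hg⟩ := hf c
  have hV := hW.smul H g
  have hne : closure W \ W ≠ closure (g • W) \ g • W := by
    rw [closure_smul H, ← smul_set_sdiff, hc, smul_set_singleton]
    exact fun h => hg (singleton_injective h).symm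
  have e1 : ∃ k : G, W = k • W ∨ W = k • opp W := ⟨1, Or.inl (one_smul _ _).symm⟩
  have e2 : ∃ k : G, opp W = k • W ∨ opp W = k • opp W := ⟨1, Or.inr (one_smul _ _).symm⟩
  have e3 : ∃ k : G, g • W = k • W ∨ g • W = k • opp W := ⟨g, Or.inl rfl⟩
  have e4 : ∃ k : G, opp (g • W) = k • W ∨ opp (g • W) = k • opp W :=
    ⟨g, Or.inr (opp_smul H g W)⟩
  rcases hn g with h | h | h | h | h
  · exact absurd (by rw [← h]) hne
  · exact ⟨_, _, e1, e4, hV.cl ▸ disjoint_compl_right.mono_left h⟩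
  · exact ⟨_, _, e3, e2, hW.cl ▸ disjoint_compl_right.mono_left h⟩
  · exact ⟨_, _, e1, e3, lcwall_disj hW hV h hne⟩
  · exact ⟨_, _, e2, e4, lcwall_disj hW.other hV.other h (by rwa [hW.pt_opp, hV.pt_opp])⟩

omit [CompactSpace Z] [PreconnectedSpace Z] [Nontrivial Z] in
theorem lcwall_lim {B : Fin 3 → Set Z} {z : Fin 3 → Z} {ε : ℝ} (hε : 0 < ε)
    (hz : ∀ i j, i ≠ j → 6 * ε ≤ dist (z i) (z j)) (hB : ∀ i, B i ⊆ Metric.ball (z i) ε)
    {O : Set Z} (hO : IsOpen O) {ξ : Z} (hξ : ξ ∈ O) :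
    Ev H ξ {g | lcwall_Two (fun i => g • B i) O} := by
  obtain ⟨r, hr, hb⟩ := Metric.isOpen_iff.1 hO ξ hξ
  refine (lcwall_conv H ξ hε hr).mono fun g hg => ?_
  have k : ∀ i, 2 * ε ≤ dist (z i) (H.loc g⁻¹) → g • B i ⊆ O := by
    rintro i hi _ ⟨x, hx, rfl⟩
    refine hb (hg.2.2 x ?_)
    have := Metric.mem_ball.1 (hB i hx)
    linarith [dist_triangle_left (z i) (H.loc g⁻¹) x]
  by_cases h : ∃ i, dist (z i) (H.loc g⁻¹) < 2 * ε
  · obtain ⟨i, hi⟩ := h
    have k' : ∀ j, j ≠ i → g • B j ⊆ O := fun j hj => k j (by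
      linarith [hz j i hj, dist_triangle_right (z j) (z i) (H.loc g⁻¹)])
    exact ⟨i + 1, i + 2, by omega, k' _ (by omega), k' _ (by omega)⟩
  · exact ⟨0, 1, by decide, k 0 (not_lt.1 fun e => h ⟨0, e⟩), k 1 (not_lt.1 fun e => h ⟨1, e⟩)⟩

omit [CompactSpace Z] [PreconnectedSpace Z] [Nontrivial Z] in
theorem lcwall_up {B : Fin 3 → Set Z} {z : Fin 3 → Z} {ε : ℝ} (hε : 0 < ε)
    (hz : ∀ i j, i ≠ j → 6 * ε ≤ dist (z i) (z j)) (hB : ∀ i, B i ⊆ Metric.ball (z i) ε)
    (ho : ∀ i, IsOpen (B i)) (hne : ∀ i, (B i).Nonempty) : ∃ K₀ : ℕ, ∀ (U : Set Z) (g : G),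
    lcwall_Two (fun i => g • B i) U →
      ∃ w, Nr H K₀ g w ∧ lcwall_Two (fun i => w • B i) U ∧ H.len g < H.len w := by
  obtain ⟨C₁, h1, hq⟩ := H.q_cmpG
  have hC := H.hC
  obtain ⟨κ, hκ⟩ : ∃ κ, κ = 2 * ε / (C₁ * H.C) := ⟨_, rfl⟩
  have hκ0 : 0 < κ := by rw [hκ]; positivity
  have hh : ∀ i, ∃ h : G, lcwall_Two (fun k => h • B k) (B i) ∧ dist (z i) (H.loc h) < 2 * ε ∧
      H.sc h < κ ^ 2 := fun i => by
    obtain ⟨x, hx⟩ := hne i
    obtain ⟨h, a1, a2, a3, -⟩ := ((lcwall_lim H hε hz hB (ho i) hx).inter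
      (lcwall_conv H x hε (lt_min hε (pow_pos hκ0 2)))).nonempty
    refine ⟨h, a1, ?_, a3.trans_le (min_le_right _ _)⟩
    have := Metric.mem_ball.1 (hB i hx)
    linarith [dist_triangle_left (z i) (H.loc h) x, min_le_left ε (κ ^ 2)]
  choose h h2 h3 h4 using hh
  refine ⟨Finset.univ.sup fun i => H.len (h i), fun U g ⟨i, j, hij, hi, hj⟩ => ?_⟩
  have k : ∀ i, g • B i ⊆ U → κ ≤ H.q (.inl g⁻¹) (.inl (h i)) →
      ∃ w, Nr H (Finset.univ.sup fun i => H.len (h i)) g w ∧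
        lcwall_Two (fun i => w • B i) U ∧ H.len g < H.len w := fun i hi hk => by
    obtain ⟨a, b, hab, ha, hb⟩ := h2 i
    refine ⟨g * h i, ?_, ⟨a, b, hab, ?_, ?_⟩, ?_⟩
    · rw [Nr, inv_mul_cancel_left]
      exact Finset.le_sup (f := fun i => H.len (h i)) (Finset.mem_univ i)
    · exact (mul_smul g (h i) (B a)).subset.trans ((smul_set_mono ha).trans hi)
    · exact (mul_smul g (h i) (B b)).subset.trans ((smul_set_mono hb).trans hi)
    · have e := H.q_sq g⁻¹ (h i)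
      rw [inv_inv, H.sc_inv] at e
      by_contra hl
      have e1 : H.sc g ≤ H.sc (g * h i) := H.sc_le_sc.2 (not_lt.1 hl)
      have e2 := mul_le_mul (pow_le_pow_left₀ hκ0.le hk 2) e1 (H.sc_pos g).le (sq_nonneg _)
      have e3 := mul_lt_mul_of_pos_left (h4 i) (H.sc_pos g)
      linarith
  have d1 : 2 * ε ≤ dist (H.loc (h i)) (H.loc (h j)) := by
    linarith [hz i j hij, h3 i, h3 j, dist_triangle4_right (z i) (z j) (H.loc (h i)) (H.loc (h j))]
  have d2 := (d1.trans (le_max_left _ _)).trans (hq (h i) (h j)).2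
  have d3 := H.ultra (.inl (h i)) (.inl g⁻¹) (.inl (h j))
  have d4 : κ ≤ max (H.q (.inl (h i)) (.inl g⁻¹)) (H.q (.inl g⁻¹) (.inl (h j))) := by
    rw [hκ, div_le_iff₀ (by positivity)]
    have := mul_le_mul_of_nonneg_left d3 (by linarith : 0 ≤ C₁)
    linarith
  rcases le_max_iff.1 d4 with d | d
  · exact k i hi (H.q_comm _ _ ▸ d)
  · exact k j hj d

omit [CompactSpace Z] [PreconnectedSpace Z] [Nontrivial Z] in
theorem lcwall_mp {K : ℕ} {Φ : Set G} (hΦ : Φ.Finite) : ∃ D : Set G, D.Finite ∧ ∀ X E : Set G,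
    (∀ g ∈ X, ∃ w, Nr H K g w ∧ w ∈ X ∧ H.len g < H.len w) → E.Finite → E ⊆ X →
    (∀ v ∈ E, ∀ w, Nr H K v w → w ∈ E ∨ w ∉ X ∨ w ∈ Φ) → E ⊆ D := by
  obtain ⟨n, hn⟩ := (hΦ.image H.len).bddAbove
  refine ⟨_, H.fin n, fun X E hX hE hEX h v hv => ?_⟩
  obtain ⟨g, hg, hm⟩ := exists_max_image E H.len hE ⟨v, hv⟩
  obtain ⟨w, h1, h2, h3⟩ := hX g (hEX hg)
  rcases h g hg w h1 with k | k | k
  · exact absurd (hm w k) (not_le.2 h3)
  · exact absurd h2 k
  · exact ((hm v hv).trans h3.le).trans (hn ⟨w, k, rfl⟩)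

/-- `F` = orbit of `W`. Take three sides `B i` (translates of `W` or of `opp W`) with pairwise
disjoint closures; by nesting every `U ∈ F` contains two of the `g • B i` or `opp U` does.
`A U = {g | two of the g • B i lie in U}`. `mp`: for `g ∈ A U` some `g * h i` (`h i` a deep vertex
located in `B i`) is in `A U` and longer than `g`. -/
theorem exists_walls {W : Set Z} (hW : Side W) (hs : {g : G | g • W = W}.Finite)
    (hn : ∀ g : G, Nest W (g • W)) (hf : ∀ c : Z, ∃ g : G, g • c ≠ c) :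
    ∃ K₀, ∀ K, K₀ ≤ K → Nonempty (Walls H K) := by
  classical
  have : Infinite Z := PreconnectedSpace.infinite
  obtain ⟨z, ε, hε, hz⟩ := lcwall_pts (Z := Z)
  obtain ⟨U₁, U₂, ⟨g₁, e₁⟩, ⟨g₂, e₂⟩, hd⟩ := lcwall_pair H hW hn hf
  have hB : ∀ i, ∃ B : Set Z, (∃ g : G, B = g • W ∨ B = g • opp W) ∧ B ⊆ Metric.ball (z i) ε :=
    fun i => by
      obtain ⟨g, h | h⟩ := lcwall_small H hd (z i) hε
      · exact ⟨_, ⟨g * g₁, by rcases e₁ with e | e <;> simp [e, mul_smul]⟩, h⟩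
      · exact ⟨_, ⟨g * g₂, by rcases e₂ with e | e <;> simp [e, mul_smul]⟩, h⟩
  choose B hB1 hB using hB
  have hsd : ∀ (g : G) i, Side (g • B i) := fun g i => by
    obtain ⟨k, e | e⟩ := hB1 i <;> rw [e]
    · exact (hW.smul H k).smul H g
    · exact (hW.other.smul H k).smul H g
  have ho : ∀ i, IsOpen (B i) := fun i => one_smul G (B i) ▸ (hsd 1 i).op
  have hne : ∀ i, (B i).Nonempty := fun i => one_smul G (B i) ▸ (hsd 1 i).ne
  have hfar : ∀ i j, i ≠ j → ∀ x ∈ B i, ∀ y ∈ B j, 4 * ε ≤ dist x y := fun i j hij x hx y hy => by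
    have h1 := Metric.mem_ball.1 (hB i hx)
    have h2 := Metric.mem_ball.1 (hB j hy)
    linarith [hz i j hij, dist_triangle4 (z i) x y (z j), dist_comm (z i) x]
  have hdj : ∀ i j, i ≠ j → Disjoint (B i) (B j) := fun i j hij =>
    disjoint_left.2 fun x hx hy => by
      have := hfar i j hij x hx x hy
      rw [dist_self] at this
      linarith
  have hnest : ∀ g k : G, Nest (g • W) (k • W) := fun g k => by
    have := (hn (g⁻¹ * k)).smul H g
    rwa [smul_smul, mul_inv_cancel_left] at this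
  have hmaj : ∀ g k : G, lcwall_Two (fun i => g • B i) (k • W) ∨
      lcwall_Two (fun i => g • B i) (opp (k • W)) := fun g k =>
    lcwall_maj (hW.smul H k) (fun i => (hsd g i).op)
      (fun i j hij => disjoint_smul_set.2 (hdj i j hij)) fun i => by
        obtain ⟨l, e | e⟩ := hB1 i <;> rw [e, smul_smul]
        · exact lcwall_quad (hW.smul H k) (hW.smul H _) (hnest _ _)
        · rw [← opp_smul H]
          exact lcwall_quad' (hW.smul H k)
            (lcwall_quad (hW.smul H k) (hW.smul H _) (hnest _ _))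
  have hco : ∀ g k : G, ¬lcwall_Two (fun i => g • B i) (k • W) ↔
      lcwall_Two (fun i => g • B i) (opp (k • W)) := fun g k =>
    ⟨(hmaj g k).resolve_left, fun h h' => lcwall_meet (fun i => (hsd g i).ne) h' h
      (disjoint_compl_right.mono_right (lcwall_opp_sub _))⟩
  have hbig : ∀ g : G, ∃ δ > 0, ∀ T : Set Z, lcwall_Two (fun i => g • B i) T → Big δ T := by
    intro g
    obtain ⟨C₁, h1, hl⟩ := H.lip
    have := H.sc_pos g
    refine ⟨H.sc g * (4 * ε) / C₁, by positivity, fun T ⟨i, j, hij, hi, hj⟩ => ?_⟩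
    obtain ⟨x, hx⟩ := hne i
    obtain ⟨y, hy⟩ := hne j
    refine ⟨g • x, hi (smul_mem_smul_set hx), g • y, hj (smul_mem_smul_set hy), ?_⟩
    rw [div_le_iff₀ (by positivity), mul_comm _ C₁]
    exact (mul_le_mul_of_nonneg_left (hfar i j hij x hx y hy) this.le).trans (hl g x y).2
  obtain ⟨K₀, hup⟩ := lcwall_up H hε hz hB ho hne
  refine ⟨K₀, fun K hK => ?_⟩
  have hup' : ∀ (U : Set Z), ∀ g ∈ {g : G | lcwall_Two (fun i => g • B i) U},
      ∃ w, Nr H K g w ∧ w ∈ {g : G | lcwall_Two (fun i => g • B i) U} ∧ H.len g < H.len w :=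
    fun U g hg => (hup U g hg).imp fun w hw => ⟨le_trans hw.1 hK, hw.2⟩
  refine ⟨{
    F := range fun g : G => g • W
    A := fun U => {g | lcwall_Two (fun i => g • B i) U}
    N₀ := hs.toFinset.card
    ne := range_nonempty _
    inv := ?_, side := ?_, nest := ?_, stab := ?_, smul := ?_, mono := ?_, chain := ?_,
    lim := ?_, lim' := ?_, mp := ?_, mp' := ?_, big := ?_, big' := ?_ }⟩
  · rintro g _ ⟨k, rfl⟩
    exact ⟨g * k, mul_smul g k W⟩
  · rintro _ ⟨k, rfl⟩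
    exact hW.smul H k
  · rintro _ ⟨k, rfl⟩ _ ⟨l, rfl⟩
    exact hnest k l
  · rintro _ ⟨k, rfl⟩ S hS
    refine Finset.card_le_card_of_injOn (fun g => k⁻¹ * g * k) (fun g hg => ?_) fun a _ b _ h => ?_
    · have := hS g hg
      simp only [Finset.mem_coe, Finite.mem_toFinset, mem_ofPred_eq, mul_smul] at this ⊢
      rw [this, inv_smul_smul]
    · simpa using h
  · intro g v U _
    simp only [mem_ofPred_eq, lcwall_Two, mul_smul, smul_set_subset_smul_set_iff]
  · rintro U - V - h g ⟨i, j, hij, hi, hj⟩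
    exact ⟨i, j, hij, hi.trans h, hj.trans h⟩
  · rintro _ ⟨k, rfl⟩ _ ⟨l, rfl⟩ x y h1 h2 h3 h4
    rcases hnest k l with h | h | h | h | h
    · exact Or.inl h.subset
    · exact Or.inl (subset_closure.trans h)
    · exact Or.inr (subset_closure.trans h)
    · exact absurd h (lcwall_meet (fun i => (hsd x i).ne) h1 h2)
    · exact absurd h (lcwall_meet (fun i => (hsd y i).ne) ((hco y k).1 h3) ((hco y l).1 h4))
  · rintro _ ⟨k, rfl⟩ ξ hξ
    exact lcwall_lim H hε hz hB (hW.smul H k).op hξ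
  · rintro _ ⟨k, rfl⟩ ξ hξ
    exact (lcwall_lim H hε hz hB (hW.smul H k).other.op hξ).mono fun g hg => (hco g k).2 hg
  · intro Φ hΦ
    obtain ⟨D, hD, h⟩ := lcwall_mp H (K := K) hΦ
    exact ⟨D, hD, fun U _ E => h _ E (hup' U)⟩
  · intro Φ hΦ
    obtain ⟨D, hD, h⟩ := lcwall_mp H (K := K) hΦ
    refine ⟨D, hD, ?_⟩
    rintro _ ⟨k, rfl⟩ E hE hEX hw
    refine h _ E (hup' (opp (k • W))) hE (fun g hg => (hco g k).1 (hEX hg)) fun v hv w hn => ?_
    exact (hw v hv w hn).imp_right (Or.imp_left fun a b => (hco w k).2 b a)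
  · intro y
    obtain ⟨δ, hδ, h⟩ := hbig y
    refine ⟨δ, hδ, ?_⟩
    rintro _ ⟨k, rfl⟩ hy
    obtain ⟨i, j, hij, hi, hj⟩ := (hco y k).1 hy
    exact h _ ⟨i, j, hij, hi.trans (lcwall_opp_sub _), hj.trans (lcwall_opp_sub _)⟩
  · intro x
    obtain ⟨δ, hδ, h⟩ := hbig x
    refine ⟨δ, hδ, ?_⟩
    rintro U - ⟨i, j, hij, hi, hj⟩
    exact h _ ⟨i, j, hij, hi.trans subset_closure, hj.trans subset_closure⟩

end KKC.LC
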