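import Pool.Agent.Lib.MP_e1e491_gt.V2

/-! A connected boundary without cut points is locally path connected. -/

namespace KKC

open Set Metric Filter Topology

section Path

variable {Z : Type} [MetricSpace Z]

/-- The points of the subdivision of level `k`. -/
def sixP (c : Z → Z → ℕ → Z) (N : ℕ) (x y : Z) : ℕ → ℕ → Z
  | 0, j => if j = 0 then x else y
  | k + 1, j => c (sixP c N x y k (j / N)) (sixP c N x y k (j / N + 1)) (j % N)

/-- Chains with steps of half the distance give paths. -/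
theorem exists_path_of_half [CompleteSpace Z] {N : ℕ} (hN : 0 < N)
    (h : ∀ x y : Z, ∃ c : ℕ → Z, c 0 = x ∧ c N = y ∧
      ∀ i < N, dist (c i) (c (i + 1)) ≤ dist x y / 2) (x y : Z) :
    ∃ γ : Path x y, ∀ t, dist (γ t) x ≤ (N + 1) * dist x y := by
  choose c c0 cN cs using h
  set p := sixP c N x y with hp
  set d := dist x y with hd
  have hd0 : 0 ≤ d := dist_nonneg
  have e1 : ∀ k a i, i ≤ N → p (k + 1) (N * a + i) = c (p k a) (p k (a + 1)) i := by
    intro k a i hi
    rcases hi.lt_or_eq with hi | rfl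
    · show c (p k ((N * a + i) / N)) (p k ((N * a + i) / N + 1)) ((N * a + i) % N) = _
      rw [Nat.mul_add_div hN, Nat.div_eq_of_lt hi, Nat.mul_add_mod, Nat.mod_eq_of_lt hi, add_zero]
    · show c (p k ((i * a + i) / i)) (p k ((i * a + i) / i + 1)) ((i * a + i) % i) = _
      rw [Nat.mul_add_div hN, Nat.div_self hN, Nat.mul_add_mod, Nat.mod_self, c0, cN]
  have e2 : ∀ k j, dist (p k j) (p k (j + 1)) ≤ d / 2 ^ k := by
    intro k
    induction k with
    | zero =>
      intro j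
      show dist (if j = 0 then x else y) (if j + 1 = 0 then x else y) ≤ _
      rw [if_neg (Nat.succ_ne_zero j)]
      split_ifs <;> simp [hd]
    | succ k ih =>
      intro j
      have h1 := Nat.mod_lt j hN
      rw [← Nat.div_add_mod j N, add_assoc, e1 _ _ _ h1.le, e1 _ _ _ h1]
      refine (cs _ _ _ h1).trans ?_
      rw [pow_succ, ← div_div]
      linarith [ih (j / N)]
  have e3 : ∀ u v : Z, ∀ i ≤ N, dist u (c u v i) ≤ i * (dist u v / 2) := by
    intro u v i
    induction i with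
    | zero => intro _; simp [c0]
    | succ i ih =>
      intro hi
      have := dist_triangle u (c u v i) (c u v (i + 1))
      push_cast
      linarith [ih (by omega), cs u v i hi]
  set f : ℕ → ℝ → Z := fun k t => p k ⌊t * N ^ k⌋₊ with hf
  have e4 : ∀ t k, dist (f k t) (f (k + 1) t) ≤ N * d / 2 / 2 ^ k := by
    intro t k
    have h1 : ⌊t * (N : ℝ) ^ k⌋₊ = ⌊t * (N : ℝ) ^ (k + 1)⌋₊ / N := by
      rw [← Nat.floor_div_natCast, pow_succ, ← mul_assoc,
        mul_div_cancel_right₀ _ (by positivity : (N : ℝ) ≠ 0)]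
    have h2 := Nat.mod_lt ⌊t * (N : ℝ) ^ (k + 1)⌋₊ hN
    have h3 := e3 (p k ⌊t * (N : ℝ) ^ k⌋₊) (p k (⌊t * (N : ℝ) ^ k⌋₊ + 1)) _ h2.le
    have h4 : f (k + 1) t = c (p k ⌊t * (N : ℝ) ^ k⌋₊) (p k (⌊t * (N : ℝ) ^ k⌋₊ + 1))
        (⌊t * (N : ℝ) ^ (k + 1)⌋₊ % N) := by
      rw [h1]
      rfl
    rw [h4]
    refine h3.trans ?_
    have h5 : ((⌊t * (N : ℝ) ^ (k + 1)⌋₊ % N : ℕ) : ℝ) ≤ N := by exact_mod_cast h2.le
    calc _ ≤ (N : ℝ) * (d / 2 ^ k / 2) := by gcongr; exact e2 _ _
      _ = _ := by ring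
  have e5 : ∀ t, ∃ z, Tendsto (fun k => f k t) atTop (𝓝 z) := fun t =>
    cauchySeq_tendsto_of_complete (cauchySeq_of_le_geometric_two (e4 t))
  choose γ hγ using e5
  have e6 : ∀ t k, dist (f k t) (γ t) ≤ N * d / 2 ^ k := fun t k =>
    dist_le_of_le_geometric_two_of_tendsto (e4 t) (hγ t) k
  have e7 : ∀ k s t, s ≤ t → t < s + 1 / (N : ℝ) ^ k → dist (f k s) (f k t) ≤ d / 2 ^ k := by
    intro k s t h1 h2
    have h0 : (0 : ℝ) < (N : ℝ) ^ k := by positivity
    have h3 : ⌊s * (N : ℝ) ^ k⌋₊ ≤ ⌊t * (N : ℝ) ^ k⌋₊ := Nat.floor_mono (by gcongr)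
    have h4 : ⌊t * (N : ℝ) ^ k⌋₊ ≤ ⌊s * (N : ℝ) ^ k⌋₊ + 1 := by
      have h5 : t * (N : ℝ) ^ k < s * (N : ℝ) ^ k + 1 := by
        have := mul_lt_mul_of_pos_right h2 h0
        rwa [add_mul, one_div_mul_cancel h0.ne'] at this
      refine Nat.lt_succ_iff.1 ((Nat.floor_lt' (Nat.succ_ne_zero _)).2 ?_)
      push_cast
      linarith [Nat.lt_floor_add_one (s * (N : ℝ) ^ k)]
    rcases h3.lt_or_eq with h5 | h5
    · have h6 : ⌊t * (N : ℝ) ^ k⌋₊ = ⌊s * (N : ℝ) ^ k⌋₊ + 1 := by omega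
      show dist (p k _) (p k _) ≤ _
      rw [h6]
      exact e2 _ _
    · show dist (p k _) (p k _) ≤ _
      rw [h5, dist_self]
      positivity
  have hc : Continuous γ := by
    refine Metric.continuous_iff.2 fun s ε hε => ?_
    obtain ⟨k, hk⟩ : ∃ k : ℕ, (2 * N + 1) * d / ε < 2 ^ k := pow_unbounded_of_one_lt _ one_lt_two
    refine ⟨1 / (N : ℝ) ^ k, by positivity, fun t ht => ?_⟩
    have h1 : dist (f k t) (f k s) ≤ d / 2 ^ k := by
      rw [Real.dist_eq, abs_lt] at ht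
      rcases le_total s t with h | h
      · rw [dist_comm]
        exact e7 k s t h (by linarith [ht.2])
      · exact e7 k t s h (by linarith [ht.1])
    have h2 := dist_triangle4_left (f k t) (f k s) (γ t) (γ s)
    have h3 : (2 * N + 1) * d / 2 ^ k < ε := by
      rw [div_lt_iff₀ hε] at hk
      rw [div_lt_iff₀ (by positivity)]
      linarith
    have h4 : (2 * N + 1) * d / 2 ^ k = N * d / 2 ^ k + N * d / 2 ^ k + d / 2 ^ k := by ring
    linarith [e6 t k, e6 s k]
  have e8 : ∀ k a, p k (N ^ k * a) = p 0 a := by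
    intro k
    induction k with
    | zero => intro a; rw [pow_zero, one_mul]
    | succ k ih =>
      intro a
      have := e1 k (N ^ k * a) 0 (Nat.zero_le N)
      rw [add_zero, c0, ih] at this
      rw [pow_succ', mul_assoc, this]
  have e9 : ∀ a : ℕ, γ a = p 0 a := fun a => tendsto_nhds_unique (hγ a) (by
    refine tendsto_const_nhds.congr fun k => ?_
    show p 0 a = p k ⌊(a : ℝ) * (N : ℝ) ^ k⌋₊
    rw [← e8 k a, mul_comm, ← Nat.cast_pow, ← Nat.cast_mul, Nat.floor_natCast])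
  refine ⟨⟨⟨fun t => γ t, hc.comp continuous_subtype_val⟩, ?_, ?_⟩, fun t => ?_⟩
  · simpa [hp, sixP] using e9 0
  · simpa [hp, sixP] using e9 1
  · have h1 : dist (f 0 t) x ≤ d := by
      show dist (if _ = 0 then x else y) x ≤ d
      split_ifs
      · simpa using hd0
      · rw [dist_comm]
    have h2 := e6 t 0
    have h3 := dist_triangle_left (γ t) x (f 0 t)
    show dist (γ t) x ≤ _
    rw [pow_zero, div_one] at h2
    linarith

theorem lpc_of_paths {M : ℝ} (hM : 0 < M)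
    (h : ∀ x y : Z, ∃ γ : Path x y, ∀ t, dist (γ t) x ≤ M * dist x y) :
    LocallyPathConnectedSpace Z := by
  refine locallyPathConnectedSpace_iff_pathComponentIn_mem_nhds.2 fun x u hu hx => ?_
  obtain ⟨ε, hε, hb⟩ := Metric.isOpen_iff.1 hu x hx
  filter_upwards [ball_mem_nhds x (div_pos hε hM)] with y hy
  obtain ⟨γ, hγ⟩ := h x y
  refine ⟨γ, fun t => hb ((hγ t).trans_lt ?_)⟩
  rw [mem_ball, lt_div_iff₀ hM, dist_comm] at hy
  linarith

/-- A short step as seen from the pole `b` at height `s`. -/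
def sixR (κ : ℝ) (b : Z × ℝ) (u v : Z) : Prop :=
  dist u v < κ * (max (dist u b.1) b.2 * max (dist v b.1) b.2)

/-- Chains of short steps. -/
def sixC (κ : ℝ) (b : Z × ℝ) (u : Z) : ℕ → Z → Prop
  | 0, v => sixR κ b u v
  | n + 1, v => ∃ w, sixC κ b u n w ∧ sixR κ b w v

theorem sixR_open {X : Type} [TopologicalSpace X] (κ : ℝ) {b : X → Z × ℝ} {u v : X → Z}
    (hb : Continuous b) (hu : Continuous u) (hv : Continuous v) :
    IsOpen {x | sixR κ (b x) (u x) (v x)} :=
  isOpen_lt (by fun_prop) (by fun_prop)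

theorem sixC_open {X : Type} [TopologicalSpace X] (κ : ℝ) {b : X → Z × ℝ} {u : X → Z}
    (hb : Continuous b) (hu : Continuous u) (n : ℕ) :
    ∀ {v : X → Z}, Continuous v → IsOpen {x | sixC κ (b x) (u x) n (v x)} := by
  induction n with
  | zero => exact fun hv => sixR_open κ hb hu hv
  | succ n ih =>
    intro v hv
    have : {x | sixC κ (b x) (u x) (n + 1) (v x)} =
        ⋃ w, {x | sixC κ (b x) (u x) n w} ∩ {x | sixR κ (b x) w (v x)} := by
      ext x
      simp [sixC]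
    rw [this]
    exact isOpen_iUnion fun w => (ih continuous_const).inter (sixR_open κ hb continuous_const hv)

theorem sixR_self {κ : ℝ} (hκ : 0 < κ) {b : Z × ℝ} {v : Z} (hv : 0 < max (dist v b.1) b.2) :
    sixR κ b v v := by
  rw [sixR, dist_self]
  positivity

theorem sixC_mono {κ : ℝ} (hκ : 0 < κ) {b : Z × ℝ} {u v : Z} (hv : 0 < max (dist v b.1) b.2)
    {n m : ℕ} (hnm : n ≤ m) (h : sixC κ b u n v) : sixC κ b u m v := by
  induction hnm with
  | refl => exact h
  | step _ ih => exact ⟨v, ih, sixR_self hκ hv⟩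

theorem sixC_chain {κ : ℝ} {b : Z × ℝ} {u : Z} (n : ℕ) : ∀ {v : Z}, sixC κ b u n v →
    ∃ c : ℕ → Z, c 0 = u ∧ c (n + 1) = v ∧ ∀ i < n + 1, sixR κ b (c i) (c (i + 1)) := by
  induction n with
  | zero =>
    intro v h
    refine ⟨fun i => if i = 0 then u else v, rfl, rfl, fun i hi => ?_⟩
    obtain rfl : i = 0 := by omega
    exact h
  | succ n ih =>
    rintro v ⟨w, h1, h2⟩
    obtain ⟨c, c0, cn, cs⟩ := ih h1
    refine ⟨fun i => if i ≤ n + 1 then c i else v, by simpa using c0, by simp, fun i hi => ?_⟩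
    by_cases h : i < n + 1
    · simpa [h.le, Nat.succ_le_of_lt h] using cs i h
    · obtain rfl : i = n + 1 := by omega
      simpa [cn] using h2

/-- Chains of bounded length that avoid the pole. -/
theorem exists_sixC [CompactSpace Z] [PreconnectedSpace Z]
    (hp : ∀ c : Z, IsPreconnected ({c}ᶜ : Set Z)) {κ η : ℝ} (hκ : 0 < κ) (hη : 0 < η) :
    ∃ n, ∀ (b : Z) (s : ℝ) (u v : Z), 0 ≤ s → s ≤ 1 → η ≤ max (dist u b) s →
      η ≤ max (dist v b) s → sixC κ (b, s) u n v := by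
  set K : Set ((Z × ℝ) × Z × Z) := ((univ ×ˢ Icc 0 1) ×ˢ univ) ∩
    {x | η ≤ max (dist x.2.1 x.1.1) x.1.2 ∧ η ≤ max (dist x.2.2 x.1.1) x.1.2} with hK
  have hKc : IsCompact K := by
    refine ((isCompact_univ.prod isCompact_Icc).prod isCompact_univ).inter_right ?_
    rw [ofPred_and]
    exact (isClosed_le continuous_const (by fun_prop)).inter
      (isClosed_le continuous_const (by fun_prop))
  set O : ℕ → Set ((Z × ℝ) × Z × Z) := fun n =>
    {x | 0 < max (dist x.2.2 x.1.1) x.1.2} ∩ {x | sixC κ x.1 x.2.1 n x.2.2} with hO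
  have hOo : ∀ n, IsOpen (O n) := fun n => (isOpen_lt continuous_const (by fun_prop)).inter
    (sixC_open κ continuous_fst (by fun_prop) n (by fun_prop))
  have hOm : Monotone O := fun n m hnm x hx => ⟨hx.1, sixC_mono hκ hx.1 hnm hx.2⟩
  have hcov : K ⊆ ⋃ n, O n := by
    rintro ⟨⟨b, s⟩, u, v⟩ ⟨⟨⟨-, hs⟩, -⟩, hu, hv⟩
    have hS : IsPreconnected {x : Z | 0 < max (dist x b) s} := by
      rcases hs.1.eq_or_lt with h | h
      · convert hp b using 1
        ext x
        simp [← show (0 : ℝ) = s from h]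
      · convert isPreconnected_univ (α := Z) using 1
        exact eq_univ_of_forall fun x => lt_max_of_lt_right h
    have h1 := hS.induction₂' (fun x y => Relation.TransGen (sixR κ (b, s)) x y)
      (fun x hx => by
        have e1 := (sixR_open κ (b := fun _ : Z => (b, s)) continuous_const
          (continuous_const (y := x)) continuous_id).mem_nhds (sixR_self hκ (b := (b, s)) hx)
        have e2 := (sixR_open κ (b := fun _ : Z => (b, s)) continuous_const continuous_id
          (continuous_const (y := x))).mem_nhds (sixR_self hκ (b := (b, s)) hx)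
        refine nhdsWithin_le_nhds ?_
        filter_upwards [e1, e2] with y h1 h2
        exact ⟨.single h1, .single h2⟩)
      (fun x y z _ _ _ h1 h2 => h1.trans h2) (hη.trans_le hu) (hη.trans_le hv)
    have h2 : ∀ w, Relation.TransGen (sixR κ (b, s)) u w → ∃ n, sixC κ (b, s) u n w := by
      intro w h1
      induction h1 with
      | single h => exact ⟨0, h⟩
      | tail _ h ih =>
        obtain ⟨n, hn⟩ := ih
        exact ⟨n + 1, _, hn, h⟩
    obtain ⟨n, hn⟩ := h2 v h1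
    exact mem_iUnion.2 ⟨n, hη.trans_le hv, hn⟩
  obtain ⟨n, hn⟩ := hKc.elim_directed_cover O hOo hcov hOm.directed_le
  exact ⟨n, fun b s u v h0 h1 hu hv =>
    (hn (show ((b, s), u, v) ∈ K from ⟨⟨⟨trivial, h0, h1⟩, trivial⟩, hu, hv⟩)).2⟩

end Path

namespace HB

variable {G Z : Type} [Group G] [MetricSpace Z] [CompactSpace Z] [MulAction G Z] (H : HB G Z)
include H

/-- The condition of Bestvina and Mess. -/
theorem exists_half [PreconnectedSpace Z] (hp : ∀ c : Z, IsPreconnected ({c}ᶜ : Set Z)) :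
    ∃ N, 0 < N ∧ ∀ x y : Z, ∃ c : ℕ → Z, c 0 = x ∧ c N = y ∧
      ∀ i < N, dist (c i) (c (i + 1)) ≤ dist x y / 2 := by
  obtain ⟨L, hL, hv⟩ := H.view_exists
  obtain ⟨η, hη, hout⟩ := H.view_out L H.C hL H.hC
  obtain ⟨C₁, hC₁, hm⟩ := H.mobZ
  have hC := H.hC
  obtain ⟨n, hn⟩ := exists_sixC hp (κ := 1 / (2 * C₁ * L)) (by positivity) hη
  refine ⟨n + 1, n.succ_pos, fun x y => ?_⟩
  by_cases hxy : x = y
  · exact ⟨fun _ => x, rfl, hxy, fun i _ => by simp [hxy]⟩
  have hd := dist_pos.2 hxy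
  have hr : 0 < dist x y / H.C := by positivity
  obtain ⟨g, hg⟩ := hv x _ hr ((div_le_one (by linarith)).2 (H.dist_le_C x y))
  have e : H.C * (dist x y / H.C) = dist x y := by field_simp
  obtain ⟨c, c0, cn, cs⟩ := sixC_chain n (hn (H.loc g⁻¹) (H.sc g) (g⁻¹ • x) (g⁻¹ • y)
    (H.sc_pos g).le (H.sc_le_one g) (hout g x _ hg x (by rw [e, dist_self]; exact hd.le))
    (hout g x _ hg y (by rw [e, dist_comm])))
  refine ⟨fun i => g • c i, by simp [c0], by simp [cn], fun i hi => ?_⟩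
  have h1 := (hm g (c i) (c (i + 1))).1
  have h2 : dist (c i) (c (i + 1)) < 1 / (2 * C₁ * L) *
    (max (dist (c i) (H.loc g⁻¹)) (H.sc g) * max (dist (c (i + 1)) (H.loc g⁻¹)) (H.sc g)) := cs i hi
  have p0 := H.sc_pos g
  have p1 : 0 < max (dist (c i) (H.loc g⁻¹)) (H.sc g) := lt_max_of_lt_right p0
  have p2 : 0 < max (dist (c (i + 1)) (H.loc g⁻¹)) (H.sc g) := lt_max_of_lt_right p0
  rw [mul_assoc] at h1
  generalize max (dist (c i) (H.loc g⁻¹)) (H.sc g) = A at *
  generalize max (dist (c (i + 1)) (H.loc g⁻¹)) (H.sc g) = B at *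
  have h3 : H.sc g ≤ L * dist x y :=
    hg.2.1.trans (mul_le_mul_of_nonneg_left (div_le_self hd.le hC) (by linarith))
  refine le_of_mul_le_mul_right (h1.trans ?_) (mul_pos p1 p2)
  calc C₁ * (H.sc g * dist (c i) (c (i + 1)))
      ≤ C₁ * ((L * dist x y) * (1 / (2 * C₁ * L) * (A * B))) := by gcongr
    _ = _ := by field_simp

theorem exists_paths [PreconnectedSpace Z] (hp : ∀ c : Z, IsPreconnected ({c}ᶜ : Set Z)) :
    ∃ M : ℝ, 1 ≤ M ∧ ∀ x y : Z, ∃ γ : Path x y, ∀ t, dist (γ t) x ≤ M * dist x y := by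
  obtain ⟨N, hN, h⟩ := H.exists_half hp
  exact ⟨N + 1, by simp, exists_path_of_half hN h⟩

/-- A connected boundary without cut points is locally path connected. -/
theorem lpc_of_nocut [PreconnectedSpace Z] (hp : ∀ c : Z, IsPreconnected ({c}ᶜ : Set Z)) :
    LocallyPathConnectedSpace Z := by
  obtain ⟨M, hM, h⟩ := H.exists_paths hp
  exact lpc_of_paths (by linarith) h

theorem pc_of_nocut [PreconnectedSpace Z] [Nontrivial Z]
    (hp : ∀ c : Z, IsPreconnected ({c}ᶜ : Set Z)) :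
    (∀ y : Z, IsPathConnected ({y}ᶜ : Set Z)) ∧ IsPathConnected (univ : Set Z) := by
  have := H.lpc_of_nocut hp
  refine ⟨fun y => isOpen_compl_singleton.isConnected_iff_isPathConnected.1 ⟨?_, hp y⟩,
    isOpen_univ.isConnected_iff_isPathConnected.1 ⟨univ_nonempty, isPreconnected_univ⟩⟩
  obtain ⟨x, hx⟩ := exists_ne y
  exact ⟨x, hx⟩

end HB

end KKC
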