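import Pool.Agent.Lib.MP_e1e491_gt.LCCore
import Pool.Agent.Lib.MP_e1e491_gt.LCGood
import Pool.Agent.Lib.MP_e1e491_gt.LCCompl
import Pool.Agent.Lib.MP_e1e491_gt.LCAtom
import Pool.Agent.Lib.MP_e1e491_gt.LCWall
import Pool.Agent.Lib.MP_e1e491_gt.LCPlat
import Pool.Agent.Lib.MP_e1e491_gt.LCOne
import Pool.Agent.Lib.MP_e1e491_gt.LCGeo
import Pool.Agent.Lib.MP_e1e491_gt.LcSix

/-! A connected boundary has no cut point and is locally path connected. -/

namespace KKC.LC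

open Set

variable {G Z : Type} [Group G] [MetricSpace Z] [MulAction G Z] [CompactSpace Z]
  [PreconnectedSpace Z] {H : HB G Z} {K : ℕ}

theorem no_chain (hK : GoodK H K) {W : Walls H K} {c : ℕ → Set Z} {a b : G} (hc : W.Ch c a b)
    (hg : ∀ j, ∃ n, j ≤ n ∧ Geo (Nr H K) (W.A (c j)) (a, b) n) : False := by
  obtain ⟨L, k₀, hp⟩ := hc.plat
  obtain ⟨k₁, hk₁⟩ := hc.far (Wk.ball_finite (nr_fin H K) (fun _ => True) (L + 1) a)
  obtain ⟨Λ, _, _, ht, hb, htp, hP⟩ := hp (max k₀ k₁) (le_max_left _ _)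
  have e1 : {v | ht v = ⊥} = W.A (c (max k₀ k₁)) := Set.ext hb
  have e2 : {v | ht v = ⊤} = (W.Ainf c)ᶜ := Set.ext htp
  have hbb : b ∉ W.Ainf c := fun ⟨l, hl⟩ => hc.hb l hl
  have hne : (⊥ : Λ) ≠ ⊤ := fun h =>
    (htp a).1 (h ▸ (hb a).2 (hc.ha _)) ⟨0, hc.ha 0⟩
  obtain ⟨S, n₀, hS, hcore⟩ := core (e₀ := (a, b)) (nr_rs H K) (nr_conn H hK.one_le) hK.h1 hP
    ⟨hc.nr, (hb a).2 (hc.ha _), (htp b).2 hbb⟩ hne (nr_fin H K)
    (by rw [e1, e2]; exact hc.inter_finite _) (fun E hd hE => by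
      have : Nonempty Λ := ⟨⊥⟩
      rw [e2, compl_compl]
      exact hc.one hK (max k₀ k₁) E hd fun m v w h1 h2 h3 =>
        (hE m v w h1 h2 h3).imp (hb w).1 (htp w).1)
  obtain ⟨k₂, hk₂⟩ := hc.far hS
  obtain ⟨n, hn, hG⟩ := hg (max k₂ n₀)
  obtain ⟨z, hz, h1, h2⟩ := hcore (W.A (c (max k₂ n₀))) (fun v hv => ⟨fun h h' =>
    (htp v).1 h' ⟨_, h⟩, fun h => (hk₂ _ (le_max_left _ _) v hv).resolve_right
      fun h' => h ((htp v).2 h')⟩) n ((le_max_right _ _).trans hn) hG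
  exact (hk₁ _ (le_max_right _ _) z hz).elim (fun h => h1 ((hb z).2 h)) fun h => h2 ((htp z).2 h)

theorem Geo.swap {V : Type} {N : V → V → Prop} (hN : RS N) {X : Set V} {a b : V} {n : ℕ}
    (h : Geo N X (a, b) n) : Geo N Xᶜ (b, a) n := by
  obtain ⟨e, f, h1, h2, h3⟩ := h
  have key : ∀ {Y : Set V} {m : ℕ} {d d' : V × V}, Wk (Adj N) (Ed N Y Yᶜ) m d d' →
      Wk (Adj N) (Ed N Yᶜ Yᶜᶜ) m d.swap d'.swap := fun h =>
    h.map Prod.swap (fun x hx => ⟨hN.symm _ _ hx.1, hx.2.2, not_not.2 hx.2.1⟩)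
      fun _ _ _ _ h => adj_swap.2 h
  refine ⟨e.swap, f.swap, key h1, key h2, fun m hm => h3 m ?_⟩
  simpa only [compl_compl, Prod.swap_swap] using key hm

theorem no_walls (hK : GoodK H K) (W : Walls H K) : False := by
  obtain ⟨b, U, hi, hb, hU⟩ := W.exists_seq hK
  obtain ⟨φ, hφ | hφ⟩ := exists_increasing_or_nonincreasing_subseq (fun i j => U i ⊆ U j) id
  · refine no_chain hK (W := W) (c := fun j => U (φ j)) (a := 1) (b := b)
      ⟨fun j => (hU _).1, fun j => ?_, hb, fun j => (hU _).2.1, fun j => (hU _).2.2.1⟩ fun j => ?_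
    · exact Nest.lt (W.side _ (hU _).1) (W.side _ (hU _).1) (W.nest _ (hU _).1 _ (hU _).1)
        (hφ j (j + 1) j.lt_succ_self) fun h => (φ.strictMono j.lt_succ_self).ne (hi h)
    · obtain ⟨n, hn, h⟩ := (hU (φ j)).2.2.2
      exact ⟨n, (φ.strictMono.le_apply).trans hn, h⟩
  · obtain ⟨W', hW'⟩ := W.exists_compl
    refine no_chain hK (W := W') (c := fun j => opp (U (φ j))) (a := b) (b := 1)
      ⟨fun j => (hW' _ (hU _).1).1, fun j => ?_, hb.symm, fun j => ?_, fun j => ?_⟩ fun j => ?_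
    · have h1 := hφ j (j + 1) j.lt_succ_self
      have h2 := (W.chain _ (hU (φ j)).1 _ (hU (φ (j + 1))).1 1 b (hU _).2.1 (hU _).2.1
        (hU _).2.2.1 (hU _).2.2.1).resolve_left h1
      refine Nest.lt (W'.side _ (hW' _ (hU _).1).1) (W'.side _ (hW' _ (hU _).1).1)
        (W'.nest _ (hW' _ (hU _).1).1 _ (hW' _ (hU _).1).1) (opp_anti h2) fun h => h1 ?_
      have h3 := congrArg opp h
      rw [(W.side _ (hU _).1).opp_opp, (W.side _ (hU _).1).opp_opp] at h3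
      exact h3.subset
    · rw [(hW' _ (hU _).1).2]
      exact (hU _).2.2.1
    · rw [(hW' _ (hU _).1).2]
      exact not_not.2 (hU _).2.1
    · obtain ⟨n, hn, h⟩ := (hU (φ j)).2.2.2
      refine ⟨n, (φ.strictMono.le_apply).trans hn, ?_⟩
      rw [(hW' _ (hU _).1).2]
      exact h.swap (nr_rs H K)

variable (H)

include H

/-- A connected boundary has no cut point. -/
theorem no_cut (c : Z) : IsPreconnected ({c}ᶜ : Set Z) := by
  rcases subsingleton_or_nontrivial Z with h | h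
  · exact (Set.subsingleton_of_subsingleton).isPreconnected
  · by_contra hc
    obtain ⟨W, h1, h2, h3⟩ := exists_side H hc
    obtain ⟨K₀, h4⟩ := exists_walls H h1 h2 h3 (not_fixed H)
    obtain ⟨K₁, h5⟩ := exists_goodK H
    obtain ⟨W'⟩ := h4 (max K₀ K₁) (le_max_left _ _)
    exact no_walls (h5 _ (le_max_right _ _)) W'

/-- A connected boundary is locally path connected. -/
theorem lpc : LocallyPathConnectedSpace Z := H.lpc_of_nocut (no_cut H)

end KKC.LC
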