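import Pool.Agent.Lib.MP_e1e491_gt.Ac.Main
import Pool.Agent.Lib.MP_e1e491_gt.LCMain
import Pool.Agent.Lib.MP_e1e491_gt.CC.Main
import Pool.Agent.Lib.MP_e1e491_gt.CH.Main
import Pool.Agent.Lib.MP_e1e491_gt.P3.Main

/-! All planar boundaries. -/

namespace KFull

open Set Metric KP2
open scoped NNReal

theorem ll3 {Z : Type} [MetricSpace Z] {lam : ℝ} (h : KCC.LL Z lam) : KP3.LL Z lam := by
  have hl : 0 < lam := one_pos.trans_le h.one_le
  refine ⟨h.one_le, h.three, fun j => j.elim, fun x y z => ?_, fun j => j.elim⟩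
  rcases (le_min dist_nonneg dist_nonneg : 0 ≤ min (dist x y) (dist x z)).eq_or_lt with h0 | h0
  · obtain ⟨E, h1, h2, h3, -⟩ := h.three y z
    exact ⟨E, h1, h2, h3, fun w _ => h0 ▸ mul_nonneg hl.le dist_nonneg⟩
  · obtain ⟨E, h1, h2, h3, h4⟩ := KCC.joined_set (h.l2 x (min (dist x y) (dist x z) / lam) y z
      (div_pos h0 hl) (by rw [mul_div_cancel₀ _ hl.ne', dist_comm y x]; exact min_le_left _ _)
      (by rw [mul_div_cancel₀ _ hl.ne', dist_comm z x]; exact min_le_right _ _))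
    refine ⟨E, h2, h3, h4, fun w hw => ?_⟩
    have h5 : min (dist x y) (dist x z) / lam < dist x w := by
      simpa only [mem_compl_iff, mem_closedBall', not_le] using h1 hw
    exact ((div_lt_iff₀' hl).1 h5).le

theorem conn (A Y : Type) [Group A] [MetricSpace Y] [CompactSpace Y] [ConnectedSpace Y]
    [Nontrivial Y] [MulAction A Y] (H : KKC.HB A Y) (j : Y → S2) (hc : Continuous j)
    (hi : Function.Injective j) : ∃ f : Y → S2, WQS f ∧ Function.Injective f := by
  by_cases hs : Function.Surjective j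
  · exact KCC.exists_wqs_sphere H
      (Continuous.homeoOfEquivCompactToT2 (f := Equiv.ofBijective j ⟨hi, hs⟩) hc)
  obtain ⟨p, hp⟩ : ∃ p, p ∉ range j := not_forall.1 hs
  obtain ⟨ψ, c, L, hc0, hψ⟩ := KAC.st_chart hc hp
  obtain ⟨k, -, hk⟩ := KAC.st_pl
  have h1 : Continuous fun y => k (ψ y) := by
    refine continuous_iff_continuousAt.2 fun y => tendsto_iff_dist_tendsto_zero.2 ?_
    refine squeeze_zero (fun _ => dist_nonneg)
      (fun x => (hk _ _).2.trans ((one_mul _).trans_le (hψ x y).2)) ?_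
    simpa using (tendsto_iff_dist_tendsto_zero.1 (hc.tendsto y)).const_mul L
  have h2 : Function.Injective fun y => k (ψ y) :=
    KAC.st_inj one_half_pos (fun x y => (hk _ _).1) (KAC.st_inj hc0 (fun x y => (hψ x y).1) hi)
  have := KKC.LC.lpc H
  obtain ⟨h3, h4⟩ := H.pc_of_nocut (KKC.LC.no_cut H)
  obtain ⟨lam, hl⟩ := KCC.ll_of_hb H h4 h3
  obtain ⟨W, _, F, C, α, β, p, hC, hα, hβ, hp0, hp2, hP, -, -, hF⟩ :=
    KCH.planar_metric H hl h1 h2
  exact KP3.phase3 h1 h2 (ll3 hl) F hC hα hβ hp0 hp2 hP hF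

theorem embed {G : Type} [Group G] (S : Finset G) (hS : Subgroup.closure (S : Set G) = ⊤)
    (hH : KKC.Hyperbolic S) [MetricSpace (KKC.Bdry S)] (hV : KKC.IsVisual S)
    {ι : KKC.Bdry S → S2} (hc : Continuous ι) (hi : Function.Injective ι) :
    ∃ (f : KKC.Bdry S → S2) (η : ℝ≥0 ≃ₜ ℝ≥0), Topology.IsEmbedding f ∧ KKC.IsQS η f ∧
      ∀ x y z : KKC.Bdry S, z ≠ x →
        InnerProductGeometry.angle (f x).1 (f y).1 / InnerProductGeometry.angle (f x).1 (f z).1 ≤
          η (nndist x y / nndist x z) := by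
  have := KAC.bdry_compact hS hH hV
  exact KAC.reduce S hS hH hV hc hi (KAC.conn_of_all hc hi conn)

end KFull
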