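import Pool.Agent.Lib.MP_e1e491_gt.PDRet

/-! The standard carpet gives planar data. -/

namespace KKC

open Set Topology Filter Pr

namespace Cp

/-- One dimensional comparison of triadic cells of different levels. -/
theorem cell_sub {m n i k : ℕ} (hmn : m < n) {x y : ℝ} (hx1 : (i : ℝ) ≤ 3 ^ n * x)
    (hx2 : 3 ^ n * x ≤ i + 1) (hk1 : (k : ℝ) ≤ 3 ^ (m + 1) * x) (hk2 : 3 ^ (m + 1) * x ≤ k + 1)
    (hs : ((i : ℝ) < 3 ^ n * x ∧ 3 ^ n * x < i + 1) ∨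
      ((k : ℝ) < 3 ^ (m + 1) * x ∧ 3 ^ (m + 1) * x < k + 1))
    (hy1 : (i : ℝ) < 3 ^ n * y) (hy2 : 3 ^ n * y < i + 1) :
    (k : ℝ) < 3 ^ (m + 1) * y ∧ 3 ^ (m + 1) * y < k + 1 := by
  obtain ⟨d, rfl⟩ := Nat.exists_eq_add_of_le (Nat.succ_le_of_lt hmn)
  set N : ℕ := 3 ^ d with hN
  have hN0 : (0 : ℝ) < N := by positivity
  have e : ∀ t : ℝ, 3 ^ (m.succ + d) * t = N * (3 ^ (m + 1) * t) := fun t => by
    rw [hN]; push_cast; rw [Nat.succ_eq_add_one, pow_add]; ring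
  rw [e] at hx1 hx2 hs hy1 hy2
  have a1 : ((N * k : ℕ) : ℝ) < (i + 1 : ℕ) := by
    push_cast
    rcases hs with h | h
    · nlinarith [h.2]
    · nlinarith [h.1]
  have a2 : (i : ℝ) < ((N * (k + 1) : ℕ) : ℝ) := by
    push_cast
    rcases hs with h | h
    · nlinarith [h.1]
    · nlinarith [h.2]
  have b1 : ((N * k : ℕ) : ℝ) ≤ i := by exact_mod_cast Nat.lt_succ_iff.mp (by exact_mod_cast a1)
  have b2 : ((i + 1 : ℕ) : ℝ) ≤ ((N * (k + 1) : ℕ) : ℝ) := by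
    exact_mod_cast Nat.succ_le_of_lt (by exact_mod_cast a2)
  push_cast at b1 b2
  constructor
  · by_contra h
    nlinarith [not_lt.mp h]
  · by_contra h
    nlinarith [not_lt.mp h]

/-- The open middle square of the triadic square `(n, i, j)`. -/
def mid (n i j : ℕ) : Set ℂ := {z | 3 ^ (n + 1) * z.re ∈ Ioo (3 * i + 1 : ℝ) (3 * i + 2) ∧
  3 ^ (n + 1) * z.im ∈ Ioo (3 * j + 1 : ℝ) (3 * j + 2)}

/-- The closed triadic square `(n, i, j)`. -/
def cell (n i j : ℕ) : Set ℂ := {z | 3 ^ n * z.re ∈ Icc (i : ℝ) (i + 1) ∧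
  3 ^ n * z.im ∈ Icc (j : ℝ) (j + 1)}

/-- The open triadic square `(n, i, j)`. -/
def ocell (n i j : ℕ) : Set ℂ := {z | 3 ^ n * z.re ∈ Ioo (i : ℝ) (i + 1) ∧
  3 ^ n * z.im ∈ Ioo (j : ℝ) (j + 1)}

/-- The centre of the triadic square. -/
noncomputable def ctr (n i j : ℕ) : ℂ := ⟨(i + 1 / 2) / 3 ^ n, (j + 1 / 2) / 3 ^ n⟩

/-- Half of the side of the middle square. -/
noncomputable def rr (n : ℕ) : ℝ := 1 / (2 * 3 ^ (n + 1))

theorem rr_pos (n : ℕ) : 0 < rr n := by unfold rr; positivity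

theorem abs_iff (n i : ℕ) (x : ℝ) :
    |x - (i + 1 / 2) / 3 ^ n| = rr n * (2 * |3 ^ (n + 1) * x - (3 * i + 3 / 2)|) := by
  have : x - (i + 1 / 2) / 3 ^ n = rr n * (2 * (3 ^ (n + 1) * x - (3 * i + 3 / 2))) := by
    unfold rr; field_simp; ring
  rw [this, abs_mul, abs_mul, abs_of_pos (rr_pos n), abs_two]

theorem sn_ctr (n i j : ℕ) (z : ℂ) : sn (z - ctr n i j) = rr n *
    (2 * max |3 ^ (n + 1) * z.re - (3 * i + 3 / 2)| |3 ^ (n + 1) * z.im - (3 * j + 3 / 2)|) := by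
  rw [sn, Complex.sub_re, Complex.sub_im, ctr, abs_iff, abs_iff, mul_max_of_nonneg _ _ zero_le_two,
    mul_max_of_nonneg _ _ (rr_pos n).le]

theorem mid_eq (n i j : ℕ) : mid n i j = {z | sn (z - ctr n i j) < rr n} := by
  ext z
  simp only [mid, mem_ofPred_eq, sn_ctr, mem_Ioo, mul_lt_iff_lt_one_right (rr_pos n)]
  rw [← lt_div_iff₀' (two_pos (α := ℝ)), max_lt_iff, abs_lt, abs_lt]
  constructor <;> rintro ⟨⟨a, b⟩, c, d⟩ <;> refine ⟨⟨?_, ?_⟩, ?_, ?_⟩ <;> linarith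

theorem of_sn_le {n i j : ℕ} {z : ℂ} (h : sn (z - ctr n i j) ≤ rr n) :
    3 ^ (n + 1) * z.re ∈ Icc (3 * i + 1 : ℝ) (3 * i + 2) ∧
      3 ^ (n + 1) * z.im ∈ Icc (3 * j + 1 : ℝ) (3 * j + 2) := by
  rw [sn_ctr, mul_le_iff_le_one_right (rr_pos n), ← le_div_iff₀' two_pos, max_le_iff, abs_le,
    abs_le] at h
  obtain ⟨⟨a, b⟩, c, d⟩ := h
  refine ⟨⟨?_, ?_⟩, ?_, ?_⟩ <;> linarith

theorem ocell_of_sn_le {n i j : ℕ} {z : ℂ} (h : sn (z - ctr n i j) ≤ rr n) : z ∈ ocell n i j := by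
  obtain ⟨⟨a, b⟩, c, d⟩ := of_sn_le h
  rw [pow_succ] at a b c d
  refine ⟨⟨?_, ?_⟩, ?_, ?_⟩ <;> linarith

theorem ctr_mem (n i j : ℕ) : ctr n i j ∈ ocell n i j :=
  ocell_of_sn_le (by rw [sub_self, sn_zero]; exact (rr_pos n).le)

theorem ocell_sub {n i j : ℕ} : ocell n i j ⊆ cell n i j :=
  fun _ h => ⟨Ioo_subset_Icc_self h.1, Ioo_subset_Icc_self h.2⟩

/-- The squares that are not removed before level `n`. -/
def Good (n i j : ℕ) : Prop := i < 3 ^ n ∧ j < 3 ^ n ∧ ∀ m < n, ∀ k l, ctr n i j ∉ mid m k l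

theorem mid_of {m n i j k l : ℕ} (hmn : m < n) {z w : ℂ} (hz : z ∈ cell n i j)
    (h1 : 3 ^ (m + 1) * z.re ∈ Icc (3 * k + 1 : ℝ) (3 * k + 2))
    (h2 : 3 ^ (m + 1) * z.im ∈ Icc (3 * l + 1 : ℝ) (3 * l + 2))
    (hs : z ∈ ocell n i j ∨ z ∈ mid m k l) (hw : w ∈ ocell n i j) : w ∈ mid m k l := by
  have a := cell_sub (k := 3 * k + 1) hmn hz.1.1 hz.1.2 (by push_cast; exact h1.1)
    (by push_cast; linarith [h1.2]) (hs.imp (fun h => h.1) fun h => by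
      push_cast; exact ⟨h.1.1, by linarith [h.1.2]⟩) hw.1.1 hw.1.2
  have b := cell_sub (k := 3 * l + 1) hmn hz.2.1 hz.2.2 (by push_cast; exact h2.1)
    (by push_cast; linarith [h2.2]) (hs.imp (fun h => h.2) fun h => by
      push_cast; exact ⟨h.2.1, by linarith [h.2.2]⟩) hw.2.1 hw.2.2
  push_cast at a b
  exact ⟨⟨a.1, by linarith [a.2]⟩, b.1, by linarith [b.2]⟩

theorem Good.not_mid {m n i j k l : ℕ} (h : Good n i j) (hmn : m < n) {z : ℂ}
    (hz : z ∈ cell n i j) : z ∉ mid m k l := fun hm =>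
  h.2.2 m hmn k l (mid_of hmn hz (Ioo_subset_Icc_self hm.1) (Ioo_subset_Icc_self hm.2) (Or.inr hm)
    (ctr_mem n i j))

theorem unit_of {n i : ℕ} (h : i < 3 ^ n) {x : ℝ} (hx : 3 ^ n * x ∈ Ioo (i : ℝ) (i + 1)) :
    x ∈ Ioo (0 : ℝ) 1 := by
  have h1 : ((i + 1 : ℕ) : ℝ) ≤ ((3 ^ n : ℕ) : ℝ) := by exact_mod_cast h
  push_cast at h1
  have h3 : (0 : ℝ) < 3 ^ n := by positivity
  have h4 : (0 : ℝ) ≤ i := by positivity
  constructor
  · by_contra hc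
    nlinarith [not_lt.mp hc, hx.1]
  · by_contra hc
    nlinarith [not_lt.mp hc, hx.2]

theorem not_Ioo_of_nat {n m a k : ℕ} (h : n ≤ m + 1) {x : ℝ} (hx : 3 ^ n * x = a) :
    3 ^ (m + 1) * x ∉ Ioo (3 * k + 1 : ℝ) (3 * k + 2) := by
  obtain ⟨d, hd⟩ := Nat.exists_eq_add_of_le h
  have : 3 ^ (m + 1) * x = ((3 ^ d * a : ℕ) : ℝ) := by
    rw [hd]; push_cast; rw [← hx]; ring
  rw [this]
  rintro ⟨h1, h2⟩
  have a1 : 3 * k + 1 < 3 ^ d * a := by exact_mod_cast h1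
  have a2 : 3 ^ d * a < 3 * k + 2 := by exact_mod_cast h2
  omega

theorem mem_carpet {z : ℂ} : z ∈ carpet ↔
    z.re ∈ Icc (0 : ℝ) 1 ∧ z.im ∈ Icc (0 : ℝ) 1 ∧ ∀ n i j, z ∉ mid n i j := Iff.rfl

theorem Good.bdry {n i j : ℕ} (h : Good n i j) {z : ℂ} (hz : sn (z - ctr n i j) = rr n) :
    z ∈ carpet := by
  have ho := ocell_of_sn_le hz.le
  refine mem_carpet.mpr ⟨Ioo_subset_Icc_self (unit_of h.1 ho.1),
    Ioo_subset_Icc_self (unit_of h.2.1 ho.2), fun m k l => ?_⟩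
  rcases lt_or_ge m n with hm | hm
  · exact h.not_mid hm (ocell_sub ho)
  have h1 : z ∉ mid n i j := by rw [mid_eq]; exact fun h => (ne_of_lt h) hz
  obtain ⟨⟨a, b⟩, c, d⟩ := of_sn_le hz.le
  intro hk
  apply h1
  refine ⟨⟨lt_of_le_of_ne a fun e => ?_, lt_of_le_of_ne b fun e => ?_⟩,
    lt_of_le_of_ne c fun e => ?_, lt_of_le_of_ne d fun e => ?_⟩
  · exact not_Ioo_of_nat (n := n + 1) (a := 3 * i + 1) (by omega) (by push_cast; exact e.symm) hk.1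
  · exact not_Ioo_of_nat (n := n + 1) (a := 3 * i + 2) (by omega) (by push_cast; exact e) hk.1
  · exact not_Ioo_of_nat (n := n + 1) (a := 3 * j + 1) (by omega) (by push_cast; exact e.symm) hk.2
  · exact not_Ioo_of_nat (n := n + 1) (a := 3 * j + 2) (by omega) (by push_cast; exact e) hk.2

/-- The centre of the unit square. -/
noncomputable def c0 : ℂ := ⟨1 / 2, 1 / 2⟩

theorem sn_c0_le {z : ℂ} : sn (z - c0) ≤ 1 / 2 ↔ z.re ∈ Icc (0 : ℝ) 1 ∧ z.im ∈ Icc (0 : ℝ) 1 := by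
  simp only [sn, c0, Complex.sub_re, Complex.sub_im, max_le_iff, abs_le, mem_Icc]
  constructor <;> rintro ⟨⟨a, b⟩, c, d⟩ <;> refine ⟨⟨?_, ?_⟩, ?_, ?_⟩ <;> linarith

theorem sn_c0_lt {z : ℂ} : sn (z - c0) < 1 / 2 ↔ z.re ∈ Ioo (0 : ℝ) 1 ∧ z.im ∈ Ioo (0 : ℝ) 1 := by
  simp only [sn, c0, Complex.sub_re, Complex.sub_im, max_lt_iff, abs_lt, mem_Ioo]
  constructor <;> rintro ⟨⟨a, b⟩, c, d⟩ <;> refine ⟨⟨?_, ?_⟩, ?_, ?_⟩ <;> linarith

theorem bdry0 {z : ℂ} (hz : sn (z - c0) = 1 / 2) : z ∈ carpet := by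
  obtain ⟨⟨a, b⟩, c, d⟩ := sn_c0_le.mp hz.le
  refine mem_carpet.mpr ⟨⟨a, b⟩, ⟨c, d⟩, fun m k l hk => (ne_of_lt (sn_c0_lt.mpr ?_)) hz⟩
  refine ⟨⟨lt_of_le_of_ne a fun e => ?_, lt_of_le_of_ne b fun e => ?_⟩,
    lt_of_le_of_ne c fun e => ?_, lt_of_le_of_ne d fun e => ?_⟩
  · exact not_Ioo_of_nat (n := 0) (a := 0) (by omega) (by simp [← e]) hk.1
  · exact not_Ioo_of_nat (n := 0) (a := 1) (by omega) (by simp [e]) hk.1
  · exact not_Ioo_of_nat (n := 0) (a := 0) (by omega) (by simp [← e]) hk.2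
  · exact not_Ioo_of_nat (n := 0) (a := 1) (by omega) (by simp [e]) hk.2

theorem eq_of_Icc {i k : ℕ} {x : ℝ} (h1 : x ∈ Icc (3 * i + 1 : ℝ) (3 * i + 2))
    (h2 : x ∈ Icc (3 * k + 1 : ℝ) (3 * k + 2)) : i = k := by
  have a1 : 3 * i + 1 ≤ 3 * k + 2 := by exact_mod_cast h1.1.trans h2.2
  have a2 : 3 * k + 1 ≤ 3 * i + 2 := by exact_mod_cast h2.1.trans h1.2
  omega

/-- The closed middle squares of two good squares are disjoint. -/
theorem eq_of_good {n i j m k l : ℕ} (h : Good n i j) (h' : Good m k l) {z : ℂ}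
    (hz : sn (z - ctr n i j) ≤ rr n) (hz' : sn (z - ctr m k l) ≤ rr m) :
    (n, i, j) = (m, k, l) := by
  rcases lt_trichotomy m n with hm | rfl | hm
  · exact absurd (mid_of hm (ocell_sub (ocell_of_sn_le hz)) (of_sn_le hz').1 (of_sn_le hz').2
      (Or.inl (ocell_of_sn_le hz)) (ctr_mem n i j)) (h.2.2 m hm k l)
  · rw [eq_of_Icc (of_sn_le hz).1 (of_sn_le hz').1, eq_of_Icc (of_sn_le hz).2 (of_sn_le hz').2]
  · exact absurd (mid_of hm (ocell_sub (ocell_of_sn_le hz')) (of_sn_le hz).1 (of_sn_le hz).2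
      (Or.inl (ocell_of_sn_le hz')) (ctr_mem m k l)) (h'.2.2 n hm i j)

theorem lt_pow_of {n i : ℕ} {x : ℝ} (hx : x ≤ 1) (h : (3 * i + 1 : ℝ) < 3 ^ (n + 1) * x) :
    i < 3 ^ n := by
  have h3 : (0 : ℝ) < 3 ^ (n + 1) := by positivity
  have : (3 * i + 1 : ℝ) < 3 ^ (n + 1) := by nlinarith
  have : 3 * i + 1 < 3 ^ (n + 1) := by exact_mod_cast this
  omega

theorem exists_good_mid {z : ℂ} (h1 : sn (z - c0) ≤ 1 / 2) (h2 : z ∉ carpet) :
    ∃ n i j, Good n i j ∧ z ∈ mid n i j := by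
  classical
  obtain ⟨a, b⟩ := sn_c0_le.mp h1
  have hex : ∃ n, ∃ i j, z ∈ mid n i j := by
    by_contra hc
    push Not at hc
    exact h2 (mem_carpet.mpr ⟨a, b, hc⟩)
  obtain ⟨i, j, hz⟩ := Nat.find_spec hex
  refine ⟨_, i, j, ⟨lt_pow_of a.2 hz.1.1, lt_pow_of b.2 hz.2.1, fun m hm k l hc => ?_⟩, hz⟩
  refine Nat.find_min hex hm ⟨k, l, mid_of hm (ocell_sub (ctr_mem _ i j))
    (Ioo_subset_Icc_self hc.1) (Ioo_subset_Icc_self hc.2) (Or.inr hc) (ocell_of_sn_le ?_)⟩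
  rw [mid_eq] at hz
  exact le_of_lt hz

theorem exists_digit (i : ℕ) {x : ℝ} (h : x ∈ Icc (3 * i : ℝ) (3 * i + 3)) :
    ∃ a : ℕ, a < 3 ∧ x ∈ Icc ((3 * i + a : ℕ) : ℝ) ((3 * i + a : ℕ) + 1) ∧
      (a = 1 → x ∈ Ioo (3 * i + 1 : ℝ) (3 * i + 2)) := by
  rcases le_or_gt x (3 * i + 1) with h1 | h1
  · exact ⟨0, by omega, by push_cast; exact ⟨by linarith [h.1], by linarith⟩, by omega⟩
  rcases le_or_gt (3 * i + 2 : ℝ) x with h2 | h2
  · exact ⟨2, by omega, by push_cast; exact ⟨h2, by linarith [h.2]⟩, by omega⟩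
  · exact ⟨1, by omega, by push_cast; exact ⟨h1.le, by linarith⟩, fun _ => ⟨h1, h2⟩⟩

theorem digit_eq {n i a k : ℕ} (ha : a < 3)
    (h : 3 ^ (n + 1) * ((((3 * i + a : ℕ) : ℝ) + 1 / 2) / 3 ^ (n + 1)) ∈
      Ioo (3 * k + 1 : ℝ) (3 * k + 2)) : a = 1 := by
  rw [mul_div_cancel₀ _ (by positivity)] at h
  have a1 : ((2 * (3 * k + 1) : ℕ) : ℝ) < ((2 * (3 * i + a) + 1 : ℕ) : ℝ) := by
    have := h.1; push_cast at this ⊢; linarith
  have a2 : ((2 * (3 * i + a) + 1 : ℕ) : ℝ) < ((2 * (3 * k + 2) : ℕ) : ℝ) := by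
    have := h.2; push_cast at this ⊢; linarith
  have b1 := Nat.cast_lt.mp a1
  have b2 := Nat.cast_lt.mp a2
  omega

theorem exists_good_cell {z : ℂ} (hz : z ∈ carpet) (n : ℕ) :
    ∃ i j, Good n i j ∧ z ∈ cell n i j := by
  obtain ⟨h1, h2, h3⟩ := mem_carpet.mp hz
  induction n with
  | zero => exact ⟨0, 0, ⟨by simp, by simp, by simp⟩, by simpa [cell] using ⟨h1, h2⟩⟩
  | succ n ih =>
    obtain ⟨i, j, hg, hc⟩ := ih
    obtain ⟨a, a1, a2, a3⟩ := exists_digit i (x := 3 ^ (n + 1) * z.re)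
      (by rw [pow_succ]; exact ⟨by linarith [hc.1.1], by linarith [hc.1.2]⟩)
    obtain ⟨b, b1, b2, b3⟩ := exists_digit j (x := 3 ^ (n + 1) * z.im)
      (by rw [pow_succ]; exact ⟨by linarith [hc.2.1], by linarith [hc.2.2]⟩)
    refine ⟨3 * i + a, 3 * j + b, ⟨by have := hg.1; omega, by have := hg.2.1; omega,
      fun m hm k l hk => ?_⟩, a2, b2⟩
    rcases (Nat.lt_succ_iff.mp hm).lt_or_eq with hm | rfl
    · refine hg.not_mid hm ?_ hk
      obtain ⟨⟨c1, c2⟩, c3, c4⟩ := ctr_mem (n + 1) (3 * i + a) (3 * j + b)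
      have a4 : (a : ℝ) ≤ 2 := by exact_mod_cast Nat.lt_succ_iff.mp a1
      have b4 : (b : ℝ) ≤ 2 := by exact_mod_cast Nat.lt_succ_iff.mp b1
      have a5 : (0 : ℝ) ≤ a := by positivity
      have b5 : (0 : ℝ) ≤ b := by positivity
      rw [pow_succ] at c1 c2 c3 c4
      push_cast at c1 c2 c3 c4
      refine ⟨⟨?_, ?_⟩, ?_, ?_⟩ <;> linarith
    · exact h3 m i j ⟨a3 (digit_eq a1 hk.1), b3 (digit_eq b1 hk.2)⟩

theorem norm_le_of_cell {n i j : ℕ} {z w : ℂ} (hz : z ∈ cell n i j) (hw : w ∈ cell n i j) :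
    ‖z - w‖ ≤ 2 * (1 / 3) ^ n := by
  have h3 : (0 : ℝ) < 3 ^ n := by positivity
  have key : ∀ {k : ℕ} {x y : ℝ}, 3 ^ n * x ∈ Icc (k : ℝ) (k + 1) → 3 ^ n * y ∈ Icc (k : ℝ) (k + 1) →
      |x - y| ≤ (1 / 3) ^ n := fun {k x y} hx hy => by
    rw [one_div, inv_pow, ← one_div, le_div_iff₀ h3, ← abs_of_pos h3, ← abs_mul, abs_le]
    constructor <;> nlinarith [hx.1, hx.2, hy.1, hy.2]
  have := norm_le_sn (z - w)
  have h : sn (z - w) ≤ (1 / 3) ^ n := max_le (key hz.1 hw.1) (key hz.2 hw.2)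
  linarith

theorem isOpen_mid (n i j : ℕ) : IsOpen (mid n i j) := by
  rw [mid_eq]; exact isOpen_lt (by fun_prop) continuous_const

/-- The index set of the holes. -/
def Hole : Type := Option {t : ℕ × ℕ × ℕ // Good t.1 t.2.1 t.2.2}

/-- Centres. -/
noncomputable def hc : Hole → ℂ
  | none => c0
  | some t => ctr t.1.1 t.1.2.1 t.1.2.2

/-- Radii. -/
noncomputable def hr : Hole → ℝ
  | none => 1 / 2
  | some t => rr t.1.1

/-- Holes. -/
def hD : Hole → Set ℂ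
  | none => {v | 1 / 2 < sn (v - c0)}
  | some t => mid t.1.1 t.1.2.1 t.1.2.2

theorem good_lt {n i j : ℕ} (h : Good n i j) {z : ℂ} (hz : sn (z - ctr n i j) ≤ rr n) :
    sn (z - c0) < 1 / 2 :=
  sn_c0_lt.mpr ⟨unit_of h.1 (ocell_of_sn_le hz).1, unit_of h.2.1 (ocell_of_sn_le hz).2⟩

theorem finite_hr {ε : ℝ} (hε : 0 < ε) : {j : Hole | ε ≤ hr j}.Finite := by
  obtain ⟨N, hN⟩ := exists_pow_lt_of_lt_one hε (show (1 / 3 : ℝ) < 1 by norm_num)
  have hf : {t : {t : ℕ × ℕ × ℕ // Good t.1 t.2.1 t.2.2} | t.1.1 < N}.Finite := by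
    refine Finite.of_finite_image (f := Subtype.val) ?_ Subtype.val_injective.injOn
    refine ((finite_Iio N).prod ((finite_Iio (3 ^ N)).prod (finite_Iio (3 ^ N)))).subset ?_
    rintro _ ⟨t, ht, rfl⟩
    have : 3 ^ t.1.1 ≤ 3 ^ N := Nat.pow_le_pow_right (by norm_num) (le_of_lt ht)
    exact ⟨ht, t.2.1.trans_le this, t.2.2.1.trans_le this⟩
  refine ((hf.image some).insert none).subset ?_
  rintro (_ | t) ht
  · exact mem_insert _ _
  · refine Or.inr ⟨t, ?_, rfl⟩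
    by_contra hc
    have h1 : (1 / 3 : ℝ) ^ t.1.1 ≤ (1 / 3) ^ N :=
      pow_le_pow_of_le_one (by norm_num) (by norm_num) (not_lt.mp hc)
    have h2 : rr t.1.1 ≤ (1 / 3 : ℝ) ^ t.1.1 := by
      rw [rr, one_div_pow]
      refine one_div_le_one_div_of_le (by positivity) ?_
      rw [pow_succ]
      nlinarith [pow_pos (show (0 : ℝ) < 3 by norm_num) t.1.1]
    have h3 : ε ≤ rr t.1.1 := ht
    linarith

end Cp

open Cp

theorem isCompact_carpet : IsCompact carpet := by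
  have : carpet = {z | sn (z - c0) ≤ 1 / 2} ∩ ⋂ n, ⋂ i, ⋂ j, (mid n i j)ᶜ := by
    ext z
    simp only [mem_carpet, mem_inter_iff, mem_ofPred_eq, sn_c0_le, mem_iInter, mem_compl_iff,
      and_assoc]
  rw [this]
  refine IsCompact.inter_right ?_ (isClosed_iInter fun n => isClosed_iInter fun i =>
    isClosed_iInter fun j => (isOpen_mid n i j).isClosed_compl)
  refine Metric.isCompact_of_isClosed_isBounded (isClosed_le (by fun_prop) continuous_const)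
    ((Metric.isBounded_closedBall (x := c0) (r := 1)).subset fun z hz => ?_)
  have := norm_le_sn (z - c0)
  have h : sn (z - c0) ≤ 1 / 2 := hz
  rw [mem_closedBall_iff_norm]
  linarith

theorem compactSpace_of_carpet {Z : Type} [TopologicalSpace Z] (e : Z ≃ₜ carpet) :
    CompactSpace Z := by
  have := isCompact_iff_compactSpace.mp isCompact_carpet
  exact e.symm.compactSpace

/-- A space homeomorphic to the standard carpet carries planar data. -/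
theorem nonempty_PD {Z : Type} [TopologicalSpace Z] (e : Z ≃ₜ carpet) :
    Nonempty (PD Z Cp.Hole) := by
  have := compactSpace_of_carpet e
  set ι : Z → ℂ := fun z => (e z : ℂ) with hι
  have hrange : range ι = carpet := by
    rw [show ι = Subtype.val ∘ e from rfl, range_comp, e.surjective.range_eq, image_univ,
      Subtype.range_coe]
  have hmem : ∀ z, ι z ∈ carpet := fun z => (e z).2
  have hle : ∀ (i j : Hole) (v : ℂ), (v ∈ hD i ∨ sn (v - hc i) = hr i) →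
      (v ∈ hD j ∨ sn (v - hc j) = hr j) → i = j := by
    have k0 : ∀ {v : ℂ}, (v ∈ hD none ∨ sn (v - hc none) = hr none) → 1 / 2 ≤ sn (v - c0) :=
      fun h => h.elim (fun h => le_of_lt (show 1 / 2 < sn _ from h)) fun h => h.ge
    have k1 : ∀ {t} {v : ℂ}, (v ∈ hD (some t) ∨ sn (v - hc (some t)) = hr (some t)) →
        sn (v - ctr t.1.1 t.1.2.1 t.1.2.2) ≤ rr t.1.1 := fun h =>
      h.elim (fun h => by rw [hD, mid_eq] at h; exact le_of_lt h) fun h => h.le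
    rintro (_ | s) (_ | t) v h1 h2
    · rfl
    · exact absurd (good_lt t.2 (k1 h2)) (not_lt.mpr (k0 h1))
    · exact absurd (good_lt s.2 (k1 h1)) (not_lt.mpr (k0 h2))
    · exact congrArg some (Subtype.ext (eq_of_good s.2 t.2 (k1 h1) (k1 h2)))
  let Q : PD0 Z Hole :=
    { ι := ι
      o := none
      c := hc
      r := hr
      D := hD
      P := fun j => ι ⁻¹' {v | sn (v - hc j) = hr j}
      ι_cont := continuous_subtype_val.comp e.continuous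
      ι_inj := Subtype.val_injective.comp e.injective
      r_pos := by
        rintro (_ | t)
        · exact one_half_pos
        · exact rr_pos _
      D_in := by
        rintro (_ | t) h
        · exact absurd rfl h
        · exact mid_eq _ _ _
      D_out := rfl
      P_eq := fun j => image_preimage_eq_of_subset (by
        rw [hrange]
        rcases j with _ | t
        · exact fun v hv => bdry0 hv
        · exact fun v hv => t.2.bdry hv)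
      D_disj := fun i j h => disjoint_left.mpr fun v h1 h2 => h (hle i j v (Or.inl h1) (Or.inl h2))
      not_mem := by
        rintro z (_ | t)
        · exact not_lt.mpr (sn_c0_le.mpr ⟨(hmem z).1, (hmem z).2.1⟩)
        · exact (hmem z).2.2 _ _ _
      cover := fun v => by
        rw [hrange]
        by_cases h : v ∈ carpet
        · exact Or.inl h
        rcases lt_or_ge (1 / 2) (sn (v - c0)) with h1 | h1
        · exact Or.inr ⟨none, h1⟩
        · obtain ⟨n, i, j, hg, hv⟩ := exists_good_mid h1 h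
          exact Or.inr ⟨some ⟨(n, i, j), hg⟩, hv⟩
      null := fun ε hε => finite_hr hε }
  refine ⟨⟨Q.ι, Q.o, Q.c, Q.r, Q.D, Q.P, Q.ι_cont, Q.ι_inj, Q.r_pos, Q.D_in, Q.D_out, Q.P_eq,
    Q.D_disj, fun i j h => disjoint_left.mpr fun z h1 h2 => h (hle i j (ι z) (Or.inr h1) (Or.inr h2)),
    Q.not_mem, Q.cover, Q.null, fun U hU ⟨z, hz⟩ => ?_, Q.lpc⟩⟩
  obtain ⟨r, hr0, hU'⟩ := (Q.nhds_basis z).mem_iff.mp (hU.mem_nhds hz)
  obtain ⟨n, hn⟩ := exists_pow_lt_of_lt_one (half_pos hr0) (show (1 / 3 : ℝ) < 1 by norm_num)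
  obtain ⟨i, j, hg, hc⟩ := exists_good_cell (hmem z) n
  refine ⟨some ⟨(n, i, j), hg⟩, fun w hw => hU' ?_⟩
  have h1 : sn (ι w - ctr n i j) = rr n := hw
  have h2 := norm_le_of_cell (ocell_sub (ocell_of_sn_le h1.le)) hc
  show ‖ι w - ι z‖ < r
  linarith

theorem exists_PD {Z : Type} [TopologicalSpace Z] (e : Z ≃ₜ carpet) :
    ∃ J : Type, Nonempty (PD Z J) := ⟨_, nonempty_PD e⟩

end KKC
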