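import Mathlib

/-! The Jordan separation theorem: the complement of a simple closed plane curve is not
connected. -/

open Set Complex unitInterval

namespace KKJS

variable {a b : ℂ}

theorem exists_log (γ : Path a b) {z : ℂ} (hz : z ∉ range γ) :
    ∃ L : I → ℂ, Continuous L ∧ ∀ s, exp (L s) = γ s - z := by
  have h1 : IsSimplyConnected (univ : Set ℝ) := by
    have := (convex_univ (𝕜 := ℝ) (E := ℝ)).contractibleSpace univ_nonempty
    exact SimplyConnectedSpace.ofContractible _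
  obtain ⟨L, hL, hL'⟩ := exists_continuousOn_eqOn_exp_comp h1 isOpen_univ
    (g := fun t => γ.extend t - z) (by fun_prop) (by
      rintro ⟨t, -, ht⟩
      exact hz (γ.extend_range ▸ ⟨t, sub_eq_zero.mp ht⟩))
  refine ⟨fun s => L s, (continuousOn_univ.1 hL).comp continuous_subtype_val, fun s => ?_⟩
  have := hL' (mem_univ (s : ℝ))
  simpa using this

theorem const_of_exp {X : Type*} [TopologicalSpace X] {Z : Set X} (hZ : IsPreconnected Z)
    {g : X → ℂ} (hg : ContinuousOn g Z) {c : ℂ} (h : ∀ z ∈ Z, exp (g z) = c) {z z' : X}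
    (hz : z ∈ Z) (hz' : z' ∈ Z) : g z = g z' :=
  isCoveringMap_exp.constOn_of_comp hZ hg
    (fun x hx y hy => Subtype.ext ((h x hx).trans (h y hy).symm)) hz hz'

open Classical in
/-- The increment of a continuous logarithm of `γ - z` along the path `γ`. -/
noncomputable def inc (γ : Path a b) (z : ℂ) : ℂ :=
  if h : ∃ L : I → ℂ, Continuous L ∧ ∀ s, exp (L s) = γ s - z then h.choose 1 - h.choose 0 else 0

theorem inc_eq (γ : Path a b) {z : ℂ} {L : I → ℂ} (hL : Continuous L)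
    (h : ∀ s, exp (L s) = γ s - z) : inc γ z = L 1 - L 0 := by
  have he : ∃ L : I → ℂ, Continuous L ∧ ∀ s, exp (L s) = γ s - z := ⟨L, hL, h⟩
  rw [inc, dif_pos he]
  obtain ⟨h1, h2⟩ := he.choose_spec
  have := const_of_exp isPreconnected_univ (g := fun s => he.choose s - L s)
    (h1.sub hL).continuousOn (c := 1) (fun s _ => by
      rw [exp_sub, h2, ← h s, div_self (exp_ne_zero _)]) (mem_univ 1) (mem_univ 0)
  linear_combination this

theorem exp_inc (γ : Path a b) {z : ℂ} (hz : z ∉ range γ) :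
    exp (inc γ z) = (b - z) / (a - z) := by
  obtain ⟨L, hL, h⟩ := exists_log γ hz
  rw [inc_eq γ hL h, exp_sub, h, h, γ.source, γ.target]

theorem continuousOn_inc (γ : Path a b) : ContinuousOn (inc γ) (range γ)ᶜ := by
  intro z hz
  apply ContinuousAt.continuousWithinAt
  have hc : IsClosed (range γ) := (isCompact_range γ.continuous).isClosed
  obtain ⟨r, hr, hb⟩ := Metric.isOpen_iff.mp hc.isOpen_compl z hz
  obtain ⟨L, hL, h⟩ := exists_log γ hz
  have hne : ∀ s, γ s - z ≠ 0 := fun s => h s ▸ exp_ne_zero _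
  have hfar : ∀ s, r ≤ ‖γ s - z‖ := fun s => by
    by_contra hlt
    exact hb (mem_ball_iff_norm.mpr (not_le.mp hlt)) ⟨s, rfl⟩
  have hsl : ∀ w ∈ Metric.ball z r, ∀ s, 1 + (z - w) / (γ s - z) ∈ slitPlane := by
    intro w hw s
    refine mem_slitPlane_of_norm_lt_one ?_
    rw [norm_div, div_lt_one (hr.trans_le (hfar s)), norm_sub_rev]
    exact (mem_ball_iff_norm.mp hw).trans_le (hfar s)
  have he : inc γ =ᶠ[nhds z] fun w => L 1 + log (1 + (z - w) / (γ 1 - z)) -
      (L 0 + log (1 + (z - w) / (γ 0 - z))) := by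
    filter_upwards [Metric.ball_mem_nhds z hr] with w hw
    refine inc_eq γ (L := fun s => L s + log (1 + (z - w) / (γ s - z))) ?_ fun s => ?_
    · refine hL.add (Continuous.clog ?_ (hsl w hw))
      exact continuous_const.add (continuous_const.div (by fun_prop) hne)
    · rw [exp_add, h, exp_log (slitPlane_ne_zero (hsl w hw s))]
      field_simp [hne s]
      ring
  refine ContinuousAt.congr ?_ he.symm
  have : ∀ s, ContinuousAt (fun w => log (1 + (z - w) / (γ s - z))) z := fun s =>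
    ContinuousAt.clog (by fun_prop) (hsl z (Metric.mem_ball_self hr) s)
  exact (continuousAt_const.add (this 1)).sub (continuousAt_const.add (this 0))

/-- The side function of a path from `a` to `b` on the strip between `a` and `b`. -/
noncomputable def sd (γ : Path a b) (z : ℂ) : ℂ := inc γ z - (log (b - z) - log (z - a))

theorem sd_const (γ : Path a b) {Z : Set ℂ} (hZ : IsPreconnected Z) (h1 : ∀ z ∈ Z, z ∉ range γ)
    (h2 : ∀ z ∈ Z, a.re ≤ z.re ∧ z.re ≤ b.re) {z z' : ℂ} (hz : z ∈ Z) (hz' : z' ∈ Z) :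
    sd γ z = sd γ z' := by
  have hs : ∀ {w : ℂ}, 0 ≤ w.re → w ≠ 0 → w ∈ slitPlane := fun {w} hw h0 => by
    rw [mem_slitPlane_iff]
    by_contra hc
    push Not at hc
    exact h0 (Complex.ext (le_antisymm hc.1 hw) hc.2)
  have ha : ∀ z ∈ Z, z - a ≠ 0 := fun z hz h =>
    h1 z hz ⟨0, by rw [γ.source, sub_eq_zero.mp h]⟩
  have hb : ∀ z ∈ Z, b - z ≠ 0 := fun z hz h =>
    h1 z hz ⟨1, by rw [γ.target, sub_eq_zero.mp h]⟩
  refine const_of_exp hZ (c := -1) ?_ (fun w hw => ?_) hz hz'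
  · refine ((continuousOn_inc γ).mono h1).sub (ContinuousOn.sub ?_ ?_)
    · exact ContinuousOn.clog (by fun_prop) fun w hw =>
        hs (by simp only [sub_re]; linarith [(h2 w hw).2]) (hb w hw)
    · exact ContinuousOn.clog (by fun_prop) fun w hw =>
        hs (by simp only [sub_re]; linarith [(h2 w hw).1]) (ha w hw)
  · rw [sd, exp_sub, exp_sub, exp_inc γ (h1 w hw), exp_log (hb w hw), exp_log (ha w hw)]
    have h3 := ha w hw
    have h4 := hb w hw
    have h5 : a - w ≠ 0 := fun h => h3 (by linear_combination -h)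
    field_simp
    ring

theorem sd_far (γ : Path a b) {z : ℂ} (h : ∀ s, (γ s).im ≠ z.im) :
    sd γ z = log (z - a) - log (a - z) := by
  have hs : ∀ s, γ s - z ∈ slitPlane := fun s =>
    mem_slitPlane_iff.mpr (Or.inr (by simpa [sub_eq_zero] using h s))
  rw [sd, inc_eq γ (L := fun s => log (γ s - z)) (Continuous.clog (by fun_prop) hs)
    fun s => exp_log (slitPlane_ne_zero (hs s))]
  simp only [γ.source, γ.target]
  ring

theorem sd_up (γ : Path a b) {z : ℂ} (h : ∀ s, (γ s).im < z.im) : (sd γ z).im = Real.pi := by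
  have h0 : 0 < (z - a).im := by simpa using h 0
  rw [sd_far γ fun s => (h s).ne, sub_im, log_im, log_im, ← neg_sub z a,
    arg_neg_eq_arg_sub_pi_of_im_pos h0]
  ring

theorem sd_down (γ : Path a b) {z : ℂ} (h : ∀ s, z.im < (γ s).im) : (sd γ z).im = -Real.pi := by
  have h0 : (z - a).im < 0 := by simpa using h 0
  rw [sd_far γ fun s => (h s).ne', sub_im, log_im, log_im, ← neg_sub z a,
    arg_neg_eq_arg_add_pi_of_im_neg h0]
  ring

theorem exists_bound (γ : Path a b) : ∃ R : ℝ, ∀ s, |(γ s).im| < R := by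
  obtain ⟨R, hR⟩ := (isCompact_range γ.continuous).isBounded.exists_norm_le
  exact ⟨R + 1, fun s => (abs_im_le_norm _).trans_lt (by linarith [hR _ ⟨s, rfl⟩])⟩

theorem vert_pre (c : ℝ) {Y : Set ℝ} (hY : IsPreconnected Y) :
    IsPreconnected ((fun y : ℝ => (c : ℂ) + y * Complex.I) '' Y) :=
  hY.image _ (by fun_prop)

/-- Above the highest point on a vertical line the side function is `π i`. -/
theorem sd_ray_up (γ : Path a b) {z : ℂ} (h1 : a.re ≤ z.re) (h2 : z.re ≤ b.re)
    (h : ∀ s, (γ s).re = z.re → (γ s).im < z.im) : (sd γ z).im = Real.pi := by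
  obtain ⟨R, hR⟩ := exists_bound γ
  rw [sd_const γ (vert_pre z.re (isPreconnected_Ici (a := z.im))) (z := z)
    (z' := z.re + (max R z.im : ℝ) * Complex.I) ?_ ?_ ⟨z.im, mem_Ici.mpr le_rfl, re_add_im z⟩
    ⟨_, mem_Ici.mpr (le_max_right _ _), rfl⟩]
  · exact sd_up γ fun s => by
      simpa using Or.inl (lt_of_abs_lt (hR s))
  · rintro _ ⟨y, hy, rfl⟩ ⟨s, hs⟩
    have := h s (by rw [hs]; simp)
    rw [hs] at this
    simp only [add_im, ofReal_im, mul_im, ofReal_re, I_im, mul_one, I_re, mul_zero, add_zero,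
      zero_add] at this
    exact absurd hy (not_le.mpr this)
  · rintro _ ⟨y, -, rfl⟩
    simpa using ⟨h1, h2⟩

theorem sd_ray_down (γ : Path a b) {z : ℂ} (h1 : a.re ≤ z.re) (h2 : z.re ≤ b.re)
    (h : ∀ s, (γ s).re = z.re → z.im < (γ s).im) : (sd γ z).im = -Real.pi := by
  obtain ⟨R, hR⟩ := exists_bound γ
  rw [sd_const γ (vert_pre z.re (isPreconnected_Iic (a := z.im))) (z := z)
    (z' := z.re + (min (-R) z.im : ℝ) * Complex.I) ?_ ?_ ⟨z.im, mem_Iic.mpr le_rfl, re_add_im z⟩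
    ⟨_, mem_Iic.mpr (min_le_right _ _), rfl⟩]
  · exact sd_down γ fun s => by
      simpa using Or.inl (neg_lt_of_abs_lt (hR s))
  · rintro _ ⟨y, hy, rfl⟩ ⟨s, hs⟩
    have := h s (by rw [hs]; simp)
    rw [hs] at this
    simp only [add_im, ofReal_im, mul_im, ofReal_re, I_im, mul_one, I_re, mul_zero, add_zero,
      zero_add] at this
    exact absurd hy (not_le.mpr this)
  · rintro _ ⟨y, -, rfl⟩
    simpa using ⟨h1, h2⟩

/-- Crossing lemma: a path from `a` to `b` meets every preconnected subset of the strip that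
contains a point above the path and a point below the path. -/
theorem cross (γ : Path a b) {Z : Set ℂ} (hZ : IsPreconnected Z)
    (h2 : ∀ z ∈ Z, a.re ≤ z.re ∧ z.re ≤ b.re) {z z' : ℂ} (hz : z ∈ Z) (hz' : z' ∈ Z)
    (hu : ∀ s, (γ s).re = z.re → (γ s).im < z.im)
    (hd : ∀ s, (γ s).re = z'.re → z'.im < (γ s).im) : ∃ s, γ s ∈ Z := by
  by_contra hc
  push Not at hc
  have h1 := sd_const γ hZ (by rintro _ hw ⟨s, rfl⟩; exact hc s hw) h2 hz hz'
  have h3 := sd_ray_up γ (h2 z hz).1 (h2 z hz).2 hu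
  rw [h1, sd_ray_down γ (h2 z' hz').1 (h2 z' hz').2 hd] at h3
  linarith [Real.pi_pos]

theorem core_aux (γ δ : Path a b) {c : ℝ} (hac : a.re < c) (hcb : c < b.re)
    (hs : ∀ s, a.re ≤ (γ s).re ∧ (γ s).re ≤ b.re)
    (hd : ∀ s : I, s ≠ 0 → s ≠ 1 → γ s ∉ range δ) {s1 : I} (h1 : (γ s1).re = c)
    (hmax : ∀ t, (δ t).re = c → (δ t).im ≤ (γ s1).im) :
    ∃ z, z ∉ range γ ∧ z ∉ range δ ∧ inc γ z ≠ inc δ z := by
  have hK : IsCompact {s : I | (γ s).re = c} :=
    (isClosed_eq (by fun_prop) continuous_const).isCompact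
  obtain ⟨s2, h2, hmin⟩ := hK.exists_isMinOn ⟨s1, h1⟩ (f := fun s => (γ s).im) (by fun_prop)
  have h2' : (γ s2).re = c := h2
  have hin : ∀ s : I, (γ s).re = c → s ≠ 0 ∧ s ≠ 1 := fun s h => by
    constructor <;> rintro rfl <;> simp at h <;> linarith
  have hm : γ s2 ∉ range δ := hd s2 (hin s2 h2').1 (hin s2 h2').2
  obtain ⟨r, hr, hb⟩ := Metric.isOpen_iff.mp
    (isCompact_range δ.continuous).isClosed.isOpen_compl _ hm
  set z : ℂ := c + ((γ s2).im - r / 2 : ℝ) * Complex.I with hz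
  have hzr : z.re = c := by simp [hz]
  have hzi : z.im = (γ s2).im - r / 2 := by simp [hz]
  have hlow : ∀ s, (γ s).re = z.re → z.im < (γ s).im := fun s h => by
    have : (γ s2).im ≤ (γ s).im := hmin (h.trans hzr)
    linarith
  have hzγ : z ∉ range γ := by
    rintro ⟨s, h⟩
    exact absurd (hlow s (by rw [h])) (by rw [h]; exact lt_irrefl _)
  have hseg : ∀ y ∈ Icc ((γ s2).im - r / 2) (γ s2).im, (c : ℂ) + y * Complex.I ∉ range δ := by
    intro y hy
    refine hb (mem_ball_iff_norm.mpr ?_)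
    have : (c : ℂ) + y * Complex.I - γ s2 = (y - (γ s2).im : ℝ) * Complex.I := by
      apply Complex.ext <;> simp [h2']
    rw [this, norm_mul, norm_I, mul_one, norm_real, Real.norm_eq_abs, abs_lt]
    constructor <;> linarith [hy.1, hy.2]
  have hzδ : z ∉ range δ := hseg _ ⟨le_rfl, by linarith⟩
  refine ⟨z, hzγ, hzδ, fun he => ?_⟩
  have e1 : (sd γ z).im = -Real.pi := sd_ray_down γ (by linarith) (by linarith) hlow
  have e2 : sd δ z = sd δ (γ s2) := by
    refine sd_const δ (vert_pre c (isPreconnected_Icc (a := (γ s2).im - r / 2) (b := (γ s2).im)))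
      ?_ ?_ ⟨_, ⟨le_rfl, by linarith⟩, rfl⟩ ⟨_, ⟨by linarith, le_rfl⟩, by
        apply Complex.ext <;> simp [h2']⟩
    · rintro _ ⟨y, hy, rfl⟩
      exact hseg y hy
    · rintro _ ⟨y, -, rfl⟩
      simpa using ⟨hac.le, hcb.le⟩
  have e3 : sd δ (γ s2) = sd δ (γ s1) := by
    refine sd_const δ ((isPreconnected_uIcc (a := s1) (b := s2)).image γ γ.continuous.continuousOn)
      ?_ ?_ ⟨_, right_mem_uIcc, rfl⟩ ⟨_, left_mem_uIcc, rfl⟩
    · rintro _ ⟨s, hs', rfl⟩
      refine hd s ?_ ?_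
      · rintro rfl
        rcases mem_uIcc.mp hs' with h | h
        · exact (hin s1 h1).1 (le_antisymm h.1 nonneg')
        · exact (hin s2 h2').1 (le_antisymm h.1 nonneg')
      · rintro rfl
        rcases mem_uIcc.mp hs' with h | h
        · exact (hin s2 h2').2 (le_antisymm le_one' h.2)
        · exact (hin s1 h1).2 (le_antisymm le_one' h.2)
    · rintro _ ⟨s, -, rfl⟩
      exact hs s
  have e4 : (sd δ (γ s1)).im = Real.pi := by
    refine sd_ray_up δ (hs s1).1 (hs s1).2 fun t ht => ?_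
    refine lt_of_le_of_ne (hmax t (ht.trans h1)) fun h => ?_
    exact hd s1 (hin s1 h1).1 (hin s1 h1).2 ⟨t, Complex.ext ht h⟩
  have e5 : sd γ z = sd δ z := by rw [sd, sd, he]
  rw [e5, e2, e3, e4] at e1
  linarith [Real.pi_pos]

/-- Two paths from `a` to `b` in the strip that meet only at the ends wind around some point. -/
theorem core (γ δ : Path a b) (hab : a.re < b.re)
    (hs : ∀ s, a.re ≤ (γ s).re ∧ (γ s).re ≤ b.re) (hs' : ∀ s, a.re ≤ (δ s).re ∧ (δ s).re ≤ b.re)
    (hd : ∀ s : I, s ≠ 0 → s ≠ 1 → γ s ∉ range δ)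
    (hd' : ∀ s : I, s ≠ 0 → s ≠ 1 → δ s ∉ range γ) :
    ∃ z, z ∉ range γ ∧ z ∉ range δ ∧ inc γ z ≠ inc δ z := by
  set c := (a.re + b.re) / 2 with hc
  have hac : a.re < c := by linarith
  have hcb : c < b.re := by linarith
  have key : ∀ η : Path a b, ∃ s, (η s).re = c ∧ ∀ t, (η t).re = c → (η t).im ≤ (η s).im := by
    intro η
    have hK : IsCompact {s : I | (η s).re = c} :=
      (isClosed_eq (by fun_prop) continuous_const).isCompact
    have hne : {s : I | (η s).re = c}.Nonempty :=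
      intermediate_value_univ 0 1 (f := fun s => (η s).re) (by fun_prop)
        (by simpa using ⟨hac.le, hcb.le⟩)
    obtain ⟨s, h1, h2⟩ := hK.exists_isMaxOn hne (f := fun s => (η s).im) (by fun_prop)
    exact ⟨s, h1, fun t ht => h2 ht⟩
  obtain ⟨s, h1, h2⟩ := key γ
  obtain ⟨t, h3, h4⟩ := key δ
  rcases le_total (δ t).im (γ s).im with h | h
  · exact core_aux γ δ hac hcb hs hd h1 fun u hu => (h4 u hu).trans h
  · obtain ⟨z, a1, a2, a3⟩ := core_aux δ γ hac hcb hs' hd' h3 fun u hu => (h2 u hu).trans h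
    exact ⟨z, a2, a1, a3.symm⟩

/-- The difference of the increments along two paths is constant on preconnected sets off the
paths. -/
theorem inc_sub_const (γ δ : Path a b) {Z : Set ℂ} (hZ : IsPreconnected Z)
    (h1 : ∀ z ∈ Z, z ∉ range γ) (h2 : ∀ z ∈ Z, z ∉ range δ) {z z' : ℂ} (hz : z ∈ Z)
    (hz' : z' ∈ Z) : inc γ z - inc δ z = inc γ z' - inc δ z' := by
  refine const_of_exp hZ (g := fun z => inc γ z - inc δ z) (c := 1)
    (((continuousOn_inc γ).mono h1).sub ((continuousOn_inc δ).mono h2)) (fun w hw => ?_) hz hz'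
  rw [exp_sub, exp_inc γ (h1 w hw), ← exp_inc δ (h2 w hw), div_self (exp_ne_zero _)]

theorem inc_far (γ δ : Path a b) {z : ℂ} (h : ∀ s, (γ s).im ≠ z.im) (h' : ∀ s, (δ s).im ≠ z.im) :
    inc γ z = inc δ z := by
  have := (sd_far γ h).trans (sd_far δ h').symm
  simpa [sd] using this

theorem jordan_aux {lam : Circle → ℂ} (hc : Continuous lam) (hi : Function.Injective lam)
    (hre : ∃ u v, (lam u).re < (lam v).re) : ¬ IsPreconnected (range lam)ᶜ := by
  intro hpre
  obtain ⟨u, -, hu⟩ := isCompact_univ.exists_isMinOn univ_nonempty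
    (f := fun u => (lam u).re) (by fun_prop)
  obtain ⟨v, -, hv⟩ := isCompact_univ.exists_isMaxOn univ_nonempty
    (f := fun u => (lam u).re) (by fun_prop)
  have hst : ∀ x, (lam u).re ≤ (lam x).re ∧ (lam x).re ≤ (lam v).re := fun x =>
    ⟨hu (mem_univ x), hv (mem_univ x)⟩
  have hlt : (lam u).re < (lam v).re := by
    obtain ⟨x, y, h⟩ := hre
    linarith [(hst x).1, (hst y).2]
  have huv : u ≠ v := by rintro rfl; exact lt_irrefl _ hlt
  have key : ∀ {x y : Circle}, x ≠ y → ∀ s : I, s ≠ 0 → s ≠ 1 →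
      Circle.path x y s ∉ range (Circle.path y x) := by
    intro x y hxy s h0 h1
    show Circle.path x y s ∈ (range (Circle.path y x))ᶜ
    rw [Circle.compl_range_path hxy.symm]
    exact ⟨s, ⟨lt_of_le_of_ne nonneg' h0.symm, lt_of_le_of_ne le_one' h1⟩, rfl⟩
  set γ := (Circle.path u v).map hc with hγ
  set δ := (Circle.path v u).symm.map hc with hδ
  have hγr : ∀ z ∈ (range lam)ᶜ, z ∉ range γ := by
    rintro _ h ⟨s, rfl⟩; exact h ⟨_, rfl⟩
  have hδr : ∀ z ∈ (range lam)ᶜ, z ∉ range δ := by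
    rintro _ h ⟨s, rfl⟩; exact h ⟨_, rfl⟩
  obtain ⟨z, h1, h2, h3⟩ := core γ δ hlt (fun s => hst _) (fun s => hst _)
    (by
      rintro s h0 h1 ⟨t, ht⟩
      exact key huv s h0 h1 ⟨σ t, hi ht⟩)
    (by
      rintro s h0 h1 ⟨t, ht⟩
      exact key huv.symm (σ s) (by simpa using h1) (by simpa using h0) ⟨t, hi ht⟩)
  have hz : z ∈ (range lam)ᶜ := by
    rintro ⟨x, rfl⟩
    have hx : x ∈ range (Circle.path u v) ∪ range (Circle.path v u) := by
      rw [Circle.range_path_union_range_path huv]; exact mem_univ x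
    rcases hx with ⟨s, rfl⟩ | ⟨s, rfl⟩
    · exact h1 ⟨s, rfl⟩
    · exact h2 ⟨σ s, by simp [hδ, Path.symm_apply]⟩
  obtain ⟨R, hR⟩ := (isCompact_range hc).isBounded.exists_norm_le
  have hw : ∀ x, (lam x).im ≠ (((R + 1 : ℝ) : ℂ) * Complex.I).im := fun x => by
    have := (le_abs_self _).trans ((abs_im_le_norm _).trans (hR _ ⟨x, rfl⟩))
    simp only [mul_im, ofReal_re, I_im, mul_one, ofReal_im, I_re, mul_zero, add_zero]
    linarith
  have h4 := inc_sub_const γ δ hpre hγr hδr hz (z' := ((R + 1 : ℝ) : ℂ) * Complex.I) (by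
    rintro ⟨x, hx⟩
    exact hw x (by rw [hx]))
  rw [inc_far γ δ (fun s => hw _) (fun s => hw _), sub_self] at h4
  exact h3 (sub_eq_zero.mp h4)

/-- The Jordan separation theorem. -/
theorem jordan_sep {lam : Circle → ℂ} (hc : Continuous lam) (hi : Function.Injective lam) :
    ¬ IsPreconnected (range lam)ᶜ := by
  intro hpre
  set d := lam 1 - lam (-1) with hd
  have hd0 : d ≠ 0 := fun h => by
    have := congrArg (fun u : Circle => (u : ℂ).re) (hi (sub_eq_zero.mp h))
    norm_num at this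
  have hc0 : (starRingEnd ℂ) d ≠ 0 := by simpa using hd0
  refine jordan_aux (lam := fun u => (starRingEnd ℂ) d * lam u) (by fun_prop)
    (fun x y h => hi (mul_left_cancel₀ hc0 h)) ⟨-1, 1, ?_⟩ ?_
  · rw [← sub_pos, ← sub_re, ← mul_sub, ← hd, mul_comm, mul_conj, ofReal_re]
    exact normSq_pos.mpr hd0
  · have := hpre.image (fun z => (starRingEnd ℂ) d * z) (by fun_prop)
    convert this using 1
    ext z
    constructor
    · intro hz
      refine ⟨z / (starRingEnd ℂ) d, ?_, mul_div_cancel₀ _ hc0⟩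
      rintro ⟨x, hx⟩
      exact hz ⟨x, by simp only [hx]; exact mul_div_cancel₀ _ hc0⟩
    · rintro ⟨w, hw, rfl⟩ ⟨x, hx⟩
      exact hw ⟨x, mul_left_cancel₀ hc0 hx⟩

end KKJS
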