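import Pool.Agent.Lib.MP_e1e491_gt.PDRet
import Pool.Agent.Lib.MP_e1e491_gt.JS

/-! Homeomorphisms of `Z` permute the circles `P j`. -/

namespace KKC

open Set Topology Filter Pr
open scoped Pointwise

/-- An open connected plane set without countably many points is path connected. -/
theorem pr_joinedIn_diff {W s : Set ℂ} (hW : IsOpen W) (hc : IsPreconnected W) (hs : s.Countable)
    {x y : ℂ} (hx : x ∈ W \ s) (hy : y ∈ W \ s) : JoinedIn (W \ s) x y := by
  have key := hc.induction₂' (fun x y => ∀ᶠ x' in 𝓝 x, ∀ᶠ y' in 𝓝 y,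
      x' ∉ s → y' ∉ s → JoinedIn (W \ s) x' y') (fun x hx => ?_) ?_ hx.1 hy.1
  · exact key.self_of_nhds.self_of_nhds hx.2 hy.2
  · obtain ⟨r, hr, hb⟩ := Metric.isOpen_iff.mp hW x hx
    have h1 : ∀ u ∈ Metric.ball x r, ∀ v ∈ Metric.ball x r, ∀ᶠ x' in 𝓝 u, ∀ᶠ y' in 𝓝 v,
        x' ∉ s → y' ∉ s → JoinedIn (W \ s) x' y' := by
      intro u hu v hv
      filter_upwards [Metric.isOpen_ball.mem_nhds hu] with x' hx'
      filter_upwards [Metric.isOpen_ball.mem_nhds hv] with y' hy' h1 h2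
      exact ((isPathConnected_ball_diff x hr hs).joinedIn x' ⟨hx', h1⟩ y' ⟨hy', h2⟩).mono
        (sdiff_subset_sdiff_left hb)
    filter_upwards [mem_nhdsWithin_of_mem_nhds (Metric.ball_mem_nhds x hr)] with y hy
    exact ⟨h1 x (Metric.mem_ball_self hr) y hy, h1 y hy x (Metric.mem_ball_self hr)⟩
  · intro x y z _ _ _ h1 h2
    filter_upwards [h1] with x' hx'
    obtain ⟨y', hy1, hy2, hy3⟩ : ∃ y', y' ∉ s ∧ (x' ∉ s → y' ∉ s → JoinedIn (W \ s) x' y') ∧
        ∀ᶠ z' in 𝓝 z, y' ∉ s → z' ∉ s → JoinedIn (W \ s) y' z' := by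
      obtain ⟨y', a1, a2⟩ := (hs.dense_compl ℝ).inter_nhds_nonempty (hx'.and h2)
      exact ⟨y', a1, a2.1, a2.2⟩
    filter_upwards [hy3] with z' hz' a1 a2
    exact (hy2 a1 hy1).trans (hz' hy1 a2)

namespace PD

variable {Z J : Type} [TopologicalSpace Z] [CompactSpace Z] (Q : PD Z J)

/-- The retraction of a connected open set that meets no hole whose circle meets `C`. -/
theorem pr_joinedIn_of_open {W : Set ℂ} (hW : IsOpen W) (hc : IsPreconnected W) {U : Set Z}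
    (h1 : ∀ z, Q.ι z ∈ W → z ∈ U) (h2 : ∀ j, (W ∩ Q.D j).Nonempty → Q.P j ⊆ U) {x y : Z}
    (hx : Q.ι x ∈ W) (hy : Q.ι y ∈ W) : JoinedIn U x y := by
  have h3 := pr_joinedIn_diff hW hc Q.to0.cen_countable ⟨hx, Q.to0.not_cen x⟩ ⟨hy, Q.to0.not_cen y⟩
  have h4 := h3.map_continuousOn (Q.to0.continuousOn_ret.mono fun _ h => h.2)
  rw [show Q.ι x = Q.to0.ι x from rfl, show Q.ι y = Q.to0.ι y from rfl, Q.to0.ret_ι,
    Q.to0.ret_ι] at h4
  refine h4.mono ?_
  rintro _ ⟨v, hv, rfl⟩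
  rcases Q.cover v with ⟨z, rfl⟩ | ⟨j, hj⟩
  · rw [show Q.ι z = Q.to0.ι z from rfl, Q.to0.ret_ι]
    exact h1 z hv.1
  · exact h2 j ⟨v, hv.1, hj⟩ (Q.to0.ret_mem hj)

/-- The complement of a circle is path connected. -/
theorem pr_joinedIn_compl_P (j : J) {x y : Z} (hx : x ∉ Q.P j) (hy : y ∉ Q.P j) :
    JoinedIn (Q.P j)ᶜ x y := by
  have hm : ∀ {z}, z ∈ Q.P j ↔ sn (Q.ι z - Q.c j) = Q.r j := Q.to0.mem_P
  have hk : ∀ k, k ≠ j → Q.P k ⊆ (Q.P j)ᶜ := fun k hk =>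
    (Q.P_disj k j hk).subset_compl_right
  by_cases h : j = Q.o
  · subst h
    have hz : ∀ z, z ∉ Q.P Q.o → sn (Q.ι z - Q.c Q.o) < Q.r Q.o := fun z hz => by
      have := Q.not_mem z Q.o
      rw [Q.D_out] at this
      exact lt_of_le_of_ne (not_lt.mp this) fun h => hz (hm.mpr h)
    refine Q.pr_joinedIn_of_open (W := {v | sn (v - Q.c Q.o) < Q.r Q.o}) (U := (Q.P Q.o)ᶜ)
      (isOpen_lt (by fun_prop) continuous_const) ?_ (fun z h1 h2 => (ne_of_lt h1) ((hm (z := z)).mp h2))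
      (fun k ⟨v, h1, h2⟩ => hk k ?_) (hz x hx) (hz y hy)
    · simpa [sn_nonneg] using
        isPreconnected_sn (Q.c Q.o) (T := Ico 0 (Q.r Q.o)) (fun t ht => ht.1) isPreconnected_Ico
    · rintro rfl
      rw [Q.D_out] at h2
      exact lt_asymm (mem_ofPred.mp h1) (mem_ofPred.mp h2)
  · have hz : ∀ z, z ∉ Q.P j → Q.r j < sn (Q.ι z - Q.c j) := fun z hz => by
      have := Q.not_mem z j
      rw [Q.D_in j h] at this
      exact lt_of_le_of_ne (not_lt.mp this) fun h => hz (hm.mpr h.symm)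
    refine Q.pr_joinedIn_of_open (W := {v | Q.r j < sn (v - Q.c j)}) (U := (Q.P j)ᶜ)
      (isOpen_lt continuous_const (by fun_prop)) ?_ (fun z h1 h2 => (ne_of_gt h1) ((hm (z := z)).mp h2))
      (fun k ⟨v, h1, h2⟩ => hk k ?_) (hz x hx) (hz y hy)
    · exact isPreconnected_sn _ (T := Ioi (Q.r j)) (fun t ht => ((Q.r_pos _).trans ht).le)
        isPreconnected_Ioi
    · rintro rfl
      rw [Q.D_in k h] at h2
      exact lt_asymm (mem_ofPred.mp h1) (mem_ofPred.mp h2)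

theorem pr_isPreconnected_compl_P (j : J) : IsPreconnected (Q.P j)ᶜ :=
  isPreconnected_of_forall_pair fun x hx y hy => by
    obtain ⟨γ, hγ⟩ := Q.pr_joinedIn_compl_P j hx hy
    exact ⟨range γ, range_subset_iff.mpr hγ, ⟨0, γ.source⟩, ⟨1, γ.target⟩,
      isPreconnected_range γ.continuous⟩

omit [CompactSpace Z] in
/-- A simple closed curve with connected complement contains one of the circles. -/
theorem pr_exists_P_subset {lam : Circle → Z} (hc : Continuous lam) (hi : Function.Injective lam)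
    (h : IsPreconnected (range lam)ᶜ) : ∃ k, Q.P k ⊆ range lam := by
  by_contra hne
  push Not at hne
  refine KKJS.jordan_sep (Q.ι_cont.comp hc) (Q.ι_inj.comp hi) ?_
  obtain ⟨x0, -, hx0⟩ := not_subset.mp (hne Q.o)
  have h1 : IsPreconnected (Q.ι '' (range lam)ᶜ) := h.image _ Q.ι_cont.continuousOn
  have h2 : Q.ι '' (range lam)ᶜ ⊆ (range (Q.ι ∘ lam))ᶜ := by
    rintro _ ⟨z, hz, rfl⟩ ⟨u, hu⟩
    exact hz ⟨u, Q.ι_inj hu⟩
  refine isPreconnected_of_forall (Q.ι x0) fun v hv => ?_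
  rcases Q.cover v with ⟨z, rfl⟩ | ⟨k, hk⟩
  · exact ⟨_, h2, ⟨x0, hx0, rfl⟩, ⟨z, fun ⟨u, hu⟩ => hv ⟨u, by simp [hu]⟩, rfl⟩, h1⟩
  · obtain ⟨z, hz, hz'⟩ := not_subset.mp (hne k)
    refine ⟨Q.ι '' (range lam)ᶜ ∪ insert (Q.ι z) (Q.D k), union_subset h2 ?_,
      Or.inl ⟨x0, hx0, rfl⟩, Or.inr (Or.inr hk), ?_⟩
    · rintro w (rfl | hw)
      · exact h2 ⟨z, hz', rfl⟩
      · rintro ⟨u, rfl⟩
        exact Q.not_mem _ k hw
    · refine h1.union (Q.ι z) ⟨z, hz', rfl⟩ (mem_insert _ _) ?_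
      exact (Q.to0.isPreconnected_D k).subset_closure (subset_insert _ _)
        (insert_subset (Q.to0.mem_closure_D hz) subset_closure)

theorem pr_exists_P_subset_image (h : Z ≃ₜ Z) (j : J) : ∃ k, Q.P k ⊆ h '' Q.P j := by
  obtain ⟨lam, h1, h2, h3, -⟩ := Q.to0.exists_param j
  have h4 : range (h ∘ lam) = h '' Q.P j := by rw [range_comp, h3]; rfl
  rw [← h4]
  refine Q.pr_exists_P_subset (h.continuous.comp h1) (h.injective.comp h2) ?_
  rw [h4, ← h.image_compl]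
  exact (Q.pr_isPreconnected_compl_P j).image _ h.continuous.continuousOn

omit [CompactSpace Z] in
theorem pr_eq_of_mem_P {i j : J} {z : Z} (hi : z ∈ Q.P i) (hj : z ∈ Q.P j) : i = j := by
  by_contra h
  exact disjoint_left.mp (Q.P_disj i j h) hi hj

omit [CompactSpace Z] in
theorem pr_P_inj : Function.Injective Q.P := fun i j h => by
  obtain ⟨z, hz⟩ := Q.to0.P_nonempty i
  exact Q.pr_eq_of_mem_P hz (h ▸ hz)

/-- Homeomorphisms permute the circles. -/
theorem pr_exists_image_P (h : Z ≃ₜ Z) (j : J) : ∃ k, Q.P k = h '' Q.P j := by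
  obtain ⟨k, hk⟩ := Q.pr_exists_P_subset_image h j
  obtain ⟨i, hi⟩ := Q.pr_exists_P_subset_image h.symm k
  have h1 : h.symm '' Q.P k ⊆ Q.P j := by
    rintro _ ⟨z, hz, rfl⟩
    obtain ⟨w, hw, rfl⟩ := hk hz
    simpa using hw
  obtain ⟨z, hz⟩ := Q.to0.P_nonempty i
  obtain rfl : i = j := Q.pr_eq_of_mem_P hz (h1 (hi hz))
  refine ⟨k, hk.antisymm ?_⟩
  rintro _ ⟨w, hw, rfl⟩
  obtain ⟨u, hu, rfl⟩ := hi hw
  simpa using hu

/-- The action on the holes. -/
theorem exists_act (G : Type) [Group G] [MulAction G Z] [ContinuousConstSMul G Z] :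
    ∃ _ : MulAction G J, ∀ (g : G) (j : J), Q.P (g • j) = g • Q.P j := by
  have h : ∀ (g : G) (j : J), ∃ k, Q.P k = g • Q.P j := fun g j =>
    Q.pr_exists_image_P (Homeomorph.smul g) j
  choose f hf using h
  exact ⟨{ smul := f
           one_smul := fun j => Q.pr_P_inj (by
             show Q.P (f 1 j) = Q.P j
             rw [hf, one_smul])
           mul_smul := fun g g' j => Q.pr_P_inj (by
             show Q.P (f (g * g') j) = Q.P (f g (f g' j))
             rw [hf, hf, hf, mul_smul]) }, hf⟩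

end PD

/-- The group permutes the holes. -/
theorem exists_CS {G Z J : Type} [Group G] [MetricSpace Z] [CompactSpace Z] [MulAction G Z]
    [ContinuousConstSMul G Z] (Q : PD Z J) :
    ∃ _ : MulAction G J, ∀ (g : G) (j : J), Q.P (g • j) = g • Q.P j := Q.exists_act G

end KKC
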