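import Pool.Agent.Lib.MP_e1e491_gt.Defs

/-! Basic estimates for `HB`: scales, comparison of `q` with the metric, the Moebius formula on `Z`,
convergence property. All proofs are short computations with the fields of `HB`. -/

namespace KKC.HB

open Set
open scoped Pointwise

variable {G Z : Type} [Group G] [MetricSpace Z] [MulAction G Z] (H : HB G Z)

theorem sc_pos (g : G) : 0 < H.sc g := Real.rpow_pos_of_pos (one_pos.trans H.ha) _

theorem sc_le_one (g : G) : H.sc g ≤ 1 :=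
  Real.rpow_le_one_of_one_le_of_nonpos H.ha.le (neg_nonpos.2 (Nat.cast_nonneg _))

theorem sc_one : H.sc 1 = 1 := by simp [sc, (H.len_eq_zero 1).2 rfl]

theorem sc_inv (g : G) : H.sc g⁻¹ = H.sc g := by rw [sc, H.len_inv, sc]

theorem sc_mul (g h : G) : H.sc g * H.sc h ≤ H.sc (g * h) := by
  rw [sc, sc, sc, ← Real.rpow_add (one_pos.trans H.ha), Real.rpow_le_rpow_left_iff H.ha]
  have : (H.len (g * h) : ℝ) ≤ H.len g + H.len h := by exact_mod_cast H.len_mul g h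
  linarith

theorem sc_le_sc {g h : G} : H.sc g ≤ H.sc h ↔ H.len h ≤ H.len g := by
  rw [sc, sc, Real.rpow_le_rpow_left_iff H.ha, neg_le_neg_iff, Nat.cast_le]

theorem v1_lt {ε : ℝ} (hε : 0 < ε) : ∃ n : ℕ, ∀ g, n ≤ H.len g → H.sc g < ε := by
  obtain ⟨n, hn⟩ := exists_pow_lt_of_lt_one hε (inv_lt_one_of_one_lt₀ H.ha)
  refine ⟨n, fun g hg => lt_of_le_of_lt ?_ hn⟩
  rw [inv_pow, ← Real.rpow_natCast, ← Real.rpow_neg (one_pos.trans H.ha).le, sc,
    Real.rpow_le_rpow_left_iff H.ha, neg_le_neg_iff, Nat.cast_le]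
  exact hg

theorem finite_sc {ε : ℝ} (hε : 0 < ε) : {g | ε ≤ H.sc g}.Finite := by
  obtain ⟨n, hn⟩ := H.v1_lt hε
  refine (H.fin n).subset fun g hg => ?_
  by_contra h
  exact absurd (hn g (not_le.1 h).le) (not_lt.2 hg)

/-- Deep elements have small scale. -/
theorem exists_sc_lt {ε : ℝ} (hε : 0 < ε) : ∃ n : ℕ, ∀ g, n ≤ H.len g → H.sc g < ε := H.v1_lt hε

/-- Small scale means deep. -/
theorem exists_len_gt (n : ℕ) : ∃ ε > 0, ∀ g, H.sc g < ε → n < H.len g := by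
  refine ⟨H.a ^ (-(n : ℝ)), Real.rpow_pos_of_pos (one_pos.trans H.ha) _, fun g hg => ?_⟩
  rwa [sc, Real.rpow_lt_rpow_left_iff H.ha, neg_lt_neg_iff, Nat.cast_lt] at hg

theorem q_self (g : G) : H.q (.inl g) (.inl g) = H.sc g := by
  rw [H.q_GG, inv_mul_cancel, (H.len_eq_zero 1).2 rfl, sc]
  congr 1; push_cast; ring

theorem q_one (g : G) : H.q (.inl 1) (.inl g) = 1 := by
  rw [H.q_GG, inv_one, one_mul, (H.len_eq_zero 1).2 rfl]
  simp

theorem sc_le_q (x : G ⊕ Z) (g : G) : H.sc g ≤ H.C * H.q x (.inl g) := by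
  have h := H.ultra (.inl g) x (.inl g)
  rwa [H.q_self, H.q_comm (.inl g) x, max_self] at h

theorem one_le_q_one (x : G ⊕ Z) : 1 ≤ H.C * H.q x (.inl 1) := by
  have h := H.sc_le_q x 1
  rwa [H.sc_one] at h

theorem dist_le_C (x y : Z) : dist x y ≤ H.C :=
  (H.le_q x y).trans (mul_le_of_le_one_right (zero_le_one.trans H.hC) (H.q_le_one _ _))

theorem q_cmp : ∃ C₁ : ℝ, 1 ≤ C₁ ∧ ∀ ξ g,
    H.q (.inr ξ) (.inl g) ≤ C₁ * max (dist ξ (H.loc g)) (H.sc g) ∧
    max (dist ξ (H.loc g)) (H.sc g) ≤ C₁ * H.q (.inr ξ) (.inl g) := by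
  have hC := H.hC
  have h0 : 0 ≤ H.C := by linarith
  refine ⟨H.C ^ 4, one_le_pow₀ hC, fun ξ g => ⟨?_, max_le ?_ ?_⟩⟩
  · have hm : 0 ≤ max (dist ξ (H.loc g)) (H.sc g) := dist_nonneg.trans (le_max_left _ _)
    calc _ ≤ H.C * max (H.q (.inr ξ) (.inr (H.loc g))) (H.q (.inr (H.loc g)) (.inl g)) :=
          H.ultra _ _ _
      _ ≤ H.C * (H.C * max (dist ξ (H.loc g)) (H.sc g)) := by
          refine mul_le_mul_of_nonneg_left (max_le ?_ ?_) h0
          · exact (H.q_le _ _).trans (mul_le_mul_of_nonneg_left (le_max_left _ _) h0)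
          · exact (H.q_loc g).trans (mul_le_mul_of_nonneg_left (le_max_right _ _) h0)
      _ = H.C ^ 2 * max (dist ξ (H.loc g)) (H.sc g) := by ring
      _ ≤ _ := mul_le_mul_of_nonneg_right (pow_le_pow_right₀ hC (by norm_num)) hm
  · have hq := H.q_nonneg (.inr ξ) (.inl g)
    calc _ ≤ H.C * H.q (.inr ξ) (.inr (H.loc g)) := H.le_q _ _
      _ ≤ H.C * (H.C * max (H.q (.inr ξ) (.inl g)) (H.q (.inl g) (.inr (H.loc g)))) :=
          mul_le_mul_of_nonneg_left (H.ultra _ _ _) h0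
      _ ≤ H.C * (H.C * (H.C * (H.C * H.q (.inr ξ) (.inl g)))) := by
          refine mul_le_mul_of_nonneg_left (mul_le_mul_of_nonneg_left (max_le ?_ ?_) h0) h0
          · exact (le_mul_of_one_le_left hq hC).trans (le_mul_of_one_le_left (by positivity) hC)
          · rw [H.q_comm]
            exact (H.q_loc g).trans (mul_le_mul_of_nonneg_left (H.sc_le_q _ g) h0)
      _ = _ := by ring
  · exact (H.sc_le_q _ g).trans (mul_le_mul_of_nonneg_right (le_self_pow₀ hC (by norm_num))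
      (H.q_nonneg _ _))

theorem q_cmpG : ∃ C₁ : ℝ, 1 ≤ C₁ ∧ ∀ g h,
    H.q (.inl g) (.inl h) ≤ C₁ * max (dist (H.loc g) (H.loc h)) (max (H.sc g) (H.sc h)) ∧
    max (dist (H.loc g) (H.loc h)) (max (H.sc g) (H.sc h)) ≤ C₁ * H.q (.inl g) (.inl h) := by
  obtain ⟨C₁, h1, h⟩ := H.q_cmp
  have hC := H.hC
  have h0 : 0 ≤ H.C := by linarith
  have h3 : H.C ≤ C₁ * H.C ^ 3 :=
    (le_self_pow₀ hC (by norm_num)).trans (le_mul_of_one_le_left (by positivity) h1)
  refine ⟨C₁ * H.C ^ 3, hC.trans h3, fun g k => ⟨?_, max_le ?_ (max_le ?_ ?_)⟩⟩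
  · set m := max (dist (H.loc g) (H.loc k)) (max (H.sc g) (H.sc k)) with hm
    have hm0 : 0 ≤ m := dist_nonneg.trans (le_max_left _ _)
    calc _ ≤ H.C * max (H.q (.inl g) (.inr (H.loc g))) (H.q (.inr (H.loc g)) (.inl k)) :=
          H.ultra _ _ _
      _ ≤ H.C * (C₁ * H.C * m) := by
          refine mul_le_mul_of_nonneg_left (max_le ?_ ?_) h0
          · rw [H.q_comm]
            refine (H.q_loc g).trans (mul_le_mul (le_mul_of_one_le_left h0 h1) ?_
              (H.sc_pos g).le (by positivity))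
            exact (le_max_left _ _).trans (le_max_right _ _)
          · refine (h _ k).1.trans (mul_le_mul (le_mul_of_one_le_right (by linarith) hC) ?_
              (dist_nonneg.trans (le_max_left _ _)) (by positivity))
            exact max_le_max le_rfl (le_max_right _ _)
      _ = C₁ * H.C ^ 2 * m := by ring
      _ ≤ _ := mul_le_mul_of_nonneg_right (mul_le_mul_of_nonneg_left
          (pow_le_pow_right₀ hC (by norm_num)) (by linarith)) hm0
  · have hq := H.q_nonneg (.inl g) (.inl k)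
    calc _ ≤ C₁ * H.q (.inr (H.loc g)) (.inl k) := (le_max_left _ _).trans (h _ k).2
      _ ≤ C₁ * (H.C * max (H.q (.inr (H.loc g)) (.inl g)) (H.q (.inl g) (.inl k))) :=
          mul_le_mul_of_nonneg_left (H.ultra _ _ _) (by linarith)
      _ ≤ C₁ * (H.C * (H.C * (H.C * H.q (.inl g) (.inl k)))) := by
          refine mul_le_mul_of_nonneg_left (mul_le_mul_of_nonneg_left (max_le ?_ ?_) h0)
            (by linarith)
          · rw [H.q_comm (.inl g)]
            exact (H.q_loc g).trans (mul_le_mul_of_nonneg_left (H.sc_le_q _ g) h0)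
          · exact (le_mul_of_one_le_left hq hC).trans (le_mul_of_one_le_left (by positivity) hC)
      _ = _ := by ring
  · rw [H.q_comm]
    exact (H.sc_le_q _ g).trans (mul_le_mul_of_nonneg_right h3 (H.q_nonneg _ _))
  · exact (H.sc_le_q _ k).trans (mul_le_mul_of_nonneg_right h3 (H.q_nonneg _ _))

/-- `q (g, g s) ≤ sc g / sc s`. -/
theorem q_mul_right (g s : G) : H.q (.inl g) (.inl (g * s)) * H.sc s ≤ H.sc g := by
  rw [H.q_GG, inv_mul_cancel_left, sc, sc, ← Real.rpow_add (one_pos.trans H.ha),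
    Real.rpow_le_rpow_left_iff H.ha]
  have h := H.len_mul (g * s) s⁻¹
  rw [mul_inv_cancel_right, H.len_inv] at h
  have : (H.len g : ℝ) ≤ H.len (g * s) + H.len s := by exact_mod_cast h
  linarith

/-- `q g h ^ 2 * sc (g⁻¹ h) = sc g * sc h`. -/
theorem q_sq (g h : G) : H.q (.inl g) (.inl h) ^ 2 * H.sc (g⁻¹ * h) = H.sc g * H.sc h := by
  have h0 := one_pos.trans H.ha
  rw [H.q_GG, sc, sc, sc, sq, ← Real.rpow_add h0, ← Real.rpow_add h0, ← Real.rpow_add h0]
  congr 1; ring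

theorem q_step : ∃ C₁ : ℝ, 1 ≤ C₁ ∧ ∀ x g s,
    H.q x (.inl (g * s)) * H.sc s ≤ C₁ * H.q x (.inl g) := by
  have hC := H.hC
  have h0 : 0 ≤ H.C := by linarith
  refine ⟨H.C * H.C, by nlinarith, fun x g s => ?_⟩
  have hq := H.q_nonneg x (.inl g)
  have hs := (H.sc_pos s).le
  calc _ ≤ H.C * max (H.q x (.inl g)) (H.q (.inl g) (.inl (g * s))) * H.sc s :=
        mul_le_mul_of_nonneg_right (H.ultra _ _ _) hs
    _ = H.C * max (H.q x (.inl g) * H.sc s) (H.q (.inl g) (.inl (g * s)) * H.sc s) := by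
        rw [mul_assoc, max_mul_of_nonneg _ _ hs]
    _ ≤ H.C * (H.C * H.q x (.inl g)) := by
        refine mul_le_mul_of_nonneg_left (max_le ?_ ((H.q_mul_right g s).trans (H.sc_le_q x g))) h0
        exact (mul_le_of_le_one_right hq (H.sc_le_one s)).trans (le_mul_of_one_le_left hq hC)
    _ = _ := by ring

theorem loc_step : ∃ C₁ : ℝ, 1 ≤ C₁ ∧ ∀ g s,
    dist (H.loc g) (H.loc (g * s)) * H.sc s ≤ C₁ * H.sc g := by
  obtain ⟨C₁, h1, h⟩ := H.q_cmpG
  refine ⟨C₁, h1, fun g s => ?_⟩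
  calc _ ≤ C₁ * H.q (.inl g) (.inl (g * s)) * H.sc s :=
        mul_le_mul_of_nonneg_right ((le_max_left _ _).trans (h _ _).2) (H.sc_pos s).le
    _ ≤ _ := by
        rw [mul_assoc]
        exact mul_le_mul_of_nonneg_left (H.q_mul_right g s) (by linarith)

/-- Two elements of comparable scale with close locations are at bounded distance (use `q_sq`,
`q_cmpG`). -/
theorem len_le_of_near (M : ℝ) : ∃ K : ℕ, ∀ g h, dist (H.loc g) (H.loc h) ≤ M * H.sc g →
    H.sc g ≤ M * H.sc h → H.sc h ≤ M * H.sc g → H.len (g⁻¹ * h) ≤ K := by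
  obtain ⟨C₁, h1, h⟩ := H.q_cmpG
  set M' := max M 1 with hM'
  have hM1 : 1 ≤ M' := le_max_right _ _
  have hM : M ≤ M' := le_max_left _ _
  have hK : 0 < C₁ ^ 2 * M' ^ 3 := by positivity
  obtain ⟨n, hn⟩ := H.exists_sc_lt (inv_pos.2 hK)
  refine ⟨n, fun g k e1 e2 e3 => ?_⟩
  by_contra hc
  have h2 := hn _ (not_le.1 hc).le
  have pg := H.sc_pos g
  have pk := H.sc_pos k
  have ps := H.sc_pos (g⁻¹ * k)
  have h3 : H.q (.inl g) (.inl k) ≤ C₁ * (M' * H.sc g) := by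
    refine (h g k).1.trans (mul_le_mul_of_nonneg_left (max_le ?_ (max_le ?_ ?_)) (by linarith))
    · exact e1.trans (mul_le_mul_of_nonneg_right hM pg.le)
    · exact le_mul_of_one_le_left pg.le hM1
    · exact e3.trans (mul_le_mul_of_nonneg_right hM pg.le)
  have h4 : H.sc g ≤ M' * H.sc k := e2.trans (mul_le_mul_of_nonneg_right hM pk.le)
  have h5 : H.sc g * H.sc k ≤ C₁ ^ 2 * M' ^ 3 * H.sc (g⁻¹ * k) * (H.sc g * H.sc k) :=
    calc _ = H.q (.inl g) (.inl k) ^ 2 * H.sc (g⁻¹ * k) := (H.q_sq g k).symm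
      _ ≤ (C₁ * (M' * H.sc g)) ^ 2 * H.sc (g⁻¹ * k) :=
          mul_le_mul_of_nonneg_right (pow_le_pow_left₀ (H.q_nonneg _ _) h3 2) ps.le
      _ = C₁ ^ 2 * M' ^ 2 * H.sc (g⁻¹ * k) * H.sc g * H.sc g := by ring
      _ ≤ C₁ ^ 2 * M' ^ 2 * H.sc (g⁻¹ * k) * H.sc g * (M' * H.sc k) :=
          mul_le_mul_of_nonneg_left h4 (by positivity)
      _ = _ := by ring
  have h6 : C₁ ^ 2 * M' ^ 3 * H.sc (g⁻¹ * k) < 1 := by
    have := mul_lt_mul_of_pos_left h2 hK
    rwa [mul_inv_cancel₀ hK.ne'] at this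
  nlinarith [mul_pos pg pk]

theorem mobZ : ∃ C₁ : ℝ, 1 ≤ C₁ ∧ ∀ (g : G) (x y : Z),
    dist (g • x) (g • y) * max (dist x (H.loc g⁻¹)) (H.sc g) * max (dist y (H.loc g⁻¹)) (H.sc g) ≤
      C₁ * (H.sc g * dist x y) ∧
    H.sc g * dist x y ≤ C₁ * (dist (g • x) (g • y) * max (dist x (H.loc g⁻¹)) (H.sc g) *
      max (dist y (H.loc g⁻¹)) (H.sc g)) := by
  obtain ⟨C₁, h1, h⟩ := H.q_cmp
  have hC := H.hC
  have h0 : 0 ≤ H.C := by linarith
  refine ⟨H.C ^ 3 * C₁ ^ 2, one_le_mul_of_one_le_of_one_le (one_le_pow₀ hC) (one_le_pow₀ h1),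
    fun g x y => ?_⟩
  have hx := h x g⁻¹
  have hy := h y g⁻¹
  rw [H.sc_inv] at hx hy
  have pg := H.sc_pos g
  have m1 := H.mob_le g (.inr x) (.inr y)
  have m2 := H.le_mob g (.inr x) (.inr y)
  simp only [Sum.smul_inr] at m1 m2
  have q1 := H.q_nonneg (.inr (g • x)) (.inr (g • y))
  have q2 := H.q_nonneg (.inr x) (.inl g⁻¹)
  have q3 := H.q_nonneg (.inr y) (.inl g⁻¹)
  have hmx : 0 ≤ max (dist x (H.loc g⁻¹)) (H.sc g) := pg.le.trans (le_max_right _ _)
  have hmy : 0 ≤ max (dist y (H.loc g⁻¹)) (H.sc g) := pg.le.trans (le_max_right _ _)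
  have hd := dist_nonneg (x := g • x) (y := g • y)
  constructor
  · calc _ ≤ H.C * H.q (.inr (g • x)) (.inr (g • y)) * (C₁ * H.q (.inr x) (.inl g⁻¹)) *
          (C₁ * H.q (.inr y) (.inl g⁻¹)) :=
          mul_le_mul (mul_le_mul (H.le_q _ _) hx.2 hmx (by positivity)) hy.2 hmy (by positivity)
      _ = H.C * C₁ ^ 2 * (H.q (.inr (g • x)) (.inr (g • y)) * H.q (.inr x) (.inl g⁻¹) *
          H.q (.inr y) (.inl g⁻¹)) := by ring
      _ ≤ H.C * C₁ ^ 2 * (H.C * (H.sc g * (H.C * dist x y))) :=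
          mul_le_mul_of_nonneg_left (m1.trans (mul_le_mul_of_nonneg_left
            (mul_le_mul_of_nonneg_left (H.q_le _ _) pg.le) h0)) (by positivity)
      _ = _ := by ring
  · calc _ ≤ H.sc g * (H.C * H.q (.inr x) (.inr y)) :=
          mul_le_mul_of_nonneg_left (H.le_q _ _) pg.le
      _ = H.C * (H.sc g * H.q (.inr x) (.inr y)) := by ring
      _ ≤ H.C * (H.C * (H.C * dist (g • x) (g • y) * (C₁ * max (dist x (H.loc g⁻¹)) (H.sc g)) *
          (C₁ * max (dist y (H.loc g⁻¹)) (H.sc g)))) :=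
          mul_le_mul_of_nonneg_left (m2.trans (mul_le_mul_of_nonneg_left
            (mul_le_mul (mul_le_mul (H.q_le _ _) hx.1 q2 (by positivity)) hy.1 q3
              (by positivity)) h0)) h0
      _ = _ := by ring

theorem lip : ∃ C₁ : ℝ, 1 ≤ C₁ ∧ ∀ (g : G) (x y : Z),
    H.sc g * dist (g • x) (g • y) ≤ C₁ * dist x y ∧
    H.sc g * dist x y ≤ C₁ * dist (g • x) (g • y) := by
  obtain ⟨C₁, h1, h⟩ := H.mobZ
  have key : ∀ (g : G) (x y : Z), H.sc g * dist (g • x) (g • y) ≤ C₁ * dist x y := by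
    intro g x y
    have pg := H.sc_pos g
    refine le_of_mul_le_mul_left ?_ pg
    calc _ = dist (g • x) (g • y) * H.sc g * H.sc g := by ring
      _ ≤ _ := mul_le_mul (mul_le_mul_of_nonneg_left (le_max_right _ _) dist_nonneg)
          (le_max_right _ _) pg.le (mul_nonneg dist_nonneg (pg.le.trans (le_max_right _ _)))
      _ ≤ _ := (h g x y).1
      _ = _ := by ring
  refine ⟨C₁, h1, fun g x y => ⟨key g x y, ?_⟩⟩
  have := key g⁻¹ (g • x) (g • y)
  rwa [H.sc_inv, inv_smul_smul, inv_smul_smul] at this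

include H in
theorem continuous_smul (g : G) : Continuous fun x : Z => g • x := by
  obtain ⟨C₁, -, h⟩ := H.lip
  refine (LipschitzWith.of_dist_le' (K := C₁ / H.sc g) fun x y => ?_).continuous
  rw [div_mul_eq_mul_div, le_div_iff₀ (H.sc_pos g), mul_comm]
  exact (h g x y).1

/-- (CONV) Use `mob_le` with `y = inl 1`. -/
theorem conv : ∃ C₁ : ℝ, 1 ≤ C₁ ∧ ∀ (g : G) (x : Z),
    dist x (H.loc g⁻¹) * dist (g • x) (H.loc g) ≤ C₁ * H.sc g := by
  obtain ⟨C₁, h1, h⟩ := H.q_cmp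
  have hC := H.hC
  have h0 : 0 ≤ H.C := by linarith
  refine ⟨H.C * C₁ ^ 2, one_le_mul_of_one_le_of_one_le hC (one_le_pow₀ h1), fun g x => ?_⟩
  have m1 := H.mob_le g (.inr x) (.inl 1)
  simp only [Sum.smul_inr, Sum.smul_inl, smul_eq_mul, mul_one, H.q_one] at m1
  have pg := H.sc_pos g
  have q2 := H.q_nonneg (.inr x) (.inl g⁻¹)
  calc _ ≤ C₁ * H.q (.inr x) (.inl g⁻¹) * (C₁ * H.q (.inr (g • x)) (.inl g)) :=
        mul_le_mul ((le_max_left _ _).trans (h _ _).2) ((le_max_left _ _).trans (h _ _).2)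
          dist_nonneg (by positivity)
    _ = C₁ ^ 2 * (H.q (.inr (g • x)) (.inl g) * H.q (.inr x) (.inl g⁻¹)) := by ring
    _ ≤ C₁ ^ 2 * (H.C * H.sc g) :=
        mul_le_mul_of_nonneg_left (m1.trans (mul_le_mul_of_nonneg_left
          (mul_le_of_le_one_right pg.le (H.q_le_one _ _)) h0)) (by positivity)
    _ = _ := by ring

/-- The converse of `conv`; use `le_mob` with `y = inl 1`. -/
theorem conv_ge : ∃ C₁ : ℝ, 1 ≤ C₁ ∧ ∀ (g : G) (x : Z),
    H.sc g ≤ C₁ * (max (dist x (H.loc g⁻¹)) (H.sc g) * max (dist (g • x) (H.loc g)) (H.sc g)) := by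
  obtain ⟨C₁, h1, h⟩ := H.q_cmp
  have hC := H.hC
  have h0 : 0 ≤ H.C := by linarith
  refine ⟨H.C ^ 2 * C₁ ^ 2, one_le_mul_of_one_le_of_one_le (one_le_pow₀ hC) (one_le_pow₀ h1),
    fun g x => ?_⟩
  have m2 := H.le_mob g (.inr x) (.inl 1)
  simp only [Sum.smul_inr, Sum.smul_inl, smul_eq_mul, mul_one, H.q_one] at m2
  have pg := H.sc_pos g
  have hx := (h x g⁻¹).1
  rw [H.sc_inv] at hx
  have hm : 0 ≤ max (dist (g • x) (H.loc g)) (H.sc g) := pg.le.trans (le_max_right _ _)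
  calc _ ≤ H.sc g * (H.C * H.q (.inr x) (.inl 1)) :=
        le_mul_of_one_le_right pg.le (H.one_le_q_one _)
    _ = H.C * (H.sc g * H.q (.inr x) (.inl 1)) := by ring
    _ ≤ H.C * (H.C * (C₁ * max (dist (g • x) (H.loc g)) (H.sc g) *
        (C₁ * max (dist x (H.loc g⁻¹)) (H.sc g)))) :=
        mul_le_mul_of_nonneg_left (m2.trans (mul_le_mul_of_nonneg_left
          (mul_le_mul (h _ _).1 hx (H.q_nonneg _ _) (by positivity)) h0)) h0
    _ = _ := by ring

theorem conv_finite {η ε : ℝ} (hη : 0 < η) (hε : 0 < ε) :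
    {g : G | ∃ x, η ≤ dist x (H.loc g⁻¹) ∧ ε ≤ dist (g • x) (H.loc g)}.Finite := by
  obtain ⟨C₁, h1, h⟩ := H.conv
  refine (H.finite_sc (ε := η * ε / C₁) (by positivity)).subset ?_
  rintro g ⟨x, e1, e2⟩
  rw [mem_ofPred_eq, div_le_iff₀ (by linarith), mul_comm (H.sc g)]
  exact (mul_le_mul e1 e2 hε.le dist_nonneg).trans (h g x)

end KKC.HB
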