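import Pool.Agent.Lib.MP_e1e491_gt.GbB
import Pool.Agent.Lib.MP_e1e491_gt.PDPerm
import Pool.Agent.Lib.MP_e1e491_gt.PDCarpet
import Pool.Agent.Lib.MP_e1e491_gt.V1

/-! From the hypotheses of the statement to the structure `CS`. -/

namespace KKC

theorem nontrivial_of_carpet {Z : Type} [TopologicalSpace Z] (e : Z ≃ₜ carpet) : Nontrivial Z := by
  have h0 : (0 : ℂ) ∈ carpet := Cp.bdry0 (by norm_num [sn, Cp.c0])
  have h1 : (1 : ℂ) ∈ carpet := Cp.bdry0 (by norm_num [sn, Cp.c0])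
  exact ⟨e.symm ⟨0, h0⟩, e.symm ⟨1, h1⟩, fun h => by simpa using e.symm.injective h⟩

theorem exists_all {G : Type} [Group G] (S : Finset G) (hS : Subgroup.closure (S : Set G) = ⊤)
    (hH : Hyperbolic S) [MetricSpace (Bdry S)] (hV : IsVisual S) (e : Bdry S ≃ₜ carpet) :
    ∃ (J : Type) (_ : MulAction G (Bdry S)) (_ : MulAction G J), CompactSpace (Bdry S) ∧
      ContinuousConstSMul G (Bdry S) ∧ Nonempty (CS G (Bdry S) J) := by
  have := nontrivial_of_carpet e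
  have hc := compactSpace_of_carpet e
  obtain ⟨inst, ⟨H⟩⟩ := exists_HB S hS hH hV
  have hs : ContinuousConstSMul G (Bdry S) := ⟨H.continuous_smul⟩
  obtain ⟨J, ⟨Q⟩⟩ := exists_PD e
  obtain ⟨inst', h⟩ := exists_CS (G := G) Q
  exact ⟨J, inst, inst', hc, hs, ⟨⟨H, Q, h⟩⟩⟩

end KKC
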