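import Pool.Agent.Lib.MP_e1e491_gt.V3
import Pool.Agent.Lib.MP_e1e491_gt.P2.Defs

/-! Linear local connectivity, bounded turning and separation of the holes in the visual metric. -/

namespace KKC

open Set Metric
open scoped Pointwise

theorem geobr_set {Z : Type} [TopologicalSpace Z] {T : Set Z} {x y : Z} (h : JoinedIn T x y) :
    ∃ E : Set Z, E ⊆ T ∧ IsPreconnected E ∧ x ∈ E ∧ y ∈ E := by
  refine ⟨range h.somePath, ?_, isPreconnected_range h.somePath.continuous,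
    ⟨0, h.somePath.source⟩, ⟨1, h.somePath.target⟩⟩
  rintro _ ⟨t, rfl⟩
  exact h.somePath_mem t

theorem geobr_gap {Z J : Type} [MetricSpace Z] [CompactSpace Z] (Q : PD Z J) (J₀ : Finset J) :
    ∃ δ > 0, ∀ i ∈ J₀, ∀ j ∈ J₀, i ≠ j → ∀ u ∈ Q.P i, ∀ v ∈ Q.P j, δ ≤ dist u v := by
  have h1 : ∀ p : J × J, ∃ δ > 0, p.1 ≠ p.2 → ∀ u ∈ Q.P p.1, ∀ v ∈ Q.P p.2, δ ≤ dist u v := by
    rintro ⟨i, j⟩
    by_cases hij : i = j
    · exact ⟨1, one_pos, fun h => absurd hij h⟩
    · obtain ⟨δ, hδ, hd⟩ := (Q.P_disj i j hij).exists_thickenings (Q.isCompact_P i)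
        (Q.isClosed_P j)
      refine ⟨δ, hδ, fun _ u hu v hv => ?_⟩
      by_contra hlt
      push Not at hlt
      have a1 : v ∈ thickening δ (Q.P i) :=
        mem_thickening_iff.2 ⟨u, hu, by rwa [dist_comm]⟩
      have a2 : v ∈ thickening δ (Q.P j) := self_subset_thickening hδ _ hv
      exact Set.disjoint_left.1 hd a1 a2
  choose d hd0 hd using h1
  have key : ∀ s : Finset (J × J), ∃ δ > 0, ∀ p ∈ s, δ ≤ d p := by
    intro s
    rcases s.eq_empty_or_nonempty with rfl | hs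
    · exact ⟨1, one_pos, by simp⟩
    · obtain ⟨p, -, hp⟩ := s.exists_min_image d hs
      exact ⟨d p, hd0 p, hp⟩
  obtain ⟨δ, hδ, hle⟩ := key (J₀ ×ˢ J₀)
  exact ⟨δ, hδ, fun i hi j hj hij u hu v hv =>
    (hle (i, j) (by simp [hi, hj])).trans (hd (i, j) hij u hu v hv)⟩

namespace CS

variable {G Z J : Type} [Group G] [MetricSpace Z] [CompactSpace Z] [MulAction G Z]
  [ContinuousConstSMul G Z] [MulAction G J] (X : CS G Z J)
include X

theorem geobr_sep : ∃ C : ℝ, 1 ≤ C ∧ ∀ i j, i ≠ j → ∀ x ∈ X.Q.P i, ∀ x' ∈ X.Q.P j,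
    (∀ y ∈ X.Q.P i, dist x y ≤ C * dist x x') ∨ ∀ y ∈ X.Q.P j, dist x' y ≤ C * dist x x' := by
  obtain ⟨L, hL, hview⟩ := X.H.view_exists
  obtain ⟨C₂, hC₂, hform⟩ := X.H.view_formula L hL
  obtain ⟨J₀, hJ₀⟩ := X.exists_J0 L 1 hL le_rfl
  obtain ⟨δ, hδ, hgap⟩ := geobr_gap X.Q J₀
  have hC := X.H.hC
  set lam : ℝ := C₂ / δ + 1 with hlam
  have hq : 0 < C₂ / δ := by positivity
  have hl1 : 1 ≤ lam := by linarith
  refine ⟨lam * X.H.C, by nlinarith, fun i j hij x hx x' hx' => ?_⟩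
  by_contra hcon
  push Not at hcon
  obtain ⟨⟨y, hy, hxy⟩, y', hy', hxy'⟩ := hcon
  have hne : x ≠ x' := fun h => Set.disjoint_left.1 (X.Q.P_disj i j hij) hx (h ▸ hx')
  have hd : 0 < dist x x' := dist_pos.2 hne
  set d := dist x x' with hdd
  have hr0 : 0 < lam * d := by positivity
  have hle : lam * d ≤ lam * X.H.C * d := by nlinarith
  have hr1 : lam * d ≤ 1 := by
    have := X.H.dist_le_C x y
    have h2 : X.H.C * (lam * d) ≤ X.H.C * 1 := by nlinarith
    exact le_of_mul_le_mul_left h2 (by linarith)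
  have hdr : d ≤ lam * d := by nlinarith
  obtain ⟨g, hg⟩ := hview x (lam * d) hr0 hr1
  have hi : g⁻¹ • i ∈ J₀ := hJ₀ g x _ hg i ⟨x, hx, y, hy, by rw [div_one]; linarith⟩
    ⟨x, hx, by rw [dist_self]; linarith⟩
  have hj : g⁻¹ • j ∈ J₀ := hJ₀ g x _ hg j ⟨x', hx', y', hy', by rw [div_one]; linarith⟩
    ⟨x', hx', by rw [dist_comm]; linarith⟩
  have hne' : g⁻¹ • i ≠ g⁻¹ • j := fun h => hij (MulAction.injective g⁻¹ h)
  have m1 : g⁻¹ • x ∈ X.Q.P (g⁻¹ • i) := by
    rw [X.act_P]; exact Set.smul_mem_smul_set hx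
  have m2 : g⁻¹ • x' ∈ X.Q.P (g⁻¹ • j) := by
    rw [X.act_P]; exact Set.smul_mem_smul_set hx'
  have h1 := hgap _ hi _ hj hne' _ m1 _ m2
  have h2 := (hform g x _ hg x x').1
  rw [dist_self, max_eq_right hr0.le, dist_comm x' x, max_eq_right hdr] at h2
  have h3 : δ * (lam * d) * (lam * d) ≤ C₂ * (lam * d * d) := by
    refine le_trans ?_ h2
    gcongr
  have h4 : δ * lam ≤ C₂ := by
    have h5 : δ * lam * (lam * d * d) ≤ C₂ * (lam * d * d) := by nlinarith
    exact le_of_mul_le_mul_right h5 (by positivity)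
  have h6 : δ * lam = C₂ + δ := by rw [hlam]; field_simp
  linarith

theorem geoP : ∃ C : ℝ, KP2.GeoP X.Q.P C := by
  obtain ⟨M₁, hM₁, h₁⟩ := X.llc1 1 le_rfl
  obtain ⟨M₂, hM₂, h₂⟩ := X.llc2 1 le_rfl
  obtain ⟨M₃, hM₃, h₃⟩ := X.llc1_P 1 le_rfl
  obtain ⟨M₄, hM₄, h₄⟩ := X.geobr_sep
  have l1 : ∀ x y : Z, ∃ E : Set Z, IsPreconnected E ∧ x ∈ E ∧ y ∈ E ∧
      ∀ w ∈ E, dist x w ≤ M₁ * dist x y := by
    intro x y
    by_cases hxy : x = y
    · subst hxy
      exact ⟨{x}, isPreconnected_singleton, rfl, rfl, by simp⟩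
    · obtain ⟨E, hE, hc, hx, hy⟩ := geobr_set (h₁ x (dist x y) (dist_pos.2 hxy) x y
        (by simp) (by rw [dist_comm, one_mul]))
      exact ⟨E, hc, hx, hy, fun w hw => by rw [dist_comm]; exact mem_closedBall.1 (hE hw)⟩
  refine ⟨M₁ + M₂ + M₃ + M₄, by linarith, fun x y => ?_, fun j x hx y hy => ?_,
    fun x y z => ?_, fun i j hij x hx x' hx' => ?_⟩
  · obtain ⟨E, hc, hx, hy, hw⟩ := l1 x y
    refine ⟨E, hc, hx, hy, fun w h => (hw w h).trans ?_⟩
    gcongr
    linarith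
  · by_cases hxy : x = y
    · subst hxy
      exact ⟨{x}, by simpa using hx, isPreconnected_singleton, rfl, rfl, by simp⟩
    · obtain ⟨E, hE, hc, hx', hy'⟩ := geobr_set (h₃ x (dist x y) (dist_pos.2 hxy) j x hx y hy
        (by simp) (by rw [dist_comm, one_mul]))
      refine ⟨E, fun w hw => (hE hw).1, hc, hx', hy', fun w hw => ?_⟩
      have := mem_closedBall.1 (hE hw).2
      rw [dist_comm] at this
      refine this.trans ?_
      gcongr
      linarith
  · rcases (le_min dist_nonneg dist_nonneg : 0 ≤ min (dist x y) (dist x z)).eq_or_lt with h0 | h0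
    · obtain ⟨E, hc, hy, hz, -⟩ := l1 y z
      refine ⟨E, hc, hy, hz, fun w _ => ?_⟩
      rw [← h0]
      have : 0 ≤ M₁ + M₂ + M₃ + M₄ := by linarith
      positivity
    · set m := min (dist x y) (dist x z) with hm
      have hM : 0 < M₂ := by linarith
      have e : M₂ * (m / M₂) = m := by field_simp
      obtain ⟨E, hE, hc, hy, hz⟩ := geobr_set (h₂ x (m / M₂) (by positivity) y z
        (by rw [e, dist_comm]; exact min_le_left _ _) (by rw [e, dist_comm]; exact min_le_right _ _))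
      refine ⟨E, hc, hy, hz, fun w hw => ?_⟩
      have h := hE hw
      rw [mem_compl_iff, mem_closedBall, not_le, one_mul, dist_comm, div_lt_iff₀ hM] at h
      have h' : 0 ≤ dist x w := dist_nonneg
      nlinarith
  · have h' : 0 ≤ dist x x' := dist_nonneg
    rcases h₄ i j hij x hx x' hx' with h | h
    · exact Or.inl fun y hy => (h y hy).trans (by nlinarith)
    · exact Or.inr fun y hy => (h y hy).trans (by nlinarith)

end CS

end KKC
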