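import Pool.Agent.Lib.MP_e1e491_gt.KSCyc

/-! Winding numbers of a cycle of small paths, and the separation lemma. -/

noncomputable section

namespace Pool.Agent.Lib.MP_e1e491_gt.KS

open Set Metric
open scoped Classical

theorem ksreal_re {p q : ℂ} (h : ‖p - q‖ < ‖q‖) : 0 < (p / q).re := by
  have hq : 0 < ‖q‖ := (norm_nonneg _).trans_lt h
  have hq0 : q ≠ 0 := norm_pos_iff.mp hq
  have e : p / q = 1 + (p - q) / q := by field_simp; ring
  have h1 : ‖(p - q) / q‖ < 1 := by rwa [norm_div, div_lt_one hq]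
  have h2 := (abs_le.mp (Complex.abs_re_le_norm ((p - q) / q))).1
  rw [e, Complex.add_re, Complex.one_re]
  linarith

theorem ksreal_log_mul {u v : ℂ} (hu : 0 < u.re) (hv : 0 < v.re) :
    Complex.log (u * v) = Complex.log u + Complex.log v := by
  have hu0 : u ≠ 0 := fun h => by simp [h] at hu
  have hv0 : v ≠ 0 := fun h => by simp [h] at hv
  have h1 := abs_lt.mp (Complex.abs_arg_lt_pi_div_two_iff.mpr (Or.inl hu))
  have h2 := abs_lt.mp (Complex.abs_arg_lt_pi_div_two_iff.mpr (Or.inl hv))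
  rw [Complex.log_mul_eq_add_log_iff hu0 hv0]
  constructor <;> linarith [h1.1, h1.2, h2.1, h2.2]

theorem ksreal_lift {u : unitInterval → ℂ} (hu : Continuous u) (h0 : ∀ t, u t ≠ 0) :
    ∃ L : unitInterval → ℂ, Continuous L ∧ ∀ t, Complex.exp (L t) = u t := by
  obtain ⟨L, hL, -⟩ := Complex.isCoveringMap_exp.exists_path_lifts
    ⟨fun t => ⟨u t, h0 t⟩, hu.subtype_mk h0⟩ (Complex.log (u 0))
    (Subtype.ext (Complex.exp_log (h0 0)).symm)
  exact ⟨L, L.continuous, fun t => congrArg Subtype.val (congrFun hL t)⟩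

theorem ksreal_rel {u u' L L' : unitInterval → ℂ} (hu : Continuous u) (hu' : Continuous u')
    (hL : Continuous L) (hL' : Continuous L') (e : ∀ t, Complex.exp (L t) = u t)
    (e' : ∀ t, Complex.exp (L' t) = u' t) (h : ∀ t, ‖u' t - u t‖ < ‖u t‖) :
    (L' 1 - L' 0) - (L 1 - L 0) = Complex.log (u' 1 / u 1) - Complex.log (u' 0 / u 0) := by
  have h0 : ∀ t, u t ≠ 0 := fun t => e t ▸ Complex.exp_ne_zero _
  have h0' : ∀ t, u' t ≠ 0 := fun t => e' t ▸ Complex.exp_ne_zero _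
  have hc : Continuous fun t => L' t - L t - Complex.log (u' t / u t) :=
    (hL'.sub hL).sub ((hu'.div hu h0).clog fun t => Or.inl (ksreal_re (h t)))
  have h1 : ∀ t, Complex.exp (L' t - L t - Complex.log (u' t / u t)) = 1 := fun t => by
    rw [Complex.exp_sub, Complex.exp_sub, e, e', Complex.exp_log (div_ne_zero (h0' t) (h0 t)),
      div_self (div_ne_zero (h0' t) (h0 t))]
  have h2 := Complex.isCoveringMap_exp.const_of_comp hc
    (fun a b => Subtype.ext ((h1 a).trans (h1 b).symm)) 1 0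
  linear_combination h2

/-- The increment of a continuous logarithm of `γ - a` (lift through the covering map `exp`,
`Complex.isCoveringMap_exp`; extend `γ` to the real line with `Path.extend` if useful). -/
theorem real_var {x y : ℂ} (γ : Path x y) : ∃ V : ℂ → ℂ,
    (∀ a ∉ range γ, ∃ δ > 0, ∀ a' ∈ ball a δ, V a' - V a =
      Complex.log ((y - a') / (y - a)) - Complex.log ((x - a') / (x - a))) ∧
    ∀ a z ε, range γ ⊆ ball z ε → 2 * ε ≤ dist a z →
      V a = Complex.log ((y - a) / (z - a)) - Complex.log ((x - a) / (z - a)) := by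
  have hl : ∀ a : ℂ, ∃ L : unitInterval → ℂ, a ∉ range γ →
      Continuous L ∧ ∀ t, Complex.exp (L t) = γ t - a := fun a => by
    by_cases ha : a ∈ range γ
    · exact ⟨0, fun h => absurd ha h⟩
    · obtain ⟨L, hL⟩ := ksreal_lift (u := fun t => γ t - a) (γ.continuous.sub continuous_const)
        fun t h => ha ⟨t, sub_eq_zero.mp h⟩
      exact ⟨L, fun _ => hL⟩
  choose L hL using hl
  refine ⟨fun a => L a 1 - L a 0, fun a ha => ?_, fun a z ε hz ha => ?_⟩
  · obtain ⟨δ, hδ, hb⟩ := Metric.isOpen_iff.mp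
      (isCompact_range γ.continuous).isClosed.isOpen_compl a ha
    refine ⟨δ, hδ, fun a' ha' => ?_⟩
    have h := ksreal_rel (u := fun t => γ t - a) (u' := fun t => γ t - a')
      (γ.continuous.sub continuous_const) (γ.continuous.sub continuous_const)
      (hL a ha).1 (hL a' (hb ha')).1 (hL a ha).2 (hL a' (hb ha')).2 fun t => by
        have h1 : δ ≤ dist (γ t) a := not_lt.mp fun h => hb (mem_ball.mpr h) ⟨t, rfl⟩
        rw [sub_sub_sub_cancel_left, ← dist_eq_norm, ← dist_eq_norm, dist_comm]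
        exact (mem_ball.mp ha').trans_le h1
    simpa using h
  · have hlt : ∀ t, dist (γ t) z < dist a z := fun t => by
      have h1 := mem_ball.mp (hz ⟨t, rfl⟩)
      linarith [dist_nonneg (x := γ t) (y := z)]
    have har : a ∉ range γ := by
      rintro ⟨t, rfl⟩
      exact lt_irrefl _ (hlt t)
    have hza : z - a ≠ 0 := fun h => by
      have h1 := hlt 0
      rw [sub_eq_zero.mp h, dist_self] at h1
      exact absurd h1 (not_lt.mpr dist_nonneg)
    have h := ksreal_rel (u := fun _ => z - a) (u' := fun t => γ t - a)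
      (L := fun _ => Complex.log (z - a))
      continuous_const (γ.continuous.sub continuous_const) continuous_const (hL a har).1
      (fun _ => Complex.exp_log hza) (hL a har).2 fun t => by
        rw [sub_sub_sub_cancel_right, ← dist_eq_norm, ← dist_eq_norm, dist_comm z]
        exact hlt t
    simpa using h

theorem ksreal_edge {U K : Set ℂ} (hU : IsOpen U) (hK : IsPreconnected K) (hKU : K ⊆ U) {x y : ℂ}
    (hx : x ∈ K) (hy : y ∈ K) : ∃ Λ, IsCompact Λ ∧ Λ ⊆ U ∧ ∃ V : ℂ → ℂ,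
      (∀ a ∉ Λ, ∀ᶠ a' in nhds a, V a' - V a =
        Complex.log ((y - a') / (y - a)) - Complex.log ((x - a') / (x - a))) ∧
      ∀ a z ε, Λ ⊆ ball z ε → 2 * ε ≤ dist a z →
        V a = Complex.log ((y - a) / (z - a)) - Complex.log ((x - a) / (z - a)) := by
  have h1 : IsPathConnected (connectedComponentIn U x) :=
    hU.connectedComponentIn.isConnected_iff_isPathConnected.mp
      (isConnected_connectedComponentIn_iff.mpr (hKU hx))
  have h2 := hK.subset_connectedComponentIn hx hKU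
  obtain ⟨γ, hγ⟩ := (h1.joinedIn x (h2 hx) y (h2 hy)).mono (connectedComponentIn_subset U x)
  obtain ⟨V, hV1, hV2⟩ := real_var γ
  refine ⟨range γ, isCompact_range γ.continuous, range_subset_iff.mpr hγ, V, fun a ha => ?_, hV2⟩
  obtain ⟨δ, hδ, h⟩ := hV1 a ha
  exact Filter.mem_of_superset (ball_mem_nhds a hδ) h

/-- Join `w (s i)` to `w (t i)` by a path in the open set `O ∩ ball (s i) ε`; `n` is the sum of the
increments. It is locally constant off the paths by the cycle condition. For `a` far away the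
difference with the sum of logarithms telescopes with `f p = log ((w p - a) / (p - a))`. -/
theorem real {ι : Type} (E : Finset ι) (s t : ι → ℂ)
    (hc : ∀ f : ℂ → ℂ, ∑ i ∈ E, (f (t i) - f (s i)) = 0) (w : ℂ → ℂ) {O : Set ℂ} (hO : IsOpen O)
    {ε : ℝ} (h : ∀ i ∈ E, t i ∈ ball (s i) ε ∧ ∃ K, IsPreconnected K ∧ w (s i) ∈ K ∧
      w (t i) ∈ K ∧ K ⊆ O ∩ ball (s i) ε) :
    ∃ Λ, IsCompact Λ ∧ Λ ⊆ O ∧ (∀ z ∈ Λ, ∃ i ∈ E, z ∈ ball (s i) ε) ∧ ∃ n : ℂ → ℂ,
      (∀ K, IsPreconnected K → Disjoint K Λ → ∀ a ∈ K, ∀ b ∈ K, n a = n b) ∧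
      ∀ a, (∀ i ∈ E, 3 * ε ≤ dist a (s i)) →
        n a = ∑ i ∈ E, Complex.log ((t i - a) / (s i - a)) := by
  choose! K' hK1 hK2 hK3 hK4 using fun i (hi : i ∈ E) => (h i hi).2
  choose! Λ hΛ1 hΛ2 V hV1 hV2 using fun i (hi : i ∈ E) =>
    ksreal_edge (hO.inter isOpen_ball) (hK1 i hi) (hK4 i hi) (hK2 i hi) (hK3 i hi)
  refine ⟨⋃ i ∈ E, Λ i, E.isCompact_biUnion hΛ1,
    iUnion₂_subset fun i hi => (hΛ2 i hi).trans inter_subset_left, fun z hz => ?_,
    fun a => ∑ i ∈ E, V i a, fun K hK hd a ha b hb => ?_, fun a ha => ?_⟩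
  · obtain ⟨i, hi, hz⟩ := mem_iUnion₂.mp hz
    exact ⟨i, hi, (hΛ2 i hi hz).2⟩
  · refine hK.induction₂' (fun a b => ∑ i ∈ E, V i a = ∑ i ∈ E, V i b) (fun x hx => ?_)
      (fun _ _ _ _ _ _ => Eq.trans) ha hb
    have h1 := (Filter.eventually_all_finset E).mpr fun i hi => hV1 i hi x fun hxi =>
      disjoint_left.mp hd hx (mem_iUnion₂.mpr ⟨i, hi, hxi⟩)
    refine (h1.mono fun y hy => ?_).filter_mono nhdsWithin_le_nhds
    have h2 := hc fun p => Complex.log ((w p - y) / (w p - x))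
    rw [← Finset.sum_congr rfl hy, Finset.sum_sub_distrib, sub_eq_zero] at h2
    exact ⟨h2.symm, h2⟩
  · have h2 := hc fun p => Complex.log ((w p - a) / (p - a))
    rw [← add_zero (∑ i ∈ E, Complex.log _), ← h2, ← Finset.sum_add_distrib]
    refine Finset.sum_congr rfl fun i hi => ?_
    obtain ⟨ht, K, -, -, hw, hK⟩ := h i hi
    have h3 := mem_ball.mp ht
    have h4 := mem_ball.mp (hK hw).2
    have h5 := ha i hi
    have h6 := dist_triangle a (t i) (s i)
    have h7 := dist_triangle_right (w (t i)) (t i) (s i)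
    have h8 := dist_nonneg (x := t i) (y := s i)
    have r1 : ‖(t i - a) - (s i - a)‖ < ‖s i - a‖ := by
      rw [sub_sub_sub_cancel_right, ← dist_eq_norm, ← dist_eq_norm, dist_comm (s i)]
      linarith
    have r2 : ‖(w (t i) - a) - (t i - a)‖ < ‖t i - a‖ := by
      rw [sub_sub_sub_cancel_right, ← dist_eq_norm, ← dist_eq_norm, dist_comm (t i) a]
      linarith
    have ht0 : t i - a ≠ 0 := norm_pos_iff.mp ((norm_nonneg _).trans_lt r2)
    have e : (w (t i) - a) / (s i - a) = (t i - a) / (s i - a) * ((w (t i) - a) / (t i - a)) := by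
      field_simp
    rw [hV2 i hi a (s i) ε ((hΛ2 i hi).trans inter_subset_right) (by linarith), e,
      ksreal_log_mul (ksreal_re r1) (ksreal_re r2)]
    ring

theorem ksreal_sep (c : ℂ → Prop) {R : ℝ} (hc : ∀ z, R ≤ ‖z‖ → ¬ c z) {η ε : ℝ}
    (hη : 0 < η) (hε : η ≤ ε) {O : Set ℂ} (hO : IsOpen O) (w : ℂ → ℂ)
    (h : ∀ v v' u u', dist v' v < η → c u → ¬ c u' → u ∈ ball v η → u' ∈ ball v η →
      u ∈ ball v' η → u' ∈ ball v' η →
      ∃ K, IsPreconnected K ∧ w v ∈ K ∧ w v' ∈ K ∧ K ⊆ O ∩ ball v ε) :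
    ∃ Λ, IsCompact Λ ∧ Λ ⊆ O ∧ ∀ a b, (∀ u ∈ ball a (5 * ε), c u) →
      (∀ u ∈ ball b (5 * ε), ¬ c u) → ∀ K, IsPreconnected K → a ∈ K → b ∈ K → ¬ Disjoint K Λ := by
  obtain ⟨E, s, t, h1, h2, h3⟩ := cyc c hc hη
  obtain ⟨Λ, k1, k2, k3, n, k4, k5⟩ := real E s t (h1 ℂ) w hO (ε := ε) fun i hi => by
    obtain ⟨hd, u, u', hu, hu', b1, b2, b3, b4⟩ := h2 i hi
    exact ⟨mem_ball.mpr (hd.trans_le hε), h _ _ u u' hd hu hu' b1 b2 b3 b4⟩
  have key : ∀ a, (∀ u ∈ ball a (5 * ε), ∀ u' ∈ ball a (5 * ε), c u → c u') →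
      ∃ a' ∈ ball a (5 * ε), n a = if c a' then 2 * Real.pi * Complex.I else 0 := by
    intro a ha
    have hfar : ∀ i ∈ E, 4 * ε ≤ dist a (s i) := fun i hi => by
      obtain ⟨-, u, u', hu, hu', b1, b2, -⟩ := h2 i hi
      by_contra hlt
      have d1 := dist_triangle_right u a (s i)
      have d2 := dist_triangle_right u' a (s i)
      have d3 := mem_ball.mp b1
      have d4 := mem_ball.mp b2
      exact hu' (ha u (mem_ball.mpr (by linarith)) u' (mem_ball.mpr (by linarith)) hu)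
    obtain ⟨a', ha', hs⟩ := h3 a
    have d0 := mem_ball.mp ha'
    refine ⟨a', mem_ball.mpr (by linarith), ?_⟩
    rw [← hs, ← k5 a' fun i hi => ?_]
    · refine k4 (ball a η) (convex_ball a η).isPreconnected (disjoint_left.mpr fun z hz hzΛ => ?_)
        a (mem_ball_self hη) a' ha'
      obtain ⟨i, hi, hzi⟩ := k3 z hzΛ
      have d1 := dist_triangle_left a (s i) z
      have d2 := mem_ball.mp hz
      have d3 := mem_ball.mp hzi
      linarith [hfar i hi]
    · have d1 := dist_triangle_left a (s i) a'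
      linarith [hfar i hi]
  refine ⟨Λ, k1, k2, fun a b ha hb K hK haK hbK hd => ?_⟩
  obtain ⟨a', ha', e1⟩ := key a fun _ _ u' hu' _ => ha u' hu'
  obtain ⟨b', hb', e2⟩ := key b fun u hu _ _ hcu => absurd hcu (hb u hu)
  rw [if_pos (ha a' ha')] at e1
  rw [if_neg (hb b' hb')] at e2
  exact Complex.two_pi_I_ne_zero (e1.symm.trans ((k4 K hK hd a haK b hbK).trans e2))

/-- `cyc` (for `c` or for its negation) and `real`. Move `a` and `b` to grid points inside the balls
of radius `η`, which miss `Λ`. -/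
theorem sep (c : ℂ → Prop) {R : ℝ} (hc : (∀ z, R ≤ ‖z‖ → c z) ∨ ∀ z, R ≤ ‖z‖ → ¬ c z) {η ε : ℝ}
    (hη : 0 < η) (hε : η ≤ ε) {O : Set ℂ} (hO : IsOpen O) (w : ℂ → ℂ)
    (h : ∀ v v' u u', dist v' v < η → c u → ¬ c u' → u ∈ ball v η → u' ∈ ball v η →
      u ∈ ball v' η → u' ∈ ball v' η →
      ∃ K, IsPreconnected K ∧ w v ∈ K ∧ w v' ∈ K ∧ K ⊆ O ∩ ball v ε) :
    ∃ Λ, IsCompact Λ ∧ Λ ⊆ O ∧ ∀ a b, (∀ u ∈ ball a (5 * ε), c u) →
      (∀ u ∈ ball b (5 * ε), ¬ c u) → ∀ K, IsPreconnected K → a ∈ K → b ∈ K → ¬ Disjoint K Λ := by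
  rcases hc with hc | hc
  · obtain ⟨Λ, k1, k2, k3⟩ := ksreal_sep (fun z => ¬ c z) (fun z hz => not_not.mpr (hc z hz)) hη hε
      hO w fun v v' u u' hd hu hu' b1 b2 b3 b4 =>
        h v v' u' u hd (not_not.mp hu') hu b2 b1 b4 b3
    exact ⟨Λ, k1, k2, fun a b ha hb K hK haK hbK =>
      k3 b a hb (fun u hu => not_not.mpr (ha u hu)) K hK hbK haK⟩
  · exact ksreal_sep c hc hη hε hO w h

end Pool.Agent.Lib.MP_e1e491_gt.KS
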