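import Pool.Agent.Lib.MP_e1e491_gt.KSShr1

/-! Small routes, and boundary bumping. -/

noncomputable section

namespace Pool.Agent.Lib.MP_e1e491_gt.KS

open Set Metric Topology Filter
open scoped Pointwise Classical

variable {Z J G : Type} [MetricSpace Z] [CompactSpace Z] [Group G] {Γ : Geo Z J}
  [MulAction G Z] [MulAction G J] [ContinuousConstSMul G Z]

/-- Every non-empty open set contains a hole (use `w3`, or `w2` inside a hole). -/
theorem Wit.hole (W : Wit Γ G) {U : Set Γ.X} (hU : IsOpen U) (hn : U.Nonempty) :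
    ∃ j, Γ.h j ∈ U := by
  obtain ⟨x, hx⟩ := hn
  obtain ⟨v, rfl⟩ := Γ.isQuotientMap_π.surjective x
  obtain ⟨ε, hε, hb⟩ := Metric.isOpen_iff.1 (Γ.isOpen_iff.1 hU) v hx
  obtain ⟨m, hm⟩ := W.w3 ε hε
  obtain ⟨z, hz, hd⟩ := hm m le_rfl v
  refine ⟨W.w m v, ?_⟩
  rw [← Γ.π_D hz]
  exact hb (by rwa [mem_ball, dist_comm])

/-- If both colours occur some view sees both: at a level where the two holes are their own
witnesses the colour of the witness is not locally constant on the plane. -/
theorem Wit.both (W : Wit Γ G) {c : J → Prop} {i j : J} (hi : c i) (hj : ¬ c j) :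
    ∃ g : G, ∃ i' ∈ W.J0, ∃ j' ∈ W.J0, c (g • i') ∧ ¬ c (g • j') := by
  by_contra hcon
  obtain ⟨u, hu⟩ := Γ.nD i
  obtain ⟨v, hv⟩ := Γ.nD j
  obtain ⟨m1, h1⟩ := W.w2 i
  obtain ⟨m2, h2⟩ := W.w2 j
  obtain ⟨η, hη, hw⟩ := W.w1 (max m1 m2)
  have key : ∀ v0 : ℂ, ∀ x ∈ ball v0 η, ∀ y ∈ ball v0 η,
      c (W.w (max m1 m2) x) → c (W.w (max m1 m2) y) := by
    intro v0 x hx y hy hc
    by_contra hn
    obtain ⟨g, hg⟩ := hw v0 _ le_rfl
    exact hcon ⟨g, _, (hg x hx).1, _, (hg y hy).1, by rwa [smul_inv_smul],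
      by rwa [smul_inv_smul]⟩
  have hcl : IsClopen {x : ℂ | c (W.w (max m1 m2) x)} := by
    constructor
    · rw [← isOpen_compl_iff]
      refine Metric.isOpen_iff.2 fun x hx => ⟨η, hη, fun y hy hc => hx ?_⟩
      exact key x y hy x (mem_ball_self hη) hc
    · exact Metric.isOpen_iff.2 fun x hx =>
        ⟨η, hη, fun y hy => key x x (mem_ball_self hη) y hy hx⟩
  have hall := hcl.eq_univ ⟨u, by
    show c (W.w (max m1 m2) u)
    rwa [h1 _ (le_max_left _ _) u hu]⟩
  have hv' : v ∈ {x : ℂ | c (W.w (max m1 m2) x)} := hall ▸ mem_univ v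
  apply hj
  rw [← h2 _ (le_max_right m1 m2) v hv]
  exact hv'

/-- Boundary bumping. If the closure of the component `E` missed `B`, then `E` would be a component
of a compact neighbourhood `N ⊆ Bᶜ` inside its interior; components of the compact space `N` are
intersections of clopen sets, which gives a clopen subset of `Z` that misses `B`. -/
theorem bump [ConnectedSpace Z] {B : Set Z} (hB : IsClosed B) (hn : B.Nonempty) {z : Z}
    (hz : z ∉ B) : (closure (connectedComponentIn Bᶜ z) ∩ B).Nonempty := by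
  by_contra hcon
  set E := connectedComponentIn Bᶜ z with hE
  have hsub : closure E ⊆ Bᶜ := fun x hx hb => hcon ⟨x, hx, hb⟩
  obtain ⟨δ, hδ, hN⟩ :=
    (isClosed_closure (s := E)).isCompact.exists_cthickening_subset_open hB.isOpen_compl hsub
  set N := cthickening δ (closure E) with hNd
  set V := thickening δ (closure E) with hVd
  have hNc : IsClosed N := isClosed_cthickening
  have hVo : IsOpen V := isOpen_thickening
  have hVN : V ⊆ N := thickening_subset_cthickening _ _
  have hEV : E ⊆ V := subset_closure.trans (self_subset_thickening hδ _)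
  have hzE : z ∈ E := mem_connectedComponentIn hz
  have : CompactSpace N := isCompact_iff_compactSpace.1 hNc.isCompact
  let z' : N := ⟨z, hVN (hEV hzE)⟩
  have hcomp : connectedComponent z' ⊆ Subtype.val ⁻¹' V := by
    intro y hy
    have hpre : IsPreconnected (Subtype.val '' connectedComponent z') :=
      isPreconnected_connectedComponent.image _ continuous_subtype_val.continuousOn
    have hs : Subtype.val '' connectedComponent z' ⊆ E :=
      hpre.subset_connectedComponentIn ⟨z', mem_connectedComponent, rfl⟩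
        (by rintro _ ⟨x, -, rfl⟩; exact hN x.2)
    exact hEV (hs ⟨y, hy, rfl⟩)
  have hK : IsCompact (Subtype.val ⁻¹' V : Set N)ᶜ :=
    (hVo.preimage continuous_subtype_val).isClosed_compl.isCompact
  obtain ⟨t, ht⟩ := hK.elim_finite_subfamily_closed
    (fun s : {s : Set N // IsClopen s ∧ z' ∈ s} => (s : Set N)) (fun s => s.2.1.1) (by
      rw [← connectedComponent_eq_iInter_isClopen]
      exact disjoint_iff_inter_eq_empty.1 (disjoint_compl_left_iff_subset.2 hcomp))
  set S : Set N := ⋂ s ∈ t, (s : Set N) with hS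
  have hSc : IsClopen S := isClopen_biInter_finset fun s _ => s.2.1
  have hzS : z' ∈ S := mem_iInter₂.2 fun s _ => s.2.2
  have hSV : S ⊆ Subtype.val ⁻¹' V :=
    disjoint_compl_left_iff_subset.1 (disjoint_iff_inter_eq_empty.2 ht)
  obtain ⟨O, hO, hOS⟩ := isOpen_induced_iff.1 hSc.2
  have himg : Subtype.val '' S = O ∩ V := by
    ext x
    constructor
    · rintro ⟨y, hy, rfl⟩
      exact ⟨(hOS.symm ▸ hy : y ∈ Subtype.val ⁻¹' O), hSV hy⟩
    · rintro ⟨hx, hv⟩
      exact ⟨⟨x, hVN hv⟩, hOS ▸ hx, rfl⟩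
  have hcl : IsClopen (Subtype.val '' S) :=
    ⟨hNc.isClosedEmbedding_subtypeVal.isClosedMap _ hSc.1, himg ▸ hO.inter hVo⟩
  have hall := hcl.eq_univ ⟨z, z', hzS, rfl⟩
  obtain ⟨b, hb⟩ := hn
  obtain ⟨y, -, hy⟩ : b ∈ Subtype.val '' S := hall ▸ mem_univ b
  exact hN y.2 (hy ▸ hb)

end Pool.Agent.Lib.MP_e1e491_gt.KS
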