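import Pool.Agent.Lib.MP_e1e491_gt.KSPin
import Pool.Agent.Lib.MP_e1e491_gt.KSShr
import Pool.Agent.Lib.MP_e1e491_gt.KSReal

/-! Some class separates two holes. -/

noncomputable section

namespace Pool.Agent.Lib.MP_e1e491_gt.KS

open Set Metric Topology Filter
open scoped Pointwise Classical

variable {Z J G : Type} [MetricSpace Z] [CompactSpace Z] [Group G] {Γ : Geo Z J}
  [MulAction G Z] [MulAction G J] [ContinuousConstSMul G Z] {R : Z → Z → Prop}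

theorem ksa_closed (h : Dec G R) (x : Z) : IsClosed {y | R x y} :=
  h.closed.preimage (f := fun y => (x, y)) (by fun_prop)

theorem ksa_routes (h : Dec G R) (hs : ∀ i j, II (Γ.cl R) (Γ.h i) (Γ.h j) = ∅) {J1 : Set J}
    (h1 : J1.Finite) : ∃ β > 0, ∀ i ∈ J1, ∀ j ∈ J1, ∀ y : Z, ∃ T : Set Γ.X, IsPreconnected T ∧
      Γ.h i ∈ T ∧ Γ.h j ∈ T ∧ ∀ y', dist y' y < β → ∀ s, Γ.l s ∈ T → ¬ R y' s := by
  have := Γ.conn
  have := Γ.lconn
  have key : ∀ i j : J, ∀ᶠ β in 𝓝[>] (0 : ℝ), ∀ y : Z, ∃ T : Set Γ.X, IsPreconnected T ∧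
      Γ.h i ∈ T ∧ Γ.h j ∈ T ∧ ∀ y', dist y' y < β → ∀ s, Γ.l s ∈ T → ¬ R y' s := by
    intro i j
    obtain ⟨β, hβ, H⟩ := h.unif (p := fun N => ∃ T : Set Γ.X, IsPreconnected T ∧ Γ.h i ∈ T ∧
      Γ.h j ∈ T ∧ N = Γ.l ⁻¹' T) fun y => by
        have h2 : Γ.h j ∈ side (Γ.l '' {s | R y s}) (Γ.h i) := by
          by_contra h3
          have h4 : Γ.l '' {s | R y s} ∈ II (Γ.cl R) (Γ.h i) (Γ.h j) := ⟨⟨y, rfl⟩, h3⟩
          rw [hs] at h4
          exact h4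
        obtain ⟨T, hT, hi, hj, hsub, hcl⟩ := Γ.route (Γ.closed_l (ksa_closed h y)) h2
        exact ⟨_, ⟨T, hT, hi, hj, rfl⟩, hcl, fun s hs' hR =>
          disjoint_left.1 (side_disj _ _) (hsub hs') ⟨s, hR, rfl⟩⟩
    filter_upwards [Ioo_mem_nhdsGT hβ] with b hb y
    obtain ⟨N, ⟨T, hT, hi, hj, rfl⟩, hN⟩ := H y
    exact ⟨T, hT, hi, hj, fun y' hy' s hs' => hN y' (hy'.trans hb.2) s hs'⟩
  obtain ⟨β, hβ1, hβ2⟩ := (((eventually_all_finite h1).2 fun i _ =>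
    (eventually_all_finite h1).2 fun j _ => key i j).and self_mem_nhdsWithin).exists
  exact ⟨β, hβ2, hβ1⟩

/-- If no class separates, `route` and `Dec.unif` (for each of the finitely many pairs `i ≠ j` of
`J1`) give `β`: for every `y` a connected `T ∋ h i, h j` whose points of `Z` are unrelated to all
points within `β` of `y`. Take `pin` with a radius below `β` and `dist x1 x2 / 2`. Then
`g⁻¹ • x1` or `g⁻¹ • x2` is near `y g`, so `g • T` misses the class of `x1`, and its points of `Z`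
are near `x g`; apply `shrink` to `g • T`. If `i = j` use `ulc`. -/
theorem Act.join (A : Act Γ G) (h : Dec G R) (hs : ∀ i j, II (Γ.cl R) (Γ.h i) (Γ.h j) = ∅)
    {x1 x2 : Z} (hx : R x1 x2) (hne : x1 ≠ x2) {J1 : Set J} (h1 : J1.Finite) {ε : ℝ}
    (hε : 0 < ε) : ∃ ρ > 0, ∀ g : G, ∀ i ∈ J1, ∀ j ∈ J1, ∀ v : ℂ, ∀ z ∈ Γ.D (g • i),
      ∀ z' ∈ Γ.D (g • j), dist v z < ρ → dist v z' < ρ →
      ∃ K, IsPreconnected K ∧ z ∈ K ∧ z' ∈ K ∧ K ⊆ (Γ.e '' {y | R x1 y})ᶜ ∩ ball v ε := by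
  have := A.cont
  obtain ⟨δ, hδ, hshr⟩ := Γ.shrink hε
  obtain ⟨δ2, hδ2, hulc⟩ := Γ.ulc ε hε
  obtain ⟨β, hβ, hroute⟩ := ksa_routes h hs h1
  obtain ⟨η, hη, hunif⟩ := Metric.uniformContinuous_iff.1
    (CompactSpace.uniformContinuous_of_continuous Γ.ce) (δ / 2) (by positivity)
  have hd : 0 < dist x1 x2 := dist_pos.2 hne
  set ε' := min (min β (dist x1 x2 / 2)) (min η (δ / 2)) with hε'
  have e1 : ε' ≤ β := (min_le_left _ _).trans (min_le_left _ _)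
  have e2 : ε' ≤ dist x1 x2 / 2 := (min_le_left _ _).trans (min_le_right _ _)
  have e3 : ε' ≤ η := (min_le_right _ _).trans (min_le_left _ _)
  have e4 : ε' ≤ δ / 2 := (min_le_right _ _).trans (min_le_right _ _)
  obtain ⟨ρ, hρ, x, y, hpin⟩ := A.pin h1 finite_empty (ε := ε') (by positivity)
  refine ⟨min ρ (min δ δ2), by positivity, fun g i hi j hj v z hz z' hz' hvz hvz' => ?_⟩
  rw [lt_min_iff, lt_min_iff] at hvz hvz'
  by_cases hij : i = j
  · subst hij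
    obtain ⟨E, hE, hE1, hE2⟩ := hulc (g • i) v
    refine ⟨E, hE, hE1 ⟨hz, mem_ball'.2 hvz.2.2⟩, hE1 ⟨hz', mem_ball'.2 hvz'.2.2⟩,
      fun u hu => ⟨?_, (hE2 hu).2⟩⟩
    rintro ⟨s, -, rfl⟩
    exact Γ.e_notMem s _ (hE2 hu).1
  obtain ⟨-, hatt, hv⟩ := hpin g i hi j hj hij v z hz z' hz' hvz.1 hvz'.1
  obtain ⟨T, hT, hTi, hTj, hTR⟩ := hroute i hi j hj (y g)
  obtain ⟨x', hx', hx'y⟩ : ∃ x', R x1 x' ∧ dist (g⁻¹ • x') (y g) < ε' := by
    by_contra hc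
    push Not at hc
    have h2 := hatt _ (hc x1 (h.eqv.refl x1))
    have h3 := hatt _ (hc x2 hx)
    rw [smul_inv_smul] at h2 h3
    have h4 := dist_triangle_right x1 x2 (x g)
    linarith
  have hl : ∀ s, Γ.l s ∈ g • T → Γ.l (g⁻¹ • s) ∈ T := fun s hs' => by
    rw [← Γ.smul_l]
    exact mem_smul_set_iff_inv_smul_mem.1 hs'
  have hgi : Γ.h (g • i) ∈ g • T := by rw [← Γ.smul_h]; exact smul_mem_smul_set hTi
  have hgj : Γ.h (g • j) ∈ g • T := by rw [← Γ.smul_h]; exact smul_mem_smul_set hTj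
  have hgT : IsPreconnected (g • T) := hT.image _ (continuous_const_smul g).continuousOn
  obtain ⟨Y, hY, hY1, hY2, hY3⟩ := hshr v (g • T) hgT
    (Γ.has_l hgT (fun e => hij (MulAction.injective g e)) hgi hgj) fun s hs' => by
      have h2 : ε' ≤ dist (g⁻¹ • s) (y g) := by
        by_contra hc
        exact hTR _ ((not_le.1 hc).trans_le e1) _ (hl s hs') (h.eqv.refl _)
      have h3 := hatt _ h2
      rw [smul_inv_smul] at h3
      have h4 := hunif (h3.trans_le e3)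
      have h5 := dist_triangle_right (Γ.e s) v (Γ.e (x g))
      rw [mem_ball]
      linarith
  refine ⟨Y, hY, hY3 ⟨?_, mem_ball'.2 hvz.2.1⟩, hY3 ⟨?_, mem_ball'.2 hvz'.2.1⟩,
    fun u hu => ⟨?_, hY1 hu⟩⟩
  · rw [mem_preimage, Γ.π_D hz]; exact hgi
  · rw [mem_preimage, Γ.π_D hz']; exact hgj
  · rintro ⟨s, hs', rfl⟩
    have h2 := hY2 hu
    rw [mem_preimage, Γ.π_e] at h2
    exact hTR _ (hx'y.trans_le e1) _ (hl s h2) (h.inv _ _ _ (h.eqv.trans (h.eqv.symm hx') hs'))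

/-- `sep` for the colouring by a disc around `e x1` of radius half the distance to `e x2`, with
`w v` a point of the witness hole of `v` near `v`. -/
theorem Act.exists_sep (A : Act Γ G) (W : Wit Γ G) (h : Dec G R) {x1 x2 : Z} (hx : R x1 x2)
    (hne : x1 ≠ x2) : ∃ i j, (II (Γ.cl R) (Γ.h i) (Γ.h j)).Nonempty := by
  by_contra hc
  have hs : ∀ i j, II (Γ.cl R) (Γ.h i) (Γ.h j) = ∅ := fun i j =>
    not_nonempty_iff_eq_empty.1 fun h1 => hc ⟨i, j, h1⟩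
  have hd : 0 < dist (Γ.e x1) (Γ.e x2) := dist_pos.2 fun e => hne (Γ.ie e)
  set d := dist (Γ.e x1) (Γ.e x2) with hdd
  obtain ⟨ρ, hρ, hjoin⟩ := A.join h hs hx hne W.J0.finite_toSet (ε := d / 10) (by positivity)
  obtain ⟨m, hm⟩ := W.w3 (ρ / 2) (by positivity)
  choose w hw1 hw2 using hm m le_rfl
  obtain ⟨η, hη, hw⟩ := W.w1 m
  have hO : IsOpen (Γ.e '' {y | R x1 y})ᶜ :=
    (((ksa_closed h x1).isCompact.image Γ.ce).isClosed).isOpen_compl
  obtain ⟨Λ, -, hΛ, H⟩ := sep (fun u => u ∈ ball (Γ.e x1) (d / 2)) (R := ‖Γ.e x1‖ + d)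
    (Or.inr fun z hz hz' => by
      have h1 := norm_sub_norm_le z (Γ.e x1)
      rw [mem_ball, dist_eq_norm] at hz'
      linarith)
    (η := min η (min (ρ / 2) (d / 10))) (ε := d / 10) (by positivity)
    ((min_le_right _ _).trans (min_le_right _ _)) hO w fun v v' u u' hv _ _ _ _ _ _ => by
      rw [lt_min_iff, lt_min_iff] at hv
      obtain ⟨g, hg⟩ := hw v m le_rfl
      refine hjoin g _ (hg v (mem_ball_self hη)).1 _ (hg v' hv.1).1 v _ ?_ _ ?_ ?_ ?_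
      · rw [smul_inv_smul]; exact hw1 v
      · rw [smul_inv_smul]; exact hw1 v'
      · linarith [hw2 v]
      · linarith [hw2 v', dist_triangle_left v (w v') v', hv.2.1]
  refine H (Γ.e x1) (Γ.e x2) (fun u hu => ?_) (fun u hu hu' => ?_) (Γ.e '' {y | R x1 y})
    ((h.conn x1).image _ Γ.ce.continuousOn) ⟨x1, h.eqv.refl x1, rfl⟩ ⟨x2, hx, rfl⟩
    (disjoint_left.2 fun u hu hu' => hΛ hu' hu)
  · rw [mem_ball] at hu ⊢
    linarith
  · rw [mem_ball] at hu hu'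
    linarith [dist_triangle_left (Γ.e x1) (Γ.e x2) u]

end Pool.Agent.Lib.MP_e1e491_gt.KS
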