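import Mathlib

/-! The box lemma. -/

namespace Pool.Agent.Lib.MP_e1e491_gt.KS

/-- `x` is a vertex of the cube with least vertex `k`. -/
def Vx (k x : ℕ × ℕ × ℕ) : Prop :=
  (x.1 = k.1 ∨ x.1 = k.1 + 1) ∧ (x.2.1 = k.2.1 ∨ x.2.1 = k.2.1 + 1) ∧
    (x.2.2 = k.2.2 ∨ x.2.2 = k.2.2 + 1)

/-- Two cubes, the second one of height below `h`, with common vertices of all three colours. -/
def Adj3 (c : ℕ × ℕ × ℕ → Fin 3) (h : ℕ) (k k' : ℕ × ℕ × ℕ) : Prop :=
  k'.2.2 < h ∧ ∀ i : Fin 3, ∃ x, Vx k x ∧ Vx k' x ∧ c x = i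

/-- The weight of an edge. -/
def ksbox_b (a b : Fin 3) : ZMod 2 := if (a = 0 ∧ b = 2) ∨ (a = 2 ∧ b = 0) then 1 else 0

/-- The weight of a square. -/
def ksbox_t (a b c d : Fin 3) : ZMod 2 := ksbox_b a b + ksbox_b c d + ksbox_b a c + ksbox_b b d

theorem ksbox_sq : ∀ a b c d : Fin 3, ksbox_t a b c d ≠ 0 →
    ∀ i, a = i ∨ b = i ∨ c = i ∨ d = i := by decide

theorem ksbox_tel (f : ℕ → ZMod 2) (n : ℕ) :
    ∑ i ∈ Finset.range n, (f i + f (i + 1)) = f 0 + f n := by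
  induction n with
  | zero => exact (CharTwo.add_self_eq_zero _).symm
  | succ n ih =>
    rw [Finset.sum_range_succ, ih]
    linear_combination CharTwo.add_self_eq_zero (f n)

theorem ksbox_path (u : ℕ → Fin 3) (hu : ∀ i, u i ≠ 1) (n : ℕ) :
    ∑ i ∈ Finset.range n, ksbox_b (u i) (u (i + 1)) = ksbox_b (u 0) (u n) := by
  have h1 : ∀ a : Fin 3, 0 = ksbox_b a a := by decide
  have h2 : ∀ a b c : Fin 3, b ≠ 1 → a ≠ 1 → c ≠ 1 →
      ksbox_b a b + ksbox_b b c = ksbox_b a c := by decide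
  induction n with
  | zero => exact h1 _
  | succ n ih => rw [Finset.sum_range_succ, ih, h2 _ _ _ (hu _) (hu _) (hu _)]

theorem ksbox_adj {c : ℕ × ℕ × ℕ → Fin 3} {h : ℕ} {k k' x y z w : ℕ × ℕ × ℕ} (hk : k'.2.2 < h)
    (h1 : Vx k x ∧ Vx k y ∧ Vx k z ∧ Vx k w) (h2 : Vx k' x ∧ Vx k' y ∧ Vx k' z ∧ Vx k' w)
    (ht : ksbox_t (c x) (c y) (c z) (c w) ≠ 0) : Adj3 c h k k' := by
  refine ⟨hk, fun i => ?_⟩
  rcases ksbox_sq _ _ _ _ ht i with e | e | e | e
  · exact ⟨x, h1.1, h2.1, e⟩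
  · exact ⟨y, h1.2.1, h2.2.1, e⟩
  · exact ⟨z, h1.2.2.1, h2.2.2.1, e⟩
  · exact ⟨w, h1.2.2.2, h2.2.2.2, e⟩

theorem ksbox_ivt {c : ℕ × ℕ × ℕ → Fin 3} {h : ℕ} {k0 k : ℕ × ℕ × ℕ} (h0 : k0.2.1 = 0)
    (hk : Relation.ReflTransGen (Adj3 c h) k0 k) :
    ∀ j ≤ k.2.1, ∃ k', k'.2.1 = j ∧ Relation.ReflTransGen (Adj3 c h) k0 k' := by
  induction hk with
  | refl => exact fun j hj => ⟨k0, by omega, .refl⟩
  | @tail a b h1 h2 ih =>
    intro j hj
    rcases hj.eq_or_lt with e | e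
    · exact ⟨b, e.symm, h1.tail h2⟩
    · obtain ⟨x, h3, h4, -⟩ := h2.2 0
      have := h3.2.1
      have := h4.2.1
      exact ih j (by omega)

/-- Work modulo two. `β` of an edge is one if its ends have the colours zero and two; `t` of a square
face is the sum of `β` over its four edges; `t = 1` forces three colours, and the sum of `t` over
the six faces of a cube vanishes. On the walls `x.1 = 0`, `x.1 = m`, `x.2.2 = 0`, `x.2.2 = h` of the
box `t` vanishes, and the sum of `t` over the wall `x.2.1 = 0` is one. Call two cubes of the box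
related if they share a face with `t = 1`. For a set `K` of cubes of the box closed under this
relation let `N j` be the sum of `t` over the faces in the plane `x.2.1 = j` of the cubes of `K` in
the layer `j`; summing over the cubes of `K` in a layer gives `N j = N (j + 1)`. One class of the
equivalence relation has `N 0 = 1`. -/
theorem box (c : ℕ × ℕ × ℕ → Fin 3) (m n h : ℕ) (h0 : ∀ j l, c (0, j, l) = 0)
    (h2 : ∀ j l, c (m, j, l) = 2) (top : ∀ i j, c (i, j, 0) ≠ 1)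
    (bot : ∀ k x y, Vx k x → Vx k y → x.2.2 = h → y.2.2 = h → c x = 0 → c y ≠ 2) :
    ∃ k0, Adj3 c h k0 k0 ∧ ∀ j < n, ∃ k, k.2.1 = j ∧ Relation.ReflTransGen (Adj3 c h) k0 k := by
  classical
  let K : ℕ × ℕ × ℕ → Prop := fun k =>
    ∃ k0, k0.2.1 = 0 ∧ Adj3 c h k0 k0 ∧ Relation.ReflTransGen (Adj3 c h) k0 k
  let a : ℕ × ℕ × ℕ → ZMod 2 := fun k => if K k then 1 else 0
  let tX : ℕ → ℕ → ℕ → ZMod 2 := fun i j l =>
    ksbox_t (c (i, j, l)) (c (i, j + 1, l)) (c (i, j, l + 1)) (c (i, j + 1, l + 1))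
  let tY : ℕ → ℕ → ℕ → ZMod 2 := fun i j l =>
    ksbox_t (c (i, j, l)) (c (i + 1, j, l)) (c (i, j, l + 1)) (c (i + 1, j, l + 1))
  let tZ : ℕ → ℕ → ℕ → ZMod 2 := fun i j l =>
    ksbox_t (c (i, j, l)) (c (i + 1, j, l)) (c (i, j + 1, l)) (c (i + 1, j + 1, l))
  have hK : ∀ k k', Adj3 c h k k' → K k → K k' := fun k k' h1 ⟨k0, h3, h4, h5⟩ =>
    ⟨k0, h3, h4, h5.tail h1⟩
  have cl : ∀ k k' x y z w : ℕ × ℕ × ℕ, k.2.2 < h → k'.2.2 < h →
      Vx k x ∧ Vx k y ∧ Vx k z ∧ Vx k w → Vx k' x ∧ Vx k' y ∧ Vx k' z ∧ Vx k' w →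
      a k * ksbox_t (c x) (c y) (c z) (c w) = a k' * ksbox_t (c x) (c y) (c z) (c w) := by
    intro k k' x y z w h1 h1' h3 h3'
    by_cases ht : ksbox_t (c x) (c y) (c z) (c w) = 0
    · rw [ht, mul_zero, mul_zero]
    · exact congrArg (· * _) (if_congr
        ⟨hK _ _ (ksbox_adj h1' h3 h3' ht), hK _ _ (ksbox_adj h1 h3' h3 ht)⟩ rfl rfl)
  have eh : ∀ k x y, Vx k x → Vx k y → x.2.2 = h → y.2.2 = h → ksbox_b (c x) (c y) = 0 :=
    fun k x y h1 h3 h4 h5 => if_neg fun h6 => h6.elim (fun e => bot k x y h1 h3 h4 h5 e.1 e.2)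
      fun e => bot k y x h3 h1 h5 h4 e.2 e.1
  have x0 : ∀ j l, tX 0 j l = 0 := fun j l => by simp only [tX, h0]; rfl
  have xm : ∀ j l, tX m j l = 0 := fun j l => by simp only [tX, h2]; rfl
  have z0 : ∀ i j, tZ i j 0 = 0 := fun i j => not_not.1 fun ht => by
    rcases ksbox_sq _ _ _ _ ht 1 with e | e | e | e <;> exact top _ _ e
  have zh : ∀ i j, tZ i j h = 0 := fun i j => by
    simp only [tZ, ksbox_t]
    rw [eh (i, j, h), eh (i, j, h), eh (i, j, h), eh (i, j, h)] <;> simp [Vx]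
  have cube : ∀ i j l, tY i (j + 1) l =
      tY i j l + (tX i j l + tX (i + 1) j l) + (tZ i j l + tZ i j (l + 1)) := fun i j l => by
    simp only [tX, tY, tZ, ksbox_t]
    generalize ksbox_b = b
    have : (2 : ZMod 2) = 0 := rfl
    linear_combination -(b (c (i, j, l)) (c (i + 1, j, l)) + b (c (i, j, l + 1)) (c (i + 1, j, l + 1))
      + b (c (i, j, l)) (c (i, j, l + 1)) + b (c (i + 1, j, l)) (c (i + 1, j, l + 1))
      + b (c (i, j, l)) (c (i, j + 1, l)) + b (c (i, j, l + 1)) (c (i, j + 1, l + 1))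
      + b (c (i + 1, j, l)) (c (i + 1, j + 1, l))
      + b (c (i + 1, j, l + 1)) (c (i + 1, j + 1, l + 1))) * this
  have key : ∀ j, ∑ i ∈ Finset.range m, ∑ l ∈ Finset.range h, a (i, j, l) * tY i j l = 1 := by
    intro j
    induction j with
    | zero =>
      have e1 : ∀ i ∈ Finset.range m, ∑ l ∈ Finset.range h, a (i, 0, l) * tY i 0 l =
          ksbox_b (c (i, 0, 0)) (c (i + 1, 0, 0)) + ∑ l ∈ Finset.range h,
            (ksbox_b (c (i, 0, l)) (c (i, 0, l + 1)) +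
              ksbox_b (c (i + 1, 0, l)) (c (i + 1, 0, l + 1))) := fun i _ => by
        have e2 := ksbox_tel (fun l => ksbox_b (c (i, 0, l)) (c (i + 1, 0, l))) h
        rw [eh (i, 0, h) (i, 0, h) (i + 1, 0, h) (by simp [Vx]) (by simp [Vx]) rfl rfl,
          add_zero] at e2
        rw [← e2, ← Finset.sum_add_distrib]
        refine Finset.sum_congr rfl fun l hl => ?_
        have e3 : a (i, 0, l) * tY i 0 l = tY i 0 l := by
          by_cases ht : tY i 0 l = 0
          · rw [ht, mul_zero]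
          · have h1 : K (i, 0, l) := ⟨(i, 0, l), rfl, ksbox_adj (Finset.mem_range.1 hl)
              (by simp [Vx]) (by simp [Vx]) ht, .refl⟩
            simp only [a, if_pos h1, one_mul]
        rw [e3, ← add_assoc]
        rfl
      rw [Finset.sum_congr rfl e1, Finset.sum_add_distrib,
        ksbox_path (fun i => c (i, 0, 0)) fun i => top i 0, Finset.sum_comm,
        Finset.sum_eq_zero fun l _ => ?_, h0, h2]
      · rfl
      · rw [ksbox_tel (fun i => ksbox_b (c (i, 0, l)) (c (i, 0, l + 1))), h0, h0, h2, h2]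
        rfl
    | succ j ih =>
      have e1 : ∀ i ∈ Finset.range m, ∀ l ∈ Finset.range h,
          a (i, j + 1, l) * tY i (j + 1) l = a (i, j, l) * tY i j l +
            (a (i, j, l) * tX i j l + a (i + 1, j, l) * tX (i + 1) j l) +
            (a (i, j, l) * tZ i j l + a (i, j, l + 1) * tZ i j (l + 1)) := by
        intro i _ l hl
        have hl := Finset.mem_range.1 hl
        have e2 : a (i, j + 1, l) * tY i (j + 1) l = a (i, j, l) * tY i (j + 1) l :=
          cl _ _ _ _ _ _ hl hl (by simp [Vx]) (by simp [Vx])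
        have e3 : a (i + 1, j, l) * tX (i + 1) j l = a (i, j, l) * tX (i + 1) j l :=
          cl _ _ _ _ _ _ hl hl (by simp [Vx]) (by simp [Vx])
        have e4 : a (i, j, l + 1) * tZ i j (l + 1) = a (i, j, l) * tZ i j (l + 1) := by
          rcases (Nat.succ_le_of_lt hl).eq_or_lt with e | e
          · rw [show l + 1 = h from e, zh, mul_zero, mul_zero]
          · exact cl _ _ _ _ _ _ e hl (by simp [Vx]) (by simp [Vx])
        rw [e2, e3, e4, cube]
        ring
      rw [Finset.sum_congr rfl fun i hi => Finset.sum_congr rfl (e1 i hi)]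
      simp only [Finset.sum_add_distrib (f := fun l => _ + (_ + _)),
        Finset.sum_add_distrib (f := fun l => a (_, j, l) * tY _ j l)]
      rw [Finset.sum_add_distrib, Finset.sum_add_distrib, ih, Finset.sum_comm,
        Finset.sum_eq_zero fun l _ => ?_, Finset.sum_eq_zero fun i _ => ?_, add_zero, add_zero]
      · rw [ksbox_tel (fun l => a (i, j, l) * tZ i j l), z0, zh, mul_zero, mul_zero, add_zero]
      · rw [ksbox_tel (fun i => a (i, j, l) * tX i j l), x0, xm, mul_zero, mul_zero, add_zero]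
  obtain ⟨i, -, h3⟩ := Finset.exists_ne_zero_of_sum_ne_zero ((key n).trans_ne one_ne_zero)
  obtain ⟨l, -, h4⟩ := Finset.exists_ne_zero_of_sum_ne_zero h3
  obtain ⟨k0, h5, h6, h7⟩ : K (i, n, l) := not_not.1 fun h5 => left_ne_zero_of_mul h4 (if_neg h5)
  exact ⟨k0, h6, fun j hj => ksbox_ivt h5 h7 j hj.le⟩

end Pool.Agent.Lib.MP_e1e491_gt.KS
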