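import Pool.Agent.Lib.MP_e1e491_gt.KSDefs
import Pool.Agent.Lib.MP_e1e491_gt.Defs

/-! The square holes satisfy the planar hypotheses. -/

noncomputable section

namespace Pool.Agent.Lib.MP_e1e491_gt.KS

open Set Metric Topology Filter KKC
open scoped Pointwise Classical

theorem ksbr1_cont : Continuous sn := by
  unfold sn
  fun_prop

theorem ksbr1_smul (t : ℝ) (ht : 0 ≤ t) (v : ℂ) : sn ((t : ℂ) * v) = t * sn v := by
  simp only [sn, Complex.re_ofReal_mul, Complex.im_ofReal_mul, abs_mul, abs_of_nonneg ht,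
    mul_max_of_nonneg _ _ ht]

theorem ksbr1_le (v : ℂ) : sn v ≤ ‖v‖ :=
  max_le (Complex.abs_re_le_norm v) (Complex.abs_im_le_norm v)

theorem ksbr1_le' (v : ℂ) : ‖v‖ ≤ 2 * sn v := by
  have h := Complex.norm_le_abs_re_add_abs_im v
  have h1 : |v.re| ≤ sn v := le_max_left _ _
  have h2 : |v.im| ≤ sn v := le_max_right _ _
  linarith

theorem ksbr1_box (a b c d : ℝ) :
    Convex ℝ {v : ℂ | (a < v.re ∧ v.re < b) ∧ c < v.im ∧ v.im < d} :=
  ((convex_halfSpace_re_gt a).inter (convex_halfSpace_re_lt b)).inter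
    ((convex_halfSpace_im_gt c).inter (convex_halfSpace_im_lt d))

theorem ksbr1_lt {v c : ℂ} {r : ℝ} : sn (v - c) < r ↔
    (c.re - r < v.re ∧ v.re < c.re + r) ∧ c.im - r < v.im ∧ v.im < c.im + r := by
  simp only [sn, max_lt_iff, abs_lt, Complex.sub_re, Complex.sub_im]
  constructor
  · rintro ⟨⟨h1, h2⟩, h3, h4⟩
    exact ⟨⟨by linarith, by linarith⟩, by linarith, by linarith⟩
  · rintro ⟨⟨h1, h2⟩, h3, h4⟩
    exact ⟨⟨by linarith, by linarith⟩, by linarith, by linarith⟩

theorem ksbr1_gt {v c : ℂ} {r : ℝ} : r < sn (v - c) ↔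
    (c.re + r < v.re ∨ v.re < c.re - r) ∨ c.im + r < v.im ∨ v.im < c.im - r := by
  simp only [sn, lt_max_iff, lt_abs, Complex.sub_re, Complex.sub_im]
  constructor
  · rintro ((h | h) | h | h)
    exacts [.inl (.inl (by linarith)), .inl (.inr (by linarith)), .inr (.inl (by linarith)),
      .inr (.inr (by linarith))]
  · rintro ((h | h) | h | h)
    exacts [.inl (.inl (by linarith)), .inl (.inr (by linarith)), .inr (.inl (by linarith)),
      .inr (.inr (by linarith))]

theorem ksbr1_sq (c : ℂ) (r : ℝ) : Convex ℝ {v : ℂ | sn (v - c) < r} := by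
  simp only [ksbr1_lt]
  exact ksbr1_box _ _ _ _

theorem ksbr1_out (c : ℂ) (r : ℝ) : IsPreconnected {v : ℂ | r < sn (v - c)} := by
  have e : {v : ℂ | r < sn (v - c)} = (({v : ℂ | c.re + r < v.re} ∪ {v : ℂ | c.im + r < v.im}) ∪
      {v : ℂ | v.re < c.re - r}) ∪ {v : ℂ | v.im < c.im - r} := by
    ext v
    simp only [mem_ofPred_eq, ksbr1_gt, mem_union]
    tauto
  rw [e]
  refine IsPreconnected.union ⟨c.re - r - 1, c.im - r - 1⟩ (.inr (by simp)) (by simp)
    (IsPreconnected.union ⟨c.re - r - 1, c.im + r + 1⟩ (.inr (by simp)) (by simp)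
      (IsPreconnected.union ⟨c.re + r + 1, c.im + r + 1⟩ (by simp) (by simp)
        (convex_halfSpace_re_gt _).isPreconnected (convex_halfSpace_im_gt _).isPreconnected)
      (convex_halfSpace_re_lt _).isPreconnected) (convex_halfSpace_im_lt _).isPreconnected

theorem ksbr1_loc (c x : ℂ) {r ρ : ℝ} (h : ρ ≤ r) :
    IsPreconnected ({v : ℂ | r < sn (v - c)} ∩ {v | sn (v - x) < ρ}) := by
  set B := {v : ℂ | sn (v - x) < ρ} with hB
  have key : ∀ (f : ℂ → ℝ) (p y : ℝ), (∀ a, Convex ℝ {v | a < f v}) → (∀ a, Convex ℝ {v | f v < a}) →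
      (∀ v ∈ B, y - ρ < f v ∧ f v < y + ρ) →
      IsPreconnected ({v | p + r < f v ∨ f v < p - r} ∩ B) := by
    intro f p y h1 h2 h3
    rcases le_total p y with k | k
    · have : {v | p + r < f v ∨ f v < p - r} ∩ B = {v | p + r < f v} ∩ B := by
        ext v
        exact ⟨fun ⟨a, b⟩ => ⟨a.resolve_right fun a' => by linarith [(h3 v b).1], b⟩,
          fun ⟨a, b⟩ => ⟨.inl a, b⟩⟩
      rw [this]
      exact ((h1 _).inter (ksbr1_sq x ρ)).isPreconnected
    · have : {v | p + r < f v ∨ f v < p - r} ∩ B = {v | f v < p - r} ∩ B := by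
        ext v
        exact ⟨fun ⟨a, b⟩ => ⟨a.resolve_left fun a' => by linarith [(h3 v b).2], b⟩,
          fun ⟨a, b⟩ => ⟨.inr a, b⟩⟩
      rw [this]
      exact ((h2 _).inter (ksbr1_sq x ρ)).isPreconnected
  have k1 := key Complex.re c.re x.re convex_halfSpace_re_gt convex_halfSpace_re_lt
    fun v hv => (ksbr1_lt.1 hv).1
  have k2 := key Complex.im c.im x.im convex_halfSpace_im_gt convex_halfSpace_im_lt
    fun v hv => (ksbr1_lt.1 hv).2
  have e : {v : ℂ | r < sn (v - c)} ∩ B =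
      ({v : ℂ | c.re + r < v.re ∨ v.re < c.re - r} ∩ B) ∪
        ({v : ℂ | c.im + r < v.im ∨ v.im < c.im - r} ∩ B) := by
    rw [← union_inter_distrib_right]
    congr 1
    ext v
    exact ksbr1_gt
  rw [e]
  rcases ({v : ℂ | c.re + r < v.re ∨ v.re < c.re - r} ∩ B).eq_empty_or_nonempty with
    a | ⟨u, hu, hu'⟩
  · rwa [a, empty_union]
  rcases ({v : ℂ | c.im + r < v.im ∨ v.im < c.im - r} ∩ B).eq_empty_or_nonempty with
    b | ⟨w, hw, hw'⟩
  · rwa [b, union_empty]
  have m : (⟨u.re, w.im⟩ : ℂ) ∈ B := ksbr1_lt.2 ⟨(ksbr1_lt.1 hu').1, (ksbr1_lt.1 hw').2⟩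
  exact IsPreconnected.union ⟨u.re, w.im⟩ ⟨hu, m⟩ ⟨hw, m⟩ k1 k2

variable {Z J : Type} [MetricSpace Z] (Q : PD Z J)

theorem ksbr1_open (j : J) : IsOpen (Q.D j) := by
  have := ksbr1_cont
  by_cases h : j = Q.o
  · rw [h, Q.D_out]
    exact isOpen_lt continuous_const (by fun_prop)
  · rw [Q.D_in j h]
    exact isOpen_lt (by fun_prop) continuous_const

theorem ksbr1_bp (j : J) : Q.bp j ∈ Q.D j := by
  have := Q.r_pos j
  by_cases h : j = Q.o
  · rw [PD.bp, if_pos h, h, Q.D_out]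
    rw [h] at this
    exact ksbr1_gt.2 (.inl (.inl (by simp; linarith)))
  · rw [PD.bp, if_neg h, Q.D_in j h]
    simpa [sn] using this

theorem ksbr1_conn (j : J) : IsPreconnected (Q.D j) := by
  by_cases h : j = Q.o
  · rw [h, Q.D_out]
    exact ksbr1_out _ _
  · rw [Q.D_in j h]
    exact (ksbr1_sq _ _).isPreconnected

theorem ksbr1_clo (j : J) : closure (Q.D j) = Q.D j ∪ Q.ι '' Q.P j := by
  have hc := ksbr1_cont
  have hr := Q.r_pos j
  rw [Q.P_eq]
  refine Subset.antisymm ?_ (union_subset subset_closure fun v hv => ?_)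
  · by_cases h : j = Q.o
    · subst h
      rw [Q.D_out]
      exact (closure_lt_subset_le continuous_const (by fun_prop)).trans fun v hv =>
        (LE.le.lt_or_eq (show Q.r Q.o ≤ sn (v - Q.c Q.o) from hv)).imp id Eq.symm
    · rw [Q.D_in j h]
      exact (closure_lt_subset_le (by fun_prop) continuous_const).trans fun v hv =>
        LE.le.lt_or_eq (show sn (v - Q.c j) ≤ Q.r j from hv)
  · have hv' : sn (v - Q.c j) = Q.r j := hv
    have ht : Tendsto (fun t : ℝ => Q.c j + (t : ℂ) * (v - Q.c j)) (𝓝 1) (𝓝 v) := by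
      have : Continuous fun t : ℝ => Q.c j + (t : ℂ) * (v - Q.c j) := by fun_prop
      simpa using this.tendsto 1
    by_cases h : j = Q.o
    · refine mem_closure_of_tendsto (ht.mono_left (nhdsWithin_le_nhds (s := Ioi 1))) ?_
      filter_upwards [self_mem_nhdsWithin] with t (ht : 1 < t)
      subst h
      rw [Q.D_out, mem_ofPred_eq, add_sub_cancel_left, ksbr1_smul t (by linarith), hv']
      nlinarith
    · refine mem_closure_of_tendsto (ht.mono_left (nhdsWithin_le_nhds (s := Iio 1))) ?_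
      filter_upwards [Ioo_mem_nhdsLT (zero_lt_one' ℝ)] with t ht
      rw [Q.D_in j h, mem_ofPred_eq, add_sub_cancel_left, ksbr1_smul t ht.1.le, hv']
      nlinarith [ht.2]

theorem ksbr1_P (j : J) : Q.ι ⁻¹' closure (Q.D j) = Q.P j := by
  rw [ksbr1_clo, preimage_union, preimage_image_eq _ Q.ι_inj]
  exact union_eq_right.2 fun s hs => (Q.not_mem s j hs).elim

/-- The planar data of the carpet. -/
def geo : Geo Z J where
  e := Q.ι
  D := Q.D
  out := Q.o
  ce := Q.ι_cont
  ie := Q.ι_inj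
  oD := ksbr1_open Q
  nD j := ⟨_, ksbr1_bp Q j⟩
  cD := ksbr1_conn Q
  disj i j h := by
    rw [ksbr1_clo, ksbr1_clo, disjoint_union_left, disjoint_union_right, disjoint_union_right]
    refine ⟨⟨Q.D_disj i j h, ?_⟩, ?_, (disjoint_image_iff Q.ι_inj).2 (Q.P_disj i j h)⟩
    · exact disjoint_right.2 fun _ ⟨s, _, e⟩ => e ▸ Q.not_mem s i
    · exact disjoint_left.2 fun _ ⟨s, _, e⟩ => e ▸ Q.not_mem s j
  cover z := ⟨fun h => (Q.cover z).resolve_left h, fun ⟨j, hj⟩ ⟨s, e⟩ => Q.not_mem s j (e ▸ hj)⟩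
  hout := ⟨‖Q.c Q.o‖ + 2 * Q.r Q.o + 1, fun z hz => by
    rw [Q.D_out]
    have h1 := ksbr1_le' (z - Q.c Q.o)
    have h2 := norm_sub_norm_le z (Q.c Q.o)
    show Q.r Q.o < _
    linarith⟩
  two j := by
    have hr := Q.r_pos j
    rw [ksbr1_P]
    refine nontrivial_of_image Q.ι _ ?_
    rw [Q.P_eq]
    refine ⟨Q.c j + Q.r j, by simp [sn, abs_of_pos hr, hr.le], Q.c j - Q.r j,
      by simp [sn, abs_of_pos hr, hr.le], fun e => ?_⟩
    have := congrArg Complex.re e
    simp at this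
    linarith
  ulc ε hε := by
    have hr := Q.r_pos Q.o
    refine ⟨min (ε / 2) (Q.r Q.o), by positivity, fun j x => ?_⟩
    refine ⟨Q.D j ∩ {v | sn (v - x) < min (ε / 2) (Q.r Q.o)}, ?_,
      inter_subset_inter_right _ fun v hv => (ksbr1_le _).trans_lt (by rwa [← dist_eq_norm]),
      inter_subset_inter_right _ fun v hv => ?_⟩
    · by_cases h : j = Q.o
      · rw [h, Q.D_out]
        exact ksbr1_loc _ _ (min_le_right _ _)
      · rw [Q.D_in j h]
        exact ((ksbr1_sq _ _).inter (ksbr1_sq _ _)).isPreconnected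
    · have h1 := ksbr1_le' (v - x)
      have h2 : sn (v - x) < ε / 2 := lt_of_lt_of_le hv (min_le_left _ _)
      rw [mem_ball, dist_eq_norm]
      linarith

theorem geo_P (j : J) : (geo Q).P j = Q.P j := ksbr1_P Q j

end Pool.Agent.Lib.MP_e1e491_gt.KS
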