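import Pool.Agent.Lib.MP_e1e491_gt.KSBr1

/-! Convergence, finite subgroups and views for a hyperbolic group. -/

noncomputable section

namespace Pool.Agent.Lib.MP_e1e491_gt.KS

open Set Metric Topology Filter KKC
open scoped Pointwise Classical

variable {G Z : Type} [Group G] [MetricSpace Z] [MulAction G Z] (H : HB G Z)

theorem ksbr2_pos (g : G) : 0 < H.sc g := Real.rpow_pos_of_pos (zero_lt_one.trans H.ha) _

theorem ksbr2_inv (g : G) : H.sc g⁻¹ = H.sc g := by rw [HB.sc, H.len_inv, HB.sc]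

theorem ksbr2_tend : Tendsto (fun m : ℕ => H.a ^ (-(m : ℝ))) atTop (𝓝 0) := by
  have h0 : 0 < H.a := zero_lt_one.trans H.ha
  have := tendsto_pow_atTop_nhds_zero_of_lt_one (inv_nonneg.2 h0.le) (inv_lt_one_of_one_lt₀ H.ha)
  refine this.congr fun m => ?_
  rw [Real.rpow_neg h0.le, Real.rpow_natCast, inv_pow]

theorem ksbr2_anti {m n : ℕ} (h : m ≤ n) : H.a ^ (-(n : ℝ)) ≤ H.a ^ (-(m : ℝ)) :=
  Real.rpow_le_rpow_of_exponent_le H.ha.le (neg_le_neg (Nat.cast_le.2 h))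

theorem ksbr2_small {κ : ℝ} (h : 0 < κ) : ∃ m0 : ℕ, ∀ m ≥ m0, H.a ^ (-(m : ℝ)) < κ :=
  eventually_atTop.1 ((ksbr2_tend H).eventually (gt_mem_nhds h))

theorem ksbr2_fin {κ : ℝ} (h : 0 < κ) : {g | κ ≤ H.sc g}.Finite := by
  obtain ⟨m0, hm⟩ := ksbr2_small H h
  exact (H.fin m0).subset fun g hg => le_of_not_gt fun k => (hm _ (le_of_lt k)).not_ge hg

theorem ksbr2_one (g : G) : H.q (.inl 1) (.inl g) = 1 := by
  rw [H.q_GG, (H.len_eq_zero 1).2 rfl]
  simp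

theorem ksbr2_far {η : ℝ} {g : G} {z : Z} (hz : η ≤ dist z (H.loc g⁻¹))
    (hg : H.C ^ 3 * H.sc g < η) : η ≤ H.C ^ 2 * H.q (.inr z) (.inl g⁻¹) := by
  have hC : 0 < H.C := zero_lt_one.trans_le H.hC
  have h1 := H.le_q z (H.loc g⁻¹)
  have h2 := H.ultra (.inr z) (.inl g⁻¹) (.inr (H.loc g⁻¹))
  have h3 : H.q (.inl g⁻¹) (.inr (H.loc g⁻¹)) ≤ H.C * H.sc g := by
    rw [H.q_comm, ← ksbr2_inv]
    exact H.q_loc g⁻¹
  rcases le_total (H.q (.inr z) (.inl g⁻¹)) (H.q (.inl g⁻¹) (.inr (H.loc g⁻¹))) with k | k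
  · rw [max_eq_right k] at h2
    have : H.C * H.q (.inr z) (.inr (H.loc g⁻¹)) ≤ H.C * (H.C * (H.C * H.sc g)) := by
      gcongr
      exact h2.trans (by gcongr)
    nlinarith
  · rw [max_eq_left k] at h2
    have : H.C * H.q (.inr z) (.inr (H.loc g⁻¹)) ≤ H.C * (H.C * H.q (.inr z) (.inl g⁻¹)) := by
      gcongr
    nlinarith

theorem ksbr2_con {η : ℝ} (hη : 0 < η) {g : G} {z : Z} (hz : η ≤ dist z (H.loc g⁻¹))
    (hg : H.C ^ 3 * H.sc g < η) : H.q (.inr (g • z)) (.inl g) ≤ H.C ^ 3 / η * H.sc g := by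
  have hC : 0 < H.C := zero_lt_one.trans_le H.hC
  have h1 := ksbr2_far H hz hg
  have h2 := H.mob_le g (.inr z) (.inl 1)
  rw [ksbr2_one, mul_one, Sum.smul_inr, Sum.smul_inl, smul_eq_mul, mul_one] at h2
  have h3 : H.C * (H.a ^ (-(H.len g : ℝ)) * H.q (.inr z) (.inl 1)) ≤ H.C * H.sc g :=
    mul_le_mul_of_nonneg_left (mul_le_of_le_one_right (ksbr2_pos H g).le (H.q_le_one _ _)) hC.le
  have h4 := H.q_nonneg (.inr (g • z)) (.inl g)
  rw [div_mul_eq_mul_div, le_div_iff₀ hη]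
  have h5 := mul_le_mul_of_nonneg_left h1 h4
  have h6 := mul_le_mul_of_nonneg_left (h2.trans h3) (sq_nonneg H.C)
  nlinarith

theorem ksbr2_dist (x y : Z) (g : G) {b : ℝ} (hx : H.q (.inr x) (.inl g) ≤ b)
    (hy : H.q (.inr y) (.inl g) ≤ b) : dist x y ≤ H.C ^ 2 * b := by
  have hC : 0 < H.C := zero_lt_one.trans_le H.hC
  have h1 := H.le_q x y
  have h2 := H.ultra (.inr x) (.inl g) (.inr y)
  rw [H.q_comm (.inl g)] at h2
  have h3 : H.C * H.q (.inr x) (.inr y) ≤ H.C * (H.C * b) := by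
    gcongr
    exact h2.trans (mul_le_mul_of_nonneg_left (max_le hx hy) hC.le)
  nlinarith

include H in
theorem ksbr2_conv {ε : ℝ} (hε : 0 < ε) : {g : G | ¬ ∃ x y : Z, Att ε g x y}.Finite := by
  have hC : 0 < H.C := zero_lt_one.trans_le H.hC
  set b := H.C ^ 2 * (H.C ^ 3 / ε + H.C) + H.C ^ 3 with hb
  have b0 : 0 < b := by positivity
  refine (ksbr2_fin H (div_pos hε b0)).subset fun g hg =>
    (show ε / b ≤ H.sc g from le_of_not_gt fun k => hg ?_)
  rw [lt_div_iff₀ b0] at k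
  have hs := ksbr2_pos H g
  have p1 : 0 < H.C ^ 3 / ε * H.sc g := by positivity
  have p2 : 0 < H.C * H.sc g := by positivity
  have p3 : 0 < H.C ^ 3 * H.sc g := by positivity
  have p4 : 0 < H.C ^ 2 * ((H.C ^ 3 / ε + H.C) * H.sc g) := by positivity
  refine ⟨H.loc g, H.loc g⁻¹, fun z hz => ?_⟩
  have h1 := ksbr2_con H hε hz (by nlinarith)
  have h2 : H.q (.inr (H.loc g)) (.inl g) ≤ H.C * H.sc g := H.q_loc g
  have := ksbr2_dist H (g • z) (H.loc g) g (b := (H.C ^ 3 / ε + H.C) * H.sc g) (by linarith)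
    (by linarith)
  nlinarith

theorem ksbr2_mid (g : G) (k : ℕ) (hk : k ≤ H.len g) :
    ∃ m, H.len m = k ∧ H.len (m⁻¹ * g) + k ≤ H.len g := by
  induction hk' : H.len g - k generalizing g with
  | zero => exact ⟨g, by omega, by rw [inv_mul_cancel, (H.len_eq_zero 1).2 rfl]; omega⟩
  | succ n ih =>
    obtain ⟨h, h1, h2⟩ := H.par g (H.len g - 1) (by omega)
    obtain ⟨m, m1, m2⟩ := ih h (by omega) (by omega)
    have := H.len_mul (m⁻¹ * h) (h⁻¹ * g)
    rw [mul_assoc, mul_inv_cancel_left] at this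
    exact ⟨m, m1, by omega⟩

theorem ksbr2_hyp : ∃ δ : ℕ, ∀ x y z : G, H.len x + H.len y ≤ H.len (x⁻¹ * y) →
    H.len x + H.len z ≤ H.len (x⁻¹ * z) + δ ∨ H.len y + H.len z ≤ H.len (y⁻¹ * z) + δ := by
  have hC : 0 < H.C := zero_lt_one.trans_le H.hC
  obtain ⟨m0, hm⟩ := ksbr2_small H (inv_pos.2 hC)
  refine ⟨2 * m0, fun x y z h => by_contra fun k => ?_⟩
  rw [not_or, not_le, not_le] at k
  have key : ∀ u : G, H.len (u⁻¹ * z) + 2 * m0 < H.len u + H.len z →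
      H.q (.inl u) (.inl z) < H.C⁻¹ := fun u hu => by
    rw [H.q_GG]
    refine lt_of_le_of_lt (Real.rpow_le_rpow_of_exponent_le H.ha.le ?_) (hm m0 le_rfl)
    have : ((H.len (u⁻¹ * z) + 2 * m0 : ℕ) : ℝ) ≤ (H.len u + H.len z : ℕ) := Nat.cast_le.2 hu.le
    push_cast at this
    linarith
  have h1 := H.ultra (.inl x) (.inl z) (.inl y)
  rw [H.q_comm (.inl z)] at h1
  have h2 : 1 ≤ H.q (.inl x) (.inl y) := by
    rw [H.q_GG]
    refine Real.one_le_rpow H.ha.le ?_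
    have : ((H.len x + H.len y : ℕ) : ℝ) ≤ H.len (x⁻¹ * y) := Nat.cast_le.2 h
    push_cast at this
    linarith
  have h3 := mul_lt_mul_of_pos_left (max_lt (key x k.1) (key y k.2)) hC
  rw [mul_inv_cancel₀ hC.ne'] at h3
  linarith

include H in
theorem ksbr2_FIN : ∃ N : ℕ, ∀ K : Subgroup G, Finite K → Nat.card K ≤ N := by
  obtain ⟨δ, hδ⟩ := ksbr2_hyp H
  refine ⟨(H.fin (2 * δ + 1)).toFinset.card, fun K hK => ?_⟩
  have := Fintype.ofFinite K
  let r : G → ℕ := fun x => Finset.univ.sup fun k : K => H.len (x⁻¹ * k)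
  have r1 : ∀ x (k : K), H.len (x⁻¹ * k) ≤ r x := fun x k =>
    Finset.le_sup (f := fun k : K => H.len (x⁻¹ * k)) (Finset.mem_univ k)
  obtain ⟨x, hx⟩ : ∃ x, ∀ y, r x ≤ r y := ⟨Function.argmin r, fun y => Function.argmin_le r y⟩
  have key : ∀ k : K, H.len (x⁻¹ * k * x) ≤ 2 * δ + 1 := fun k => by
    obtain ⟨m, m1, m2⟩ := ksbr2_mid H (x⁻¹ * k * x) (H.len (x⁻¹ * k * x) / 2) (Nat.div_le_self _ _)
    obtain ⟨z, -, hz⟩ := Finset.exists_mem_eq_sup Finset.univ Finset.univ_nonempty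
      fun k : K => H.len ((x * m)⁻¹ * k)
    have h1 : r x ≤ H.len ((x * m)⁻¹ * z) := (hx (x * m)).trans hz.le
    have h0 := H.len_mul m (m⁻¹ * (x⁻¹ * k * x))
    rw [mul_inv_cancel_left] at h0
    have h2 := hδ m⁻¹ (m⁻¹ * (x⁻¹ * k * x)) ((x * m)⁻¹ * z) (by
      rw [inv_inv, mul_inv_cancel_left, H.len_inv]
      omega)
    have e1 : m⁻¹⁻¹ * ((x * m)⁻¹ * z) = x⁻¹ * z := by group
    have e2 : (m⁻¹ * (x⁻¹ * k * x))⁻¹ * ((x * m)⁻¹ * z) = x⁻¹ * (k⁻¹ * z : K) := by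
      push_cast
      group
    rw [e1, e2, H.len_inv] at h2
    have h3 := r1 x z
    have h4 := r1 x (k⁻¹ * z)
    omega
  rw [Nat.card_eq_fintype_card, ← Finset.card_univ]
  refine Finset.card_le_card_of_injOn (fun k : K => x⁻¹ * k * x) (fun k _ => ?_) fun k _ k' _ e => ?_
  · exact Finset.mem_coe.2 ((Set.Finite.mem_toFinset _).2 (key k))
  · exact Subtype.ext (mul_left_cancel (mul_right_cancel e))

/-- A set that is big at the scale of `g` and near its location is big in the view `g`. -/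
theorem ksbr2_view {c L : ℝ} (hc : 0 < c) (hL : 0 < L) : ∃ κ > 0, ∀ (g : G) (s : Z) (T : Set Z),
    H.q (.inr s) (.inl g) ≤ H.C * H.sc g → Big (c * H.sc g) T → (∃ t ∈ T, dist t s ≤ L * H.sc g) →
    Big κ (g⁻¹ • T) := by
  have hC : 0 < H.C := zero_lt_one.trans_le H.hC
  set L' := H.C * (H.C * L + H.C) with hL'
  set M := 1 + L' * (2 * H.C / c) with hM
  have L0 : 0 < L' := by positivity
  have M0 : 0 < M := by positivity
  refine ⟨(H.C ^ 3 * L' * M)⁻¹, by positivity, ?_⟩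
  rintro g s T hs ⟨a, ha, b, hb, hab⟩ ⟨t, ht, hts⟩
  have hr := ksbr2_pos H g
  obtain ⟨y, hy, hty⟩ : ∃ y ∈ T, c * H.sc g / 2 ≤ dist t y := by
    by_contra k
    push Not at k
    linarith [k a ha, k b hb, dist_triangle_left a b t]
  refine ⟨g⁻¹ • t, smul_mem_smul_set ht, g⁻¹ • y, smul_mem_smul_set hy, ?_⟩
  have h1 : H.q (.inr t) (.inl g) ≤ L' * H.sc g := by
    have k1 := H.ultra (.inr t) (.inr s) (.inl g)
    have k2 : H.q (.inr t) (.inr s) ≤ H.C * (L * H.sc g) := (H.q_le t s).trans (by gcongr)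
    have p1 : 0 < H.C * (L * H.sc g) := by positivity
    have p2 : 0 < H.C * H.sc g := by positivity
    have k3 : max (H.q (.inr t) (.inr s)) (H.q (.inr s) (.inl g)) ≤ (H.C * L + H.C) * H.sc g :=
      max_le (by linarith) (by linarith)
    have := mul_le_mul_of_nonneg_left k3 hC.le
    rw [hL']
    linarith
  set Q := H.q (.inr t) (.inr y) with hQ
  have h2 : H.sc g ≤ 2 * H.C / c * Q := by
    have := H.le_q t y
    rw [div_mul_eq_mul_div, le_div_iff₀ hc]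
    linarith
  have Q0 : 0 < Q := by
    have p : 0 < 2 * H.C / c := by positivity
    exact (mul_pos_iff_of_pos_left p).1 (hr.trans_le h2)
  have h3 : H.q (.inr y) (.inl g) ≤ H.C * (M * Q) := by
    have k1 := H.ultra (.inr y) (.inr t) (.inl g)
    rw [H.q_comm (.inr y) (.inr t)] at k1
    have k2 := mul_le_mul_of_nonneg_left h2 L0.le
    have p : 0 < L' * (2 * H.C / c * Q) := by positivity
    refine k1.trans (mul_le_mul_of_nonneg_left (max_le ?_ ?_) hC.le) <;> rw [hM] <;> linarith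
  have h4 := H.le_mob g⁻¹ (.inr t) (.inr y)
  rw [inv_inv, H.len_inv, Sum.smul_inr, Sum.smul_inr] at h4
  have h5 := H.q_le (g⁻¹ • t) (g⁻¹ • y)
  have h6 : H.sc g * Q ≤ H.C * (H.C * dist (g⁻¹ • t) (g⁻¹ • y) * (L' * H.sc g) * (H.C * (M * Q))) := by
    refine h4.trans ?_
    have := H.q_nonneg (.inr y) (.inl g)
    have := H.q_nonneg (.inr t) (.inl g)
    gcongr
  rw [inv_le_iff_one_le_mul₀ (by positivity)]
  have h7 : (H.sc g * Q) * 1 ≤ (H.sc g * Q) * (dist (g⁻¹ • t) (g⁻¹ • y) * (H.C ^ 3 * L' * M)) := by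
    linarith
  exact le_of_mul_le_mul_left h7 (by positivity)

theorem ksbr2_big {κ : ℝ} {T : Set Z} (h : Big κ T) (g : G) :
    Big (κ / H.C ^ 3 * H.sc g) (g • T) := by
  have hC : 0 < H.C := zero_lt_one.trans_le H.hC
  obtain ⟨a, ha, b, hb, hab⟩ := h
  refine ⟨g • a, smul_mem_smul_set ha, g • b, smul_mem_smul_set hb, ?_⟩
  have hr := ksbr2_pos H g
  have h4 := H.le_mob g (.inr a) (.inr b)
  rw [Sum.smul_inr, Sum.smul_inr] at h4
  have h5 := H.q_le (g • a) (g • b)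
  have h6 : H.sc g * H.q (.inr a) (.inr b) ≤ H.C * (H.C * dist (g • a) (g • b) * 1 * 1) := by
    refine h4.trans ?_
    have := H.q_nonneg (.inr a) (.inl g⁻¹)
    have := H.q_nonneg (.inr b) (.inl g⁻¹)
    gcongr <;> exact H.q_le_one _ _
  have h7 := mul_le_mul_of_nonneg_left (hab.trans (H.le_q a b)) hr.le
  have h8 := mul_le_mul_of_nonneg_left h6 hC.le
  rw [div_mul_eq_mul_div, div_le_iff₀ (by positivity)]
  nlinarith

end Pool.Agent.Lib.MP_e1e491_gt.KS
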