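import Pool.Agent.Lib.MP_e1e491_gt.KSD3
import Pool.Agent.Lib.MP_e1e491_gt.KSA

/-! A separating class with finitely many big translates. -/

noncomputable section

namespace Pool.Agent.Lib.MP_e1e491_gt.KS

open Set Metric Topology Filter
open scoped Pointwise Classical

variable {Z J G : Type} [MetricSpace Z] [CompactSpace Z] [ConnectedSpace Z] [Group G]
  {Γ : Geo Z J} [MulAction G Z] [MulAction G J] [ContinuousConstSMul G Z] {R : Z → Z → Prop}

theorem ksmain_closed (h : Dec G R) (x : Z) : IsClosed {y | R x y} :=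
  h.closed.preimage (f := fun y => (x, y)) (by fun_prop)

/-- The translates of one separating class that are big and far from a point of one side. -/
theorem ksmain_one (A : Act Γ G) (W : Wit Γ G) (h : Dec G R) {δ κ : ℝ} (hδ : 0 < δ) (hκ : 0 < κ)
    {i j : J} {r : Set Γ.X} (hr : r ∈ II (Γ.cl R) (Γ.h i) (Γ.h j)) :
    {C : Set Z | ∃ g : G, C = g • (Γ.l ⁻¹' r) ∧ Big δ C ∧ ∃ z, Γ.l z ∈ side r (Γ.h i) ∧
      ∀ c ∈ Γ.l ⁻¹' r, κ ≤ dist (g • z) (g • c)}.Finite := by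
  have := Γ.conn
  have := Γ.lconn
  obtain ⟨⟨x0, rfl⟩, hr⟩ := hr
  rw [preimage_image_eq _ Γ.l_inj]
  by_cases hex : ∃ s0, Γ.l s0 ∈ side (Γ.l '' {y | R x0 y}) (Γ.h i)
  swap
  · refine finite_empty.subset ?_
    rintro C ⟨g, -, -, z, hz, -⟩
    exact hex ⟨z, hz⟩
  obtain ⟨s0, hs0⟩ := hex
  have hn : {y | R x0 y}.Nontrivial := by
    obtain ⟨δ', hδ', hb⟩ := Γ.big i j
    obtain ⟨a, ha, b, hb, hab⟩ := hb _ hr
    exact ⟨a, ha, b, hb, fun e => by rw [e, dist_self] at hab; linarith⟩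
  have hs : ¬ R x0 s0 := fun k => disjoint_left.1 (side_disj _ _) hs0 ⟨s0, k, rfl⟩
  have he := side_eq hs0
  obtain ⟨Q0, hQ, hd, hc⟩ := A.cocompact W h hn hs (j := j) (by rwa [he])
  refine ((A.far (ksmain_closed h x0) hQ hd hδ hκ).image fun g => g • {y | R x0 y}).subset ?_
  rintro C ⟨g, rfl, hb, z, hz, hfar⟩
  obtain ⟨f, hf, q, hq, rfl⟩ := hc z (by rwa [he])
  refine ⟨g * f, ⟨by rwa [mul_smul, hf], q, hq, fun c hc => ?_⟩, by simp only [mul_smul, hf]⟩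
  rw [mul_smul, mul_smul]
  exact hfar _ (hf ▸ smul_mem_smul_set hc)

/-- If all points are related there is one class. Otherwise take `κ` from `porous`. For a big
separating class `C` take `z` far from it and `U` the side of `l z`; `U` contains a hole
(`Wit.hole`) and misses one of the holes `i`, `j`. By `Wit.both` a translate of `(C, U)` is
`(r, side r (h i'))` with `r` in `II (h i') (h j')`, `i', j' ∈ J0`: a finite list. For each entry
whose side meets `Z` take `Q0` from `cocompact` (`big` shows that `r` has two points); then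
`C = g • r`, `z ∈ g • Q0` with `g` in the finite set of `Act.far`. -/
theorem Act.big_finite (A : Act Γ G) (W : Wit Γ G) (h : Dec G R) {δ : ℝ} (hδ : 0 < δ) :
    {C : Set Z | (∃ x, C = {y | R x y}) ∧ Big δ C ∧
      ∃ i j, Γ.h j ∉ side (Γ.l '' C) (Γ.h i)}.Finite := by
  by_cases hn : ∃ x y, ¬ R x y
  swap
  · refine (finite_singleton univ).subset ?_
    rintro C ⟨⟨x, rfl⟩, -⟩
    exact eq_univ_of_forall fun y => not_not.1 fun k => hn ⟨x, y, k⟩
  obtain ⟨κ, hκ, hp⟩ := h.porous hn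
  have := A.cont
  have := Γ.conn
  have := Γ.lconn
  refine (W.J0.finite_toSet.biUnion fun i _ => W.J0.finite_toSet.biUnion fun j _ =>
    (A.II_finite W h i j).biUnion fun r hr => ksmain_one A W h hδ hκ hr).subset ?_
  rintro C ⟨⟨x, rfl⟩, hb, i, j, hij⟩
  obtain ⟨z, hz⟩ := hp x
  have hzC : Γ.l z ∉ Γ.l '' {y | R x y} := by
    rintro ⟨c, hc, e⟩
    have := hz c hc
    rw [Γ.l_inj e, dist_self] at this
    linarith
  have hzU := mem_side_self hzC
  obtain ⟨i0, hi0⟩ := W.hole (side_open (Γ.closed_l (ksmain_closed h x)) (Γ.l z)) ⟨_, hzU⟩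
  obtain ⟨j0, hj0⟩ : ∃ j0, Γ.h j0 ∉ side (Γ.l '' {y | R x y}) (Γ.l z) := by
    by_contra k
    simp only [not_exists, not_not] at k
    exact hij (by rw [side_eq (k i)]; exact k j)
  obtain ⟨g, i', hi', j', hj', h1, h2⟩ :=
    W.both (c := fun k => Γ.h k ∈ side (Γ.l '' {y | R x y}) (Γ.l z)) hi0 hj0
  have e1 : side (Γ.l '' (g⁻¹ • {y | R x y})) (Γ.h i') =
      g⁻¹ • side (Γ.l '' {y | R x y}) (Γ.l z) := by
    rw [← side_eq h1, smul_side, Γ.smul_image, Γ.smul_h, inv_smul_smul]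
  simp only [mem_iUnion]
  refine ⟨i', hi', j', hj', Γ.l '' (g⁻¹ • {y | R x y}), ⟨⟨g⁻¹ • x, by rw [h.smul_cls]⟩, ?_⟩, g,
    ?_, hb, g⁻¹ • z, ?_, ?_⟩
  · rw [e1, mem_inv_smul_set_iff, Γ.smul_h]
    exact h2
  · rw [preimage_image_eq _ Γ.l_inj, smul_inv_smul]
  · rw [e1, ← Γ.smul_l]
    exact smul_mem_smul_set hzU
  · rw [preimage_image_eq _ Γ.l_inj, smul_inv_smul]
    intro c hc
    exact hz _ (mem_inv_smul_set_iff.1 hc)

theorem Act.thmS (A : Act Γ G) (W : Wit Γ G) (h : Dec G R) {x1 x2 : Z} (hx : R x1 x2)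
    (hne : x1 ≠ x2) : ∃ x, {y | R x y}.Nontrivial ∧
      (∀ δ > 0, {C : Set Z | (∃ g : G, C = g • {y | R x y}) ∧ Big δ C}.Finite) ∧
      ∃ i j, ∀ K, IsPreconnected K → Disjoint K (Γ.e '' {y | R x y}) →
        (K ∩ Γ.D i).Nonempty → ¬ (K ∩ Γ.D j).Nonempty := by
  obtain ⟨i, j, r, ⟨x, rfl⟩, hr⟩ := A.exists_sep W h hx hne
  have := A.cont
  refine ⟨x, ?_, fun δ hδ => (A.big_finite W h hδ).subset ?_, i, j, ?_⟩
  · obtain ⟨δ, hδ, hb⟩ := Γ.big i j
    obtain ⟨a, ha, b, hb, hab⟩ := hb _ hr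
    exact ⟨a, ha, b, hb, fun e => by rw [e, dist_self] at hab; linarith⟩
  · rintro C ⟨⟨g, rfl⟩, hb⟩
    refine ⟨⟨g • x, h.smul_cls g x⟩, hb, g • i, g • j, fun k => hr ?_⟩
    rw [← Γ.smul_image, ← Γ.smul_h, ← Γ.smul_h] at k
    have := Γ.conn
    have := Γ.lconn
    rw [← smul_side] at k
    exact smul_mem_smul_set_iff.1 k
  · rintro K hK hd ⟨u, hu, hu'⟩ ⟨v, hv, hv'⟩
    refine hr ?_
    rw [← Γ.π_D hu', ← Γ.π_D hv']
    exact Γ.mem_side.2 ⟨K, hK, by rwa [Γ.pre_l], hu, hv⟩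

end Pool.Agent.Lib.MP_e1e491_gt.KS
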