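import Pool.Agent.Lib.MP_e1e491_gt.KSBr2
import Pool.Agent.Lib.MP_e1e491_gt.KSMain

/-! Witness holes for a group with carpet boundary, and the separating class. -/

noncomputable section

namespace Pool.Agent.Lib.MP_e1e491_gt.KS

open Set Metric Topology Filter KKC
open scoped Pointwise Classical

section Planar

variable {Z J : Type} [MetricSpace Z] [CompactSpace Z] (Q : PD Z J)

theorem ksbr3_inv {ε : ℝ} (hε : 0 < ε) :
    ∃ δ > 0, ∀ x y : Z, dist (Q.ι x) (Q.ι y) < δ → dist x y < ε := by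
  have hc := Q.ι_cont
  obtain ⟨δ, hδ, h⟩ := IsCompact.exists_forall_le' (s := {p : Z × Z | ε ≤ dist p.1 p.2})
    (isClosed_le continuous_const (by fun_prop)).isCompact
    (f := fun p => dist (Q.ι p.1) (Q.ι p.2)) (by fun_prop) (a := 0) fun p hp =>
      dist_pos.2 fun e => by
        have hp : ε ≤ dist p.1 p.2 := hp
        rw [Q.ι_inj e, dist_self] at hp
        linarith
  exact ⟨δ, hδ, fun x y k => lt_of_not_ge fun k' => (h (x, y) k').not_gt k⟩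

omit [CompactSpace Z] in
theorem ksbr3_mem {j : J} {s : Z} (h : s ∈ Q.P j) : sn (Q.ι s - Q.c j) = Q.r j := by
  have := mem_image_of_mem Q.ι h
  rwa [Q.P_eq] at this

theorem ksbr3_close {u v c : ℂ} {r : ℝ} (hu : sn (u - c) ≤ r) (hv : sn (v - c) ≤ r) :
    dist u v ≤ 4 * r := by
  have h1 := ksbr1_le' (u - c)
  have h2 := ksbr1_le' (v - c)
  have h3 := dist_triangle_right u v c
  rw [dist_eq_norm u c, dist_eq_norm v c] at h3
  linarith

theorem ksbr3_fin {δ : ℝ} (hδ : 0 < δ) : {j | Big δ (Q.P j)}.Finite := by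
  obtain ⟨η, hη, h⟩ := ksbr3_inv Q hδ
  refine (Q.null (η / 4) (by positivity)).subset ?_
  rintro j ⟨a, ha, b, hb, hab⟩
  refine (show η / 4 ≤ Q.r j from le_of_not_gt fun k => (h a b ?_).not_ge hab)
  have := ksbr3_close (ksbr3_mem Q ha).le (ksbr3_mem Q hb).le
  linarith

omit [CompactSpace Z] in
theorem ksbr3_big (j : J) : ∃ δ > 0, Big δ (Q.P j) := by
  obtain ⟨a, ha, b, hb, hab⟩ := (geo Q).two j
  exact ⟨dist a b, dist_pos.2 hab, a, geo_P Q j ▸ ha, b, geo_P Q j ▸ hb, le_rfl⟩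

theorem ksbr3_mono {Z : Type} [MetricSpace Z] {δ δ' : ℝ} {T : Set Z} (h : Big δ T) (k : δ' ≤ δ) :
    Big δ' T := by
  obtain ⟨a, ha, b, hb, hab⟩ := h
  exact ⟨a, ha, b, hb, k.trans hab⟩

theorem ksbr3_connP (j : J) : IsPreconnected (Q.P j) := by
  rw [← (Q.ι_cont.isClosedEmbedding Q.ι_inj).isInducing.isPreconnected_image, Q.P_eq]
  have hr := Q.r_pos j
  have hs : ∀ u : ℂ, u ≠ 0 → 0 < sn u := fun u hu => by
    have := ksbr1_le' u
    have := norm_pos_iff.2 hu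
    linarith
  have h0 := (isConnected_compl_singleton_of_one_lt_rank (E := ℂ)
    (by rw [Complex.rank_real_complex]; norm_num) 0).isPreconnected
  have h1 := h0.image (fun u => Q.c j + ((Q.r j / sn u : ℝ) : ℂ) * u) (by
    refine continuousOn_const.add (ContinuousOn.mul ?_ continuousOn_id)
    exact Complex.continuous_ofReal.comp_continuousOn
      (continuousOn_const.div ksbr1_cont.continuousOn fun u hu => (hs u hu).ne'))
  convert h1 using 1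
  ext v
  constructor
  · intro hv
    have hv : sn (v - Q.c j) = Q.r j := hv
    refine ⟨v - Q.c j, fun e => ?_, by simp [hv, hr.ne']⟩
    rw [mem_singleton_iff.1 e] at hv
    simp [sn] at hv
    linarith
  · rintro ⟨u, hu, rfl⟩
    have := hs u hu
    show sn _ = _
    rw [add_sub_cancel_left, ksbr1_smul _ (by positivity), div_mul_cancel₀ _ this.ne']

include Q in
theorem ksbr3_conn : ConnectedSpace Z := by
  set Γ := geo Q
  have hP : ∀ j, (Γ.P j).Nonempty := fun j => (Γ.two j).nonempty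
  have hc : ∀ j, IsPreconnected (Γ.P j) := fun j => geo_P Q j ▸ ksbr3_connP Q j
  have key : ∀ U : Set Z, IsClopen U → IsOpen (Γ.l '' U ∪ Γ.h '' {j | Γ.P j ⊆ U}) := fun U hU => by
    rw [Γ.isOpen_iff']
    rintro s (⟨t, ht, e⟩ | ⟨j, -, e⟩)
    · obtain ⟨ε, hε, h⟩ := Metric.isOpen_iff.1 hU.2 s (Γ.l_inj e ▸ ht)
      exact ⟨ε, hε, fun u hu => ⟨.inl ⟨u, h hu, rfl⟩, fun j hj =>
        .inr ⟨j, (hc j).subset_isClopen hU ⟨u, hj, h hu⟩, rfl⟩⟩⟩
    · exact (Γ.l_ne_h s j e.symm).elim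
  have hl : ∀ (U : Set Z) s, Γ.l s ∈ Γ.l '' U ∪ Γ.h '' {j | Γ.P j ⊆ U} ↔ s ∈ U := fun U s => by
    refine ⟨?_, fun h => .inl ⟨s, h, rfl⟩⟩
    rintro (⟨t, ht, e⟩ | ⟨j, -, e⟩)
    exacts [Γ.l_inj e ▸ ht, (Γ.l_ne_h s j e.symm).elim]
  have hh : ∀ (U : Set Z) j, Γ.h j ∈ Γ.l '' U ∪ Γ.h '' {j | Γ.P j ⊆ U} ↔ Γ.P j ⊆ U := fun U j => by
    refine ⟨?_, fun h => .inr ⟨j, h, rfl⟩⟩
    rintro (⟨t, -, e⟩ | ⟨i, hi, e⟩)
    exacts [(Γ.l_ne_h t j e).elim, Γ.h_inj e ▸ hi]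
  have := Γ.conn
  refine connectedSpace_iff_clopen.2 ⟨⟨(hP Q.o).choose⟩, fun U hU => ?_⟩
  have e : (Γ.l '' U ∪ Γ.h '' {j | Γ.P j ⊆ U})ᶜ = Γ.l '' Uᶜ ∪ Γ.h '' {j | Γ.P j ⊆ Uᶜ} := by
    ext x
    rcases Γ.cases x with ⟨s, rfl⟩ | ⟨j, rfl⟩
    · rw [mem_compl_iff, hl, hl, mem_compl_iff]
    · rw [mem_compl_iff, hh, hh]
      refine ⟨fun h t ht k => h ((hc j).subset_isClopen hU ⟨t, ht, k⟩), fun h k => ?_⟩
      obtain ⟨t, ht⟩ := hP j
      exact h ht (k ht)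
  rcases isClopen_iff.1 ⟨⟨e ▸ key _ hU.compl⟩, key U hU⟩ with h | h
  · exact .inl (eq_empty_of_forall_notMem fun s hs => by
      have := (hl U s).2 hs
      rwa [h] at this)
  · exact .inr (eq_univ_of_forall fun s => (hl U s).1 (h ▸ mem_univ _))

/-- `t` is the point `v`, or lies on the circle of the hole of `v`. -/
def Foot (v : ℂ) (t : Z) : Prop := v = Q.ι t ∨ ∃ j, v ∈ Q.D j ∧ t ∈ Q.P j

omit [CompactSpace Z] in
theorem ksbr3_uniq {i j : J} {v : ℂ} (hi : v ∈ Q.D i) (hj : v ∈ Q.D j) : i = j :=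
  by_contra fun h => disjoint_left.1 (Q.D_disj i j h) hi hj

omit [CompactSpace Z] in
theorem ksbr3_foot (v : ℂ) : ∃ t, Foot Q v t := by
  rcases Q.cover v with ⟨t, e⟩ | ⟨j, hj⟩
  · exact ⟨t, .inl e.symm⟩
  · obtain ⟨_, -, a, ha, -⟩ := ksbr3_big Q j
    exact ⟨a, .inr ⟨j, hj, ha⟩⟩

omit [CompactSpace Z] in
theorem ksbr3_feet {v : ℂ} {t t' : Z} {r : ℝ} (hr : 0 < r) (h : ¬ ∃ j, v ∈ Q.D j ∧ Big r (Q.P j))
    (h1 : Foot Q v t) (h2 : Foot Q v t') : dist t t' ≤ r := by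
  rcases h1 with e | ⟨i, hi, ht⟩ <;> rcases h2 with e' | ⟨j, hj, ht'⟩
  · rw [Q.ι_inj (e.symm.trans e'), dist_self]
    exact hr.le
  · exact (Q.not_mem t j (e ▸ hj)).elim
  · exact (Q.not_mem t' i (e' ▸ hi)).elim
  · exact le_of_not_gt fun k => h ⟨j, hj, t, ksbr3_uniq Q hi hj ▸ ht, t', ht', k.le⟩

theorem ksbr3_unif {ρ : ℝ} (hρ : 0 < ρ) : ∃ η > 0, ∀ v0 : ℂ, ∃ s : Z, ∀ v ∈ ball v0 η,
    ∃ t, Foot Q v t ∧ dist t s ≤ ρ := by
  obtain ⟨δ, hδ, h⟩ := ksbr3_inv Q hρ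
  refine ⟨δ / 2, half_pos hδ, fun v0 => ?_⟩
  by_cases k : ∃ j, ball v0 (δ / 2) ⊆ Q.D j
  · obtain ⟨j, hj⟩ := k
    obtain ⟨_, -, a, ha, -⟩ := ksbr3_big Q j
    exact ⟨a, fun v hv => ⟨a, .inr ⟨j, hj hv, ha⟩, by rw [dist_self]; exact hρ.le⟩⟩
  have key : ∀ v ∈ ball v0 (δ / 2), ∃ t, Foot Q v t ∧ Q.ι t ∈ ball v0 (δ / 2) := fun v hv => by
    rcases Q.cover v with ⟨t, e⟩ | ⟨j, hj⟩
    · exact ⟨t, .inl e.symm, e ▸ hv⟩
    · obtain ⟨t, ht, ht'⟩ := (geo Q).meet (convex_ball v0 (δ / 2)).isPreconnected (j := j)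
        ⟨v, hv, hj⟩ fun k' => k ⟨j, k'⟩
      exact ⟨t, .inr ⟨j, hj, geo_P Q j ▸ ht⟩, ht'⟩
  obtain ⟨s, -, hs⟩ := key v0 (mem_ball_self (half_pos hδ))
  refine ⟨s, fun v hv => ?_⟩
  obtain ⟨t, ht, ht'⟩ := key v hv
  refine ⟨t, ht, (h t s ?_).le⟩
  linarith [dist_triangle_right (Q.ι t) (Q.ι s) v0, mem_ball.1 hs, mem_ball.1 ht']

omit [CompactSpace Z] in
theorem ksbr3_small {ε : ℝ} (hε : 0 < ε) : ∃ δ > 0, ∀ v t, Foot Q v t →
    (¬ ∃ j, v ∈ Q.D j ∧ Big δ (Q.P j)) → dist v (Q.ι t) < ε := by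
  choose d hd hb using ksbr3_big Q
  obtain ⟨δ, hδ, h⟩ : ∃ δ > 0, ∀ j ∈ insert Q.o {j | ε / 4 ≤ Q.r j}, δ ≤ d j := by
    obtain ⟨j, -, hj⟩ := ((Q.null (ε / 4) (by positivity)).insert Q.o).exists_minimalFor d _
      (insert_nonempty _ _)
    exact ⟨d j, hd j, fun i hi => le_of_not_gt fun k => (hj hi k.le).not_gt k⟩
  refine ⟨δ, hδ, ?_⟩
  rintro v t (rfl | ⟨j, hj, ht⟩) k
  · rwa [dist_self]
  have h1 : j ∉ insert Q.o {j | ε / 4 ≤ Q.r j} := fun m => k ⟨j, hj, ksbr3_mono (hb j) (h j m)⟩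
  rw [mem_insert_iff, not_or] at h1
  rw [Q.D_in j h1.1] at hj
  have h2 : Q.r j < ε / 4 := lt_of_not_ge h1.2
  linarith [ksbr3_close (le_of_lt hj) (ksbr3_mem Q ht).le]

end Planar

variable {G Z J : Type} [Group G] [MetricSpace Z] [CompactSpace Z] [MulAction G Z]
  [ContinuousConstSMul G Z] [MulAction G J] (X : CS G Z J)

omit [CompactSpace Z] [ContinuousConstSMul G Z] in
theorem ksbr3_wit : ∃ c > 0, c ≤ 1 ∧ ∃ L > 0, ∀ (s : Z) (k : ℕ), ∃ j,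
    Big (c * X.H.a ^ (-(k : ℝ))) (X.Q.P j) ∧ ∃ t ∈ X.Q.P j, dist t s ≤ L * X.H.a ^ (-(k : ℝ)) := by
  set H := X.H
  have hC : 0 < H.C := zero_lt_one.trans_le H.hC
  obtain ⟨κ, hκ, hb⟩ := ksbr3_big X.Q X.Q.o
  refine ⟨min (κ / H.C ^ 3) 1, by positivity, min_le_right _ _,
    H.C ^ 2 * (H.C ^ 3 / (κ / 2) + H.C) + H.C * (H.C ^ 3 / (κ / 2)), by positivity, fun s k => ?_⟩
  obtain ⟨g, rfl, hg⟩ := H.ray s k
  change H.q _ _ ≤ H.C * H.sc g at hg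
  change ∃ j, Big (_ * H.sc g) _ ∧ ∃ t ∈ _, _ ≤ _ * H.sc g
  have hr := ksbr2_pos H g
  refine ⟨g • X.Q.o, ?_, ?_⟩
  · rw [X.act_P]
    exact ksbr3_mono (ksbr2_big H hb g) (mul_le_mul_of_nonneg_right (min_le_left _ _) hr.le)
  obtain ⟨a, ha, b, hb, hab⟩ := hb
  obtain ⟨y, hy, hty⟩ : ∃ y ∈ X.Q.P X.Q.o, κ / 2 ≤ dist y (H.loc g⁻¹) := by
    by_contra k
    push Not at k
    linarith [k a ha, k b hb, dist_triangle_right a b (H.loc g⁻¹)]
  refine ⟨g • y, X.act_P g _ ▸ smul_mem_smul_set hy, ?_⟩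
  have p1 : 0 < H.C ^ 3 / (κ / 2) * H.sc g := by positivity
  have p2 : 0 < H.C * H.sc g := by positivity
  have p3 : 0 < H.C * (H.C ^ 3 / (κ / 2) * H.sc g) := by positivity
  have p4 : 0 < H.C ^ 2 * ((H.C ^ 3 / (κ / 2) + H.C) * H.sc g) := by positivity
  rcases lt_or_ge (H.C ^ 3 * H.sc g) (κ / 2) with k | k
  · have h1 := ksbr2_con H (half_pos hκ) hty k
    have := ksbr2_dist H (g • y) s g (b := (H.C ^ 3 / (κ / 2) + H.C) * H.sc g) (by linarith)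
      (by linarith)
    linarith
  · have h1 : 1 ≤ H.C ^ 3 / (κ / 2) * H.sc g := by
      rw [div_mul_eq_mul_div, le_div_iff₀ (half_pos hκ)]
      linarith
    have h2 := (H.le_q (g • y) s).trans
      (mul_le_mul_of_nonneg_left ((H.q_le_one _ _).trans h1) hC.le)
    linarith

omit [ContinuousConstSMul G Z] in
theorem ksbr3_Wit : Nonempty (Wit (geo X.Q) G) := by
  set H := X.H
  set Q := X.Q
  have ha : 0 < H.a := zero_lt_one.trans H.ha
  obtain ⟨c, hc, hc1, L, hL, hw⟩ := ksbr3_wit X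
  choose wit hw1 hw2 using hw
  choose foot hf using ksbr3_foot Q
  set r : ℕ → ℝ := fun k => H.a ^ (-(k : ℝ)) with hr
  have r0 : ∀ k, 0 < r k := fun k => Real.rpow_pos_of_pos ha _
  let w : ℕ → ℂ → J := fun k v =>
    if h : ∃ j, v ∈ Q.D j ∧ Big (r k) (Q.P j) then h.choose else wit (foot v) k
  have hW : ∀ k v t, Foot Q v t → Big (c * r k) (Q.P (w k v)) ∧
      ∃ t' ∈ Q.P (w k v), dist t' t ≤ (L + 1) * r k := fun k v t ht => by
    have := r0 k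
    by_cases h : ∃ j, v ∈ Q.D j ∧ Big (r k) (Q.P j)
    · simp only [w, dif_pos h]
      refine ⟨ksbr3_mono h.choose_spec.2 (mul_le_of_le_one_left this.le hc1), t, ?_, ?_⟩
      · rcases ht with e | ⟨j, hj, ht⟩
        · exact (Q.not_mem t h.choose (by rw [← e]; exact h.choose_spec.1)).elim
        · exact ksbr3_uniq Q hj h.choose_spec.1 ▸ ht
      · rw [dist_self]
        positivity
    · simp only [w, dif_neg h]
      obtain ⟨t', h1, h2⟩ := hw2 (foot v) k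
      refine ⟨hw1 _ _, t', h1, ?_⟩
      linarith [dist_triangle t' (foot v) t, ksbr3_feet Q this h (hf v) ht]
  obtain ⟨κ, hκ, hv⟩ := ksbr2_view H (c := c / H.a) (L := L + 2) (by positivity) (by positivity)
  refine ⟨⟨w, (ksbr3_fin Q hκ).toFinset, fun M => ?_, fun j => ?_, fun ε hε => ?_, fun m => ?_⟩⟩
  · obtain ⟨η, hη, h⟩ := ksbr3_unif Q (r0 M)
    refine ⟨η, hη, fun v0 m hm => ?_⟩
    obtain ⟨s, hs⟩ := h v0
    obtain ⟨g, rfl, hg⟩ := H.ray s m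
    refine ⟨g, fun v hv' => ?_⟩
    obtain ⟨t, ht, hts⟩ := hs v hv'
    have key : ∀ k, H.len g ≤ k → k ≤ H.len g + 1 → g⁻¹ • w k v ∈ (ksbr3_fin Q hκ).toFinset :=
      fun k k1 k2 => by
        obtain ⟨b1, t', h1, h2⟩ := hW k v t ht
        have e1 : r k ≤ H.sc g := ksbr2_anti H k1
        have e2 : r M ≤ H.sc g := ksbr2_anti H hm
        have e3 : H.sc g / H.a ≤ r k := by
          refine le_trans (le_of_eq ?_) (ksbr2_anti H k2)
          rw [HB.sc, ← Real.rpow_sub_one ha.ne']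
          push_cast
          ring_nf
        rw [Set.Finite.mem_toFinset, mem_ofPred_eq, X.act_P]
        refine hv g s _ hg (ksbr3_mono b1 ?_) ⟨t', h1, ?_⟩
        · rw [div_mul_eq_mul_div, mul_div_assoc]
          exact mul_le_mul_of_nonneg_left e3 hc.le
        · have := mul_le_mul_of_nonneg_left e1 (show 0 ≤ L + 1 by positivity)
          linarith [dist_triangle t' t s]
    exact ⟨key _ le_rfl (Nat.le_succ _), key _ (Nat.le_succ _) le_rfl⟩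
  · obtain ⟨δ, hδ, hb⟩ := ksbr3_big Q j
    obtain ⟨m0, hm⟩ := ksbr2_small H hδ
    refine ⟨m0, fun m k v hv => ?_⟩
    have h : ∃ j, v ∈ Q.D j ∧ Big (r m) (Q.P j) := ⟨j, hv, ksbr3_mono hb (hm m k).le⟩
    simp only [w, dif_pos h]
    exact ksbr3_uniq Q h.choose_spec.1 hv
  · obtain ⟨δ, hδ, h1⟩ := ksbr3_small Q (show 0 < ε / 3 by positivity)
    obtain ⟨τ, hτ, h2⟩ := Metric.uniformContinuous_iff.1
      (CompactSpace.uniformContinuous_of_continuous Q.ι_cont) (ε / 3) (by positivity)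
    obtain ⟨m0, hm⟩ := ksbr2_small H (show 0 < min δ (τ / (L + 1)) by positivity)
    refine ⟨m0, fun m k v => ?_⟩
    have e : r m < min δ (τ / (L + 1)) := hm m k
    rw [lt_min_iff, lt_div_iff₀ (by positivity)] at e
    by_cases h : ∃ j, v ∈ Q.D j ∧ Big (r m) (Q.P j)
    · simp only [w, dif_pos h]
      exact ⟨v, h.choose_spec.1, by rwa [dist_self]⟩
    obtain ⟨-, t, ht, htv⟩ := hW m v _ (hf v)
    obtain ⟨z, hz, hz'⟩ := Metric.mem_closure_iff.1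
      (show Q.ι t ∈ closure (Q.D (w m v)) from (geo_P Q _ ▸ ht : t ∈ (geo Q).P _)) (ε / 3)
      (by positivity)
    refine ⟨z, hz, ?_⟩
    have k1 := h1 v _ (hf v) fun ⟨j, a, b⟩ => h ⟨j, a, ksbr3_mono b e.1.le⟩
    have k2 := h2 (show dist t (foot v) < τ by linarith [e.2])
    linarith [dist_triangle4 v (Q.ι (foot v)) (Q.ι t) z, dist_comm (Q.ι t) (Q.ι (foot v))]
  · refine (ksbr3_fin Q (mul_pos hc (r0 m))).subset ?_
    rintro _ ⟨v, rfl⟩
    exact (hW m v _ (hf v)).1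

end Pool.Agent.Lib.MP_e1e491_gt.KS

namespace KKC

open Set Pool.Agent.Lib.MP_e1e491_gt.KS
open scoped Pointwise

variable {G Z J : Type} [Group G] [MetricSpace Z] [CompactSpace Z] [MulAction G Z]
  [ContinuousConstSMul G Z] [MulAction G J]

/-- A nontrivial invariant decomposition has a class that separates two holes and has finitely many
big translates. -/
theorem thmS (X : CS G Z J) (R : Dec G Z) (h : ∃ x y, R.R x y ∧ x ≠ y) :
    ∃ x, (R.cls x).Nontrivial ∧ FS G (R.cls x) ∧ ∃ i j, ¬ X.Q.Same (R.cls x) (.inr i) (.inr j) := by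
  classical
  obtain ⟨x1, x2, hx, hne⟩ := h
  have := ksbr3_conn X.Q
  obtain ⟨W⟩ := ksbr3_Wit X
  have A : Act (geo X.Q) G :=
    ⟨fun g j => by rw [geo_P, geo_P, X.act_P], fun ε hε => ksbr2_conv X.H hε, ksbr2_FIN X.H⟩
  obtain ⟨x, h1, h2, i, j, h3⟩ := A.thmS W (R := R.R) ⟨R.equiv, R.closed, R.inv, R.conn⟩ hx hne
  refine ⟨x, h1, fun δ hδ => ?_, i, j, fun k => ?_⟩
  · have hf := h2 δ hδ
    have : ∀ C : Set Z, ∃ γ : G, (∃ g : G, C = g • R.cls x) → C = γ • R.cls x := fun C => by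
      by_cases k : ∃ g : G, C = g • R.cls x
      exacts [k.imp fun _ e _ => e, ⟨1, fun k' => (k k').elim⟩]
    choose γ hγ using this
    refine ⟨hf.toFinset.image fun C => (γ C)⁻¹, fun g hg => ⟨_, Finset.mem_image_of_mem _
      (hf.mem_toFinset.2 (show g⁻¹ • R.cls x ∈ _ from ⟨⟨g⁻¹, rfl⟩, hg⟩)), ?_⟩⟩
    rw [inv_inv, mul_smul, ← hγ _ ⟨g⁻¹, rfl⟩, smul_inv_smul]
  · refine h3 _ isPreconnected_connectedComponentIn
      (disjoint_left.2 fun _ hv => connectedComponentIn_subset _ _ hv)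
      ⟨_, mem_connectedComponentIn ?_, ksbr1_bp X.Q i⟩ ⟨_, k, ksbr1_bp X.Q j⟩
    rintro ⟨s, -, e⟩
    exact X.Q.not_mem s i ((show X.Q.ι s = X.Q.bp i from e) ▸ ksbr1_bp X.Q i)

end KKC
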