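import Pool.Agent.Lib.MP_e1e491_gt.KSE

/-! Deep views that see three colours. -/

noncomputable section

namespace Pool.Agent.Lib.MP_e1e491_gt.KS

open Set Metric Topology Filter
open scoped Pointwise Classical

variable {X G : Type} [TopologicalSpace X] [ConnectedSpace X] [LocallyConnectedSpace X]
  [Group G] [MulAction G X] [ContinuousConstSMul G X] {𝒞 : Set (Set X)} {a b : X}

/-- The view `g` sees three colours, through points of `T`. -/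
def Sees (T : Set X) (a b : X) (p q : Set X) (g : G) (u1 u u2 : X) : Prop :=
  g⁻¹ • u1 ∈ T ∧ g⁻¹ • u ∈ T ∧ g⁻¹ • u2 ∈ T ∧ Col a b p q u1 u u2

/-- The elements that fix `e` and its side through `x`. -/
def ksc_stab (G : Type) [Group G] [MulAction G X] (e : Set X) (x : X) : Set G :=
  {g : G | g • e = e ∧ g • side e x = side e x}

theorem ksc_stab_smul (g : G) {e : Set X} {x : X} (h : (ksc_stab G e x).Finite) :
    (ksc_stab G (g • e) (g • x)).Finite := by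
  refine (h.image fun s => g * s * g⁻¹).subset fun s hs => ⟨g⁻¹ * s * g, ⟨?_, ?_⟩, by group⟩
  · rw [mul_smul, mul_smul, hs.1, inv_smul_smul]
  · have h1 := hs.2
    rw [← smul_side] at h1
    rw [mul_smul, mul_smul, h1, inv_smul_smul]

theorem ksc_count {𝓔 : Set (Set X)} (h𝓔 : 𝓔.Finite) {T : Set X} (hT : T.Finite) :
    ∃ N : ℕ, ∀ r U : Set X, ∃ S : Finset G, S.card ≤ N ∧ ∀ g : G, ∀ e ∈ 𝓔, ∀ t ∈ T,
      (ksc_stab G e t).Finite → g • e = r → g • side e t = U → g ∈ S := by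
  have hW : (⋃ e ∈ 𝓔, ⋃ t ∈ T, (fun s : G => (e, t, s)) ''
      {s | (ksc_stab G e t).Finite ∧ s ∈ ksc_stab G e t}).Finite := by
    refine h𝓔.biUnion fun e _ => hT.biUnion fun t _ => Finite.image _ ?_
    by_cases h : (ksc_stab G e t).Finite
    · exact h.subset fun s hs => hs.2
    · exact finite_empty.subset fun s hs => h hs.1
  refine ⟨hW.toFinset.card, fun r U => ?_⟩
  have hch : ∀ (e : Set X) (t : X), ∃ g0 : G, ∀ g : G, g • e = r → g • side e t = U →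
      g0 • e = r ∧ g0 • side e t = U := by
    intro e t
    by_cases h : ∃ g : G, g • e = r ∧ g • side e t = U
    · obtain ⟨g0, h0⟩ := h
      exact ⟨g0, fun _ _ _ => h0⟩
    · exact ⟨1, fun g h1 h2 => absurd ⟨g, h1, h2⟩ h⟩
  choose g0 hg0 using hch
  refine ⟨hW.toFinset.image fun w => g0 w.1 w.2.1 * w.2.2, Finset.card_image_le, ?_⟩
  intro g e he t ht hs h1 h2
  obtain ⟨h3, h4⟩ := hg0 e t g h1 h2
  refine Finset.mem_image.2 ⟨(e, t, (g0 e t)⁻¹ * g), ?_, by simp⟩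
  rw [Finite.mem_toFinset]
  refine mem_iUnion₂.2 ⟨e, he, mem_iUnion₂.2 ⟨t, ht, _, ⟨hs, ?_, ?_⟩, rfl⟩⟩
  · rw [mul_smul, h1, ← h3, inv_smul_smul]
  · rw [mul_smul, h2, ← h4, inv_smul_smul]

/-- Let `𝓔` be the union of the finite sets `Es` over the triples of `T`, and `𝓔'` its union with
the translates by `K`; `Φ` is the set of `g` that move two members of `𝓔'` into `II 𝒞 a b`
(`nn`). For `g ∉ Φ` each `Es u1 u u2` seen by `g` is a single member (`Es_smul`, `Col.mem`,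
`Col.main`), the same for all triples seen by `g`, and the same for a neighbour `g'`. Call it
`cls g`. The set of `g` with `g • e = r` and `g • side e t1 = side r a` is empty or a coset of the
finite stabiliser; sum over the triples of `T` whose `Es` is one member with finite stabiliser. -/
theorem sees (F : Fam 𝒞) (A : FamAct 𝒞 G) (ha : Free 𝒞 a) (hb : Free 𝒞 b) {T : Set X}
    (hT : T.Finite) (hf : ∀ u ∈ T, Free 𝒞 u) {K : Set G} (hK : K.Finite) :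
    ∃ (Φ : Set G) (N : ℕ), Φ.Finite ∧ ∀ p ∈ II 𝒞 a b, ∀ q ∈ II 𝒞 a b, p ⊆ side q a →
      ∃ cls : G → Set X,
        (∀ r, ∃ S : Finset G, S.card ≤ N ∧ ∀ g ∉ Φ, (∃ u1 u u2, Sees T a b p q g u1 u u2) →
          cls g = r → g ∈ S) ∧
        ∀ g ∉ Φ, ∀ g' ∉ Φ, g⁻¹ * g' ∈ K → (∃ u1 u u2, Sees T a b p q g u1 u u2) →
          (∃ u1 u u2, Sees T a b p q g' u1 u u2) → cls g = cls g' := by
  obtain ⟨𝓔, h𝓔⟩ : ∃ 𝓔 : Set (Set X), 𝓔 = ⋃ t1 ∈ T, ⋃ t ∈ T, ⋃ t2 ∈ T, Es 𝒞 t1 t t2 := ⟨_, rfl⟩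
  have hfin : 𝓔.Finite := by
    rw [h𝓔]
    exact hT.biUnion fun t1 h1 => hT.biUnion fun t _ => hT.biUnion fun t2 h2 =>
      Es.finite F (hf t1 h1) (hf t2 h2) t
  have hC : ∀ e ∈ 𝓔, e ∈ 𝒞 := by
    intro e he
    rw [h𝓔] at he
    simp only [mem_iUnion] at he
    obtain ⟨t1, -, t, -, t2, -, h⟩ := he
    exact h.1.1
  have hmem : ∀ (g : G) u1 u u2 r, g⁻¹ • u1 ∈ T → g⁻¹ • u ∈ T → g⁻¹ • u2 ∈ T →
      r ∈ Es 𝒞 u1 u u2 → g⁻¹ • r ∈ 𝓔 := by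
    intro g u1 u u2 r h1 h2 h3 hr
    rw [h𝓔]
    exact mem_iUnion₂.2 ⟨_, h1, mem_iUnion₂.2 ⟨_, h2, mem_iUnion₂.2 ⟨_, h3,
      (A.Es_smul g⁻¹ u).2 hr⟩⟩⟩
  obtain ⟨𝓕, h𝓕⟩ : ∃ 𝓕 : Set (Set X), 𝓕 = 𝓔 ∪ ⋃ k ∈ K, (fun e => k • e) '' 𝓔 := ⟨_, rfl⟩
  have hfin' : 𝓕.Finite := by
    rw [h𝓕]
    exact hfin.union (hK.biUnion fun k _ => hfin.image _)
  have hC' : ∀ e ∈ 𝓕, e ∈ 𝒞 := by
    intro e he
    rw [h𝓕] at he
    rcases he with he | he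
    · exact hC e he
    · obtain ⟨k, -, e', he', rfl⟩ := mem_iUnion₂.1 he
      exact A.inv k e' (hC e' he')
  have hsub : ∀ e ∈ 𝓔, e ∈ 𝓕 := fun e he => by
    rw [h𝓕]
    exact Or.inl he
  obtain ⟨Φ, hΦ⟩ : ∃ Φ : Set G, Φ = ⋃ e ∈ 𝓕, ⋃ e' ∈ 𝓕,
      {g : G | e ≠ e' ∧ g • e ∈ II 𝒞 a b ∧ g • e' ∈ II 𝒞 a b} := ⟨_, rfl⟩
  have hΦf : Φ.Finite := by
    rw [hΦ]
    refine hfin'.biUnion fun e he => hfin'.biUnion fun e' he' => ?_
    by_cases h : e = e'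
    · exact finite_empty.subset fun g hg => hg.1 h
    · exact (A.nn a b ha hb e (hC' e he) e' (hC' e' he') h).subset fun g hg => hg.2
  have huniq : ∀ g ∉ Φ, ∀ r ∈ II 𝒞 a b, ∀ r' ∈ II 𝒞 a b, g⁻¹ • r ∈ 𝓕 → g⁻¹ • r' ∈ 𝓕 →
      r = r' := by
    intro g hg r hr r' hr' h1 h2
    by_contra hne
    apply hg
    rw [hΦ]
    refine mem_iUnion₂.2 ⟨_, h1, mem_iUnion₂.2 ⟨_, h2, fun h => hne ?_, ?_, ?_⟩⟩
    · exact MulAction.injective g⁻¹ h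
    · rwa [smul_inv_smul]
    · rwa [smul_inv_smul]
  obtain ⟨N, hN⟩ := ksc_count (G := G) hfin hT
  refine ⟨Φ, N, hΦf, fun p hp q hq hpq => ?_⟩
  have hone : ∀ g ∉ Φ, ∀ u1 u u2, Sees T a b p q g u1 u u2 → ∃ r ∈ II 𝒞 a b, g⁻¹ • r ∈ 𝓔 ∧
      side r u1 = side r a ∧ (ksc_stab G r u1).Finite := by
    intro g hg u1 u u2 ⟨h1, h2, h3, c⟩
    have f1 : Free 𝒞 u1 := by
      have := A.free (hf _ h1) g
      rwa [smul_inv_smul] at this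
    have f2 : Free 𝒞 u2 := by
      have := A.free (hf _ h3) g
      rwa [smul_inv_smul] at this
    rcases Col.main F A ha hb hp hq hpq f1 f2 c with ⟨r, hr, r', hr', hne⟩ | ⟨r, hr, h4, h5⟩
    · exact absurd (huniq g hg r (Col.mem F ha hb hp hq hpq f1 f2 c hr).1 r'
        (Col.mem F ha hb hp hq hpq f1 f2 c hr').1 (hsub _ (hmem g u1 u u2 r h1 h2 h3 hr))
        (hsub _ (hmem g u1 u u2 r' h1 h2 h3 hr'))) hne
    · have hr' : r ∈ Es 𝒞 u1 u u2 := by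
        rw [hr]
        exact mem_singleton r
      exact ⟨r, (Col.mem F ha hb hp hq hpq f1 f2 c hr').1, hmem g u1 u u2 r h1 h2 h3 hr', h4, h5⟩
  have hch : ∀ g : G, ∃ c : Set X, (∃ r ∈ II 𝒞 a b, g⁻¹ • r ∈ 𝓔) →
      c ∈ II 𝒞 a b ∧ g⁻¹ • c ∈ 𝓔 := by
    intro g
    by_cases h : ∃ r ∈ II 𝒞 a b, g⁻¹ • r ∈ 𝓔
    · obtain ⟨r, hr⟩ := h
      exact ⟨r, fun _ => hr⟩
    · exact ⟨∅, fun h' => absurd h' h⟩
  choose cls hcls using hch
  refine ⟨cls, fun r => ?_, ?_⟩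
  · obtain ⟨S, hS, hS'⟩ := hN r (side r a)
    refine ⟨S, hS, ?_⟩
    rintro g hg ⟨u1, u, u2, hs⟩ hr
    obtain ⟨r', h1, h2, h3, h4⟩ := hone g hg u1 u u2 hs
    obtain ⟨h5, h6⟩ := hcls g ⟨r', h1, h2⟩
    have h7 : r' = r := (huniq g hg r' h1 _ h5 (hsub _ h2) (hsub _ h6)).trans hr
    subst h7
    refine hS' g _ h2 _ hs.1 (ksc_stab_smul g⁻¹ h4) (smul_inv_smul g _) ?_
    rw [smul_side, smul_inv_smul, smul_inv_smul, h3]
  · rintro g hg g' hg' hk ⟨u1, u, u2, hs⟩ ⟨u1', u', u2', hs'⟩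
    obtain ⟨r, h1, h2, -⟩ := hone g hg u1 u u2 hs
    obtain ⟨r', h1', h2', -⟩ := hone g' hg' u1' u' u2' hs'
    obtain ⟨h5, h6⟩ := hcls g ⟨r, h1, h2⟩
    obtain ⟨h5', h6'⟩ := hcls g' ⟨r', h1', h2'⟩
    refine huniq g hg _ h5 _ h5' (hsub _ h6) ?_
    rw [h𝓕]
    refine Or.inr (mem_iUnion₂.2 ⟨_, hk, _, h6', ?_⟩)
    change (g⁻¹ * g') • g'⁻¹ • cls g' = _
    rw [mul_smul, smul_inv_smul]

end Pool.Agent.Lib.MP_e1e491_gt.KS
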