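import Mathlib

/-! The boundary cycle of a colouring of a fine grid. -/

noncomputable section

namespace Pool.Agent.Lib.MP_e1e491_gt.KS

open Set Metric
open scoped Classical

theorem kscyc_log_div {x y : ℂ} (hx : 0 < x.re) (hy : 0 < y.re) :
    Complex.log (x / y) = Complex.log x - Complex.log y := by
  have hx0 : x ≠ 0 := fun h => by simp [h] at hx
  have hy0 : y ≠ 0 := fun h => by simp [h] at hy
  have h1 := abs_lt.1 (Complex.abs_arg_lt_pi_div_two_iff.2 (Or.inl hx))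
  have h2 := abs_lt.1 (Complex.abs_arg_lt_pi_div_two_iff.2 (Or.inl hy))
  have hpi := Real.pi_pos
  have h3 : y.arg ≠ Real.pi := by linarith [h2.2] |> ne_of_lt
  rw [div_eq_mul_inv, (Complex.log_mul_eq_add_log_iff hx0 (inv_ne_zero hy0)).2, Complex.log_inv _ h3,
    sub_eq_add_neg]
  rw [Complex.arg_inv, if_neg h3]
  constructor <;> linarith [h1.1, h1.2, h2.1, h2.2]

theorem kscyc_four (u : ℂ) {z₀ z₁ z₂ z₃ : ℂ} (h₀ : 0 < (u * z₀).re) (h₁ : 0 < (u * z₁).re)
    (h₂ : 0 < (u * z₂).re) (h₃ : 0 < (u * z₃).re) :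
    Complex.log (z₁ / z₀) + Complex.log (z₂ / z₁) + Complex.log (z₃ / z₂) +
      Complex.log (z₀ / z₃) = 0 := by
  have hu : u ≠ 0 := fun h => by simp [h] at h₀
  rw [← mul_div_mul_left z₁ z₀ hu, ← mul_div_mul_left z₂ z₁ hu, ← mul_div_mul_left z₃ z₂ hu,
    ← mul_div_mul_left z₀ z₃ hu, kscyc_log_div h₁ h₀, kscyc_log_div h₂ h₁, kscyc_log_div h₃ h₂,
    kscyc_log_div h₀ h₃]
  ring

theorem kscyc_anti (u : ℂ) {x y : ℂ} (h : (u * x).re = (u * y).re) (h0 : (u * y).re ≠ 0) :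
    Complex.log (x / y) + Complex.log (y / x) = 0 := by
  have hy : y ≠ 0 := fun e => by simp [e] at h0
  have h1 : (x / y).arg ≠ Real.pi := by
    intro e
    obtain ⟨e1, e2⟩ := Complex.arg_eq_pi_iff.1 e
    have h2 : u * x = x / y * (u * y) := by field_simp
    rw [h2, Complex.mul_re, e2, zero_mul, sub_zero] at h
    have h3 : (x / y).re = 1 := mul_right_cancel₀ h0 (by rw [h, one_mul])
    linarith
  rw [← inv_div x y, Complex.log_inv _ h1, add_neg_cancel]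

theorem kscyc_scale {ρ : ℝ} (hρ : 0 < ρ) (v k x y : ℂ) :
    (v + ρ * x - (v + 2 * ρ * k)) / (v + ρ * y - (v + 2 * ρ * k)) = (x - 2 * k) / (y - 2 * k) := by
  have h : (ρ : ℂ) ≠ 0 := Complex.ofReal_ne_zero.2 hρ.ne'
  rw [← mul_div_mul_left (x - 2 * k) (y - 2 * k) h]
  congr 1 <;> ring

theorem kscyc_c0 : (1 + Complex.I) * Complex.I ^ 0 = (1 - Complex.I) * Complex.I ^ 1 := by
  apply Complex.ext <;> simp

theorem kscyc_c1 : (1 + Complex.I) * Complex.I ^ 1 = (1 - Complex.I) * Complex.I ^ 2 := by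
  apply Complex.ext <;> simp

theorem kscyc_c2 : (1 + Complex.I) * Complex.I ^ 2 = (1 - Complex.I) * Complex.I ^ 3 := by
  apply Complex.ext <;> simp [pow_succ]

theorem kscyc_c3 : (1 + Complex.I) * Complex.I ^ 3 = (1 - Complex.I) * Complex.I ^ 0 := by
  apply Complex.ext <;> simp [pow_succ]

/-- The sum over the four sides of the square of half side `ρ` around `v`, counterclockwise. It is
`2 π i` for `a = v` (four quarter turns). If `a` is another point of the grid, a rotation moves the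
closed square minus `a` into the right half plane and the sum telescopes. -/
theorem cyc_cell {ρ : ℝ} (hρ : 0 < ρ) (v : ℂ) (p q : ℤ) {a : ℂ}
    (ha : a = v + 2 * ρ * (p + q * Complex.I)) :
    ∑ d : Fin 4, Complex.log ((v + ρ * (1 + Complex.I) * Complex.I ^ (d : ℕ) - a) /
      (v + ρ * (1 - Complex.I) * Complex.I ^ (d : ℕ) - a)) =
      if p = 0 ∧ q = 0 then 2 * Real.pi * Complex.I else 0 := by
  subst ha
  simp only [mul_assoc (ρ : ℂ), kscyc_scale hρ]
  rw [Fin.sum_univ_four]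
  change Complex.log (((1 + Complex.I) * Complex.I ^ 0 - _) / ((1 - Complex.I) * Complex.I ^ 0 - _))
    + Complex.log (((1 + Complex.I) * Complex.I ^ 1 - _) / ((1 - Complex.I) * Complex.I ^ 1 - _))
    + Complex.log (((1 + Complex.I) * Complex.I ^ 2 - _) / ((1 - Complex.I) * Complex.I ^ 2 - _))
    + Complex.log (((1 + Complex.I) * Complex.I ^ 3 - _) / ((1 - Complex.I) * Complex.I ^ 3 - _))
    = _
  split_ifs with h
  · obtain ⟨rfl, rfl⟩ := h
    have h1 : ∀ n : ℕ, ((1 + Complex.I) * Complex.I ^ n - 2 * (((0 : ℤ) : ℂ) + (0 : ℤ) * Complex.I)) /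
        ((1 - Complex.I) * Complex.I ^ n - 2 * (((0 : ℤ) : ℂ) + (0 : ℤ) * Complex.I)) =
        Complex.I := by
      intro n
      have h2 : (1 - Complex.I) * Complex.I ^ n ≠ 0 := by
        refine mul_ne_zero (fun e => ?_) (pow_ne_zero _ Complex.I_ne_zero)
        simpa using congrArg Complex.re e
      simp only [Int.cast_zero, zero_mul, add_zero, mul_zero, sub_zero]
      rw [div_eq_iff h2]
      linear_combination (Complex.I ^ n) * Complex.I_mul_I
    rw [h1, h1, h1, h1, Complex.log_I]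
    ring
  · rw [kscyc_c0, kscyc_c1, kscyc_c2, kscyc_c3]
    have hcase : 1 ≤ p ∨ p ≤ -1 ∨ 1 ≤ q ∨ q ≤ -1 := by omega
    rcases hcase with h1 | h1 | h1 | h1
    · have h2 : (1 : ℝ) ≤ p := by exact_mod_cast h1
      refine kscyc_four (-1) ?_ ?_ ?_ ?_ <;> simp [pow_succ] <;> linarith
    · have h2 : (p : ℝ) ≤ -1 := by exact_mod_cast h1
      refine kscyc_four 1 ?_ ?_ ?_ ?_ <;> simp [pow_succ] <;> linarith
    · have h2 : (1 : ℝ) ≤ q := by exact_mod_cast h1
      refine kscyc_four Complex.I ?_ ?_ ?_ ?_ <;> simp [pow_succ] <;> linarith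
    · have h2 : (q : ℝ) ≤ -1 := by exact_mod_cast h1
      refine kscyc_four (-Complex.I) ?_ ?_ ?_ ?_ <;> simp [pow_succ] <;> linarith

/-- The grid points. -/
def kscyc_pt (ρ : ℝ) (v : ℤ × ℤ) : ℂ := 2 * ρ * (v.1 + v.2 * Complex.I)

/-- The same side seen from the neighbouring square. -/
def kscyc_nb (x : (ℤ × ℤ) × Fin 4) : (ℤ × ℤ) × Fin 4 :=
  (x.1 + ![(1, 0), (0, 1), (-1, 0), (0, -1)] x.2, x.2 + 2)

theorem kscyc_nb_nb (x : (ℤ × ℤ) × Fin 4) : kscyc_nb (kscyc_nb x) = x := by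
  obtain ⟨⟨a, b⟩, d⟩ := x
  fin_cases d <;> simp [kscyc_nb]

theorem kscyc_nb_ne (x : (ℤ × ℤ) × Fin 4) : kscyc_nb x ≠ x := by
  obtain ⟨v, d⟩ := x
  intro h
  have h1 : d + 2 = d := congrArg Prod.snd h
  clear h
  revert d
  decide

theorem kscyc_pt_nb (ρ : ℝ) (x : (ℤ × ℤ) × Fin 4) :
    kscyc_pt ρ (kscyc_nb x).1 = kscyc_pt ρ x.1 + 2 * ρ * Complex.I ^ (x.2 : ℕ) := by
  obtain ⟨⟨a, b⟩, d⟩ := x
  fin_cases d <;> apply Complex.ext <;> simp [kscyc_nb, kscyc_pt, pow_succ] <;> ring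

theorem kscyc_pow_nb (x : (ℤ × ℤ) × Fin 4) :
    Complex.I ^ ((kscyc_nb x).2 : ℕ) = -Complex.I ^ (x.2 : ℕ) := by
  obtain ⟨v, d⟩ := x
  fin_cases d
  · change Complex.I ^ 2 = -Complex.I ^ 0
    simp
  · change Complex.I ^ 3 = -Complex.I ^ 1
    simp [pow_succ]
  · change Complex.I ^ 0 = -Complex.I ^ 2
    simp
  · change Complex.I ^ 1 = -Complex.I ^ 3
    simp [pow_succ]

theorem kscyc_fin (c : ℂ → Prop) {R : ℝ} (hc : ∀ z, R ≤ ‖z‖ → ¬ c z) {ρ : ℝ} (hρ : 0 < ρ) :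
    {v : ℤ × ℤ | c (kscyc_pt ρ v)}.Finite := by
  obtain ⟨N, hN⟩ := exists_int_gt (R / (2 * ρ))
  rw [div_lt_iff₀ (by linarith)] at hN
  refine ((Set.finite_Icc (-N) N).prod (Set.finite_Icc (-N) N)).subset fun v hv => ?_
  have h1 : ‖kscyc_pt ρ v‖ < R := lt_of_not_ge fun h => hc _ h hv
  have h2 := Complex.abs_re_le_norm (kscyc_pt ρ v)
  have h3 := Complex.abs_im_le_norm (kscyc_pt ρ v)
  have h4 : (kscyc_pt ρ v).re = v.1 * (2 * ρ) := by simp [kscyc_pt]; ring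
  have h5 : (kscyc_pt ρ v).im = v.2 * (2 * ρ) := by simp [kscyc_pt]; ring
  have key : ∀ n : ℤ, |n * (2 * ρ)| < N * (2 * ρ) → n ∈ Set.Icc (-N) N := by
    intro n hn
    rw [abs_mul, abs_of_pos (by linarith : 0 < 2 * ρ)] at hn
    have h6 : |(n : ℝ)| < N := lt_of_mul_lt_mul_right hn (by linarith)
    have h7 : |n| < N := by exact_mod_cast h6
    exact abs_le.1 h7.le
  exact ⟨key _ (by rw [← h4]; linarith), key _ (by rw [← h5]; linarith)⟩

theorem kscyc_sum {A : Type} [AddCommGroup A] (C : Finset (ℤ × ℤ)) (g : (ℤ × ℤ) × Fin 4 → A)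
    (hg : ∀ x, g x + g (kscyc_nb x) = 0) :
    ∑ x ∈ (C ×ˢ (Finset.univ : Finset (Fin 4))).filter (fun x => (kscyc_nb x).1 ∉ C), g x =
      ∑ v ∈ C, ∑ d : Fin 4, g (v, d) := by
  rw [← Finset.sum_product', ← Finset.sum_filter_not_add_sum_filter (C ×ˢ Finset.univ)
    (fun x => (kscyc_nb x).1 ∈ C)]
  refine (add_eq_left.2 ?_).symm
  refine Finset.sum_involution (fun x _ => kscyc_nb x) (fun x _ => hg x)
    (fun x _ _ => kscyc_nb_ne x) (fun x hx => ?_) (fun x _ => kscyc_nb_nb x)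
  simp only [Finset.mem_filter, Finset.mem_product, Finset.mem_univ, and_true] at hx ⊢
  rw [kscyc_nb_nb]
  exact hx.symm

theorem kscyc_norm {ρ : ℝ} (hρ : 0 < ρ) {x y : ℂ} (k : ℂ) (n : ℕ) (hk : |k.re| + |k.im| ≤ 2)
    (h : x - y = ρ * k * Complex.I ^ n) : dist x y < 4 * ρ := by
  rw [dist_eq_norm, h, norm_mul, norm_mul, norm_pow, Complex.norm_I, one_pow, mul_one,
    Complex.norm_real, Real.norm_of_nonneg hρ.le]
  have h1 := (Complex.norm_le_abs_re_add_abs_im k).trans hk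
  nlinarith

theorem kscyc_odd (n : ℤ) : (1 : ℝ) - 2 * n ≠ 0 := by
  intro h
  have h1 : (1 : ℤ) - 2 * n = 0 := by exact_mod_cast h
  omega

theorem kscyc_side (p q : ℤ) (d : Fin 4) :
    Complex.log (((1 + Complex.I) * Complex.I ^ (d : ℕ) - 2 * (p + q * Complex.I)) /
      ((1 - Complex.I) * Complex.I ^ (d : ℕ) - 2 * (p + q * Complex.I))) +
    Complex.log (((1 - Complex.I) * Complex.I ^ (d : ℕ) - 2 * (p + q * Complex.I)) /
      ((1 + Complex.I) * Complex.I ^ (d : ℕ) - 2 * (p + q * Complex.I))) = 0 := by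
  fin_cases d
  · refine kscyc_anti 1 (by simp) ?_
    simpa using kscyc_odd p
  · refine kscyc_anti (-Complex.I) (by simp) ?_
    convert kscyc_odd q using 1
    simp
  · refine kscyc_anti (-1) (by simp) ?_
    convert kscyc_odd (-p) using 1
    simp
    ring
  · refine kscyc_anti Complex.I (by simp [pow_succ]) ?_
    convert kscyc_odd (-q) using 1
    simp [pow_succ]
    ring

/-- Grid `2 ρ (ℤ + ℤ i)` with `ρ = η / 4`. The index `(v, d)` stands for the side of the square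
around the grid point `v` that goes from `v + ρ (1 - i) i ^ d` to `v + ρ (1 + i) i ^ d`; it crosses
the grid edge from `v` to `v + 2 ρ i ^ d`. `E` is the set of `(v, d)` with `c v` and not
`c (v + 2 ρ i ^ d)`. For an antisymmetric function of the two ends the sum over `E` is the sum over
all `(v, d)` with `c v` (the involution `(v, d) ↦ (v + 2 ρ i ^ d, d + 2)` on the rest,
`Finset.sum_involution`). -/
theorem cyc (c : ℂ → Prop) {R : ℝ} (hc : ∀ z, R ≤ ‖z‖ → ¬ c z) {η : ℝ} (hη : 0 < η) :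
    ∃ (E : Finset ((ℤ × ℤ) × Fin 4)) (s t : (ℤ × ℤ) × Fin 4 → ℂ),
      (∀ (A : Type) [AddCommGroup A] (f : ℂ → A), ∑ i ∈ E, (f (t i) - f (s i)) = 0) ∧
      (∀ i ∈ E, dist (t i) (s i) < η ∧ ∃ u u', c u ∧ ¬ c u' ∧ u ∈ ball (s i) η ∧
        u' ∈ ball (s i) η ∧ u ∈ ball (t i) η ∧ u' ∈ ball (t i) η) ∧
      ∀ a, ∃ a' ∈ ball a η, ∑ i ∈ E, Complex.log ((t i - a') / (s i - a')) =
        if c a' then 2 * Real.pi * Complex.I else 0 := by
  obtain ⟨ρ, rfl⟩ : ∃ ρ : ℝ, η = 4 * ρ := ⟨η / 4, by ring⟩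
  have hρ : 0 < ρ := by linarith
  obtain ⟨C, hC⟩ : ∃ C : Finset (ℤ × ℤ), ∀ v, v ∈ C ↔ c (kscyc_pt ρ v) :=
    ⟨(kscyc_fin c hc hρ).toFinset, fun v => Set.Finite.mem_toFinset _⟩
  obtain ⟨s, hs⟩ : ∃ s : (ℤ × ℤ) × Fin 4 → ℂ,
      ∀ x, s x = kscyc_pt ρ x.1 + ρ * (1 - Complex.I) * Complex.I ^ (x.2 : ℕ) := ⟨_, fun _ => rfl⟩
  obtain ⟨t, ht⟩ : ∃ t : (ℤ × ℤ) × Fin 4 → ℂ,
      ∀ x, t x = kscyc_pt ρ x.1 + ρ * (1 + Complex.I) * Complex.I ^ (x.2 : ℕ) := ⟨_, fun _ => rfl⟩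
  have hs' : ∀ x, s (kscyc_nb x) = t x := fun x => by
    rw [hs, ht, kscyc_pt_nb, kscyc_pow_nb]; ring
  have ht' : ∀ x, t (kscyc_nb x) = s x := fun x => by
    rw [hs, ht, kscyc_pt_nb, kscyc_pow_nb]; ring
  refine ⟨(C ×ˢ (Finset.univ : Finset (Fin 4))).filter (fun x => (kscyc_nb x).1 ∉ C), s, t,
    fun A _ f => ?_, fun x hx => ?_, fun a => ?_⟩
  · rw [kscyc_sum C (fun x => f (t x) - f (s x)) (fun x => by simp only [hs', ht']; abel)]
    refine Finset.sum_eq_zero fun v _ => ?_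
    have e0 : t (v, 0) = s (v, 1) := by
      rw [hs, ht, mul_assoc, mul_assoc]; exact congrArg (fun z => _ + _ * z) kscyc_c0
    have e1 : t (v, 1) = s (v, 2) := by
      rw [hs, ht, mul_assoc, mul_assoc]; exact congrArg (fun z => _ + _ * z) kscyc_c1
    have e2 : t (v, 2) = s (v, 3) := by
      rw [hs, ht, mul_assoc, mul_assoc]; exact congrArg (fun z => _ + _ * z) kscyc_c2
    have e3 : t (v, 3) = s (v, 0) := by
      rw [hs, ht, mul_assoc, mul_assoc]; exact congrArg (fun z => _ + _ * z) kscyc_c3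
    rw [Fin.sum_univ_four, e0, e1, e2, e3]
    abel
  · simp only [Finset.mem_filter, Finset.mem_product, Finset.mem_univ, and_true, hC] at hx
    refine ⟨kscyc_norm hρ (2 * Complex.I) x.2 (by simp) (by rw [hs, ht]; ring), _, _, hx.1, hx.2,
      kscyc_norm hρ (-1 + Complex.I) x.2 (by norm_num) (by rw [hs]; ring),
      kscyc_norm hρ (1 + Complex.I) x.2 (by norm_num) (by rw [hs, kscyc_pt_nb]; ring),
      kscyc_norm hρ (-1 - Complex.I) x.2 (by norm_num) (by rw [ht]; ring),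
      kscyc_norm hρ (1 - Complex.I) x.2 (by norm_num) (by rw [ht, kscyc_pt_nb]; ring)⟩
  · obtain ⟨k, hk⟩ : ∃ k : ℤ × ℤ, kscyc_pt ρ k ∈ ball a (4 * ρ) := by
      have key : ∀ r : ℝ, |2 * ρ * round (r / (2 * ρ)) - r| ≤ ρ := by
        intro r
        have h1 := abs_sub_round (r / (2 * ρ))
        have h2 : 2 * ρ * round (r / (2 * ρ)) - r =
            -(2 * ρ) * (r / (2 * ρ) - round (r / (2 * ρ))) := by
          field_simp
          ring
        rw [h2, abs_mul, abs_neg, abs_of_pos (by linarith : 0 < 2 * ρ)]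
        nlinarith
      refine ⟨(round (a.re / (2 * ρ)), round (a.im / (2 * ρ))), ?_⟩
      rw [mem_ball, dist_eq_norm]
      refine (Complex.norm_le_abs_re_add_abs_im _).trans_lt ?_
      have h1 := key a.re
      have h2 := key a.im
      simp [kscyc_pt]
      linarith
    refine ⟨_, hk, ?_⟩
    have hv : ∀ v : ℤ × ℤ, kscyc_pt ρ k = kscyc_pt ρ v +
        2 * ρ * (((k.1 - v.1 : ℤ) : ℂ) + ((k.2 - v.2 : ℤ) : ℂ) * Complex.I) := fun v => by
      simp only [kscyc_pt]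
      push_cast
      ring
    rw [kscyc_sum C (fun x => Complex.log ((t x - kscyc_pt ρ k) / (s x - kscyc_pt ρ k)))
      (fun x => by
        simp only [hs', ht']
        rw [hs, ht, hv x.1, mul_assoc (ρ : ℂ), mul_assoc (ρ : ℂ), kscyc_scale hρ, kscyc_scale hρ]
        exact kscyc_side _ _ _)]
    have h1 : ∀ v ∈ C, ∑ d : Fin 4,
        Complex.log ((t (v, d) - kscyc_pt ρ k) / (s (v, d) - kscyc_pt ρ k)) =
        if k = v then 2 * Real.pi * Complex.I else 0 := by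
      intro v _
      simp only [hs, ht]
      rw [cyc_cell hρ _ _ _ (hv v)]
      refine if_congr ?_ rfl rfl
      rw [Prod.ext_iff, sub_eq_zero, sub_eq_zero]
    rw [Finset.sum_congr rfl h1, Finset.sum_ite_eq]
    exact if_congr (hC k) rfl rfl

end Pool.Agent.Lib.MP_e1e491_gt.KS
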