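import Pool.Agent.Lib.MP_e1e491_gt.KSF
import Pool.Agent.Lib.MP_e1e491_gt.KSShr

/-! Views that see a side and its complement; small routes in a side. -/

noncomputable section

namespace Pool.Agent.Lib.MP_e1e491_gt.KS

open Set Metric Topology Filter
open scoped Pointwise Classical

variable {Z J G : Type} [MetricSpace Z] [CompactSpace Z] [Group G] {Γ : Geo Z J}
  [MulAction G Z] [MulAction G J] [ContinuousConstSMul G Z] {R : Z → Z → Prop}

/-- The stabiliser of a class and one of its sides. -/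
def St (G : Type) [Group G] {X : Type} [MulAction G X] (r U : Set X) : Set G :=
  {f | f • r = r ∧ f • U = U}

/-- For such `g` the pair `(g⁻¹ • r, g⁻¹ • side r a)` is `(r', side r' (h i))` with `r'` in the finite
set `II (h i) (h j)`; choose one `g` for each pair that occurs. -/
theorem Act.views (A : Act Γ G) (W : Wit Γ G) (h : Dec G R) {r : Set Γ.X} (hr : r ∈ Γ.cl R)
    (a : Γ.X) : ∃ Φ : Set G, Φ.Finite ∧ ∀ g : G, ∀ i ∈ W.J0, ∀ j ∈ W.J0,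
      Γ.h (g • i) ∈ side r a → Γ.h (g • j) ∉ side r a → ∃ φ ∈ Φ, g * φ⁻¹ ∈ St G r (side r a) := by
  have := Γ.conn
  have := Γ.lconn
  have := A.cont
  let ψ : G → Set Γ.X × Set Γ.X := fun g => (g⁻¹ • r, g⁻¹ • side r a)
  let S : Set G := {g | ∃ i ∈ W.J0, ∃ j ∈ W.J0, Γ.h (g • i) ∈ side r a ∧ Γ.h (g • j) ∉ side r a}
  have hfin : (ψ '' S).Finite := by
    have h1 : (⋃ i ∈ (W.J0 : Set J), ⋃ j ∈ (W.J0 : Set J),
        (fun r' => (r', side r' (Γ.h i))) '' II (Γ.cl R) (Γ.h i) (Γ.h j)).Finite :=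
      W.J0.finite_toSet.biUnion fun i _ => W.J0.finite_toSet.biUnion fun j _ =>
        (A.II_finite W h i j).image _
    refine h1.subset ?_
    rintro _ ⟨g, ⟨i, hi, j, hj, h2, h3⟩, rfl⟩
    have e : g⁻¹ • side r a = side (g⁻¹ • r) (Γ.h i) := by
      rw [← side_eq h2, smul_side, Γ.smul_h, inv_smul_smul]
    simp only [mem_iUnion]
    refine ⟨i, hi, j, hj, g⁻¹ • r, ⟨(A.famAct h).inv _ _ hr, fun k => h3 ?_⟩, ?_⟩
    · rw [← e, mem_inv_smul_set_iff, Γ.smul_h] at k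
      exact k
    · simp only [ψ, e]
  obtain ⟨Φ, -, hΦ, hΦ'⟩ := hfin.exists_subset_finite_image_eq rfl.subset
  refine ⟨Φ, hΦ, fun g i hi j hj h2 h3 => ?_⟩
  have hg : ψ g ∈ ψ '' Φ := by
    rw [hΦ']
    exact ⟨g, ⟨i, hi, j, hj, h2, h3⟩, rfl⟩
  obtain ⟨φ, hφ, e⟩ := hg
  have e1 : φ⁻¹ • r = g⁻¹ • r := congrArg Prod.fst e
  have e2 : φ⁻¹ • side r a = g⁻¹ • side r a := congrArg Prod.snd e
  exact ⟨φ, hφ, by rw [mul_smul, e1, smul_inv_smul], by rw [mul_smul, e2, smul_inv_smul]⟩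

/-- `N0` is a closed neighbourhood, inside the side, of the points of `Z` on routes `T k` from `l s0`
to `k • l s0`, for the finitely many `k` in the stabiliser that move two holes of `J1` into `J1`
(`nn_holes`, `route`). Given `ε` take `δ` from `shrink` and `pin` with a radius `ε'` so small that
`Att.near` puts `y f` near the class and hence far from `N0`. Apply `shrink` to `f • T (f⁻¹ * f')`
at the point `e (x f)`. -/
theorem Act.routes (A : Act Γ G) {x0 s0 : Z} (h : Dec G R) (hn : {y | R x0 y}.Nontrivial)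
    (hs : ¬ R x0 s0) {J1 : Set J} (h1 : J1.Finite) :
    ∃ N0 : Set Z, IsClosed N0 ∧ s0 ∈ N0 ∧ Γ.l '' N0 ⊆ side (Γ.l '' {y | R x0 y}) (Γ.l s0) ∧
      ∀ ε > 0, ∃ ρ > 0, ∀ f ∈ St G (Γ.l '' {y | R x0 y}) (side (Γ.l '' {y | R x0 y}) (Γ.l s0)),
        ∀ f' ∈ St G (Γ.l '' {y | R x0 y}) (side (Γ.l '' {y | R x0 y}) (Γ.l s0)),
        ∀ i ∈ J1, ∀ j ∈ J1, i ≠ j → f'⁻¹ • f • i ∈ J1 → f'⁻¹ • f • j ∈ J1 → ∀ v : ℂ,
        ∀ z ∈ Γ.D (f • i), ∀ z' ∈ Γ.D (f • j), dist v z < ρ → dist v z' < ρ →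
        ∃ K, IsPreconnected K ∧ Γ.e (f • s0) ∈ K ∧ Γ.e (f' • s0) ∈ K ∧ K ⊆ ball v ε ∧
          K ⊆ Γ.π ⁻¹' side (Γ.l '' {y | R x0 y}) (Γ.l s0) ∧
          ∀ s, Γ.e s ∈ K → s ∈ f • interior N0 := by
  have := Γ.conn
  have := Γ.lconn
  have := A.cont
  obtain ⟨C, hC⟩ : ∃ C : Set Z, C = {y | R x0 y} := ⟨_, rfl⟩
  have hCc : IsClosed C := by
    rw [hC]
    exact h.closed.preimage (f := fun y => (x0, y)) (by fun_prop)
  have hs0 : s0 ∉ C := by rw [hC]; exact hs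
  rw [← hC] at hn ⊢
  have hrc : IsClosed (Γ.l '' C) := Γ.closed_l hCc
  have hself : Γ.l s0 ∈ side (Γ.l '' C) (Γ.l s0) :=
    mem_side_self fun k => hs0 (Γ.l_inj.mem_set_image.1 k)
  have hdisj := side_disj (Γ.l '' C) (Γ.l s0)
  have hopen := side_open hrc (Γ.l s0)
  have hroute : ∀ k : G, ∃ T : Set Γ.X, k ∈ St G (Γ.l '' C) (side (Γ.l '' C) (Γ.l s0)) →
      IsPreconnected T ∧ Γ.l s0 ∈ T ∧ k⁻¹ • Γ.l s0 ∈ T ∧ T ⊆ side (Γ.l '' C) (Γ.l s0) ∧
        IsClosed (Γ.l ⁻¹' T) := by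
    intro k
    by_cases hk : k ∈ St G (Γ.l '' C) (side (Γ.l '' C) (Γ.l s0))
    · have h2 : k⁻¹ • Γ.l s0 ∈ side (Γ.l '' C) (Γ.l s0) := by
        rw [← mem_smul_set_iff_inv_smul_mem, hk.2]
        exact hself
      obtain ⟨T, hT⟩ := Γ.route hrc h2
      exact ⟨T, fun _ => hT⟩
    · exact ⟨∅, fun k => absurd k hk⟩
  choose T hT using hroute
  generalize side (Γ.l '' C) (Γ.l s0) = U at *
  let K' : Set G := {g : G | ∃ i ∈ J1, ∃ j ∈ J1, i ≠ j ∧ g • i ∈ J1 ∧ g • j ∈ J1} ∩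
    St G (Γ.l '' C) U
  have hK' : K'.Finite := (A.nn_holes h1 h1).inter_of_left _
  let N1 : Set Z := {s0} ∪ ⋃ k ∈ K', Γ.l ⁻¹' T k
  have hN1 : IsClosed N1 :=
    isClosed_singleton.union (hK'.isClosed_biUnion fun k hk => (hT k hk.2).2.2.2.2)
  have hN1U : N1 ⊆ Γ.l ⁻¹' U := by
    rintro s (rfl | hs)
    · exact hself
    · simp only [mem_iUnion] at hs
      obtain ⟨k, hk, hs⟩ := hs
      exact (hT k hk.2).2.2.2.1 hs
  obtain ⟨u, hu1, hu2, hu3⟩ :=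
    normal_exists_closure_subset hN1 (hopen.preimage Γ.continuous_l) hN1U
  have hint : N1 ⊆ interior (closure u) := hu2.trans (interior_maximal subset_closure hu1)
  refine ⟨closure u, isClosed_closure, subset_closure (hu2 (Or.inl rfl)),
    image_subset_iff.2 hu3, fun ε hε => ?_⟩
  have hd : Disjoint (closure u) C := by
    rw [Set.disjoint_left]
    intro s hs hc
    exact Set.disjoint_left.1 hdisj (hu3 hs) ⟨s, hc, rfl⟩
  obtain ⟨d, hd0, hd1⟩ : ∃ d > 0, ∀ n ∈ closure u, ∀ c ∈ C, d ≤ dist n c := by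
    obtain ⟨d, hd0, hd1⟩ := hd.exists_thickenings isClosed_closure.isCompact hCc
    refine ⟨d, hd0, fun n hn c hc => ?_⟩
    by_contra hlt
    exact Set.disjoint_left.1 hd1 (self_subset_thickening hd0 _ hn)
      (mem_thickening_iff.2 ⟨c, hc, not_le.1 hlt⟩)
  obtain ⟨c1, hc1, c2, hc2, hc12⟩ := hn
  have hb : 0 < dist c1 c2 := dist_pos.2 hc12
  obtain ⟨δ, hδ, hshr⟩ := Γ.shrink (half_pos hε)
  obtain ⟨τ, hτ, hτ'⟩ := Metric.uniformContinuous_iff.1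
    (CompactSpace.uniformContinuous_of_continuous Γ.ce) δ hδ
  obtain ⟨ε', he0, he1, he2, he3, he4⟩ : ∃ ε' > 0, ε' ≤ τ ∧ ε' ≤ ε / 2 ∧ ε' ≤ dist c1 c2 / 2 ∧
      ε' ≤ d / 2 :=
    ⟨min (min τ (ε / 2)) (min (dist c1 c2 / 2) (d / 2)), by positivity,
      (min_le_left _ _).trans (min_le_left _ _), (min_le_left _ _).trans (min_le_right _ _),
      (min_le_right _ _).trans (min_le_left _ _), (min_le_right _ _).trans (min_le_right _ _)⟩
  obtain ⟨ρ, hρ, x, y, hpin⟩ := A.pin h1 (finite_empty (α := G)) he0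
  refine ⟨ρ, hρ, fun f hf f' hf' i hi j hj hij hi' hj' v z hz z' hz' hv hv' => ?_⟩
  obtain ⟨-, hatt, hvx⟩ := hpin f i hi j hj hij v z hz z' hz' hv hv'
  have hfC : f • C = C := by
    have e := hf.1
    rw [Γ.smul_image] at e
    exact Γ.l_inj.image_injective e
  obtain ⟨-, c, hc, hcy⟩ := hatt.near hfC ⟨c1, hc1, c2, hc2, by linarith⟩
  have hk : f'⁻¹ * f ∈ St G (Γ.l '' C) U :=
    ⟨by rw [mul_smul, hf.1, inv_smul_eq_iff, hf'.1], by rw [mul_smul, hf.2, inv_smul_eq_iff, hf'.2]⟩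
  have hkK : f'⁻¹ * f ∈ K' :=
    ⟨⟨i, hi, j, hj, hij, by rwa [mul_smul], by rwa [mul_smul]⟩, hk⟩
  obtain ⟨t1, t2, t3, t4, -⟩ := hT _ hk
  have hmem : ∀ s, Γ.l s ∈ f • T (f'⁻¹ * f) → f⁻¹ • s ∈ N1 := by
    intro s hs
    rw [mem_smul_set_iff_inv_smul_mem, Γ.smul_l] at hs
    exact Or.inr (mem_biUnion hkK hs)
  have hball : ∀ s, Γ.l s ∈ f • T (f'⁻¹ * f) → Γ.e s ∈ ball (Γ.e (x f)) δ := by
    intro s hs
    have h2 := hd1 _ (subset_closure (hu2 (hmem s hs))) c hc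
    have h3 := dist_triangle (f⁻¹ • s) (y f) c
    rw [dist_comm (y f)] at h3
    have h4 := hatt (f⁻¹ • s) (by linarith)
    rw [smul_inv_smul] at h4
    exact hτ' (h4.trans_le he1)
  have m1 : Γ.l (f • s0) ∈ f • T (f'⁻¹ * f) := by
    rw [← Γ.smul_l]
    exact smul_mem_smul_set t2
  have m2 : Γ.l (f' • s0) ∈ f • T (f'⁻¹ * f) := by
    have e : Γ.l (f' • s0) = f • (f'⁻¹ * f)⁻¹ • Γ.l s0 := by
      rw [← Γ.smul_l, ← mul_smul]
      congr 1
      group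
    rw [e]
    exact smul_mem_smul_set t3
  have hpc : IsPreconnected (f • T (f'⁻¹ * f)) :=
    t1.image _ (continuous_const_smul f).continuousOn
  obtain ⟨Y, y1, y2, y3, y4⟩ := hshr (Γ.e (x f)) _ hpc ⟨_, m1⟩ hball
  refine ⟨Y, y1, y4 ⟨?_, hball _ m1⟩, y4 ⟨?_, hball _ m2⟩, fun w hw => ?_, fun w hw => ?_,
    fun s hs => ?_⟩
  · rw [mem_preimage, Γ.π_e]
    exact m1
  · rw [mem_preimage, Γ.π_e]
    exact m2
  · have h2 := y2 hw
    rw [mem_ball] at h2 ⊢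
    have h3 := dist_triangle w (Γ.e (x f)) v
    rw [dist_comm (Γ.e (x f))] at h3
    linarith
  · have h2 : Γ.π w ∈ f • U := smul_set_mono t4 (y3 hw)
    rwa [hf.2] at h2
  · have h2 := y3 hs
    rw [mem_preimage, Γ.π_e] at h2
    exact mem_smul_set_iff_inv_smul_mem.2 (hint (hmem s h2))

end Pool.Agent.Lib.MP_e1e491_gt.KS
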