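import Pool.Agent.Lib.MP_e1e491_gt.KSD1
import Pool.Agent.Lib.MP_e1e491_gt.KSReal

/-! Compact sets in a side that separate a compact part from the complement. -/

noncomputable section

namespace Pool.Agent.Lib.MP_e1e491_gt.KS

open Set Metric Topology Filter
open scoped Pointwise Classical

variable {Z J G : Type} [MetricSpace Z] [CompactSpace Z] [Group G] {Γ : Geo Z J}
  [MulAction G Z] [MulAction G J] [ContinuousConstSMul G Z] {R : Z → Z → Prop}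

/-- `Φ` from `views`, `J1 = Φ • J0`, `N0` from `routes`. Let `U` be the side. Apply `sep` to the
colouring `c v = (h (w m v) ∈ U)`, the open set `O` of the points of the preimage of `U` that are not
of the form `e s` with `s` outside the union of the sets `f • interior N0`, and `w v = e (f v • s0)`,
where `f v = g φ⁻¹` for the view `g` of `w1` at `v` when the ball of radius `η` has both colours.
`ε` is so small that the `6 ε`-neighbourhood of `Q` lies in the preimage of `U` and a disc of radius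
`5 ε` around a point `b` lies in `D j`. Add to `K` the preimage of the complement of `U`, which is
connected (`compl_side`, `pre_conn`), contains `b` and misses `Λ`. -/
theorem Act.sl (A : Act Γ G) (W : Wit Γ G) {x0 s0 : Z} (h : Dec G R)
    (hn : {y | R x0 y}.Nontrivial) (hs : ¬ R x0 s0) {j : J}
    (hj : Γ.h j ∉ side (Γ.l '' {y | R x0 y}) (Γ.l s0)) :
    ∃ N0 : Set Z, IsClosed N0 ∧ s0 ∈ N0 ∧ Γ.l '' N0 ⊆ side (Γ.l '' {y | R x0 y}) (Γ.l s0) ∧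
      ∀ Q, IsCompact Q → Q ⊆ Γ.π ⁻¹' side (Γ.l '' {y | R x0 y}) (Γ.l s0) →
        ∃ Λ, IsCompact Λ ∧ Λ ⊆ Γ.π ⁻¹' side (Γ.l '' {y | R x0 y}) (Γ.l s0) ∧
          (∀ s, Γ.e s ∈ Λ → ∃ f ∈ St G (Γ.l '' {y | R x0 y}) (side (Γ.l '' {y | R x0 y}) (Γ.l s0)),
            s ∈ f • N0) ∧
          ∀ K, IsPreconnected K → Disjoint K Λ → (K ∩ Q).Nonempty →
            K ⊆ Γ.π ⁻¹' side (Γ.l '' {y | R x0 y}) (Γ.l s0) := by
  have := Γ.conn
  have := Γ.lconn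
  set r : Set Γ.X := Γ.l '' {y | R x0 y} with hr
  set U : Set Γ.X := side r (Γ.l s0) with hU
  have hrc : r ∈ Γ.cl R := ⟨x0, rfl⟩
  have F := h.fam Γ
  have oU : IsOpen (Γ.π ⁻¹' U) := Γ.isOpen_iff.1 (side_open (F.closed r hrc) _)
  have cU : IsPreconnected (Γ.π ⁻¹' Uᶜ) :=
    Γ.pre_conn (compl_side (F.closed r hrc) (F.conn r hrc) (F.ne r hrc) _)
  obtain ⟨Φ, hΦ, hview⟩ := A.views W h hrc (Γ.l s0)
  have hJ1 : (image2 (fun (φ : G) (i : J) => φ • i) Φ (W.J0 : Set J)).Finite :=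
    hΦ.image2 _ W.J0.finite_toSet
  obtain ⟨N0, cN, sN, lN, hroute⟩ := A.routes h hn hs hJ1
  refine ⟨N0, cN, sN, lN, fun Q hQ hQU => ?_⟩
  obtain ⟨δ1, hδ1, hth⟩ := hQ.exists_thickening_subset_open oU hQU
  obtain ⟨b, hb⟩ := Γ.nD j
  obtain ⟨δ2, hδ2, hball⟩ := Metric.isOpen_iff.1 (Γ.oD j) b hb
  obtain ⟨ε, hε, hε1, hε2⟩ : ∃ ε : ℝ, 0 < ε ∧ 6 * ε ≤ δ1 ∧ 6 * ε ≤ δ2 :=
    ⟨min δ1 δ2 / 6, by positivity, by linarith [min_le_left δ1 δ2],
      by linarith [min_le_right δ1 δ2]⟩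
  obtain ⟨ρ, hρ, hroute⟩ := hroute ε hε
  obtain ⟨m1, hm1⟩ := W.w3 (min ε (ρ / 2)) (by positivity)
  obtain ⟨m2, hm2⟩ := W.w2 j
  obtain ⟨m3, hm3⟩ := W.w2 Γ.out
  obtain ⟨m, l1, l2, l3⟩ : ∃ m, m1 ≤ m ∧ m2 ≤ m ∧ m3 ≤ m := ⟨m1 + m2 + m3, by omega⟩
  replace hm1 := hm1 m l1
  replace hm2 := hm2 m l2
  replace hm3 := hm3 m l3
  obtain ⟨η0, hη0, hw⟩ := W.w1 m
  choose g hg using fun v => hw v m le_rfl
  have hf : ∀ v : ℂ, ∃ f ∈ St G r U, (∃ φ ∈ Φ, g v * φ⁻¹ ∈ St G r U) →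
      ∃ φ ∈ Φ, f = g v * φ⁻¹ := fun v => by
    by_cases hv : ∃ φ ∈ Φ, g v * φ⁻¹ ∈ St G r U
    · obtain ⟨φ, h1, h2⟩ := hv
      exact ⟨_, h2, fun _ => ⟨φ, h1, rfl⟩⟩
    · exact ⟨1, ⟨one_smul _ _, one_smul _ _⟩, fun h1 => absurd h1 hv⟩
  choose f hf1 hf2 using hf
  obtain ⟨η, hη, e0, e1, e2⟩ : ∃ η : ℝ, 0 < η ∧ η ≤ η0 ∧ η ≤ ρ / 2 ∧ η ≤ ε :=
    ⟨min η0 (min (ρ / 2) ε), by positivity, min_le_left _ _,
      (min_le_right _ _).trans (min_le_left _ _), (min_le_right _ _).trans (min_le_right _ _)⟩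
  have key : ∀ v u u', Γ.h (W.w m u) ∈ U → Γ.h (W.w m u') ∉ U → u ∈ ball v η → u' ∈ ball v η →
      ∀ t ∈ ball v η, (f v)⁻¹ • W.w m t ∈
        image2 (fun (φ : G) (i : J) => φ • i) Φ (W.J0 : Set J) := by
    intro v u u' cu cu' hu hu' t ht
    obtain ⟨φ, h1, h2⟩ := hf2 v (hview (g v) _ (hg v u (ball_subset_ball e0 hu)).1 _
      (hg v u' (ball_subset_ball e0 hu')).1 (by rwa [smul_inv_smul]) (by rwa [smul_inv_smul]))
    refine ⟨φ, h1, _, (hg v t (ball_subset_ball e0 ht)).1, ?_⟩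
    rw [h2, mul_inv_rev, inv_inv, mul_smul]
  set B : Set Z := (⋃ k ∈ St G r U, k • interior N0)ᶜ with hB
  have cB : IsClosed (Γ.e '' B) :=
    ((isOpen_biUnion fun k _ => isOpen_interior.smul k).isClosed_compl.isCompact.image
      Γ.ce).isClosed
  obtain ⟨R0, hR0⟩ := Γ.hout
  obtain ⟨Λ, cΛ, sΛ, hΛ⟩ := sep (fun v => Γ.h (W.w m v) ∈ U) (R := R0) (by
      by_cases ho : Γ.h Γ.out ∈ U
      · exact Or.inl fun z hz => by rwa [hm3 z (hR0 z hz)]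
      · exact Or.inr fun z hz => by rwa [hm3 z (hR0 z hz)])
    hη e2 (oU.sdiff cB) (fun v => Γ.e (f v • s0)) (by
      intro v v' u u' _ cu cu' hu hu' hv hv'
      obtain ⟨z, hz, dz⟩ := hm1 u
      obtain ⟨z', hz', dz'⟩ := hm1 u'
      have t1 := dist_triangle v u z
      have t2 := dist_triangle v u' z'
      have t3 := mem_ball'.1 hu
      have t4 := mem_ball'.1 hu'
      have t5 := min_le_right ε (ρ / 2)
      obtain ⟨K, k1, k2, k3, k4, k5, k6⟩ := hroute (f v) (hf1 v) (f v') (hf1 v') _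
        (key v u u' cu cu' hu hu' u hu) _ (key v u u' cu cu' hu hu' u' hu')
        (fun he => cu' (by rwa [← MulAction.injective _ he]))
        (by rw [smul_inv_smul]; exact key v' u u' cu cu' hv hv' u hv)
        (by rw [smul_inv_smul]; exact key v' u u' cu cu' hv hv' u' hv') v
        z (by rwa [smul_inv_smul]) z' (by rwa [smul_inv_smul]) (by linarith) (by linarith)
      refine ⟨K, k1, k2, k3, fun y hy => ⟨⟨k5 hy, ?_⟩, k4 hy⟩⟩
      rintro ⟨s, hs1, rfl⟩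
      exact hs1 (mem_biUnion (hf1 v) (k6 s hy)))
  refine ⟨Λ, cΛ, fun z hz => (sΛ hz).1, fun s hs1 => ?_, fun K hK hd ⟨a, ha, haQ⟩ z hz => ?_⟩
  · have h1 : s ∉ B := fun h1 => (sΛ hs1).2 ⟨s, h1, rfl⟩
    obtain ⟨k, hk, h2⟩ := mem_iUnion₂.1 (not_not.1 h1)
    exact ⟨k, hk, smul_set_mono interior_subset h2⟩
  · by_contra hzU
    refine hΛ a b (fun u hu => ?_) (fun u hu => ?_) (K ∪ Γ.π ⁻¹' Uᶜ) (hK.union z hz hzU cU)
      (Or.inl ha) (Or.inr ?_) (disjoint_union_left.2 ⟨hd, ?_⟩)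
    · obtain ⟨y, hy, dy⟩ := hm1 u
      rw [← Γ.π_D hy]
      refine hth (mem_thickening_iff.2 ⟨a, haQ, ?_⟩)
      have t1 := dist_triangle y u a
      have t2 := mem_ball.1 hu
      have t3 := min_le_left ε (ρ / 2)
      rw [dist_comm u y] at dy
      linarith
    · rwa [hm2 u (hball (ball_subset_ball (by linarith) hu))]
    · rw [mem_preimage, Γ.π_D hb]
      exact hj
    · exact disjoint_left.2 fun y h1 h2 => h1 (sΛ h2).1

end Pool.Agent.Lib.MP_e1e491_gt.KS
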