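import Pool.Agent.Lib.MP_e1e491_gt.KSD2

/-! The stabiliser of a side is cocompact. -/

noncomputable section

namespace Pool.Agent.Lib.MP_e1e491_gt.KS

open Set Metric Topology Filter
open scoped Pointwise Classical

variable {Z J G : Type} [MetricSpace Z] [CompactSpace Z] [ConnectedSpace Z] [Group G]
  {Γ : Geo Z J} [MulAction G Z] [MulAction G J] [ContinuousConstSMul G Z] {R : Z → Z → Prop}

/-- Away from `C` the family is locally finite (`Act.proper` with a small closed ball). -/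
theorem Act.closed_orbit (A : Act Γ G) {C N : Set Z} (hC : IsClosed C) (hn : C.Nontrivial)
    (hN : IsClosed N) (hd : Disjoint N C) {F : Set G} (hF : ∀ f ∈ F, f • C = C) :
    IsClosed (C ∪ ⋃ f ∈ F, f • N) := by
  rw [← isOpen_compl_iff, isOpen_iff_mem_nhds]
  intro z hz
  have hzC : z ∉ C := fun h => hz (Or.inl h)
  obtain ⟨ε, hε, hb⟩ := nhds_basis_closedBall.mem_iff.1 (hC.isOpen_compl.mem_nhds hzC)
  have hdb : Disjoint (closedBall z ε) C := Set.disjoint_left.2 fun y hy => hb hy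
  have hfin := A.proper hC hn hN isClosed_closedBall hd hdb
  have hcl : IsClosed (⋃ f ∈ {g : G | g • C = C ∧ ((g • N) ∩ closedBall z ε).Nonempty} ∩ F,
      f • N) := (hfin.inter_of_left F).isClosed_biUnion fun f _ => hN.smul f
  have hz' : z ∉ ⋃ f ∈ {g : G | g • C = C ∧ ((g • N) ∩ closedBall z ε).Nonempty} ∩ F, f • N := by
    intro h
    obtain ⟨f, hf, hzf⟩ := mem_iUnion₂.1 h
    exact hz (Or.inr (mem_iUnion₂.2 ⟨f, hf.2, hzf⟩))
  filter_upwards [hcl.isOpen_compl.mem_nhds hz', closedBall_mem_nhds z hε] with y h1 h2 h3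
  rcases h3 with h3 | h3
  · exact hb h2 h3
  · obtain ⟨f, hf, hyf⟩ := mem_iUnion₂.1 h3
    exact h1 (mem_iUnion₂.2 ⟨f, ⟨⟨hF f hf, y, hyf, h2⟩, hf⟩, hyf⟩)

theorem ksd3_closure {Λ V : Set ℂ} (hΛ : IsClosed Λ) (hV : Λ ⊆ V) :
    closure {v | v ∉ Λ ∧ ∀ K, IsPreconnected K → Disjoint K Λ → v ∈ K → K ⊆ V} ⊆ V := by
  intro v hv
  by_cases h : v ∈ Λ
  · exact hV h
  · obtain ⟨ρ, hρ, hb⟩ := Metric.isOpen_iff.1 hΛ.isOpen_compl v h
    obtain ⟨t, ht, htT⟩ := mem_closure_iff.1 hv (ball v ρ) isOpen_ball (mem_ball_self hρ)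
    exact htT.2 (ball v ρ) (convex_ball v ρ).isPreconnected
      (Set.disjoint_left.2 fun y hy => hb hy) ht (mem_ball_self hρ)

theorem ksd3_mul {X : Type} [MulAction G X] {r U : Set X} {f f' : G} (h : f ∈ St G r U)
    (h' : f' ∈ St G r U) : f * f' ∈ St G r U :=
  ⟨by rw [mul_smul, h'.1, h.1], by rw [mul_smul, h'.2, h.2]⟩

theorem ksd3_fix {C : Set Z} {U : Set Γ.X} {f : G} (h : f ∈ St G (Γ.l '' C) U) : f • C = C := by
  have h1 := h.1
  rw [Γ.smul_image] at h1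
  exact Γ.l_inj.image_injective h1

/-- `N0` from `sl`; `B` is the union of the class `C` with the translates of `N0`; `Λ0` from `sl` for
a compact neighbourhood `Q` of `e '' N0` (`cthickening`). Let `T` be the set of points off `Λ0` all of
whose connected supersets off `Λ0` lie in the preimage of the side; the closure of `T` lies in that
preimage too. `Q0 = N0 ∪ e ⁻¹' closure T`. For `z` outside `B` let `E` be its component in `Bᶜ`. The
closure of `E` misses `C` (`sl` for `{e z}`, applied to the image of `insert c E`), so it contains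
`f • n` (`bump`). Then `e '' (f⁻¹ • E)` is connected, misses `Λ0` and meets `Q`. -/
theorem Act.cocompact (A : Act Γ G) (W : Wit Γ G) {x0 s0 : Z} (h : Dec G R)
    (hn : {y | R x0 y}.Nontrivial) (hs : ¬ R x0 s0) {j : J}
    (hj : Γ.h j ∉ side (Γ.l '' {y | R x0 y}) (Γ.l s0)) :
    ∃ Q0 : Set Z, IsClosed Q0 ∧ Disjoint Q0 {y | R x0 y} ∧
      ∀ z, Γ.l z ∈ side (Γ.l '' {y | R x0 y}) (Γ.l s0) →
        ∃ f : G, f • {y | R x0 y} = {y | R x0 y} ∧ z ∈ f • Q0 := by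
  have := Γ.conn
  have := Γ.lconn
  obtain ⟨N0, hN0, -, hNU, hsl⟩ := A.sl W h hn hs hj
  have hC : IsClosed {y | R x0 y} := h.closed.preimage (Continuous.prodMk_right x0)
  have hx0 : x0 ∈ {y | R x0 y} := h.eqv.refl x0
  generalize {y | R x0 y} = C at *
  have hUo : IsOpen (side (Γ.l '' C) (Γ.l s0)) := side_open (Γ.closed_l hC) _
  have hUC : ∀ s, Γ.l s ∈ side (Γ.l '' C) (Γ.l s0) → s ∉ C := fun s h1 h2 =>
    Set.disjoint_left.1 (side_disj (Γ.l '' C) (Γ.l s0)) h1 (mem_image_of_mem _ h2)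
  generalize side (Γ.l '' C) (Γ.l s0) = U at *
  have hVC : ∀ s, Γ.e s ∈ Γ.π ⁻¹' U → s ∉ C := fun s h1 => hUC s (by rwa [← Γ.π_e])
  have hd : Disjoint N0 C := Set.disjoint_left.2 fun s h1 => hUC s (hNU (mem_image_of_mem _ h1))
  have hB := A.closed_orbit hC hn hN0 hd (F := St G (Γ.l '' C) U) fun f hf => ksd3_fix hf
  have hK0 : IsCompact (Γ.e '' N0) := hN0.isCompact.image Γ.ce
  have hsub : Γ.e '' N0 ⊆ Γ.π ⁻¹' U := by
    rintro _ ⟨s, h1, rfl⟩
    rw [mem_preimage, Γ.π_e]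
    exact hNU (mem_image_of_mem _ h1)
  obtain ⟨δ, hδ, hQ⟩ := hK0.exists_cthickening_subset_open (Γ.isOpen_iff.1 hUo) hsub
  obtain ⟨Λ0, hΛ0, hΛV, hΛN, hΛK⟩ := hsl _ hK0.cthickening hQ
  have hT := ksd3_closure hΛ0.isClosed hΛV
  refine ⟨N0 ∪ Γ.e ⁻¹' closure {v | v ∉ Λ0 ∧ ∀ K, IsPreconnected K → Disjoint K Λ0 → v ∈ K →
    K ⊆ Γ.π ⁻¹' U}, hN0.union (isClosed_closure.preimage Γ.ce), ?_, ?_⟩
  · exact disjoint_union_left.2 ⟨hd, Set.disjoint_left.2 fun s h1 => hVC s (hT h1)⟩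
  intro z hz
  by_cases hzB : z ∈ C ∪ ⋃ f ∈ St G (Γ.l '' C) U, f • N0
  · rcases hzB with h1 | h1
    · exact absurd h1 (hUC z hz)
    · obtain ⟨f, hf, hzf⟩ := mem_iUnion₂.1 h1
      exact ⟨f, ksd3_fix hf, smul_set_mono subset_union_left hzf⟩
  obtain ⟨y, hyE, hyB⟩ := bump hB ⟨x0, Or.inl hx0⟩ hzB
  have hE : IsPreconnected (connectedComponentIn (C ∪ ⋃ f ∈ St G (Γ.l '' C) U, f • N0)ᶜ z) :=
    isPreconnected_connectedComponentIn
  have hzE : z ∈ connectedComponentIn (C ∪ ⋃ f ∈ St G (Γ.l '' C) U, f • N0)ᶜ z :=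
    mem_connectedComponentIn hzB
  have hEB : ∀ s ∈ connectedComponentIn (C ∪ ⋃ f ∈ St G (Γ.l '' C) U, f • N0)ᶜ z,
      ∀ f ∈ St G (Γ.l '' C) U, s ∉ f • N0 := fun s h1 f hf h2 =>
    connectedComponentIn_subset _ _ h1 (Or.inr (mem_iUnion₂.2 ⟨f, hf, h2⟩))
  generalize connectedComponentIn (C ∪ ⋃ f ∈ St G (Γ.l '' C) U, f • N0)ᶜ z = E at *
  have hyC : y ∉ C := by
    intro hc
    obtain ⟨Λ, -, h1, h2, h3⟩ := hsl {Γ.e z} isCompact_singleton
      (singleton_subset_iff.2 (by rw [mem_preimage, Γ.π_e]; exact hz))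
    have h4 : IsPreconnected (Γ.e '' insert y E) :=
      (hE.subset_closure (subset_insert y E) (insert_subset hyE subset_closure)).image _
        Γ.ce.continuousOn
    have h5 : Disjoint (Γ.e '' insert y E) Λ := by
      refine Set.disjoint_left.2 ?_
      rintro _ ⟨s, h6, rfl⟩ h7
      rcases h6 with rfl | h6
      · exact hVC s (h1 h7) hc
      · obtain ⟨f, hf, h8⟩ := h2 s h7
        exact hEB s h6 f hf h8
    exact hVC y (h3 _ h4 h5 ⟨Γ.e z, mem_image_of_mem _ (mem_insert_of_mem _ hzE), rfl⟩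
      (mem_image_of_mem _ (mem_insert y E))) hc
  obtain ⟨f, hf, n, hnN, rfl⟩ := mem_iUnion₂.1 (hyB.resolve_left hyC)
  have hφ : Continuous fun s : Z => Γ.e (f⁻¹ • s) := Γ.ce.comp (continuous_const_smul f⁻¹)
  have hK : IsPreconnected ((fun s : Z => Γ.e (f⁻¹ • s)) '' E) := hE.image _ hφ.continuousOn
  have hKΛ : Disjoint ((fun s : Z => Γ.e (f⁻¹ • s)) '' E) Λ0 := by
    refine Set.disjoint_left.2 ?_
    rintro _ ⟨s, h6, rfl⟩ h7
    obtain ⟨f', hf', h8⟩ := hΛN _ h7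
    refine hEB s h6 (f * f') (ksd3_mul hf hf') ?_
    rw [mul_smul, mem_smul_set_iff_inv_smul_mem]
    exact h8
  have hKQ : (((fun s : Z => Γ.e (f⁻¹ • s)) '' E) ∩ cthickening δ (Γ.e '' N0)).Nonempty := by
    have h1 := image_closure_subset_closure_image hφ (mem_image_of_mem _ hyE)
    simp only [inv_smul_smul] at h1
    obtain ⟨t, ht, htK⟩ := mem_closure_iff.1 h1 (ball (Γ.e n) δ) isOpen_ball (mem_ball_self hδ)
    exact ⟨t, htK, mem_cthickening_of_dist_le t (Γ.e n) δ _ (mem_image_of_mem _ hnN)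
      (mem_ball.1 ht).le⟩
  refine ⟨f, ksd3_fix hf, mem_smul_set_iff_inv_smul_mem.2 (Or.inr (subset_closure ?_))⟩
  have hzK : Γ.e (f⁻¹ • z) ∈ (fun s : Z => Γ.e (f⁻¹ • s)) '' E := mem_image_of_mem _ hzE
  refine ⟨Set.disjoint_left.1 hKΛ hzK, fun K h1 h2 h3 => ?_⟩
  exact subset_union_right.trans (hΛK _ (hK.union _ hzK h3 h1) (disjoint_union_left.2 ⟨hKΛ, h2⟩)
    (hKQ.mono (inter_subset_inter_left _ subset_union_left)))

end Pool.Agent.Lib.MP_e1e491_gt.KS
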