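import Mathlib

/-! Invariant decompositions of a carpet into continua: the setting. -/

noncomputable section

namespace Pool.Agent.Lib.MP_e1e491_gt.KS

open Set Metric Topology Filter
open scoped Pointwise Classical

/-- A compact space `Z` embedded in the plane, with the holes `D j`. -/
structure Geo (Z J : Type) [MetricSpace Z] where
  e : Z → ℂ
  D : J → Set ℂ
  out : J
  ce : Continuous e
  ie : Function.Injective e
  oD : ∀ j, IsOpen (D j)
  nD : ∀ j, (D j).Nonempty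
  cD : ∀ j, IsPreconnected (D j)
  disj : ∀ i j, i ≠ j → Disjoint (closure (D i)) (closure (D j))
  cover : ∀ z, z ∉ range e ↔ ∃ j, z ∈ D j
  hout : ∃ R : ℝ, ∀ z, R ≤ ‖z‖ → z ∈ D out
  two : ∀ j, (e ⁻¹' closure (D j)).Nontrivial
  ulc : ∀ ε > 0, ∃ δ > 0, ∀ j x, ∃ E, IsPreconnected E ∧ D j ∩ ball x δ ⊆ E ∧ E ⊆ D j ∩ ball x ε

variable {Z J G : Type} [MetricSpace Z] [Group G]

/-- The peripheral circle of a hole. -/
def Geo.P (Γ : Geo Z J) (j : J) : Set Z := Γ.e ⁻¹' closure (Γ.D j)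

/-- `g` maps everything outside the ball around `y` into the ball around `x`. -/
def Att [MulAction G Z] (ε : ℝ) (g : G) (x y : Z) : Prop :=
  ∀ z, ε ≤ dist z y → dist (g • z) x < ε

/-- `T` has two points at distance at least `δ`. -/
def Big (δ : ℝ) (T : Set Z) : Prop := ∃ a ∈ T, ∃ b ∈ T, δ ≤ dist a b

/-- The group permutes the circles, acts as a convergence group, and its finite subgroups have
bounded order. -/
structure Act (Γ : Geo Z J) (G : Type) [Group G] [MulAction G Z] [MulAction G J] : Prop where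
  perm : ∀ (g : G) j, g • Γ.P j = Γ.P (g • j)
  conv : ∀ ε > 0, {g : G | ¬ ∃ x y : Z, Att ε g x y}.Finite
  fin : ∃ N : ℕ, ∀ H : Subgroup G, Finite H → Nat.card H ≤ N

/-- Witness holes at all levels. -/
structure Wit (Γ : Geo Z J) (G : Type) [Group G] [MulAction G J] where
  w : ℕ → ℂ → J
  J0 : Finset J
  w1 : ∀ M : ℕ, ∃ η > 0, ∀ v0 : ℂ, ∀ m ≤ M, ∃ g : G, ∀ v ∈ ball v0 η,
    g⁻¹ • w m v ∈ J0 ∧ g⁻¹ • w (m + 1) v ∈ J0
  w2 : ∀ j, ∃ m0, ∀ m ≥ m0, ∀ v ∈ Γ.D j, w m v = j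
  w3 : ∀ ε > 0, ∃ m0, ∀ m ≥ m0, ∀ v, ∃ z ∈ Γ.D (w m v), dist v z < ε
  w4 : ∀ m, (range (w m)).Finite

/-- A closed invariant equivalence relation with connected classes. -/
structure Dec (G : Type) [Group G] [MulAction G Z] (R : Z → Z → Prop) : Prop where
  eqv : Equivalence R
  closed : IsClosed {p : Z × Z | R p.1 p.2}
  inv : ∀ (g : G) x y, R x y → R (g • x) (g • y)
  conn : ∀ x, IsPreconnected {y | R x y}

/-- The plane with every hole collapsed to an open point. -/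
def Geo.X (_ : Geo Z J) : Type := Z ⊕ J

/-- Points of `Z` in the collapsed plane. -/
def Geo.l (Γ : Geo Z J) (s : Z) : Γ.X := Sum.inl s

/-- Holes as points of the collapsed plane. -/
def Geo.h (Γ : Geo Z J) (j : J) : Γ.X := Sum.inr j

/-- The collapsing map. -/
def Geo.π (Γ : Geo Z J) (z : ℂ) : Γ.X :=
  if h : z ∈ range Γ.e then Γ.l h.choose else Γ.h ((Γ.cover z).1 h).choose

instance (Γ : Geo Z J) : TopologicalSpace Γ.X := TopologicalSpace.coinduced Γ.π inferInstance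

instance (Γ : Geo Z J) [MulAction G Z] [MulAction G J] : MulAction G Γ.X :=
  inferInstanceAs (MulAction G (Z ⊕ J))

/-- The classes, as subsets of the collapsed plane. -/
def Geo.cl (Γ : Geo Z J) (R : Z → Z → Prop) : Set (Set Γ.X) :=
  {r | ∃ x, r = Γ.l '' {y | R x y}}

section Abstract

variable {X : Type} [TopologicalSpace X]

/-- The side of `r` that contains `x`. -/
def side (r : Set X) (x : X) : Set X := connectedComponentIn rᶜ x

/-- An upper semicontinuous family of disjoint closed connected sets. -/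
structure Fam (𝒞 : Set (Set X)) : Prop where
  closed : ∀ r ∈ 𝒞, IsClosed r
  conn : ∀ r ∈ 𝒞, IsPreconnected r
  ne : ∀ r ∈ 𝒞, r.Nonempty
  disj : ∀ r ∈ 𝒞, ∀ r' ∈ 𝒞, r ≠ r' → Disjoint r r'
  usc : ∀ x y, (∀ U ∈ 𝓝 x, ∀ V ∈ 𝓝 y, ∃ r ∈ 𝒞, (r ∩ U).Nonempty ∧ (r ∩ V).Nonempty) →
    ∃ r ∈ 𝒞, x ∈ r ∧ y ∈ r

/-- A point in no member of the family. -/
def Free (𝒞 : Set (Set X)) (a : X) : Prop := ∀ r ∈ 𝒞, a ∉ r

/-- The members that separate `a` from `b`; `r` comes before `r'` if `r ⊆ side r' a`. -/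
def II (𝒞 : Set (Set X)) (a b : X) : Set (Set X) := {r | r ∈ 𝒞 ∧ b ∉ side r a}

/-- `t` separates `p` from `q`. -/
def Sp (t p q : Set X) : Prop :=
  Disjoint t p ∧ Disjoint t q ∧ ∀ x ∈ p, ∀ y ∈ q, y ∉ side t x

/-- The members that separate `a` from `b` and are nearest to `u`. -/
def Es (𝒞 : Set (Set X)) (a u b : X) : Set (Set X) :=
  {r | r ∈ II 𝒞 a b ∧
    ((u ∈ side r b ∧ ∀ r' ∈ II 𝒞 a b, u ∈ side r' b → r' = r ∨ r' ⊆ side r a) ∨
      (u ∉ side r b ∧ u ∉ side r a) ∨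
      (u ∈ side r a ∧ ∀ r' ∈ II 𝒞 a b, u ∈ side r' a → r' = r ∨ r ⊆ side r' a))}

/-- The group preserves the family, two members are rarely both moved between two points, and
finite subgroups have bounded order. -/
structure FamAct (𝒞 : Set (Set X)) (G : Type) [Group G] [MulAction G X] : Prop where
  inv : ∀ (g : G), ∀ r ∈ 𝒞, g • r ∈ 𝒞
  nn : ∀ a b, Free 𝒞 a → Free 𝒞 b → ∀ p ∈ 𝒞, ∀ q ∈ 𝒞, p ≠ q →
    {g : G | g • p ∈ II 𝒞 a b ∧ g • q ∈ II 𝒞 a b}.Finite
  fin : ∃ N : ℕ, ∀ H : Subgroup G, Finite H → Nat.card H ≤ N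

end Abstract

end Pool.Agent.Lib.MP_e1e491_gt.KS
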