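import Pool.Agent.Lib.MP_e1e491_gt.KSStab

/-! The members nearest to a visible point. -/

noncomputable section

namespace Pool.Agent.Lib.MP_e1e491_gt.KS

open Set Metric Topology Filter
open scoped Pointwise Classical

variable {X G : Type} [TopologicalSpace X] [ConnectedSpace X] [LocallyConnectedSpace X]
  [Group G] [MulAction G X] [ContinuousConstSMul G X]
  {𝒞 : Set (Set X)} {a b u u1 u2 : X} {p q r t : Set X}

theorem kse_asymm (F : Fam 𝒞) (ha : Free 𝒞 a) (hb : Free 𝒞 b) (hr : r ∈ II 𝒞 a b)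
    (ht : t ∈ II 𝒞 a b) (h : r ⊆ side t a) (h' : t ⊆ side r a) : False :=
  II.irrefl F hr.1 a (h.trans (II.mono F ha hb ht hr h'))

theorem kse_back (F : Fam 𝒞) (ha : Free 𝒞 a) (hb : Free 𝒞 b) (hr : r ∈ II 𝒞 a b)
    (ht : t ∈ II 𝒞 a b) (h : r ⊆ side t a) : side t b ⊆ side r b :=
  II.mono F hb ha (II_symm a b ▸ ht) (II_symm a b ▸ hr) ((II.lt_iff F ha hb hr ht).1 h)

/-- Each of the three kinds has at most one member (`tri`, `lt_of`, `irrefl`, `mono`). -/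
theorem Es.finite (F : Fam 𝒞) (h1 : Free 𝒞 u1) (h2 : Free 𝒞 u2) (u : X) :
    (Es 𝒞 u1 u u2).Finite := by
  have k1 : {r | r ∈ II 𝒞 u1 u2 ∧ u ∈ side r u2 ∧
      ∀ r' ∈ II 𝒞 u1 u2, u ∈ side r' u2 → r' = r ∨ r' ⊆ side r u1}.Subsingleton := by
    rintro r ⟨hr, e1, e2⟩ t ⟨ht, e3, e4⟩
    rcases e4 r hr e1 with h | h
    · exact h
    · exact ((e2 t ht e3).resolve_right fun h' => kse_asymm F h1 h2 hr ht h h').symm
  have k2 : {r | r ∈ II 𝒞 u1 u2 ∧ u ∉ side r u2 ∧ u ∉ side r u1}.Subsingleton := by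
    rintro r ⟨hr, e1, e2⟩ t ⟨ht, e3, e4⟩
    rcases II.tri F h1 h2 hr ht with h | h | h
    · exact h
    · exact (e4 (II.lt_of F h1 hr ht.1 ((II.lt_iff F h1 h2 hr ht).1 h) e1)).elim
    · exact (e2 (II.lt_of F h1 ht hr.1 ((II.lt_iff F h1 h2 ht hr).1 h) e3)).elim
  have k3 : {r | r ∈ II 𝒞 u1 u2 ∧ u ∈ side r u1 ∧
      ∀ r' ∈ II 𝒞 u1 u2, u ∈ side r' u1 → r' = r ∨ r ⊆ side r' u1}.Subsingleton := by
    rintro r ⟨hr, e1, e2⟩ t ⟨ht, e3, e4⟩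
    rcases e4 r hr e1 with h | h
    · exact h
    · exact ((e2 t ht e3).resolve_right fun h' => kse_asymm F h1 h2 hr ht h' h).symm
  refine (k1.finite.union (k2.finite.union k3.finite)).subset ?_
  rintro r ⟨hr, h | h | h⟩
  · exact Or.inl ⟨hr, h⟩
  · exact Or.inr (Or.inl ⟨hr, h⟩)
  · exact Or.inr (Or.inr ⟨hr, h⟩)

/-- The three colours: `u1` is before `p`, `u` between `p` and `q`, `u2` after `q`. -/
structure Col (a b : X) (p q : Set X) (u1 u u2 : X) : Prop where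
  c1 : u1 ∉ side p b
  c2 : u ∈ side p b
  c3 : u ∈ side q a
  c4 : u2 ∉ side q a

theorem Col.left (F : Fam 𝒞) (ha : Free 𝒞 a) (hb : Free 𝒞 b) (hp : p ∈ II 𝒞 a b)
    (hq : q ∈ II 𝒞 a b) (hpq : p ⊆ side q a) (h1 : Free 𝒞 u1) (h2 : Free 𝒞 u2)
    (c : Col a b p q u1 u u2) :
    p ∈ II 𝒞 u1 u2 ∧ q ∈ II 𝒞 u1 u2 ∧ u ∈ side p u2 ∧ u ∈ side q u1 ∧ p ⊆ side q u1 := by
  have e1 : side q u1 = side q a :=
    side_eq (II.lt_of F ha hp hq.1 ((II.lt_iff F ha hb hp hq).1 hpq) c.c1)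
  have e2 : side p u2 = side p b := side_eq (II.lt_of F hb (II_symm a b ▸ hq) hp.1 hpq c.c4)
  refine ⟨⟨hp.1, fun h => c.c1 ?_⟩, ⟨hq.1, e1 ▸ c.c4⟩, e2 ▸ c.c2, e1 ▸ c.c3, e1 ▸ hpq⟩
  exact e2 ▸ side_symm h

/-- A member of `Es` is `p`, `q`, or lies between them in the order of `II 𝒞 u1 u2`; then it
separates `p` from `q` (`sp_iff` twice). -/
theorem Col.mem (F : Fam 𝒞) (ha : Free 𝒞 a) (hb : Free 𝒞 b) (hp : p ∈ II 𝒞 a b)
    (hq : q ∈ II 𝒞 a b) (hpq : p ⊆ side q a) (h1 : Free 𝒞 u1) (h2 : Free 𝒞 u2)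
    (c : Col a b p q u1 u u2) (hr : r ∈ Es 𝒞 u1 u u2) :
    r ∈ II 𝒞 a b ∧ (r ≠ p → side r u1 = side r a) := by
  obtain ⟨hp', hq', e1, e2, hpq'⟩ := c.left F ha hb hp hq hpq h1 h2
  have hr' := hr.1
  have dj : u ∈ side r u1 → u ∈ side r u2 → False := fun k k' =>
    Set.disjoint_left.1 (II.disj hr') k k'
  have hA : r = p ∨ p ⊆ side r u1 := by
    rcases II.tri F h1 h2 hr' hp' with h | h | h
    · exact Or.inl h
    · have k := kse_back F h1 h2 hr' hp' h e1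
      rcases hr.2 with k1 | k1 | k1
      · exact (k1.2 p hp' e1).imp_left Eq.symm
      · exact (k1.1 k).elim
      · exact (dj k1.1 k).elim
    · exact Or.inr h
  have hB : r = q ∨ r ⊆ side q u1 := by
    rcases II.tri F h1 h2 hr' hq' with h | h | h
    · exact Or.inl h
    · exact Or.inr h
    · have k := II.mono F h1 h2 hq' hr' h e2
      rcases hr.2 with k1 | k1 | k1
      · exact (dj k k1.1).elim
      · exact (k1.2 k).elim
      · exact (k1.2 q hq' e2).imp_left Eq.symm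
  obtain ⟨x, hx⟩ := F.ne p hp.1
  rcases hA with rfl | hA
  · exact ⟨hp, fun h => (h rfl).elim⟩
  rcases hB with rfl | hB
  · exact ⟨hq, fun _ => (side_eq (hA hx)).symm.trans (side_eq (hpq hx))⟩
  obtain ⟨k1, k2, -⟩ := (II.sp_iff F ha hb hp hq hpq hr'.1).1
    ((II.sp_iff F h1 h2 hp' hq' hpq' hr'.1).2 ⟨hr', hA, hB⟩)
  exact ⟨k1, fun _ => (side_eq (hA hx)).symm.trans (side_eq (k2 hx))⟩

theorem kse_last (F : Fam 𝒞) (A : FamAct 𝒞 G) (ha : Free 𝒞 a) (hb : Free 𝒞 b)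
    (hp : p ∈ II 𝒞 a b) (hu : u ∈ side p b) :
    (∃ r ∈ II 𝒞 a b, u ∈ side r b ∧
      ∀ r' ∈ II 𝒞 a b, u ∈ side r' b → r' = r ∨ r' ⊆ side r a) ∨
    ∃ s ∈ II 𝒞 a b, u ∉ side s b ∧ u ∉ side s a ∧
      {g : G | g • s = s ∧ g • side s a = side s a}.Finite := by
  refine or_iff_not_imp_left.2 fun h => ?_
  have hL : {r | r ∈ II 𝒞 a b ∧ u ∈ side r b} ⊆ II 𝒞 a b := fun r hr => hr.1
  have hm : ∀ r ∈ {r | r ∈ II 𝒞 a b ∧ u ∈ side r b},
      ∃ r' ∈ {r | r ∈ II 𝒞 a b ∧ u ∈ side r b}, r ⊆ side r' a := by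
    intro r hr
    by_contra k
    refine h ⟨r, hr.1, hr.2, fun r' hr' hu' => ?_⟩
    rcases II.tri F ha hb hr' hr.1 with e | e | e
    · exact Or.inl e
    · exact Or.inr e
    · exact (k ⟨r', ⟨hr', hu'⟩, e⟩).elim
  obtain ⟨s, hs, e⟩ := II.sup F ha hb hL ⟨p, hp, hu⟩ hm
  refine ⟨s, hs, fun k => ?_, fun k => ?_, A.stab F ha hb hL ⟨p, hp, hu⟩ hm hs e⟩
  · obtain ⟨r', hr', k'⟩ := hm s ⟨hs, k⟩
    refine II.irrefl F hs.1 a (k'.trans ?_)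
    rw [e]
    exact subset_biUnion_of_mem (u := fun r => side r a) hr'
  · rw [e] at k
    obtain ⟨r, hr, k'⟩ := mem_iUnion₂.1 k
    exact Set.disjoint_left.1 (II.disj hr.1) k' hr.2

/-- Let `L` be the members with `u ∈ side r u2` and `R` those with `u ∈ side r u1`; they contain
`p` and `q`. If `L` has no last member its supremum is of the middle kind; the same for `R` with
`u1` and `u2` exchanged. So `Es` has two members unless it is the supremum of `L`. -/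
theorem Col.main (F : Fam 𝒞) (A : FamAct 𝒞 G) (ha : Free 𝒞 a) (hb : Free 𝒞 b)
    (hp : p ∈ II 𝒞 a b) (hq : q ∈ II 𝒞 a b) (hpq : p ⊆ side q a) (h1 : Free 𝒞 u1)
    (h2 : Free 𝒞 u2) (c : Col a b p q u1 u u2) :
    (Es 𝒞 u1 u u2).Nontrivial ∨ ∃ r, Es 𝒞 u1 u u2 = {r} ∧ side r u1 = side r a ∧
      {g : G | g • r = r ∧ g • side r u1 = side r u1}.Finite := by
  obtain ⟨hp', hq', e1, e2, -⟩ := c.left F ha hb hp hq hpq h1 h2
  rcases kse_last F A h1 h2 hp' e1 with ⟨r, hr, k1, k2⟩ | ⟨s, hs, k1, k2, k3⟩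
  · left
    have hE : r ∈ Es 𝒞 u1 u u2 := ⟨hr, Or.inl ⟨k1, k2⟩⟩
    rcases kse_last F A h2 h1 (II_symm u1 u2 ▸ hq') e2 with ⟨t, ht, k3, k4⟩ | ⟨s, hs, k3, k4, -⟩
    · rw [II_symm u2 u1] at ht k4
      refine ⟨r, hE, t, ⟨ht, Or.inr (Or.inr ⟨k3, fun r' hr' k => ?_⟩)⟩, ?_⟩
      · exact (k4 r' hr' k).imp_right (II.lt_iff F h1 h2 ht hr').2
      · rintro rfl
        exact Set.disjoint_left.1 (II.disj hr) k3 k1
    · rw [II_symm u2 u1] at hs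
      refine ⟨r, hE, s, ⟨hs, Or.inr (Or.inl ⟨k4, k3⟩)⟩, ?_⟩
      rintro rfl
      exact k4 k1
  · have hE : s ∈ Es 𝒞 u1 u u2 := ⟨hs, Or.inr (Or.inl ⟨k1, k2⟩)⟩
    refine or_iff_not_imp_left.2 fun h => ⟨s, ?_, ?_, k3⟩
    · exact (Set.not_nontrivial_iff.1 h).eq_singleton_of_mem hE
    · refine (c.mem F ha hb hp hq hpq h1 h2 hE).2 ?_
      rintro rfl
      exact k1 e1

end Pool.Agent.Lib.MP_e1e491_gt.KS
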