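import Pool.Agent.Lib.MP_e1e491_gt.KSPin1

/-! Consequences of the convergence property. -/

noncomputable section

namespace Pool.Agent.Lib.MP_e1e491_gt.KS

open Set Metric Topology Filter
open scoped Pointwise Classical

variable {Z J G : Type} [MetricSpace Z] [CompactSpace Z] [Group G] {Γ : Geo Z J}
  [MulAction G Z] [MulAction G J] [ContinuousConstSMul G Z] {R : Z → Z → Prop}

theorem kspin_sep {Y : Type} [MetricSpace Y] {S T : Set Y} (hS : IsCompact S) (hT : IsClosed T)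
    (h : Disjoint S T) : ∃ d > 0, ∀ a ∈ S, ∀ b ∈ T, d ≤ dist a b := by
  obtain ⟨r, hr, H⟩ := Metric.exists_pos_forall_lt_edist hS hT h
  refine ⟨r, by exact_mod_cast hr, fun a ha b hb => ?_⟩
  have := (H a ha b hb).le
  rw [edist_nndist, ENNReal.coe_le_coe] at this
  exact_mod_cast this

theorem kspin_min {ι : Type} {F : Set ι} (hF : F.Finite) {p : ι → ℝ → Prop}
    (mono : ∀ i ρ ρ', ρ' ≤ ρ → p i ρ → p i ρ') (h : ∀ i ∈ F, ∃ ρ > 0, p i ρ) :
    ∃ ρ > 0, ∀ i ∈ F, p i ρ := by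
  induction F, hF using Set.Finite.induction_on with
  | empty => exact ⟨1, one_pos, fun i hi => hi.elim⟩
  | @insert a s _ _ ih =>
    obtain ⟨ρ, hρ, H⟩ := ih fun i hi => h i (mem_insert_of_mem _ hi)
    obtain ⟨ρ', hρ', H'⟩ := h a (mem_insert _ _)
    refine ⟨min ρ ρ', lt_min hρ hρ', fun i hi => ?_⟩
    rcases hi with rfl | hi
    · exact mono _ _ _ (min_le_right _ _) H'
    · exact mono _ _ _ (min_le_left _ _) (H i hi)

theorem kspin_cpt (Γ : Geo Z J) {a : J} (ha : a ≠ Γ.out) : IsCompact (closure (Γ.D a)) := by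
  obtain ⟨r, hr⟩ := Γ.hout
  refine Bornology.IsBounded.isCompact_closure ((isBounded_ball (x := (0 : ℂ)) (r := r)).subset ?_)
  intro z hz
  rw [mem_ball_zero_iff]
  by_contra hc
  exact Set.disjoint_left.1 (Γ.disj _ _ ha) (subset_closure hz) (subset_closure (hr z (not_lt.1 hc)))

theorem kspin_holes (Γ : Geo Z J) {a b : J} (h : a ≠ b) :
    ∃ d > 0, ∀ z ∈ Γ.D a, ∀ z' ∈ Γ.D b, d ≤ dist z z' := by
  by_cases ha : a = Γ.out
  · obtain ⟨d, hd, H⟩ := kspin_sep (kspin_cpt Γ (a := b) (ha ▸ h.symm)) isClosed_closure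
      (Γ.disj b a h.symm)
    exact ⟨d, hd, fun z hz z' hz' =>
      dist_comm z z' ▸ H z' (subset_closure hz') z (subset_closure hz)⟩
  · obtain ⟨d, hd, H⟩ := kspin_sep (kspin_cpt Γ ha) isClosed_closure (Γ.disj a b h)
    exact ⟨d, hd, fun z hz z' hz' => H z (subset_closure hz) z' (subset_closure hz')⟩

theorem kspin_half {C : Set Z} {ε : ℝ} {g : G} {x y : Z} (h : Att ε g x y) (hg : g • C = C)
    (hC : Big (2 * ε) C) : ∃ c ∈ C, dist c x < ε := by
  obtain ⟨a, ha, b, hb, hab⟩ := hC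
  by_cases h1 : ε ≤ dist a y
  · exact ⟨g • a, hg ▸ smul_mem_smul_set ha, h a h1⟩
  · refine ⟨g • b, hg ▸ smul_mem_smul_set hb, h b ?_⟩
    have := dist_triangle_right a b y
    linarith

/-- A point near two holes of a finite family excludes finitely many views: the closures are
disjoint and one of any two is compact. -/
theorem Geo.excl (Γ : Geo Z J) {J1 : Set J} (h1 : J1.Finite) {Φ : Set G} (hΦ : Φ.Finite) :
    ∃ ρ > 0, ∀ g ∈ Φ, ∀ i ∈ J1, ∀ j ∈ J1, i ≠ j → ∀ v : ℂ, ∀ z ∈ Γ.D (g • i), ∀ z' ∈ Γ.D (g • j),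
      dist v z < ρ → ρ ≤ dist v z' := by
  obtain ⟨d, hd, H⟩ := kspin_min (hΦ.prod (h1.prod h1))
    (p := fun t d => t.2.1 ≠ t.2.2 → ∀ z ∈ Γ.D (t.1 • t.2.1), ∀ z' ∈ Γ.D (t.1 • t.2.2),
      d ≤ dist z z')
    (fun t ρ ρ' hρ h hne z hz z' hz' => hρ.trans (h hne z hz z' hz'))
    (fun t _ => by
      by_cases hne : t.2.1 = t.2.2
      · exact ⟨1, one_pos, fun h => (h hne).elim⟩
      · obtain ⟨d, hd, H⟩ := kspin_holes Γ (a := t.1 • t.2.1) (b := t.1 • t.2.2)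
          fun e => hne (smul_left_cancel _ e)
        exact ⟨d, hd, fun _ => H⟩)
  refine ⟨d / 2, half_pos hd, fun g hg i hi j hj hij v z hz z' hz' hv => ?_⟩
  have h2 := H (g, i, j) ⟨hg, hi, hj⟩ hij z hz z' hz'
  have h3 := dist_triangle_left z z' v
  linarith

/-- A point near two holes seen by `g` is near the attracting point of `g`. The segment between the
two nearby points meets both circles (`meet`); one of the circles `P i`, `P j` is far from the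
repelling point. Use `Att` with a smaller radius, which gives `Att ε`. -/
theorem Act.pin (A : Act Γ G) {J1 : Set J} (h1 : J1.Finite) {Φ : Set G} (hΦ : Φ.Finite) {ε : ℝ}
    (hε : 0 < ε) : ∃ ρ > 0, ∃ x y : G → Z, ∀ g : G, ∀ i ∈ J1, ∀ j ∈ J1, i ≠ j → ∀ v : ℂ,
      ∀ z ∈ Γ.D (g • i), ∀ z' ∈ Γ.D (g • j), dist v z < ρ → dist v z' < ρ →
        g ∉ Φ ∧ Att ε g (x g) (y g) ∧ dist v (Γ.e (x g)) < ε := by
  obtain ⟨d, hd, Hd⟩ := kspin_min (h1.prod h1)
    (p := fun t d => t.1 ≠ t.2 → ∀ a ∈ Γ.P t.1, ∀ b ∈ Γ.P t.2, d ≤ dist a b)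
    (fun t ρ ρ' hρ h hne z hz z' hz' => hρ.trans (h hne z hz z' hz'))
    (fun t _ => by
      by_cases hne : t.1 = t.2
      · exact ⟨1, one_pos, fun h => (h hne).elim⟩
      · obtain ⟨d, hd, H⟩ := kspin_sep (Γ.closed_P t.1).isCompact (Γ.closed_P t.2) (Γ.disj_P hne)
        exact ⟨d, hd, fun _ => H⟩)
  obtain ⟨δ, hδ, Hδ⟩ := Metric.uniformContinuous_iff.1
    (CompactSpace.uniformContinuous_of_continuous Γ.ce) (ε / 2) (half_pos hε)
  obtain ⟨ε', hε', e1, e2, e3⟩ : ∃ ε' > 0, ε' ≤ ε ∧ ε' ≤ δ ∧ ε' ≤ d / 2 :=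
    ⟨min ε (min δ (d / 2)), lt_min hε (lt_min hδ (half_pos hd)), min_le_left _ _,
      (min_le_right _ _).trans (min_le_left _ _), (min_le_right _ _).trans (min_le_right _ _)⟩
  obtain ⟨ρ, hρ, Hρ⟩ := Γ.excl h1 (hΦ.union (A.conv ε' hε'))
  obtain ⟨z0, -⟩ := (Γ.two Γ.out).nonempty
  have hch : ∀ g : G, ∃ x y : Z, (∃ x y : Z, Att ε' g x y) → Att ε' g x y := fun g => by
    by_cases h : ∃ x y : Z, Att ε' g x y
    · obtain ⟨x, y, h⟩ := h
      exact ⟨x, y, fun _ => h⟩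
    · exact ⟨z0, z0, fun h' => (h h').elim⟩
  choose x y hxy using hch
  refine ⟨min ρ (ε / 2), lt_min hρ (half_pos hε), x, y,
    fun g i hi j hj hij v z hz z' hz' hv hv' => ?_⟩
  have hg : g ∉ Φ ∪ {g : G | ¬ ∃ x y : Z, Att ε' g x y} := fun hg =>
    absurd (Hρ g hg i hi j hj hij v z hz z' hz' (hv.trans_le (min_le_left _ _)))
      (not_le.2 (hv'.trans_le (min_le_left _ _)))
  have hA : Att ε' g (x g) (y g) := hxy g (not_not.1 fun h => hg (Or.inr h))
  refine ⟨fun h => hg (Or.inl h), fun s hs => (hA s (e1.trans hs)).trans_le e1, ?_⟩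
  have hne : g • i ≠ g • j := fun e => hij (smul_left_cancel _ e)
  have hY : IsPreconnected (ball v (min ρ (ε / 2))) := (convex_ball _ _).isPreconnected
  have hz1 : z ∈ ball v (min ρ (ε / 2)) := mem_ball'.2 hv
  have hz2 : z' ∈ ball v (min ρ (ε / 2)) := mem_ball'.2 hv'
  obtain ⟨s, hs, hs'⟩ := Γ.meet hY ⟨z, hz1, hz⟩ fun h =>
    Set.disjoint_left.1 (Γ.disj _ _ hne) (subset_closure (h hz2)) (subset_closure hz')
  obtain ⟨t, ht, ht'⟩ := Γ.meet hY ⟨z', hz2, hz'⟩ fun h =>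
    Set.disjoint_left.1 (Γ.disj _ _ hne) (subset_closure hz) (subset_closure (h hz1))
  rw [← A.perm] at hs ht
  obtain ⟨a, ha, rfl⟩ := hs
  obtain ⟨b, hb, rfl⟩ := ht
  have key : ∀ c : Z, ε' ≤ dist c (y g) → Γ.e (g • c) ∈ ball v (min ρ (ε / 2)) →
      dist v (Γ.e (x g)) < ε := fun c hc hc' => by
    have h2 := Hδ ((hA c hc).trans_le e2)
    have h3 := (mem_ball'.1 hc').trans_le (min_le_right _ _)
    have h4 := dist_triangle v (Γ.e (g • c)) (Γ.e (x g))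
    linarith
  by_cases h2 : ε' ≤ dist a (y g)
  · exact key a h2 hs'
  · refine key b ?_ ht'
    have h3 := Hd (i, j) ⟨hi, hj⟩ hij a ha b hb
    have h4 := dist_triangle_right a b (y g)
    linarith

/-- If `g` preserves `C` both special points are near `C`. -/
theorem Att.near {C : Set Z} {ε : ℝ} {g : G} {x y : Z} (h : Att ε g x y) (hg : g • C = C)
    (hC : Big (2 * ε) C) : (∃ c ∈ C, dist c x < ε) ∧ ∃ c ∈ C, dist c y < ε := by
  refine ⟨kspin_half h hg hC, kspin_half h.inv ?_ hC⟩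
  rw [inv_smul_eq_iff, hg]

/-- The stabiliser of `C` acts properly on the complement of `C`. -/
theorem Act.proper (A : Act Γ G) {C Q Q' : Set Z} (hC : IsClosed C) (hn : C.Nontrivial)
    (hQ : IsClosed Q) (hQ' : IsClosed Q') (h : Disjoint Q C) (h' : Disjoint Q' C) :
    {g : G | g • C = C ∧ ((g • Q) ∩ Q').Nonempty}.Finite := by
  obtain ⟨a, ha, b, hb, hab⟩ := hn
  have h0 : 0 < dist a b := dist_pos.2 hab
  obtain ⟨d, hd, H⟩ := kspin_sep hQ.isCompact hC h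
  obtain ⟨d', hd', H'⟩ := kspin_sep hQ'.isCompact hC h'
  obtain ⟨ε, hε, e1, e2, e3⟩ : ∃ ε > 0, ε ≤ dist a b / 2 ∧ ε ≤ d / 2 ∧ ε ≤ d' / 2 :=
    ⟨min (dist a b / 2) (min (d / 2) (d' / 2)),
      lt_min (half_pos h0) (lt_min (half_pos hd) (half_pos hd')), min_le_left _ _,
      (min_le_right _ _).trans (min_le_left _ _), (min_le_right _ _).trans (min_le_right _ _)⟩
  refine (A.conv ε hε).subset ?_
  rintro g ⟨hg, _, ⟨q, hq, rfl⟩, hq'⟩ ⟨x, y, hA⟩
  obtain ⟨⟨c, hc, hcx⟩, c', hc', hcy⟩ := hA.near hg ⟨a, ha, b, hb, by linarith⟩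
  have h1 := H q hq c' hc'
  have h2 := dist_triangle_right q c' y
  have h3 := hA q (by linarith)
  have h4 : d' ≤ dist (g • q) c := H' _ hq' c hc
  have h5 := dist_triangle_right (g • q) c x
  linarith

/-- Only finitely many views see `C` big and a point of `Q` far from it. -/
theorem Act.far (A : Act Γ G) {C Q : Set Z} (hC : IsClosed C) (hQ : IsClosed Q)
    (h : Disjoint Q C) {δ κ : ℝ} (hδ : 0 < δ) (hκ : 0 < κ) :
    {g : G | Big δ (g • C) ∧ ∃ q ∈ Q, ∀ c ∈ C, κ ≤ dist (g • q) (g • c)}.Finite := by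
  rcases C.subsingleton_or_nontrivial with hs | ⟨a, ha, b, hb, hab⟩
  · refine finite_empty.subset ?_
    rintro g ⟨⟨_, ⟨a, ha, rfl⟩, _, ⟨b, hb, rfl⟩, hab⟩, -⟩
    rw [hs ha hb, dist_self] at hab
    exact absurd hδ (not_lt.2 hab)
  have h0 : 0 < dist a b := dist_pos.2 hab
  obtain ⟨d, hd, H⟩ := kspin_sep hQ.isCompact hC h
  obtain ⟨ε, hε, e1, e2, e3, e4⟩ : ∃ ε > 0, ε ≤ dist a b / 2 ∧ ε ≤ d / 2 ∧ ε ≤ δ / 2 ∧ ε ≤ κ / 2 :=
    ⟨min (min (dist a b / 2) (d / 2)) (min (δ / 2) (κ / 2)),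
      lt_min (lt_min (half_pos h0) (half_pos hd)) (lt_min (half_pos hδ) (half_pos hκ)),
      (min_le_left _ _).trans (min_le_left _ _), (min_le_left _ _).trans (min_le_right _ _),
      (min_le_right _ _).trans (min_le_left _ _), (min_le_right _ _).trans (min_le_right _ _)⟩
  refine (A.conv ε hε).subset ?_
  rintro g ⟨⟨_, ⟨a', ha', rfl⟩, _, ⟨b', hb', rfl⟩, hab'⟩, q, hq, hqc⟩ ⟨x, y, hA⟩
  by_cases h1 : ε ≤ dist q y
  · have h2 := hA q h1
    have h3 : ∀ c ∈ C, dist c y < ε := fun c hc => by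
      by_contra h4
      have h5 := hA c (not_lt.1 h4)
      have h6 := hqc c hc
      have h7 := dist_triangle_right (g • q) (g • c) x
      linarith
    have h4 := dist_triangle_right a b y
    linarith [h3 a ha, h3 b hb]
  · have h3 : ∀ c ∈ C, dist (g • c) x < ε := fun c hc => by
      refine hA c ?_
      have h5 := H q hq c hc
      have h6 := dist_triangle_right q c y
      linarith
    have h4 := dist_triangle_right (g • a') (g • b') x
    have h5 : δ ≤ dist (g • a') (g • b') := hab'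
    linarith [h3 a' ha', h3 b' hb']

/-- Otherwise all pairs are limits of related pairs. -/
theorem Dec.porous (h : Dec G R) (hn : ∃ x y, ¬ R x y) :
    ∃ κ > 0, ∀ x, ∃ z, ∀ c, R x c → κ ≤ dist z c := by
  obtain ⟨a, b, hab⟩ := hn
  by_contra hc
  push Not at hc
  apply hab
  have : (a, b) ∈ closure {p : Z × Z | R p.1 p.2} := by
    refine Metric.mem_closure_iff.2 fun κ hκ => ?_
    obtain ⟨x, hx⟩ := hc κ hκ
    obtain ⟨c, h1, h2⟩ := hx a
    obtain ⟨c', h1', h2'⟩ := hx b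
    exact ⟨(c, c'), h.eqv.trans (h.eqv.symm h1) h1', by rw [Prod.dist_eq]; exact max_lt h2 h2'⟩
  rwa [h.closed.closure_eq] at this

/-- The saturation of a closed set is closed; use a finite cover of `Z` and a Lebesgue number. -/
theorem Dec.unif (h : Dec G R) {p : Set Z → Prop}
    (hp : ∀ y, ∃ N, p N ∧ IsClosed N ∧ ∀ s ∈ N, ¬ R y s) :
    ∃ β > 0, ∀ y, ∃ N, p N ∧ ∀ y', dist y' y < β → ∀ s ∈ N, ¬ R y' s := by
  choose N hN hcl hR using hp
  have ho : ∀ y, IsOpen (Prod.fst '' ({p : Z × Z | R p.1 p.2} ∩ Prod.snd ⁻¹' N y))ᶜ := fun y =>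
    (isClosedMap_fst_of_compactSpace _ (h.closed.inter ((hcl y).preimage continuous_snd))).isOpen_compl
  obtain ⟨β, hβ, H⟩ := lebesgue_number_lemma_of_metric isCompact_univ ho fun y _ =>
    mem_iUnion.2 ⟨y, by
      rintro ⟨⟨u, s⟩, ⟨h1, h2⟩, rfl⟩
      exact hR u s h2 h1⟩
  refine ⟨β, hβ, fun y => ?_⟩
  obtain ⟨i, hi⟩ := H y (mem_univ _)
  exact ⟨N i, hN i, fun y' hy' s hs hr => hi hy' ⟨(y', s), ⟨hr, hs⟩, rfl⟩⟩

end Pool.Agent.Lib.MP_e1e491_gt.KS
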