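import Pool.Agent.Lib.MP_e1e491_gt.KSC
import Pool.Agent.Lib.MP_e1e491_gt.KSPin
import Pool.Agent.Lib.MP_e1e491_gt.KSBox

/-! Finitely many classes separate two holes. -/

noncomputable section

namespace Pool.Agent.Lib.MP_e1e491_gt.KS

open Set Metric Topology Filter
open scoped Pointwise Classical

variable {Z J G : Type} [MetricSpace Z] [CompactSpace Z] [Group G] {Γ : Geo Z J}
  [MulAction G Z] [MulAction G J] [ContinuousConstSMul G Z] {R : Z → Z → Prop}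

theorem ksf_step {n i i' : ℕ} (hn : 0 < n) (h : i' = i ∨ i' = i + 1) :
    |((min i' n : ℕ) : ℝ) / n - (min i n : ℕ) / n| ≤ 1 / n := by
  have hn' : (0 : ℝ) < n := by exact_mod_cast hn
  have h1 : min i n ≤ min i' n := by omega
  have h2 : min i' n ≤ min i n + 1 := by omega
  have h3 : ((min i n : ℕ) : ℝ) ≤ (min i' n : ℕ) := by exact_mod_cast h1
  have h4 : ((min i' n : ℕ) : ℝ) ≤ (min i n : ℕ) + 1 := by exact_mod_cast h2
  rw [← sub_div, abs_div, abs_of_pos hn']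
  gcongr
  rw [abs_le]
  constructor <;> linarith

theorem ksf_dist (z d : ℂ) (a b a' b' : ℝ) :
    dist (z + d * (a + b * Complex.I)) (z + d * (a' + b' * Complex.I)) ≤
        ‖d‖ * (|a - a'| + |b - b'|) ∧
      ‖d‖ * |b - b'| ≤ dist (z + d * (a + b * Complex.I)) (z + d * (a' + b' * Complex.I)) := by
  have h1 : z + d * (a + b * Complex.I) - (z + d * (a' + b' * Complex.I)) =
      d * (((a - a' : ℝ) : ℂ) + ((b - b' : ℝ) : ℂ) * Complex.I) := by
    push_cast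
    ring
  rw [dist_eq_norm, h1, norm_mul]
  have h2 := Complex.norm_le_abs_re_add_abs_im
    (((a - a' : ℝ) : ℂ) + ((b - b' : ℝ) : ℂ) * Complex.I)
  have h3 := Complex.abs_im_le_norm (((a - a' : ℝ) : ℂ) + ((b - b' : ℝ) : ℂ) * Complex.I)
  simp only [Complex.add_re, Complex.add_im, Complex.ofReal_re, Complex.ofReal_im, Complex.mul_re,
    Complex.mul_im, Complex.I_re, Complex.I_im, mul_zero, mul_one, sub_zero, add_zero,
    zero_add] at h2 h3
  constructor <;> gcongr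

/-- A thin rectangle from a point of `U` to a point of `V`, with an arbitrarily fine grid. Take
`pos i j = z0 + (i / n) (z1 - z0) + (min j n / n) κ' (z1 - z0) I` with `min i n` in place of `i`. -/
theorem rect {U V : Set ℂ} (hU : IsOpen U) (hV : IsOpen V) (h1 : U.Nonempty) (h2 : V.Nonempty)
    (h : Disjoint U V) : ∃ κ > 0, ∀ η > 0, ∀ N : ℕ, ∃ (n : ℕ) (pos : ℕ → ℕ → ℂ),
      (∀ j, pos 0 j ∈ U) ∧ (∀ j, pos n j ∈ V) ∧
      (∀ i j i' j', (i' = i ∨ i' = i + 1) → (j' = j ∨ j' = j + 1) →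
        dist (pos i' j') (pos i j) < η) ∧
      ∃ ly : Fin (N + 1) → ℕ, (∀ k, ly k < n) ∧ ∀ k k', k ≠ k' → ∀ i i',
        κ / (N + 1) ≤ dist (pos i (ly k)) (pos i' (ly k')) := by
  obtain ⟨z0, h0⟩ := h1
  obtain ⟨z1, h1⟩ := h2
  obtain ⟨δ0, hδ0, hb0⟩ := Metric.isOpen_iff.1 hU z0 h0
  obtain ⟨δ1, hδ1, hb1⟩ := Metric.isOpen_iff.1 hV z1 h1
  have hd : 0 < ‖z1 - z0‖ := norm_pos_iff.2 (sub_ne_zero.2 fun e =>
    Set.disjoint_left.1 h h0 (e ▸ h1))
  obtain ⟨κ, hκ, k0, k1⟩ : ∃ κ > 0, κ < δ0 ∧ κ < δ1 :=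
    ⟨min δ0 δ1 / 2, by positivity, by linarith [min_le_left δ0 δ1, lt_min hδ0 hδ1],
      by linarith [min_le_right δ0 δ1, lt_min hδ0 hδ1]⟩
  refine ⟨κ, hκ, fun η hη N => ?_⟩
  obtain ⟨s, hs⟩ := exists_nat_gt ((‖z1 - z0‖ + κ) / η)
  have hs0 : (0 : ℝ) < s := lt_trans (by positivity) hs
  have hs1 : 0 < s := by exact_mod_cast hs0
  obtain ⟨n, hn⟩ : ∃ n, n = (N + 1) * s := ⟨_, rfl⟩
  have hn0 : 0 < n := by rw [hn]; positivity
  have hn' : (0 : ℝ) < n := by exact_mod_cast hn0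
  have hsn : (s : ℝ) ≤ n := by
    have : s ≤ n := by rw [hn]; nlinarith
    exact_mod_cast this
  obtain ⟨t, ht⟩ : ∃ t : ℝ, t = κ / ‖z1 - z0‖ := ⟨_, rfl⟩
  have ht0 : 0 < t := by rw [ht]; positivity
  have htk : ‖z1 - z0‖ * t = κ := by rw [ht]; field_simp
  have hβ : ∀ j : ℕ, ‖z1 - z0‖ * (|(0 : ℝ)| + |t * (((min j n : ℕ) : ℝ) / n) - 0|) ≤ κ := fun j => by
    have h2 : ((min j n : ℕ) : ℝ) / n ≤ 1 := by
      rw [div_le_one hn']
      exact_mod_cast min_le_right j n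
    rw [abs_zero, zero_add, sub_zero, abs_of_nonneg (by positivity), ← mul_assoc, htk]
    exact mul_le_of_le_one_right hκ.le h2
  refine ⟨n, fun i j => z0 + (z1 - z0) * ((((min i n : ℕ) : ℝ) / n : ℝ) +
    (t * (((min j n : ℕ) : ℝ) / n) : ℝ) * Complex.I), fun j => hb0 ?_, fun j => hb1 ?_,
    fun i j i' j' hi hj => ?_, fun k => k * s, fun k => ?_, fun k k' hk i i' => ?_⟩
  · have h2 := (ksf_dist z0 (z1 - z0) (((min 0 n : ℕ) : ℝ) / n) (t * (((min j n : ℕ) : ℝ) / n))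
      0 0).1
    have h3 : ((min 0 n : ℕ) : ℝ) / n - 0 = 0 := by simp
    rw [h3] at h2
    simp only [Complex.ofReal_zero, zero_mul, add_zero, mul_zero] at h2
    exact mem_ball.2 ((h2.trans (hβ j)).trans_lt k0)
  · have h2 := (ksf_dist z0 (z1 - z0) (((min n n : ℕ) : ℝ) / n) (t * (((min j n : ℕ) : ℝ) / n))
      1 0).1
    have h3 : ((min n n : ℕ) : ℝ) / n - 1 = 0 := by rw [min_self, div_self hn'.ne', sub_self]
    rw [h3] at h2
    simp only [Complex.ofReal_zero, Complex.ofReal_one, zero_mul, add_zero, mul_one,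
      add_sub_cancel] at h2
    exact mem_ball.2 ((h2.trans (hβ j)).trans_lt k1)
  · refine (ksf_dist _ _ _ _ _ _).1.trans_lt ?_
    have h2 := ksf_step hn0 hi
    have h3 := ksf_step hn0 hj
    rw [← mul_sub, abs_mul, abs_of_pos ht0]
    calc _ ≤ ‖z1 - z0‖ * (1 / n + t * (1 / n)) := by gcongr
      _ = (‖z1 - z0‖ + κ) / n := by rw [← htk]; ring
      _ ≤ (‖z1 - z0‖ + κ) / s := by gcongr
      _ < η := by
        rw [div_lt_iff₀ hs0, mul_comm]
        exact (div_lt_iff₀ hη).1 hs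
  · rw [hn]
    exact Nat.mul_lt_mul_of_pos_right k.2 hs1
  · refine le_trans ?_ (ksf_dist _ _ _ _ _ _).2
    have h2 : ∀ k : Fin (N + 1), ((min (k * s) n : ℕ) : ℝ) / n = (k : ℕ) / (N + 1) := fun k => by
      rw [min_eq_left (by rw [hn]; exact Nat.mul_le_mul_right _ k.2.le), hn]
      push_cast
      field_simp
    have h3 : (1 : ℝ) ≤ |((k : ℕ) : ℝ) - (k' : ℕ)| := by
      have h4 : ((k : ℕ) : ℤ) - (k' : ℕ) ≠ 0 := fun e => hk (Fin.ext (by omega))
      exact_mod_cast Int.one_le_abs h4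
    rw [h2, h2, ← mul_sub, ← sub_div, abs_mul, abs_of_pos ht0, ← mul_assoc, htk, abs_div,
      abs_of_pos (show (0 : ℝ) < N + 1 by positivity), ← mul_div_assoc]
    gcongr
    exact le_mul_of_one_le_right hκ.le h3

/-- The three colours. -/
def ksf_col {X : Type} (A B : Set X) (u : X) : Fin 3 := if u ∉ A then 0 else if u ∉ B then 2 else 1

theorem ksf_col_zero {X : Type} {A B : Set X} {u : X} : ksf_col A B u = 0 ↔ u ∉ A := by
  unfold ksf_col
  split_ifs <;> simp [*]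

theorem ksf_col_one {X : Type} {A B : Set X} {u : X} : ksf_col A B u = 1 ↔ u ∈ A ∧ u ∈ B := by
  unfold ksf_col
  split_ifs <;> simp [*]

theorem ksf_col_two {X : Type} {A B : Set X} {u : X} : ksf_col A B u = 2 ↔ u ∈ A ∧ u ∉ B := by
  unfold ksf_col
  split_ifs <;> simp [*]

/-- Suppose not (then `i ≠ j`). `K` from `nn_holes`, `Φ, N` from `sees` with `T = h '' J0`, `κ` from
`rect`, `ρ, x, y` from `pin` with `2 ε ≤ κ / (N + 1)`. Top level `m1` from `w2` for `i`, `j` and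
`w3` for `ρ / 2`; `p, q` from `gap` for the holes in the range of `w m1`; height `h` from `apart`
for the complements of `side p b`, `side q a` (disjoint by `lt_of`) and `w3`; `η` from `w1`. Colour
`(a, b, l)` by the hole `w (m1 + l) (pos a b)`: zero if it is not in `side p b`, two if it is not in
`side q a`, else one. Each cube gets a view from `w1`. Along `Adj3` the value of `cls` is constant,
so the views lie in a set of at most `N` elements, and two of the `N + 1` layers have the same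
view `g`; both are within `ε` of `e (x g)`. -/
theorem Act.II_finite (A : Act Γ G) (W : Wit Γ G) (h : Dec G R) (i j : J) :
    (II (Γ.cl R) (Γ.h i) (Γ.h j)).Finite := by
  by_contra hinf
  have := Γ.conn
  have := Γ.lconn
  have := A.cont
  have F := h.fam Γ
  have ha := Γ.free_h R i
  have hb := Γ.free_h R j
  have hij : i ≠ j := by
    rintro rfl
    obtain ⟨r, hr⟩ := Set.Infinite.nonempty hinf
    exact hr.2 (mem_side_self (ha r hr.1))
  have hJ : (W.J0 : Set J).Finite := W.J0.finite_toSet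
  obtain ⟨Φ, N, hΦ, hsees⟩ := sees F (A.famAct h) ha hb (hJ.image Γ.h)
    (by rintro _ ⟨t, -, rfl⟩; exact Γ.free_h R t) (A.nn_holes hJ hJ)
  obtain ⟨κ, hκ, hrect⟩ := rect (Γ.oD i) (Γ.oD j) (Γ.nD i) (Γ.nD j)
    ((Γ.disj i j hij).mono subset_closure subset_closure)
  obtain ⟨ρ, hρ, x, y, hpin⟩ := A.pin hJ hΦ (show 0 < κ / (N + 1) / 2 by positivity)
  obtain ⟨mi, hmi⟩ := W.w2 i
  obtain ⟨mj, hmj⟩ := W.w2 j
  obtain ⟨mρ, hmρ⟩ := W.w3 (ρ / 2) (by positivity)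
  obtain ⟨m1, e1, e2, e3⟩ : ∃ m1, mi ≤ m1 ∧ mj ≤ m1 ∧ mρ ≤ m1 :=
    ⟨mi + mj + mρ, by omega, by omega, by omega⟩
  obtain ⟨p, hp, q, hq, hpq, hgap⟩ := II.gap F ha hb hinf ((W.w4 m1).image Γ.h)
  obtain ⟨cls, hc1, hc2⟩ := hsees p hp q hq hpq
  obtain ⟨σ, hσ, hap⟩ := Γ.apart (side_open (F.closed p hp.1) (Γ.h j)).isClosed_compl
    (side_open (F.closed q hq.1) (Γ.h i)).isClosed_compl
    (Set.disjoint_left.2 fun u h1 h2 =>
      h2 (II.lt_of F ha hp hq.1 ((II.lt_iff F ha hb hp hq).1 hpq) h1))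
  obtain ⟨H, hH⟩ := W.w3 (σ / 4) (by positivity)
  obtain ⟨η0, hη0, hw1⟩ := W.w1 (m1 + H)
  obtain ⟨n, pos, p0, pn, pd, ly, hly, hsep⟩ := hrect (min η0 (min (ρ / 2) (σ / 4)))
    (by positivity) N
  obtain ⟨u, hu⟩ : ∃ u : ℕ × ℕ × ℕ → J, ∀ k, u k = W.w (m1 + k.2.2) (pos k.1 k.2.1) :=
    ⟨_, fun _ => rfl⟩
  obtain ⟨c, hc⟩ : ∃ c : ℕ × ℕ × ℕ → Fin 3, ∀ k,
      c k = ksf_col (side p (Γ.h j)) (side q (Γ.h i)) (Γ.h (u k)) := ⟨_, fun _ => rfl⟩
  have hvx : ∀ k z, Vx k z → dist (pos z.1 z.2.1) (pos k.1 k.2.1) < η0 ∧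
      dist (pos z.1 z.2.1) (pos k.1 k.2.1) < ρ / 2 ∧
      dist (pos z.1 z.2.1) (pos k.1 k.2.1) < σ / 4 := fun k z hz => by
    simpa only [lt_min_iff] using pd _ _ _ _ hz.1 hz.2.1
  obtain ⟨k0, hk0, hbox⟩ := box c n n H
    (fun b l => by
      rw [hc, hu, hmi _ (by omega) _ (p0 b), ksf_col_zero]
      exact fun e => hp.2 (side_symm e))
    (fun b l => by
      rw [hc, hu, hmj _ (by omega) _ (pn b), ksf_col_two]
      exact ⟨mem_side_self (hb p hp.1), hq.2⟩)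
    (fun a b e => by
      rw [hc, hu, ksf_col_one] at e
      exact hgap _ ⟨_, ⟨_, rfl⟩, rfl⟩ e.1 e.2)
    (fun k z z' hz hz' l l' c0 c2 => by
      rw [hc, ksf_col_zero] at c0
      rw [hc, ksf_col_two] at c2
      obtain ⟨v, hv, dv⟩ := hH (m1 + z.2.2) (by omega) (pos z.1 z.2.1)
      obtain ⟨v', hv', dv'⟩ := hH (m1 + z'.2.2) (by omega) (pos z'.1 z'.2.1)
      rw [← hu] at hv hv'
      have h1 := hap v v' (by rw [Γ.π_D hv]; exact c0) (by rw [Γ.π_D hv']; exact c2.2)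
      have h2 := (hvx k z hz).2.2
      have h3 := (hvx k z' hz').2.2
      have h4 := dist_triangle4 v (pos z.1 z.2.1) (pos k.1 k.2.1) (pos z'.1 z'.2.1)
      have h5 := dist_triangle v (pos z'.1 z'.2.1) v'
      rw [dist_comm v (pos z.1 z.2.1), dist_comm (pos k.1 k.2.1)] at h4
      linarith)
  have hview : ∀ k : ℕ × ℕ × ℕ, ∃ g : G, k.2.2 < H → ∀ z, Vx k z → g⁻¹ • u z ∈ W.J0 := by
    intro k
    by_cases hk : k.2.2 < H
    · obtain ⟨g, hg⟩ := hw1 (pos k.1 k.2.1) (m1 + k.2.2) (by omega)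
      refine ⟨g, fun _ z hz => ?_⟩
      have h1 := hg _ (mem_ball.2 (hvx k z hz).1)
      rw [hu]
      rcases hz.2.2 with e | e
      · rw [e]
        exact h1.1
      · rw [e, ← add_assoc]
        exact h1.2
    · exact ⟨1, fun h0 => absurd h0 hk⟩
  choose g hg using hview
  have hne : ∀ z z', c z = 0 → c z' = 1 → u z ≠ u z' := fun z z' c0 c1 e => by
    rw [hc, e, ← hc, c1] at c0
    exact absurd c0 (by decide)
  have hgood : ∀ k k', Adj3 c H k k' → g k' ∉ Φ ∧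
      (∃ u1 v u2, Sees (Γ.h '' (W.J0 : Set J)) (Γ.h i) (Γ.h j) p q (g k') u1 v u2) ∧
      dist (pos k'.1 k'.2.1) (Γ.e (x (g k'))) < κ / (N + 1) / 2 := by
    intro k k' hk
    obtain ⟨z0, -, v0, c0⟩ := hk.2 0
    obtain ⟨z1, -, v1, c1⟩ := hk.2 1
    obtain ⟨z2, -, v2, c2⟩ := hk.2 2
    have near : ∀ z, Vx k' z → ∃ v ∈ Γ.D (g k' • (g k')⁻¹ • u z),
        dist (pos k'.1 k'.2.1) v < ρ := fun z hz => by
      obtain ⟨v, hv, dv⟩ := hmρ (m1 + z.2.2) (by omega) (pos z.1 z.2.1)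
      refine ⟨v, by rw [smul_inv_smul, hu]; exact hv, ?_⟩
      have h1 := (hvx k' z hz).2.1
      have h2 := dist_triangle_left (pos k'.1 k'.2.1) v (pos z.1 z.2.1)
      linarith
    obtain ⟨w0, a0, d0⟩ := near z0 v0
    obtain ⟨w1, a1, d1⟩ := near z1 v1
    obtain ⟨h1, -, h2⟩ := hpin (g k') _ (hg k' hk.1 z0 v0) _ (hg k' hk.1 z1 v1)
      (fun e => hne z0 z1 c0 c1 (MulAction.injective _ e)) _ w0 a0 w1 a1 d0 d1
    rw [hc, ksf_col_zero] at c0
    rw [hc, ksf_col_one] at c1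
    rw [hc, ksf_col_two] at c2
    exact ⟨h1, ⟨_, _, _, ⟨_, hg k' hk.1 z0 v0, (Γ.smul_h _ _).symm⟩,
      ⟨_, hg k' hk.1 z1 v1, (Γ.smul_h _ _).symm⟩, ⟨_, hg k' hk.1 z2 v2, (Γ.smul_h _ _).symm⟩,
      c0, c1.1, c1.2, c2.2⟩, h2⟩
  have hreach : ∀ k, Relation.ReflTransGen (Adj3 c H) k0 k →
      (∃ k', Adj3 c H k' k) ∧ cls (g k) = cls (g k0) := by
    intro k hk
    induction hk with
    | refl => exact ⟨⟨k0, hk0⟩, rfl⟩
    | @tail k k' _ hk ih =>
      obtain ⟨⟨k'', hk''⟩, ih⟩ := ih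
      obtain ⟨z0, t0, v0, c0⟩ := hk.2 0
      obtain ⟨z1, t1, v1, c1⟩ := hk.2 1
      refine ⟨⟨k, hk⟩, (hc2 _ (hgood _ _ hk'').1 _ (hgood _ _ hk).1 ?_ (hgood _ _ hk'').2.1
        (hgood _ _ hk).2.1).symm.trans ih⟩
      refine ⟨_, hg k' hk.1 z0 v0, _, hg k' hk.1 z1 v1,
        fun e => hne z0 z1 c0 c1 (MulAction.injective _ e), ?_, ?_⟩
      · rw [mul_smul, smul_inv_smul]
        exact hg k hk''.1 z0 t0
      · rw [mul_smul, smul_inv_smul]
        exact hg k hk''.1 z1 t1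
  obtain ⟨S, hS, hmem⟩ := hc1 (cls (g k0))
  choose k hk1 hk2 using fun l : Fin (N + 1) => hbox (ly l) (hly l)
  choose k' hk' using fun l => (hreach _ (hk2 l)).1
  obtain ⟨l, -, l', -, hl, e⟩ := Finset.exists_ne_map_eq_of_card_lt_of_maps_to
    (s := Finset.univ) (t := S) (by simp; omega) (f := fun l => g (k l)) fun l _ =>
      hmem _ (hgood _ _ (hk' l)).1 (hgood _ _ (hk' l)).2.1 (hreach _ (hk2 l)).2
  have h1 := (hgood _ _ (hk' l)).2.2
  have h2 := (hgood _ _ (hk' l')).2.2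
  have h3 := hsep l l' hl (k l).1 (k l').1
  have h4 := dist_triangle_right (pos (k l).1 (ly l)) (pos (k l').1 (ly l')) (Γ.e (x (g (k l))))
  rw [hk1] at h1 h2
  rw [← e] at h2
  linarith

end Pool.Agent.Lib.MP_e1e491_gt.KS
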