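import Pool.Agent.Lib.MP_e1e491_gt.KSO1

/-! The order of the members that separate two points. -/

noncomputable section

namespace Pool.Agent.Lib.MP_e1e491_gt.KS

open Set Metric Topology Filter
open scoped Pointwise Classical

variable {X : Type} [TopologicalSpace X] [ConnectedSpace X] [LocallyConnectedSpace X]
  {𝒞 : Set (Set X)} {a b : X} {p q r r' t : Set X}

theorem kso_sub_compl (r : Set X) (x : X) : r ⊆ (side r x)ᶜ :=
  (side_disj r x).subset_compl_left

/-- The complement of `side r b` is connected, misses `r'` and contains `a`. -/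
theorem II.lt_of (F : Fam 𝒞) (ha : Free 𝒞 a) (hr : r ∈ II 𝒞 a b) (hr' : r' ∈ 𝒞)
    (h : r' ⊆ side r b) : (side r b)ᶜ ⊆ side r' a := by
  refine sub_side (compl_side (F.closed r hr.1) (F.conn r hr.1) (F.ne r hr.1) b) ?_ (y := a) ?_
    (mem_side_self (ha r' hr'))
  · exact disjoint_left.2 fun x hx hx' => hx (h hx')
  · exact fun hab => hr.2 (side_symm hab)

theorem II.lt_iff (F : Fam 𝒞) (ha : Free 𝒞 a) (hb : Free 𝒞 b) (hr : r ∈ II 𝒞 a b)
    (hr' : r' ∈ II 𝒞 a b) : r ⊆ side r' a ↔ r' ⊆ side r b := by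
  constructor
  · intro h
    exact (kso_sub_compl r' a).trans (II.lt_of F hb (II_symm a b ▸ hr') hr.1 h)
  · intro h
    exact (kso_sub_compl r b).trans (II.lt_of F ha hr hr'.1 h)

theorem II.mono (F : Fam 𝒞) (ha : Free 𝒞 a) (hb : Free 𝒞 b) (hr : r ∈ II 𝒞 a b)
    (hr' : r' ∈ II 𝒞 a b) (h : r ⊆ side r' a) : side r a ⊆ side r' a := by
  exact (II.disj hr).subset_compl_right.trans
    (II.lt_of F ha hr hr'.1 ((II.lt_iff F ha hb hr hr').1 h))

theorem II.irrefl (F : Fam 𝒞) (hr : r ∈ 𝒞) (x : X) : ¬ r ⊆ side r x := by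
  intro h
  obtain ⟨y, hy⟩ := F.ne r hr
  exact kso_sub_compl r x hy (h hy)

/-- If `r'` lies in a third side of `r`, the complement of that side is connected, misses `r'` and
contains `a` and `b`. -/
theorem II.tri (F : Fam 𝒞) (ha : Free 𝒞 a) (hb : Free 𝒞 b) (hr : r ∈ II 𝒞 a b)
    (hr' : r' ∈ II 𝒞 a b) : r = r' ∨ r ⊆ side r' a ∨ r' ⊆ side r a := by
  by_cases he : r = r'
  · exact Or.inl he
  have hd := F.disj r hr.1 r' hr'.1 he
  obtain ⟨y, hy⟩ := F.ne r' hr'.1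
  have hs : r' ⊆ side r y :=
    sub_side (F.conn r' hr'.1) hd.symm hy (mem_side_self (disjoint_right.1 hd hy))
  by_cases h1 : a ∈ side r y
  · exact Or.inr (Or.inr (by rwa [side_eq h1]))
  by_cases h2 : b ∈ side r y
  · exact Or.inr (Or.inl ((II.lt_iff F ha hb hr hr').2 (by rwa [side_eq h2])))
  exfalso
  refine hr'.2 (sub_side (compl_side (F.closed r hr.1) (F.conn r hr.1) (F.ne r hr.1) y) ?_ h1
    (mem_side_self (ha r' hr'.1)) h2)
  exact disjoint_left.2 fun x hx hx' => hx (hs hx')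

theorem kso_in (F : Fam 𝒞) (hp : p ∈ 𝒞) (hq : q ∈ 𝒞) (ht : t ∈ 𝒞) (hd : Disjoint t p) {c : X}
    (hqp : q ⊆ side p c) (hs : ∀ x ∈ p, ∀ y ∈ q, y ∉ side t x) : t ⊆ side p c := by
  by_contra hne
  have h1 : Disjoint (side p c) t := disjoint_left.2 fun z hz hzt =>
    hne (sub_side (F.conn t ht) hd hzt hz)
  obtain ⟨x, hx⟩ := F.ne p hp
  obtain ⟨y, hy⟩ := F.ne q hq
  exact hs x hx y hy (sub_side (side_union (F.closed p hp) (F.conn p hp) (F.ne p hp) c)
    (disjoint_union_left.2 ⟨h1, hd.symm⟩) (Or.inr hx) (mem_side_self (disjoint_right.1 hd hx))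
    (Or.inl (hqp hy)))

/-- If `t` lies in a side of `p` other than `side p b` then `p ∪ side p b` is connected, misses `t`
and contains `q`. So `t ⊆ side p b`, likewise `t ⊆ side q a`; then `a` is on the side of `p` and
`b` on the side of `q`. -/
theorem II.sp_iff (F : Fam 𝒞) (ha : Free 𝒞 a) (hb : Free 𝒞 b) (hp : p ∈ II 𝒞 a b)
    (hq : q ∈ II 𝒞 a b) (hpq : p ⊆ side q a) (ht : t ∈ 𝒞) :
    Sp t p q ↔ t ∈ II 𝒞 a b ∧ p ⊆ side t a ∧ t ⊆ side q a := by
  have hqp : q ⊆ side p b := (II.lt_iff F ha hb hp hq).1 hpq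
  constructor
  · rintro ⟨h1, h2, h3⟩
    have h4 : t ⊆ side p b := kso_in F hp.1 hq.1 ht h1 hqp h3
    have h5 : t ⊆ side q a :=
      kso_in F hq.1 hp.1 ht h2 hpq fun y hy x hx hxy => h3 x hx y hy (side_symm hxy)
    have h6 : p ⊆ side t a := (kso_sub_compl p b).trans (II.lt_of F ha hp ht h4)
    have h7 : q ⊆ side t b := (kso_sub_compl q a).trans (II.lt_of F hb (II_symm a b ▸ hq) ht h5)
    refine ⟨⟨ht, fun hab => ?_⟩, h6, h5⟩
    obtain ⟨x, hx⟩ := F.ne p hp.1
    obtain ⟨y, hy⟩ := F.ne q hq.1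
    apply h3 x hx y hy
    rw [side_eq (h6 hx), ← side_eq hab]
    exact h7 hy
  · rintro ⟨h1, h2, h3⟩
    have h4 : q ⊆ side t b := (II.lt_iff F ha hb h1 hq).1 h3
    refine ⟨((side_disj t a).mono_left h2).symm, (side_disj q a).mono_left h3,
      fun x hx y hy hxy => ?_⟩
    rw [side_eq (h2 hx)] at hxy
    exact disjoint_left.1 (II.disj h1) hxy (h4 hy)

/-- `U` is the union of the sets `side r a`. A connected neighbourhood of a frontier point of `U`
meets all late members of `L`; so the frontier, which is not empty, lies in one member `s` (`usc`).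
`s` misses `U` (else `s ⊆ side r a ⊆ U` for some `r`), so `U` is a side of `s`. -/
theorem II.sup (F : Fam 𝒞) (ha : Free 𝒞 a) (hb : Free 𝒞 b) {L : Set (Set X)}
    (hL : L ⊆ II 𝒞 a b) (hn : L.Nonempty) (hm : ∀ r ∈ L, ∃ r' ∈ L, r ⊆ side r' a) :
    ∃ s ∈ II 𝒞 a b, side s a = ⋃ r ∈ L, side r a := by
  set U : Set X := ⋃ r ∈ L, side r a with hU
  have hsub : ∀ r ∈ L, side r a ⊆ U := fun r hr => subset_biUnion_of_mem (u := fun r => side r a) hr
  have hmem : ∀ x ∈ U, ∃ r ∈ L, x ∈ side r a := fun x hx => by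
    simpa only [hU, mem_iUnion, exists_prop] using hx
  have hself : ∀ r ∈ L, a ∈ side r a := fun r hr => mem_side_self (ha r (hL hr).1)
  have hUo : IsOpen U := isOpen_biUnion fun r hr => side_open (F.closed r (hL hr).1) a
  have haU : a ∈ U := by
    obtain ⟨r, hr⟩ := hn
    exact hsub r hr (hself r hr)
  have hbU : b ∉ U := fun hb' => by
    obtain ⟨r, hr, h⟩ := hmem b hb'
    exact (hL hr).2 h
  have hUc : IsPreconnected U := by
    refine isPreconnected_of_forall a fun y hy => ?_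
    obtain ⟨r, hr, h⟩ := hmem y hy
    exact ⟨side r a, hsub r hr, hself r hr, h, side_conn r a⟩
  have hlate : ∀ x ∈ closure U, x ∉ U → ∀ N ∈ 𝓝 x, ∃ r0 ∈ L, ∀ r ∈ L,
      side r0 a ⊆ side r a → (r ∩ N).Nonempty := by
    intro x hx hxU N hN
    have hN' := connectedComponentIn_mem_nhds hN
    obtain ⟨z, hz1, hz2⟩ := mem_closure_iff_nhds.1 hx _ hN'
    obtain ⟨r0, hr0, hz⟩ := hmem z hz2
    refine ⟨r0, hr0, fun r hr hle => ?_⟩
    by_contra hne
    have hd : Disjoint (connectedComponentIn N x) r := by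
      refine disjoint_left.2 fun y hy hyr => hne ⟨y, hyr, connectedComponentIn_subset _ _ hy⟩
    exact hxU (hsub r hr (sub_side isPreconnected_connectedComponentIn hd hz1 (hle hz)
      (mem_of_mem_nhds hN')))
  have hone : ∀ x ∈ closure U, x ∉ U → ∀ y ∈ closure U, y ∉ U → ∃ s ∈ 𝒞, x ∈ s ∧ y ∈ s := by
    intro x hx hxU y hy hyU
    refine F.usc x y fun N hN V hV => ?_
    obtain ⟨r0, hr0, h0⟩ := hlate x hx hxU N hN
    obtain ⟨r1, hr1, h1⟩ := hlate y hy hyU V hV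
    rcases II.tri F ha hb (hL hr0) (hL hr1) with h | h | h
    · subst h
      exact ⟨r0, (hL hr0).1, h0 r0 hr0 Subset.rfl, h1 r0 hr0 Subset.rfl⟩
    · exact ⟨r1, (hL hr1).1, h0 r1 hr1 (II.mono F ha hb (hL hr0) (hL hr1) h),
        h1 r1 hr1 Subset.rfl⟩
    · exact ⟨r0, (hL hr0).1, h0 r0 hr0 Subset.rfl,
        h1 r0 hr0 (II.mono F ha hb (hL hr1) (hL hr0) h)⟩
  have hx0 : ∃ x ∈ closure U, x ∉ U := by
    by_contra hne
    have hcl : closure U ∩ univ ⊆ U := fun x hx => by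
      by_contra hxU
      exact hne ⟨x, hx.1, hxU⟩
    exact hbU (isPreconnected_univ.subset_of_closure_inter_subset hUo ⟨a, mem_univ a, haU⟩ hcl
      (mem_univ b))
  obtain ⟨x0, hx0, hx0U⟩ := hx0
  obtain ⟨s, hs, hxs, -⟩ := hone x0 hx0 hx0U x0 hx0 hx0U
  have hfr : ∀ y ∈ closure U, y ∉ U → y ∈ s := by
    intro y hy hyU
    obtain ⟨s', hs', h1, h2⟩ := hone x0 hx0 hx0U y hy hyU
    by_cases he : s = s'
    · exact he ▸ h2
    · exact absurd h1 (disjoint_left.1 (F.disj s hs s' hs' he) hxs)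
  have hd : Disjoint U s := by
    refine disjoint_left.2 fun z hz hzs => ?_
    obtain ⟨r, hr, h⟩ := hmem z hz
    by_cases he : s = r
    · exact kso_sub_compl r a (he ▸ hzs) h
    · exact hx0U (hsub r hr (sub_side (F.conn s hs) (F.disj s hs r (hL hr).1 he) hzs h hxs))
  have has : a ∈ side s a := mem_side_self (ha s hs)
  have heq : side s a = U := by
    refine Subset.antisymm ?_ (sub_side hUc hd haU has)
    refine (side_conn s a).subset_of_closure_inter_subset hUo ⟨a, has, haU⟩ fun y hy => ?_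
    by_contra hyU
    exact kso_sub_compl s a (hfr y hy.1 hyU) hy.2
  exact ⟨s, ⟨hs, heq ▸ hbU⟩, heq⟩

/-- Two members with the same trace of `side · a` on `T` (pigeonhole). -/
theorem II.gap (F : Fam 𝒞) (ha : Free 𝒞 a) (hb : Free 𝒞 b) (h : (II 𝒞 a b).Infinite)
    {T : Set X} (hT : T.Finite) : ∃ p ∈ II 𝒞 a b, ∃ q ∈ II 𝒞 a b, p ⊆ side q a ∧
      ∀ u ∈ T, u ∈ side p b → u ∉ side q a := by
  obtain ⟨p, hp, q, hq, hne, he⟩ := h.exists_ne_map_eq_of_mapsTo
    (f := fun r => T ∩ side r a) (t := {S | S ⊆ T}) (fun r _ => inter_subset_left)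
    hT.finite_subsets
  have key : ∀ p ∈ II 𝒞 a b, ∀ q : Set X, T ∩ side p a = T ∩ side q a →
      ∀ u ∈ T, u ∈ side p b → u ∉ side q a := fun p hp q e u hu h1 h2 => by
    have h3 : u ∈ T ∩ side p a := e ▸ ⟨hu, h2⟩
    exact disjoint_left.1 (II.disj hp) h3.2 h1
  rcases II.tri F ha hb hp hq with h1 | h1 | h1
  · exact absurd h1 hne
  · exact ⟨p, hp, q, hq, h1, key p hp q he⟩
  · exact ⟨q, hq, p, hp, h1, key q hq p he.symm⟩

end Pool.Agent.Lib.MP_e1e491_gt.KS
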