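import Pool.Agent.Lib.MP_e1e491_gt.KSDefs

/-! The order of the members that separate two points. -/

noncomputable section

namespace Pool.Agent.Lib.MP_e1e491_gt.KS

open Set Metric Topology Filter
open scoped Pointwise Classical

variable {X : Type} [TopologicalSpace X] [ConnectedSpace X] [LocallyConnectedSpace X]
  {𝒞 : Set (Set X)} {a b : X} {p q r r' t : Set X}

theorem side_disj (r : Set X) (x : X) : Disjoint (side r x) r := by
  exact disjoint_left.2 fun _ h => connectedComponentIn_subset _ _ h

theorem mem_side_self {x : X} (h : x ∉ r) : x ∈ side r x := by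
  exact mem_connectedComponentIn h

theorem side_conn (r : Set X) (x : X) : IsPreconnected (side r x) := by
  exact isPreconnected_connectedComponentIn

theorem side_eq {x y : X} (h : y ∈ side r x) : side r y = side r x := by
  exact (connectedComponentIn_eq h).symm

theorem side_symm {x y : X} (h : y ∈ side r x) : x ∈ side r y := by
  rw [side_eq h]
  exact mem_connectedComponentIn (connectedComponentIn_nonempty_iff.1 ⟨y, h⟩)

theorem sub_side {x y : X} {K : Set X} (hK : IsPreconnected K) (hd : Disjoint K r) (h1 : y ∈ K)
    (h2 : y ∈ side r x) : K ⊆ side r x := by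
  rw [← side_eq h2]
  exact hK.subset_connectedComponentIn h1 hd.subset_compl_right

theorem side_open (hr : IsClosed r) (x : X) : IsOpen (side r x) := by
  exact hr.isOpen_compl.connectedComponentIn

theorem closure_side (hr : IsClosed r) (x : X) : closure (side r x) ⊆ side r x ∪ r := by
  intro z hz
  by_cases e : z ∈ r
  · exact Or.inr e
  · obtain ⟨w, h1, h2⟩ := mem_closure_iff.1 hz _ (side_open hr z) (mem_side_self e)
    exact Or.inl (side_eq h2 ▸ side_symm h1)

/-- If the side is not empty its closure meets `r`, since `X` is connected. -/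
theorem side_union (hr : IsClosed r) (hc : IsPreconnected r) (hn : r.Nonempty) (x : X) :
    IsPreconnected (side r x ∪ r) := by
  by_cases e : (closure (side r x) ∩ r).Nonempty
  · obtain ⟨z, h1, h2⟩ := e
    have h3 : IsPreconnected (insert z (side r x)) :=
      (side_conn r x).subset_closure (subset_insert _ _) (insert_subset h1 subset_closure)
    have h4 := h3.union z (mem_insert _ _) h2 hc
    rwa [insert_union, insert_eq_of_mem (mem_union_right _ h2)] at h4
  · have h1 : IsClosed (side r x) := closure_subset_iff_isClosed.1 fun z hz =>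
      (closure_side hr x hz).resolve_right fun h => e ⟨z, hz, h⟩
    rcases isClopen_iff.1 ⟨h1, side_open hr x⟩ with h2 | h2
    · rwa [h2, empty_union]
    · obtain ⟨z, hz⟩ := hn
      exact absurd hz (disjoint_left.1 (side_disj r x) (h2 ▸ mem_univ z))

/-- The complement is the union of the sets `side r y ∪ r` over the other sides. -/
theorem compl_side (hr : IsClosed r) (hc : IsPreconnected r) (hn : r.Nonempty) (x : X) :
    IsPreconnected (side r x)ᶜ := by
  obtain ⟨z, hz⟩ := id hn
  have h1 : r ⊆ (side r x)ᶜ := (side_disj r x).subset_compl_left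
  refine isPreconnected_of_forall z fun y hy => ?_
  by_cases e : y ∈ r
  · exact ⟨r, h1, hz, e, hc⟩
  · refine ⟨side r y ∪ r, union_subset (fun w h2 h3 => hy ?_) h1, Or.inr hz,
      Or.inl (mem_side_self e), side_union hr hc hn y⟩
    exact side_eq h3 ▸ side_symm h2

theorem II_symm (a b : X) : II 𝒞 a b = II 𝒞 b a := by
  ext r
  exact and_congr_right fun _ => not_congr ⟨side_symm, side_symm⟩

theorem II.disj (hr : r ∈ II 𝒞 a b) : Disjoint (side r a) (side r b) := by
  exact disjoint_left.2 fun z h1 h2 => hr.2 (side_eq h1 ▸ side_symm h2)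

end Pool.Agent.Lib.MP_e1e491_gt.KS
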