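import Pool.Agent.Lib.MP_e1e491_gt.KSX
import Pool.Agent.Lib.MP_e1e491_gt.KSO

/-! Consequences of the convergence property. -/

noncomputable section

namespace Pool.Agent.Lib.MP_e1e491_gt.KS

open Set Metric Topology Filter
open scoped Pointwise Classical

variable {Z J G : Type} [MetricSpace Z] [CompactSpace Z] [Group G] {Γ : Geo Z J}
  [MulAction G Z] [MulAction G J] [ContinuousConstSMul G Z] {R : Z → Z → Prop}

theorem Att.inv {ε : ℝ} {g : G} {x y : Z} (h : Att ε g x y) : Att ε g⁻¹ y x := by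
  intro z hz
  by_contra hc
  have h1 := h (g⁻¹ • z) (not_lt.1 hc)
  rw [smul_inv_smul] at h1
  exact absurd h1 (not_lt.2 hz)

/-- One of the two sets is far from the repelling point. -/
theorem Act.nn (A : Act Γ G) {S T : Set Z} (hS : IsClosed S) (hT : IsClosed T) (h : Disjoint S T)
    {δ : ℝ} (hδ : 0 < δ) : {g : G | Big δ (g • S) ∧ Big δ (g • T)}.Finite := by
  obtain ⟨r, hr, hr'⟩ := Metric.exists_pos_forall_lt_edist hS.isCompact hT h
  have hr0 : (0 : ℝ) < r := hr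
  have hd : ∀ x ∈ S, ∀ y ∈ T, (r : ℝ) < dist x y := by
    intro x hx y hy
    have h1 := hr' x hx y hy
    rw [edist_nndist] at h1
    exact_mod_cast h1
  have hε : 0 < min (r : ℝ) δ / 2 := by positivity
  have e1 : min (r : ℝ) δ ≤ r := min_le_left _ _
  have e2 : min (r : ℝ) δ ≤ δ := min_le_right _ _
  refine (A.conv _ hε).subset ?_
  rintro g ⟨hgS, hgT⟩ ⟨x, y, hxy⟩
  have key : ∀ U : Set Z, Big δ (g • U) → ∃ z ∈ U, dist z y < min (r : ℝ) δ / 2 := by
    intro U hU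
    by_contra hc
    push Not at hc
    obtain ⟨a, ⟨a', ha', rfl⟩, b, ⟨b', hb', rfl⟩, hab⟩ := hU
    have h1 := hxy a' (hc a' ha')
    have h2 := hxy b' (hc b' hb')
    have h3 := dist_triangle_right (g • a') (g • b') x
    have h4 : δ ≤ dist (g • a') (g • b') := hab
    linarith
  obtain ⟨s, hs, hs'⟩ := key S hgS
  obtain ⟨t, ht, ht'⟩ := key T hgT
  have h1 := hd s hs t ht
  have h2 := dist_triangle_right s t y
  linarith

theorem Act.nn_holes (A : Act Γ G) {J1 J2 : Set J} (h1 : J1.Finite) (h2 : J2.Finite) :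
    {g : G | ∃ i ∈ J1, ∃ j ∈ J1, i ≠ j ∧ g • i ∈ J2 ∧ g • j ∈ J2}.Finite := by
  have hb : ∀ᶠ δ in 𝓝[>] (0 : ℝ), ∀ a ∈ J2, Big δ (Γ.P a) := by
    rw [eventually_all_finite h2]
    intro a _
    obtain ⟨x, hx, y, hy, hxy⟩ := Γ.two a
    have hp : 0 < dist x y := dist_pos.2 hxy
    filter_upwards [Ioo_mem_nhdsGT hp] with δ hδ
    exact ⟨x, hx, y, hy, hδ.2.le⟩
  obtain ⟨δ, hδ, hδ0⟩ := (hb.and self_mem_nhdsWithin).exists
  have hδ1 : 0 < δ := hδ0
  have hf : (⋃ i ∈ J1, ⋃ j ∈ J1, {g : G | i ≠ j ∧ g • i ∈ J2 ∧ g • j ∈ J2}).Finite := by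
    refine h1.biUnion fun i _ => h1.biUnion fun j _ => ?_
    by_cases hij : i = j
    · simp [hij]
    · refine (A.nn (Γ.closed_P i) (Γ.closed_P j) (Γ.disj_P hij) hδ1).subset ?_
      rintro g ⟨-, hi, hj⟩
      refine ⟨?_, ?_⟩
      · rw [A.perm]; exact hδ _ hi
      · rw [A.perm]; exact hδ _ hj
  refine hf.subset ?_
  rintro g ⟨i, hi, j, hj, hg⟩
  simp only [mem_iUnion]
  exact ⟨i, hi, j, hj, hg⟩

theorem kspin1_conn (c : ℂ) {r : ℝ} (hr : 0 < r) : IsPreconnected {z : ℂ | r < dist z c} := by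
  have h1 : IsPreconnected (sphere (0 : ℂ) 1 ×ˢ Ioi r) :=
    (isPreconnected_sphere (by rw [Complex.rank_real_complex]; norm_num) _ _).prod
      isPreconnected_Ioi
  have h2 := h1.image (fun p : ℂ × ℝ => c + p.2 • p.1) (by fun_prop)
  convert h2 using 1
  ext z
  constructor
  · intro hz
    have hz' : r < ‖z - c‖ := by simpa [dist_eq_norm] using hz
    have h0 : ‖z - c‖ ≠ 0 := (hr.trans hz').ne'
    refine ⟨(‖z - c‖⁻¹ • (z - c), ‖z - c‖), ⟨?_, hz'⟩, ?_⟩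
    · simp only [mem_sphere_zero_iff_norm, norm_smul, norm_inv, norm_norm]
      exact inv_mul_cancel₀ h0
    · simp only [smul_smul, mul_inv_cancel₀ h0, one_smul]
      ring
  · rintro ⟨⟨u, t⟩, ⟨hu, ht⟩, rfl⟩
    have hu' : ‖u‖ = 1 := by simpa using hu
    have ht' : r < t := ht
    show r < dist (c + t • u) c
    rw [dist_self_add_left, norm_smul, hu', mul_one, Real.norm_eq_abs, abs_of_pos (hr.trans ht')]
    exact ht'

/-- Both holes contain discs of radius `ρ`. A set of small diameter lies in a closed disc of radius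
less than `ρ`, whose complement is connected and meets both holes. -/
theorem Geo.big (Γ : Geo Z J) (i j : J) : ∃ δ > 0, ∀ C : Set Z,
    Γ.h j ∉ side (Γ.l '' C) (Γ.h i) → Big δ C := by
  obtain ⟨u, hu⟩ := Γ.nD i
  obtain ⟨v, hv⟩ := Γ.nD j
  obtain ⟨r1, hr1, hb1⟩ := Metric.isOpen_iff.1 (Γ.oD i) u hu
  obtain ⟨r2, hr2, hb2⟩ := Metric.isOpen_iff.1 (Γ.oD j) v hv
  have hρ : 0 < min r1 r2 / 2 := by positivity
  have e1 : min r1 r2 ≤ r1 := min_le_left _ _
  have e2 : min r1 r2 ≤ r2 := min_le_right _ _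
  obtain ⟨δ, hδ, hδ'⟩ := Metric.uniformContinuous_iff.1
    (CompactSpace.uniformContinuous_of_continuous Γ.ce) _ hρ
  refine ⟨δ, hδ, fun C hC => ?_⟩
  by_contra hB
  apply hC
  rw [← Γ.π_D hu, ← Γ.π_D hv, Γ.mem_side, Γ.pre_l]
  rcases C.eq_empty_or_nonempty with rfl | ⟨c, hc⟩
  · exact ⟨univ, isPreconnected_univ, by simp, mem_univ _, mem_univ _⟩
  · refine ⟨{z | min r1 r2 / 2 < dist z (Γ.e c)}, kspin1_conn _ hρ, ?_, ?_, ?_⟩
    · rw [Set.disjoint_left]
      rintro z hz ⟨s, hs, rfl⟩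
      have h1 : dist s c < δ := by
        by_contra h1
        exact hB ⟨s, hs, c, hc, not_lt.1 h1⟩
      exact absurd (hδ' h1) (not_lt.2 (le_of_lt hz))
    · have h1 : Γ.e c ∉ ball u r1 := fun h1 => Γ.e_notMem c i (hb1 h1)
      rw [mem_ball, dist_comm, not_lt] at h1
      show min r1 r2 / 2 < dist u (Γ.e c)
      linarith
    · have h1 : Γ.e c ∉ ball v r2 := fun h1 => Γ.e_notMem c j (hb2 h1)
      rw [mem_ball, dist_comm, not_lt] at h1
      show min r1 r2 / 2 < dist v (Γ.e c)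
      linarith

theorem Act.famAct (A : Act Γ G) (h : Dec G R) : FamAct (Γ.cl R) G := by
  refine ⟨?_, ?_, A.fin⟩
  · rintro g r ⟨x, rfl⟩
    exact ⟨g • x, by rw [Γ.smul_image, h.smul_cls]⟩
  · intro a b ha hb p hp q hq hpq
    obtain ⟨i, rfl⟩ := (Γ.free_iff h).1 ha
    obtain ⟨j, rfl⟩ := (Γ.free_iff h).1 hb
    obtain ⟨δ, hδ, hδ'⟩ := Γ.big i j
    have hd := (h.fam Γ).disj p hp q hq hpq
    obtain ⟨x, rfl⟩ := hp
    obtain ⟨y, rfl⟩ := hq
    have hcl : ∀ x : Z, IsClosed {y | R x y} := fun x =>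
      h.closed.preimage (f := fun y : Z => (x, y)) (by fun_prop)
    refine (A.nn (hcl x) (hcl y) ((disjoint_image_iff Γ.l_inj).1 hd) hδ).subset ?_
    rintro g ⟨h1, h2⟩
    refine ⟨hδ' _ ?_, hδ' _ ?_⟩
    · rw [← Γ.smul_image]; exact h1.2
    · rw [← Γ.smul_image]; exact h2.2

end Pool.Agent.Lib.MP_e1e491_gt.KS
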