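import Pool.Agent.Lib.MP_e1e491_gt.KSX

/-! Small routes, and boundary bumping. -/

noncomputable section

namespace Pool.Agent.Lib.MP_e1e491_gt.KS

open Set Metric Topology Filter
open scoped Pointwise Classical

variable {Z J G : Type} [MetricSpace Z] [CompactSpace Z] [Group G] {Γ : Geo Z J}
  [MulAction G Z] [MulAction G J] [ContinuousConstSMul G Z]

/-- Let `Y1` be the preimage of `T`; it is connected (`pre_conn`). Let `Y` be the union of the part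
of `Y1` in the range of `e` with the sets `E j` of `ulc` for the holes in `T`. These holes meet the
ball of radius `δ` (`meet`). A continuous function from `Y` to `Bool` extends to `Y1` by its value
on `E j`; inside the ball of radius `δ` the sets `Y` and `Y1` agree, and the holes are open. -/
theorem Geo.shrink (Γ : Geo Z J) {ε : ℝ} (hε : 0 < ε) : ∃ δ > 0, ∀ (x : ℂ) (T : Set Γ.X),
    IsPreconnected T → (∃ s, Γ.l s ∈ T) → (∀ s, Γ.l s ∈ T → Γ.e s ∈ ball x δ) →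
    ∃ Y, IsPreconnected Y ∧ Y ⊆ ball x ε ∧ Y ⊆ Γ.π ⁻¹' T ∧ Γ.π ⁻¹' T ∩ ball x δ ⊆ Y := by
  obtain ⟨δ0, hδ0, hE⟩ := Γ.ulc ε hε
  refine ⟨min δ0 ε, lt_min hδ0 hε, fun x T hT hs hb => ?_⟩
  choose E hEc hE1 hE2 using fun j => hE j x
  set B := ball x (min δ0 ε) with hB
  have hB0 : B ⊆ ball x δ0 := ball_subset_ball (min_le_left _ _)
  have hBε : B ⊆ ball x ε := ball_subset_ball (min_le_right _ _)
  have hY1 := Γ.pre_conn hT
  have hZ : ∀ z ∈ Γ.π ⁻¹' T, z ∈ range Γ.e → z ∈ B := by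
    rintro z hz ⟨s, rfl⟩
    exact hb s (by rwa [mem_preimage, Γ.π_e] at hz)
  have hEY : ∀ j, Γ.h j ∈ T → E j ⊆ Γ.π ⁻¹' T ∩ (range Γ.e ∪ ⋃ j, E j) := by
    intro j hj z hz
    refine ⟨?_, Or.inr (mem_iUnion.2 ⟨j, hz⟩)⟩
    rw [mem_preimage, Γ.π_D (hE2 j hz).1]
    exact hj
  have hEn : ∀ j, Γ.h j ∈ T → (E j).Nonempty := by
    intro j hj
    obtain ⟨z, hz⟩ := Γ.nD j
    obtain ⟨s, hs⟩ := hs
    obtain ⟨t, ht, ht'⟩ := Γ.meet hY1 (j := j)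
      ⟨z, by rw [mem_preimage, Γ.π_D hz]; exact hj, hz⟩
      (fun h => Γ.e_notMem s j (h (by rw [mem_preimage, Γ.π_e]; exact hs)))
    obtain ⟨w, hw, hw'⟩ := mem_closure_iff.1 ht B isOpen_ball (hZ _ ht' ⟨t, rfl⟩)
    exact ⟨w, hE1 j ⟨hw', hB0 hw⟩⟩
  refine ⟨Γ.π ⁻¹' T ∩ (range Γ.e ∪ ⋃ j, E j), ?_, ?_, inter_subset_left, ?_⟩
  · let ex : Set ℂ → Set ℂ := fun U => (U ∩ B) ∪ ⋃ j ∈ {j | (E j ∩ U).Nonempty}, Γ.D j
    have ho : ∀ U, IsOpen U → IsOpen (ex U) := fun U hU =>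
      (hU.inter isOpen_ball).union (isOpen_biUnion fun j _ => Γ.oD j)
    have hD : ∀ U j z, z ∈ Γ.D j → (E j ∩ U).Nonempty → z ∈ ex U := fun U j z hz h =>
      Or.inr (mem_biUnion h hz)
    have hne : ∀ U, (Γ.π ⁻¹' T ∩ (range Γ.e ∪ ⋃ j, E j) ∩ U).Nonempty →
        (Γ.π ⁻¹' T ∩ ex U).Nonempty := by
      rintro U ⟨z, ⟨hz1, hz2 | hz2⟩, hz3⟩
      · exact ⟨z, hz1, Or.inl ⟨hz3, hZ z hz1 hz2⟩⟩
      · obtain ⟨j, hj⟩ := mem_iUnion.1 hz2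
        exact ⟨z, hz1, hD U j z (hE2 j hj).1 ⟨z, hj, hz3⟩⟩
    have hl : ∀ U z, z ∈ range Γ.e → z ∈ ex U → z ∈ U := by
      rintro U z ⟨s, rfl⟩ (h | h)
      · exact h.1
      · obtain ⟨j, -, hj⟩ := mem_iUnion₂.1 h
        exact absurd hj (Γ.e_notMem s j)
    have hh : ∀ U j z, z ∈ Γ.D j → z ∈ ex U → (E j ∩ U).Nonempty := by
      rintro U j z hz (h | h)
      · exact ⟨z, hE1 j ⟨hz, hB0 h.2⟩, h.1⟩
      · obtain ⟨i, hi, hi'⟩ := mem_iUnion₂.1 h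
        have : i = j := Γ.h_inj ((Γ.π_D hi').symm.trans (Γ.π_D hz))
        exact this ▸ hi
    intro U V hU hV hc h1 h2
    have hc' : Γ.π ⁻¹' T ⊆ ex U ∪ ex V := by
      intro z hz
      by_cases hr : z ∈ range Γ.e
      · rcases hc ⟨hz, Or.inl hr⟩ with h | h
        · exact Or.inl (Or.inl ⟨h, hZ z hz hr⟩)
        · exact Or.inr (Or.inl ⟨h, hZ z hz hr⟩)
      · obtain ⟨j, hj⟩ := (Γ.cover z).1 hr
        have hjT : Γ.h j ∈ T := by rwa [mem_preimage, Γ.π_D hj] at hz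
        obtain ⟨w, hw⟩ := hEn j hjT
        rcases hc (hEY j hjT hw) with h | h
        · exact Or.inl (hD U j z hj ⟨w, hw, h⟩)
        · exact Or.inr (hD V j z hj ⟨w, hw, h⟩)
    obtain ⟨z, hz, hzU, hzV⟩ := hY1 _ _ (ho U hU) (ho V hV) hc' (hne U h1) (hne V h2)
    by_cases hr : z ∈ range Γ.e
    · exact ⟨z, ⟨hz, Or.inl hr⟩, hl U z hr hzU, hl V z hr hzV⟩
    · obtain ⟨j, hj⟩ := (Γ.cover z).1 hr
      have hjT : Γ.h j ∈ T := by rwa [mem_preimage, Γ.π_D hj] at hz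
      obtain ⟨w, hw, hw'⟩ := hEc j U V hU hV ((hEY j hjT).trans hc) (hh U j z hj hzU)
        (hh V j z hj hzV)
      exact ⟨w, hEY j hjT hw, hw'⟩
  · rintro z ⟨hz1, hz2 | hz2⟩
    · exact hBε (hZ z hz1 hz2)
    · obtain ⟨j, hj⟩ := mem_iUnion.1 hz2
      exact (hE2 j hj).2
  · rintro z ⟨hz1, hz2⟩
    refine ⟨hz1, ?_⟩
    by_cases hr : z ∈ range Γ.e
    · exact Or.inl hr
    · obtain ⟨j, hj⟩ := (Γ.cover z).1 hr
      exact Or.inr (mem_iUnion.2 ⟨j, hE1 j ⟨hj, hB0 hz2⟩⟩)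

/-- A compact route inside a side (open connected subsets of the plane are path connected). -/
theorem Geo.route (Γ : Geo Z J) {r : Set Γ.X} (hr : IsClosed r) {a b : Γ.X} (h : b ∈ side r a) :
    ∃ T, IsPreconnected T ∧ a ∈ T ∧ b ∈ T ∧ T ⊆ side r a ∧ IsClosed (Γ.l ⁻¹' T) := by
  have := Γ.lconn
  obtain ⟨u, rfl⟩ := Γ.isQuotientMap_π.surjective a
  obtain ⟨v, rfl⟩ := Γ.isQuotientMap_π.surjective b
  have hc := Γ.isQuotientMap_π.continuous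
  have ha : Γ.π u ∈ side r (Γ.π u) :=
    mem_connectedComponentIn (connectedComponentIn_nonempty_iff.1 ⟨_, h⟩)
  have ho : IsOpen (Γ.π ⁻¹' side r (Γ.π u)) :=
    (hr.isOpen_compl.connectedComponentIn).preimage hc
  have hp : IsPathConnected (Γ.π ⁻¹' side r (Γ.π u)) :=
    ho.isConnected_iff_isPathConnected.1
      ⟨⟨u, ha⟩, Γ.pre_conn isPreconnected_connectedComponentIn⟩
  obtain ⟨γ, hγ⟩ := hp.joinedIn u ha v h
  refine ⟨Γ.π '' range γ, (isPreconnected_range γ.continuous).image _ hc.continuousOn,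
    ⟨u, γ.source_mem_range, rfl⟩, ⟨v, γ.target_mem_range, rfl⟩, ?_, ?_⟩
  · rintro _ ⟨_, ⟨t, rfl⟩, rfl⟩
    exact hγ t
  · have e : Γ.l ⁻¹' (Γ.π '' range γ) = Γ.e ⁻¹' range γ := by
      ext s
      constructor
      · rintro ⟨z, hz, hz'⟩
        rw [Γ.π_eq_l] at hz'
        rwa [mem_preimage, ← hz']
      · exact fun hs => ⟨_, hs, Γ.π_e s⟩
    rw [e]
    exact (isCompact_range γ.continuous).isClosed.preimage Γ.ce

/-- A connected set with two different holes has a point of `Z`. -/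
theorem Geo.has_l (Γ : Geo Z J) {T : Set Γ.X} (hT : IsPreconnected T) {i j : J} (hij : i ≠ j)
    (hi : Γ.h i ∈ T) (hj : Γ.h j ∈ T) : ∃ s, Γ.l s ∈ T := by
  obtain ⟨z, hz⟩ := Γ.nD i
  obtain ⟨w, hw⟩ := Γ.nD j
  obtain ⟨s, -, hs⟩ := Γ.meet (Γ.pre_conn hT) (j := i)
    ⟨z, by rw [mem_preimage, Γ.π_D hz]; exact hi, hz⟩
    (fun h => hij (Γ.h_inj ((Γ.π_D (h (by rw [mem_preimage, Γ.π_D hw]; exact hj))).symm.trans
      (Γ.π_D hw))))
  exact ⟨s, by rwa [mem_preimage, Γ.π_e] at hs⟩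

end Pool.Agent.Lib.MP_e1e491_gt.KS
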