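import Pool.Agent.Lib.MP_e1e491_gt.KSO

/-! The stabiliser of a member that is a limit from one side is finite. -/

noncomputable section

namespace Pool.Agent.Lib.MP_e1e491_gt.KS

open Set Metric Topology Filter
open scoped Pointwise Classical

variable {X G : Type} [TopologicalSpace X] [ConnectedSpace X] [LocallyConnectedSpace X]
  [Group G] [MulAction G X] [ContinuousConstSMul G X]
  {𝒞 : Set (Set X)} {a b : X} {p q r t : Set X}

theorem smul_side (g : G) (r : Set X) (x : X) : g • side r x = side (g • r) (g • x) := by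
  by_cases hx : x ∈ r
  · have h1 : side r x = ∅ := connectedComponentIn_eq_empty (fun h => h hx)
    have h2 : side (g • r) (g • x) = ∅ :=
      connectedComponentIn_eq_empty (fun h => h (smul_mem_smul_set hx))
    rw [h1, h2, smul_set_empty]
  · have h1 := (Homeomorph.smul g).image_connectedComponentIn (s := rᶜ) (x := x) hx
    unfold side
    rw [← smul_set_compl]
    exact h1

theorem Sp.smul (h : Sp t p q) (g : G) : Sp (g • t) (g • p) (g • q) := by
  refine ⟨disjoint_smul_set.2 h.1, disjoint_smul_set.2 h.2.1, ?_⟩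
  rintro _ ⟨x, hx, rfl⟩ _ ⟨y, hy, rfl⟩
  rw [← smul_side, smul_mem_smul_set_iff]
  exact h.2.2 x hx y hy

theorem FamAct.free (A : FamAct 𝒞 G) (ha : Free 𝒞 a) (g : G) : Free 𝒞 (g • a) := by
  intro r hr h
  exact ha _ (A.inv g⁻¹ r hr) (mem_inv_smul_set_iff.2 h)

theorem FamAct.II_smul (A : FamAct 𝒞 G) (g : G) :
    g • r ∈ II 𝒞 (g • a) (g • b) ↔ r ∈ II 𝒞 a b := by
  change g • r ∈ 𝒞 ∧ g • b ∉ side (g • r) (g • a) ↔ r ∈ 𝒞 ∧ b ∉ side r a
  rw [← smul_side, smul_mem_smul_set_iff]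
  refine and_congr_left fun _ => ⟨fun h => ?_, A.inv g r⟩
  have h1 := A.inv g⁻¹ _ h
  rwa [inv_smul_smul] at h1

theorem ksstab_Es (A : FamAct 𝒞 G) (g : G) {u : X} (h : r ∈ Es 𝒞 a u b) :
    g • r ∈ Es 𝒞 (g • a) (g • u) (g • b) := by
  obtain ⟨h1, h2⟩ := h
  refine ⟨(A.II_smul g).2 h1, ?_⟩
  rw [← smul_side, ← smul_side, smul_mem_smul_set_iff, smul_mem_smul_set_iff]
  rcases h2 with ⟨h2, h3⟩ | h2 | ⟨h2, h3⟩
  · refine Or.inl ⟨h2, fun r' hr' hu => ?_⟩
    obtain ⟨r', rfl⟩ := MulAction.surjective g r'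
    rw [← smul_side, smul_mem_smul_set_iff] at hu
    exact (h3 r' ((A.II_smul g).1 hr') hu).imp (congrArg _) smul_set_mono
  · exact Or.inr (Or.inl h2)
  · refine Or.inr (Or.inr ⟨h2, fun r' hr' hu => ?_⟩)
    obtain ⟨r', rfl⟩ := MulAction.surjective g r'
    rw [← smul_side, smul_mem_smul_set_iff] at hu
    rw [← smul_side]
    exact (h3 r' ((A.II_smul g).1 hr') hu).imp (congrArg _) smul_set_mono

theorem FamAct.Es_smul (A : FamAct 𝒞 G) (g : G) (u : X) :
    g • r ∈ Es 𝒞 (g • a) (g • u) (g • b) ↔ r ∈ Es 𝒞 a u b := by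
  refine ⟨fun h => ?_, ksstab_Es A g⟩
  have h1 := ksstab_Es A g⁻¹ h
  rwa [inv_smul_smul, inv_smul_smul, inv_smul_smul, inv_smul_smul] at h1

/-- By induction `g ^ (n + 1) • r` separates `g ^ n • r` from `q` (`sp_iff`, `Sp.smul`), so the
members `g ^ n • r` increase strictly; this contradicts `nn` for the pair `r`, `q`. -/
theorem FamAct.not_sp (F : Fam 𝒞) (A : FamAct 𝒞 G) (ha : Free 𝒞 a) (hb : Free 𝒞 b)
    (hr : r ∈ II 𝒞 a b) (hq : q ∈ II 𝒞 a b) (hrq : r ⊆ side q a) {g : G} (hg : g • q = q) :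
    ¬ Sp (g • r) r q := by
  intro h
  have hq' : ∀ n : ℕ, g ^ n • q = q := fun n => (MulAction.stabilizer G q).pow_mem hg n
  have h1 : ∀ n : ℕ, Sp (g ^ (n + 1) • r) (g ^ n • r) q := fun n => by
    have h2 := h.smul (g ^ n)
    rwa [hq', smul_smul, ← pow_succ] at h2
  have h2 : ∀ n : ℕ, g ^ n • r ∈ II 𝒞 a b ∧ g ^ n • r ⊆ side q a := by
    intro n
    induction n with
    | zero => rw [pow_zero, one_smul]; exact ⟨hr, hrq⟩
    | succ n ih =>
      have h3 := (II.sp_iff F ha hb ih.1 hq ih.2 (A.inv _ _ hr.1)).1 (h1 n)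
      exact ⟨h3.1, h3.2.2⟩
  have h3 : ∀ n : ℕ, g ^ n • r ⊆ side (g ^ (n + 1) • r) a := fun n =>
    ((II.sp_iff F ha hb (h2 n).1 hq (h2 n).2 (A.inv _ _ hr.1)).1 (h1 n)).2.1
  have h4 : ∀ n m : ℕ, n < m → g ^ n • r ⊆ side (g ^ m • r) a := by
    intro n m hnm
    induction m, hnm using Nat.le_induction with
    | base => exact h3 n
    | succ m _ ih => exact ih.trans (II.mono F ha hb (h2 m).1 (h2 (m + 1)).1 (h3 m))
  have h5 : ∀ n m : ℕ, n < m → g ^ n ≠ g ^ m := fun n m hnm e => by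
    have h6 := h4 n m hnm
    rw [e] at h6
    exact II.irrefl F (h2 m).1.1 a h6
  have hne : r ≠ q := fun e => II.irrefl F hq.1 a (by rwa [e] at hrq)
  refine infinite_of_injective_forall_mem (f := fun n : ℕ => g ^ n) (fun n m e => ?_)
    (fun n => ?_) (A.nn a b ha hb r hr.1 q hq.1 hne)
  · rcases lt_trichotomy n m with h6 | h6 | h6
    · exact absurd e (h5 n m h6)
    · exact h6
    · exact absurd e.symm (h5 m n h6)
  · exact ⟨(h2 n).1, by rw [hq']; exact hq⟩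

/-- Fix `r1 ∈ L`. For `g` in the set take `r' ∈ L` with `g⁻¹ • r1 ⊆ side r' a` (one point is
enough, `sub_side`). For `r = r'` or later `g • r` separates `r1` from `q`, so it is comparable with
`r`, and `not_sp` for `g` and `g⁻¹` gives `g • r = r`. The subgroups of the elements that fix `q`
and all members of `L` from `r'` on are finite (`nn`), have order at most `N`, and increase. -/
theorem FamAct.stab (F : Fam 𝒞) (A : FamAct 𝒞 G) (ha : Free 𝒞 a) (hb : Free 𝒞 b)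
    {L : Set (Set X)} (hL : L ⊆ II 𝒞 a b) (hn : L.Nonempty)
    (hm : ∀ r ∈ L, ∃ r' ∈ L, r ⊆ side r' a) (hq : q ∈ II 𝒞 a b)
    (hU : side q a = ⋃ r ∈ L, side r a) :
    {g : G | g • q = q ∧ g • side q a = side q a}.Finite := by
  have hLq : ∀ r ∈ L, r ⊆ side q a := fun r hr => by
    obtain ⟨r', h1, h2⟩ := hm r hr
    rw [hU]
    exact h2.trans (subset_biUnion_of_mem (u := fun r => side r a) h1)
  let H : Set X → Subgroup G := fun r' =>
    { carrier := {g | g • q = q ∧ ∀ r ∈ L, (r = r' ∨ r' ⊆ side r a) → g • r = r}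
      one_mem' := ⟨one_smul _ _, fun r _ _ => one_smul _ _⟩
      mul_mem' := fun h1 h2 => ⟨by rw [mul_smul, h2.1, h1.1], fun r hr e => by
        rw [mul_smul, h2.2 r hr e, h1.2 r hr e]⟩
      inv_mem' := fun h1 => ⟨inv_smul_eq_iff.2 h1.1.symm, fun r hr e =>
        inv_smul_eq_iff.2 (h1.2 r hr e).symm⟩ }
  have hH : ∀ r' g, g ∈ H r' ↔ g • q = q ∧ ∀ r ∈ L, (r = r' ∨ r' ⊆ side r a) → g • r = r :=
    fun _ _ => Iff.rfl
  have hfin : ∀ r ∈ L, (H r : Set G).Finite := fun r hr => by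
    have hne : r ≠ q := fun e => II.irrefl F hq.1 a (by have := hLq r hr; rwa [e] at this)
    refine (A.nn a b ha hb r (hL hr).1 q hq.1 hne).subset fun g hg => ?_
    obtain ⟨h1, h2⟩ := (hH r g).1 hg
    exact ⟨by rw [h2 r hr (Or.inl rfl)]; exact hL hr, by rw [h1]; exact hq⟩
  have hmono : ∀ r₁ ∈ L, ∀ r₂ ∈ L, r₁ ⊆ side r₂ a → ∀ g ∈ H r₁, g ∈ H r₂ := by
    intro r₁ h1 r₂ h2 h12 g hg
    refine (hH _ _).2 ⟨hg.1, fun r hr e => hg.2 r hr (Or.inr ?_)⟩
    rcases e with rfl | e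
    · exact h12
    · exact h12.trans (II.mono F ha hb (hL h2) (hL hr) e)
  obtain ⟨r₁, hr₁⟩ := hn
  have hmem : ∀ g : G, g • q = q → g • side q a = side q a → ∃ r' ∈ L, g ∈ H r' := by
    intro g hg hg'
    have hc : g⁻¹ • r₁ ∈ 𝒞 := A.inv _ _ (hL hr₁).1
    obtain ⟨x, hx⟩ := F.ne _ hc
    have hxq : x ∈ side q a := by
      rw [← inv_smul_eq_iff.2 hg'.symm]
      exact smul_set_mono (hLq r₁ hr₁) hx
    rw [hU] at hxq
    obtain ⟨r', hr', hx'⟩ := mem_iUnion₂.1 hxq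
    refine ⟨r', hr', (hH _ _).2 ⟨hg, fun r hr e => ?_⟩⟩
    have hxr : x ∈ side r a := by
      rcases e with rfl | e
      · exact hx'
      · exact II.mono F ha hb (hL hr') (hL hr) e hx'
    have hsub : g⁻¹ • r₁ ⊆ side r a := by
      refine sub_side (F.conn _ hc) (F.disj _ hc _ (hL hr).1 fun e' => ?_) hx hxr
      exact disjoint_left.1 (side_disj r a) hxr (e' ▸ hx)
    have hqr : q ⊆ side r b := (II.lt_iff F ha hb (hL hr) hq).1 (hLq r hr)
    have h1 : Sp r (g⁻¹ • r₁) q := ⟨((side_disj r a).mono_left hsub).symm,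
      ((side_disj r b).mono_left hqr).symm, fun y hy z hz hz' => by
        rw [side_eq (hsub hy)] at hz'
        exact disjoint_left.1 (II.disj (hL hr)) hz' (hqr hz)⟩
    have h2 := h1.smul g
    rw [smul_inv_smul, hg] at h2
    obtain ⟨h3, -, h4⟩ := (II.sp_iff F ha hb (hL hr₁) hq (hLq r₁ hr₁)
      (A.inv g r (hL hr).1)).1 h2
    rcases II.tri F ha hb (hL hr) h3 with h5 | h5 | h5
    · exact h5.symm
    · exact absurd ((II.sp_iff F ha hb (hL hr) hq (hLq r hr) h3.1).2 ⟨h3, h5, h4⟩)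
        (A.not_sp F ha hb (hL hr) hq (hLq r hr) hg)
    · have h6 := ((II.sp_iff F ha hb h3 hq h4 (hL hr).1).2 ⟨hL hr, h5, hLq r hr⟩).smul g⁻¹
      have hg1 : g⁻¹ • q = q := inv_smul_eq_iff.2 hg.symm
      rw [inv_smul_smul, hg1] at h6
      exact absurd h6 (A.not_sp F ha hb (hL hr) hq (hLq r hr) hg1)
  have key : ∀ T : Finset G, (∀ g ∈ T, g • q = q ∧ g • side q a = side q a) →
      ∃ r ∈ L, ∀ g ∈ T, g ∈ H r := by
    intro T
    induction T using Finset.induction_on with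
    | empty => exact fun _ => ⟨r₁, hr₁, fun g hg => absurd hg (Finset.notMem_empty g)⟩
    | insert g T _ ih =>
      intro hT
      obtain ⟨r, hr, h1⟩ := ih fun g' hg' => hT g' (Finset.mem_insert_of_mem hg')
      obtain ⟨h2, h3⟩ := hT g (Finset.mem_insert_self _ _)
      obtain ⟨r', hr', h4⟩ := hmem g h2 h3
      rcases II.tri F ha hb (hL hr) (hL hr') with h5 | h5 | h5
      · exact ⟨r, hr, Finset.forall_mem_insert _ _ _ |>.2 ⟨h5 ▸ h4, h1⟩⟩
      · exact ⟨r', hr', Finset.forall_mem_insert _ _ _ |>.2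
          ⟨h4, fun g' hg' => hmono r hr r' hr' h5 g' (h1 g' hg')⟩⟩
      · exact ⟨r, hr, Finset.forall_mem_insert _ _ _ |>.2 ⟨hmono r' hr' r hr h5 g h4, h1⟩⟩
  obtain ⟨N, hN⟩ := A.fin
  by_contra hinf
  obtain ⟨T, hT, hcard⟩ := Set.Infinite.exists_subset_card_eq hinf (N + 1)
  obtain ⟨r, hr, h1⟩ := key T fun g hg => hT hg
  have h2 : Nat.card (H r) ≤ N := hN _ (hfin r hr)
  have h3 := ncard_le_ncard (s := (T : Set G)) (fun g hg => h1 g hg) (hfin r hr)
  rw [ncard_coe_finset, hcard] at h3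
  exact absurd (h3.trans h2) (Nat.not_succ_le_self N)

end Pool.Agent.Lib.MP_e1e491_gt.KS
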