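import Pool.Agent.Lib.MP_e1e491_gt.KSX1

/-! The collapsed plane. -/

noncomputable section

namespace Pool.Agent.Lib.MP_e1e491_gt.KS

open Set Metric Topology Filter
open scoped Pointwise Classical

variable {Z J G : Type} [MetricSpace Z] [CompactSpace Z] [Group G] (Γ : Geo Z J)

variable [MulAction G Z] [MulAction G J]

theorem Geo.smul_l (g : G) (s : Z) : g • Γ.l s = Γ.l (g • s) := by
  rfl

theorem Geo.smul_h (g : G) (j : J) : g • Γ.h j = Γ.h (g • j) := by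
  rfl

theorem Geo.smul_image (g : G) (C : Set Z) : g • (Γ.l '' C) = Γ.l '' (g • C) := by
  simp only [← Set.image_smul, image_image]
  rfl

/-- Use `isOpen_iff'`. -/
theorem Act.cont [ContinuousConstSMul G Z] {Γ : Geo Z J} (h : Act Γ G) :
    ContinuousConstSMul G Γ.X := by
  refine ⟨fun g => continuous_def.2 fun U hU => Γ.isOpen_iff'.2 fun s hs => ?_⟩
  obtain ⟨ε, hε, h1⟩ := Γ.isOpen_iff'.1 hU (g • s) hs
  obtain ⟨δ, hδ, h2⟩ := Metric.continuous_iff.1 (continuous_const_smul g (T := Z)) s ε hε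
  refine ⟨δ, hδ, fun t ht => ⟨(h1 _ (h2 t ht)).1, fun j hj => (h1 _ (h2 t ht)).2 (g • j) ?_⟩⟩
  rw [← h.perm]
  exact smul_mem_smul_set hj

theorem Dec.smul_cls {R : Z → Z → Prop} (h : Dec G R) (g : G) (x : Z) :
    g • {y | R x y} = {y | R (g • x) y} := by
  ext y
  rw [mem_smul_set_iff_inv_smul_mem]
  exact ⟨fun e => by simpa using h.inv g _ _ e, fun e => by simpa using h.inv g⁻¹ _ _ e⟩

theorem Geo.free_h (R : Z → Z → Prop) (j : J) : Free (Γ.cl R) (Γ.h j) := by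
  rintro r ⟨x, rfl⟩ ⟨s, -, e⟩
  exact Γ.l_ne_h s j e

theorem Geo.free_iff {R : Z → Z → Prop} (h : Dec G R) {a : Γ.X} :
    Free (Γ.cl R) a ↔ ∃ j, a = Γ.h j := by
  refine ⟨fun ha => (Γ.cases a).resolve_left ?_, fun ⟨j, e⟩ => e ▸ Γ.free_h R j⟩
  rintro ⟨s, rfl⟩
  exact ha _ ⟨s, rfl⟩ ⟨s, h.eqv.refl s, rfl⟩

theorem ksx_hole (j : J) : {Γ.h j} ∈ 𝓝 (Γ.h j) :=
  (Γ.isOpen_iff'.2 fun s hs => absurd hs (Γ.l_ne_h s j)).mem_nhds rfl

theorem ksx_nhds (s : Z) {ε : ℝ} (hε : 0 < ε) :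
    ∃ U ∈ 𝓝 (Γ.l s), ∀ a, Γ.l a ∈ U → dist a s < ε := by
  have key : ∀ a, Γ.l a ∈ Γ.l '' ball s ε ∪ range Γ.h → dist a s < ε := by
    rintro a (⟨b, hb, e⟩ | ⟨j, e⟩)
    · exact Γ.l_inj e ▸ hb
    · exact absurd e.symm (Γ.l_ne_h a j)
  refine ⟨_, (Γ.isOpen_iff'.2 fun a ha => ?_).mem_nhds (Or.inl ⟨s, mem_ball_self hε, rfl⟩), key⟩
  obtain ⟨δ, hδ, h1⟩ := Metric.isOpen_iff.1 isOpen_ball a (key a ha)
  exact ⟨δ, hδ, fun t ht => ⟨Or.inl ⟨t, h1 ht, rfl⟩, fun j _ => Or.inr ⟨j, rfl⟩⟩⟩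

/-- For `usc`: the point of a hole is open; a ball of `Z` together with the holes whose circles
meet it is open (`isOpen_iff'`). -/
theorem Dec.fam {R : Z → Z → Prop} (h : Dec G R) : Fam (Γ.cl R) := by
  refine ⟨?_, ?_, ?_, ?_, fun x y hxy => ?_⟩
  · rintro r ⟨x, rfl⟩
    exact Γ.closed_l (h.closed.preimage (Continuous.prodMk_right x))
  · rintro r ⟨x, rfl⟩
    exact (h.conn x).image _ Γ.continuous_l.continuousOn
  · rintro r ⟨x, rfl⟩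
    exact ⟨_, x, h.eqv.refl x, rfl⟩
  · rintro r ⟨x, rfl⟩ r' ⟨x', rfl⟩ ne
    refine disjoint_left.2 ?_
    rintro _ ⟨y, h1, rfl⟩ ⟨y', h2, e⟩
    obtain rfl := Γ.l_inj e
    have h3 := h.eqv.trans h1 (h.eqv.symm h2)
    refine ne (congrArg _ (Set.ext fun z => ⟨h.eqv.trans (h.eqv.symm h3), h.eqv.trans h3⟩))
  · rcases Γ.cases x with ⟨s, rfl⟩ | ⟨j, rfl⟩
    · rcases Γ.cases y with ⟨t, rfl⟩ | ⟨j, rfl⟩
      · refine ⟨_, ⟨s, rfl⟩, ⟨s, h.eqv.refl s, rfl⟩, t, ?_, rfl⟩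
        refine h.closed.closure_subset (a := (s, t)) (Metric.mem_closure_iff.2 fun ε hε => ?_)
        obtain ⟨U, hU, h1⟩ := ksx_nhds Γ s hε
        obtain ⟨V, hV, h2⟩ := ksx_nhds Γ t hε
        obtain ⟨_, ⟨x, rfl⟩, ⟨_, ⟨a, ha, rfl⟩, ha'⟩, _, ⟨b, hb, rfl⟩, hb'⟩ := hxy U hU V hV
        refine ⟨(a, b), h.eqv.trans (h.eqv.symm ha) hb, ?_⟩
        rw [dist_comm, Prod.dist_eq]
        exact max_lt (h1 a ha') (h2 b hb')
      · obtain ⟨r, hr, -, _, h1, rfl⟩ := hxy _ univ_mem _ (ksx_hole Γ j)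
        exact absurd h1 (Γ.free_h R j r hr)
    · obtain ⟨r, hr, ⟨_, h1, rfl⟩, -⟩ := hxy _ (ksx_hole Γ j) _ univ_mem
      exact absurd h1 (Γ.free_h R j r hr)

end Pool.Agent.Lib.MP_e1e491_gt.KS
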