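import Pool.Agent.Lib.MP_e1e491_gt.KSDefs

/-! The collapsed plane. -/

noncomputable section

namespace Pool.Agent.Lib.MP_e1e491_gt.KS

open Set Metric Topology Filter
open scoped Pointwise Classical

variable {Z J G : Type} [MetricSpace Z] [CompactSpace Z] [Group G] (Γ : Geo Z J)

theorem Geo.ksx1_or (z : ℂ) : (∃ s, Γ.e s = z) ∨ ∃ j, z ∈ Γ.D j :=
  (em (z ∈ range Γ.e)).imp id (Γ.cover z).1

theorem Geo.π_e (s : Z) : Γ.π (Γ.e s) = Γ.l s := by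
  have h : Γ.e s ∈ range Γ.e := ⟨s, rfl⟩
  rw [Geo.π, dif_pos h, Γ.ie h.choose_spec]

theorem Geo.π_D {j : J} {z : ℂ} (h : z ∈ Γ.D j) : Γ.π z = Γ.h j := by
  have h1 := (Γ.cover z).2 ⟨j, h⟩
  rw [Geo.π, dif_neg h1]
  congr 1
  by_contra h2
  exact disjoint_left.1 (Γ.disj _ _ h2) (subset_closure ((Γ.cover z).1 h1).choose_spec)
    (subset_closure h)

theorem Geo.π_eq_l {z : ℂ} {s : Z} : Γ.π z = Γ.l s ↔ z = Γ.e s := by
  refine ⟨fun h => ?_, fun h => h ▸ Γ.π_e s⟩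
  rcases Γ.ksx1_or z with ⟨t, rfl⟩ | ⟨j, hj⟩
  · rw [Γ.π_e] at h
    rw [Sum.inl.inj h]
  · rw [Γ.π_D hj] at h
    exact absurd h Sum.inr_ne_inl

theorem Geo.π_eq_h {z : ℂ} {j : J} : Γ.π z = Γ.h j ↔ z ∈ Γ.D j := by
  refine ⟨fun h => ?_, Γ.π_D⟩
  rcases Γ.ksx1_or z with ⟨t, rfl⟩ | ⟨i, hi⟩
  · rw [Γ.π_e] at h
    exact absurd h Sum.inl_ne_inr
  · rw [Γ.π_D hi] at h
    exact Sum.inr.inj h ▸ hi

theorem Geo.cases (x : Γ.X) : (∃ s, x = Γ.l s) ∨ ∃ j, x = Γ.h j := by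
  rcases x with s | j
  · exact Or.inl ⟨s, rfl⟩
  · exact Or.inr ⟨j, rfl⟩

theorem Geo.l_inj : Function.Injective Γ.l := by
  exact Sum.inl_injective

theorem Geo.h_inj : Function.Injective Γ.h := by
  exact Sum.inr_injective

theorem Geo.l_ne_h (s : Z) (j : J) : Γ.l s ≠ Γ.h j := by
  exact Sum.inl_ne_inr

theorem Geo.e_notMem (s : Z) (j : J) : Γ.e s ∉ Γ.D j := by
  exact fun h => (Γ.cover _).2 ⟨j, h⟩ ⟨s, rfl⟩

theorem Geo.pre_l (C : Set Z) : Γ.π ⁻¹' (Γ.l '' C) = Γ.e '' C := by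
  ext z
  exact ⟨fun ⟨s, hs, h⟩ => ⟨s, hs, (Γ.π_eq_l.1 h.symm).symm⟩,
    fun ⟨s, hs, h⟩ => ⟨s, hs, (Γ.π_eq_l.2 h.symm).symm⟩⟩

theorem Geo.isQuotientMap_π : IsQuotientMap Γ.π := by
  refine ⟨⟨rfl⟩, fun x => ?_⟩
  rcases Γ.cases x with ⟨s, rfl⟩ | ⟨j, rfl⟩
  · exact ⟨_, Γ.π_e s⟩
  · exact ⟨_, Γ.π_D (Γ.nD j).choose_spec⟩

theorem Geo.isOpen_iff {U : Set Γ.X} : IsOpen U ↔ IsOpen (Γ.π ⁻¹' U) := by
  exact Iff.rfl

/-- The saturation of an open set is its union with the holes it meets. -/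
theorem Geo.isOpenMap_π : IsOpenMap Γ.π := by
  intro U hU
  rw [Γ.isOpen_iff, isOpen_iff_mem_nhds]
  rintro z ⟨u, hu, h⟩
  rcases Γ.ksx1_or z with ⟨t, rfl⟩ | ⟨j, hj⟩
  · rw [Γ.π_e, Γ.π_eq_l] at h
    exact mem_of_superset (hU.mem_nhds (h ▸ hu)) (subset_preimage_image _ _)
  · exact mem_of_superset ((Γ.oD j).mem_nhds hj) fun v hv =>
      ⟨u, hu, h.trans ((Γ.π_D hj).trans (Γ.π_D hv).symm)⟩

theorem Geo.continuous_l : Continuous Γ.l := by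
  exact (Γ.isQuotientMap_π.continuous.comp Γ.ce).congr Γ.π_e

theorem Geo.closed_l {C : Set Z} (h : IsClosed C) : IsClosed (Γ.l '' C) := by
  rw [← Γ.isQuotientMap_π.isClosed_preimage, Γ.pre_l]
  exact (h.isCompact.image Γ.ce).isClosed

theorem Geo.closed_P (j : J) : IsClosed (Γ.P j) := by
  exact isClosed_closure.preimage Γ.ce

theorem Geo.disj_P {i j : J} (h : i ≠ j) : Disjoint (Γ.P i) (Γ.P j) := by
  exact (Γ.disj i j h).preimage Γ.e

/-- A connected set that meets a hole and leaves it meets its circle: otherwise `D j` and the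
complement of its closure split `Y` (a point of the closure outside `D j` is in no hole). -/
theorem Geo.meet {Y : Set ℂ} (hY : IsPreconnected Y) {j : J} (h1 : (Y ∩ Γ.D j).Nonempty)
    (h2 : ¬ Y ⊆ Γ.D j) : ∃ s ∈ Γ.P j, Γ.e s ∈ Y := by
  by_contra hc
  refine h2 (hY.subset_left_of_subset_union (Γ.oD j) isClosed_closure.isOpen_compl
    (disjoint_compl_right.mono_left subset_closure) (fun y hy => ?_) h1)
  by_contra h3
  rw [mem_union, not_or, mem_compl_iff, not_not] at h3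
  rcases Γ.ksx1_or y with ⟨t, rfl⟩ | ⟨i, hi⟩
  · exact hc ⟨t, h3.2, hy⟩
  · exact disjoint_left.1 (Γ.disj i j fun e => h3.1 (e ▸ hi)) (subset_closure hi) h3.2

/-- Intrinsic description of the topology. From right to left: a point `v` of a hole near `e s`
is joined to `e s` by a short segment, which meets the circle of the hole (`meet`); `e` is a closed
embedding. -/
theorem Geo.isOpen_iff' {U : Set Γ.X} : IsOpen U ↔
    ∀ s, Γ.l s ∈ U → ∃ ε > 0, ∀ t, dist t s < ε → Γ.l t ∈ U ∧ ∀ j, t ∈ Γ.P j → Γ.h j ∈ U := by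
  rw [Γ.isOpen_iff]
  refine ⟨fun hU s hs => ?_, fun hU => isOpen_iff_mem_nhds.2 fun z hz => ?_⟩
  · obtain ⟨ε, hε, h⟩ := Metric.isOpen_iff.1 (hU.preimage Γ.ce) s
      (show Γ.π (Γ.e s) ∈ U from (Γ.π_e s).symm ▸ hs)
    refine ⟨ε, hε, fun t ht => ⟨Γ.π_e t ▸ h ht, fun j hj => ?_⟩⟩
    obtain ⟨v, h1, h2⟩ := _root_.mem_closure_iff.1 hj _ hU (h ht)
    exact Γ.π_D h2 ▸ h1
  rcases Γ.ksx1_or z with ⟨s, rfl⟩ | ⟨j, hj⟩
  · obtain ⟨ε, hε, h⟩ := hU s (Γ.π_e s ▸ hz)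
    have h1 := ball_mem_nhds s hε
    rw [(Γ.ce.isClosedEmbedding Γ.ie).isInducing.nhds_eq_comap, mem_comap] at h1
    obtain ⟨V, hV, h2⟩ := h1
    obtain ⟨δ, hδ, h3⟩ := Metric.mem_nhds_iff.1 hV
    refine mem_of_superset (ball_mem_nhds _ hδ) fun v hv => ?_
    rcases Γ.ksx1_or v with ⟨t, rfl⟩ | ⟨j, hj⟩
    · exact mem_preimage.2 ((Γ.π_e t).symm ▸ (h t (h2 (h3 hv))).1)
    · obtain ⟨t, h4, h5⟩ := Γ.meet (convex_ball (Γ.e s) δ).isPreconnected ⟨v, hv, hj⟩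
        fun h4 => Γ.e_notMem s j (h4 (mem_ball_self hδ))
      exact mem_preimage.2 ((Γ.π_D hj).symm ▸ (h t (h2 (h3 h5))).2 j h4)
  · exact mem_of_superset ((Γ.oD j).mem_nhds hj) fun v hv =>
      mem_preimage.2 ((Γ.π_D hv).symm ▸ Γ.π_D hj ▸ hz)

theorem Geo.conn : ConnectedSpace Γ.X := by
  exact Γ.isQuotientMap_π.surjective.connectedSpace Γ.isQuotientMap_π.continuous

/-- Images of balls under the open map `π`. -/
theorem Geo.lconn : LocallyConnectedSpace Γ.X := by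
  refine locallyConnectedSpace_iff_subsets_isOpen_isConnected.2 fun x U hU => ?_
  obtain ⟨z, rfl⟩ := Γ.isQuotientMap_π.surjective x
  obtain ⟨δ, hδ, h⟩ := Metric.mem_nhds_iff.1 (Γ.isQuotientMap_π.continuous.continuousAt hU)
  exact ⟨Γ.π '' ball z δ, image_subset_iff.2 h, Γ.isOpenMap_π _ isOpen_ball,
    mem_image_of_mem _ (mem_ball_self hδ), IsConnected.image ⟨⟨z, mem_ball_self hδ⟩,
      (convex_ball z δ).isPreconnected⟩ _ Γ.isQuotientMap_π.continuous.continuousOn⟩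

/-- The fibres of the open quotient map `π` are connected. -/
theorem Geo.pre_conn {T : Set Γ.X} (h : IsPreconnected T) : IsPreconnected (Γ.π ⁻¹' T) := by
  rintro u v hu hv h1 ⟨a, h2, h3⟩ ⟨b, h4, h5⟩
  obtain ⟨x, hx, ⟨a', h6, h7⟩, b', h8, h9⟩ := h _ _ (Γ.isOpenMap_π u hu) (Γ.isOpenMap_π v hv)
    (fun x hx => by
      obtain ⟨z, rfl⟩ := Γ.isQuotientMap_π.surjective x
      exact (h1 hx).imp (mem_image_of_mem _) (mem_image_of_mem _))
    ⟨_, h2, mem_image_of_mem _ h3⟩ ⟨_, h4, mem_image_of_mem _ h5⟩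
  have h10 : IsPreconnected (Γ.π ⁻¹' {x}) := by
    rcases Γ.cases x with ⟨s, rfl⟩ | ⟨j, rfl⟩
    · rw [show Γ.π ⁻¹' {Γ.l s} = {Γ.e s} from Set.ext fun _ => Γ.π_eq_l]
      exact isPreconnected_singleton
    · rw [show Γ.π ⁻¹' {Γ.h j} = Γ.D j from Set.ext fun _ => Γ.π_eq_h]
      exact Γ.cD j
  have h11 : Γ.π ⁻¹' {x} ⊆ Γ.π ⁻¹' T := preimage_mono (singleton_subset_iff.2 hx)
  exact (h10 u v hu hv (h11.trans h1) ⟨a', h7, h6⟩ ⟨b', h9, h8⟩).mono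
    (inter_subset_inter_left _ h11)

theorem Geo.mem_side {r : Set Γ.X} {u v : ℂ} : Γ.π v ∈ side r (Γ.π u) ↔
    ∃ K, IsPreconnected K ∧ Disjoint K (Γ.π ⁻¹' r) ∧ u ∈ K ∧ v ∈ K := by
  refine ⟨fun h => ⟨Γ.π ⁻¹' side r (Γ.π u), Γ.pre_conn isPreconnected_connectedComponentIn,
    (disjoint_compl_left.mono_left (connectedComponentIn_subset _ _)).preimage _,
    mem_connectedComponentIn (connectedComponentIn_nonempty_iff.1 ⟨_, h⟩), h⟩, ?_⟩
  rintro ⟨K, h1, h2, h3, h4⟩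
  exact (h1.image _ Γ.isQuotientMap_π.continuous.continuousOn).subset_connectedComponentIn
    (F := rᶜ) (mem_image_of_mem _ h3) (image_subset_iff.2 fun z hz h5 => disjoint_left.1 h2 hz h5)
    (mem_image_of_mem _ h4)

/-- One of the two closed sets misses the outer hole, so it is compact. -/
theorem Geo.apart {A B : Set Γ.X} (hA : IsClosed A) (hB : IsClosed B) (h : Disjoint A B) :
    ∃ ρ > 0, ∀ u v, Γ.π u ∈ A → Γ.π v ∈ B → ρ ≤ dist u v := by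
  have key : ∀ {A B : Set Γ.X}, IsClosed A → IsClosed B → Disjoint A B → Γ.h Γ.out ∉ A →
      ∃ ρ > 0, ∀ u v, Γ.π u ∈ A → Γ.π v ∈ B → ρ ≤ dist u v := fun {A B} hA hB h h1 => by
    obtain ⟨R, hR⟩ := Γ.hout
    have hc := Γ.isQuotientMap_π.continuous
    have h2 : IsCompact (Γ.π ⁻¹' A) := Metric.isCompact_of_isClosed_isBounded (hA.preimage hc)
      ((isBounded_ball (x := (0 : ℂ)) (r := R)).subset fun z hz => mem_ball_zero_iff.2
        (lt_of_not_ge fun h2 => h1 (Γ.π_D (hR z h2) ▸ hz)))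
    obtain ⟨r, hr, h3⟩ := exists_pos_forall_lt_edist h2 (hB.preimage hc) (h.preimage _)
    refine ⟨r, hr, fun u v hu hv => ?_⟩
    have h4 := (h3 u hu v hv).le
    rw [edist_nndist, ENNReal.coe_le_coe] at h4
    exact h4
  by_cases h1 : Γ.h Γ.out ∈ A
  · obtain ⟨ρ, h2, h3⟩ := key hB hA h.symm (disjoint_left.1 h h1)
    exact ⟨ρ, h2, fun u v hu hv => dist_comm u v ▸ h3 v u hv hu⟩
  · exact key hA hB h h1

end Pool.Agent.Lib.MP_e1e491_gt.KS
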