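import Pool.Agent.Lib.MP_e1e491_gt.LCPot

/-! A long geodesic leaves through two gates of the same level. -/

namespace KKC.LC

open Set

variable {V Λ : Type} [LinearOrder Λ] [BoundedOrder Λ] {N : V → V → Prop} {ht : V → Λ} {L : ℕ}
  {e₀ : V × V}

theorem lccore_bound {α : Type} {r : α → α → Prop} {P : α → Prop} (hr : RS r) {a : α}
    {T : Set α} (hT : T.Finite) (h : ∀ d ∈ T, Conn r P a d) : ∃ B, ∀ d ∈ T, Wk r P B a d := by
  induction T, hT using Set.Finite.induction_on with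
  | empty => exact ⟨0, fun d hd => absurd hd (notMem_empty d)⟩
  | insert _ _ ih =>
    obtain ⟨B, hB⟩ := ih fun d hd => h d (mem_insert_of_mem _ hd)
    obtain ⟨n, hn⟩ := h _ (mem_insert _ _)
    refine ⟨max B n, ?_⟩
    rintro d (rfl | hd)
    · exact hn.le hr (le_max_right _ _)
    · exact (hB d hd).le hr (le_max_left _ _)

/-- An exit from `T` in the upper track is a gate of level `m₀`. -/
theorem lccore_exit {m₀ : Λ} {x y : V × V} (hx : RR N ht e₀ x ∨ ∃ m, m ≠ m₀ ∧ PH N ht e₀ m x)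
    (hy : ¬ (RR N ht e₀ y ∨ ∃ m, m ≠ m₀ ∧ PH N ht e₀ m y))
    (hU : Ed N {v | ht v = ⊤}ᶜ {v | ht v = ⊤} y) (hxy : Adj N x y) :
    RR N ht e₀ x ∧ N x.1 y.1 ∧ N y.1 x.2 ∧ ht y.1 ≠ ⊥ ∧ ht y.1 ≠ ⊤ ∧ ht y.1 = m₀ := by
  have hy1 : ¬ RR N ht e₀ y := fun h => hy (Or.inl h)
  rcases hx with hx | ⟨m, hm, a, z, b, hg, hz, hc⟩
  · have hb : ht y.1 ≠ ⊥ := fun h => hy1 (Conn.snoc hx ⟨hU.1, h, hU.2.2⟩ hxy)
    rcases hxy with h | h
    · exact absurd (h.1 ▸ (Conn.right hx).2.1) hb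
    · have h2 : N y.1 x.2 := h.1 ▸ hU.1
      refine ⟨hx, h.2, h2, hb, hU.2.1, ?_⟩
      by_contra hm
      refine hy (Or.inr ⟨_, hm, x.1, y.1, x.2, ⟨hx, h.2, h2, hb, hU.2.1⟩, rfl, ?_⟩)
      rw [h.1]
      exact Conn.refl ⟨hU, hy1⟩
  · exact absurd (Or.inr ⟨m, hm, a, z, b, hg, hz, hc.snoc ⟨hU, hy1⟩ hxy⟩) hy

/-- Let `T` be the union of the product region and of the `PH m`, `m ≠ m₀`; it is finite (finitely
many gates). Every edge of `T` is joined to `e₀` by `B` steps in the upper track (`Wk.le`). Let `S`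
be the ends of the edges of the ball of radius `B` (`Wk.ball_finite`) and their neighbours; a walk
of `B` steps from `e₀` in the upper track is a walk in the track of `X` (`Wk.strengthen`). For
`n > B` the ends of the geodesic are not in `T`; take the first exits (`Wk.exit`). An exit starts
in the product region and is a gate of level `m₀`. `Plat` joins the two gate edges by `L` steps
inside the product region, so `2 n ≤ (n - i) + L + (n - i')`, so `i ≤ L`. -/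
theorem core (hN : RS N) (hc : ∀ a b, Conn N (fun _ => True) a b) (h1 : H1 N)
    (hP : Plat N ht L) (h0 : Ed N {v | ht v = ⊥} {v | ht v = ⊤} e₀) (hne : (⊥ : Λ) ≠ ⊤)
    (hf : ∀ a, {b | N a b}.Finite) (hR : {e | Ed N {v | ht v = ⊥} {v | ht v = ⊤} e}.Finite)
    (hone : ∀ E : Λ → Set V, (∀ m m', m ≠ m' → Disjoint (E m) (E m')) →
      (∀ m v w, N v w → v ∈ E m → w ∉ E m → ht w = ⊥ ∨ ht w = ⊤) →
      ∃ m₀, ∀ m, m ≠ m₀ → {e | Ed N {v | ht v = ⊤}ᶜ {v | ht v = ⊤} e ∧ e.1 ∈ E m}.Finite) :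
    ∃ (S : Set V) (n₀ : ℕ), S.Finite ∧ ∀ X : Set V, (∀ v ∈ S, v ∈ X ↔ ht v ≠ ⊤) → ∀ n, n₀ ≤ n →
      Geo N X e₀ n → ∃ z, Wk N (fun _ => True) (L + 1) e₀.1 z ∧ ht z ≠ ⊥ ∧ ht z ≠ ⊤ := by
  obtain ⟨E, hE1, hE2, hE3⟩ := exists_E hN hc h1 hP h0 hne
  obtain ⟨m₀, hm₀⟩ := hone E hE1 hE2
  have hA := hN.adj
  set T : Set (V × V) := {d | RR N ht e₀ d ∨ ∃ m, m ≠ m₀ ∧ PH N ht e₀ m d} with hT
  have hup : ∀ d, Ed N {v | ht v = ⊥} {v | ht v = ⊤} d → Ed N {v | ht v = ⊤}ᶜ {v | ht v = ⊤} d :=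
    fun d hd => ⟨hd.1, fun h => hne (hd.2.1.symm.trans h), hd.2.2⟩
  have hTf : T.Finite := by
    have hZ : {z | ht z ≠ m₀ ∧ ∃ d, Ed N {v | ht v = ⊥} {v | ht v = ⊤} d ∧ N d.1 z}.Finite := by
      refine (hR.biUnion fun d _ => hf d.1).subset ?_
      rintro z ⟨-, d, hd, hz⟩
      exact mem_biUnion hd hz
    refine (hR.union (hZ.biUnion fun z hz => hm₀ (ht z) hz.1)).subset ?_
    rintro d (hd | ⟨m, hm, hd⟩)
    · exact Or.inl (Conn.right hd)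
    · have h3 := hE3 m d hd
      obtain ⟨a, z, b, hg, rfl, hw⟩ := hd
      have h4 := hw.right.1
      rcases h3 with h3 | h3
      · exact Or.inl ⟨h4.1, h3, h4.2.2⟩
      · exact Or.inr (mem_biUnion (x := z) ⟨hm, (a, b), Conn.right hg.1, hg.2.1⟩ ⟨h4, h3⟩)
  obtain ⟨B, hB⟩ := lccore_bound (P := Ed N {v | ht v = ⊤}ᶜ {v | ht v = ⊤}) (a := e₀) hA hTf (by
    rintro d (hd | ⟨m, -, a, z, b, hg, -, hw⟩)
    · exact Conn.mono hup hd
    · exact ((Conn.mono hup hg.1).snoc hw.left.1 (Or.inr ⟨rfl, hg.2.1⟩)).trans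
        (hw.mono fun _ h => h.1))
  have hBall := Wk.ball_finite (adj_finite hf) (fun _ => True) (B + 1) e₀
  refine ⟨_, B + 1, (hBall.image Prod.fst).union (hBall.image Prod.snd), ?_⟩
  rintro X hX n hn ⟨e, f, he, hf', hgeo⟩
  have hiff : ∀ d, Wk (Adj N) (fun _ => True) (B + 1) e₀ d →
      (Ed N X Xᶜ d ↔ Ed N {v | ht v = ⊤}ᶜ {v | ht v = ⊤} d) := fun d hd => by
    have a1 := hX d.1 (Or.inl ⟨d, hd, rfl⟩)
    have a2 := hX d.2 (Or.inr ⟨d, hd, rfl⟩)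
    simp only [Ed, mem_compl_iff, mem_ofPred_eq, a1, a2, ne_eq, not_not]
  have hTX : ∀ d ∈ T, Wk (Adj N) (Ed N X Xᶜ) B e₀ d := fun d hd =>
    ((hB d hd).strengthen hA).mono fun c hc =>
      (hiff c ((hc.2.mono fun _ _ => trivial).le hA B.le_succ)).2 hc.1
  have he' : e ∉ T := fun h => by
    have := hgeo _ (((hTX e h).symm hA).trans hf')
    omega
  have hf'' : f ∉ T := fun h => by
    have := hgeo _ ((he.symm hA).trans (hTX f h))
    omega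
  have h0T : e₀ ∈ T := Or.inl (Conn.refl h0)
  obtain ⟨i, j, x, y, hij, w1, ny, xy, w2⟩ := he.exit (Q := fun d => d ∈ T) h0T he'
  obtain ⟨i', j', x', y', hij', w1', ny', xy', w2'⟩ := hf'.exit (Q := fun d => d ∈ T) h0T hf''
  have hUy : ∀ {x y : V × V}, x ∈ T → Adj N x y → Ed N X Xᶜ y →
      Ed N {v | ht v = ⊤}ᶜ {v | ht v = ⊤} y := fun hx hxy hy =>
    (hiff _ (((hTX _ hx).mono fun _ _ => trivial).snoc trivial hxy)).1 hy
  obtain ⟨r1, n1, n2, b1, t1, l1⟩ := lccore_exit w1.right.2 ny (hUy w1.right.2 xy w2.left) xy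
  obtain ⟨r1', n1', n2', -, -, l1'⟩ :=
    lccore_exit w1'.right.2 ny' (hUy w1'.right.2 xy' w2'.left) xy'
  have hsub : ∀ d, Ed N {v | ht v = ⊥} {v | ht v = ⊤} d → Ed N {v | ht v < m₀} {v | m₀ < ht v} d :=
    fun d hd => ⟨hd.1, lt_of_eq_of_lt hd.2.1 (bot_lt_iff_ne_bot.2 (l1 ▸ b1)),
      lt_of_lt_of_eq (lt_top_iff_ne_top.2 (l1 ▸ t1)) hd.2.2.symm⟩
  have hL := hP m₀ x x' ⟨hsub _ (Conn.right r1), y.1, l1.not_lt, l1.not_gt, n1, n2⟩
    ⟨hsub _ (Conn.right r1'), y'.1, l1'.not_lt, l1'.not_gt, n1', n2'⟩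
    (Conn.mono hsub ((Conn.symm hA r1).trans r1'))
  have hL' : Wk (Adj N) (Ed N X Xᶜ) L x x' :=
    (hL.inv (Q := RR N ht e₀) r1 fun c d _ hd hc hcd => Conn.snoc hc
      ⟨hd.1, hd.2.1.trans (Conn.right r1).2.1, hd.2.2.trans (Conn.right r1).2.2⟩ hcd).mono
      fun d hd => (hTX d (Or.inl hd.2)).right
  have hlen := hgeo _ ((((Wk.cons w1.right.1 xy w2).symm hA).trans hL').trans
    (Wk.cons w1'.right.1 xy' w2'))
  refine ⟨y.1, ?_, b1, t1⟩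
  have w3 : Wk N (fun _ => True) i e₀.1 x.1 :=
    w1.map Prod.fst (fun _ _ => trivial) fun _ _ _ _ h => h.elim (fun h => h.1 ▸ hN.refl _) fun h => h.2
  exact (w3.snoc trivial n1).le hN (by omega)

end KKC.LC
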