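import Mathlib

set_option autoImplicit false

/-!
Square summable chains on a group with a hyperbolic length function: definitions.
-/

namespace KKC.S3

variable {A : Type} [Group A]

/-- The Gromov product at the identity. -/
noncomputable def gp (len : A → ℕ) (x y : A) : ℝ :=
  ((len x : ℝ) + len y - len (x⁻¹ * y)) / 2

/-- A proper hyperbolic length function. -/
structure HypLen (len : A → ℕ) (δ : ℝ) : Prop where
  one : len 1 = 0
  inv : ∀ a, len a⁻¹ = len a
  mul : ∀ a b, len (a * b) ≤ len a + len b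
  fin : ∀ n : ℕ, {a | len a ≤ n}.Finite
  hyp : ∀ x y z, min (gp len x y) (gp len y z) - δ ≤ gp len x z

/-- Edges of the Rips complex. -/
def Near (len : A → ℕ) (K : ℕ) (a b : A) : Prop := len (a⁻¹ * b) ≤ K

/-- Every element other than the identity has a parent that is near all its shallower
neighbours. -/
def Par (len : A → ℕ) (K : ℕ) : Prop :=
  ∀ a, a ≠ 1 → ∃ p, len p < len a ∧ Near len K p a ∧
    ∀ b, Near len K a b → len b ≤ len a → Near len K p b

/-- Triangles of the Rips complex. -/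
def Tri (len : A → ℕ) (K : ℕ) (a b c : A) : Prop :=
  Near len K a b ∧ Near len K b c ∧ Near len K a c

/-- Coboundary of a one-cochain. -/
def cob (I : A → A → ℝ) (a b c : A) : ℝ := I a b + I b c - I a c

open Classical in
/-- Gradient of a function along the edges. -/
noncomputable def dK (len : A → ℕ) (K : ℕ) (f : A → ℝ) (e : A × A) : ℝ :=
  if Near len K e.1 e.2 then f e.2 - f e.1 else 0

/-- Square summable one-chains. -/
structure Chain1 (len : A → ℕ) (K : ℕ) (z : A × A → ℝ) : Prop where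
  supp : ∀ e, z e ≠ 0 → Near len K e.1 e.2
  l2 : Summable fun e => z e ^ 2

/-- Square summable two-chains. -/
structure Chain2 (len : A → ℕ) (K : ℕ) (b : A × A × A → ℝ) : Prop where
  supp : ∀ t, b t ≠ 0 → Tri len K t.1 t.2.1 t.2.2
  l2 : Summable fun t => b t ^ 2

/-- Boundary of a one-chain. -/
noncomputable def bd1 (z : A × A → ℝ) (x : A) : ℝ := ∑' y, z (y, x) - ∑' y, z (x, y)

/-- Boundary of a two-chain. -/
noncomputable def bd2 (b : A × A × A → ℝ) (e : A × A) : ℝ :=
  ∑' c, b (e.1, e.2, c) + ∑' a, b (a, e.1, e.2) - ∑' m, b (e.1, m, e.2)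

/-- Every function of finite energy is an energy limit of finitely supported functions. -/
def Star (len : A → ℕ) (K : ℕ) : Prop :=
  ∀ f : A → ℝ, Summable (fun e => dK len K f e ^ 2) → ∀ ε > (0 : ℝ), ∃ φ : A → ℝ,
    (Function.support φ).Finite ∧ ∑' e, dK len K (f - φ) e ^ 2 < ε

/-- Gradients of finite energy are orthogonal to square summable cycles. -/
def StarW (len : A → ℕ) (K : ℕ) : Prop :=
  ∀ f : A → ℝ, Summable (fun e => dK len K f e ^ 2) → ∀ z, Chain1 len K z →
    (∀ x, bd1 z x = 0) → ∑' e, dK len K f e * z e = 0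

/-- Linking data: `W x` is a two-cochain seen from `x`, `I` and `J` are the outer and inner
local one-cochains of a step. -/
structure Link (len : A → ℕ) (F : Subgroup A) (K K1 K2 : ℕ) (B : ℝ)
    (W : A → A → A → A → ℝ) (I J : A → A → A → A → ℝ) : Prop where
  deep : ∀ x x' a b c, Near len K x x' → Tri len K a b c → len x + K1 < len a →
    W x' a b c = W x a b c
  out_cob : ∀ x x' a b c, Near len K x x' → Tri len K a b c →
    W x' a b c - W x a b c = cob (I x x') a b c
  out_bdd : ∀ x x' a b, Near len K x x' → Near len K a b → len (x⁻¹ * a) ≤ K2 →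
    |I x x' a b| ≤ B
  out_far : ∀ x x' a b, Near len K x x' → Near len K a b → K2 < len (x⁻¹ * a) →
    len a ≤ len x + K1 + K → (a⁻¹ * b ∈ F ∨ len x ≤ len a + K) → I x x' a b = 0
  inn_cob : ∀ x ∈ F, ∀ x' ∈ F, ∀ a b c, Near len K x x' → Tri len K a b c →
    W x' a b c - W x a b c = cob (J x x') a b c
  inn_fin : ∀ x ∈ F, ∀ x' ∈ F, Near len K x x' → ∃ N : ℕ, ∀ a b, Near len K a b → N < len a →
    J x x' a b = 0
  inn_bdd : ∀ x ∈ F, ∀ x' ∈ F, ∀ a b, Near len K x x' → Near len K a b → a⁻¹ * b ∈ F →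
    len (x⁻¹ * a) ≤ K2 → |J x x' a b| ≤ B
  inn_far : ∀ x ∈ F, ∀ x' ∈ F, ∀ a b, Near len K x x' → Near len K a b → a⁻¹ * b ∈ F →
    K2 < len (x⁻¹ * a) → J x x' a b = 0

/-- Arbitrarily deep finite cycles in `F` that go round the identity. -/
def Round (len : A → ℕ) (F : Subgroup A) (K : ℕ) (J : A → A → A → A → ℝ) : Prop :=
  ∀ R : ℕ, ∃ (ι : Type) (s : Finset ι) (c : ι → ℝ) (x x' : ι → A) (χ : A → ℝ),
    (∀ i ∈ s, x i ∈ F ∧ x' i ∈ F ∧ Near len K (x i) (x' i) ∧ R ≤ len (x i) ∧ R ≤ len (x' i)) ∧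
    (∀ φ : A → ℝ, ∑ i ∈ s, c i * (φ (x' i) - φ (x i)) = 0) ∧
    {a | a ∈ F ∧ χ a ≠ 0}.Finite ∧ χ 1 ≠ 0 ∧
    ∀ a ∈ F, ∀ b ∈ F, Near len K a b → ∑ i ∈ s, c i * J (x i) (x' i) a b = χ b - χ a

/-- Three long elements of `F` in different directions. -/
def Three (len : A → ℕ) (δ : ℝ) (F : Subgroup A) (K : ℕ) (C : ℝ) (k : Fin 3 → A) : Prop :=
  (∀ i, k i ∈ F ∧ 4 * C + 10 * δ + 1 ≤ len (k i) ∧ len (k i) ≤ K) ∧
    ∀ i j, i ≠ j → gp len (k i) (k j) ≤ C

open Classical in
/-- The inner cochain of a one-chain of steps, on plane edges. -/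
noncomputable def innr (len : A → ℕ) (F : Subgroup A) (K : ℕ) (J : A → A → A → A → ℝ)
    (z : A × A → ℝ) (e : A × A) : ℝ :=
  if Near len K e.1 e.2 ∧ e.1⁻¹ * e.2 ∈ F then ∑' s : A × A, z s * J s.1 s.2 e.1 e.2 else 0

end KKC.S3
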