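import Pool.Agent.Lib.MP_e1e491_gt.V2
import Pool.Agent.Lib.MP_e1e491_gt.S3ADefs

/-! A connected boundary has no cut point: definitions. -/

namespace KKC.LC

open Set
open scoped Pointwise

section Walk

variable {α : Type}

/-- A reflexive symmetric relation. -/
structure RS (r : α → α → Prop) : Prop where
  refl : ∀ a, r a a
  symm : ∀ a b, r a b → r b a

/-- Walks with `n` steps of `r` inside `P` (at most `n` steps if `r` is reflexive). -/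
def Wk (r : α → α → Prop) (P : α → Prop) : ℕ → α → α → Prop
  | 0, a, b => P a ∧ a = b
  | n + 1, a, b => ∃ c, Wk r P n a c ∧ P b ∧ r c b

/-- Joined by a walk inside `P`. -/
def Conn (r : α → α → Prop) (P : α → Prop) (a b : α) : Prop := ∃ n, Wk r P n a b

end Walk

section Comb

variable {V : Type} (N : V → V → Prop)

/-- Closed cochains are gradients. -/
def H1 : Prop := ∀ ω : V → V → ℝ, (∀ a b c, N a b → N b c → N a c → ω a b + ω b c = ω a c) →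
  ∃ φ : V → ℝ, ∀ a b, N a b → ω a b = φ b - φ a

/-- Edges from `X` to `Y`. -/
def Ed (X Y : Set V) (e : V × V) : Prop := N e.1 e.2 ∧ e.1 ∈ X ∧ e.2 ∈ Y

/-- Two edges with a common end whose other ends are neighbours. -/
def Adj (e f : V × V) : Prop := (e.1 = f.1 ∧ N e.2 f.2) ∨ (e.2 = f.2 ∧ N e.1 f.1)

/-- An edge from `X` to `Y` in a triangle whose third vertex has neither colour. -/
def Gated (X Y : Set V) (e : V × V) : Prop :=
  Ed N X Y e ∧ ∃ z, z ∉ X ∧ z ∉ Y ∧ N e.1 z ∧ N z e.2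

/-- The edge `e₀` is the midpoint of a geodesic of length `2 n` in the track of `X`. -/
def Geo (X : Set V) (e₀ : V × V) (n : ℕ) : Prop :=
  ∃ e f, Wk (Adj N) (Ed N X Xᶜ) n e₀ e ∧ Wk (Adj N) (Ed N X Xᶜ) n e₀ f ∧
    ∀ m, Wk (Adj N) (Ed N X Xᶜ) m e f → 2 * n ≤ m

variable {Λ : Type} [LinearOrder Λ]

/-- Gated edges of one level in one sheet are joined at constant heights. -/
def Plat (ht : V → Λ) (L : ℕ) : Prop :=
  ∀ m e f, Gated N {v | ht v < m} {v | m < ht v} e → Gated N {v | ht v < m} {v | m < ht v} f →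
    Conn (Adj N) (Ed N {v | ht v < m} {v | m < ht v}) e f →
    Wk (Adj N) (fun d => N d.1 d.2 ∧ ht d.1 = ht e.1 ∧ ht d.2 = ht e.2) L e f

variable [BoundedOrder Λ]

/-- The product region: bottom-top edges joined to `e₀`. -/
def RR (ht : V → Λ) (e₀ e : V × V) : Prop :=
  Conn (Adj N) (Ed N {v | ht v = ⊥} {v | ht v = ⊤}) e₀ e

/-- A gate of the product region. -/
def Gate (ht : V → Λ) (e₀ : V × V) (x z y : V) : Prop :=
  RR N ht e₀ (x, y) ∧ N x z ∧ N z y ∧ ht z ≠ ⊥ ∧ ht z ≠ ⊤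

/-- Edges of the lower track behind the gates of level `m`. -/
def PL (ht : V → Λ) (e₀ : V × V) (m : Λ) (d : V × V) : Prop :=
  ∃ x z y, Gate N ht e₀ x z y ∧ ht z = m ∧
    Conn (Adj N) (fun d => Ed N {v | ht v = ⊥} {v | ht v = ⊥}ᶜ d ∧ ¬ RR N ht e₀ d) (x, z) d

/-- Edges of the upper track behind the gates of level `m`. -/
def PH (ht : V → Λ) (e₀ : V × V) (m : Λ) (d : V × V) : Prop :=
  ∃ x z y, Gate N ht e₀ x z y ∧ ht z = m ∧
    Conn (Adj N) (fun d => Ed N {v | ht v = ⊤}ᶜ {v | ht v = ⊤} d ∧ ¬ RR N ht e₀ d) (z, y) d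

end Comb

section Side

variable {Z : Type} [TopologicalSpace Z]

/-- The other side. -/
def opp (U : Set Z) : Set Z := (closure U)ᶜ

/-- One side of a cut point. -/
structure Side (U : Set Z) : Prop where
  op : IsOpen U
  ne : U.Nonempty
  ne' : (opp U).Nonempty
  cl : closure (opp U) = Uᶜ
  pt : ∃ c, closure U \ U = {c}

/-- Two sides are nested. -/
def Nest (U V : Set Z) : Prop :=
  U = V ∨ closure U ⊆ V ∨ closure V ⊆ U ∨ Disjoint U V ∨ Disjoint (opp U) (opp V)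

end Side

variable {G Z : Type} [Group G] [MetricSpace Z] [MulAction G Z]

/-- Edges of the Rips graph. -/
def Nr (H : HB G Z) (K : ℕ) (a b : G) : Prop := H.len (a⁻¹ * b) ≤ K

/-- All vertices near `ξ` lie in `S`. -/
def Ev (H : HB G Z) (ξ : Z) (S : Set G) : Prop :=
  ∃ ε > 0, ∀ g, H.q (.inr ξ) (.inl g) < ε → g ∈ S

/-- The Rips parameter is large. -/
structure GoodK (H : HB G Z) (K : ℕ) : Prop where
  one_le : 1 ≤ K
  h1 : H1 (Nr H K)
  lc : ∀ ε > 0, ∃ ε' > 0, ∀ (ξ : Z) (g g' : G), H.q (.inr ξ) (.inl g) < ε' →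
    H.q (.inr ξ) (.inl g') < ε' → Conn (Nr H K) (fun v => H.q (.inr ξ) (.inl v) < ε) g g'

/-- An invariant nested family of sides with finite stabilisers, and a set of vertices for each
side. -/
structure Walls (H : HB G Z) (K : ℕ) where
  F : Set (Set Z)
  A : Set Z → Set G
  N₀ : ℕ
  ne : F.Nonempty
  inv : ∀ (g : G), ∀ U ∈ F, g • U ∈ F
  side : ∀ U ∈ F, Side U
  nest : ∀ U ∈ F, ∀ V ∈ F, Nest U V
  stab : ∀ U ∈ F, ∀ S : Finset G, (∀ g ∈ S, g • U = U) → S.card ≤ N₀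
  smul : ∀ (g v : G), ∀ U ∈ F, g * v ∈ A (g • U) ↔ v ∈ A U
  mono : ∀ U ∈ F, ∀ V ∈ F, U ⊆ V → A U ⊆ A V
  chain : ∀ U ∈ F, ∀ V ∈ F, ∀ x y, x ∈ A U → x ∈ A V → y ∉ A U → y ∉ A V → U ⊆ V ∨ V ⊆ U
  lim : ∀ U ∈ F, ∀ ξ ∈ U, Ev H ξ (A U)
  lim' : ∀ U ∈ F, ∀ ξ ∈ opp U, Ev H ξ (A U)ᶜ
  mp : ∀ Φ : Set G, Φ.Finite → ∃ D : Set G, D.Finite ∧ ∀ U ∈ F, ∀ E : Set G, E.Finite →
    E ⊆ A U → (∀ v ∈ E, ∀ w, Nr H K v w → w ∈ E ∨ w ∉ A U ∨ w ∈ Φ) → E ⊆ D
  mp' : ∀ Φ : Set G, Φ.Finite → ∃ D : Set G, D.Finite ∧ ∀ U ∈ F, ∀ E : Set G, E.Finite →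
    E ⊆ (A U)ᶜ → (∀ v ∈ E, ∀ w, Nr H K v w → w ∈ E ∨ w ∈ A U ∨ w ∈ Φ) → E ⊆ D
  big : ∀ y, ∃ δ > 0, ∀ U ∈ F, y ∉ A U → Big δ Uᶜ
  big' : ∀ x, ∃ δ > 0, ∀ U ∈ F, x ∈ A U → Big δ (closure U)

namespace Walls

variable {H : HB G Z} {K : ℕ} (W : Walls H K)

/-- The sides that separate `x` from `z` and `y`. -/
def LL (x z y : G) : Set (Set Z) := {U | U ∈ W.F ∧ x ∈ W.A U ∧ z ∉ W.A U ∧ y ∉ W.A U}

/-- The sides that separate `x` and `z` from `y`. -/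
def RT (x z y : G) : Set (Set Z) := {U | U ∈ W.F ∧ x ∈ W.A U ∧ z ∈ W.A U ∧ y ∉ W.A U}

/-- The left colour of a triangle. -/
def colL (x z y : G) : Set G := {v | ∃ U ∈ W.LL x z y, v ∈ W.A U}

/-- The right colour of a triangle. -/
def colR (x z y : G) : Set G := {v | ∃ U ∈ W.RT x z y, v ∉ W.A U}

/-- An increasing sequence of sides that separate `a` from `b`. -/
structure Ch (c : ℕ → Set Z) (a b : G) : Prop where
  mem : ∀ j, c j ∈ W.F
  lt : ∀ j, closure (c j) ⊆ c (j + 1)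
  nr : Nr H K a b
  ha : ∀ j, a ∈ W.A (c j)
  hb : ∀ j, b ∉ W.A (c j)

/-- The sides between `c k` and some `c l`. -/
def CC (c : ℕ → Set Z) (k : ℕ) : Set (Set Z) := {U | U ∈ W.F ∧ c k ⊆ U ∧ ∃ l, U ⊆ c l}

/-- The height of a vertex. -/
def hgt (c : ℕ → Set Z) (k : ℕ) (v : G) : Set (Set Z) := {U | U ∈ W.CC c k ∧ v ∉ W.A U}

/-- A triangle with three different heights. -/
def Trip (c : ℕ → Set Z) (k : ℕ) (x z y : G) : Prop :=
  Nr H K x z ∧ Nr H K z y ∧ Nr H K x y ∧ W.hgt c k x ⊂ W.hgt c k z ∧ W.hgt c k z ⊂ W.hgt c k y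

/-- The vertices of the limit side. -/
def Ainf (c : ℕ → Set Z) : Set G := {v | ∃ l, v ∈ W.A (c l)}

end Walls

end KKC.LC
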