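import Pool.Agent.Lib.MP_e1e491_gt.LCWk

/-! Sets of vertices near a boundary point. -/

namespace KKC.LC

open Set
open scoped Pointwise

variable {G Z : Type} [Group G] [MetricSpace Z] [MulAction G Z] {H : HB G Z} {K : ℕ} {ξ : Z}
  {S T : Set G}

theorem Ev.mono (h : Ev H ξ S) (hST : S ⊆ T) : Ev H ξ T :=
  h.imp fun _ h => ⟨h.1, fun g hg => hST (h.2 g hg)⟩

theorem Ev.inter (h : Ev H ξ S) (h' : Ev H ξ T) : Ev H ξ (S ∩ T) := by
  obtain ⟨ε, hε, h⟩ := h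
  obtain ⟨ε', hε', h'⟩ := h'
  exact ⟨min ε ε', lt_min hε hε', fun g hg =>
    ⟨h g (hg.trans_le (min_le_left _ _)), h' g (hg.trans_le (min_le_right _ _))⟩⟩

/-- `HB.ray`. -/
theorem Ev.nonempty (h : Ev H ξ S) : S.Nonempty := by
  obtain ⟨ε, hε, h⟩ := h
  have hC : 0 < H.C := one_pos.trans_le H.hC
  obtain ⟨n, hn⟩ := H.exists_sc_lt (div_pos hε hC)
  obtain ⟨g, h1, h2⟩ := H.ray ξ n
  refine ⟨g, h g (h2.trans_lt ?_)⟩
  have h3 := hn g h1.ge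
  rw [HB.sc, h1, lt_div_iff₀' hC] at h3
  exact h3

/-- `HB.ultra` and `HB.q_le`. -/
theorem isOpen_ev (H : HB G Z) (S : Set G) : IsOpen {ξ | Ev H ξ S} := by
  refine Metric.isOpen_iff.2 ?_
  rintro ξ ⟨ε, hε, h⟩
  have hC : 0 < H.C := one_pos.trans_le H.hC
  refine ⟨ε / H.C / H.C, by positivity, fun ζ hζ => ⟨ε / H.C, by positivity, fun g hg => ?_⟩⟩
  refine h g ((H.ultra _ (.inr ζ) _).trans_lt ?_)
  rw [← lt_div_iff₀' hC, max_lt_iff]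
  refine ⟨(H.q_le ξ ζ).trans_lt ?_, hg⟩
  rw [← lt_div_iff₀' hC, dist_comm]
  exact hζ

/-- `HB.sc_le_q`, `HB.exists_len_gt` or the minimum of `sc` on the finite set. -/
theorem ev_of_finite (H : HB G Z) (hS : S.Finite) (ξ : Z) : Ev H ξ Sᶜ := by
  obtain ⟨n, hn⟩ := (hS.image H.len).bddAbove
  obtain ⟨ε, hε, h⟩ := H.exists_len_gt n
  have hC : 0 < H.C := one_pos.trans_le H.hC
  refine ⟨ε / H.C, by positivity, fun g hg hgS => ?_⟩
  rw [lt_div_iff₀' hC] at hg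
  exact absurd (hn ⟨g, hgS, rfl⟩) (not_le.2 (h g ((H.sc_le_q _ g).trans_lt hg)))

/-- Finite subcover of small balls; a deep vertex is near its location (`HB.q_loc`), and
`HB.finite_sc`. -/
theorem finite_of_ev [CompactSpace Z] (h : ∀ ξ, Ev H ξ Sᶜ) : S.Finite := by
  choose ε hε h using h
  have hC : 0 < H.C := one_pos.trans_le H.hC
  obtain ⟨t, ht⟩ := isCompact_univ.elim_finite_subcover
    (fun ξ => Metric.ball ξ (ε ξ / H.C / H.C)) (fun _ => Metric.isOpen_ball) fun ξ _ =>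
      mem_iUnion.2 ⟨ξ, Metric.mem_ball_self (by have := hε ξ; positivity)⟩
  refine (t.finite_toSet.biUnion fun ξ _ =>
    H.finite_sc (ε := ε ξ / H.C / H.C) (by have := hε ξ; positivity)).subset fun g hg => ?_
  obtain ⟨ξ, hξ, h1⟩ := mem_iUnion₂.1 (ht (mem_univ (H.loc g)))
  refine mem_iUnion₂.2 ⟨ξ, hξ, le_of_not_gt (b := H.sc g) fun h2 => h ξ g ?_ hg⟩
  refine (H.ultra _ (.inr (H.loc g)) _).trans_lt ?_
  rw [← lt_div_iff₀' hC, max_lt_iff]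
  constructor
  · refine (H.q_le ξ _).trans_lt ?_
    rw [← lt_div_iff₀' hC, dist_comm]
    exact h1
  · refine (H.q_loc g).trans_lt ?_
    rw [← lt_div_iff₀' hC]
    exact h2

/-- `HB.q_step`; `sc s` is bounded below on the ball of radius `K`. -/
theorem Ev.near (h : Ev H ξ S) (K : ℕ) : Ev H ξ {v | ∀ w, Nr H K v w → w ∈ S} := by
  obtain ⟨ε, hε, h⟩ := h
  obtain ⟨C₁, h1, hq⟩ := H.q_step
  have h0 : 0 < H.a ^ (-(K : ℝ)) := Real.rpow_pos_of_pos (one_pos.trans H.ha) _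
  have hC : 0 < C₁ := one_pos.trans_le h1
  refine ⟨ε * H.a ^ (-(K : ℝ)) / C₁, by positivity, fun v hv w hw => h w ?_⟩
  have h2 : H.a ^ (-(K : ℝ)) ≤ H.sc (v⁻¹ * w) := by
    rw [HB.sc, Real.rpow_le_rpow_left_iff H.ha, neg_le_neg_iff, Nat.cast_le]
    exact hw
  have h3 := hq (.inr ξ) v (v⁻¹ * w)
  rw [mul_inv_cancel_left] at h3
  rw [lt_div_iff₀' hC] at hv
  have h4 := mul_le_mul_of_nonneg_left h2 (H.q_nonneg (.inr ξ) (.inl w))
  exact lt_of_mul_lt_mul_right (by linarith) h0.le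

/-- For each point of `M`, `GoodK.lc` and `Conn.induct` give `Ev H ξ E ∨ Ev H ξ Eᶜ`; the two open
sets are disjoint (`Ev.nonempty`) and cover `M`. -/
theorem GoodK.dich (hK : GoodK H K) {M : Set Z} (hM : IsPreconnected M) {E : Set G}
    (h : ∀ ξ ∈ M, Ev H ξ {v | ∀ w, Nr H K v w → (v ∈ E ↔ w ∈ E)}) :
    (∀ ξ ∈ M, Ev H ξ E) ∨ ∀ ξ ∈ M, Ev H ξ Eᶜ := by
  have key : ∀ ξ ∈ M, Ev H ξ E ∨ Ev H ξ Eᶜ := by
    intro ξ hξ
    obtain ⟨ε, hε, h⟩ := h ξ hξ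
    obtain ⟨ε', hε', h'⟩ := hK.lc ε hε
    by_cases h0 : ∃ g ∈ E, H.q (.inr ξ) (.inl g) < ε'
    · obtain ⟨g, hg, hg'⟩ := h0
      exact Or.inl ⟨ε', hε', fun g' hg'' => (h' ξ g g' hg' hg'').induct (Q := fun v => v ∈ E) hg
        fun x y hx _ hxE hxy => (h x hx y hxy).1 hxE⟩
    · exact Or.inr ⟨ε', hε', fun g hg hgE => h0 ⟨g, hgE, hg⟩⟩
  refine hM.subset_or_subset (isOpen_ev H E) (isOpen_ev H Eᶜ) ?_ key
  refine Set.disjoint_left.2 fun ξ h1 h2 => ?_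
  obtain ⟨g, hg⟩ := (Ev.inter h1 h2).nonempty
  exact hg.2 hg.1

/-- Edge sets: the first ends form a finite set by `finite_of_ev`, then `nr_fin`. -/
theorem finite_ed [CompactSpace Z] {X Y : Set G} (h : ∀ ξ, Ev H ξ Xᶜ ∨ Ev H ξ Yᶜ) :
    {e | Ed (Nr H K) X Y e}.Finite := by
  have h1 : {v | v ∈ X ∧ ∃ w, Nr H K v w ∧ w ∈ Y}.Finite := by
    refine finite_of_ev (H := H) fun ξ => ?_
    rcases h ξ with h | h
    · exact h.mono fun v hv hv' => hv hv'.1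
    · exact (h.near K).mono fun v hv ⟨_, w, h1, h2⟩ => hv w h1 h2
  refine (h1.biUnion fun v _ => (finite_singleton v).prod (nr_fin H K v)).subset ?_
  rintro ⟨v, w⟩ ⟨h2, h3, h4⟩
  exact mem_iUnion₂.2 ⟨v, ⟨h3, w, h2, h4⟩, rfl, h2⟩

end KKC.LC
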