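import Pool.Agent.Lib.MP_e1e491_gt.LCLev

/-! Close tripods have close levels. -/

namespace KKC.LC

open Set
open scoped Pointwise

variable {G Z : Type} [Group G] [MetricSpace Z] [MulAction G Z] [CompactSpace Z] {H : HB G Z} {K : ℕ}
  {W : Walls H K} {c : ℕ → Set Z} {a b : G}

namespace Walls

theorem Ch.far (hc : W.Ch c a b) {S : Set G} (hS : S.Finite) :
    ∃ k₀, ∀ k, k₀ ≤ k → ∀ z ∈ S, z ∈ W.A (c k) ∨ z ∉ W.Ainf c := by
  have key : ∀ z : G, ∃ l : ℕ, ∀ k, l ≤ k → z ∈ W.A (c k) ∨ z ∉ W.Ainf c := by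
    intro z
    by_cases hz : z ∈ W.Ainf c
    · obtain ⟨l, hl⟩ := hz
      exact ⟨l, fun k hk => Or.inl (W.mono _ (hc.mem l) _ (hc.mem k) (hc.mono hk) hl)⟩
    · exact ⟨0, fun _ _ => Or.inr hz⟩
  choose f hf using key
  obtain ⟨k₀, hk₀⟩ := (hS.image f).bddAbove
  exact ⟨k₀, fun k hk z hz => hf z k ((hk₀ (mem_image_of_mem f hz)).trans hk)⟩

/-- The left set of a triangle. -/
def lcexc_sL (W : Walls H K) (x z y : G) : Set Z := closure (⋃₀ W.LL x z y)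

/-- The right set of a triangle. -/
def lcexc_sR (W : Walls H K) (x z y : G) : Set Z := closure {p | ∃ V ∈ W.RT x z y, p ∉ V}

theorem lcexc_sL_smul (g x z y : G) :
    g • W.lcexc_sL x z y = W.lcexc_sL (g * x) (g * z) (g * y) := by
  unfold lcexc_sL
  rw [← closure_smul H]
  congr 1
  ext p
  constructor
  · rintro ⟨q, ⟨U, hU, hq⟩, rfl⟩
    exact ⟨g • U, (W.mem_LL_smul g x z y U).2 hU, smul_mem_smul_set hq⟩
  · rintro ⟨U, hU, hp⟩
    refine mem_smul_set_iff_inv_smul_mem.2 ⟨g⁻¹ • U, ?_, smul_mem_smul_set hp⟩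
    rw [← W.mem_LL_smul g, smul_inv_smul]
    exact hU

theorem lcexc_sR_smul (g x z y : G) :
    g • W.lcexc_sR x z y = W.lcexc_sR (g * x) (g * z) (g * y) := by
  unfold lcexc_sR
  rw [← closure_smul H]
  congr 1
  ext p
  constructor
  · rintro ⟨q, ⟨U, hU, hq⟩, rfl⟩
    exact ⟨g • U, (W.mem_RT_smul g x z y U).2 hU, fun h => hq (smul_mem_smul_set_iff.1 h)⟩
  · rintro ⟨U, hU, hp⟩
    refine mem_smul_set_iff_inv_smul_mem.2
      ⟨g⁻¹ • U, ?_, fun h => hp (smul_mem_smul_set_iff.1 h)⟩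
    rw [← W.mem_RT_smul g, smul_inv_smul]
    exact hU

theorem lcexc_big_mono {δ δ' : ℝ} {s t : Set Z} (h : Big δ s) (hδ : δ' ≤ δ) (hst : s ⊆ t) :
    Big δ' t := by
  obtain ⟨p, hp, q, hq, h⟩ := h
  exact ⟨p, hst hp, q, hst hq, hδ.trans h⟩

theorem lcexc_sL_sub (hc : W.Ch c a b) {k : ℕ} {x z y : G} (h : W.Trip c k x z y) {U : Set Z}
    (hU : U ∈ W.CC c k) (hz : U ∉ W.hgt c k z) : W.lcexc_sL x z y ⊆ closure U := by
  refine closure_mono ?_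
  rintro p ⟨T, hT, hp⟩
  obtain ⟨V, hV, -, hTV⟩ := h.ll_sub hc hT
  rcases hc.cc_total hV.1 hU with h1 | h1
  · exact h1 (hTV hp)
  · exact absurd (hgt_lower hV hU h1) hz

theorem lcexc_sR_sub (hc : W.Ch c a b) {k : ℕ} {x z y : G} (h : W.Trip c k x z y) {U : Set Z}
    (hU : U ∈ W.hgt c k z) : W.lcexc_sR x z y ⊆ Uᶜ := by
  refine closure_minimal ?_ (W.side U hU.1.1).op.isClosed_compl
  rintro p ⟨T, hT, hp⟩ hpU
  obtain ⟨V, hV, hV', hVT⟩ := h.rt_sup hc hT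
  rcases hc.cc_total hV.1 hU.1 with h1 | h1
  · exact hV' (hgt_lower hU hV.1 h1)
  · exact hp (hVT (h1 hpU))

theorem lcexc_sL_big (hc : W.Ch c a b) : ∃ δ > 0, ∀ k x z y, W.Trip c k x z y →
    Big δ (W.lcexc_sL x z y) := by
  obtain ⟨δ, hδ, hb⟩ := W.big' a
  refine ⟨δ, hδ, fun k x z y h => ?_⟩
  obtain ⟨-, -, -, h1, h2⟩ := h
  obtain ⟨U, hU, hx⟩ := exists_of_ssubset h1
  have hx' : x ∈ W.A U := by
    by_contra hn
    exact hx ⟨hU.1, hn⟩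
  have ha : a ∈ W.A U := W.mono _ (hc.mem k) U hU.1.1 hU.1.2.1 (hc.ha k)
  refine lcexc_big_mono (hb U hU.1.1 ha) le_rfl (closure_mono ?_)
  exact subset_sUnion_of_mem (show U ∈ W.LL x z y from ⟨hU.1.1, hx', hU.2, (h2.subset hU).2⟩)

theorem lcexc_sR_big (hc : W.Ch c a b) : ∃ δ > 0, ∀ k x z y, W.Trip c k x z y →
    Big δ (W.lcexc_sR x z y) := by
  obtain ⟨δ, hδ, hb⟩ := W.big b
  refine ⟨δ, hδ, fun k x z y h => ?_⟩
  obtain ⟨-, -, -, h1, h2⟩ := h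
  obtain ⟨U, hU, hz⟩ := exists_of_ssubset h2
  have hz' : z ∈ W.A U := by
    by_contra hn
    exact hz ⟨hU.1, hn⟩
  have hx' : x ∈ W.A U := by
    by_contra hn
    exact hz (h1.subset ⟨hU.1, hn⟩)
  obtain ⟨l, hl⟩ := hU.1.2.2
  have hb' : b ∉ W.A U := fun hn => hc.hb l (W.mono U hU.1.1 _ (hc.mem l) hl hn)
  refine lcexc_big_mono (hb U hU.1.1 hb') le_rfl (Subset.trans ?_ subset_closure)
  exact fun p hp => ⟨U, ⟨hU.1.1, hx', hz', hU.2⟩, hp⟩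

/-- The middle vertices of the triangles with disjoint big sets form a finite set. -/
theorem lcexc_fin (W : Walls H K) (ρ : ℕ) {δ : ℝ} (hδ : 0 < δ) :
    {z : G | ∃ x y x' z' y', Nr H ρ x z ∧ Nr H ρ x y ∧ Nr H ρ x x' ∧ Nr H ρ x z' ∧ Nr H ρ x y' ∧
      Disjoint (W.lcexc_sL x z y) (W.lcexc_sR x' z' y') ∧ Big δ (W.lcexc_sL x z y) ∧
      Big δ (W.lcexc_sR x' z' y')}.Finite := by
  have hB := nr_fin H ρ 1
  have hT : {t : G × G × G × G × G | (Nr H ρ 1 t.1 ∧ Nr H ρ 1 t.2.1 ∧ Nr H ρ 1 t.2.2.1 ∧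
      Nr H ρ 1 t.2.2.2.1 ∧ Nr H ρ 1 t.2.2.2.2) ∧
      Disjoint (W.lcexc_sL 1 t.1 t.2.1) (W.lcexc_sR t.2.2.1 t.2.2.2.1 t.2.2.2.2)}.Finite :=
    (hB.prod (hB.prod (hB.prod (hB.prod hB)))).subset fun t ht => ht.1
  refine (hT.biUnion (t := fun t => (fun g => g * t.1) '' {g : G |
    Big δ (g • W.lcexc_sL 1 t.1 t.2.1) ∧ Big δ (g • W.lcexc_sR t.2.2.1 t.2.2.2.1 t.2.2.2.2)})
    fun t ht => (H.lemmaN isClosed_closure.isCompact isClosed_closure.isCompact ht.2 hδ).image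
      _).subset ?_
  rintro z ⟨x, y, x', z', y', h1, h2, h3, h4, h5, hd, hb, hb'⟩
  have tr : ∀ v, Nr H ρ x v → Nr H ρ 1 (x⁻¹ * v) := fun v hv => by
    rw [← inv_mul_cancel x, nr_smul]; exact hv
  have e1 : x • W.lcexc_sL 1 (x⁻¹ * z) (x⁻¹ * y) = W.lcexc_sL x z y := by
    rw [lcexc_sL_smul, mul_one, mul_inv_cancel_left, mul_inv_cancel_left]
  have e2 : x • W.lcexc_sR (x⁻¹ * x') (x⁻¹ * z') (x⁻¹ * y') = W.lcexc_sR x' z' y' := by
    rw [lcexc_sR_smul, mul_inv_cancel_left, mul_inv_cancel_left, mul_inv_cancel_left]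
  refine mem_biUnion (x := (x⁻¹ * z, x⁻¹ * y, x⁻¹ * x', x⁻¹ * z', x⁻¹ * y'))
    ⟨⟨tr _ h1, tr _ h2, tr _ h3, tr _ h4, tr _ h5⟩, ?_⟩ ⟨x, ⟨?_, ?_⟩, mul_inv_cancel_left x z⟩
  · rw [← e1, ← e2] at hd
    exact (disjoint_smul_set (a := x)).1 hd
  · exact e1 ▸ hb
  · exact e2 ▸ hb'

/-- For two triangles put `s = closure (⋃₀ LL x z y)` and `s' = closure` of the union of the `Vᶜ`,
`V ∈ RT x' z' y'`; both are equivariant. If `U ⊂ U'` lie in `hgt z' \ hgt z` then `s ⊆ closure U ⊆ U'`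
(`Trip.ll_sub`, `Nest.lt`) and `s' ⊆ U'ᶜ` (`Trip.rt_sup`), so they are disjoint; `s ⊇ closure (c 0)`
and `s' ⊇ (c l)ᶜ` are big with a `δ` that does not depend on `k`, `l` (`Side.big`, `Walls.big`).
Translate `x` to `1`: finitely many configurations, for each with disjoint `s`, `s'` finitely many
translations (`HB.lemmaN`). So `z` lies in a finite set independent of `k`; `Ch.far`. -/
theorem Ch.exc (hc : W.Ch c a b) (ρ : ℕ) : ∃ k₀, ∀ k, k₀ ≤ k → ∀ x z y x' z' y',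
    W.Trip c k x z y → W.Trip c k x' z' y' → Nr H ρ x x' →
    (W.hgt c k z' \ W.hgt c k z).Subsingleton := by
  obtain ⟨δ, hδ, hL⟩ := lcexc_sL_big hc
  obtain ⟨δ', hδ', hR⟩ := lcexc_sR_big hc
  obtain ⟨k₀, hk₀⟩ := hc.far (W.lcexc_fin (ρ + K) (lt_min hδ hδ'))
  refine ⟨k₀, fun k hk x z y x' z' y' h h' hρ => ?_⟩
  have key : ∀ U ∈ W.hgt c k z' \ W.hgt c k z, ∀ V ∈ W.hgt c k z' \ W.hgt c k z, U ⊆ V →
      U = V := by
    intro U hU V hV hUV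
    by_contra hne
    have h1 : closure U ⊆ V := (W.nest U hU.1.1.1 V hV.1.1.1).lt (W.side U hU.1.1.1)
      (W.side V hV.1.1.1) hUV hne
    have hd : Disjoint (W.lcexc_sL x z y) (W.lcexc_sR x' z' y') :=
      disjoint_compl_right.mono ((lcexc_sL_sub hc h hU.1.1 hU.2).trans h1)
        (lcexc_sR_sub hc h' hV.1)
    rcases hk₀ k hk z ⟨x, y, x', z', y', h.1.mono (Nat.le_add_left _ _),
      h.2.2.1.mono (Nat.le_add_left _ _), hρ.mono (Nat.le_add_right _ _), hρ.trans h'.1,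
      hρ.trans h'.2.2.1, hd, lcexc_big_mono (hL k x z y h) (min_le_left _ _) Subset.rfl,
      lcexc_big_mono (hR k x' z' y' h') (min_le_right _ _) Subset.rfl⟩ with h2 | h2
    · have h3 := h.2.2.2.1
      rw [(hc.hgt_eq_empty z).2 h2] at h3
      exact h3.not_subset (empty_subset _)
    · have h3 := h.2.2.2.2
      rw [(hc.hgt_eq_top z).2 h2] at h3
      exact h3.not_subset fun T hT => hT.1
  intro U hU V hV
  rcases hc.cc_total hU.1.1 hV.1.1 with h1 | h1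
  · exact key U hU V hV h1
  · exact (key V hV U hU h1).symm

end Walls

end KKC.LC
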