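import Pool.Agent.Lib.MP_e1e491_gt.LCEv

/-! Tracks have infinite components. -/

namespace KKC.LC

open Set
open scoped Pointwise

variable {G Z : Type} [Group G] [MetricSpace Z] [MulAction G Z] [CompactSpace Z] {H : HB G Z} {K : ℕ}
  (W : Walls H K)

/-- Both `A U` and its complement are not empty (`lim`, `lim'`, `Ev.nonempty`); `nr_conn`,
`Conn.exit`. -/
theorem Walls.exists_edge (hK : GoodK H K) {U : Set Z} (hU : U ∈ W.F) :
    ∃ e, Ed (Nr H K) (W.A U) (W.A U)ᶜ e := by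
  obtain ⟨ξ, hξ⟩ := (W.side U hU).ne
  obtain ⟨ζ, hζ⟩ := (W.side U hU).ne'
  obtain ⟨a, ha⟩ := (W.lim U hU ξ hξ).nonempty
  obtain ⟨b, hb⟩ := (W.lim' U hU ζ hζ).nonempty
  obtain ⟨x, y, h1, h2, h3, -⟩ := (nr_conn H hK.one_le a b).exit (Q := fun v => v ∈ W.A U) ha hb
  exact ⟨(x, y), h3, h1.right.2, h2⟩

theorem lcinf_tr (H : HB G Z) (ξ : Z) {D E : Set G} (hD : D.Finite)
    (h : ∀ g : G, (fun v => g * v) '' E ⊆ D) : E = ∅ := by
  obtain ⟨w, hw⟩ := (ev_of_finite H hD ξ).nonempty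
  refine eq_empty_of_forall_notMem fun v hv => hw (h (w * v⁻¹) ⟨v, hv, ?_⟩)
  exact inv_mul_cancel_right w v

/-- `mp` with `Φ = ∅` applies to all translates `g E`, `g • U`; a non empty set cannot stay in a
finite set under all translations (`G` is infinite). -/
theorem Walls.no_island {U : Set Z} (hU : U ∈ W.F) {E : Set G} (hE : E.Finite) (hA : E ⊆ W.A U)
    (h : ∀ v ∈ E, ∀ w, Nr H K v w → w ∈ E ∨ w ∉ W.A U) : E = ∅ := by
  obtain ⟨D, hD, hm⟩ := W.mp ∅ finite_empty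
  obtain ⟨ξ, -⟩ := (W.side U hU).ne
  refine lcinf_tr H ξ hD fun g => hm (g • U) (W.inv g U hU) _ (hE.image _) ?_ ?_
  · rintro _ ⟨v, hv, rfl⟩
    exact (W.smul g v U hU).2 (hA hv)
  · rintro _ ⟨v, hv, rfl⟩ w hw
    obtain ⟨u, rfl⟩ : ∃ u, w = g * u := ⟨g⁻¹ * w, (mul_inv_cancel_left g w).symm⟩
    rcases h v hv u ((nr_smul H g v u).1 hw) with h1 | h1
    · exact Or.inl ⟨u, h1, rfl⟩
    · exact Or.inr (Or.inl fun h2 => h1 ((W.smul g u U hU).1 h2))

theorem Walls.no_island' {U : Set Z} (hU : U ∈ W.F) {E : Set G} (hE : E.Finite)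
    (hA : E ⊆ (W.A U)ᶜ) (h : ∀ v ∈ E, ∀ w, Nr H K v w → w ∈ E ∨ w ∈ W.A U) : E = ∅ := by
  obtain ⟨D, hD, hm⟩ := W.mp' ∅ finite_empty
  obtain ⟨ξ, -⟩ := (W.side U hU).ne
  refine lcinf_tr H ξ hD fun g => hm (g • U) (W.inv g U hU) _ (hE.image _) ?_ ?_
  · rintro _ ⟨v, hv, rfl⟩ h2
    exact hA hv ((W.smul g v U hU).1 h2)
  · rintro _ ⟨v, hv, rfl⟩ w hw
    obtain ⟨u, rfl⟩ : ∃ u, w = g * u := ⟨g⁻¹ * w, (mul_inv_cancel_left g w).symm⟩
    rcases h v hv u ((nr_smul H g v u).1 hw) with h1 | h1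
    · exact Or.inl ⟨u, h1, rfl⟩
    · exact Or.inr (Or.inl ((W.smul g u U hU).2 h1))

/-- a potential that jumps exactly on one component of the track -/
theorem lcinf_pot {V : Type} {N : V → V → Prop} (hN : RS N) (h1 : H1 N) (A : Set V) (e₀ : V × V) :
    ∃ φ : V → ℝ, (∀ a b, Conn (Adj N) (Ed N A Aᶜ) e₀ (a, b) → φ b ≠ φ a) ∧
      ∀ a b, N a b → ¬ Conn (Adj N) (Ed N A Aᶜ) e₀ (a, b) → ¬ Conn (Adj N) (Ed N A Aᶜ) e₀ (b, a) →
        φ b = φ a := by
  classical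
  obtain ⟨t, ht⟩ : ∃ t : V → V → ℝ, ∀ a b,
      t a b = if Conn (Adj N) (Ed N A Aᶜ) e₀ (a, b) then 1 else 0 := ⟨_, fun _ _ => rfl⟩
  have z1 : ∀ {a} (b), a ∉ A → t a b = 0 := fun b h => by
    rw [ht, if_neg fun h' => h h'.right.2.1]
  have z2 : ∀ (a) {b}, b ∈ A → t a b = 0 := fun a b h => by
    rw [ht, if_neg fun h' => h'.right.2.2 h]
  have e1 : ∀ {x y z}, N x y → N x z → N y z → y ∉ A → z ∉ A → t x y = t x z :=
    fun hxy hxz hyz hy hz => by
      rw [ht, ht]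
      exact if_congr ⟨fun h => h.snoc ⟨hxz, h.right.2.1, hz⟩ (Or.inl ⟨rfl, hyz⟩),
        fun h => h.snoc ⟨hxy, h.right.2.1, hy⟩ (Or.inl ⟨rfl, hN.symm _ _ hyz⟩)⟩ rfl rfl
  have e2 : ∀ {x y z}, N x z → N y z → N x y → x ∈ A → y ∈ A → t x z = t y z :=
    fun hxz hyz hxy hx hy => by
      rw [ht, ht]
      exact if_congr ⟨fun h => h.snoc ⟨hyz, hy, h.right.2.2⟩ (Or.inr ⟨rfl, hxy⟩),
        fun h => h.snoc ⟨hxz, hx, h.right.2.2⟩ (Or.inr ⟨rfl, hN.symm _ _ hxy⟩)⟩ rfl rfl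
  obtain ⟨φ, hφ⟩ := h1 (fun a b => t b a - t a b) (by
    intro a b c hab hbc hac
    have hba := hN.symm _ _ hab
    have hcb := hN.symm _ _ hbc
    have hca := hN.symm _ _ hac
    by_cases ha : a ∈ A <;> by_cases hb : b ∈ A <;> by_cases hc : c ∈ A
    · linarith [z2 b ha, z2 c ha, z2 a hb, z2 c hb, z2 a hc, z2 b hc]
    · linarith [z2 b ha, z2 c ha, z2 a hb, z2 c hb, e2 hac hbc hab ha hb]
    · linarith [z2 b ha, z2 c ha, z2 a hc, z2 b hc, e2 hab hcb hac ha hc]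
    · linarith [z2 b ha, z2 c ha, z1 c hb, z1 b hc, e1 hab hac hbc hb hc]
    · linarith [z2 a hb, z2 c hb, z2 a hc, z2 b hc, e2 hba hca hbc hb hc]
    · linarith [z2 a hb, z2 c hb, z1 c ha, z1 a hc, e1 hba hbc hac ha hc]
    · linarith [z2 a hc, z2 b hc, z1 b ha, z1 a hb, e1 hcb hca hba hb ha]
    · linarith [z1 b ha, z1 c ha, z1 a hb, z1 c hb, z1 a hc, z1 b hc])
  refine ⟨φ, fun a b h e => ?_, fun a b hab h h' => ?_⟩
  · have h2 := hφ a b h.right.1
    have h3 : t b a = 0 := z1 a h.right.2.2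
    have h4 : t a b = 1 := by rw [ht, if_pos h]
    simp only [h3, h4, e] at h2
    norm_num at h2
  · have h2 := hφ a b hab
    simp only [ht, if_neg h, if_neg h'] at h2
    linarith

/-- The gradient of the indicator of `A U`, restricted to the component `T`, is closed, so it is the
gradient of `phi`; `phi` is constant on the first ends of `T` (`Conn.induct`) and smaller by one on
the second ends. Let `D` be the level set of the first ends: an edge that leaves `D` is in `T`. If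
`T` is finite, `GoodK.dich` for `M = univ` (`ev_of_finite`) and `finite_of_ev` make `D` or its
complement finite; `no_island` for `D ∩ A U` or `no_island'` for `Dᶜ \ A U`. -/
theorem Walls.track_infinite [PreconnectedSpace Z] (hK : GoodK H K) {U : Set Z} (hU : U ∈ W.F)
    {e₀ : G × G} (h0 : Ed (Nr H K) (W.A U) (W.A U)ᶜ e₀) :
    {e | Conn (Adj (Nr H K)) (Ed (Nr H K) (W.A U) (W.A U)ᶜ) e₀ e}.Infinite := by
  intro hT
  obtain ⟨φ, h1, h2⟩ := lcinf_pot (nr_rs H K) hK.h1 (W.A U) e₀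
  have h3 := h1 e₀.1 e₀.2 (Conn.refl h0)
  have hd := hK.dich (M := univ) isPreconnected_univ (E := {v | φ v = φ e₀.1}) fun ξ _ =>
    (ev_of_finite H ((hT.image Prod.fst).union (hT.image Prod.snd)) ξ).mono fun v hv w hw => by
      have h4 := h2 v w hw (fun h => hv (Or.inl ⟨_, h, rfl⟩)) fun h => hv (Or.inr ⟨_, h, rfl⟩)
      show φ v = φ e₀.1 ↔ φ w = φ e₀.1
      rw [h4]
  rcases hd with hd | hd
  · have hF : {v | φ v = φ e₀.1}ᶜ.Finite :=
      finite_of_ev (H := H) fun ξ => by rw [compl_compl]; exact hd ξ (mem_univ ξ)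
    have h5 := W.no_island' hU (hF.inter_of_left (W.A U)ᶜ) inter_subset_right fun v hv w hw => by
      by_cases hA : w ∈ W.A U
      · exact Or.inr hA
      · have h4 := h2 v w hw (fun h => hv.2 h.right.2.1) fun h => hA h.right.2.1
        exact Or.inl ⟨fun e => hv.1 (h4.symm.trans e), hA⟩
    exact eq_empty_iff_forall_notMem.1 h5 e₀.2 ⟨h3, h0.2.2⟩
  · have hF : {v | φ v = φ e₀.1}.Finite := finite_of_ev (H := H) fun ξ => hd ξ (mem_univ ξ)
    have h5 := W.no_island hU (hF.inter_of_left (W.A U)) inter_subset_right fun v hv w hw => by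
      by_cases hA : w ∈ W.A U
      · have h4 := h2 v w hw (fun h => h.right.2.2 hA) fun h => h.right.2.2 hv.2
        exact Or.inl ⟨h4.trans hv.1, hA⟩
      · exact Or.inr hA
    exact eq_empty_iff_forall_notMem.1 h5 e₀.1 ⟨rfl, h0.2.1⟩

end KKC.LC
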