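import Pool.Agent.Lib.MP_e1e491_gt.LCMain
import Pool.Agent.Lib.MP_e1e491_gt.CC.LLC
import Pool.Agent.Lib.MP_e1e491_gt.GeoBr

/-! A connected boundary is linearly locally connected, in the two forms used elsewhere. -/

open Set Metric

/-- The ball form of linear local connectivity gives the three point form. -/
theorem KCC.LL.geoP {Z : Type} [MetricSpace Z] {lam : ℝ} (h : KCC.LL Z lam) :
    KP2.GeoP (fun _ : Empty => (∅ : Set Z)) lam := by
  have h1 := h.one_le
  have l1 : ∀ x y : Z, ∃ E : Set Z, IsPreconnected E ∧ x ∈ E ∧ y ∈ E ∧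
      ∀ w ∈ E, dist x w ≤ lam * dist x y := by
    intro x y
    by_cases hxy : x = y
    · subst hxy
      exact ⟨{x}, isPreconnected_singleton, rfl, rfl, by simp⟩
    · obtain ⟨E, hE, hc, hx, hy⟩ := KKC.geobr_set (h.l1 x (dist x y) x y (dist_pos.2 hxy)
        (by simp) (by rw [dist_comm]))
      exact ⟨E, hc, hx, hy, fun w hw => by rw [dist_comm]; exact mem_closedBall.1 (hE hw)⟩
  refine ⟨h1, l1, fun j => j.elim, fun x y z => ?_, fun j => j.elim⟩
  rcases (le_min dist_nonneg dist_nonneg : 0 ≤ min (dist x y) (dist x z)).eq_or_lt with h0 | h0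
  · obtain ⟨E, hc, hy, hz, -⟩ := l1 y z
    refine ⟨E, hc, hy, hz, fun w _ => ?_⟩
    rw [← h0]
    positivity
  · set m := min (dist x y) (dist x z) with hm
    have hM : 0 < lam := by linarith
    have e : lam * (m / lam) = m := by field_simp
    obtain ⟨E, hE, hc, hy, hz⟩ := KKC.geobr_set (h.l2 x (m / lam) y z (by positivity)
      (by rw [e, dist_comm]; exact min_le_left _ _) (by rw [e, dist_comm]; exact min_le_right _ _))
    refine ⟨E, hc, hy, hz, fun w hw => ?_⟩
    have h2 := hE hw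
    rw [mem_compl_iff, mem_closedBall, not_le, dist_comm, div_lt_iff₀ hM] at h2
    linarith [mul_comm lam (dist x w)]

namespace KKC.LC

variable {G Z : Type} [Group G] [MetricSpace Z] [MulAction G Z] [CompactSpace Z]
  [PreconnectedSpace Z] [Nontrivial Z] (H : HB G Z)

include H

theorem compl_pc (y : Z) : IsPathConnected ({y}ᶜ : Set Z) := (H.pc_of_nocut (no_cut H)).1 y

theorem univ_pc : IsPathConnected (univ : Set Z) := (H.pc_of_nocut (no_cut H)).2

theorem ll_cc : ∃ lam : ℝ, KCC.LL Z lam := by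
  have := lpc H
  exact KCC.ll_of_hb H (univ_pc H) (compl_pc H)

theorem ll_geo : ∃ C : ℝ, KP2.GeoP (fun _ : Empty => (∅ : Set Z)) C := by
  obtain ⟨lam, h⟩ := ll_cc H
  exact ⟨lam, h.geoP⟩

end KKC.LC
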