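import Pool.Agent.Lib.MP_e1e491_gt.LCRet

/-! The region behind the gates of one level. -/

namespace KKC.LC

open Set

variable {V Λ : Type} [LinearOrder Λ] [BoundedOrder Λ] {N : V → V → Prop} {ht : V → Λ} {L : ℕ}
  {e₀ : V × V}

theorem lcpot_PL {m : Λ} {a b : V} (h : PL N ht e₀ m (a, b)) :
    N a b ∧ ht a = ⊥ ∧ ht b ≠ ⊥ ∧ ¬ RR N ht e₀ (a, b) := by
  obtain ⟨x, z, y, -, -, h⟩ := h
  exact ⟨h.right.1.1, h.right.1.2.1, h.right.1.2.2, h.right.2⟩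

theorem lcpot_PH {m : Λ} {a b : V} (h : PH N ht e₀ m (a, b)) :
    N a b ∧ ht a ≠ ⊤ ∧ ht b = ⊤ ∧ ¬ RR N ht e₀ (a, b) := by
  obtain ⟨x, z, y, -, -, h⟩ := h
  exact ⟨h.right.1.1, h.right.1.2.1, h.right.1.2.2, h.right.2⟩

theorem lcpot_RR {a b : V} (h : RR N ht e₀ (a, b)) : N a b ∧ ht a = ⊥ ∧ ht b = ⊤ := h.right

theorem lcpot_PL_step {m : Λ} {d : V × V} {a b : V} (h : PL N ht e₀ m d) (h1 : N a b)
    (h2 : ht a = ⊥) (h3 : ht b ≠ ⊥) (h4 : ¬ RR N ht e₀ (a, b)) (h5 : Adj N d (a, b)) :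
    PL N ht e₀ m (a, b) := by
  obtain ⟨x, z, y, g1, g2, h⟩ := h
  exact ⟨x, z, y, g1, g2, h.snoc ⟨⟨h1, h2, h3⟩, h4⟩ h5⟩

theorem lcpot_PH_step {m : Λ} {d : V × V} {a b : V} (h : PH N ht e₀ m d) (h1 : N a b)
    (h2 : ht a ≠ ⊤) (h3 : ht b = ⊤) (h4 : ¬ RR N ht e₀ (a, b)) (h5 : Adj N d (a, b)) :
    PH N ht e₀ m (a, b) := by
  obtain ⟨x, z, y, g1, g2, h⟩ := h
  exact ⟨x, z, y, g1, g2, h.snoc ⟨⟨h1, h2, h3⟩, h4⟩ h5⟩

theorem lcpot_RR_step {d : V × V} {a b : V} (h : RR N ht e₀ d) (h1 : N a b) (h2 : ht a = ⊥)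
    (h3 : ht b = ⊤) (h5 : Adj N d (a, b)) : RR N ht e₀ (a, b) := Conn.snoc h ⟨h1, h2, h3⟩ h5

theorem lcpot_gateL (hN : RS N) (hP : Plat N ht L) {m : Λ} {x z y : V} (g : Gate N ht e₀ x z y) :
    PL N ht e₀ m (x, z) ↔ ht z = m := by
  have h : PL N ht e₀ (ht z) (x, z) := ⟨x, z, y, g, rfl, Conn.refl
    ⟨⟨g.2.1, (lcpot_RR g.1).2.1, g.2.2.2.1⟩, fun h => g.2.2.2.2 (lcpot_RR h).2.2⟩⟩
  exact ⟨ret hN hP h, fun e => e ▸ h⟩

theorem lcpot_gateH (hN : RS N) (hP : Plat N ht L) {m : Λ} {x z y : V} (g : Gate N ht e₀ x z y) :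
    PH N ht e₀ m (z, y) ↔ ht z = m := by
  have h : PH N ht e₀ (ht z) (z, y) := ⟨x, z, y, g, rfl, Conn.refl
    ⟨⟨g.2.2.1, g.2.2.2.2, (lcpot_RR g.1).2.2⟩, fun h => g.2.2.2.1 (lcpot_RR h).2.1⟩⟩
  exact ⟨ret' hN hP h, fun e => e ▸ h⟩

open Classical in
/-- The indicator of a proposition. -/
noncomputable def lcpot_ind (p : Prop) : ℝ := if p then 1 else 0

theorem lcpot_neg {p : Prop} (h : ¬ p) : lcpot_ind p = 0 := if_neg h

theorem lcpot_pos {p : Prop} (h : p) : lcpot_ind p = 1 := if_pos h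

theorem lcpot_congr {p q : Prop} (h : p ↔ q) : lcpot_ind p = lcpot_ind q := by rw [propext h]

variable (N ht e₀) in
/-- The cochain of the level `m`. -/
noncomputable def lcpot_om (m : Λ) (v w : V) : ℝ :=
  lcpot_ind (PL N ht e₀ m (w, v)) - lcpot_ind (PL N ht e₀ m (v, w)) +
    (lcpot_ind (PH N ht e₀ m (v, w)) - lcpot_ind (PH N ht e₀ m (w, v)))

theorem lcpot_up {m : Λ} {a b : V} (h : ht a ≤ ht b) : lcpot_om N ht e₀ m a b =
    lcpot_ind (PH N ht e₀ m (a, b)) - lcpot_ind (PL N ht e₀ m (a, b)) := by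
  have h1 : ¬ PL N ht e₀ m (b, a) := fun g =>
    (lcpot_PL g).2.2.1 (le_bot_iff.1 (h.trans (lcpot_PL g).2.1.le))
  have h2 : ¬ PH N ht e₀ m (b, a) := fun g =>
    (lcpot_PH g).2.1 (top_le_iff.1 ((lcpot_PH g).2.2.1.ge.trans h))
  rw [lcpot_om, lcpot_neg h1, lcpot_neg h2]
  ring

theorem lcpot_low (hN : RS N) {m : Λ} {a b c : V} (hab : N a b) (hbc : N b c) (hac : N a c)
    (h1 : ht a ≤ ht b) (h2 : ht b ≤ ht c) (hg : ¬ Gate N ht e₀ a b c) :
    lcpot_ind (PL N ht e₀ m (a, b)) + lcpot_ind (PL N ht e₀ m (b, c)) =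
      lcpot_ind (PL N ht e₀ m (a, c)) := by
  by_cases hb : ht b = ⊥
  · have ha : ht a = ⊥ := le_bot_iff.1 (h1.trans hb.le)
    rw [lcpot_neg fun g => (lcpot_PL g).2.2.1 hb, zero_add]
    refine lcpot_congr ⟨fun g => lcpot_PL_step g hac ha (lcpot_PL g).2.2.1 (fun r => ?_)
      (Or.inr ⟨rfl, hN.symm _ _ hab⟩), fun g => lcpot_PL_step g hbc hb (lcpot_PL g).2.2.1
      (fun r => ?_) (Or.inr ⟨rfl, hab⟩)⟩
    · exact (lcpot_PL g).2.2.2 (lcpot_RR_step r hbc hb (lcpot_RR r).2.2 (Or.inr ⟨rfl, hab⟩))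
    · exact (lcpot_PL g).2.2.2
        (lcpot_RR_step r hac ha (lcpot_RR r).2.2 (Or.inr ⟨rfl, hN.symm _ _ hab⟩))
  · have hc : ht c ≠ ⊥ := fun h => hb (le_bot_iff.1 (h2.trans h.le))
    rw [lcpot_neg (p := PL N ht e₀ m (b, c)) fun g => hb (lcpot_PL g).2.1, add_zero]
    refine lcpot_congr ⟨fun g => lcpot_PL_step g hac (lcpot_PL g).2.1 hc (fun r => ?_)
      (Or.inl ⟨rfl, hbc⟩), fun g => lcpot_PL_step g hab (lcpot_PL g).2.1 hb (fun r => ?_)
      (Or.inl ⟨rfl, hN.symm _ _ hbc⟩)⟩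
    · exact hg ⟨r, hab, hbc, hb, fun h => (lcpot_PL g).2.2.2
        (lcpot_RR_step r hab (lcpot_RR r).2.1 h (Or.inl ⟨rfl, hN.symm _ _ hbc⟩))⟩
    · exact (lcpot_PL g).2.2.2 (lcpot_RR_step r hac (lcpot_RR r).2.1
        (top_le_iff.1 ((lcpot_RR r).2.2.ge.trans h2)) (Or.inl ⟨rfl, hbc⟩))

theorem lcpot_high (hN : RS N) {m : Λ} {a b c : V} (hab : N a b) (hbc : N b c) (hac : N a c)
    (h1 : ht a ≤ ht b) (h2 : ht b ≤ ht c) (hg : ¬ Gate N ht e₀ a b c) :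
    lcpot_ind (PH N ht e₀ m (a, b)) + lcpot_ind (PH N ht e₀ m (b, c)) =
      lcpot_ind (PH N ht e₀ m (a, c)) := by
  by_cases hb : ht b = ⊤
  · have hc : ht c = ⊤ := top_le_iff.1 (hb.ge.trans h2)
    rw [lcpot_neg (p := PH N ht e₀ m (b, c)) fun g => (lcpot_PH g).2.1 hb, add_zero]
    refine lcpot_congr ⟨fun g => lcpot_PH_step g hac (lcpot_PH g).2.1 hc (fun r => ?_)
      (Or.inl ⟨rfl, hbc⟩), fun g => lcpot_PH_step g hab (lcpot_PH g).2.1 hb (fun r => ?_)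
      (Or.inl ⟨rfl, hN.symm _ _ hbc⟩)⟩
    · exact (lcpot_PH g).2.2.2
        (lcpot_RR_step r hab (lcpot_RR r).2.1 hb (Or.inl ⟨rfl, hN.symm _ _ hbc⟩))
    · exact (lcpot_PH g).2.2.2 (lcpot_RR_step r hac (lcpot_RR r).2.1 hc (Or.inl ⟨rfl, hbc⟩))
  · have ha : ht a ≠ ⊤ := fun h => hb (top_le_iff.1 (h.ge.trans h1))
    rw [lcpot_neg fun g => hb (lcpot_PH g).2.2.1, zero_add]
    refine lcpot_congr ⟨fun g => lcpot_PH_step g hac ha (lcpot_PH g).2.2.1 (fun r => ?_)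
      (Or.inr ⟨rfl, hN.symm _ _ hab⟩), fun g => lcpot_PH_step g hbc hb (lcpot_PH g).2.2.1
      (fun r => ?_) (Or.inr ⟨rfl, hab⟩)⟩
    · exact hg ⟨r, hab, hbc, fun h => (lcpot_PH g).2.2.2
        (lcpot_RR_step r hbc h (lcpot_RR r).2.2 (Or.inr ⟨rfl, hab⟩)), hb⟩
    · exact (lcpot_PH g).2.2.2 (lcpot_RR_step r hac
        (le_bot_iff.1 (h1.trans (lcpot_RR r).2.1.le)) (lcpot_RR r).2.2
        (Or.inr ⟨rfl, hN.symm _ _ hab⟩))

theorem lcpot_sorted (hN : RS N) (hP : Plat N ht L) (m : Λ) {a b c : V} (hab : N a b)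
    (hbc : N b c) (hac : N a c) (h1 : ht a ≤ ht b) (h2 : ht b ≤ ht c) :
    lcpot_om N ht e₀ m a b + lcpot_om N ht e₀ m b c = lcpot_om N ht e₀ m a c := by
  rw [lcpot_up h1, lcpot_up h2, lcpot_up (h1.trans h2)]
  by_cases hg : Gate N ht e₀ a b c
  · rw [lcpot_neg (p := PH N ht e₀ m (a, b)) fun g => hg.2.2.2.2 (lcpot_PH g).2.2.1,
      lcpot_neg (p := PL N ht e₀ m (b, c)) fun g => hg.2.2.2.1 (lcpot_PL g).2.1,
      lcpot_neg (p := PH N ht e₀ m (a, c)) fun g => (lcpot_PH g).2.2.2 hg.1,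
      lcpot_neg (p := PL N ht e₀ m (a, c)) fun g => (lcpot_PL g).2.2.2 hg.1,
      lcpot_congr ((lcpot_gateL hN hP hg).trans (lcpot_gateH hN hP hg).symm)]
    ring
  · linear_combination lcpot_high hN hab hbc hac h1 h2 hg - lcpot_low hN hab hbc hac h1 h2 hg

theorem lcpot_anti (m : Λ) (a b : V) : lcpot_om N ht e₀ m a b = -lcpot_om N ht e₀ m b a := by
  simp only [lcpot_om]
  ring

theorem lcpot_closed (hN : RS N) (hP : Plat N ht L) (m : Λ) (a b c : V) (hab : N a b)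
    (hbc : N b c) (hac : N a c) :
    lcpot_om N ht e₀ m a b + lcpot_om N ht e₀ m b c = lcpot_om N ht e₀ m a c := by
  have hba := hN.symm _ _ hab
  have hcb := hN.symm _ _ hbc
  have hca := hN.symm _ _ hac
  have e1 := lcpot_anti (N := N) (ht := ht) (e₀ := e₀) m a b
  have e2 := lcpot_anti (N := N) (ht := ht) (e₀ := e₀) m b c
  have e3 := lcpot_anti (N := N) (ht := ht) (e₀ := e₀) m a c
  rcases le_total (ht a) (ht b) with h1 | h1 <;> rcases le_total (ht b) (ht c) with h2 | h2 <;>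
    rcases le_total (ht a) (ht c) with h3 | h3
  · exact lcpot_sorted hN hP m hab hbc hac h1 h2
  · exact lcpot_sorted hN hP m hab hbc hac h1 h2
  · linarith [lcpot_sorted (e₀ := e₀) hN hP m hac hcb hab h3 h2]
  · linarith [lcpot_sorted (e₀ := e₀) hN hP m hca hab hcb h3 h1]
  · linarith [lcpot_sorted (e₀ := e₀) hN hP m hba hac hbc h1 h3]
  · linarith [lcpot_sorted (e₀ := e₀) hN hP m hbc hca hba h2 h3]
  · linarith [lcpot_sorted (e₀ := e₀) hN hP m hcb hba hca h2 h1]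
  · linarith [lcpot_sorted (e₀ := e₀) hN hP m hcb hba hca h2 h1]

/-- For a level `m` let `om v w` be the sum of (indicator of bottom at `w` minus at `v`, if `(v,w)`
or `(w,v)` is in `PL m`) and (the same for top and `PH m`). It is closed: in a triangle two edges of
the lower track are both in `PL m` or both not, unless one of them is in the product region and the
other is not; then the triangle is a gate `(x,z,y)` in some order, `(x,z)` is in `PL m` iff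
`ht z = m` iff `(z,y)` is in `PH m` (`ret`, `ret'`), and the two parts cancel. Take the potential
`phi` with `phi e₀.1 = 0`, `E m = {phi ≠ 0}`. Bottom ends of lower track edges joined to `e₀` and top
ends of upper track edges joined to `e₀` have `phi = 0` (`Conn.induct`). Disjointness: walk from a
common point to `e₀.1`; the edge that leaves `E m ∩ E m'` leaves both through the same kind of end,
so it lies in `PL m` and `PL m'` or in `PH m` and `PH m'`. -/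
theorem exists_E (hN : RS N) (hc : ∀ a b, Conn N (fun _ => True) a b) (h1 : H1 N)
    (hP : Plat N ht L) (h0 : Ed N {v | ht v = ⊥} {v | ht v = ⊤} e₀) (hne : (⊥ : Λ) ≠ ⊤) :
    ∃ E : Λ → Set V, (∀ m m', m ≠ m' → Disjoint (E m) (E m')) ∧
      (∀ m v w, N v w → v ∈ E m → w ∉ E m → ht w = ⊥ ∨ ht w = ⊤) ∧
      ∀ m d, PH N ht e₀ m d → ht d.1 = ⊥ ∨ d.1 ∈ E m := by
  choose φ hφ using fun m => h1 _ (lcpot_closed (e₀ := e₀) hN hP m)
  have hz : ∀ m a b, N a b → ht a = ht b → φ m a = φ m b := fun m a b hab h => by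
    have e := hφ m a b hab
    rw [lcpot_om, lcpot_neg fun g => (lcpot_PL g).2.2.1 (h.trans (lcpot_PL g).2.1),
      lcpot_neg fun g => (lcpot_PL g).2.2.1 (h.symm.trans (lcpot_PL g).2.1),
      lcpot_neg fun g => (lcpot_PH g).2.1 (h.trans (lcpot_PH g).2.2.1),
      lcpot_neg fun g => (lcpot_PH g).2.1 (h.symm.trans (lcpot_PH g).2.2.1)] at e
    linarith
  have hb : ∀ m, φ m e₀.2 = φ m e₀.1 := fun m => by
    have r : RR N ht e₀ (e₀.1, e₀.2) := Conn.refl h0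
    have e := hφ m e₀.1 e₀.2 h0.1
    rw [lcpot_up (h0.2.1.le.trans bot_le), lcpot_neg fun g => (lcpot_PH g).2.2.2 r,
      lcpot_neg fun g => (lcpot_PL g).2.2.2 r] at e
    linarith
  have hA : ∀ m m' a b, PL N ht e₀ m' (a, b) → φ m a = φ m e₀.1 := by
    rintro m m' a b ⟨x, z, y, g, -, h⟩
    have c1 : Conn (Adj N) (Ed N {v | ht v = ⊥} {v | ht v = ⊥}ᶜ) e₀ (a, b) :=
      ((Conn.mono (fun d hd => ⟨hd.1, hd.2.1, fun e => hne (e.symm.trans hd.2.2)⟩) g.1).snoc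
        h.left.1 (Or.inl ⟨rfl, hN.symm _ _ g.2.2.1⟩)).trans (h.mono fun _ hd => hd.1)
    refine c1.induct (Q := fun d => φ m d.1 = φ m e₀.1) rfl fun d f hd hf ih hdf => ?_
    rcases hdf with e | e
    · exact e.1 ▸ ih
    · exact (hz m _ _ e.2 (hd.2.1.trans hf.2.1.symm)).symm.trans ih
  have hB : ∀ m m' a b, PH N ht e₀ m' (a, b) → φ m b = φ m e₀.1 := by
    rintro m m' a b ⟨x, z, y, g, -, h⟩
    have c1 : Conn (Adj N) (Ed N {v | ht v = ⊤}ᶜ {v | ht v = ⊤}) e₀ (a, b) :=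
      ((Conn.mono (fun d hd => ⟨hd.1, fun e => hne (hd.2.1.symm.trans e), hd.2.2⟩) g.1).snoc
        h.left.1 (Or.inr ⟨rfl, g.2.1⟩)).trans (h.mono fun _ hd => hd.1)
    refine c1.induct (Q := fun d => φ m d.2 = φ m e₀.1) (hb m) fun d f hd hf ih hdf => ?_
    rcases hdf with e | e
    · exact (hz m _ _ e.2 (hd.2.2.trans hf.2.2.symm)).symm.trans ih
    · exact e.1 ▸ ih
  have hl : ∀ m v w, N v w → φ m v ≠ φ m e₀.1 → φ m w = φ m e₀.1 →
      PL N ht e₀ m (w, v) ∨ PH N ht e₀ m (v, w) := fun m v w hvw hv hw => by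
    by_contra hn
    have e := hφ m v w hvw
    rw [lcpot_om, lcpot_neg fun g => hn (Or.inl g), lcpot_neg fun g => hv (hA m m _ _ g),
      lcpot_neg fun g => hn (Or.inr g), lcpot_neg fun g => hv (hB m m _ _ g)] at e
    exact hv (by linarith)
  have hd : ∀ m m' v w, N v w → φ m v ≠ φ m e₀.1 → φ m' v ≠ φ m' e₀.1 → φ m w = φ m e₀.1 →
      m = m' := fun m m' v w hvw hv hv' hw => by
    rcases hl m v w hvw hv hw with g | g
    · rcases hl m' v w hvw hv' (hA m' m _ _ g) with g' | g'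
      · exact ret hN hP g g'
      · exact absurd ((lcpot_PL g).2.1.symm.trans (lcpot_PH g').2.2.1) hne
    · rcases hl m' v w hvw hv' (hB m' m _ _ g) with g' | g'
      · exact absurd ((lcpot_PL g').2.1.symm.trans (lcpot_PH g).2.2.1) hne
      · exact ret' hN hP g g'
  refine ⟨fun m => {v | φ m v ≠ φ m e₀.1}, fun m m' hm => disjoint_left.2 fun v hv hv' => ?_,
    fun m v w hvw hv hw => ?_, fun m d g => ?_⟩
  · obtain ⟨x, y, c1, c2, c3, -⟩ := (hc v e₀.1).exit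
      (Q := fun v => φ m v ≠ φ m e₀.1 ∧ φ m' v ≠ φ m' e₀.1) ⟨hv, hv'⟩ fun h => h.1 rfl
    by_cases h : φ m y = φ m e₀.1
    · exact hm (hd m m' x y c3 c1.right.2.1 c1.right.2.2 h)
    · exact hm (hd m' m x y c3 c1.right.2.2 c1.right.2.1
        (not_not.1 fun h' => c2 ⟨h, h'⟩)).symm
  · exact (hl m v w hvw hv (not_not.1 hw)).imp (fun g => (lcpot_PL g).2.1)
      fun g => (lcpot_PH g).2.2.1
  · obtain ⟨a, b⟩ := d
    refine or_iff_not_imp_left.2 fun ha h => ?_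
    have e := hφ m a b (lcpot_PH g).1
    rw [lcpot_up (le_top.trans (lcpot_PH g).2.2.1.ge), lcpot_pos g,
      lcpot_neg fun g' => ha (lcpot_PL g').2.1, hB m m a b g] at e
    have h' : φ m a = φ m e₀.1 := h
    linarith

end KKC.LC
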