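import Pool.Agent.Lib.MP_e1e491_gt.LCWk

/-! A path that leaves the product region comes back through a gate of the same level. -/

namespace KKC.LC

open Set

variable {V Λ : Type} [LinearOrder Λ] [BoundedOrder Λ] {N : V → V → Prop} {ht : V → Λ} {L : ℕ}
  {e₀ : V × V}

theorem lcret_exit {α : Type} {r : α → α → Prop} {P Q : α → Prop} {a b : α} (h : Conn r P a b)
    (ha : Q a) : Conn r (fun v => P v ∧ Q v) a b ∨
      ∃ x y, Conn r (fun v => P v ∧ Q v) a x ∧ ¬ Q y ∧ r x y ∧ P y := by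
  obtain ⟨n, h⟩ := h
  induction n generalizing b with
  | zero => exact Or.inl (h.2 ▸ Conn.refl ⟨h.1, ha⟩)
  | succ n ih =>
    obtain ⟨c, h1, h2, h3⟩ := h
    rcases ih h1 with h4 | h4
    · by_cases hb : Q b
      · exact Or.inl (h4.snoc ⟨h2, hb⟩ h3)
      · exact Or.inr ⟨c, b, h4, hb, h3, h2⟩
    · exact Or.inr h4

/-- Bottom edges outside the product region whose second end has a height in `S`. -/
def lcret_B (N : V → V → Prop) (ht : V → Λ) (e₀ : V × V) (S : Finset Λ) (d : V × V) : Prop :=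
  N d.1 d.2 ∧ ht d.1 = ⊥ ∧ ht d.2 ≠ ⊥ ∧ ¬ RR N ht e₀ d ∧ ht d.2 ∈ S

theorem lcret_side (hN : RS N) {μ : Λ} {S : Finset Λ} (hS : ∀ a ∈ S, μ < a) {x z y : V}
    (g : Gate N ht e₀ x z y) {w : V × V}
    (h : Conn (Adj N) (lcret_B N ht e₀ (insert μ S)) (x, z) w) :
    Conn (Adj N) (lcret_B N ht e₀ S) (x, z) w ∨ ∃ e, Gated N {v | ht v < μ} {v | μ < ht v} e ∧
      Conn (Adj N) (Ed N {v | ht v < μ} {v | μ < ht v}) e₀ e ∧ ht e.1 = ⊥ ∧
      ((RR N ht e₀ e ∧ ht z = μ) ∨ Conn (Adj N) (lcret_B N ht e₀ S) (x, z) e) := by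
  obtain ⟨g1, g2, g3, g4, g5⟩ := g
  have key : ⊥ < μ → μ < ⊤ → Conn (Adj N) (Ed N {v | ht v < μ} {v | μ < ht v}) e₀ (x, y) :=
    fun h1 h2 => g1.mono fun d hd =>
      ⟨hd.1, (show ht d.1 = ⊥ from hd.2.1).trans_lt h1, h2.trans_eq (Eq.symm hd.2.2)⟩
  by_cases hz : ht z = μ
  · have k := key (hz ▸ bot_lt_iff_ne_bot.2 g4) (hz ▸ lt_top_iff_ne_top.2 g5)
    exact Or.inr ⟨(x, y), ⟨k.right, z, hz.not_lt, hz.not_gt, g2, g3⟩, k, g1.right.2.1,
      Or.inl ⟨g1, hz⟩⟩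
  have mono : ∀ d, (lcret_B N ht e₀ (insert μ S) d ∧ ht d.2 ≠ μ) → lcret_B N ht e₀ S d :=
    fun d ⟨⟨a, b, c, e, f⟩, hd⟩ => ⟨a, b, c, e, (Finset.mem_insert.1 f).resolve_left hd⟩
  rcases lcret_exit h (Q := fun d => ht d.2 ≠ μ) hz with h1 | ⟨e, f, h1, h2, h3, h4⟩
  · exact Or.inl (h1.mono mono)
  replace h1 := h1.mono mono
  replace h2 : ht f.2 = μ := not_not.1 h2
  have b1 : ⊥ < μ := h2 ▸ bot_lt_iff_ne_bot.2 h4.2.2.1
  have sub : ∀ d, lcret_B N ht e₀ S d → Ed N {v | ht v < μ} {v | μ < ht v} d := fun d hd =>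
    ⟨hd.1, hd.2.1.trans_lt b1, hS _ hd.2.2.2.2⟩
  have he := sub _ h1.right
  obtain ⟨h5, h6⟩ := h3.resolve_right fun h => (show μ < ht e.2 from he.2.2).ne (by rw [h.1, h2])
  refine Or.inr ⟨e, ⟨he, f.2, h2.not_lt, h2.not_gt, h5 ▸ h4.1, hN.symm _ _ h6⟩,
    ((key b1 ((show μ < ht e.2 from he.2.2).trans_le le_top)).snoc (sub _ h1.left)
      (Or.inl ⟨rfl, hN.symm _ _ g3⟩)).trans (h1.mono sub), h1.right.2.1, Or.inr h1⟩

theorem lcret_main (hN : RS N) (hP : Plat N ht L) (S : Finset Λ) :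
    ∀ x z y x' z' y', Gate N ht e₀ x z y → Gate N ht e₀ x' z' y' →
      Conn (Adj N) (lcret_B N ht e₀ S) (x, z) (x', z') → ht z = ht z' := by
  induction S using Finset.induction_on_min with
  | empty => exact fun x z y x' z' y' _ _ h => absurd h.left.2.2.2.2 (Finset.notMem_empty _)
  | insert μ S hS ih =>
    intro x z y x' z' y' g g' h
    rcases lcret_side hN hS g h with h1 | ⟨e, e1, e2, e3, e4⟩
    · exact ih _ _ _ _ _ _ g g' h1
    rcases lcret_side hN hS g' (h.symm hN.adj) with h1 | ⟨f, f1, f2, f3, f4⟩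
    · exact (ih _ _ _ _ _ _ g' g h1).symm
    have w := hP μ e f e1 f1 ((e2.symm hN.adj).trans f2)
    rcases e4 with ⟨e4, e5⟩ | e4
    · have : RR N ht e₀ f := Conn.trans e4 ⟨L, w.mono fun d hd =>
        ⟨hd.1, hd.2.1.trans e3, hd.2.2.trans e4.right.2.2⟩⟩
      rcases f4 with ⟨-, f5⟩ | f4
      · rw [e5, f5]
      · exact absurd this f4.right.2.2.2.1
    · have he := e4.right
      have w' : Conn (Adj N) (lcret_B N ht e₀ S) e f := ⟨L, (w.inv (Q := fun d => ¬ RR N ht e₀ d)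
        he.2.2.2.1 fun a b ha hb hr hab hb' => hr (Conn.snoc hb' ⟨ha.1, ha.2.1.trans e3,
          ha.2.2.trans (hb.2.2.symm.trans hb'.right.2.2)⟩ (hN.adj.symm _ _ hab))).mono
        fun d hd => ⟨hd.1.1, hd.1.2.1.trans e3, hd.1.2.2.trans_ne he.2.2.1, hd.2,
          by rw [hd.1.2.2]; exact he.2.2.2.2⟩⟩
      rcases f4 with ⟨f4, -⟩ | f4
      · exact absurd f4 w'.right.2.2.2.1
      · exact ih _ _ _ _ _ _ g g' ((e4.trans w').trans (f4.symm hN.adj))

/-- Join the two walks to one walk from `(x,z)` to `(x',z')` among bottom edges outside the product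
region; it uses a finite set `S` of heights of second ends (`Wk.finite`). Induct on `S` (remove its
least element `mu`). From each end, either the gate edge `(x,y)` itself is `mu`-gated (`ht z = mu`),
or walk (`Conn.exit`) up to the first edge of height `mu`: the edge before it is `mu`-gated (the two
share the first end), or there is no such edge (use the induction hypothesis). Both gated edges are
joined to the product region inside the sheet of level `mu`, so `Plat` joins them at constant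
heights: both lie in the product region (then `m = m' = mu`), or neither does and the walk can be
taken without the height `mu`. -/
theorem ret (hN : RS N) (hP : Plat N ht L) {m m' : Λ} {d : V × V} (h : PL N ht e₀ m d)
    (h' : PL N ht e₀ m' d) : m = m' := by
  classical
  obtain ⟨x, z, y, g, rfl, w⟩ := h
  obtain ⟨x', z', y', g', rfl, w'⟩ := h'
  obtain ⟨n, w⟩ := w.trans (w'.symm hN.adj)
  obtain ⟨S, hS, w⟩ := w.finite
  exact lcret_main hN hP (hS.toFinset.image fun d => ht d.2) _ _ _ _ _ _ g g' ⟨n, w.mono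
    fun d hd => ⟨hd.1.1.1, hd.1.1.2.1, hd.1.1.2.2, hd.1.2,
      Finset.mem_image_of_mem _ (hS.mem_toFinset.2 hd.2)⟩⟩

theorem lcret_swap {P Q : V × V → Prop} {a b : V × V} (hP : ∀ d, P d → Q d.swap)
    (h : Conn (Adj N) P a b) : Conn (Adj N) Q a.swap b.swap :=
  ⟨_, h.choose_spec.map Prod.swap hP fun _ _ _ _ h => adj_swap.2 h⟩

theorem lcret_rr (hN : RS N) {d : V × V} :
    RR N (OrderDual.toDual ∘ ht) e₀.swap d.swap ↔ RR N ht e₀ d :=
  ⟨fun h => lcret_swap (a := e₀.swap) (b := d.swap)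
      (fun _ hd => ⟨hN.symm _ _ hd.1, hd.2.2, hd.2.1⟩) h,
    fun h => lcret_swap (fun _ hd => ⟨hN.symm _ _ hd.1, hd.2.2, hd.2.1⟩) h⟩

theorem lcret_pl (hN : RS N) {m : Λ} {d : V × V} (h : PH N ht e₀ m d) :
    PL N (OrderDual.toDual ∘ ht) e₀.swap (OrderDual.toDual m) d.swap := by
  obtain ⟨x, z, y, ⟨g1, g2, g3, g4, g5⟩, rfl, w⟩ := h
  exact ⟨y, z, x, ⟨(lcret_rr hN).2 g1, hN.symm _ _ g3, hN.symm _ _ g2, g5, g4⟩, rfl,
    lcret_swap (fun d hd => ⟨⟨hN.symm _ _ hd.1.1, hd.1.2.2, hd.1.2.1⟩,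
      fun h => hd.2 ((lcret_rr hN).1 h)⟩) w⟩

theorem lcret_plat (hN : RS N) (hP : Plat N ht L) : Plat N (OrderDual.toDual ∘ ht) L := by
  intro m e f he hf h
  have g : ∀ e, Gated N {v | (OrderDual.toDual ∘ ht) v < m} {v | m < (OrderDual.toDual ∘ ht) v} e →
      Gated N {v | ht v < OrderDual.ofDual m} {v | OrderDual.ofDual m < ht v} e.swap :=
    fun e ⟨⟨a, b, c⟩, z, z1, z2, z3, z4⟩ =>
      ⟨⟨hN.symm _ _ a, c, b⟩, z, z2, z1, hN.symm _ _ z4, hN.symm _ _ z3⟩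
  exact (hP _ _ _ (g e he) (g f hf) (lcret_swap
    (fun _ hd => ⟨hN.symm _ _ hd.1, hd.2.2, hd.2.1⟩) h)).map Prod.swap
    (fun _ hd => ⟨hN.symm _ _ hd.1, hd.2.2, hd.2.1⟩)
    fun _ _ _ _ h => adj_swap.2 h

/-- The mirror image: apply `ret` to `OrderDual.toDual ∘ ht` and `e₀.swap` (`Wk.map`,
`adj_swap`). -/
theorem ret' (hN : RS N) (hP : Plat N ht L) {m m' : Λ} {d : V × V} (h : PH N ht e₀ m d)
    (h' : PH N ht e₀ m' d) : m = m' :=
  OrderDual.toDual.injective (ret hN (lcret_plat hN hP) (lcret_pl hN h) (lcret_pl hN h'))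

end KKC.LC
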