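import Pool.Agent.Lib.MP_e1e491_gt.LCSd

/-! The union of a bounded chain of sides has a finite stabiliser. -/

namespace KKC.LC

open Set
open scoped Pointwise

variable {G Z : Type} [Group G] [MetricSpace Z] [MulAction G Z] [CompactSpace Z] {H : HB G Z} {K : ℕ}
  (W : Walls H K)

/-- Let `U ∈ F`, `closure U ⊆ g • U` and all `g ^ n • U ⊆ U₂`. `HB.lemmaN` for `closure U` and
`(g • U)ᶜ`: the images under `g ^ n` contain `closure U` and `U₂ᶜ = closure (opp U₂)`
(`Side.big`), and the powers are different since `g ^ n • U` increases strictly. -/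
theorem Walls.no_nesting {U U₂ : Set Z} (hU : U ∈ W.F) (hU₂ : U₂ ∈ W.F) {g : G}
    (h : closure U ⊆ g • U) (hb : ∀ n : ℕ, g ^ n • U ⊆ U₂) : False := by
  obtain ⟨δ₁, d1, x₁, a1, y₁, b1, e1⟩ := (W.side U hU).big
  obtain ⟨δ₂, d2, x₂, a2, y₂, b2, e2⟩ := (W.side U₂ hU₂).other.big
  rw [(W.side U₂ hU₂).cl] at a2 b2
  have h1 : ∀ n : ℕ, closure U ⊆ g ^ n • closure U := by
    intro n
    induction n with
    | zero => simp
    | succ n ih =>
      rw [pow_succ', mul_smul]
      exact h.trans (smul_set_mono (subset_closure.trans ih))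
  have h2 : ∀ n : ℕ, U₂ᶜ ⊆ g ^ n • (g • U)ᶜ := by
    intro n
    rw [smul_set_compl, ← mul_smul, ← pow_succ]
    exact compl_subset_compl.2 (hb _)
  have h3 : StrictMono fun n : ℕ => g ^ n • U := by
    refine strictMono_nat_of_lt_succ fun n => ?_
    obtain ⟨c, hc⟩ := (W.side U hU).pt
    have h4 : c ∈ closure U \ U := hc ▸ mem_singleton c
    rw [pow_succ, mul_smul]
    exact ⟨smul_set_mono (subset_closure.trans h),
      fun h5 => h4.2 (smul_set_subset_smul_set_iff.1 h5 (h h4.1))⟩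
  refine infinite_of_injective_forall_mem (f := fun n : ℕ => g ^ n)
    (fun m n e => h3.injective (congrArg (· • U) e)) (fun n => ?_)
    (H.lemmaN isClosed_closure.isCompact
      (isOpen_smul H g (W.side U hU).op).isClosed_compl.isCompact
      (disjoint_compl_right_iff_subset.2 h) (lt_min d1 d2))
  exact ⟨⟨x₁, h1 n a1, y₁, h1 n b1, (min_le_left _ _).trans e1⟩,
    ⟨x₂, h2 n a2, y₂, h2 n b2, (min_le_right _ _).trans e2⟩⟩

/-- Every finite set of such `g` fixes one member of `D`, so it has at most `N₀` elements. If `D`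
has a largest member this is clear. Otherwise the closure of each member lies in a member
(`Nest.lt`); fix `U₀ ∈ D`, cover the compact sets `g⁻¹ • closure U₀` by one member `U ⊇ U₀`. Then `U`
and `g • U` meet, their opposite sides meet (both contain `U₂ᶜ`), and `no_nesting` for `g` and
`g⁻¹` leaves `g • U = U`. -/
theorem Walls.stab_union {D : Set (Set Z)} (hD : D ⊆ W.F) (hne : D.Nonempty)
    (hc : ∀ U ∈ D, ∀ V ∈ D, U ⊆ V ∨ V ⊆ U) {U₂ : Set Z} (hU₂ : U₂ ∈ W.F) (hb : ∀ U ∈ D, U ⊆ U₂) :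
    {g : G | g • ⋃₀ D = ⋃₀ D}.Finite := by
  by_contra hi
  obtain ⟨S, hS, hcard⟩ := Set.Infinite.exists_subset_card_eq hi (W.N₀ + 1)
  obtain ⟨U₀, hU₀⟩ := hne
  obtain ⟨x, hx⟩ := (W.side U₀ (hD hU₀)).ne
  have hst : ∀ g ∈ MulAction.stabilizer G (⋃₀ D), ∀ U ∈ D, g • U ⊆ U₂ := by
    intro g hg U hU
    refine (smul_set_mono (subset_sUnion_of_mem hU)).trans ?_
    rw [MulAction.mem_stabilizer_iff.1 hg]
    exact sUnion_subset hb
  have key : ∀ T : Finset G, (∀ g ∈ T, g • ⋃₀ D = ⋃₀ D) →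
      ∃ U ∈ D, x ∈ U ∧ ∀ g ∈ T, x ∈ g • U := by
    classical
    intro T
    induction T using Finset.induction_on with
    | empty => exact fun _ => ⟨U₀, hU₀, hx, by simp⟩
    | insert g T _ ih =>
      intro hT
      obtain ⟨U, hU, h1, h2⟩ := ih fun k hk => hT k (Finset.mem_insert_of_mem hk)
      have h3 : x ∈ g • ⋃₀ D := by
        rw [hT g (Finset.mem_insert_self _ _)]
        exact ⟨U, hU, h1⟩
      obtain ⟨V, hV, h4⟩ := mem_smul_set_iff_inv_smul_mem.1 h3
      have h5 := mem_smul_set_iff_inv_smul_mem.2 h4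
      rcases hc U hU V hV with h6 | h6
      · exact ⟨V, hV, h6 h1, Finset.forall_mem_insert _ _ _ |>.2
          ⟨h5, fun k hk => smul_set_mono h6 (h2 k hk)⟩⟩
      · exact ⟨U, hU, h1, Finset.forall_mem_insert _ _ _ |>.2 ⟨smul_set_mono h6 h5, h2⟩⟩
  obtain ⟨U, hU, h1, h2⟩ := key S fun g hg => hS hg
  have h3 := W.stab U (hD hU) S fun g hg => by
    have hg' : g ∈ MulAction.stabilizer G (⋃₀ D) := hS hg
    rcases W.nest U (hD hU) _ (W.inv g U (hD hU)) with h | h | h | h | h
    · exact h.symm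
    · exact (W.no_nesting (hD hU) hU₂ h fun n => hst _ (pow_mem hg' n) U hU).elim
    · rw [closure_smul H, smul_set_subset_iff_subset_inv_smul_set] at h
      exact (W.no_nesting (hD hU) hU₂ h fun n => hst _ (pow_mem (inv_mem hg') n) U hU).elim
    · exact absurd (h2 g hg) (disjoint_left.1 h h1)
    · obtain ⟨y, hy⟩ := (W.side U₂ hU₂).ne'
      exact absurd (opp_anti (hst g hg' U hU) hy) (disjoint_left.1 h (opp_anti (hb U hU) hy))
  omega

end KKC.LC
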