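import Pool.Agent.Lib.MP_e1e491_gt.LCDefs

/-! Walks. -/

namespace KKC.LC

open Set

variable {α β : Type} {r : α → α → Prop} {P Q : α → Prop} {a b c : α} {n m : ℕ}

theorem Wk.zero (h : P a) : Wk r P 0 a a := ⟨h, rfl⟩

theorem Wk.snoc (h : Wk r P n a b) (hc : P c) (hr : r b c) : Wk r P (n + 1) a c := ⟨b, h, hc, hr⟩

theorem Wk.left (h : Wk r P n a b) : P a := by
  induction n generalizing b with
  | zero => exact h.1
  | succ n ih => obtain ⟨c, h1, -, -⟩ := h; exact ih h1

theorem Wk.right (h : Wk r P n a b) : P b := by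
  cases n with
  | zero => exact h.2 ▸ h.1
  | succ n => obtain ⟨c, -, h1, -⟩ := h; exact h1

theorem Wk.trans (h : Wk r P n a b) (h' : Wk r P m b c) : Wk r P (n + m) a c := by
  induction m generalizing c with
  | zero => exact h'.2 ▸ h
  | succ m ih => obtain ⟨d, h1, h2, h3⟩ := h'; exact ⟨d, ih h1, h2, h3⟩

theorem Wk.single (ha : P a) (hb : P b) (hr : r a b) : Wk r P 1 a b := (Wk.zero ha).snoc hb hr

theorem Wk.cons (ha : P a) (hr : r a b) (h : Wk r P n b c) : Wk r P (n + 1) a c := by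
  rw [add_comm]
  exact (Wk.single ha h.left hr).trans h

theorem Wk.symm (hr : RS r) (h : Wk r P n a b) : Wk r P n b a := by
  induction n generalizing b with
  | zero => exact h.2 ▸ h
  | succ n ih => obtain ⟨c, h1, h2, h3⟩ := h; exact Wk.cons h2 (hr.symm _ _ h3) (ih h1)

theorem Wk.le (hr : RS r) (h : Wk r P n a b) (hnm : n ≤ m) : Wk r P m a b := by
  induction hnm with
  | refl => exact h
  | step _ ih => exact ih.snoc ih.right (hr.refl _)

/-- Image of a walk. -/
theorem Wk.map {s : β → β → Prop} {Q : β → Prop} (f : α → β) (hP : ∀ x, P x → Q (f x))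
    (hr : ∀ x y, P x → P y → r x y → s (f x) (f y)) (h : Wk r P n a b) :
    Wk s Q n (f a) (f b) := by
  induction n generalizing b with
  | zero => exact ⟨hP _ h.1, congrArg f h.2⟩
  | succ n ih => obtain ⟨c, h1, h2, h3⟩ := h; exact ⟨f c, ih h1, hP _ h2, hr _ _ h1.right h2 h3⟩

theorem Wk.mono (hPQ : ∀ x, P x → Q x) (h : Wk r P n a b) : Wk r Q n a b :=
  Wk.map (s := r) id hPQ (fun _ _ _ _ h => h) h

/-- Every point of a walk is at most `n` steps away from the start. -/
theorem Wk.strengthen (hr : RS r) (h : Wk r P n a b) :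
    Wk r (fun x => P x ∧ Wk r P n a x) n a b := by
  induction n generalizing b with
  | zero => exact ⟨⟨h.1, h.1, rfl⟩, h.2⟩
  | succ n ih =>
    obtain ⟨c, h1, h2, h3⟩ := h
    exact ⟨c, (ih h1).mono fun x hx => ⟨hx.1, hx.2.le hr n.le_succ⟩, ⟨h2, c, h1, h2, h3⟩, h3⟩

theorem Wk.split (h : Wk r P (n + m) a c) : ∃ b, Wk r P n a b ∧ Wk r P m b c := by
  induction m generalizing c with
  | zero => exact ⟨c, h, Wk.zero h.right⟩
  | succ m ih =>
    obtain ⟨d, h1, h2, h3⟩ := h
    obtain ⟨b, h4, h5⟩ := ih h1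
    exact ⟨b, h4, h5.snoc h2 h3⟩

/-- An invariant that survives every step holds along the whole walk. -/
theorem Wk.inv (h : Wk r P n a b) (ha : Q a) (hs : ∀ x y, P x → P y → Q x → r x y → Q y) :
    Wk r (fun x => P x ∧ Q x) n a b := by
  induction n generalizing b with
  | zero => exact ⟨⟨h.1, ha⟩, h.2⟩
  | succ n ih =>
    obtain ⟨c, h1, h2, h3⟩ := h
    exact ⟨c, ih h1, ⟨h2, hs _ _ h1.right h2 (ih h1).right.2 h3⟩, h3⟩

/-- The first exit from `Q`. -/
theorem Wk.exit (h : Wk r P n a b) (ha : Q a) (hb : ¬ Q b) : ∃ i j x y, i + 1 + j = n ∧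
    Wk r (fun v => P v ∧ Q v) i a x ∧ ¬ Q y ∧ r x y ∧ Wk r P j y b := by
  induction n generalizing b with
  | zero => exact absurd (h.2 ▸ ha) hb
  | succ n ih =>
    obtain ⟨c, h1, h2, h3⟩ := h
    by_cases hw : Wk r (fun v => P v ∧ Q v) n a c
    · exact ⟨n, 0, c, b, rfl, hw, hb, h3, Wk.zero h2⟩
    · by_cases hc : Q c
      · clear ih
        have key : ∀ (k : ℕ) (d : α), Wk r P k a d → Wk r (fun v => P v ∧ Q v) k a d ∨
            ∃ i j x y, i + 1 + j = k ∧ Wk r (fun v => P v ∧ Q v) i a x ∧ ¬ Q y ∧ r x y ∧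
              Wk r P j y d := by
          intro k
          induction k with
          | zero => exact fun d hd => Or.inl ⟨⟨hd.1, ha⟩, hd.2⟩
          | succ k ik =>
            rintro d ⟨e, e1, e2, e3⟩
            rcases ik e e1 with h4 | ⟨i, j, x, y, h4, h5, h6, h7, h8⟩
            · by_cases hd : Q d
              · exact Or.inl (h4.snoc ⟨e2, hd⟩ e3)
              · exact Or.inr ⟨k, 0, e, d, rfl, h4, hd, e3, Wk.zero e2⟩
            · exact Or.inr ⟨i, j + 1, x, y, by omega, h5, h6, h7, h8.snoc e2 e3⟩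
        rcases key n c h1 with h4 | ⟨i, j, x, y, h4, h5, h6, h7, h8⟩
        · exact absurd h4 hw
        · exact ⟨i, j + 1, x, y, by omega, h5, h6, h7, h8.snoc h2 h3⟩
      · obtain ⟨i, j, x, y, h4, h5, h6, h7, h8⟩ := ih h1 hc
        exact ⟨i, j + 1, x, y, by omega, h5, h6, h7, h8.snoc h2 h3⟩

/-- A walk uses finitely many points. -/
theorem Wk.finite (h : Wk r P n a b) :
    ∃ S : Set α, S.Finite ∧ Wk r (fun x => P x ∧ x ∈ S) n a b := by
  induction n generalizing b with
  | zero => exact ⟨{a}, finite_singleton a, ⟨h.1, rfl⟩, h.2⟩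
  | succ n ih =>
    obtain ⟨c, h1, h2, h3⟩ := h
    obtain ⟨S, hS, h4⟩ := ih h1
    exact ⟨insert b S, hS.insert b, c, h4.mono fun x hx => ⟨hx.1, Or.inr hx.2⟩,
      ⟨h2, Or.inl rfl⟩, h3⟩

/-- Balls of a locally finite graph are finite. -/
theorem Wk.ball_finite (hf : ∀ x, {y | r x y}.Finite) (P : α → Prop) (n : ℕ) (a : α) :
    {b | Wk r P n a b}.Finite := by
  induction n with
  | zero => exact (finite_singleton a).subset fun b hb => hb.2.symm
  | succ n ih =>
    refine (ih.biUnion fun c _ => hf c).subset ?_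
    rintro b ⟨c, h1, -, h3⟩
    exact mem_biUnion h1 h3

/-- A walk as a sequence. -/
theorem Wk.exists_fun (h : Wk r P n a b) : ∃ p : ℕ → α, p 0 = a ∧ p n = b ∧
    (∀ i ≤ n, P (p i)) ∧ ∀ i < n, r (p i) (p (i + 1)) := by
  induction n generalizing b with
  | zero => exact ⟨fun _ => a, rfl, h.2, fun _ _ => h.1, fun i hi => absurd hi (by omega)⟩
  | succ n ih =>
    obtain ⟨c, h1, h2, h3⟩ := h
    obtain ⟨p, p0, pn, hP, hr⟩ := ih h1
    refine ⟨fun i => if i ≤ n then p i else b, by simp [p0], by simp, fun i _ => ?_, fun i hi => ?_⟩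
    · by_cases h : i ≤ n
      · simpa only [if_pos h] using hP i h
      · simpa only [if_neg h] using h2
    · by_cases h : i + 1 ≤ n
      · simpa only [if_pos h, if_pos (show i ≤ n by omega)] using hr i h
      · obtain rfl : i = n := by omega
        simpa only [if_neg h, if_pos le_rfl, pn] using h3

theorem Conn.refl (h : P a) : Conn r P a a := ⟨0, Wk.zero h⟩

theorem Conn.left (h : Conn r P a b) : P a := h.choose_spec.left

theorem Conn.right (h : Conn r P a b) : P b := h.choose_spec.right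

theorem Conn.trans (h : Conn r P a b) (h' : Conn r P b c) : Conn r P a c :=
  ⟨_, h.choose_spec.trans h'.choose_spec⟩

theorem Conn.symm (hr : RS r) (h : Conn r P a b) : Conn r P b a := ⟨_, h.choose_spec.symm hr⟩

theorem Conn.snoc (h : Conn r P a b) (hc : P c) (hr : r b c) : Conn r P a c :=
  ⟨_, h.choose_spec.snoc hc hr⟩

theorem Conn.mono (hPQ : ∀ x, P x → Q x) (h : Conn r P a b) : Conn r Q a b :=
  ⟨_, h.choose_spec.mono hPQ⟩

theorem Conn.induct (h : Conn r P a b) (ha : Q a) (hs : ∀ x y, P x → P y → Q x → r x y → Q y) :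
    Q b := (h.choose_spec.inv ha hs).right.2

/-- A walk from `Q` to its complement has a step that leaves `Q`. -/
theorem Conn.exit (h : Conn r P a b) (ha : Q a) (hb : ¬ Q b) : ∃ x y,
    Conn r (fun v => P v ∧ Q v) a x ∧ ¬ Q y ∧ r x y ∧ Conn r P y b := by
  obtain ⟨i, j, x, y, -, h1, h2, h3, h4⟩ := h.choose_spec.exit ha hb
  exact ⟨x, y, ⟨i, h1⟩, h2, h3, j, h4⟩

variable {V : Type} {N : V → V → Prop}

theorem RS.adj (hN : RS N) : RS (Adj N) :=
  ⟨fun _ => Or.inl ⟨rfl, hN.refl _⟩, fun _ _ h =>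
    h.imp (fun h => ⟨h.1.symm, hN.symm _ _ h.2⟩) fun h => ⟨h.1.symm, hN.symm _ _ h.2⟩⟩

theorem adj_finite (hf : ∀ x, {y | N x y}.Finite) (e : V × V) : {f | Adj N e f}.Finite := by
  refine (((finite_singleton e.1).prod (hf e.2)).union
    ((hf e.1).prod (finite_singleton e.2))).subset ?_
  rintro f (h | h)
  · exact Or.inl ⟨h.1.symm, h.2⟩
  · exact Or.inr ⟨h.2, h.1.symm⟩

theorem adj_swap {e f : V × V} : Adj N e.swap f.swap ↔ Adj N e f := Or.comm

variable {G Z : Type} [Group G] [MetricSpace Z] [MulAction G Z] (H : HB G Z) {K K' : ℕ}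

theorem nr_rs (K : ℕ) : RS (Nr H K) :=
  ⟨fun a => by rw [Nr, inv_mul_cancel, (H.len_eq_zero 1).2 rfl]; exact Nat.zero_le _,
    fun a b h => by rw [Nr, ← H.len_inv, mul_inv_rev, inv_inv]; exact h⟩

theorem nr_smul (g a b : G) : Nr H K (g * a) (g * b) ↔ Nr H K a b := by
  rw [Nr, Nr, mul_inv_rev, mul_assoc, inv_mul_cancel_left]

theorem nr_fin (K : ℕ) (a : G) : {b | Nr H K a b}.Finite := by
  refine ((H.fin K).image fun s => a * s).subset fun b hb => ⟨a⁻¹ * b, hb, ?_⟩
  exact mul_inv_cancel_left a b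

variable {H}

theorem Nr.mono {a b : G} (h : Nr H K a b) (hK : K ≤ K') : Nr H K' a b := le_trans h hK

theorem Nr.symm {a b : G} (h : Nr H K a b) : Nr H K b a := (nr_rs H K).symm _ _ h

theorem Nr.trans {a b c : G} (h : Nr H K a b) (h' : Nr H K' b c) : Nr H (K + K') a c := by
  have h1 := H.len_mul (a⁻¹ * b) (b⁻¹ * c)
  rw [mul_assoc, mul_inv_cancel_left] at h1
  exact h1.trans (add_le_add h h')

theorem Wk.nr {P : G → Prop} {a b : G} (h : Wk (Nr H K) P n a b) : Nr H (K * n) a b := by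
  induction n generalizing b with
  | zero => exact h.2 ▸ (nr_rs H _).refl a
  | succ n ih => obtain ⟨c, h1, -, h3⟩ := h; exact (ih h1).trans h3

/-- The first ends of the edges of a walk stay close. -/
theorem Wk.nr_fst {P : G × G → Prop} {e f : G × G} (h : Wk (Adj (Nr H K)) P n e f) :
    Nr H (K * n) e.1 f.1 :=
  (h.map (s := Nr H K) (Q := fun _ => True) Prod.fst (fun _ _ => trivial) fun _ _ _ _ h =>
    h.elim (fun h => h.1 ▸ (nr_rs H K).refl _) fun h => h.2).nr

variable (H)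

theorem nr_conn (hK : 1 ≤ K) (a b : G) : Conn (Nr H K) (fun _ => True) a b := by
  have key : ∀ n g, H.len g = n → Conn (Nr H K) (fun _ => True) 1 g := by
    intro n
    induction n with
    | zero => intro g hg; rw [(H.len_eq_zero g).1 hg]; exact Conn.refl trivial
    | succ n ih =>
      intro g hg
      obtain ⟨h, h1, h2⟩ := H.par g n hg
      exact (ih h h1).snoc trivial (h2.le.trans hK)
  exact ((key _ a rfl).symm (nr_rs H K)).trans (key _ b rfl)

end KKC.LC
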