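import Pool.Agent.Lib.MP_e1e491_gt.S1U
import Pool.Agent.Lib.MP_e1e491_gt.CdMain

/-! If the classes are points, the conformal dimension is less than two. -/

namespace KKC

namespace HB

open Set Pool.Agent.Lib.MP_e1e491_gt
open scoped Pointwise Classical

set_option linter.unusedSectionVars false

variable {G Z : Type} [Group G] [MetricSpace Z] [CompactSpace Z] [MulAction G Z] (H : HB G Z)
  {A : Subgroup G} {C : Set Z} {K : ℕ}

theorem s1t_pow (n : ℕ) : H.a ^ (-(n : ℝ)) = H.a⁻¹ ^ n := by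
  rw [Real.rpow_neg (zero_lt_one.trans H.ha).le, Real.rpow_natCast, inv_pow]

theorem s1t_ray (ξ : Z) (n : ℕ) : ∃ g, H.len g = n ∧ H.sc g = H.a⁻¹ ^ n ∧
    H.q (.inr ξ) (.inl g) ≤ H.C * H.a⁻¹ ^ n := by
  obtain ⟨g, h1, h2⟩ := H.ray ξ n
  exact ⟨g, h1, by rw [sc, h1, s1t_pow], by rwa [s1t_pow] at h2⟩

theorem s1t_ultra {x y z : G ⊕ Z} {b : ℝ} (h1 : H.q x y ≤ b) (h2 : H.q y z ≤ b) :
    H.q x z ≤ H.C * b :=
  (H.ultra x y z).trans
    (mul_le_mul_of_nonneg_left (max_le h1 h2) (zero_le_one.trans H.hC))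

theorem s1t_near {c x : Z} {g : G} (hg : H.q (.inr c) (.inl g) ≤ H.C * H.sc g)
    (hx : dist x c < 3 * (H.C * H.sc g)) : H.q (.inr x) (.inl g) ≤ 3 * H.C ^ 3 * H.sc g := by
  have hC := H.hC
  have hs := H.s1_sc_pos g
  have h1 : H.q (.inr x) (.inr c) ≤ 3 * H.C ^ 2 * H.sc g :=
    (H.q_le x c).trans (by nlinarith)
  have h2 : H.q (.inr c) (.inl g) ≤ 3 * H.C ^ 2 * H.sc g :=
    hg.trans (mul_le_mul_of_nonneg_right (by nlinarith) hs.le)
  exact (H.s1t_ultra h1 h2).trans_eq (by ring)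

theorem s1t_far {c x y : Z} {g : G} (hg : H.q (.inr c) (.inl g) ≤ H.C * H.sc g)
    (hx : dist x c < 3 * (H.C * H.sc g)) (hy : dist y c < 3 * (H.C * H.sc g))
    (hxy : H.C * H.sc g ≤ dist x y) : 1 / (9 * H.C ^ 8) ≤ dist (g⁻¹ • x) (g⁻¹ • y) := by
  have hC : 0 < H.C := zero_lt_one.trans_le H.hC
  have hs := H.s1_sc_pos g
  have h1 := H.s1t_near hg hx
  have h2 := H.s1t_near hg hy
  have h3 : H.sc g ≤ H.q (.inr x) (.inr y) :=
    le_of_mul_le_mul_left (hxy.trans (H.le_q x y)) hC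
  have h4 := H.le_mob g⁻¹ (.inr x) (.inr y)
  rw [inv_inv, H.len_inv, Sum.smul_inr, Sum.smul_inr] at h4
  have h5 := H.q_le (g⁻¹ • x) (g⁻¹ • y)
  have h6 : H.sc g * H.sc g ≤ H.C * (H.C * dist (g⁻¹ • x) (g⁻¹ • y) *
      (3 * H.C ^ 3 * H.sc g) * (3 * H.C ^ 3 * H.sc g)) := by
    refine (mul_le_mul_of_nonneg_left h3 hs.le).trans (h4.trans ?_)
    refine mul_le_mul_of_nonneg_left ?_ hC.le
    exact mul_le_mul (mul_le_mul h5 h1 (H.q_nonneg _ _) (by positivity)) h2 (H.q_nonneg _ _)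
      (by positivity)
  rw [div_le_iff₀ (by positivity)]
  refine le_of_mul_le_mul_left (a := H.sc g * H.sc g) ?_ (by positivity)
  exact (mul_one _).trans_le (h6.trans_eq (by ring))

theorem s1t_close {x y : Z} {k l : G} {s : ℝ} (hs : 0 ≤ s) (hx : H.q (.inr x) (.inl k) ≤ H.C * s)
    (hy : H.q (.inr y) (.inl l) ≤ H.C * s) (hxy : dist y x < 12 * (H.C * s)) :
    H.q (.inl k) (.inl l) ≤ 12 * H.C ^ 4 * s := by
  have hC := H.hC
  have h1 : H.q (.inr x) (.inr y) ≤ 12 * H.C ^ 2 * s :=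
    (H.q_le x y).trans (by rw [dist_comm]; nlinarith)
  have h2 : H.q (.inl k) (.inr x) ≤ 12 * H.C ^ 2 * s := by
    rw [H.q_comm]
    exact hx.trans (mul_le_mul_of_nonneg_right (by nlinarith) hs)
  have h3 : H.C ≤ H.C * (12 * H.C ^ 2) := by nlinarith [sq_nonneg H.C]
  have h4 : H.q (.inr y) (.inl l) ≤ H.C * (12 * H.C ^ 2 * s) :=
    hy.trans ((mul_le_mul_of_nonneg_right h3 hs).trans_eq (by ring))
  exact (H.s1t_ultra (H.s1t_ultra h2 h1) h4).trans_eq (by ring)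

theorem s1t_dist_sq {M : ℕ} (v w : Fin M → ℝ) : dist v w ^ 2 ≤ ∑ j, (w j - v j) ^ 2 := by
  have h0 : 0 ≤ ∑ j, (w j - v j) ^ 2 := Finset.sum_nonneg fun _ _ => sq_nonneg _
  have h1 : dist v w ≤ √(∑ j, (w j - v j) ^ 2) := by
    refine (dist_pi_le_iff (Real.sqrt_nonneg _)).2 fun j => ?_
    rw [dist_comm, Real.dist_eq]
    exact Real.abs_le_sqrt (Finset.single_le_sum (f := fun j => (w j - v j) ^ 2)
      (fun _ _ => sq_nonneg _) (Finset.mem_univ j))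
  exact (pow_le_pow_left₀ dist_nonneg h1 2).trans_eq (Real.sq_sqrt h0)

theorem s1t_summable {M : ℕ} {f : Fin M → G → ℝ} (hf : ∀ j, FinEn ⊤ (f j)) (K : ℕ) :
    Summable fun v : G => ∑ j, H.gr ⊤ K (f j) v := by
  refine summable_sum fun j _ => ?_
  have h1 := (H.summable_gr (A := ⊤) (K := K) (f := f j)).2 fun s hs _ => hf j s hs
  exact h1.comp_injective (i := fun v : G => (⟨v, trivial⟩ : (⊤ : Subgroup G)))
    fun _ _ e => congrArg Subtype.val e

theorem exists_tst (h : ∀ x y, H.Rel2 x y → x = y) : ∃ M : ℕ, ∀ ε : ℝ, 0 < ε →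
    ∃ t : ℝ, 0 < t ∧ t ≤ 1 / 12 ∧ ∀ (i : ℕ) (c : Z), ∃ Φ : Z → Fin M → ℝ,
      Tst Φ c (H.C * t ^ i) (H.C * t ^ (i + 1)) ε := by
  have hC : 0 < H.C := zero_lt_one.trans_le H.hC
  have ha : 0 < H.a := zero_lt_one.trans H.ha
  obtain ⟨M, f, u, hf, hu, hsep⟩ := H.exists_fam h (δ := 1 / (9 * H.C ^ 8)) (by positivity)
  obtain ⟨C₀, Q, hd⟩ := H.exists_dbl
  obtain ⟨K1, hK⟩ := H.s1_len_le (12 * H.C ^ 4)
  choose δ hδ hb using fun j => hu j 1 one_pos
  refine ⟨M, fun ε hε => ?_⟩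
  obtain ⟨B, hB⟩ : ∃ B : ℕ, B = C₀ * ⌈H.C ^ 2⌉₊ ^ Q := ⟨_, rfl⟩
  obtain ⟨S, hS⟩ := summable_iff_vanishing_norm.1 (H.s1t_summable hf K1) (ε / (B + 1))
    (by positivity)
  have hlim : Filter.Tendsto (fun n : ℕ => H.a⁻¹ ^ n) Filter.atTop (nhds 0) :=
    tendsto_pow_atTop_nhds_zero_of_lt_one (by positivity) (inv_lt_one_of_one_lt₀ H.ha)
  have e1 := hlim.eventually_lt_const (show (0 : ℝ) < 1 / 12 by norm_num)
  have e2 : ∀ᶠ n : ℕ in Filter.atTop, ∀ j, H.a⁻¹ ^ n < δ j / H.C ^ 4 :=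
    Filter.eventually_all.2 fun j => hlim.eventually_lt_const (by have := hδ j; positivity)
  obtain ⟨N, ⟨hN1, hN2⟩, hN3⟩ :=
    ((e1.and e2).and (Filter.eventually_gt_atTop (S.sup H.len))).exists
  refine ⟨H.a⁻¹ ^ N, by positivity, hN1.le, fun i c => ?_⟩
  obtain ⟨g, g1, g2, g3⟩ := H.s1t_ray c (N * i)
  choose k k1 k2 k3 using fun x => H.s1t_ray x (N * (i + 1))
  rw [← g2] at g3
  rw [← pow_mul, ← pow_mul, ← g2]
  have hs := H.s1_sc_pos g
  refine ⟨fun x j => f j (g⁻¹ * k x), fun x y hx hy hxy => ?_, fun T y hT _ hy => ?_⟩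
  · obtain ⟨j, hj⟩ := hsep _ _ (H.s1t_far g3 hx hy hxy)
    have key : ∀ x, |f j (g⁻¹ * k x) - u j (g⁻¹ • x)| < 1 := by
      intro x
      refine hb j _ (mem_univ _) _ trivial ?_
      have h1 := H.s1_q_smul g⁻¹ (.inr x) (.inl (k x))
      rw [Sum.smul_inr, Sum.smul_inl, smul_eq_mul, H.s1_sc_inv] at h1
      have h2 := (lt_div_iff₀ (by positivity)).1 (hN2 j)
      refine (h1.trans ((mul_le_mul_of_nonneg_left (k3 x) (by positivity)).trans_eq ?_)).trans_lt h2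
      rw [mul_add, mul_one, pow_add, ← g2]
      field_simp
    refine le_trans ?_ (dist_le_pi_dist _ _ j)
    rw [Real.dist_eq]
    have a1 := abs_lt.1 (key x)
    have a2 := abs_lt.1 (key y)
    rcases le_abs.1 hj with hj | hj
    · exact le_abs.2 (Or.inl (by linarith [a1.1, a2.2]))
    · exact le_abs.2 (Or.inr (by linarith [a1.2, a2.1]))
  · have hp : 0 < H.a⁻¹ ^ (N * (i + 1)) := by positivity
    have h1 : ∀ z ∈ T, dist (fun j => f j (g⁻¹ * k z)) (fun j => f j (g⁻¹ * k (y z))) ^ 2 ≤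
        ∑ j, H.gr ⊤ K1 (f j) (g⁻¹ * k z) := by
      intro z hz
      refine (s1t_dist_sq _ _).trans (Finset.sum_le_sum fun j _ => ?_)
      have h2 := H.s1t_close hp.le (k3 z) (k3 (y z)) (hy z hz)
      have h3 := hK (k z) (k (y z)) (by rwa [k2]) (by rwa [k2])
      have h4 := H.le_gr (A := ⊤) (f := f j) (s := (k z)⁻¹ * k (y z)) trivial h3 (g⁻¹ * k z)
      rwa [mul_assoc, mul_inv_cancel_left] at h4
    have h2 : ∀ w ∈ T.image fun z => g⁻¹ * k z,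
        (T.filter fun z => g⁻¹ * k z = w).card ≤ B := by
      intro w hw
      obtain ⟨z₀, -, rfl⟩ := Finset.mem_image.1 hw
      rw [hB]
      refine hd (H.C * H.a⁻¹ ^ (N * (i + 1))) (by positivity) _
        (Nat.one_le_ceil_iff.2 (by positivity)) z₀ _ (fun x hx x' hx' hne =>
          hT x (Finset.mem_filter.1 hx).1 x' (Finset.mem_filter.1 hx').1 hne) fun z hz => ?_
      have e : k z = k z₀ := mul_left_cancel (Finset.mem_filter.1 hz).2
      have h3 : H.q (.inl (k z)) (.inr z₀) ≤ H.C * H.a⁻¹ ^ (N * (i + 1)) := by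
        rw [H.q_comm, e]; exact k3 z₀
      refine (H.le_q z z₀).trans ((mul_le_mul_of_nonneg_left (H.s1t_ultra (k3 z) h3) hC.le).trans ?_)
      rw [← mul_assoc, ← sq]
      exact mul_le_mul_of_nonneg_right (Nat.le_ceil _) (by positivity)
    have h3 : Disjoint (T.image fun z => g⁻¹ * k z) S := by
      refine Finset.disjoint_left.2 fun w hw hw' => ?_
      obtain ⟨z, -, rfl⟩ := Finset.mem_image.1 hw
      have h4 := H.len_mul g (g⁻¹ * k z)
      have h5 := Finset.le_sup (f := H.len) hw'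
      rw [mul_inv_cancel_left, k1, g1, mul_add, mul_one] at h4
      omega
    have h4 := (Real.le_norm_self _).trans (hS _ h3).le
    have h5 : ∀ w, 0 ≤ ∑ j, H.gr ⊤ K1 (f j) w := fun w =>
      Finset.sum_nonneg fun j _ => H.gr_nonneg w
    refine (Finset.sum_le_sum h1).trans ?_
    rw [Finset.sum_comp (fun w => ∑ j, H.gr ⊤ K1 (f j) w) fun z => g⁻¹ * k z]
    calc _ ≤ ∑ w ∈ T.image fun z => g⁻¹ * k z, ((B : ℝ) + 1) * ∑ j, H.gr ⊤ K1 (f j) w := by
          refine Finset.sum_le_sum fun w hw => ?_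
          rw [nsmul_eq_mul]
          refine mul_le_mul_of_nonneg_right ?_ (h5 w)
          exact_mod_cast (h2 w hw).trans (Nat.le_succ B)
      _ ≤ ε := by
          rw [← Finset.mul_sum, ← le_div_iff₀' (by positivity)]
          exact h4

theorem metric_of_sep (h : ∀ x y, H.Rel2 x y → x = y) :
    ∃ (Y : Type) (_ : MetricSpace Y) (f : Z ≃ₜ Y) (C α β p : ℝ), 0 < C ∧ 0 < α ∧ 0 < β ∧
      0 < p ∧ p < 2 ∧ Pack Y C p ∧ (∀ x y : Y, dist x y ≤ 1) ∧
      dimH (Set.univ : Set Y) ≤ ENNReal.ofReal p ∧ ∀ x y z : Z, z ≠ x → dist (f x) (f y) ≤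
        C * ((dist x y / dist x z) ^ α + (dist x y / dist x z) ^ β) * dist (f x) (f z) := by
  obtain ⟨C₀, Q, hd⟩ := H.exists_dbl
  obtain ⟨M, hM⟩ := H.exists_tst h
  exact exists_metric hd (zero_lt_one.trans_le H.hC) H.s1_diam hM

end HB

end KKC
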