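import Pool.Agent.Lib.MP_e1e491_gt.S1X
import Pool.Agent.Lib.MP_e1e491_gt.S1Q
import Pool.Agent.Lib.MP_e1e491_gt.S1T

/-! The stabiliser of a class. -/

namespace KKC

namespace HB

open scoped Pointwise

variable {G Z : Type} [Group G] [MetricSpace Z] [CompactSpace Z] [MulAction G Z] (H : HB G Z)

theorem star_of_fs (x : Z) (h : (H.dec2.cls x).Nontrivial) (hF : FS G (H.dec2.cls x)) :
    H.QC (MulAction.stabilizer G (H.dec2.cls x)) (H.dec2.cls x) ∧ ∃ K₀ : ℕ, ∀ K, K₀ ≤ K →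
      H.Par (MulAction.stabilizer G (H.dec2.cls x)) K ∧
        H.Star (MulAction.stabilizer G (H.dec2.cls x)) K := by
  have hq := H.qc_of_fs (H.dec2.conn x) h hF
  obtain ⟨K₀, hK⟩ := H.par_of_qc hq
  exact ⟨hq, K₀, fun K h => ⟨hK K h, H.star_of_class hq (hK K h)⟩⟩

end HB

end KKC
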