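import Pool.Agent.Lib.MP_e1e491_gt.S3BAlDefs

set_option autoImplicit false

/-!
Linking data for the case of the whole carpet.
-/

namespace KKC.S3.Al

open Set Metric
open scoped Pointwise

variable {G Z J : Type} [Group G] [MetricSpace Z] [CompactSpace Z] [MulAction G Z]
  [ContinuousConstSMul G Z] [MulAction G J] {X : CS G Z J} {D D₁ : J} {K : ℕ} (S : Al X D D₁ K)

omit [CompactSpace Z] [ContinuousConstSMul G Z] in
lemma s3balpha_len {a b : G} (h : Near X.H.len K a b) :
    X.H.len b ≤ X.H.len a + K ∧ X.H.len a ≤ X.H.len b + K := by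
  have h0 : X.H.len (a⁻¹ * b) ≤ K := h
  have h1 := X.H.len_mul a (a⁻¹ * b)
  have h2 := X.H.len_mul b (a⁻¹ * b)⁻¹
  rw [mul_inv_cancel_left] at h1
  rw [X.H.len_inv, mul_inv_rev, inv_inv, mul_inv_cancel_left] at h2
  omega

omit [CompactSpace Z] [ContinuousConstSMul G Z] in
lemma s3balpha_self (x : G) : X.H.len (x⁻¹ * x) ≤ K := by
  rw [inv_mul_cancel, (X.H.len_eq_zero 1).2 rfl]
  exact Nat.zero_le K

omit [CompactSpace Z] in
lemma s3balpha_kap {x a b : G} (h : X.H.len x < X.H.len a) : S.kap x a b = 0 := by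
  unfold kap
  exact if_neg fun k => absurd k.2.2 (not_le.2 h)

omit [CompactSpace Z] in
lemma s3balpha_cut {x x' a : G} (h : X.H.len x < X.H.len a + S.K3) : S.cut x x' a = 0 := by
  unfold cut
  exact if_neg (not_le.2 h)

omit [CompactSpace Z] [ContinuousConstSMul G Z] in
lemma s3balpha_plane {a b : G} (h : a⁻¹ * b ∈ MulAction.stabilizer G D) : a • D = b • D := by
  have h1 : (a⁻¹ * b) • D = D := h
  rw [mul_smul, inv_smul_eq_iff] at h1
  exact h1.symm

/-- `Edge.lift` with `φ_lift`; the coboundary of a gradient vanishes. -/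
theorem out_cob {x x' a b c : G} (hx : Near X.H.len K x x') (ht : Tri X.H.len K a b c) :
    S.W x' a b c - S.W x a b c = cob (S.I x x') a b c := by
  have key : ∀ u v : G, Near X.H.len K u v →
      S.E.V u v (S.φ x x') - (S.E.V u v (th X.Q (x' • D)) - S.E.V u v (th X.Q (x • D))) =
        S.Hφ x x' (S.E.ρ v) - S.Hφ x x' (S.E.ρ u) := fun u v h => by
    rw [← map_sub, ← map_sub]
    exact S.E.lift (Subgroup.mem_top u) (Subgroup.mem_top v) h (AddSubgroup.mem_top _)
      (S.φ_lift x x' hx)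
  have e1 := key a b ht.1
  have e2 := key b c ht.2.1
  have e3 := key a c ht.2.2
  simp only [W, I, cob]
  linarith

/-- `K1 ≥ 2 K` kills the terms `kap`; `Edge.lift` with `φ_lift` and `Edge.deep` with
`φ_test`. -/
theorem deep : ∃ K1 : ℕ, 2 * K ≤ K1 ∧ ∀ x x' a b c, Near X.H.len K x x' →
    Tri X.H.len K a b c → X.H.len x + K1 < X.H.len a → S.W x' a b c = S.W x a b c := by
  obtain ⟨K1, h1⟩ := S.E.deep S.fin
  refine ⟨2 * K + K1, Nat.le_add_right _ _, fun x x' a b c hx ht h => ?_⟩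
  obtain ⟨φ₀, hφ, e⟩ := (S.φ_test x x' hx).1
  have k := h1 x a (Subgroup.mem_top a) b (Subgroup.mem_top b) c (Subgroup.mem_top c) ht
    (by omega) φ₀ hφ (AddSubgroup.mem_top _)
  have l1 := s3balpha_len hx
  have l2 := s3balpha_len ht.1
  have k1 : S.kap x a b = 0 := s3balpha_kap S (by omega)
  have k2 : S.kap x b c = 0 := s3balpha_kap S (by omega)
  have k3 : S.kap x a c = 0 := s3balpha_kap S (by omega)
  have k4 : S.kap x' a b = 0 := s3balpha_kap S (by omega)
  have k5 : S.kap x' b c = 0 := s3balpha_kap S (by omega)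
  have k6 : S.kap x' a c = 0 := s3balpha_kap S (by omega)
  have k7 := out_cob S hx ht
  rw [← e] at k
  simp only [I, cob] at k k7
  linarith

/-- `Edge.bdd` with `φ_test`, `ψ_test` and `h_bdd`. -/
theorem bdd (n : ℕ) : ∃ B : ℝ, ∀ x x' a b, Near X.H.len K x x' → Near X.H.len K a b →
    X.H.len (x⁻¹ * a) ≤ n → |S.I x x' a b| ≤ B := by
  obtain ⟨B, B0, h1⟩ := S.E.bdd S.fin n
  obtain ⟨C, h2⟩ := S.h_bdd (n + K)
  refine ⟨B + B + B + (|C| + |C|), fun x x' a b hx hab hn => ?_⟩
  have t : ∀ φ, Test X.H S.L S.Φ x φ → |S.E.V a b φ| ≤ B := fun φ hφ => by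
    obtain ⟨φ₀, k, rfl⟩ := hφ.1
    exact h1 x a (Subgroup.mem_top a) b (Subgroup.mem_top b) hab hn φ₀ k
  have tk : ∀ y, X.H.len (x⁻¹ * y) ≤ K → |S.kap y a b| ≤ B := fun y hy => by
    unfold kap
    split_ifs
    · exact t _ (S.ψ_test x y hy)
    · rwa [abs_zero]
  have tc : ∀ u, X.H.len (x⁻¹ * u) ≤ n + K → |S.cut x x' u| ≤ |C| := fun u hu => by
    unfold cut
    split_ifs with k
    · exact (h2 x x' u hx hu k).trans (le_abs_self C)
    · rw [abs_zero]
      exact abs_nonneg C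
  have hb : X.H.len (x⁻¹ * b) ≤ n + K := by
    have k := X.H.len_mul (x⁻¹ * a) (a⁻¹ * b)
    rw [mul_assoc, mul_inv_cancel_left] at k
    have k0 : X.H.len (a⁻¹ * b) ≤ K := hab
    omega
  have k1 := abs_le.1 (t _ (S.φ_test x x' hx))
  have k2 := abs_le.1 (tk x' hx)
  have k3 := abs_le.1 (tk x (s3balpha_self x))
  have k4 := abs_le.1 (tc a (hn.trans (Nat.le_add_right _ _)))
  have k5 := abs_le.1 (tc b hb)
  unfold I
  exact abs_le.2 ⟨by linarith [k1.1, k2.2, k3.1, k4.1, k5.2],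
    by linarith [k1.2, k2.1, k3.2, k4.2, k5.1]⟩

/-- On a shallow plane edge `I` is `V a b (corr ..)` minus the increment of the lift `h`
(`plane`, `h_lift`, `le_K3`). -/
theorem shallow {x x' a b : G} (hx : Near X.H.len K x x') (hab : Near X.H.len K a b)
    (hp : a • D = b • D) (ha : X.H.len a + S.K3 ≤ X.H.len x)
    (hb : X.H.len b + S.K3 ≤ X.H.len x) : S.I x x' a b = 0 := by
  classical
  have l1 := s3balpha_len hx
  have l2 := S.le_K3
  have tk : ∀ y, X.H.len a ≤ X.H.len y →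
      S.kap y a b = S.E.V a b (if y • D = a • D then S.ψ y else 0) := fun y hy => by
    unfold kap
    by_cases k : y • D = a • D
    · rw [if_pos k, if_pos ⟨k, k.trans hp, hy⟩]
    · rw [if_neg k, if_neg fun k' => k k'.1, map_zero]
  have e := (S.plane a b hab hp).2.2 _ (AddSubgroup.mem_top _) _ (S.h_lift x x' (a • D) hx)
  have c1 : S.cut x x' a = S.h x x' (a • D) (S.E.ρ a) := if_pos ha
  have c2 : S.cut x x' b = S.h x x' (a • D) (S.E.ρ b) := by
    rw [hp]
    exact if_pos hb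
  unfold corr at e
  rw [map_add, map_sub] at e
  unfold I
  rw [tk x' (by omega), tk x (by omega), c1, c2, ← e]
  convert sub_self _

/-- `exists_far` with the larger of `S.L`, `S.E.L`: all test functions vanish on the ball of
`E.loc`, which contains `ρ a` and `ρ b` (`h_zero`, `ρ_mem`). -/
theorem far (M : ℕ) : ∃ K2 : ℕ, ∀ x x' a b, Near X.H.len K x x' → Near X.H.len K a b →
    K2 < X.H.len (x⁻¹ * a) → X.H.len a ≤ X.H.len x + M → X.H.len x ≤ X.H.len a + M →
    S.I x x' a b = 0 := by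
  obtain ⟨K2, h1⟩ := exists_far X.H (max S.L S.E.L) M
  refine ⟨K2, fun x x' a b hx hab h2 h3 h4 => ?_⟩
  have hc := S.E.loc a (Subgroup.mem_top a) b (Subgroup.mem_top b) hab
  have hz : ∀ z ∈ closedBall (X.H.loc a) (S.E.L * X.H.sc a),
      S.L * X.H.sc x < dist z (X.H.loc x) := fun z hz =>
    (mul_le_mul_of_nonneg_right (le_max_left _ _) (X.H.sc_pos x).le).trans_lt
      (h1 x a h2 h3 h4 z ((mem_closedBall.1 hz).trans
        (mul_le_mul_of_nonneg_right (le_max_right _ _) (X.H.sc_pos a).le)))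
  have t : ∀ φ, Test X.H S.L S.Φ x φ → S.E.V a b φ = 0 := fun φ hφ =>
    hc.eq_zero (AddSubgroup.mem_top _) fun z k => hφ.2 z (hz z k)
  have tk : ∀ y, X.H.len (x⁻¹ * y) ≤ K → S.kap y a b = 0 := fun y hy => by
    unfold kap
    split_ifs
    · exact t _ (S.ψ_test x y hy)
    · rfl
  have tc : ∀ u, S.E.ρ u ∈ closedBall (X.H.loc a) (S.E.L * X.H.sc a) → S.cut x x' u = 0 :=
    fun u hu => by
      unfold cut
      split_ifs
      · exact S.h_zero x x' _ hx _ (S.ρ_mem u) (hz _ hu)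
      · rfl
  unfold I
  rw [t _ (S.φ_test x x' hx), tk x' hx, tk x (s3balpha_self x), tc a hc.1, tc b hc.2.1]
  ring

/-- For a plane step `φ = 0`, and the other terms vanish on deep edges. -/
theorem plane_deep {x x' a b : G} (hx : Near X.H.len K x x') (hp : x • D = x' • D)
    (hab : Near X.H.len K a b) (h : X.H.len x + K < X.H.len a) : S.I x x' a b = 0 := by
  have l1 := s3balpha_len hx
  have l2 := s3balpha_len hab
  have l3 := S.le_K3
  unfold I
  rw [S.φ_plane x x' hp, map_zero, s3balpha_kap S (x := x') (by omega),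
    s3balpha_kap S (x := x) (by omega), s3balpha_cut S (a := a) (by omega),
    s3balpha_cut S (a := b) (by omega)]
  ring

/-- `K2` from `far` with `M = K1 + K + K3`. -/
theorem link {A : Subgroup G} : ∃ (K1 K2 : ℕ) (B : ℝ),
    LinkG X.H.len A (MulAction.stabilizer G D) K K1 K2 B S.W S.I S.I := by
  obtain ⟨K1, -, h1⟩ := deep S
  obtain ⟨K2, h2⟩ := far S (K1 + K + S.K3)
  obtain ⟨B, h3⟩ := bdd S K2
  have h4 : ∀ x x' a b, Near X.H.len K x x' → Near X.H.len K a b → K2 < X.H.len (x⁻¹ * a) →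
      X.H.len a ≤ X.H.len x + K1 + K →
      (a⁻¹ * b ∈ MulAction.stabilizer G D ∨ X.H.len x ≤ X.H.len a + K) → S.I x x' a b = 0 :=
    fun x x' a b hx hab k1 k2 k3 => by
      by_cases k : X.H.len x ≤ X.H.len a + (K1 + K + S.K3)
      · exact h2 x x' a b hx hab k1 (by omega) k
      · have l := s3balpha_len hab
        rcases k3 with k3 | k3
        · exact shallow S hx hab (s3balpha_plane k3) (by omega) (by omega)
        · omega
  have h5 : ∀ x ∈ MulAction.stabilizer G D, ∀ x' ∈ MulAction.stabilizer G D,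
      x • D = x' • D := fun x hx x' hx' =>
    (MulAction.mem_stabilizer_iff.1 hx).trans (MulAction.mem_stabilizer_iff.1 hx').symm
  refine ⟨K1, K2, B, fun x _ x' _ a _ b _ c _ => h1 x x' a b c,
    fun x _ x' _ a _ b _ c _ => out_cob S, fun x _ x' _ a _ b _ => h3 x x' a b,
    fun x _ x' _ a _ b _ => h4 x x' a b, fun x _ x' _ a _ b _ c _ => out_cob S,
    fun x hx x' hx' k => ⟨X.H.len x + K, fun a _ b _ hab h =>
      plane_deep S k (h5 x hx x' hx') hab h⟩,
    fun x _ x' _ a _ b _ k hab _ => h3 x x' a b k hab,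
    fun x hx x' hx' a _ b _ k hab k1 k2 => ?_⟩
  by_cases h : X.H.len x + K < X.H.len a
  · exact plane_deep S k (h5 x hx x' hx') hab h
  · exact h4 x x' a b k hab k2 (by omega) (Or.inl k1)

end KKC.S3.Al
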