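import Pool.Agent.Lib.MP_e1e491_gt.S3BSq

set_option autoImplicit false

/-!
One step of the cycle, compared at a point of the carpet and at the base point of a hole.
-/

namespace KKC.S3

open Set Metric

variable {Z J : Type} [MetricSpace Z] [CompactSpace Z] (Q : PD Z J)

lemma s3bstep_ne {c p z : ℂ} {ρ : ℝ} (hp : p ∈ ball c ρ) (hz : z ∈ (ball c (3 * ρ))ᶜ) :
    2 * ρ < ‖z - p‖ := by
  rw [mem_compl_iff, mem_ball, not_lt] at hz
  rw [mem_ball] at hp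
  have := dist_triangle z p c
  rw [← dist_eq_norm]
  linarith

lemma s3bstep_alpha {c p q : ℂ} {ρ : ℝ} (hp : p ∈ ball c ρ) (hq : q ∈ ball c ρ) :
    ContinuousOn (fun z => Complex.arg ((z - q) / (z - p))) (ball c (3 * ρ))ᶜ ∧
      ∀ z ∈ (ball c (3 * ρ))ᶜ, (Complex.arg ((z - q) / (z - p)) : Real.Angle) =
        (Complex.arg (z - q) : Real.Angle) - (Complex.arg (z - p) : Real.Angle) := by
  have hρ : 0 < ρ := pos_of_mem_ball hp
  have h0 : ∀ w ∈ ball c ρ, ∀ z ∈ (ball c (3 * ρ))ᶜ, z - w ≠ 0 := fun w hw z hz =>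
    norm_pos_iff.1 (by linarith [s3bstep_ne hw hz])
  refine ⟨fun z hz => ContinuousAt.continuousWithinAt ?_,
    fun z hz => Complex.arg_div_coe_angle (h0 q hq z hz) (h0 p hp z hz)⟩
  have h1 : (z - q) / (z - p) = 1 + (p - q) / (z - p) := by
    have := h0 p hp z hz
    field_simp
    ring
  have h2 : ‖(p - q) / (z - p)‖ < 1 := by
    have h3 := s3bstep_ne hp hz
    have h4 := dist_triangle_right p q c
    rw [mem_ball] at hp hq
    rw [norm_div, div_lt_one (by linarith), ← dist_eq_norm p q]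
    linarith
  exact ContinuousAt.comp (g := Complex.arg) (f := fun z => (z - q) / (z - p))
    (Complex.continuousAt_arg (h1 ▸ Complex.mem_slitPlane_of_norm_lt_one h2))
    ((continuousAt_id.sub continuousAt_const).div (continuousAt_id.sub continuousAt_const)
      (h0 p hp z hz))

lemma s3bstep_path {V : J} {u : Z} (hu : u ∈ Q.P V) {η : ℝ} (hη : 0 < η) :
    ∃ T : Set ℂ, IsPreconnected T ∧ Q.ι u ∈ T ∧ Q.bp V ∈ T ∧ T ⊆ closure (Q.D V) ∧
      ∃ ρ > 0, ∀ y, η ≤ dist u y → T ⊆ (ball (Q.ι y) ρ)ᶜ := by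
  have h1 : Q.ι u ∈ closure (Q.D V) := by
    rw [Q.closure_D]
    exact Or.inr (mem_image_of_mem _ hu)
  obtain ⟨γ, hγ⟩ := Q.joinedIn_bp h1
  have hK : IsCompact (Q.ι '' {y | η ≤ dist u y}) :=
    (isClosed_le continuous_const (continuous_const.dist continuous_id)).isCompact.image Q.ι_cont
  have hO : IsOpen (range γ)ᶜ := (isCompact_range γ.continuous).isClosed.isOpen_compl
  have hs : Q.ι '' {y | η ≤ dist u y} ⊆ (range γ)ᶜ := by
    rintro _ ⟨y, hy, rfl⟩ ⟨t, ht⟩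
    have h3 := hγ t
    rw [ht] at h3
    rcases h3 with h3 | h3
    · exact Q.not_mem y V h3
    · have h4 : y = u := Q.ι_inj h3
      rw [h4, mem_ofPred_eq, dist_self] at hy
      exact absurd hη (not_lt.2 hy)
  obtain ⟨ρ, hρ, h2⟩ := hK.exists_thickening_subset_open hO hs
  refine ⟨range γ, isPreconnected_range γ.continuous, γ.source_mem_range, γ.target_mem_range, ?_,
    ρ, hρ, fun y hy z hz hz' => ?_⟩
  · rintro _ ⟨t, rfl⟩
    rcases hγ t with h3 | h3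
    · exact subset_closure h3
    · rw [mem_singleton_iff.1 h3]
      exact h1
  · have h3 : Q.ι y ∈ Q.ι '' {y | η ≤ dist u y} := ⟨y, hy, rfl⟩
    exact h2 (ball_subset_thickening h3 ρ hz') hz

/-- Take `u₁ ≠ u₂` in `P V`, `η₁ = min η₀ (dist u₁ u₂ / 2)`, `η'` from `avoid_Z` for `η₁`
(`η' ≤ η₁`), paths `T k` from `ι (u k)` to `bp V` in `D V ∪ {ι (u k)}` (`joinedIn_bp`), and `ρ` so
small that `ball (ι y) (3 ρ)` misses `ι z` for `η' ≤ dist z y` (`unif_ι_inv`) and misses `T k` for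
`η₁ ≤ dist (u k) y` (compactness).  Off `ball (ι y) (3 ρ)` the function
`α z = arg ((z - bp j) / (z - bp i))` is continuous (the quotient has positive real part) and lifts
the difference of the two directions.  Take `l` from `exists_lam`; `H - h + l ∘ ι` is constant on
`P V` (`eq_of_coe_zero`), subtract the constant from `l`.  Choose `k` with `η₁ ≤ dist (u k) y`;
`H + α ∘ ι` is constant along the path from `b` to `u k`, `h (u k) = 0`, and `α - l` is constant on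
`T k`. -/
theorem step_eq (V : J) (b : Z) {η₀ : ℝ} (h₀ : 0 < η₀) : ∃ η' > 0, ∃ ρ > 0, ∀ y : Z,
    η₀ ≤ dist b y → ∀ i j, i ≠ V → j ≠ V → Q.bp i ∈ ball (Q.ι y) ρ → Q.bp j ∈ ball (Q.ι y) ρ →
    ∀ (φ : Cir Z) (H h : Z → ℝ), (∀ z, η' ≤ dist z y → φ z = 0) →
      IsLift (φ - (th Q j - th Q i)) univ H → IsLift φ (Q.P V) h →
      (∀ z ∈ Q.P V, η' ≤ dist z y → h z = 0) →
      ∃ l : ℂ → ℝ, ContinuousOn l (closure (Q.D V)) ∧
        (∀ z ∈ closure (Q.D V), (l z : Real.Angle) =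
          (Complex.arg (z - Q.bp j) : Real.Angle) - (Complex.arg (z - Q.bp i) : Real.Angle)) ∧
        (∀ u ∈ Q.P V, H u - h u = -l (Q.ι u)) ∧
        H b + Complex.arg ((Q.ι b - Q.bp j) / (Q.ι b - Q.bp i)) =
          -l (Q.bp V) + Complex.arg ((Q.bp V - Q.bp j) / (Q.bp V - Q.bp i)) := by
  obtain ⟨u₁, hu₁, u₂, hu₂, hne⟩ := Q.P_nontrivial V
  have hd : 0 < dist u₁ u₂ := dist_pos.2 hne
  obtain ⟨η₁, h₁, h₁₀, h₁₂⟩ : ∃ η₁ > 0, η₁ ≤ η₀ ∧ η₁ ≤ dist u₁ u₂ / 2 :=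
    ⟨_, lt_min h₀ (half_pos hd), min_le_left _ _, min_le_right _ _⟩
  obtain ⟨η₂, h₂, hav⟩ := Q.avoid_Z h₁
  obtain ⟨δ, hδ, hun⟩ := Q.unif_ι_inv (lt_min h₁ h₂)
  obtain ⟨T₁, a₁, b₁, c₁, d₁, ρ₁, hρ₁, e₁⟩ := s3bstep_path Q hu₁ h₁
  obtain ⟨T₂, a₂, b₂, c₂, d₂, ρ₂, hρ₂, e₂⟩ := s3bstep_path Q hu₂ h₁
  obtain ⟨ρ, hρ, r₀, r₁, r₂⟩ : ∃ ρ > 0, 3 * ρ ≤ δ ∧ 3 * ρ ≤ ρ₁ ∧ 3 * ρ ≤ ρ₂ := by
    have h3 := min_le_left δ (min ρ₁ ρ₂)
    have h4 := (min_le_right δ (min ρ₁ ρ₂)).trans (min_le_left _ _)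
    have h5 := (min_le_right δ (min ρ₁ ρ₂)).trans (min_le_right _ _)
    have h6 := lt_min hδ (lt_min hρ₁ hρ₂)
    exact ⟨min δ (min ρ₁ ρ₂) / 3, by linarith, by linarith, by linarith, by linarith⟩
  refine ⟨min η₁ η₂, lt_min h₁ h₂, ρ, hρ, fun y hy i j hi hj hbi hbj φ H h hφ hH hh h0 => ?_⟩
  obtain ⟨l₀, l1, l2⟩ := exists_lam Q hi hj
  obtain ⟨α1, α2⟩ := s3bstep_alpha hbi hbj
  have hHz : ∀ z, (H z : Real.Angle) = φ z - ((Complex.arg (Q.ι z - Q.bp j) : Real.Angle) -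
      (Complex.arg (Q.ι z - Q.bp i) : Real.Angle)) := fun z => hH.2 z trivial
  have hPV : ∀ u ∈ Q.P V, Q.ι u ∈ closure (Q.D V) := fun u hu => by
    rw [Q.closure_D]
    exact Or.inr (mem_image_of_mem _ hu)
  have hF : ∀ u ∈ Q.P V, ((H u - h u + l₀ (Q.ι u) : ℝ) : Real.Angle) = 0 := fun u hu => by
    rw [Real.Angle.coe_add, Real.Angle.coe_sub, hHz, hh.2 u hu, l2 _ (hPV u hu)]
    abel
  have hF' : ∀ u ∈ Q.P V, H u - h u + l₀ (Q.ι u) = H u₁ - h u₁ + l₀ (Q.ι u₁) := fun u hu =>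
    eq_of_coe_zero (f := fun u => H u - h u + l₀ (Q.ι u))
      (Q.isPathConnected_P V).isConnected.isPreconnected
      (((hH.1.mono (subset_univ _)).sub hh.1).add (l1.comp Q.ι_cont.continuousOn hPV)) hF hu hu₁
  have hκ := hF u₁ hu₁
  generalize H u₁ - h u₁ + l₀ (Q.ι u₁) = κ at hF' hκ
  refine ⟨fun z => l₀ z - κ, l1.sub continuousOn_const, fun z hz => ?_,
    fun u hu => by linarith [hF' u hu], ?_⟩
  · rw [Real.Angle.coe_sub, hκ, sub_zero, l2 z hz]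
  have key : ∀ u ∈ Q.P V, η₁ ≤ dist u y → ∀ T : Set ℂ, IsPreconnected T → Q.ι u ∈ T →
      Q.bp V ∈ T → T ⊆ closure (Q.D V) → T ⊆ (ball (Q.ι y) (3 * ρ))ᶜ →
      H b + Complex.arg ((Q.ι b - Q.bp j) / (Q.ι b - Q.bp i)) =
        -(l₀ (Q.bp V) - κ) + Complex.arg ((Q.bp V - Q.bp j) / (Q.bp V - Q.bp i)) := by
    intro u hu hy' T t1 t2 t3 t4 t5
    obtain ⟨γ, hγ⟩ := hav y b u (h₁₀.trans hy) hy'
    have g1 : ∀ z ∈ range γ, min η₁ η₂ ≤ dist z y := by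
      rintro _ ⟨t, rfl⟩
      exact (min_le_right _ _).trans (not_lt.1 (hγ t))
    have g2 : ∀ z ∈ range γ, Q.ι z ∈ (ball (Q.ι y) (3 * ρ))ᶜ := fun z hz e => by
      rw [mem_ball, dist_eq_norm] at e
      exact absurd (hun z y (e.le.trans r₀)) (not_lt.2 (g1 z hz))
    have g3 := eq_of_coe_zero
      (f := fun z => H z + Complex.arg ((Q.ι z - Q.bp j) / (Q.ι z - Q.bp i)))
      (isPreconnected_range γ.continuous)
      ((hH.1.mono (subset_univ _)).add (α1.comp Q.ι_cont.continuousOn g2))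
      (fun z hz => by
        rw [Real.Angle.coe_add, hHz, hφ z (g1 z hz), α2 _ (g2 z hz)]
        abel) γ.source_mem_range γ.target_mem_range
    have g4 := eq_of_coe_zero (f := fun z => Complex.arg ((z - Q.bp j) / (z - Q.bp i)) - l₀ z) t1
      ((α1.mono t5).sub (l1.mono t4))
      (fun z hz => by rw [Real.Angle.coe_sub, α2 z (t5 hz), l2 z (t4 hz), sub_self]) t2 t3
    have g5 := h0 u hu ((min_le_left _ _).trans hy')
    have g6 := hF' u hu
    beta_reduce at g3 g4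
    linarith
  by_cases hk : η₁ ≤ dist u₁ y
  · exact key u₁ hu₁ hk T₁ a₁ b₁ c₁ d₁
      ((e₁ y hk).trans (compl_subset_compl.2 (ball_subset_ball r₁)))
  · have hk' : η₁ ≤ dist u₂ y := by linarith [dist_triangle_right u₁ u₂ y, not_le.1 hk]
    exact key u₂ hu₂ hk' T₂ a₂ b₂ c₂ d₂
      ((e₂ y hk').trans (compl_subset_compl.2 (ball_subset_ball r₂)))

end KKC.S3
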