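import Pool.Agent.Lib.MP_e1e491_gt.KSCyc

set_option autoImplicit false

/-!
The winding number of a perturbed grid cycle.
-/

namespace KKC.S3

open Set Metric

theorem s3bwind_pos {w x : ℂ} (h : ‖x - w‖ < ‖w‖) : 0 < (star w * x).re := by
  have h0 : 0 < ‖w‖ := (norm_nonneg _).trans_lt h
  have h1 : star w * x = ((‖w‖ ^ 2 : ℝ) : ℂ) + star w * (x - w) := by
    rw [← Complex.normSq_eq_norm_sq, Complex.normSq_eq_conj_mul_self, Complex.star_def]
    ring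
  have h2 := (abs_le.1 (Complex.abs_re_le_norm (star w * (x - w)))).1
  rw [norm_mul, norm_star] at h2
  rw [h1, Complex.add_re, Complex.ofReal_re]
  nlinarith

theorem s3bwind_arg {w x y : ℂ} (hx : ‖x - w‖ < ‖w‖) (hy : ‖y - w‖ < ‖w‖) :
    Complex.arg (x / y) = Complex.arg (star w * x) - Complex.arg (star w * y) := by
  have h0 : star w ≠ 0 := star_ne_zero.2 (norm_pos_iff.1 ((norm_nonneg _).trans_lt hx))
  have h1 := congrArg Complex.im
    (Pool.Agent.Lib.MP_e1e491_gt.KS.kscyc_log_div (s3bwind_pos hx) (s3bwind_pos hy))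
  rwa [mul_div_mul_left _ _ h0, Complex.sub_im, Complex.log_im, Complex.log_im,
    Complex.log_im] at h1

theorem s3bwind_sum {ι : Type} {E : Finset ι} {s t : ι → ℂ} {p : ℂ → ℂ} {ε : ℝ} {a a' : ℂ}
    (h0 : ∑ i ∈ E, (Complex.arg ((a - p (t i)) / (a' - t i)) -
      Complex.arg ((a - p (s i)) / (a' - s i))) = 0) (ha : dist a' a < ε)
    (h : ∀ i ∈ E, dist (t i) (s i) < ε ∧ dist (p (s i)) (s i) < ε ∧ dist (p (t i)) (t i) < ε ∧
      9 * ε ≤ dist (s i) a) :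
    ∑ i ∈ E, Complex.arg ((a - p (t i)) / (a - p (s i))) =
      (∑ i ∈ E, Complex.log ((t i - a') / (s i - a'))).im := by
  rw [Complex.im_sum, ← add_zero (∑ i ∈ E, Complex.im _), ← h0, ← Finset.sum_add_distrib]
  refine Finset.sum_congr rfl fun i hi => ?_
  obtain ⟨h1, h2, h3, h4⟩ := h i hi
  have hε : 0 < ε := dist_nonneg.trans_lt ha
  rw [dist_comm, dist_eq_norm] at h4
  have k : ∀ x y : ℂ, dist y (s i) < 2 * ε → dist x a < ε → ‖x - y - (a - s i)‖ < ‖a - s i‖ := by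
    intro x y hy hx
    rw [dist_eq_norm] at hx hy
    have h5 := norm_sub_le (x - a) (y - s i)
    rw [show x - y - (a - s i) = x - a - (y - s i) by ring]
    linarith
  have k0 : dist a a < ε := by rwa [dist_self]
  have k1 := k a (p (t i)) (by linarith [dist_triangle (p (t i)) (t i) (s i)]) k0
  have k2 := k a (p (s i)) (by linarith) k0
  have k3 := k a' (t i) (by linarith) ha
  have k4 := k a' (s i) (by rw [dist_self]; linarith) ha
  rw [Complex.log_im, ← neg_div_neg_eq (t i - a'), neg_sub, neg_sub, s3bwind_arg k1 k2,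
    s3bwind_arg k3 k4, s3bwind_arg k1 k3, s3bwind_arg k2 k4]
  ring

theorem s3bwind_far {c : ℂ → Prop} {η ε : ℝ} (hε : η ≤ ε) {a v u : ℂ}
    (ha : ∀ u ∈ ball a (10 * ε), c u) (hu : ¬ c u) (hv : u ∈ ball v η) : 9 * ε ≤ dist v a := by
  have h1 : 10 * ε ≤ dist u a := le_of_not_gt fun e => hu (ha u e)
  have h2 := dist_triangle u v a
  rw [mem_ball] at hv
  linarith

theorem s3bwind_one (c : ℂ → Prop) {R : ℝ} (hc : ∀ z, R ≤ ‖z‖ → ¬ c z) {η ε : ℝ} (hη : 0 < η)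
    (hε : η ≤ ε) (p : ℂ → ℂ)
    (hp : ∀ v u u', u ∈ ball v η → u' ∈ ball v η → c u → ¬ c u' → dist (p v) v < ε) :
    ∃ (ι : Type) (E : Finset ι) (s t : ι → ℂ),
      (∀ (M : Type) [AddCommGroup M] (f : ℂ → M), ∑ i ∈ E, (f (t i) - f (s i)) = 0) ∧
      (∀ i ∈ E, dist (t i) (s i) < η ∧ ∃ u u', c u ∧ ¬ c u' ∧ u ∈ ball (s i) η ∧
        u' ∈ ball (s i) η ∧ u ∈ ball (t i) η ∧ u' ∈ ball (t i) η) ∧
      ∀ a b, (∀ u ∈ ball a (10 * ε), c u) → (∀ u ∈ ball b (10 * ε), ¬ c u) →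
        ∑ i ∈ E, Complex.arg ((a - p (t i)) / (a - p (s i))) ≠
          ∑ i ∈ E, Complex.arg ((b - p (t i)) / (b - p (s i))) := by
  obtain ⟨E, s, t, h1, h2, h3⟩ := Pool.Agent.Lib.MP_e1e491_gt.KS.cyc c hc hη
  refine ⟨_, E, s, t, h1, h2, fun a b ha hb => ?_⟩
  obtain ⟨a', a1, a2⟩ := h3 a
  obtain ⟨b', b1, b2⟩ := h3 b
  have hsub : ∀ x : ℂ, ball x η ⊆ ball x (10 * ε) := fun x => ball_subset_ball (by linarith)
  rw [if_pos (ha _ (hsub a a1))] at a2
  rw [if_neg (hb _ (hsub b b1))] at b2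
  rw [s3bwind_sum (h1 ℝ fun v => Complex.arg ((a - p v) / (a' - v))) (a1.trans_le hε) fun i hi => ?_,
    s3bwind_sum (h1 ℝ fun v => Complex.arg ((b - p v) / (b' - v))) (b1.trans_le hε) fun i hi => ?_,
    a2, b2]
  · simp
  · obtain ⟨k0, u, u', k1, k2, k3, k4, k5, k6⟩ := h2 i hi
    exact ⟨k0.trans_le hε, hp _ u u' k3 k4 k1 k2, hp _ u u' k5 k6 k1 k2,
      s3bwind_far hε hb (not_not.2 k1) k3⟩
  · obtain ⟨k0, u, u', k1, k2, k3, k4, k5, k6⟩ := h2 i hi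
    exact ⟨k0.trans_le hε, hp _ u u' k3 k4 k1 k2, hp _ u u' k5 k6 k1 k2,
      s3bwind_far hε ha k2 k4⟩

/-- Apply `KS.cyc` to `c` or to its negation.  Let `a` be one of the two points and `a'` the grid
point of `cyc` in `ball a η`.  Every `s i`, `t i` is at distance at least `9 ε` from `a`.  With
`g v = arg ((a - p v) / (a' - v))` one has
`arg ((a - p t) / (a - p s)) = arg ((t - a') / (s - a')) + g t - g s`, because the three quotients
are within `1 / 2` of `1`; the terms `g` cancel by the cycle condition, and `arg` is the imaginary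
part of `log`.  So one sum is `2 π` and the other is `0`. -/
theorem exists_wind (c : ℂ → Prop) {R : ℝ}
    (hc : (∀ z, R ≤ ‖z‖ → c z) ∨ ∀ z, R ≤ ‖z‖ → ¬ c z) {η ε : ℝ} (hη : 0 < η) (hε : η ≤ ε)
    (p : ℂ → ℂ)
    (hp : ∀ v u u', u ∈ ball v η → u' ∈ ball v η → c u → ¬ c u' → dist (p v) v < ε) :
    ∃ (ι : Type) (E : Finset ι) (s t : ι → ℂ),
      (∀ (M : Type) [AddCommGroup M] (f : ℂ → M), ∑ i ∈ E, (f (t i) - f (s i)) = 0) ∧
      (∀ i ∈ E, dist (t i) (s i) < η ∧ ∃ u u', c u ∧ ¬ c u' ∧ u ∈ ball (s i) η ∧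
        u' ∈ ball (s i) η ∧ u ∈ ball (t i) η ∧ u' ∈ ball (t i) η) ∧
      ∀ a b, (∀ u ∈ ball a (10 * ε), c u) → (∀ u ∈ ball b (10 * ε), ¬ c u) →
        ∑ i ∈ E, Complex.arg ((a - p (t i)) / (a - p (s i))) ≠
          ∑ i ∈ E, Complex.arg ((b - p (t i)) / (b - p (s i))) := by
  rcases hc with hc | hc
  · obtain ⟨ι, E, s, t, h1, h2, h3⟩ := s3bwind_one (fun z => ¬ c z)
      (fun z hz => not_not.2 (hc z hz)) hη hε p
      fun v u u' k1 k2 k3 k4 => hp v u' u k2 k1 (not_not.1 k4) k3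
    refine ⟨ι, E, s, t, h1, fun i hi => ?_, fun a b ha hb =>
      (h3 b a hb fun u hu => not_not.2 (ha u hu)).symm⟩
    obtain ⟨k0, u, u', k1, k2, k3, k4, k5, k6⟩ := h2 i hi
    exact ⟨k0, u', u, not_not.1 k2, k1, k4, k3, k6, k5⟩
  · exact s3bwind_one c hc hη hε p hp

end KKC.S3
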