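import Pool.Agent.Lib.MP_e1e491_gt.S3BTwo
import Pool.Agent.Lib.MP_e1e491_gt.S3BStep
import Pool.Agent.Lib.MP_e1e491_gt.S3BWind

set_option autoImplicit false

/-!
Deep cycles that separate a point from a hole.
-/

namespace KKC.S3

open Set Metric
open scoped Pointwise

variable {G Z J : Type} [Group G] [MetricSpace Z] [CompactSpace Z] [MulAction G Z]
  [ContinuousConstSMul G Z] [MulAction G J] (X : CS G Z J)

/-- The base point of the hole `f • T` is near the location of a deep element `f` of the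
stabiliser (`exists_small_smul` for `P T`, `act_P`, `hole_small`, `unif_ι`). -/
theorem exists_bp_near {C : Set Z} (hC : IsClosed C) (hn : C.Nontrivial) {T : J}
    (hT : Disjoint (X.Q.P T) C) {ε : ℝ} (hε : 0 < ε) : ∃ R : ℕ, ∀ f : G, f • C = C →
      R ≤ X.H.len f → dist (X.Q.bp (f • T)) (X.Q.ι (X.H.loc f)) < ε := by
  obtain ⟨L, hL, h1⟩ := exists_small_smul X.H hC hn (X.Q.isCompact_P T) hT
  obtain ⟨δ₁, hδ₁, h2⟩ := X.Q.hole_small (half_pos hε)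
  obtain ⟨δ₂, hδ₂, h3⟩ := X.Q.unif_ι (half_pos hε)
  obtain ⟨R, hR⟩ := X.H.exists_sc_lt (ε := min δ₁ δ₂ / (2 * L)) (by positivity)
  obtain ⟨b, hb⟩ := (X.Q.P_nontrivial T).nonempty
  refine ⟨R, fun f hf hl => ?_⟩
  have h4 := hR f hl
  rw [lt_div_iff₀ (by positivity)] at h4
  have h5 := min_le_left δ₁ δ₂
  have h6 := min_le_right δ₁ δ₂
  have h7 : 0 < L * X.H.sc f := mul_pos hL (X.H.sc_pos f)
  have h8 : ¬ Big δ₁ (X.Q.P (f • T)) := by
    rw [X.act_P]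
    rintro ⟨_, ⟨x, hx, rfl⟩, _, ⟨y, hy, rfl⟩, h⟩
    have a1 := h1 f hf x hx
    have a2 := h1 f hf y hy
    have a3 := dist_triangle_right (f • x) (f • y) (X.H.loc f)
    simp only at h
    linarith
  have h9 := h2 _ h8 _ (X.Q.bp_mem _) (f • b) (by rw [X.act_P]; exact smul_mem_smul_set hb)
  have h10 := h3 (f • b) (X.H.loc f) (by linarith [h1 f hf b hb])
  rw [← dist_eq_norm] at h9 h10
  linarith [dist_triangle (X.Q.bp (f • T)) (X.Q.ι (f • b)) (X.Q.ι (X.H.loc f))]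

omit [CompactSpace Z] [ContinuousConstSMul G Z] in
lemma s3bcyc_out : ∃ R : ℝ, ∀ z : ℂ, R ≤ ‖z‖ → z ∈ X.Q.D X.Q.o := by
  refine ⟨‖X.Q.c X.Q.o‖ + 2 * X.Q.r X.Q.o + 1, fun z hz => ?_⟩
  rw [X.Q.D_out, mem_ofPred_eq]
  have h1 := norm_le_sn (z - X.Q.c X.Q.o)
  have h2 := norm_sub_norm_le z (X.Q.c X.Q.o)
  linarith

/-- `K₀` from `exists_two` with `J₁ = {V, o}`.  Let `η₀ = infDist b C / 2`, `η', ρ'` from
`step_eq`, `ε` small (`11 * (2 ε) ≤ ρ`, `ball (bp V) (20 ε) ⊆ D V`, `4 ε ≤ ρ'`), and `R'` so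
large that `L * sc < η'`, `η₀ ≤ dist b (loc f)` (`exists_deep_subset`) and `exists_bp_near` holds.
Apply `exists_wind` (with `2 ε`) to the colouring `c ∘ w` and `p v = bp (f v • T)`; put
`x i = f (s i)`, `x' i = f (t i)`.  Sum `step_eq` (with `y = loc (x i)`) over `i`: the sum of
the functions `l` lifts zero on the preconnected set `closure (D V)` (cycle condition in
`Real.Angle`), so it has the same value at `ι u` and at `bp V`. -/
theorem exists_cyc {C : Set Z} (hC : IsClosed C) (hn : C.Nontrivial) {F : Subgroup G}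
    (hF : ∀ f ∈ F, f • C = C) {c : J → Prop} (hv : TwoCol F c) {T V : J}
    (hT : Disjoint (X.Q.P T) C) (hTc : ∀ f ∈ F, c (f • T)) (hV : ¬ c V) {b : Z} (hb : b ∉ C)
    (hbc : ∃ ρ > 0, ∀ j, (X.Q.D j ∩ ball (X.Q.ι b) ρ).Nonempty → c j) :
    ∃ K₀ : ℕ, ∀ K, K₀ ≤ K → Cyc X F T V b K := by
  classical
  obtain ⟨ρ, hρ, hbc⟩ := hbc
  obtain ⟨K₀, hK₀⟩ := exists_two X hv {V, X.Q.o}
  refine ⟨K₀, fun K hK L R => ?_⟩
  obtain ⟨η₁, hη₁, hb1⟩ := Metric.isOpen_iff.1 hC.isOpen_compl b hb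
  obtain ⟨η', hη', ρ', hρ', hst⟩ := step_eq X.Q V b (half_pos hη₁)
  obtain ⟨ρ₁, hρ₁, hV1⟩ := Metric.isOpen_iff.1 (X.Q.isOpen_D V) _ (X.Q.bp_mem V)
  obtain ⟨ε, hε, e1, e2, e3⟩ : ∃ ε > 0, 21 * ε ≤ ρ ∧ 20 * ε ≤ ρ₁ ∧ 4 * ε ≤ ρ' :=
    ⟨min (ρ / 21) (min (ρ₁ / 20) (ρ' / 4)), by positivity,
      by linarith [min_le_left (ρ / 21) (min (ρ₁ / 20) (ρ' / 4))],
      by linarith [min_le_right (ρ / 21) (min (ρ₁ / 20) (ρ' / 4)), min_le_left (ρ₁ / 20) (ρ' / 4)],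
      by linarith [min_le_right (ρ / 21) (min (ρ₁ / 20) (ρ' / 4)), min_le_right (ρ₁ / 20) (ρ' / 4)]⟩
  obtain ⟨R₁, hR₁⟩ := X.H.exists_sc_lt (ε := η' / (|L| + 1)) (by positivity)
  obtain ⟨R₂, hR₂⟩ := exists_deep_subset X.H hC hn (O := (closedBall b (η₁ / 2))ᶜ)
    isClosed_closedBall.isOpen_compl (fun z hz hz' =>
      hb1 (closedBall_subset_ball (half_lt_self hη₁) hz') hz) 0
  obtain ⟨R₃, hR₃⟩ := exists_bp_near X hC hn hT hε
  obtain ⟨η, hη, hηε, w, f, hw1, hw2, hf⟩ := hK₀ (R + R₁ + R₂ + R₃) ε hε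
  obtain ⟨R₄, hR₄⟩ := s3bcyc_out X
  have hc : (∀ z, R₄ ≤ ‖z‖ → c (w z)) ∨ ∀ z, R₄ ≤ ‖z‖ → ¬ c (w z) := by
    by_cases h : c X.Q.o
    · exact Or.inl fun z hz => by rwa [hw1 X.Q.o (by simp) z (hR₄ z hz)]
    · exact Or.inr fun z hz => by rwa [hw1 X.Q.o (by simp) z (hR₄ z hz)]
  obtain ⟨ι, E, s, t, c1, c2, c3⟩ := exists_wind (fun z => c (w z)) hc hη
    (ε := 2 * ε) (by linarith) (fun v => X.Q.bp (f v • T)) (fun v u u' hu hu' h h' => by
      obtain ⟨a1, a2, a3, -⟩ := hf v u u' hu hu' h h'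
      have a4 := hR₃ (f v) (hF _ a1) (by omega)
      linarith [dist_triangle_right (X.Q.bp (f v • T)) v (X.Q.ι (X.H.loc (f v)))])
  have key : ∀ i ∈ E, (f (s i) ∈ F ∧ f (t i) ∈ F ∧ X.H.len ((f (s i))⁻¹ * f (t i)) ≤ K₀ ∧
      R + R₁ + R₂ + R₃ ≤ X.H.len (f (s i)) ∧ R + R₁ + R₂ + R₃ ≤ X.H.len (f (t i))) ∧
      X.Q.bp (f (t i) • T) ∈ ball (X.Q.ι (X.H.loc (f (s i)))) ρ' := fun i hi => by
    obtain ⟨d1, u, u', h, h', m1, m2, m3, m4⟩ := c2 i hi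
    obtain ⟨a1, a2, a3, a4⟩ := hf (s i) u u' m1 m2 h h'
    obtain ⟨b1, b2, b3, -⟩ := hf (t i) u u' m3 m4 h h'
    refine ⟨⟨a1, b1, a4 _ m3 m4, a2, b2⟩, ?_⟩
    have a5 := hR₃ (f (t i)) (hF _ b1) (by omega)
    have a6 := dist_triangle_right (X.Q.bp (f (t i) • T)) (t i) (X.Q.ι (X.H.loc (f (t i))))
    have a7 := dist_triangle4 (X.Q.bp (f (t i) • T)) (t i) (s i) (X.Q.ι (X.H.loc (f (s i))))
    rw [mem_ball]
    linarith
  refine ⟨ι, E, fun i => f (s i), fun i => f (t i), fun i hi => ?_,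
    fun M _ g => c1 M fun v => g (f v), fun φ H h hφ u hu => ?_⟩
  · obtain ⟨⟨a1, a2, a3, a4, a5⟩, -⟩ := key i hi
    exact ⟨a1, a2, a3.trans hK, le_trans (by omega) a4, le_trans (by omega) a5⟩
  have hl : ∀ i ∈ E, ∃ l : ℂ → ℝ, ContinuousOn l (closure (X.Q.D V)) ∧
      (∀ z ∈ closure (X.Q.D V), (l z : Real.Angle) =
        (Complex.arg (z - X.Q.bp (f (t i) • T)) : Real.Angle) -
          (Complex.arg (z - X.Q.bp (f (s i) • T)) : Real.Angle)) ∧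
      (∀ u ∈ X.Q.P V, H i u - h i u = -l (X.Q.ι u)) ∧
      H i b + Complex.arg ((X.Q.ι b - X.Q.bp (f (t i) • T)) / (X.Q.ι b - X.Q.bp (f (s i) • T))) =
        -l (X.Q.bp V) + Complex.arg ((X.Q.bp V - X.Q.bp (f (t i) • T)) /
          (X.Q.bp V - X.Q.bp (f (s i) • T))) := fun i hi => by
    obtain ⟨⟨a1, a2, -, a4, -⟩, a6⟩ := key i hi
    obtain ⟨p1, p2, p3, p4⟩ := hφ i hi
    have b1 : L * X.H.sc (f (s i)) < η' := by
      have b2 := hR₁ (f (s i)) (by omega)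
      rw [lt_div_iff₀ (by positivity)] at b2
      have b3 := X.H.sc_pos (f (s i))
      nlinarith [le_abs_self L]
    have b2 := hR₂ (f (s i)) (hF _ a1) (by omega) (mem_closedBall_self (by simp))
    rw [mem_compl_iff, mem_closedBall', not_le] at b2
    have b3 := hR₃ (f (s i)) (hF _ a1) (by omega)
    exact hst (X.H.loc (f (s i))) b2.le _ _ (fun e => hV (e ▸ hTc _ a1))
      (fun e => hV (e ▸ hTc _ a2)) (mem_ball.2 (by linarith)) a6 (φ i) (H i) (h i)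
      (fun z hz => p1 z (b1.trans_le hz)) p2 p3 fun z hz hz' => p4 z hz (b1.trans_le hz')
  choose! l l1 l2 l3 l4 using hl
  have hsum : ∑ i ∈ E, l i (X.Q.ι u) = ∑ i ∈ E, l i (X.Q.bp V) :=
    eq_of_coe_zero (f := fun z => ∑ i ∈ E, l i z)
      (X.Q.isPathConnected_D V).isConnected.isPreconnected.closure
      (continuousOn_finsetSum E l1) (fun z hz => by
        rw [← c1 Real.Angle fun v => (Complex.arg (z - X.Q.bp (f v • T)) : Real.Angle),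
          ← Finset.sum_congr rfl fun i hi => l2 i hi z hz]
        exact map_sum Real.Angle.coeHom _ E)
      (by rw [X.Q.closure_D]; exact Or.inr ⟨u, hu, rfl⟩) (subset_closure (X.Q.bp_mem V))
  intro h0
  refine c3 (X.Q.ι b) (X.Q.bp V) (fun v hv => ?_) (fun v hv => ?_) ?_
  · obtain ⟨z, hz, hd⟩ := hw2 v
    refine hbc _ ⟨z, hz, ?_⟩
    rw [mem_ball] at hv ⊢
    linarith [dist_triangle_left z (X.Q.ι b) v]
  · rw [hw1 V (by simp) v (hV1 (ball_subset_ball (by linarith) hv))]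
    exact hV
  · rw [← sub_eq_zero, ← Finset.sum_sub_distrib]
    have e : ∀ i ∈ E, Complex.arg ((X.Q.ι b - X.Q.bp (f (t i) • T)) /
        (X.Q.ι b - X.Q.bp (f (s i) • T))) - Complex.arg ((X.Q.bp V - X.Q.bp (f (t i) • T)) /
          (X.Q.bp V - X.Q.bp (f (s i) • T))) =
        l i (X.Q.ι u) - l i (X.Q.bp V) - (H i b - H i u + h i u) := fun i hi => by
      linarith [l3 i hi u hu, l4 i hi]
    rw [Finset.sum_congr rfl e, Finset.sum_sub_distrib, Finset.sum_sub_distrib, hsum, h0, sub_self,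
      sub_self]

end KKC.S3
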