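import Pool.Agent.Lib.MP_e1e491_gt.S3BAlE
import Pool.Agent.Lib.MP_e1e491_gt.S3BAlpha
import Pool.Agent.Lib.MP_e1e491_gt.S3BCyc
import Pool.Agent.Lib.MP_e1e491_gt.S3BBridge

set_option autoImplicit false

/-!
The case of the whole carpet.
-/

namespace KKC.S3

open Set Metric
open scoped Pointwise

variable {G Z J : Type} [Group G] [MetricSpace Z] [CompactSpace Z] [MulAction G Z]
  [ContinuousConstSMul G Z] [MulAction G J] (X : CS G Z J)

/-- Take the cycle of `Cyc` with `S.L` and depth `max R K3`, all coefficients one, and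
`χ a = - ∑ i, cut (x i) (x' i) a`.  Choose lifts `g x` from `ψ_cls`; put
`φ i = corr D ψ φ (x i) (x' i) D = ψ (x i) - ψ (x' i)`, `H i = g (x i) - g (x' i)` and
`h i = S.h (x i) (x' i) D`, `u = ρ 1`.  The sums of `H i` and of the terms `kap` vanish by the
cycle condition. -/
theorem round_alpha {D D₁ : J} {K : ℕ} (S : Al X D D₁ K) {b : Z}
    (hcyc : Cyc X (MulAction.stabilizer G D) D₁ D b K) :
    Round X.H.len (MulAction.stabilizer G D) K S.I := by
  intro R
  obtain ⟨ι, s, x, x', c1, c2, c3⟩ := hcyc S.L (max R S.K3)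
  have h1 : X.H.len 1 = 0 := (X.H.len_eq_zero 1).2 rfl
  choose g hg using S.ψ_cls
  refine ⟨ι, s, fun _ => 1, x, x', fun a => -∑ i ∈ s, S.cut (x i) (x' i) a, fun i hi => ?_,
    fun φ => ?_, ?_, ?_, fun a ha b hb hab => ?_⟩
  · obtain ⟨a1, a2, a3, a4, a5⟩ := c1 i hi
    exact ⟨a1, a2, a3, (le_max_left _ _).trans a4, (le_max_left _ _).trans a5⟩
  · simp only [one_mul]
    exact c2 ℝ φ
  · refine (X.H.fin (∑ i ∈ s, X.H.len (x i))).subset fun a ha => ?_
    obtain ⟨i, hi, h⟩ := Finset.exists_ne_zero_of_sum_ne_zero (neg_ne_zero.1 ha.2)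
    have h2 : X.H.len a + S.K3 ≤ X.H.len (x i) := by
      by_contra h'
      exact h (if_neg h')
    have h3 := Finset.single_le_sum (f := fun i => X.H.len (x i)) (fun _ _ => Nat.zero_le _) hi
    exact (Nat.le_add_right _ _).trans (h2.trans h3)
  · have hu : S.E.ρ 1 ∈ X.Q.P D := by simpa using S.ρ_mem 1
    have h2 := c3 (fun i => corr D S.ψ S.φ (x i) (x' i) D) (fun i => g (x i) - g (x' i))
      (fun i => S.h (x i) (x' i) D) (fun i hi => ?_) _ hu
    · intro h0
      apply h2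
      have a1 := c2 ℝ fun y => g y b
      have a2 := c2 ℝ fun y => g y (S.E.ρ 1)
      have a3 : ∑ i ∈ s, S.h (x i) (x' i) D (S.E.ρ 1) = 0 := by
        rw [← neg_eq_zero.1 h0]
        refine Finset.sum_congr rfl fun i hi => ?_
        have b1 : X.H.len 1 + S.K3 ≤ X.H.len (x i) := by
          rw [h1, zero_add]
          exact (le_max_right _ _).trans (c1 i hi).2.2.2.1
        rw [Al.cut, if_pos b1, one_smul]
      simp only [Pi.sub_apply, Finset.sum_add_distrib, Finset.sum_sub_distrib] at a1 a2 ⊢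
      linarith
    · obtain ⟨a1, a2, a3, -, -⟩ := c1 i hi
      have e1 : x i • D = D := a1
      have e2 : x' i • D = D := a2
      have e3 : corr D S.ψ S.φ (x i) (x' i) D = S.ψ (x i) - S.ψ (x' i) := by
        rw [corr, if_pos e1, if_pos e2, S.φ_plane _ _ (e1.trans e2.symm)]
        abel
      refine ⟨fun z hz => ?_, ?_, S.h_lift _ _ D a3, S.h_zero _ _ D a3⟩
      · have b0 : X.H.len ((x i)⁻¹ * x i) ≤ K := by
          rw [inv_mul_cancel, h1]
          exact Nat.zero_le _
        rw [e3, ContinuousMap.sub_apply, (S.ψ_test _ _ b0).2 z hz, (S.ψ_test _ _ a3).2 z hz,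
          sub_zero]
      · have b1 := (hg (x i)).sub (hg (x' i))
        rw [e1, e2] at b1
        have b2 : S.ψ (x i) - S.ψ (x' i) - (th X.Q (x' i • D₁) - th X.Q (x i • D₁)) =
            S.ψ (x i) - (th X.Q D - th X.Q (x i • D₁)) -
              (S.ψ (x' i) - (th X.Q D - th X.Q (x' i • D₁))) := by abel
        rw [e3, b2]
        exact b1
  · have a1 := c2 ℝ fun y => S.kap y a b
    have a2 : ∀ i ∈ s, 1 * S.I (x i) (x' i) a b = -(S.kap (x' i) a b - S.kap (x i) a b) -
        (S.cut (x i) (x' i) b - S.cut (x i) (x' i) a) := by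
      intro i hi
      have e1 : x i • D = D := (c1 i hi).1
      have e2 : x' i • D = D := (c1 i hi).2.1
      rw [Al.I, S.φ_plane _ _ (e1.trans e2.symm), map_zero]
      ring
    rw [Finset.sum_congr rfl a2, Finset.sum_sub_distrib, Finset.sum_neg_distrib, a1,
      Finset.sum_sub_distrib]
    ring

/-- For each `j ∈ J₀` in the orbit of `D` choose `φ` with `φ • j = D`. -/
theorem twoCol_alpha (D : J) : TwoCol (MulAction.stabilizer G D) (fun j : J => j ≠ D) := by
  classical
  intro J₀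
  have h : ∀ j : J, ∃ φ : G, (∃ g : G, g • j = D) → φ • j = D := by
    intro j
    by_cases h : ∃ g : G, g • j = D
    · exact h.imp fun g hg _ => hg
    · exact ⟨1, fun h' => absurd h' h⟩
  choose f hf using h
  refine ⟨J₀.image f, fun g i _ j hj _ h2 => ⟨f j, Finset.mem_image_of_mem f hj, ?_⟩⟩
  have h3 : g • j = D := not_not.1 h2
  rw [MulAction.mem_stabilizer_iff, mul_smul, inv_smul_eq_iff.2 (hf j ⟨g, h3⟩).symm, h3]

/-- `D₁ ≠ D` any two holes, `b ∈ P D₁`, `C = P D`; `exists_three`, `exists_cyc` (`closure_D`: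
`ι b` is not in the closure of the hole), `exists_al`, `Al.link`, `round_alpha` and
`false_of_link`. -/
theorem false_alpha {D D₁ : J} (hD : D₁ ≠ D) {A : Subgroup G} (hA : ∀ g, g ∈ A) {K₀ : ℕ}
    (hS : ∀ K, K₀ ≤ K → X.H.Par A K ∧ X.H.Star A K) : False := by
  obtain ⟨b, hb, -⟩ := X.Q.P_nontrivial D₁
  have hd := X.Q.P_disj D₁ D hD
  have hb' : b ∉ X.Q.P D := Set.disjoint_left.1 hd hb
  have hcl : X.Q.ι b ∉ closure (X.Q.D D) := by
    rw [X.Q.closure_D]
    rintro (h | ⟨z, hz, e⟩)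
    · exact X.Q.not_mem b D h
    · exact hb' (X.Q.ι_inj e ▸ hz)
  obtain ⟨ρ, hρ, hball⟩ := Metric.isOpen_iff.1 isClosed_closure.isOpen_compl _ hcl
  obtain ⟨K', hK'⟩ := exists_cyc X (X.Q.isClosed_P D) (X.Q.P_nontrivial D)
    (F := MulAction.stabilizer G D)
    (fun f hf => by rw [← X.act_P, MulAction.mem_stabilizer_iff.1 hf]) (twoCol_alpha D)
    (T := D₁) (V := D) hd
    (fun f hf e => hD (smul_left_cancel f (e.trans (MulAction.mem_stabilizer_iff.1 hf).symm)))
    (fun h => h rfl) hb'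
    ⟨ρ, hρ, fun j ⟨v, hv, hv'⟩ e => hball hv' (subset_closure (e ▸ hv))⟩
  refine false_of_link X.H (F := MulAction.stabilizer G D) (fun g _ => hA g) hS
    (exists_three X (twoCol_alpha D) (T := D₁) (V := D) hD fun h => h rfl) ⟨K', fun K hK => ?_⟩
  obtain ⟨S⟩ := exists_al X hD K
  obtain ⟨K1, K2, B, hL⟩ := S.link (A := A)
  exact ⟨K1, K2, B, S.W, S.I, S.I, hL, round_alpha X S (hK' K hK)⟩

end KKC.S3
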