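import Pool.Agent.Lib.MP_e1e491_gt.S3BBetaR
import Pool.Agent.Lib.MP_e1e491_gt.S3BAlphaR

set_option autoImplicit false

/-!
The stabiliser of a separating continuum has nonzero square summable cohomology.
-/

namespace KKC

open Set
open scoped Pointwise

variable {G Z J : Type} [Group G] [MetricSpace Z] [CompactSpace Z] [MulAction G Z]
  [ContinuousConstSMul G Z] [MulAction G J]

theorem sec3 (X : CS G Z J) (C : Set Z) (hC : IsClosed C) (hc : IsPreconnected C)
    (hn : C.Nontrivial) (hfs : FS G C) (hs : ∃ i j, ¬ X.Q.Same C (.inr i) (.inr j)) (K₀ : ℕ)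
    (hS : ∀ K, K₀ ≤ K → X.H.Par (MulAction.stabilizer G C) K ∧
      X.H.Star (MulAction.stabilizer G C) K) : False := by
  obtain ⟨i, j, hij⟩ := hs
  by_cases h : ∃ b, b ∉ C
  · obtain ⟨b, hb⟩ := h
    exact S3.false_beta X hC hc hn hfs hij (fun a => MulAction.mem_stabilizer_iff) hS hb
  · have hu : C = univ := eq_univ_of_forall fun b => not_not.1 fun hb => h ⟨b, hb⟩
    have hne : i ≠ j := fun e => hij (e ▸ X.Q.same_refl_inr C i)
    refine S3.false_alpha X hne (fun g => ?_) hS
    rw [MulAction.mem_stabilizer_iff, hu, smul_set_univ]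

end KKC
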