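import Pool.Agent.Lib.MP_e1e491_gt.KSBr3
import Pool.Agent.Lib.MP_e1e491_gt.S1Main
import Pool.Agent.Lib.MP_e1e491_gt.GeoBr
import Pool.Agent.Lib.MP_e1e491_gt.GbC
import Pool.Agent.Lib.MP_e1e491_gt.S3Main
import Pool.Agent.Lib.MP_e1e491_gt.P2.Main

/-! Assembly. -/

namespace KKC

open Set
open scoped Pointwise NNReal

/-- The finite energy functions separate the points of the boundary. -/
theorem CS.rel2_eq {G Z J : Type} [Group G] [MetricSpace Z] [CompactSpace Z] [MulAction G Z]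
    [ContinuousConstSMul G Z] [MulAction G J] (X : CS G Z J) (x y : Z) (h : X.H.Rel2 x y) :
    x = y := by
  by_contra hne
  obtain ⟨z, h1, h2, h3⟩ := thmS X X.H.dec2 ⟨x, y, h, hne⟩
  obtain ⟨-, K₀, h5⟩ := X.H.star_of_fs z h1 h2
  have h6 : IsClosed (X.H.dec2.cls z) :=
    X.H.dec2.closed.preimage (f := fun w : Z => (z, w)) (by fun_prop)
  exact sec3 X _ h6 (X.H.dec2.conn z) h1 h2 h3 K₀ h5

/-- A carpet boundary embeds quasisymmetrically in the round sphere. -/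
theorem embed {G : Type} [Group G] (S : Finset G)
    (hS : Subgroup.closure (S : Set G) = ⊤) (hyp : Hyperbolic S) [MetricSpace (Bdry S)]
    (hv : IsVisual S) (hc : Nonempty (Bdry S ≃ₜ carpet)) :
    ∃ (f : Bdry S → Metric.sphere (0 : EuclideanSpace ℝ (Fin 3)) 1) (η : ℝ≥0 ≃ₜ ℝ≥0),
      Topology.IsEmbedding f ∧ IsQS η f ∧ ∀ x y z : Bdry S, z ≠ x →
        InnerProductGeometry.angle (f x).1 (f y).1 / InnerProductGeometry.angle (f x).1 (f z).1 ≤
          η (nndist x y / nndist x z) := by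
  obtain ⟨e⟩ := hc
  obtain ⟨J, _, _, _, _, ⟨X⟩⟩ := exists_all S hS hyp hv e
  obtain ⟨Y, _, F, K, α, β, p, h1, h2, h3, h4, h5, h6, -, -, h7⟩ := X.H.metric_of_sep X.rel2_eq
  obtain ⟨C, hG⟩ := X.geoP
  exact KP2.phase2 X.Q hG F h1 h2 h3 h4 h5 h6 h7

end KKC
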