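import Pool.Agent.Lib.MP_e1e491_gt.Defs

/-! The sup norm, radial parametrisations of squares, and the radial retraction of the plane
without the centres of the holes onto `Z`. -/

namespace KKC

open Set Topology Filter

namespace Pr

theorem sn_nonneg (v : ℂ) : 0 ≤ sn v := le_max_of_le_left (abs_nonneg _)

theorem sn_le_norm (v : ℂ) : sn v ≤ ‖v‖ :=
  max_le (Complex.abs_re_le_norm v) (Complex.abs_im_le_norm v)

theorem norm_le_sn (v : ℂ) : ‖v‖ ≤ 2 * sn v := by
  have := Complex.norm_le_abs_re_add_abs_im v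
  have h1 : |v.re| ≤ sn v := le_max_left _ _
  have h2 : |v.im| ≤ sn v := le_max_right _ _
  linarith

theorem sn_zero : sn 0 = 0 := by simp [sn]

theorem sn_pos {v : ℂ} (h : v ≠ 0) : 0 < sn v := by
  have := norm_le_sn v
  have := norm_pos_iff.mpr h
  linarith

theorem sn_mul (t : ℝ) (v : ℂ) : sn (t * v) = |t| * sn v := by
  simp [sn, abs_mul, mul_max_of_nonneg]

theorem sn_neg (v : ℂ) : sn (-v) = sn v := by simp [sn]

theorem sn_sub_comm (v w : ℂ) : sn (v - w) = sn (w - v) := by rw [← sn_neg, neg_sub]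

theorem sn_add_le (v w : ℂ) : sn (v + w) ≤ sn v + sn w :=
  max_le ((abs_add_le _ _).trans (add_le_add (le_max_left _ _) (le_max_left _ _)))
    ((abs_add_le _ _).trans (add_le_add (le_max_right _ _) (le_max_right _ _)))

theorem sn_tri (u v w : ℂ) : sn (u - w) ≤ sn (u - v) + sn (v - w) := by
  have := sn_add_le (u - v) (v - w)
  rwa [sub_add_sub_cancel] at this

@[fun_prop] theorem continuous_sn : Continuous sn := by unfold sn; fun_prop

/-- Radial projection onto the boundary of the square with centre `c` and radius `r`. -/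
noncomputable def rad (c : ℂ) (r : ℝ) (v : ℂ) : ℂ := c + (r / sn (v - c) : ℝ) * (v - c)

theorem sn_rad {c v : ℂ} {r : ℝ} (hr : 0 ≤ r) (h : v ≠ c) : sn (rad c r v - c) = r := by
  have := sn_pos (sub_ne_zero.mpr h)
  rw [rad, add_sub_cancel_left, sn_mul, abs_of_nonneg (by positivity)]
  field_simp

theorem sn_rad_sub {c v : ℂ} {r : ℝ} (h : v ≠ c) : sn (rad c r v - v) = |r - sn (v - c)| := by
  have h0 := sn_pos (sub_ne_zero.mpr h)
  have : rad c r v - v = (((r - sn (v - c)) / sn (v - c) : ℝ) : ℂ) * (v - c) := by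
    have h1 : ((sn (v - c) : ℝ) : ℂ) ≠ 0 := by exact_mod_cast h0.ne'
    rw [rad]; push_cast; field_simp; ring
  rw [this, sn_mul, abs_div, abs_of_pos h0]
  field_simp

theorem rad_self {c v : ℂ} {r : ℝ} (hr : 0 < r) (h : sn (v - c) = r) : rad c r v = v := by
  rw [rad, h, div_self hr.ne']; simp

theorem continuousAt_rad {c v : ℂ} (r : ℝ) (h : v ≠ c) : ContinuousAt (rad c r) v := by
  have h0 := sn_pos (sub_ne_zero.mpr h)
  unfold rad
  refine continuousAt_const.add (ContinuousAt.mul ?_ (by fun_prop))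
  exact Complex.continuous_ofReal.continuousAt.comp (continuousAt_const.div (by fun_prop) h0.ne')

/-- Polar coordinates for the sup norm. -/
noncomputable def pol (c : ℂ) (p : Circle × ℝ) : ℂ := c + (p.2 / sn p.1 : ℝ) * (p.1 : ℂ)

theorem continuous_pol (c : ℂ) : Continuous (pol c) := by
  unfold pol
  refine continuous_const.add (Continuous.mul ?_ (by fun_prop))
  exact Complex.continuous_ofReal.comp
    (continuous_snd.div (by fun_prop) fun p => (sn_pos p.1.coe_ne_zero).ne')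

theorem sn_pol (c : ℂ) (u : Circle) {t : ℝ} (ht : 0 ≤ t) : sn (pol c (u, t) - c) = t := by
  have := sn_pos u.coe_ne_zero
  rw [pol, add_sub_cancel_left, sn_mul, abs_of_nonneg (by positivity)]
  field_simp

theorem exists_pol (c v : ℂ) : ∃ u : Circle, pol c (u, sn (v - c)) = v := by
  by_cases h : v - c = 0
  · exact ⟨1, by simp [pol, sn_zero, (sub_eq_zero.mp h)]⟩
  have hn : ‖v - c‖ ≠ 0 := norm_ne_zero_iff.mpr h
  have hs := sn_pos h
  refine ⟨⟨(‖v - c‖⁻¹ : ℝ) * (v - c), by simp [Submonoid.unitSphere, hn]⟩, ?_⟩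
  show c + ((sn (v - c) / sn ((‖v - c‖⁻¹ : ℝ) * (v - c)) : ℝ) : ℂ) * ((‖v - c‖⁻¹ : ℝ) * (v - c)) = v
  rw [sn_mul, abs_of_nonneg (by positivity), ← mul_assoc, ← Complex.ofReal_mul]
  have : sn (v - c) / (‖v - c‖⁻¹ * sn (v - c)) * ‖v - c‖⁻¹ = 1 := by field_simp
  rw [this]; simp

theorem pol_image (c : ℂ) {T : Set ℝ} (hT : ∀ t ∈ T, 0 ≤ t) :
    pol c '' (univ ×ˢ T) = {v | sn (v - c) ∈ T} := by
  ext v
  constructor
  · rintro ⟨⟨u, t⟩, ⟨-, ht⟩, rfl⟩
    show sn _ ∈ T
    rwa [sn_pol c u (hT t ht)]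
  · intro hv
    obtain ⟨u, hu⟩ := exists_pol c v
    exact ⟨(u, _), ⟨mem_univ _, hv⟩, hu⟩

theorem isPreconnected_sn (c : ℂ) {T : Set ℝ} (hT : ∀ t ∈ T, 0 ≤ t) (h : IsPreconnected T) :
    IsPreconnected {v | sn (v - c) ∈ T} := by
  rw [← pol_image c hT]
  exact (isPreconnected_univ.prod h).image _ (continuous_pol c).continuousOn

theorem pol_inj (c : ℂ) {r : ℝ} (hr : 0 < r) : Function.Injective fun u : Circle => pol c (u, r) := by
  intro u w h
  have hu := sn_pos u.coe_ne_zero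
  have hw := sn_pos w.coe_ne_zero
  have h1 : ((r / sn u : ℝ) : ℂ) * (u : ℂ) = ((r / sn w : ℝ) : ℂ) * (w : ℂ) := add_left_cancel h
  have h2 := congrArg norm h1
  simp only [norm_mul, Complex.norm_real, Circle.norm_coe, mul_one, Real.norm_eq_abs] at h2
  rw [abs_of_pos (by positivity), abs_of_pos (by positivity)] at h2
  rw [h2] at h1
  exact Subtype.ext (mul_left_cancel₀ (by exact_mod_cast (by positivity : r / sn w ≠ 0)) h1)

theorem mem_closure_sn {c p : ℂ} {T : Set ℝ} (hT : ∀ t ∈ T, 0 ≤ t) (h : sn (p - c) ∈ closure T) :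
    p ∈ closure {v | sn (v - c) ∈ T} := by
  obtain ⟨u, hu⟩ := exists_pol c p
  rw [← hu]
  have hc : Continuous fun t : ℝ => pol c (u, t) := (continuous_pol c).comp (by fun_prop)
  refine closure_mono ?_ (mem_closure_image (f := fun t : ℝ => pol c (u, t)) hc.continuousAt h)
  rintro _ ⟨t, ht, rfl⟩
  show sn _ ∈ T
  rwa [sn_pol c u (hT t ht)]

/-- An open disc without countably many points is path connected. -/
theorem isPathConnected_ball_diff (c : ℂ) {r : ℝ} (hr : 0 < r) {s : Set ℂ} (hs : s.Countable) :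
    IsPathConnected (Metric.ball c r \ s) := by
  set e := OpenPartialHomeomorph.univBall (E := ℂ) c r with he
  have h1 : e.source = univ := OpenPartialHomeomorph.univBall_source c r
  have h2 : e.target = Metric.ball c r := OpenPartialHomeomorph.univBall_target c hr
  have hi : Function.Injective e := injOn_univ.mp (h1 ▸ e.injOn)
  have hc : Continuous e := continuousOn_univ.mp (h1 ▸ e.continuousOn)
  have h3 := ((hs.preimage_of_injOn (f := e) hi.injOn).isPathConnected_compl_of_one_lt_rank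
    (by rw [Complex.rank_real_complex]; norm_num)).image hc
  convert h3 using 1
  ext v
  constructor
  · rintro ⟨hv, hvs⟩
    have := e.right_inv (h2 ▸ hv)
    exact ⟨e.symm v, by show e (e.symm v) ∉ s; rwa [this], this⟩
  · rintro ⟨w, hw, rfl⟩
    exact ⟨h2 ▸ e.map_source (h1 ▸ mem_univ w), hw⟩

end Pr

open Pr

/-- The planar data without local path connectedness and density. -/
structure PD0 (Z J : Type) [TopologicalSpace Z] where
  ι : Z → ℂ
  o : J
  c : J → ℂ
  r : J → ℝ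
  D : J → Set ℂ
  P : J → Set Z
  ι_cont : Continuous ι
  ι_inj : Function.Injective ι
  r_pos : ∀ j, 0 < r j
  D_in : ∀ j, j ≠ o → D j = {v | sn (v - c j) < r j}
  D_out : D o = {v | r o < sn (v - c o)}
  P_eq : ∀ j, ι '' P j = {v | sn (v - c j) = r j}
  D_disj : ∀ i j, i ≠ j → Disjoint (D i) (D j)
  not_mem : ∀ z j, ι z ∉ D j
  cover : ∀ v, v ∈ range ι ∨ ∃ j, v ∈ D j
  null : ∀ ε > 0, {j | ε ≤ r j}.Finite

/-- Forget two fields. -/
def PD.to0 {Z J : Type} [TopologicalSpace Z] (Q : PD Z J) : PD0 Z J :=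
  ⟨Q.ι, Q.o, Q.c, Q.r, Q.D, Q.P, Q.ι_cont, Q.ι_inj, Q.r_pos, Q.D_in, Q.D_out, Q.P_eq, Q.D_disj,
    Q.not_mem, Q.cover, Q.null⟩

namespace PD0

variable {Z J : Type} [TopologicalSpace Z] (Q : PD0 Z J)

include Q in
theorem countable : Countable J := by
  have : (univ : Set J) = ⋃ n : ℕ, {j | 1 / ((n : ℝ) + 1) ≤ Q.r j} := by
    refine (eq_univ_of_forall fun j => ?_).symm
    obtain ⟨n, hn⟩ := exists_nat_one_div_lt (Q.r_pos j)
    exact mem_iUnion.mpr ⟨n, hn.le⟩
  exact countable_univ_iff.mp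
    (this ▸ countable_iUnion fun n => (Q.null _ (by positivity)).countable)

theorem isOpen_D (j : J) : IsOpen (Q.D j) := by
  by_cases h : j = Q.o
  · rw [h, Q.D_out]; exact isOpen_lt continuous_const (by fun_prop)
  · rw [Q.D_in j h]; exact isOpen_lt (by fun_prop) continuous_const

theorem mem_P {j : J} {z : Z} : z ∈ Q.P j ↔ sn (Q.ι z - Q.c j) = Q.r j := by
  rw [← Q.ι_inj.mem_set_image, Q.P_eq]; rfl

theorem isClosed_P (j : J) : IsClosed (Q.P j) := by
  have : Q.P j = {z | sn (Q.ι z - Q.c j) = Q.r j} := Set.ext fun z => Q.mem_P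
  rw [this]
  exact isClosed_eq (continuous_sn.comp (Q.ι_cont.sub continuous_const)) continuous_const

theorem isPreconnected_D (j : J) : IsPreconnected (Q.D j) := by
  by_cases h : j = Q.o
  · rw [h, Q.D_out]
    exact isPreconnected_sn _ (T := Ioi (Q.r Q.o)) (fun t ht => ((Q.r_pos _).trans ht).le)
      isPreconnected_Ioi
  · rw [Q.D_in j h]
    have := isPreconnected_sn (Q.c j) (T := Ico 0 (Q.r j)) (fun t ht => ht.1) isPreconnected_Ico
    simpa [sn_nonneg] using this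

theorem mem_closure_D {j : J} {z : Z} (hz : z ∈ Q.P j) : Q.ι z ∈ closure (Q.D j) := by
  rw [Q.mem_P] at hz
  by_cases h : j = Q.o
  · subst h
    rw [Q.D_out]
    exact mem_closure_sn (T := Ioi (Q.r Q.o)) (fun t ht => ((Q.r_pos _).trans ht).le)
      (by rw [hz, closure_Ioi]; exact mem_Ici.mpr le_rfl)
  · rw [Q.D_in j h]
    have := mem_closure_sn (c := Q.c j) (p := Q.ι z) (T := Ico 0 (Q.r j)) (fun t ht => ht.1)
      (by rw [hz, closure_Ico (Q.r_pos j).ne]; exact ⟨(Q.r_pos j).le, le_rfl⟩)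
    simpa [sn_nonneg] using this

theorem P_nonempty (j : J) : (Q.P j).Nonempty := by
  have : pol (Q.c j) (1, Q.r j) ∈ Q.ι '' Q.P j := by
    rw [Q.P_eq]; exact sn_pol _ _ (Q.r_pos j).le
  obtain ⟨z, hz, -⟩ := this
  exact ⟨z, hz⟩

/-- The centres of the bounded holes. -/
def cen : Set ℂ := Q.c '' {j | j ≠ Q.o}

theorem cen_countable : Q.cen.Countable := by
  have := Q.countable
  exact (to_countable _).image _

theorem not_cen (z : Z) : Q.ι z ∉ Q.cen := by
  rintro ⟨j, hj, h⟩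
  refine Q.not_mem z j ?_
  rw [Q.D_in j hj, ← h]
  simpa [sn_zero] using Q.r_pos j

theorem ne_c {j : J} {v : ℂ} (hv : v ∈ Q.D j) (hc : v ∉ Q.cen) : v ≠ Q.c j := by
  rintro rfl
  by_cases h : j = Q.o
  · rw [h, Q.D_out] at hv
    have : Q.r Q.o < sn (Q.c Q.o - Q.c Q.o) := hv
    rw [sub_self, sn_zero] at this
    exact absurd (Q.r_pos _) this.not_gt
  · exact hc ⟨j, h, rfl⟩

theorem exists_ret (v : ℂ) : ∃ z : Z, (∀ w, Q.ι w = v → z = w) ∧
    ∀ j, v ∈ Q.D j → z ∈ Q.P j ∧ (v ≠ Q.c j → Q.ι z = rad (Q.c j) (Q.r j) v) := by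
  rcases Q.cover v with ⟨w, rfl⟩ | ⟨j, hj⟩
  · exact ⟨w, fun _ h => Q.ι_inj h.symm, fun j hj => absurd hj (Q.not_mem w j)⟩
  · have key : ∃ z ∈ Q.P j, v ≠ Q.c j → Q.ι z = rad (Q.c j) (Q.r j) v := by
      by_cases h : v = Q.c j
      · obtain ⟨z, hz⟩ := Q.P_nonempty j
        exact ⟨z, hz, fun h' => absurd h h'⟩
      · have : rad (Q.c j) (Q.r j) v ∈ Q.ι '' Q.P j := by
          rw [Q.P_eq]; exact sn_rad (Q.r_pos j).le h
        obtain ⟨z, hz, h'⟩ := this
        exact ⟨z, hz, fun _ => h'⟩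
    obtain ⟨z, hz, h⟩ := key
    refine ⟨z, fun w hw => absurd (hw ▸ hj) (Q.not_mem w j), fun k hk => ?_⟩
    have : j = k := by
      by_contra hne
      exact disjoint_left.mp (Q.D_disj j k hne) hj hk
    subst this
    exact ⟨hz, h⟩

/-- The radial retraction. -/
noncomputable def ret (v : ℂ) : Z := (Q.exists_ret v).choose

theorem ret_ι (z : Z) : Q.ret (Q.ι z) = z := (Q.exists_ret _).choose_spec.1 z rfl

theorem ret_mem {j : J} {v : ℂ} (hv : v ∈ Q.D j) : Q.ret v ∈ Q.P j :=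
  ((Q.exists_ret v).choose_spec.2 j hv).1

theorem ι_ret {j : J} {v : ℂ} (hv : v ∈ Q.D j) (hc : v ≠ Q.c j) :
    Q.ι (Q.ret v) = rad (Q.c j) (Q.r j) v :=
  ((Q.exists_ret v).choose_spec.2 j hv).2 hc

/-- The retraction moves `v` by at most the distance from `v` to any point of `Z`. -/
theorem sn_ret_le (v : ℂ) (z : Z) : sn (Q.ι (Q.ret v) - v) ≤ sn (v - Q.ι z) := by
  rcases Q.cover v with ⟨w, rfl⟩ | ⟨j, hj⟩
  · rw [Q.ret_ι, sub_self, sn_zero]; exact sn_nonneg _
  have hz := Q.not_mem z j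
  have t1 := sn_tri v (Q.ι z) (Q.c j)
  have t2 := sn_tri (Q.ι z) v (Q.c j)
  rw [sn_sub_comm (Q.ι z) v] at t2
  have hm := Q.mem_P.mp (Q.ret_mem hj)
  by_cases h : j = Q.o
  · subst h
    have hc : v ≠ Q.c Q.o := by
      rintro rfl
      rw [Q.D_out] at hj
      have : Q.r Q.o < sn (Q.c Q.o - Q.c Q.o) := hj
      rw [sub_self, sn_zero] at this
      exact absurd (Q.r_pos _) this.not_gt
    rw [Q.ι_ret hj hc, sn_rad_sub hc]
    rw [Q.D_out] at hj hz
    simp only [mem_ofPred_eq, not_lt] at hj hz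
    rw [abs_le]; constructor <;> linarith [sn_nonneg (v - Q.ι z)]
  · have hj' := hj
    rw [Q.D_in j h] at hj' hz
    simp only [mem_ofPred_eq, not_lt] at hj' hz
    by_cases hc : v = Q.c j
    · subst hc
      rw [hm, sn_sub_comm]; exact hz
    · rw [Q.ι_ret hj hc, sn_rad_sub hc, abs_le]
      constructor <;> linarith [sn_nonneg (v - Q.ι z)]

theorem norm_ret_le (v : ℂ) (z : Z) : ‖Q.ι (Q.ret v) - Q.ι z‖ ≤ 4 * ‖v - Q.ι z‖ := by
  have h1 := norm_le_sn (Q.ι (Q.ret v) - Q.ι z)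
  have h2 := sn_tri (Q.ι (Q.ret v)) v (Q.ι z)
  have h3 := Q.sn_ret_le v z
  have h4 := sn_le_norm (v - Q.ι z)
  linarith

theorem isClosedEmbedding [CompactSpace Z] : IsClosedEmbedding Q.ι :=
  Q.ι_cont.isClosedEmbedding Q.ι_inj

theorem continuousAt_ret [CompactSpace Z] {v : ℂ} (hv : v ∉ Q.cen) : ContinuousAt Q.ret v := by
  rw [Q.isClosedEmbedding.isInducing.continuousAt_iff]
  rcases Q.cover v with ⟨z, rfl⟩ | ⟨j, hj⟩
  · rw [ContinuousAt, Function.comp_apply, Q.ret_ι, tendsto_iff_norm_sub_tendsto_zero]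
    refine squeeze_zero (fun _ => norm_nonneg _) (fun w => Q.norm_ret_le w z) ?_
    have : Continuous fun w : ℂ => 4 * ‖w - Q.ι z‖ := by fun_prop
    simpa using this.tendsto (Q.ι z)
  · have hc := Q.ne_c hj hv
    refine (continuousAt_rad (Q.r j) hc).congr ?_
    filter_upwards [(Q.isOpen_D j).mem_nhds hj, isOpen_ne.mem_nhds hc] with w h1 h2
    exact (Q.ι_ret h1 h2).symm

theorem continuousOn_ret [CompactSpace Z] : ContinuousOn Q.ret Q.cenᶜ :=
  fun _ hv => (Q.continuousAt_ret hv).continuousWithinAt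

/-- Quantitative local path connectedness. -/
theorem exists_pathConnected [CompactSpace Z] (z : Z) {r : ℝ} (hr : 0 < r) :
    ∃ V : Set Z, IsPathConnected V ∧ (∀ w, ‖Q.ι w - Q.ι z‖ < r → w ∈ V) ∧
      ∀ w ∈ V, ‖Q.ι w - Q.ι z‖ < 4 * r := by
  refine ⟨Q.ret '' (Metric.ball (Q.ι z) r \ Q.cen),
    (isPathConnected_ball_diff _ hr Q.cen_countable).image' (Q.continuousOn_ret.mono
      fun _ h => h.2), fun w hw => ⟨Q.ι w, ⟨mem_ball_iff_norm.mpr hw, Q.not_cen w⟩, Q.ret_ι w⟩, ?_⟩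
  rintro _ ⟨v, hv, rfl⟩
  have := mem_ball_iff_norm.mp hv.1
  linarith [Q.norm_ret_le v z]

theorem nhds_basis [CompactSpace Z] (z : Z) :
    (𝓝 z).HasBasis (fun r : ℝ => 0 < r) fun r => {w | ‖Q.ι w - Q.ι z‖ < r} := by
  rw [Q.isClosedEmbedding.isInducing.nhds_eq_comap]
  simpa only [Metric.ball, dist_eq_norm, preimage_ofPred_eq] using
    (Metric.nhds_basis_ball (x := Q.ι z)).comap Q.ι

include Q in
theorem lpc [CompactSpace Z] : LocallyPathConnectedSpace Z := by
  refine ⟨fun z => ⟨fun U => ⟨fun hU => ?_, fun ⟨V, hV, h⟩ => mem_of_superset hV.1 h⟩⟩⟩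
  obtain ⟨r, hr, h⟩ := (Q.nhds_basis z).mem_iff.mp hU
  obtain ⟨V, h1, h2, h3⟩ := Q.exists_pathConnected z (r := r / 4) (by positivity)
  exact ⟨V, ⟨(Q.nhds_basis z).mem_iff.mpr ⟨r / 4, by positivity, h2⟩, h1⟩,
    fun w hw => h (by have := h3 w hw; show _ < r; linarith)⟩

/-- Each `P j` is a simple closed curve. -/
theorem exists_param [CompactSpace Z] (j : J) : ∃ lam : Circle → Z, Continuous lam ∧
    Function.Injective lam ∧ range lam = Q.P j ∧ ∀ u, Q.ι (lam u) = pol (Q.c j) (u, Q.r j) := by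
  have h : ∀ u : Circle, pol (Q.c j) (u, Q.r j) ∈ Q.ι '' Q.P j := fun u => by
    rw [Q.P_eq]; exact sn_pol _ _ (Q.r_pos j).le
  choose lam h1 h2 using h
  refine ⟨lam, ?_, fun u w huw => pol_inj (Q.c j) (Q.r_pos j) ?_, ?_, h2⟩
  · rw [Q.isClosedEmbedding.isInducing.continuous_iff]
    have : Q.ι ∘ lam = fun u => pol (Q.c j) (u, Q.r j) := funext h2
    rw [this]
    exact (continuous_pol _).comp (by fun_prop)
  · simp only [← h2, huw]
  · refine Subset.antisymm (range_subset_iff.mpr h1) fun z hz => ?_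
    obtain ⟨u, hu⟩ := exists_pol (Q.c j) (Q.ι z)
    rw [Q.mem_P.mp hz, ← h2] at hu
    exact ⟨u, Q.ι_inj hu⟩

theorem isPathConnected_P [CompactSpace Z] (j : J) : IsPathConnected (Q.P j) := by
  obtain ⟨lam, h1, -, h2, -⟩ := Q.exists_param j
  rw [← h2]
  exact isPathConnected_range h1

end PD0

end KKC
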