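import Pool.Agent.Lib.MP_e1e491_gt.Sq

/-! Sides and links. -/

namespace KKC

open Set
open scoped Pointwise

namespace PD

variable {Z J : Type} [TopologicalSpace Z] (Q : PD Z J)

theorem Link.refl (U : Set Z) (x : Z) : Q.Link U x x := Relation.ReflTransGen.refl

theorem Link.trans {Q : PD Z J} {U : Set Z} {x y z : Z} (h : Q.Link U x y) (h' : Q.Link U y z) :
    Q.Link U x z := Relation.ReflTransGen.trans h h'

theorem rt_join {U : Set Z} {x y : Z} (h : JoinedIn U x y) : Q.Link U x y :=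
  Relation.ReflTransGen.single (Or.inl h)

theorem rt_hop {U : Set Z} {x y : Z} {j : J} (hx : x ∈ Q.P j) (hx' : x ∈ U) (hy : y ∈ Q.P j)
    (hy' : y ∈ U) : Q.Link U x y :=
  Relation.ReflTransGen.single (Or.inr ⟨j, ⟨hx, hx'⟩, hy, hy'⟩)

theorem Link.symm {Q : PD Z J} {U : Set Z} {x y : Z} (h : Q.Link U x y) : Q.Link U y x := by
  induction h with
  | refl => exact Link.refl Q U x
  | tail _ h2 ih =>
    refine Link.trans ?_ ih
    rcases h2 with h2 | ⟨j, h2, h3⟩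
    · exact Q.rt_join h2.symm
    · exact Q.rt_hop h3.1 h3.2 h2.1 h2.2

theorem Link.mono {Q : PD Z J} {U V : Set Z} {x y : Z} (hUV : U ⊆ V) (h : Q.Link U x y) :
    Q.Link V x y := by
  induction h with
  | refl => exact Link.refl Q V x
  | tail _ h2 ih =>
    refine Link.trans ih ?_
    rcases h2 with h2 | ⟨j, h2, h3⟩
    · exact Q.rt_join (h2.mono hUV)
    · exact Q.rt_hop h2.1 (hUV h2.2) h3.1 (hUV h3.2)

theorem Link.mem {Q : PD Z J} {U : Set Z} {x y : Z} (h : Q.Link U x y) (hx : x ∈ U) : y ∈ U := by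
  induction h with
  | refl => exact hx
  | tail _ h2 _ =>
    rcases h2 with h2 | ⟨j, -, h3⟩
    · exact h2.target_mem
    · exact h3.2

/-- The trace of a link is compact. -/
theorem Link.exists_compact {Q : PD Z J} {U : Set Z} {x y : Z} (h : Q.Link U x y) (hx : x ∈ U) :
    ∃ N : Set Z, IsCompact N ∧ N ⊆ U ∧ x ∈ N ∧ y ∈ N ∧ Q.Link N x y ∧ ∀ z ∈ N, Q.Link N x z := by
  induction h with
  | refl =>
    refine ⟨{x}, isCompact_singleton, singleton_subset_iff.2 hx, rfl, rfl, Link.refl Q _ x, ?_⟩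
    rintro z rfl
    exact Link.refl Q _ _
  | @tail b c _ h2 ih =>
    obtain ⟨N, n1, n2, n3, n4, n5, n6⟩ := ih
    rcases h2 with ⟨γ, hγ⟩ | ⟨j, h2, h3⟩
    · have k : ∀ z ∈ range γ, Q.Link (N ∪ range γ) x z := fun z hz =>
        (n5.mono subset_union_left).trans (Q.rt_join
          (((γ.extend_range ▸ isPathConnected_range γ.continuous_extend :
            IsPathConnected (range γ)).joinedIn b γ.source_mem_range z hz).mono
            subset_union_right))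
      refine ⟨N ∪ range γ, n1.union (isCompact_range γ.continuous),
        union_subset n2 (range_subset_iff.2 hγ), Or.inl n3, Or.inr γ.target_mem_range,
        k c γ.target_mem_range, ?_⟩
      rintro z (hz | hz)
      exacts [(n6 z hz).mono subset_union_left, k z hz]
    · have k : Q.Link (N ∪ {c}) x c := (n5.mono subset_union_left).trans
        (Q.rt_hop h2.1 (Or.inl n4) h3.1 (Or.inr rfl))
      refine ⟨N ∪ {c}, n1.union isCompact_singleton,
        union_subset n2 (singleton_subset_iff.2 h3.2), Or.inl n3, Or.inr rfl, k, ?_⟩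
      rintro z (hz | rfl)
      exacts [(n6 z hz).mono subset_union_left, k]

theorem Same.side_eq {Q : PD Z J} {C : Set Z} {x y : Z ⊕ J} (h : Q.Same C x y) :
    Q.side C x = Q.side C y := connectedComponentIn_eq h

theorem rt_nm {Q : PD Z J} {C : Set Z} {x y : Z ⊕ J} (h : Q.Same C x y) :
    Q.pt x ∈ (Q.ι '' C)ᶜ := connectedComponentIn_nonempty_iff.1 ⟨_, h⟩

theorem Same.symm {Q : PD Z J} {C : Set Z} {x y : Z ⊕ J} (h : Q.Same C x y) : Q.Same C y x := by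
  unfold Same
  rw [← h.side_eq]
  exact mem_connectedComponentIn (rt_nm h)

theorem Same.trans {Q : PD Z J} {C : Set Z} {x y z : Z ⊕ J} (h : Q.Same C x y)
    (h' : Q.Same C y z) : Q.Same C x z := by
  unfold Same
  rw [h.side_eq]
  exact h'

theorem rt_D_sub (C : Set Z) (j : J) : Q.D j ⊆ (Q.ι '' C)ᶜ := by
  rintro v hv ⟨z, -, rfl⟩
  exact Q.not_mem z j hv

theorem rt_ι_mem {C : Set Z} {z : Z} : Q.ι z ∈ (Q.ι '' C)ᶜ ↔ z ∉ C := by
  rw [mem_compl_iff, Q.ι_inj.mem_set_image]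

theorem same_refl_inr (C : Set Z) (j : J) : Q.Same C (.inr j) (.inr j) :=
  mem_connectedComponentIn (Q.rt_D_sub C j (Q.bp_mem j))

theorem same_refl_inl {C : Set Z} {z : Z} : Q.Same C (.inl z) (.inl z) ↔ z ∉ C :=
  ⟨fun h => Q.rt_ι_mem.1 (rt_nm h), fun h => mem_connectedComponentIn (Q.rt_ι_mem.2 h)⟩

theorem Same.not_mem {Q : PD Z J} {C : Set Z} {x : Z ⊕ J} {z : Z} (h : Q.Same C x (.inl z)) :
    z ∉ C := Q.rt_ι_mem.1 (rt_nm h.symm)

theorem Same.mono {Q : PD Z J} {C C' : Set Z} (hC : C ⊆ C') {x y : Z ⊕ J} (h : Q.Same C' x y) :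
    Q.Same C x y :=
  connectedComponentIn_mono _ (compl_subset_compl.2 (image_mono hC)) h

theorem rt_same {C : Set Z} {T : Set ℂ} (hT : IsPreconnected T) (hd : T ⊆ (Q.ι '' C)ᶜ)
    {x y : Z ⊕ J} (hx : Q.pt x ∈ T) (hy : Q.pt y ∈ T) : Q.Same C x y :=
  hT.subset_connectedComponentIn hx hd hy

theorem D_subset_side (C : Set Z) (j : J) : Q.D j ⊆ Q.side C (.inr j) :=
  (Q.isPathConnected_D j).isConnected.isPreconnected.subset_connectedComponentIn (Q.bp_mem j)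
    (Q.rt_D_sub C j)

theorem same_inr_iff {C : Set Z} {x : Z ⊕ J} {j : J} :
    Q.Same C x (.inr j) ↔ (Q.D j ∩ Q.side C x).Nonempty := by
  refine ⟨fun h => ⟨_, Q.bp_mem j, h⟩, fun ⟨v, h1, h2⟩ => ?_⟩
  have h3 : Q.side C x = Q.side C (.inr j) :=
    (connectedComponentIn_eq h2).trans (connectedComponentIn_eq (Q.D_subset_side C j h1)).symm
  unfold Same
  rw [h3]
  exact Q.same_refl_inr C j

theorem same_hole {C : Set Z} {j : J} {b : Z} (hb : b ∈ Q.P j) (hC : b ∉ C) :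
    Q.Same C (.inl b) (.inr j) := by
  have h1 : Q.ι b ∈ closure (Q.D j) := by
    rw [Q.closure_D]
    exact Or.inr ⟨b, hb, rfl⟩
  refine Q.rt_same (T := Q.D j ∪ {Q.ι b})
    ((Q.isPathConnected_D j).isConnected.isPreconnected.subset_closure subset_union_left
      (union_subset subset_closure (singleton_subset_iff.2 h1)))
    (union_subset (Q.rt_D_sub C j) (singleton_subset_iff.2 (Q.rt_ι_mem.2 hC))) (Or.inr rfl)
    (Or.inl (Q.bp_mem j))

theorem same_of_preconnected {C T : Set Z} (hT : IsPreconnected T) (hd : Disjoint T C) {x y : Z}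
    (hx : x ∈ T) (hy : y ∈ T) : Q.Same C (.inl x) (.inl y) := by
  refine Q.rt_same (hT.image _ Q.ι_cont.continuousOn) ?_ ⟨x, hx, rfl⟩ ⟨y, hy, rfl⟩
  rintro _ ⟨z, hz, rfl⟩
  exact Q.rt_ι_mem.2 (disjoint_left.1 hd hz)

theorem same_of_link {C : Set Z} {x y : Z} (hx : x ∉ C) (h : Q.Link Cᶜ x y) :
    Q.Same C (.inl x) (.inl y) := by
  induction h with
  | refl => exact Q.same_refl_inl.2 hx
  | tail _ h2 ih =>
    refine ih.trans ?_
    rcases h2 with ⟨γ, hγ⟩ | ⟨j, h2, h3⟩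
    · exact Q.same_of_preconnected (isConnected_range γ.continuous).isPreconnected
        (disjoint_left.2 fun _ ⟨t, ht⟩ => ht ▸ hγ t) γ.source_mem_range γ.target_mem_range
    · exact (Q.same_hole h2.1 h2.2).trans (Q.same_hole h3.1 h3.2).symm

theorem not_same_univ {i j : J} (h : i ≠ j) : ¬ Q.Same univ (.inr i) (.inr j) := by
  intro k
  obtain ⟨b, -, hb⟩ := Q.meets_P (T := Q.side univ (.inr i)) isPreconnected_connectedComponentIn
    (Q.same_refl_inr univ i) k (Q.bp_mem i) fun e => h (Q.hole_unique e (Q.bp_mem j))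
  exact connectedComponentIn_subset _ _ hb ⟨b, trivial, rfl⟩

variable [CompactSpace Z]

theorem rt_open {C : Set Z} (hC : IsClosed C) : IsOpen (Q.ι '' C)ᶜ :=
  (hC.isCompact.image Q.ι_cont).isClosed.isOpen_compl

theorem isOpen_side {C : Set Z} (hC : IsClosed C) (x : Z ⊕ J) : IsOpen (Q.side C x) :=
  (Q.rt_open hC).connectedComponentIn

theorem isOpen_same {C : Set Z} (hC : IsClosed C) (x : Z ⊕ J) :
    IsOpen {z | Q.Same C x (.inl z)} := (Q.isOpen_side hC x).preimage Q.ι_cont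

theorem frontier_side {C : Set Z} (hC : IsClosed C) (x : Z ⊕ J) :
    frontier (Q.side C x) ⊆ Q.ι '' C := by
  intro v hv
  by_contra hn
  rw [(Q.isOpen_side hC x).frontier_eq] at hv
  obtain ⟨w, h1, h2⟩ := mem_closure_iff.1 hv.1 _ (Q.rt_open hC).connectedComponentIn
    (mem_connectedComponentIn (F := (Q.ι '' C)ᶜ) hn)
  refine hv.2 ?_
  have h3 : Q.side C x = connectedComponentIn (Q.ι '' C)ᶜ v :=
    (connectedComponentIn_eq h2).trans (connectedComponentIn_eq h1).symm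
  rw [h3]
  exact mem_connectedComponentIn hn

/-- A side that meets `Z` contains a hole whose boundary misses `C`. -/
theorem exists_P_same {C : Set Z} (hC : IsClosed C) {z : Z} (hz : z ∉ C) :
    ∃ j, ∀ b ∈ Q.P j, Q.Same C (.inl z) (.inl b) :=
  Q.dense _ (Q.isOpen_same hC (.inl z)) ⟨z, Q.same_refl_inl.2 hz⟩

/-- Every point off `ι '' C` lies in the side of a hole. -/
theorem exists_hole_side {C : Set Z} (hC : IsClosed C) {v : ℂ} (hv : v ∉ Q.ι '' C) :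
    ∃ j, v ∈ Q.side C (.inr j) := by
  rcases Q.cover v with ⟨z, rfl⟩ | ⟨j, hj⟩
  · obtain ⟨j, hj⟩ := Q.exists_P_same hC (Q.rt_ι_mem.1 hv)
    obtain ⟨b, hb⟩ := (Q.P_nontrivial j).nonempty
    exact ⟨j, ((hj b hb).trans (Q.same_hole hb (hj b hb).not_mem)).symm⟩
  · exact ⟨j, Q.D_subset_side C j hj⟩

/-- The relation that labels the points of the plane. -/
def rt_R (C : Set Z) (x : Z ⊕ J) (v : ℂ) : Prop :=
  (∃ j, v ∈ Q.D j ∧ x = .inr j) ∨ ∃ a, (x = .inl a ∨ ∃ i, x = .inr i ∧ a ∈ Q.P i) ∧ a ∉ C ∧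
    ∃ y, Q.Link Cᶜ a y ∧ (v = Q.ι y ∨ ∃ j, v ∈ Q.D j ∧ y ∈ Q.P j)

theorem rt_local {C : Set Z} (hC : IsClosed C) (x : Z ⊕ J) {v : ℂ} (hv : v ∈ (Q.ι '' C)ᶜ) :
    ∃ B ∈ nhds v, ∀ w ∈ B, Q.rt_R C x w ↔ Q.rt_R C x v := by
  have hD : ∀ j, ∀ v ∈ Q.D j, ∀ w ∈ Q.D j, Q.rt_R C x v → Q.rt_R C x w := by
    rintro j v hv w hw (⟨i, h1, h2⟩ | ⟨a, h1, h2, y, h3, h4 | ⟨i, h4, h5⟩⟩)
    · exact Or.inl ⟨j, hw, Q.hole_unique h1 hv ▸ h2⟩
    · exact (Q.not_mem y j (h4 ▸ hv)).elim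
    · exact Or.inr ⟨a, h1, h2, y, h3, Or.inr ⟨j, hw, Q.hole_unique h4 hv ▸ h5⟩⟩
  rcases Q.cover v with ⟨z, rfl⟩ | ⟨j, hj⟩
  · have hz := Q.rt_ι_mem.1 hv
    have := Q.lpc
    have h1 : pathComponentIn Cᶜ z ∈ nhds z :=
      (hC.isOpen_compl.pathComponentIn z).mem_nhds (mem_pathComponentIn_self hz)
    rw [Q.isClosedEmbedding_ι.isInducing.nhds_eq_comap, Filter.mem_comap] at h1
    obtain ⟨T, hT, hT'⟩ := h1
    obtain ⟨ε, hε, hB⟩ := Metric.mem_nhds_iff.1 hT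
    have h2 : ∀ y, Q.ι y ∈ Metric.ball (Q.ι z) ε → Q.Link Cᶜ z y := fun y hy =>
      Q.rt_join (hT' (hB hy))
    have h3 : ∀ j, ∀ w ∈ Metric.ball (Q.ι z) ε, w ∈ Q.D j → ∃ b ∈ Q.P j, Q.Link Cᶜ z b :=
      fun j w hw hj => by
        obtain ⟨b, hb, hb'⟩ := Q.meets_P (convex_ball (Q.ι z) ε).isPreconnected hw
          (Metric.mem_ball_self hε) hj (Q.not_mem z j)
        exact ⟨b, hb, h2 b hb'⟩
    refine ⟨_, Metric.ball_mem_nhds _ hε, fun w hw => ⟨?_, ?_⟩⟩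
    · rintro (⟨i, h4, h5⟩ | ⟨a, h4, h5, y, h6, h7 | ⟨i, h7, h8⟩⟩)
      · obtain ⟨b, hb, hb'⟩ := h3 i w hw h4
        exact Or.inr ⟨b, Or.inr ⟨i, h5, hb⟩, hb'.mem hz, z, hb'.symm, Or.inl rfl⟩
      · exact Or.inr ⟨a, h4, h5, z, h6.trans (h2 y (h7 ▸ hw)).symm, Or.inl rfl⟩
      · obtain ⟨b, hb, hb'⟩ := h3 i w hw h7
        exact Or.inr ⟨a, h4, h5, z, (h6.trans (Q.rt_hop h8 (h6.mem h5) hb (hb'.mem hz))).trans
          hb'.symm, Or.inl rfl⟩
    · rintro (⟨i, h4, -⟩ | ⟨a, h4, h5, y, h6, h7 | ⟨i, h7, -⟩⟩)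
      · exact (Q.not_mem z i h4).elim
      · obtain rfl := Q.ι_inj h7
        rcases Q.cover w with ⟨y, rfl⟩ | ⟨j, hj⟩
        · exact Or.inr ⟨a, h4, h5, y, h6.trans (h2 y hw), Or.inl rfl⟩
        · obtain ⟨b, hb, hb'⟩ := h3 j w hw hj
          exact Or.inr ⟨a, h4, h5, b, h6.trans hb', Or.inr ⟨j, hj, hb⟩⟩
      · exact (Q.not_mem z i h7).elim
  · exact ⟨_, (Q.isOpen_D j).mem_nhds hj, fun w hw => ⟨hD j w hw v hj, hD j v hj w hw⟩⟩

theorem rt_main {C : Set Z} (hC : IsClosed C) {x y : Z ⊕ J} (h : Q.Same C x y) :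
    Q.rt_R C x (Q.pt y) := by
  have h0 : Q.rt_R C x (Q.pt x) := by
    cases x with
    | inl a =>
      exact Or.inr ⟨a, Or.inl rfl, Q.rt_ι_mem.1 (rt_nm h), a, Link.refl Q _ a, Or.inl rfl⟩
    | inr j => exact Or.inl ⟨j, Q.bp_mem j, rfl⟩
  have h1 := (isPreconnected_connectedComponentIn (F := (Q.ι '' C)ᶜ) (x := Q.pt x)).induction₂'
    (fun v w => Q.rt_R C x v ↔ Q.rt_R C x w) (fun v hv => ?_) (fun _ _ _ _ _ _ a b => a.trans b)
    (mem_connectedComponentIn (rt_nm h)) h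
  · exact h1.1 h0
  · obtain ⟨B, hB, hB'⟩ := Q.rt_local hC x (connectedComponentIn_subset _ _ hv)
    filter_upwards [mem_nhdsWithin_of_mem_nhds hB] with w hw using ⟨(hB' w hw).symm, hB' w hw⟩

theorem same_iff_link {C : Set Z} (hC : IsClosed C) {x y : Z} (hx : x ∉ C) :
    Q.Same C (.inl x) (.inl y) ↔ Q.Link Cᶜ x y := by
  refine ⟨fun h => ?_, Q.same_of_link hx⟩
  rcases Q.rt_main hC h with ⟨i, -, h2⟩ | ⟨a, h1 | ⟨i, h1, -⟩, -, z, h3, h4 | ⟨i, h4, -⟩⟩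
  · cases h2
  · cases h1
    exact (Q.ι_inj h4 : y = z) ▸ h3
  · exact (Q.not_mem y i h4).elim
  · cases h1
  · cases h1

theorem same_inl_inr {C : Set Z} (hC : IsClosed C) {x : Z} {j : J} :
    Q.Same C (.inl x) (.inr j) ↔ x ∉ C ∧ ∃ b ∈ Q.P j, Q.Link Cᶜ x b := by
  refine ⟨fun h => ⟨h.symm.not_mem, ?_⟩, fun ⟨h1, b, h2, h3⟩ =>
    (Q.same_of_link h1 h3).trans (Q.same_hole h2 (h3.mem h1))⟩
  rcases Q.rt_main hC h with ⟨i, -, h2⟩ | ⟨a, h1 | ⟨i, h1, -⟩, -, z, h3, h4 | ⟨i, h4, h5⟩⟩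
  · cases h2
  · exact (Q.not_mem z j (h4 ▸ Q.bp_mem j)).elim
  · cases h1
    exact ⟨z, Q.hole_unique h4 (Q.bp_mem j) ▸ h5, h3⟩
  · cases h1
  · cases h1

theorem same_inr_inr {C : Set Z} (hC : IsClosed C) {i j : J} :
    Q.Same C (.inr i) (.inr j) ↔
      i = j ∨ ∃ x ∈ Q.P i, ∃ y ∈ Q.P j, x ∉ C ∧ Q.Link Cᶜ x y := by
  constructor
  · intro h
    rcases Q.rt_main hC h with ⟨k, h1, h2⟩ | ⟨a, h1 | ⟨k, h1, h1'⟩, h2, z, h3, h4 | ⟨l, h4, h5⟩⟩
    · cases h2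
      exact Or.inl (Q.hole_unique h1 (Q.bp_mem j))
    · cases h1
    · cases h1
    · exact (Q.not_mem z j (h4 ▸ Q.bp_mem j)).elim
    · cases h1
      exact Or.inr ⟨a, h1', z, Q.hole_unique h4 (Q.bp_mem j) ▸ h5, h2, h3⟩
  · rintro (rfl | ⟨x, h1, y, h2, h3, h4⟩)
    · exact Q.same_refl_inr C i
    · exact (Q.same_hole h1 h3).symm.trans ((Q.same_inl_inr hC).2 ⟨h3, y, h2, h4⟩)

theorem rt_joined {U : Set Z} (hU : ∀ j, ∀ x ∈ Q.P j ∩ U, ∀ y ∈ Q.P j ∩ U, JoinedIn U x y)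
    {x y : Z} (hx : x ∈ U) (h : Q.Link U x y) : JoinedIn U x y := by
  induction h with
  | refl => exact JoinedIn.refl hx
  | tail _ h2 ih =>
    rcases h2 with h2 | ⟨j, h2, h3⟩
    exacts [ih.trans h2, ih.trans (hU j _ h2 _ h3)]

theorem rt_pc {C : Set Z} (hC : IsClosed C) (hne : Cᶜ.Nonempty) {T : Set ℂ}
    (hT : IsPreconnected T) (hd : T ⊆ (Q.ι '' C)ᶜ) (hm : ∀ z, z ∉ C → Q.ι z ∈ T)
    (hU : ∀ j, ∀ x ∈ Q.P j ∩ Cᶜ, ∀ y ∈ Q.P j ∩ Cᶜ, JoinedIn Cᶜ x y) : IsPathConnected Cᶜ := by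
  obtain ⟨x, hx⟩ := hne
  exact ⟨x, hx, fun y hy => Q.rt_joined hU hx ((Q.same_iff_link hC hx).1
    (Q.rt_same hT hd (hm x hx) (hm y hy)))⟩

include Q in
/-- `C = ∅`: the plane is connected, hops are paths in `P j`. -/
theorem isPathConnected_univ : IsPathConnected (univ : Set Z) := by
  rw [← compl_empty]
  obtain ⟨b, -⟩ := (Q.P_nontrivial Q.o).nonempty
  refine Q.rt_pc isClosed_empty ⟨b, id⟩ isPreconnected_univ (by simp) (fun _ _ => trivial)
    fun j x hx y hy => ((Q.isPathConnected_P j).joinedIn x hx.1 y hy.1).mono (by simp)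

include Q in
/-- `C = {y}`: the punctured plane is connected, hops are paths in `P j \ {y}`. -/
theorem isPathConnected_compl_pt (y : Z) : IsPathConnected ({y}ᶜ : Set Z) := by
  have hc : IsClosed ({y} : Set Z) := by
    have : ({y} : Set Z) = Q.ι ⁻¹' {Q.ι y} := by
      ext z
      simp [Q.ι_inj.eq_iff]
    rw [this]
    exact isClosed_singleton.preimage Q.ι_cont
  obtain ⟨b, -, hb⟩ := (Q.P_nontrivial Q.o).exists_ne y
  refine Q.rt_pc hc ⟨b, hb⟩ (T := {Q.ι y}ᶜ)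
    (isConnected_compl_singleton_of_one_lt_rank (by simp) _).isPreconnected (by simp)
    (fun z hz e => hz (Q.ι_inj e)) fun j x hx z hz =>
      ((Q.isPathConnected_P_diff j y).joinedIn x hx z hz).mono fun _ h => h.2

/-- `C = P j`: all points of `Z \ P j` lie in the complement of the closed hole. -/
theorem isPathConnected_compl_P (j : J) : IsPathConnected (Q.P j)ᶜ := by
  have : T2Space Z := .of_injective_continuous Q.ι_inj Q.ι_cont
  have := Q.infinite_J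
  obtain ⟨i, hi⟩ := exists_ne j
  obtain ⟨b, hb⟩ := (Q.P_nontrivial i).nonempty
  refine Q.rt_pc (Q.isClosed_P j) ⟨b, fun h => hi (Q.P_unique hb h)⟩
    (Q.isPathConnected_compl_closure j).isConnected.isPreconnected ?_ (fun z hz => ?_)
    fun k x hx y hy => ((Q.isPathConnected_P k).joinedIn x hx.1 y hy.1).mono fun z hz h =>
      hx.2 (Q.P_unique hz h ▸ hx.1)
  · rw [Q.closure_D]
    exact compl_subset_compl.2 subset_union_right
  · rw [Q.closure_D]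
    rintro (h | h)
    exacts [Q.not_mem z j h, Q.rt_ι_mem.2 hz h]

end PD

namespace CS

variable {G Z J : Type} [Group G] [MetricSpace Z] [CompactSpace Z] [MulAction G Z]
  [ContinuousConstSMul G Z] [MulAction G J] (X : CS G Z J)

theorem link_smul (g : G) {U : Set Z} {x y : Z} (h : X.Q.Link U x y) :
    X.Q.Link (g • U) (g • x) (g • y) := by
  induction h with
  | refl => exact PD.Link.refl _ _ _
  | tail _ h2 ih =>
    refine ih.trans ?_
    rcases h2 with ⟨γ, hγ⟩ | ⟨j, h2, h3⟩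
    · exact X.Q.rt_join ⟨γ.map (continuous_const_smul g), fun t => smul_mem_smul_set (hγ t)⟩
    · exact X.Q.rt_hop (j := g • j) (X.act_P g j ▸ smul_mem_smul_set h2.1)
        (smul_mem_smul_set h2.2) (X.act_P g j ▸ smul_mem_smul_set h3.1) (smul_mem_smul_set h3.2)

theorem rt_smul (g : G) {C : Set Z} (hC : IsClosed C) {x y : Z ⊕ J} (h : X.Q.Same C x y) :
    X.Q.Same (g • C) (g • x) (g • y) := by
  have hC' : IsClosed (g • C) := hC.smul g
  have hl : ∀ {a b : Z}, X.Q.Link Cᶜ a b → X.Q.Link (g • C)ᶜ (g • a) (g • b) := fun h =>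
    smul_set_compl (a := g) (s := C) ▸ X.link_smul g h
  have hm : ∀ {a : Z}, a ∉ C → g • a ∉ g • C := fun h k => h (smul_mem_smul_set_iff.1 k)
  have hP : ∀ {a : Z} {j : J}, a ∈ X.Q.P j → g • a ∈ X.Q.P (g • j) := fun h =>
    X.act_P g _ ▸ smul_mem_smul_set h
  have h1 : ∀ {a : Z} {j : J}, X.Q.Same C (.inl a) (.inr j) →
      X.Q.Same (g • C) (.inl (g • a)) (.inr (g • j)) := fun h => by
    obtain ⟨k1, b, k2, k3⟩ := (X.Q.same_inl_inr hC).1 h
    exact (X.Q.same_inl_inr hC').2 ⟨hm k1, _, hP k2, hl k3⟩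
  rcases x with a | i <;> rcases y with b | j
  · have ha := h.symm.not_mem
    exact X.Q.same_of_link (hm ha) (hl ((X.Q.same_iff_link hC ha).1 h))
  · exact h1 h
  · exact (h1 h.symm).symm
  · rcases (X.Q.same_inr_inr hC).1 h with rfl | ⟨a, k1, b, k2, k3, k4⟩
    · exact X.Q.same_refl_inr _ _
    · exact (X.Q.same_inr_inr hC').2 (Or.inr ⟨_, hP k1, _, hP k2, hm k3, hl k4⟩)

theorem same_smul (g : G) {C : Set Z} (hC : IsClosed C) {x y : Z ⊕ J} :
    X.Q.Same (g • C) (g • x) (g • y) ↔ X.Q.Same C x y :=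
  ⟨fun h => by simpa only [inv_smul_smul] using X.rt_smul g⁻¹ (hC.smul g) h, X.rt_smul g hC⟩

end CS

end KKC
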