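import Pool.Agent.Lib.MP_e1e491_gt.S1F

/-! The decomposition defined by the finite energy functions. -/

namespace KKC

namespace HB

open Set
open scoped Pointwise Classical

set_option linter.unusedSectionVars false

variable {G Z : Type} [Group G] [MetricSpace Z] [CompactSpace Z] [MulAction G Z] (H : HB G Z)
  {A : Subgroup G} {C : Set Z} {K : ℕ}

theorem rel2_closed : IsClosed {p : Z × Z | H.Rel2 p.1 p.2} := by
  simp only [Rel2, ofPred_forall]
  refine isClosed_iInter fun u => isClosed_iInter fun hu => ?_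
  obtain ⟨f, -, hb⟩ := hu
  exact isClosed_eq (hb.cont.comp continuous_fst) (hb.cont.comp continuous_snd)

theorem rel2_inv (g : G) {x y : Z} (h : H.Rel2 x y) : H.Rel2 (g • x) (g • y) := by
  rintro u ⟨f, hf, hb⟩
  exact h (fun ξ => u (g • ξ)) ⟨_, hf.left g, hb.left g⟩

theorem s1d_lip {k : ℝ} (hk : 0 ≤ k) (b : ℝ) : LipschitzWith ⟨k, hk⟩ fun t : ℝ => k * |t - b| :=
  LipschitzWith.of_dist_le_mul fun s t => by
    rw [Real.dist_eq, Real.dist_eq, ← mul_sub, abs_mul, abs_of_nonneg hk]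
    refine mul_le_mul_of_nonneg_left ((abs_abs_sub_abs_le_abs_sub _ _).trans ?_) hk
    rw [sub_sub_sub_cancel_right]

/-- A function that vanishes on a class and is large away from it. -/
theorem exists_bump (x : Z) {c : ℝ} (hc : 0 < c) : ∃ (f : G → ℝ) (u : Z → ℝ), FinEn ⊤ f ∧
    H.Bdv ⊤ univ f u ∧ (∀ ξ, H.Rel2 x ξ → u ξ = 0) ∧
    ∀ ξ, (∀ η, H.Rel2 x η → c ≤ dist ξ η) → 2 ≤ u ξ := by
  have hX : IsCompact {ξ : Z | ∀ η, H.Rel2 x η → c ≤ dist ξ η} := by
    refine IsClosed.isCompact ?_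
    simp only [ofPred_forall]
    exact isClosed_iInter fun η => isClosed_iInter fun _ =>
      isClosed_le continuous_const (continuous_id.dist continuous_const)
  obtain ⟨f, u, h1, h2, h3, -, h4⟩ := hX.induction_on
    (p := fun S => ∃ (f : G → ℝ) (u : Z → ℝ), FinEn ⊤ f ∧ H.Bdv ⊤ univ f u ∧
      (∀ ξ, H.Rel2 x ξ → u ξ = 0) ∧ (∀ ξ, 0 ≤ u ξ) ∧ ∀ ξ ∈ S, 2 ≤ u ξ)
    ⟨fun _ => 0, fun _ => 0, finEn_const 0,
      fun ε hε => ⟨1, one_pos, fun _ _ _ _ _ => by simpa using hε⟩, fun _ _ => rfl,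
      fun _ => le_rfl, fun _ h => h.elim⟩
    (fun S T hST ⟨f, u, h1, h2, h3, h4, h5⟩ => ⟨f, u, h1, h2, h3, h4, fun ξ h => h5 ξ (hST h)⟩)
    (fun S T ⟨f, u, h1, h2, h3, h4, h5⟩ ⟨f', u', k1, k2, k3, k4, k5⟩ =>
      ⟨_, _, h1.add k1, h2.add k2, fun ξ h => by rw [h3 ξ h, k3 ξ h, add_zero],
        fun ξ => add_nonneg (h4 ξ) (k4 ξ), fun ξ h =>
          h.elim (fun h => by linarith [h5 ξ h, k4 ξ]) fun h => by linarith [k5 ξ h, h4 ξ]⟩)
    (fun ξ hξ => by
      have hn : ¬ H.Rel2 x ξ := fun h => by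
        have := hξ ξ h
        rw [dist_self] at this
        exact absurd hc (not_lt.mpr this)
      obtain ⟨u, hu⟩ := not_forall.mp hn
      obtain ⟨⟨f, hf, hb⟩, hne⟩ := Classical.not_imp.mp hu
      have hp : 0 < |u ξ - u x| := abs_pos.mpr (sub_ne_zero.mpr (Ne.symm hne))
      have hk : 0 ≤ 3 / |u ξ - u x| := by positivity
      have hb' := hb.lip (s1d_lip hk (u x))
      refine ⟨{η | 2 < 3 / |u ξ - u x| * |u η - u x|}, mem_nhdsWithin_of_mem_nhds
        ((isOpen_lt continuous_const hb'.cont).mem_nhds ?_), _, _, hf.lip (s1d_lip hk (u x)), hb',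
        fun η h => ?_, fun η => mul_nonneg hk (abs_nonneg _), fun η h => le_of_lt h⟩
      · change 2 < 3 / |u ξ - u x| * |u ξ - u x|
        rw [div_mul_cancel₀ _ hp.ne']
        norm_num
      · rw [← h u ⟨f, hf, hb⟩, sub_self, abs_zero, mul_zero])
  exact ⟨f, u, h1, h2, h3, h4⟩

theorem s1d_max (s t : ℝ) : |max (1 - s) 0 - max (1 - t) 0| ≤ |s - t| := by
  refine (abs_max_sub_max_le_abs _ _ _).trans ?_
  rw [sub_sub_sub_cancel_left, abs_sub_comm]

/-- Cutting off along a function that is locally constant where `u < 2`. -/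
theorem s1d_cut {f : G → ℝ} {u θ : Z → ℝ} {c : ℝ} (hc : 0 < c) (hf : FinEn ⊤ f)
    (hb : H.Bdv ⊤ univ f u) (h01 : ∀ ξ, |θ ξ| ≤ 1)
    (hθ : ∀ ξ, 2 ≤ u ξ ∨ ∀ ζ, dist ξ ζ < c → θ ζ = θ ξ) :
    H.A2 fun ξ => max (1 - u ξ) 0 * θ ξ := by
  obtain ⟨δ, hδ, h1⟩ := hb 1 one_pos
  have hC : 0 < H.C := zero_lt_one.trans_le H.hC
  have hm : ∀ s t r : ℝ, |r| ≤ 1 → |max (1 - s) 0 * r - max (1 - t) 0 * r| ≤ |s - t| := by
    intro s t r hr
    rw [← sub_mul, abs_mul]
    exact (mul_le_of_le_one_right (abs_nonneg _) hr).trans (s1d_max s t)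
  have hz : ∀ ξ g, 2 ≤ u ξ → H.q (.inr ξ) (.inl g) < δ → max (1 - f g) 0 = 0 := by
    intro ξ g h2 hq
    have := (abs_lt.mp (h1 ξ (mem_univ _) g (Subgroup.mem_top _) hq)).1
    exact max_eq_right (by linarith)
  refine ⟨fun g => max (1 - f g) 0 * θ (H.loc g), H.finEn_of_pg H.pg_top fun s hs hs1 => ?_,
    fun ε hε => ?_⟩
  · obtain ⟨L, hL, h2⟩ := H.s1_loc_mul 1
    have ha : 0 < H.a := zero_lt_one.trans H.ha
    have hC2 : 1 ≤ H.C ^ 2 := one_le_pow₀ H.hC
    have hM : 0 < H.C ^ 2 * (L + H.a) := by positivity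
    have hfin := (H.s1_fin_sc (div_pos (lt_min hδ hc) hM)).preimage
      (Subtype.val_injective (p := (· ∈ (⊤ : Subgroup G)))).injOn
    refine Summable.of_norm_bounded_eventually (hf s hs) (hfin.subset fun g hg => ?_)
    by_contra hlt
    have h3 : H.sc g * (H.C ^ 2 * (L + H.a)) < min δ c :=
      (lt_div_iff₀ hM).mp (not_le.mp hlt)
    have hp := H.s1_sc_pos g
    have h4 := h2 g s hs1
    have h5 : H.sc (g * s) ≤ H.a * H.sc g := by
      refine (H.s1_sc_mul g s).trans (mul_le_mul_of_nonneg_right ?_ hp.le)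
      conv_rhs => rw [← Real.rpow_one H.a]
      exact Real.rpow_le_rpow_of_exponent_le H.ha.le (by exact_mod_cast hs1)
    have hLs : 0 < L * H.sc g := by positivity
    have has : 0 < H.a * H.sc g := by positivity
    have h6 : ∀ k : G, dist (H.loc g) (H.loc k) ≤ L * H.sc g → H.sc k ≤ H.a * H.sc g →
        H.q (.inr (H.loc g)) (.inl k) < δ := fun k k1 k2 => by
      refine (H.s1_q_le_loc _ k).trans_lt (lt_of_le_of_lt ?_ (h3.trans_le (min_le_left _ _)))
      have : max (dist (H.loc g) (H.loc k)) (H.sc k) ≤ (L + H.a) * H.sc g :=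
        max_le (by linarith) (by linarith)
      calc _ ≤ H.C ^ 2 * ((L + H.a) * H.sc g) := mul_le_mul_of_nonneg_left this (by positivity)
        _ = _ := by ring
    have h7 := h6 g (by rw [dist_self]; exact hLs.le) (le_mul_of_one_le_left hp.le H.ha.le)
    have h8 := h6 (g * s) h4 h5
    have h9 : dist (H.loc g) (H.loc (g * s)) < c := by
      refine h4.trans_lt (lt_of_le_of_lt ?_ (h3.trans_le (min_le_right _ _)))
      nlinarith
    refine hg ?_
    change ‖(_ : ℝ) ^ 2‖ ≤ _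
    rw [Real.norm_of_nonneg (sq_nonneg _), sq_le_sq]
    rcases hθ (H.loc g) with h | h
    · simp only [hz _ _ h h7, hz _ _ h h8, zero_mul, sub_self, abs_zero, abs_nonneg]
    · simp only [h _ h9]
      exact hm _ _ _ (h01 _)
  · obtain ⟨δ', hδ', h2⟩ := hb ε hε
    have hC4 : 0 < H.C ^ 4 := by positivity
    refine ⟨min (min δ δ') (c / H.C ^ 4), lt_min (lt_min hδ hδ') (div_pos hc hC4),
      fun ξ hξ g hg hq => ?_⟩
    obtain ⟨q1, q3⟩ := lt_min_iff.mp hq
    obtain ⟨q1, q2⟩ := lt_min_iff.mp q1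
    rcases hθ ξ with h | h
    · have e : max (1 - u ξ) 0 = 0 := max_eq_right (by linarith)
      simp only [hz _ _ h q1, e, zero_mul, sub_self, abs_zero, hε]
    · have h3 : dist ξ (H.loc g) < c :=
        (H.s1_dist_loc ξ g).trans_lt ((lt_div_iff₀' hC4).mp q3)
      simp only [h _ h3]
      exact (hm _ _ _ (h01 _)).trans_lt (h2 ξ hξ g hg q2)

theorem rel2_conn (x : Z) : IsPreconnected {y | H.Rel2 x y} := by
  have hcl : IsClosed {y | H.Rel2 x y} := H.rel2_closed.preimage (Continuous.prodMk_right x)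
  rw [isPreconnected_closed_iff]
  rintro t t' ht ht' hs ⟨x1, hx1⟩ ⟨x2, hx2⟩
  by_contra hne
  have hd : Disjoint ({y | H.Rel2 x y} ∩ t) ({y | H.Rel2 x y} ∩ t') :=
    disjoint_left.mpr fun y h1 h2 => hne ⟨y, h1.1, h1.2, h2.2⟩
  obtain ⟨δ, hδ, hth⟩ := hd.exists_thickenings (hcl.inter ht).isCompact (hcl.inter ht')
  obtain ⟨f, u, h1, h2, h3, h4⟩ := H.exists_bump x (half_pos hδ)
  have hA := H.s1d_cut (θ := fun ξ => if ξ ∈ Metric.thickening δ ({y | H.Rel2 x y} ∩ t) then 1 else 0)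
    (half_pos hδ) h1 h2 (fun ξ => by split_ifs <;> simp) fun ξ => by
      by_cases h : ∀ η, H.Rel2 x η → δ / 2 ≤ dist ξ η
      · exact Or.inl (h4 ξ h)
      refine Or.inr fun ζ hζ => ?_
      obtain ⟨η, hη⟩ := not_forall.mp h
      obtain ⟨hη, hlt⟩ := Classical.not_imp.mp hη
      have d1 : dist ξ η < δ := by linarith
      have d2 : dist ζ η < δ := by linarith [dist_triangle_left ζ η ξ]
      rcases hs hη with h' | h'
      · have hm : η ∈ {y | H.Rel2 x y} ∩ t := ⟨hη, h'⟩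
        have m1 : ξ ∈ Metric.thickening δ ({y | H.Rel2 x y} ∩ t) :=
          Metric.mem_thickening_iff.mpr ⟨η, hm, d1⟩
        have m2 : ζ ∈ Metric.thickening δ ({y | H.Rel2 x y} ∩ t) :=
          Metric.mem_thickening_iff.mpr ⟨η, hm, d2⟩
        rw [if_pos m1, if_pos m2]
      · have hm : η ∈ {y | H.Rel2 x y} ∩ t' := ⟨hη, h'⟩
        have m1 : ξ ∈ Metric.thickening δ ({y | H.Rel2 x y} ∩ t') :=
          Metric.mem_thickening_iff.mpr ⟨η, hm, d1⟩
        have m2 : ζ ∈ Metric.thickening δ ({y | H.Rel2 x y} ∩ t') :=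
          Metric.mem_thickening_iff.mpr ⟨η, hm, d2⟩
        rw [if_neg (disjoint_right.mp hth m1), if_neg (disjoint_right.mp hth m2)]
  have e := (hx1.1 _ hA).symm.trans (hx2.1 _ hA)
  simp only [h3 x1 hx1.1, if_pos (Metric.self_subset_thickening hδ _ hx1),
    if_neg (disjoint_right.mp hth (Metric.self_subset_thickening hδ _ hx2))] at e
  norm_num at e

/-- The decomposition. -/
def dec2 : Dec G Z where
  R := H.Rel2
  equiv := ⟨fun _ _ _ => rfl, fun h u hu => (h u hu).symm,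
    fun h h' u hu => (h u hu).trans (h' u hu)⟩
  closed := H.rel2_closed
  inv := fun g _ _ h => H.rel2_inv g h
  conn := H.rel2_conn

end HB

end KKC
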