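import Pool.Agent.Lib.MP_e1e491_gt.S1B

/-! Finite energy and boundary values. -/

namespace KKC

namespace HB

open Set
open scoped Pointwise Classical

set_option linter.unusedSectionVars false

variable {G Z : Type} [Group G] [MetricSpace Z] [CompactSpace Z] [MulAction G Z] (H : HB G Z)
  {A : Subgroup G} {C : Set Z} {K : ℕ} {f g : G → ℝ} {u v : Z → ℝ}

/-- Every element has a parent. -/
def PG (A : Subgroup G) (K : ℕ) : Prop :=
  ∀ a ∈ A, a ≠ 1 → ∃ p ∈ A, H.len p < H.len a ∧ H.len (p⁻¹ * a) ≤ K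

/-- The squared gradient along the edges of length at most `K`. -/
noncomputable def gr (A : Subgroup G) (K : ℕ) (f : G → ℝ) (a : G) : ℝ :=
  ∑ s ∈ (H.fin K).toFinset.filter (· ∈ A), (f (a * s) - f a) ^ 2

/-- Uniformly small oscillation near the boundary. -/
def Osc (A : Subgroup G) (C : Set Z) (f : G → ℝ) : Prop :=
  ∀ ε > 0, ∃ δ > 0, ∀ ξ ∈ C, ∀ a ∈ A, ∀ b ∈ A, H.q (.inr ξ) (.inl a) < δ →
    H.q (.inr ξ) (.inl b) < δ → |f a - f b| ≤ ε

/-- The maximum principle beyond depth `j`. -/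
def MP (A : Subgroup G) (K j : ℕ) (g : G → ℝ) : Prop :=
  ∀ (R : Set G) (b : ℝ), (∀ a ∈ R, a ∈ A ∧ j < H.len a) →
    (∀ a ∈ R, ∀ s ∈ A, H.len s ≤ K → a * s ∉ R → g (a * s) ≤ b) → ∀ a ∈ R, g a ≤ b

/-- `x` is far from `C`. -/
def Far (C : Set Z) (c : ℝ) (x : G) : Prop := ∀ η ∈ C, c ≤ H.q (.inr η) (.inl x)

theorem Par.pg (h : H.Par A K) : H.PG A K := fun a ha h1 =>
  let ⟨p, h2, h3, h4, _⟩ := h a ha h1
  ⟨p, h2, h3, h4⟩

theorem pg_top : H.PG ⊤ 1 := by
  intro a _ h1
  have h0 : H.len a ≠ 0 := fun h => h1 ((H.len_eq_zero a).1 h)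
  obtain ⟨n, hn⟩ := Nat.exists_eq_succ_of_ne_zero h0
  obtain ⟨p, hp, hp'⟩ := H.par a n hn
  exact ⟨p, Subgroup.mem_top p, by omega, hp'.le⟩

theorem gr_nonneg (a : G) : 0 ≤ H.gr A K f a := by
  exact Finset.sum_nonneg fun s _ => sq_nonneg _

theorem le_gr {s : G} (hs : s ∈ A) (hK : H.len s ≤ K) (a : G) :
    (f (a * s) - f a) ^ 2 ≤ H.gr A K f a := by
  unfold gr
  refine Finset.single_le_sum (f := fun s => (f (a * s) - f a) ^ 2)
    (fun s _ => sq_nonneg _) ?_
  rw [Finset.mem_filter, Set.Finite.mem_toFinset]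
  exact ⟨hK, hs⟩

theorem summable_gr : (Summable fun a : A => H.gr A K f a) ↔
    ∀ s ∈ A, H.len s ≤ K → Summable fun a : A => (f (a * s) - f a) ^ 2 := by
  constructor
  · intro h s hs hK
    exact Summable.of_nonneg_of_le (fun a => sq_nonneg _) (fun a => H.le_gr hs hK a) h
  · intro h
    unfold gr
    refine summable_sum fun s hs => ?_
    rw [Finset.mem_filter, Set.Finite.mem_toFinset] at hs
    exact h s hs.2 hs.1

/-- Induction on the length of `s`, with `s = p (p⁻¹ s)`. -/
theorem finEn_of_pg (hp : H.PG A K)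
    (h : ∀ s ∈ A, H.len s ≤ K → Summable fun a : A => (f (a * s) - f a) ^ 2) : FinEn A f := by
  have key : ∀ n, ∀ s ∈ A, H.len s = n → Summable fun a : A => (f (a * s) - f a) ^ 2 := by
    intro n
    induction n using Nat.strong_induction_on with
    | _ n ih =>
      intro s hs hn
      by_cases h1 : s = 1
      · subst h1
        simp
      · obtain ⟨p, hpA, hlt, hK⟩ := hp s hs h1
        have hk : p⁻¹ * s ∈ A := A.mul_mem (A.inv_mem hpA) hs
        have s1 := ih (H.len p) (hn ▸ hlt) p hpA rfl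
        have s2 := (h _ hk hK).comp_injective (Equiv.mulRight (⟨p, hpA⟩ : A)).injective
        refine Summable.of_nonneg_of_le (fun a => sq_nonneg _) (fun a => ?_)
          ((s1.add s2).mul_left 2)
        have e : (a : G) * p * (p⁻¹ * s) = a * s := by group
        simp only [Function.comp, Equiv.coe_mulRight, Subgroup.coe_mul, e]
        nlinarith [sq_nonneg (f (a * s) - f (a * p) - (f (a * p) - f a))]
  intro s hs
  exact key _ s hs rfl

theorem FinEn.lip (h : FinEn A f) {φ : ℝ → ℝ} {L : NNReal} (hφ : LipschitzWith L φ) :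
    FinEn A fun x => φ (f x) := by
  intro s hs
  refine Summable.of_nonneg_of_le (fun a => sq_nonneg _) (fun a => ?_)
    ((h s hs).mul_left ((L : ℝ) ^ 2))
  have h1 := hφ.dist_le_mul (f (a * s)) (f a)
  rw [Real.dist_eq, Real.dist_eq] at h1
  have h2 := pow_le_pow_left₀ (abs_nonneg _) h1 2
  rwa [mul_pow, sq_abs, sq_abs] at h2

theorem FinEn.add (h : FinEn A f) (h' : FinEn A g) : FinEn A fun x => f x + g x := by
  intro s hs
  refine Summable.of_nonneg_of_le (fun a => sq_nonneg _) (fun a => ?_)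
    (((h s hs).add (h' s hs)).mul_left 2)
  nlinarith [sq_nonneg (f (a * s) - f a - (g (a * s) - g a))]

theorem finEn_const (c : ℝ) : FinEn A fun _ => c := by
  intro s _
  simp

theorem FinEn.left (h : FinEn ⊤ f) (k : G) : FinEn ⊤ fun x => f (k * x) := by
  intro s hs
  have h1 := (h s hs).comp_injective
    (Equiv.mulLeft (⟨k, Subgroup.mem_top k⟩ : (⊤ : Subgroup G))).injective
  refine h1.congr fun a => ?_
  simp only [Function.comp, Equiv.coe_mulLeft, Subgroup.coe_mul, mul_assoc]

theorem FinEn.congr_fin (h : FinEn A f) (hf : {x | g x ≠ f x}.Finite) : FinEn A g := by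
  intro s hs
  refine (h s hs).congr_cofinite ?_
  have f1 : {a : A | g a ≠ f a}.Finite :=
    hf.preimage (f := fun a : A => (a : G)) Subtype.val_injective.injOn
  have f2 : {a : A | g (a * s) ≠ f (a * s)}.Finite :=
    hf.preimage (f := fun a : A => (a : G) * s)
      ((mul_left_injective s).comp Subtype.val_injective).injOn
  refine Filter.eventually_cofinite.2 ((f1.union f2).subset fun a ha => ?_)
  by_contra hc
  simp only [Set.mem_union, Set.mem_ofPred_eq, not_or, not_not] at hc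
  exact ha (by simp only [hc.1, hc.2])

end HB

end KKC
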