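import Pool.Agent.Lib.MP_e1e491_gt.S1E

/-! Boundary values. -/

namespace KKC

namespace HB

open Set
open scoped Pointwise Classical

set_option linter.unusedSectionVars false

variable {G Z : Type} [Group G] [MetricSpace Z] [CompactSpace Z] [MulAction G Z] (H : HB G Z)
  {A : Subgroup G} {C : Set Z} {K : ℕ} {f g : G → ℝ} {u v : Z → ℝ}

variable {H}

theorem Bdv.lip (h : H.Bdv A C f u) {φ : ℝ → ℝ} {L : NNReal} (hφ : LipschitzWith L φ) :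
    H.Bdv A C (fun x => φ (f x)) fun ξ => φ (u ξ) := by
  intro ε hε
  obtain ⟨η, hη, h1⟩ := Metric.uniformContinuous_iff.1 hφ.uniformContinuous ε hε
  obtain ⟨δ, hδ, h2⟩ := h η hη
  exact ⟨δ, hδ, fun ξ hξ a ha hq => h1 (h2 ξ hξ a ha hq)⟩

theorem Bdv.add (h : H.Bdv A C f u) (h' : H.Bdv A C g v) :
    H.Bdv A C (fun x => f x + g x) fun ξ => u ξ + v ξ := by
  intro ε hε
  obtain ⟨δ, hδ, h1⟩ := h (ε / 2) (half_pos hε)
  obtain ⟨δ', hδ', h2⟩ := h' (ε / 2) (half_pos hε)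
  refine ⟨min δ δ', lt_min hδ hδ', fun ξ hξ a ha hq => ?_⟩
  have h3 := abs_lt.1 (h1 ξ hξ a ha (hq.trans_le (min_le_left _ _)))
  have h4 := abs_lt.1 (h2 ξ hξ a ha (hq.trans_le (min_le_right _ _)))
  rw [abs_lt]
  constructor <;> linarith [h3.1, h3.2, h4.1, h4.2]

theorem Bdv.left (h : H.Bdv ⊤ univ f u) (k : G) :
    H.Bdv ⊤ univ (fun x => f (k * x)) fun ξ => u (k • ξ) := by
  intro ε hε
  obtain ⟨δ, hδ, h1⟩ := h ε hε
  have hC : 0 < H.C := zero_lt_one.trans_le H.hC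
  have hM : 0 < H.C ^ 3 / H.sc k := div_pos (pow_pos hC 3) (H.s1_sc_pos k)
  refine ⟨δ / (H.C ^ 3 / H.sc k), div_pos hδ hM, fun ξ _ a _ hq => ?_⟩
  refine h1 (k • ξ) (mem_univ _) (k * a) (Subgroup.mem_top _) ?_
  have h2 := H.s1_q_smul k (.inr ξ) (.inl a)
  rw [Sum.smul_inr, Sum.smul_inl, smul_eq_mul] at h2
  exact h2.trans_lt ((lt_div_iff₀' hM).1 hq)

theorem Bdv.osc (h : H.Bdv A C f u) : H.Osc A C f := by
  intro ε hε
  obtain ⟨δ, hδ, h1⟩ := h (ε / 2) (half_pos hε)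
  refine ⟨δ, hδ, fun ξ hξ a ha b hb hqa hqb => ?_⟩
  have h3 := abs_lt.1 (h1 ξ hξ a ha hqa)
  have h4 := abs_lt.1 (h1 ξ hξ b hb hqb)
  rw [abs_le]
  constructor <;> linarith [h3.1, h3.2, h4.1, h4.2]

theorem s1f_fin {S : Set G} (hS : S.Finite) {w : G → ℝ} (hw : ∀ x, 0 < w x) :
    ∃ δ > 0, ∀ x ∈ S, δ ≤ w x := by
  rcases S.eq_empty_or_nonempty with rfl | hn
  · exact ⟨1, one_pos, fun x hx => absurd hx (notMem_empty x)⟩
  · obtain ⟨x, -, hx⟩ := Set.exists_min_image S w hS hn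
    exact ⟨w x, hw x, hx⟩

theorem Osc.congr_fin (h : H.Osc A C f) (hf : {x | g x ≠ f x}.Finite) : H.Osc A C g := by
  intro ε hε
  obtain ⟨δ, hδ, h1⟩ := h ε hε
  have hC : 0 < H.C := zero_lt_one.trans_le H.hC
  obtain ⟨δ', hδ', h2⟩ := s1f_fin hf (w := fun x => H.sc x / H.C) fun x => div_pos (H.s1_sc_pos x) hC
  have h3 : ∀ (ξ : Z) (a : G), H.q (.inr ξ) (.inl a) < δ' → g a = f a := by
    intro ξ a hq
    by_contra hne
    have h4 := hq.trans_le (h2 a hne)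
    rw [lt_div_iff₀' hC] at h4
    exact absurd (H.s1_sc_le_q a (.inr ξ)) (not_le.2 h4)
  refine ⟨min δ δ', lt_min hδ hδ', fun ξ hξ a ha b hb hqa hqb => ?_⟩
  rw [h3 ξ a (hqa.trans_le (min_le_right _ _)), h3 ξ b (hqb.trans_le (min_le_right _ _))]
  exact h1 ξ hξ a ha b hb (hqa.trans_le (min_le_left _ _)) (hqb.trans_le (min_le_left _ _))

theorem s1f_ex (hq : H.QC A C) {ξ : Z} (hξ : ξ ∈ C) {δ : ℝ} (hδ : 0 < δ) :
    ∃ a ∈ A, H.q (.inr ξ) (.inl a) < δ := by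
  obtain ⟨L, hL, -, h1⟩ := hq
  have hC : 0 < H.C := zero_lt_one.trans_le H.hC
  have hM : 0 < H.C ^ 2 * L := mul_pos (pow_pos hC 2) (zero_lt_one.trans_le hL)
  have hr : 0 < min 1 (δ / 2 / (H.C ^ 2 * L)) := lt_min one_pos (div_pos (half_pos hδ) hM)
  obtain ⟨a, ha, h2, h3, -⟩ := h1 ξ hξ _ hr (min_le_left _ _)
  refine ⟨a, ha, (H.s1_q_le_loc ξ a).trans_lt ?_⟩
  have h4 := mul_le_mul_of_nonneg_left (max_le h2 h3) (pow_pos hC 2).le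
  have h5 := (le_div_iff₀' hM).1 (min_le_right 1 (δ / 2 / (H.C ^ 2 * L)))
  rw [← mul_assoc] at h4
  linarith

theorem Osc.bdv (hq : H.QC A C) (h : H.Osc A C f) : ∃ u, H.Bdv A C f u := by
  have key : ∀ ξ : Z, ∃ l : ℝ, ξ ∈ C → ∀ ε δ : ℝ, 0 < δ →
      (∀ a ∈ A, ∀ b ∈ A, H.q (.inr ξ) (.inl a) < δ → H.q (.inr ξ) (.inl b) < δ →
        |f a - f b| ≤ ε) → ∀ a ∈ A, H.q (.inr ξ) (.inl a) < δ → |f a - l| ≤ ε := by
    intro ξ
    by_cases hξ : ξ ∈ C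
    swap
    · exact ⟨0, fun h0 => absurd h0 hξ⟩
    choose a ha hqa using fun n : ℕ => s1f_ex hq hξ (Nat.one_div_pos_of_nat (n := n))
    have hev : ∀ δ : ℝ, 0 < δ → ∀ᶠ n in Filter.atTop, H.q (.inr ξ) (.inl (a n)) < δ := by
      intro δ hδ
      filter_upwards [(tendsto_one_div_add_atTop_nhds_zero_nat (𝕜 := ℝ)).eventually
        (eventually_lt_nhds hδ)] with n hn
      exact (hqa n).trans hn
    have hc : CauchySeq fun n => f (a n) := by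
      refine Metric.cauchySeq_iff.2 fun ε hε => ?_
      obtain ⟨δ, hδ, h1⟩ := h (ε / 2) (half_pos hε)
      obtain ⟨N, hN⟩ := Filter.eventually_atTop.1 (hev δ hδ)
      exact ⟨N, fun m hm n hn => (h1 ξ hξ _ (ha m) _ (ha n) (hN m hm) (hN n hn)).trans_lt
        (half_lt_self hε)⟩
    obtain ⟨l, hl⟩ := cauchySeq_tendsto_of_complete hc
    refine ⟨l, fun _ ε δ hδ h1 b hb hqb => ?_⟩
    refine le_of_tendsto ((hl.const_sub (f b)).abs) ?_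
    filter_upwards [hev δ hδ] with n hn
    exact h1 b hb _ (ha n) hqb hn
  choose u hu using key
  refine ⟨u, fun ε hε => ?_⟩
  obtain ⟨δ, hδ, h1⟩ := h (ε / 2) (half_pos hε)
  exact ⟨δ, hδ, fun ξ hξ a ha hqa =>
    (hu ξ hξ (ε / 2) δ hδ (h1 ξ hξ) a ha hqa).trans_lt (half_lt_self hε)⟩

theorem Bdv.unique (h : H.Bdv ⊤ univ f u) (h' : H.Bdv ⊤ C f v) : ∀ ξ ∈ C, u ξ = v ξ := by
  intro ξ hξ
  refine eq_of_forall_dist_le fun ε hε => ?_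
  obtain ⟨δ, hδ, h1⟩ := h (ε / 2) (half_pos hε)
  obtain ⟨δ', hδ', h2⟩ := h' (ε / 2) (half_pos hε)
  obtain ⟨a, ha, hq⟩ := s1f_ex H.s1_qc_top (mem_univ ξ) (lt_min hδ hδ')
  have h3 := abs_lt.1 (h1 ξ (mem_univ ξ) a ha (hq.trans_le (min_le_left _ _)))
  have h4 := abs_lt.1 (h2 ξ hξ a ha (hq.trans_le (min_le_right _ _)))
  rw [Real.dist_eq, abs_le]
  constructor <;> linarith [h3.1, h3.2, h4.1, h4.2]

theorem Bdv.cont (h : H.Bdv ⊤ univ f u) : Continuous u := by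
  refine Metric.continuous_iff.2 fun ξ ε hε => ?_
  obtain ⟨δ, hδ, h1⟩ := h (ε / 2) (half_pos hε)
  have hC : 0 < H.C := zero_lt_one.trans_le H.hC
  obtain ⟨a, ha, hq⟩ := s1f_ex H.s1_qc_top (mem_univ ξ) (div_pos hδ hC)
  refine ⟨δ / H.C / H.C, div_pos (div_pos hδ hC) hC, fun ζ hζ => ?_⟩
  have h2 : H.q (.inr ζ) (.inr ξ) < δ / H.C := (H.q_le ζ ξ).trans_lt ((lt_div_iff₀' hC).1 hζ)
  have h5 : H.q (.inr ζ) (.inl a) < δ :=
    (H.ultra _ (.inr ξ) _).trans_lt ((lt_div_iff₀' hC).1 (max_lt h2 hq))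
  have h3 := abs_lt.1 (h1 ξ (mem_univ ξ) a ha (hq.trans_le (div_le_self hδ.le H.hC)))
  have h4 := abs_lt.1 (h1 ζ (mem_univ ζ) a ha h5)
  rw [Real.dist_eq, abs_lt]
  constructor <;> linarith [h3.1, h3.2, h4.1, h4.2]

end HB

end KKC
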