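import Pool.Agent.Lib.MP_e1e491_gt.S1E

/-! Minimisers of the energy. -/

namespace KKC

namespace HB

open Set
open scoped Pointwise Classical

set_option linter.unusedSectionVars false

variable {G Z : Type} [Group G] [MetricSpace Z] [CompactSpace Z] [MulAction G Z] (H : HB G Z)
  {A : Subgroup G} {C : Set Z} {K : ℕ} {f g : G → ℝ}

theorem s1m_mem {s : G} : s ∈ (H.fin K).toFinset.filter (· ∈ A) ↔ H.len s ≤ K ∧ s ∈ A := by
  simp [Finset.mem_filter, Set.Finite.mem_toFinset]

theorem s1m_congr (h : ∀ a ∈ A, g a = f a) (a : A) : H.gr A K g a = H.gr A K f a := by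
  unfold gr
  refine Finset.sum_congr rfl fun s hs => ?_
  have hs' := (H.s1m_mem.1 hs).2
  rw [h _ (A.mul_mem a.2 hs'), h _ a.2]

theorem s1m_bound (hp : H.PG A K) (hg : Summable fun a : A => H.gr A K g a) {E : ℝ}
    (hE : ∑' a : A, H.gr A K g a ≤ E) (n : ℕ) :
    ∀ a ∈ A, H.len a = n → |g a - g 1| ≤ H.len a * √E := by
  induction n using Nat.strong_induction_on with
  | _ n ih =>
    intro a ha hn
    by_cases h1 : a = 1
    · subst h1
      simp only [sub_self, abs_zero]
      positivity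
    · obtain ⟨p, hpA, hlt, hK⟩ := hp a ha h1
      have i1 := ih (H.len p) (hn ▸ hlt) p hpA rfl
      have i2 := H.le_gr (f := g) (A.mul_mem (A.inv_mem hpA) ha) hK p
      rw [mul_inv_cancel_left] at i2
      have i3 : H.gr A K g p ≤ ∑' a : A, H.gr A K g a :=
        hg.le_tsum (⟨p, hpA⟩ : A) fun b _ => H.gr_nonneg _
      have i4 : |g a - g p| ≤ √E := Real.abs_le_sqrt (i2.trans (i3.trans hE))
      have i5 : (H.len p : ℝ) + 1 ≤ H.len a := by exact_mod_cast hlt
      have i6 : 0 ≤ √E := Real.sqrt_nonneg E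
      have i7 := abs_sub_le (g a) (g p) (g 1)
      nlinarith

theorem s1m_cont (a : G) : Continuous fun g : G → ℝ => H.gr A K g a := by
  unfold gr
  fun_prop

theorem exists_min (hp : H.PG A K) (hf : Summable fun a : A => H.gr A K f a) (j : ℕ) :
    ∃ g : G → ℝ, (Summable fun a : A => H.gr A K g a) ∧ (∀ a ∈ A, H.len a ≤ j → g a = f a) ∧
      ∀ g' : G → ℝ, (Summable fun a : A => H.gr A K g' a) →
        (∀ a ∈ A, H.len a ≤ j → g' a = f a) →
          ∑' a : A, H.gr A K g a ≤ ∑' a : A, H.gr A K g' a := by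
  set E0 := ∑' a : A, H.gr A K f a with hE0
  let X : Set (G → ℝ) := (Set.pi univ fun a => Icc (f 1 - H.len a * √E0) (f 1 + H.len a * √E0)) ∩
    {g | ∀ a ∈ A, H.len a ≤ j → g a = f a}
  have hl1 : H.len 1 ≤ j := by rw [(H.len_eq_zero 1).2 rfl]; exact Nat.zero_le j
  have hXc : IsCompact X := by
    refine (isCompact_univ_pi fun a => isCompact_Icc).inter_right ?_
    simp only [Set.ofPred_forall]
    exact isClosed_iInter fun a => isClosed_iInter fun _ => isClosed_iInter fun _ =>
      isClosed_eq (continuous_apply a) continuous_const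
  have key : ∀ g' : G → ℝ, (Summable fun a : A => H.gr A K g' a) →
      (∀ a ∈ A, H.len a ≤ j → g' a = f a) → ∑' a : A, H.gr A K g' a ≤ E0 →
      ∃ g'' ∈ X, ∀ a : A, H.gr A K g'' a = H.gr A K g' a := by
    intro g' hs hadm hE
    refine ⟨fun x => if x ∈ A then g' x else f 1, ⟨fun a _ => ?_, fun a ha hj => ?_⟩,
      H.s1m_congr fun a ha => if_pos ha⟩
    · by_cases ha : a ∈ A
      · have := H.s1m_bound hp hs hE _ a ha rfl
        rw [hadm 1 A.one_mem hl1, abs_le] at this
        simp only [if_pos ha]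
        constructor <;> linarith [this.1, this.2]
      · have : 0 ≤ (H.len a : ℝ) * √E0 := by positivity
        simp only [if_neg ha]
        constructor <;> linarith
    · simp only [if_pos ha]
      exact hadm a ha hj
  have hlsc : LowerSemicontinuous fun g : G → ℝ => ∑' a : A, ENNReal.ofReal (H.gr A K g a) :=
    lowerSemicontinuous_tsum fun a =>
      (ENNReal.continuous_ofReal.comp (H.s1m_cont (a : G))).lowerSemicontinuous
  obtain ⟨f', hf'X, hf'⟩ := key f hf (fun _ _ _ => rfl) le_rfl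
  obtain ⟨g0, hg0X, hmin⟩ := (hlsc.lowerSemicontinuousOn X).exists_isMinOn ⟨f', hf'X⟩ hXc
  have cmp : ∀ g' : G → ℝ, (Summable fun a : A => H.gr A K g' a) →
      (∀ a ∈ A, H.len a ≤ j → g' a = f a) → ∑' a : A, H.gr A K g' a ≤ E0 →
      ∑' a : A, ENNReal.ofReal (H.gr A K g0 a) ≤ ENNReal.ofReal (∑' a : A, H.gr A K g' a) := by
    intro g' hs hadm hE
    obtain ⟨g'', hX, he⟩ := key g' hs hadm hE
    rw [ENNReal.ofReal_tsum_of_nonneg (fun a => H.gr_nonneg _) hs]
    have := hmin hX
    simp only [Set.mem_ofPred_eq, he] at this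
    exact this
  have c0 := cmp f hf (fun _ _ _ => rfl) le_rfl
  have hs0 : Summable fun a : A => H.gr A K g0 a := by
    have := ENNReal.summable_toReal (ne_top_of_le_ne_top ENNReal.ofReal_ne_top c0)
    refine this.congr fun a => ?_
    exact ENNReal.toReal_ofReal (H.gr_nonneg _)
  have fin : ∀ g' : G → ℝ, (Summable fun a : A => H.gr A K g' a) →
      (∀ a ∈ A, H.len a ≤ j → g' a = f a) → ∑' a : A, H.gr A K g' a ≤ E0 →
      ∑' a : A, H.gr A K g0 a ≤ ∑' a : A, H.gr A K g' a := by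
    intro g' hs hadm hE
    have := cmp g' hs hadm hE
    rw [← ENNReal.ofReal_tsum_of_nonneg (fun a => H.gr_nonneg _) hs0] at this
    exact (ENNReal.ofReal_le_ofReal_iff (tsum_nonneg fun a => H.gr_nonneg _)).1 this
  refine ⟨g0, hs0, hg0X.2, fun g' hs hadm => ?_⟩
  rcases le_total (∑' a : A, H.gr A K g' a) E0 with hE | hE
  · exact fin g' hs hadm hE
  · exact (fin f hf (fun _ _ _ => rfl) le_rfl).trans hE

theorem s1m_min_sq (x y b : ℝ) : (min x b - min y b) ^ 2 ≤ (x - y) ^ 2 := by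
  rcases le_total x b with hx | hx <;> rcases le_total y b with hy | hy
  · rw [min_eq_left hx, min_eq_left hy]
  · rw [min_eq_left hx, min_eq_right hy]; nlinarith
  · rw [min_eq_right hx, min_eq_left hy]; nlinarith
  · rw [min_eq_right hx, min_eq_right hy, sub_self]; nlinarith [sq_nonneg (x - y)]

theorem s1m_mp (hp : H.PG A K) (hg : Summable fun a : A => H.gr A K g a) {j : ℕ}
    (h : ∀ g' : G → ℝ, (Summable fun a : A => H.gr A K g' a) →
      (∀ a ∈ A, H.len a ≤ j → g' a = g a) → ∑' a : A, H.gr A K g a ≤ ∑' a : A, H.gr A K g' a) :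
    H.MP A K j g := by
  intro R b hR hb
  by_contra hcon
  have hex : ∃ n, ∃ a ∈ R, b < g a ∧ H.len a = n := by
    push Not at hcon
    obtain ⟨a, ha, hlt⟩ := hcon
    exact ⟨_, a, ha, hlt, rfl⟩
  obtain ⟨a0, ha0, hlt0, hn0⟩ := Nat.find_spec hex
  have hmin : ∀ p ∈ R, H.len p < H.len a0 → g p ≤ b := by
    intro p hpR hl
    by_contra hc
    exact Nat.find_min hex (hn0 ▸ hl) ⟨p, hpR, not_le.1 hc, rfl⟩
  let g' : G → ℝ := fun x => if x ∈ R then min (g x) b else g x
  have back : ∀ a s : G, s ∈ A → H.len s ≤ K → a * s ∈ R → a ∉ R → g a ≤ b := by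
    intro a s hs hK h1 h2
    have := hb (a * s) h1 s⁻¹ (A.inv_mem hs) (by rw [H.len_inv]; exact hK)
    rw [mul_inv_cancel_right] at this
    exact this h2
  have edge : ∀ a s : G, s ∈ A → H.len s ≤ K →
      (g' (a * s) - g' a) ^ 2 ≤ (g (a * s) - g a) ^ 2 := by
    intro a s hs hK
    have hm := s1m_min_sq (g (a * s)) (g a) b
    by_cases h1 : a * s ∈ R <;> by_cases h2 : a ∈ R
    · simp only [g', if_pos h1, if_pos h2]; exact hm
    · simp only [g', if_pos h1, if_neg h2]
      rw [min_eq_left (back a s hs hK h1 h2)] at hm; exact hm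
    · simp only [g', if_neg h1, if_pos h2]
      rw [min_eq_left (hb a h2 s hs hK h1)] at hm; exact hm
    · simp only [g', if_neg h1, if_neg h2]; exact le_rfl
  have hle : ∀ a : G, H.gr A K g' a ≤ H.gr A K g a := fun a =>
    Finset.sum_le_sum fun s hs => edge a s (H.s1m_mem.1 hs).2 (H.s1m_mem.1 hs).1
  have hs' : Summable fun a : A => H.gr A K g' a :=
    Summable.of_nonneg_of_le (fun a => H.gr_nonneg _) (fun a => hle _) hg
  obtain ⟨haA, hj⟩ := hR a0 ha0
  have h1 : a0 ≠ 1 := by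
    intro e
    rw [e, (H.len_eq_zero 1).2 rfl] at hj
    exact Nat.not_lt_zero _ hj
  obtain ⟨p, hpA, hpl, hK⟩ := hp a0 haA h1
  have hsA : p⁻¹ * a0 ∈ A := A.mul_mem (A.inv_mem hpA) haA
  have hpb : g p ≤ b := by
    by_cases hpR : p ∈ R
    · exact hmin p hpR hpl
    · exact back p _ hsA hK (by rw [mul_inv_cancel_left]; exact ha0) hpR
  have hgp : g' p = g p := by
    by_cases hpR : p ∈ R
    · simp only [g', if_pos hpR]; exact min_eq_left hpb
    · simp only [g', if_neg hpR]
  have hga : g' a0 = b := by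
    simp only [g', if_pos ha0]; exact min_eq_right hlt0.le
  have hst : H.gr A K g' p < H.gr A K g p := by
    refine Finset.sum_lt_sum (fun s hs => edge p s (H.s1m_mem.1 hs).2 (H.s1m_mem.1 hs).1)
      ⟨p⁻¹ * a0, H.s1m_mem.2 ⟨hK, hsA⟩, ?_⟩
    rw [mul_inv_cancel_left, hgp, hga]
    nlinarith
  have hlt : ∑' a : A, H.gr A K g' a < ∑' a : A, H.gr A K g a :=
    Summable.tsum_lt_tsum (i := (⟨p, hpA⟩ : A)) (fun a => hle _) hst hs' hg
  refine absurd (h g' hs' fun a _ hl => ?_) (not_le.2 hlt)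
  have : a ∉ R := fun hr => absurd (hR a hr).2 (not_lt.2 hl)
  simp only [g', if_neg this]

theorem s1m_neg (g : G → ℝ) (a : G) : H.gr A K (fun x => -g x) a = H.gr A K g a := by
  unfold gr
  refine Finset.sum_congr rfl fun s _ => ?_
  ring

theorem mp_of_min (hp : H.PG A K) (hg : Summable fun a : A => H.gr A K g a) {j : ℕ}
    (h : ∀ g' : G → ℝ, (Summable fun a : A => H.gr A K g' a) →
      (∀ a ∈ A, H.len a ≤ j → g' a = g a) → ∑' a : A, H.gr A K g a ≤ ∑' a : A, H.gr A K g' a) :
    H.MP A K j g ∧ H.MP A K j fun x => -g x := by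
  refine ⟨H.s1m_mp hp hg h, H.s1m_mp hp ?_ fun g' hs hadm => ?_⟩
  · simp only [s1m_neg]; exact hg
  · have := h (fun x => -g' x) (by simp only [s1m_neg]; exact hs) fun a ha hl => by
      rw [hadm a ha hl, neg_neg]
    simp only [s1m_neg] at this ⊢
    exact this

end HB

end KKC
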