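import Pool.Agent.Lib.MP_e1e491_gt.S1F

/-! Monotone functions of finite energy are continuous. -/

namespace KKC

namespace HB

open Set
open scoped Pointwise Classical

set_option linter.unusedSectionVars false

variable {G Z : Type} [Group G] [MetricSpace Z] [CompactSpace Z] [MulAction G Z] (H : HB G Z)
  {A : Subgroup G} {C : Set Z} {K : ℕ} {f g : G → ℝ}

/-- Elements at bounded distance. -/
theorem abs_sub_le_of_len (hp : H.PG A K) {τ : ℝ} (hτ : 0 ≤ τ) {a k : G} (hk : k ∈ A) {n : ℕ}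
    (hn : H.len k ≤ n) (h : ∀ p ∈ A, H.len p ≤ n → H.gr A K g (a * p) ≤ τ ^ 2) :
    |g (a * k) - g a| ≤ n * τ := by
  have key : ∀ m : ℕ, ∀ k ∈ A, H.len k ≤ m → m ≤ n → |g (a * k) - g a| ≤ m * τ := by
    intro m
    induction m with
    | zero =>
      intro k _ h0 _
      simp [(H.len_eq_zero k).1 (Nat.le_zero.1 h0)]
    | succ m ih =>
      intro k hk h0 h1
      by_cases h2 : k = 1
      · rw [h2, mul_one, sub_self, abs_zero]
        positivity
      obtain ⟨p, hpA, h3, h4⟩ := hp k hk h2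
      have h5 := ih p hpA (by omega) (by omega)
      have h6 := (H.le_gr (f := g) (A.mul_mem (A.inv_mem hpA) hk) h4 (a * p)).trans
        (h p hpA (by omega))
      rw [show a * p * (p⁻¹ * k) = a * k by group] at h6
      have h7 := abs_le_of_sq_le_sq h6 hτ
      have h8 := abs_sub_le (g (a * k)) (g (a * p)) (g a)
      push_cast
      linarith
  exact key n k hk hn le_rfl

/-- A radius that avoids countably many short intervals. -/
theorem exists_radius {ι : Type} [Countable ι] (c ρ : ι → ℝ) (hρ : ∀ i, 0 ≤ ρ i) (hs : Summable ρ)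
    {r : ℝ} (hr : 2 * ∑' i, ρ i < r) : ∃ s, r ≤ s ∧ s ≤ 2 * r ∧ ∀ i, ρ i < |s - c i| := by
  by_contra hcon
  have hsub : Icc r (2 * r) ⊆ ⋃ i, Icc (c i - ρ i) (c i + ρ i) := fun s hs => by
    by_contra h
    refine hcon ⟨s, hs.1, hs.2, fun i => lt_of_not_ge fun h' => h (mem_iUnion.2 ⟨i, ?_⟩)⟩
    have := abs_le.1 h'
    constructor <;> linarith [this.1, this.2]
  have h1 := (MeasureTheory.measure_mono (μ := MeasureTheory.volume) hsub).trans
    (MeasureTheory.measure_iUnion_le _)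
  have h2 : ∀ i, c i + ρ i - (c i - ρ i) = 2 * ρ i := fun i => by ring
  simp only [Real.volume_Icc, h2] at h1
  rw [← ENNReal.ofReal_tsum_of_nonneg (fun i => mul_nonneg zero_le_two (hρ i)) (hs.mul_left 2),
    tsum_mul_left, ENNReal.ofReal_le_ofReal_iff (mul_nonneg zero_le_two (tsum_nonneg hρ))] at h1
  linarith

theorem s1o_sc_le {w : G} {m k : ℕ} (h : m ≤ H.len w + k) :
    H.sc w ≤ H.a ^ k * H.a ^ (-(m : ℝ)) := by
  have h0 : 0 < H.a := zero_lt_one.trans H.ha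
  rw [sc, ← Real.rpow_natCast, ← Real.rpow_add h0]
  refine Real.rpow_le_rpow_of_exponent_le H.ha.le ?_
  have : (m : ℝ) ≤ H.len w + k := by exact_mod_cast h
  linarith

theorem s1o_le_sc {w : G} {m : ℕ} (h : H.len w ≤ m) : H.a ^ (-(m : ℝ)) ≤ H.sc w :=
  Real.rpow_le_rpow_of_exponent_le H.ha.le (neg_le_neg (Nat.cast_le.2 h))

theorem s1o_par {w p : G} (h : H.len p < H.len w) : H.a * H.sc w ≤ H.sc p := by
  have h0 : 0 < H.a := zero_lt_one.trans H.ha
  have h1 := H.s1o_le_sc (w := p) (m := H.len w - 1) (by omega)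
  refine le_trans (le_of_eq ?_) h1
  rw [sc, Nat.cast_sub (by omega), Nat.cast_one, neg_sub, sub_eq_add_neg, Real.rpow_add h0,
    Real.rpow_one]

theorem s1o_tail {F : A → ℝ} (hF : Summable F) {T : ℝ} (hT : 0 < T) :
    ∃ n : ℕ, ∑' a : A, {a : A | n ≤ H.len a}.indicator F a < T := by
  obtain ⟨s, hs⟩ := hF.tsum_vanishing (Iio_mem_nhds hT)
  refine ⟨s.sup (fun a => H.len a) + 1, ?_⟩
  rw [← tsum_subtype]
  refine hs _ (Set.disjoint_left.2 fun a ha h => ?_)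
  have h1 : H.len a ≤ s.sup fun a => H.len a := Finset.le_sup (f := fun a : A => H.len a) h
  have h2 : s.sup (fun a => H.len a) + 1 ≤ H.len a := ha
  omega

/-- Along a chain of parents with small gradient. -/
theorem s1o_chain (hp : H.PG A K) {S : Set G} {m : ℕ} (hm : 0 < m) {μ : ℝ} (hμ : 0 ≤ μ)
    (hA : ∀ w ∈ S, w ∈ A)
    (hS : ∀ w ∈ S, ∀ p ∈ A, H.len p < H.len w → H.len (p⁻¹ * w) ≤ K → p ∈ S)
    (hg : ∀ p ∈ S, m ≤ H.len p + K → H.gr A K g p ≤ μ ^ 2 * H.sc p) (n : ℕ) :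
    ∀ w ∈ S, H.len w < n → m ≤ H.len w + K → ∃ w' ∈ S, m ≤ H.len w' + K ∧ H.len w' < m ∧
      |g w - g w'| ≤ √H.a / (√H.a - 1) * μ * (√(H.sc w') - √(H.sc w)) := by
  induction n with
  | zero => exact fun w _ h => absurd h (Nat.not_lt_zero _)
  | succ n ih =>
    intro w hw h1 h2
    by_cases h3 : H.len w < m
    · exact ⟨w, hw, h2, h3, by simp⟩
    have h4 : w ≠ 1 := fun h => h3 (by rw [h, (H.len_eq_zero 1).2 rfl]; exact hm)
    obtain ⟨p, hpA, h5, h6⟩ := hp w (hA w hw) h4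
    have h7 := H.len_mul p (p⁻¹ * w)
    rw [mul_inv_cancel_left] at h7
    have h8 := hS w hw p hpA h5 h6
    obtain ⟨w', h9, h10, h11, h12⟩ := ih p h8 (by omega) (by omega)
    refine ⟨w', h9, h10, h11, ?_⟩
    have h13 := (H.le_gr (f := g) (A.mul_mem (A.inv_mem hpA) (hA w hw)) h6 p).trans
      (hg p h8 (by omega))
    rw [mul_inv_cancel_left, ← Real.sq_sqrt (H.s1_sc_pos p).le, ← mul_pow] at h13
    have h14 := abs_le_of_sq_le_sq h13 (mul_nonneg hμ (Real.sqrt_nonneg _))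
    have hb : 1 < √H.a := Real.lt_sqrt_of_sq_lt (by rw [one_pow]; exact H.ha)
    have h15 : √H.a * √(H.sc w) ≤ √(H.sc p) := by
      rw [← Real.sqrt_mul (zero_lt_one.trans H.ha).le]
      exact Real.sqrt_le_sqrt (H.s1o_par h5)
    have h16 : √(H.sc p) ≤ √H.a / (√H.a - 1) * (√(H.sc p) - √(H.sc w)) := by
      rw [div_mul_eq_mul_div, le_div_iff₀ (sub_pos.2 hb)]
      linarith
    have h17 := mul_le_mul_of_nonneg_left h16 hμ
    have h18 := abs_sub_le (g w) (g p) (g w')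
    linarith

/-- The boundary of a suitable ball about `ξ`. -/
theorem s1o_bdry (hp : H.PG A K) : ∃ (B D : ℝ) (K₁ : ℕ), 0 < B ∧ 0 < D ∧
    ∀ (E : A → ℝ) (m : ℕ) (μ τ : ℝ) (ξ : Z), 0 < m → 0 < μ → 0 ≤ τ → Summable E →
      (∀ a, 0 ≤ E a) → (∀ a : A, m ≤ H.len a + K + K₁ → H.gr A K g a ≤ E a) →
      ∑' a, E a ≤ τ ^ 2 → B * ∑' a, E a < μ ^ 2 → ∃ s c : ℝ, H.a ^ (-(m : ℝ)) ≤ s ∧
        ∀ v ∈ A, m ≤ H.len v → dist (H.loc v) ξ < s → ∀ k ∈ A, H.len k ≤ K →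
          ¬ (m ≤ H.len (v * k) ∧ dist (H.loc (v * k)) ξ < s) →
            |g (v * k) - c| ≤ D * μ + K₁ * τ := by
  obtain ⟨L, hL, hloc⟩ := H.s1_loc_mul K
  have ha := H.ha
  have hC := H.hC
  have ha0 : 0 < H.a := zero_lt_one.trans ha
  have hb : 1 < √H.a := Real.lt_sqrt_of_sq_lt (by rw [one_pow]; exact ha)
  obtain ⟨L', hL0, hL1, hL2⟩ : ∃ L', 0 < L' ∧ L ≤ L' ∧ L' + L ≤ L' * H.a := by
    have h1 : L * H.a / (H.a - 1) * (H.a - 1) = L * H.a := div_mul_cancel₀ _ (by linarith)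
    have h2 : L ≤ L * H.a / (H.a - 1) := by
      rw [le_div_iff₀ (by linarith)]
      nlinarith
    exact ⟨L * H.a / (H.a - 1), by linarith, h2, by nlinarith⟩
  have hP : 1 ≤ H.a ^ K := one_le_pow₀ ha.le
  obtain ⟨K₁, hK₁⟩ := H.s1_len_le (H.C ^ 3 * ((2 + L' * H.a ^ K) + H.a ^ K))
  refine ⟨2 * L', √H.a / (√H.a - 1) * √(H.a ^ K), K₁, by linarith,
    mul_pos (div_pos (by linarith) (by linarith)) (Real.sqrt_pos.2 (by linarith)),
    fun E m μ τ ξ hm hμ hτ hE hE0 hgE hτE hμE => ?_⟩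
  obtain ⟨r, hr⟩ : ∃ r, r = H.a ^ (-(m : ℝ)) := ⟨_, rfl⟩
  have hr0 : 0 < r := hr ▸ Real.rpow_pos_of_pos ha0 _
  have : Countable G := by
    rw [← Set.countable_univ_iff]
    refine (Set.countable_iUnion fun n => (H.fin n).countable).mono fun x _ => ?_
    exact mem_iUnion.2 ⟨H.len x, le_refl (H.len x)⟩
  have hμ2 : 0 < μ ^ 2 := pow_pos hμ 2
  have hρ0 : ∀ v : A, 0 ≤ (if μ ^ 2 * H.sc v < r * E v then L' * H.sc v else 0) := fun v => by
    split_ifs
    · exact mul_nonneg hL0.le (H.s1_sc_pos _).le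
    · exact le_rfl
  have hρ1 : ∀ v : A, (if μ ^ 2 * H.sc v < r * E v then L' * H.sc v else 0) ≤
      L' * r / μ ^ 2 * E v := fun v => by
    split_ifs with h
    · rw [div_mul_eq_mul_div, le_div_iff₀ hμ2]
      nlinarith
    · exact mul_nonneg (by positivity) (hE0 v)
  have hρ2 := Summable.of_nonneg_of_le hρ0 hρ1 (hE.mul_left _)
  obtain ⟨s, hs1, hs2, hs⟩ := exists_radius (fun v : A => dist (H.loc v) ξ) _ hρ0 hρ2 (r := r) (by
    have h1 := hρ2.tsum_le_tsum hρ1 (hE.mul_left _)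
    rw [tsum_mul_left] at h1
    have h2 : 2 * (L' * r / μ ^ 2 * ∑' a, E a) < r := by
      rw [div_mul_eq_mul_div, ← mul_div_assoc, div_lt_iff₀ hμ2]
      nlinarith
    linarith)
  obtain ⟨c, hc⟩ : ∃ c, ∀ w ∈ A, m ≤ H.len w + K → H.len w < m →
      dist (H.loc w) ξ ≤ (2 + L' * H.a ^ K) * r → |g w - c| ≤ K₁ * τ := by
    by_cases h : ∃ w ∈ A, m ≤ H.len w + K ∧ H.len w < m ∧
        dist (H.loc w) ξ ≤ (2 + L' * H.a ^ K) * r
    swap
    · exact ⟨0, fun w h1 h2 h3 h4 => absurd ⟨w, h1, h2, h3, h4⟩ h⟩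
    obtain ⟨w₀, k1, k2, k3, k4⟩ := h
    have hq : ∀ w, m ≤ H.len w + K → dist (H.loc w) ξ ≤ (2 + L' * H.a ^ K) * r →
        H.q (.inr ξ) (.inl w) ≤ H.C ^ 2 * (((2 + L' * H.a ^ K) + H.a ^ K) * r) :=
      fun w h2 h4 => by
      have h5 := H.s1o_sc_le h2
      rw [← hr] at h5
      have h6 : 0 ≤ (2 + L' * H.a ^ K) * r := by positivity
      have h7 : 0 ≤ H.a ^ K * r := by positivity
      refine (H.s1_q_le_loc ξ w).trans (mul_le_mul_of_nonneg_left (max_le ?_ ?_) (by positivity))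
      · rw [dist_comm]
        linarith
      · linarith
    refine ⟨g w₀, fun w h1 h2 h3 h4 => ?_⟩
    have h5 : H.q (.inl w₀) (.inl w) ≤ H.C ^ 3 * ((2 + L' * H.a ^ K) + H.a ^ K) * r := by
      refine (H.ultra _ (.inr ξ) _).trans ?_
      rw [H.q_comm (.inl w₀)]
      refine (mul_le_mul_of_nonneg_left (max_le (hq _ k2 k4) (hq _ h2 h4)) (by linarith)).trans ?_
      exact le_of_eq (by ring)
    have h6 : 0 ≤ H.C ^ 3 * ((2 + L' * H.a ^ K) + H.a ^ K) := by positivity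
    have h7 := hK₁ w₀ w (h5.trans (mul_le_mul_of_nonneg_left (hr ▸ H.s1o_le_sc k3.le) h6))
      (h5.trans (mul_le_mul_of_nonneg_left (hr ▸ H.s1o_le_sc h3.le) h6))
    have h8 := H.abs_sub_le_of_len (g := g) hp hτ (a := w₀) (A.mul_mem (A.inv_mem k1) h1) h7
      fun p p1 p2 => by
        have p3 := H.len_mul (w₀ * p) p⁻¹
        rw [mul_inv_cancel_right, H.len_inv] at p3
        exact ((hgE ⟨w₀ * p, A.mul_mem k1 p1⟩ (by dsimp only; omega)).trans
          (hE.le_tsum _ fun b _ => hE0 b)).trans hτE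
    rwa [mul_inv_cancel_left] at h8
  refine ⟨s, c, hr ▸ hs1, fun v v1 v2 v3 k k1 k2 k3 => ?_⟩
  have hD : 0 ≤ √H.a / (√H.a - 1) := div_nonneg (by linarith) (by linarith)
  have hw := A.mul_mem v1 k1
  have h1 := H.len_mul (v * k) k⁻¹
  rw [mul_inv_cancel_right, H.len_inv] at h1
  by_cases h2 : H.len (v * k) < m
  · have h3 := hloc v k k2
    have h4 := H.s1o_sc_le (w := v) (m := m) (k := K) (by omega)
    rw [← hr] at h4
    have h5 := dist_triangle_left (H.loc (v * k)) ξ (H.loc v)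
    have h6 : L * H.sc v ≤ L' * (H.a ^ K * r) :=
      mul_le_mul hL1 h4 (H.s1_sc_pos _).le hL0.le
    have h7 := hc _ hw (by omega) h2 (by linarith)
    have h8 : 0 ≤ √H.a / (√H.a - 1) * √(H.a ^ K) * μ := by positivity
    linarith
  have h3 : s ≤ dist (H.loc (v * k)) ξ := le_of_not_gt fun h => k3 ⟨by omega, h⟩
  have h4 := hloc (v * k) k⁻¹ (by rwa [H.len_inv])
  rw [mul_inv_cancel_right] at h4
  have h5 := dist_triangle (H.loc (v * k)) (H.loc v) ξ
  have h6 : L * H.sc (v * k) ≤ L' * H.sc (v * k) :=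
    mul_le_mul_of_nonneg_right hL1 (H.s1_sc_pos _).le
  have hsr : 0 < √r := Real.sqrt_pos.2 hr0
  obtain ⟨w, ⟨w1, w2⟩, w3, w4, w5⟩ := H.s1o_chain (g := g) hp
    (S := {w | w ∈ A ∧ |s - dist (H.loc w) ξ| ≤ L' * H.sc w}) hm (μ := μ / √r) (by positivity)
    (fun w h => h.1) (fun w h p p1 p2 p3 => ⟨p1, by
      have q1 := hloc w (p⁻¹ * w)⁻¹ (by rwa [H.len_inv])
      rw [show w * (p⁻¹ * w)⁻¹ = p by group] at q1
      have q2 := abs_dist_sub_le (H.loc w) (H.loc p) ξ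
      have q3 := abs_sub_le s (dist (H.loc w) ξ) (dist (H.loc p) ξ)
      have q4 := mul_le_mul_of_nonneg_left (H.s1o_par p2) hL0.le
      have q5 := mul_le_mul_of_nonneg_right hL2 (H.s1_sc_pos w).le
      have q6 := h.2
      linarith⟩)
    (fun p h p1 => by
      have q1 := hs ⟨p, h.1⟩
      have q2 : r * E ⟨p, h.1⟩ ≤ μ ^ 2 * H.sc p := le_of_not_gt fun q => by
        rw [if_pos q] at q1
        exact q1.not_ge h.2
      have q3 := hgE ⟨p, h.1⟩ (by dsimp only; omega)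
      rw [div_pow, Real.sq_sqrt hr0.le, div_mul_eq_mul_div, le_div_iff₀ hr0]
      nlinarith)
    _ (v * k) ⟨hw, by rw [abs_sub_comm, abs_of_nonneg (by linarith)]; linarith⟩
    (Nat.lt_succ_self _) (by omega)
  have h7 := H.s1o_sc_le w3
  rw [← hr] at h7
  have h8 := mul_le_mul_of_nonneg_left h7 hL0.le
  have h9 := hc w w1 w3 w4 (by linarith [(abs_le.1 w2).1])
  have h10 : √(H.sc w) ≤ √(H.a ^ K) * √r := by
    rw [← Real.sqrt_mul (by linarith)]
    exact Real.sqrt_le_sqrt h7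
  have h11 : √H.a / (√H.a - 1) * (μ / √r) * (√(H.sc w) - √(H.sc (v * k))) ≤
      √H.a / (√H.a - 1) * (μ / √r) * (√(H.a ^ K) * √r) :=
    mul_le_mul_of_nonneg_left (by linarith [Real.sqrt_nonneg (H.sc (v * k))]) (by positivity)
  have h12 : √H.a / (√H.a - 1) * (μ / √r) * (√(H.a ^ K) * √r) =
      √H.a / (√H.a - 1) * √(H.a ^ K) * μ := by
    field_simp
  have h13 := abs_sub_le (g (v * k)) (g w) c
  linarith

theorem osc_of_mp (hp : H.PG A K) (hg : Summable fun a : A => H.gr A K g a) {j : ℕ}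
    (h1 : H.MP A K j g) (h2 : H.MP A K j fun x => -g x) : H.Osc A C g := by
  intro ε hε
  obtain ⟨B, D, K₁, hB, hD, h⟩ := H.s1o_bdry (g := g) hp
  have hμ : 0 < ε / 4 / D := by positivity
  have hτ : 0 < ε / 4 / (K₁ + 1) := by positivity
  obtain ⟨n, hn⟩ := H.s1o_tail hg (lt_min (pow_pos hτ 2) (div_pos (pow_pos hμ 2) hB))
  have ha0 : 0 < H.a := zero_lt_one.trans H.ha
  have hC := H.hC
  have hr : 0 < H.a ^ (-((n + K + K₁ + j + 1 : ℕ) : ℝ)) := Real.rpow_pos_of_pos ha0 _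
  refine ⟨H.a ^ (-((n + K + K₁ + j + 1 : ℕ) : ℝ)) / H.C ^ 4, by positivity,
    fun ξ _ a ha b hb qa qb => ?_⟩
  obtain ⟨s, c, hs, hc⟩ := h _ (n + K + K₁ + j + 1) _ _ ξ (by omega) hμ hτ.le (hg.indicator _)
    (fun a => indicator_nonneg (fun a _ => H.gr_nonneg _) a)
    (fun a ha => (indicator_of_mem (s := {a : A | n ≤ H.len a}) (show n ≤ H.len a by omega)
      fun a : A => H.gr A K g a).ge)
    (hn.le.trans (min_le_left _ _))
    ((lt_div_iff₀' hB).1 (hn.trans_le (min_le_right _ _)))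
  have e1 : D * (ε / 4 / D) + K₁ * (ε / 4 / (K₁ + 1)) ≤ ε / 2 := by
    have e2 : D * (ε / 4 / D) = ε / 4 := mul_div_cancel₀ _ hD.ne'
    have e3 : (K₁ + 1) * (ε / 4 / (K₁ + 1)) = ε / 4 := mul_div_cancel₀ _ (by positivity)
    nlinarith
  have hR : ∀ a ∈ A, H.q (.inr ξ) (.inl a) < H.a ^ (-((n + K + K₁ + j + 1 : ℕ) : ℝ)) / H.C ^ 4 →
      |g a - c| ≤ ε / 2 := fun a ha qa => by
    rw [lt_div_iff₀' (by positivity)] at qa
    have e2 : H.C * H.q (.inr ξ) (.inl a) ≤ H.C ^ 4 * H.q (.inr ξ) (.inl a) :=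
      mul_le_mul_of_nonneg_right (le_self_pow₀ hC (by norm_num)) (H.q_nonneg _ _)
    have e3 : a ∈ {v | v ∈ A ∧ n + K + K₁ + j + 1 ≤ H.len v ∧ dist (H.loc v) ξ < s} :=
      ⟨ha, le_of_not_gt fun e => by linarith [H.s1o_le_sc e.le, H.s1_sc_le_q a (.inr ξ)], by
        rw [dist_comm]
        linarith [H.s1_dist_loc ξ a]⟩
    have e4 := h1 _ (c + ε / 2) (fun v hv => ⟨hv.1, by have := hv.2.1; omega⟩)
      (fun v hv k k1 k2 k3 => by
        have := hc v hv.1 hv.2.1 hv.2.2 k k1 k2 fun e => k3 ⟨A.mul_mem hv.1 k1, e⟩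
        linarith [(abs_le.1 this).2]) a e3
    have e5 := h2 _ (-c + ε / 2) (fun v hv => ⟨hv.1, by have := hv.2.1; omega⟩)
      (fun v hv k k1 k2 k3 => by
        have := hc v hv.1 hv.2.1 hv.2.2 k k1 k2 fun e => k3 ⟨A.mul_mem hv.1 k1, e⟩
        linarith [(abs_le.1 this).1]) a e3
    exact abs_le.2 ⟨by linarith, by linarith⟩
  have e2 := abs_sub_le (g a) c (g b)
  rw [abs_sub_comm c] at e2
  linarith [hR a ha qa, hR b hb qb]

end HB

end KKC
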