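import Pool.Agent.Lib.MP_e1e491_gt.S1M
import Pool.Agent.Lib.MP_e1e491_gt.S1O

/-! Straightening. -/

namespace KKC

namespace HB

open Set
open scoped Pointwise Classical

set_option linter.unusedSectionVars false

variable {G Z : Type} [Group G] [MetricSpace Z] [CompactSpace Z] [MulAction G Z] (H : HB G Z)
  {A : Subgroup G} {C : Set Z} {K : ℕ} {f g : G → ℝ} {u : Z → ℝ}

theorem s1s_tail {ι : Type} {F : ι → ℝ} (hF : Summable F) {ε : ℝ} (hε : 0 < ε) :
    ∃ T : Finset ι, ∑' i, F i - ∑ i ∈ T, F i ≤ ε := by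
  obtain ⟨T, hT⟩ := ((tendsto_order.1 hF.hasSum).1 (∑' i, F i - ε) (by linarith)).exists
  exact ⟨T, by linarith⟩

theorem s1s_le {ι : Type} {F h : ι → ℝ} (hF : Summable F) (hF0 : ∀ i, 0 ≤ F i) (h0 : ∀ i, 0 ≤ h i)
    (T : Finset ι) (hc : ∀ i, i ∉ T → h i ≤ F i) {b : ℝ} (hT : ∑ i ∈ T, h i ≤ b) :
    Summable h ∧ ∑' i, h i ≤ b + (∑' i, F i - ∑ i ∈ T, F i) := by
  have key : ∀ s : Finset ι, ∑ i ∈ s, h i ≤ b + (∑' i, F i - ∑ i ∈ T, F i) := by
    intro s
    have h1 : ∑ i ∈ s, h i ≤ ∑ i ∈ T ∪ s, h i :=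
      Finset.sum_le_sum_of_subset_of_nonneg Finset.subset_union_right fun i _ _ => h0 i
    have h2 : ∀ t : ι → ℝ, ∑ i ∈ T ∪ s, t i = ∑ i ∈ T, t i + ∑ i ∈ s \ T, t i := fun t => by
      rw [← Finset.sum_union Finset.disjoint_sdiff, Finset.union_sdiff_self_eq_union]
    have h3 : ∑ i ∈ s \ T, h i ≤ ∑ i ∈ s \ T, F i :=
      Finset.sum_le_sum fun i hi => hc i (Finset.mem_sdiff.1 hi).2
    have h4 : ∑ i ∈ T ∪ s, F i ≤ ∑' i, F i := hF.sum_le_tsum _ fun i _ => hF0 i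
    rw [h2] at h1 h4
    linarith
  exact ⟨summable_of_sum_le h0 key, Real.tsum_le_of_sum_le h0 key⟩

theorem s1s_mem {s : G} (hs : s ∈ (H.fin K).toFinset.filter (· ∈ A)) : s ∈ A ∧ H.len s ≤ K := by
  rw [Finset.mem_filter, Set.Finite.mem_toFinset] at hs
  exact ⟨hs.2, hs.1⟩

theorem s1s_gr_le {h : G → ℝ} (a : G)
    (e : ∀ s ∈ A, H.len s ≤ K → h (a * s) - h a = (f (a * s) - f a) + (g (a * s) - g a) ∨
      h (a * s) - h a = (f (a * s) - f a) - (g (a * s) - g a)) :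
    H.gr A K h a ≤ 2 * H.gr A K f a + 2 * H.gr A K g a := by
  unfold gr
  rw [Finset.mul_sum, Finset.mul_sum, ← Finset.sum_add_distrib]
  refine Finset.sum_le_sum fun s hs => ?_
  rcases e s (H.s1s_mem hs).1 (H.s1s_mem hs).2 with e' | e'
  · rw [e']
    nlinarith [sq_nonneg ((f (a * s) - f a) - (g (a * s) - g a))]
  · rw [e']
    nlinarith [sq_nonneg ((f (a * s) - f a) + (g (a * s) - g a))]

theorem s1s_clamp {η : ℝ} (hη : 0 ≤ η) (x y : ℝ) :
    (max (-η) (min η x) - max (-η) (min η y)) ^ 2 ≤ (x - y) ^ 2 ∧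
      (max (-η) (min η x) - max (-η) (min η y)) ^ 2 ≤ (2 * η) ^ 2 := by
  constructor
  · rw [sq_le_sq]
    refine (abs_max_sub_max_le_max _ _ _ _).trans (max_le (by simp) ?_)
    exact (abs_min_sub_min_le_max _ _ _ _).trans (max_le (by simp) le_rfl)
  · have h1 : ∀ t, -η ≤ max (-η) (min η t) := fun t => le_max_left _ _
    have h2 : ∀ t, max (-η) (min η t) ≤ η := fun t => max_le (by linarith) (min_le_left _ _)
    refine sq_le_sq' ?_ ?_
    · linarith [h1 x, h2 y]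
    · linarith [h2 x, h1 y]

theorem approx_of_const (hq : H.QC A C) (hg : Summable fun a : A => H.gr A K g a)
    (hb : H.Bdv A C g u) {c : ℝ} (hc : ∀ ξ ∈ C, u ξ = c) {ε : ℝ} (hε : 0 < ε) :
    ∃ φ : G → ℝ, (Function.support φ).Finite ∧
      ∑' a : A, H.gr A K (fun x => g x - φ x) a ≤ ε := by
  obtain ⟨T, hT⟩ := s1s_tail hg (half_pos hε)
  set N : ℝ := (((H.fin K).toFinset.filter (· ∈ A)).card : ℝ) with hN
  have hN0 : 0 ≤ N := Nat.cast_nonneg _
  have hT0 : (0 : ℝ) ≤ T.card := Nat.cast_nonneg _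
  have hM : 0 < T.card * N + 1 := by positivity
  obtain ⟨η, hη, hη'⟩ : ∃ η : ℝ, 0 < η ∧ (T.card * N) * (2 * η) ^ 2 ≤ ε / 2 := by
    refine ⟨√(ε / 2 / (T.card * N + 1)) / 2, by positivity, ?_⟩
    rw [mul_div_cancel₀ _ (two_ne_zero), Real.sq_sqrt (by positivity), ← mul_div_assoc,
      div_le_iff₀ hM]
    nlinarith
  obtain ⟨L, hL, hq1, -⟩ := hq
  obtain ⟨δ, hδ, hb⟩ := hb η hη
  have hC := H.hC
  let φ : G → ℝ := fun x => if x ∈ A then (g x - c) - max (-η) (min η (g x - c)) else 0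
  have hφ : ∀ x ∈ A, g x - φ x = c + max (-η) (min η (g x - c)) := fun x hx => by
    simp only [φ, if_pos hx]
    ring
  refine ⟨φ, (H.s1_fin_sc (ε := δ / (H.C ^ 2 * L)) (by positivity)).subset fun x hx => ?_, ?_⟩
  · by_contra hlt
    rw [mem_ofPred_eq, not_le, lt_div_iff₀ (by positivity)] at hlt
    apply hx
    simp only [φ]
    split_ifs with hxA
    · obtain ⟨ξ, hξ, hd⟩ := hq1 x hxA
      have hs := H.s1_sc_pos x
      have h1 : H.q (.inr ξ) (.inl x) < δ := by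
        refine (H.s1_q_le_loc ξ x).trans_lt (lt_of_le_of_lt ?_ hlt)
        have : max (dist ξ (H.loc x)) (H.sc x) ≤ L * H.sc x := max_le hd (by nlinarith)
        calc H.C ^ 2 * max (dist ξ (H.loc x)) (H.sc x) ≤ H.C ^ 2 * (L * H.sc x) :=
              mul_le_mul_of_nonneg_left this (by positivity)
          _ = H.sc x * (H.C ^ 2 * L) := by ring
      have h2 := hb ξ hξ x hxA h1
      rw [hc ξ hξ, abs_lt] at h2
      rw [min_eq_right h2.2.le, max_eq_right h2.1.le, sub_self]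
    · rfl
  · have e : ∀ (a : A) (s : G), s ∈ A → (g (a * s) - φ (a * s)) - (g a - φ a) =
        max (-η) (min η (g (a * s) - c)) - max (-η) (min η (g a - c)) := fun a s hs => by
      rw [hφ _ (A.mul_mem a.2 hs), hφ _ a.2]
      ring
    have h1 : ∀ a : A, H.gr A K (fun x => g x - φ x) a ≤ H.gr A K g a := fun a => by
      refine Finset.sum_le_sum fun s hs => ?_
      rw [e a s (H.s1s_mem hs).1]
      refine (s1s_clamp hη.le _ _).1.trans_eq ?_
      ring
    have h2 : ∀ a : A, H.gr A K (fun x => g x - φ x) a ≤ N * (2 * η) ^ 2 := fun a => by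
      rw [hN, ← nsmul_eq_mul]
      refine Finset.sum_le_card_nsmul _ _ _ fun s hs => ?_
      rw [e a s (H.s1s_mem hs).1]
      exact (s1s_clamp hη.le _ _).2
    have h3 : ∑ a ∈ T, H.gr A K (fun x => g x - φ x) a ≤ ε / 2 := by
      refine (Finset.sum_le_card_nsmul _ _ _ fun a _ => h2 a).trans ?_
      rw [nsmul_eq_mul, ← mul_assoc]
      exact hη'
    have h4 := (s1s_le hg (fun a => H.gr_nonneg _) (fun a => H.gr_nonneg _) T
      (fun a _ => h1 a) h3).2
    linarith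

theorem straighten (hq : H.QC A C) (hp : H.PG A K) (hS : ¬ H.Star A K) :
    ∃ (f : G → ℝ) (u : Z → ℝ), FinEn A f ∧ H.Bdv A C f u ∧ ∃ x ∈ C, ∃ y ∈ C, u x ≠ u y := by
  unfold Star at hS
  push Not at hS
  obtain ⟨f, hf, ε, hε, hS⟩ := hS
  have hF : Summable fun a : A => H.gr A K f a := H.summable_gr.2 hf
  obtain ⟨T, hT⟩ := s1s_tail hF (ε := ε / 16) (by positivity)
  obtain ⟨g, hg, hgf, hmin⟩ := H.exists_min hp hF (T.sup (fun a => H.len a) + K)
  obtain ⟨m1, m2⟩ := H.mp_of_min hp hg (j := T.sup (fun a => H.len a) + K) fun g' h1 h2 =>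
    hmin g' h1 fun a ha hl => (h2 a ha hl).trans (hgf a ha hl)
  obtain ⟨u, hu⟩ := Osc.bdv hq (H.osc_of_mp (C := C) hp hg m1 m2)
  have hE : FinEn A g := H.finEn_of_pg hp (H.summable_gr.1 hg)
  refine ⟨g, u, hE, hu, ?_⟩
  by_contra hcon
  push Not at hcon
  obtain ⟨ξ, hξ, -⟩ := hq.choose_spec.2.1 1 A.one_mem
  obtain ⟨φ, hφ, hφ'⟩ := H.approx_of_const hq hg hu (fun ζ hζ => hcon ζ hζ ξ hξ)
    (ε := ε / 4) (by positivity)
  obtain ⟨s, hs, hsK, hlt⟩ := hS φ hφ
  have hT1 : ∀ a ∈ T, g a = f a := fun a ha =>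
    hgf a a.2 ((Finset.le_sup (f := fun a : A => H.len a) ha).trans (Nat.le_add_right _ _))
  have hT2 : ∀ a ∈ T, ∀ s ∈ (H.fin K).toFinset.filter (· ∈ A), g (a * s) = f (a * s) :=
    fun a ha s hs => hgf _ (A.mul_mem a.2 (H.s1s_mem hs).1) ((H.len_mul _ _).trans
      (Nat.add_le_add (Finset.le_sup (f := fun a : A => H.len a) ha) (H.s1s_mem hs).2))
  have h1 : ∑ a ∈ T, H.gr A K g a = ∑ a ∈ T, H.gr A K f a :=
    Finset.sum_congr rfl fun a ha => Finset.sum_congr rfl fun s hs => by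
      rw [hT1 a ha, hT2 a ha s hs]
  have h2 : ∑ a ∈ T, H.gr A K (fun x => f x - g x) a ≤ 0 :=
    (Finset.sum_eq_zero fun a ha => Finset.sum_eq_zero fun s hs => by
      simp only [hT1 a ha, hT2 a ha s hs, sub_self]
      norm_num).le
  have h3 := hmin f hF fun _ _ _ => rfl
  obtain ⟨hD, hD'⟩ := s1s_le ((hF.mul_left 2).add (hg.mul_left 2))
    (fun a => add_nonneg (mul_nonneg zero_le_two (H.gr_nonneg _))
      (mul_nonneg zero_le_two (H.gr_nonneg _)))
    (fun a : A => H.gr_nonneg (f := fun x => f x - g x) a) T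
    (fun a _ => H.s1s_gr_le a fun s _ _ => Or.inr (by ring)) h2
  rw [(hF.mul_left 2).tsum_add (hg.mul_left 2), tsum_mul_left, tsum_mul_left,
    Finset.sum_add_distrib, ← Finset.mul_sum, ← Finset.mul_sum] at hD'
  have hE' : Summable fun a : A => H.gr A K (fun x => g x - φ x) a := by
    have hE2 : FinEn A fun x => g x - φ x := by
      refine FinEn.congr_fin hE (hφ.subset fun x hx => ?_)
      intro h0
      exact hx (by rw [h0, sub_zero])
    exact H.summable_gr.2 fun s hs _ => hE2 s hs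
  have hsum := (hD.mul_left 2).add (hE'.mul_left 2)
  have hle : ∀ a : A, ((f (a * s) - φ (a * s)) - (f a - φ a)) ^ 2 ≤
      2 * H.gr A K (fun x => f x - g x) a + 2 * H.gr A K (fun x => g x - φ x) a := fun a =>
    (H.le_gr (f := fun x => f x - φ x) hs hsK a).trans
      (H.s1s_gr_le a fun s _ _ => Or.inl (by ring))
  have h4 := (Summable.of_nonneg_of_le (fun a => sq_nonneg _) hle hsum).tsum_le_tsum hle hsum
  rw [(hD.mul_left 2).tsum_add (hE'.mul_left 2), tsum_mul_left, tsum_mul_left] at h4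
  linarith

end HB

end KKC
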