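import Pool.Agent.Lib.MP_e1e491_gt.S1D

/-! The action on the complement of a class. -/

namespace KKC

namespace HB

open Set
open scoped Pointwise Classical

set_option linter.unusedSectionVars false

variable {G Z : Type} [Group G] [MetricSpace Z] [CompactSpace Z] [MulAction G Z] (H : HB G Z)
  {A : Subgroup G} {C : Set Z} {K : ℕ}

theorem s1v_mem (hA : ∀ a ∈ A, a • C = C) {a : G} (ha : a ∈ A) {η : Z} (hη : η ∈ C) :
    a • η ∈ C := by
  rw [← hA a ha]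
  exact smul_mem_smul_set hη

theorem s1v_ultra (x y z : G ⊕ Z) {t : ℝ} (h1 : H.q x y ≤ t) (h2 : H.q y z ≤ t) :
    H.q x z ≤ H.C * t :=
  (H.ultra x y z).trans (mul_le_mul_of_nonneg_left (max_le h1 h2) (by linarith [H.hC]))

theorem s1v_q_pos (g : G) (x : G ⊕ Z) : 0 < H.q x (.inl g) := by
  have h1 := (H.s1_sc_pos g).trans_le (H.s1_sc_le_q g x)
  exact (mul_pos_iff_of_pos_left (by linarith [H.hC])).1 h1

theorem s1v_q_le {ξ : Z} {g : G} {t : ℝ} (h1 : dist ξ (H.loc g) ≤ t) (h2 : H.sc g ≤ t) :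
    H.q (.inr ξ) (.inl g) ≤ H.C ^ 2 * t :=
  (H.s1_q_le_loc ξ g).trans (mul_le_mul_of_nonneg_left (max_le h1 h2) (sq_nonneg _))

/-- A point of `C` that is almost closest to `x`. -/
theorem s1v_close (hne : C.Nonempty) (x : G) : ∃ η₀ ∈ C, ∀ η ∈ C,
    H.q (.inr η₀) (.inl x) ≤ 2 * H.q (.inr η) (.inl x) := by
  have hC : 0 < H.C := by linarith [H.hC]
  have hlb : H.sc x / H.C ∈ lowerBounds ((fun η : Z => H.q (.inr η) (.inl x)) '' C) := by
    rintro _ ⟨η, -, rfl⟩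
    rw [div_le_iff₀' hC]
    exact H.s1_sc_le_q x _
  have hm : 0 < sInf ((fun η : Z => H.q (.inr η) (.inl x)) '' C) :=
    (div_pos (H.s1_sc_pos x) hC).trans_le (le_csInf (hne.image _) hlb)
  obtain ⟨_, ⟨η₀, h0, rfl⟩, h1⟩ := exists_lt_of_csInf_lt (hne.image _)
    (show sInf ((fun η : Z => H.q (.inr η) (.inl x)) '' C) <
      2 * sInf ((fun η : Z => H.q (.inr η) (.inl x)) '' C) by linarith)
  refine ⟨η₀, h0, fun η hη => h1.le.trans ?_⟩
  exact mul_le_mul_of_nonneg_left (csInf_le ⟨_, hlb⟩ (mem_image_of_mem _ hη)) zero_le_two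

theorem w_cover (hq : H.QC A C) (hA : ∀ a ∈ A, a • C = C) :
    ∃ c₀ > 0, ∀ x : G, ∃ a ∈ A, H.Far C c₀ (a⁻¹ * x) := by
  obtain ⟨L, hL, h1, h2⟩ := hq
  have hC := H.hC
  obtain ⟨ξ, hξ, -⟩ := h1 1 A.one_mem
  have hM : 0 < 2 * H.C ^ 8 * L ^ 3 := by positivity
  refine ⟨1 / (2 * H.C ^ 8 * L ^ 3), by positivity, fun x => ?_⟩
  obtain ⟨η₀, h0, hmin⟩ := H.s1v_close ⟨ξ, hξ⟩ x
  have hr := H.s1v_q_pos x (.inr η₀)
  obtain ⟨a, ha, v1, v2, v3⟩ := h2 η₀ h0 _ hr (H.q_le_one _ _)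
  refine ⟨a, ha, fun η' hη' => ?_⟩
  have hη := s1v_mem hA ha hη'
  have ht := H.s1v_q_pos x (.inr (a • η'))
  have hs := H.s1_sc_pos a
  have h3 := hmin _ hη
  have h4 := H.le_mob a⁻¹ (.inr (a • η')) (.inl x)
  rw [Sum.smul_inr, Sum.smul_inl, inv_smul_smul, smul_eq_mul, inv_inv, H.len_inv] at h4
  change H.sc a * _ ≤ _ at h4
  have h5 : 1 ≤ H.C ^ 2 * L := one_le_mul_of_one_le_of_one_le (one_le_pow₀ hC) hL
  have h6 : H.q (.inl x) (.inl a) ≤ H.C * (H.C ^ 2 * (L * H.q (.inr η₀) (.inl x))) := by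
    refine H.s1v_ultra _ (.inr η₀) _ ?_ (H.s1v_q_le v1 v2)
    rw [H.q_comm, ← mul_assoc]
    exact le_mul_of_one_le_left hr.le h5
  have h7 : H.q (.inr (a • η')) (.inl a) ≤
      H.C * (H.C * (H.C ^ 2 * (L * (2 * H.q (.inr (a • η')) (.inl x))))) := by
    refine H.s1v_ultra _ (.inl x) _ ?_ (h6.trans (by gcongr))
    have h8 : 1 ≤ H.C * (H.C ^ 2 * L) := one_le_mul_of_one_le_of_one_le hC h5
    nlinarith
  have h8 : H.q (.inl x) (.inl a) ≤ H.C * (H.C ^ 2 * (L * (L * H.sc a))) :=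
    h6.trans (by gcongr)
  have h9 := H.q_nonneg (.inr η') (.inl (a⁻¹ * x))
  have h10 := H.q_nonneg (.inl x) (.inl a)
  rw [div_le_iff₀ hM]
  refine le_of_mul_le_mul_right ?_ (mul_pos hs ht)
  calc 1 * (H.sc a * H.q (.inr (a • η')) (.inl x)) = _ := one_mul _
    _ ≤ _ := h4
    _ ≤ H.C * (H.q (.inr η') (.inl (a⁻¹ * x)) *
        (H.C * (H.C * (H.C ^ 2 * (L * (2 * H.q (.inr (a • η')) (.inl x)))))) *
        (H.C * (H.C ^ 2 * (L * (L * H.sc a))))) := by gcongr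
    _ = _ := by ring

theorem w_near (hq : H.QC A C) (hA : ∀ a ∈ A, a • C = C) {c : ℝ} (hc : 0 < c) :
    ∃ L : ℝ, 1 ≤ L ∧ ∀ (x : G), ∀ a ∈ A, H.Far C c (a⁻¹ * x) →
      H.q (.inl x) (.inl a) ≤ L * H.sc a ∧ (∀ η ∈ C, H.sc a ≤ L * H.q (.inr η) (.inl x)) ∧
      ∃ η ∈ C, H.q (.inr η) (.inl x) ≤ L * H.sc a := by
  obtain ⟨L, hL, h1, -⟩ := hq
  have hC := H.hC
  have hC0 : 0 < H.C := by linarith
  have h5 : 1 ≤ H.C ^ 2 * L := one_le_mul_of_one_le_of_one_le (one_le_pow₀ hC) hL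
  obtain ⟨M, hM1, hM2⟩ : ∃ M : ℝ, H.C ^ 2 * L ≤ M ∧ H.C * (H.C ^ 2 * L) ≤ M * c :=
    ⟨max (H.C ^ 2 * L) (H.C * (H.C ^ 2 * L) / c), le_max_left _ _,
      (div_le_iff₀ hc).1 (le_max_right _ _)⟩
  have hM : 1 ≤ M := h5.trans hM1
  have hMM : M ≤ H.C * M := le_mul_of_one_le_left (by linarith) hC
  refine ⟨H.C * M, hM.trans hMM, fun x a ha hf => ?_⟩
  have hs := H.s1_sc_pos a
  have hsL : H.sc a ≤ L * H.sc a := le_mul_of_one_le_left hs.le hL
  have e1 : H.q (.inl x) (.inl a) ≤ M * H.sc a := by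
    obtain ⟨ξ, hξ, hd⟩ := h1 a⁻¹ (A.inv_mem ha)
    have h2 := H.s1v_q_le hd (by rw [H.s1_sc_inv]; exact hsL)
    rw [H.s1_sc_inv] at h2
    have h3 := (hf ξ hξ).trans (H.ultra _ (.inl a⁻¹) _)
    refine le_of_mul_le_mul_right ?_ hc
    have h7 : H.C * (H.C ^ 2 * L) * H.sc a ≤ M * H.sc a * c := by
      rw [mul_right_comm M]
      exact mul_le_mul_of_nonneg_right hM2 hs.le
    refine le_trans ?_ h7
    rcases le_total (H.q (.inr ξ) (.inl a⁻¹)) (H.q (.inl a⁻¹) (.inl (a⁻¹ * x))) with h | h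
    · rw [max_eq_right h, H.q_comm] at h3
      have h4 := H.s1_q_img a (.inl (a⁻¹ * x))
      rw [Sum.smul_inl, smul_eq_mul, mul_inv_cancel_left] at h4
      have h6 : H.C ≤ H.C ^ 2 * L := by nlinarith
      calc H.q (.inl x) (.inl a) * c
          ≤ H.q (.inl x) (.inl a) * (H.C * H.q (.inl (a⁻¹ * x)) (.inl a⁻¹)) :=
            mul_le_mul_of_nonneg_left h3 (H.q_nonneg _ _)
        _ = H.C * (H.q (.inl x) (.inl a) * H.q (.inl (a⁻¹ * x)) (.inl a⁻¹)) := by ring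
        _ ≤ H.C * (H.C * H.sc a) := mul_le_mul_of_nonneg_left h4 hC0.le
        _ ≤ H.C * (H.C ^ 2 * L * H.sc a) := by gcongr
        _ = _ := by ring
    · rw [max_eq_left h] at h3
      calc H.q (.inl x) (.inl a) * c ≤ c := mul_le_of_le_one_left hc.le (H.q_le_one _ _)
        _ ≤ H.C * (H.C ^ 2 * (L * H.sc a)) := h3.trans (mul_le_mul_of_nonneg_left h2 hC0.le)
        _ = _ := by ring
  refine ⟨e1.trans (mul_le_mul_of_nonneg_right hMM hs.le), fun η hη => ?_, ?_⟩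
  · have h2 := hf _ (s1v_mem hA (A.inv_mem ha) hη)
    have h4 := H.le_mob a (.inr (a⁻¹ • η)) (.inl (a⁻¹ * x))
    rw [Sum.smul_inr, Sum.smul_inl, smul_inv_smul, smul_eq_mul, mul_inv_cancel_left] at h4
    change H.sc a * _ ≤ _ at h4
    have ht := H.q_nonneg (.inr η) (.inl x)
    have h6 : H.q (.inr η) (.inl x) * H.q (.inr (a⁻¹ • η)) (.inl a⁻¹) *
        H.q (.inl (a⁻¹ * x)) (.inl a⁻¹) ≤ H.q (.inr η) (.inl x) :=
      (mul_le_of_le_one_right (mul_nonneg ht (H.q_nonneg _ _)) (H.q_le_one _ _)).trans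
        (mul_le_of_le_one_right ht (H.q_le_one _ _))
    have h7 : H.C ≤ H.C * M * c := by
      have h8 : H.C ≤ M * c := (le_mul_of_one_le_right hC0.le h5).trans hM2
      rw [mul_assoc]
      exact le_mul_of_one_le_right hC0.le (hC.trans h8)
    refine le_of_mul_le_mul_right ?_ hc
    calc H.sc a * c ≤ _ := mul_le_mul_of_nonneg_left h2 hs.le
      _ ≤ _ := h4
      _ ≤ H.C * H.q (.inr η) (.inl x) := mul_le_mul_of_nonneg_left h6 hC0.le
      _ ≤ H.C * M * c * H.q (.inr η) (.inl x) := mul_le_mul_of_nonneg_right h7 ht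
      _ = _ := by ring
  · obtain ⟨η, hη, hd⟩ := h1 a ha
    refine ⟨η, hη, ?_⟩
    rw [mul_assoc]
    refine H.s1v_ultra _ (.inl a) _ ((H.s1v_q_le hd hsL).trans ?_) (by rwa [H.q_comm])
    rw [← mul_assoc]
    exact mul_le_mul_of_nonneg_right hM1 hs.le

theorem w_bdd (hq : H.QC A C) (hA : ∀ a ∈ A, a • C = C) {c : ℝ} (hc : 0 < c) :
    ∃ K : ℕ, ∀ (x : G), ∀ a ∈ A, ∀ b ∈ A, H.Far C c (a⁻¹ * x) → H.Far C c (b⁻¹ * x) →
      H.len (a⁻¹ * b) ≤ K := by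
  obtain ⟨L, hL, h⟩ := H.w_near hq hA hc
  obtain ⟨K, hK⟩ := H.s1_len_le (H.C * L ^ 3)
  have key : ∀ (x : G), ∀ a ∈ A, ∀ b ∈ A, H.Far C c (a⁻¹ * x) → H.Far C c (b⁻¹ * x) →
      H.q (.inl a) (.inl b) ≤ H.C * L ^ 3 * H.sc a := by
    intro x a ha b hb hfa hfb
    obtain ⟨a1, -, η, hη, a3⟩ := h x a ha hfa
    obtain ⟨b1, b2, -⟩ := h x b hb hfb
    have hs := H.s1_sc_pos a
    have h2 := b2 η hη
    rw [mul_assoc]
    refine H.s1v_ultra _ (.inl x) _ ?_ ?_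
    · rw [H.q_comm]
      exact a1.trans (mul_le_mul_of_nonneg_right (le_self_pow₀ hL (by norm_num)) hs.le)
    · calc _ ≤ L * H.sc b := b1
        _ ≤ L * (L * (L * H.sc a)) := by
          gcongr
          exact h2.trans (by gcongr)
        _ = _ := by ring
  refine ⟨K, fun x a ha b hb hfa hfb => hK a b (key x a ha b hb hfa hfb) ?_⟩
  rw [H.q_comm]
  exact key x b hb a ha hfb hfa

theorem w_step {c : ℝ} (hc : 0 < c) : ∃ c' > 0, ∀ y s : G, H.len s ≤ 1 → H.Far C c y →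
    H.Far C c' (y * s) := by
  have hC := H.hC
  have ha := H.ha
  refine ⟨c / (H.C * (H.a * H.C)), by positivity, fun y s hs hf η hη => ?_⟩
  rw [div_le_iff₀' (by positivity), mul_assoc]
  have ht := H.q_nonneg (.inr η) (.inl (y * s))
  refine (hf η hη).trans (H.s1v_ultra _ (.inl (y * s)) _
    (le_mul_of_one_le_left ht (one_le_mul_of_one_le_of_one_le ha.le hC)) ?_)
  have h1 := H.s1_q_mul (y * s) s⁻¹
  rw [mul_inv_cancel_right, H.len_inv] at h1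
  have h2 : H.a ^ (H.len s : ℝ) ≤ H.a := by
    have h3 := Real.rpow_le_rpow_of_exponent_le ha.le (show (H.len s : ℝ) ≤ 1 by exact_mod_cast hs)
    rwa [Real.rpow_one] at h3
  rw [mul_assoc]
  exact h1.trans (mul_le_mul h2 (H.s1_sc_le_q _ _) (H.s1_sc_pos _).le (by linarith))

theorem s1v_lip : LipschitzWith 2 fun t : ℝ => max 0 (min 1 (2 * t - 1)) := by
  refine LipschitzWith.const_max (LipschitzWith.const_min ?_ 1) 0
  refine LipschitzWith.of_dist_le_mul fun x y => ?_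
  rw [Real.dist_eq, Real.dist_eq, show 2 * x - 1 - (2 * y - 1) = 2 * (x - y) by ring, abs_mul]
  norm_num

theorem w_psi (x : Z) {c₀ : ℝ} (hc : 0 < c₀) : ∃ c₁ > 0, c₁ ≤ c₀ ∧ ∃ ψ : G → ℝ, FinEn ⊤ ψ ∧
    H.Osc ⊤ univ ψ ∧ (∀ y, 0 ≤ ψ y ∧ ψ y ≤ 1) ∧ (∀ y, H.Far {η | H.Rel2 x η} c₀ y → ψ y = 1) ∧
    ∀ y, ¬ H.Far {η | H.Rel2 x η} c₁ y → ψ y = 0 := by
  have hC := H.hC
  have hC0 : 0 < H.C := by linarith
  have hc2 : 0 < c₀ / H.C ^ 2 := by positivity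
  obtain ⟨f, u, hf, hb, h0, h2⟩ := H.exists_bump x hc2
  obtain ⟨δ, hδ, hd⟩ := hb (1 / 2) (by norm_num)
  have hfin : {y | (fun y => if H.Far {η | H.Rel2 x η} c₀ y then 1
      else max 0 (min 1 (2 * f y - 1))) y ≠ (fun y => max 0 (min 1 (2 * f y - 1))) y}.Finite := by
    refine (H.s1_fin_sc (lt_min (div_pos hδ hC0) hc2)).subset fun y hy => ?_
    by_contra hn
    have hn' : H.sc y < min (δ / H.C) (c₀ / H.C ^ 2) := not_le.1 hn
    refine hy ?_
    dsimp only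
    split_ifs with hfar
    · have h3 : H.q (.inr (H.loc y)) (.inl y) < δ :=
        (H.q_loc y).trans_lt ((lt_div_iff₀' hC0).1 (hn'.trans_le (min_le_left _ _)))
      have h4 := hd _ (mem_univ _) y trivial h3
      have h5 : 2 ≤ u (H.loc y) := by
        refine h2 _ fun η hη => ?_
        have h6 := (hfar η hη).trans (H.s1_q_le_loc η y)
        rw [← div_le_iff₀' (by positivity), le_max_iff] at h6
        rw [dist_comm]
        exact h6.resolve_right (not_le.2 (hn'.trans_le (min_le_right _ _)))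
      have h6 := (abs_lt.1 h4).1
      rw [min_eq_left (by linarith), max_eq_right zero_le_one]
    · rfl
  refine ⟨min c₀ δ, lt_min hc hδ, min_le_left _ _, fun y => if H.Far {η | H.Rel2 x η} c₀ y then 1
    else max 0 (min 1 (2 * f y - 1)), (hf.lip s1v_lip).congr_fin hfin,
    (hb.lip s1v_lip).osc.congr_fin hfin, fun y => ?_, fun y hy => if_pos hy, fun y hy => ?_⟩
  · dsimp only
    split_ifs
    · exact ⟨zero_le_one, le_rfl⟩
    · exact ⟨le_max_left _ _, max_le zero_le_one (min_le_left _ _)⟩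
  · unfold Far at hy
    push Not at hy
    obtain ⟨η, hη, h3⟩ := hy
    have h4 := hd η (mem_univ _) y trivial (h3.trans_le (min_le_right _ _))
    rw [h0 η hη, sub_zero] at h4
    have h5 := (abs_lt.1 h4).2
    dsimp only
    rw [if_neg fun hh => (not_le.2 (h3.trans_le (min_le_left _ _))) (hh η hη)]
    exact max_eq_left ((min_le_right _ _).trans (by linarith))

end HB

end KKC
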