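import Pool.Agent.Lib.MP_e1e491_gt.S1V

/-! The extension and its energy. -/

namespace KKC

namespace HB

open Set
open scoped Pointwise Classical

set_option linter.unusedSectionVars false

variable {G Z : Type} [Group G] [MetricSpace Z] [CompactSpace Z] [MulAction G Z] (H : HB G Z)
  {A : Subgroup G} {C : Set Z} {K : ℕ} {w ψ F Λ : G → ℝ} {c₀ c₁ c₂ : ℝ}

/-- `F x` is the least of the numbers `w a + (1 - ψ (a⁻¹ x)) Λ a`. -/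
structure Ext (A : Subgroup G) (C : Set Z) (w ψ F Λ : G → ℝ) (c₁ c₂ : ℝ) : Prop where
  nonneg : ∀ a, 0 ≤ Λ a
  sum : Summable fun a : A => Λ a ^ 2
  eq : ∀ x, ∃ a ∈ A, H.Far C c₁ (a⁻¹ * x) ∧ F x = w a + (1 - ψ (a⁻¹ * x)) * Λ a
  le : ∀ x, ∀ a ∈ A, H.Far C c₂ (a⁻¹ * x) → F x ≤ w a + (1 - ψ (a⁻¹ * x)) * Λ a
  near : ∀ x, ∀ a ∈ A, H.Far C c₁ (a⁻¹ * x) → |F x - w a| ≤ Λ a

theorem exists_ext (hq : H.QC A C) (hA : ∀ a ∈ A, a • C = C) (hw : FinEn A w) (h2 : 0 < c₂)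
    (h21 : c₂ ≤ c₁) (h10 : c₁ ≤ c₀) (hcov : ∀ x : G, ∃ a ∈ A, H.Far C c₀ (a⁻¹ * x))
    (hψ : ∀ y, 0 ≤ ψ y ∧ ψ y ≤ 1) (hψ1 : ∀ y, H.Far C c₀ y → ψ y = 1)
    (hψ0 : ∀ y, ¬ H.Far C c₁ y → ψ y = 0) : ∃ F Λ, H.Ext A C w ψ F Λ c₁ c₂ := by
  obtain ⟨K₂, hK⟩ := H.w_bdd hq hA h2
  set Λ : G → ℝ := fun a => √(H.gr A K₂ w a) with hΛ
  have hΛ0 : ∀ a, 0 ≤ Λ a := fun a => Real.sqrt_nonneg _
  have hmono : ∀ {c c' : ℝ} {y : G}, c ≤ c' → H.Far C c' y → H.Far C c y :=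
    fun h hy η hη => h.trans (hy η hη)
  have hb : ∀ x, ∀ a ∈ A, ∀ b ∈ A, H.Far C c₂ (a⁻¹ * x) → H.Far C c₂ (b⁻¹ * x) →
      |w b - w a| ≤ Λ a := by
    intro x a ha b hb h1 h1'
    have := H.le_gr (f := w) (A.mul_mem (A.inv_mem ha) hb) (hK x a ha b hb h1 h1') a
    rw [mul_inv_cancel_left] at this
    exact Real.abs_le_sqrt this
  have hmin : ∀ x, ∃ m ∈ {a | a ∈ A ∧ H.Far C c₂ (a⁻¹ * x)},
      ∀ a ∈ {a | a ∈ A ∧ H.Far C c₂ (a⁻¹ * x)},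
        w m + (1 - ψ (m⁻¹ * x)) * Λ m ≤ w a + (1 - ψ (a⁻¹ * x)) * Λ a := by
    intro x
    obtain ⟨a₀, ha₀, hf⟩ := hcov x
    have hf' := hmono (h21.trans h10) hf
    refine exists_min_image _ _ (((H.fin K₂).image fun s => a₀ * s).subset ?_) ⟨a₀, ha₀, hf'⟩
    rintro b ⟨hb, hb'⟩
    exact ⟨a₀⁻¹ * b, hK x a₀ ha₀ b hb hf' hb', mul_inv_cancel_left _ _⟩
  choose m hm hm' using hmin
  refine ⟨fun x => w (m x) + (1 - ψ ((m x)⁻¹ * x)) * Λ (m x), Λ, hΛ0, ?_, fun x => ?_,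
    fun x a ha h => hm' x a ⟨ha, h⟩, fun x a ha h => ?_⟩
  · refine (H.summable_gr.2 fun s hs (_ : H.len s ≤ K₂) => hw s hs).congr fun a => ?_
    exact (Real.sq_sqrt (H.gr_nonneg _)).symm
  · by_cases h : H.Far C c₁ ((m x)⁻¹ * x)
    · exact ⟨m x, (hm x).1, h, rfl⟩
    · obtain ⟨a₀, ha₀, hf⟩ := hcov x
      have hf' := hmono (h21.trans h10) hf
      refine ⟨a₀, ha₀, hmono h10 hf, le_antisymm (hm' x a₀ ⟨ha₀, hf'⟩) ?_⟩
      have := (abs_le.1 (hb x _ (hm x).1 _ ha₀ (hm x).2 hf')).2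
      rw [hψ0 _ h, hψ1 _ hf]
      linarith
  · have h1 := hm' x a ⟨ha, hmono h21 h⟩
    have h3 := (abs_le.1 (hb x _ ha _ (hm x).1 (hmono h21 h) (hm x).2)).1
    have h4 := mul_nonneg (sub_nonneg.2 (hψ ((m x)⁻¹ * x)).2) (hΛ0 (m x))
    have h5 := mul_nonneg (hψ (a⁻¹ * x)).1 (hΛ0 a)
    rw [abs_le]
    constructor <;> linarith

variable {H}

theorem s1w_sum (hΛ : Summable fun a : A => Λ a ^ 2) (hψ : FinEn ⊤ ψ) (s : G) (b : G → G)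
    (hb : ∀ x, b x ∈ A) : Summable fun x : (⊤ : Subgroup G) =>
      Λ (b x) ^ 2 * (ψ ((b x)⁻¹ * x * s) - ψ ((b x)⁻¹ * x)) ^ 2 := by
  have h1 := hΛ.mul_of_nonneg (hψ s trivial) (fun _ => sq_nonneg _) fun _ => sq_nonneg _
  refine h1.comp_injective
    (i := fun x : (⊤ : Subgroup G) => ((⟨b x, hb x⟩ : A), (⟨(b x)⁻¹ * x, trivial⟩ : (⊤ : Subgroup G))))
    fun x y h => ?_
  have e1 : b x = b y := congrArg (fun p => (p.1 : G)) h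
  have e2 : (b x)⁻¹ * x = (b y)⁻¹ * y := congrArg (fun p => (p.2 : G)) h
  rw [e1] at e2
  exact Subtype.ext (mul_left_cancel e2)

theorem Ext.finEn (h : H.Ext A C w ψ F Λ c₁ c₂) (hψ : FinEn ⊤ ψ)
    (hs : ∀ y s : G, H.len s ≤ 1 → H.Far C c₁ y → H.Far C c₂ (y * s)) : FinEn ⊤ F := by
  choose a ha hf he using h.eq
  refine H.finEn_of_pg H.pg_top fun s _ hs1 => ?_
  refine Summable.of_nonneg_of_le (fun _ => sq_nonneg _) (fun x => ?_)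
    ((s1w_sum h.sum hψ s a ha).add (s1w_sum h.sum hψ s (fun x => a (x * s)) fun x => ha _))
  have h1 := h.le (x * s) _ (ha x) (by rw [← mul_assoc]; exact hs _ s hs1 (hf x))
  have h2 := h.le x _ (ha (x * s)) (by
    have := hs _ s⁻¹ (by rwa [H.len_inv]) (hf (x * s))
    rwa [← mul_assoc, mul_inv_cancel_right] at this)
  have h3 := he x
  have h4 := he (x * s)
  rw [← mul_assoc] at h1 h4
  simp only [← mul_pow]
  rcases le_total (F x) (F (x * s)) with h5 | h5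
  · refine le_add_of_le_of_nonneg (sq_le_sq' ?_ ?_ |>.trans (sq_abs _).le) (sq_nonneg _)
    · exact (neg_nonpos.2 (abs_nonneg _)).trans (sub_nonneg.2 h5)
    · refine le_trans ?_ (neg_le_abs _)
      linarith
  · refine le_add_of_nonneg_of_le (sq_nonneg _) (sq_le_sq' ?_ ?_ |>.trans (sq_abs _).le)
    · refine le_trans (neg_le_neg (le_abs_self _)) ?_
      linarith
    · exact (sub_nonpos.2 h5).trans (abs_nonneg _)

end HB

end KKC
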