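import Pool.Agent.Lib.MP_e1e491_gt.S1W
import Pool.Agent.Lib.MP_e1e491_gt.S1S

/-! Boundary values of the extension. -/

namespace KKC

namespace HB

open Set
open scoped Pointwise Classical

set_option linter.unusedSectionVars false

variable {G Z : Type} [Group G] [MetricSpace Z] [CompactSpace Z] [MulAction G Z] (H : HB G Z)
  {A : Subgroup G} {C : Set Z} {K : ℕ} {w ψ F Λ : G → ℝ} {u : Z → ℝ} {c₁ c₂ : ℝ}

variable {H}

theorem s1x_small (h : H.Ext A C w ψ F Λ c₁ c₂) {ε : ℝ} (hε : 0 < ε) :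
    ∃ m > 0, ∀ a ∈ A, H.sc a < m → Λ a < ε := by
  have h1 : {a : A | ¬ Λ a ^ 2 < ε ^ 2}.Finite :=
    Filter.eventually_cofinite.1 (h.sum.tendsto_cofinite_zero.eventually_lt_const (by positivity))
  obtain ⟨m, hm, h2⟩ : ∃ m > 0, ∀ a ∈ {a : A | ¬ Λ a ^ 2 < ε ^ 2}, m ≤ H.sc a := by
    rcases Set.eq_empty_or_nonempty {a : A | ¬ Λ a ^ 2 < ε ^ 2} with e | e
    · exact ⟨1, one_pos, fun a ha => absurd (e ▸ ha) (notMem_empty a)⟩
    · obtain ⟨b, -, hb⟩ := Set.exists_min_image _ (fun a : A => H.sc a) h1 e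
      exact ⟨_, H.s1_sc_pos b, hb⟩
  refine ⟨m, hm, fun a ha h3 => ?_⟩
  by_contra h4
  exact h3.not_ge (h2 ⟨a, ha⟩ fun h5 => h4 (lt_of_pow_lt_pow_left₀ 2 hε.le h5))

theorem s1x_lt {x y z : G ⊕ Z} {t : ℝ} (h1 : H.q x y < t) (h2 : H.q y z < t) :
    H.q x z < H.C * t :=
  (H.ultra x y z).trans_lt (mul_lt_mul_of_pos_left (max_lt h1 h2) (zero_lt_one.trans_le H.hC))

theorem s1x_le {x y z : G ⊕ Z} {t : ℝ} (h1 : t ≤ H.q x z) (h2 : H.C * H.q y z < t) :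
    t ≤ H.C * H.q x y := by
  have h3 := h1.trans (H.ultra x y z)
  rcases max_choice (H.q x y) (H.q y z) with e | e
  · rwa [e] at h3
  · rw [e] at h3
    exact absurd h3 h2.not_ge

theorem Ext.bdv (h : H.Ext A C w ψ F Λ c₁ c₂) (hq : H.QC A C) (hA : ∀ a ∈ A, a • C = C)
    (h1 : 0 < c₁) (hu : H.Bdv A C w u) : H.Bdv ⊤ C F u := by
  intro ε hε
  obtain ⟨L, hL, hn⟩ := H.w_near hq hA h1
  obtain ⟨δ, hδ, hw⟩ := hu (ε / 2) (by positivity)
  obtain ⟨m, hm, hs⟩ := s1x_small h (show 0 < ε / 2 by positivity)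
  have hC : 0 < H.C := zero_lt_one.trans_le H.hC
  have hL0 : 0 < L := zero_lt_one.trans_le hL
  refine ⟨min (m / L) (δ / (H.C * (L * L))), by positivity, fun ξ hξ x _ hx => ?_⟩
  obtain ⟨a, ha, hf, -⟩ := h.eq x
  obtain ⟨n1, n2, -⟩ := hn x a ha hf
  rw [lt_min_iff, lt_div_iff₀ hL0, lt_div_iff₀ (by positivity)] at hx
  have h2 := n2 ξ hξ
  have h3 := H.q_nonneg (.inr ξ) (.inl x)
  have h4 : H.q (.inr ξ) (.inl a) < δ := by
    refine (H.ultra _ (.inl x) _).trans_lt (lt_of_le_of_lt ?_ hx.2)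
    rw [mul_comm (H.q _ _), mul_assoc]
    refine mul_le_mul_of_nonneg_left (max_le ?_ (n1.trans ?_)) hC.le
    · exact le_mul_of_one_le_left h3 (one_le_mul_of_one_le_of_one_le hL hL)
    · rw [mul_assoc]
      exact mul_le_mul_of_nonneg_left h2 hL0.le
  have h5 := hw ξ hξ a ha h4
  have h6 := (h.near x a ha hf).trans_lt (hs a ha (by linarith [hx.1]))
  have h7 := abs_sub_le (F x) (w a) (u ξ)
  linarith

theorem Ext.osc (h : H.Ext A C w ψ F Λ c₁ c₂) (hq : H.QC A C) (hA : ∀ a ∈ A, a • C = C)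
    (h1 : 0 < c₁) (h2 : H.C * c₂ ≤ c₁) (hu : H.Bdv A C w u) (hψ : H.Osc ⊤ univ ψ) :
    H.Osc ⊤ univ F := by
  intro ε hε
  obtain ⟨L, hL, hn⟩ := H.w_near hq hA h1
  obtain ⟨δ₁, hδ₁, hb⟩ := h.bdv hq hA h1 hu (ε / 2) (by positivity)
  have hC : 0 < H.C := zero_lt_one.trans_le H.hC
  have hL0 : 0 < L := zero_lt_one.trans_le hL
  obtain ⟨B, hB0, hB⟩ : ∃ B > 0, ∀ a ∈ A, Λ a ≤ B := by
    have h3 : 0 ≤ ∑' a : A, Λ a ^ 2 := tsum_nonneg fun a => sq_nonneg _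
    refine ⟨∑' a : A, Λ a ^ 2 + 1, by positivity, fun a ha => ?_⟩
    have h4 : Λ a ^ 2 ≤ ∑' a : A, Λ a ^ 2 := h.sum.le_tsum ⟨a, ha⟩ fun _ _ => sq_nonneg _
    nlinarith [sq_nonneg (Λ a - 1 / 2)]
  obtain ⟨δ₂, hδ₂, ho⟩ := hψ (ε / B) (by positivity)
  obtain ⟨ρ, hρ⟩ : ∃ ρ, ρ = δ₁ / H.C := ⟨_, rfl⟩
  have hρ0 : 0 < ρ := by rw [hρ]; positivity
  have hρ1 : H.C * ρ = δ₁ := by rw [hρ]; field_simp
  obtain ⟨M, hM⟩ : ∃ M, M = H.C ^ 3 * (H.C * L / ρ) := ⟨_, rfl⟩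
  have hM0 : 0 < M := by rw [hM]; positivity
  obtain ⟨δ, hδ, d1, d2, d3⟩ : ∃ δ > 0, H.C * δ ≤ ρ ∧ H.C * (M * (H.C * δ)) ≤ c₁ ∧ M * δ ≤ δ₂ := by
    refine ⟨min (ρ / H.C) (min (c₁ / (H.C * M * H.C)) (δ₂ / M)), by positivity, ?_, ?_, ?_⟩
    · rw [mul_comm, ← le_div_iff₀ hC]
      exact min_le_left _ _
    · rw [← mul_assoc, ← mul_assoc, mul_comm, ← le_div_iff₀ (by positivity)]
      exact (min_le_right _ _).trans (min_le_left _ _)
    · rw [mul_comm, ← le_div_iff₀ hM0]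
      exact (min_le_right _ _).trans (min_le_right _ _)
  refine ⟨δ, hδ, fun ξ _ x _ y _ hx hy => ?_⟩
  by_cases hc : ∃ η ∈ C, H.q (.inr η) (.inr ξ) < ρ
  · obtain ⟨η, hη, h3⟩ := hc
    have h4 : δ ≤ ρ := (le_mul_of_one_le_left hδ.le H.hC).trans d1
    have h5 := hb η hη x trivial (hρ1 ▸ s1x_lt h3 (hx.trans_le h4))
    have h6 := hb η hη y trivial (hρ1 ▸ s1x_lt h3 (hy.trans_le h4))
    have h7 := abs_sub_le (F x) (u η) (F y)
    rw [abs_sub_comm (u η)] at h7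
    linarith
  · push Not at hc
    have key : ∀ x y : G, H.q (.inr ξ) (.inl x) < δ → H.q (.inr ξ) (.inl y) < δ →
        F y - F x ≤ ε := fun x y hx hy => by
      obtain ⟨a, ha, hf, e⟩ := h.eq x
      obtain ⟨-, -, η, hη, h3⟩ := hn x a ha hf
      have h4 : ρ ≤ H.C * H.q (.inr η) (.inl x) := s1x_le (hc η hη) (by
        rw [H.q_comm]
        exact (mul_lt_mul_of_pos_left hx hC).trans_le d1)
      have h5 := H.s1_sc_pos a
      have h6 : H.C ^ 3 / H.sc a ≤ M := by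
        rw [hM, div_eq_mul_one_div]
        refine mul_le_mul_of_nonneg_left ?_ (by positivity)
        rw [div_le_div_iff₀ h5 hρ0, one_mul, mul_assoc]
        exact h4.trans (mul_le_mul_of_nonneg_left h3 hC.le)
      have h7 : ∀ {p p' : G ⊕ Z} {t : ℝ}, H.q p p' < t → H.q (a⁻¹ • p) (a⁻¹ • p') < M * t :=
        fun {p p' t} hp => by
          have h8 := H.s1_q_smul a⁻¹ p p'
          rw [H.s1_sc_inv] at h8
          exact (h8.trans (mul_le_mul_of_nonneg_right h6 (H.q_nonneg _ _))).trans_lt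
            (mul_lt_mul_of_pos_left hp hM0)
      have h8 : H.q (.inl (a⁻¹ * y)) (.inl (a⁻¹ * x)) < M * (H.C * δ) :=
        h7 (s1x_lt (H.q_comm _ _ ▸ hy) hx)
      have h9 : H.Far C c₂ (a⁻¹ * y) := fun ζ hζ => le_of_mul_le_mul_left
        (h2.trans (s1x_le (hf ζ hζ) ((mul_lt_mul_of_pos_left h8 hC).trans_le d2))) hC
      have h10 := ho (a⁻¹ • ξ) trivial (a⁻¹ * x) trivial (a⁻¹ * y) trivial
        ((h7 hx).trans_le d3) ((h7 hy).trans_le d3)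
      have h11 := h.le y a ha h9
      have h12 : (ψ (a⁻¹ * x) - ψ (a⁻¹ * y)) * Λ a ≤ ε / B * B :=
        (mul_le_mul_of_nonneg_right ((le_abs_self _).trans h10) (h.nonneg a)).trans
          (mul_le_mul_of_nonneg_left (hB a ha) (by positivity))
      rw [div_mul_cancel₀ _ hB0.ne'] at h12
      linarith
    exact abs_sub_le_iff.2 ⟨key y x hy hx, key x y hx hy⟩

variable (H)

theorem whitney {x : Z} (hq : H.QC A {η | H.Rel2 x η})
    (hA : ∀ a ∈ A, a • {η | H.Rel2 x η} = {η | H.Rel2 x η}) (hw : FinEn A w)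
    (hu : H.Bdv A {η | H.Rel2 x η} w u) : ∃ U, H.A2 U ∧ ∀ ξ, H.Rel2 x ξ → U ξ = u ξ := by
  obtain ⟨c₀, h0, hcov⟩ := H.w_cover hq hA
  obtain ⟨c₁, h1, h10, ψ, p1, p2, p3, p4, p5⟩ := H.w_psi x h0
  obtain ⟨c', h', hs⟩ := H.w_step (C := {η | H.Rel2 x η}) h1
  have hC : 0 < H.C := zero_lt_one.trans_le H.hC
  have h2 : H.C * min c' (c₁ / H.C) ≤ c₁ :=
    (mul_le_mul_of_nonneg_left (min_le_right _ _) hC.le).trans (mul_div_cancel₀ _ hC.ne').le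
  obtain ⟨F, Λ, hE⟩ := H.exists_ext (c₂ := min c' (c₁ / H.C)) hq hA hw (lt_min h' (div_pos h1 hC))
    ((min_le_right _ _).trans (div_le_self h1.le H.hC)) h10 hcov p3 p4 p5
  obtain ⟨U, hU⟩ := (hE.osc hq hA h1 h2 hu p2).bdv H.s1_qc_top
  exact ⟨U, ⟨F, hE.finEn p1 fun y s h1 h2 η hη => (min_le_left _ _).trans (hs y s h1 h2 η hη), hU⟩,
    hU.unique (hE.bdv hq hA h1 hu)⟩

/-- On the stabiliser of a class all finite energy functions are trivial. -/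
theorem star_of_class {x : Z} (hq : H.QC (MulAction.stabilizer G (H.dec2.cls x)) (H.dec2.cls x))
    (hp : H.Par (MulAction.stabilizer G (H.dec2.cls x)) K) :
    H.Star (MulAction.stabilizer G (H.dec2.cls x)) K := by
  by_contra hS
  obtain ⟨f, u, h1, h2, y, hy, z, hz, h3⟩ := H.straighten hq hp.pg hS
  obtain ⟨U, h4, h5⟩ := H.whitney hq (fun a ha => ha) h1 h2
  exact h3 ((h5 y hy).symm.trans (((hy U h4).symm.trans (hz U h4)).trans (h5 z hz)))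

end HB

end KKC
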