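import Pool.Agent.Lib.MP_e1e491_gt.S3ABasic

set_option autoImplicit false

/-!
Boundaries of chains and summation by parts.
-/

namespace KKC.S3

variable {A : Type} [Group A] {len : A → ℕ} {δ : ℝ} {K : ℕ}

lemma s3aadj_nb (H : HypLen len δ) {P : Set A} (hP : P.Finite) :
    {b | ∃ a ∈ P, Near len K a b}.Finite := by
  refine (hP.biUnion fun a _ => H.finite_near (K := K) a).subset ?_
  rintro b ⟨a, h1, h2⟩
  exact Set.mem_biUnion h1 h2

lemma s3aadj_edge (H : HypLen len δ) {z : A × A → ℝ} (hz : ∀ e, z e ≠ 0 → Near len K e.1 e.2)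
    {φ : A → ℝ} (hφ : (Function.support φ).Finite) :
    (Summable fun e : A × A => z e * φ e.1) ∧
      ∑' e : A × A, z e * φ e.1 = ∑' x, φ x * ∑' y, z (x, y) := by
  have h1 : Summable fun e : A × A => z e * φ e.1 := by
    refine summable_of_hasFiniteSupport ((hφ.prod (s3aadj_nb (K := K) H hφ)).subset ?_)
    intro e he
    have h2 := mul_ne_zero_iff.1 he
    exact ⟨h2.2, e.1, h2.2, hz e h2.1⟩
  refine ⟨h1, h1.tsum_prod.trans (tsum_congr fun x => ?_)⟩
  rw [mul_comm, ← tsum_mul_right]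

lemma s3aadj_tri (H : HypLen len δ) {b : A × A × A → ℝ}
    (hb : ∀ t, b t ≠ 0 → Near len K t.1 t.2.1 ∧ Near len K t.1 t.2.2) {I : A → A → ℝ} (N : ℕ)
    (hI : ∀ a a', Near len K a a' → N < len a → I a a' = 0) :
    (Summable fun t : A × A × A => b t * I t.1 t.2.1) ∧
      (Summable fun e : A × A => (∑' c, b (e.1, e.2, c)) * I e.1 e.2) ∧
      ∑' t : A × A × A, b t * I t.1 t.2.1 = ∑' e : A × A, (∑' c, b (e.1, e.2, c)) * I e.1 e.2 := by
  have h1 : Summable fun t : A × A × A => b t * I t.1 t.2.1 := by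
    have hN := s3aadj_nb (K := K) H (H.fin N)
    refine summable_of_hasFiniteSupport (((H.fin N).prod (hN.prod hN)).subset ?_)
    intro t ht
    have h2 := mul_ne_zero_iff.1 ht
    have h3 := hb t h2.1
    have h4 : len t.1 ≤ N := not_lt.1 fun h => h2.2 (hI _ _ h3.1 h)
    exact ⟨h4, ⟨t.1, h4, h3.1⟩, t.1, h4, h3.2⟩
  have h2 := (Equiv.prodAssoc A A A).summable_iff.2 h1
  have e : ∀ e : A × A, ∑' c, ((fun t : A × A × A => b t * I t.1 t.2.1) ∘
      Equiv.prodAssoc A A A) (e, c) = (∑' c, b (e.1, e.2, c)) * I e.1 e.2 := fun e => by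
    rw [← tsum_mul_right]
    rfl
  refine ⟨h1, h2.prod.congr e, ?_⟩
  rw [← (Equiv.prodAssoc A A A).tsum_eq]
  exact h2.tsum_prod.trans (tsum_congr e)

/-- Moving the last vertex to the front. -/
def s3aadjE2 (A : Type) : A × A × A ≃ A × A × A where
  toFun t := (t.2.2, t.1, t.2.1)
  invFun t := (t.2.1, t.2.2, t.1)
  left_inv _ := rfl
  right_inv _ := rfl

/-- Moving the last vertex to the middle. -/
def s3aadjE3 (A : Type) : A × A × A ≃ A × A × A where
  toFun t := (t.1, t.2.2, t.2.1)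
  invFun t := (t.1, t.2.2, t.2.1)
  left_inv _ := rfl
  right_inv _ := rfl

lemma s3aadj_supp {b : A × A × A → ℝ} (hb : ∀ t, b t ≠ 0 → Tri len K t.1 t.2.1 t.2.2)
    (e : A × A) (he : bd2 b e ≠ 0) : Near len K e.1 e.2 := by
  by_contra h
  have h1 : ∀ c, b (e.1, e.2, c) = 0 := fun c => by_contra fun h' => h (hb _ h').1
  have h2 : ∀ c, b (c, e.1, e.2) = 0 := fun c => by_contra fun h' => h (hb _ h').2.1
  have h3 : ∀ c, b (e.1, c, e.2) = 0 := fun c => by_contra fun h' => h (hb _ h').2.2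
  exact he (by simp [bd2, h1, h2, h3])

lemma s3aadj_sq {N : ℕ} {S : A → Finset A} (h1 : ∀ a, (S a).card ≤ N)
    (h2 : ∀ a b, b ∈ S a ↔ len (a⁻¹ * b) ≤ K) {b : A × A × A → ℝ}
    (hb : ∀ t, b t ≠ 0 → Near len K t.1 t.2.2) (hl : Summable fun t => b t ^ 2) :
    (Summable fun e : A × A => (∑' c, b (e.1, e.2, c)) ^ 2) ∧
      ∑' e : A × A, (∑' c, b (e.1, e.2, c)) ^ 2 ≤ N * ∑' t, b t ^ 2 := by
  have h3 := (Equiv.prodAssoc A A A).summable_iff.2 hl
  have h4 : ∀ e : A × A, (∑' c, b (e.1, e.2, c)) ^ 2 ≤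
      N * ∑' c, ((fun t => b t ^ 2) ∘ Equiv.prodAssoc A A A) (e, c) := fun e => by
    have z : ∀ c ∉ S e.1, b (e.1, e.2, c) = 0 := fun c hc =>
      by_contra fun h' => hc ((h2 _ _).2 (hb _ h'))
    have e1 : ∑' c, ((fun t => b t ^ 2) ∘ Equiv.prodAssoc A A A) (e, c) =
        ∑ c ∈ S e.1, b (e.1, e.2, c) ^ 2 :=
      tsum_eq_sum (f := fun c => b (e.1, e.2, c) ^ 2) fun c hc => by rw [z c hc]; ring
    rw [tsum_eq_sum z, e1]
    refine sq_sum_le_card_mul_sum_sq.trans (mul_le_mul_of_nonneg_right ?_ ?_)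
    · exact_mod_cast h1 _
    · exact Finset.sum_nonneg fun _ _ => sq_nonneg _
  have h5 := h3.prod.mul_left (N : ℝ)
  have h6 := Summable.of_nonneg_of_le (fun e => sq_nonneg _) h4 h5
  refine ⟨h6, (h6.tsum_le_tsum h4 h5).trans (le_of_eq ?_)⟩
  rw [tsum_mul_left, ← h3.tsum_prod]
  exact congrArg _ ((Equiv.prodAssoc A A A).tsum_eq fun t => b t ^ 2)

lemma s3aadj_bound (H : HypLen len δ) (K : ℕ) : ∃ C : ℝ, 0 ≤ C ∧ ∀ b : A × A × A → ℝ,
    Chain2 len K b → (Summable fun e => bd2 b e ^ 2) ∧ ∑' e, bd2 b e ^ 2 ≤ C * ∑' t, b t ^ 2 := by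
  obtain ⟨N, S, h1, h2⟩ := H.exists_ball K
  refine ⟨9 * N, by positivity, fun b hb => ?_⟩
  obtain ⟨a1, b1⟩ := s3aadj_sq h1 h2 (fun t ht => (hb.supp t ht).2.2) hb.l2
  have l2 : ∀ E : A × A × A ≃ A × A × A, Summable fun t => b (E t) ^ 2 := fun E =>
    hb.l2.comp_injective E.injective
  obtain ⟨a2, b2⟩ := s3aadj_sq h1 h2 (b := fun t => b (s3aadjE2 A t))
    (fun t ht => H.near_symm (hb.supp _ ht).1) (l2 _)
  obtain ⟨a3, b3⟩ := s3aadj_sq h1 h2 (b := fun t => b (s3aadjE3 A t))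
    (fun t ht => (hb.supp _ ht).1) (l2 _)
  rw [(s3aadjE2 A).tsum_eq fun t => b t ^ 2] at b2
  rw [(s3aadjE3 A).tsum_eq fun t => b t ^ 2] at b3
  have h3 := ((a1.add a2).add a3).mul_left 3
  have h4 : ∀ e : A × A, bd2 b e ^ 2 ≤ 3 * ((∑' c, b (e.1, e.2, c)) ^ 2 +
      (∑' c, b (s3aadjE2 A (e.1, e.2, c))) ^ 2 + (∑' c, b (s3aadjE3 A (e.1, e.2, c))) ^ 2) :=
    fun e => by
      change (∑' c, b (e.1, e.2, c) + ∑' c, b (s3aadjE2 A (e.1, e.2, c)) -
        ∑' c, b (s3aadjE3 A (e.1, e.2, c))) ^ 2 ≤ _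
      generalize (∑' c, b (e.1, e.2, c)) = u
      generalize (∑' c, b (s3aadjE2 A (e.1, e.2, c))) = v
      generalize (∑' c, b (s3aadjE3 A (e.1, e.2, c))) = w
      nlinarith [sq_nonneg (u - v), sq_nonneg (u + w), sq_nonneg (v + w)]
  have h5 := Summable.of_nonneg_of_le (fun e => sq_nonneg _) h4 h3
  refine ⟨h5, (h5.tsum_le_tsum h4 h3).trans ?_⟩
  rw [tsum_mul_left, (a1.add a2).tsum_add a3, a1.tsum_add a2]
  linarith

/-- Summation by parts on edges (all sums have finite support). -/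
lemma adj1 (H : HypLen len δ) {z : A × A → ℝ} (hz : ∀ e, z e ≠ 0 → Near len K e.1 e.2)
    {φ : A → ℝ} (hφ : (Function.support φ).Finite) :
    ∑' e : A × A, z e * (φ e.2 - φ e.1) = ∑' x, φ x * bd1 z x := by
  obtain ⟨a1, b1⟩ := s3aadj_edge H hz hφ
  obtain ⟨a2, b2⟩ := s3aadj_edge H (z := fun e => z (Equiv.prodComm A A e))
    (fun e he => H.near_symm (hz _ he)) hφ
  have a3 : Summable fun e : A × A => z e * φ e.2 := (Equiv.prodComm A A).summable_iff.1 a2
  have b3 : ∑' e : A × A, z e * φ e.2 = ∑' x, φ x * ∑' y, z (y, x) :=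
    ((Equiv.prodComm A A).tsum_eq fun e => z e * φ e.2).symm.trans b2
  have hs : ∀ u : A → ℝ, Summable fun x => φ x * u x := fun u =>
    summable_of_hasFiniteSupport (hφ.subset fun x hx => (mul_ne_zero_iff.1 hx).1)
  simp only [bd1, mul_sub]
  rw [a3.tsum_sub a1, (hs _).tsum_sub (hs _), b1, b3]

/-- Summation by parts on triangles, for a cochain that vanishes on deep edges (all sums have
finite support). -/
lemma adj2 (H : HypLen len δ) {b : A × A × A → ℝ}
    (hb : ∀ t, b t ≠ 0 → Tri len K t.1 t.2.1 t.2.2) {I : A → A → ℝ} (N : ℕ)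
    (hI : ∀ a a', Near len K a a' → N < len a → I a a' = 0) :
    ∑' t : A × A × A, b t * cob I t.1 t.2.1 t.2.2 = ∑' e : A × A, bd2 b e * I e.1 e.2 := by
  obtain ⟨a1, c1, b1⟩ := s3aadj_tri H (fun t ht => ⟨(hb t ht).1, (hb t ht).2.2⟩) N hI
  obtain ⟨a2, c2, b2⟩ := s3aadj_tri H (b := fun t => b (s3aadjE2 A t))
    (fun t ht => ⟨(hb _ ht).2.1, H.near_symm (hb _ ht).1⟩) N hI
  obtain ⟨a3, c3, b3⟩ := s3aadj_tri H (b := fun t => b (s3aadjE3 A t))
    (fun t ht => ⟨(hb _ ht).2.2, (hb _ ht).1⟩) N hI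
  have a2' : Summable fun t : A × A × A => b t * I t.2.1 t.2.2 := (s3aadjE2 A).summable_iff.1 a2
  have a3' : Summable fun t : A × A × A => b t * I t.1 t.2.2 := (s3aadjE3 A).summable_iff.1 a3
  have b2' := ((s3aadjE2 A).tsum_eq fun t => b t * I t.2.1 t.2.2).symm.trans b2
  have b3' := ((s3aadjE3 A).tsum_eq fun t => b t * I t.1 t.2.2).symm.trans b3
  simp only [cob, mul_sub, mul_add]
  rw [(a1.add a2').tsum_sub a3', a1.tsum_add a2', b1, b2', b3', ← c1.tsum_add c2,
    ← (c1.add c2).tsum_sub c3]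
  refine tsum_congr fun e => ?_
  rw [← add_mul, ← sub_mul]
  rfl

/-- The support of `bd2 b` consists of edges; square summability by `schur_sq`. -/
lemma Chain2.bd2 (H : HypLen len δ) {b : A × A × A → ℝ} (hb : Chain2 len K b) :
    Chain1 len K (bd2 b) := by
  obtain ⟨C, -, h⟩ := s3aadj_bound H K
  exact ⟨s3aadj_supp hb.supp, (h b hb).1⟩

/-- A norm bound for the boundary, uniform in the chain. -/
lemma exists_bd2_bound (H : HypLen len δ) (K : ℕ) : ∃ C : ℝ, 0 ≤ C ∧ ∀ b : A × A × A → ℝ,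
    Chain2 len K b → ∑' e, bd2 b e ^ 2 ≤ C * ∑' t, b t ^ 2 := by
  obtain ⟨C, hC, h⟩ := s3aadj_bound H K
  exact ⟨C, hC, fun b hb => (h b hb).2⟩

/-- Apply `adj2` and `adj1` to the indicator function of `x`; the coboundary of a gradient
vanishes. -/
lemma bd1_bd2 (H : HypLen len δ) {b : A × A × A → ℝ}
    (hb : ∀ t, b t ≠ 0 → Tri len K t.1 t.2.1 t.2.2) (x : A) : bd1 (bd2 b) x = 0 := by
  classical
  set φ : A → ℝ := fun y => if y = x then 1 else 0 with hφ
  have h1 : (Function.support φ).Finite := (Set.finite_singleton x).subset fun y hy => by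
    by_contra h
    exact hy (if_neg h)
  have h2 := adj2 H hb (I := fun a a' => φ a' - φ a) (len x + K) fun a a' h h' => by
    have h3 := H.near_len (H.near_symm h)
    have h4 : a ≠ x := by rintro rfl; omega
    have h5 : a' ≠ x := by rintro rfl; omega
    simp only [hφ, if_neg h4, if_neg h5, sub_self]
  rw [adj1 H (s3aadj_supp hb) h1, tsum_eq_single x fun y hy => by simp [hφ, hy]] at h2
  simpa [cob, hφ] using h2.symm

/-- `⟨d f, z⟩ = ⟨d (f - φ), z⟩` by `adj1`, then Cauchy-Schwarz. -/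
theorem Star.starW (H : HypLen len δ) (h : Star len K) : StarW len K := by
  intro f hf z hz h0
  have key : ∀ ε > (0 : ℝ), (∑' e, dK len K f e * z e) ^ 2 ≤ ε * ∑' e, z e ^ 2 := by
    intro ε hε
    obtain ⟨φ, h1, h2⟩ := h f hf ε hε
    have hN := s3aadj_nb (K := K) H h1
    have s1 : Summable fun e => (-dK len K φ e) ^ 2 := by
      refine summable_of_hasFiniteSupport ((hN.prod hN).subset fun e he => ?_)
      have h3 : dK len K φ e ≠ 0 := fun h' => he (by simp [h'])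
      have h4 : Near len K e.1 e.2 := by_contra fun h' => h3 (if_neg h')
      rw [dK, if_pos h4] at h3
      by_cases h5 : φ e.1 = 0
      · have h6 : φ e.2 ≠ 0 := fun h' => h3 (by rw [h5, h', sub_self])
        exact ⟨⟨e.2, h6, H.near_symm h4⟩, e.2, h6, H.near_refl _⟩
      · exact ⟨⟨e.1, h5, H.near_refl _⟩, e.1, h5, h4⟩
    have e1 : ∀ e, dK len K f e + -dK len K φ e = dK len K (f - φ) e := fun e => by
      simp only [dK, Pi.sub_apply]
      split_ifs <;> ring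
    have s2 : Summable fun e => dK len K (f - φ) e ^ 2 :=
      (summable_add_sq hf s1).congr fun e => by rw [e1]
    have e2 : ∑' e, -dK len K φ e * z e = 0 := by
      have h3 := adj1 H hz.supp h1
      simp only [h0, mul_zero, tsum_zero] at h3
      simp only [neg_mul]
      rw [tsum_neg, neg_eq_zero, ← h3]
      refine tsum_congr fun e => ?_
      by_cases h4 : z e = 0
      · rw [h4, mul_zero, zero_mul]
      · rw [dK, if_pos (hz.supp e h4), mul_comm]
    have e3 : ∑' e, dK len K f e * z e = ∑' e, dK len K (f - φ) e * z e := by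
      simp only [← e1, add_mul]
      rw [(summable_mul_of_sq hf hz.l2).tsum_add (summable_mul_of_sq s1 hz.l2), e2, add_zero]
    rw [e3]
    exact (tsum_mul_sq_le s2 hz.l2).trans
      (mul_le_mul_of_nonneg_right h2.le (tsum_nonneg fun _ => sq_nonneg _))
  have hM : 0 ≤ ∑' e, z e ^ 2 := tsum_nonneg fun _ => sq_nonneg _
  refine pow_eq_zero_iff two_ne_zero |>.1 (le_antisymm (le_of_forall_pos_le_add fun ε hε => ?_)
    (sq_nonneg _))
  refine (key (ε / (∑' e, z e ^ 2 + 1)) (by positivity)).trans ?_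
  rw [zero_add, div_mul_eq_mul_div, div_le_iff₀ (by positivity)]
  nlinarith

end KKC.S3
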