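import Pool.Agent.Lib.MP_e1e491_gt.S3ADefs

set_option autoImplicit false

/-!
Elementary facts on the length function, boundaries and adjoints.
-/

namespace KKC.S3

variable {A : Type} [Group A] {len : A → ℕ} {δ : ℝ} {K : ℕ}

lemma HypLen.delta_nonneg (H : HypLen len δ) : 0 ≤ δ := by
  have := H.hyp 1 1 1
  rw [min_self] at this
  linarith

lemma HypLen.len_inv_mul (H : HypLen len δ) (x y : A) : len (x⁻¹ * y) = len (y⁻¹ * x) := by
  rw [← H.inv, mul_inv_rev, inv_inv]

lemma HypLen.gp_comm (H : HypLen len δ) (x y : A) : gp len x y = gp len y x := by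
  rw [gp, gp, H.len_inv_mul x y, add_comm]

lemma HypLen.gp_nonneg (H : HypLen len δ) (x y : A) : 0 ≤ gp len x y := by
  have h := H.mul x⁻¹ y
  rw [H.inv] at h
  have h' : (len (x⁻¹ * y) : ℝ) ≤ len x + len y := by exact_mod_cast h
  rw [gp]; linarith

lemma HypLen.len_le (H : HypLen len δ) (x y : A) : len y ≤ len x + len (x⁻¹ * y) := by
  have h := H.mul x (x⁻¹ * y)
  rwa [mul_inv_cancel_left] at h

lemma HypLen.gp_le_left (H : HypLen len δ) (x y : A) : gp len x y ≤ len x := by
  have h' : (len y : ℝ) ≤ len x + len (x⁻¹ * y) := by exact_mod_cast H.len_le x y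
  rw [gp]; linarith

lemma HypLen.sub_le_gp (H : HypLen len δ) (x y : A) :
    (len x : ℝ) - len (x⁻¹ * y) ≤ gp len x y := by
  have h := H.len_le y x
  rw [H.len_inv_mul y x] at h
  have h' : (len x : ℝ) ≤ len y + len (x⁻¹ * y) := by exact_mod_cast h
  rw [gp]; linarith

lemma HypLen.dist_tri (H : HypLen len δ) (x y z : A) :
    len (x⁻¹ * z) ≤ len (x⁻¹ * y) + len (y⁻¹ * z) := by
  have h := H.mul (x⁻¹ * y) (y⁻¹ * z)
  rwa [mul_assoc, mul_inv_cancel_left] at h

lemma HypLen.near_symm (H : HypLen len δ) {a b : A} (h : Near len K a b) : Near len K b a := by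
  rw [Near, H.len_inv_mul]; exact h

lemma HypLen.near_refl (H : HypLen len δ) (a : A) : Near len K a a := by
  rw [Near, inv_mul_cancel, H.one]; exact Nat.zero_le _

lemma HypLen.near_len (H : HypLen len δ) {a b : A} (h : Near len K a b) : len b ≤ len a + K :=
  (H.len_le a b).trans (Nat.add_le_add_left h _)

/-- Balls of radius `n` have a uniformly bounded number of elements (translate the ball about
the identity). -/
lemma HypLen.exists_ball (H : HypLen len δ) (n : ℕ) : ∃ (N : ℕ) (S : A → Finset A),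
    (∀ a, (S a).card ≤ N) ∧ ∀ a b, b ∈ S a ↔ len (a⁻¹ * b) ≤ n := by
  classical
  refine ⟨(H.fin n).toFinset.card, fun a => (H.fin n).toFinset.image (fun g => a * g),
    fun a => Finset.card_image_le, fun a b => ?_⟩
  simp only [Finset.mem_image, Set.Finite.mem_toFinset, Set.mem_ofPred_eq]
  constructor
  · rintro ⟨g, hg, rfl⟩
    rwa [inv_mul_cancel_left]
  · intro h
    exact ⟨a⁻¹ * b, h, mul_inv_cancel_left a b⟩

lemma HypLen.finite_near (H : HypLen len δ) (a : A) : {b | Near len K a b}.Finite := by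
  obtain ⟨N, S, -, hS⟩ := H.exists_ball K
  refine (S a).finite_toSet.subset fun b hb => ?_
  exact Finset.mem_coe.2 ((hS a b).2 hb)

/-- The product of two square summable functions is summable (`2 |u v| ≤ u² + v²`). -/
lemma summable_mul_of_sq {ι : Type} {u v : ι → ℝ} (hu : Summable fun i => u i ^ 2)
    (hv : Summable fun i => v i ^ 2) : Summable fun i => u i * v i := by
  refine Summable.of_norm_bounded (hu.add hv) fun i => ?_
  rw [Real.norm_eq_abs, abs_le]
  constructor <;> nlinarith [sq_nonneg (u i + v i), sq_nonneg (u i - v i), sq_nonneg (u i),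
    sq_nonneg (v i)]

/-- Cauchy-Schwarz. -/
lemma tsum_mul_sq_le {ι : Type} {u v : ι → ℝ} (hu : Summable fun i => u i ^ 2)
    (hv : Summable fun i => v i ^ 2) :
    (∑' i, u i * v i) ^ 2 ≤ (∑' i, u i ^ 2) * ∑' i, v i ^ 2 := by
  have h1 := (summable_mul_of_sq hu hv).hasSum
  have h2 : Filter.Tendsto (fun s : Finset ι => (∑ i ∈ s, u i * v i) ^ 2) Filter.atTop
      (nhds ((∑' i, u i * v i) ^ 2)) := Filter.Tendsto.pow h1 2
  refine le_of_tendsto' h2 fun s => ?_
  refine (Finset.sum_mul_sq_le_sq_mul_sq s u v).trans ?_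
  refine mul_le_mul (hu.sum_le_tsum s fun i _ => sq_nonneg _)
    (hv.sum_le_tsum s fun i _ => sq_nonneg _) (Finset.sum_nonneg fun i _ => sq_nonneg _)
    (tsum_nonneg fun i => sq_nonneg _)

lemma summable_add_sq {ι : Type} {u v : ι → ℝ} (hu : Summable fun i => u i ^ 2)
    (hv : Summable fun i => v i ^ 2) : Summable fun i => (u i + v i) ^ 2 := by
  have h := (hu.add ((summable_mul_of_sq hu hv).mul_left 2)).add hv
  refine h.congr fun i => ?_
  ring

/-- Swapping a local double sum: every `j` occurs at most `N` times. -/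
lemma s3abasic_swap {ι κ : Type} (S : ι → Finset κ) (N : ℕ)
    (h2 : ∀ j, ∃ T : Finset ι, T.card ≤ N ∧ ∀ i, j ∈ S i → i ∈ T) {g : κ → ℝ}
    (hg0 : ∀ j, 0 ≤ g j) (hg : Summable g) : Summable fun i => ∑ j ∈ S i, g j := by
  classical
  refine summable_of_sum_le (c := N * ∑' j, g j)
    (fun i => Finset.sum_nonneg fun j _ => hg0 j) fun s => ?_
  have e1 : ∑ i ∈ s, ∑ j ∈ S i, g j =
      ∑ j ∈ s.biUnion S, ∑ i ∈ s.filter (fun i => j ∈ S i), g j := by
    refine Finset.sum_comm' fun i j => ?_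
    simp only [Finset.mem_biUnion, Finset.mem_filter]
    constructor
    · rintro ⟨hi, hj⟩
      exact ⟨⟨hi, hj⟩, i, hi, hj⟩
    · rintro ⟨⟨hi, hj⟩, -⟩
      exact ⟨hi, hj⟩
  rw [e1]
  calc ∑ j ∈ s.biUnion S, ∑ i ∈ s.filter (fun i => j ∈ S i), g j
      ≤ ∑ j ∈ s.biUnion S, (N : ℝ) * g j := by
        refine Finset.sum_le_sum fun j _ => ?_
        rw [Finset.sum_const, nsmul_eq_mul]
        obtain ⟨T, hT, hT'⟩ := h2 j
        have hc : (s.filter (fun i => j ∈ S i)).card ≤ N :=
          (Finset.card_le_card fun i hi => hT' i (Finset.mem_filter.1 hi).2).trans hT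
        exact mul_le_mul_of_nonneg_right (by exact_mod_cast hc) (hg0 j)
    _ = N * ∑ j ∈ s.biUnion S, g j := by rw [Finset.mul_sum]
    _ ≤ N * ∑' j, g j :=
        mul_le_mul_of_nonneg_left (hg.sum_le_tsum _ fun j _ => hg0 j) (Nat.cast_nonneg _)

/-- Schur test: a local operator with bounded coefficients preserves square summability.
`v i ^ 2 ≤ B ^ 2 * N * ∑ j ∈ S i, u j ^ 2`; for a finite set `s` of `i`'s swap the two sums, each
`j` occurs at most `N` times; `summable_of_sum_le`. -/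
lemma schur_sq {ι κ : Type} (S : ι → Finset κ) (N : ℕ) (B : ℝ) (h1 : ∀ i, (S i).card ≤ N)
    (h2 : ∀ j, ∃ T : Finset ι, T.card ≤ N ∧ ∀ i, j ∈ S i → i ∈ T) {u : κ → ℝ} {v : ι → ℝ}
    (hu : Summable fun j => u j ^ 2) (hv : ∀ i, |v i| ≤ B * ∑ j ∈ S i, |u j|) :
    Summable fun i => v i ^ 2 := by
  have h := (s3abasic_swap S N h2 (fun j => sq_nonneg (u j)) hu).mul_left (B ^ 2 * N)
  refine Summable.of_nonneg_of_le (fun i => sq_nonneg _) (fun i => ?_) h
  have e1 : v i ^ 2 ≤ (B * ∑ j ∈ S i, |u j|) ^ 2 := by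
    rw [← sq_abs (v i)]
    exact pow_le_pow_left₀ (abs_nonneg _) (hv i) 2
  have e2 : (∑ j ∈ S i, |u j|) ^ 2 ≤ (S i).card * ∑ j ∈ S i, |u j| ^ 2 :=
    sq_sum_le_card_mul_sum_sq
  have e3 : ((S i).card : ℝ) ≤ N := by exact_mod_cast h1 i
  have e4 : ∑ j ∈ S i, |u j| ^ 2 = ∑ j ∈ S i, u j ^ 2 := by simp only [sq_abs]
  have e5 : 0 ≤ ∑ j ∈ S i, u j ^ 2 := Finset.sum_nonneg fun j _ => sq_nonneg _
  rw [e4] at e2
  calc v i ^ 2 ≤ B ^ 2 * (∑ j ∈ S i, |u j|) ^ 2 := by rw [← mul_pow]; exact e1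
    _ ≤ B ^ 2 * (N * ∑ j ∈ S i, u j ^ 2) :=
        mul_le_mul_of_nonneg_left (e2.trans (mul_le_mul_of_nonneg_right e3 e5)) (sq_nonneg _)
    _ = B ^ 2 * N * ∑ j ∈ S i, u j ^ 2 := by ring

/-- Schur test, double sum (for Fubini): `|w i * u j * k i j| ≤ B (w i ² + u j ²) / 2` on the
pairs with `j ∈ S i`. -/
lemma schur_prod {ι κ : Type} (S : ι → Finset κ) (N : ℕ) (B : ℝ) (h1 : ∀ i, (S i).card ≤ N)
    (h2 : ∀ j, ∃ T : Finset ι, T.card ≤ N ∧ ∀ i, j ∈ S i → i ∈ T) {u : κ → ℝ} {w : ι → ℝ}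
    (hu : Summable fun j => u j ^ 2) (hw : Summable fun i => w i ^ 2) (k : ι → κ → ℝ)
    (hk : ∀ i j, |k i j| ≤ B) (hk0 : ∀ i j, j ∉ S i → k i j = 0) :
    Summable fun p : ι × κ => w p.1 * u p.2 * k p.1 p.2 := by
  classical
  have hin : ∀ i, HasSum (fun j => if j ∈ S i then |B| * (w i ^ 2 + u j ^ 2) else 0)
      (∑ j ∈ S i, |B| * (w i ^ 2 + u j ^ 2)) := by
    intro i
    have h := hasSum_sum_of_ne_finset_zero (s := S i) (L := SummationFilter.unconditional κ)
      (f := fun j => if j ∈ S i then |B| * (w i ^ 2 + u j ^ 2) else 0)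
      (fun j hj => if_neg hj)
    rwa [Finset.sum_congr rfl fun j hj => if_pos hj] at h
  have hG : Summable fun p : ι × κ =>
      if p.2 ∈ S p.1 then |B| * (w p.1 ^ 2 + u p.2 ^ 2) else 0 := by
    rw [summable_prod_of_nonneg]
    · refine ⟨fun i => (hin i).summable, ?_⟩
      have h := ((hw.mul_left (N : ℝ)).add
        (s3abasic_swap S N h2 (fun j => sq_nonneg (u j)) hu)).mul_left |B|
      refine Summable.of_nonneg_of_le (fun i => ?_) (fun i => ?_) h
      · rw [(hin i).tsum_eq]
        exact Finset.sum_nonneg fun j _ => by positivity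
      · rw [(hin i).tsum_eq, ← Finset.mul_sum, Finset.sum_add_distrib, Finset.sum_const,
          nsmul_eq_mul]
        have e3 : ((S i).card : ℝ) ≤ N := by exact_mod_cast h1 i
        refine mul_le_mul_of_nonneg_left ?_ (abs_nonneg _)
        exact add_le_add_left (mul_le_mul_of_nonneg_right e3 (sq_nonneg _)) _
    · intro p
      dsimp only [Pi.zero_apply]
      split_ifs
      · positivity
      · exact le_rfl
  refine Summable.of_norm_bounded hG fun p => ?_
  rw [Real.norm_eq_abs]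
  split_ifs with hp
  · rw [abs_mul, mul_comm]
    refine mul_le_mul ((hk _ _).trans (le_abs_self B)) ?_ (abs_nonneg _) (abs_nonneg _)
    rw [abs_le]
    constructor <;> nlinarith [sq_nonneg (w p.1 + u p.2), sq_nonneg (w p.1 - u p.2),
      sq_nonneg (w p.1), sq_nonneg (u p.2)]
  · rw [hk0 _ _ hp, mul_zero, abs_zero]

lemma Chain1.add {z z' : A × A → ℝ} (h : Chain1 len K z) (h' : Chain1 len K z') :
    Chain1 len K (z + z') := by
  refine ⟨fun e he => ?_, summable_add_sq h.l2 h'.l2⟩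
  by_cases h0 : z e = 0
  · refine h'.supp e fun h1 => he ?_
    rw [Pi.add_apply, h0, h1, add_zero]
  · exact h.supp e h0

lemma Chain1.smul {z : A × A → ℝ} (h : Chain1 len K z) (c : ℝ) : Chain1 len K (c • z) := by
  refine ⟨fun e he => h.supp e fun h0 => he ?_, ?_⟩
  · rw [Pi.smul_apply, h0, smul_zero]
  · refine (h.l2.mul_left (c ^ 2)).congr fun e => ?_
    rw [Pi.smul_apply, smul_eq_mul, mul_pow]

lemma Chain1.sum {ι : Type} (s : Finset ι) {z : ι → A × A → ℝ}
    (h : ∀ i ∈ s, Chain1 len K (z i)) : Chain1 len K (∑ i ∈ s, z i) := by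
  classical
  induction s using Finset.induction_on with
  | empty =>
    refine ⟨fun e he => absurd (by simp) he, ?_⟩
    simp
  | insert a s ha ih =>
    rw [Finset.sum_insert ha]
    exact (h a (Finset.mem_insert_self _ _)).add
      (ih fun i hi => h i (Finset.mem_insert_of_mem hi))

open Classical in
lemma Chain1.single {a b : A} (h : Near len K a b) :
    Chain1 len K (fun e => if e = (a, b) then 1 else 0) := by
  refine ⟨fun e he => ?_, ?_⟩
  · by_cases h0 : e = (a, b)
    · rw [h0]; exact h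
    · exact absurd (if_neg h0) he
  · refine summable_of_ne_finset_zero (s := {(a, b)}) fun e he => ?_
    rw [Finset.mem_singleton] at he
    rw [if_neg he, zero_pow two_ne_zero]

lemma s3abasic_sum_out (H : HypLen len δ) {z : A × A → ℝ} (h : Chain1 len K z) (x : A) :
    Summable fun y => z (x, y) := by
  refine summable_of_ne_finset_zero (s := (H.finite_near (K := K) x).toFinset) fun y hy => ?_
  by_contra h0
  exact hy ((Set.Finite.mem_toFinset _).2 (h.supp (x, y) h0))

lemma s3abasic_sum_in (H : HypLen len δ) {z : A × A → ℝ} (h : Chain1 len K z) (x : A) :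
    Summable fun y => z (y, x) := by
  refine summable_of_ne_finset_zero (s := (H.finite_near (K := K) x).toFinset) fun y hy => ?_
  by_contra h0
  exact hy ((Set.Finite.mem_toFinset _).2 (H.near_symm (h.supp (y, x) h0)))

lemma bd1_add (H : HypLen len δ) {z z' : A × A → ℝ} (h : Chain1 len K z) (h' : Chain1 len K z')
    (x : A) : bd1 (z + z') x = bd1 z x + bd1 z' x := by
  simp only [bd1, Pi.add_apply]
  rw [(s3abasic_sum_in H h x).tsum_add (s3abasic_sum_in H h' x),
    (s3abasic_sum_out H h x).tsum_add (s3abasic_sum_out H h' x)]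
  ring

lemma bd1_smul (z : A × A → ℝ) (c : ℝ) (x : A) : bd1 (c • z) x = c * bd1 z x := by
  simp only [bd1, Pi.smul_apply, smul_eq_mul, tsum_mul_left]
  ring

lemma bd1_sum (H : HypLen len δ) {ι : Type} (s : Finset ι) {z : ι → A × A → ℝ}
    (h : ∀ i ∈ s, Chain1 len K (z i)) (x : A) :
    bd1 (∑ i ∈ s, z i) x = ∑ i ∈ s, bd1 (z i) x := by
  classical
  induction s using Finset.induction_on with
  | empty => simp [bd1]
  | insert a s ha ih =>
    rw [Finset.sum_insert ha, Finset.sum_insert ha,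
      bd1_add H (h a (Finset.mem_insert_self _ _))
        (Chain1.sum s fun i hi => h i (Finset.mem_insert_of_mem hi)),
      ih fun i hi => h i (Finset.mem_insert_of_mem hi)]

open Classical in
lemma bd1_single (a b x : A) : bd1 (fun e => if e = (a, b) then (1 : ℝ) else 0) x =
    (if x = b then 1 else 0) - if x = a then 1 else 0 := by
  unfold bd1
  congr 1
  · rw [tsum_eq_single a fun y hy => if_neg fun h => hy (Prod.ext_iff.1 h).1]
    simp only [Prod.mk.injEq, true_and]
  · rw [tsum_eq_single b fun y hy => if_neg fun h => hy (Prod.ext_iff.1 h).2]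
    simp only [Prod.mk.injEq, and_true]

end KKC.S3
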