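import Pool.Agent.Lib.MP_e1e491_gt.S3AAdj
import Pool.Agent.Lib.MP_e1e491_gt.S3AGrad

set_option autoImplicit false

/-!
The function of finite energy dual to a two-chain with boundary in the planes.
-/

namespace KKC.S3

variable {A : Type} [Group A] {len : A → ℕ} {δ : ℝ} {K : ℕ} {F : Subgroup A} {K1 K2 : ℕ}
  {B : ℝ} {W I J : A → A → A → A → ℝ}

lemma s3afb_exE (H : HypLen len δ) (K r : ℕ) : ∃ (N : ℕ) (S : A → Finset (A × A)),
    (∀ x, (S x).card ≤ N) ∧ ∀ x e, e ∈ S x ↔ len (x⁻¹ * e.1) ≤ r ∧ Near len K e.1 e.2 := by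
  classical
  obtain ⟨N, S, h1, h2⟩ := H.exists_ball r
  obtain ⟨N', S', h1', h2'⟩ := H.exists_ball K
  refine ⟨N * N', fun x => (S x).biUnion fun a => (S' a).image fun c => (a, c), fun x =>
    (Finset.card_biUnion_le_card_mul _ _ N' fun a _ => Finset.card_image_le.trans (h1' a)).trans
      (Nat.mul_le_mul_right _ (h1 x)), fun x e => ?_⟩
  simp only [Finset.mem_biUnion, Finset.mem_image, h2, h2', Near]
  constructor
  · rintro ⟨a, ha, c, hc, rfl⟩
    exact ⟨ha, hc⟩
  · exact fun h => ⟨e.1, h.1, e.2, h.2, rfl⟩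

lemma s3afb_exT (H : HypLen len δ) (K r : ℕ) : ∃ (N : ℕ) (S : A → Finset (A × A × A)),
    (∀ x, (S x).card ≤ N) ∧ ∀ x t, t ∈ S x ↔ len (x⁻¹ * t.1) ≤ r ∧
      Near len K t.1 t.2.1 ∧ Near len K t.2.1 t.2.2 := by
  classical
  obtain ⟨N, S, h1, h2⟩ := H.exists_ball r
  obtain ⟨N', S', h1', h2'⟩ := s3afb_exE H K K
  refine ⟨N * N', fun x => (S x).biUnion fun a => (S' a).image fun c => (a, c), fun x =>
    (Finset.card_biUnion_le_card_mul _ _ N' fun a _ => Finset.card_image_le.trans (h1' a)).trans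
      (Nat.mul_le_mul_right _ (h1 x)), fun x e => ?_⟩
  simp only [Finset.mem_biUnion, Finset.mem_image, h2, h2', Near]
  constructor
  · rintro ⟨a, ha, c, hc, rfl⟩
    exact ⟨ha, hc⟩
  · exact fun h => ⟨e.1, h.1, e.2, h.2, rfl⟩

lemma s3afb_loc (H : HypLen len δ) (K r : ℕ) {κ : Type} (p : κ → A) (N : ℕ) (S : A → Finset κ)
    (h1 : ∀ x, (S x).card ≤ N) (h2 : ∀ x j, j ∈ S x → len (x⁻¹ * p j) ≤ r) :
    ∃ (S' : A × A → Finset κ) (N' : ℕ), (∀ s, (S' s).card ≤ N') ∧
      (∀ j, ∃ T : Finset (A × A), T.card ≤ N' ∧ ∀ s, j ∈ S' s → s ∈ T) ∧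
      ∀ s, Near len K s.1 s.2 → S' s = S s.1 := by
  classical
  obtain ⟨M, T, t1, t2⟩ := s3afb_exE H K r
  refine ⟨fun s => if Near len K s.1 s.2 then S s.1 else ∅, N + M, fun s => ?_,
    fun j => ⟨T (p j), (t1 _).trans (Nat.le_add_left _ _), fun s hs => ?_⟩, fun s hs => if_pos hs⟩
  · beta_reduce
    split_ifs
    · exact (h1 _).trans (Nat.le_add_right _ _)
    · simp
  · beta_reduce at hs
    split_ifs at hs with h
    · exact (t2 _ _).2 ⟨H.len_inv_mul _ _ ▸ h2 _ _ hs, h⟩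
    · simp at hs

lemma s3afb_locE (H : HypLen len δ) (K r : ℕ) : ∃ (S : A × A → Finset (A × A)) (N : ℕ),
    (∀ s, (S s).card ≤ N) ∧ (∀ j, ∃ T : Finset (A × A), T.card ≤ N ∧ ∀ s, j ∈ S s → s ∈ T) ∧
      ∀ s e, Near len K s.1 s.2 → Near len K e.1 e.2 → e ∉ S s → r < len (s.1⁻¹ * e.1) := by
  obtain ⟨N, S, h1, h2⟩ := s3afb_exE H K r
  obtain ⟨S', N', a, b, c⟩ := s3afb_loc H K r Prod.fst N S h1 fun x j hj => ((h2 x j).1 hj).1
  exact ⟨S', N', a, b, fun s e hs he hn => not_le.1 fun h => hn (c s hs ▸ (h2 _ _).2 ⟨h, he⟩)⟩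

lemma s3afb_locT (H : HypLen len δ) (K r : ℕ) : ∃ (S : A × A → Finset (A × A × A)) (N : ℕ),
    (∀ s, (S s).card ≤ N) ∧ (∀ j, ∃ T : Finset (A × A), T.card ≤ N ∧ ∀ s, j ∈ S s → s ∈ T) ∧
      ∀ s t, Near len K s.1 s.2 → Tri len K t.1 t.2.1 t.2.2 → t ∉ S s →
        r < len (s.1⁻¹ * t.1) := by
  obtain ⟨N, S, h1, h2⟩ := s3afb_exT H K r
  obtain ⟨S', N', a, b, c⟩ := s3afb_loc H K r Prod.fst N S h1 fun x j hj => ((h2 x j).1 hj).1
  exact ⟨S', N', a, b, fun s e hs he hn => not_le.1 fun h =>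
    hn (c s hs ▸ (h2 _ _).2 ⟨h, he.1, he.2.1⟩)⟩

lemma s3afb_abs {κ : Type} (S : Finset κ) (u k : κ → ℝ) {B : ℝ} (hk : ∀ j, u j ≠ 0 → |k j| ≤ B)
    (h0 : ∀ j, j ∉ S → u j ≠ 0 → k j = 0) : |∑' j, u j * k j| ≤ B * ∑ j ∈ S, |u j| := by
  rw [tsum_eq_sum (s := S) fun j hj => by
    by_cases h : u j = 0
    · rw [h, zero_mul]
    · rw [h0 j hj h, mul_zero], Finset.mul_sum]
  refine (Finset.abs_sum_le_sum_abs _ _).trans (Finset.sum_le_sum fun j _ => ?_)
  by_cases h : u j = 0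
  · simp [h]
  · rw [abs_mul, mul_comm]
    exact mul_le_mul_of_nonneg_right (hk j h) (abs_nonneg _)

lemma s3afb_summ (H : HypLen len δ) {b : A × A × A → ℝ} (hb : Chain2 len K b)
    (g : A × A × A → ℝ) (m : ℕ) (hg : ∀ t, Tri len K t.1 t.2.1 t.2.2 → m < len t.1 → g t = 0) :
    Summable fun t => b t * g t := by
  obtain ⟨N, S, -, h2⟩ := s3afb_exT H K m
  refine summable_of_ne_finset_zero (s := S 1) fun t ht => ?_
  by_cases h : b t = 0
  · rw [h, zero_mul]
  · have h3 := hb.supp t h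
    rw [hg t h3 (not_le.1 fun h4 => ht ((h2 _ _).2 ⟨by simpa using h4, h3.1, h3.2.1⟩)), mul_zero]

lemma s3afb_nonneg (H : HypLen len δ) (D : Link len F K K1 K2 B W I J) : 0 ≤ B :=
  (abs_nonneg _).trans (D.out_bdd 1 1 1 1 (H.near_refl 1) (H.near_refl 1) (by simp [H.one]))

/-- The outer cochain cut off at a depth. -/
def s3afb_cut (len : A → ℕ) (m : ℕ) (I : A → A → ℝ) (a a' : A) : ℝ :=
  if len a ≤ m then I a a' else 0

lemma s3afb_far (D : Link len F K K1 K2 B W I J) {x x' a a' : A} (h : Near len K x x')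
    (ha : Near len K a a') (ho : a⁻¹ * a' ∈ F ∨ len x ≤ len a + K) (hf : K2 < len (x⁻¹ * a)) :
    s3afb_cut len (len x + K1 + K) (I x x') a a' = 0 := by
  rw [s3afb_cut]
  split_ifs with h1
  · exact D.out_far x x' a a' h ha hf h1 ho
  · rfl

lemma s3afb_bdd (H : HypLen len δ) (D : Link len F K K1 K2 B W I J) {x x' a a' : A}
    (h : Near len K x x') (ha : Near len K a a') (ho : a⁻¹ * a' ∈ F ∨ len x ≤ len a + K) :
    |s3afb_cut len (len x + K1 + K) (I x x') a a'| ≤ B := by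
  rcases le_or_gt (len (x⁻¹ * a)) K2 with hf | hf
  · rw [s3afb_cut]
    split_ifs
    · exact D.out_bdd x x' a a' h ha hf
    · rw [abs_zero]
      exact s3afb_nonneg H D
  · rw [s3afb_far D h ha ho hf, abs_zero]
    exact s3afb_nonneg H D

lemma s3afb_inn (H : HypLen len δ) (D : Link len F K K1 K2 B W I J) {x x' a a' : A} (hx : x ∈ F)
    (hx' : x' ∈ F) (h : Near len K x x') (ha : Near len K a a') (ho : a⁻¹ * a' ∈ F) :
    |J x x' a a'| ≤ B := by
  rcases le_or_gt (len (x⁻¹ * a)) K2 with hf | hf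
  · exact D.inn_bdd x hx x' hx' a a' h ha ho hf
  · rw [D.inn_far x hx x' hx' a a' h ha ho hf, abs_zero]
    exact s3afb_nonneg H D

/-- The dual function; the sum has finite support by `Link.deep_one`. -/
noncomputable def dual (W : A → A → A → A → ℝ) (b : A × A × A → ℝ) (x : A) : ℝ :=
  ∑' t : A × A × A, b t * (W x t.1 t.2.1 t.2.2 - W 1 t.1 t.2.1 t.2.2)

lemma Link.dual_sub (H : HypLen len δ) (hP : Par len K)
    (D : Link len F K K1 K2 B W I J) {b : A × A × A → ℝ} (hb : Chain2 len K b) (x x' : A) :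
    dual W b x' - dual W b x =
      ∑' t : A × A × A, b t * (W x' t.1 t.2.1 t.2.2 - W x t.1 t.2.1 t.2.2) := by
  have h := fun y : A => s3afb_summ H hb (fun t => W y t.1 t.2.1 t.2.2 - W 1 t.1 t.2.1 t.2.2)
    (len y + K1) fun t ht hm => sub_eq_zero.2 (D.deep_one H hP y _ _ _ ht hm)
  rw [dual, dual, ← (h x').tsum_sub (h x)]
  exact tsum_congr fun t => by ring

/-- Fix a step `(x, x')`, put `m = len x + K1` and `I' a a' = if len a ≤ m + K then I x x' a a'
else 0`.  By `deep` and `out_cob` the increment is `∑ b t * cob (I x x') t` over `len t.1 ≤ m`,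
which is `∑' t, b t * cob I' t` minus the part with `m < len t.1`.  The first sum is
`∑' e, bd2 b e * I' e` (`adj2`), carried by plane edges with `len (x⁻¹ * e.1) ≤ K2` (`out_far`).
In the second part every edge starts at depth `> m - K`, so by `out_far` only triangles with
`len (x⁻¹ * t.1) ≤ K2 + K` contribute, with `|cob I' t| ≤ 3 B` (`|I'| ≤ B` on all three edges:
bounded if near, zero if far).  Conclude with `schur_sq` twice and `summable_add_sq`. -/
theorem Link.energy (H : HypLen len δ) (hP : Par len K)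
    (D : Link len F K K1 K2 B W I J) {b : A × A × A → ℝ} (hb : Chain2 len K b)
    (hp : ∀ e, bd2 b e ≠ 0 → e.1⁻¹ * e.2 ∈ F) :
    Summable fun e => dK len K (dual W b) e ^ 2 := by
  classical
  have hB := s3afb_nonneg H D
  have hd := hb.bd2 H
  obtain ⟨S, N, a1, a2, a3⟩ := s3afb_locE H K K2
  obtain ⟨S', N', b1, b2, b3⟩ := s3afb_locT H K (K2 + K)
  have h1 := schur_sq S N B a1 a2 hd.l2 (v := fun s => if Near len K s.1 s.2 then
      ∑' e : A × A, bd2 b e * s3afb_cut len (len s.1 + K1 + K) (I s.1 s.2) e.1 e.2 else 0)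
    fun s => by
      split_ifs with h
      · exact s3afb_abs _ _ _ (fun e he => s3afb_bdd H D h (hd.supp e he) (Or.inl (hp e he)))
          fun e hn he => s3afb_far D h (hd.supp e he) (Or.inl (hp e he)) (a3 s e h (hd.supp e he) hn)
      · rw [abs_zero]
        positivity
  have h2 := schur_sq S' N' (3 * B) b1 b2 hb.l2 (v := fun s => if Near len K s.1 s.2 then
      -∑' t : A × A × A, b t * (if len s.1 + K1 < len t.1 then
        cob (s3afb_cut len (len s.1 + K1 + K) (I s.1 s.2)) t.1 t.2.1 t.2.2 else 0) else 0)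
    fun s => by
      split_ifs with h
      · rw [abs_neg]
        refine s3afb_abs _ _ _ (fun t ht => ?_) fun t hn ht => ?_
        · obtain ⟨t1, t2, t3⟩ := hb.supp t ht
          have := H.near_len (H.near_symm t1)
          split_ifs with hm
          · have c1 := abs_le.1 (s3afb_bdd H D h t1 (Or.inr (by omega)))
            have c2 := abs_le.1 (s3afb_bdd H D h t2 (Or.inr (by omega)))
            have c3 := abs_le.1 (s3afb_bdd H D h t3 (Or.inr (by omega)))
            rw [cob, abs_le]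
            constructor <;> linarith [c1.1, c1.2, c2.1, c2.2, c3.1, c3.2]
          · rw [abs_zero]
            positivity
        · have c0 := b3 s t h (hb.supp t ht) hn
          obtain ⟨t1, t2, t3⟩ := hb.supp t ht
          have := H.near_len (H.near_symm t1)
          have c4 := H.dist_tri s.1 t.2.1 t.1
          have c5 : len (t.2.1⁻¹ * t.1) ≤ K := H.near_symm t1
          split_ifs with hm
          · rw [cob, s3afb_far D h t1 (Or.inr (by omega)) (by omega),
              s3afb_far D h t2 (Or.inr (by omega)) (by omega),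
              s3afb_far D h t3 (Or.inr (by omega)) (by omega), add_zero, sub_zero]
          · rfl
      · rw [abs_zero]
        positivity
  refine (summable_add_sq h1 h2).congr fun s => congrArg (· ^ 2) ?_
  rw [dK]
  split_ifs with h
  · have hz : ∀ a a', Near len K a a' → len s.1 + K1 + K < len a →
        s3afb_cut len (len s.1 + K1 + K) (I s.1 s.2) a a' = 0 := fun a a' _ ha => if_neg (not_le.2 ha)
    have hc : ∀ t : A × A × A, Tri len K t.1 t.2.1 t.2.2 → len s.1 + K1 + K + K < len t.1 →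
        cob (s3afb_cut len (len s.1 + K1 + K) (I s.1 s.2)) t.1 t.2.1 t.2.2 = 0 := fun t ht hm => by
      have := H.near_len (H.near_symm ht.1)
      rw [cob, hz _ _ ht.1 (by omega), hz _ _ ht.2.1 (by omega), hz _ _ ht.2.2 (by omega),
        add_zero, sub_zero]
    rw [← adj2 H hb.supp _ hz, D.dual_sub H hP hb, ← sub_eq_add_neg,
      ← (s3afb_summ H hb _ _ hc).tsum_sub (s3afb_summ H hb _ _ fun t ht hm => by
        rw [hc t ht hm, ite_self])]
    refine tsum_congr fun t => ?_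
    by_cases ht : b t = 0
    · simp [ht]
    have h3 := hb.supp t ht
    rw [← mul_sub]
    congr 1
    split_ifs with hm
    · rw [D.deep _ _ _ _ _ h h3 hm, sub_self, sub_self]
    · have := H.near_len h3.1
      rw [D.out_cob _ _ _ _ _ h h3, sub_zero, cob, cob, s3afb_cut, s3afb_cut, s3afb_cut,
        if_pos (by omega), if_pos (by omega), if_pos (by omega)]
  · exact add_zero _

/-- `inn_cob`, `inn_fin` and `adj2`. -/
theorem Link.dual_inner (H : HypLen len δ) (hP : Par len K)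
    (D : Link len F K K1 K2 B W I J) {b : A × A × A → ℝ} (hb : Chain2 len K b) {x x' : A}
    (hx : x ∈ F) (hx' : x' ∈ F) (h : Near len K x x') :
    dual W b x' - dual W b x = ∑' e : A × A, bd2 b e * J x x' e.1 e.2 := by
  obtain ⟨N, hN⟩ := D.inn_fin x hx x' hx' h
  rw [← adj2 H hb.supp N hN, D.dual_sub H hP hb]
  refine tsum_congr fun t => ?_
  by_cases ht : b t = 0
  · simp [ht]
  · rw [D.inn_cob x hx x' hx' _ _ _ h (hb.supp t ht)]

/-- `schur_sq` with `inn_bdd`, `inn_far`. -/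
theorem Link.innr_chain (H : HypLen len δ) (D : Link len F K K1 K2 B W I J) {z : A × A → ℝ}
    (hz : Chain1 len K z) (hzF : ∀ s, z s ≠ 0 → s.1 ∈ F ∧ s.2 ∈ F) :
    Chain1 len K (innr len F K J z) := by
  have hB := s3afb_nonneg H D
  obtain ⟨S, N, a1, a2, a3⟩ := s3afb_locE H K K2
  refine ⟨fun e he => ?_, schur_sq S N B a1 a2 hz.l2 fun e => ?_⟩
  · by_contra hn
    exact he (if_neg fun h => hn h.1)
  · rw [innr]
    split_ifs with h
    · exact s3afb_abs _ _ _ (fun s hs => s3afb_inn H D (hzF s hs).1 (hzF s hs).2 (hz.supp s hs)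
        h.1 h.2) fun s hn hs => D.inn_far _ (hzF s hs).1 _ (hzF s hs).2 _ _ (hz.supp s hs) h.1 h.2
          (H.len_inv_mul _ _ ▸ a3 e s h.1 (hz.supp s hs) hn)
    · rw [abs_zero]
      positivity

/-- Fubini (`schur_prod`). -/
theorem Link.pair_swap (H : HypLen len δ) (D : Link len F K K1 K2 B W I J) {z θ : A × A → ℝ}
    (hz : Chain1 len K z) (hzF : ∀ s, z s ≠ 0 → s.1 ∈ F ∧ s.2 ∈ F) (hθ : Chain1 len K θ)
    (hθF : ∀ e, θ e ≠ 0 → e.1⁻¹ * e.2 ∈ F) :
    ∑' e, θ e * innr len F K J z e = ∑' s : A × A, z s * ∑' e : A × A, θ e * J s.1 s.2 e.1 e.2 := by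
  classical
  have hB := s3afb_nonneg H D
  obtain ⟨S, N, a1, a2, a3⟩ := s3afb_locE H K K2
  have h1 := schur_prod S N B a1 a2 hz.l2 hθ.l2
    (fun e s => if θ e ≠ 0 ∧ z s ≠ 0 then J s.1 s.2 e.1 e.2 else 0) (fun e s => by
      split_ifs with h
      · exact s3afb_inn H D (hzF s h.2).1 (hzF s h.2).2 (hz.supp s h.2) (hθ.supp e h.1) (hθF e h.1)
      · rwa [abs_zero]) fun e s hn => by
      split_ifs with h
      · exact D.inn_far _ (hzF s h.2).1 _ (hzF s h.2).2 _ _ (hz.supp s h.2) (hθ.supp e h.1)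
          (hθF e h.1) (H.len_inv_mul _ _ ▸ a3 e s (hθ.supp e h.1) (hz.supp s h.2) hn)
      · rfl
  have h2 : Summable (Function.uncurry fun e s : A × A => θ e * z s * J s.1 s.2 e.1 e.2) :=
    h1.congr fun p => by
      by_cases c1 : θ p.1 = 0
      · simp [Function.uncurry, c1]
      by_cases c2 : z p.2 = 0
      · simp [Function.uncurry, c2]
      · rw [if_pos ⟨c1, c2⟩]
        rfl
  refine ((tsum_congr fun e => ?_).trans h2.tsum_comm.symm).trans (tsum_congr fun s => ?_)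
  · by_cases c1 : θ e = 0
    · simp [c1]
    · rw [innr, if_pos ⟨hθ.supp e c1, hθF e c1⟩, ← tsum_mul_left]
      exact tsum_congr fun s => (mul_assoc _ _ _).symm
  · rw [← tsum_mul_left]
    exact tsum_congr fun e => by ring

/-- `pair_swap` with `θ = bd2 b`, `dual_inner`, `energy` and `StarW`. -/
theorem Link.pair_bd2 (H : HypLen len δ) (hP : Par len K)
    (D : Link len F K K1 K2 B W I J) (hS : StarW len K) {z : A × A → ℝ}
    (hz : Chain1 len K z) (hc : ∀ x, bd1 z x = 0) (hzF : ∀ s, z s ≠ 0 → s.1 ∈ F ∧ s.2 ∈ F)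
    {b : A × A × A → ℝ} (hb : Chain2 len K b) (hp : ∀ e, bd2 b e ≠ 0 → e.1⁻¹ * e.2 ∈ F) :
    ∑' e, bd2 b e * innr len F K J z e = 0 := by
  rw [D.pair_swap H hz hzF (hb.bd2 H) hp, ← hS _ (D.energy H hP hb hp) z hz hc]
  refine tsum_congr fun s => ?_
  by_cases h : z s = 0
  · simp [h]
  · rw [dK, if_pos (hz.supp s h), D.dual_inner H hP hb (hzF s h).1 (hzF s h).2 (hz.supp s h),
      mul_comm]

end KKC.S3
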