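import Pool.Agent.Lib.MP_e1e491_gt.S3BConn

set_option autoImplicit false

/-!
Data for the case of the whole carpet.
-/

namespace KKC.S3

open Set Metric
open scoped Pointwise

variable {G Z J : Type} [Group G] [MetricSpace Z] [CompactSpace Z] [MulAction G Z]
  [ContinuousConstSMul G Z] [MulAction G J]

open Classical in
/-- The function of a step as it is seen by the shallow edges of the plane of the hole `j`. -/
noncomputable def corr (D : J) (ψ : G → Cir Z) (φ : G → G → Cir Z) (x x' : G) (j : J) : Cir Z :=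
  φ x x' - (if x' • D = j then ψ x' else 0) + if x • D = j then ψ x else 0

/-- Edges and test functions for the hole `D`, with the second hole `D₁`. -/
structure Al (X : CS G Z J) (D D₁ : J) (K : ℕ) where
  E : Edge X.H ⊤ K ⊤
  ψ : G → Cir Z
  φ : G → G → Cir Z
  Hφ : G → G → Z → ℝ
  h : G → G → J → Z → ℝ
  L : ℝ
  Φ : Set (Cir Z)
  K3 : ℕ
  L_pos : 0 < L
  fin : Φ.Finite
  le_K3 : K ≤ K3
  ρ_mem : ∀ a, E.ρ a ∈ X.Q.P (a • D)
  plane : ∀ a b, X.H.len (a⁻¹ * b) ≤ K → a • D = b • D →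
    Carr ⊤ (E.V a b) (E.ρ a) (E.ρ b) (X.Q.P (a • D))
  ψ_cls : ∀ x, Lifts (ψ x - (th X.Q (x • D) - th X.Q (x • D₁))) univ
  ψ_test : ∀ x x', X.H.len (x⁻¹ * x') ≤ K → Test X.H L Φ x (ψ x')
  φ_test : ∀ x x', X.H.len (x⁻¹ * x') ≤ K → Test X.H L Φ x (φ x x')
  φ_lift : ∀ x x', X.H.len (x⁻¹ * x') ≤ K →
    IsLift (φ x x' - (th X.Q (x' • D) - th X.Q (x • D))) univ (Hφ x x')
  φ_plane : ∀ x x', x • D = x' • D → φ x x' = 0
  h_lift : ∀ x x' j, X.H.len (x⁻¹ * x') ≤ K → IsLift (corr D ψ φ x x' j) (X.Q.P j) (h x x' j)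
  h_zero : ∀ x x' j, X.H.len (x⁻¹ * x') ≤ K → ∀ z ∈ X.Q.P j,
    L * X.H.sc x < dist z (X.H.loc x) → h x x' j z = 0
  h_bdd : ∀ n : ℕ, ∃ B : ℝ, ∀ x x' a, X.H.len (x⁻¹ * x') ≤ K → X.H.len (x⁻¹ * a) ≤ n →
    X.H.len a + K3 ≤ X.H.len x → |h x x' (a • D) (E.ρ a)| ≤ B

namespace Al

variable {X : CS G Z J} {D D₁ : J} {K : ℕ} (S : Al X D D₁ K)

open Classical in
/-- The correction on shallow edges of the plane of `x`. -/
noncomputable def kap (x a b : G) : ℝ :=
  if x • D = a • D ∧ x • D = b • D ∧ X.H.len a ≤ X.H.len x then S.E.V a b (S.ψ x) else 0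

/-- The correction at shallow vertices. -/
noncomputable def cut (x x' a : G) : ℝ :=
  if X.H.len a + S.K3 ≤ X.H.len x then S.h x x' (a • D) (S.E.ρ a) else 0

/-- The two-cochain seen from `x`. -/
noncomputable def W (x : G) : G → G → G → ℝ :=
  cob fun a b => S.E.V a b (th X.Q (x • D)) - S.kap x a b

/-- The local cochain of a step. -/
noncomputable def I (x x' a b : G) : ℝ :=
  S.E.V a b (S.φ x x') - S.kap x' a b + S.kap x a b - (S.cut x x' b - S.cut x x' a)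

end Al

end KKC.S3
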