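import Pool.Agent.Lib.MP_e1e491_gt.S3BAlDefs

set_option autoImplicit false

/-!
Existence of the data for the case of the whole carpet.
-/

namespace KKC.S3

open Set Metric
open scoped Pointwise

variable {G Z J : Type} [Group G] [MetricSpace Z] [CompactSpace Z] [MulAction G Z]
  [ContinuousConstSMul G Z] [MulAction G J] (X : CS G Z J)

/-- Take `b₁ ≠ b₂` in `P D` and `ρ a = a • b`, where `b` is the one that is at distance at least
`dist b₁ b₂ / 2` from the pole `loc a⁻¹`; by `conv` and `exists_nbr` both `ρ a` and `ρ (a * k)` are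
within `M * sc a` of `loc a`.  For each `k` in the ball of radius `K` and each pair `u = b`,
`v = k • b'` use `exists_conn` with `T = P D` if `k • D = D` (`isPathConnected_P_diff`) and with
`T = univ` otherwise (`isPathConnected_compl_pt`). -/
theorem exists_edge_alpha (D : J) (K : ℕ) : ∃ E : Edge X.H ⊤ K ⊤,
    (∀ a, E.ρ a ∈ X.Q.P (a • D)) ∧ ∀ a b, X.H.len (a⁻¹ * b) ≤ K → a • D = b • D →
      Carr ⊤ (E.V a b) (E.ρ a) (E.ρ b) (X.Q.P (a • D)) := by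
  classical
  obtain ⟨b₁, hb₁, b₂, hb₂, hne⟩ := X.Q.P_nontrivial D
  have hd : 0 < dist b₁ b₂ := dist_pos.2 hne
  have h0 : ∀ a : G, ∃ u ∈ ({b₁, b₂} : Set Z), dist b₁ b₂ / 2 ≤ dist u (X.H.loc a⁻¹) := fun a => by
    by_cases h : dist b₁ b₂ / 2 ≤ dist b₁ (X.H.loc a⁻¹)
    · exact ⟨b₁, Or.inl rfl, h⟩
    · have := dist_triangle_right b₁ b₂ (X.H.loc a⁻¹)
      exact ⟨b₂, Or.inr rfl, by linarith⟩
  choose β β1 β2 using h0
  have βP : ∀ a, β a ∈ X.Q.P D := fun a => by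
    rcases β1 a with e | e <;> rw [e]
    exacts [hb₁, hb₂]
  obtain ⟨C₁, hC₁, hconv⟩ := X.H.conv
  have h1 : ∀ a : G, dist (a • β a) (X.H.loc a) ≤ C₁ / (dist b₁ b₂ / 2) * X.H.sc a := fun a => by
    rw [div_mul_eq_mul_div, le_div_iff₀ (by positivity), mul_comm]
    exact (mul_le_mul_of_nonneg_right (β2 a) dist_nonneg).trans (hconv a (β a))
  obtain ⟨M, m1, -, m2⟩ := exists_nbr X.H (C₁ / (dist b₁ b₂ / 2)) K
  have h2 : ∀ p : G × Z × Z, ∃ (L : ℝ) (𝒱 : Set (Cir Z →+ ℝ)), 𝒱.Finite ∧ ∀ a : G, ∃ V₀,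
      p.2.1 ∈ X.Q.P D → p.2.2 ∈ X.Q.P D → dist (a • p.2.1) (X.H.loc a) ≤ M * X.H.sc a →
      dist (a • p.1 • p.2.2) (X.H.loc a) ≤ M * X.H.sc a → V₀ ∈ 𝒱 ∧
        Carr ⊤ (V₀.comp (pb a)) (a • p.2.1) (a • p.1 • p.2.2)
          (closedBall (X.H.loc a) (L * X.H.sc a)) ∧
        (p.1 • D = D → Carr ⊤ (V₀.comp (pb a)) (a • p.2.1) (a • p.1 • p.2.2)
          (X.Q.P (a • D))) := by
    rintro ⟨k, u, v⟩
    by_cases huv : u ∈ X.Q.P D ∧ v ∈ X.Q.P D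
    swap
    · exact ⟨0, ∅, finite_empty, fun _ => ⟨0, fun a1 a2 => absurd ⟨a1, a2⟩ huv⟩⟩
    obtain ⟨T, t1, t2, t3⟩ : ∃ T : Set Z, JoinedIn T u (k • v) ∧
        (∀ y, y ≠ u → y ≠ k • v → JoinedIn (T \ {y}) u (k • v)) ∧
        (k • D = D → T = X.Q.P D) := by
      by_cases hk : k • D = D
      · have hkv : k • v ∈ X.Q.P D := by
          rw [← hk, X.act_P]
          exact smul_mem_smul_set huv.2
        exact ⟨X.Q.P D, (X.Q.isPathConnected_P D).joinedIn _ huv.1 _ hkv, fun y e e' =>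
          (X.Q.isPathConnected_P_diff D y).joinedIn _ ⟨huv.1, e.symm⟩ _ ⟨hkv, e'.symm⟩,
          fun _ => rfl⟩
      · refine ⟨univ, X.Q.isPathConnected_univ.joinedIn _ trivial _ trivial, fun y e e' => ?_,
          fun h => absurd h hk⟩
        rw [← compl_eq_univ_sdiff]
        exact (X.Q.isPathConnected_compl_pt y).joinedIn _ e.symm _ e'.symm
    obtain ⟨L, 𝒱, -, a1, a2⟩ := exists_conn X.H t1 t2 M
    refine ⟨L, 𝒱, a1, fun a => ?_⟩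
    by_cases ha : dist (a • u) (X.H.loc a) ≤ M * X.H.sc a ∧
        dist (a • k • v) (X.H.loc a) ≤ M * X.H.sc a
    · obtain ⟨V₀, a3, a4⟩ := a2 a ha.1 ha.2
      refine ⟨V₀, fun _ _ _ _ => ⟨a3, a4.mono inter_subset_right, fun hk => ?_⟩⟩
      rw [X.act_P, ← t3 hk]
      exact a4.mono inter_subset_left
    · exact ⟨0, fun _ _ a3 a4 => absurd ⟨a3, a4⟩ ha⟩
  choose L 𝒱 v1 W v2 using h2
  have hS : ({g | X.H.len g ≤ K} ×ˢ (({b₁, b₂} : Set Z) ×ˢ ({b₁, b₂} : Set Z))).Finite :=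
    (X.H.fin K).prod ((toFinite _).prod (toFinite _))
  obtain ⟨L₀, hL₀⟩ := (hS.image L).bddAbove
  have key : ∀ a a' : G, X.H.len (a⁻¹ * a') ≤ K →
      W (a⁻¹ * a', β a, β a') a ∈ 𝒱 (a⁻¹ * a', β a, β a') ∧
      Carr ⊤ ((W (a⁻¹ * a', β a, β a') a).comp (pb a)) (a • β a) (a' • β a')
        (closedBall (X.H.loc a) (L (a⁻¹ * a', β a, β a') * X.H.sc a)) ∧
      ((a⁻¹ * a') • D = D → Carr ⊤ ((W (a⁻¹ * a', β a, β a') a).comp (pb a)) (a • β a)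
        (a' • β a') (X.Q.P (a • D))) := by
    intro a a' hK
    have e : a • (a⁻¹ * a') • β a' = a' • β a' := by rw [smul_smul, mul_inv_cancel_left]
    have := v2 (a⁻¹ * a', β a, β a') a (βP a) (βP a')
      ((h1 a).trans (mul_le_mul_of_nonneg_right m1 (X.H.sc_pos a).le))
      (by rw [e]; exact m2 a a' hK _ (h1 a'))
    rwa [e] at this
  refine ⟨⟨fun a => a • β a, fun a a' => (W (a⁻¹ * a', β a, β a') a).comp (pb a), max 1 L₀,
    lt_max_of_lt_left one_pos, fun a _ a' _ hK => ?_,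
    ⋃ p ∈ {g | X.H.len g ≤ K} ×ˢ (({b₁, b₂} : Set Z) ×ˢ ({b₁, b₂} : Set Z)), 𝒱 p,
    hS.biUnion fun p _ => v1 p, fun a _ a' _ hK => ⟨_, ?_, fun _ => rfl⟩⟩, fun a => ?_,
    fun a a' hK e => (key a a' hK).2.2 ?_⟩
  · refine (key a a' hK).2.1.mono (closedBall_subset_closedBall
      (mul_le_mul_of_nonneg_right ?_ (X.H.sc_pos a).le))
    exact (hL₀ ⟨(a⁻¹ * a', β a, β a'), ⟨hK, β1 a, β1 a'⟩, rfl⟩).trans (le_max_right _ _)
  · exact mem_biUnion (x := (a⁻¹ * a', β a, β a')) ⟨hK, β1 a, β1 a'⟩ (key a a' hK).1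
  · rw [X.act_P]
    exact smul_mem_smul_set (βP a)
  · rw [mul_smul, ← e, inv_smul_smul]

/-- The class of `corr` is `th j' - th i'` with `j' = x' • D₁` if `x' • D = j` and `j' = x' • D`
otherwise, and the same for `i'`; both differ from `j` (`lifts_th_sub`). -/
theorem lifts_corr {D D₁ : J} (hD : D₁ ≠ D) {ψ : G → Cir Z} {φ : G → G → Cir Z} {x x' : G}
    (hψ : ∀ x, Lifts (ψ x - (th X.Q (x • D) - th X.Q (x • D₁))) univ)
    (hφ : Lifts (φ x x' - (th X.Q (x' • D) - th X.Q (x • D))) univ) (j : J) :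
    Lifts (corr D ψ φ x x' j) (X.Q.P j) := by
  have a1 := hφ.mono (subset_univ (X.Q.P j))
  have a2 := (hψ x).mono (subset_univ (X.Q.P j))
  have a3 := (hψ x').mono (subset_univ (X.Q.P j))
  have a4 : ∀ y : G, y • D = j → y • D₁ ≠ j := fun y e e' =>
    hD (MulAction.injective y (e'.trans e.symm))
  unfold corr
  by_cases e : x • D = j <;> by_cases e' : x' • D = j
  · rw [if_pos e, if_pos e']
    convert ((a1.sub a3).add a2).add (lifts_th_sub X.Q (a4 x e) (a4 x' e')) using 1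
    abel
  · rw [if_pos e, if_neg e']
    convert (a1.add a2).add (lifts_th_sub X.Q (a4 x e) e') using 1
    abel
  · rw [if_neg e, if_pos e']
    convert (a1.sub a3).add (lifts_th_sub X.Q e (a4 x' e')) using 1
    abel
  · rw [if_neg e, if_neg e']
    convert a1.add (lifts_th_sub X.Q e e') using 1
    abel

/-- A function that lifts on a circle and vanishes off a ball has a lift that vanishes off a
bigger ball (`llc2_P`, `eq_of_coe_zero`; subtract the value at one far point). -/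
theorem exists_lift_zero : ∃ M : ℝ, 1 ≤ M ∧ ∀ (j : J) (φ : Cir Z) (s : Z) (r : ℝ), 0 < r →
    Lifts φ (X.Q.P j) → (∀ z, r < dist z s → φ z = 0) →
    ∃ h, IsLift φ (X.Q.P j) h ∧ ∀ z ∈ X.Q.P j, M * r < dist z s → h z = 0 := by
  obtain ⟨M, hM, hj⟩ := X.llc2_P 1 le_rfl
  refine ⟨M, hM, fun j φ s r hr ⟨h, hh⟩ h0 => ?_⟩
  by_cases hz : ∃ z₀ ∈ X.Q.P j, M * r < dist z₀ s
  swap
  · exact ⟨h, hh, fun z a1 a2 => absurd ⟨z, a1, a2⟩ hz⟩
  obtain ⟨z₀, a1, a2⟩ := hz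
  have a3 : (h z₀ : Real.Angle) = 0 := by
    rw [hh.2 z₀ a1]
    exact h0 _ (lt_of_le_of_lt (le_mul_of_one_le_left hr.le hM) a2)
  refine ⟨fun z => h z - h z₀, ⟨hh.1.sub continuousOn_const, fun z hz => ?_⟩, fun z hz hz' => ?_⟩
  · rw [Real.Angle.coe_sub, a3, sub_zero, hh.2 z hz]
  · obtain ⟨γ, hγ⟩ := hj s r hr j z hz z₀ a1 hz'.le a2.le
    refine sub_eq_zero.2 (eq_of_coe_zero (isPreconnected_range γ.continuous)
      (hh.1.mono ?_) ?_ γ.source_mem_range γ.target_mem_range)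
    · rintro _ ⟨t, rfl⟩
      exact (hγ t).1
    · rintro _ ⟨t, rfl⟩
      rw [hh.2 _ (hγ t).1]
      refine h0 _ ?_
      have := (hγ t).2
      rwa [mem_closedBall, not_le, one_mul] at this

/-- `ψ` from `exists_out D₁ D`; `φ` from `exists_step`, replaced by zero when `x • D = x' • D`;
`Φ` contains zero, the two finite sets and the functions `pb k⁻¹ ψ₀` with `len k ≤ K`
(`ψ x' = pb x⁻¹ (pb (x⁻¹ * x')⁻¹ ψ₀)`, `exists_nbr`); `h` from `exists_lift_zero`.  For `h_bdd`: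
`P (a • D)` has two points at distance `c * sc a` (`big_P_smul`), more than `2 L * sc x` by the
choice of `K3` (`exists_gap`), so `h` vanishes at a point of the circle; `corr` is `pb x⁻¹` of a
member of a finite set, the hole `(x⁻¹ * a) • D` ranges over a finite set; `IsLift.pb`,
`exists_osc`. -/
theorem exists_al {D D₁ : J} (hD : D₁ ≠ D) (K : ℕ) : Nonempty (Al X D D₁ K) := by
  classical
  obtain ⟨E, e1, e2⟩ := exists_edge_alpha X D K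
  obtain ⟨L₁, Φ₁, -, f1, hψ⟩ := exists_out X D₁ D
  choose ψ ψ1 ψ2 using hψ
  obtain ⟨L₂, Φ₂, -, f2, hφ⟩ := exists_step X D K
  obtain ⟨L₃, -, l3, hn⟩ := exists_nbr X.H L₁ K
  obtain ⟨M, hM, hz⟩ := exists_lift_zero X
  obtain ⟨Φ, f3, z3, i2, i1⟩ : ∃ Φ : Set (Cir Z), Φ.Finite ∧ 0 ∈ Φ ∧ Φ₂ ⊆ Φ ∧
      ∀ k : G, X.H.len k ≤ K → ∀ ψ₀ ∈ Φ₁, pb k⁻¹ ψ₀ ∈ Φ :=
    ⟨insert 0 (Φ₂ ∪ ⋃ k ∈ {g | X.H.len g ≤ K}, pb k⁻¹ '' Φ₁),
      (f2.union ((X.H.fin K).biUnion fun k _ => f1.image _)).insert _, mem_insert _ _,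
      fun _ h => Or.inr (Or.inl h),
      fun k hk ψ₀ h => Or.inr (Or.inr (mem_biUnion hk (mem_image_of_mem _ h)))⟩
  obtain ⟨L₀, l0, l1, l2⟩ : ∃ L₀ : ℝ, 0 < L₀ ∧ L₃ ≤ L₀ ∧ L₂ ≤ L₀ :=
    ⟨max L₃ L₂, lt_max_of_lt_left l3, le_max_left _ _, le_max_right _ _⟩
  have t0 : ∀ x : G, Test X.H L₀ Φ x 0 := fun x => ⟨⟨0, z3, (map_zero _).symm⟩, fun _ _ => rfl⟩
  have t1 : ∀ x x' : G, X.H.len (x⁻¹ * x') ≤ K → Test X.H L₀ Φ x (ψ x') := fun x x' hK => by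
    obtain ⟨⟨ψ₀, a1, a2⟩, a3⟩ := ψ1 x'
    refine ⟨⟨_, i1 _ hK ψ₀ a1, ?_⟩, fun z hz' => a3 z (not_le.1 fun a4 => ?_)⟩
    · rw [pb_pb, a2]
      congr 2
      group
    · exact absurd ((hn x x' hK z a4).trans (mul_le_mul_of_nonneg_right l1 (X.H.sc_pos x).le))
        (not_le.2 hz')
  have hφ' : ∀ x x' : G, ∃ (φ : Cir Z) (H : Z → ℝ), (x • D = x' • D → φ = 0) ∧
      (X.H.len (x⁻¹ * x') ≤ K → Test X.H L₀ Φ x φ ∧
        IsLift (φ - (th X.Q (x' • D) - th X.Q (x • D))) univ H) := fun x x' => by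
    by_cases e : x • D = x' • D
    · refine ⟨0, 0, fun _ => rfl, fun _ => ⟨t0 x, isLift_zero fun z _ => ?_⟩⟩
      rw [e, sub_self, sub_self]
      rfl
    by_cases hK : X.H.len (x⁻¹ * x') ≤ K
    · obtain ⟨φ, ⟨⟨φ₀, a1, a2⟩, a3⟩, H, a4⟩ := hφ x x' hK
      exact ⟨φ, H, fun h => absurd h e, fun _ => ⟨⟨⟨φ₀, i2 a1, a2⟩, fun z hz' =>
        a3 z (lt_of_le_of_lt (mul_le_mul_of_nonneg_right l2 (X.H.sc_pos x).le) hz')⟩, a4⟩⟩
    · exact ⟨0, 0, fun _ => rfl, fun h => absurd h hK⟩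
  choose φ Hφ φ1 φ2 using hφ'
  have t2 : ∀ (x x' : G) (j : J), X.H.len (x⁻¹ * x') ≤ K →
      Test X.H L₀ (image2 (· + ·) (image2 (· - ·) Φ Φ) Φ) x (corr D ψ φ x x' j) := by
    intro x x' j hK
    have a1 := (φ2 x x' hK).1
    have a2 : Test X.H L₀ Φ x (if x' • D = j then ψ x' else 0) := by
      split_ifs
      exacts [t1 x x' hK, t0 x]
    have a3 : Test X.H L₀ Φ x (if x • D = j then ψ x else 0) := by
      split_ifs
      · refine t1 x x ?_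
        rw [inv_mul_cancel, (X.H.len_eq_zero 1).2 rfl]
        exact Nat.zero_le _
      · exact t0 x
    unfold corr
    generalize (if x' • D = j then ψ x' else 0) = χ₂ at a2 ⊢
    generalize (if x • D = j then ψ x else 0) = χ₃ at a3 ⊢
    obtain ⟨⟨c₁, b1, d1⟩, g1⟩ := a1
    obtain ⟨⟨c₂, b2, d2⟩, g2⟩ := a2
    obtain ⟨⟨c₃, b3, d3⟩, g3⟩ := a3
    refine ⟨⟨c₁ - c₂ + c₃, mem_image2_of_mem (mem_image2_of_mem b1 b2) b3, ?_⟩, fun z hz' => ?_⟩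
    · rw [map_add, map_sub, d1, d2, d3]
    · rw [ContinuousMap.add_apply, ContinuousMap.sub_apply, g1 z hz', g2 z hz', g3 z hz',
        sub_zero, add_zero]
  have hh : ∀ (x x' : G) (j : J), ∃ h : Z → ℝ, X.H.len (x⁻¹ * x') ≤ K →
      IsLift (corr D ψ φ x x' j) (X.Q.P j) h ∧ ∀ z ∈ X.Q.P j,
        M * L₀ * X.H.sc x < dist z (X.H.loc x) → h z = 0 := fun x x' j => by
    by_cases hK : X.H.len (x⁻¹ * x') ≤ K
    · obtain ⟨h, a1, a2⟩ := hz j _ (X.H.loc x) (L₀ * X.H.sc x) (mul_pos l0 (X.H.sc_pos x))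
        (lifts_corr X hD ψ2 ⟨_, (φ2 x x' hK).2⟩ j) (t2 x x' j hK).2
      exact ⟨h, fun _ => ⟨a1, fun z a3 a4 => a2 z a3 (by rwa [← mul_assoc])⟩⟩
    · exact ⟨0, fun h => absurd h hK⟩
  choose h h1 using hh
  have t3 : ∀ (x : G) (χ : Cir Z), Test X.H L₀ Φ x χ → Test X.H (M * L₀) Φ x χ :=
    fun x χ a => ⟨a.1, fun z hz' => a.2 z (lt_of_le_of_lt (mul_le_mul_of_nonneg_right
      (le_mul_of_one_le_left l0.le hM) (X.H.sc_pos x).le) hz')⟩
  obtain ⟨c, c0, hc⟩ := X.big_P_smul D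
  obtain ⟨K3, k3⟩ := exists_gap X.H (2 * (M * L₀) / c)
  refine ⟨⟨E, ψ, φ, Hφ, h, M * L₀, Φ, max K K3, by positivity, f3, le_max_left _ _, e1, e2, ψ2,
    fun x x' hK => t3 _ _ (t1 x x' hK), fun x x' hK => t3 _ _ (φ2 x x' hK).1,
    fun x x' hK => (φ2 x x' hK).2, φ1, fun x x' j hK => (h1 x x' j hK).1,
    fun x x' j hK => (h1 x x' j hK).2, fun n => ?_⟩⟩
  choose B hB using fun p : Cir Z × G => exists_osc p.1 (X.Q.isCompact_P (p.2 • D))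
    (X.Q.isPathConnected_P (p.2 • D)).isConnected.isPreconnected
  obtain ⟨B₀, hB₀⟩ := ((((f3.image2 (· - ·) f3).image2 (· + ·) f3).prod (X.H.fin n)).image
    B).bddAbove
  refine ⟨B₀, fun x x' a hK hn' hl => ?_⟩
  obtain ⟨χ, a1, a2⟩ := (t2 x x' (a • D) hK).1
  obtain ⟨a3, a4⟩ := h1 x x' (a • D) hK
  obtain ⟨z₀, a5, a6⟩ : ∃ z₀ ∈ X.Q.P (a • D), M * L₀ * X.H.sc x < dist z₀ (X.H.loc x) := by
    obtain ⟨u, hu, v, hv, huv⟩ := (hc a).1
    have b1 := k3 a x (le_trans (Nat.add_le_add_left (le_max_right _ _) _) hl)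
    rw [div_mul_eq_mul_div, div_lt_iff₀ c0] at b1
    have b2 := dist_triangle_right u v (X.H.loc x)
    by_cases b3 : M * L₀ * X.H.sc x < dist u (X.H.loc x)
    · exact ⟨u, hu, b3⟩
    · exact ⟨v, hv, by linarith⟩
  have a7 : X.Q.P (a • D) = x • X.Q.P ((x⁻¹ * a) • D) := by
    rw [← X.act_P, smul_smul, mul_inv_cancel_left]
  have a8 : IsLift χ (X.Q.P ((x⁻¹ * a) • D)) fun z => h x x' (a • D) (x • z) := by
    rw [a7] at a3
    have := a3.pb x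
    rwa [a2, pb_pb, inv_mul_cancel, pb_one] at this
  have a9 := hB (χ, x⁻¹ * a) _ a8 (x⁻¹ • E.ρ a) (mem_smul_set_iff_inv_smul_mem.1 (a7 ▸ e1 a))
    (x⁻¹ • z₀) (mem_smul_set_iff_inv_smul_mem.1 (a7 ▸ a5))
  simp only [smul_inv_smul] at a9
  rw [a4 z₀ a5 a6, sub_zero] at a9
  exact a9.trans (hB₀ ⟨(χ, x⁻¹ * a), ⟨a1, hn'⟩, rfl⟩)

end KKC.S3
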