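import Pool.Agent.Lib.MP_e1e491_gt.S3BInv

set_option autoImplicit false

/-!
Inner test functions.
-/

namespace KKC.S3

open Set Metric
open scoped Pointwise

variable {G Z J : Type} [Group G] [MetricSpace Z] [CompactSpace Z] [MulAction G Z]
  [ContinuousConstSMul G Z] [MulAction G J]

/-- The direction from a point off the carpet. -/
noncomputable def s3binnTh (Q : PD Z J) (p : ((range Q.ι)ᶜ : Set ℂ)) : Cir Z where
  toFun z := (Complex.arg (Q.ι z - p) : Real.Angle)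
  continuous_toFun := continuous_iff_continuousAt.2 fun z =>
    ContinuousAt.comp (g := fun w : ℂ => (Complex.arg w : Real.Angle))
      (f := fun z => Q.ι z - p)
      (Complex.continuousAt_arg_coe_angle (sub_ne_zero.2 fun e => p.2 ⟨z, e⟩))
      (Q.ι_cont.sub continuous_const).continuousAt

/-- The difference of the directions has a representative supported over `S`. -/
def S3binnRel (Q : PD Z J) (S : Set ℂ) (p p' : ((range Q.ι)ᶜ : Set ℂ)) : Prop :=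
  ∃ (φ : Cir Z) (N : Set Z), IsCompact N ∧ (∀ z ∈ N, Q.ι z ∈ S) ∧ (∀ z, z ∉ N → φ z = 0) ∧
    Lifts (φ - (s3binnTh Q p' - s3binnTh Q p)) univ

omit [CompactSpace Z] in
theorem s3binn_trans {Q : PD Z J} {S : Set ℂ} {p p' p'' : ((range Q.ι)ᶜ : Set ℂ)}
    (h : S3binnRel Q S p p') (h' : S3binnRel Q S p' p'') : S3binnRel Q S p p'' := by
  obtain ⟨φ, N, h1, h2, h3, h4⟩ := h
  obtain ⟨φ', N', h1', h2', h3', h4'⟩ := h'
  refine ⟨φ + φ', N ∪ N', h1.union h1', fun z hz => hz.elim (h2 z) (h2' z), fun z hz => ?_, ?_⟩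
  · rw [ContinuousMap.add_apply, h3 z fun h => hz (Or.inl h), h3' z fun h => hz (Or.inr h),
      add_zero]
  · have e : φ + φ' - (s3binnTh Q p'' - s3binnTh Q p) = φ - (s3binnTh Q p' - s3binnTh Q p) +
        (φ' - (s3binnTh Q p'' - s3binnTh Q p')) := by abel
    rw [e]
    exact h4.add h4'

theorem s3binn_cos {a b : ℂ} (h : ‖b - a‖ < ‖a‖) :
    0 ≤ ((Complex.arg b : Real.Angle) - (Complex.arg a : Real.Angle)).cos := by
  have ha' : 0 < ‖a‖ := (norm_nonneg _).trans_lt h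
  have ha : a ≠ 0 := norm_pos_iff.1 ha'
  have hb : b ≠ 0 := by
    rintro rfl
    rw [zero_sub, norm_neg] at h
    exact lt_irrefl _ h
  rw [← Complex.arg_div_coe_angle hb ha, Real.Angle.cos_coe, Complex.cos_arg (div_ne_zero hb ha)]
  refine div_nonneg ?_ (norm_nonneg _)
  have e : b / a = 1 + (b - a) / a := by
    field_simp
    ring
  have h1 : ‖(b - a) / a‖ < 1 := by
    rw [norm_div]
    exact (div_lt_one ha').2 h
  have h2 := (abs_le.1 (Complex.abs_re_le_norm ((b - a) / a))).1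
  rw [e, Complex.add_re, Complex.one_re]
  linarith

theorem s3binn_loc {Q : PD Z J} {S : Set ℂ} {q : ℂ} {ρ : ℝ} (hS : closedBall q (3 * ρ) ⊆ S)
    {p p' : ((range Q.ι)ᶜ : Set ℂ)} (hp : (p : ℂ) ∈ ball q ρ) (hp' : (p' : ℂ) ∈ ball q ρ) :
    S3binnRel Q S p p' := by
  obtain ⟨φ, h1, h2⟩ := exists_collapse (s3binnTh Q p' - s3binnTh Q p)
  refine ⟨φ, Q.ι ⁻¹' closedBall q (3 * ρ), (isClosed_closedBall.preimage Q.ι_cont).isCompact,
    fun z hz => hS hz, fun z hz => h2 z ?_, h1⟩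
  have h3 : 3 * ρ < dist (Q.ι z) q := lt_of_not_ge hz
  have h4 : dist (p : ℂ) q < ρ := hp
  have h5 : dist (p' : ℂ) q < ρ := hp'
  have h6 := dist_triangle (Q.ι z) p q
  have h7 := dist_triangle_right (p : ℂ) p' q
  refine s3binn_cos (a := Q.ι z - p) (b := Q.ι z - p') ?_
  rw [sub_sub_sub_cancel_left, ← dist_eq_norm, ← dist_eq_norm]
  linarith

omit [CompactSpace Z] in
theorem s3binn_dense (Q : PD Z J) {U : Set ℂ} (hU : IsOpen U) (hne : U.Nonempty) :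
    ∃ p : ((range Q.ι)ᶜ : Set ℂ), (p : ℂ) ∈ U := by
  obtain ⟨v, hv⟩ := hne
  by_cases h : v ∈ range Q.ι
  · obtain ⟨z, rfl⟩ := h
    obtain ⟨j, hj⟩ := Q.dense (Q.ι ⁻¹' U) (hU.preimage Q.ι_cont) ⟨z, hv⟩
    obtain ⟨b, hb⟩ : (Q.P j).Nonempty := by
      have h1 : Q.c j + (Q.r j : ℂ) ∈ Q.ι '' Q.P j := by
        rw [Q.P_eq, mem_ofPred_eq, add_sub_cancel_left]
        have := Q.r_pos j
        simp [sn, abs_of_pos this, this.le]
      obtain ⟨b, hb, -⟩ := h1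
      exact ⟨b, hb⟩
    have h2 : Q.ι b ∈ closure (Q.D j) := by
      rw [Q.closure_D]
      exact Or.inr ⟨b, hb, rfl⟩
    obtain ⟨w, hw1, hw2⟩ := mem_closure_iff.1 h2 U hU (hj hb)
    refine ⟨⟨w, ?_⟩, hw1⟩
    rintro ⟨y, rfl⟩
    exact Q.not_mem y j hw2
  · exact ⟨⟨v, h⟩, hv⟩

theorem s3binn_ball {S : Set ℂ} (hS : IsOpen S) {q : ℂ} (hq : q ∈ S) :
    ∃ ρ > 0, closedBall q (3 * ρ) ⊆ S := by
  obtain ⟨ε, hε, h⟩ := nhds_basis_closedBall.mem_iff.1 (hS.mem_nhds hq)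
  refine ⟨ε / 3, by positivity, ?_⟩
  rwa [show 3 * (ε / 3) = ε by ring]

theorem s3binn_rel {Q : PD Z J} {S : Set ℂ} (hS : IsOpen S) (hc : IsPreconnected S)
    {p p' : ((range Q.ι)ᶜ : Set ℂ)} (hp : (p : ℂ) ∈ S) (hp' : (p' : ℂ) ∈ S) :
    S3binnRel Q S p p' := by
  obtain ⟨u, hu⟩ : ∃ u : Set ℂ, ∀ q, q ∈ u ↔ ∃ ρ > 0, ∀ w : ((range Q.ι)ᶜ : Set ℂ),
      (w : ℂ) ∈ ball q ρ → S3binnRel Q S p w := ⟨{q | _}, fun _ => Iff.rfl⟩
  have h1 : IsOpen u := by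
    refine Metric.isOpen_iff.2 fun q hq => ?_
    obtain ⟨ρ, hρ, h⟩ := (hu q).1 hq
    refine ⟨ρ, hρ, fun q' hq' => ?_⟩
    obtain ⟨ε, hε, h2⟩ := Metric.isOpen_iff.1 isOpen_ball q' hq'
    exact (hu q').2 ⟨ε, hε, fun w hw => h w (h2 hw)⟩
  have h2 : (S ∩ u).Nonempty := by
    obtain ⟨ρ, hρ, h⟩ := s3binn_ball hS hp
    exact ⟨p, hp, (hu p).2 ⟨ρ, hρ, fun w hw => s3binn_loc h (mem_ball_self hρ) hw⟩⟩
  have h3 : closure u ∩ S ⊆ u := by
    rintro q ⟨hq1, hq2⟩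
    obtain ⟨ρ, hρ, h⟩ := s3binn_ball hS hq2
    obtain ⟨q', hq3, hq4⟩ := mem_closure_iff.1 hq1 (ball q ρ) isOpen_ball (mem_ball_self hρ)
    obtain ⟨ρ', hρ', h'⟩ := (hu q').1 hq4
    obtain ⟨w, hw1, hw2⟩ := s3binn_dense Q (isOpen_ball.inter isOpen_ball)
      (⟨q', hq3, mem_ball_self hρ'⟩ : (ball q ρ ∩ ball q' ρ').Nonempty)
    exact (hu q).2 ⟨ρ, hρ, fun w' hw' => s3binn_trans (h' w hw2) (s3binn_loc h hw1 hw')⟩
  obtain ⟨ρ, hρ, h⟩ := (hu p').1 (hc.subset_of_closure_inter_subset h1 h2 h3 hp')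
  exact h p' (mem_ball_self hρ)

/-- Let `S` be the side, an open preconnected subset of the plane.  For `p ∉ range ι` let `θ p` be
the function `z ↦ arg (ι z - p)`.  Call `p, p' ∈ S \ range ι` related if `θ p' - θ p` has a
representative that vanishes off a compact subset of `ι ⁻¹' S`; this is an equivalence relation.
If `closedBall q (3 ρ) ⊆ S` and `p, p' ∈ ball q ρ` they are related: outside `ball q (3 ρ)` the
quotient `(z - p') / (z - p)` has positive real part, use `exists_collapse`.  The complement of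
`range ι` is dense (`Q.dense`, `closure_D`), so the class of the points near `q` is a locally
constant function of `q ∈ S`. -/
theorem exists_inn (Q : PD Z J) {C : Set Z} (hC : IsClosed C) {i j : J}
    (h : Q.Same C (.inr i) (.inr j)) : ∃ (φ : Cir Z) (N : Set Z), IsCompact N ∧
      (∀ z ∈ N, Q.Same C (.inr i) (.inl z)) ∧ (∀ z, z ∉ N → φ z = 0) ∧
      Lifts (φ - (th Q j - th Q i)) univ := by
  have hb : ∀ k, Q.bp k ∈ (range Q.ι)ᶜ := by
    rintro k ⟨z, e⟩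
    exact Q.not_mem z k (e ▸ Q.bp_mem k)
  exact s3binn_rel (Q := Q) (Q.isOpen_side hC (.inr i)) isPreconnected_connectedComponentIn
    (p := ⟨Q.bp i, hb i⟩) (p' := ⟨Q.bp j, hb j⟩) (Q.same_refl_inr C i) h

/-- `exists_inn` for the holes `D`, `k • D` with `k ∈ F` in the ball of radius `K`, and
`exists_sign`. -/
theorem exists_inn_step (X : CS G Z J) {C : Set Z} (hC : IsClosed C) (F : Subgroup G) (D : J)
    (hF : ∀ f ∈ F, X.Q.Same C (.inr D) (.inr (f • D))) (K : ℕ) :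
    ∃ (Φ : Set (Cir Z)) (N : Set Z), Φ.Finite ∧ IsCompact N ∧
      (∀ z ∈ N, X.Q.Same C (.inr D) (.inl z)) ∧ (∀ φ ∈ Φ, ∀ z, z ∉ N → φ z = 0) ∧
      ∀ x x' : G, x⁻¹ * x' ∈ F → X.H.len (x⁻¹ * x') ≤ K → ∃ φ₀ ∈ Φ,
        Lifts (pb x⁻¹ φ₀ - (th X.Q (x' • D) - th X.Q (x • D))) univ := by
  choose! φ N h1 h2 h3 h4 using fun f (hf : f ∈ F) => exists_inn X.Q hC (hF f hf)
  obtain ⟨T, hT⟩ : ∃ T : Set G, ∀ k, k ∈ T ↔ k ∈ F ∧ X.H.len k ≤ K :=
    ⟨{k | _}, fun _ => Iff.rfl⟩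
  have hfin : T.Finite := (X.H.fin K).subset fun k hk => ((hT k).1 hk).2
  refine ⟨φ '' T ∪ (fun k => -φ k) '' T, ⋃ k ∈ T, N k, (hfin.image _).union (hfin.image _),
    hfin.isCompact_biUnion fun k hk => h1 k ((hT k).1 hk).1, ?_, ?_, ?_⟩
  · intro z hz
    obtain ⟨k, hk, hz⟩ := mem_iUnion₂.1 hz
    exact h2 k ((hT k).1 hk).1 z hz
  · have h5 : ∀ k ∈ T, ∀ z, z ∉ ⋃ k ∈ T, N k → φ k z = 0 := fun k hk z hz =>
      h3 k ((hT k).1 hk).1 z fun h => hz (mem_iUnion₂.2 ⟨k, hk, h⟩)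
    rintro ψ (⟨k, hk, rfl⟩ | ⟨k, hk, rfl⟩) z hz
    · exact h5 k hk z hz
    · rw [ContinuousMap.neg_apply, h5 k hk z hz, neg_zero]
  · intro x x' hx hl
    have hk := (hT _).2 ⟨hx, hl⟩
    obtain ⟨φ₀, h5, h6⟩ := exists_sign X (h4 _ hx) x
    rw [smul_smul, mul_inv_cancel_left] at h6
    refine ⟨φ₀, ?_, h6⟩
    rcases h5 with h5 | h5
    · exact Or.inl ⟨_, hk, h5.symm⟩
    · exact Or.inr ⟨_, hk, h5.symm⟩

end KKC.S3
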