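import Pool.Agent.Lib.MP_e1e491_gt.S3BBetaE
import Pool.Agent.Lib.MP_e1e491_gt.S3BInn

set_option autoImplicit false

/-!
Linking data when the side meets the carpet.
-/

namespace KKC.S3

open Set Metric
open scoped Pointwise

variable {G Z J : Type} [Group G] [MetricSpace Z] [CompactSpace Z] [MulAction G Z]
  [ContinuousConstSMul G Z] [MulAction G J] (X : CS G Z J)

theorem s3bbeta_disj {C : Set Z} {D : J} (hD : Disjoint (X.Q.P D) C) {x : G} (hx : x • C = C) :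
    Disjoint (X.Q.P (x • D)) C := by
  rw [X.act_P, ← hx]
  exact disjoint_smul_set.2 hD

/-- A representative of an admissible class is admissible. -/
theorem s3bbeta_adm {C : Set Z} {τ ψ : Cir Z} (hτ : τ ∈ adm X.Q C) (h : Lifts (ψ - τ) univ) :
    ψ ∈ adm X.Q C := by
  have := add_mem (mem_adm_of_lifts X.Q C h) hτ
  rwa [sub_add_cancel] at this

/-- The coboundary depends on the class only. -/
theorem s3bbeta_cob {C : Set Z} {A : Subgroup G} {K : ℕ} (E : Edge X.H A K (adm X.Q C))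
    {θ θ' ψ : Cir Z} (h : Lifts (ψ - (θ' - θ)) univ) (θ₀ : Cir Z) {a b c : G} (ha : a ∈ A)
    (hb : b ∈ A) (hc : c ∈ A) (ht : Tri X.H.len K a b c) :
    cob (fun a b => E.V a b (θ' - θ₀)) a b c - cob (fun a b => E.V a b (θ - θ₀)) a b c =
      cob (fun a b => E.V a b ψ) a b c := by
  have hm := mem_adm_of_lifts X.Q C h
  obtain ⟨f, hf⟩ := h
  have h1 := E.lift ha hb ht.1 hm hf
  have h2 := E.lift hb hc ht.2.1 hm hf
  have h3 := E.lift ha hc ht.2.2 hm hf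
  simp only [cob, map_sub] at h1 h2 h3 ⊢
  linarith

/-- Let `W x = cob (fun a a' => E.V a a' (th (x • D) - th D))` and `I x x' a a' = E.V a a' (φ x x')`
with `φ x x'` from `exists_step`; all these functions are admissible (`th_sub_mem_adm`,
`mem_adm_of_lifts`; `x • D` does not touch `C`).  The two coboundary identities follow from
`Edge.lift`; `deep` from `Edge.deep`; the bounds from `Edge.bdd`.  `out_far`: a plane edge with
`len a + K3 ≤ len x` is carried by the complement of the ball (`hin`), otherwise use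
`exists_far` with `M = K1 + K + K3` and `E.loc`.  `inn_far`: by `heq` the value is
`E.V (x⁻¹ * a) (x⁻¹ * a') (φ₀ x x')`, and the ball of `E.loc` misses `N` (`exists_deep_subset`
with `O = Nᶜ`).  `inn_fin`: the same with `O = (x • N)ᶜ`. -/
theorem link_beta {C : Set Z} (hC : IsClosed C) (hn : C.Nontrivial) {A F : Subgroup G}
    (hA : ∀ a, a ∈ A ↔ a • C = C) (hFA : F ≤ A) {K : ℕ} (E : Edge X.H A K (adm X.Q C))
    (heq : ∀ x a a', a⁻¹ * a' ∈ F → ∀ ψ, E.V (x * a) (x * a') ψ = E.V a a' (pb x ψ))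
    (hin : ∀ L : ℝ, 0 < L → ∃ K3 : ℕ, ∀ x ∈ A, ∀ a ∈ A, ∀ a', a⁻¹ * a' ∈ F →
      X.H.len (a⁻¹ * a') ≤ K → X.H.len a + K3 ≤ X.H.len x →
      Carr (adm X.Q C) (E.V a a') (E.ρ a) (E.ρ a') (closedBall (X.H.loc x) (L * X.H.sc x))ᶜ)
    {D : J} (hD : Disjoint (X.Q.P D) C) {Φ : Set (Cir Z)} {N : Set Z} (hΦ : Φ.Finite)
    (hN : IsCompact N) (hNC : Disjoint N C) (h0 : ∀ φ ∈ Φ, ∀ z, z ∉ N → φ z = 0)
    (φ₀ : G → G → Cir Z) (hφ : ∀ x ∈ F, ∀ x' ∈ F, X.H.len (x⁻¹ * x') ≤ K → φ₀ x x' ∈ Φ ∧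
      Lifts (pb x⁻¹ (φ₀ x x') - (th X.Q (x' • D) - th X.Q (x • D))) univ) :
    ∃ (K1 K2 : ℕ) (B : ℝ) (W I : G → G → G → G → ℝ), LinkG X.H.len A F K K1 K2 B W I
      (fun x x' a a' => E.V a a' (pb x⁻¹ (φ₀ x x'))) := by
  obtain ⟨L, Ψ, hL, hΨ, hstep⟩ := exists_step X D K
  choose! φ hT hlift using hstep
  have hτ : ∀ x ∈ A, ∀ x' ∈ A, th X.Q (x' • D) - th X.Q (x • D) ∈ adm X.Q C := fun x hx x' hx' =>
    th_sub_mem_adm X.Q (s3bbeta_disj X hD ((hA x).1 hx)) (s3bbeta_disj X hD ((hA x').1 hx'))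
  have hadm : ∀ x ∈ A, ∀ x' ∈ A, X.H.len (x⁻¹ * x') ≤ K → φ x x' ∈ adm X.Q C :=
    fun x hx x' hx' h => s3bbeta_adm X (hτ x hx x' hx') (hlift x x' h)
  have hadm0 : ∀ x ∈ F, ∀ x' ∈ F, X.H.len (x⁻¹ * x') ≤ K → pb x⁻¹ (φ₀ x x') ∈ adm X.Q C :=
    fun x hx x' hx' h => s3bbeta_adm X (hτ x (hFA hx) x' (hFA hx')) (hφ x hx x' hx' h).2
  obtain ⟨K1, hK1⟩ := E.deep hΨ
  obtain ⟨K3, hK3⟩ := hin L hL
  obtain ⟨K4, hK4⟩ := exists_far X.H (max L E.L) (K1 + K + K3)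
  obtain ⟨K5, hK5⟩ := exists_deep_subset X.H hC hn hN.isClosed.isOpen_compl
    hNC.subset_compl_left E.L
  obtain ⟨B1, -, hB1⟩ := E.bdd hΨ (max K4 K5)
  obtain ⟨B2, -, hB2⟩ := E.bdd hΦ (max K4 K5)
  refine ⟨K1, max K4 K5, max B1 B2,
    fun x => cob fun a b => E.V a b (th X.Q (x • D) - th X.Q D),
    fun x x' a b => E.V a b (φ x x'), ?_, ?_, ?_, ?_, ?_, ?_, ?_, ?_⟩
  · intro x hx x' hx' a ha b hb c hc hxx ht hlt
    have h1 := s3bbeta_cob X E (hlift x x' hxx) (th X.Q D) ha hb hc ht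
    obtain ⟨ψ, hψ, e⟩ := (hT x x' hxx).1
    have h2 := hK1 x a ha b hb c hc ht hlt ψ hψ (e ▸ hadm x hx x' hx' hxx)
    rw [← e] at h2
    exact sub_eq_zero.1 (h1.trans h2)
  · intro x _ x' _ a ha b hb c hc hxx ht
    exact s3bbeta_cob X E (hlift x x' hxx) (th X.Q D) ha hb hc ht
  · intro x _ x' _ a ha b hb hxx hab hle
    obtain ⟨ψ, hψ, e⟩ := (hT x x' hxx).1
    rw [e]
    exact (hB1 x a ha b hb hab hle ψ hψ).trans (le_max_left _ _)
  · intro x hx x' hx' a ha b hb hxx hab hlt hle hor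
    by_cases h : a⁻¹ * b ∈ F ∧ X.H.len a + K3 ≤ X.H.len x
    · refine (hK3 x hx a ha b h.1 hab h.2).eq_zero (hadm x hx x' hx' hxx) fun z hz => ?_
      exact (hT x x' hxx).2 z (not_le.1 fun h' => hz (mem_closedBall.2 h'))
    · have h1 : X.H.len x ≤ X.H.len a + (K1 + K + K3) := by
        rcases hor with h2 | h2
        · have : ¬ X.H.len a + K3 ≤ X.H.len x := fun h3 => h ⟨h2, h3⟩
          omega
        · omega
      refine (E.loc a ha b hb hab).eq_zero (hadm x hx x' hx' hxx) fun z hz => ?_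
      have h2 := hK4 x a (lt_of_le_of_lt (le_max_left _ _) hlt) (by omega) h1 z
        ((mem_closedBall.1 hz).trans
          (mul_le_mul_of_nonneg_right (le_max_right _ _) (X.H.sc_pos a).le))
      exact (hT x x' hxx).2 z
        ((mul_le_mul_of_nonneg_right (le_max_left _ _) (X.H.sc_pos x).le).trans_lt h2)
  · intro x hx x' hx' a ha b hb c hc hxx ht
    exact s3bbeta_cob X E (hφ x hx x' hx' hxx).2 (th X.Q D) ha hb hc ht
  · intro x hx x' hx' hxx
    have hxC : x • C = C := (hA x).1 (hFA hx)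
    have hd : Disjoint (x • N) C := by
      rw [← hxC]
      exact disjoint_smul_set.2 hNC
    obtain ⟨R, hR⟩ := exists_deep_subset X.H hC hn (hN.smul x).isClosed.isOpen_compl
      hd.subset_compl_left E.L
    refine ⟨R, fun a ha b hb hab hlt => ?_⟩
    refine (E.loc a ha b hb hab).eq_zero (hadm0 x hx x' hx' hxx) fun z hz => ?_
    exact h0 _ (hφ x hx x' hx' hxx).1 _ fun h =>
      hR a ((hA a).1 ha) hlt.le hz (mem_smul_set_iff_inv_smul_mem.2 h)
  · intro x hx x' hx' a ha b hb hxx hab _ hle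
    exact (hB2 x a ha b hb hab hle _ (hφ x hx x' hx' hxx).1).trans (le_max_right _ _)
  · intro x hx x' hx' a ha b hb hxx hab hF hlt
    have hxA : x⁻¹ ∈ A := inv_mem (hFA hx)
    have h1 : φ₀ x x' ∈ adm X.Q C := by
      have := pb_mem_adm X ((hA x).1 (hFA hx)) (hadm0 x hx x' hx' hxx)
      rwa [pb_pb, inv_mul_cancel, pb_one] at this
    have h2 : X.H.len ((x⁻¹ * a)⁻¹ * (x⁻¹ * b)) ≤ K := by
      rw [show (x⁻¹ * a)⁻¹ * (x⁻¹ * b) = a⁻¹ * b by group]
      exact hab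
    refine (heq x⁻¹ a b hF _).symm.trans ?_
    refine (E.loc _ (mul_mem hxA ha) _ (mul_mem hxA hb) h2).eq_zero h1 fun z hz => ?_
    exact h0 _ (hφ x hx x' hx' hxx).1 _
      (hK5 _ ((hA _).1 (mul_mem hxA ha)) ((le_max_right _ _).trans hlt.le) hz)

end KKC.S3
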