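import Pool.Agent.Lib.MP_e1e491_gt.S3BConn

set_option autoImplicit false

/-!
The realisation of the edges when the side meets the carpet.
-/

namespace KKC.S3

open Set Metric
open scoped Pointwise

variable {G Z J : Type} [Group G] [MetricSpace Z] [CompactSpace Z] [MulAction G Z]
  [ContinuousConstSMul G Z] [MulAction G J] (X : CS G Z J)

/-- For `k ∈ F` take `V k`, `N k` from `exists_route` (`same_iff_link`); `N` is the union of the
`N k` with `len k ≤ K`.  A plane edge is `(V (a⁻¹ * a')).comp (pb a)`.  It is carried by every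
`Y` with `Good (a • N) Y` (`Good.smul` with `a⁻¹`, `Carr.smul`, `pb_mem_adm`); use
`exists_small_smul` and `exists_good'` for `loc`; use `exists_away`, `loc_near_of_smul_eq`,
`exists_gap` and `exists_good` for the last property.  The other edges come from `exists_conn`
with `T = univ`, `u = b`, `v = k • b` (`isPathConnected_compl_pt`, `exists_small_smul`). -/
theorem exists_edge_beta {C : Set Z} (hC : IsClosed C) (hn : C.Nontrivial) {A F : Subgroup G}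
    (hA : ∀ a, a ∈ A ↔ a • C = C) {b : Z} (hb : b ∉ C)
    (hF : ∀ f ∈ F, f ∈ A ∧ X.Q.Same C (.inl b) (.inl (f • b))) (K : ℕ) :
    ∃ E : Edge X.H A K (adm X.Q C), (∀ a, E.ρ a = a • b) ∧
      (∀ x a a', a⁻¹ * a' ∈ F → ∀ ψ, E.V (x * a) (x * a') ψ = E.V a a' (pb x ψ)) ∧
      ∀ L : ℝ, 0 < L → ∃ K3 : ℕ, ∀ x ∈ A, ∀ a ∈ A, ∀ a', a⁻¹ * a' ∈ F →
        X.H.len (a⁻¹ * a') ≤ K → X.H.len a + K3 ≤ X.H.len x →
        Carr (adm X.Q C) (E.V a a') (E.ρ a) (E.ρ a')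
          (closedBall (X.H.loc x) (L * X.H.sc x))ᶜ := by
  classical
  have h1 : ∀ k : G, ∃ (V : Cir Z →+ ℝ) (N : Set Z), IsCompact N ∧ Disjoint N C ∧
      (k ∈ F → ∀ Y, Good X.Q C N Y → Carr (adm X.Q C) V b (k • b) Y) := fun k => by
    by_cases hk : k ∈ F
    · obtain ⟨V, N, a1, a2, -, -, a3⟩ :=
        exists_route X.Q hb ((X.Q.same_iff_link hC hb).1 (hF k hk).2)
      exact ⟨V, N, a1, a2, fun _ => a3⟩
    · exact ⟨0, ∅, isCompact_empty, empty_disjoint _, fun h => absurd h hk⟩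
  choose V N n1 n2 n3 using h1
  have h2 : ∀ k : G, ∃ (L : ℝ) (𝒱 : Set (Cir Z →+ ℝ)), 𝒱.Finite ∧ ∀ a : G, ∃ V₀, k ∈ A → a ∈ A →
      V₀ ∈ 𝒱 ∧ Carr ⊤ (V₀.comp (pb a)) (a • b) (a • k • b)
        (closedBall (X.H.loc a) (L * X.H.sc a)) := fun k => by
    by_cases hk : k ∈ A
    · obtain ⟨M, -, hM⟩ := exists_small_smul X.H hC hn (N := {b, k • b}) (toFinite _).isCompact
        (by
          rw [disjoint_insert_left, disjoint_singleton_left]
          exact ⟨hb, fun e => hb (smul_mem_smul_set_iff.1 (((hA k).1 hk).symm ▸ e))⟩)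
      obtain ⟨L, 𝒱, -, a1, a2⟩ := exists_conn X.H (T := univ) (u := b) (v := k • b)
        (X.Q.isPathConnected_univ.joinedIn _ trivial _ trivial) (fun y e e' => by
          rw [← compl_eq_univ_sdiff]
          exact (X.Q.isPathConnected_compl_pt y).joinedIn _ e.symm _ e'.symm) M
      refine ⟨L, 𝒱, a1, fun a => ?_⟩
      by_cases ha : a ∈ A
      · obtain ⟨V₀, a3, a4⟩ := a2 a (hM a ((hA a).1 ha) _ (Or.inl rfl))
          (hM a ((hA a).1 ha) _ (Or.inr rfl))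
        exact ⟨V₀, fun _ _ => ⟨a3, a4.mono inter_subset_right⟩⟩
      · exact ⟨0, fun _ h => absurd h ha⟩
    · exact ⟨0, ∅, finite_empty, fun _ => ⟨0, fun h => absurd h hk⟩⟩
  choose L 𝒱 v1 W v2 using h2
  obtain ⟨L₀, hL₀⟩ := ((X.H.fin K).image L).bddAbove
  have c1 : IsCompact (⋃ k ∈ {g | X.H.len g ≤ K}, N k) :=
    (X.H.fin K).isCompact_biUnion fun k _ => n1 k
  have c2 : Disjoint (⋃ k ∈ {g | X.H.len g ≤ K}, N k) C :=
    disjoint_iUnion₂_left.2 fun k _ => n2 k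
  have c3 : ∀ k, X.H.len k ≤ K → N k ⊆ ⋃ k ∈ {g | X.H.len g ≤ K}, N k := fun k hk =>
    subset_biUnion_of_mem (u := N) hk
  generalize (⋃ k ∈ {g | X.H.len g ≤ K}, N k) = N₀ at c1 c2 c3
  have key : ∀ a ∈ A, ∀ a', a⁻¹ * a' ∈ F → X.H.len (a⁻¹ * a') ≤ K → ∀ Y,
      Good X.Q C (a • N₀) Y → Carr (adm X.Q C)
        ((if a⁻¹ * a' ∈ F then V (a⁻¹ * a') else W (a⁻¹ * a') a).comp (pb a))
        (a • b) (a' • b) Y := by
    intro a ha a' hk hK Y hY
    have a1 := hY.smul X ((hA _).1 (A.inv_mem ha))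
    rw [inv_smul_smul] at a1
    have a2 := (n3 _ hk _ (a1.mono (c3 _ hK))).smul (Adm' := adm X.Q C) a
      fun φ hφ => pb_mem_adm X ((hA a).1 ha) hφ
    rw [smul_inv_smul, smul_smul, mul_inv_cancel_left] at a2
    rwa [if_pos hk]
  obtain ⟨L₁, l1, l2⟩ := exists_small_smul X.H hC hn c1 c2
  obtain ⟨M₁, m1, m2⟩ := exists_good' X
  refine ⟨⟨fun a => a • b,
    fun a a' => (if a⁻¹ * a' ∈ F then V (a⁻¹ * a') else W (a⁻¹ * a') a).comp (pb a),
    max (M₁ * L₁) L₀, lt_max_of_lt_left (by positivity), fun a ha a' ha' hK => ?_,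
    V '' {g | X.H.len g ≤ K} ∪ ⋃ k ∈ {g | X.H.len g ≤ K}, 𝒱 k,
    ((X.H.fin K).image V).union ((X.H.fin K).biUnion fun k _ => v1 k), fun a ha a' ha' hK =>
      ⟨_, ?_, fun _ => rfl⟩⟩, fun _ => rfl, fun x a a' hk ψ => ?_, fun L' hL' => ?_⟩
  · have a0 := X.H.sc_pos a
    by_cases hk : a⁻¹ * a' ∈ F
    · refine (key a ha a' hk hK _ (m2 C _ (X.H.loc a) (L₁ * X.H.sc a) (by positivity) ?_)).mono
        (closedBall_subset_closedBall ?_)
      · rintro _ ⟨z, hz, rfl⟩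
        exact l2 a ((hA a).1 ha) z hz
      · rw [← mul_assoc]
        exact mul_le_mul_of_nonneg_right (le_max_left _ _) a0.le
    · have a1 := (v2 _ a (A.mul_mem (A.inv_mem ha) ha') ha).2.anti (Adm' := adm X.Q C) le_top
      rw [smul_smul, mul_inv_cancel_left] at a1
      rw [if_neg hk]
      exact a1.mono (closedBall_subset_closedBall (mul_le_mul_of_nonneg_right
        ((hL₀ ⟨_, hK, rfl⟩).trans (le_max_right _ _)) a0.le))
  · split_ifs
    · exact Or.inl ⟨_, hK, rfl⟩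
    · exact Or.inr (mem_biUnion hK (v2 _ a (A.mul_mem (A.inv_mem ha) ha') ha).1)
  · have e : (x * a)⁻¹ * (x * a') = a⁻¹ * a' := by group
    simp only [e, if_pos hk, AddMonoidHom.comp_apply, pb_pb]
  · obtain ⟨c, c0, hc⟩ := exists_away X.H hC c1 c2
    obtain ⟨M₂, -, m3⟩ := X.H.loc_near_of_smul_eq hn
    obtain ⟨M₃, -, m4⟩ := exists_good X
    obtain ⟨K3, k3⟩ := exists_gap X.H ((M₃ * L' + M₂) / c)
    refine ⟨K3, fun x hx a ha a' hk hK hl => key a ha a' hk hK _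
      (m4 C _ _ _ (mul_pos hL' (X.H.sc_pos x)) ?_)⟩
    rintro _ ⟨z, hz, rfl⟩
    obtain ⟨ξ, a1, a2⟩ := m3 x ((hA x).1 hx)
    have a3 := hc a ((hA a).1 ha) z hz ξ a1
    have a4 := k3 a x hl
    rw [div_mul_eq_mul_div, div_lt_iff₀ c0] at a4
    have a5 := dist_triangle_right (a • z) ξ (X.H.loc x)
    show M₃ * (L' * X.H.sc x) < dist (a • z) (X.H.loc x)
    linarith

theorem s3bbetae_same {C : Set Z} (hC : IsClosed C) {f : G} (hf : f • C = C) {x y : Z ⊕ J}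
    (h : X.Q.Same C x y) : X.Q.Same C (f • x) (f • y) := by
  have := (X.same_smul f hC).2 h
  rwa [hf] at this

/-- The stabiliser of `C` and of the side of `b` (`same_smul`). -/
theorem exists_side_stab {C : Set Z} (hC : IsClosed C) {b : Z} (hb : b ∉ C) :
    ∃ F : Subgroup G, ∀ f, f ∈ F ↔ f • C = C ∧ X.Q.Same C (.inl b) (.inl (f • b)) := by
  refine ⟨⟨⟨⟨{f | f • C = C ∧ X.Q.Same C (.inl b) (.inl (f • b))}, ?_⟩, ?_⟩, ?_⟩, fun _ => Iff.rfl⟩
  · rintro f g ⟨a1, a2⟩ ⟨b1, b2⟩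
    exact ⟨by rw [mul_smul, b1, a1], by rw [mul_smul]; exact a2.trans (s3bbetae_same X hC a1 b2)⟩
  · exact ⟨one_smul _ _, by rw [one_smul]; exact X.Q.same_refl_inl.2 hb⟩
  · rintro f ⟨a1, a2⟩
    have a3 : f⁻¹ • C = C := inv_smul_eq_iff.2 a1.symm
    have a4 : X.Q.Same C (.inl (f⁻¹ • b)) (.inl (f⁻¹ • f • b)) := s3bbetae_same X hC a3 a2
    rw [inv_smul_smul] at a4
    exact ⟨a3, a4.symm⟩

/-- If `g` sees both colours through `i, j ∈ J₀` then `g⁻¹ • C` separates `i` from `j`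
(`same_smul`), so it is big (`big_of_not_same`) and `(g * φ⁻¹) • C = C` with `φ` in the finite
set of `FS`.  For each pair `(φ, i)` that occurs choose one such `g₀`; then `g * g₀⁻¹` preserves
`C` and sends the hole `g₀ • i` of the side to the hole `g • i` of the side. -/
theorem twoCol_beta {C : Set Z} (hC : IsClosed C) (hfs : FS G C) {b : Z} {F : Subgroup G}
    (hF : ∀ f, f ∈ F ↔ f • C = C ∧ X.Q.Same C (.inl b) (.inl (f • b))) :
    TwoCol F (fun j : J => X.Q.Same C (.inl b) (.inr j)) := by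
  classical
  intro J₀
  choose δ d1 d2 using X.Q.big_of_not_same
  choose Φ hΦ using fun i j => hfs (δ i j) (d1 i j)
  have h1 : ∀ (φ : G) (i : J), ∃ g₀ : G,
      (∃ g : G, (g * φ⁻¹) • C = C ∧ X.Q.Same C (.inl b) (.inr (g • i))) →
      (g₀ * φ⁻¹) • C = C ∧ X.Q.Same C (.inl b) (.inr (g₀ • i)) := fun φ i => by
    by_cases e : ∃ g : G, (g * φ⁻¹) • C = C ∧ X.Q.Same C (.inl b) (.inr (g • i))
    · obtain ⟨g, hg⟩ := e
      exact ⟨g, fun _ => hg⟩
    · exact ⟨1, fun h => absurd h e⟩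
  choose g₀ h2 using h1
  refine ⟨J₀.biUnion fun i => J₀.biUnion fun j => (Φ i j).image fun φ => g₀ φ i,
    fun g i hi j hj a1 a2 => ?_⟩
  obtain ⟨φ, b1, b2⟩ := hΦ i j g (d2 i j _ (hC.smul g⁻¹) fun e => a2 (a1.trans (by
    have := (X.same_smul g (hC.smul g⁻¹)).2 e
    rwa [smul_inv_smul] at this)))
  obtain ⟨b3, b4⟩ := h2 φ i ⟨g, b2, a1⟩
  have b5 : (g * (g₀ φ i)⁻¹) • C = C := by
    rw [show g * (g₀ φ i)⁻¹ = g * φ⁻¹ * (g₀ φ i * φ⁻¹)⁻¹ by group, mul_smul,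
      inv_smul_eq_iff.2 b3.symm, b2]
  have b6 : X.Q.Same C (.inl ((g * (g₀ φ i)⁻¹) • b)) (.inr ((g * (g₀ φ i)⁻¹) • g₀ φ i • i)) :=
    s3bbetae_same X hC b5 b4
  rw [smul_smul, inv_mul_cancel_right] at b6
  exact ⟨g₀ φ i, Finset.mem_biUnion.2 ⟨i, hi, Finset.mem_biUnion.2 ⟨j, hj,
    Finset.mem_image_of_mem _ b1⟩⟩, (hF _).2 ⟨b5, a1.trans b6.symm⟩⟩

end KKC.S3
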