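import Pool.Agent.Lib.MP_e1e491_gt.S3BBeta
import Pool.Agent.Lib.MP_e1e491_gt.S3BCyc
import Pool.Agent.Lib.MP_e1e491_gt.S3BBridge

set_option autoImplicit false

/-!
The case of a side that meets the carpet.
-/

namespace KKC.S3

open Set Metric
open scoped Pointwise

variable {G Z J : Type} [Group G] [MetricSpace Z] [CompactSpace Z] [MulAction G Z]
  [ContinuousConstSMul G Z] [MulAction G J] (X : CS G Z J)

/-- A point off the side of `b` is joined to `C` off that side: take a path from `u` to a point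
of `C` (`isPathConnected_univ`) up to the first time in `C` (`same_of_preconnected`). -/
theorem exists_join {C : Set Z} (hC : IsClosed C) (hn : C.Nonempty) {b u : Z}
    (hu : ¬ X.Q.Same C (.inl b) (.inl u)) : ∃ T, IsPreconnected T ∧ u ∈ T ∧ (T ∩ C).Nonempty ∧
      ∀ z ∈ T, ¬ X.Q.Same C (.inl b) (.inl z) := by
  by_cases huC : u ∈ C
  · refine ⟨{u}, isPreconnected_singleton, rfl, ⟨u, rfl, huC⟩, ?_⟩
    rintro z rfl
    exact hu
  obtain ⟨ξ, hξ⟩ := hn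
  obtain ⟨γ, -⟩ := X.Q.isPathConnected_univ.joinedIn u (mem_univ _) ξ (mem_univ _)
  have hγ : Continuous γ.extend := γ.continuous_extend
  have hK : IsCompact (Icc (0 : ℝ) 1 ∩ γ.extend ⁻¹' C) :=
    isCompact_Icc.inter_right (hC.preimage hγ)
  have hne : (Icc (0 : ℝ) 1 ∩ γ.extend ⁻¹' C).Nonempty :=
    ⟨1, ⟨zero_le_one, le_rfl⟩, by simpa using hξ⟩
  obtain ⟨t₀, ⟨ht₀, ht₀C⟩, hmin⟩ := hK.exists_isLeast hne
  have h0 : γ.extend 0 = u := by simp
  refine ⟨γ.extend '' Icc 0 t₀, isPreconnected_Icc.image _ hγ.continuousOn,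
    ⟨0, ⟨le_rfl, ht₀.1⟩, h0⟩, ⟨γ.extend t₀, ⟨t₀, ⟨ht₀.1, le_rfl⟩, rfl⟩, ht₀C⟩, ?_⟩
  rintro z ⟨t, ht, rfl⟩ hz
  have htC : γ.extend t ∉ C := hz.not_mem
  have hlt : t < t₀ := lt_of_le_of_ne ht.2 (fun e => htC (e ▸ ht₀C))
  have hd : Disjoint (γ.extend '' Icc 0 t) C := by
    rw [Set.disjoint_left]
    rintro _ ⟨r, hr, rfl⟩ hrC
    have := hmin ⟨⟨hr.1, hr.2.trans (ht.2.trans ht₀.2)⟩, hrC⟩
    exact absurd (this.trans hr.2) (not_le.2 hlt)
  have := X.Q.same_of_preconnected (isPreconnected_Icc.image _ hγ.continuousOn) hd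
    ⟨t, ⟨ht.1, le_rfl⟩, rfl⟩ ⟨0, ⟨le_rfl, ht.1⟩, h0⟩
  exact hu (hz.trans this)

/-- Take the cycle of `Cyc` with `L` from `exists_small_smul` for `N`, all coefficients one,
`φ i = pb (x i)⁻¹ (φ₀ (x i) (x' i))`, which vanishes off `x i • N`, a subset of the side, `H i`
the lifts and `h i = 0` (`P V` misses the side, `same_hole`).  `f = ∑ H i` is a lift of `∑ φ i` on
`univ` (cycle condition in `Cir Z`); `χ a = f (a • b) - f ξ` with `ξ ∈ C`.  `f` is constant on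
`C` and on the set of `exists_join` for `u ∈ P V` (`eq_of_coe_zero`), so `χ 1 ≠ 0`.  The set `O`
of the points off all `x i • N` with `|f z - f ξ| < 2 π` is an open neighbourhood of `C` on which
`f = f ξ` (`eq_of_coe_eq`); `exists_deep_subset` and `E.loc` give the finite support. -/
theorem round_beta {C : Set Z} (hC : IsClosed C) (hc : IsPreconnected C) (hn : C.Nontrivial)
    {A F : Subgroup G} (hA : ∀ a, a ∈ A ↔ a • C = C) {b : Z}
    (hF : ∀ f ∈ F, f ∈ A ∧ X.Q.Same C (.inl b) (.inl (f • b))) {K : ℕ}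
    (E : Edge X.H A K (adm X.Q C)) (hρ : ∀ a, E.ρ a = a • b) {D V : J}
    (hD : Disjoint (X.Q.P D) C) (hV : ¬ X.Q.Same C (.inl b) (.inr V)) (hcyc : Cyc X F D V b K)
    {N : Set Z} (hN : IsCompact N) (hNs : ∀ z ∈ N, X.Q.Same C (.inl b) (.inl z))
    (φ₀ : G → G → Cir Z) (hφ : ∀ x ∈ F, ∀ x' ∈ F, X.H.len (x⁻¹ * x') ≤ K →
      (∀ z, z ∉ N → φ₀ x x' z = 0) ∧
      Lifts (pb x⁻¹ (φ₀ x x') - (th X.Q (x' • D) - th X.Q (x • D))) univ) :
    Round X.H.len F K (fun x x' a a' => E.V a a' (pb x⁻¹ (φ₀ x x'))) := by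
  intro R
  have hNC : Disjoint N C := Set.disjoint_left.2 fun z hz => (hNs z hz).not_mem
  obtain ⟨L, -, hL⟩ := exists_small_smul X.H hC hn hN hNC
  obtain ⟨ι, s, x, x', hx, hcy, hsum⟩ := hcyc L R
  have hxC : ∀ i ∈ s, x i • C = C := fun i hi => (hA _).1 (hF _ (hx i hi).1).1
  set φ : ι → Cir Z := fun i => pb (x i)⁻¹ (φ₀ (x i) (x' i)) with hφd
  have hlift : ∀ i, ∃ H : Z → ℝ, i ∈ s →
      IsLift (φ i - (th X.Q (x' i • D) - th X.Q (x i • D))) univ H := by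
    intro i
    by_cases hi : i ∈ s
    · obtain ⟨H, hH⟩ := (hφ _ (hx i hi).1 _ (hx i hi).2.1 (hx i hi).2.2.1).2
      exact ⟨H, fun _ => hH⟩
    · exact ⟨0, fun h => absurd h hi⟩
  choose H hH using hlift
  have hz0 : ∀ i ∈ s, ∀ z, (x i)⁻¹ • z ∉ N → φ i z = 0 := fun i hi z hz => by
    simp only [hφd, pb_apply]
    exact (hφ _ (hx i hi).1 _ (hx i hi).2.1 (hx i hi).2.2.1).1 _ hz
  have hside : ∀ i ∈ s, ∀ z, (x i)⁻¹ • z ∈ N → X.Q.Same C (.inl b) (.inl z) := by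
    intro i hi z hz
    have h1 := (X.same_smul (x i) hC).2 (hNs _ hz)
    rw [hxC i hi, Sum.smul_inl, Sum.smul_inl, smul_inv_smul] at h1
    exact (hF _ (hx i hi).1).2.trans h1
  have hoff : ∀ i ∈ s, ∀ z, ¬ X.Q.Same C (.inl b) (.inl z) → φ i z = 0 :=
    fun i hi z hz => hz0 i hi z fun h => hz (hside i hi z h)
  have hPV : ∀ z ∈ X.Q.P V, ¬ X.Q.Same C (.inl b) (.inl z) := fun z hz h =>
    hV (h.trans (X.Q.same_hole hz h.not_mem))
  set f : Z → ℝ := ∑ i ∈ s, H i with hf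
  have hfl : IsLift (∑ i ∈ s, φ i) univ f := by
    have h1 := IsLift.sum s (Y := univ) hH
    rw [Finset.sum_sub_distrib, hcy (Cir Z) (fun g => th X.Q (g • D)), sub_zero] at h1
    exact h1
  have hfc : Continuous f := continuousOn_univ.1 hfl.1
  have hf0 : ∀ z, (∀ i ∈ s, φ i z = 0) → (f z : Real.Angle) = 0 := fun z hz => by
    rw [hfl.2 z (mem_univ _), ContinuousMap.coe_sum, Finset.sum_apply]
    exact Finset.sum_eq_zero hz
  obtain ⟨ξ, hξ⟩ := hn.nonempty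
  have hC0 : ∀ z ∈ C, (f z : Real.Angle) = 0 := fun z hz =>
    hf0 z fun i hi => hoff i hi z fun h => h.not_mem hz
  have hfC : ∀ z ∈ C, f z = f ξ := fun z hz => eq_of_coe_zero hc hfc.continuousOn hC0 hz hξ
  refine ⟨ι, s, fun _ => 1, x, x', fun a => f (a • b) - f ξ, hx, fun g => ?_, ?_, ?_, ?_⟩
  · simpa only [one_mul] using hcy ℝ g
  · have hO : IsOpen ((⋂ i ∈ s, {z | (x i)⁻¹ • z ∉ N}) ∩ {z | |f z - f ξ| < 2 * Real.pi}) := by
      refine IsOpen.inter (isOpen_biInter_finset fun i _ => ?_) ?_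
      · exact hN.isClosed.isOpen_compl.preimage (continuous_const_smul (x i)⁻¹)
      · exact isOpen_lt (hfc.sub continuous_const).abs continuous_const
    have hCO : C ⊆ (⋂ i ∈ s, {z | (x i)⁻¹ • z ∉ N}) ∩ {z | |f z - f ξ| < 2 * Real.pi} := by
      intro z hz
      refine ⟨mem_iInter₂.2 fun i hi h => (hside i hi z h).not_mem hz, ?_⟩
      show |f z - f ξ| < 2 * Real.pi
      rw [hfC z hz, sub_self, abs_zero]
      positivity
    obtain ⟨R', hR'⟩ := exists_deep_subset X.H hC hn hO hCO E.L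
    refine (X.H.fin R').subset ?_
    rintro a ⟨haF, ha⟩
    by_contra hlen
    have hlen' : R' ≤ X.H.len a := (not_le.1 hlen).le
    have haA := (hF a haF).1
    have h1 : X.H.len (a⁻¹ * a) ≤ K := by
      rw [inv_mul_cancel, (X.H.len_eq_zero 1).2 rfl]
      exact Nat.zero_le _
    have h2 := hR' a ((hA a).1 haA) hlen' (E.loc a haA a haA h1).1
    rw [hρ] at h2
    refine ha (sub_eq_zero.2 (eq_of_coe_eq ?_ h2.2))
    rw [hC0 ξ hξ]
    exact hf0 _ fun i hi => hz0 i hi _ (mem_iInter₂.1 h2.1 i hi)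
  · obtain ⟨u, hu⟩ := (X.Q.P_nontrivial V).nonempty
    have h1 := hsum φ H (fun _ => 0) (fun i hi => ⟨fun z hz => hz0 i hi z fun h => ?_, hH i hi,
      isLift_zero fun z hz => hoff i hi z (hPV z hz), fun _ _ _ => rfl⟩) u hu
    · obtain ⟨T, hT, huT, ⟨w, hwT, hwC⟩, hTs⟩ := exists_join X hC ⟨ξ, hξ⟩ (hPV u hu)
      have h2 : f u = f w := eq_of_coe_zero hT hfc.continuousOn
        (fun z hz => hf0 z fun i hi => hoff i hi z (hTs z hz)) huT hwT
      show f ((1 : G) • b) - f ξ ≠ 0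
      rw [one_smul, ← hfC w hwC, ← h2]
      simpa only [hf, Finset.sum_apply, Pi.zero_apply, add_zero, Finset.sum_sub_distrib] using h1
    · have h2 := hL (x i) (hxC i hi) _ h
      rw [smul_inv_smul] at h2
      exact absurd h2 (not_le.2 hz)
  · intro a ha a' ha' hn'
    have h1 := E.lift (hF a ha).1 (hF a' ha').1 hn' (mem_adm_of_lifts X.Q C ⟨f, hfl⟩) hfl
    rw [map_sum, hρ, hρ] at h1
    simp only [one_mul]
    rw [sub_sub_sub_cancel_right]
    exact h1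

/-- `F` from `exists_side_stab`, `D` from `exists_P_same`, `V` the one of `i`, `j` that is not
in the side of `b`; `exists_three`, `exists_cyc` (`isOpen_side`, `same_inr_iff`),
`exists_edge_beta`, `exists_inn_step`, `link_beta`, `round_beta` and `false_of_link`. -/
theorem false_beta {C : Set Z} (hC : IsClosed C) (hc : IsPreconnected C) (hn : C.Nontrivial)
    (hfs : FS G C) {i j : J} (hs : ¬ X.Q.Same C (.inr i) (.inr j)) {A : Subgroup G}
    (hA : ∀ a, a ∈ A ↔ a • C = C) {K₀ : ℕ} (hS : ∀ K, K₀ ≤ K → X.H.Par A K ∧ X.H.Star A K)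
    {b : Z} (hb : b ∉ C) : False := by
  obtain ⟨F, hFi⟩ := exists_side_stab X hC hb
  have hF : ∀ f ∈ F, f ∈ A ∧ X.Q.Same C (.inl b) (.inl (f • b)) := fun f hf =>
    ⟨(hA f).2 ((hFi f).1 hf).1, ((hFi f).1 hf).2⟩
  have hFA : F ≤ A := fun f hf => (hF f hf).1
  have hFC : ∀ f ∈ F, f • C = C := fun f hf => ((hFi f).1 hf).1
  obtain ⟨D, hD⟩ := X.Q.exists_P_same hC hb
  have hDC : Disjoint (X.Q.P D) C := Set.disjoint_left.2 fun z hz => (hD z hz).not_mem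
  have hbD : X.Q.Same C (.inl b) (.inr D) := by
    obtain ⟨z, hz⟩ := (X.Q.P_nontrivial D).nonempty
    exact (hD z hz).trans (X.Q.same_hole hz (hD z hz).not_mem)
  obtain ⟨V, hV⟩ : ∃ V, ¬ X.Q.Same C (.inl b) (.inr V) := by
    by_contra h
    push Not at h
    exact hs ((h i).symm.trans (h j))
  have hv := twoCol_beta X hC hfs hFi
  have hTc : ∀ f ∈ F, X.Q.Same C (.inl b) (.inr (f • D)) := by
    intro f hf
    have h1 := (X.same_smul f hC).2 hbD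
    rw [hFC f hf, Sum.smul_inl, Sum.smul_inr] at h1
    exact (hF f hf).2.trans h1
  have hbc : ∃ ρ > 0, ∀ k, (X.Q.D k ∩ ball (X.Q.ι b) ρ).Nonempty →
      X.Q.Same C (.inl b) (.inr k) := by
    have h1 : X.Q.ι b ∈ X.Q.side C (.inl b) := X.Q.same_refl_inl.2 hb
    obtain ⟨ρ, hρ, hsub⟩ := Metric.isOpen_iff.1 (X.Q.isOpen_side hC (.inl b)) _ h1
    exact ⟨ρ, hρ, fun k hk => X.Q.same_inr_iff.2 (hk.mono (inter_subset_inter_right _ hsub))⟩
  obtain ⟨K', hK'⟩ := exists_cyc X hC hn hFC hv hDC hTc hV hb hbc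
  refine false_of_link X.H hFA hS (exists_three X hv hbD hV) ⟨K', fun K hK => ?_⟩
  obtain ⟨E, hρ, heq, hin⟩ := exists_edge_beta X hC hn hA hb hF K
  obtain ⟨Φ, N, hΦ, hN, hNs, h0, hst⟩ :=
    exists_inn_step X hC F D (fun f hf => hbD.symm.trans (hTc f hf)) K
  have hch : ∀ x x' : G, ∃ φ₀ : Cir Z, x ∈ F → x' ∈ F → X.H.len (x⁻¹ * x') ≤ K → φ₀ ∈ Φ ∧
      Lifts (pb x⁻¹ φ₀ - (th X.Q (x' • D) - th X.Q (x • D))) univ := by
    intro x x'
    by_cases h : x ∈ F ∧ x' ∈ F ∧ X.H.len (x⁻¹ * x') ≤ K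
    · obtain ⟨φ₀, h1, h2⟩ := hst x x' (F.mul_mem (F.inv_mem h.1) h.2.1) h.2.2
      exact ⟨φ₀, fun _ _ _ => ⟨h1, h2⟩⟩
    · exact ⟨0, fun h1 h2 h3 => absurd ⟨h1, h2, h3⟩ h⟩
  choose φ₀ hφ₀ using hch
  have hNb : ∀ z ∈ N, X.Q.Same C (.inl b) (.inl z) := fun z hz => hbD.trans (hNs z hz)
  have hNC : Disjoint N C := Set.disjoint_left.2 fun z hz => (hNb z hz).not_mem
  obtain ⟨K1, K2, B, W, I, hl⟩ := link_beta X hC hn hA hFA E heq hin hDC hΦ hN hNC h0 φ₀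
    (fun x hx x' hx' h => hφ₀ x x' hx hx' h)
  exact ⟨K1, K2, B, W, I, _, hl, round_beta X hC hc hn hA hF E hρ hDC hV (hK' K hK) hN hNb φ₀
    (fun x hx x' hx' h => ⟨h0 _ (hφ₀ x x' hx hx' h).1, (hφ₀ x x' hx hx' h).2⟩)⟩

end KKC.S3
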