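import Pool.Agent.Lib.MP_e1e491_gt.S3BLift

set_option autoImplicit false

/-!
A function that lifts on all inner circles lifts on the carpet.
-/

namespace KKC.S3

open Set Metric

variable {Z J : Type} [MetricSpace Z] [CompactSpace Z] (Q : PD Z J)

/-- The point of the unit circle with a given angle. -/
noncomputable def s3buniq_e (θ : Real.Angle) : ℂ := θ.cos + θ.sin * Complex.I

lemma s3buniq_cont : Continuous s3buniq_e :=
  (Complex.continuous_ofReal.comp Real.Angle.continuous_cos).add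
    ((Complex.continuous_ofReal.comp Real.Angle.continuous_sin).mul continuous_const)

lemma s3buniq_coe (t : ℝ) : s3buniq_e t = Complex.exp (t * Complex.I) := by
  rw [s3buniq_e, Real.Angle.cos_coe, Real.Angle.sin_coe, Complex.exp_mul_I, Complex.ofReal_cos,
    Complex.ofReal_sin]

lemma s3buniq_ne (θ : Real.Angle) : s3buniq_e θ ≠ 0 := by
  induction θ using Real.Angle.induction_on with
  | _ t =>
    rw [s3buniq_coe]
    exact Complex.exp_ne_zero _

lemma s3buniq_im {w : ℂ} {θ : Real.Angle} (h : Complex.exp w = s3buniq_e θ) :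
    (w.im : Real.Angle) = θ := by
  have h1 := Complex.arg_mul_cos_add_sin_mul_I_coe_angle (Real.exp_pos w.re) (w.im : Real.Angle)
  rw [Real.Angle.cos_coe, Real.Angle.sin_coe, Complex.ofReal_cos, Complex.ofReal_sin,
    Complex.ofReal_exp, ← Complex.exp_eq_exp_re_mul_sin_add_cos, h, s3buniq_e,
    Complex.arg_cos_add_sin_mul_I_coe_angle] at h1
  exact h1.symm

/-- Fill one hole. -/
lemma s3buniq_fill {φ : Cir Z} {j : J} (h : Lifts φ (Q.P j)) {W : ℂ → ℂ} (hW : Continuous W)
    (he : ∀ z, W (Q.ι z) = s3buniq_e (φ z)) : ∃ W' : ℂ → ℂ, Continuous W' ∧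
      (∀ z, W' (Q.ι z) = s3buniq_e (φ z)) ∧ ∀ v, W' v = 0 → W v = 0 ∧ v ∉ Q.D j := by
  classical
  obtain ⟨k, k1, k2⟩ := h
  have hc := Q.isClosedEmbedding_ι.comp (Q.isClosed_P j).isClosedEmbedding_subtypeVal
  obtain ⟨g, hg⟩ := ContinuousMap.exists_extension' hc
    (⟨fun z : Q.P j => k z, continuousOn_iff_continuous_domRestrict.1 k1⟩ : C(Q.P j, ℝ))
  refine ⟨(Q.D j).piecewise (fun v => Complex.exp (g v * Complex.I)) W,
    Continuous.piecewise ?_ (by fun_prop) hW, fun z => ?_, fun v hv => ?_⟩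
  · rw [Q.frontier_D]
    rintro _ ⟨z, hz, rfl⟩
    have h1 : g (Q.ι z) = k z := congrFun hg ⟨z, hz⟩
    rw [he, h1, ← k2 z hz, s3buniq_coe]
  · rw [piecewise_eq_of_notMem _ _ _ (Q.not_mem z j), he]
  · by_cases h1 : v ∈ Q.D j
    · rw [piecewise_eq_of_mem _ _ _ h1] at hv
      exact absurd hv (Complex.exp_ne_zero _)
    · rw [piecewise_eq_of_notMem _ _ _ h1] at hv
      exact ⟨hv, h1⟩

/-- Fill finitely many holes. -/
lemma s3buniq_fin {φ : Cir Z} {T : Set J} (hT : T.Finite) (h : ∀ j ∈ T, Lifts φ (Q.P j))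
    {W : ℂ → ℂ} (hW : Continuous W) (he : ∀ z, W (Q.ι z) = s3buniq_e (φ z)) :
    ∃ W' : ℂ → ℂ, Continuous W' ∧ (∀ z, W' (Q.ι z) = s3buniq_e (φ z)) ∧
      ∀ v, W' v = 0 → W v = 0 ∧ ∀ j ∈ T, v ∉ Q.D j := by
  induction T, hT using Set.Finite.induction_on with
  | empty => exact ⟨W, hW, he, fun v hv => ⟨hv, fun _ hj => hj.elim⟩⟩
  | insert _ _ ih =>
    obtain ⟨W1, a1, a2, a3⟩ := ih fun j hj => h j (mem_insert_of_mem _ hj)
    obtain ⟨W2, b1, b2, b3⟩ := s3buniq_fill Q (h _ (mem_insert _ _)) a1 a2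
    refine ⟨W2, b1, b2, fun v hv => ⟨(a3 v (b3 v hv).1).1, ?_⟩⟩
    rintro j (rfl | hj)
    · exact (b3 v hv).2
    · exact (a3 v (b3 v hv).1).2 j hj

/-- Let `u = cos φ + i sin φ : Z → ℂ` and `ũ : C(ℂ, ℂ)` a Tietze extension along the closed
embedding `ι`.  By uniform continuity on the closed outer square `S`, `ũ ≠ 0` on the points of `S`
within `δ` of `range ι`, hence on all inner holes of radius less than `δ / 2`.  On each of the
finitely many other inner holes `D j` replace `ũ` by `exp (i g)`, where `g : C(ℂ, ℝ)` extends a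
lift of `φ` on `P j` (induction on the finite set; `continuous_if` or `ContinuousOn.if`, the
frontier of `D j` is `ι '' P j`).  The new function has no zero on `S`.  Compose it with the
retraction of the plane onto `S` that clamps both coordinates and take a continuous logarithm on
the simply connected plane (`Complex.isCoveringMapOn_exp`, or
`Complex.exists_continuousOn_eqOn_exp_comp`); its imaginary part is the lift. -/
theorem lifts_univ {φ : Cir Z} (h : ∀ j, j ≠ Q.o → Lifts φ (Q.P j)) : Lifts φ univ := by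
  obtain ⟨W, hW⟩ := ContinuousMap.exists_extension' Q.isClosedEmbedding_ι
    (⟨fun z => s3buniq_e (φ z), s3buniq_cont.comp φ.continuous⟩ : C(Z, ℂ))
  have he : ∀ z, W (Q.ι z) = s3buniq_e (φ z) := congrFun hW
  obtain ⟨ε, hε, h1⟩ := (isCompact_range Q.ι_cont).exists_thickening_subset_open
    (isOpen_ne_fun W.continuous continuous_const : IsOpen {v | W v ≠ 0}) (by
      rintro _ ⟨z, rfl⟩
      exact (he z).trans_ne (s3buniq_ne _))
  obtain ⟨δ, hδ, h2⟩ := Q.hole_small hε
  obtain ⟨W', a1, a2, a3⟩ := s3buniq_fin Q (T := {j | Big δ (Q.P j)} \ {Q.o})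
    ((Q.finite_big hδ).subset sdiff_subset) (fun j hj => h j hj.2) W.continuous he
  have hS : IsCompact {v | sn (v - Q.c Q.o) ≤ Q.r Q.o} := by
    refine (isCompact_closedBall (Q.c Q.o) (2 * Q.r Q.o)).of_isClosed_subset
      (isClosed_le (sq_cont _) continuous_const) fun v hv => ?_
    have h3 := norm_le_sn (v - Q.c Q.o)
    have h4 : sn (v - Q.c Q.o) ≤ Q.r Q.o := hv
    rw [mem_closedBall, dist_eq_norm]
    linarith
  obtain ⟨η, hη, h3⟩ := hS.exists_thickening_subset_open
    (isOpen_ne_fun a1 continuous_const : IsOpen {v | W' v ≠ 0}) (by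
      intro v hv h0
      rcases Q.cover v with ⟨z, rfl⟩ | ⟨j, hj⟩
      · exact s3buniq_ne _ ((a2 z).symm.trans h0)
      · have ho : j ≠ Q.o := by
          rintro rfl
          rw [Q.D_out] at hj
          exact absurd (show sn (v - Q.c Q.o) ≤ Q.r Q.o from hv) (not_le.2 hj)
        obtain ⟨b, hb⟩ := (Q.P_nontrivial j).nonempty
        have h4 := h2 j (fun hB => (a3 v h0).2 j ⟨hB, ho⟩ hj) v hj b hb
        exact h1 (mem_thickening_iff.2 ⟨_, mem_range_self b, by rwa [dist_eq_norm]⟩) (a3 v h0).1)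
  have hm : ∀ z, Q.ι z ∈ thickening η {v | sn (v - Q.c Q.o) ≤ Q.r Q.o} := fun z =>
    self_subset_thickening hη _ (Q.sn_ι_le z)
  have hc := ((convex_sn_le (Q.c Q.o) (Q.r Q.o)).thickening η).contractibleSpace
    ⟨Q.c Q.o, self_subset_thickening hη _ (by simpa [sn] using (Q.r_pos Q.o).le)⟩
  obtain ⟨f, f1, f2⟩ := Complex.exists_continuousOn_eqOn_exp_comp
    (U := thickening η {v | sn (v - Q.c Q.o) ≤ Q.r Q.o}) (SimplyConnectedSpace.ofContractible _)
    isOpen_thickening a1.continuousOn (by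
      rintro ⟨v, hv, h0⟩
      exact h3 hv h0)
  refine ⟨fun z => (f (Q.ι z)).im, (Complex.continuous_im.comp
    (f1.comp_continuous Q.ι_cont hm)).continuousOn, fun z _ => s3buniq_im ?_⟩
  exact (f2 (hm z)).trans (a2 z)

end KKC.S3
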