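import Pool.Agent.Lib.MP_e1e491_gt.S3BSq
import Pool.Agent.Lib.MP_e1e491_gt.S3BUniq

set_option autoImplicit false

/-!
Invariance of the classes up to sign; outer test functions.
-/

namespace KKC.S3

open Set Metric
open scoped Pointwise

variable {G Z J : Type} [Group G] [MetricSpace Z] [CompactSpace Z] [MulAction G Z]
  [ContinuousConstSMul G Z] [MulAction G J] (X : CS G Z J)

theorem s3binv_one (Q : PD Z J) {φ : Cir Z} {i : J} (hi : i ≠ Q.o)
    (h : ∀ k, k ≠ Q.o → k ≠ i → Lifts φ (Q.P k)) : ∃ a : ℤ, Lifts (φ - a • th Q i) univ := by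
  obtain ⟨a, ha⟩ := exists_deg Q φ hi
  refine ⟨a, lifts_univ Q fun k hk => ?_⟩
  by_cases hki : k = i
  · rw [hki]
    exact ha
  · exact (h k hk hki).sub ((lifts_th_inner Q hk (Ne.symm hki)).zsmul a)

theorem s3binv_deg (Q : PD Z J) {i j : J} (hij : i ≠ j) {n : ℤ}
    (h : Lifts (n • (th Q j - th Q i)) univ) : n = 0 := by
  by_cases hj : j = Q.o
  · have hi : i ≠ Q.o := fun e => hij (e.trans hj.symm)
    refine deg_eq_zero Q hi ?_
    have e : n • th Q i = n • th Q j - n • (th Q j - th Q i) := by module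
    rw [e]
    exact ((lifts_th_inner Q hi hij.symm).zsmul n).sub (h.mono (subset_univ _))
  · refine deg_eq_zero Q hj ?_
    have e : n • th Q j = n • th Q i + n • (th Q j - th Q i) := by module
    rw [e]
    exact ((lifts_th_inner Q hj hij).zsmul n).add (h.mono (subset_univ _))

omit [CompactSpace Z] in
theorem s3binv_pb (g : G) {φ : Cir Z} (h : Lifts φ univ) : Lifts (pb g φ) univ :=
  (lifts_pb_iff g).2 (h.mono (subset_univ _))

/-- If `i`, `j` are inner take the degrees `a`, `b` of `φ` on `P i`, `P j` (`exists_deg`);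
`φ - a • th i - b • th j` lifts on all inner circles, so everywhere (`lifts_univ`); on the outer
circle `(a + b) • th j` lifts, so `a = - b`.  If one of them is the outer hole use
`lifts_th_out`. -/
theorem exists_mult (Q : PD Z J) {φ : Cir Z} {i j : J}
    (h : ∀ k, k ≠ i → k ≠ j → Lifts φ (Q.P k)) (hij : i ≠ j) :
    ∃ m : ℤ, Lifts (φ - m • (th Q j - th Q i)) univ := by
  by_cases hj : j = Q.o
  · have hi : i ≠ Q.o := fun e => hij (e.trans hj.symm)
    obtain ⟨a, ha⟩ := s3binv_one Q hi fun k hk hki => h k hki fun e => hk (e.trans hj)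
    refine ⟨-a, ?_⟩
    have e : φ - (-a) • (th Q j - th Q i) = φ - a • th Q i + a • th Q Q.o := by
      rw [hj]; module
    rw [e]
    exact ha.add ((lifts_th_out Q).zsmul a)
  by_cases hi : i = Q.o
  · obtain ⟨b, hb⟩ := s3binv_one Q hj fun k hk hkj => h k (fun e => hk (e.trans hi)) hkj
    refine ⟨b, ?_⟩
    have e : φ - b • (th Q j - th Q i) = φ - b • th Q j + b • th Q Q.o := by
      rw [hi]; module
    rw [e]
    exact hb.add ((lifts_th_out Q).zsmul b)
  obtain ⟨a, ha⟩ := exists_deg Q φ hi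
  obtain ⟨b, hb⟩ := exists_deg Q φ hj
  have h1 : Lifts (φ - a • th Q i - b • th Q j) univ := by
    refine lifts_univ Q fun k hk => ?_
    by_cases hki : k = i
    · subst hki
      exact ha.sub ((lifts_th_inner Q hk hij.symm).zsmul b)
    by_cases hkj : k = j
    · subst hkj
      rw [sub_right_comm]
      exact hb.sub ((lifts_th_inner Q hk hij).zsmul a)
    exact ((h k hki hkj).sub ((lifts_th_inner Q hk (Ne.symm hki)).zsmul a)).sub
      ((lifts_th_inner Q hk (Ne.symm hkj)).zsmul b)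
  have h2 : Lifts ((a + b) • th Q j) (Q.P Q.o) := by
    have e : (a + b) • th Q j =
        φ - (φ - a • th Q i - b • th Q j) + a • (th Q j - th Q i) := by module
    rw [e]
    exact ((h Q.o (Ne.symm hi) (Ne.symm hj)).sub (h1.mono (subset_univ _))).add
      ((lifts_th_sub Q hi hj).zsmul a)
  have h3 : a = -b := eq_neg_of_add_eq_zero_left (deg_out_eq_zero Q hj h2)
  refine ⟨b, ?_⟩
  have e : φ - b • (th Q j - th Q i) = φ - a • th Q i - b • th Q j := by
    rw [h3]; module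
  rw [e]
  exact h1

theorem s3binv_mult (g : G) {i j : J} (hij : i ≠ j) : ∃ m : ℤ,
    Lifts (pb g (th X.Q (g • j) - th X.Q (g • i)) - m • (th X.Q j - th X.Q i)) univ := by
  refine exists_mult X.Q (fun k hki hkj => ?_) hij
  rw [lifts_pb_iff, ← X.act_P]
  exact lifts_th_sub X.Q (fun e => hki (MulAction.injective g e).symm)
    fun e => hkj (MulAction.injective g e).symm

/-- `exists_mult` for `g` and for `g⁻¹` gives integers with `m * m' = 1` (`deg_eq_zero` on the one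
of the two holes that is inner). -/
theorem pb_th (g : G) (i j : J) :
    Lifts (pb g (th X.Q (g • j) - th X.Q (g • i)) - (th X.Q j - th X.Q i)) univ ∨
    Lifts (pb g (th X.Q (g • j) - th X.Q (g • i)) + (th X.Q j - th X.Q i)) univ := by
  by_cases hij : i = j
  · left
    rw [hij, sub_self, sub_self, map_zero, sub_self]
    exact lifts_zero
  obtain ⟨m, hm⟩ := s3binv_mult X g hij
  obtain ⟨m', hm'⟩ := s3binv_mult X g⁻¹ (i := g • i) (j := g • j)
    fun e => hij (MulAction.injective g e)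
  rw [inv_smul_smul, inv_smul_smul] at hm'
  have h1 := s3binv_pb g hm'
  rw [map_sub, map_zsmul, pb_pb, inv_mul_cancel, pb_one] at h1
  have h2 : Lifts ((1 - m' * m) • (th X.Q j - th X.Q i)) univ := by
    have h3 := h1.add (hm.zsmul m')
    have e : (1 - m' * m) • (th X.Q j - th X.Q i) =
        th X.Q j - th X.Q i - m' • pb g (th X.Q (g • j) - th X.Q (g • i)) +
          m' • (pb g (th X.Q (g • j) - th X.Q (g • i)) - m • (th X.Q j - th X.Q i)) := by
      module
    rw [e]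
    exact h3
  have h4 : m' * m = 1 := by
    have := s3binv_deg X.Q hij h2
    omega
  rcases Int.eq_one_or_neg_one_of_mul_eq_one' h4 with ⟨-, h5⟩ | ⟨-, h5⟩
  · left
    rwa [h5, one_smul] at hm
  · right
    rwa [h5, neg_smul, one_smul, sub_neg_eq_add] at hm

/-- A representative of `th j - th i` gives a representative of the translated class. -/
theorem exists_sign {φ : Cir Z} {i j : J} (h : Lifts (φ - (th X.Q j - th X.Q i)) univ) (x : G) :
    ∃ φ₀ : Cir Z, (φ₀ = φ ∨ φ₀ = -φ) ∧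
      Lifts (pb x⁻¹ φ₀ - (th X.Q (x • j) - th X.Q (x • i))) univ := by
  rcases pb_th X x i j with h1 | h1
  · refine ⟨φ, Or.inl rfl, ?_⟩
    have h2 := s3binv_pb x⁻¹ (h.sub h1)
    rwa [sub_sub_sub_cancel_right, map_sub, pb_pb, mul_inv_cancel, pb_one] at h2
  · refine ⟨-φ, Or.inr rfl, ?_⟩
    have h2 := s3binv_pb x⁻¹ (h.neg.sub h1)
    have e : -(φ - (th X.Q j - th X.Q i)) -
        (pb x (th X.Q (x • j) - th X.Q (x • i)) + (th X.Q j - th X.Q i)) =
        -φ - pb x (th X.Q (x • j) - th X.Q (x • i)) := by abel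
    rwa [e, map_sub, pb_pb, mul_inv_cancel, pb_one] at h2

/-- `exists_vanish` at the pole `loc x⁻¹`, `exists_sign` and `HB.conv`. -/
theorem exists_out (i j : J) : ∃ (L : ℝ) (Φ : Set (Cir Z)), 0 < L ∧ Φ.Finite ∧ ∀ x : G,
    ∃ φ, Test X.H L Φ x φ ∧ Lifts (φ - (th X.Q (x • j) - th X.Q (x • i))) univ := by
  obtain ⟨η, hη, Φ, hΦ, h1, h2⟩ := exists_vanish (th X.Q j - th X.Q i)
  obtain ⟨C₁, hC, hc⟩ := X.H.conv
  refine ⟨C₁ / η, Φ ∪ (fun φ => -φ) '' Φ, div_pos (by linarith) hη, hΦ.union (hΦ.image _),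
    fun x => ?_⟩
  obtain ⟨φ₁, hφ₁, h3⟩ := h2 (X.H.loc x⁻¹)
  obtain ⟨φ₀, h4, h5⟩ := exists_sign X (h1 φ₁ hφ₁) x
  refine ⟨pb x⁻¹ φ₀, ⟨⟨φ₀, ?_, rfl⟩, fun z hz => ?_⟩, h5⟩
  · rcases h4 with rfl | rfl
    · exact Or.inl hφ₁
    · exact Or.inr ⟨φ₁, hφ₁, rfl⟩
  · have h6 := hc x (x⁻¹ • z)
    rw [smul_inv_smul] at h6
    have h7 : dist (x⁻¹ • z) (X.H.loc x⁻¹) ≤ η := by
      by_contra hn
      rw [div_mul_eq_mul_div, div_lt_iff₀ hη] at hz
      have h8 : η * dist z (X.H.loc x) ≤ dist (x⁻¹ • z) (X.H.loc x⁻¹) * dist z (X.H.loc x) :=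
        mul_le_mul_of_nonneg_right (not_le.1 hn).le dist_nonneg
      linarith
    have h9 := h3 _ h7
    rw [pb_apply]
    rcases h4 with rfl | rfl
    · exact h9
    · rw [ContinuousMap.neg_apply, h9, neg_zero]

/-- `exists_out` for the holes `D`, `k • D` with `k` in the ball of radius `K`. -/
theorem exists_step (D : J) (K : ℕ) : ∃ (L : ℝ) (Φ : Set (Cir Z)), 0 < L ∧ Φ.Finite ∧
    ∀ x x' : G, X.H.len (x⁻¹ * x') ≤ K →
      ∃ φ, Test X.H L Φ x φ ∧ Lifts (φ - (th X.Q (x' • D) - th X.Q (x • D))) univ := by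
  choose L Φ hL hΦ h using fun k : G => exists_out X D (k • D)
  have hB := X.H.fin K
  obtain ⟨M, hM⟩ := (hB.image L).bddAbove
  refine ⟨max M 1, ⋃ k ∈ {g | X.H.len g ≤ K}, Φ k, lt_max_of_lt_right one_pos,
    hB.biUnion fun k _ => hΦ k, fun x x' hx => ?_⟩
  obtain ⟨φ, ⟨⟨φ₀, h1, h2⟩, h3⟩, h4⟩ := h (x⁻¹ * x') x
  rw [smul_smul, mul_inv_cancel_left] at h4
  refine ⟨φ, ⟨⟨φ₀, mem_biUnion (x := x⁻¹ * x') hx h1, h2⟩, fun z hz => h3 z ?_⟩, h4⟩
  have h5 : L (x⁻¹ * x') ≤ max M 1 := (hM ⟨_, hx, rfl⟩).trans (le_max_left _ _)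
  exact (mul_le_mul_of_nonneg_right h5 (X.H.sc_pos x).le).trans_lt hz

/-- Admissible functions are invariant under the stabiliser of `C`. -/
theorem pb_mem_adm {C : Set Z} {g : G} (hg : g • C = C) {φ : Cir Z} (h : φ ∈ adm X.Q C) :
    pb g φ ∈ adm X.Q C := by
  rintro j ⟨z, hz, hC⟩
  rw [lifts_pb_iff, ← X.act_P]
  refine h (g • j) ⟨g • z, ?_, ?_⟩
  · rw [X.act_P]
    exact smul_mem_smul_set hz
  · rw [← hg]
    exact smul_mem_smul_set hC

theorem mem_adm_of_lifts (Q : PD Z J) (C : Set Z) {φ : Cir Z} (h : Lifts φ univ) :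
    φ ∈ adm Q C := by
  exact fun _ _ => h.mono (subset_univ _)

theorem th_sub_mem_adm (Q : PD Z J) {C : Set Z} {i j : J} (hi : Disjoint (Q.P i) C)
    (hj : Disjoint (Q.P j) C) : th Q j - th Q i ∈ adm Q C := by
  intro V hV
  refine lifts_th_sub Q ?_ ?_
  · rintro rfl
    exact not_disjoint_iff_nonempty_inter.2 hV hi
  · rintro rfl
    exact not_disjoint_iff_nonempty_inter.2 hV hj

end KKC.S3
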