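import Pool.Agent.Lib.MP_e1e491_gt.S3BHyp
import Pool.Agent.Lib.MP_e1e491_gt.S3BInv

set_option autoImplicit false

/-!
Connections along paths that avoid the pole, and along links.
-/

namespace KKC.S3

open Set Metric
open scoped Pointwise

variable {G Z J : Type} [Group G] [MetricSpace Z] [CompactSpace Z] [MulAction G Z]
  [ContinuousConstSMul G Z] [MulAction G J]

omit [CompactSpace Z] [ContinuousConstSMul G Z] in
theorem s3bconn_far (H : HB G Z) (M : ℝ) : ∃ η > 0, ∀ (a : G) (u : Z),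
    dist (a • u) (H.loc a) ≤ M * H.sc a → H.sc a < η → η ≤ dist u (H.loc a⁻¹) := by
  obtain ⟨C₁, hC, h⟩ := H.conv_ge
  have hM : 1 ≤ max M 1 := le_max_right _ _
  have hp : 0 < C₁ * max M 1 := mul_pos (by linarith) (by linarith)
  refine ⟨1 / (C₁ * max M 1), by positivity, fun a u hu hs => ?_⟩
  have hsc := H.sc_pos a
  have h1 : max (dist (a • u) (H.loc a)) (H.sc a) ≤ max M 1 * H.sc a :=
    max_le (hu.trans (mul_le_mul_of_nonneg_right (le_max_left _ _) hsc.le))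
      (le_mul_of_one_le_left hsc.le hM)
  have h0 : 0 ≤ max (dist u (H.loc a⁻¹)) (H.sc a) := le_max_of_le_right hsc.le
  have h2 : 1 * H.sc a ≤ max (dist u (H.loc a⁻¹)) (H.sc a) * (C₁ * max M 1) * H.sc a :=
    calc 1 * H.sc a = H.sc a := one_mul _
      _ ≤ _ := h a u
      _ ≤ C₁ * (max (dist u (H.loc a⁻¹)) (H.sc a) * (max M 1 * H.sc a)) :=
        mul_le_mul_of_nonneg_left (mul_le_mul_of_nonneg_left h1 h0) (by linarith)
      _ = _ := by ring
  have h3 : 1 / (C₁ * max M 1) ≤ max (dist u (H.loc a⁻¹)) (H.sc a) :=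
    (div_le_iff₀ hp).2 (le_of_mul_le_mul_right h2 hsc)
  rcases le_max_iff.1 h3 with k | k
  · exact k
  · exact absurd hs (not_lt.2 k)

/-- By `conv_ge` there is `η > 0` with `η ≤ max (dist u (loc a⁻¹)) (sc a)`, the same for `v`.
If `sc a < η` take a path of the finite list `avoid_list_gen` that avoids the pole and use `conv`;
otherwise any path of the list (or one more path) will do, by `dist_le_C`.  `exists_var`,
`Carr.smul`. -/
theorem exists_conn (H : HB G Z) {T : Set Z} {u v : Z} (h0 : JoinedIn T u v)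
    (hp : ∀ y, y ≠ u → y ≠ v → JoinedIn (T \ {y}) u v) (M : ℝ) :
    ∃ (L : ℝ) (𝒱 : Set (Cir Z →+ ℝ)), 0 < L ∧ 𝒱.Finite ∧ ∀ a : G,
      dist (a • u) (H.loc a) ≤ M * H.sc a → dist (a • v) (H.loc a) ≤ M * H.sc a →
      ∃ V₀ ∈ 𝒱, Carr ⊤ (V₀.comp (pb a)) (a • u) (a • v)
        (a • T ∩ closedBall (H.loc a) (L * H.sc a)) := by
  obtain ⟨η, hη, h1⟩ := s3bconn_far H M
  obtain ⟨η', hη', P, hP, hPT, h2⟩ := avoid_list_gen hp hη
  obtain ⟨C₂, hC₂, h3⟩ := H.conv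
  obtain ⟨γ₀, hγ₀⟩ := h0
  choose V hV using fun γ : Path u v => exists_var γ
  have hC := H.hC
  refine ⟨max (C₂ / η') (H.C / η), V '' insert γ₀ P,
    lt_max_of_lt_left (div_pos (by linarith) hη'), (hP.insert γ₀).image V, fun a hu hv => ?_⟩
  have hsc := H.sc_pos a
  have key : ∀ γ ∈ insert γ₀ P, (∀ t, γ t ∈ T) →
      (∀ t, dist (a • γ t) (H.loc a) ≤ max (C₂ / η') (H.C / η) * H.sc a) →
      ∃ V₀ ∈ V '' insert γ₀ P, Carr ⊤ (V₀.comp (pb a)) (a • u) (a • v)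
        (a • T ∩ closedBall (H.loc a) (max (C₂ / η') (H.C / η) * H.sc a)) := by
    intro γ hγ k1 k2
    refine ⟨V γ, mem_image_of_mem V hγ,
      ((hV γ).smul a fun _ _ => AddSubgroup.mem_top _).mono ?_⟩
    rintro _ ⟨_, ⟨t, rfl⟩, rfl⟩
    exact ⟨smul_mem_smul_set (k1 t), k2 t⟩
  by_cases hs : H.sc a < η
  · obtain ⟨γ, hγ, k⟩ := h2 _ (h1 a u hu hs) (h1 a v hv hs)
    refine key γ (mem_insert_of_mem _ hγ) (hPT γ hγ) fun t => ?_
    refine le_trans ?_ (mul_le_mul_of_nonneg_right (le_max_left _ _) hsc.le)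
    rw [div_mul_eq_mul_div, le_div_iff₀ hη', mul_comm]
    exact (mul_le_mul_of_nonneg_right (k t) dist_nonneg).trans (h3 a (γ t))
  · refine key γ₀ (mem_insert _ _) hγ₀ fun t => ?_
    refine le_trans ?_ (mul_le_mul_of_nonneg_right (le_max_right _ _) hsc.le)
    rw [div_mul_eq_mul_div, le_div_iff₀ hη]
    exact mul_le_mul (H.dist_le_C _ _) (not_lt.1 hs) hη.le (by linarith)

omit [CompactSpace Z] in
theorem s3bconn_mono {Q : PD Z J} {C N N' Y : Set Z} (h : Good Q C N Y) (hN : N' ⊆ N) :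
    Good Q C N' Y :=
  ⟨hN.trans h.1, fun j hj u hu v hv => h.2 j hj u ⟨hN hu.1, hu.2⟩ v ⟨hN hv.1, hv.2⟩⟩

omit [CompactSpace Z] in
theorem s3bconn_path (Q : PD Z J) {C : Set Z} {u v : Z} (h : JoinedIn Cᶜ u v) :
    ∃ (V : Cir Z →+ ℝ) (N : Set Z), IsCompact N ∧ Disjoint N C ∧ u ∈ N ∧ v ∈ N ∧
      ∀ Y, Good Q C N Y → Carr (adm Q C) V u v Y := by
  obtain ⟨γ, hγ⟩ := h
  obtain ⟨V, hV⟩ := exists_var γ
  refine ⟨V, range γ, isCompact_range γ.continuous, ?_, hV.1, hV.2.1,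
    fun Y hY => (hV.anti le_top).mono hY.1⟩
  rw [disjoint_left]
  rintro _ ⟨t, rfl⟩
  exact hγ t

theorem s3bconn_hop (Q : PD Z J) {C : Set Z} {u v : Z} {j : J} (hu : u ∈ Q.P j ∩ Cᶜ)
    (hv : v ∈ Q.P j ∩ Cᶜ) :
    ∃ (V : Cir Z →+ ℝ) (N : Set Z), IsCompact N ∧ Disjoint N C ∧ u ∈ N ∧ v ∈ N ∧
      ∀ Y, Good Q C N Y → Carr (adm Q C) V u v Y := by
  have hJ := (Q.isPathConnected_P j).joinedIn u hu.1 v hv.1
  by_cases hj : (Q.P j ∩ C).Nonempty
  · obtain ⟨V, hV⟩ := exists_carr hJ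
    have h1 : u ∈ ({u, v} : Set Z) := mem_insert _ _
    have h2 : v ∈ ({u, v} : Set Z) := mem_insert_of_mem _ rfl
    refine ⟨V, {u, v}, (toFinite _).isCompact, ?_, h1, h2,
      fun Y hY => ⟨hY.1 h1, hY.1 h2, fun φ hφ h H => ?_⟩⟩
    · rw [disjoint_left]
      rintro _ (rfl | rfl)
      · exact hu.2
      · exact hv.2
    · obtain ⟨k, K⟩ := hφ j hj
      obtain ⟨T, hT, k1, k2, k3⟩ := hY.2 j hj u ⟨h1, hu.1⟩ v ⟨h2, hv.1⟩
      rw [hV.2.2 φ (AddSubgroup.mem_top _) k K]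
      exact (K.mono fun z hz => (k3 hz).1).sub_eq (H.mono fun z hz => (k3 hz).2) hT k1 k2
  · exact s3bconn_path Q (hJ.mono fun z hz hC => hj ⟨z, hz, hC⟩)

/-- Induction on the link.  A path in `Cᶜ` contributes its range.  A hop over a hole whose
circle misses `C` is replaced by a path in the circle, which contributes its range.  A hop over a
hole whose circle touches `C` contributes its two ends, and the increment along any path in the
circle: an admissible function lifts on the circle, compare with `IsLift.sub_eq` on `T`. -/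
theorem exists_route (Q : PD Z J) {C : Set Z} {u v : Z} (hu : u ∉ C) (h : Q.Link Cᶜ u v) :
    ∃ (V : Cir Z →+ ℝ) (N : Set Z), IsCompact N ∧ Disjoint N C ∧ u ∈ N ∧ v ∈ N ∧
      ∀ Y, Good Q C N Y → Carr (adm Q C) V u v Y := by
  induction h with
  | refl =>
    exact ⟨0, {u}, isCompact_singleton, disjoint_singleton_left.2 hu, rfl, rfl,
      fun Y hY => carr_zero (hY.1 rfl)⟩
  | tail _ hs ih =>
    obtain ⟨V, N, h1, h2, h3, -, h5⟩ := ih
    obtain ⟨V', N', k1, k2, -, k4, k5⟩ :=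
      hs.elim (s3bconn_path Q) fun ⟨_, hb, hc⟩ => s3bconn_hop Q hb hc
    exact ⟨V + V', N ∪ N', h1.union k1, disjoint_union_left.2 ⟨h2, k2⟩, Or.inl h3, Or.inr k4,
      fun Y hY => (h5 Y (s3bconn_mono hY subset_union_left)).add
        (k5 Y (s3bconn_mono hY subset_union_right))⟩

theorem Good.mono {Q : PD Z J} {C N N' Y : Set Z} (h : Good Q C N Y) (hN : N' ⊆ N) :
    Good Q C N' Y :=
  s3bconn_mono h hN

theorem Good.smul (X : CS G Z J) {C N Y : Set Z} {g : G} (hg : g • C = C)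
    (h : Good X.Q C N Y) : Good X.Q C (g • N) (g • Y) := by
  refine ⟨smul_set_mono h.1, ?_⟩
  rintro j ⟨c, hc1, hc2⟩ _ ⟨⟨u, hu, rfl⟩, hu'⟩ _ ⟨⟨v, hv, rfl⟩, hv'⟩
  have hP : ∀ z, z ∈ X.Q.P (g⁻¹ • j) ↔ g • z ∈ X.Q.P j := fun z => by
    rw [X.act_P, mem_inv_smul_set_iff]
  obtain ⟨T, hT, k1, k2, k3⟩ := h.2 (g⁻¹ • j)
    ⟨g⁻¹ • c, (hP _).2 (by rwa [smul_inv_smul]), by rwa [← mem_smul_set_iff_inv_smul_mem, hg]⟩
    u ⟨hu, (hP u).2 hu'⟩ v ⟨hv, (hP v).2 hv'⟩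
  refine ⟨g • T, hT.image _ (continuous_const_smul g).continuousOn, smul_mem_smul_set k1,
    smul_mem_smul_set k2, ?_⟩
  rintro _ ⟨z, hz, rfl⟩
  exact ⟨(hP z).1 (k3 hz).1, smul_mem_smul_set (k3 hz).2⟩

omit [CompactSpace Z] in
theorem s3bconn_pre {U : Set Z} {u v : Z} (h : JoinedIn U u v) :
    ∃ T, IsPreconnected T ∧ u ∈ T ∧ v ∈ T ∧ T ⊆ U := by
  obtain ⟨γ, hγ⟩ := h
  exact ⟨range γ, isPreconnected_range γ.continuous, ⟨0, γ.source⟩, ⟨1, γ.target⟩,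
    range_subset_iff.2 hγ⟩

/-- `llc2_P` with `M = 1`. -/
theorem exists_good (X : CS G Z J) : ∃ M : ℝ, 1 ≤ M ∧ ∀ (C N : Set Z) (s : Z) (r : ℝ), 0 < r →
    (∀ z ∈ N, M * r < dist z s) → Good X.Q C N (closedBall s r)ᶜ := by
  obtain ⟨M, hM, h⟩ := X.llc2_P 1 le_rfl
  refine ⟨M, hM, fun C N s r hr hN => ⟨fun z hz k => ?_, fun j _ u hu v hv => ?_⟩⟩
  · have h1 := hN z hz
    have h2 : dist z s ≤ r := k
    have h3 : r ≤ M * r := le_mul_of_one_le_left hr.le hM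
    linarith
  · have h1 := h s r hr j u hu.2 v hv.2 (hN u hu.1).le (hN v hv.1).le
    rw [one_mul] at h1
    exact s3bconn_pre h1

/-- `llc1_P` with `M = 1`. -/
theorem exists_good' (X : CS G Z J) : ∃ M : ℝ, 1 ≤ M ∧ ∀ (C N : Set Z) (s : Z) (r : ℝ), 0 < r →
    (∀ z ∈ N, dist z s ≤ r) → Good X.Q C N (closedBall s (M * r)) := by
  obtain ⟨M, hM, h⟩ := X.llc1_P 1 le_rfl
  refine ⟨M, hM, fun C N s r hr hN => ⟨fun z hz => ?_, fun j _ u hu v hv => ?_⟩⟩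
  · exact (hN z hz).trans (le_mul_of_one_le_left hr.le hM)
  · exact s3bconn_pre (h s r hr j u hu.2 v hv.2 (by rw [one_mul]; exact hN u hu.1)
      (by rw [one_mul]; exact hN v hv.1))

end KKC.S3
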