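import Pool.Agent.Lib.MP_e1e491_gt.Wit
import Pool.Agent.Lib.MP_e1e491_gt.S3ADefs

set_option autoImplicit false

/-!
Circle valued functions on the carpet, connections and their carriers: definitions.
-/

namespace KKC.S3

open Set Metric
open scoped Pointwise

/-- Circle valued functions. -/
abbrev Cir (Z : Type) [TopologicalSpace Z] : Type := C(Z, Real.Angle)

section Top

variable {G Z J : Type} [TopologicalSpace Z]

/-- `h` is a continuous real lift of `φ` on `Y`. -/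
def IsLift (φ : Cir Z) (Y : Set Z) (h : Z → ℝ) : Prop :=
  ContinuousOn h Y ∧ ∀ z ∈ Y, (h z : Real.Angle) = φ z

/-- `φ` has a continuous real lift on `Y`. -/
def Lifts (φ : Cir Z) (Y : Set Z) : Prop := ∃ h, IsLift φ Y h

/-- Pull back along `g`. -/
noncomputable def pb [Group G] [MulAction G Z] [ContinuousConstSMul G Z] (g : G) :
    Cir Z →+ Cir Z where
  toFun φ := φ.comp ⟨fun z => g • z, continuous_const_smul g⟩
  map_zero' := rfl
  map_add' _ _ := rfl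

/-- The direction from the base point of the hole `j`. -/
noncomputable def th (Q : PD Z J) (j : J) : Cir Z where
  toFun z := (Complex.arg (Q.ι z - Q.bp j) : Real.Angle)
  continuous_toFun := continuous_iff_continuousAt.2 fun z =>
    ContinuousAt.comp (g := fun w : ℂ => (Complex.arg w : Real.Angle))
      (f := fun z => Q.ι z - Q.bp j)
      (Complex.continuousAt_arg_coe_angle
        (sub_ne_zero.2 fun e => Q.not_mem z j (e ▸ Q.bp_mem j)))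
      (Q.ι_cont.sub continuous_const).continuousAt

/-- The set `Y` carries the connection `V` from `u` to `v`, for the functions in `Adm`. -/
def Carr (Adm : AddSubgroup (Cir Z)) (V : Cir Z →+ ℝ) (u v : Z) (Y : Set Z) : Prop :=
  u ∈ Y ∧ v ∈ Y ∧ ∀ φ ∈ Adm, ∀ h, IsLift φ Y h → V φ = h v - h u

/-- The functions that lift on every circle that touches `C`. -/
def adm (Q : PD Z J) (C : Set Z) : AddSubgroup (Cir Z) where
  carrier := {φ | ∀ j, (Q.P j ∩ C).Nonempty → Lifts φ (Q.P j)}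
  zero_mem' := fun _ _ => ⟨fun _ => 0, continuousOn_const, fun _ _ => rfl⟩
  add_mem' := fun ha hb j hj => by
    obtain ⟨h, h1, h2⟩ := ha j hj
    obtain ⟨k, k1, k2⟩ := hb j hj
    exact ⟨h + k, h1.add k1, fun z hz => by
      rw [Pi.add_apply, Real.Angle.coe_add, h2 z hz, k2 z hz]; rfl⟩
  neg_mem' := fun ha j hj => by
    obtain ⟨h, h1, h2⟩ := ha j hj
    exact ⟨-h, h1.neg, fun z hz => by rw [Pi.neg_apply, Real.Angle.coe_neg, h2 z hz]; rfl⟩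

/-- `Y` contains `N` and joins the points of `N` on every circle that touches `C`. -/
def Good (Q : PD Z J) (C N Y : Set Z) : Prop :=
  N ⊆ Y ∧ ∀ j, (Q.P j ∩ C).Nonempty → ∀ u ∈ N ∩ Q.P j, ∀ v ∈ N ∩ Q.P j,
    ∃ T, IsPreconnected T ∧ u ∈ T ∧ v ∈ T ∧ T ⊆ Q.P j ∩ Y

end Top

variable {G Z J : Type} [Group G] [MetricSpace Z] [MulAction G Z] [ContinuousConstSMul G Z]

/-- `φ` is the translate by `x` of a member of `Φ` and vanishes away from the location of `x`. -/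
def Test (H : HB G Z) (L : ℝ) (Φ : Set (Cir Z)) (x : G) (φ : Cir Z) : Prop :=
  (∃ φ₀ ∈ Φ, φ = pb x⁻¹ φ₀) ∧ ∀ z, L * H.sc x < dist z (H.loc x) → φ z = 0

/-- A realisation of the edges of the Rips graph of `A`. -/
structure Edge (H : HB G Z) (A : Subgroup G) (K : ℕ) (Adm : AddSubgroup (Cir Z)) where
  ρ : G → Z
  V : G → G → Cir Z →+ ℝ
  L : ℝ
  L_pos : 0 < L
  loc : ∀ a ∈ A, ∀ b ∈ A, H.len (a⁻¹ * b) ≤ K →
    Carr Adm (V a b) (ρ a) (ρ b) (closedBall (H.loc a) (L * H.sc a))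
  fin : ∃ 𝒱 : Set (Cir Z →+ ℝ), 𝒱.Finite ∧ ∀ a ∈ A, ∀ b ∈ A, H.len (a⁻¹ * b) ≤ K →
    ∃ V₀ ∈ 𝒱, ∀ ψ, V a b ψ = V₀ (pb a ψ)

/-- The structure `Link` for subgroups `F ≤ A` of `G`. -/
structure LinkG (len : G → ℕ) (A F : Subgroup G) (K K1 K2 : ℕ) (B : ℝ)
    (W I I' : G → G → G → G → ℝ) : Prop where
  deep : ∀ x ∈ A, ∀ x' ∈ A, ∀ a ∈ A, ∀ b ∈ A, ∀ c ∈ A, Near len K x x' → Tri len K a b c →
    len x + K1 < len a → W x' a b c = W x a b c
  out_cob : ∀ x ∈ A, ∀ x' ∈ A, ∀ a ∈ A, ∀ b ∈ A, ∀ c ∈ A, Near len K x x' → Tri len K a b c →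
    W x' a b c - W x a b c = cob (I x x') a b c
  out_bdd : ∀ x ∈ A, ∀ x' ∈ A, ∀ a ∈ A, ∀ b ∈ A, Near len K x x' → Near len K a b →
    len (x⁻¹ * a) ≤ K2 → |I x x' a b| ≤ B
  out_far : ∀ x ∈ A, ∀ x' ∈ A, ∀ a ∈ A, ∀ b ∈ A, Near len K x x' → Near len K a b →
    K2 < len (x⁻¹ * a) → len a ≤ len x + K1 + K → (a⁻¹ * b ∈ F ∨ len x ≤ len a + K) →
    I x x' a b = 0
  inn_cob : ∀ x ∈ F, ∀ x' ∈ F, ∀ a ∈ A, ∀ b ∈ A, ∀ c ∈ A, Near len K x x' → Tri len K a b c →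
    W x' a b c - W x a b c = cob (I' x x') a b c
  inn_fin : ∀ x ∈ F, ∀ x' ∈ F, Near len K x x' → ∃ N : ℕ, ∀ a ∈ A, ∀ b ∈ A, Near len K a b →
    N < len a → I' x x' a b = 0
  inn_bdd : ∀ x ∈ F, ∀ x' ∈ F, ∀ a ∈ A, ∀ b ∈ A, Near len K x x' → Near len K a b →
    a⁻¹ * b ∈ F → len (x⁻¹ * a) ≤ K2 → |I' x x' a b| ≤ B
  inn_far : ∀ x ∈ F, ∀ x' ∈ F, ∀ a ∈ A, ∀ b ∈ A, Near len K x x' → Near len K a b →
    a⁻¹ * b ∈ F → K2 < len (x⁻¹ * a) → I' x x' a b = 0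

variable [MulAction G J]

/-- A view that sees both colours lies in finitely many cosets of `F`. -/
def TwoCol (F : Subgroup G) (c : J → Prop) : Prop :=
  ∀ J₀ : Finset J, ∃ Φ : Finset G, ∀ g : G, ∀ i ∈ J₀, ∀ j ∈ J₀, c (g • i) → ¬ c (g • j) →
    ∃ φ ∈ Φ, g * φ⁻¹ ∈ F

/-- Arbitrarily deep cycles in `F` that separate `b` from the hole `V`, seen through the test hole
`T`. -/
def Cyc (X : CS G Z J) (F : Subgroup G) (T V : J) (b : Z) (K : ℕ) : Prop :=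
  ∀ (L : ℝ) (R : ℕ), ∃ (ι : Type) (s : Finset ι) (x x' : ι → G),
    (∀ i ∈ s, x i ∈ F ∧ x' i ∈ F ∧ X.H.len ((x i)⁻¹ * x' i) ≤ K ∧ R ≤ X.H.len (x i) ∧
      R ≤ X.H.len (x' i)) ∧
    (∀ (M : Type) [AddCommGroup M] (f : G → M), ∑ i ∈ s, (f (x' i) - f (x i)) = 0) ∧
    ∀ (φ : ι → Cir Z) (H h : ι → Z → ℝ),
      (∀ i ∈ s, (∀ z, L * X.H.sc (x i) < dist z (X.H.loc (x i)) → φ i z = 0) ∧
        IsLift (φ i - (th X.Q (x' i • T) - th X.Q (x i • T))) univ (H i) ∧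
        IsLift (φ i) (X.Q.P V) (h i) ∧
        ∀ z ∈ X.Q.P V, L * X.H.sc (x i) < dist z (X.H.loc (x i)) → h i z = 0) →
      ∀ u ∈ X.Q.P V, ∑ i ∈ s, (H i b - H i u + h i u) ≠ 0

end KKC.S3
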