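import Pool.Agent.Lib.MP_e1e491_gt.S3BLift

set_option autoImplicit false

/-!
Metric estimates, and general facts on realisations of edges.
-/

namespace KKC.S3

open Set Metric
open scoped Pointwise

variable {G Z : Type} [Group G] [MetricSpace Z] [CompactSpace Z] [MulAction G Z]
  [ContinuousConstSMul G Z] (H : HB G Z)

omit [CompactSpace Z] [ContinuousConstSMul G Z] in
lemma s3bhyp_le {a x : G} {M : ℕ} (h : H.len a ≤ H.len x + M) : H.sc x ≤ H.a ^ M * H.sc a := by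
  have h0 := one_pos.trans H.ha
  rw [HB.sc, HB.sc, ← Real.rpow_natCast, ← Real.rpow_add h0, Real.rpow_le_rpow_left_iff H.ha]
  have : (H.len a : ℝ) ≤ H.len x + M := by exact_mod_cast h
  linarith

omit [CompactSpace Z] [ContinuousConstSMul G Z] in
lemma s3bhyp_ge {a x : G} {M : ℕ} (h : H.len a + M ≤ H.len x) : H.a ^ M * H.sc x ≤ H.sc a := by
  have h0 := one_pos.trans H.ha
  rw [HB.sc, HB.sc, ← Real.rpow_natCast, ← Real.rpow_add h0, Real.rpow_le_rpow_left_iff H.ha]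
  have : (H.len a : ℝ) + M ≤ H.len x := by exact_mod_cast h
  linarith

lemma s3bhyp_gap {C N : Set Z} (hC : IsClosed C) (hN : IsCompact N) (hd : Disjoint N C) :
    ∃ d > 0, ∀ z ∈ N, ∀ ξ ∈ C, d ≤ dist z ξ := by
  obtain ⟨d, h0, h⟩ := (hN.prod hC.isCompact).exists_forall_le'
    (f := fun p : Z × Z => dist p.1 p.2) continuous_dist.continuousOn (a := 0)
    fun p hp => dist_pos.2 fun e => Set.disjoint_left.1 hd hp.1 (e ▸ hp.2)
  exact ⟨d, h0, fun z hz ξ hξ => h (z, ξ) ⟨hz, hξ⟩⟩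

/-- Far elements of comparable depth have far locations (`len_le_of_near`). -/
theorem exists_far (L : ℝ) (M : ℕ) : ∃ K2 : ℕ, ∀ x a : G, K2 < H.len (x⁻¹ * a) →
    H.len a ≤ H.len x + M → H.len x ≤ H.len a + M → ∀ z,
      dist z (H.loc a) ≤ L * H.sc a → L * H.sc x < dist z (H.loc x) := by
  have u1 : 1 ≤ H.a ^ M := one_le_pow₀ H.ha.le
  have l0 := abs_nonneg L
  obtain ⟨K, hK⟩ := H.len_le_of_near (|L| + |L| * H.a ^ M + H.a ^ M)
  refine ⟨K, fun x a h h1 h2 z hz => not_le.1 fun k => not_le.2 h ?_⟩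
  have k1 := s3bhyp_le H h1
  have k2 := s3bhyp_le H h2
  have p1 := H.sc_pos x
  have p2 := H.sc_pos a
  have k3 : H.a ^ M ≤ |L| + |L| * H.a ^ M + H.a ^ M := le_add_of_nonneg_left (by positivity)
  refine hK x a ?_ (k1.trans (mul_le_mul_of_nonneg_right k3 p2.le))
    (k2.trans (mul_le_mul_of_nonneg_right k3 p1.le))
  have k4 := dist_triangle_left (H.loc x) (H.loc a) z
  have k5 := mul_le_mul_of_nonneg_right (le_abs_self L) p1.le
  have k6 := mul_le_mul_of_nonneg_right (le_abs_self L) p2.le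
  have k7 := mul_le_mul_of_nonneg_left k2 l0
  have k8 : 0 ≤ H.a ^ M * H.sc x := by positivity
  linarith

/-- Balls around the location of a neighbour (`loc_step`, `sc_mul`). -/
theorem exists_nbr (L : ℝ) (K : ℕ) : ∃ L' : ℝ, L ≤ L' ∧ 0 < L' ∧ ∀ x x' : G,
    H.len (x⁻¹ * x') ≤ K → ∀ z, dist z (H.loc x') ≤ L * H.sc x' →
      dist z (H.loc x) ≤ L' * H.sc x := by
  have u1 : 1 ≤ H.a ^ K := one_le_pow₀ H.ha.le
  have l0 := abs_nonneg L
  obtain ⟨C₁, h1, h⟩ := H.loc_step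
  refine ⟨|L| * H.a ^ K + C₁ * H.a ^ K, ?_, by positivity, fun x x' hx z hz => ?_⟩
  · have := le_abs_self L
    have := le_mul_of_one_le_right l0 u1
    have : 0 ≤ C₁ * H.a ^ K := by positivity
    linarith
  have k1 := s3bhyp_le H (a := x⁻¹ * x') (x := 1) (hx.trans (Nat.le_add_left _ _))
  have k2 := s3bhyp_le H (a := x) (x := x') (M := K) (by
    have := H.len_mul x' (x⁻¹ * x')⁻¹
    rw [H.len_inv, mul_inv_rev, inv_inv, mul_inv_cancel_left] at this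
    omega)
  have k3 := mul_le_mul_of_nonneg_left (h x (x⁻¹ * x')) (zero_le_one.trans u1)
  rw [mul_inv_cancel_left] at k3
  rw [H.sc_one] at k1
  have k4 := mul_le_mul_of_nonneg_left k1 (dist_nonneg (x := H.loc x) (y := H.loc x'))
  have k6 := mul_le_mul_of_nonneg_right (le_abs_self L) (H.sc_pos x').le
  have k7 := mul_le_mul_of_nonneg_left k2 l0
  have k8 := dist_triangle z (H.loc x') (H.loc x)
  rw [dist_comm (H.loc x')] at k8
  linarith

/-- A much deeper element has a much smaller scale. -/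
theorem exists_gap (M : ℝ) : ∃ K3 : ℕ, ∀ a x : G, H.len a + K3 ≤ H.len x →
    M * H.sc x < H.sc a := by
  obtain ⟨K, hK⟩ := pow_unbounded_of_one_lt M H.ha
  exact ⟨K, fun a x h => (mul_lt_mul_of_pos_right hK (H.sc_pos x)).trans_le (s3bhyp_ge H h)⟩

/-- The pole of a deep element of the stabiliser is near `C` (`loc_near_of_smul_eq` for `g⁻¹`),
so far from `N`; use `conv`.  For the finitely many other elements use `dist_le_C`. -/
theorem exists_small_smul {C N : Set Z} (hC : IsClosed C) (hn : C.Nontrivial) (hN : IsCompact N)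
    (hd : Disjoint N C) : ∃ L : ℝ, 0 < L ∧ ∀ g : G, g • C = C → ∀ z ∈ N,
      dist (g • z) (H.loc g) ≤ L * H.sc g := by
  obtain ⟨d, d0, hg⟩ := s3bhyp_gap hC hN hd
  obtain ⟨M, hM, h1⟩ := H.loc_near_of_smul_eq hn
  obtain ⟨C₁, c1, h2⟩ := H.conv
  have c0 := H.hC
  refine ⟨2 / d * (C₁ + H.C * M), by positivity, fun g e z hz => ?_⟩
  obtain ⟨b, hb, k1⟩ := h1 g⁻¹ (inv_smul_eq_iff.2 e.symm)
  rw [H.sc_inv] at k1
  have p := H.sc_pos g
  have q : 0 ≤ dist (g • z) (H.loc g) := dist_nonneg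
  rw [mul_assoc, div_mul_eq_mul_div, le_div_iff₀ d0]
  have p1 : 0 ≤ C₁ * H.sc g := by positivity
  have p2 : 0 ≤ H.C * (M * H.sc g) := by positivity
  rcases le_total (M * H.sc g) (d / 2) with k | k
  · have k2 := dist_triangle_right z b (H.loc g⁻¹)
    have k3 : d / 2 ≤ dist z (H.loc g⁻¹) := by linarith [hg z hz b hb]
    have k4 := mul_le_mul_of_nonneg_right k3 q
    linarith [h2 g z]
  · have k2 := mul_le_mul (H.dist_le_C (g • z) (H.loc g)) k (by positivity) (by positivity)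
    linarith

/-- `lip`. -/
theorem exists_away {C N : Set Z} (hC : IsClosed C) (hN : IsCompact N) (hd : Disjoint N C) :
    ∃ c > 0, ∀ g : G, g • C = C → ∀ z ∈ N, ∀ ξ ∈ C, c * H.sc g ≤ dist (g • z) ξ := by
  obtain ⟨d, d0, hg⟩ := s3bhyp_gap hC hN hd
  obtain ⟨C₁, c1, h⟩ := H.lip
  refine ⟨d / C₁, by positivity, fun g e z hz ξ hξ => ?_⟩
  obtain ⟨ξ', k, rfl⟩ : ξ ∈ g • C := e.symm ▸ hξ
  rw [div_mul_eq_mul_div, div_le_iff₀ (by positivity)]
  have := mul_le_mul_of_nonneg_left (hg z hz ξ' k) (H.sc_pos g).le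
  linarith [(h g z ξ').2]

/-- Small balls around deep elements of the stabiliser lie in a given neighbourhood of `C`. -/
theorem exists_deep_subset {C O : Set Z} (hC : IsClosed C) (hn : C.Nontrivial) (hO : IsOpen O)
    (hCO : C ⊆ O) (L : ℝ) : ∃ R : ℕ, ∀ g : G, g • C = C → R ≤ H.len g →
      closedBall (H.loc g) (L * H.sc g) ⊆ O := by
  obtain ⟨d, d0, hg⟩ := s3bhyp_gap hC hO.isClosed_compl.isCompact
    (disjoint_compl_left.mono_right hCO)
  obtain ⟨M, hM, h1⟩ := H.loc_near_of_smul_eq hn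
  have l0 := abs_nonneg L
  obtain ⟨R, hR⟩ := H.exists_sc_lt (ε := d / (|L| + M)) (by positivity)
  refine ⟨R, fun g e hg' z hz => by_contra fun k => ?_⟩
  obtain ⟨b, hb, k1⟩ := h1 g e
  have k2 := (lt_div_iff₀ (by positivity)).1 (hR g hg')
  have k3 := dist_triangle_right z b (H.loc g)
  have k4 := mul_le_mul_of_nonneg_right (le_abs_self L) (H.sc_pos g).le
  linarith [hg z k b hb, mem_closedBall.1 hz]

variable {H} {A : Subgroup G} {K : ℕ} {Adm : AddSubgroup (Cir Z)} (E : Edge H A K Adm)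

/-- `V a b (pb x⁻¹ φ₀) = V₀ (pb (x⁻¹ * a) φ₀)` takes finitely many values. -/
theorem Edge.bdd {Φ : Set (Cir Z)} (hΦ : Φ.Finite) (n : ℕ) : ∃ B : ℝ, 0 ≤ B ∧ ∀ x : G, ∀ a ∈ A,
    ∀ b ∈ A, H.len (a⁻¹ * b) ≤ K → H.len (x⁻¹ * a) ≤ n → ∀ φ₀ ∈ Φ,
      |E.V a b (pb x⁻¹ φ₀)| ≤ B := by
  obtain ⟨𝒱, h1, h2⟩ := E.fin
  obtain ⟨B, hB⟩ := ((h1.prod ((H.fin n).prod hΦ)).image
    fun p => |p.1 (pb p.2.1 p.2.2)|).bddAbove
  refine ⟨max B 0, le_max_right _ _, fun x a ha b hb hab hx φ₀ hφ => le_max_of_le_left ?_⟩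
  obtain ⟨V₀, k1, k2⟩ := h2 a ha b hb hab
  rw [k2, pb_pb]
  exact hB ⟨(V₀, x⁻¹ * a, φ₀), ⟨k1, hx, hφ⟩, rfl⟩

/-- The three edges are carried by one ball `Y` around `loc a` (`exists_nbr`); `x⁻¹ • Y` is small
(`lip`, `exists_gap`), so the function lifts on `Y` (`exists_small`, `lifts_pb_iff`). -/
theorem Edge.deep {Φ : Set (Cir Z)} (hΦ : Φ.Finite) : ∃ K1 : ℕ, ∀ x : G, ∀ a ∈ A, ∀ b ∈ A,
    ∀ c ∈ A, Tri H.len K a b c → H.len x + K1 < H.len a → ∀ φ₀ ∈ Φ, pb x⁻¹ φ₀ ∈ Adm →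
      cob (fun a b => E.V a b (pb x⁻¹ φ₀)) a b c = 0 := by
  obtain ⟨δ, h1, δ0⟩ := (((Filter.eventually_all_finite (l := nhdsWithin (0 : ℝ) (Ioi 0)) hΦ
    (p := fun φ δ => ∀ Y : Set Z, (∀ u ∈ Y, ∀ v ∈ Y, dist u v ≤ δ) → Lifts φ Y)).2
    fun φ _ => by
      obtain ⟨δ, h0, h⟩ := exists_small φ
      exact Filter.mem_of_superset (mem_nhdsWithin_of_mem_nhds (Iic_mem_nhds h0)) fun t ht Y hY =>
        h Y fun u hu v hv => (hY u hu v hv).trans ht).and self_mem_nhdsWithin).exists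
  have δ1 : 0 < δ := δ0
  obtain ⟨L', l1, l0, h2⟩ := exists_nbr H E.L K
  obtain ⟨C₁, c1, h3⟩ := H.lip
  obtain ⟨K1, h4⟩ := exists_gap H (2 * C₁ * L' / δ)
  refine ⟨K1, fun x a ha b hb c hc t hx φ₀ hφ hA => ?_⟩
  obtain ⟨h, hh⟩ : Lifts (pb x⁻¹ φ₀) (closedBall (H.loc a) (L' * H.sc a)) := by
    refine (lifts_pb_iff _).2 (h1 φ₀ hφ _ ?_)
    rintro _ ⟨u, hu, rfl⟩ _ ⟨v, hv, rfl⟩
    have k1 := (h3 x⁻¹ u v).1
    have k2 := h4 x a hx.le
    have k3 : dist u v ≤ 2 * (L' * H.sc a) := by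
      linarith [dist_triangle_right u v (H.loc a), mem_closedBall.1 hu, mem_closedBall.1 hv]
    have k4 := mul_le_mul_of_nonneg_left k3 (zero_le_one.trans c1)
    rw [div_mul_eq_mul_div, div_lt_iff₀ δ1] at k2
    rw [H.sc_inv] at k1
    exact le_of_mul_le_mul_left (by linarith) (H.sc_pos x)
  have s1 := closedBall_subset_closedBall (x := H.loc a)
    (mul_le_mul_of_nonneg_right l1 (H.sc_pos a).le)
  have e1 := (E.loc a ha b hb t.1).2.2 _ hA h (hh.mono s1)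
  have e2 := (E.loc b hb c hc t.2.1).2.2 _ hA h (hh.mono fun z hz => h2 a b t.1 z hz)
  have e3 := (E.loc a ha c hc t.2.2).2.2 _ hA h (hh.mono s1)
  rw [cob, e1, e2, e3]
  ring

theorem Edge.lift {a b : G} (ha : a ∈ A) (hb : b ∈ A) (h : H.len (a⁻¹ * b) ≤ K) {φ : Cir Z}
    (hφ : φ ∈ Adm) {f : Z → ℝ} (hf : IsLift φ univ f) : E.V a b φ = f (E.ρ b) - f (E.ρ a) := by
  exact (E.loc a ha b hb h).2.2 φ hφ f (hf.mono (subset_univ _))

end KKC.S3
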