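import Pool.Agent.Lib.MP_e1e491_gt.S3BDefs

set_option autoImplicit false

/-!
Lifts, connections along paths, carriers.
-/

namespace KKC.S3

open Set Metric
open scoped Pointwise

section Top

variable {G Z : Type} [TopologicalSpace Z] {φ ψ : Cir Z} {Y Y' : Set Z} {h k : Z → ℝ}

lemma s3blift_eq {a b : ℝ} (h : (a : Real.Angle) = b) (hd : |a - b| < 2 * Real.pi) : a = b := by
  obtain ⟨k, hk⟩ := Real.Angle.angle_eq_iff_two_pi_dvd_sub.1 h
  have hp : 0 < 2 * Real.pi := Real.two_pi_pos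
  rw [hk, abs_mul, abs_of_pos hp, mul_lt_iff_lt_one_right hp] at hd
  have h1 : |k| < 1 := by exact_mod_cast hd
  rw [Int.abs_lt_one_iff.1 h1] at hk
  simpa [sub_eq_zero] using hk

lemma s3blift_not_lt {α : Type} [TopologicalSpace α] {T : Set α} (hT : IsPreconnected T)
    {f : α → ℝ} (hf : ContinuousOn f T) (h0 : ∀ z ∈ T, (f z : Real.Angle) = 0) {u v : α}
    (hu : u ∈ T) (hv : v ∈ T) : ¬ f u < f v := fun h => by
  have hp := Real.pi_pos
  have h1 : ¬ |f u - f v| < 2 * Real.pi := fun k =>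
    h.ne (s3blift_eq ((h0 u hu).trans (h0 v hv).symm) k)
  rw [abs_of_neg (sub_neg.2 h), not_lt] at h1
  obtain ⟨z, hz, e⟩ := hT.intermediate_value hu hv hf
    (⟨by linarith, by linarith⟩ : f u + Real.pi ∈ Icc (f u) (f v))
  have h2 := h0 z hz
  rw [e, Real.Angle.coe_add, h0 u hu, zero_add] at h2
  exact Real.Angle.pi_ne_zero h2

lemma s3blift_arcsin {θ : Real.Angle} (h : 0 ≤ θ.cos) :
    ((Real.arcsin θ.sin : ℝ) : Real.Angle) = θ := by
  have h1 := abs_le.1 (Real.Angle.cos_nonneg_iff_abs_toReal_le_pi_div_two.1 h)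
  rw [← Real.Angle.sin_toReal, Real.arcsin_sin h1.1 h1.2, Real.Angle.coe_toReal]

lemma s3blift_cont (ψ : Cir Z) : Continuous fun z => Real.arcsin (ψ z).sin :=
  Real.continuous_arcsin.comp (Real.Angle.continuous_sin.comp ψ.continuous)

/-- A continuous function with values in `2 π ℤ` is constant on a preconnected set. -/
lemma eq_of_coe_zero {α : Type} [TopologicalSpace α] {T : Set α} (hT : IsPreconnected T)
    {f : α → ℝ} (hf : ContinuousOn f T) (h0 : ∀ z ∈ T, (f z : Real.Angle) = 0) {u v : α}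
    (hu : u ∈ T) (hv : v ∈ T) : f u = f v :=
  le_antisymm (not_lt.1 (s3blift_not_lt hT hf h0 hv hu)) (not_lt.1 (s3blift_not_lt hT hf h0 hu hv))

/-- Two elements of `2 π ℤ` at distance less than `2 π` are equal. -/
lemma eq_of_coe_eq {a b : ℝ} (h : (a : Real.Angle) = b) (hd : |a - b| < 2 * Real.pi) : a = b :=
  s3blift_eq h hd

lemma IsLift.mono (H : IsLift φ Y h) (hY : Y' ⊆ Y) : IsLift φ Y' h :=
  ⟨H.1.mono hY, fun z hz => H.2 z (hY hz)⟩

lemma IsLift.add (H : IsLift φ Y h) (H' : IsLift ψ Y k) : IsLift (φ + ψ) Y (h + k) :=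
  ⟨H.1.add H'.1, fun z hz => by
    rw [Pi.add_apply, Real.Angle.coe_add, H.2 z hz, H'.2 z hz]
    rfl⟩

lemma IsLift.neg (H : IsLift φ Y h) : IsLift (-φ) Y (-h) :=
  ⟨H.1.neg, fun z hz => by
    rw [Pi.neg_apply, Real.Angle.coe_neg, H.2 z hz]
    rfl⟩

lemma IsLift.sub (H : IsLift φ Y h) (H' : IsLift ψ Y k) : IsLift (φ - ψ) Y (h - k) :=
  ⟨H.1.sub H'.1, fun z hz => by
    rw [Pi.sub_apply, Real.Angle.coe_sub, H.2 z hz, H'.2 z hz]
    rfl⟩

lemma IsLift.sum {ι : Type} (s : Finset ι) {φ : ι → Cir Z} {h : ι → Z → ℝ}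
    (H : ∀ i ∈ s, IsLift (φ i) Y (h i)) : IsLift (∑ i ∈ s, φ i) Y (∑ i ∈ s, h i) := by
  classical
  induction s using Finset.induction_on with
  | empty => exact ⟨continuousOn_const, fun _ _ => rfl⟩
  | insert i s hi ih =>
    rw [Finset.sum_insert hi, Finset.sum_insert hi]
    exact (H i (Finset.mem_insert_self i s)).add
      (ih fun j hj => H j (Finset.mem_insert_of_mem hj))

lemma isLift_zero (H : ∀ z ∈ Y, φ z = 0) : IsLift φ Y 0 :=
  ⟨continuousOn_const, fun z hz => (H z hz).symm⟩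

lemma IsLift.sub_eq (H : IsLift φ Y h) (H' : IsLift φ Y k) (hY : IsPreconnected Y) {u v : Z}
    (hu : u ∈ Y) (hv : v ∈ Y) : h v - h u = k v - k u := by
  have h1 := eq_of_coe_zero hY (H.1.sub H'.1) (fun z hz => by
    rw [Pi.sub_apply, Real.Angle.coe_sub, H.2 z hz, H'.2 z hz, sub_self]) hu hv
  simp only [Pi.sub_apply] at h1
  linarith

lemma Lifts.mono (H : Lifts φ Y) (hY : Y' ⊆ Y) : Lifts φ Y' :=
  H.imp fun _ k => k.mono hY

lemma Lifts.add (H : Lifts φ Y) (H' : Lifts ψ Y) : Lifts (φ + ψ) Y := by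
  obtain ⟨h, H⟩ := H
  obtain ⟨k, H'⟩ := H'
  exact ⟨_, H.add H'⟩

lemma Lifts.neg (H : Lifts φ Y) : Lifts (-φ) Y := by
  obtain ⟨h, H⟩ := H
  exact ⟨_, H.neg⟩

lemma Lifts.sub (H : Lifts φ Y) (H' : Lifts ψ Y) : Lifts (φ - ψ) Y := by
  obtain ⟨h, H⟩ := H
  obtain ⟨k, H'⟩ := H'
  exact ⟨_, H.sub H'⟩

lemma Lifts.zsmul (H : Lifts φ Y) (n : ℤ) : Lifts (n • φ) Y := by
  obtain ⟨h, H⟩ := H
  refine ⟨fun z => n • h z, H.1.const_smul n, fun z hz => ?_⟩
  rw [Real.Angle.coe_zsmul, H.2 z hz]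
  rfl

lemma lifts_zero : Lifts (0 : Cir Z) Y :=
  ⟨0, isLift_zero fun _ _ => rfl⟩

lemma lifts_const (a : Real.Angle) : Lifts (ContinuousMap.const Z a) Y :=
  ⟨fun _ => a.toReal, continuousOn_const, fun _ _ => a.coe_toReal⟩

/-- Subtract `arcsin (sin ψ)`; it is `toReal ψ` where the cosine is nonnegative. -/
lemma exists_collapse (ψ : Cir Z) :
    ∃ φ : Cir Z, Lifts (φ - ψ) univ ∧ ∀ z, 0 ≤ (ψ z).cos → φ z = 0 := by
  refine ⟨ψ - ⟨fun z => (Real.arcsin (ψ z).sin : ℝ),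
    Real.Angle.continuous_coe.comp (s3blift_cont ψ)⟩,
    ⟨fun z => -Real.arcsin (ψ z).sin, (s3blift_cont ψ).neg.continuousOn, fun z _ => ?_⟩,
    fun z hz => ?_⟩
  · rw [Real.Angle.coe_neg, sub_sub_cancel_left]
    rfl
  · exact sub_eq_zero.2 (s3blift_arcsin hz).symm

lemma s3blift_path (φ : Cir unitInterval) : Lifts φ univ := by
  obtain ⟨Γ, h1, -⟩ := (AddCircle.isCoveringMap_coe (2 * Real.pi)).exists_path_lifts φ
    (φ 0).toReal (φ 0).coe_toReal.symm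
  exact ⟨Γ, Γ.continuous.continuousOn, fun z _ => congrFun h1 z⟩

/-- Lift `φ ∘ γ` through the covering map `ℝ → Real.Angle` (`AddCircle.isCoveringMap_coe`); the
increment of the lift does not depend on the lift (`eq_of_coe_zero` on the unit interval), so it
is additive in `φ`. -/
theorem exists_var {u v : Z} (γ : Path u v) :
    ∃ V : Cir Z →+ ℝ, Carr ⊤ V u v (range γ) := by
  choose Γ hΓ using fun φ : Cir Z => s3blift_path (φ.comp γ.toContinuousMap)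
  have hI : IsPreconnected (univ : Set unitInterval) := isPreconnected_univ
  refine ⟨AddMonoidHom.mk' (fun φ => Γ φ 1 - Γ φ 0) fun φ ψ => ?_, ⟨0, γ.source⟩, ⟨1, γ.target⟩,
    fun φ _ h H => ?_⟩
  · have h1 := (hΓ (φ + ψ)).sub_eq ((hΓ φ).add (hΓ ψ)) hI (mem_univ 0) (mem_univ 1)
    simp only [Pi.add_apply] at h1
    linarith
  · have H' : IsLift (φ.comp γ.toContinuousMap) univ fun t => h (γ t) :=
      ⟨H.1.comp γ.continuous.continuousOn fun t _ => mem_range_self t,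
        fun t _ => H.2 _ (mem_range_self t)⟩
    have h1 := (hΓ φ).sub_eq H' hI (mem_univ 0) (mem_univ 1)
    rw [γ.source, γ.target] at h1
    exact h1

variable {Adm Adm' : AddSubgroup (Cir Z)} {V V' : Cir Z →+ ℝ} {u v w : Z}

lemma Carr.mono (H : Carr Adm V u v Y) (hY : Y ⊆ Y') : Carr Adm V u v Y' :=
  ⟨hY H.1, hY H.2.1, fun φ hφ h k => H.2.2 φ hφ h (k.mono hY)⟩

lemma Carr.anti (H : Carr Adm V u v Y) (hA : Adm' ≤ Adm) : Carr Adm' V u v Y :=
  ⟨H.1, H.2.1, fun φ hφ => H.2.2 φ (hA hφ)⟩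

lemma Carr.add (H : Carr Adm V u v Y) (H' : Carr Adm V' v w Y) : Carr Adm (V + V') u w Y :=
  ⟨H.1, H'.2.1, fun φ hφ h k => by
    rw [AddMonoidHom.add_apply, H.2.2 φ hφ h k, H'.2.2 φ hφ h k]
    ring⟩

lemma carr_zero (hu : u ∈ Y) : Carr Adm 0 u u Y :=
  ⟨hu, hu, fun _ _ _ _ => (sub_self _).symm⟩

lemma Carr.eq_zero (H : Carr Adm V u v Y) (hφ : φ ∈ Adm) (h0 : ∀ z ∈ Y, φ z = 0) : V φ = 0 :=
  (H.2.2 φ hφ 0 (isLift_zero h0)).trans (sub_self _)

lemma exists_carr (H : JoinedIn Y u v) : ∃ V : Cir Z →+ ℝ, Carr ⊤ V u v Y := by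
  obtain ⟨γ, hγ⟩ := H
  obtain ⟨V, hV⟩ := exists_var γ
  exact ⟨V, hV.mono (range_subset_iff.2 hγ)⟩

variable [Group G] [MulAction G Z] [ContinuousConstSMul G Z]

lemma pb_apply (g : G) (φ : Cir Z) (z : Z) : pb g φ z = φ (g • z) := rfl

lemma pb_one (φ : Cir Z) : pb (1 : G) φ = φ := by
  ext z
  rw [pb_apply, one_smul]

lemma pb_pb (g g' : G) (φ : Cir Z) : pb g (pb g' φ) = pb (g' * g) φ := by
  ext z
  rw [pb_apply, pb_apply, pb_apply, mul_smul]

lemma IsLift.pb (g : G) (H : IsLift φ (g • Y) h) : IsLift (pb g φ) Y (fun z => h (g • z)) :=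
  ⟨H.1.comp (continuous_const_smul g).continuousOn fun _ hz => smul_mem_smul_set hz,
    fun _ hz => H.2 _ (smul_mem_smul_set hz)⟩

lemma lifts_pb_iff (g : G) : Lifts (pb g φ) Y ↔ Lifts φ (g • Y) := by
  refine ⟨fun ⟨h, H⟩ => ?_, fun ⟨h, H⟩ => ⟨_, H.pb g⟩⟩
  have H' : IsLift (pb g φ) (g⁻¹ • g • Y) h := by
    rw [inv_smul_smul]
    exact H
  have H2 := H'.pb g⁻¹
  rw [pb_pb, mul_inv_cancel, pb_one] at H2
  exact ⟨_, H2⟩

lemma Carr.smul (g : G) (H : Carr Adm V u v Y) (hA : ∀ φ ∈ Adm', pb g φ ∈ Adm) :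
    Carr Adm' (V.comp (pb g)) (g • u) (g • v) (g • Y) :=
  ⟨smul_mem_smul_set H.1, smul_mem_smul_set H.2.1, fun φ hφ _ k =>
    H.2.2 (pb g φ) (hA φ hφ) _ (k.pb g)⟩

end Top

variable {Z : Type} [MetricSpace Z] [CompactSpace Z]

lemma s3blift_unif (φ : Cir Z) :
    ∃ δ > 0, ∀ u v : Z, dist u v ≤ δ → 0 ≤ (φ u - φ v).cos := by
  have h1 : {θ : Real.Angle | 0 < θ.cos} ∈ nhds (0 : Real.Angle) :=
    (isOpen_lt continuous_const Real.Angle.continuous_cos).mem_nhds (by simp)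
  obtain ⟨ε, hε, h2⟩ := Metric.mem_nhds_iff.1 h1
  obtain ⟨δ, hδ, h3⟩ := Metric.uniformContinuous_iff.1
    (CompactSpace.uniformContinuous_of_continuous φ.continuous) ε hε
  refine ⟨δ / 2, half_pos hδ, fun u v h => le_of_lt (h2 ?_)⟩
  rw [mem_ball_zero_iff, ← dist_eq_norm]
  exact h3 (h.trans_lt (half_lt_self hδ))

/-- Uniform continuity; on a small set `toReal (φ - φ u)` is continuous. -/
lemma exists_small (φ : Cir Z) :
    ∃ δ > 0, ∀ Y : Set Z, (∀ u ∈ Y, ∀ v ∈ Y, dist u v ≤ δ) → Lifts φ Y := by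
  obtain ⟨δ, hδ, H⟩ := s3blift_unif φ
  refine ⟨δ, hδ, fun Y hY => ?_⟩
  rcases Y.eq_empty_or_nonempty with rfl | ⟨u, hu⟩
  · exact ⟨0, continuousOn_const, fun _ hz => hz.elim⟩
  · refine ⟨fun z => Real.arcsin (φ z - φ u).sin + (φ u).toReal,
      ((s3blift_cont (φ - ContinuousMap.const Z (φ u))).add continuous_const).continuousOn,
      fun z hz => ?_⟩
    rw [Real.Angle.coe_add, s3blift_arcsin (H z u (hY z hz u hu)), Real.Angle.coe_toReal,
      sub_add_cancel]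

/-- All lifts on a continuum have the same oscillation. -/
lemma exists_osc (φ : Cir Z) {Y : Set Z} (hY : IsCompact Y) (hc : IsPreconnected Y) :
    ∃ B : ℝ, ∀ h, IsLift φ Y h → ∀ u ∈ Y, ∀ v ∈ Y, |h u - h v| ≤ B := by
  by_cases hL : Lifts φ Y
  · obtain ⟨k, K⟩ := hL
    obtain ⟨C, hC⟩ := hY.exists_bound_of_continuousOn K.1
    refine ⟨C + C, fun h H u hu v hv => ?_⟩
    rw [H.sub_eq K hc hv hu]
    exact (abs_sub _ _).trans (add_le_add (hC u hu) (hC v hv))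
  · exact ⟨0, fun h H => (hL ⟨h, H⟩).elim⟩

/-- Representatives that vanish near a given point: `exists_collapse` for `ψ - ψ y` with `y` in a
finite net. -/
lemma exists_vanish (ψ : Cir Z) : ∃ η > 0, ∃ Φ : Set (Cir Z), Φ.Finite ∧
    (∀ φ ∈ Φ, Lifts (φ - ψ) univ) ∧ ∀ y, ∃ φ ∈ Φ, ∀ z, dist z y ≤ η → φ z = 0 := by
  obtain ⟨δ, hδ, H⟩ := s3blift_unif ψ
  choose F h1 h2 using fun y : Z => exists_collapse (ψ - ContinuousMap.const Z (ψ y))
  obtain ⟨t, -, ht, hc⟩ := finite_cover_balls_of_compact (isCompact_univ (X := Z)) (half_pos hδ)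
  refine ⟨δ / 2, half_pos hδ, F '' t, ht.image F, ?_, fun y => ?_⟩
  · rintro _ ⟨y, -, rfl⟩
    have h3 := (h1 y).sub (lifts_const (ψ y))
    have e : F y - (ψ - ContinuousMap.const Z (ψ y)) - ContinuousMap.const Z (ψ y) = F y - ψ := by
      abel
    rwa [e] at h3
  · obtain ⟨c, hct, hyc⟩ := mem_iUnion₂.1 (hc (mem_univ y))
    refine ⟨F c, mem_image_of_mem F hct, fun z hz => h2 c z (H z c ?_)⟩
    have h3 := dist_triangle z y c
    have h4 : dist y c < δ / 2 := hyc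
    linarith

end KKC.S3
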