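import Pool.Agent.Lib.MP_e1e491_gt.S3BLift

set_option autoImplicit false

/-!
Circle valued functions on the boundary of a square.
-/

namespace KKC.S3

open Set Metric

lemma s3bsq_slit {a b : ℂ} (h : (0 : ℂ) ∉ segment ℝ a b) : a / b ∈ Complex.slitPlane := by
  have hb : b ≠ 0 := fun e => h (e ▸ right_mem_segment ℝ a b)
  by_contra hs
  rw [Complex.mem_slitPlane_iff, not_or, not_lt, not_not] at hs
  obtain ⟨t, ht, e⟩ : ∃ t : ℝ, 0 ≤ t ∧ a = -(t : ℂ) * b := by
    refine ⟨-(a / b).re, by linarith [hs.1], ?_⟩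
    have h1 : a / b = ((a / b).re : ℂ) := Complex.ext (by simp) (by simpa using hs.2)
    rw [Complex.ofReal_neg, neg_neg, ← h1, div_mul_cancel₀ _ hb]
  have h1 : (0 : ℝ) < 1 + t := by linarith
  have h2 : (1 : ℂ) + t ≠ 0 := by exact_mod_cast h1.ne'
  refine h ⟨1 / (1 + t), t / (1 + t), by positivity, by positivity, by field_simp, ?_⟩
  rw [e, Complex.real_smul, Complex.real_smul]
  push_cast
  field_simp
  ring

lemma s3bsq_lift {X : Type} [TopologicalSpace X] {S : Set X} {a b : X → ℂ}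
    (ha : ContinuousOn a S) (hb : ContinuousOn b S)
    (h : ∀ z ∈ S, (0 : ℂ) ∉ segment ℝ (a z) (b z)) :
    ∃ l : X → ℝ, ContinuousOn l S ∧ ∀ z ∈ S, (l z : Real.Angle) =
      (Complex.arg (a z) : Real.Angle) - (Complex.arg (b z) : Real.Angle) := by
  have h1 : ∀ z ∈ S, a z ≠ 0 := fun z hz e => h z hz (e ▸ left_mem_segment ℝ (a z) (b z))
  have h2 : ∀ z ∈ S, b z ≠ 0 := fun z hz e => h z hz (e ▸ right_mem_segment ℝ (a z) (b z))
  refine ⟨fun z => Complex.arg (a z / b z), fun z hz => ?_, fun z hz =>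
    Complex.arg_div_coe_angle (h1 z hz) (h2 z hz)⟩
  exact ContinuousAt.comp_continuousWithinAt (f := fun z => a z / b z)
    (Complex.continuousAt_arg (s3bsq_slit (h z hz))) ((ha.div hb h2) z hz)

lemma s3bsq_seg {K : Set ℂ} (hK : Convex ℝ K) {z c p : ℂ} (hz : z ∈ K) (hc : c ∈ K)
    (hp : p ∉ K) : (0 : ℂ) ∉ segment ℝ (z - p) (c - p) := by
  rintro ⟨a, b, ha, hb, hab, h⟩
  have h1 : (a : ℂ) + b = 1 := by exact_mod_cast hab
  have h2 : a • z + b • c = p := by
    simp only [Complex.real_smul] at h ⊢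
    linear_combination h + p * h1
  exact hp (h2 ▸ hK hz hc ha hb hab)

lemma s3bsq_seg' {K : Set ℂ} (hK : Convex ℝ K) {z p q : ℂ} (hp : p ∈ K) (hq : q ∈ K)
    (hz : z ∉ K) : (0 : ℂ) ∉ segment ℝ (z - p) (z - q) := by
  rintro ⟨a, b, ha, hb, hab, h⟩
  have h1 : (a : ℂ) + b = 1 := by exact_mod_cast hab
  have h2 : a • p + b • q = z := by
    simp only [Complex.real_smul] at h ⊢
    linear_combination -h + z * h1
  exact hz (h2 ▸ hK hp hq ha hb hab)

/-- The direction from a point off a convex set lifts on the convex set. -/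
lemma s3bsq_conv {K : Set ℂ} (hK : Convex ℝ K) {c p : ℂ} (hc : c ∈ K) (hp : p ∉ K) :
    ∃ l : ℂ → ℝ, ContinuousOn l K ∧
      ∀ z ∈ K, (l z : Real.Angle) = (Complex.arg (z - p) : Real.Angle) := by
  obtain ⟨l, h1, h2⟩ := s3bsq_lift (S := K) (a := fun z => z - p) (b := fun _ => c - p)
    (by fun_prop) continuousOn_const fun z hz => s3bsq_seg hK hz hc hp
  refine ⟨fun z => l z + Complex.arg (c - p), h1.add continuousOn_const, fun z hz => ?_⟩
  rw [Real.Angle.coe_add, h2 z hz, sub_add_cancel]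

/-- Every continuous self map of the circle has a degree. -/
lemma s3bsq_deg (f : C(Real.Angle, Real.Angle)) : ∃ (n : ℤ) (g : Real.Angle → ℝ),
    Continuous g ∧ ∀ θ, (g θ : Real.Angle) = f θ - n • θ := by
  have cov : IsCoveringMap ((↑) : ℝ → Real.Angle) := AddCircle.isCoveringMap_coe (2 * Real.pi)
  obtain ⟨L, ⟨-, hL⟩, -⟩ := cov.existsUnique_continuousMap_lifts
    (f.comp ⟨((↑) : ℝ → Real.Angle), Real.Angle.continuous_coe⟩) 0
    (f ((0 : ℝ) : Real.Angle)).toReal (Real.Angle.coe_toReal _)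
  have h1 : ∀ t : ℝ, (L t : Real.Angle) = f t := fun t => congrFun hL t
  have h2 : ∀ t : ℝ, ((L (t + 2 * Real.pi) - L t : ℝ) : Real.Angle) = 0 := fun t => by
    rw [Real.Angle.coe_sub, h1, h1, Real.Angle.coe_add, Real.Angle.coe_two_pi, add_zero, sub_self]
  obtain ⟨n, hn⟩ := Real.Angle.coe_eq_zero_iff.1 (h2 0)
  have h3 : ∀ t : ℝ, L (t + 2 * Real.pi) - L t = n • (2 * Real.pi) := fun t => by
    rw [hn]
    exact eq_of_coe_zero (T := univ) isPreconnected_univ
      (f := fun t : ℝ => L (t + 2 * Real.pi) - L t) (by fun_prop) (fun t _ => h2 t)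
      (mem_univ t) (mem_univ 0)
  have h4 : Function.Periodic (fun t : ℝ => L t - n • t) (2 * Real.pi) := fun t => by
    have := h3 t
    simp only [zsmul_eq_mul] at this ⊢
    linarith
  have h5 : Continuous fun t : ℝ => L t - n • t := by fun_prop
  refine ⟨n, fun θ => h4.lift θ, h5.quotient_liftOn' _, fun θ => ?_⟩
  induction θ using Real.Angle.induction_on with
  | h t =>
    change ((L t - n • t : ℝ) : Real.Angle) = _
    rw [Real.Angle.coe_sub, h1, Real.Angle.coe_zsmul]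

/-- A nonzero multiple of the angle does not lift. -/
lemma s3bsq_zero {n : ℤ} {g : Real.Angle → ℝ} (hg : Continuous g)
    (h : ∀ θ, (g θ : Real.Angle) = n • θ) : n = 0 := by
  have h1 : Continuous fun t : ℝ => g t := hg.comp Real.Angle.continuous_coe
  have h2 := eq_of_coe_zero (T := univ) isPreconnected_univ
    (f := fun t : ℝ => g t - n • t) (by fun_prop)
    (fun t _ => by rw [Real.Angle.coe_sub, h, Real.Angle.coe_zsmul, sub_self])
    (mem_univ (2 * Real.pi)) (mem_univ 0)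
  simp only [Real.Angle.coe_two_pi, Real.Angle.coe_zero, smul_zero, sub_zero, zsmul_eq_mul,
    sub_eq_self, mul_eq_zero] at h2
  rcases h2 with h2 | h2 | h2
  · exact_mod_cast h2
  · norm_num at h2
  · exact absurd h2 Real.pi_ne_zero

lemma s3bsq_sn_pos {v : ℂ} (hv : v ≠ 0) : 0 < sn v := by
  have h1 := norm_le_sn v
  have h2 := norm_pos_iff.2 hv
  linarith

lemma s3bsq_ext {v w : ℂ} (hv : v ≠ 0) (h1 : sn v = sn w)
    (h2 : (Complex.arg v : Real.Angle) = Complex.arg w) : v = w := by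
  have h3 : Complex.arg v = Complex.arg w := Complex.arg_coe_angle_eq_iff.1 h2
  refine Complex.ext_norm_arg ?_ h3
  have h4 := sn_smul ‖v‖ (Complex.cos (Complex.arg v) + Complex.sin (Complex.arg v) * Complex.I)
  have h5 := sn_smul ‖w‖ (Complex.cos (Complex.arg w) + Complex.sin (Complex.arg w) * Complex.I)
  rw [Complex.norm_mul_cos_add_sin_mul_I, abs_norm] at h4 h5
  rw [← h3, ← h1, h4] at h5
  refine mul_right_cancel₀ (fun e => ?_) h5
  rw [e, mul_zero] at h4
  exact (s3bsq_sn_pos hv).ne' h4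

variable {Z J : Type} [MetricSpace Z] [CompactSpace Z] (Q : PD Z J)

/-- The boundary of a square is parametrised by the angle seen from the centre. -/
lemma s3bsq_loop (j : J) : ∃ Γ : Real.Angle → Z, Continuous Γ ∧ (∀ θ, Γ θ ∈ Q.P j) ∧
    (∀ θ, (Complex.arg (Q.ι (Γ θ) - Q.c j) : Real.Angle) = θ) ∧
    ∀ z ∈ Q.P j, Γ (Complex.arg (Q.ι z - Q.c j)) = z := by
  have hr := Q.r_pos j
  let e : Real.Angle → ℂ := fun θ => θ.cos + θ.sin * Complex.I
  have he : Continuous e :=
    (Complex.continuous_ofReal.comp Real.Angle.continuous_cos).add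
      ((Complex.continuous_ofReal.comp Real.Angle.continuous_sin).mul continuous_const)
  have h0 : ∀ θ, 0 < sn (e θ) := fun θ => s3bsq_sn_pos fun h => by
    have h1 : θ.cos = 0 := by simpa [e] using congrArg Complex.re h
    have h2 : θ.sin = 0 := by simpa [e] using congrArg Complex.im h
    have h3 := Real.Angle.cos_sq_add_sin_sq θ
    rw [h1, h2] at h3
    norm_num at h3
  let m : Real.Angle → ℂ := fun θ => Q.c j + ((Q.r j / sn (e θ) : ℝ) : ℂ) * e θ
  have hm : Continuous m := continuous_const.add ((Complex.continuous_ofReal.comp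
    (continuous_const.div (continuous_sn.comp he) fun θ => (h0 θ).ne')).mul he)
  have h1 : ∀ θ, m θ ∈ Q.ι '' Q.P j := fun θ => by
    rw [Q.P_eq]
    change sn (Q.c j + ((Q.r j / sn (e θ) : ℝ) : ℂ) * e θ - Q.c j) = Q.r j
    rw [add_sub_cancel_left, sn_smul, abs_of_pos (div_pos hr (h0 θ)),
      div_mul_cancel₀ _ (h0 θ).ne']
  choose Γ hΓ hι using h1
  have h2 : ∀ θ, (Complex.arg (Q.ι (Γ θ) - Q.c j) : Real.Angle) = θ := fun θ => by
    rw [hι]
    change (Complex.arg (Q.c j + ((Q.r j / sn (e θ) : ℝ) : ℂ) * e θ - Q.c j) : Real.Angle) = θ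
    rw [add_sub_cancel_left]
    exact Complex.arg_mul_cos_add_sin_mul_I_coe_angle (div_pos hr (h0 θ)) θ
  refine ⟨Γ, ?_, hΓ, h2, fun z hz => Q.ι_inj ?_⟩
  · rw [Q.isClosedEmbedding_ι.isInducing.continuous_iff]
    exact hm.congr fun θ => (hι θ).symm
  · have h3 := Q.mem_P.1 (hΓ (Complex.arg (Q.ι z - Q.c j)))
    refine (sub_left_inj (a := Q.c j)).1 (s3bsq_ext (fun h => ?_) (h3.trans (Q.mem_P.1 hz).symm)
      (h2 _))
    rw [h] at h3
    simp only [sn, Complex.zero_re, Complex.zero_im, abs_zero, max_self] at h3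
    exact hr.ne h3

omit [CompactSpace Z] in
lemma s3bsq_bp {V i : J} (hi : i ≠ V) : Q.bp i ∉ closure (Q.D V) :=
  disjoint_left.1 ((Q.D_disj i V hi).closure_right (Q.isOpen_D i)) (Q.bp_mem i)

omit [CompactSpace Z] in
lemma s3bsq_bp_out {i : J} (hi : i ≠ Q.o) : Q.bp i ∈ {v | sn (v - Q.c Q.o) < Q.r Q.o} := by
  have h := s3bsq_bp Q hi
  rw [Q.sq_closure_out] at h
  simpa using h

omit [CompactSpace Z] in
lemma s3bsq_bp_in {j : J} (hj : j ≠ Q.o) : Q.bp j = Q.c j := if_neg hj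

omit [CompactSpace Z] in
lemma s3bsq_mem {V : J} {z : Z} (hz : z ∈ Q.P V) : Q.ι z ∈ closure (Q.D V) := by
  rw [Q.closure_D]
  exact Or.inr ⟨z, hz, rfl⟩

omit [CompactSpace Z] in
lemma s3bsq_in {V i : J} (hV : V ≠ Q.o) (hi : i ≠ V) : ∃ l : ℂ → ℝ,
    ContinuousOn l (closure (Q.D V)) ∧ ∀ z ∈ closure (Q.D V), (l z : Real.Angle) =
      (Complex.arg (z - Q.bp i) : Real.Angle) :=
  s3bsq_conv (by rw [Q.sq_closure_in hV]; exact convex_sn_le _ _) (subset_closure (Q.bp_mem V))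
    (s3bsq_bp Q hi)

/-- The difference of the directions from two other holes lifts on a closed hole.  If `V` is
inner, the closed hole is convex, contains `c = Q.c V` and misses `p = Q.bp i`; for `z` in it the
quotient `(z - p) / (c - p)` lies in `Complex.slitPlane` (otherwise `p` is on the segment from `z`
to `c`), so `arg ((z - p) / (c - p)) + arg (c - p)` is a continuous lift of the direction from `p`.
If `V` is the outer hole, both base points lie in the open outer square, which is convex and misses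
the closed hole, so `(z - bp j) / (z - bp i)` lies in the slit plane. -/
theorem exists_lam {V i j : J} (hi : i ≠ V) (hj : j ≠ V) : ∃ l : ℂ → ℝ,
    ContinuousOn l (closure (Q.D V)) ∧ ∀ z ∈ closure (Q.D V), (l z : Real.Angle) =
      (Complex.arg (z - Q.bp j) : Real.Angle) - (Complex.arg (z - Q.bp i) : Real.Angle) := by
  by_cases hV : V = Q.o
  · subst hV
    refine s3bsq_lift (a := fun z => z - Q.bp j) (b := fun z => z - Q.bp i) (by fun_prop)
      (by fun_prop) fun z hz => s3bsq_seg' (convex_sn_lt _ _) (s3bsq_bp_out Q hj)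
        (s3bsq_bp_out Q hi) ?_
    rw [Q.sq_closure_out] at hz
    simpa using hz
  · obtain ⟨l, h1, h2⟩ := s3bsq_in Q hV hj
    obtain ⟨k, k1, k2⟩ := s3bsq_in Q hV hi
    refine ⟨fun z => l z - k z, h1.sub k1, fun z hz => ?_⟩
    rw [Real.Angle.coe_sub, h2 z hz, k2 z hz]

theorem lifts_th_sub {V i j : J} (hi : i ≠ V) (hj : j ≠ V) :
    Lifts (th Q j - th Q i) (Q.P V) := by
  obtain ⟨l, h1, h2⟩ := exists_lam Q hi hj
  exact ⟨fun z => l (Q.ι z), h1.comp Q.ι_cont.continuousOn fun z hz => s3bsq_mem Q hz,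
    fun z hz => h2 _ (s3bsq_mem Q hz)⟩

/-- The closed outer square is convex and misses the base point of the outer hole. -/
theorem lifts_th_out : Lifts (th Q Q.o) univ := by
  have hp : Q.bp Q.o ∉ {v | sn (v - Q.c Q.o) ≤ Q.r Q.o} := by
    have h := Q.bp_mem Q.o
    rw [Q.D_out] at h
    simpa using h
  have hc : Q.c Q.o ∈ {v | sn (v - Q.c Q.o) ≤ Q.r Q.o} := by
    simpa [sn] using (Q.r_pos Q.o).le
  obtain ⟨l, h1, h2⟩ := s3bsq_conv (convex_sn_le _ _) hc hp
  exact ⟨fun z => l (Q.ι z), h1.comp Q.ι_cont.continuousOn fun z _ => Q.sn_ι_le z,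
    fun z _ => h2 _ (Q.sn_ι_le z)⟩

theorem lifts_th_inner {V i : J} (hV : V ≠ Q.o) (hi : i ≠ V) : Lifts (th Q i) (Q.P V) := by
  obtain ⟨l, h1, h2⟩ := s3bsq_in Q hV hi
  exact ⟨fun z => l (Q.ι z), h1.comp Q.ι_cont.continuousOn fun z hz => s3bsq_mem Q hz,
    fun z hz => h2 _ (s3bsq_mem Q hz)⟩

/-- Let `γ t` be the point of `P j` over `c + (r / sn (exp (t i))) exp (t i)`; `γ` is continuous
(`isClosedEmbedding_ι`), `2 π`-periodic, `th j (γ t) = t`, and `γ t = z` if `th j z = t`.  Lift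
`φ ∘ γ` to `L : ℝ → ℝ`; then `L (t + 2 π) - L t = 2 π n` is constant, and `L t - n t` is periodic,
so it is a continuous function `g` of the angle; `g ∘ th j` is the lift. -/
theorem exists_deg (φ : Cir Z) {j : J} (hj : j ≠ Q.o) :
    ∃ n : ℤ, Lifts (φ - n • th Q j) (Q.P j) := by
  obtain ⟨Γ, h1, -, -, h4⟩ := s3bsq_loop Q j
  obtain ⟨n, g, hg, h⟩ := s3bsq_deg (φ.comp ⟨Γ, h1⟩)
  refine ⟨n, fun z => g (th Q j z), (hg.comp (th Q j).continuous).continuousOn, fun z hz => ?_⟩
  have h5 : Γ (th Q j z) = z := by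
    rw [← s3bsq_bp_in Q hj] at h4
    exact h4 z hz
  rw [h]
  change φ (Γ (th Q j z)) - n • th Q j z = φ z - n • th Q j z
  rw [h5]

/-- For a lift `h` the function `h (γ t) - n t` is constant and `h ∘ γ` is periodic. -/
theorem deg_eq_zero {j : J} (hj : j ≠ Q.o) {n : ℤ} (h : Lifts (n • th Q j) (Q.P j)) : n = 0 := by
  obtain ⟨Γ, h1, h2, h3, -⟩ := s3bsq_loop Q j
  obtain ⟨k, k1, k2⟩ := h
  refine s3bsq_zero (g := fun θ => k (Γ θ)) (k1.comp_continuous h1 h2) fun θ => ?_
  rw [k2 _ (h2 θ)]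
  rw [← s3bsq_bp_in Q hj] at h3
  exact congrArg (fun x => n • x) (h3 θ)

/-- The same on the outer circle, with `γ` around the centre `c o` of the outer square; the
quotient `(ι z - bp j) / (ι z - c o)` lies in the slit plane for `z` on the outer circle. -/
theorem deg_out_eq_zero {j : J} (hj : j ≠ Q.o) {n : ℤ} (h : Lifts (n • th Q j) (Q.P Q.o)) :
    n = 0 := by
  obtain ⟨Γ, h1, h2, h3, -⟩ := s3bsq_loop Q Q.o
  obtain ⟨k, k1, k2⟩ := h
  have hc : Q.c Q.o ∈ {v | sn (v - Q.c Q.o) < Q.r Q.o} := by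
    simpa [sn] using Q.r_pos Q.o
  have hι := Q.ι_cont
  obtain ⟨l, l1, l2⟩ := s3bsq_lift (S := Q.P Q.o) (a := fun z => Q.ι z - Q.bp j)
    (b := fun z => Q.ι z - Q.c Q.o) (by fun_prop) (by fun_prop) fun z hz =>
      s3bsq_seg' (convex_sn_lt _ _) (s3bsq_bp_out Q hj) hc (Q.mem_P.1 hz).not_lt
  refine s3bsq_zero (g := fun θ => k (Γ θ) - n • l (Γ θ))
    ((k1.comp_continuous h1 h2).sub ((l1.comp_continuous h1 h2).const_smul n)) fun θ => ?_
  rw [Real.Angle.coe_sub, Real.Angle.coe_zsmul, k2 _ (h2 θ), l2 _ (h2 θ), h3, smul_sub]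
  exact sub_sub_cancel _ _

end KKC.S3
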