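import Pool.Agent.Lib.MP_e1e491_gt.S3BHyp

set_option autoImplicit false

/-!
Points of the plane that see both colours.
-/

namespace KKC.S3

open Set Metric
open scoped Pointwise

variable {G Z J : Type} [Group G] [MetricSpace Z] [CompactSpace Z] [MulAction G Z]
  [ContinuousConstSMul G Z] [MulAction G J] (X : CS G Z J)

theorem s3btwo_bdd (len : G → ℕ) {E : Set G} (hE : E.Finite) : ∃ N : ℕ, ∀ k ∈ E, len k ≤ N := by
  obtain ⟨N, hN⟩ := (hE.image len).bddAbove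
  exact ⟨N, fun k hk => hN (mem_image_of_mem len hk)⟩

theorem s3btwo_holes (J₀ : Finset J) : ∃ N : ℕ, ∀ i ∈ J₀, ∀ j ∈ J₀, i ≠ j → ∀ k : G,
    k • i ∈ J₀ → k • j ∈ J₀ → X.H.len k ≤ N := by
  have hE : (⋃ i ∈ (J₀ : Set J), ⋃ j ∈ (J₀ : Set J),
      {k : G | i ≠ j ∧ k • i ∈ J₀ ∧ k • j ∈ J₀}).Finite := by
    refine J₀.finite_toSet.biUnion fun i _ => J₀.finite_toSet.biUnion fun j _ => ?_
    by_cases h : i = j
    · exact finite_empty.subset fun k hk => hk.1 h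
    · exact (X.finite_two_holes h J₀).subset fun k hk => hk.2
  obtain ⟨N, hN⟩ := s3btwo_bdd X.H.len hE
  exact ⟨N, fun i hi j hj h k h1 h2 =>
    hN k (mem_iUnion₂.2 ⟨i, hi, mem_iUnion₂.2 ⟨j, hj, h, h1, h2⟩⟩)⟩

theorem s3btwo_loc (N : ℕ) : ∃ C : ℝ, 0 < C ∧ ∀ g s : G, X.H.len s ≤ N →
    dist (X.H.loc g) (X.H.loc (g * s)) ≤ C * X.H.sc g := by
  obtain ⟨C₁, hC₁, h⟩ := X.H.loc_step
  have ha := X.H.ha
  have hσ : 0 < X.H.a ^ (-(N : ℝ)) := Real.rpow_pos_of_pos (by linarith) _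
  refine ⟨C₁ / X.H.a ^ (-(N : ℝ)), by positivity, fun g s hs => ?_⟩
  have h1 : X.H.a ^ (-(N : ℝ)) ≤ X.H.sc s :=
    Real.rpow_le_rpow_of_exponent_le ha.le (neg_le_neg (Nat.cast_le.2 hs))
  rw [div_mul_eq_mul_div, le_div_iff₀ hσ]
  exact (mul_le_mul_of_nonneg_left h1 dist_nonneg).trans (h g s)

theorem s3btwo_change (col : ℂ → Prop) {a b : ℂ} (ha : col a) (hb : ¬ col b) {η : ℝ}
    (hη : 0 < η) : ∃ (t : ℝ) (u u' : ℂ), u ∈ ball (a + t * (b - a)) η ∧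
      u' ∈ ball (a + t * (b - a)) η ∧ col u ∧ ¬ col u' := by
  have h1 : ∀ P : ℂ → Prop, IsOpen (⋃ u ∈ {u | P u}, ball u η) := fun P =>
    isOpen_biUnion fun _ _ => isOpen_ball
  obtain ⟨p, hp, hA, hB⟩ := (convex_segment a b).isPreconnected _ _ (h1 col) (h1 fun u => ¬ col u)
    (fun v _ => by
      by_cases h : col v
      · exact Or.inl (mem_iUnion₂.2 ⟨v, h, mem_ball_self hη⟩)
      · exact Or.inr (mem_iUnion₂.2 ⟨v, h, mem_ball_self hη⟩))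
    ⟨a, left_mem_segment ℝ _ _, mem_iUnion₂.2 ⟨a, ha, mem_ball_self hη⟩⟩
    ⟨b, right_mem_segment ℝ _ _, mem_iUnion₂.2 ⟨b, hb, mem_ball_self hη⟩⟩
  rw [segment_eq_image'] at hp
  obtain ⟨t, -, rfl⟩ := hp
  obtain ⟨u, hu, hu'⟩ := mem_iUnion₂.1 hA
  obtain ⟨v, hv, hv'⟩ := mem_iUnion₂.1 hB
  exact ⟨t, u, v, mem_ball_comm.1 hu', mem_ball_comm.1 hv', hu, hv⟩

/-- Take `W` from `exists_wit`, `L` from `view_exists`, `J₀` from `Wit.view` with `M = 1`, `Φ`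
from `TwoCol`; `K₀` bounds the lengths of `φ * k * φ'⁻¹` for `φ, φ' ∈ Φ` and `k⁻¹` in the finite
set of the elements that send two different holes of `J₀` into `J₀` (`finite_two_holes`).  For a
small `r` let `w v = W.wit v r`, `η ≤ h / 2` (`h` from `Wit.view` with `r₁ = ρ = r` and from
`clu_close`), `g p` a view of `(W.foot p, r)` and `f p = g p * φ⁻¹`.  Use `eq_of_mem` with
`exists_big`, `close`, `exists_len_gt`, `loc_step`, `unif_ι`. -/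
theorem exists_two {F : Subgroup G} {c : J → Prop} (hv : TwoCol F c) (J₁ : Finset J) :
    ∃ K₀ : ℕ, ∀ (R : ℕ) (ε : ℝ), 0 < ε → ∃ η, 0 < η ∧ η ≤ ε ∧ ∃ (w : ℂ → J) (f : ℂ → G),
      (∀ j ∈ J₁, ∀ v ∈ X.Q.D j, w v = j) ∧ (∀ v, ∃ z ∈ X.Q.D (w v), dist v z < ε) ∧
      ∀ p u u', u ∈ ball p η → u' ∈ ball p η → c (w u) → ¬ c (w u') →
        f p ∈ F ∧ R ≤ X.H.len (f p) ∧ dist p (X.Q.ι (X.H.loc (f p))) < ε ∧
        ∀ p', u ∈ ball p' η → u' ∈ ball p' η → X.H.len ((f p)⁻¹ * f p') ≤ K₀ := by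
  obtain ⟨W⟩ := X.exists_wit
  obtain ⟨L, hL, hview⟩ := X.H.view_exists
  obtain ⟨J₀, hJ⟩ := W.view L 1 hL le_rfl
  obtain ⟨Φ, hΦ⟩ := hv J₀
  obtain ⟨N, hN⟩ := s3btwo_bdd X.H.len Φ.finite_toSet
  obtain ⟨N', hN'⟩ := s3btwo_holes X J₀
  obtain ⟨C, hC, hloc⟩ := s3btwo_loc X N
  obtain ⟨δ₁, hδ₁, hbig⟩ := X.v3_big_finset J₁
  refine ⟨N + N' + N, fun R ε hε => ?_⟩
  obtain ⟨r₀, hr₀, hclose⟩ := W.close ε hε
  obtain ⟨r₁, hr₁, h₁, hh₁, hcc⟩ := W.clu_close (ε / 2) (by positivity)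
  obtain ⟨ε₁, hε₁, hlen⟩ := X.H.exists_len_gt (R + N)
  obtain ⟨δ, hδ, hι⟩ := X.Q.unif_ι (ε := ε / 2) (by positivity)
  have hL0 : 0 < L := by linarith
  obtain ⟨r, hr, a1, a2, a3, a4, a5, a6⟩ : ∃ r : ℝ, 0 < r ∧ r ≤ 1 ∧ r ≤ δ₁ ∧ r ≤ r₀ ∧ r ≤ r₁ ∧
      r ≤ ε₁ / (2 * L) ∧ r ≤ δ / (L + C * L) := by
    refine ⟨min 1 (min δ₁ (min r₀ (min r₁ (min (ε₁ / (2 * L)) (δ / (L + C * L)))))),
      by positivity, ?_⟩
    simp only [← le_min_iff, le_refl]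
  rw [le_div_iff₀ (by positivity)] at a5 a6
  obtain ⟨h₂, hh₂, hJ'⟩ := hJ r hr
  obtain ⟨η, hη, b1, b2, b3⟩ : ∃ η : ℝ, 0 < η ∧ η ≤ ε ∧ η ≤ h₁ / 2 ∧ η ≤ h₂ / 2 := by
    refine ⟨min ε (min (h₁ / 2) (h₂ / 2)), by positivity, ?_⟩
    simp only [← le_min_iff, le_refl]
  choose g hg using fun p => hview (W.foot p) r hr a1
  have hch : ∀ p, ∃ φ : G, (∃ φ' ∈ Φ, g p * φ'⁻¹ ∈ F) → φ ∈ Φ ∧ g p * φ⁻¹ ∈ F := by
    intro p
    by_cases h : ∃ φ' ∈ Φ, g p * φ'⁻¹ ∈ F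
    · obtain ⟨φ, h'⟩ := h
      exact ⟨φ, fun _ => h'⟩
    · exact ⟨1, fun h' => absurd h' h⟩
  choose φ hφ using hch
  have hd : ∀ {p u u' : ℂ}, u ∈ ball p η → u' ∈ ball p η →
      ‖p - u‖ ≤ η ∧ ‖u' - u‖ ≤ 2 * η := fun {p u u'} hu hu' => by
    rw [mem_ball] at hu hu'
    have h1 := dist_triangle_right u' u p
    rw [← dist_eq_norm, ← dist_eq_norm, dist_comm p u]
    constructor <;> linarith
  have key : ∀ p u u', u ∈ ball p η → u' ∈ ball p η → c (W.wit u r) → ¬ c (W.wit u' r) →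
      (g p)⁻¹ • W.wit u r ∈ J₀ ∧ (g p)⁻¹ • W.wit u' r ∈ J₀ ∧ φ p ∈ Φ ∧ g p * (φ p)⁻¹ ∈ F := by
    intro p u u' hu hu' hc hc'
    obtain ⟨d1, d2⟩ := hd hu hu'
    have h1 := hJ' r u u' r r a1 le_rfl le_rfl le_rfl le_rfl (fun e => hc' (e ▸ hc))
      (by linarith) (g p) p (by linarith) (hg p)
    have h2 := h1 u r (by simpa using hh₂.le) (one_mul r).ge le_rfl
    have h3 := h1 u' r (by linarith) (one_mul r).ge le_rfl
    exact ⟨h2, h3, hφ p (hΦ (g p) _ h2 _ h3 (by rwa [smul_inv_smul]) (by rwa [smul_inv_smul]))⟩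
  refine ⟨η, hη, b1, fun v => W.wit v r, fun p => g p * (φ p)⁻¹, fun j hj v hv =>
    W.eq_of_mem v r j hv (CS.wit_big_mono a2 (hbig j hj)), fun v => ?_, ?_⟩
  · obtain ⟨z, hz, hz'⟩ := hclose v r hr a3
    exact ⟨z, hz, by rwa [dist_eq_norm]⟩
  intro p u u' hu hu' hc hc'
  beta_reduce at hc hc' ⊢
  obtain ⟨k1, k2, k3, k4⟩ := key p u u' hu hu' hc hc'
  obtain ⟨d1, d2⟩ := hd hu hu'
  obtain ⟨v1, v2, -⟩ := hg p
  refine ⟨k4, ?_, ?_, fun p' hu1 hu2 => ?_⟩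
  · have h1 := hlen (g p) (by nlinarith)
    have h2 := X.H.len_mul (g p * (φ p)⁻¹) (φ p)
    rw [inv_mul_cancel_right] at h2
    have h3 := hN _ k3
    omega
  · have h1 := hcc u u' r r hr hr a4 a4 (fun e => hc' (e ▸ hc)) (by linarith) p (by linarith)
    have h2 := hloc (g p) (φ p)⁻¹ (by rw [X.H.len_inv]; exact hN _ k3)
    have h3 := dist_triangle (W.foot p) (X.H.loc (g p)) (X.H.loc (g p * (φ p)⁻¹))
    have h4 := hι (W.foot p) (X.H.loc (g p * (φ p)⁻¹)) (by nlinarith)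
    have h5 := dist_triangle p (X.Q.ι (W.foot p)) (X.Q.ι (X.H.loc (g p * (φ p)⁻¹)))
    rw [← dist_eq_norm] at h1 h4
    linarith
  · obtain ⟨m1, m2, m3, -⟩ := key p' u u' hu1 hu2 hc hc'
    have h1 := hN' _ m1 _ m2 (fun e => hc' (MulAction.injective _ e ▸ hc)) ((g p)⁻¹ * g p')
      (by rwa [mul_smul, smul_inv_smul]) (by rwa [mul_smul, smul_inv_smul])
    have h2 := X.H.len_mul (φ p * ((g p)⁻¹ * g p')) (φ p')⁻¹
    have h3 := X.H.len_mul (φ p) ((g p)⁻¹ * g p')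
    have h4 := hN _ k3
    have h5 := hN _ m3
    rw [X.H.len_inv] at h2
    rw [show (g p * (φ p)⁻¹)⁻¹ * (g p' * (φ p')⁻¹) = φ p * ((g p)⁻¹ * g p') * (φ p')⁻¹ by group]
    omega

/-- Three parallel segments from `D T` to `D V` (translate the segment between the base points
by `k * τ * I * (bp V - bp T)`, `k = 0, 1, 2`, with `τ` small).  On each segment the colour of
`w` changes, so by connectedness some point `p` of the segment has both colours in `ball p η`.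
Use `exists_two` with `J₁ = {T, V}` and `unif_ι`. -/
theorem exists_three {F : Subgroup G} {c : J → Prop} (hv : TwoCol F c) {T V : J} (hT : c T)
    (hV : ¬ c V) : ∃ κ > 0, ∀ R : ℕ, ∃ k : Fin 3 → G, (∀ i, k i ∈ F ∧ R ≤ X.H.len (k i)) ∧
      ∀ i j, i ≠ j → κ ≤ dist (X.H.loc (k i)) (X.H.loc (k j)) := by
  classical
  obtain ⟨K₀, hK⟩ := exists_two X hv {T, V}
  obtain ⟨ρ₁, hρ₁, h1⟩ := Metric.isOpen_iff.1 (X.Q.isOpen_D T) _ (X.Q.bp_mem T)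
  obtain ⟨ρ₂, hρ₂, h2⟩ := Metric.isOpen_iff.1 (X.Q.isOpen_D V) _ (X.Q.bp_mem V)
  obtain ⟨ρ, hρ, a1, a2⟩ : ∃ ρ : ℝ, 0 < ρ ∧ 3 * ρ ≤ ρ₁ ∧ 3 * ρ ≤ ρ₂ :=
    ⟨min ρ₁ ρ₂ / 3, by positivity, by linarith [min_le_left ρ₁ ρ₂],
      by linarith [min_le_right ρ₁ ρ₂]⟩
  obtain ⟨d, hd⟩ : ∃ d, d = X.Q.bp V - X.Q.bp T := ⟨_, rfl⟩
  have hd0 : 0 < ‖d‖ := by
    rw [norm_pos_iff, hd, sub_ne_zero]
    intro e
    exact hV (X.Q.hole_unique (X.Q.bp_mem T) (e ▸ X.Q.bp_mem V) ▸ hT)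
  obtain ⟨τ, hτ, hτd⟩ : ∃ τ : ℝ, 0 < τ ∧ τ * ‖d‖ = ρ :=
    ⟨ρ / ‖d‖, by positivity, div_mul_cancel₀ _ hd0.ne'⟩
  obtain ⟨κ, hκ, hι⟩ := X.Q.unif_ι (ε := ρ / 2) (by positivity)
  refine ⟨κ, hκ, fun R => ?_⟩
  obtain ⟨η, hη, -, w, f, hw, -, hf⟩ := hK R (ρ / 4) (by positivity)
  have hs : ∀ (i : Fin 3) (b : ℂ),
      dist (b + (((i : ℕ) : ℝ) * τ : ℝ) * Complex.I * d) b < 3 * ρ := by
    intro i b
    have h3 : ((i : ℕ) : ℝ) ≤ 2 := by exact_mod_cast Nat.lt_succ_iff.1 i.2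
    rw [dist_eq_norm, add_sub_cancel_left, norm_mul, norm_mul, Complex.norm_I, mul_one,
      Complex.norm_real, Real.norm_of_nonneg (by positivity), mul_assoc, hτd]
    nlinarith
  have hp : ∀ i : Fin 3, ∃ (t : ℝ) (u u' : ℂ),
      u ∈ ball (X.Q.bp T + (t + (((i : ℕ) : ℝ) * τ : ℝ) * Complex.I) * d) η ∧
      u' ∈ ball (X.Q.bp T + (t + (((i : ℕ) : ℝ) * τ : ℝ) * Complex.I) * d) η ∧
      c (w u) ∧ ¬ c (w u') := by
    intro i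
    have h3 := s3btwo_change (fun u => c (w u))
      (a := X.Q.bp T + (((i : ℕ) : ℝ) * τ : ℝ) * Complex.I * d)
      (b := X.Q.bp V + (((i : ℕ) : ℝ) * τ : ℝ) * Complex.I * d)
      (by rwa [hw T (by simp) _ (h1 ((hs i _).trans_le a1))])
      (by rwa [hw V (by simp) _ (h2 ((hs i _).trans_le a2))]) hη
    obtain ⟨t, h4⟩ := h3
    refine ⟨t, ?_⟩
    rw [add_sub_add_right_eq_sub, ← hd] at h4
    rw [add_mul, add_comm (t * d), ← add_assoc]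
    exact h4
  choose t u u' m1 m2 m3 m4 using hp
  refine ⟨fun i => f _, fun i => ⟨(hf _ _ _ (m1 i) (m2 i) (m3 i) (m4 i)).1,
    (hf _ _ _ (m1 i) (m2 i) (m3 i) (m4 i)).2.1⟩, fun i j hij => ?_⟩
  have n1 := (hf _ _ _ (m1 i) (m2 i) (m3 i) (m4 i)).2.2.1
  have n2 := (hf _ _ _ (m1 j) (m2 j) (m3 j) (m4 j)).2.2.1
  by_contra hlt
  have n3 := hι _ _ (not_le.1 hlt).le
  rw [← dist_eq_norm] at n3
  have n4 : ρ ≤ dist (X.Q.bp T + (t i + (((i : ℕ) : ℝ) * τ : ℝ) * Complex.I) * d)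
      (X.Q.bp T + (t j + (((j : ℕ) : ℝ) * τ : ℝ) * Complex.I) * d) := by
    rw [dist_eq_norm, add_sub_add_left_eq_sub, ← sub_mul, norm_mul, ← hτd]
    refine mul_le_mul_of_nonneg_right (le_trans ?_ (Complex.abs_im_le_norm _)) hd0.le
    have h3 : (1 : ℝ) ≤ |((i : ℕ) : ℝ) - ((j : ℕ) : ℝ)| := by
      have h4 : (1 : ℤ) ≤ |((i : ℕ) : ℤ) - ((j : ℕ) : ℤ)| :=
        Int.one_le_abs (sub_ne_zero.2 fun e => hij (Fin.ext (by exact_mod_cast e)))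
      exact_mod_cast h4
    have h5 : (t i + (((i : ℕ) : ℝ) * τ : ℝ) * Complex.I -
        (t j + (((j : ℕ) : ℝ) * τ : ℝ) * Complex.I) : ℂ).im = (((i : ℕ) : ℝ) - (j : ℕ)) * τ := by
      simp
      ring
    rw [h5, abs_mul, abs_of_pos hτ]
    nlinarith
  have n5 := dist_triangle4 (X.Q.bp T + (t i + (((i : ℕ) : ℝ) * τ : ℝ) * Complex.I) * d)
    (X.Q.ι (X.H.loc (f (X.Q.bp T + (t i + (((i : ℕ) : ℝ) * τ : ℝ) * Complex.I) * d))))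
    (X.Q.ι (X.H.loc (f (X.Q.bp T + (t j + (((j : ℕ) : ℝ) * τ : ℝ) * Complex.I) * d))))
    (X.Q.bp T + (t j + (((j : ℕ) : ℝ) * τ : ℝ) * Complex.I) * d)
  rw [dist_comm] at n2
  linarith

end KKC.S3
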