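import Pool.Agent.Lib.MP_e1e491_gt.Defs

/-! Geometry of the squares. -/

namespace KKC

open Set Metric

theorem continuous_sn : Continuous sn := by
  unfold sn
  fun_prop

theorem sn_le_norm (v : ℂ) : sn v ≤ ‖v‖ := max_le (Complex.abs_re_le_norm v) (Complex.abs_im_le_norm v)

theorem norm_le_sn (v : ℂ) : ‖v‖ ≤ 2 * sn v := by
  have h1 := Complex.norm_le_abs_re_add_abs_im v
  have h2 : |v.re| ≤ sn v := le_max_left _ _
  have h3 : |v.im| ≤ sn v := le_max_right _ _
  linarith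

theorem sn_add_le (v w : ℂ) : sn (v + w) ≤ sn v + sn w :=
  max_le ((abs_add_le v.re w.re).trans (add_le_add (le_max_left _ _) (le_max_left _ _)))
    ((abs_add_le v.im w.im).trans (add_le_add (le_max_right _ _) (le_max_right _ _)))

theorem sn_smul (t : ℝ) (v : ℂ) : sn ((t : ℂ) * v) = |t| * sn v := by
  rw [sn, sn, Complex.re_ofReal_mul, Complex.im_ofReal_mul, abs_mul, abs_mul,
    mul_max_of_nonneg _ _ (abs_nonneg t)]

theorem sq_cont (c : ℂ) : Continuous fun v => sn (v - c) :=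
  continuous_sn.comp (continuous_id.sub continuous_const)

theorem sq_norm_le (v w c : ℂ) : ‖v - w‖ ≤ 2 * (sn (v - c) + sn (w - c)) := by
  have h1 := norm_le_sn (v - w)
  have h2 := sn_add_le (v - c) (((-1 : ℝ) : ℂ) * (w - c))
  rw [sn_smul, show v - c + ((-1 : ℝ) : ℂ) * (w - c) = v - w by push_cast; ring, abs_neg, abs_one,
    one_mul] at h2
  linarith

theorem sq_convexOn (c : ℂ) : ConvexOn ℝ univ fun v => sn (v - c) := by
  refine ⟨convex_univ, fun x _ y _ a b ha hb hab => ?_⟩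
  have h1 := sn_add_le ((a : ℂ) * (x - c)) ((b : ℂ) * (y - c))
  have h2 : (a : ℂ) + b = 1 := by exact_mod_cast hab
  rw [sn_smul, sn_smul, abs_of_nonneg ha, abs_of_nonneg hb] at h1
  change sn (a • x + b • y - c) ≤ _
  rw [show a • x + b • y - c = (a : ℂ) * (x - c) + (b : ℂ) * (y - c) by
    rw [Complex.real_smul, Complex.real_smul]; linear_combination c * h2]
  exact h1

theorem sq_mem_closure {c v : ℂ} {r : ℝ} (hv : sn (v - c) = r) {s : Set ℝ} {A : Set ℂ}
    (h1 : (1 : ℝ) ∈ closure s) (h : ∀ t ∈ s, ∀ w, sn (w - c) = |t| * r → w ∈ A) :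
    v ∈ closure A := by
  have h2 : Continuous fun t : ℝ => c + (t : ℂ) * (v - c) := by fun_prop
  have h3 := map_mem_closure h2 h1 fun t ht => h t ht _ (by rw [add_sub_cancel_left, sn_smul, hv])
  simpa using h3

theorem sq_push {a b r δ s t : ℝ} (hδ : δ ≤ r) (h1 : |b - a| < δ) (h2 : r ≤ |b|) (ht : 0 < t)
    (hst : s + t = 1) : r < |s * b + t * (a + if 0 ≤ a then δ else -δ)| := by
  obtain ⟨h3, h4⟩ := abs_lt.1 h1
  obtain rfl : s = 1 - t := by linarith
  rw [lt_abs]
  rcases le_abs.1 h2 with h5 | h5 <;> split_ifs with h6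
  · left; nlinarith
  · exfalso; linarith
  · exfalso; linarith
  · right; nlinarith

theorem sq_out {c u : ℂ} {r δ : ℝ} (h0 : 0 < δ) (hδ : δ ≤ r) : ∃ m : ℂ, ‖m - u‖ ≤ 2 * δ ∧
    ∀ w, r ≤ sn (w - c) → ‖w - u‖ < δ → ∀ s t : ℝ, 0 < t → s + t = 1 →
      r < sn (s • w + t • m - c) := by
  refine ⟨u + ⟨if 0 ≤ (u - c).re then δ else -δ, if 0 ≤ (u - c).im then δ else -δ⟩, ?_,
    fun w hw hd s t ht hst => ?_⟩
  · rw [add_sub_cancel_left]
    refine (norm_le_sn _).trans (mul_le_mul_of_nonneg_left (max_le ?_ ?_) zero_le_two) <;>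
      simp only <;> split_ifs <;> simp [abs_of_pos h0]
  · obtain rfl : s = 1 - t := by linarith
    rcases le_max_iff.1 hw with h | h
    · refine lt_max_iff.2 (Or.inl ?_)
      have h1 := sq_push (a := (u - c).re) hδ (by
        rw [← Complex.sub_re, sub_sub_sub_cancel_right]
        exact (Complex.abs_re_le_norm _).trans_lt hd) h ht hst
      refine h1.trans_eq (congrArg _ ?_)
      simp only [Complex.sub_re, Complex.add_re, Complex.smul_re, smul_eq_mul]
      ring
    · refine lt_max_iff.2 (Or.inr ?_)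
      have h1 := sq_push (a := (u - c).im) hδ (by
        rw [← Complex.sub_im, sub_sub_sub_cancel_right]
        exact (Complex.abs_im_le_norm _).trans_lt hd) h ht hst
      refine h1.trans_eq (congrArg _ ?_)
      simp only [Complex.sub_im, Complex.add_im, Complex.smul_im, smul_eq_mul]
      ring

theorem convex_sn_lt (c : ℂ) (r : ℝ) : Convex ℝ {v | sn (v - c) < r} := by
  simpa using (sq_convexOn c).convex_lt r

theorem convex_sn_le (c : ℂ) (r : ℝ) : Convex ℝ {v | sn (v - c) ≤ r} := by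
  simpa using (sq_convexOn c).convex_le r

/-- Union of four open half planes, neighbouring ones meet. -/
theorem isPathConnected_lt_sn (c : ℂ) (r : ℝ) (hr : 0 ≤ r) :
    IsPathConnected {v | r < sn (v - c)} := by
  have h1 := (convex_halfSpace_re_gt (c.re + r)).isPathConnected
    ⟨⟨c.re + r + 1, 0⟩, by simp⟩
  have h2 := (convex_halfSpace_im_gt (c.im + r)).isPathConnected
    ⟨⟨0, c.im + r + 1⟩, by simp⟩
  have h3 := (convex_halfSpace_re_lt (c.re - r)).isPathConnected
    ⟨⟨c.re - r - 1, 0⟩, by simp⟩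
  have h4 := (convex_halfSpace_im_lt (c.im - r)).isPathConnected
    ⟨⟨0, c.im - r - 1⟩, by simp⟩
  have h5 := ((h1.union h2 ⟨⟨c.re + r + 1, c.im + r + 1⟩, by simp⟩).union h3
    ⟨⟨c.re - r - 1, c.im + r + 1⟩, by simp⟩).union h4 ⟨⟨c.re - r - 1, c.im - r - 1⟩, by simp⟩
  refine (congrArg IsPathConnected (Set.ext fun v => ?_)).mp h5
  simp only [mem_union, mem_ofPred_eq, sn, lt_max_iff, lt_abs, Complex.sub_re, Complex.sub_im]
  constructor
  · rintro (((h | h) | h) | h)
    · exact Or.inl (Or.inl (by linarith))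
    · exact Or.inr (Or.inl (by linarith))
    · exact Or.inl (Or.inr (by linarith))
    · exact Or.inr (Or.inr (by linarith))
  · rintro ((h | h) | h | h)
    · exact Or.inl (Or.inl (Or.inl (by linarith)))
    · exact Or.inl (Or.inr (by linarith))
    · exact Or.inl (Or.inl (Or.inr (by linarith)))
    · exact Or.inr (by linarith)

/-- The boundary of a square is a Jordan curve: `u ↦ c + (r / sn u) u`. -/
theorem exists_circle_sn (c : ℂ) (r : ℝ) (hr : 0 < r) : ∃ l : Circle → ℂ, Continuous l ∧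
    Function.Injective l ∧ range l = {v | sn (v - c) = r} := by
  have hp : ∀ u : Circle, 0 < sn u := fun u => by
    have := norm_le_sn (u : ℂ)
    rw [Circle.norm_coe] at this
    linarith
  have hc : Continuous fun u : Circle => (u : ℂ) := continuous_subtype_val
  refine ⟨fun u => c + ((r / sn u : ℝ) : ℂ) * u, ?_, fun u u' e => ?_, ?_⟩
  · exact continuous_const.add ((Complex.continuous_ofReal.comp
      (continuous_const.div (continuous_sn.comp hc) fun u => (hp u).ne')).mul hc)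
  · have h1 := add_left_cancel e
    have h2 := congrArg norm h1
    rw [norm_mul, norm_mul, Circle.norm_coe, Circle.norm_coe, mul_one, mul_one, Complex.norm_real,
      Complex.norm_real, Real.norm_of_nonneg (div_pos hr (hp u)).le,
      Real.norm_of_nonneg (div_pos hr (hp u')).le] at h2
    rw [h2] at h1
    exact Circle.ext (mul_left_cancel₀ (Complex.ofReal_ne_zero.2 (div_pos hr (hp u')).ne') h1)
  · ext v
    constructor
    · rintro ⟨u, rfl⟩
      rw [mem_ofPred_eq, add_sub_cancel_left, sn_smul, abs_of_pos (div_pos hr (hp u)),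
        div_mul_cancel₀ _ (hp u).ne']
    · intro hv
      have hv' : sn (v - c) = r := hv
      have h1 : 0 < ‖v - c‖ := hr.trans_le (hv' ▸ sn_le_norm _)
      refine ⟨⟨((‖v - c‖⁻¹ : ℝ) : ℂ) * (v - c), mem_sphere_zero_iff_norm.2 ?_⟩, ?_⟩
      · rw [norm_mul, Complex.norm_real, norm_inv, norm_norm, inv_mul_cancel₀ h1.ne']
      · change c + ((r / sn (((‖v - c‖⁻¹ : ℝ) : ℂ) * (v - c)) : ℝ) : ℂ) *
          (((‖v - c‖⁻¹ : ℝ) : ℂ) * (v - c)) = v
        rw [sn_smul, hv', abs_of_pos (inv_pos.2 h1), ← mul_assoc, ← Complex.ofReal_mul,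
          show r / (‖v - c‖⁻¹ * r) * ‖v - c‖⁻¹ = 1 by field_simp]
        simp

namespace PD

variable {Z J : Type} [TopologicalSpace Z] (Q : PD Z J)

theorem mem_P {j : J} {z : Z} : z ∈ Q.P j ↔ sn (Q.ι z - Q.c j) = Q.r j := by
  rw [← Q.ι_inj.mem_set_image, Q.P_eq, mem_ofPred_eq]

theorem isOpen_D (j : J) : IsOpen (Q.D j) := by
  by_cases h : j = Q.o
  · rw [h, Q.D_out]
    exact isOpen_lt continuous_const (sq_cont _)
  · rw [Q.D_in j h]
    exact isOpen_lt (sq_cont _) continuous_const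

theorem isPathConnected_D (j : J) : IsPathConnected (Q.D j) := by
  by_cases h : j = Q.o
  · rw [h, Q.D_out]
    exact isPathConnected_lt_sn _ _ (Q.r_pos _).le
  · rw [Q.D_in j h]
    exact (convex_sn_lt _ _).isPathConnected ⟨Q.c j, by simpa [sn] using Q.r_pos j⟩

theorem bp_mem (j : J) : Q.bp j ∈ Q.D j := by
  have hr := Q.r_pos j
  unfold bp
  split_ifs with h
  · subst h
    rw [Q.D_out, mem_ofPred_eq, add_sub_cancel_left]
    simp [sn, abs_of_pos hr, hr]
  · rw [Q.D_in j h]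
    simpa [sn] using hr

theorem sq_closure_in {j : J} (h : j ≠ Q.o) :
    closure (Q.D j) = {v | sn (v - Q.c j) ≤ Q.r j} := by
  have hr := Q.r_pos j
  rw [Q.D_in j h]
  refine (closure_lt_subset_le (sq_cont _) continuous_const).antisymm fun v hv => ?_
  rcases lt_or_eq_of_le (show sn (v - Q.c j) ≤ Q.r j from hv) with h1 | h1
  · exact subset_closure h1
  · refine sq_mem_closure h1 (s := Ioo 0 1) (by rw [closure_Ioo zero_ne_one]; simp)
      fun t ht w hw => ?_
    rw [mem_ofPred_eq, hw, abs_of_pos ht.1]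
    exact mul_lt_of_lt_one_left hr ht.2

theorem sq_closure_out : closure (Q.D Q.o) = {v | Q.r Q.o ≤ sn (v - Q.c Q.o)} := by
  have hr := Q.r_pos Q.o
  rw [Q.D_out]
  refine (closure_lt_subset_le continuous_const (sq_cont _)).antisymm fun v hv => ?_
  rcases lt_or_eq_of_le (show Q.r Q.o ≤ sn (v - Q.c Q.o) from hv) with h1 | h1
  · exact subset_closure h1
  · refine sq_mem_closure h1.symm (s := Ioi 1) (by rw [closure_Ioi]; simp) fun t ht w hw => ?_
    rw [mem_ofPred_eq, hw, abs_of_pos (one_pos.trans ht)]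
    exact lt_mul_of_one_lt_left hr ht

theorem closure_D (j : J) : closure (Q.D j) = Q.D j ∪ Q.ι '' Q.P j := by
  by_cases h : j = Q.o
  · rw [h, Q.sq_closure_out, Q.D_out, Q.P_eq]
    ext v
    exact (le_iff_lt_or_eq (α := ℝ)).trans (or_congr Iff.rfl eq_comm)
  · rw [Q.sq_closure_in h, Q.D_in j h, Q.P_eq]
    ext v
    exact le_iff_lt_or_eq (α := ℝ)

theorem frontier_D (j : J) : frontier (Q.D j) = Q.ι '' Q.P j := by
  rw [(Q.isOpen_D j).frontier_eq, Q.closure_D, union_sdiff_left]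
  refine Disjoint.sdiff_eq_left (disjoint_left.2 ?_)
  rintro _ ⟨z, -, rfl⟩
  exact Q.not_mem z j

theorem isPathConnected_compl_closure (j : J) : IsPathConnected (closure (Q.D j))ᶜ := by
  by_cases h : j = Q.o
  · rw [h, Q.sq_closure_out, compl_ofPred]
    simp only [not_le]
    exact (convex_sn_lt _ _).isPathConnected ⟨Q.c Q.o, by simpa [sn] using Q.r_pos Q.o⟩
  · rw [Q.sq_closure_in h, compl_ofPred]
    simp only [not_le]
    exact isPathConnected_lt_sn _ _ (Q.r_pos _).le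

theorem isClosed_P (j : J) : IsClosed (Q.P j) := by
  rw [show Q.P j = {z | sn (Q.ι z - Q.c j) = Q.r j} from Set.ext fun _ => Q.mem_P]
  exact isClosed_eq ((sq_cont _).comp Q.ι_cont) continuous_const

theorem hole_unique {i j : J} {v : ℂ} (hi : v ∈ Q.D i) (hj : v ∈ Q.D j) : i = j := by
  by_contra h
  exact disjoint_left.1 (Q.D_disj i j h) hi hj

theorem P_unique {i j : J} {z : Z} (hi : z ∈ Q.P i) (hj : z ∈ Q.P j) : i = j := by
  by_contra h
  exact disjoint_left.1 (Q.P_disj i j h) hi hj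

theorem sn_ι_le (z : Z) : sn (Q.ι z - Q.c Q.o) ≤ Q.r Q.o := by
  have := Q.not_mem z Q.o
  rw [Q.D_out] at this
  exact not_lt.1 this

/-- A preconnected set that meets `D j` and its complement meets `ι '' P j`. -/
theorem meets_P {T : Set ℂ} (hT : IsPreconnected T) {j : J} {v w : ℂ} (hv : v ∈ T) (hw : w ∈ T)
    (hvj : v ∈ Q.D j) (hwj : w ∉ Q.D j) : ∃ b ∈ Q.P j, Q.ι b ∈ T := by
  by_contra hn
  refine hwj (hT.subset_of_closure_inter_subset (Q.isOpen_D j) ⟨v, hv, hvj⟩ ?_ hw)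
  rw [Q.closure_D]
  rintro x ⟨hx | ⟨b, hb, rfl⟩, hxT⟩
  · exact hx
  · exact absurd ⟨b, hb, hxT⟩ hn

theorem sq_seg {ε : ℝ} (hε : 0 < ε) : ∃ δ > 0, δ ≤ ε ∧ ∀ j, ∀ u ∈ closure (Q.D j),
    ∃ m ∈ Q.D j, m ∈ ball u ε ∧
      ∀ w ∈ closure (Q.D j), ‖w - u‖ < δ → segment ℝ w m ⊆ Q.D j ∪ {w} := by
  have h0 : 0 < min (ε / 4) (Q.r Q.o) := lt_min (by positivity) (Q.r_pos _)
  have h1 := min_le_left (ε / 4) (Q.r Q.o)
  have fin : ∀ (j : J) (w m : ℂ), (∀ s t : ℝ, 0 ≤ s → 0 < t → s + t = 1 → s • w + t • m ∈ Q.D j) →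
      segment ℝ w m ⊆ Q.D j ∪ {w} := by
    rintro j w m h _ ⟨s, t, hs, ht, hst, rfl⟩
    rcases ht.eq_or_lt with rfl | ht
    · right
      rw [add_zero] at hst
      simp [hst]
    · exact Or.inl (h s t hs ht hst)
  refine ⟨_, h0, by linarith, fun j u hu => ?_⟩
  by_cases h : j = Q.o
  · subst h
    obtain ⟨m, hm, hs⟩ := sq_out (c := Q.c Q.o) (u := u) h0 (min_le_right _ _)
    rw [Q.sq_closure_out] at hu ⊢
    refine ⟨m, ?_, ?_, fun w hw hd => fin _ w m fun s t _ ht hst => ?_⟩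
    · have := hs u hu (by simpa using h0) 0 1 one_pos (zero_add 1)
      rw [Q.D_out]
      simpa using this
    · rw [mem_ball, dist_eq_norm]
      linarith
    · rw [Q.D_out]
      exact hs w hw hd s t ht hst
  · obtain ⟨m, hm, hd⟩ := Metric.mem_closure_iff.1 hu ε hε
    refine ⟨m, hm, mem_ball'.2 hd, fun w hw _ => fin _ w m fun s t hs ht hst => ?_⟩
    have hc : Convex ℝ (Q.D j) := by
      rw [Q.D_in j h]
      exact convex_sn_lt _ _
    exact interior_subset (hc.combo_closure_interior_mem_interior hw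
      ((Q.isOpen_D j).interior_eq.symm ▸ hm) hs ht hst)

/-- Short chords: inner holes are convex (go through a point of the open square near `u`); the outer
hole is a union of four half planes (go through a point of two neighbouring ones). -/
theorem short_chord {ε : ℝ} (hε : 0 < ε) : ∃ δ > 0, ∀ j, ∀ u ∈ closure (Q.D j),
    ∀ u' ∈ closure (Q.D j), ‖u - u'‖ < δ → JoinedIn ((Q.D j ∪ {u, u'}) ∩ ball u ε) u u' := by
  obtain ⟨δ, hδ, hδε, h⟩ := Q.sq_seg hε
  refine ⟨δ, hδ, fun j u hu u' hu' hd => ?_⟩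
  obtain ⟨m, -, hm, hs⟩ := h j u hu
  have h1 : u' ∈ ball u ε := by
    rw [mem_ball, dist_comm, dist_eq_norm]
    exact hd.trans_le hδε
  have h2 : JoinedIn ((Q.D j ∪ {u, u'}) ∩ ball u ε) u m := .of_segment_subset (subset_inter
    ((hs u hu (by simpa using hδ)).trans (union_subset_union_right _ (by simp)))
    ((convex_ball u ε).segment_subset (mem_ball_self hε) hm))
  have h3 : JoinedIn ((Q.D j ∪ {u, u'}) ∩ ball u ε) u' m := .of_segment_subset (subset_inter
    ((hs u' hu' (by rwa [norm_sub_rev])).trans (union_subset_union_right _ (by simp)))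
    ((convex_ball u ε).segment_subset h1 hm))
  exact h2.trans h3.symm

/-- A point of the closed hole is joined to the base point inside the hole. -/
theorem joinedIn_bp {j : J} {u : ℂ} (hu : u ∈ closure (Q.D j)) :
    JoinedIn (Q.D j ∪ {u}) u (Q.bp j) := by
  obtain ⟨δ, hδ, -, h⟩ := Q.sq_seg one_pos
  obtain ⟨m, hm, -, hs⟩ := h j u hu
  exact (JoinedIn.of_segment_subset (hs u hu (by simpa using hδ))).trans
    (((Q.isPathConnected_D j).joinedIn m hm _ (Q.bp_mem j)).mono subset_union_left)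

variable [CompactSpace Z]

theorem isClosedEmbedding_ι : Topology.IsClosedEmbedding Q.ι := Q.ι_cont.isClosedEmbedding Q.ι_inj

theorem isCompact_P (j : J) : IsCompact (Q.P j) := (Q.isClosed_P j).isCompact

theorem exists_circle (j : J) : ∃ l : Circle → Z, Continuous l ∧ Function.Injective l ∧
    range l = Q.P j := by
  obtain ⟨l, h1, h2, h3⟩ := exists_circle_sn (Q.c j) (Q.r j) (Q.r_pos j)
  rw [← Q.P_eq] at h3
  have h4 : ∀ u, ∃ z ∈ Q.P j, Q.ι z = l u := fun u => by
    have : l u ∈ Q.ι '' Q.P j := h3 ▸ mem_range_self u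
    exact this
  choose m hm hl using h4
  have h5 : Q.ι ∘ m = l := funext hl
  refine ⟨m, Q.isClosedEmbedding_ι.isInducing.continuous_iff.2 (h5 ▸ h1),
    Function.Injective.of_comp (f := Q.ι) (h5 ▸ h2), Q.ι_inj.image_injective ?_⟩
  rw [← range_comp, h5, h3]

theorem sq_infinite (j : J) : (Q.P j).Infinite := by
  obtain ⟨l, -, h2, h3⟩ := Q.exists_circle j
  have : Nontrivial Circle := ⟨-1, 1, Circle.neg_ne_self 1⟩
  have : Infinite Circle := PreconnectedSpace.infinite
  exact h3 ▸ infinite_range_of_injective h2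

theorem P_nontrivial (j : J) : (Q.P j).Nontrivial := (Q.sq_infinite j).nontrivial

theorem P_infinite (j : J) : (Q.P j).Infinite := Q.sq_infinite j

theorem isPathConnected_P (j : J) : IsPathConnected (Q.P j) := by
  obtain ⟨l, h1, -, h3⟩ := Q.exists_circle j
  exact h3 ▸ isPathConnected_range h1

/-- A circle without a point is path connected. -/
theorem isPathConnected_P_diff (j : J) (y : Z) : IsPathConnected (Q.P j \ {y}) := by
  by_cases hy : y ∈ Q.P j
  · obtain ⟨l, h1, h2, h3⟩ := Q.exists_circle j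
    rw [← h3] at hy ⊢
    obtain ⟨u, rfl⟩ := hy
    have h4 := (Circle.isPathConnected_compl_singleton u).image h1
    rwa [compl_eq_univ_sdiff, image_sdiff h2, image_univ, image_singleton] at h4
  · rw [sdiff_singleton_eq_self hy]
    exact Q.isPathConnected_P j

/-- `P j` is locally path connected. -/
theorem P_lpc (j : J) {b : Z} (hb : b ∈ Q.P j) {U : Set Z} (hU : U ∈ nhds b) :
    ∃ V ∈ nhds b, ∀ x ∈ Q.P j ∩ V, JoinedIn (Q.P j ∩ U) b x := by
  obtain ⟨l, h1, h2, h3⟩ := Q.exists_circle j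
  have := Q.isClosedEmbedding_ι.isEmbedding.t2Space
  have : LocallyPathConnectedSpace Circle :=
    ChartedSpace.locallyPathConnectedSpace (EuclideanSpace ℝ (Fin 1)) Circle
  rw [← h3] at hb ⊢
  obtain ⟨u, rfl⟩ := hb
  have h4 := pathComponentIn_mem_nhds (h1.continuousAt.preimage_mem_nhds hU)
  rw [(h1.isClosedEmbedding h2).isInducing.nhds_eq_comap, Filter.mem_comap] at h4
  obtain ⟨V, hV, h5⟩ := h4
  refine ⟨V, hV, ?_⟩
  rintro _ ⟨⟨w, rfl⟩, hw⟩
  have h6 : JoinedIn (l ⁻¹' U) u w := h5 hw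
  exact (h6.map h1).mono (subset_inter (image_subset_range _ _) (image_preimage_subset _ _))

include Q in
theorem infinite_J [T2Space Z] : Infinite J := by
  by_contra hf
  have : Finite J := not_infinite_iff_finite.1 hf
  choose b hb using fun j => (Q.P_infinite j).nonempty
  obtain ⟨z, -, hz⟩ := (Q.P_infinite Q.o).exists_notMem_finite (finite_range b)
  obtain ⟨j, hj⟩ := Q.dense (range b)ᶜ (finite_range b).isClosed.isOpen_compl ⟨z, hz⟩
  exact hj (hb j) (mem_range_self j)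

end PD

namespace PD

variable {Z J : Type} [MetricSpace Z] [CompactSpace Z] (Q : PD Z J)

theorem unif_ι {ε : ℝ} (hε : 0 < ε) : ∃ δ > 0, ∀ x y : Z, dist x y ≤ δ → ‖Q.ι x - Q.ι y‖ < ε := by
  obtain ⟨δ, hδ, h⟩ := Metric.uniformContinuous_iff.1
    (CompactSpace.uniformContinuous_of_continuous Q.ι_cont) ε hε
  exact ⟨δ / 2, half_pos hδ, fun x y hxy => by
    rw [← dist_eq_norm]
    exact h (hxy.trans_lt (half_lt_self hδ))⟩

theorem unif_ι_inv {ε : ℝ} (hε : 0 < ε) :
    ∃ δ > 0, ∀ x y : Z, ‖Q.ι x - Q.ι y‖ ≤ δ → dist x y < ε := by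
  have h1 : IsClosed {p : Z × Z | ε ≤ dist p.1 p.2} := isClosed_le continuous_const continuous_dist
  have h2 : Continuous fun p : Z × Z => ‖Q.ι p.1 - Q.ι p.2‖ :=
    ((Q.ι_cont.comp continuous_fst).sub (Q.ι_cont.comp continuous_snd)).norm
  obtain ⟨δ, hδ, h⟩ := h1.isCompact.exists_forall_le' h2.continuousOn (a := 0) fun p hp =>
    norm_pos_iff.2 (sub_ne_zero.2 (Q.ι_inj.ne (dist_pos.1 (hε.trans_le hp))))
  refine ⟨δ / 2, half_pos hδ, fun x y hxy => ?_⟩
  by_contra hc
  have := h (x, y) (not_lt.1 hc)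
  linarith

theorem finite_big {δ : ℝ} (hδ : 0 < δ) : {j | Big δ (Q.P j)}.Finite := by
  obtain ⟨η, hη, h⟩ := Q.unif_ι_inv hδ
  refine (Q.null (η / 4) (by positivity)).subset ?_
  rintro j ⟨x, hx, y, hy, hxy⟩
  have h1 : η < ‖Q.ι x - Q.ι y‖ := not_le.1 fun e => absurd (h x y e) (not_lt.2 hxy)
  have h2 := sq_norm_le (Q.ι x) (Q.ι y) (Q.c j)
  rw [Q.mem_P.1 hx, Q.mem_P.1 hy] at h2
  change η / 4 ≤ Q.r j
  linarith

theorem exists_big (j : J) : ∃ δ > 0, Big δ (Q.P j) := by
  obtain ⟨x, hx, y, hy, hxy⟩ := Q.P_nontrivial j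
  exact ⟨dist x y, dist_pos.2 hxy, x, hx, y, hy, le_rfl⟩

/-- A hole whose boundary is small is small in the plane. -/
theorem hole_small {ε : ℝ} (hε : 0 < ε) : ∃ δ > 0, ∀ j, ¬ Big δ (Q.P j) →
    ∀ v ∈ Q.D j, ∀ b ∈ Q.P j, ‖v - Q.ι b‖ < ε := by
  obtain ⟨δ₁, h1, x₀, hx₀, y₀, hy₀, h2⟩ := Q.exists_big Q.o
  obtain ⟨δ₂, h3, h4⟩ := Q.unif_ι (half_pos hε)
  refine ⟨min δ₁ δ₂, lt_min h1 h3, fun j hj v hv b hb => ?_⟩
  have hr := Q.r_pos j
  have ho : j ≠ Q.o := by
    rintro rfl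
    exact hj ⟨x₀, hx₀, y₀, hy₀, (min_le_left _ _).trans h2⟩
  obtain ⟨x, hx, ex⟩ : Q.c j + Q.r j ∈ Q.ι '' Q.P j := by
    rw [Q.P_eq]
    simp [sn, abs_of_pos hr, hr.le]
  obtain ⟨y, hy, ey⟩ : Q.c j - Q.r j ∈ Q.ι '' Q.P j := by
    rw [Q.P_eq]
    simp [sn, abs_of_pos hr, hr.le]
  have h5 := h4 x y ((not_le.1 fun e => hj ⟨x, hx, y, hy, e⟩).le.trans (min_le_right _ _))
  rw [ex, ey, show Q.c j + Q.r j - (Q.c j - Q.r j) = ((2 * Q.r j : ℝ) : ℂ) by push_cast; ring,
    Complex.norm_real, Real.norm_of_nonneg (by positivity)] at h5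
  have h6 := sq_norm_le v (Q.ι b) (Q.c j)
  rw [Q.D_in j ho] at hv
  have h7 : sn (v - Q.c j) < Q.r j := hv
  rw [Q.mem_P.1 hb] at h6
  linarith

end PD

end KKC
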