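import Mathlib

/-! Definitions used in the statement: word length, Gromov product, hyperbolicity, Gromov boundary,
visual metrics, the standard Sierpinski carpet, quasisymmetric maps. -/

namespace KKC

open Filter
open scoped NNReal

variable {G : Type} [Group G]

/-- Word length of `g` in the letters of `S` and their inverses. -/
noncomputable def wlen (S : Finset G) (g : G) : ℕ :=
  sInf {n | ∃ l : List G, (∀ s ∈ l, s ∈ S ∨ s⁻¹ ∈ S) ∧ l.prod = g ∧ l.length = n}

/-- Gromov product `(x|y)` based at the identity, for the word metric `d(x,y) = |x⁻¹ y|`. -/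
noncomputable def gp (S : Finset G) (x y : G) : ℝ :=
  ((wlen S x : ℝ) + wlen S y - wlen S (x⁻¹ * y)) / 2

/-- Gromov hyperbolicity of the word metric. -/
def Hyperbolic (S : Finset G) : Prop :=
  ∃ δ : ℝ, ∀ x y z : G, min (gp S x y) (gp S y z) - δ ≤ gp S x z

/-- `(x i | y j) → ∞` as `i, j → ∞`. -/
def Asymp (S : Finset G) (x y : ℕ → G) : Prop :=
  Tendsto (fun p : ℕ × ℕ => gp S (x p.1) (y p.2)) atTop atTop

/-- Gromov boundary: sequences converging at infinity, up to `Asymp`. -/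
def Bdry (S : Finset G) : Type :=
  Quot fun x y : {x : ℕ → G // Asymp S x x} => Asymp S x.1 y.1

/-- Gromov product of two boundary points: `sup liminf (x i | y j)` over all representatives. -/
noncomputable def bgp (S : Finset G) (ξ ζ : Bdry S) : ℝ :=
  sSup {r | ∃ x y : {x : ℕ → G // Asymp S x x}, Quot.mk _ x = ξ ∧ Quot.mk _ y = ζ ∧
    r = liminf (fun p : ℕ × ℕ => gp S (x.1 p.1) (y.1 p.2)) atTop}

/-- The metric of the boundary is visual: comparable with `a ^ (-(ξ|ζ))` for some `a > 1`. -/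
def IsVisual (S : Finset G) [MetricSpace (Bdry S)] : Prop :=
  ∃ a C : ℝ, 1 < a ∧ 0 < C ∧ ∀ ξ ζ : Bdry S, ξ ≠ ζ →
    C⁻¹ * a ^ (-bgp S ξ ζ) ≤ dist ξ ζ ∧ dist ξ ζ ≤ C * a ^ (-bgp S ξ ζ)

/-- The standard Sierpinski carpet: the unit square without the open middle squares of all triadic
squares. -/
def carpet : Set ℂ :=
  {z | z.re ∈ Set.Icc (0 : ℝ) 1 ∧ z.im ∈ Set.Icc (0 : ℝ) 1 ∧ ∀ n i j : ℕ,
    ¬ (3 ^ (n + 1) * z.re ∈ Set.Ioo (3 * i + 1 : ℝ) (3 * i + 2) ∧
       3 ^ (n + 1) * z.im ∈ Set.Ioo (3 * j + 1 : ℝ) (3 * j + 2))}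

/-- `f` is `η`-quasisymmetric. -/
def IsQS {X Y : Type} [MetricSpace X] [MetricSpace Y] (η : ℝ≥0 ≃ₜ ℝ≥0) (f : X → Y) : Prop :=
  ∀ x y z : X, z ≠ x →
    nndist (f x) (f y) / nndist (f x) (f z) ≤ η (nndist x y / nndist x z)

end KKC
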