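import Pool.Agent.Lib.MP_e1e491_gt.V2
import Pool.Agent.Lib.MP_e1e491_gt.Av

/-! Scale invariant statements: transport the statements of `Av` through a view of `(s, r)`.
LLC1: `view_out`; if the view is shallow (`η ≤ sc g`, so `r ≥ c`) the big ball is everything;
otherwise use `avoid_Z` at the pole and `view_far`. LLC2: `view_far` puts both points near the pole,
`ulpc_Z` joins them near the pole, `view_out` says that the ball is seen far from the pole (choose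
`M'` so large that the hypothesis forces `r`, hence `sc g`, to be small). -/

namespace KKC.CS

open Set Metric
open scoped Pointwise

variable {G Z J : Type} [Group G] [MetricSpace Z] [CompactSpace Z] [MulAction G Z]
  [ContinuousConstSMul G Z] [MulAction G J] (X : CS G Z J)
include X

omit X in
theorem v3_big_mono {δ δ' : ℝ} {T : Set Z} (h : Big δ T) (hδ : δ' ≤ δ) : Big δ' T := by
  obtain ⟨x, hx, y, hy, hxy⟩ := h
  exact ⟨x, hx, y, hy, hδ.trans hxy⟩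

omit X in
/-- Transport of a path through `g`. -/
theorem v3_transport (g : G) {U V : Set Z} {x y : Z} (h : JoinedIn U (g⁻¹ • x) (g⁻¹ • y))
    (hUV : ∀ z, g⁻¹ • z ∈ U → z ∈ V) : JoinedIn V x y := by
  have h1 := h.map (continuous_const_smul g)
  simp only [smul_inv_smul] at h1
  refine h1.mono ?_
  rintro _ ⟨w, hw, rfl⟩
  exact hUV _ (by simpa using hw)

/-- LLC1 for an invariant family of sets. -/
theorem v3_llc1 (F : Set (Set Z)) (hF : ∀ T ∈ F, ∀ g : G, g • T ∈ F)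
    (hav : ∀ η > 0, ∃ η' > 0, ∀ T ∈ F, ∀ y, ∀ u ∈ T, ∀ u' ∈ T, η ≤ dist u y → η ≤ dist u' y →
      JoinedIn (T \ ball y η') u u')
    (hpc : ∀ T ∈ F, ∀ u ∈ T, ∀ u' ∈ T, JoinedIn T u u') (M : ℝ) (hM : 1 ≤ M) :
    ∃ M' : ℝ, M ≤ M' ∧ ∀ (s : Z) r, 0 < r → ∀ T ∈ F, ∀ x ∈ T, ∀ y ∈ T,
      dist x s ≤ M * r → dist y s ≤ M * r → JoinedIn (T ∩ closedBall s (M' * r)) x y := by
  obtain ⟨L, hL, hview⟩ := X.H.view_exists
  obtain ⟨η, hη, hout⟩ := X.H.view_out L M hL hM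
  obtain ⟨η', hη', hav'⟩ := hav η hη
  obtain ⟨C₂, hC₂, hfar⟩ := X.H.view_far L hL
  have hC := X.H.hC
  have h1 : 0 ≤ X.H.C * L / η := by positivity
  have h2 : 0 ≤ C₂ / η' := by positivity
  refine ⟨M + X.H.C + X.H.C * L / η + C₂ / η', by linarith, ?_⟩
  intro s r hr T hT x hx y hy hxs hys
  have hall : X.H.C ≤ (M + X.H.C + X.H.C * L / η + C₂ / η') * r →
      JoinedIn (T ∩ closedBall s ((M + X.H.C + X.H.C * L / η + C₂ / η') * r)) x y := by
    intro h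
    refine (hpc T hT x hx y hy).mono fun z hz => ⟨hz, ?_⟩
    exact mem_closedBall.2 ((X.H.dist_le_C z s).trans h)
  by_cases hr1 : r ≤ 1
  swap
  · apply hall
    have : 1 < r := not_le.1 hr1
    nlinarith
  obtain ⟨g, hg⟩ := hview s r hr hr1
  by_cases hs : η ≤ X.H.sc g
  · apply hall
    have h3 : η ≤ L * r := hs.trans hg.2.1
    have h4 : X.H.C ≤ X.H.C * L / η * r := by
      rw [div_mul_eq_mul_div, le_div_iff₀ hη]
      nlinarith
    have h5 : 0 ≤ (M + X.H.C + C₂ / η') * r := by positivity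
    nlinarith
  have hx' : η ≤ dist (g⁻¹ • x) (X.H.loc g⁻¹) := by
    rcases le_max_iff.1 (hout g s r hg x hxs) with h | h
    · exact h
    · exact absurd h hs
  have hy' : η ≤ dist (g⁻¹ • y) (X.H.loc g⁻¹) := by
    rcases le_max_iff.1 (hout g s r hg y hys) with h | h
    · exact h
    · exact absurd h hs
  have hj := hav' (g⁻¹ • T) (hF T hT g⁻¹) (X.H.loc g⁻¹) (g⁻¹ • x) (smul_mem_smul_set hx)
    (g⁻¹ • y) (smul_mem_smul_set hy) hx' hy'
  refine v3_transport g hj fun z hz => ⟨smul_mem_smul_set_iff.1 hz.1, ?_⟩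
  have h3 : η' ≤ dist (g⁻¹ • z) (X.H.loc g⁻¹) := not_lt.1 fun h => hz.2 (mem_ball.2 h)
  have h4 := hfar g s r hg z
  have h5 : dist z s * η' ≤ C₂ * r :=
    (mul_le_mul_of_nonneg_left h3 dist_nonneg).trans h4
  have h6 : dist z s ≤ C₂ / η' * r := by
    rw [div_mul_eq_mul_div, le_div_iff₀ hη']
    exact h5
  have h7 : 0 ≤ (M + X.H.C + X.H.C * L / η) * r := by positivity
  rw [mem_closedBall]
  nlinarith

/-- LLC2 for an invariant family of sets. -/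
theorem v3_llc2 (F : Set (Set Z)) (hF : ∀ T ∈ F, ∀ g : G, g • T ∈ F)
    (hul : ∀ ε > 0, ∃ δ > 0, ∀ T ∈ F, ∀ u ∈ T, ∀ u' ∈ T, dist u u' ≤ δ →
      JoinedIn (T ∩ ball u ε) u u') (M : ℝ) (hM : 1 ≤ M) :
    ∃ M' : ℝ, M ≤ M' ∧ ∀ (s : Z) r, 0 < r → ∀ T ∈ F, ∀ x ∈ T, ∀ y ∈ T,
      M' * r ≤ dist x s → M' * r ≤ dist y s → JoinedIn (T \ closedBall s (M * r)) x y := by
  obtain ⟨L, hL, hview⟩ := X.H.view_exists
  obtain ⟨η, hη, hout⟩ := X.H.view_out L M hL hM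
  obtain ⟨δ, hδ, hul'⟩ := hul (η / 2) (by positivity)
  obtain ⟨C₂, hC₂, hfar⟩ := X.H.view_far L hL
  have hC := X.H.hC
  have h1 : 0 ≤ 2 * C₂ / δ := by positivity
  have h2 : 0 ≤ 2 * C₂ / η := by positivity
  have h3 : 0 ≤ 2 * L * X.H.C / η := by positivity
  obtain ⟨M', hM'⟩ : ∃ M' : ℝ, M' = M + X.H.C + 2 * C₂ / δ + 2 * C₂ / η + 2 * L * X.H.C / η :=
    ⟨_, rfl⟩
  have hM0 : 0 < M' := by linarith
  refine ⟨M', by linarith, ?_⟩
  intro s r hr T hT x hx y hy hxs hys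
  have hrC : M' * r ≤ X.H.C := hxs.trans (X.H.dist_le_C x s)
  have hr1 : r ≤ 1 := by
    by_contra h
    have : 1 < r := not_le.1 h
    nlinarith
  obtain ⟨g, hg⟩ := hview s r hr hr1
  have hsc : X.H.sc g < η := by
    have h4 : 2 * L * X.H.C / η * r ≤ X.H.C := by
      have : 2 * L * X.H.C / η ≤ M' := by linarith
      exact (mul_le_mul_of_nonneg_right this hr.le).trans hrC
    rw [div_mul_eq_mul_div, div_le_iff₀ hη] at h4
    have h5 : 2 * (L * r) ≤ η := by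
      have h6 : X.H.C * (2 * (L * r)) ≤ X.H.C * η := by linarith
      exact le_of_mul_le_mul_left h6 (by linarith)
    have h7 := hg.2.1
    linarith
  have hnear : ∀ z, M' * r ≤ dist z s → ∀ t, 0 < t → 2 * C₂ / t ≤ M' →
      dist (g⁻¹ • z) (X.H.loc g⁻¹) ≤ t / 2 := by
    intro z hz t ht htM
    have h4 := hfar g s r hg z
    have h5 : M' * r * dist (g⁻¹ • z) (X.H.loc g⁻¹) ≤ C₂ * r :=
      (mul_le_mul_of_nonneg_right hz dist_nonneg).trans h4
    have h6 : M' * dist (g⁻¹ • z) (X.H.loc g⁻¹) ≤ C₂ := by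
      have : r * (M' * dist (g⁻¹ • z) (X.H.loc g⁻¹)) ≤ r * C₂ := by linarith
      exact le_of_mul_le_mul_left this hr
    rw [div_le_iff₀ ht] at htM
    have h7 : M' * dist (g⁻¹ • z) (X.H.loc g⁻¹) ≤ M' * (t / 2) := by linarith
    exact le_of_mul_le_mul_left h7 hM0
  have hx1 := hnear x hxs δ hδ (by linarith)
  have hy1 := hnear y hys δ hδ (by linarith)
  have hx2 := hnear x hxs η hη (by linarith)
  have hxy : dist (g⁻¹ • x) (g⁻¹ • y) ≤ δ := by
    have := dist_triangle_right (g⁻¹ • x) (g⁻¹ • y) (X.H.loc g⁻¹)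
    linarith
  have hj := hul' (g⁻¹ • T) (hF T hT g⁻¹) (g⁻¹ • x) (smul_mem_smul_set hx)
    (g⁻¹ • y) (smul_mem_smul_set hy) hxy
  refine v3_transport g hj fun z hz => ⟨smul_mem_smul_set_iff.1 hz.1, fun hzs => ?_⟩
  have h4 : dist (g⁻¹ • z) (g⁻¹ • x) < η / 2 := mem_ball.1 hz.2
  have h5 := dist_triangle (g⁻¹ • z) (g⁻¹ • x) (X.H.loc g⁻¹)
  rcases le_max_iff.1 (hout g s r hg z (mem_closedBall.1 hzs)) with h | h
  · linarith
  · linarith

theorem v3_range_P : ∀ T ∈ range X.Q.P, ∀ g : G, g • T ∈ range X.Q.P := by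
  rintro _ ⟨j, rfl⟩ g
  exact ⟨g • j, X.act_P g j⟩

omit X in
theorem v3_univ : ∀ T ∈ ({univ} : Set (Set Z)), ∀ g : G, g • T ∈ ({univ} : Set (Set Z)) := by
  rintro _ rfl g
  exact smul_set_univ

theorem v3_big_finset (J₀ : Finset J) : ∃ δ > 0, ∀ k ∈ J₀, Big δ (X.Q.P k) := by
  classical
  induction J₀ using Finset.induction_on with
  | empty => exact ⟨1, one_pos, by simp⟩
  | insert k S _ ih =>
    obtain ⟨δ, hδ, h⟩ := ih
    obtain ⟨δ', hδ', h'⟩ := X.Q.exists_big k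
    refine ⟨min δ δ', lt_min hδ hδ', fun l hl => ?_⟩
    rcases Finset.mem_insert.1 hl with rfl | hl
    · exact v3_big_mono h' (min_le_right _ _)
    · exact v3_big_mono (h l hl) (min_le_left _ _)

/-- One of two distinct holes is far from any given point. -/
theorem v3_far {i j : J} (h : i ≠ j) : ∃ d > 0, ∀ y : Z,
    (∀ w ∈ X.Q.P i, d ≤ dist w y) ∨ ∀ w ∈ X.Q.P j, d ≤ dist w y := by
  obtain ⟨ρ, hρ, hd⟩ := Metric.exists_pos_forall_lt_edist (X.Q.isCompact_P i) (X.Q.isClosed_P j)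
    (X.Q.P_disj i j h)
  refine ⟨(ρ : ℝ) / 2, by positivity, fun y => ?_⟩
  by_contra hc
  push Not at hc
  obtain ⟨⟨w, hw, h1⟩, w', hw', h2⟩ := hc
  have h3 := hd w hw w' hw'
  rw [edist_nndist, ENNReal.coe_lt_coe, ← NNReal.coe_lt_coe, coe_nndist] at h3
  have h4 := dist_triangle_right w w' y
  linarith

theorem llc1 (M : ℝ) (hM : 1 ≤ M) : ∃ M' : ℝ, M ≤ M' ∧ ∀ (s : Z) r, 0 < r → ∀ x y : Z,
    dist x s ≤ M * r → dist y s ≤ M * r → JoinedIn (closedBall s (M' * r)) x y := by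
  obtain ⟨M', hM', h⟩ := X.v3_llc1 {univ} v3_univ (fun η hη => by
    obtain ⟨η', hη', h⟩ := X.Q.avoid_Z hη
    refine ⟨η', hη', ?_⟩
    rintro _ rfl y u _ u' _ hu hu'
    rw [← compl_eq_univ_sdiff]
    exact h y u u' hu hu') (by
    rintro _ rfl u hu u' hu'
    exact X.Q.isPathConnected_univ.joinedIn u hu u' hu') M hM
  refine ⟨M', hM', fun s r hr x y hx hy => ?_⟩
  simpa using h s r hr univ rfl x (mem_univ _) y (mem_univ _) hx hy

theorem llc2 (M : ℝ) (hM : 1 ≤ M) : ∃ M' : ℝ, M ≤ M' ∧ ∀ (s : Z) r, 0 < r → ∀ x y : Z,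
    M' * r ≤ dist x s → M' * r ≤ dist y s → JoinedIn (closedBall s (M * r))ᶜ x y := by
  obtain ⟨M', hM', h⟩ := X.v3_llc2 {univ} v3_univ (fun ε hε => by
    obtain ⟨δ, hδ, h⟩ := X.Q.ulpc_Z hε
    refine ⟨δ, hδ, ?_⟩
    rintro _ rfl u _ u' _ hu
    rw [univ_inter]
    exact h u u' hu) M hM
  refine ⟨M', hM', fun s r hr x y hx hy => ?_⟩
  rw [compl_eq_univ_sdiff]
  exact h s r hr univ rfl x (mem_univ _) y (mem_univ _) hx hy

theorem llc1_P (M : ℝ) (hM : 1 ≤ M) : ∃ M' : ℝ, M ≤ M' ∧ ∀ (s : Z) r, 0 < r → ∀ j,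
    ∀ x ∈ X.Q.P j, ∀ y ∈ X.Q.P j, dist x s ≤ M * r → dist y s ≤ M * r →
    JoinedIn (X.Q.P j ∩ closedBall s (M' * r)) x y := by
  obtain ⟨M', hM', h⟩ := X.v3_llc1 (range X.Q.P) X.v3_range_P (fun η hη => by
    obtain ⟨η', hη', h⟩ := X.Q.avoid_P hη
    refine ⟨η', hη', ?_⟩
    rintro _ ⟨j, rfl⟩
    exact h j) (by
    rintro _ ⟨j, rfl⟩
    exact (X.Q.isPathConnected_P j).joinedIn) M hM
  exact ⟨M', hM', fun s r hr j => h s r hr _ ⟨j, rfl⟩⟩

theorem llc2_P (M : ℝ) (hM : 1 ≤ M) : ∃ M' : ℝ, M ≤ M' ∧ ∀ (s : Z) r, 0 < r → ∀ j,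
    ∀ x ∈ X.Q.P j, ∀ y ∈ X.Q.P j, M' * r ≤ dist x s → M' * r ≤ dist y s →
    JoinedIn (X.Q.P j \ closedBall s (M * r)) x y := by
  obtain ⟨M', hM', h⟩ := X.v3_llc2 (range X.Q.P) X.v3_range_P (fun ε hε => by
    obtain ⟨δ, hδ, h⟩ := X.Q.ulpc_P hε
    refine ⟨δ, hδ, ?_⟩
    rintro _ ⟨j, rfl⟩
    exact h j) M hM
  exact ⟨M', hM', fun s r hr j => h s r hr _ ⟨j, rfl⟩⟩

theorem big_P_smul (j : J) : ∃ c > 0, ∀ g : G, Big (c * X.H.sc g) (X.Q.P (g • j)) ∧
    ∃ b ∈ X.Q.P (g • j), c * dist b (X.H.loc g) ≤ X.H.sc g := by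
  obtain ⟨δ, hδ, hb⟩ := X.Q.exists_big j
  obtain ⟨c, hc, h⟩ := X.H.big_smul hδ
  refine ⟨c, hc, fun g => ?_⟩
  rw [X.act_P]
  exact h g _ hb

/-- Witness holes: two fixed holes, one of them is far from the pole of a view of `(s, r / M)`. -/
theorem witness : ∃ c > 0, ∀ (s : Z) r, 0 < r → r ≤ 1 →
    ∃ j, X.Q.P j ⊆ ball s r ∧ Big (c * r) (X.Q.P j) := by
  have : Infinite J := X.Q.infinite_J
  obtain ⟨i, j, hij⟩ := exists_pair_ne J
  obtain ⟨d, hd, hfarP⟩ := X.v3_far hij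
  obtain ⟨L, hL, hview⟩ := X.H.view_exists
  obtain ⟨C₂, hC₂, hfar⟩ := X.H.view_far L hL
  obtain ⟨ci, hci, hi⟩ := X.big_P_smul i
  obtain ⟨cj, hcj, hj⟩ := X.big_P_smul j
  obtain ⟨t, ht0, ht1, ht2⟩ : ∃ t : ℝ, 0 < t ∧ t ≤ 1 ∧ 2 * C₂ * t ≤ d := by
    refine ⟨min 1 (d / (2 * C₂)), lt_min one_pos (by positivity), min_le_left _ _, ?_⟩
    have h1 : min 1 (d / (2 * C₂)) ≤ d / (2 * C₂) := min_le_right _ _
    rw [le_div_iff₀ (by positivity)] at h1
    linarith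
  have hL0 : 0 < L := by linarith
  refine ⟨min ci cj * t / L, by positivity, fun s r hr hr1 => ?_⟩
  obtain ⟨g, hg⟩ := hview s (t * r) (by positivity) (by nlinarith)
  have key : ∀ k c, min ci cj ≤ c → Big (c * X.H.sc g) (X.Q.P (g • k)) →
      (∀ w ∈ X.Q.P k, d ≤ dist w (X.H.loc g⁻¹)) →
      ∃ j, X.Q.P j ⊆ ball s r ∧ Big (min ci cj * t / L * r) (X.Q.P j) := by
    intro k c hc hb hw
    refine ⟨g • k, ?_, v3_big_mono hb ?_⟩
    · rw [X.act_P]
      rintro _ ⟨w, hw', rfl⟩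
      have h1 := hfar g s (t * r) hg (g • w)
      rw [inv_smul_smul] at h1
      have h2 : dist (g • w) s * d ≤ C₂ * (t * r) :=
        (mul_le_mul_of_nonneg_left (hw w hw') dist_nonneg).trans h1
      have h3 : 2 * C₂ * t * r ≤ d * r := mul_le_mul_of_nonneg_right ht2 hr.le
      have h4 : 0 < d * r := by positivity
      have h5 : d * dist (g • w) s < d * r := by linarith
      exact mem_ball.2 (lt_of_mul_lt_mul_left h5 hd.le)
    · have h0 : 0 < min ci cj := lt_min hci hcj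
      have h1 : t * r / L ≤ X.H.sc g := by
        rw [div_le_iff₀ hL0]
        have := hg.2.2
        linarith
      calc min ci cj * t / L * r = min ci cj * (t * r / L) := by ring
        _ ≤ c * X.H.sc g := mul_le_mul hc h1 (by positivity) (by linarith)
  rcases hfarP (X.H.loc g⁻¹) with h | h
  · exact key i ci (min_le_left _ _) (hi g).1 h
  · exact key j cj (min_le_right _ _) (hj g).1 h

/-- Holes that are big and near are seen in a finite set. -/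
theorem exists_J0 (L M : ℝ) (hL : 1 ≤ L) (hM : 1 ≤ M) : ∃ J₀ : Finset J, ∀ (g : G) s r,
    X.H.IsView L g s r → ∀ j, Big (r / M) (X.Q.P j) → (∃ b ∈ X.Q.P j, dist b s ≤ M * r) →
    g⁻¹ • j ∈ J₀ := by
  obtain ⟨δ, hδ, h⟩ := X.H.view_big L M hL hM
  refine ⟨(X.Q.finite_big hδ).toFinset, fun g s r hg j hb hn => ?_⟩
  rw [Finite.mem_toFinset, mem_ofPred_eq, X.act_P]
  exact h g s r hg _ hb hn

/-- Only finitely many elements send two distinct holes into a finite set. -/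
theorem finite_two_holes {i j : J} (h : i ≠ j) (J₀ : Finset J) :
    {g : G | g • i ∈ J₀ ∧ g • j ∈ J₀}.Finite := by
  obtain ⟨δ, hδ, hb⟩ := X.v3_big_finset J₀
  refine (X.H.lemmaN (X.Q.isCompact_P i) (X.Q.isCompact_P j) (X.Q.P_disj i j h) hδ).subset ?_
  rintro g ⟨hi, hj⟩
  refine ⟨?_, ?_⟩
  · rw [← X.act_P]
    exact hb _ hi
  · rw [← X.act_P]
    exact hb _ hj

/-- The stabiliser of a hole is quasiconvex with limit set the boundary of the hole. -/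
theorem qc_hole (j : J) : X.H.QC (MulAction.stabilizer G j) (X.Q.P j) := by
  classical
  obtain ⟨M₁, hM₁, hloc⟩ := X.H.loc_near_of_smul_eq (X.Q.P_nontrivial j)
  obtain ⟨L, hL, hview⟩ := X.H.view_exists
  obtain ⟨δ, hδ, hb⟩ := X.Q.exists_big j
  obtain ⟨J₀, hJ₀⟩ := X.exists_J0 L (max 1 (1 / δ)) hL (le_max_left _ _)
  have hf : ∀ k : J, ∃ h : G, (∃ g : G, g • j = k) → h • j = k := by
    intro k
    by_cases hk : ∃ g : G, g • j = k
    · obtain ⟨g, hg⟩ := hk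
      exact ⟨g, fun _ => hg⟩
    · exact ⟨1, fun h => absurd h hk⟩
  choose f hf using hf
  obtain ⟨L', hL', hstep⟩ := X.H.view_step L hL (J₀.sup fun k => X.H.len (f k))
  refine ⟨max M₁ L', le_max_of_le_left hM₁, fun a ha => ?_, fun ξ hξ r hr hr1 => ?_⟩
  · obtain ⟨b, hb, h⟩ := hloc a (by rw [← X.act_P, MulAction.mem_stabilizer_iff.1 ha])
    exact ⟨b, hb, h.trans (mul_le_mul_of_nonneg_right (le_max_left _ _) (X.H.sc_pos a).le)⟩
  · obtain ⟨g, hg⟩ := hview ξ r hr hr1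
    have hM0 : 0 < max 1 (1 / δ) := lt_max_of_lt_left one_pos
    have hmem : g⁻¹ • j ∈ J₀ := by
      refine hJ₀ g ξ r hg j (v3_big_mono hb ?_) ⟨ξ, hξ, ?_⟩
      · rw [div_le_iff₀ hM0]
        have h1 : δ * (1 / δ) ≤ δ * max 1 (1 / δ) :=
          mul_le_mul_of_nonneg_left (le_max_right _ _) hδ.le
        rw [mul_one_div_cancel hδ.ne'] at h1
        linarith
      · rw [dist_self]
        positivity
    refine ⟨g * f (g⁻¹ • j), ?_, HB.IsView.mono hr.le (le_max_right _ _)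
      (hstep g ξ r _ hg (Finset.le_sup (f := fun k => X.H.len (f k)) hmem))⟩
    rw [MulAction.mem_stabilizer_iff, mul_smul, hf _ ⟨g⁻¹, rfl⟩, smul_inv_smul]

end KKC.CS
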