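import Mathlib

/-! Von Neumann dimension for Hilbert spaces with a finitely generated Parseval frame of a
group, and the density lemma `closure T (ker (Q T)) = closure (range T) ⊓ ker Q`. -/

open scoped InnerProductSpace Topology
open Filter ContinuousLinearMap

namespace KKVN

/-- A Hilbert space with an action of `A` and finitely many vectors whose translates form a
Parseval frame. -/
structure Fr (A : Type*) [Group A] (H : Type*) [NormedAddCommGroup H] [InnerProductSpace ℝ H] where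
  ρ : A → H →L[ℝ] H
  adj : ∀ g x y, ⟪ρ g x, y⟫_ℝ = ⟪x, ρ g⁻¹ y⟫_ℝ
  n : ℕ
  e : Fin n → H
  par : ∀ u v, HasSum (fun g : A => ∑ i, ⟪u, ρ g (e i)⟫_ℝ * ⟪ρ g (e i), v⟫_ℝ) ⟪u, v⟫_ℝ

variable {A : Type*} [Group A]
  {H1 : Type*} [NormedAddCommGroup H1] [InnerProductSpace ℝ H1] [CompleteSpace H1]
  {H2 : Type*} [NormedAddCommGroup H2] [InnerProductSpace ℝ H2] [CompleteSpace H2]
  {H3 : Type*} [NormedAddCommGroup H3] [InnerProductSpace ℝ H3] [CompleteSpace H3]

/-- Equivariant operators. -/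
def Eqv (F1 : Fr A H1) (F2 : Fr A H2) (T : H1 →L[ℝ] H2) : Prop :=
  ∀ g x, T (F1.ρ g x) = F2.ρ g (T x)

/-- Invariant subspaces. -/
def Inv (F : Fr A H1) (V : Submodule ℝ H1) : Prop := ∀ g x, x ∈ V → F.ρ g x ∈ V

/-- The trace. -/
noncomputable def tr (F : Fr A H1) (S : H1 →L[ℝ] H1) : ℝ := ∑ i, ⟪F.e i, S (F.e i)⟫_ℝ

/-- Projection onto the closure of a subspace. -/
noncomputable def pr (V : Submodule ℝ H1) : H1 →L[ℝ] H1 := V.topologicalClosure.starProjection

/-- The dimension of the closure of a subspace. -/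
noncomputable def dim (F : Fr A H1) (V : Submodule ℝ H1) : ℝ := ∑ i, ‖pr V (F.e i)‖ ^ 2

omit [CompleteSpace H1] in
theorem Fr.adj' (F : Fr A H1) (g : A) (x y : H1) : ⟪x, F.ρ g y⟫_ℝ = ⟪F.ρ g⁻¹ x, y⟫_ℝ := by
  rw [F.adj, inv_inv]

theorem Eqv.adjoint {F1 : Fr A H1} {F2 : Fr A H2} {T : H1 →L[ℝ] H2} (h : Eqv F1 F2 T) :
    Eqv F2 F1 (adjoint T) := by
  intro g y
  refine ext_inner_right ℝ fun x => ?_
  rw [adjoint_inner_left, F2.adj, F1.adj, adjoint_inner_left, h]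

omit [CompleteSpace H1] [CompleteSpace H2] [CompleteSpace H3] in
theorem Eqv.comp {F1 : Fr A H1} {F2 : Fr A H2} {F3 : Fr A H3} {T : H1 →L[ℝ] H2}
    {Q : H2 →L[ℝ] H3} (hQ : Eqv F2 F3 Q) (hT : Eqv F1 F2 T) : Eqv F1 F3 (Q ∘L T) := by
  intro g x
  simp only [comp_apply]
  rw [hT, hQ]

theorem tr_comm {F1 : Fr A H1} {F2 : Fr A H2} {S : H1 →L[ℝ] H2} {T : H2 →L[ℝ] H1}
    (hS : Eqv F1 F2 S) (hT : Eqv F2 F1 T) : tr F1 (T ∘L S) = tr F2 (S ∘L T) := by
  have h1 : HasSum (fun g : A => ∑ i, ∑ j,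
      ⟪adjoint T (F1.e i), F2.ρ g (F2.e j)⟫_ℝ * ⟪F2.ρ g (F2.e j), S (F1.e i)⟫_ℝ)
      (tr F1 (T ∘L S)) := by
    have := hasSum_sum (s := Finset.univ) fun i _ => F2.par (adjoint T (F1.e i)) (S (F1.e i))
    simpa only [tr, comp_apply, adjoint_inner_left] using this
  have h2 : HasSum (fun g : A => ∑ j, ∑ i,
      ⟪adjoint S (F2.e j), F1.ρ g (F1.e i)⟫_ℝ * ⟪F1.ρ g (F1.e i), T (F2.e j)⟫_ℝ)
      (tr F2 (S ∘L T)) := by
    have := hasSum_sum (s := Finset.univ) fun j _ => F1.par (adjoint S (F2.e j)) (T (F2.e j))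
    simpa only [tr, comp_apply, adjoint_inner_left] using this
  have h3 := (Equiv.inv A).hasSum_iff.mpr h2
  refine h1.unique ?_
  convert h3 using 2 with g
  simp only [Function.comp_apply, Equiv.inv_apply]
  rw [Finset.sum_comm]
  refine Finset.sum_congr rfl fun j _ => Finset.sum_congr rfl fun i _ => ?_
  rw [adjoint_inner_left, adjoint_inner_left, hT, hS, F1.adj, inv_inv, F2.adj, mul_comm]

theorem pr_mem (V : Submodule ℝ H1) (x : H1) : pr V x ∈ V.topologicalClosure :=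
  Submodule.starProjection_apply_mem _ _

theorem pr_orth (V : Submodule ℝ H1) (x : H1) {w : H1} (hw : w ∈ V.topologicalClosure) :
    ⟪x - pr V x, w⟫_ℝ = 0 :=
  Submodule.starProjection_inner_eq_zero _ _ hw

theorem pr_eq {V : Submodule ℝ H1} {x v : H1} (hv : v ∈ V.topologicalClosure)
    (h : ∀ w ∈ V, ⟪x - v, w⟫_ℝ = 0) : pr V x = v := by
  refine Submodule.eq_starProjection_of_mem_orthogonal hv ?_
  rw [Submodule.orthogonal_closure]
  exact (Submodule.mem_orthogonal' _ _).mpr h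

theorem pr_self {V : Submodule ℝ H1} {v : H1} (hv : v ∈ V.topologicalClosure) : pr V v = v :=
  pr_eq hv (by simp)

theorem inner_pr (V : Submodule ℝ H1) (x : H1) {w : H1} (hw : w ∈ V.topologicalClosure) :
    ⟪pr V x, w⟫_ℝ = ⟪x, w⟫_ℝ := by
  have := pr_orth V x hw
  rw [inner_sub_left] at this
  linarith

theorem inner_pr_self (V : Submodule ℝ H1) (x : H1) : ⟪x, pr V x⟫_ℝ = ‖pr V x‖ ^ 2 := by
  rw [← inner_pr V x (pr_mem V x), real_inner_self_eq_norm_sq]

omit [CompleteSpace H1] in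
theorem Inv.closure {F : Fr A H1} {V : Submodule ℝ H1} (h : Inv F V) :
    Inv F V.topologicalClosure := by
  intro g x hx
  have : Set.MapsTo (F.ρ g) (V : Set H1) (V : Set H1) := fun y hy => h g y hy
  exact this.closure (F.ρ g).continuous hx

omit [CompleteSpace H1] in
theorem Inv.orth {F : Fr A H1} {V : Submodule ℝ H1} (h : Inv F V) : Inv F Vᗮ := by
  intro g x hx
  rw [Submodule.mem_orthogonal'] at hx ⊢
  intro u hu
  rw [F.adj]
  exact hx _ (h _ _ hu)

omit [CompleteSpace H1] in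
theorem Inv.inf {F : Fr A H1} {V W : Submodule ℝ H1} (h : Inv F V) (h' : Inv F W) :
    Inv F (V ⊓ W) := fun g x hx => ⟨h g x hx.1, h' g x hx.2⟩

omit [CompleteSpace H1] [CompleteSpace H2] in
theorem Eqv.ker {F1 : Fr A H1} {F2 : Fr A H2} {T : H1 →L[ℝ] H2} (h : Eqv F1 F2 T) :
    Inv F1 T.ker := by
  intro g x hx
  have hx' : T x = 0 := hx
  show T (F1.ρ g x) = 0
  rw [h, hx', map_zero]

omit [CompleteSpace H1] [CompleteSpace H2] in
theorem Eqv.map {F1 : Fr A H1} {F2 : Fr A H2} {T : H1 →L[ℝ] H2} (h : Eqv F1 F2 T)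
    {V : Submodule ℝ H1} (hV : Inv F1 V) : Inv F2 (V.map (T : H1 →ₗ[ℝ] H2)) := by
  rintro g _ ⟨x, hx, rfl⟩
  exact ⟨F1.ρ g x, hV g x hx, h g x⟩

omit [CompleteSpace H1] [CompleteSpace H2] in
theorem Eqv.range {F1 : Fr A H1} {F2 : Fr A H2} {T : H1 →L[ℝ] H2} (h : Eqv F1 F2 T) :
    Inv F2 T.range := by
  rintro g _ ⟨x, rfl⟩
  exact ⟨F1.ρ g x, h g x⟩

theorem Inv.pr_eqv {F : Fr A H1} {V : Submodule ℝ H1} (h : Inv F V) : Eqv F F (pr V) := by
  intro g x
  refine pr_eq (h.closure g _ (pr_mem V x)) fun w hw => ?_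
  rw [← map_sub, F.adj]
  exact pr_orth V x (V.le_topologicalClosure (h _ _ hw))

theorem dim_nonneg (F : Fr A H1) (V : Submodule ℝ H1) : 0 ≤ dim F V :=
  Finset.sum_nonneg fun _ _ => sq_nonneg _

theorem dim_closure (F : Fr A H1) (V : Submodule ℝ H1) :
    dim F V.topologicalClosure = dim F V := by
  have : ∀ x, pr V.topologicalClosure x = pr V x := fun x =>
    pr_eq (Submodule.le_topologicalClosure _ (pr_mem V x)) fun w hw => pr_orth V x hw
  simp only [dim, this]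

/-- Faithfulness. -/
theorem eq_zero_of_dim {F : Fr A H1} {V : Submodule ℝ H1} (h : Inv F V) (h0 : dim F V ≤ 0)
    {v : H1} (hv : v ∈ V) : v = 0 := by
  have h1 : ∀ i, pr V (F.e i) = 0 := by
    intro i
    have := (Finset.sum_eq_zero_iff_of_nonneg (fun i _ => sq_nonneg ‖pr V (F.e i)‖)).mp
      (le_antisymm h0 (dim_nonneg F V)) i (Finset.mem_univ i)
    simpa using this
  have h2 : ∀ g i, ⟪F.ρ g (F.e i), v⟫_ℝ = 0 := by
    intro g i
    rw [← inner_pr V _ (V.le_topologicalClosure hv), h.pr_eqv, h1, map_zero, inner_zero_left]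
  have h3 := F.par v v
  simp only [h2, mul_zero, Finset.sum_const_zero] at h3
  exact inner_self_eq_zero.mp (h3.unique hasSum_zero)

theorem norm_pr_add {U W M : Submodule ℝ H1} (hU : U ≤ M) (hW : W ≤ M)
    (hUW : ∀ u ∈ U, ∀ w ∈ W, ⟪u, w⟫_ℝ = 0) (x : H1) :
    ‖pr U x‖ ^ 2 + ‖pr W x‖ ^ 2 ≤ ‖pr M x‖ ^ 2 := by
  have ho : ⟪pr U x, pr W x⟫_ℝ = 0 := by
    have h1 : U ⟂ W := (Submodule.isOrtho_iff_inner_eq).mpr hUW
    have h2 : U.topologicalClosure ⟂ W.topologicalClosure := by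
      rw [Submodule.isOrtho_iff_le, Submodule.orthogonal_closure]
      exact Submodule.topologicalClosure_minimal _ h1 (Submodule.isClosed_orthogonal _)
    exact h2.inner_eq (pr_mem U x) (pr_mem W x)
  set z := pr U x + pr W x with hz
  have hzM : z ∈ M.topologicalClosure :=
    add_mem (Submodule.topologicalClosure_mono hU (pr_mem U x))
      (Submodule.topologicalClosure_mono hW (pr_mem W x))
  have h1 : ‖z‖ ^ 2 = ‖pr U x‖ ^ 2 + ‖pr W x‖ ^ 2 := by
    rw [hz, norm_add_sq_real, ho]; ring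
  have h2 : ⟪x, z⟫_ℝ = ‖z‖ ^ 2 := by
    rw [h1, hz, inner_add_right, inner_pr_self, inner_pr_self]
  have h3 : ⟪x, z⟫_ℝ ≤ ‖pr M x‖ * ‖z‖ := by
    rw [← inner_pr M x hzM]; exact real_inner_le_norm _ _
  rw [← h1]
  nlinarith [norm_nonneg z, norm_nonneg (pr M x), sq_nonneg (‖z‖ - ‖pr M x‖)]

theorem dim_add_le (F : Fr A H1) {U W M : Submodule ℝ H1} (hU : U ≤ M) (hW : W ≤ M)
    (hUW : ∀ u ∈ U, ∀ w ∈ W, ⟪u, w⟫_ℝ = 0) : dim F U + dim F W ≤ dim F M := by
  simp only [dim, ← Finset.sum_add_distrib]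
  exact Finset.sum_le_sum fun i _ => norm_pr_add hU hW hUW _

theorem dim_mono (F : Fr A H1) {U M : Submodule ℝ H1} (hU : U ≤ M) : dim F U ≤ dim F M := by
  have := dim_add_le F hU (bot_le : (⊥ : Submodule ℝ H1) ≤ M) (by simp)
  linarith [dim_nonneg F (⊥ : Submodule ℝ H1)]

/-- The resolvent of `T† T` at `-ε`. -/
theorem exists_res (T : H1 →L[ℝ] H2) {ε : ℝ} (hε : 0 < ε) :
    ∃ R : H1 →L[ℝ] H1, (∀ x, adjoint T (T (R x)) + ε • R x = x) ∧
      (∀ x, R (adjoint T (T x) + ε • x) = x) := by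
  have hu : IsUnit (adjoint T ∘L T + ε • (1 : H1 →L[ℝ] H1)) := by
    refine isUnit_of_forall_le_norm_inner_map _ (c := ⟨ε, hε.le⟩) hε fun x => ?_
    have : ⟪(adjoint T ∘L T + ε • (1 : H1 →L[ℝ] H1)) x, x⟫_ℝ = ‖T x‖ ^ 2 + ε * ‖x‖ ^ 2 := by
      show ⟪adjoint T (T x) + ε • x, x⟫_ℝ = _
      simp only [inner_add_left, adjoint_inner_left,
        real_inner_smul_left, real_inner_self_eq_norm_sq]
    rw [this, Real.norm_eq_abs]
    refine le_trans ?_ (le_abs_self _)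
    show ‖x‖ ^ 2 * ε ≤ _
    nlinarith [sq_nonneg ‖T x‖]
  obtain ⟨u, hu⟩ := hu
  refine ⟨↑u⁻¹, fun x => ?_, fun x => ?_⟩
  · have : ((u : H1 →L[ℝ] H1) * ↑u⁻¹) x = x := by rw [u.mul_inv]; rfl
    rw [hu] at this
    simpa using this
  · have : ((↑u⁻¹ : H1 →L[ℝ] H1) * (u : H1 →L[ℝ] H1)) x = x := by rw [u.inv_mul]; rfl
    rw [hu] at this
    simpa using this

theorem res_norm {T : H1 →L[ℝ] H2} {ε : ℝ} (hε : 0 < ε) {R : H1 →L[ℝ] H1}
    (hR : ∀ x, adjoint T (T (R x)) + ε • R x = x) (x : H1) : ‖ε • R x‖ ≤ ‖x‖ := by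
  have h1 : ⟪x, R x⟫_ℝ = ‖T (R x)‖ ^ 2 + ε * ‖R x‖ ^ 2 := by
    have h0 : ⟪adjoint T (T (R x)) + ε • R x, R x⟫_ℝ = ‖T (R x)‖ ^ 2 + ε * ‖R x‖ ^ 2 := by
      simp only [inner_add_left, adjoint_inner_left, real_inner_smul_left,
        real_inner_self_eq_norm_sq]
    rwa [hR] at h0
  have h2 : ⟪x, R x⟫_ℝ ≤ ‖x‖ * ‖R x‖ := real_inner_le_norm _ _
  rw [norm_smul, Real.norm_eq_abs, abs_of_pos hε]
  by_contra hc
  push Not at hc
  have h3 : 0 < ‖R x‖ := by
    by_contra h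
    have : ‖R x‖ = 0 := le_antisymm (not_lt.mp h) (norm_nonneg _)
    rw [this, mul_zero] at hc
    linarith [norm_nonneg x]
  nlinarith [sq_nonneg ‖T (R x)‖]

theorem res_adj {T : H1 →L[ℝ] H2} {ε : ℝ} (hε : 0 < ε) {R : H1 →L[ℝ] H1}
    (hR : ∀ x, adjoint T (T (R x)) + ε • R x = x) (y : H2) :
    ‖ε • R (adjoint T y)‖ ^ 2 ≤ ε * ‖y‖ ^ 2 := by
  set v := R (adjoint T y) with hv
  have h1 : ⟪adjoint T y, v⟫_ℝ = ‖T v‖ ^ 2 + ε * ‖v‖ ^ 2 := by
    conv_lhs => rw [← hR (adjoint T y)]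
    simp only [inner_add_left, adjoint_inner_left, real_inner_smul_left,
      real_inner_self_eq_norm_sq, ← hv]
  have h2 : ⟪adjoint T y, v⟫_ℝ ≤ ‖y‖ * ‖T v‖ := by
    rw [adjoint_inner_left]; exact real_inner_le_norm _ _
  have h3 : ε * ‖v‖ ^ 2 ≤ ‖y‖ ^ 2 := by nlinarith [sq_nonneg (‖y‖ - ‖T v‖), sq_nonneg ‖y‖]
  rw [norm_smul, Real.norm_eq_abs, abs_of_pos hε, mul_pow]
  nlinarith

theorem res_lim {T : H1 →L[ℝ] H2} {ε : ℕ → ℝ} (hε : ∀ n, 0 < ε n) (h0 : Tendsto ε atTop (𝓝 0))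
    {R : ℕ → H1 →L[ℝ] H1} (hR : ∀ n x, adjoint T (T (R n x)) + ε n • R n x = x)
    (hR' : ∀ n x, R n (adjoint T (T x) + ε n • x) = x) (x : H1) :
    Tendsto (fun n => x - ε n • R n x) atTop (𝓝 (pr (T.kerᗮ) x)) := by
  set q := pr (T.kerᗮ) x with hq
  have hqm : q ∈ T.kerᗮ := by
    have := pr_mem (T.kerᗮ) x
    rwa [(Submodule.isClosed_orthogonal _).submodule_topologicalClosure_eq] at this
  have hp : x - q ∈ T.ker := by
    have h1 : x - q ∈ T.kerᗮᗮ :=
      (Submodule.mem_orthogonal' _ _).mpr fun w hw =>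
        pr_orth _ x (Submodule.le_topologicalClosure _ hw)
    rwa [Submodule.orthogonal_orthogonal_eq_closure,
      T.isClosed_ker.submodule_topologicalClosure_eq] at h1
  have hp' : T (x - q) = 0 := hp
  have h1 : ∀ n, ε n • R n (x - q) = x - q := by
    intro n
    have := hR' n (x - q)
    rw [hp', map_zero, zero_add, map_smul] at this
    exact this
  have h2 : ∀ n, x - ε n • R n x = q - ε n • R n q := by
    intro n
    have := h1 n
    rw [map_sub, smul_sub] at this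
    rw [sub_eq_iff_eq_add.mp this]; abel
  simp only [h2]
  have h3 : Tendsto (fun n => ε n • R n q) atTop (𝓝 0) := by
    rw [Metric.tendsto_atTop]
    intro δ hδ
    rw [orthogonal_ker] at hqm
    obtain ⟨_, ⟨y, rfl⟩, hy⟩ := Metric.mem_closure_iff.mp hqm (δ / 2) (by positivity)
    have h4 : Tendsto (fun n => ε n * ‖y‖ ^ 2) atTop (𝓝 0) := by
      simpa using h0.mul_const (‖y‖ ^ 2)
    obtain ⟨N, hN⟩ := eventually_atTop.mp (h4.eventually (gt_mem_nhds (show 0 < (δ / 2) ^ 2 by positivity)))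
    refine ⟨N, fun n hn => ?_⟩
    rw [dist_zero_right]
    have h5 : ε n • R n q = ε n • R n (q - adjoint T y) + ε n • R n (adjoint T y) := by
      rw [map_sub, smul_sub]; abel
    have h6 := res_norm (hε n) (hR n) (q - adjoint T y)
    have h7 : ‖ε n • R n (adjoint T y)‖ < δ / 2 :=
      lt_of_pow_lt_pow_left₀ 2 (by positivity) ((res_adj (hε n) (hR n) y).trans_lt (hN n hn))
    rw [dist_eq_norm] at hy
    have hy' : ‖q - adjoint T y‖ < δ / 2 := hy
    rw [h5]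
    refine (norm_add_le _ _).trans_lt ?_
    linarith
  simpa using (tendsto_const_nhds (x := q)).sub h3

/-- Rank and nullity. -/
theorem rank_nullity {F1 : Fr A H1} {F2 : Fr A H2} {T : H1 →L[ℝ] H2} (h : Eqv F1 F2 T) :
    dim F1 T.kerᗮ = dim F2 T.range := by
  set ε : ℕ → ℝ := fun n => 1 / ((n : ℝ) + 1) with hεd
  have hε : ∀ n, 0 < ε n := fun n => by positivity
  have h0 : Tendsto ε atTop (𝓝 0) := tendsto_one_div_add_atTop_nhds_zero_nat
  choose R1 hR1 hR1' using fun n => exists_res T (hε n)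
  choose R2 hR2 hR2' using fun n => exists_res (adjoint T) (hε n)
  have hE : ∀ n, Eqv F1 F1 (R1 n) := by
    intro n g x
    conv_lhs => rw [← hR1 n x]
    rw [map_add, map_smul, ← h.adjoint, ← h, hR1']
  have hc : ∀ n x, T (R1 n x) = R2 n (T x) := by
    intro n x
    conv_rhs => rw [← hR1 n x]
    have := hR2' n (T (R1 n x))
    rw [adjoint_adjoint] at this
    rw [map_add, map_smul, this]
  have key : ∀ n, ∑ i, ⟪F1.e i, F1.e i - ε n • R1 n (F1.e i)⟫_ℝ =
      ∑ j, ⟪F2.e j, F2.e j - ε n • R2 n (F2.e j)⟫_ℝ := by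
    intro n
    have := tr_comm (h.comp (hE n)) h.adjoint
    simp only [tr, comp_apply] at this
    convert this using 3 with i _ j _
    · exact (eq_sub_of_add_eq (hR1 n _)).symm
    · rw [hc]
      have := hR2' n (F2.e j)
      rw [adjoint_adjoint, map_add, map_smul] at this
      exact (eq_sub_of_add_eq this).symm
  have l1 : Tendsto (fun n => ∑ i, ⟪F1.e i, F1.e i - ε n • R1 n (F1.e i)⟫_ℝ) atTop
      (𝓝 (dim F1 T.kerᗮ)) := by
    refine tendsto_finsetSum _ fun i _ => ?_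
    rw [← inner_pr_self]
    exact tendsto_const_nhds.inner (res_lim hε h0 hR1 hR1' _)
  have l2 : Tendsto (fun n => ∑ j, ⟪F2.e j, F2.e j - ε n • R2 n (F2.e j)⟫_ℝ) atTop
      (𝓝 (dim F2 (adjoint T).kerᗮ)) := by
    refine tendsto_finsetSum _ fun i _ => ?_
    rw [← inner_pr_self]
    exact tendsto_const_nhds.inner (res_lim hε h0 hR2 hR2' _)
  simp only [key] at l1
  rw [tendsto_nhds_unique l1 l2, orthogonal_ker, adjoint_adjoint, dim_closure]

/-- The density lemma. -/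
theorem dense_ker {F1 : Fr A H1} {F2 : Fr A H2} {F3 : Fr A H3} {T : H1 →L[ℝ] H2}
    {Q : H2 →L[ℝ] H3} (hT : Eqv F1 F2 T) (hQ : Eqv F2 F3 Q) {y : H2}
    (hy : y ∈ closure (Set.range T)) (hQy : Q y = 0) :
    y ∈ closure (T '' {x | Q (T x) = 0}) := by
  set K := (Q ∘L T).ker with hK
  set N := (K.map (T : H1 →ₗ[ℝ] H2)) with hN
  set M := T.range.topologicalClosure with hM
  set M2 := M ⊓ Nᗮ with hM2
  set W := M2 ⊓ Q.ker with hW
  have iK : Inv F1 K := (hQ.comp hT).ker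
  have iN : Inv F2 N := hT.map iK
  have iM : Inv F2 M := hT.range.closure
  have iM2 : Inv F2 M2 := iM.inf iN.orth
  have iW : Inv F2 W := iM2.inf hQ.ker
  have cM2 : IsClosed (M2 : Set H2) :=
    (Submodule.isClosed_topologicalClosure _).inter (Submodule.isClosed_orthogonal _)
  have pM2 : ∀ x, pr M2 x ∈ M2 := fun x => by
    have := pr_mem M2 x
    rwa [cM2.submodule_topologicalClosure_eq] at this
  have hNM : N.topologicalClosure ≤ M := Submodule.topologicalClosure_mono (by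
    rintro _ ⟨x, -, rfl⟩; exact ⟨x, rfl⟩)
  have hQN : ∀ z ∈ N.topologicalClosure, Q z = 0 := by
    have : N.topologicalClosure ≤ Q.ker :=
      Submodule.topologicalClosure_minimal _ (by rintro _ ⟨x, hx, rfl⟩; exact hx) Q.isClosed_ker
    exact fun z hz => this hz
  have hsub : ∀ z ∈ M, z - pr N z ∈ M2 := fun z hz =>
    ⟨sub_mem hz (hNM (pr_mem N z)), (Submodule.mem_orthogonal' _ _).mpr fun w hw =>
      pr_orth N z (Submodule.le_topologicalClosure _ hw)⟩
  -- first inequality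
  have e1 : dim F2 M2 ≤ dim F1 Kᗮ := by
    have hS : Eqv F1 F2 (pr M2 ∘L T) := iM2.pr_eqv.comp hT
    have a1 : M2 ≤ (pr M2 ∘L T).range.topologicalClosure := by
      intro w hw
      have hm : Set.MapsTo (pr M2) (T.range : Set H2) ((pr M2 ∘L T).range : Set H2) := by
        rintro _ ⟨x, rfl⟩; exact ⟨x, rfl⟩
      have := hm.closure (pr M2).continuous hw.1
      rwa [pr_self (Submodule.le_topologicalClosure _ hw)] at this
    have a2 : K ≤ (pr M2 ∘L T).ker := by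
      intro x hx
      show pr M2 (T x) = 0
      refine pr_eq (zero_mem _) fun w hw => ?_
      rw [sub_zero]
      exact (Submodule.mem_orthogonal _ _).mp hw.2 _ ⟨x, hx, rfl⟩
    calc dim F2 M2 ≤ dim F2 (pr M2 ∘L T).range.topologicalClosure := dim_mono F2 a1
      _ = dim F1 (pr M2 ∘L T).kerᗮ := by rw [dim_closure, rank_nullity hS]
      _ ≤ dim F1 Kᗮ := dim_mono F1 (Submodule.orthogonal_le a2)
  have e2 : dim F1 Kᗮ + dim F2 W ≤ dim F2 M2 := by
    have hR : Eqv F2 F3 (Q ∘L pr M2) := hQ.comp iM2.pr_eqv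
    have a1 : (Q ∘L T).range ≤ (Q ∘L pr M2).range := by
      rintro _ ⟨x, rfl⟩
      have hx : T x ∈ M := Submodule.le_topologicalClosure _ ⟨x, rfl⟩
      refine ⟨T x - pr N (T x), ?_⟩
      show Q (pr M2 (T x - pr N (T x))) = Q (T x)
      rw [pr_self (Submodule.le_topologicalClosure _ (hsub _ hx)), map_sub,
        hQN _ (pr_mem N _), sub_zero]
    have a2 : (Q ∘L pr M2).kerᗮ ≤ M2 := by
      have : M2ᗮ ≤ (Q ∘L pr M2).ker := by
        intro x hx
        show Q (pr M2 x) = 0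
        rw [pr_eq (zero_mem _) fun w hw => by
          rw [sub_zero]; exact (Submodule.mem_orthogonal' _ _).mp hx w hw, map_zero]
      have h2 := Submodule.orthogonal_le this
      rwa [Submodule.orthogonal_orthogonal_eq_closure, cM2.submodule_topologicalClosure_eq] at h2
    have a3 : ∀ u ∈ (Q ∘L pr M2).kerᗮ, ∀ w ∈ W, ⟪u, w⟫_ℝ = 0 := by
      intro u hu w hw
      refine (Submodule.mem_orthogonal' _ _).mp hu w ?_
      show Q (pr M2 w) = 0
      rw [pr_self (Submodule.le_topologicalClosure _ hw.1)]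
      exact hw.2
    have b1 : dim F1 Kᗮ = dim F3 (Q ∘L T).range := rank_nullity (hQ.comp hT)
    have b2 := dim_mono F3 a1
    have b3 := rank_nullity hR
    have b4 := dim_add_le F2 a2 (inf_le_left : W ≤ M2) a3
    linarith
  have hyM : y ∈ M := hy
  have hw : y - pr N y ∈ W := ⟨hsub y hyM, by
    show Q (y - pr N y) = 0
    rw [map_sub, hQy, hQN _ (pr_mem N y), sub_zero]⟩
  have h0 := eq_zero_of_dim iW (by linarith) hw
  rw [sub_eq_zero.mp h0]
  exact pr_mem N y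

end KKVN
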