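import Pool.Agent.Lib.MP_e1e491_gt.V3

/-! Colouring the plane by witness holes. `foot v` is a point of `Z` whose image is nearest to `v`
(if `v ∈ D j` it lies on `P j`, by `meets_P` for the segment); `wit v r = j` if `v ∈ D j` and `P j` is
`r`-big, otherwise a witness hole in the ball of radius `r` around `foot v`. For `clu`: if all the
points lie in one hole `D j`, then `P j` is not `ρ`-big; otherwise all of them are within `2 h` of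
`range ι`, so the feet are within `6 h` in the plane. -/

namespace KKC.CS

open Set Metric

variable {G Z J : Type} [Group G] [MetricSpace Z] [CompactSpace Z] [MulAction G Z]
  [ContinuousConstSMul G Z] [MulAction G J]

/-- A colouring by witness holes. -/
structure Wit (X : CS G Z J) where
  c : ℝ
  foot : ℂ → Z
  wit : ℂ → ℝ → J
  c_pos : 0 < c
  c_le : c ≤ 1
  big : ∀ v r, 0 < r → r ≤ 1 → Big (c * r) (X.Q.P (wit v r))
  near : ∀ v r, 0 < r → r ≤ 1 → ∃ b ∈ X.Q.P (wit v r), dist b (foot v) ≤ r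
  eq_of_mem : ∀ v r j, v ∈ X.Q.D j → Big r (X.Q.P j) → wit v r = j
  close : ∀ ε > 0, ∃ r₀ > 0, ∀ v r, 0 < r → r ≤ r₀ → ∃ w ∈ X.Q.D (wit v r), ‖v - w‖ < ε
  clu : ∀ r₁ > 0, ∃ h > 0, ∀ ρ v₁ v₂ r r', r₁ ≤ r → r₁ ≤ r' → r ≤ ρ → r' ≤ ρ →
    wit v₁ r ≠ wit v₂ r' → ‖v₂ - v₁‖ ≤ h → ∀ v v', ‖v - v₁‖ ≤ h → ‖v' - v₁‖ ≤ h →
    dist (foot v) (foot v') ≤ ρ
  clu_close : ∀ ε > 0, ∃ r₀ > 0, ∃ h > 0, ∀ v₁ v₂ r r', 0 < r → 0 < r' → r ≤ r₀ → r' ≤ r₀ →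
    wit v₁ r ≠ wit v₂ r' → ‖v₂ - v₁‖ ≤ h → ∀ v, ‖v - v₁‖ ≤ h → ‖v - X.Q.ι (foot v)‖ < ε

theorem wit_big_mono {s : Set Z} {δ δ' : ℝ} (h : δ' ≤ δ) (hb : Big δ s) : Big δ' s := by
  obtain ⟨x, hx, y, hy, hxy⟩ := hb
  exact ⟨x, hx, y, hy, h.trans hxy⟩

theorem wit_foot (Q : PD Z J) : ∃ foot : ℂ → Z, (∀ v z, ‖v - Q.ι (foot v)‖ ≤ ‖v - Q.ι z‖) ∧
    ∀ v j, v ∈ Q.D j → foot v ∈ Q.P j := by
  obtain ⟨z0, -⟩ := (Q.P_nontrivial Q.o).nonempty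
  have h1 : ∀ v : ℂ, ∃ z, ∀ z', ‖v - Q.ι z‖ ≤ ‖v - Q.ι z'‖ := by
    intro v
    have hc : Continuous fun z => ‖v - Q.ι z‖ := (continuous_const.sub Q.ι_cont).norm
    obtain ⟨z, -, hz⟩ := isCompact_univ.exists_isMinOn ⟨z0, mem_univ _⟩ hc.continuousOn
    exact ⟨z, fun z' => hz (mem_univ z')⟩
  choose foot hf using h1
  refine ⟨foot, hf, fun v j hv => ?_⟩
  obtain ⟨b, hb, hs⟩ := Q.meets_P (convex_segment v (Q.ι (foot v))).isPreconnected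
    (left_mem_segment ℝ _ _) (right_mem_segment ℝ _ _) hv (Q.not_mem _ j)
  have h2 := dist_add_dist_of_mem_segment hs
  have h3 := hf v b
  rw [← dist_eq_norm, ← dist_eq_norm] at h3
  have h4 : dist (Q.ι b) (Q.ι (foot v)) ≤ 0 := by linarith
  rw [← Q.ι_inj (dist_le_zero.1 h4)]
  exact hb

theorem wit_ball (Q : PD Z J) (v₁ : ℂ) {h : ℝ} (hh : 0 ≤ h) :
    (∃ z, ‖Q.ι z - v₁‖ ≤ h) ∨ ∃ j, ∀ v, ‖v - v₁‖ ≤ h → v ∈ Q.D j := by
  by_cases hz : ∃ z, ‖Q.ι z - v₁‖ ≤ h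
  · exact Or.inl hz
  right
  rcases Q.cover v₁ with ⟨z, rfl⟩ | ⟨j, hj⟩
  · exact absurd ⟨z, by simpa using hh⟩ hz
  refine ⟨j, fun v hv => ?_⟩
  by_contra hn
  obtain ⟨b, -, hb⟩ := Q.meets_P (convex_closedBall v₁ h).isPreconnected (mem_closedBall_self hh)
    (mem_closedBall_iff_norm.2 hv) hj hn
  exact hz ⟨b, mem_closedBall_iff_norm.1 hb⟩

theorem wit_tri (a b c : ℂ) : ‖a - c‖ ≤ ‖a - b‖ + ‖c - b‖ := by
  rw [norm_sub_rev c b]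
  exact norm_sub_le_norm_sub_add_norm_sub a b c

theorem exists_wit (X : CS G Z J) : Nonempty X.Wit := by
  classical
  obtain ⟨foot, hf1, hf2⟩ := wit_foot X.Q
  obtain ⟨c, hc, hw⟩ := X.witness
  have : Nonempty J := ⟨X.Q.o⟩
  choose! wj hw1 hw2 using hw
  obtain ⟨wit, hwit⟩ : ∃ wit : ℂ → ℝ → J, ∀ v r,
      (v ∈ X.Q.D (wit v r) ∧ Big r (X.Q.P (wit v r))) ∨
      ((∀ j, v ∈ X.Q.D j → ¬ Big r (X.Q.P j)) ∧ wit v r = wj (foot v) r) := by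
    refine ⟨fun v r => if h : ∃ j, v ∈ X.Q.D j ∧ Big r (X.Q.P j) then h.choose
      else wj (foot v) r, fun v r => ?_⟩
    by_cases h : ∃ j, v ∈ X.Q.D j ∧ Big r (X.Q.P j)
    · left
      simp only [dif_pos h]
      exact h.choose_spec
    · right
      simp only [dif_neg h]
      exact ⟨fun j hj hb => h ⟨j, hj, hb⟩, trivial⟩
  have heq : ∀ v r j, v ∈ X.Q.D j → Big r (X.Q.P j) → wit v r = j := by
    intro v r j hj hb
    rcases hwit v r with h | h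
    · exact X.Q.hole_unique h.1 hj
    · exact absurd hb (h.1 j hj)
  have hnear : ∀ v r, 0 < r → r ≤ 1 → ∃ b ∈ X.Q.P (wit v r), dist b (foot v) ≤ r := by
    intro v r h0 h1
    rcases hwit v r with h | h
    · exact ⟨foot v, hf2 _ _ h.1, by simpa using h0.le⟩
    · obtain ⟨b, hb, -⟩ := hw2 (foot v) r h0 h1
      exact ⟨b, h.2 ▸ hb, (mem_ball.1 (hw1 _ _ h0 h1 hb)).le⟩
  have hsmall : ∀ (j : J) (v₁ v₂ : ℂ) (r r' ρ : ℝ), r ≤ ρ → r' ≤ ρ → wit v₁ r ≠ wit v₂ r' →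
      v₁ ∈ X.Q.D j → v₂ ∈ X.Q.D j → ¬ Big ρ (X.Q.P j) := by
    intro j v₁ v₂ r r' ρ h1 h2 hne m1 m2 hb
    exact hne ((heq _ _ _ m1 (wit_big_mono h1 hb)).trans (heq _ _ _ m2 (wit_big_mono h2 hb)).symm)
  refine ⟨⟨min c 1, foot, wit, lt_min hc one_pos, min_le_right _ _, ?_, hnear, heq, ?_, ?_, ?_⟩⟩
  · intro v r h0 h1
    rcases hwit v r with h | h
    · exact wit_big_mono (mul_le_of_le_one_left h0.le (min_le_right _ _)) h.2
    · rw [h.2]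
      exact wit_big_mono (mul_le_mul_of_nonneg_right (min_le_left _ _) h0.le) (hw2 _ _ h0 h1)
  · intro ε hε
    have hε3 : 0 < ε / 3 := by positivity
    obtain ⟨δ, hδ, h1⟩ := X.Q.hole_small hε3
    obtain ⟨δ', hδ', h2⟩ := X.Q.unif_ι hε3
    refine ⟨min 1 (min δ δ'), by positivity, fun v r h0 hr => ?_⟩
    simp only [le_min_iff] at hr
    rcases hwit v r with h | h
    · exact ⟨v, h.1, by simpa using hε⟩
    have h3 : ‖v - X.Q.ι (foot v)‖ < ε / 3 := by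
      rcases X.Q.cover v with ⟨z, rfl⟩ | ⟨j, hj⟩
      · exact (hf1 _ z).trans_lt (by simpa using hε3)
      · exact h1 j (fun hb => h.1 j hj (wit_big_mono hr.2.1 hb)) v hj _ (hf2 _ _ hj)
    obtain ⟨b, hb, hb'⟩ := hnear v r h0 hr.1
    have h4 := h2 _ _ (hb'.trans hr.2.2)
    have h5 : X.Q.ι b ∈ closure (X.Q.D (wit v r)) := by
      rw [X.Q.closure_D]
      exact Or.inr ⟨b, hb, rfl⟩
    obtain ⟨w, hw, hw'⟩ := Metric.mem_closure_iff.1 h5 _ hε3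
    rw [dist_eq_norm] at hw'
    refine ⟨w, hw, ?_⟩
    have h6 := norm_sub_le_norm_sub_add_norm_sub v (X.Q.ι b) w
    have h7 := wit_tri v (X.Q.ι (foot v)) (X.Q.ι b)
    linarith
  · intro r₁ hr₁
    obtain ⟨δ, hδ, h1⟩ := X.Q.unif_ι_inv hr₁
    refine ⟨δ / 6, by positivity, fun ρ v₁ v₂ r r' a1 a2 a3 a4 hne h2 v v' hv hv' => ?_⟩
    rcases wit_ball X.Q v₁ (h := δ / 6) (by positivity) with ⟨z, hz⟩ | ⟨j, hj⟩
    · refine (h1 _ _ ?_).le.trans (a1.trans a3)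
      have b1 := (hf1 v z).trans (wit_tri v v₁ _)
      have b2 := (hf1 v' z).trans (wit_tri v' v₁ _)
      have b3 := wit_tri v v₁ v'
      have b4 := norm_sub_le_norm_sub_add_norm_sub v v' (X.Q.ι (foot v'))
      have b5 := norm_sub_le_norm_sub_add_norm_sub (X.Q.ι (foot v)) v (X.Q.ι (foot v'))
      rw [norm_sub_rev (X.Q.ι (foot v)) v] at b5
      linarith
    · have hb := hsmall j v₁ v₂ r r' ρ a3 a4 hne (hj _ (by simp; positivity)) (hj _ h2)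
      by_contra hlt
      exact hb ⟨_, hf2 _ _ (hj _ hv), _, hf2 _ _ (hj _ hv'), (not_le.1 hlt).le⟩
  · intro ε hε
    obtain ⟨δ, hδ, h1⟩ := X.Q.hole_small hε
    refine ⟨δ, hδ, ε / 3, by positivity, fun v₁ v₂ r r' _ _ a3 a4 hne h2 v hv => ?_⟩
    rcases wit_ball X.Q v₁ (h := ε / 3) (by positivity) with ⟨z, hz⟩ | ⟨j, hj⟩
    · have b1 := (hf1 v z).trans (wit_tri v v₁ _)
      linarith
    · have hb := hsmall j v₁ v₂ r r' δ a3 a4 hne (hj _ (by simp; positivity)) (hj _ h2)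
      exact h1 j hb v (hj _ hv) _ (hf2 _ _ (hj _ hv))

/-- In a cluster with two different witnesses all witnesses are seen in one finite set from any
view of a foot (`clu`, `near`, `big`, `exists_J0`). -/
theorem Wit.view {X : CS G Z J} (W : X.Wit) (L M : ℝ) (hL : 1 ≤ L) (hM : 1 ≤ M) :
    ∃ J₀ : Finset J, ∀ r₁ > 0, ∃ h > 0, ∀ ρ v₁ v₂ r r', ρ ≤ 1 → r₁ ≤ r → r₁ ≤ r' → r ≤ ρ → r' ≤ ρ →
      W.wit v₁ r ≠ W.wit v₂ r' → ‖v₂ - v₁‖ ≤ h → ∀ (g : G) v, ‖v - v₁‖ ≤ h →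
      X.H.IsView L g (W.foot v) ρ → ∀ v' r'', ‖v' - v₁‖ ≤ h → ρ ≤ M * r'' → r'' ≤ ρ →
      g⁻¹ • W.wit v' r'' ∈ J₀ := by
  have hc := W.c_pos
  have hc1 := W.c_le
  have hM2 : 2 ≤ 2 * M / W.c := by
    rw [le_div_iff₀ hc]
    nlinarith
  obtain ⟨J₀, hJ⟩ := X.exists_J0 L (2 * M / W.c) hL (by linarith)
  refine ⟨J₀, fun r₁ hr₁ => ?_⟩
  obtain ⟨h, hh, hclu⟩ := W.clu r₁ hr₁
  refine ⟨h, hh, fun ρ v₁ v₂ r r' a0 a1 a2 a3 a4 hne h2 g v hv hg v' r'' hv' b1 b2 => ?_⟩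
  have hρ : 0 < ρ := hr₁.trans_le (a1.trans a3)
  have hr : 0 < r'' := by
    by_contra hn
    nlinarith [not_lt.1 hn]
  refine hJ g _ ρ hg _ (wit_big_mono ?_ (W.big v' r'' hr (b2.trans a0))) ?_
  · rw [div_le_iff₀ (by linarith)]
    have e : W.c * r'' * (2 * M / W.c) = 2 * (M * r'') := by field_simp
    rw [e]
    linarith
  · obtain ⟨b, hb, hb'⟩ := W.near v' r'' hr (b2.trans a0)
    refine ⟨b, hb, ?_⟩
    have c1 := hclu ρ v₁ v₂ r r' a1 a2 a3 a4 hne h2 v' v hv' hv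
    have c2 := dist_triangle b (W.foot v') (W.foot v)
    nlinarith

end KKC.CS
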